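import Mathlib

/-! Frequency algebra: coefficient bounds for powers of a sum over primes. -/

open Finset

namespace Pool.Agent.R321.FA

/-- frequency vectors -/
abbrev G := ℕ →₀ ℤ

/-- the algebra of frequency polynomials -/
abbrev Al := AddMonoidAlgebra ℝ G

/-- the vector of one prime -/
noncomputable def ds (p : ℕ) : G := Finsupp.single p 1

noncomputable def VV (S : Finset ℕ) (v : ℕ → ℝ) : Al :=
  ∑ p ∈ S, (AddMonoidAlgebra.single (ds p) (v p) + AddMonoidAlgebra.single (-ds p) (v p))

lemma coeff_VV_mul (S : Finset ℕ) (v : ℕ → ℝ) (f : Al) (e : G) :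
    (VV S v * f).coeff e = ∑ p ∈ S, v p * (f.coeff (e - ds p) + f.coeff (e + ds p)) := by
  unfold VV
  rw [Finset.sum_mul, AddMonoidAlgebra.coeff_sum, Finsupp.finsetSum_apply]
  refine Finset.sum_congr rfl fun p _ => ?_
  rw [add_mul, AddMonoidAlgebra.coeff_add, Finsupp.add_apply,
    AddMonoidAlgebra.coeff_single_mul_apply, AddMonoidAlgebra.coeff_single_mul_apply, neg_neg,
    mul_add, neg_add_eq_sub, add_comm (ds p) e]

lemma coeff_step (S : Finset ℕ) (v : ℕ → ℝ) (k : ℕ) (e : G) :
    ((1 + VV S v) ^ (k + 1)).coeff e = ((1 + VV S v) ^ k).coeff e +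
      ∑ p ∈ S, v p * (((1 + VV S v) ^ k).coeff (e - ds p) + ((1 + VV S v) ^ k).coeff (e + ds p)) := by
  rw [pow_succ', add_mul, one_mul, AddMonoidAlgebra.coeff_add, Finsupp.add_apply, coeff_VV_mul]

/-- the length of a vector -/
noncomputable def len (e : G) : ℕ := ∑ p ∈ e.support, (e p).natAbs

/-- the weight of a vector -/
noncomputable def mw (v : ℕ → ℝ) (e : G) : ℝ := ∏ p ∈ e.support, v p ^ (e p).natAbs

lemma len_eq (e : G) (U : Finset ℕ) (h : e.support ⊆ U) : len e = ∑ p ∈ U, (e p).natAbs := by
  unfold len
  refine Finset.sum_subset h fun p _ hp => ?_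
  rw [Finsupp.notMem_support_iff] at hp
  simp [hp]

lemma mw_eq (v : ℕ → ℝ) (e : G) (U : Finset ℕ) (h : e.support ⊆ U) :
    mw v e = ∏ p ∈ U, v p ^ (e p).natAbs := by
  unfold mw
  refine Finset.prod_subset h fun p _ hp => ?_
  rw [Finsupp.notMem_support_iff] at hp
  simp [hp]

lemma len_neg (e : G) : len (-e) = len e := by
  unfold len
  rw [Finsupp.support_neg]
  exact Finset.sum_congr rfl fun p _ => by simp

lemma mw_neg (v : ℕ → ℝ) (e : G) : mw v (-e) = mw v e := by
  unfold mw
  rw [Finsupp.support_neg]
  exact Finset.prod_congr rfl fun p _ => by simp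

lemma len_zero : len 0 = 0 := by simp [len]

lemma mw_zero (v : ℕ → ℝ) : mw v 0 = 1 := by simp [mw]

lemma mw_nonneg {v : ℕ → ℝ} (hv : ∀ p, 0 ≤ v p) (e : G) : 0 ≤ mw v e :=
  Finset.prod_nonneg fun p _ => pow_nonneg (hv p) _

lemma len_eq_zero {e : G} (h : len e = 0) : e = 0 := by
  ext p
  by_contra hp
  have h1 : p ∈ e.support := Finsupp.mem_support_iff.2 hp
  have h2 : (e p).natAbs ≤ len e := Finset.single_le_sum (f := fun p => (e p).natAbs)
    (fun _ _ => Nat.zero_le _) h1
  have h3 : (e p).natAbs = 0 := by omega
  rw [Int.natAbs_eq_zero] at h3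
  exact hp h3

lemma card_support_le (e : G) : e.support.card ≤ len e := by
  unfold len
  rw [Finset.card_eq_sum_ones]
  refine Finset.sum_le_sum fun p hp => ?_
  have h := Finsupp.mem_support_iff.1 hp
  have : (e p).natAbs ≠ 0 := fun h' => h (Int.natAbs_eq_zero.1 h')
  omega

lemma add_ds_apply_same (e : G) (p : ℕ) : (e + ds p) p = e p + 1 := by simp [ds]

lemma add_ds_apply_ne (e : G) {p q : ℕ} (h : q ≠ p) : (e + ds p) q = e q := by
  simp [ds, Finsupp.single_apply, Ne.symm h]

lemma step_split (v : ℕ → ℝ) (e : G) (p : ℕ) : ∃ R : ℝ, ∃ r : ℕ,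
    mw v e = v p ^ (e p).natAbs * R ∧ mw v (e + ds p) = v p ^ (e p + 1).natAbs * R ∧
    len e = (e p).natAbs + r ∧ len (e + ds p) = (e p + 1).natAbs + r := by
  classical
  set U := insert p (e.support ∪ (e + ds p).support) with hU
  have h1 : e.support ⊆ U := fun q hq => by
    rw [hU, Finset.mem_insert, Finset.mem_union]; exact Or.inr (Or.inl hq)
  have h2 : (e + ds p).support ⊆ U := fun q hq => by
    rw [hU, Finset.mem_insert, Finset.mem_union]; exact Or.inr (Or.inr hq)
  have hp : p ∈ U := Finset.mem_insert_self _ _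
  refine ⟨∏ q ∈ U.erase p, v q ^ (e q).natAbs, ∑ q ∈ U.erase p, (e q).natAbs, ?_, ?_, ?_, ?_⟩
  · rw [mw_eq v e U h1, Finset.mul_prod_erase U (fun q => v q ^ (e q).natAbs) hp]
  · rw [mw_eq v _ U h2, ← Finset.mul_prod_erase U _ hp, add_ds_apply_same]
    congr 1
    refine Finset.prod_congr rfl fun q hq => ?_
    rw [add_ds_apply_ne e (Finset.ne_of_mem_erase hq)]
  · rw [len_eq e U h1, Finset.add_sum_erase U (fun q => (e q).natAbs) hp]
  · rw [len_eq _ U h2, ← Finset.add_sum_erase U _ hp, add_ds_apply_same]
    congr 1
    refine Finset.sum_congr rfl fun q hq => ?_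
    rw [add_ds_apply_ne e (Finset.ne_of_mem_erase hq)]

lemma mw_add_pos (v : ℕ → ℝ) (e : G) (p : ℕ) (h : 0 ≤ e p) :
    mw v (e + ds p) = v p * mw v e := by
  obtain ⟨R, r, h1, h2, -, -⟩ := step_split v e p
  rw [h2, h1, show (e p + 1).natAbs = (e p).natAbs + 1 by omega, pow_succ]
  ring

lemma mw_add_neg (v : ℕ → ℝ) (e : G) (p : ℕ) (h : e p < 0) :
    v p * mw v (e + ds p) = mw v e := by
  obtain ⟨R, r, h1, h2, -, -⟩ := step_split v e p
  rw [h2, h1, show (e p).natAbs = (e p + 1).natAbs + 1 by omega, pow_succ]
  ring

lemma len_add_pos (e : G) (p : ℕ) (h : 0 ≤ e p) : len (e + ds p) = len e + 1 := by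
  obtain ⟨R, r, -, -, h1, h2⟩ := step_split (fun _ => 0) e p
  omega

lemma len_add_neg (e : G) (p : ℕ) (h : e p < 0) : len (e + ds p) + 1 = len e := by
  obtain ⟨R, r, -, -, h1, h2⟩ := step_split (fun _ => 0) e p
  omega

lemma len_add_ge (e : G) (p : ℕ) : len e ≤ len (e + ds p) + 1 := by
  rcases le_or_gt 0 (e p) with h | h
  · have := len_add_pos e p h; omega
  · have := len_add_neg e p h; omega

lemma sub_eq_neg (e : G) (p : ℕ) : e - ds p = -(-e + ds p) := by abel

lemma len_sub_ge (e : G) (p : ℕ) : len e ≤ len (e - ds p) + 1 := by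
  rw [sub_eq_neg, len_neg]
  have := len_add_ge (-e) p
  rwa [len_neg] at this

/-- constants -/
noncomputable def Cc (M : ℝ) : ℕ → ℝ
  | 0 => 1
  | k + 1 => (1 + 2 * M + (k + 1)) * Cc M k

lemma Cc_pos {M : ℝ} (hM : 0 ≤ M) (k : ℕ) : 0 < Cc M k := by
  induction k with
  | zero => simp [Cc]
  | succ k ih => rw [Cc]; positivity

lemma coeff_nonneg {S : Finset ℕ} {v : ℕ → ℝ} (hv : ∀ p, 0 ≤ v p) (k : ℕ) (e : G) :
    0 ≤ ((1 + VV S v) ^ k).coeff e := by
  classical
  induction k generalizing e with
  | zero =>
    rw [pow_zero, AddMonoidAlgebra.one_def, AddMonoidAlgebra.coeff_single_apply]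
    split_ifs <;> norm_num
  | succ k ih =>
    rw [coeff_step]
    have := ih e
    have h2 : 0 ≤ ∑ p ∈ S, v p * (((1 + VV S v) ^ k).coeff (e - ds p) +
        ((1 + VV S v) ^ k).coeff (e + ds p)) :=
      Finset.sum_nonneg fun p _ => mul_nonneg (hv p) (add_nonneg (ih _) (ih _))
    linarith

lemma coeff_zero_of_len {S : Finset ℕ} {v : ℕ → ℝ} (k : ℕ) (e : G) (h : k < len e) :
    ((1 + VV S v) ^ k).coeff e = 0 := by
  classical
  induction k generalizing e with
  | zero =>
    rw [pow_zero, AddMonoidAlgebra.one_def, AddMonoidAlgebra.coeff_single_apply, if_neg]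
    rintro rfl
    rw [len_zero] at h
    exact lt_irrefl _ h
  | succ k ih =>
    rw [coeff_step, ih e (by omega), zero_add]
    refine Finset.sum_eq_zero fun p _ => ?_
    rw [ih _ (by have := len_sub_ge e p; omega), ih _ (by have := len_add_ge e p; omega)]
    ring

/-- upper bound for the coefficients -/
theorem coeff_le {S : Finset ℕ} {v : ℕ → ℝ} (hv : ∀ p, 0 ≤ v p) {M : ℝ}
    (hM : ∑ p ∈ S, v p ^ 2 ≤ M) (k : ℕ) (e : G) :
    ((1 + VV S v) ^ k).coeff e ≤ Cc M k * mw v e := by
  classical
  have hM0 : 0 ≤ M := (Finset.sum_nonneg fun p _ => sq_nonneg (v p)).trans hM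
  induction k generalizing e with
  | zero =>
    rw [pow_zero, AddMonoidAlgebra.one_def, AddMonoidAlgebra.coeff_single_apply, Cc, one_mul]
    split_ifs with h
    · rw [← h, mw_zero]
    · exact mw_nonneg hv e
  | succ k ih =>
    by_cases hlen : k + 1 < len e
    · rw [coeff_zero_of_len (k + 1) e hlen]
      exact mul_nonneg (Cc_pos hM0 _).le (mw_nonneg hv e)
    push Not at hlen
    have key : ∀ e : G, ∑ p ∈ S, v p * ((1 + VV S v) ^ k).coeff (e + ds p) ≤
        Cc M k * mw v e * (M + (e.support.filter (fun p => e p < 0)).card) := by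
      intro e
      have hC := (Cc_pos hM0 k).le
      have hm := mw_nonneg hv e
      calc ∑ p ∈ S, v p * ((1 + VV S v) ^ k).coeff (e + ds p) ≤
          ∑ p ∈ S, (Cc M k * mw v e * v p ^ 2 + if e p < 0 then Cc M k * mw v e else 0) := by
            refine Finset.sum_le_sum fun p _ => ?_
            have h1 : v p * ((1 + VV S v) ^ k).coeff (e + ds p) ≤
                v p * (Cc M k * mw v (e + ds p)) := mul_le_mul_of_nonneg_left (ih _) (hv p)
            refine h1.trans ?_
            split_ifs with h
            · have h2 := mw_add_neg v e p h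
              have : v p * (Cc M k * mw v (e + ds p)) = Cc M k * mw v e := by
                rw [← h2]; ring
              rw [this]
              have : 0 ≤ Cc M k * mw v e * v p ^ 2 := by positivity
              linarith
            · rw [mw_add_pos v e p (not_lt.1 h), add_zero]
              apply le_of_eq
              ring
        _ = Cc M k * mw v e * ∑ p ∈ S, v p ^ 2 +
            ∑ p ∈ S, if e p < 0 then Cc M k * mw v e else 0 := by
            rw [Finset.sum_add_distrib, Finset.mul_sum]
        _ ≤ Cc M k * mw v e * M +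
            (e.support.filter (fun p => e p < 0)).card * (Cc M k * mw v e) := by
            apply add_le_add
            · exact mul_le_mul_of_nonneg_left hM (by positivity)
            · rw [← Finset.sum_filter, Finset.sum_const, nsmul_eq_mul]
              apply mul_le_mul_of_nonneg_right _ (by positivity)
              have : (S.filter (fun p => e p < 0)) ⊆ (e.support.filter (fun p => e p < 0)) := by
                intro p hp
                rw [Finset.mem_filter] at hp ⊢
                exact ⟨Finsupp.mem_support_iff.2 (by omega), hp.2⟩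
              exact_mod_cast Finset.card_le_card this
        _ = _ := by ring
    have hneg : ∀ k : ℕ, ∀ e : G, ((1 + VV S v) ^ k).coeff (-e) = ((1 + VV S v) ^ k).coeff e := by
      intro k
      induction k with
      | zero =>
        intro e
        rw [pow_zero, AddMonoidAlgebra.one_def, AddMonoidAlgebra.coeff_single_apply,
          AddMonoidAlgebra.coeff_single_apply]
        congr 1
        rw [eq_iff_iff]
        constructor
        · intro h; exact (neg_eq_zero.1 h.symm).symm
        · intro h; rw [← h, neg_zero]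
      | succ k ihk =>
        intro e
        rw [coeff_step, coeff_step, ihk e]
        congr 1
        refine Finset.sum_congr rfl fun p _ => ?_
        rw [show -e - ds p = -(e + ds p) by abel, show -e + ds p = -(e - ds p) by abel, ihk, ihk,
          add_comm]
    rw [coeff_step, Cc]
    have h1 := ih e
    have h2 := key e
    have h3 : ∑ p ∈ S, v p * ((1 + VV S v) ^ k).coeff (e - ds p) ≤
        Cc M k * mw v e * (M + (e.support.filter (fun p => 0 < e p)).card) := by
      have h4 := key (-e)
      rw [mw_neg, Finsupp.support_neg] at h4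
      have e1 : ∀ p, ((1 + VV S v) ^ k).coeff (-e + ds p) = ((1 + VV S v) ^ k).coeff (e - ds p) := by
        intro p
        rw [show -e + ds p = -(e - ds p) by abel, hneg]
      simp only [e1] at h4
      convert h4 using 5
      simp
    have h5 : ((e.support.filter (fun p => e p < 0)).card : ℝ) +
        (e.support.filter (fun p => 0 < e p)).card ≤ k + 1 := by
      have h6 : (e.support.filter (fun p => e p < 0)).card +
          (e.support.filter (fun p => 0 < e p)).card ≤ e.support.card := by
        rw [← Finset.card_union_of_disjoint]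
        · apply Finset.card_le_card
          intro p hp
          rw [Finset.mem_union, Finset.mem_filter, Finset.mem_filter] at hp
          rcases hp with hp | hp <;> exact hp.1
        · rw [Finset.disjoint_left]
          intro p hp hp'
          rw [Finset.mem_filter] at hp hp'
          omega
      have h7 := card_support_le e
      have h8 : (e.support.filter (fun p => e p < 0)).card +
          (e.support.filter (fun p => 0 < e p)).card ≤ k + 1 := by omega
      exact_mod_cast h8
    have h9 : 0 ≤ Cc M k * mw v e := mul_nonneg (Cc_pos hM0 k).le (mw_nonneg hv e)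
    calc ((1 + VV S v) ^ k).coeff e +
        ∑ p ∈ S, v p * (((1 + VV S v) ^ k).coeff (e - ds p) + ((1 + VV S v) ^ k).coeff (e + ds p)) =
        ((1 + VV S v) ^ k).coeff e + (∑ p ∈ S, v p * ((1 + VV S v) ^ k).coeff (e - ds p) +
          ∑ p ∈ S, v p * ((1 + VV S v) ^ k).coeff (e + ds p)) := by
          rw [← Finset.sum_add_distrib]
          congr 1
          exact Finset.sum_congr rfl fun p _ => by ring
      _ ≤ Cc M k * mw v e + (Cc M k * mw v e * (M + (e.support.filter (fun p => 0 < e p)).card) +
          Cc M k * mw v e * (M + (e.support.filter (fun p => e p < 0)).card)) :=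
          add_le_add h1 (add_le_add h3 h2)
      _ = Cc M k * mw v e * (1 + 2 * M + (((e.support.filter (fun p => e p < 0)).card : ℝ) +
          (e.support.filter (fun p => 0 < e p)).card)) := by ring
      _ ≤ Cc M k * mw v e * (1 + 2 * M + (k + 1)) := by
          apply mul_le_mul_of_nonneg_left _ h9
          linarith
      _ = _ := by ring

/-- lower bound for the coefficients -/
theorem le_coeff {S : Finset ℕ} {v : ℕ → ℝ} (hv : ∀ p, 0 ≤ v p) (k : ℕ) (e : G)
    (hk : len e ≤ k) (hS : e.support ⊆ S) : mw v e ≤ ((1 + VV S v) ^ k).coeff e := by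
  classical
  induction k generalizing e with
  | zero =>
    have : e = 0 := len_eq_zero (by omega)
    subst this
    rw [mw_zero, pow_zero, AddMonoidAlgebra.one_def, AddMonoidAlgebra.coeff_single_apply, if_pos rfl]
  | succ k ih =>
    rw [coeff_step]
    have hnn : ∀ p ∈ S, 0 ≤ v p * (((1 + VV S v) ^ k).coeff (e - ds p) +
        ((1 + VV S v) ^ k).coeff (e + ds p)) := fun p _ =>
      mul_nonneg (hv p) (add_nonneg (coeff_nonneg hv _ _) (coeff_nonneg hv _ _))
    by_cases h0 : len e ≤ k
    · have := ih e h0 hS
      have := Finset.sum_nonneg hnn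
      linarith
    · have hne : e.support.Nonempty := by
        rw [Finsupp.support_nonempty_iff]
        rintro rfl
        rw [len_zero] at h0
        omega
      obtain ⟨p, hp⟩ := hne
      have hpS := hS hp
      have hp0 := Finsupp.mem_support_iff.1 hp
      have h1 := Finset.single_le_sum hnn hpS
      have h2 := coeff_nonneg (S := S) hv k e
      have h3 := coeff_nonneg (S := S) hv k (e - ds p)
      have h4 := coeff_nonneg (S := S) hv k (e + ds p)
      rcases lt_or_gt_of_ne hp0 with h | h
      · have h5 := len_add_neg e p h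
        have h6 := ih (e + ds p) (by omega) (by
          intro q hq
          by_cases hqp : q = p
          · rw [hqp]; exact hpS
          · apply hS
            rw [Finsupp.mem_support_iff] at hq ⊢
            rwa [add_ds_apply_ne e hqp] at hq)
        have h7 := mw_add_neg v e p h
        have h8 : v p * mw v (e + ds p) ≤ v p * ((1 + VV S v) ^ k).coeff (e + ds p) :=
          mul_le_mul_of_nonneg_left h6 (hv p)
        have h9 : 0 ≤ v p * ((1 + VV S v) ^ k).coeff (e - ds p) := mul_nonneg (hv p) h3
        rw [mul_add] at h1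
        linarith
      · have e1 : e - ds p = -(-e + ds p) := sub_eq_neg e p
        have hn : (-e) p < 0 := by simp; omega
        have h5 := len_add_neg (-e) p hn
        rw [len_neg] at h5
        have h6 := ih (e - ds p) (by rw [e1, len_neg]; omega) (by
          intro q hq
          by_cases hqp : q = p
          · rw [hqp]; exact hpS
          · apply hS
            rw [e1, Finsupp.support_neg, Finsupp.mem_support_iff, add_ds_apply_ne _ hqp] at hq
            rw [Finsupp.mem_support_iff]
            simpa using hq)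
        have h7 := mw_add_neg v (-e) p hn
        rw [mw_neg, ← mw_neg v (-e + ds p), ← e1] at h7
        have h8 : v p * mw v (e - ds p) ≤ v p * ((1 + VV S v) ^ k).coeff (e - ds p) :=
          mul_le_mul_of_nonneg_left h6 (hv p)
        have h9 : 0 ≤ v p * ((1 + VV S v) ^ k).coeff (e + ds p) := mul_nonneg (hv p) h4
        rw [mul_add] at h1
        linarith

end Pool.Agent.R321.FA
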