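import Pool.Agent.R321.FA9
import Pool.Agent.H880R2.LG.Mean

/-! The window averages of `|E|² Zs`. -/

open Finset Complex MeasureTheory Filter

namespace Pool.Agent.R321.FA

open LG (lk bk Cn EE Zs)
open SP (Par RHs)

lemma WE_om_int (P : Par) (B0 : ℕ) (r : ℝ) (F : ℕ → ℝ) (T : ℝ) {β : ℝ} (hβ : 0 < β) (t0 : ℝ) :
    Integrable (fun t => om β (t - t0) * WE P B0 r F T t) := by
  have h1 : Integrable (fun t => nm (wE P B0 r F T) * om β (t - t0)) :=
    ((om_int hβ).comp_sub_right t0).const_mul _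
  refine h1.mono' ?_ (Eventually.of_forall fun t => ?_)
  · apply Continuous.aestronglyMeasurable
    exact ((om_cont β).comp (by fun_prop)).mul (WE_cont P B0 r F T)
  · rw [Real.norm_of_nonneg (mul_nonneg (om_nonneg hβ _) (WE_nonneg _ _ _ _ _ _)), mul_comm]
    exact mul_le_mul_of_nonneg_right (WE_le _ _ _ _ _ _) (om_nonneg hβ _)

set_option maxHeartbeats 4000000 in
/-- the window average of `|E|² ZF` -/
theorem loc1 (P : Par) (B0 B1 : ℕ) (hB : P.B = 2 * B0) (hB1 : 2 * B1 ≤ B0) (r : ℝ) (F : ℕ → ℝ)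
    (hF : ∀ n, B1 < n → F n = 0) (a c b : ℝ) (hc : 0 < c) (hb : 0 < b)
    (hb1 : (1 - P.κ) / 2 + 2 * b ≤ 1) : ∃ C T0 : ℝ, 0 < C ∧ 10 ≤ T0 ∧ ∀ T : ℝ, T0 ≤ T →
    ∀ t0 : ℝ, Integrable (fun t => om (b * Real.log T) (t - t0) * WE P B0 r F T t * ZF a c T t) ∧
    |(∫ t, om (b * Real.log T) (t - t0) * WE P B0 r F T t * ZF a c T t) -
      (av (b * Real.log T) t0 (wE P B0 r F T * pp a c T (NN P b T))).re| ≤
      C / Real.log T * (Aw P B0 r F T (b * Real.log T) t0 + 1) := by
  classical
  obtain ⟨T1, hT1, hfar⟩ := far_bound P B0 hB r F a c b hc hb hb1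
  obtain ⟨C2, hC2, hsum⟩ := LG.lk_summable a c hc
  set G3 := ∑' n, g3 n with hG3
  have hG30 : 0 ≤ G3 := tsum_nonneg g3_nonneg
  have hZ2s : Summable (fun n : ℕ => ((n : ℝ) ^ 2)⁻¹) := by
    have := Real.summable_nat_pow_inv (p := 2)
    exact this.2 (by norm_num)
  set Z2 := ∑' n : ℕ, ((n : ℝ) ^ 2)⁻¹ with hZ2
  have hZ20 : 0 ≤ Z2 := tsum_nonneg fun n => by positivity
  refine ⟨2 * c * (G3 + Z2) + 1, T1, by positivity, hT1, fun T hT t0 => ?_⟩
  have hT10 := hT1.trans hT
  have hT0 : 0 < T := by linarith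
  set L := Real.log T with hL
  have hL1 : 1 ≤ L := by
    rw [hL, Real.le_log_iff_exp_le (by linarith)]
    have := Real.exp_one_lt_d9
    linarith
  set β := b * L with hβd
  have hβ : 0 < β := by positivity
  set w := wE P B0 r F T with hw
  set N := NN P b T with hN
  obtain ⟨hlks, -⟩ := hsum T hT10
  set W : ℝ → ℝ := WE P B0 r F T with hW
  have hW0 : ∀ t, 0 ≤ W t := WE_nonneg P B0 r F T
  have hWc : Continuous W := WE_cont P B0 r F T
  have hevw : ∀ t, ev t w = ((W t : ℝ) : ℂ) := WE_ev P B0 r F T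
  set o : ℝ → ℝ := fun t => om β (t - t0) with ho
  have ho0 : ∀ t, 0 ≤ o t := fun t => om_nonneg hβ _
  have hoc : Continuous o := (om_cont β).comp (by fun_prop)
  set A := Aw P B0 r F T β t0 with hA
  have hA0 : 0 ≤ A := Aw_nonneg P B0 r F T hβ t0
  have hoW : Integrable (fun t => o t * W t) := WE_om_int P B0 r F T hβ t0
  -- the characters
  set e : ℕ → ℝ → ℂ := fun n t => cexp (-(I * ((t * Real.log n : ℝ) : ℂ))) with he
  have hec : ∀ n, Continuous (e n) := fun n => by rw [he]; fun_prop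
  have hen : ∀ n t, ‖e n t‖ = 1 := fun n t => norm_tw _
  set Sf : ℝ → ℂ := fun t => ∑' n : ℕ, (lk a c T n : ℂ) * e n t with hSf
  have hnorm : ∀ (n : ℕ) (t : ℝ), ‖(lk a c T n : ℂ) * e n t‖ = |lk a c T n| := by
    intro n t
    rw [norm_mul, hen, mul_one, Complex.norm_real, Real.norm_eq_abs]
  have hSfsum : ∀ t : ℝ, Summable fun n : ℕ => (lk a c T n : ℂ) * e n t := by
    intro t
    apply Summable.of_norm
    simp only [hnorm]
    exact hlks
  have hSfc : Continuous Sf := by
    rw [hSf]
    apply continuous_tsum (u := fun n => |lk a c T n|) _ hlks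
    · intro n t
      rw [hnorm]
    · intro n
      exact continuous_const.mul (hec n)
  set Λ := ∑' n, |lk a c T n| with hΛ
  have hSfn : ∀ t, ‖Sf t‖ ≤ Λ := by
    intro t
    rw [hSf]
    exact tsum_of_norm_bounded hlks.hasSum (fun n => (hnorm n t).le)
  -- integrals
  set J : ℕ → ℂ := fun n => ∫ t, ((o t : ℝ) : ℂ) * (ev t w * e n t) with hJ
  have hFint : ∀ n, Integrable (fun t => ((o t : ℝ) : ℂ) * (ev t w * e n t)) := by
    intro n
    exact ev_tw_int hβ t0 (Real.log n) w
  have hFn : ∀ n t, ‖((o t : ℝ) : ℂ) * (ev t w * e n t)‖ = o t * W t := by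
    intro n t
    rw [norm_mul, norm_mul, hen, mul_one, hevw, Complex.norm_real, Complex.norm_real,
      Real.norm_of_nonneg (ho0 t), Real.norm_of_nonneg (hW0 t)]
  have hJn : ∀ n, ‖J n‖ ≤ A := by
    intro n
    rw [hJ]
    refine (norm_integral_le_integral_norm _).trans (le_of_eq ?_)
    simp_rw [hFn]
    rfl
  have hhas : HasSum (fun n : ℕ => (lk a c T n : ℂ) * J n)
      (∫ t, ((o t : ℝ) : ℂ) * (ev t w * Sf t)) := by
    have h1 := hasSum_integral_of_summable_integral_norm (μ := volume)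
      (F := fun (n : ℕ) (t : ℝ) => (lk a c T n : ℂ) * (((o t : ℝ) : ℂ) * (ev t w * e n t)))
      (fun n => (hFint n).const_mul _) (by
        have h2 : (fun n : ℕ => ∫ t, ‖(lk a c T n : ℂ) * (((o t : ℝ) : ℂ) * (ev t w * e n t))‖) =
            fun n => |lk a c T n| * A := by
          funext n
          have h3 : ∀ t, ‖(lk a c T n : ℂ) * (((o t : ℝ) : ℂ) * (ev t w * e n t))‖ =
              |lk a c T n| * (o t * W t) := by
            intro t
            rw [norm_mul, hFn, Complex.norm_real, Real.norm_eq_abs]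
          simp_rw [h3]
          rw [integral_const_mul]
          rfl
        rw [h2]
        exact hlks.mul_right A)
    have h2 : (fun n : ℕ => ∫ t, (lk a c T n : ℂ) * (((o t : ℝ) : ℂ) * (ev t w * e n t))) =
        fun n => (lk a c T n : ℂ) * J n := by
      funext n
      rw [integral_const_mul]
    rw [h2] at h1
    have h5 : (fun t => ((o t : ℝ) : ℂ) * (ev t w * Sf t)) = fun t => ∑' n : ℕ,
        (lk a c T n : ℂ) * (((o t : ℝ) : ℂ) * (ev t w * e n t)) := by
      funext t
      rw [hSf]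
      simp only
      rw [← tsum_mul_left, ← tsum_mul_left]
      refine tsum_congr fun n => ?_
      ring
    rw [h5]
    exact h1
  -- remove the kept part
  set R : ℂ := (∫ t, ((o t : ℝ) : ℂ) * (ev t w * Sf t)) - ∑ n ∈ S12 N, (lk a c T n : ℂ) * J n
    with hR
  have hhas2 : HasSum (fun n : ℕ => if n ∈ S12 N then 0 else (lk a c T n : ℂ) * J n) R := by
    have h1 : HasSum (fun n : ℕ => if n ∈ S12 N then (lk a c T n : ℂ) * J n else 0)
        (∑ n ∈ S12 N, (lk a c T n : ℂ) * J n) := by
      have h2 : HasSum (fun n : ℕ => if n ∈ S12 N then (lk a c T n : ℂ) * J n else 0)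
          (∑ n ∈ S12 N, if n ∈ S12 N then (lk a c T n : ℂ) * J n else 0) :=
        hasSum_sum_of_ne_finset_zero (fun n hn => if_neg hn)
      rw [Finset.sum_congr rfl (fun n hn => if_pos hn)] at h2
      exact h2
    have h3 := hhas.sub h1
    have h4 : (fun n : ℕ => if n ∈ S12 N then 0 else (lk a c T n : ℂ) * J n) =
        fun n : ℕ => (lk a c T n : ℂ) * J n -
          (if n ∈ S12 N then (lk a c T n : ℂ) * J n else 0) := by
      funext n
      split_ifs <;> simp
    rw [h4]
    exact h3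
  have hRb : ‖R‖ ≤ A * (c * G3) + c * Z2 := by
    have hu : HasSum (fun n : ℕ => A * (c * g3 n) + c * ((n : ℝ) ^ 2)⁻¹)
        (A * (c * G3) + c * Z2) :=
      ((g3_summable.1.hasSum.mul_left c).mul_left A).add (hZ2s.hasSum.mul_left c)
    rw [← hhas2.tsum_eq]
    refine tsum_of_norm_bounded hu fun n => ?_
    have p1 : 0 ≤ A * (c * g3 n) := mul_nonneg hA0 (mul_nonneg hc.le (g3_nonneg n))
    have p2 : 0 ≤ c * ((n : ℝ) ^ 2)⁻¹ := by positivity
    split_ifs with hn
    · rw [norm_zero]; linarith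
    · rw [norm_mul, Complex.norm_real, Real.norm_eq_abs]
      rcases le_or_gt n N with hnN | hnN
      · have h1 := lk_out (a := a) (T := T) hc hn hnN
        calc |lk a c T n| * ‖J n‖ ≤ (c * g3 n) * A := by
              apply mul_le_mul h1 (hJn n) (norm_nonneg _) (mul_nonneg hc.le (g3_nonneg n))
          _ = A * (c * g3 n) := by ring
          _ ≤ _ := by linarith
      · obtain ⟨h1, h2⟩ := hfar T hT n hnN
        have h3 := tw_le hβ t0 (f := w) (H := (1 - P.κ) / 2 * L) (y := Real.log n)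
          (fun e he => (wE_ht hB hT10 hB1 hF e he).1) h1
        calc |lk a c T n| * ‖J n‖ ≤ |lk a c T n| * (nm w * Real.exp (-(Real.log n -
              (1 - P.κ) / 2 * L - β) ^ 2 / 2)) := by
              apply mul_le_mul_of_nonneg_left _ (abs_nonneg _)
              exact h3
          _ ≤ c * ((n : ℝ) ^ 2)⁻¹ := h2
          _ ≤ _ := by linarith
  -- integrability
  have hZFc : Continuous (ZF a c T) := by
    unfold ZF
    exact continuous_const.sub (continuous_const.mul (Complex.continuous_re.comp hSfc))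
  have hSint : Integrable (fun t => ((o t : ℝ) : ℂ) * (ev t w * Sf t)) := by
    refine (hoW.mul_const Λ).mono' ?_ (Eventually.of_forall fun t => ?_)
    · apply Continuous.aestronglyMeasurable
      have := ev_cont w
      fun_prop
    · rw [norm_mul, norm_mul, hevw, Complex.norm_real, Complex.norm_real,
        Real.norm_of_nonneg (ho0 t), Real.norm_of_nonneg (hW0 t), ← mul_assoc]
      exact mul_le_mul_of_nonneg_left (hSfn t) (mul_nonneg (ho0 t) (hW0 t))
  have hSre : Integrable (fun t => o t * W t * (Sf t).re) := by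
    have h1 := hSint.re
    refine h1.congr (Eventually.of_forall fun t => ?_)
    show (((o t : ℝ) : ℂ) * (ev t w * Sf t)).re = _
    rw [hevw, ← mul_assoc, ← ofReal_mul, re_ofReal_mul]
  have hZint : Integrable (fun t => o t * W t * ZF a c T t) := by
    have h1 := (hoW.mul_const c).sub (hSre.mul_const (2 / L))
    refine h1.congr (Eventually.of_forall fun t => ?_)
    show o t * W t * c - o t * W t * (Sf t).re * (2 / L) = o t * W t * ZF a c T t
    unfold ZF
    ring
  refine ⟨hZint, ?_⟩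
  -- the value
  have hv1 : ∫ t, o t * W t * ZF a c T t = c * A -
      (2 / L) * (∫ t, ((o t : ℝ) : ℂ) * (ev t w * Sf t)).re := by
    have h1 : (∫ t, ((o t : ℝ) : ℂ) * (ev t w * Sf t)).re = ∫ t, o t * W t * (Sf t).re := by
      have h2 := integral_re hSint
      have h3 : ∀ t, RCLike.re (((o t : ℝ) : ℂ) * (ev t w * Sf t)) = o t * W t * (Sf t).re := by
        intro t
        show (((o t : ℝ) : ℂ) * (ev t w * Sf t)).re = _
        rw [hevw, ← mul_assoc, ← ofReal_mul, re_ofReal_mul]
      simp_rw [h3] at h2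
      exact h2.symm
    rw [h1]
    have h4 : ∀ t, o t * W t * ZF a c T t = c * (o t * W t) - (2 / L) * (o t * W t * (Sf t).re) := by
      intro t
      unfold ZF
      ring
    simp_rw [h4]
    rw [integral_sub (hoW.const_mul c) (hSre.const_mul _), integral_const_mul,
      integral_const_mul]
    rfl
  have hv2 : av β t0 (w * pp a c T N) = ((c * A : ℝ) : ℂ) -
      ((2 / L : ℝ) : ℂ) * ∑ n ∈ S12 N, (lk a c T n : ℂ) * J n := by
    rw [← av_eq hβ]
    have h1 : ∀ t, ((om β (t - t0) : ℝ) : ℂ) * ev t (w * pp a c T N) =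
        (c : ℂ) * ((o t * W t : ℝ) : ℂ) - ((2 / L : ℝ) : ℂ) * ∑ n ∈ S12 N, (lk a c T n : ℂ) *
          (((o t : ℝ) : ℂ) * (ev t w * e n t)) := by
      intro t
      rw [map_mul, ev_pp, mul_sub, mul_sub]
      congr 1
      · rw [hevw]; push_cast; ring
      · rw [Finset.mul_sum, Finset.mul_sum, Finset.mul_sum, Finset.mul_sum]
        refine Finset.sum_congr rfl fun n _ => ?_
        rw [he]
        ring
    simp_rw [h1]
    have i1 : Integrable (fun t => (c : ℂ) * ((o t * W t : ℝ) : ℂ)) := (hoW.ofReal).const_mul _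
    have i2 : ∀ n ∈ S12 N, Integrable (fun t => (lk a c T n : ℂ) *
          (((o t : ℝ) : ℂ) * (ev t w * e n t))) := fun n _ => (hFint n).const_mul _
    rw [integral_sub i1 ((integrable_finsetSum _ i2).const_mul _), integral_const_mul,
      integral_const_mul, integral_finsetSum _ i2, integral_complex_ofReal]
    congr 1
    · rw [ofReal_mul]; rfl
    · congr 1
      refine Finset.sum_congr rfl fun n _ => ?_
      rw [integral_const_mul]
  have hdiff : (∫ t, o t * W t * ZF a c T t) - (av β t0 (w * pp a c T N)).re =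
      -(2 / L) * R.re := by
    rw [hv1, hv2, hR, sub_re, sub_re, re_ofReal_mul, ofReal_re]
    ring
  show |(∫ t, o t * W t * ZF a c T t) - (av β t0 (w * pp a c T N)).re| ≤ _
  rw [hdiff, abs_mul, abs_neg, abs_of_pos (by positivity : 0 < 2 / L)]
  have h5 := (Complex.abs_re_le_norm R).trans hRb
  calc 2 / L * |R.re| ≤ 2 / L * (A * (c * G3) + c * Z2) := by gcongr
    _ = (2 * c * (A * G3 + Z2)) / L := by ring
    _ ≤ ((2 * c * (G3 + Z2) + 1) * (A + 1)) / L := by
        apply div_le_div_of_nonneg_right _ (by linarith)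
        have q1 : 0 ≤ c * G3 := by positivity
        have q2 : 0 ≤ c * Z2 := by positivity
        have q3 : 0 ≤ c * Z2 * A := by positivity
        nlinarith
    _ = _ := by ring

end Pool.Agent.R321.FA
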