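import Pool.Agent.R321.FA10
import Pool.Agent.H153R2.LGPsum

/-! The window averages of `|E|² Zs`: localisation. -/

open Finset Complex MeasureTheory Filter Topology

namespace Pool.Agent.R321.FA

open LG (lk bk Cn EE Zs)
open SP (Par RHs)

lemma tail_small (b c C2 : ℝ) (hb : 0 < b) (hc : 0 < c) (hC2 : 0 < C2) : ∃ T0 : ℝ, 10 ≤ T0 ∧
    ∀ T : ℝ, T0 ≤ T → (b * Real.log T * T ^ 4 * (c + 2 * (C2 * Real.exp (Real.log T ^ 4)))) *
      (4 * 1) * Real.exp (-((Real.log T ^ 3) ^ 2 / (4 * 1 ^ 2))) ≤ 1 / Real.log T := by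
  set K := 4 * b * (c + 2 * C2) with hK
  have hK0 : 0 < K := by positivity
  obtain ⟨T1, hT1⟩ : ∃ T1 : ℝ, ∀ T : ℝ, T1 ≤ T → max 3 (Real.log K) ≤ Real.log T :=
    (Real.tendsto_log_atTop.eventually_ge_atTop _).exists_forall_of_atTop
  refine ⟨max 10 T1, le_max_left _ _, fun T hT => ?_⟩
  have hT10 : 10 ≤ T := (le_max_left _ _).trans hT
  have h1 := hT1 T ((le_max_right _ _).trans hT)
  set x := Real.log T with hx
  have hx3 : 3 ≤ x := (le_max_left _ _).trans h1
  have hxK : Real.log K ≤ x := (le_max_right _ _).trans h1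
  have hTx : T = Real.exp x := by rw [hx, Real.exp_log (by linarith)]
  have e1 : T ^ 4 = Real.exp (4 * x) := by
    rw [hTx, ← Real.exp_nat_mul]; norm_num
  have e2 : 1 ≤ Real.exp (x ^ 4) := Real.one_le_exp (by positivity)
  have e3 : c + 2 * (C2 * Real.exp (x ^ 4)) ≤ (c + 2 * C2) * Real.exp (x ^ 4) := by nlinarith
  have e4 : x ≤ Real.exp x := by linarith [Real.add_one_le_exp x]
  have e5 : K ≤ Real.exp x := by
    rwa [← Real.log_le_iff_le_exp hK0]
  rw [le_div_iff₀ (by linarith)]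
  have e6 : 4 * x + x + x + x + x ^ 4 + -((x ^ 3) ^ 2 / (4 * 1 ^ 2)) ≤ 0 := by
    have q1 : 9 ≤ x ^ 2 := by nlinarith
    have q2 : 27 * x ≤ x ^ 4 := by
      have : 27 ≤ x ^ 3 := by
        have : (3 : ℝ) ^ 3 ≤ x ^ 3 := pow_le_pow_left₀ (by norm_num) hx3 3
        linarith
      nlinarith
    have q3 : 9 * x ^ 4 ≤ (x ^ 3) ^ 2 := by
      have : (x ^ 3) ^ 2 = x ^ 2 * x ^ 4 := by ring
      rw [this]
      exact mul_le_mul_of_nonneg_right q1 (by positivity)
    nlinarith
  calc (b * x * T ^ 4 * (c + 2 * (C2 * Real.exp (x ^ 4)))) * (4 * 1) *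
      Real.exp (-((x ^ 3) ^ 2 / (4 * 1 ^ 2))) * x ≤
      (b * Real.exp x * Real.exp (4 * x) * ((c + 2 * C2) * Real.exp (x ^ 4))) * (4 * 1) *
      Real.exp (-((x ^ 3) ^ 2 / (4 * 1 ^ 2))) * Real.exp x := by
        rw [e1]; gcongr
    _ = K * (Real.exp (4 * x) * Real.exp x * Real.exp x * Real.exp (x ^ 4) *
        Real.exp (-((x ^ 3) ^ 2 / (4 * 1 ^ 2)))) := by rw [hK]; ring
    _ ≤ Real.exp x * (Real.exp (4 * x) * Real.exp x * Real.exp x * Real.exp (x ^ 4) *
        Real.exp (-((x ^ 3) ^ 2 / (4 * 1 ^ 2)))) := by gcongr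
    _ = Real.exp (4 * x + x + x + x + x ^ 4 + -((x ^ 3) ^ 2 / (4 * 1 ^ 2))) := by
        rw [Real.exp_add, Real.exp_add, Real.exp_add, Real.exp_add, Real.exp_add]; ring
    _ ≤ 1 := Real.exp_le_one_iff.2 e6

set_option maxHeartbeats 4000000 in
/-- localisation -/
theorem loc2 (hRH : RHs) (P : Par) (B0 B1 : ℕ) (hB : P.B = 2 * B0) (hB1 : 2 * B1 ≤ B0) (r : ℝ)
    (F : ℕ → ℝ) (hF : ∀ n, B1 < n → F n = 0) (a c b : ℝ) (ha : 0 < a) (hc : 0 < c) (hb : 0 < b)
    (hb1 : (1 - P.κ) / 2 + 2 * b ≤ 1) : ∃ C T0 : ℝ, 0 < C ∧ 10 ≤ T0 ∧ ∀ T : ℝ, T0 ≤ T →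
    ∀ t0 : ℝ, T + 2 * Real.log T ^ 3 ≤ t0 → t0 ≤ 2 * T - 2 * Real.log T ^ 3 →
    |(∫ t in (t0 - Real.log T ^ 3)..(t0 + Real.log T ^ 3),
        om (b * Real.log T) (t - t0) * WE P B0 r F T t * Zs a c T t) -
      (av (b * Real.log T) t0 (wE P B0 r F T * pp a c T (NN P b T))).re| ≤
      C / Real.log T * (Aw P B0 r F T (b * Real.log T) t0 + 1) := by
  classical
  obtain ⟨C1, T1, hC1, hT1, h1⟩ := loc1 P B0 B1 hB hB1 r F hF a c b hc hb hb1
  obtain ⟨C2, hC2, hsum⟩ := LG.lk_summable a c hc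
  obtain ⟨T3, hT3, h3⟩ := tail_small b c C2 hb hc hC2
  obtain ⟨C4, T4, hC4, hT4, h4⟩ := LG.MeanAux.ZEF' hRH a c ha hc
  obtain ⟨T5, hT5, h5⟩ := nm_wE P B0 hB r F
  refine ⟨C1 + 1 + C4, max (max T1 T3) (max T4 T5), by positivity,
    hT1.trans ((le_max_left _ _).trans (le_max_left _ _)), fun T hT t0 ht1 ht2 => ?_⟩
  simp only [max_le_iff] at hT
  obtain ⟨⟨hTT1, hTT3⟩, hTT4, hTT5⟩ := hT
  have hT10 := hT1.trans hTT1
  obtain ⟨hZint, hl1⟩ := h1 T hTT1 t0
  obtain ⟨hlks, hΛ⟩ := hsum T hT10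
  have h3' := h3 T hTT3
  have hw4 := h5 T hTT5
  set L := Real.log T with hL
  have hL1 : 1 ≤ L := by
    rw [hL, Real.le_log_iff_exp_le (by linarith)]
    have := Real.exp_one_lt_d9
    linarith
  have hL3 : L ≤ L ^ 3 := le_self_pow₀ hL1 (by norm_num)
  set R := L ^ 3 with hR
  have hR0 : 0 ≤ R := by linarith
  set β := b * L with hβd
  have hβ : 0 < β := by positivity
  set A := Aw P B0 r F T β t0 with hA
  have hA0 : 0 ≤ A := Aw_nonneg P B0 r F T hβ t0
  have hoW : Integrable (fun t => om β (t - t0) * WE P B0 r F T t) := WE_om_int P B0 r F T hβ t0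
  have hoWc : Continuous (fun t => om β (t - t0) * WE P B0 r F T t) :=
    ((om_cont β).comp (by fun_prop)).mul (WE_cont P B0 r F T)
  have hoW0 : ∀ t, 0 ≤ om β (t - t0) * WE P B0 r F T t := fun t =>
    mul_nonneg (om_nonneg hβ _) (WE_nonneg _ _ _ _ _ _)
  -- continuity of ZF
  have hnorm : ∀ (n : ℕ) (t : ℝ), ‖(lk a c T n : ℂ) * cexp (-(I * ((t * Real.log n : ℝ) : ℂ)))‖ =
      |lk a c T n| := by
    intro n t
    rw [norm_mul, norm_tw, mul_one, Complex.norm_real, Real.norm_eq_abs]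
  have hSfc : Continuous (fun t : ℝ => ∑' n : ℕ, (lk a c T n : ℂ) *
      cexp (-(I * ((t * Real.log n : ℝ) : ℂ)))) := by
    apply continuous_tsum (u := fun n => |lk a c T n|) _ hlks
    · intro n t
      rw [hnorm]
    · intro n
      fun_prop
  have hZFc : Continuous (ZF a c T) := by
    unfold ZF
    exact continuous_const.sub (continuous_const.mul (Complex.continuous_re.comp hSfc))
  have hZFb : ∀ t, |ZF a c T t| ≤ c + 2 * (C2 * Real.exp (L ^ 4)) := by
    intro t
    unfold ZF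
    have h6 : ‖∑' n : ℕ, (lk a c T n : ℂ) * cexp (-(I * ((t * Real.log n : ℝ) : ℂ)))‖ ≤
        C2 * Real.exp (L ^ 4) :=
      (tsum_of_norm_bounded hlks.hasSum (fun n => (hnorm n t).le)).trans hΛ
    have h7 := (Complex.abs_re_le_norm _).trans h6
    refine (abs_sub _ _).trans ?_
    rw [abs_of_pos hc, abs_mul, abs_of_pos (by positivity : 0 < 2 / Real.log T)]
    have h8 : 2 / Real.log T ≤ 2 := div_le_self (by norm_num) hL1
    have h9 : 2 / Real.log T * |(∑' n : ℕ, (lk a c T n : ℂ) *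
        cexp (-(I * ((t * Real.log n : ℝ) : ℂ)))).re| ≤ 2 * (C2 * Real.exp (L ^ 4)) := by
      gcongr
    linarith
  have hZsc : Continuous (Zs a c T) := LG.MeanAux.Zs_cont a c T (by linarith)
  -- tail
  have htail := LG.MeanAux.tail_int
    (fun t => ((om β (t - t0) * WE P B0 r F T t * ZF a c T t : ℝ) : ℂ)) t0 1 (t0 - R) (t0 + R) R
    (b * L * T ^ 4 * (c + 2 * (C2 * Real.exp (L ^ 4)))) one_pos hR0 (by linarith) (by linarith)
    le_rfl (Complex.continuous_ofReal.comp (hoWc.mul hZFc)) (by positivity) (fun t => by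
      rw [Complex.norm_real, Real.norm_eq_abs, abs_mul, abs_of_nonneg (hoW0 t)]
      have h6 := om_le hβ (t - t0)
      have h7 : SP.wt t0 1 t = Real.exp (-(t - t0) ^ 2 / 2) := by
        unfold SP.wt; norm_num
      have h8 := (WE_le P B0 r F T t).trans hw4
      have h9 := hZFb t
      rw [h7]
      calc om β (t - t0) * WE P B0 r F T t * |ZF a c T t| ≤
          (β * Real.exp (-(t - t0) ^ 2 / 2)) * T ^ 4 * (c + 2 * (C2 * Real.exp (L ^ 4))) := by
            have g1 := WE_nonneg P B0 r F T t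
            have g2 := om_nonneg hβ (t - t0)
            gcongr
        _ = _ := by rw [hβd]; ring)
  have htail' : |(∫ t in (t0 - R)..(t0 + R), om β (t - t0) * WE P B0 r F T t * ZF a c T t) -
      ∫ t, om β (t - t0) * WE P B0 r F T t * ZF a c T t| ≤ 1 / L := by
    rw [intervalIntegral.integral_ofReal, integral_complex_ofReal, ← ofReal_sub,
      Complex.norm_real, Real.norm_eq_abs] at htail
    exact htail.trans h3'
  -- comparison with the explicit formula
  have hcmp : |(∫ t in (t0 - R)..(t0 + R), om β (t - t0) * WE P B0 r F T t * Zs a c T t) -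
      ∫ t in (t0 - R)..(t0 + R), om β (t - t0) * WE P B0 r F T t * ZF a c T t| ≤ C4 / L * A := by
    have k1 : Continuous (fun t => om β (t - t0) * WE P B0 r F T t * Zs a c T t) := hoWc.mul hZsc
    have k2 : Continuous (fun t => om β (t - t0) * WE P B0 r F T t * ZF a c T t) := hoWc.mul hZFc
    rw [← intervalIntegral.integral_sub (k1.intervalIntegrable _ _) (k2.intervalIntegrable _ _),
      ← Real.norm_eq_abs]
    calc _ ≤ ∫ t in (t0 - R)..(t0 + R), C4 / L * (om β (t - t0) * WE P B0 r F T t) := by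
          apply intervalIntegral.norm_integral_le_of_norm_le (by linarith)
          · refine Eventually.of_forall fun t ht => ?_
            rw [← mul_sub, Real.norm_eq_abs, abs_mul, abs_of_nonneg (hoW0 t), mul_comm (C4 / L)]
            apply mul_le_mul_of_nonneg_left _ (hoW0 t)
            have h6 := h4 T hTT4 t (by linarith [ht.1]) (by linarith [ht.2])
            exact h6
          · exact (hoWc.const_mul _).intervalIntegrable _ _
      _ = C4 / L * ∫ t in (t0 - R)..(t0 + R), om β (t - t0) * WE P B0 r F T t := by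
          rw [intervalIntegral.integral_const_mul]
      _ ≤ C4 / L * A := by
          apply mul_le_mul_of_nonneg_left _ (by positivity)
          rw [intervalIntegral.integral_of_le (by linarith)]
          exact setIntegral_le_integral hoW (Eventually.of_forall hoW0)
  have hfin : |(∫ t in (t0 - R)..(t0 + R), om β (t - t0) * WE P B0 r F T t * Zs a c T t) -
      (av β t0 (wE P B0 r F T * pp a c T (NN P b T))).re| ≤
      C4 / L * A + 1 / L + C1 / L * (A + 1) := by
    have e : (∫ t in (t0 - R)..(t0 + R), om β (t - t0) * WE P B0 r F T t * Zs a c T t) -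
      (av β t0 (wE P B0 r F T * pp a c T (NN P b T))).re =
      ((∫ t in (t0 - R)..(t0 + R), om β (t - t0) * WE P B0 r F T t * Zs a c T t) -
      ∫ t in (t0 - R)..(t0 + R), om β (t - t0) * WE P B0 r F T t * ZF a c T t) +
      ((∫ t in (t0 - R)..(t0 + R), om β (t - t0) * WE P B0 r F T t * ZF a c T t) -
      ∫ t, om β (t - t0) * WE P B0 r F T t * ZF a c T t) +
      ((∫ t, om β (t - t0) * WE P B0 r F T t * ZF a c T t) -
      (av β t0 (wE P B0 r F T * pp a c T (NN P b T))).re) := by ring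
    rw [e]
    exact (abs_add_three _ _ _).trans (add_le_add (add_le_add hcmp htail') hl1)
  refine hfin.trans ?_
  have e : C4 / L * A + 1 / L + C1 / L * (A + 1) = (C4 * A + 1 + C1 * (A + 1)) / L := by ring
  have e' : (C1 + 1 + C4) / L * (A + 1) = ((C1 + 1 + C4) * (A + 1)) / L := by ring
  rw [e, e']
  apply div_le_div_of_nonneg_right _ (by linarith)
  nlinarith

end Pool.Agent.R321.FA
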