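import Pool.Agent.H370R2.NT

/-! Sums over primes in short logarithmic intervals. -/

open Finset

namespace Pool.Agent.R321.FA

/-- primes up to `N` -/
def PN (N : ℕ) : Finset ℕ := (Finset.Icc 1 N).filter Nat.Prime

lemma mem_PN {N p : ℕ} : p ∈ PN N ↔ p.Prime ∧ p ≤ N := by
  unfold PN
  rw [Finset.mem_filter, Finset.mem_Icc]
  constructor
  · rintro ⟨⟨_, h⟩, h'⟩; exact ⟨h', h⟩
  · rintro ⟨h, h'⟩; exact ⟨⟨h.one_lt.le, h'⟩, h⟩

lemma sum_le_vM (N : ℕ) (U : Finset ℕ) (hU : U ⊆ PN N) (W : Finset ℕ) (hW : U ⊆ W) :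
    ∑ p ∈ U, Real.log p / p ≤ ∑ d ∈ W, ArithmeticFunction.vonMangoldt d / d := by
  calc ∑ p ∈ U, Real.log p / p = ∑ p ∈ U, ArithmeticFunction.vonMangoldt p / p := by
        refine Finset.sum_congr rfl fun p hp => ?_
        rw [ArithmeticFunction.vonMangoldt_apply_prime (mem_PN.1 (hU hp)).1]
    _ ≤ _ := Finset.sum_le_sum_of_subset_of_nonneg hW fun d _ _ =>
        div_nonneg ArithmeticFunction.vonMangoldt_nonneg (Nat.cast_nonneg d)

lemma mert_all (N : ℕ) (hN : 1 ≤ N) : ∑ p ∈ PN N, Real.log p / p ≤ Real.log N + 6 := by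
  refine (sum_le_vM N (PN N) subset_rfl (Finset.Icc 1 N) (Finset.filter_subset _ _)).trans ?_
  exact H370.nt_mertens_upper N hN

/-- short logarithmic intervals -/
theorem mert_short (N : ℕ) (x δ : ℝ) (hδ : 0 ≤ δ) :
    ∑ p ∈ (PN N).filter (fun p : ℕ => |Real.log p - x| ≤ δ), Real.log p / p ≤ 2 * δ + 8 := by
  set U := (PN N).filter (fun p : ℕ => |Real.log p - x| ≤ δ) with hU
  set b := ⌊Real.exp (x + δ)⌋₊ with hb
  set a := ⌈Real.exp (x - δ)⌉₊ - 1 with ha
  have hc1 : 1 ≤ ⌈Real.exp (x - δ)⌉₊ := Nat.ceil_pos.2 (Real.exp_pos _)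
  have hsub : U ⊆ Finset.Ioc a b := by
    intro p hp
    rw [hU, Finset.mem_filter, mem_PN, abs_le] at hp
    obtain ⟨⟨h1, h2⟩, h3, h4⟩ := hp
    have hp0 : (0 : ℝ) < p := by exact_mod_cast h1.pos
    rw [Finset.mem_Ioc]
    constructor
    · have h5 : Real.exp (x - δ) ≤ p := by
        rw [← Real.le_log_iff_exp_le hp0]; linarith
      have h6 : ⌈Real.exp (x - δ)⌉₊ ≤ p := Nat.ceil_le.2 h5
      omega
    · apply Nat.le_floor
      rw [← Real.log_le_iff_le_exp hp0]; linarith
  rcases Nat.eq_zero_or_pos b with hb0 | hb0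
  · have : U = ∅ := by
      rw [Finset.eq_empty_iff_forall_notMem]
      intro p hp
      have := Finset.mem_Ioc.1 (hsub hp)
      omega
    rw [this, Finset.sum_empty]
    linarith
  have hbR : Real.log b ≤ x + δ := by
    rw [Real.log_le_iff_le_exp (by exact_mod_cast hb0)]
    exact Nat.floor_le (Real.exp_pos _).le
  have hup := H370.nt_mertens_upper b hb0
  rcases Nat.eq_zero_or_pos a with ha0 | ha0
  · have h1 : Real.exp (x - δ) ≤ 1 := by
      have : ⌈Real.exp (x - δ)⌉₊ ≤ 1 := by omega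
      exact_mod_cast Nat.ceil_le.1 this
    have h2 : x - δ ≤ 0 := by
      rw [← Real.exp_le_one_iff]; exact h1
    have h3 := sum_le_vM N U (Finset.filter_subset _ _) (Finset.Icc 1 b) (by
      intro p hp
      have := Finset.mem_Ioc.1 (hsub hp)
      rw [Finset.mem_Icc]
      omega)
    linarith
  · have haR : x - δ - Real.log 2 ≤ Real.log a := by
      have h1 : Real.exp (x - δ) ≤ ⌈Real.exp (x - δ)⌉₊ := Nat.le_ceil _
      have h2 : (⌈Real.exp (x - δ)⌉₊ : ℝ) = a + 1 := by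
        have : ⌈Real.exp (x - δ)⌉₊ = a + 1 := by omega
        rw [this]; push_cast; ring
      have ha1 : (1 : ℝ) ≤ a := by exact_mod_cast ha0
      have h3 : Real.exp (x - δ) ≤ 2 * a := by linarith
      have h4 := Real.log_le_log (Real.exp_pos _) h3
      rw [Real.log_exp, Real.log_mul (by norm_num) (by positivity)] at h4
      linarith
    have hlo := H370.nt_mertens_lower a ha0
    have hl2 := Real.log_two_lt_d9
    rcases le_or_gt a b with hab | hab
    · have h3 := sum_le_vM N U (Finset.filter_subset _ _) (Finset.Ioc a b) hsub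
      have h4 : ∑ d ∈ Finset.Icc 1 a, ArithmeticFunction.vonMangoldt d / d +
          ∑ d ∈ Finset.Ioc a b, ArithmeticFunction.vonMangoldt d / d =
          ∑ d ∈ Finset.Icc 1 b, ArithmeticFunction.vonMangoldt d / d := by
        rw [show Finset.Icc 1 a = Finset.Ioc 0 a from rfl,
          show Finset.Icc 1 b = Finset.Ioc 0 b from rfl, ← Finset.sum_union
            (Finset.Ioc_disjoint_Ioc_of_le le_rfl),
          Finset.Ioc_union_Ioc_eq_Ioc (Nat.zero_le _) hab]
      linarith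
    · have : U = ∅ := by
        rw [Finset.eq_empty_iff_forall_notMem]
        intro p hp
        have := Finset.mem_Ioc.1 (hsub hp)
        omega
      rw [this, Finset.sum_empty]
      linarith

/-- the weights of the primes -/
noncomputable def vp (K L : ℝ) (p : ℕ) : ℝ := K * Real.sqrt (Real.log p / (L * p))

lemma vp_nonneg {K : ℝ} (hK : 0 ≤ K) (L : ℝ) (p : ℕ) : 0 ≤ vp K L p := by
  unfold vp; positivity

lemma vp_sq {L : ℝ} (hL : 0 < L) (K : ℝ) (p : ℕ) :
    vp K L p ^ 2 = K ^ 2 / L * (Real.log p / p) := by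
  unfold vp
  have h0 : 0 ≤ Real.log p := Real.log_natCast_nonneg p
  rw [mul_pow, Real.sq_sqrt (by positivity)]
  rcases Nat.eq_zero_or_pos p with h | h
  · subst h; simp
  · have : (0 : ℝ) < p := by exact_mod_cast h
    field_simp

lemma vp_le {K L : ℝ} (hK : 0 ≤ K) (hL : 1 ≤ L) (p : ℕ) : vp K L p ≤ K := by
  unfold vp
  have h0 : 0 ≤ Real.log p := Real.log_natCast_nonneg p
  have h1 : Real.sqrt (Real.log p / (L * p)) ≤ 1 := by
    rw [Real.sqrt_le_one]
    rcases Nat.eq_zero_or_pos p with h | h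
    · subst h; simp
    · have hp : (0 : ℝ) < p := by exact_mod_cast h
      rw [div_le_one (by positivity)]
      have h2 : Real.log p ≤ p := (Real.log_le_sub_one_of_pos hp).trans (by linarith)
      nlinarith
  nlinarith

lemma vp_total {K L : ℝ} (hL : 1 ≤ L) (N : ℕ) (hN : 1 ≤ N) (hNL : Real.log N ≤ L) :
    ∑ p ∈ PN N, vp K L p ^ 2 ≤ 7 * K ^ 2 := by
  have h1 := mert_all N hN
  calc ∑ p ∈ PN N, vp K L p ^ 2 = K ^ 2 / L * ∑ p ∈ PN N, Real.log p / p := by
        rw [Finset.mul_sum]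
        exact Finset.sum_congr rfl fun p _ => vp_sq (by linarith) K p
    _ ≤ K ^ 2 / L * (7 * L) := by
        apply mul_le_mul_of_nonneg_left _ (by positivity)
        linarith
    _ = 7 * K ^ 2 := by field_simp

lemma vp_near {K L : ℝ} (hL : 1 ≤ L) (N : ℕ) {δ : ℝ} (hδ : 0 ≤ δ) (x : ℝ) :
    ∑ p ∈ (PN N).filter (fun p : ℕ => |Real.log p - x| ≤ δ), vp K L p ^ 2 ≤
      K ^ 2 / L * (2 * δ + 8) := by
  have h1 := mert_short N x δ hδ
  calc _ = K ^ 2 / L * ∑ p ∈ (PN N).filter (fun p : ℕ => |Real.log p - x| ≤ δ),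
        Real.log p / p := by
        rw [Finset.mul_sum]
        exact Finset.sum_congr rfl fun p _ => vp_sq (by linarith) K p
    _ ≤ _ := mul_le_mul_of_nonneg_left h1 (by positivity)

lemma vp_sum {K L : ℝ} (hK : 0 ≤ K) (hL : 1 ≤ L) (N : ℕ) : ∑ p ∈ PN N, vp K L p ≤ K * N := by
  calc ∑ p ∈ PN N, vp K L p ≤ ∑ p ∈ PN N, K := Finset.sum_le_sum fun p _ => vp_le hK hL p
    _ = (PN N).card * K := by rw [Finset.sum_const, nsmul_eq_mul]
    _ ≤ N * K := by
        apply mul_le_mul_of_nonneg_right _ hK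
        have : (PN N).card ≤ N := by
          refine (Finset.card_filter_le _ _).trans ?_
          simp
        exact_mod_cast this
    _ = K * N := mul_comm _ _

end Pool.Agent.R321.FA
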