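import Pool.Agent.R321.FA4
import Pool.Agent.R321.FA5

/-! The variance bound for all large `T`. -/

open Finset Complex MeasureTheory Filter Topology

namespace Pool.Agent.R321.FA

/-- polynomial growth against exponential decay -/
lemma poly_exp (M : ℝ) (k : ℕ) (κ b : ℝ) (hκ : 0 < κ) (hb : 0 < b) : ∃ T0 : ℝ, 10 ≤ T0 ∧
    ∀ T : ℝ, T0 ≤ T → (M * (1 + 2 * (M * T)) ^ k) ^ 2 * Real.exp (-(T ^ κ) / 2) ≤ b ∧
      (M * (1 + 2 * (M * T)) ^ k * Real.exp (-(b * Real.log T) ^ 2 / 2)) ^ 2 ≤ b := by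
  have h1 : Tendsto (fun x : ℝ => x ^ (2 * (k + 1) + 1) * Real.exp (-x)) atTop (𝓝 0) :=
    Real.tendsto_pow_mul_exp_neg_atTop_nhds_zero _
  -- everything is bounded by `T^(2k+3)`
  obtain ⟨T1, hT1⟩ : ∃ T1 : ℝ, ∀ T : ℝ, T1 ≤ T → 2 * (k + 2) + 1 ≤ b ^ 2 * Real.log T := by
    have h2 : Tendsto (fun T : ℝ => b ^ 2 * Real.log T) atTop atTop :=
      Real.tendsto_log_atTop.const_mul_atTop (by positivity)
    exact (h2.eventually_ge_atTop _).exists_forall_of_atTop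
  obtain ⟨T2, hT2⟩ : ∃ T2 : ℝ, ∀ T : ℝ, T2 ≤ T →
      (2 * (k + 2) + 1) * Real.log T ≤ T ^ κ / 2 := by
    have h2 := isLittleO_log_rpow_atTop hκ
    rw [Asymptotics.isLittleO_iff] at h2
    have h3 := h2 (show (0 : ℝ) < 1 / (2 * (2 * (k + 2) + 1)) by positivity)
    obtain ⟨T3, hT3⟩ := (h3.and (eventually_ge_atTop 1)).exists_forall_of_atTop
    refine ⟨T3, fun T hT => ?_⟩
    obtain ⟨g1, g2⟩ := hT3 T hT
    rw [Real.norm_of_nonneg (Real.log_nonneg g2), Real.norm_of_nonneg (by positivity)] at g1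
    calc (2 * ((k : ℝ) + 2) + 1) * Real.log T ≤ (2 * (k + 2) + 1) *
          (1 / (2 * (2 * (k + 2) + 1)) * T ^ κ) := by gcongr
      _ = _ := by field_simp
  set M' := (|M| * (1 + 2 * |M|) ^ k) ^ 2 with hM'
  have hM'0 : 0 ≤ M' := sq_nonneg _
  refine ⟨max (max T1 T2) (max 10 (M' / b)), (le_max_left _ _).trans (le_max_right _ _),
    fun T hT => ?_⟩
  simp only [max_le_iff] at hT
  obtain ⟨⟨hTT1, hTT2⟩, hT10, hTM⟩ := hT
  have hT0 : 0 < T := by linarith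
  have g1 := hT1 T hTT1
  have g2 := hT2 T hTT2
  set L := Real.log T with hL
  have hL0 : 0 < L := Real.log_pos (by linarith)
  have hpoly : (M * (1 + 2 * (M * T)) ^ k) ^ 2 ≤ M' * T ^ (2 * k) := by
    rw [← sq_abs (M * _), abs_mul, abs_pow]
    have h3 : |1 + 2 * (M * T)| ≤ (1 + 2 * |M|) * T := by
      refine (abs_add_le _ _).trans ?_
      rw [abs_one, abs_mul, abs_mul, abs_of_pos hT0, abs_of_pos (by norm_num : (0:ℝ) < 2)]
      nlinarith [abs_nonneg M]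
    calc (|M| * |1 + 2 * (M * T)| ^ k) ^ 2 ≤ (|M| * ((1 + 2 * |M|) * T) ^ k) ^ 2 := by gcongr
      _ = M' * T ^ (2 * k) := by rw [hM', mul_pow (1 + 2 * |M|) T k]; ring
  have hTe : T = Real.exp L := by rw [hL, Real.exp_log hT0]
  have hM2 : M' ≤ b * T := by
    rw [div_le_iff₀ hb] at hTM
    linarith
  have key : ∀ y : ℝ, (2 * (k + 2) + 1) * L ≤ y → M' * T ^ (2 * k) * Real.exp (-y) ≤ b := by
    intro y hy
    have h4 : T ^ (2 * k) = Real.exp ((2 * k) * L) := by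
      calc T ^ (2 * k) = Real.exp L ^ (2 * k) := by rw [← hTe]
        _ = Real.exp (((2 * k : ℕ) : ℝ) * L) := (Real.exp_nat_mul _ _).symm
        _ = _ := by push_cast; rfl
    have h5 : T ^ (2 * k) * Real.exp (-y) * T ≤ 1 := by
      rw [h4]
      nth_rw 1 [hTe]
      rw [← Real.exp_add, ← Real.exp_add, Real.exp_le_one_iff]
      nlinarith
    have h6 : 0 ≤ T ^ (2 * k) * Real.exp (-y) := by positivity
    calc M' * T ^ (2 * k) * Real.exp (-y) = M' * (T ^ (2 * k) * Real.exp (-y)) := by ring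
      _ ≤ (b * T) * (T ^ (2 * k) * Real.exp (-y)) := mul_le_mul_of_nonneg_right hM2 h6
      _ = b * (T ^ (2 * k) * Real.exp (-y) * T) := by ring
      _ ≤ b * 1 := by gcongr
      _ = b := mul_one b
  constructor
  · have h7 : -(T ^ κ) / 2 = -(T ^ κ / 2) := by ring
    rw [h7]
    exact (mul_le_mul_of_nonneg_right hpoly (Real.exp_pos _).le).trans (key _ g2)
  · rw [mul_pow, ← Real.exp_nat_mul]
    have h7 : ((2 : ℕ) : ℝ) * (-(b * L) ^ 2 / 2) = -(b ^ 2 * L * L) := by push_cast; ring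
    rw [h7]
    refine (mul_le_mul_of_nonneg_right hpoly (Real.exp_pos _).le).trans (key _ ?_)
    exact mul_le_mul_of_nonneg_right g1 hL0.le

/-- the variance bound for all large `T` -/
theorem varT (K C : ℝ) (hK : 1 ≤ K) (hC : 0 ≤ C) (k : ℕ) (κ b : ℝ) (hκ : 0 < κ) (hb : 0 < b)
    (hbκ : 8 * b ≤ κ) : ∃ T0 : ℝ, 10 ≤ T0 ∧ ∀ T : ℝ, T0 ≤ T → ∀ f : Al,
    Dom (PN ⌊T⌋₊) (vp K (Real.log T)) k C f.coeff →
    (∀ e, f.coeff e ≠ 0 → min (hp e) (hn e) ≤ (1 - κ) / 2 * Real.log T) →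
    ∫ t0 in T..(2 * T), ‖av (b * Real.log T) t0 f -
      ((f.coeff 0 * Of (b * Real.log T) 0 : ℝ) : ℂ)‖ ^ 2 ≤
      (8 * (C ^ 2 * (2 * k * (5 * K ^ 2) * (1 + 14 * K ^ 2) ^ k)) + 10) * b * T := by
  set M := max C K with hM
  have hCM : C ≤ M := le_max_left _ _
  have hKM : K ≤ M := le_max_right _ _
  have hM0 : 0 < M := by linarith
  obtain ⟨T1, hT1, h1⟩ := poly_exp M k κ b hκ hb
  obtain ⟨T2, hT2⟩ : ∃ T2 : ℝ, ∀ T : ℝ, T2 ≤ T → 8 / b ≤ Real.log T :=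
    (Real.tendsto_log_atTop.eventually_ge_atTop _).exists_forall_of_atTop
  refine ⟨max T1 T2, hT1.trans (le_max_left _ _), fun T hT f hD hh => ?_⟩
  have hTT1 : T1 ≤ T := (le_max_left _ _).trans hT
  have hL8 := hT2 T ((le_max_right _ _).trans hT)
  obtain ⟨g1, g2⟩ := h1 T hTT1
  have hT10 := hT1.trans hTT1
  have hT0 : 0 < T := by linarith
  set L := Real.log T with hL
  have hL1 : 1 ≤ L := by
    rw [hL, Real.le_log_iff_exp_le (by linarith)]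
    have := Real.exp_one_lt_d9
    linarith
  have hN1 : 1 ≤ ⌊T⌋₊ := by
    rw [Nat.one_le_floor_iff]
    linarith
  have hNT : (⌊T⌋₊ : ℝ) ≤ T := Nat.floor_le hT0.le
  have hNL : Real.log ⌊T⌋₊ ≤ L := Real.log_le_log (by exact_mod_cast hN1) hNT
  have hv : ∀ p, 0 ≤ vp K L p := fun p => vp_nonneg (by linarith) L p
  have hV : ∑ p ∈ PN ⌊T⌋₊, vp K L p ≤ K * T :=
    (vp_sum (by linarith) hL1 _).trans (by gcongr)
  have hμ : ∀ x : ℝ, ∑ p ∈ (PN ⌊T⌋₊).filter (fun p : ℕ => |Real.log p - x| ≤ 2 * (b * L)),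
      vp K L p ^ 2 ≤ 5 * K ^ 2 * b := by
    intro x
    refine (vp_near hL1 _ (by positivity) x).trans ?_
    have h2 : 8 ≤ b * L := by
      rw [div_le_iff₀ hb] at hL8
      linarith
    rw [div_mul_eq_mul_div, div_le_iff₀ (by linarith)]
    have : 2 * (2 * (b * L)) + 8 ≤ 5 * (b * L) := by linarith
    calc K ^ 2 * (2 * (2 * (b * L)) + 8) ≤ K ^ 2 * (5 * (b * L)) := by gcongr
      _ = _ := by ring
  have hmain := var (fun p hp => (mem_PN.1 hp).1) hv hC hD (vp_total hL1 _ hN1 hNL) hμ hV hh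
    (by positivity : 0 < b * L) hT0
  have hpow : T ^ κ ≤ T ^ 2 * Real.exp (-(2 * ((1 - κ) / 2 * L) + 4 * (b * L))) ^ 2 := by
    have e1 : T ^ 2 * Real.exp (-(2 * ((1 - κ) / 2 * L) + 4 * (b * L))) ^ 2 =
        Real.exp ((2 * κ - 8 * b) * L) := by
      have e2 : T ^ 2 = Real.exp (2 * L) := by
        rw [← Real.exp_log hT0, ← hL, ← Real.exp_nat_mul]
        push_cast
        ring_nf
      rw [e2, ← Real.exp_nat_mul, ← Real.exp_add]
      congr 1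
      push_cast
      ring
    rw [e1, Real.rpow_def_of_pos hT0]
    apply Real.exp_le_exp.2
    rw [← hL]
    nlinarith
  have hq1 : (C * (1 + 2 * (K * T)) ^ k) ^ 2 *
      Real.exp (-(T ^ 2 * Real.exp (-(2 * ((1 - κ) / 2 * L) + 4 * (b * L))) ^ 2) / 2) ≤ b := by
    refine le_trans ?_ g1
    gcongr
  have hq2 : (C * (1 + 2 * (K * T)) ^ k * Real.exp (-(b * L) ^ 2 / 2)) ^ 2 ≤ b := by
    refine le_trans ?_ g2
    gcongr
  refine hmain.trans ?_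
  have e14 : 1 + 2 * (7 * K ^ 2) = 1 + 14 * K ^ 2 := by ring
  rw [e14]
  have e5 : C ^ 2 * (2 * k * (5 * K ^ 2 * b) * (1 + 14 * K ^ 2) ^ k) =
      C ^ 2 * (2 * k * (5 * K ^ 2) * (1 + 14 * K ^ 2) ^ k) * b := by ring
  rw [e5]
  calc _ ≤ 8 * T * (C ^ 2 * (2 * k * (5 * K ^ 2) * (1 + 14 * K ^ 2) ^ k) * b + b) + 2 * T * b := by
        gcongr
    _ = _ := by ring

/-- mean square of short polynomials -/
theorem sqT (K C : ℝ) (hK : 1 ≤ K) (hC : 0 ≤ C) (k : ℕ) (κ : ℝ) (hκ : 0 < κ) :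
    ∃ T0 : ℝ, 10 ≤ T0 ∧ ∀ T : ℝ, T0 ≤ T → ∀ f : Al,
    Dom (PN ⌊T⌋₊) (vp K (Real.log T)) k C f.coeff →
    (∀ e, f.coeff e ≠ 0 → hp e ≤ (1 - κ) / 2 * Real.log T ∧ hn e ≤ (1 - κ) / 2 * Real.log T) →
    ∫ t in T..(2 * T), ‖ev t f‖ ^ 2 ≤ (4 * (C ^ 2 * (1 + 14 * K ^ 2) ^ k + 1)) * T := by
  set M := max C K with hM
  have hCM : C ≤ M := le_max_left _ _
  have hKM : K ≤ M := le_max_right _ _
  have hM0 : 0 < M := by linarith
  obtain ⟨T1, hT1, h1⟩ := poly_exp M k κ 1 hκ one_pos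
  refine ⟨T1, hT1, fun T hT f hD hh => ?_⟩
  obtain ⟨g1, g2⟩ := h1 T hT
  have hT10 := hT1.trans hT
  have hT0 : 0 < T := by linarith
  set L := Real.log T with hL
  have hL1 : 1 ≤ L := by
    rw [hL, Real.le_log_iff_exp_le (by linarith)]
    have := Real.exp_one_lt_d9
    linarith
  have hN1 : 1 ≤ ⌊T⌋₊ := by
    rw [Nat.one_le_floor_iff]
    linarith
  have hNT : (⌊T⌋₊ : ℝ) ≤ T := Nat.floor_le hT0.le
  have hNL : Real.log ⌊T⌋₊ ≤ L := Real.log_le_log (by exact_mod_cast hN1) hNT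
  have hv : ∀ p, 0 ≤ vp K L p := fun p => vp_nonneg (by linarith) L p
  have hV : ∑ p ∈ PN ⌊T⌋₊, vp K L p ≤ K * T :=
    (vp_sum (by linarith) hL1 _).trans (by gcongr)
  have hnm := Dom.nm_le hv hC hD hV
  have htot := Dom.total hv hD (vp_total hL1 _ hN1 hNL) f.coeff.support
  have hsep : ∀ i ∈ f.coeff.support, ∀ j ∈ f.coeff.support, i ≠ j →
      Real.exp (-((1 - κ) * L)) ≤ |fr i - fr j| := by
    intro i hi j hj hij
    have hi0 := Finsupp.mem_support_iff.1 hi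
    have hj0 := Finsupp.mem_support_iff.1 hj
    obtain ⟨a1, a2⟩ := hh i hi0
    obtain ⟨b1, b2⟩ := hh j hj0
    exact sep (fun p hp => (mem_PN.1 (((hD i).2 hi0).2 hp)).1)
      (fun p hp => (mem_PN.1 (((hD j).2 hj0).2 hp)).1) hij (by linarith) (by linarith)
  have hI := TH800.MS.gm_sep f.coeff.support (fun e => (f.coeff e : ℂ)) fr T
    (Real.exp (-((1 - κ) * L))) hT0 (Real.exp_pos _) hsep
  have e1 : ∀ t, ‖ev t f‖ ^ 2 = ‖∑ e ∈ f.coeff.support, (f.coeff e : ℂ) *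
      cexp (((t * fr e : ℝ) : ℂ) * I)‖ ^ 2 := fun t => by rw [ev_eq]
  simp_rw [e1]
  refine hI.trans ?_
  have e2 : ∑ e ∈ f.coeff.support, ‖(f.coeff e : ℂ)‖ ^ 2 ≤ C ^ 2 * (1 + 14 * K ^ 2) ^ k := by
    have : 1 + 2 * (7 * K ^ 2) = 1 + 14 * K ^ 2 := by ring
    rw [← this]
    refine le_trans (le_of_eq ?_) htot
    refine Finset.sum_congr rfl fun e _ => ?_
    rw [Complex.norm_real, Real.norm_eq_abs, sq_abs]
  have e3 : ∑ e ∈ f.coeff.support, ‖(f.coeff e : ℂ)‖ ≤ C * (1 + 2 * (K * T)) ^ k := by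
    refine le_trans (le_of_eq ?_) hnm
    unfold nm
    refine Finset.sum_congr rfl fun e _ => ?_
    rw [Complex.norm_real, Real.norm_eq_abs]
  have e3' : 0 ≤ ∑ e ∈ f.coeff.support, ‖(f.coeff e : ℂ)‖ :=
    Finset.sum_nonneg fun _ _ => norm_nonneg _
  have hpow : T ^ κ ≤ T ^ 2 * Real.exp (-((1 - κ) * L)) ^ 2 := by
    have e1 : T ^ 2 * Real.exp (-((1 - κ) * L)) ^ 2 = Real.exp ((2 * κ) * L) := by
      have e2 : T ^ 2 = Real.exp (2 * L) := by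
        rw [← Real.exp_log hT0, ← hL, ← Real.exp_nat_mul]
        push_cast
        ring_nf
      rw [e2, ← Real.exp_nat_mul, ← Real.exp_add]
      congr 1
      push_cast
      ring
    rw [e1, Real.rpow_def_of_pos hT0]
    apply Real.exp_le_exp.2
    rw [← hL]
    nlinarith
  have hq1 : (∑ e ∈ f.coeff.support, ‖(f.coeff e : ℂ)‖) ^ 2 *
      Real.exp (-(T ^ 2 * Real.exp (-((1 - κ) * L)) ^ 2) / 2) ≤ 1 := by
    refine le_trans ?_ g1
    have : (∑ e ∈ f.coeff.support, ‖(f.coeff e : ℂ)‖) ≤ M * (1 + 2 * (M * T)) ^ k :=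
      e3.trans (by gcongr)
    gcongr
  calc _ ≤ 4 * T * (C ^ 2 * (1 + 14 * K ^ 2) ^ k + 1) := by gcongr
    _ = _ := by ring

end Pool.Agent.R321.FA
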