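import Pool.Agent.R321.FA11
import Pool.Agent.R321.FA12

/-! The law of large numbers for the window averages of the weights. -/

open Finset Complex MeasureTheory Filter Topology

namespace Pool.Agent.R321.FA

open LG (lk bk Cn EE Zs yp)
open SP (Par RHs PS Eb)

lemma Dom.mono_S {S S' : Finset ℕ} {v : ℕ → ℝ} {k : ℕ} {C : ℝ} {f : G → ℝ}
    (hf : Dom S v k C f) (hS : S ⊆ S') : Dom S' v k C f := by
  intro e
  obtain ⟨f1, f2⟩ := hf e
  exact ⟨f1, fun h => ⟨(f2 h).1, (f2 h).2.trans hS⟩⟩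

lemma PN_mono {M N : ℕ} (h : M ≤ N) : PN M ⊆ PN N := by
  intro p hp
  rw [mem_PN] at hp ⊢
  exact ⟨hp.1, hp.2.trans h⟩

/-- the coefficients of the primes are dominated -/
lemma yp_le (P : Par) (B0 : ℕ) (hB : P.B = 2 * B0) (r : ℝ) : ∃ K T0 : ℝ, 1 ≤ K ∧ 10 ≤ T0 ∧
    ∀ T : ℝ, T0 ≤ T → ∀ p ∈ PS P T, |yp P r T p| ≤ vp K (Real.log T) p := by
  obtain ⟨C, T0, hC, hT0, h⟩ := LG.fam_facts P B0 hB r (fun _ => 1)
  have hκ := P.hκ
  have hκ1 := P.hκ1
  have hBpos : (0 : ℝ) < P.B := by have := P.hB; positivity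
  set e := (1 - P.κ) / P.B with he
  have he0 : 0 < e := div_pos (by linarith) hBpos
  refine ⟨1 + C / e, T0, by have : 0 < C / e := by positivity
                            linarith, hT0, fun T hT p hp => ?_⟩
  have hT10 := hT0.trans hT
  have h1 := ((h T hT).2.1 p hp).2.1
  have h2 := SP.TTAux.lower P T hT10 p hp
  have hT0' : 0 < T := by linarith
  have hL0 : 0 < Real.log T := Real.log_pos (by linarith)
  have hpp : p.Prime := (LG.MomA.prime_of_mem hp).1
  have hp0 : (0 : ℝ) < p := by exact_mod_cast hpp.pos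
  have h3 : e * Real.log T ≤ Real.log p := by
    rw [← Real.log_rpow hT0']
    exact Real.log_le_log (by positivity) h2
  have hlp : 0 ≤ Real.log p := Real.log_natCast_nonneg p
  have hCe : 0 < C / e := by positivity
  apply abs_le_of_sq_le_sq _ (vp_nonneg (by linarith) _ _)
  rw [vp_sq hL0]
  refine h1.trans ?_
  have h4 : C / p ≤ C / e / Real.log T * (Real.log p / p) := by
    rw [div_div, div_mul_div_comm, div_le_div_iff₀ hp0 (by positivity)]
    calc C * (e * Real.log T * p) = (C * p) * (e * Real.log T) := by ring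
      _ ≤ (C * p) * Real.log p := by gcongr
      _ = _ := by ring
  refine h4.trans ?_
  apply mul_le_mul_of_nonneg_right _ (by positivity)
  apply div_le_div_of_nonneg_right _ hL0.le
  nlinarith

lemma F_bd (F : ℕ → ℝ) (N : ℕ) : ∃ K : ℝ, 0 ≤ K ∧ ∀ n ≤ N, |F n| ≤ K := by
  refine ⟨∑ n ∈ Finset.range (N + 1), |F n|, Finset.sum_nonneg fun _ _ => abs_nonneg _,
    fun n hn => ?_⟩
  exact Finset.single_le_sum (f := fun n => |F n|) (fun i _ => abs_nonneg (F i))
    (Finset.mem_range.mpr (by omega : n < N + 1))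

/-- the constant term -/
lemma tsum_S12 {P : Par} {B0 B1 : ℕ} (hB : P.B = 2 * B0) (hB1 : 2 * B1 ≤ B0) {r : ℝ}
    {F : ℕ → ℝ} (hF : ∀ n, B1 < n → F n = 0) (a c : ℝ) {b T : ℝ} (hb : 0 < b) (hT : 10 ≤ T) :
    ∑' n : ℕ, lk a c T n * Cn P B0 r F T n =
      ∑ n ∈ S12 (NN P b T), lk a c T n * Cn P B0 r F T n := by
  apply tsum_eq_sum
  intro n hn
  by_cases h0 : ArithmeticFunction.vonMangoldt n = 0
  · unfold LG.lk
    rw [h0]; ring
  · have hpp : IsPrimePow n := by
      by_contra h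
      exact h0 (ArithmeticFunction.vonMangoldt_eq_zero_iff.2 h)
    obtain ⟨p, k, hp, hk, rfl⟩ := (isPrimePow_nat_iff n).mp hpp
    rcases le_or_gt (p ^ k) (NN P b T) with hle | hgt
    · have hk3 : 3 ≤ k := by
        by_contra hcon
        have hk2 : k = 1 ∨ k = 2 := by omega
        apply hn
        unfold S12
        rw [Finset.mem_union, Finset.mem_image]
        rcases hk2 with h | h
        · left
          subst h
          rw [pow_one] at hle ⊢
          exact mem_PN.2 ⟨hp, hle⟩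
        · right
          subst h
          refine ⟨p, ?_, rfl⟩
          unfold PN2
          rw [Finset.mem_filter]
          refine ⟨mem_PN.2 ⟨hp, ?_⟩, hle⟩
          have := hp.two_le
          nlinarith
      rw [LG.Cn_zero P B0 r F T hT p k hp hk (Or.inr hk3), mul_zero]
    · rw [Cn_big hB hT hB1 hF hp, mul_zero]
      have hT0 : 0 < T := by linarith
      have h1 : T ^ ((1 - P.κ) / 2 + 2 * b) < ((p ^ k : ℕ) : ℝ) := Nat.lt_of_floor_lt hgt
      have h2 : T ^ ((1 - P.κ) / 2) ≤ T ^ ((1 - P.κ) / 2 + 2 * b) :=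
        Real.rpow_le_rpow_of_exponent_le (by linarith) (by linarith)
      rw [← Real.log_rpow hT0]
      exact Real.log_lt_log (by positivity) (lt_of_le_of_lt h2 h1)

lemma gg_const {P : Par} {B0 B1 : ℕ} (hB : P.B = 2 * B0) (hB1 : 2 * B1 ≤ B0) {r : ℝ}
    {F : ℕ → ℝ} (hF : ∀ n, B1 < n → F n = 0) (a c : ℝ) {b T : ℝ} (hb : 0 < b) (hT : 10 ≤ T) :
    (wE P B0 r F T * pp a c T (NN P b T)).coeff 0 = c * Cn P B0 r F T 1 -
      2 / Real.log T * ∑' n : ℕ, lk a c T n * Cn P B0 r F T n := by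
  have e1 : ∑ p ∈ PN (NN P b T), lk a c T p * Cn P B0 r F T p =
      ∑ p ∈ PN (NN P b T), lk a c T p * (wE P B0 r F T).coeff (1 • ds p) := by
    refine Finset.sum_congr rfl fun p hp => ?_
    rw [wE_Cn P B0 r F T (mem_PN.1 hp).1, pow_one]
  have e2 : ∑ p ∈ PN2 (NN P b T), lk a c T (p ^ 2) * Cn P B0 r F T (p ^ 2) =
      ∑ p ∈ PN2 (NN P b T), lk a c T (p ^ 2) * (wE P B0 r F T).coeff (2 • ds p) := by
    refine Finset.sum_congr rfl fun p hp => ?_
    rw [wE_Cn P B0 r F T (mem_PN.1 ((Finset.filter_subset _ _) hp)).1]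
  rw [gg_zero, wE_zero, tsum_S12 hB hB1 hF a c hb hT, S12_sum, e1, e2]

lemma sq_two {x y z b : ℝ} (h : (y - z) ^ 2 ≤ b) : (x - z) ^ 2 ≤ 2 * (x - y) ^ 2 + 2 * b := by
  nlinarith [sq_nonneg ((x - y) - (y - z))]

lemma V_bd {V W U K b T : ℝ} (hW : 0 ≤ W) (hU : 0 ≤ U) (hbT : 0 ≤ b * T)
    (hK : K = 2 * (V + 1) + 2 * (W + 1) + U ∨ K = 2 * (W + 1) + 2 * (V + 1) + U)
    (h : (0 : ℝ) ≤ V) : 2 * (V * b * T) + 2 * b * T ≤ K * b * T := by
  have h1 : 2 * (V + 1) ≤ K := by rcases hK with h | h <;> linarith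
  calc 2 * (V * b * T) + 2 * b * T = (2 * (V + 1)) * (b * T) := by ring
    _ ≤ K * (b * T) := mul_le_mul_of_nonneg_right h1 hbT
    _ = K * b * T := by ring

set_option maxHeartbeats 4000000 in
/-- **law of large numbers** -/
theorem lln (P : Par) (B0 B1 : ℕ) (hB : P.B = 2 * B0) (hB1 : 2 * B1 ≤ B0) (r : ℝ)
    (F : ℕ → ℝ) (hF : ∀ n, B1 < n → F n = 0) (a c : ℝ) (hc : 0 < c) (a0 d0 : ℝ)
    (h1 : Tendsto (fun T : ℝ => Cn P B0 r F T 1) atTop (𝓝 a0))
    (h2 : Tendsto (fun T : ℝ => (2 / Real.log T) * ∑' n : ℕ, lk a c T n * Cn P B0 r F T n) atTop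
      (𝓝 d0)) :
    ∃ K : ℝ, 0 < K ∧ ∀ b : ℝ, 0 < b → 8 * b ≤ P.κ → ∃ T0 : ℝ, 10 ≤ T0 ∧ ∀ T : ℝ, T0 ≤ T →
      (∫ t0 in T..(2 * T), (Aw P B0 r F T (b * Real.log T) t0 - a0) ^ 2 ≤ K * b * T) ∧
      (∫ t0 in T..(2 * T), ((av (b * Real.log T) t0 (wE P B0 r F T *
        pp a c T (NN P b T))).re - (c * a0 - d0)) ^ 2 ≤ K * b * T) ∧
      (∫ t in T..(2 * T), WE P B0 r F T t ^ 2 ≤ K * T) := by
  have hκ := P.hκ
  have hκ1 := P.hκ1
  obtain ⟨K1, T1, hK1, hT1, hy⟩ := yp_le P B0 hB r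
  obtain ⟨KF, hKF, hFb⟩ := F_bd F B0
  set M := 7 * K1 ^ 2 with hM
  have hM0 : 0 ≤ M := by positivity
  set Cw := KF ^ 2 * KF ^ 2 * Cc M (2 * B0 + 2 * B0) with hCw
  have hCw0 : 0 ≤ Cw := by
    have := Cc_pos hM0 (2 * B0 + 2 * B0)
    positivity
  set Cg := Cw * (5 * c) * Cc M (2 * B0 + 2 * B0 + 2) with hCg
  have hCg0 : 0 ≤ Cg := by
    have := Cc_pos hM0 (2 * B0 + 2 * B0 + 2)
    positivity
  set Vw := 8 * (Cw ^ 2 * (2 * ((2 * B0 + 2 * B0 : ℕ) : ℝ) * (5 * K1 ^ 2) *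
    (1 + 14 * K1 ^ 2) ^ (2 * B0 + 2 * B0))) + 10 with hVw
  set Vg := 8 * (Cg ^ 2 * (2 * ((2 * B0 + 2 * B0 + 2 : ℕ) : ℝ) * (5 * K1 ^ 2) *
    (1 + 14 * K1 ^ 2) ^ (2 * B0 + 2 * B0 + 2))) + 10 with hVg
  set Vs := 4 * (Cw ^ 2 * (1 + 14 * K1 ^ 2) ^ (2 * B0 + 2 * B0) + 1) with hVs
  have hVw0 : 0 < Vw := by positivity
  have hVg0 : 0 < Vg := by positivity
  have hVs0 : 0 < Vs := by positivity
  refine ⟨2 * (Vw + 1) + 2 * (Vg + 1) + Vs, by positivity, fun b hb hbκ => ?_⟩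
  have hb1 : (1 - P.κ) / 2 + 2 * b ≤ 1 := by linarith
  obtain ⟨T2, hT2, hvw⟩ := varT K1 Cw hK1 hCw0 (2 * B0 + 2 * B0) P.κ b hκ hb hbκ
  obtain ⟨T3, hT3, hvg⟩ := varT K1 Cg hK1 hCg0 (2 * B0 + 2 * B0 + 2) P.κ b hκ hb hbκ
  obtain ⟨T4, hT4, hvs⟩ := sqT K1 Cw hK1 hCw0 (2 * B0 + 2 * B0) P.κ hκ
  -- constants
  have hOf : Tendsto (fun T : ℝ => Of (b * Real.log T) 0) atTop (𝓝 1) := by
    have e1 : Tendsto (fun T : ℝ => b * Real.log T) atTop atTop :=
      Real.tendsto_log_atTop.const_mul_atTop hb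
    have e2 : Tendsto (fun T : ℝ => 1 / (b * Real.log T)) atTop (𝓝 0) :=
      e1.const_div_atTop 1
    have e3 : Tendsto (fun T : ℝ => Of (b * Real.log T) 0 - 1) atTop (𝓝 0) := by
      apply squeeze_zero_norm' (a := fun T : ℝ => 1 / (b * Real.log T)) _ e2
      filter_upwards [e1.eventually_gt_atTop 0] with T hT
      rw [Real.norm_eq_abs]
      exact Of_zero hT
    have e4 := e3.add_const 1
    simpa using e4
  have hcw : Tendsto (fun T : ℝ => (Cn P B0 r F T 1 * Of (b * Real.log T) 0 - a0) ^ 2) atTop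
      (𝓝 0) := by
    have e := ((h1.mul hOf).sub_const a0).pow 2
    simpa using e
  have hcg : Tendsto (fun T : ℝ => ((c * Cn P B0 r F T 1 - 2 / Real.log T *
      ∑' n : ℕ, lk a c T n * Cn P B0 r F T n) * Of (b * Real.log T) 0 - (c * a0 - d0)) ^ 2) atTop
      (𝓝 0) := by
    have e := ((((h1.const_mul c).sub h2).mul hOf).sub_const (c * a0 - d0)).pow 2
    simpa using e
  obtain ⟨T5, hT5⟩ := ((hcw.eventually_le_const hb).and
    (hcg.eventually_le_const hb)).exists_forall_of_atTop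
  refine ⟨max (max T1 T2) (max (max T3 T4) T5), hT1.trans ((le_max_left _ _).trans (le_max_left _ _)),
    fun T hT => ?_⟩
  simp only [max_le_iff] at hT
  obtain ⟨⟨hTT1, hTT2⟩, ⟨hTT3, hTT4⟩, hTT5⟩ := hT
  have hT10 := hT1.trans hTT1
  have hT0 : 0 < T := by linarith
  obtain ⟨hk1, hk2⟩ := hT5 T hTT5
  set L := Real.log T with hL
  have hL1 : 1 ≤ L := by
    rw [hL, Real.le_log_iff_exp_le (by linarith)]
    have := Real.exp_one_lt_d9
    linarith
  set β := b * L with hβd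
  have hβ : 0 < β := by positivity
  have hN1 : 1 ≤ ⌊T⌋₊ := by
    rw [Nat.one_le_floor_iff]
    linarith
  have hNT : (⌊T⌋₊ : ℝ) ≤ T := Nat.floor_le hT0.le
  have hNL : Real.log ⌊T⌋₊ ≤ L := Real.log_le_log (by exact_mod_cast hN1) hNT
  have hv : ∀ p, 0 ≤ vp K1 L p := fun p => vp_nonneg (by linarith) L p
  have hvt : ∑ p ∈ PN ⌊T⌋₊, vp K1 L p ^ 2 ≤ M := vp_total hL1 _ hN1 hNL
  -- domination
  have hPS : PS P T ⊆ PN ⌊T⌋₊ := by
    intro p hp
    have hpp := (LG.MomA.prime_of_mem hp).1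
    unfold SP.PS at hp
    rw [Finset.mem_filter, Finset.mem_Icc] at hp
    rw [mem_PN]
    refine ⟨hpp, hp.1.2.trans ?_⟩
    unfold SG.nn
    apply Nat.floor_le_floor
    calc T ^ (1 - P.κ) ≤ T ^ (1 : ℝ) := Real.rpow_le_rpow_of_exponent_le (by linarith) (by linarith)
      _ = T := Real.rpow_one T
  have hdE : Dom (PN ⌊T⌋₊) (vp K1 L) (2 * B0) (KF ^ 2) (eE P B0 r F T).coeff :=
    eE_dom hFb hKF hv (hy T hTT1) hPS
  have hdw : Dom (PN ⌊T⌋₊) (vp K1 L) (2 * B0 + 2 * B0) Cw (wE P B0 r F T).coeff := by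
    have hdEb : Dom (PN ⌊T⌋₊) (vp K1 L) (2 * B0) (KF ^ 2) (eEb P B0 r F T).coeff := by
      rw [eEb_eq]; exact hdE
    exact Dom.mul hv hvt (sq_nonneg _) (sq_nonneg _) hdE hdEb
  have hNNT : (NN P b T : ℝ) ≤ T := by
    unfold NN
    refine (Nat.floor_le (by positivity)).trans ?_
    calc T ^ ((1 - P.κ) / 2 + 2 * b) ≤ T ^ (1 : ℝ) :=
          Real.rpow_le_rpow_of_exponent_le (by linarith) hb1
      _ = T := Real.rpow_one T
  have hdp : Dom (PN ⌊T⌋₊) (vp K1 L) 2 (5 * c) (pp a c T (NN P b T)).coeff :=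
    Dom.mono_S (pp_dom hc hT10 _ hNNT hK1) (PN_mono (Nat.le_floor hNNT))
  have hdg : Dom (PN ⌊T⌋₊) (vp K1 L) (2 * B0 + 2 * B0 + 2) Cg
      (wE P B0 r F T * pp a c T (NN P b T)).coeff :=
    Dom.mul hv hvt hCw0 (by positivity) hdw hdp
  have hhw := fun e he => wE_ht (r := r) hB hT10 hB1 hF e he
  have hhg : ∀ e, (wE P B0 r F T * pp a c T (NN P b T)).coeff e ≠ 0 →
      min (hp e) (hn e) ≤ (1 - P.κ) / 2 * L := by
    intro e he
    have := (mul_ht hhw (fun e he => pp_ht a c T (NN P b T) e he) e he).1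
    rw [add_zero] at this
    exact (min_le_left _ _).trans this
  have i1 := hvw T hTT2 (wE P B0 r F T) hdw (fun e he => (min_le_left _ _).trans (hhw e he).1)
  have i2 := hvg T hTT3 (wE P B0 r F T * pp a c T (NN P b T)) hdg hhg
  have i3 := hvs T hTT4 (wE P B0 r F T) hdw hhw
  rw [wE_zero] at i1
  rw [gg_const hB hB1 hF a c hb hT10] at i2
  rw [← hL, ← hβd] at i1 i2
  set xw := Cn P B0 r F T 1 * Of β 0 with hxw
  set xg := (c * Cn P B0 r F T 1 - 2 / L * ∑' n : ℕ, lk a c T n * Cn P B0 r F T n) * Of β 0 with hxg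
  have hbT : 0 ≤ b * T := by positivity
  refine ⟨?_, ?_, ?_⟩
  · have hcA : Continuous (fun t0 => Aw P B0 r F T β t0) := by
      have := Complex.continuous_re.comp (av_cont β (wE P B0 r F T))
      refine this.congr fun t0 => ?_
      simp only [Function.comp]
      rw [Aw_eq P B0 r F T hβ, ofReal_re]
    have e1 : ∀ t0, ‖av β t0 (wE P B0 r F T) - ((xw : ℝ) : ℂ)‖ ^ 2 =
        (Aw P B0 r F T β t0 - xw) ^ 2 := by
      intro t0
      rw [Aw_eq P B0 r F T hβ, ← ofReal_sub, Complex.norm_real, Real.norm_eq_abs, sq_abs]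
    simp_rw [e1] at i1
    calc ∫ t0 in T..(2 * T), (Aw P B0 r F T β t0 - a0) ^ 2 ≤
        ∫ t0 in T..(2 * T), (2 * (Aw P B0 r F T β t0 - xw) ^ 2 + 2 * b) := by
          apply intervalIntegral.integral_mono_on (by linarith)
          · exact ((hcA.sub continuous_const).pow 2).intervalIntegrable _ _
          · exact ((((hcA.sub continuous_const).pow 2).const_mul 2).add
              continuous_const).intervalIntegrable _ _
          · intro t0 _
            exact sq_two hk1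
      _ = 2 * (∫ t0 in T..(2 * T), (Aw P B0 r F T β t0 - xw) ^ 2) + 2 * b * T := by
          rw [intervalIntegral.integral_add, intervalIntegral.integral_const_mul,
            intervalIntegral.integral_const, smul_eq_mul]
          · ring
          · exact (((hcA.sub continuous_const).pow 2).const_mul 2).intervalIntegrable _ _
          · simp
      _ ≤ 2 * (Vw * b * T) + 2 * b * T := add_le_add_left (mul_le_mul_of_nonneg_left i1 zero_le_two) _
      _ ≤ _ := V_bd hVg0.le hVs0.le hbT (Or.inl rfl) hVw0.le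
  · have hcA : Continuous (fun t0 => (av β t0 (wE P B0 r F T * pp a c T (NN P b T))).re) :=
      Complex.continuous_re.comp (av_cont β _)
    set X := fun t0 => (av β t0 (wE P B0 r F T * pp a c T (NN P b T))).re with hX
    have e1 : ∀ t0, (X t0 - xg) ^ 2 ≤ ‖av β t0 (wE P B0 r F T * pp a c T (NN P b T)) -
        ((xg : ℝ) : ℂ)‖ ^ 2 := by
      intro t0
      have := Complex.abs_re_le_norm (av β t0 (wE P B0 r F T * pp a c T (NN P b T)) -
        ((xg : ℝ) : ℂ))
      rw [sub_re, ofReal_re] at this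
      rw [← sq_abs (X t0 - xg)]
      exact pow_le_pow_left₀ (abs_nonneg _) this 2
    have i2' : ∫ t0 in T..(2 * T), (X t0 - xg) ^ 2 ≤ Vg * b * T := by
      refine le_trans ?_ i2
      apply intervalIntegral.integral_mono_on (by linarith)
      · exact ((hcA.sub continuous_const).pow 2).intervalIntegrable _ _
      · exact (((av_cont β _).sub continuous_const).norm.pow 2).intervalIntegrable _ _
      · intro t0 _
        exact e1 t0
    calc ∫ t0 in T..(2 * T), (X t0 - (c * a0 - d0)) ^ 2 ≤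
        ∫ t0 in T..(2 * T), (2 * (X t0 - xg) ^ 2 + 2 * b) := by
          apply intervalIntegral.integral_mono_on (by linarith)
          · exact ((hcA.sub continuous_const).pow 2).intervalIntegrable _ _
          · exact ((((hcA.sub continuous_const).pow 2).const_mul 2).add
              continuous_const).intervalIntegrable _ _
          · intro t0 _
            exact sq_two hk2
      _ = 2 * (∫ t0 in T..(2 * T), (X t0 - xg) ^ 2) + 2 * b * T := by
          rw [intervalIntegral.integral_add, intervalIntegral.integral_const_mul,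
            intervalIntegral.integral_const, smul_eq_mul]
          · ring
          · exact (((hcA.sub continuous_const).pow 2).const_mul 2).intervalIntegrable _ _
          · simp
      _ ≤ 2 * (Vg * b * T) + 2 * b * T := add_le_add_left (mul_le_mul_of_nonneg_left i2' zero_le_two) _
      _ ≤ _ := V_bd hVw0.le hVs0.le hbT (Or.inr rfl) hVg0.le
  · have e1 : ∀ t, ‖ev t (wE P B0 r F T)‖ ^ 2 = WE P B0 r F T t ^ 2 := by
      intro t
      rw [WE_ev, Complex.norm_real, Real.norm_eq_abs, sq_abs]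
    simp_rw [e1] at i3
    refine i3.trans ?_
    apply mul_le_mul_of_nonneg_right _ hT0.le
    linarith

end Pool.Agent.R321.FA
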