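import Pool.Agent.R321.FA4
import Pool.Agent.H880R2.LG.Mean

/-! Tails of the window averages. -/

open Finset Complex MeasureTheory Filter Topology

namespace Pool.Agent.R321.FA

/-- tail of the window -/
noncomputable def gT (β h : ℝ) : ℝ → ℝ := ({y : ℝ | h < |y|}).indicator (om β)

lemma gT_meas (h : ℝ) : MeasurableSet {y : ℝ | h < |y|} :=
  measurableSet_lt measurable_const measurable_id.abs

lemma gT_nonneg {β : ℝ} (hβ : 0 < β) (h y : ℝ) : 0 ≤ gT β h y :=
  Set.indicator_nonneg (fun y _ => om_nonneg hβ y) y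

lemma gT_le {β : ℝ} (hβ : 0 < β) (h y : ℝ) : gT β h y ≤ om β y :=
  Set.indicator_le_self' (fun y _ => om_nonneg hβ y) y

lemma gT_int {β : ℝ} (hβ : 0 < β) (h : ℝ) : Integrable (gT β h) :=
  (om_int hβ).indicator (gT_meas h)

lemma om_even (β y : ℝ) : om β |y| = om β y := by
  unfold om TH800.MS.Om
  rcases abs_cases y with ⟨h, _⟩ | ⟨h, _⟩
  · rw [h]
  · rw [h, neg_sq, show β * -y / 2 = -(β * y / 2) by ring, Real.sinc_neg]

lemma om_inv_sq {β : ℝ} (hβ : 0 < β) {y : ℝ} (hy : 0 < y) : om β y ≤ 1 / β * y ^ (-2 : ℝ) := by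
  have hpi := Real.pi_gt_three
  unfold om TH800.MS.Om
  have h1 : Real.exp (-y ^ 2 / 2) ≤ 1 := by
    rw [Real.exp_le_one_iff]
    have := sq_nonneg y
    linarith
  have h2 : Real.sinc (β * y / 2) ^ 2 ≤ 4 / (β * y) ^ 2 := by
    rw [Real.sinc_of_ne_zero (by positivity), div_pow]
    have h3 : Real.sin (β * y / 2) ^ 2 ≤ 1 := Real.sin_sq_le_one _
    calc Real.sin (β * y / 2) ^ 2 / (β * y / 2) ^ 2 ≤ 1 / (β * y / 2) ^ 2 := by gcongr
      _ = _ := by field_simp; norm_num
  have h4 : y ^ (-2 : ℝ) = 1 / y ^ 2 := by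
    rw [show (-2 : ℝ) = -((2 : ℕ) : ℝ) by norm_num, Real.rpow_neg hy.le, Real.rpow_natCast, one_div]
  rw [h4]
  calc β / (2 * Real.pi) * (Real.exp (-y ^ 2 / 2) * Real.sinc (β * y / 2) ^ 2) ≤
      β / (2 * 2) * (1 * (4 / (β * y) ^ 2)) := by
        have : (2 : ℝ) ≤ Real.pi := by linarith
        gcongr
    _ = _ := by field_simp; norm_num

lemma gT_total {β h : ℝ} (hβ : 0 < β) (hh : 0 < h) : ∫ y, gT β h y ≤ 2 / (β * h) := by
  have e1 : gT β h = fun y => (Set.Ioi h).indicator (om β) |y| := by
    funext y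
    unfold gT
    by_cases hy : h < |y|
    · rw [Set.indicator_of_mem (show y ∈ {y : ℝ | h < |y|} from hy),
        Set.indicator_of_mem (show |y| ∈ Set.Ioi h from hy), om_even]
    · rw [Set.indicator_of_notMem (show y ∉ {y : ℝ | h < |y|} from hy),
        Set.indicator_of_notMem (show |y| ∉ Set.Ioi h from hy)]
  rw [e1, integral_comp_abs (f := (Set.Ioi h).indicator (om β))]
  have e2 : ∫ y in Set.Ioi (0 : ℝ), (Set.Ioi h).indicator (om β) y = ∫ y in Set.Ioi h, om β y := by
    rw [setIntegral_indicator measurableSet_Ioi]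
    congr 2
    ext y
    simp only [Set.mem_inter_iff, Set.mem_Ioi]
    constructor
    · exact fun h => h.2
    · intro h'; exact ⟨hh.trans h', h'⟩
  rw [e2]
  have hri : IntegrableOn (fun y : ℝ => 1 / β * y ^ (-2 : ℝ)) (Set.Ioi h) :=
    (integrableOn_Ioi_rpow_of_lt (by norm_num) hh).const_mul _
  have e3 : ∫ y in Set.Ioi h, om β y ≤ ∫ y in Set.Ioi h, 1 / β * y ^ (-2 : ℝ) := by
    apply setIntegral_mono_on (om_int hβ).integrableOn hri measurableSet_Ioi
    intro y hy
    exact om_inv_sq hβ (hh.trans hy)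
  have e4 : ∫ y in Set.Ioi h, 1 / β * y ^ (-2 : ℝ) = 1 / (β * h) := by
    rw [integral_const_mul, integral_Ioi_rpow_of_lt (by norm_num) hh]
    have : h ^ ((-2 : ℝ) + 1) = 1 / h := by
      rw [show (-2 : ℝ) + 1 = -1 by norm_num, Real.rpow_neg_one, one_div]
    rw [this]
    field_simp
    norm_num
  rw [e4] at e3
  calc 2 * ∫ y in Set.Ioi h, om β y ≤ 2 * (1 / (β * h)) := by gcongr
    _ = _ := by ring

lemma gT_split {β h : ℝ} (hβ : 0 < β) (hh : 0 ≤ h) {W : ℝ → ℝ} (hWc : Continuous W) {M : ℝ}
    (hWM : ∀ t, |W t| ≤ M) (t0 : ℝ) : (∫ t, om β (t - t0) * W t) =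
      (∫ t in (t0 - h)..(t0 + h), om β (t - t0) * W t) + ∫ y, gT β h y * W (t0 + y) := by
  have hint : Integrable (fun t => om β (t - t0) * W t) := by
    refine (((om_int hβ).comp_sub_right t0).mul_const M).mono' ?_ (Eventually.of_forall fun t => ?_)
    · exact (((om_cont β).comp (by fun_prop)).mul hWc).aestronglyMeasurable
    · rw [norm_mul, Real.norm_of_nonneg (om_nonneg hβ _), Real.norm_eq_abs]
      exact mul_le_mul_of_nonneg_left (hWM t) (om_nonneg hβ _)
  have h1 := integral_add_right_eq_self (fun t => om β (t - t0) * W t) (μ := volume) t0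
  have e1 : ∀ y, om β (y + t0 - t0) * W (y + t0) = om β y * W (t0 + y) := fun y => by
    rw [add_sub_cancel_right, add_comm]
  simp only [e1] at h1
  have hint2 : Integrable (fun y => om β y * W (t0 + y)) := by
    have := hint.comp_add_right t0
    simp only [e1] at this
    exact this
  have h2 := integral_add_compl (gT_meas h) hint2
  have h3 : ∫ y, gT β h y * W (t0 + y) = ∫ y in {y : ℝ | h < |y|}, om β y * W (t0 + y) := by
    rw [← integral_indicator (gT_meas h)]
    congr 1
    funext y
    unfold gT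
    by_cases hy : y ∈ {y : ℝ | h < |y|}
    · rw [Set.indicator_of_mem hy, Set.indicator_of_mem hy]
    · rw [Set.indicator_of_notMem hy, Set.indicator_of_notMem hy, zero_mul]
  have h4 : ∫ y in {y : ℝ | h < |y|}ᶜ, om β y * W (t0 + y) =
      ∫ t in (t0 - h)..(t0 + h), om β (t - t0) * W t := by
    have e2 : ({y : ℝ | h < |y|}ᶜ : Set ℝ) = Set.Icc (-h) h := by
      ext y
      simp only [Set.mem_compl_iff, Set.mem_setOf_eq, not_lt, Set.mem_Icc, abs_le]
    rw [e2, integral_Icc_eq_integral_Ioc, ← intervalIntegral.integral_of_le (by linarith)]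
    have h5 := intervalIntegral.integral_comp_add_right (a := -h) (b := h)
      (fun t => om β (t - t0) * W t) t0
    simp only [e1] at h5
    rw [h5]
    congr 1 <;> ring
  rw [← h1, ← h2, h3, h4]
  ring

lemma Tl_cont {β h : ℝ} (hβ : 0 < β) {W : ℝ → ℝ} (hWc : Continuous W) {M : ℝ}
    (hWM : ∀ t, |W t| ≤ M) : Continuous (fun t0 => ∫ y, gT β h y * W (t0 + y)) := by
  apply continuous_of_dominated (bound := fun y => gT β h y * M)
  · intro t0
    exact (gT_int hβ h).aestronglyMeasurable.mul
      (hWc.comp (by fun_prop)).aestronglyMeasurable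
  · intro t0
    refine Eventually.of_forall fun y => ?_
    rw [norm_mul, Real.norm_of_nonneg (gT_nonneg hβ h y), Real.norm_eq_abs]
    exact mul_le_mul_of_nonneg_left (hWM _) (gT_nonneg hβ h y)
  · exact (gT_int hβ h).mul_const M
  · refine Eventually.of_forall fun y => ?_
    exact continuous_const.mul (hWc.comp (by fun_prop))

/-- the mean of the tails -/
theorem tail_mean {β h R T V1 V2 M : ℝ} (hβ : 0 < β) (hh : 0 < h) (hR : 0 ≤ R) (hV : V1 ≤ V2)
    (h1 : T ≤ V1 - R) (h2 : V2 + R ≤ 2 * T) {W : ℝ → ℝ} (hWc : Continuous W)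
    (hW0 : ∀ t, 0 ≤ W t) (hWM : ∀ t, W t ≤ M) :
    ∫ t0 in V1..V2, (∫ y, gT β h y * W (t0 + y)) ≤
      2 / (β * h) * (∫ t in T..(2 * T), W t) + (V2 - V1) * M * ∫ y, gT β R y := by
  have hWM' : ∀ t, |W t| ≤ M := fun t => by rw [abs_of_nonneg (hW0 t)]; exact hWM t
  have hM0 : 0 ≤ M := (hW0 0).trans (hWM 0)
  have hT2 : T ≤ 2 * T := by linarith
  set J : ℝ → ℝ := fun y => ∫ t0 in V1..V2, W (t0 + y) with hJ
  have hswap : ∫ t0 in V1..V2, (∫ y, gT β h y * W (t0 + y)) = ∫ y, gT β h y * J y := by
    have hint : Integrable (Function.uncurry fun t0 y => gT β h y * W (t0 + y))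
        ((volume.restrict (Set.Ioc V1 V2)).prod volume) := by
      have h3 : Integrable (fun z : ℝ × ℝ => (1 : ℝ) * (gT β h z.2 * M))
          ((volume.restrict (Set.Ioc V1 V2)).prod volume) :=
        Integrable.mul_prod (f := fun _ : ℝ => (1 : ℝ)) (g := fun y => gT β h y * M)
          (integrable_const _) ((gT_int hβ h).mul_const M)
      refine h3.mono' ?_ (Eventually.of_forall fun z => ?_)
      · apply AEStronglyMeasurable.mul
        · exact (gT_int hβ h).aestronglyMeasurable.comp_snd
        · apply Continuous.aestronglyMeasurable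
          exact hWc.comp (by fun_prop)
      · show ‖gT β h z.2 * W (z.1 + z.2)‖ ≤ 1 * (gT β h z.2 * M)
        rw [norm_mul, Real.norm_of_nonneg (gT_nonneg hβ h _), Real.norm_eq_abs, one_mul]
        exact mul_le_mul_of_nonneg_left (hWM' _) (gT_nonneg hβ h _)
    rw [intervalIntegral.integral_of_le hV, integral_integral_swap hint]
    congr 1
    funext y
    rw [integral_const_mul, hJ]
    simp only
    rw [intervalIntegral.integral_of_le hV]
  have hJ0 : ∀ y, 0 ≤ J y := fun y => by
    rw [hJ]
    exact intervalIntegral.integral_nonneg hV fun t _ => hW0 _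
  have hJM : ∀ y, J y ≤ (V2 - V1) * M := by
    intro y
    rw [hJ]
    calc ∫ t0 in V1..V2, W (t0 + y) ≤ ∫ t0 in V1..V2, M :=
          intervalIntegral.integral_mono_on hV ((hWc.comp (by fun_prop)).intervalIntegrable _ _)
            (by simp) fun t _ => hWM _
      _ = (V2 - V1) * M := by rw [intervalIntegral.integral_const, smul_eq_mul]
  have hJR : ∀ y, |y| ≤ R → J y ≤ ∫ t in T..(2 * T), W t := by
    intro y hy
    rw [abs_le] at hy
    rw [hJ]
    simp only
    rw [intervalIntegral.integral_comp_add_right]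
    exact intervalIntegral.integral_mono_interval (by linarith) (by linarith) (by linarith)
      (Eventually.of_forall fun t => hW0 t) (hWc.intervalIntegrable _ _)
  have hI0 : 0 ≤ ∫ t in T..(2 * T), W t := intervalIntegral.integral_nonneg hT2 fun t _ => hW0 t
  have hVM : 0 ≤ (V2 - V1) * M := mul_nonneg (by linarith) hM0
  rw [hswap]
  calc ∫ y, gT β h y * J y ≤ ∫ y, (gT β h y * (∫ t in T..(2 * T), W t) +
        (V2 - V1) * M * gT β R y) := by
        apply integral_mono_of_nonneg
        · exact Eventually.of_forall fun y => mul_nonneg (gT_nonneg hβ h y) (hJ0 y)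
        · exact ((gT_int hβ h).mul_const _).add ((gT_int hβ R).const_mul _)
        · refine Eventually.of_forall fun y => ?_
          have g1 := gT_nonneg hβ h y
          have g2 := gT_nonneg hβ R y
          show gT β h y * J y ≤ gT β h y * (∫ t in T..(2 * T), W t) + (V2 - V1) * M * gT β R y
          by_cases hy : |y| ≤ R
          · have := mul_le_mul_of_nonneg_left (hJR y hy) g1
            have := mul_nonneg hVM g2
            linarith
          · have h5 : gT β R y = om β y := by
              unfold gT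
              exact Set.indicator_of_mem (show y ∈ {y : ℝ | R < |y|} from not_le.1 hy) _
            have h6 := gT_le hβ h y
            rw [h5]
            calc gT β h y * J y ≤ om β y * ((V2 - V1) * M) :=
                  mul_le_mul h6 (hJM y) (hJ0 y) (om_nonneg hβ y)
              _ = (V2 - V1) * M * om β y := by ring
              _ ≤ _ := by
                have := mul_nonneg g1 hI0
                linarith
    _ = (∫ y, gT β h y) * (∫ t in T..(2 * T), W t) + (V2 - V1) * M * ∫ y, gT β R y := by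
        rw [integral_add ((gT_int hβ h).mul_const _) ((gT_int hβ R).const_mul _),
          integral_mul_const, integral_const_mul]
    _ ≤ _ := by
        have := gT_total hβ hh
        gcongr

lemma gT_gauss {β R : ℝ} (hβ : 0 < β) (hR : 0 ≤ R) :
    ∫ y, gT β R y ≤ β * (4 * 1) * Real.exp (-(R ^ 2 / (4 * 1 ^ 2))) := by
  have h1 := gT_split hβ hR (W := fun _ => (1 : ℝ)) continuous_const (M := 1)
    (fun t => by rw [abs_one]) 0
  have h2 := LG.MeanAux.tail_int (fun t => ((om β (t - 0) * 1 : ℝ) : ℂ)) 0 1 (0 - R) (0 + R) R β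
    one_pos hR (by linarith) (by linarith) le_rfl
    (Complex.continuous_ofReal.comp (((om_cont β).comp (by fun_prop)).mul continuous_const))
    hβ.le (fun t => by
      rw [Complex.norm_real, mul_one, Real.norm_of_nonneg (om_nonneg hβ _)]
      refine (om_le hβ _).trans (le_of_eq ?_)
      unfold SP.wt
      norm_num)
  rw [intervalIntegral.integral_ofReal, integral_complex_ofReal, ← ofReal_sub,
    Complex.norm_real, Real.norm_eq_abs] at h2
  have h3 : (∫ y, gT β R y) = ∫ y, gT β R y * 1 := by simp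
  rw [h3]
  have h4 := neg_abs_le ((∫ t in (0 - R)..(0 + R), om β (t - 0) * 1) - ∫ t, om β (t - 0) * 1)
  linarith

end Pool.Agent.R321.FA
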