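import Pool.Agent.R321.FA15

/-! Large gaps in almost all windows. -/

open Finset Complex MeasureTheory Filter Topology

namespace Pool.Agent.R321.FA

open LG (lk bk Cn EE Zs yp SF SM sm sm0 tm IsQ gK)
open SP (Par RHs PS Eb ZZ)

lemma pair_int {β T a c : ℝ} (P : Par) (B0 : ℕ) (r : ℝ) (F : ℕ → ℝ) (hT : 1 ≤ T) (t0 u v : ℝ) :
    IntervalIntegrable (fun t => om β (t - t0) * WE P B0 r F T t * Zs a c T t) volume u v :=
  ((((om_cont β).comp (by fun_prop)).mul (WE_cont P B0 r F T)).mul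
    (LG.MeanAux.Zs_cont a c T hT)).intervalIntegrable _ _

lemma winL_comb {e1 a0 ρ Av Tl Gv b0 C J : ℝ} (he : 0 ≤ e1) (he14 : e1 ≤ 1 / 4) (hTl : 0 ≤ Tl)
    (hb0a : b0 ≤ a0 - 3 * ρ) (hlow : (1 - 2 * e1) * (Av - Tl) ≤ J)
    (hup : J - Gv ≤ C * (Av + 1)) (c1 : C * (a0 + 1) ≤ ρ) (c2 : C ≤ 1) (c3 : 0 ≤ C)
    (c4 : 2 * e1 * a0 ≤ ρ) : ρ ≤ 2 * |Av - a0| + |Gv - b0| + Tl := by
  have x1 := neg_abs_le (Av - a0)
  have y2 := le_abs_self (Gv - b0)
  have d1 : C * (Av - a0) ≤ |Av - a0| := by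
    calc C * (Av - a0) ≤ C * |Av - a0| := mul_le_mul_of_nonneg_left (le_abs_self _) c3
      _ ≤ 1 * |Av - a0| := mul_le_mul_of_nonneg_right c2 (abs_nonneg _)
      _ = _ := one_mul _
  have d2 : (1 - 2 * e1) * (a0 - |Av - a0| - Tl) ≤ (1 - 2 * e1) * (Av - Tl) := by
    apply mul_le_mul_of_nonneg_left _ (by linarith)
    linarith
  have g1 : 0 ≤ 2 * e1 * |Av - a0| := mul_nonneg (by linarith) (abs_nonneg _)
  have g2 : 0 ≤ 2 * e1 * Tl := mul_nonneg (by linarith) hTl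
  have d3 : (1 - 2 * e1) * (a0 - |Av - a0| - Tl) =
      a0 - |Av - a0| - Tl - 2 * e1 * a0 + 2 * e1 * |Av - a0| + 2 * e1 * Tl := by ring
  have d4 : C * (Av + 1) = C * (Av - a0) + C * (a0 + 1) := by ring
  linarith

set_option maxHeartbeats 4000000 in
/-- **windows without large gaps are rare** -/
theorem winL (hRH : RHs) (P : Par) (B0 B1 : ℕ) (hB : P.B = 2 * B0) (hB1 : 2 * B1 ≤ B0) (r : ℝ)
    (hr : 0 < r) (F q : ℕ → ℝ) (hF : ∀ n, B1 < n → F n = 0) (hq : IsQ B0 (tm P r) q) (c : ℝ)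
    (hc : 0 < c) (hSF : 0 < SF B0 F q)
    (hstrict : c * SF B0 F q < SF B0 F q +
      4 * r / Real.pi * ∑ m ∈ Finset.Icc 2 B0, sm0 P c m * SM B0 F q m) :
    ∃ η K : ℝ, 0 < η ∧ 0 < K ∧ ∀ b X : ℝ, 0 < b → 8 * b ≤ P.κ → 1 ≤ X → ∃ T0 : ℝ, 10 ≤ T0 ∧
      ∀ T : ℝ, T0 ≤ T → ∃ Φ : ℝ → ℝ, Continuous Φ ∧ (∀ t, 0 ≤ Φ t) ∧
      T + 2 * Real.log T ^ 3 ≤ 2 * T - 2 * Real.log T ^ 3 ∧
      (∀ t0, T + 2 * Real.log T ^ 3 ≤ t0 → t0 ≤ 2 * T - 2 * Real.log T ^ 3 →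
        (∀ t, |t - t0| ≤ X / (b * Real.log T) → ∃ s ∈ ZZ T,
          |s.im - t| ≤ Real.pi * (c + η) / Real.log T) → 1 ≤ Φ t0) ∧
      ∫ t0 in (T + 2 * Real.log T ^ 3)..(2 * T - 2 * Real.log T ^ 3), Φ t0 ≤
        K * (b + 1 / X) * T := by
  classical
  have hpi := Real.pi_pos
  obtain ⟨η, δ, A1, hη, hδ, hA1, hpar⟩ := LG.LocAux.choose_params P B0 r F q c hstrict
  set S0 := SF B0 F q with hS0
  set e1 := min (1 / 4) (δ / (2 * S0)) with he1
  have he10 : 0 < e1 := by rw [he1]; exact lt_min (by norm_num) (by positivity)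
  have he14 : e1 ≤ 1 / 4 := min_le_left _ _
  have he1S : 2 * e1 * S0 ≤ δ := by
    have : e1 ≤ δ / (2 * S0) := min_le_right _ _
    rw [le_div_iff₀ (by positivity)] at this
    linarith
  have hc1 : 0 < c + 2 * η := by linarith
  obtain ⟨A0, hA0, hge⟩ := LG.gK_ge (c + η) (c + 2 * η) e1 (by linarith) (by linarith) he10
  set A := max A0 A1 with hA
  have hApos : 0 < A := lt_of_lt_of_le hA0 (le_max_left _ _)
  have hst := hpar A (le_max_right _ _)
  have hge' := hge A (le_max_left _ _)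
  have hg0 : ∀ x, 0 ≤ gK A (c + 2 * η) x := fun x => (LG.gK_bounds A (c + 2 * η) x hApos hc1).1
  have hgc : Continuous (gK A (c + 2 * η)) := LG.gK_continuous A (c + 2 * η)
  set U1 := ∑ m ∈ Finset.Icc 2 B0, sm P A (c + 2 * η) m * SM B0 F q m with hU1
  set d0 := 4 * r / Real.pi * (S0 * U1) with hd0
  have l1 := LG.COMB1 P B0 hB r hr F q hq
  have l2 := LG.COMB2_of P B0 hB r hr F q hq A (c + 2 * η) (LG.PSUM P A (c + 2 * η) hApos hc1)
    (LG.PSUM_abs P A (c + 2 * η) hApos hc1)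
  set ρ := δ * S0 with hρ
  have hρ0 : 0 < ρ := by positivity
  set a0 := S0 ^ 2 with ha0
  set b0 := (c + 2 * η) * a0 - d0 with hb0
  have hb0a : b0 ≤ a0 - 3 * ρ := by
    have e : b0 = S0 * ((c + 2 * η) * S0 - 4 * r / Real.pi * U1) := by rw [hb0, hd0, ha0]; ring
    have e2 : (c + 2 * η) * S0 - 4 * r / Real.pi * U1 ≤ S0 - 3 * δ := by linarith
    rw [e]
    calc S0 * ((c + 2 * η) * S0 - 4 * r / Real.pi * U1) ≤ S0 * (S0 - 3 * δ) :=
          mul_le_mul_of_nonneg_left e2 hSF.le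
      _ = a0 - 3 * ρ := by rw [ha0, hρ]; ring
  obtain ⟨K, hK, hmean⟩ := Ph_mean P B0 B1 hB hB1 r F hF A (c + 2 * η) hc1 a0 d0 ρ hρ0 l1 l2
  refine ⟨η, K, hη, hK, fun b X hb hbκ hX => ?_⟩
  have hκ := P.hκ
  have hκ1 := P.hκ1
  obtain ⟨T1, hT1, hm⟩ := hmean b X hb hbκ hX
  obtain ⟨C2, T2, hC2, hT2, hloc⟩ := loc2 hRH P B0 B1 hB hB1 r F hF A (c + 2 * η) b hApos hc1 hb
    (by linarith)
  set R := Real.pi * (c + η) with hR
  have hR0 : 0 < R := by positivity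
  obtain ⟨T3, hT3⟩ := (Real.tendsto_log_atTop.eventually_ge_atTop
    (max (max 1 (R ^ 2 / (2 * e1))) (max (C2 * (a0 + 1) / ρ) (max C2 (X / b))))).exists_forall_of_atTop
  refine ⟨max T1 (max T2 T3), hT1.trans (le_max_left _ _), fun T hT => ?_⟩
  simp only [max_le_iff] at hT
  obtain ⟨hTT1, hTT2, hTT3⟩ := hT
  have hLB := hT3 T hTT3
  simp only [max_le_iff] at hLB
  obtain ⟨⟨hL1, hLR⟩, hLC, hLC2, hLX⟩ := hLB
  have hT10 := hT1.trans hTT1
  obtain ⟨hV, hmT⟩ := hm T hTT1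
  have hlocT := hloc T hTT2
  set L := Real.log T with hL
  have hL0 : 0 < L := by linarith
  have hβ : 0 < b * L := by positivity
  have hX0 : 0 < X := by linarith
  set h := X / (b * L) with hh
  have hh0 : 0 < h := by positivity
  refine ⟨Ph P B0 r F A (c + 2 * η) b h a0 b0 ρ T, Ph_cont P B0 r F A (c + 2 * η) h a0 b0 ρ hβ,
    Ph_nonneg P B0 r F A (c + 2 * η) h a0 b0 hρ0 hβ, hV, ?_, hmT⟩
  intro t0 ht1 ht2 hz
  apply Ph_ge_one hρ0 hβ
  have hl := hlocT t0 ht1 ht2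
  have hWc := WE_cont P B0 r F T
  have hW0 := WE_nonneg P B0 r F T
  have hZ0 : ∀ t, 0 ≤ Zs A (c + 2 * η) T t := fun t =>
    LG.LocAux.Zs_nonneg A (c + 2 * η) T t (by linarith) hg0
  have hh1 : h ≤ L ^ 3 := by
    rw [hh, ← div_div, div_le_iff₀ hL0]
    have h1 : 1 ≤ L ^ 3 := one_le_pow₀ hL1
    calc X / b ≤ L := hLX
      _ = 1 * L := (one_mul L).symm
      _ ≤ L ^ 3 * L := mul_le_mul_of_nonneg_right h1 hL0.le
  set Tl := ∫ y, gT (b * L) h y * WE P B0 r F T (t0 + y) with hTl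
  have hTl0 : 0 ≤ Tl := integral_nonneg fun y => mul_nonneg (gT_nonneg hβ h y) (WE_nonneg _ _ _ _ _ _)
  set Av := Aw P B0 r F T (b * L) t0 with hAv
  have hsp : Av = (∫ t in (t0 - h)..(t0 + h), om (b * L) (t - t0) * WE P B0 r F T t) + Tl :=
    gT_split hβ hh0.le hWc (M := nm (wE P B0 r F T)) (fun t => by
      rw [abs_of_nonneg (WE_nonneg _ _ _ _ _ _)]; exact WE_le _ _ _ _ _ _) t0
  have hT1' : 1 ≤ T := by linarith
  have hlow : (1 - 2 * e1) * (Av - Tl) ≤ ∫ t in (t0 - L ^ 3)..(t0 + L ^ 3),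
      om (b * L) (t - t0) * WE P B0 r F T t * Zs A (c + 2 * η) T t := by
    have e2 : Av - Tl = ∫ t in (t0 - h)..(t0 + h), om (b * L) (t - t0) * WE P B0 r F T t := by
      rw [hsp]; ring
    have hoWc : Continuous (fun t => om (b * L) (t - t0) * WE P B0 r F T t) :=
      ((om_cont _).comp (by fun_prop)).mul hWc
    rw [e2, ← intervalIntegral.integral_const_mul]
    calc ∫ t in (t0 - h)..(t0 + h), (1 - 2 * e1) * (om (b * L) (t - t0) * WE P B0 r F T t) ≤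
        ∫ t in (t0 - h)..(t0 + h), om (b * L) (t - t0) * WE P B0 r F T t *
          Zs A (c + 2 * η) T t := by
          apply intervalIntegral.integral_mono_on (by linarith)
            ((hoWc.const_mul _).intervalIntegrable _ _) (pair_int P B0 r F hT1' t0 _ _)
          intro t ht
          have g1 : 0 ≤ om (b * L) (t - t0) * WE P B0 r F T t := mul_nonneg (om_nonneg hβ _) (hW0 t)
          rw [mul_comm]
          apply mul_le_mul_of_nonneg_left _ g1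
          obtain ⟨s, hs, hst'⟩ := hz t (by rw [abs_le]; constructor <;> linarith [ht.1, ht.2])
          exact LG.LocAux.Zs_ge hT1' hL1 hR0 he10 (by linarith) hLR hg0 hge' hs hst'
      _ ≤ _ := by
          apply intervalIntegral.integral_mono_interval (by linarith) (by linarith) (by linarith)
            (Eventually.of_forall fun t => mul_nonneg (mul_nonneg (om_nonneg hβ _) (hW0 t)) (hZ0 t))
            (pair_int P B0 r F hT1' t0 _ _)
  set Gv := (av (b * L) t0 (wE P B0 r F T * pp A (c + 2 * η) T (NN P b T))).re with hGv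
  have hup := (abs_le.1 hl).2
  have c1 : C2 / L * (a0 + 1) ≤ ρ := by
    rw [div_mul_eq_mul_div, div_le_iff₀ hL0]
    rw [div_le_iff₀ hρ0] at hLC
    linarith only [hLC]
  have c2 : C2 / L ≤ 1 := by rw [div_le_one hL0]; exact hLC2
  have c3 : 0 ≤ C2 / L := div_nonneg hC2.le hL0.le
  have c4 : 2 * e1 * a0 ≤ ρ := by
    calc 2 * e1 * a0 = (2 * e1 * S0) * S0 := by rw [ha0]; ring
      _ ≤ δ * S0 := mul_le_mul_of_nonneg_right he1S hSF.le
      _ = ρ := rfl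
  exact winL_comb he10.le he14 hTl0 hb0a hlow hup c1 c2 c3 c4

end Pool.Agent.R321.FA
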