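import Pool.Agent.TH800.MS.Sg5
import Pool.Agent.TH800.DM.Mn

/-! From blocks to all indices. -/

open Filter Topology Set MeasureTheory

namespace Pool.Agent.R321.FA

open SG (ord NZ)
open TH800.MS (dlt)

/-- summation over the blocks -/
theorem all_of_block : ∃ C : ℝ, 0 < C ∧ ∀ (Q : ℕ → Prop) (ε : ℝ), 0 < ε →
    (∃ T1 : ℝ, ∀ T : ℝ, T1 ≤ T →
      ({n : ℕ | 1 ≤ n ∧ T ≤ ord n ∧ ord n ≤ 3 / 2 * T ∧ Q n}.ncard : ℝ) ≤
        ε * (T * Real.log T)) →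
    ∃ N0 : ℕ, ∀ N : ℕ, N0 ≤ N → ({n : ℕ | 1 ≤ n ∧ n ≤ N ∧ Q n}.ncard : ℝ) ≤ C * ε * N := by
  obtain ⟨c1, T2, hc1, hT2, hlow⟩ := LG.GapAux.NZ_low
  refine ⟨9 * (2 / c1) + 1, by positivity, fun Q ε hε hblock => ?_⟩
  obtain ⟨T0, hblock⟩ := hblock
  set T1 := max 10 T0 with hT1
  have hT110 : 10 ≤ T1 := le_max_left _ _
  have h1 := LG.CU.sum_blocks Q ε T1 hε.le hT110
    (fun T hT => hblock T ((le_max_right _ _).trans hT)) (2 * T1) le_rfl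
  obtain ⟨N1, hN1⟩ := (SG.ord_tendsto.eventually_ge_atTop (3 * T2 + 3)).exists_forall_of_atTop
  obtain ⟨N2, hN2⟩ := exists_nat_ge ((NZ (2 * T1) : ℝ) / ε)
  refine ⟨max (max N1 N2) 3, fun N hN => ?_⟩
  have hNN1 : N1 ≤ N := ((le_max_left _ _).trans (le_max_left _ _)).trans hN
  have hNN2 : N2 ≤ N := ((le_max_right _ _).trans (le_max_left _ _)).trans hN
  have hN3 : 3 ≤ N := (le_max_right _ _).trans hN
  have hN3r : (3 : ℝ) ≤ N := by exact_mod_cast hN3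
  have hN0 : (0 : ℝ) < N := by linarith
  set Y := ord N with hY
  have hY1 : 3 * T2 + 3 ≤ Y := hN1 N hNN1
  have hYpos : 0 < Y := by linarith
  have h2 := h1 Y (by linarith)
  set S : Set ℕ := {n : ℕ | 1 ≤ n ∧ n ≤ N ∧ Q n} with hS
  set S1 : Set ℕ := Set.Icc 1 (NZ (2 * T1)) with hS1
  set S2 : Set ℕ := {n : ℕ | 1 ≤ n ∧ 2 * T1 < ord n ∧ ord n ≤ Y ∧ Q n} with hS2
  have hsub : S ⊆ S1 ∪ S2 := by
    rintro n ⟨a1, a2, a3⟩
    by_cases hc : ord n ≤ 2 * T1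
    · left
      rw [hS1, Set.mem_Icc]
      exact ⟨a1, (SG.ord_le_iff a1 _).mp hc⟩
    · right
      exact ⟨a1, not_le.1 hc, SG.ord_mono a1 a2, a3⟩
  have hfin2 : S2.Finite := LG.GapAux.fin_ord Y _ (fun n hn => ⟨hn.1, hn.2.2.1⟩)
  have hcard1 : S1.ncard = NZ (2 * T1) := by
    rw [hS1, ← Finset.coe_Icc, Set.ncard_coe_finset, Nat.card_Icc]
    omega
  have h3 : S.ncard ≤ NZ (2 * T1) + S2.ncard := by
    rw [← hcard1]
    exact (Set.ncard_le_ncard hsub ((Set.finite_Icc _ _).union hfin2)).trans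
      (Set.ncard_union_le _ _)
  have h3r : (S.ncard : ℝ) ≤ NZ (2 * T1) + S2.ncard := by exact_mod_cast h3
  have h4 := hlow (Y / 3) (by linarith)
  have h5 : NZ (2 * (Y / 3)) < N := by
    by_contra hcon
    push Not at hcon
    have h5 : ord N ≤ 2 * (Y / 3) := (SG.ord_le_iff (by omega) _).mpr hcon
    rw [← hY] at h5
    linarith
  have h6 : (NZ (2 * (Y / 3)) : ℝ) ≤ N := by exact_mod_cast h5.le
  have h7 : Real.log Y ≤ 2 * Real.log (Y / 3) := by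
    have h7 : Y ≤ (Y / 3) ^ 2 := by nlinarith
    have h8 := Real.log_le_log hYpos h7
    rw [Real.log_pow] at h8
    push_cast at h8
    exact h8
  have h9 : Y * Real.log Y ≤ 3 * (2 / c1) * N := by
    have h10 : c1 * (Y / 3 * Real.log (Y / 3)) ≤ N := h4.trans h6
    have h11 : Y * Real.log Y ≤ Y * (2 * Real.log (Y / 3)) := mul_le_mul_of_nonneg_left h7 hYpos.le
    have h12 : Y * (2 * Real.log (Y / 3)) = 3 * (2 / c1) * (c1 * (Y / 3 * Real.log (Y / 3))) := by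
      field_simp
    rw [h12] at h11
    refine h11.trans (mul_le_mul_of_nonneg_left h10 (by positivity))
  have h10 : (NZ (2 * T1) : ℝ) ≤ ε * N := by
    rw [div_le_iff₀ hε] at hN2
    have : (N2 : ℝ) ≤ N := by exact_mod_cast hNN2
    nlinarith
  calc (S.ncard : ℝ) ≤ NZ (2 * T1) + S2.ncard := h3r
    _ ≤ ε * N + 3 * ε * (Y * Real.log Y) := add_le_add h10 h2
    _ ≤ ε * N + 3 * ε * (3 * (2 / c1) * N) := by gcongr
    _ = _ := by ring

/-- runs whose total length is too small are rare -/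
theorem short_runs (RH : RiemannHypothesis) : ∃ K m0 : ℝ, 0 < K ∧ ∀ m : ℕ, m0 ≤ m →
    ∃ N0 : ℕ, ∀ N : ℕ, N0 ≤ N →
      ({n : ℕ | 1 ≤ n ∧ n ≤ N ∧ ∑ i ∈ Finset.range m, dlt (n + i) ≤ m / 2}.ncard : ℝ) ≤
        K * (N * (1 / m)) := by
  obtain ⟨K, m0, N0, hK, hm0, hN0, h⟩ := TH800.DM.mean RH (1 / 2) (by norm_num) (by norm_num)
  refine ⟨K, m0, hK, fun m hm => ?_⟩
  obtain ⟨N1, hN1⟩ : ∃ N1 : ℕ, ∀ N : ℕ, N1 ≤ N → (m : ℝ) ≤ 1 / 8 * Real.log N := by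
    have h1 : Tendsto (fun N : ℕ => 1 / 8 * Real.log N) atTop atTop :=
      (Real.tendsto_log_atTop.comp tendsto_natCast_atTop_atTop).const_mul_atTop (by norm_num)
    exact (h1.eventually_ge_atTop _).exists_forall_of_atTop
  refine ⟨max N0 N1, fun N hN => ?_⟩
  refine le_trans ?_ (h N ((le_max_left _ _).trans hN) m hm (hN1 N ((le_max_right _ _).trans hN)))
  have hsub : {n : ℕ | 1 ≤ n ∧ n ≤ N ∧ ∑ i ∈ Finset.range m, dlt (n + i) ≤ m / 2} ⊆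
      {n : ℕ | 1 ≤ n ∧ n ≤ N ∧ 1 / 2 * m ≤ |∑ i ∈ Finset.range m, dlt (n + i) - m|} := by
    rintro n ⟨a1, a2, a3⟩
    refine ⟨a1, a2, ?_⟩
    rw [abs_sub_comm]
    refine le_trans ?_ (le_abs_self _)
    linarith
  exact_mod_cast Set.ncard_le_ncard hsub ((Set.finite_Icc 1 N).subset fun n hn => ⟨hn.1, hn.2.1⟩)

end Pool.Agent.R321.FA
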