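import Pool.Agent.R321.FA16
import Pool.Agent.R321.FA17

/-! Large gaps in almost all runs. -/

open Filter Topology Set MeasureTheory

namespace Pool.Agent.R321.FA

open SG (ord NZ)
open TH800.MS (dlt)
open LG (SF SM sm0 tm IsQ)
open SP (Par RHs ZZ)

/-- in a run of small gaps every point is close to a zero -/
lemma near_zero {T ρ t : ℝ} {n m : ℕ} (hT : 1 ≤ T) (hn : 1 ≤ n) (hρ : 0 < ρ)
    (hgap : ∀ i < m, ord (n + i + 1) - ord (n + i) ≤ 2 * ρ) (h1 : ord n ≤ t)
    (h2 : t < ord (n + m)) (h3 : T + ρ < t) (h4 : t < 2 * T - ρ) :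
    ∃ s ∈ ZZ T, |s.im - t| ≤ ρ := by
  by_contra hno
  push Not at hno
  have hk : n ≤ NZ t := (SG.ord_le_iff hn t).mp h1
  have hk2 : NZ t < n + m := by
    by_contra hcon
    push Not at hcon
    have := (SG.ord_le_iff (by omega : 1 ≤ n + m) t).mpr hcon
    linarith
  obtain ⟨a1, a2⟩ := LG.LocAux.gap_of_noz hT (hn.trans hk) hρ h3 h4 hno
  have h5 := hgap (NZ t - n) (by omega)
  have e : n + (NZ t - n) = NZ t := by omega
  rw [e] at h5
  linarith

/-- runs of small gaps in a block -/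
theorem blockL (RH : RiemannHypothesis) (P : Par) (B0 B1 : ℕ) (hB : P.B = 2 * B0)
    (hB1 : 2 * B1 ≤ B0) (r : ℝ) (hr : 0 < r) (F q : ℕ → ℝ) (hF : ∀ n, B1 < n → F n = 0)
    (hq : IsQ B0 (tm P r) q) (c : ℝ) (hc : 0 < c) (hSF : 0 < SF B0 F q)
    (hstrict : c * SF B0 F q < SF B0 F q +
      4 * r / Real.pi * ∑ m ∈ Finset.Icc 2 B0, sm0 P c m * SM B0 F q m) :
    ∃ η : ℝ, 0 < η ∧ ∀ ε : ℝ, 0 < ε → ∃ m0 T0 : ℝ, 1 ≤ m0 ∧ 10 ≤ T0 ∧ ∀ T : ℝ, T0 ≤ T →
      ∀ m : ℕ, m0 ≤ m → ∀ B : Finset ℕ,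
      (∀ n ∈ B, 1 ≤ n ∧ T + 2 * Real.log T ^ 3 ≤ ord n ∧ ord (n + m) ≤ 2 * T - 2 * Real.log T ^ 3 ∧
        (∀ i < m, ord (n + i + 1) - ord (n + i) ≤ 2 * Real.pi * (c + η) / Real.log T) ∧
        m / Real.log T ≤ ord (n + m) - ord n) →
      (B.card : ℝ) ≤ ε * (T * Real.log T) := by
  classical
  have hpi := Real.pi_pos
  obtain ⟨η, K, hη, hK, h⟩ := winL (TH800.MS.rhs_of RH) P B0 B1 hB hB1 r hr F q hF hq c hc hSF
    hstrict
  have hκ := P.hκ
  refine ⟨η, hη, fun ε hε => ?_⟩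
  set b := min (P.κ / 8) (ε / (8 * K)) with hb
  have hb0 : 0 < b := lt_min (by positivity) (by positivity)
  have hb1 : 8 * b ≤ P.κ := by
    have : b ≤ P.κ / 8 := min_le_left _ _
    linarith
  have hb2 : K * b ≤ ε / 8 := by
    have h1 : b ≤ ε / (8 * K) := min_le_right _ _
    calc K * b ≤ K * (ε / (8 * K)) := by gcongr
      _ = ε / 8 := by field_simp
  set X := max 1 (8 * K / ε) with hX
  have hX1 : 1 ≤ X := le_max_left _ _
  have hX0 : 0 < X := by linarith
  have hX2 : K * (1 / X) ≤ ε / 8 := by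
    have h1 : 8 * K / ε ≤ X := le_max_right _ _
    rw [mul_one_div, div_le_iff₀ hX0]
    rw [div_le_iff₀ hε] at h1
    linarith
  obtain ⟨T1, hT1, hw⟩ := h b X hb0 hb1 hX1
  obtain ⟨T2, hT2⟩ := (Real.tendsto_log_atTop.eventually_ge_atTop
    (max 1 (Real.pi * (c + η)))).exists_forall_of_atTop
  refine ⟨4 * X / b + 2, max T1 T2, ?_, hT1.trans (le_max_left _ _), fun T hT m hm B hBs => ?_⟩
  · have : 0 < 4 * X / b := by positivity
    linarith
  have hTT1 : T1 ≤ T := (le_max_left _ _).trans hT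
  have hLB := hT2 T ((le_max_right _ _).trans hT)
  simp only [max_le_iff] at hLB
  obtain ⟨hL1, hLR⟩ := hLB
  have hT10 := hT1.trans hTT1
  obtain ⟨Φ, hΦc, hΦ0, hV, hΦ1, hΦi⟩ := hw T hTT1
  set L := Real.log T with hL
  have hL0 : 0 < L := by linarith
  set h0 := X / (b * L) with hh0
  have hh0' : 0 < h0 := by positivity
  have hm0 : (0 : ℝ) < m := by
    have : 0 < 4 * X / b := by positivity
    linarith
  have hL3 : 1 ≤ L ^ 3 := one_le_pow₀ hL1
  have hcount := TH800.LD.count_gen B (fun n => ord n + h0) (fun n => ord (n + m) - h0 - 1 / L)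
    (T + 2 * L ^ 3) (2 * T - 2 * L ^ 3) (m / (2 * L)) (fun t => m * Φ t) hV
    (continuous_const.mul hΦc) (by positivity) (fun n hn => by
      obtain ⟨a1, a2, a3, a4, a5⟩ := hBs n hn
      have hL' : 0 < 1 / L := by positivity
      refine ⟨by linarith, by linarith, ?_⟩
      have e1 : (m : ℝ) / (2 * L) = m / L - m / (2 * L) := by field_simp; ring
      have e2 : 2 * h0 + 1 / L ≤ m / (2 * L) := by
        have e3 : 2 * h0 + 1 / L = (4 * X / b + 2) / (2 * L) := by
          rw [hh0]; field_simp; ring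
        rw [e3]
        gcongr
      linarith) (fun t ht1 ht2 => by
      by_cases hfe : (B.filter (fun n => ord n + h0 ≤ t ∧ t ≤ ord (n + m) - h0 - 1 / L)).Nonempty
      · obtain ⟨n2, hn2⟩ := hfe
        rw [Finset.mem_filter] at hn2
        obtain ⟨hn2F, b1, b2⟩ := hn2
        obtain ⟨a1, a2, a3, a4, a5⟩ := hBs n2 hn2F
        have hL' : 0 < 1 / L := by positivity
        have h4 := hΦ1 t ht1 ht2 (fun t' ht' => by
          rw [abs_le] at ht'
          have hρ1 : Real.pi * (c + η) / L ≤ 1 := by rw [div_le_one hL0]; exact hLR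
          exact near_zero (by linarith) a1 (by positivity : 0 < Real.pi * (c + η) / L)
            (fun i hi => by
              have := a4 i hi
              have e : 2 * (Real.pi * (c + η) / L) = 2 * Real.pi * (c + η) / L := by ring
              rw [e]; exact this) (by linarith) (by linarith) (by linarith) (by linarith))
        have h5 : (B.filter (fun n => ord n + h0 ≤ t ∧ t ≤ ord (n + m) - h0 - 1 / L)).card ≤ m := by
          apply TH800.MS.overlap (t := t)
          intro n hn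
          rw [Finset.mem_filter] at hn
          obtain ⟨hnF, b3, b4⟩ := hn
          exact ⟨(hBs n hnF).1, by linarith, by linarith⟩
        calc ((B.filter (fun n => ord n + h0 ≤ t ∧ t ≤ ord (n + m) - h0 - 1 / L)).card : ℝ) ≤
            m * 1 := by rw [mul_one]; exact_mod_cast h5
          _ ≤ m * Φ t := by gcongr
      · rw [Finset.not_nonempty_iff_eq_empty] at hfe
        rw [hfe, Finset.card_empty, Nat.cast_zero]
        have := hΦ0 t
        positivity)
  have h3 : (B.card : ℝ) * (m / (2 * L)) ≤ m * (K * (b + 1 / X) * T) := by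
    refine hcount.trans ?_
    rw [intervalIntegral.integral_const_mul]
    gcongr
  have h4 : K * (b + 1 / X) ≤ ε / 4 := by
    have : K * (b + 1 / X) = K * b + K * (1 / X) := by ring
    linarith
  have hT0 : 0 < T := by linarith
  have h5 : (B.card : ℝ) * (m / (2 * L)) ≤ m * (ε / 4 * T) := h3.trans (by gcongr)
  have h6 : (B.card : ℝ) ≤ ε / 2 * (T * L) := by
    have e1 : (B.card : ℝ) * (m / (2 * L)) = (m / (2 * L)) * B.card := by ring
    have e2 : m * (ε / 4 * T) = (m / (2 * L)) * (ε / 2 * (T * L)) := by field_simp; ring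
    rw [e1, e2] at h5
    exact le_of_mul_le_mul_left h5 (by positivity)
  have h7 : 0 ≤ T * L := by positivity
  linarith [mul_nonneg hε.le h7]

/-- **large gaps in almost all runs** -/
theorem runsL (RH : RiemannHypothesis) (P : Par) (B0 B1 : ℕ) (hB : P.B = 2 * B0)
    (hB1 : 2 * B1 ≤ B0) (r : ℝ) (hr : 0 < r) (F q : ℕ → ℝ) (hF : ∀ n, B1 < n → F n = 0)
    (hq : IsQ B0 (tm P r) q) (c : ℝ) (hc : 0 < c) (hSF : 0 < SF B0 F q)
    (hstrict : c * SF B0 F q < SF B0 F q +
      4 * r / Real.pi * ∑ m ∈ Finset.Icc 2 B0, sm0 P c m * SM B0 F q m) :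
    ∀ ε : ℝ, 0 < ε → ∃ m N0 : ℕ, ∀ N : ℕ, N0 ≤ N →
      ({n : ℕ | 1 ≤ n ∧ n ≤ N ∧ ∀ i < m, dlt (n + i) ≤ c}.ncard : ℝ) ≤ ε * N := by
  classical
  intro ε hε
  have hpi := Real.pi_gt_three
  obtain ⟨η, hη, hbl⟩ := blockL RH P B0 B1 hB hB1 r hr F q hF hq c hc hSF hstrict
  obtain ⟨C, hC, hall⟩ := all_of_block
  obtain ⟨Ks, ms, hKs, hshort⟩ := short_runs RH
  obtain ⟨m0, T0, hm0, hT0, hblk⟩ := hbl (ε / (4 * C)) (by positivity)
  obtain ⟨m, hm⟩ := exists_nat_ge (max (max m0 ms) (2 * Ks / ε))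
  simp only [max_le_iff] at hm
  obtain ⟨⟨hmm0, hmms⟩, hmK⟩ := hm
  have hm1 : (1 : ℝ) ≤ m := hm0.trans hmm0
  have hmp : (0 : ℝ) < m := by linarith
  obtain ⟨N1, hN1⟩ := hshort m hmms
  obtain ⟨A, hA, hsh⟩ := TH800.MS.ord_short (TH800.MS.rhs_of RH)
  obtain ⟨T3, hT3⟩ : ∃ T3 : ℝ, ∀ T : ℝ, T3 ≤ T → 4 ≤ Real.log (9 / 10 * T) ∧
      1000 * Real.log T ^ 3 ≤ T ∧ 1000 * (60 + 30 * (m : ℝ)) ≤ T := by
    have g0 : Tendsto (fun T : ℝ => 9 / 10 * T) atTop atTop :=
      tendsto_id.const_mul_atTop (by norm_num)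
    have g1 : ∀ᶠ T : ℝ in atTop, 4 ≤ Real.log (9 / 10 * T) :=
      (Real.tendsto_log_atTop.comp g0).eventually_ge_atTop 4
    have g2 : ∀ᶠ T : ℝ in atTop, 1000 * Real.log T ^ 3 ≤ T := by
      have h3 := isLittleO_log_rpow_atTop (show (0 : ℝ) < 1 / 3 by norm_num)
      rw [Asymptotics.isLittleO_iff] at h3
      filter_upwards [h3 (show (0 : ℝ) < 1 / 10 by norm_num), eventually_ge_atTop 1] with T g3 g4
      rw [Real.norm_of_nonneg (Real.log_nonneg g4), Real.norm_of_nonneg (by positivity)] at g3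
      have g5 := pow_le_pow_left₀ (Real.log_nonneg g4) g3 3
      rw [mul_pow, ← Real.rpow_natCast (T ^ (1 / 3 : ℝ)), ← Real.rpow_mul (by linarith)] at g5
      norm_num at g5
      linarith
    exact (g1.and (g2.and (eventually_ge_atTop _))).exists_forall_of_atTop
  obtain ⟨N2, hN2⟩ := hall (fun n => (∀ i < m, dlt (n + i) ≤ c) ∧
      (m : ℝ) / 2 < ∑ i ∈ Finset.range m, dlt (n + i)) (ε / (2 * C)) (by positivity) (by
    refine ⟨max (max (2 * T0) A) T3, fun T hT => ?_⟩
    simp only [max_le_iff] at hT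
    obtain ⟨⟨hTT0, hTA⟩, hTT3⟩ := hT
    obtain ⟨hl1, hl2, hl3⟩ := hT3 T hTT3
    have hT20 : 20 ≤ T := by linarith
    set S : ℝ := 9 / 10 * T with hS
    have hS0 : 0 < S := by positivity
    have hST0 : T0 ≤ S := by rw [hS]; linarith
    set Ls := Real.log S with hLs
    have hLST : Ls ≤ Real.log T := Real.log_le_log hS0 (by rw [hS]; linarith)
    have hLST' : Real.log T ≤ Ls + 1 := by
      have h1 : Real.log T = Real.log (10 / 9) + Ls := by
        rw [hLs, ← Real.log_mul (by norm_num) hS0.ne', hS]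
        congr 1
        ring
      have h2 := Real.log_le_sub_one_of_pos (show (0 : ℝ) < 10 / 9 by norm_num)
      linarith
    have hLs0 : 0 < Ls := by linarith
    set Bd : Set ℕ := {n : ℕ | 1 ≤ n ∧ T ≤ ord n ∧ ord n ≤ 3 / 2 * T ∧ ((∀ i < m, dlt (n + i) ≤ c) ∧
      (m : ℝ) / 2 < ∑ i ∈ Finset.range m, dlt (n + i))} with hBd
    have hBfin : Bd.Finite := LG.GapAux.fin_ord (3 / 2 * T) Bd fun n hn => ⟨hn.1, hn.2.2.1⟩
    rw [Set.ncard_eq_toFinset_card Bd hBfin]
    have hLs3 : 2 * Ls ^ 3 ≤ T / 100 := by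
      have : Ls ^ 3 ≤ Real.log T ^ 3 := pow_le_pow_left₀ hLs0.le hLST 3
      linarith
    have h1 := hblk S hST0 m hmm0 hBfin.toFinset (fun n hn => by
      rw [Set.Finite.mem_toFinset] at hn
      obtain ⟨a1, a2, a3, a4, a5⟩ := hn
      have hs1 := hsh n a1 (by linarith) m
      have hom : ord (n + m) ≤ 8 / 5 * T := by linarith
      have hn0 : 0 < ord n := by linarith
      refine ⟨a1, by rw [hS] at *; linarith, by rw [hS] at *; linarith, fun i hi => ?_, ?_⟩
      · have a6 := a4 i hi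
        have g1 : ord n ≤ ord (n + i) := SG.ord_mono a1 (by omega)
        have g2 : ord (n + i) ≤ ord (n + i + 1) := SG.ord_mono (by omega) (by omega)
        have hx0 : 0 < ord (n + i) := by linarith
        have g3 : Ls ≤ Real.log (ord (n + i)) := Real.log_le_log hS0 (by linarith)
        have g4 : Real.log (ord (n + i)) ≤ Real.log (ord (n + i + 1)) :=
          Real.log_le_log hx0 g2
        have g5 : (ord (n + i + 1) - ord (n + i)) * Ls ≤ 2 * Real.pi * dlt (n + i) := by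
          have e1 : 2 * Real.pi * dlt (n + i) = ord (n + i + 1) * Real.log (ord (n + i + 1)) -
              ord (n + i) * Real.log (ord (n + i)) := by
            unfold TH800.MS.dlt; field_simp
          rw [e1]
          have e2 : (ord (n + i + 1) - ord (n + i)) * Ls ≤
              (ord (n + i + 1) - ord (n + i)) * Real.log (ord (n + i)) :=
            mul_le_mul_of_nonneg_left g3 (by linarith)
          have e3 : ord (n + i + 1) * Real.log (ord (n + i)) ≤
              ord (n + i + 1) * Real.log (ord (n + i + 1)) :=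
            mul_le_mul_of_nonneg_left g4 (by linarith)
          linarith
        rw [le_div_iff₀ hLs0]
        calc (ord (n + i + 1) - ord (n + i)) * Ls ≤ 2 * Real.pi * dlt (n + i) := g5
          _ ≤ 2 * Real.pi * c := by gcongr
          _ ≤ _ := by nlinarith
      · -- total length
        have e1 : ∑ i ∈ Finset.range m, dlt (n + i) =
            (ord (n + m) * Real.log (ord (n + m)) - ord n * Real.log (ord n)) / (2 * Real.pi) := by
          have := Finset.sum_range_sub (fun i => ord (n + i) * Real.log (ord (n + i))) m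
          simp only [add_zero] at this
          rw [← this, Finset.sum_div]
          rfl
        rw [e1, lt_div_iff₀ (by positivity)] at a5
        have g2 : ord n ≤ ord (n + m) := SG.ord_mono a1 (by omega)
        have g3 := H370.A3.xlog_aux hn0 g2
        have g4 : Real.log (ord (n + m)) + 1 ≤ Ls + 3 := by
          have h6 : Real.log (ord (n + m)) ≤ Real.log (2 * T) :=
            Real.log_le_log (by linarith) (by linarith)
          have h6' : Real.log (2 * T) = Real.log 2 + Real.log T :=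
            Real.log_mul (by norm_num) (by linarith)
          have h7 := Real.log_two_lt_d9
          linarith
        have g5 : (m : ℝ) / 2 * (2 * Real.pi) < (ord (n + m) - ord n) * (Ls + 3) := by
          refine a5.trans_le (g3.trans ?_)
          apply mul_le_mul_of_nonneg_left g4
          linarith
        rw [div_le_iff₀ hLs0]
        by_contra hcon
        push Not at hcon
        have g6 : (ord (n + m) - ord n) * (Ls + 3) ≤ (ord (n + m) - ord n) * Ls * (7 / 4) := by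
          have : Ls + 3 ≤ Ls * (7 / 4) := by linarith
          calc _ ≤ (ord (n + m) - ord n) * (Ls * (7 / 4)) :=
                mul_le_mul_of_nonneg_left this (by linarith)
            _ = _ := by ring
        nlinarith)
    refine h1.trans ?_
    have h8 : S * Ls ≤ T * Real.log T := by
      apply mul_le_mul _ hLST hLs0.le (by linarith)
      rw [hS]; linarith
    have h9 : ε / (4 * C) * (S * Ls) ≤ ε / (4 * C) * (T * Real.log T) := by gcongr
    have h10 : 0 ≤ T * Real.log T := mul_nonneg (by linarith) (by linarith)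
    have h11 : ε / (4 * C) ≤ ε / (2 * C) := by
      apply div_le_div_of_nonneg_left hε.le (by positivity)
      linarith
    calc _ ≤ ε / (4 * C) * (T * Real.log T) := h9
      _ ≤ _ := mul_le_mul_of_nonneg_right h11 h10)
  refine ⟨m, max N1 N2, fun N hN => ?_⟩
  have i1 := hN1 N ((le_max_left _ _).trans hN)
  have i2 := hN2 N ((le_max_right _ _).trans hN)
  have hN0 : (0 : ℝ) ≤ N := Nat.cast_nonneg _
  have hsub : {n : ℕ | 1 ≤ n ∧ n ≤ N ∧ ∀ i < m, dlt (n + i) ≤ c} ⊆
      {n : ℕ | 1 ≤ n ∧ n ≤ N ∧ ∑ i ∈ Finset.range m, dlt (n + i) ≤ m / 2} ∪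
      {n : ℕ | 1 ≤ n ∧ n ≤ N ∧ ((∀ i < m, dlt (n + i) ≤ c) ∧
        (m : ℝ) / 2 < ∑ i ∈ Finset.range m, dlt (n + i))} := by
    rintro n ⟨a1, a2, a3⟩
    by_cases hcs : ∑ i ∈ Finset.range m, dlt (n + i) ≤ m / 2
    · left; exact ⟨a1, a2, hcs⟩
    · right; exact ⟨a1, a2, a3, not_le.1 hcs⟩
  have hfin : ∀ Q : ℕ → Prop, {n : ℕ | 1 ≤ n ∧ n ≤ N ∧ Q n}.Finite := fun Q =>
    (Set.finite_Icc 1 N).subset fun n hn => ⟨hn.1, hn.2.1⟩
  have hcard := (Set.ncard_le_ncard hsub ((hfin _).union (hfin _))).trans (Set.ncard_union_le _ _)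
  have hcardr : ({n : ℕ | 1 ≤ n ∧ n ≤ N ∧ ∀ i < m, dlt (n + i) ≤ c}.ncard : ℝ) ≤
      ({n : ℕ | 1 ≤ n ∧ n ≤ N ∧ ∑ i ∈ Finset.range m, dlt (n + i) ≤ m / 2}.ncard : ℝ) +
      ({n : ℕ | 1 ≤ n ∧ n ≤ N ∧ ((∀ i < m, dlt (n + i) ≤ c) ∧
        (m : ℝ) / 2 < ∑ i ∈ Finset.range m, dlt (n + i))}.ncard : ℝ) := by exact_mod_cast hcard
  have i3 : Ks * (N * (1 / m)) ≤ ε / 2 * N := by
    have : Ks * (1 / m) ≤ ε / 2 := by
      rw [mul_one_div, div_le_iff₀ hmp]
      rw [div_le_iff₀ hε] at hmK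
      linarith
    calc Ks * (N * (1 / m)) = (Ks * (1 / m)) * N := by ring
      _ ≤ _ := mul_le_mul_of_nonneg_right this hN0
  have i4 : C * (ε / (2 * C)) * N = ε / 2 * N := by field_simp
  rw [i4] at i2
  linarith

end Pool.Agent.R321.FA
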