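import Pool.Agent.H778R2.LG.Par
import Pool.Agent.H520R2.LG.Ideal

/-! Parameters for the law of large numbers: `t_1 = 0`, `t_m = 1` for `m ≥ 2`, `F = 1_{n ≤ B}`,
`B0 = 2 B`; the limit `B → ∞`. -/

open Complex Filter Topology Set MeasureTheory

namespace Pool.Agent.R321.FA

open LG LG.ParAux
open SP (Par)
open SP.ChooseAux

/-- Choice of the parameters, general form. -/
theorem PAR_gen (B0 : ℕ) (hB0 : 1 ≤ B0) (r : ℝ) (F : ℕ → ℝ) (a b c : ℝ)
    (hI : ∀ q : ℕ → ℝ, IsQ B0 (fun m => if 2 ≤ m then r ^ 2 else 0) q → 0 < SF B0 F q ∧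
      a * SF B0 F q < b *
        ∑ m ∈ Finset.Icc 2 B0,
          (∫ u in ((m : ℝ) * (999 / 1000 / (2 * (B0 : ℝ))) * Real.exp (-1 / (m : ℝ)))..
            ((m : ℝ) * (999 / 1000 / (2 * (B0 : ℝ)))), Real.sin (Real.pi * c * u) / u) *
            SM B0 F q m) :
    ∃ (P : Par) (q : ℕ → ℝ), P.B = 2 * B0 ∧
      IsQ B0 (tm P r) q ∧ 0 < SF B0 F q ∧
      a * SF B0 F q < b * ∑ m ∈ Finset.Icc 2 B0, sm0 P c m * SM B0 F q m := by
  obtain ⟨h1, h2⟩ := hI (qr (fun m => if 2 ≤ m then r ^ 2 else 0)) (isQ_qr _ _)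
  set q0 := qr (fun m => if 2 ≤ m then r ^ 2 else 0) with hq0
  have hq : ∀ n, n ≤ B0 → Tendsto (fun ε : ℝ => qr (tP hB0 r ε) n) (𝓝[>] 0) (𝓝 (q0 n)) := by
    rw [hq0]
    apply qr_tendsto
    intro m hm hm'
    exact tP_tendsto hB0 r hm (by omega)
  have hSF : Tendsto (fun ε : ℝ => SF B0 F (qr (tP hB0 r ε))) (𝓝[>] 0) (𝓝 (SF B0 F q0)) := by
    unfold SF
    apply tendsto_finsetSum
    intro n hn
    rw [Finset.mem_range] at hn
    exact (hq n (by omega)).const_mul _
  have hSM : ∀ m, Tendsto (fun ε : ℝ => SM B0 F (qr (tP hB0 r ε)) m) (𝓝[>] 0)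
      (𝓝 (SM B0 F q0 m)) := by
    intro m
    unfold SM
    apply tendsto_finsetSum
    intro n hn
    rw [Finset.mem_range] at hn
    exact (hq n (by omega)).const_mul _
  have hR : Tendsto (fun ε : ℝ =>
      b * ∑ m ∈ Finset.Icc 2 B0, sP hB0 c ε m * SM B0 F (qr (tP hB0 r ε)) m)
      (𝓝[>] 0) (𝓝 (b * ∑ m ∈ Finset.Icc 2 B0,
        (∫ u in (lB B0 m)..(rB B0 m), Real.sin (Real.pi * c * u) / u) * SM B0 F q0 m)) := by
    apply Tendsto.const_mul
    apply tendsto_finsetSum
    intro m hm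
    rw [Finset.mem_Icc] at hm
    exact (sP_tendsto hB0 c hm.1 (by omega)).mul (hSM m)
  have hL : Tendsto (fun ε : ℝ => a * SF B0 F (qr (tP hB0 r ε))) (𝓝[>] 0)
      (𝓝 (a * SF B0 F q0)) := hSF.const_mul a
  have e1 := hSF.eventually (lt_mem_nhds h1)
  have e2 := hL.eventually_lt hR h2
  obtain ⟨ε, hε1, hε2, hε3⟩ := (e1.and (e2.and self_mem_nhdsWithin)).exists
  have hε : 0 < ε := hε3
  refine ⟨PP hB0 ε hε, qr (tP hB0 r ε), rfl, ?_, hε1, ?_⟩
  · have : tm (PP hB0 ε hε) r = tP hB0 r ε := by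
      funext m
      rw [tP, dif_pos hε]
    rw [this]
    exact isQ_qr _ _
  · have h3 : ∀ m, sm0 (PP hB0 ε hε) c m = sP hB0 c ε m := by
      intro m
      rw [sP, dif_pos hε]
    simp only [h3]
    exact hε2

/-! ### the sequence `q` -/

/-- `D_n / n!` -/
noncomputable def qd (n : ℕ) : ℝ := (numDerangements n : ℝ) / n.factorial

theorem qd_zero : qd 0 = 1 := by simp [qd]

theorem qd_one : qd 1 = 0 := by simp [qd]

theorem qd_rec (n : ℕ) : ((n : ℝ) + 2) * qd (n + 2) = ((n : ℝ) + 1) * qd (n + 1) + qd n := by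
  unfold qd
  rw [numDerangements_add_two, Nat.factorial_succ (n + 1), Nat.factorial_succ n]
  have h : ((n.factorial : ℕ) : ℝ) ≠ 0 := by positivity
  push_cast
  have h1 : ((n : ℝ) + 1) ≠ 0 := by positivity
  have h2 : ((n : ℝ) + 1 + 1) ≠ 0 := by positivity
  field_simp
  ring

theorem qd_nonneg (n : ℕ) : 0 ≤ qd n := by
  unfold qd
  positivity

theorem qd_le (n : ℕ) : qd n ≤ 1 := by
  induction n using Nat.strong_induction_on with
  | _ n ih =>
    rcases n with _ | _ | n
    · rw [qd_zero]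
    · rw [qd_one]; norm_num
    · have h := qd_rec n
      have h1 := ih n (by omega)
      have h2 := ih (n + 1) (by omega)
      have h3 : (0 : ℝ) ≤ n := Nat.cast_nonneg n
      by_contra hcon
      push Not at hcon
      have h4 : ((n : ℝ) + 1) * qd (n + 1) ≤ ((n : ℝ) + 1) * 1 := by
        apply mul_le_mul_of_nonneg_left h2; linarith
      have h5 : ((n : ℝ) + 2) * 1 < ((n : ℝ) + 2) * qd (n + 2) := by
        apply mul_lt_mul_of_pos_left hcon; linarith
      linarith

theorem qd_lim : Tendsto qd atTop (𝓝 (Real.exp (-1))) := numDerangements_tendsto_inv_e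

/-- the sums of the recursion -/
theorem qd_sum (n : ℕ) : ∑ m ∈ Finset.Icc 1 (n + 1), (if 2 ≤ m then (1 : ℝ) ^ 2 else 0) * qd (n + 1 - m) =
    ∑ k ∈ Finset.range n, qd k := by
  rw [← Finset.sum_range_reflect]
  have e : Finset.Icc 1 (n + 1) = insert 1 ((Finset.range n).image (fun x => x + 2)) := by
    ext x
    simp only [Finset.mem_Icc, Finset.mem_insert, Finset.mem_image, Finset.mem_range]
    constructor
    · rintro ⟨h1, h2⟩
      rcases Nat.lt_or_ge x 2 with h | h
      · left; omega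
      · right; exact ⟨x - 2, by omega, by omega⟩
    · rintro (h | ⟨y, hy, rfl⟩) <;> omega
  rw [e, Finset.sum_insert (by simp), Finset.sum_image (by intro a _ b _ h; simpa using h)]
  simp only [show ¬ (2 ≤ 1) by norm_num, if_false, zero_mul, zero_add]
  apply Finset.sum_congr rfl
  intro m hm
  rw [Finset.mem_range] at hm
  rw [if_pos (by omega), one_pow, one_mul]
  congr 1
  omega

theorem qd_sum2 (n : ℕ) : ((n : ℝ) + 1) * qd (n + 1) = ∑ k ∈ Finset.range n, qd k := by
  induction n with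
  | zero => simp [qd_one]
  | succ n ih =>
    rw [Finset.sum_range_succ, ← ih]
    have := qd_rec n
    push_cast
    linarith

theorem isQ_eq {N : ℕ} {q : ℕ → ℝ} (hq : IsQ N (fun m => if 2 ≤ m then (1 : ℝ) ^ 2 else 0) q) :
    ∀ n, n ≤ N → q n = qd n := by
  intro n
  induction n using Nat.strong_induction_on with
  | _ n ih =>
    intro hn
    rcases n with _ | n
    · rw [hq.1, qd_zero]
    · have h := hq.2 (n + 1) (by omega) hn
      have h2 : ∑ m ∈ Finset.Icc 1 (n + 1), (if 2 ≤ m then (1 : ℝ) ^ 2 else 0) * q (n + 1 - m) =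
          ∑ m ∈ Finset.Icc 1 (n + 1), (if 2 ≤ m then (1 : ℝ) ^ 2 else 0) * qd (n + 1 - m) := by
        apply Finset.sum_congr rfl
        intro m hm
        rw [Finset.mem_Icc] at hm
        rw [ih (n + 1 - m) (by omega) (by omega)]
      rw [h2, qd_sum, ← qd_sum2] at h
      push_cast at h
      have h3 : ((n : ℝ) + 1) ≠ 0 := by positivity
      exact mul_left_cancel₀ h3 h

/-! ### the sums `SF`, `SM` -/

/-- the cut-off -/
noncomputable def FB (B n : ℕ) : ℝ := if n ≤ B then 1 else 0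

/-- partial sums -/
noncomputable def Qs (N : ℕ) : ℝ := ∑ n ∈ Finset.range N, qd n

theorem Qs_nonneg (N : ℕ) : 0 ≤ Qs N := Finset.sum_nonneg (fun n _ => qd_nonneg n)

theorem Qs_le (N : ℕ) : Qs N ≤ N := by
  unfold Qs
  calc ∑ n ∈ Finset.range N, qd n ≤ ∑ n ∈ Finset.range N, (1 : ℝ) :=
        Finset.sum_le_sum (fun n _ => qd_le n)
    _ = N := by simp

theorem Qs_lim : Tendsto (fun N : ℕ => Qs N / N) atTop (𝓝 (Real.exp (-1))) := by
  have h := qd_lim.cesaro
  apply h.congr
  intro N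
  unfold Qs
  rw [div_eq_inv_mul]

theorem SF_FB {B : ℕ} {q : ℕ → ℝ} (hq : ∀ n, n ≤ 2 * B → q n = qd n) :
    SF (2 * B) (FB B) q = Qs (B + 1) := by
  unfold SF Qs
  symm
  have hsub : Finset.range (B + 1) ⊆ Finset.range (2 * B + 1) := by
    intro x hx
    simp only [Finset.mem_range] at hx ⊢
    omega
  rw [← Finset.sum_subset hsub (f := fun n => FB B n ^ 2 * q n)]
  · apply Finset.sum_congr rfl
    intro n hn
    simp only [Finset.mem_range] at hn
    unfold FB
    rw [if_pos (by omega), one_pow, one_mul, hq n (by omega)]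
  · intro n _ hn
    simp only [Finset.mem_range] at hn
    unfold FB
    rw [if_neg (by omega)]
    ring

theorem SM_FB {B : ℕ} {q : ℕ → ℝ} (hq : ∀ n, n ≤ 2 * B → q n = qd n) (m : ℕ) :
    SM (2 * B) (FB B) q m = Qs (B + 1 - m) := by
  unfold SM Qs
  symm
  have hsub : Finset.range (B + 1 - m) ⊆ Finset.range (2 * B + 1 - m) := by
    intro x hx
    simp only [Finset.mem_range] at hx ⊢
    omega
  rw [← Finset.sum_subset hsub (f := fun n => FB B n * FB B (n + m) * q n)]
  · apply Finset.sum_congr rfl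
    intro n hn
    simp only [Finset.mem_range] at hn
    unfold FB
    rw [if_pos (by omega), if_pos (by omega), hq n (by omega)]
    ring
  · intro n _ hn
    simp only [Finset.mem_range] at hn
    unfold FB
    rw [if_neg (show ¬ (n + m ≤ B) by omega)]
    ring

/-- outer sum -/
noncomputable def ct (c κ : ℝ) (B m : ℕ) : ℝ :=
  if 2 ≤ m ∧ m ≤ B then smid (κ / B) c m * (Qs (B + 1 - m) / B) else 0

theorem ct_lim (c κ : ℝ) (hc : 0 < c) (hκ : 0 < κ) :
    Tendsto (fun B : ℕ => ∑ m ∈ Finset.range (B + 1), ct c κ B m) atTop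
      (𝓝 (∫ v in (0 : ℝ)..2, if v < 1 then κ * phi c (κ * v) * (Real.exp (-1) * (1 - v)) else 0)) := by
  have hpc : 0 < Real.pi * c := by have := Real.pi_pos; positivity
  apply riem (ct c κ) _ (Real.pi * c * κ * 2) {1} (Set.countable_singleton _)
  · intro B m
    unfold ct
    split_ifs with h
    · have hB : 0 < B := by omega
      have hB0 : (0 : ℝ) < B := by exact_mod_cast hB
      have hB1 : (1 : ℝ) ≤ B := by exact_mod_cast hB
      have h1 := smid_le (κ / B) c m (by positivity) hc (by omega)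
      have h2 : 0 ≤ Qs (B + 1 - m) / B := div_nonneg (Qs_nonneg _) hB0.le
      have h3 : Qs (B + 1 - m) / B ≤ 2 := by
        rw [div_le_iff₀ hB0]
        have h4 := Qs_le (B + 1 - m)
        have h5 : ((B + 1 - m : ℕ) : ℝ) ≤ (B + 1 : ℕ) := by exact_mod_cast Nat.sub_le _ _
        push_cast at h5
        linarith
      rw [abs_mul, abs_mul, abs_of_pos hB0, abs_of_nonneg h2]
      calc (B : ℝ) * (|smid (κ / B) c m| * (Qs (B + 1 - m) / B))
          ≤ B * ((Real.pi * c * (κ / B)) * 2) := by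
            apply mul_le_mul_of_nonneg_left _ hB0.le
            apply mul_le_mul h1 h3 h2 (by positivity)
        _ = _ := by field_simp
    · rw [mul_zero, abs_zero]; positivity
  · intro B m hm
    unfold ct
    rw [if_neg (by omega)]
  · intro v hv hv1
    have hv1' : v ≠ 1 := hv1
    have hm := floor_div_lim v hv.le
    rcases lt_or_gt_of_ne hv1' with h | h
    · rw [if_pos h]
      have l1 := smid_lim c κ v hc hκ hv
      have h4 : ∀ᶠ B : ℕ in atTop, ((⌊v * B⌋₊ : ℕ) : ℝ) / B < 1 := hm.eventually_lt_const h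
      have hle : ∀ᶠ B : ℕ in atTop, ⌊v * (B : ℝ)⌋₊ < B := by
        filter_upwards [h4, eventually_ge_atTop 1] with B hB hB1
        have hB0 : (0 : ℝ) < B := by exact_mod_cast hB1
        rw [div_lt_one hB0] at hB
        exact_mod_cast hB
      -- `N/B → 1 - v`
      have lN : Tendsto (fun B : ℕ => ((B + 1 - ⌊v * (B : ℝ)⌋₊ : ℕ) : ℝ) / B) atTop (𝓝 (1 - v)) := by
        have a1 : Tendsto (fun B : ℕ => (1 : ℝ) + ((B : ℝ))⁻¹ - (⌊v * (B : ℝ)⌋₊ : ℝ) / B) atTop
            (𝓝 (1 + 0 - v)) :=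
          (tendsto_const_nhds.add (tendsto_inv_atTop_nhds_zero_nat (𝕜 := ℝ))).sub hm
        rw [add_zero] at a1
        apply a1.congr'
        filter_upwards [hle, eventually_ge_atTop 1] with B hB hB1
        have hB0 : (0 : ℝ) < B := by exact_mod_cast hB1
        rw [Nat.cast_sub (by omega)]
        push_cast
        field_simp
      have lN2 : Tendsto (fun B : ℕ => (B + 1 - ⌊v * (B : ℝ)⌋₊ : ℕ)) atTop atTop := by
        rw [← tendsto_natCast_atTop_iff (R := ℝ)]
        have a1 : Tendsto (fun B : ℕ => ((B + 1 - ⌊v * (B : ℝ)⌋₊ : ℕ) : ℝ) / B * B) atTop atTop :=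
          Tendsto.pos_mul_atTop (by linarith : (0 : ℝ) < 1 - v) lN tendsto_natCast_atTop_atTop
        apply a1.congr'
        filter_upwards [eventually_ge_atTop 1] with B hB1
        have hB0 : (B : ℝ) ≠ 0 := by positivity
        field_simp
      have l2 : Tendsto (fun B : ℕ => Qs (B + 1 - ⌊v * (B : ℝ)⌋₊) / B) atTop
          (𝓝 (Real.exp (-1) * (1 - v))) := by
        have a1 := (Qs_lim.comp lN2).mul lN
        apply a1.congr'
        filter_upwards [hle, eventually_ge_atTop 1] with B hB hB1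
        have hB0 : (B : ℝ) ≠ 0 := by positivity
        have hN0 : ((B + 1 - ⌊v * (B : ℝ)⌋₊ : ℕ) : ℝ) ≠ 0 := by
          have : 0 < B + 1 - ⌊v * (B : ℝ)⌋₊ := by omega
          positivity
        simp only [Function.comp]
        field_simp
      apply (l1.mul l2).congr'
      filter_upwards [hle, (floor_top v hv).eventually_ge_atTop 2] with B hB h2
      unfold ct
      rw [if_pos ⟨h2, hB.le⟩]
      ring
    · rw [if_neg (by linarith)]
      have h4 : ∀ᶠ B : ℕ in atTop, 1 < ((⌊v * B⌋₊ : ℕ) : ℝ) / B := hm.eventually_const_lt h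
      apply tendsto_const_nhds.congr'
      filter_upwards [h4, eventually_ge_atTop 1] with B hB hB1
      have hB0 : (0 : ℝ) < B := by exact_mod_cast hB1
      rw [one_lt_div hB0] at hB
      have : B < ⌊v * (B : ℝ)⌋₊ := by exact_mod_cast hB
      unfold ct
      rw [if_neg (by omega), mul_zero]

theorem ct_int (c κ : ℝ) :
    (∫ v in (0 : ℝ)..2, if v < 1 then κ * phi c (κ * v) * (Real.exp (-1) * (1 - v)) else 0) =
    Real.exp (-1) * ∫ v in (0 : ℝ)..1, Real.pi * c * κ * Real.sinc (Real.pi * c * κ * v) * (1 - v) := by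
  set f : ℝ → ℝ := fun v => κ * phi c (κ * v) * (Real.exp (-1) * (1 - v)) with hf
  have hfc : Continuous f := by
    have := phi_cont c
    simp only [hf]
    fun_prop
  have h1 : EqOn f (fun v => if v < 1 then f v else 0) (Ioo 0 1) := by
    intro x hx
    simp only
    rw [if_pos hx.2]
  have h2 : EqOn (fun _ : ℝ => (0 : ℝ)) (fun v => if v < 1 then f v else 0) (Ioo 1 2) := by
    intro x hx
    simp only
    rw [if_neg (by linarith [hx.1])]
  have i1 : IntervalIntegrable (fun v => if v < 1 then f v else 0) volume 0 1 := by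
    rw [intervalIntegrable_iff_integrableOn_Ioo_of_le (by norm_num)]
    refine IntegrableOn.congr_fun ?_ h1 measurableSet_Ioo
    rw [← intervalIntegrable_iff_integrableOn_Ioo_of_le (by norm_num)]
    exact hfc.intervalIntegrable _ _
  have i2 : IntervalIntegrable (fun v => if v < 1 then f v else 0) volume 1 2 := by
    rw [intervalIntegrable_iff_integrableOn_Ioo_of_le (by norm_num)]
    refine IntegrableOn.congr_fun ?_ h2 measurableSet_Ioo
    exact integrableOn_zero
  rw [← intervalIntegral.integral_add_adjacent_intervals i1 i2]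
  have e1 : ∫ x in (0 : ℝ)..1, (if x < 1 then f x else 0) = ∫ x in (0 : ℝ)..1, f x := by
    rw [intervalIntegral.integral_of_le (by norm_num), integral_Ioc_eq_integral_Ioo,
        ← setIntegral_congr_fun measurableSet_Ioo h1, ← integral_Ioc_eq_integral_Ioo,
        ← intervalIntegral.integral_of_le (by norm_num)]
  have e2 : ∫ x in (1 : ℝ)..2, (if x < 1 then f x else 0) = 0 := by
    rw [intervalIntegral.integral_of_le (by norm_num), integral_Ioc_eq_integral_Ioo,
        ← setIntegral_congr_fun measurableSet_Ioo h2]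
    simp
  rw [e1, e2, add_zero, ← intervalIntegral.integral_const_mul]
  apply intervalIntegral.integral_congr
  intro v _
  simp only [hf, phi]
  rw [show Real.pi * c * (κ * v) = Real.pi * c * κ * v by ring]
  ring

/-- the integral -/
noncomputable def Js (s : ℝ) : ℝ := ∫ v in (0 : ℝ)..1, s * Real.sinc (s * v) * (1 - v)

/-- polynomial lower bound for the integral -/
theorem Js_ge (s : ℝ) (hs : 0 ≤ s) : s / 2 - s ^ 3 / 72 + s ^ 5 / 3600 - s ^ 7 / 282240 ≤ Js s := by
  have h1 : ∀ v : ℝ, 0 ≤ v → s - s ^ 3 / 6 * v ^ 2 + s ^ 5 / 120 * v ^ 4 - s ^ 7 / 5040 * v ^ 6 ≤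
      s * Real.sinc (s * v) := by
    intro v hv
    rcases hv.eq_or_lt with rfl | hv
    · rw [mul_zero, Real.sinc_zero]
      norm_num
    · rcases hs.eq_or_lt with rfl | hs
      · simp
      · have hne : s * v ≠ 0 := by positivity
        rw [Real.sinc_of_ne_zero hne]
        have h := (LG.num_taylor 3).1 (s * v) (by positivity)
        have e : s * (Real.sin (s * v) / (s * v)) = Real.sin (s * v) / v := by
          field_simp
        rw [e, le_div_iff₀ hv]
        simp only [Finset.sum_range_succ, Finset.sum_range_zero] at h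
        norm_num [Nat.factorial] at h
        nlinarith [h]
  have hint : ∫ v in (0 : ℝ)..1, (s - s ^ 3 / 6 * v ^ 2 + s ^ 5 / 120 * v ^ 4 - s ^ 7 / 5040 * v ^ 6) *
      (1 - v) ≤ Js s := by
    unfold Js
    refine intervalIntegral.integral_mono_on (by norm_num) ?_ ?_ ?_
    · exact Continuous.intervalIntegrable (by fun_prop) _ _
    · have := Real.continuous_sinc
      exact Continuous.intervalIntegrable (by fun_prop) _ _
    · intro v hv
      exact mul_le_mul_of_nonneg_right (h1 v hv.1) (by linarith [hv.2])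
  refine le_trans (le_of_eq ?_) hint
  have hd : ∀ v ∈ Set.uIcc (0 : ℝ) 1, HasDerivAt (fun v : ℝ =>
      s * (v ^ 1 / 1 - v ^ 2 / 2) - s ^ 3 / 6 * (v ^ 3 / 3 - v ^ 4 / 4) +
      s ^ 5 / 120 * (v ^ 5 / 5 - v ^ 6 / 6) - s ^ 7 / 5040 * (v ^ 7 / 7 - v ^ 8 / 8))
      ((s - s ^ 3 / 6 * v ^ 2 + s ^ 5 / 120 * v ^ 4 - s ^ 7 / 5040 * v ^ 6) * (1 - v)) v := by
    intro v _
    have hp : ∀ (n : ℕ) (k : ℝ), HasDerivAt (fun v : ℝ => v ^ n / k) (((n : ℕ) * v ^ (n - 1)) / k) v :=
      fun n k => (hasDerivAt_pow n v).div_const k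
    have e := (((((hp 1 1).sub (hp 2 2)).const_mul s).sub
      (((hp 3 3).sub (hp 4 4)).const_mul (s ^ 3 / 6))).add
      (((hp 5 5).sub (hp 6 6)).const_mul (s ^ 5 / 120))).sub
      (((hp 7 7).sub (hp 8 8)).const_mul (s ^ 7 / 5040))
    refine e.congr_deriv ?_
    norm_num
    ring
  rw [intervalIntegral.integral_eq_sub_of_hasDerivAt hd (by
    apply Continuous.intervalIntegrable
    fun_prop)]
  ring

/-- the ideal inequality for `B` large -/
theorem ideal_lim (a c : ℝ) (hc : 0 < c)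
    (h : a < 4 / Real.pi * Js (Real.pi * c * (999 / 4000))) :
    ∃ B : ℕ, 10 ≤ B ∧ ∀ q : ℕ → ℝ, IsQ (2 * B) (fun m => if 2 ≤ m then (1 : ℝ) ^ 2 else 0) q →
      0 < SF (2 * B) (FB B) q ∧
      a * SF (2 * B) (FB B) q < 4 / Real.pi *
        ∑ m ∈ Finset.Icc 2 (2 * B),
          (∫ u in ((m : ℝ) * (999 / 1000 / (2 * ((2 * B : ℕ) : ℝ))) * Real.exp (-1 / (m : ℝ)))..
            ((m : ℝ) * (999 / 1000 / (2 * ((2 * B : ℕ) : ℝ)))), Real.sin (Real.pi * c * u) / u) *
            SM (2 * B) (FB B) q m := by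
  have hE := Real.exp_pos (-1)
  have l1 : Tendsto (fun B : ℕ => Qs (B + 1) / B) atTop (𝓝 (Real.exp (-1))) := by
    have a1 := Qs_lim.comp (tendsto_add_atTop_nat 1)
    have a2 : Tendsto (fun B : ℕ => (1 : ℝ) + ((B : ℝ))⁻¹) atTop (𝓝 (1 + 0)) :=
      tendsto_const_nhds.add (tendsto_inv_atTop_nhds_zero_nat (𝕜 := ℝ))
    have a3 := a1.mul a2
    rw [add_zero, mul_one] at a3
    apply a3.congr'
    filter_upwards [eventually_ge_atTop 1] with B hB
    have hB0 : (B : ℝ) ≠ 0 := by positivity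
    have hB1 : ((B : ℝ) + 1) ≠ 0 := by positivity
    simp only [Function.comp]
    push_cast
    field_simp
  have l2 := ct_lim c (999 / 4000) hc (by norm_num)
  rw [ct_int] at l2
  have l3 := l1.const_mul a
  have l4 := l2.const_mul (4 / Real.pi)
  have hlt : a * Real.exp (-1) < 4 / Real.pi * (Real.exp (-1) *
      ∫ v in (0 : ℝ)..1, Real.pi * c * (999 / 4000) *
        Real.sinc (Real.pi * c * (999 / 4000) * v) * (1 - v)) := by
    have h2 : 4 / Real.pi * (Real.exp (-1) * ∫ v in (0 : ℝ)..1, Real.pi * c * (999 / 4000) *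
        Real.sinc (Real.pi * c * (999 / 4000) * v) * (1 - v)) =
        (4 / Real.pi * Js (Real.pi * c * (999 / 4000))) * Real.exp (-1) := by
      unfold Js; ring
    rw [h2]
    exact mul_lt_mul_of_pos_right h hE
  have hev := l3.eventually_lt l4 hlt
  obtain ⟨B, hB, hB10⟩ := (hev.and (eventually_ge_atTop 10)).exists
  refine ⟨B, hB10, fun q hq => ?_⟩
  have hB0 : (0 : ℝ) < B := by
    have : 0 < B := by omega
    exact_mod_cast this
  have hqq := isQ_eq hq
  have eSF := SF_FB hqq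
  have eSM := SM_FB hqq
  rw [eSF]
  constructor
  · unfold Qs
    rw [Finset.sum_range_succ', qd_zero]
    have := Finset.sum_nonneg (s := Finset.range B) (f := fun k => qd (k + 1))
      (fun k _ => qd_nonneg (k + 1))
    linarith
  · have esum : ∑ m ∈ Finset.range (B + 1), ct c (999 / 4000) B m =
        (∑ m ∈ Finset.Icc 2 (2 * B), (∫ u in ((m : ℝ) * (999 / 1000 / (2 * ((2 * B : ℕ) : ℝ))) *
            Real.exp (-1 / (m : ℝ)))..
            ((m : ℝ) * (999 / 1000 / (2 * ((2 * B : ℕ) : ℝ)))), Real.sin (Real.pi * c * u) / u) *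
            SM (2 * B) (FB B) q m) / B := by
      rw [Finset.sum_div]
      have hsub : Finset.Icc 2 B ⊆ Finset.range (B + 1) := by
        intro m hm
        simp only [Finset.mem_Icc] at hm
        simp only [Finset.mem_range]
        omega
      have hsub2 : Finset.Icc 2 B ⊆ Finset.Icc 2 (2 * B) := by
        intro m hm
        simp only [Finset.mem_Icc] at hm ⊢
        omega
      rw [← Finset.sum_subset hsub (f := fun m => ct c (999 / 4000) B m), ← Finset.sum_subset hsub2]
      · apply Finset.sum_congr rfl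
        intro m hm
        simp only [Finset.mem_Icc] at hm
        unfold ct
        rw [if_pos hm, eSM, mul_div_assoc]
        have : (999 / 4000 / (B : ℝ)) = 999 / 1000 / (2 * ((2 * B : ℕ) : ℝ)) := by
          push_cast
          field_simp
          norm_num
        rw [this]
        rfl
      · intro m hm hm2
        simp only [Finset.mem_Icc] at hm hm2
        rw [eSM, show B + 1 - m = 0 by omega]
        unfold Qs
        simp
      · intro m _ hm2
        simp only [Finset.mem_Icc] at hm2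
        unfold ct
        rw [if_neg hm2]
    rw [esum] at hB
    have hB' : (a * Qs (B + 1)) / (B : ℝ) < (4 / Real.pi *
        ∑ m ∈ Finset.Icc 2 (2 * B), (∫ u in ((m : ℝ) * (999 / 1000 / (2 * ((2 * B : ℕ) : ℝ))) *
            Real.exp (-1 / (m : ℝ)))..
            ((m : ℝ) * (999 / 1000 / (2 * ((2 * B : ℕ) : ℝ)))), Real.sin (Real.pi * c * u) / u) *
            SM (2 * B) (FB B) q m) / (B : ℝ) := by
      rw [mul_div_assoc, mul_div_assoc]
      exact hB
    rwa [div_lt_div_iff_of_pos_right hB0] at hB'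

/-- the parameters -/
theorem pars (a c : ℝ) (hc : 0 < c) (h : a < 4 / Real.pi * Js (Real.pi * c * (999 / 4000))) :
    ∃ (B : ℕ) (P : Par) (q : ℕ → ℝ), 10 ≤ B ∧ P.B = 2 * (2 * B) ∧
      IsQ (2 * B) (tm P 1) q ∧ 0 < SF (2 * B) (FB B) q ∧
      a * SF (2 * B) (FB B) q <
        4 / Real.pi * ∑ m ∈ Finset.Icc 2 (2 * B), sm0 P c m * SM (2 * B) (FB B) q m := by
  obtain ⟨B, hB, hI⟩ := ideal_lim a c hc h
  obtain ⟨P, q, e1, e2, e3, e4⟩ := PAR_gen (2 * B) (by omega) 1 (FB B) a (4 / Real.pi) c hI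
  exact ⟨B, P, q, hB, e1, e2, e3, e4⟩

theorem num_large : (885 / 1000 : ℝ) < 4 / Real.pi * Js (Real.pi * (1885 / 1000) * (999 / 4000)) := by
  have hpi := Real.pi_pos
  have h1 := Real.pi_gt_d6
  have h2 := Real.pi_lt_d6
  set s : ℝ := Real.pi * (1885 / 1000) * (999 / 4000) with hs
  have hs0 : 0 ≤ s := by positivity
  have h3 := Js_ge s hs0
  have h4 : 4 / Real.pi = (1885 / 1000) * (999 / 1000) / s := by
    rw [hs]; field_simp; ring
  have hs1 : 0 < s := by positivity
  rw [h4, div_mul_eq_mul_div, lt_div_iff₀ hs1]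
  have hsl : (147898 / 100000 : ℝ) < s := by rw [hs]; linarith
  have hsu : s < (147899 / 100000 : ℝ) + 1 / 100000 := by rw [hs]; linarith
  have h5 : s * (1 / 2 - s ^ 2 / 72 + s ^ 4 / 3600 - s ^ 6 / 282240) ≤ Js s := by
    refine le_trans (le_of_eq ?_) h3
    ring
  have hsq1 : (147898 / 100000 : ℝ) ^ 2 ≤ s ^ 2 := by gcongr
  have hsq2 : s ^ 2 ≤ (1479 / 1000 : ℝ) ^ 2 := by
    have : s ≤ 1479 / 1000 := by linarith
    gcongr
  have h6 : (885 / 1000 : ℝ) / (1885 / 1000 * (999 / 1000)) <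
      1 / 2 - s ^ 2 / 72 + s ^ 4 / 3600 - s ^ 6 / 282240 := by
    have e4 : (147898 / 100000 : ℝ) ^ 4 ≤ s ^ 4 := by gcongr
    have e6 : s ^ 6 ≤ (1479 / 1000 : ℝ) ^ 6 := by
      have : s ≤ 1479 / 1000 := by linarith
      gcongr
    norm_num at e4 e6 hsq2 ⊢
    linarith
  have h7 := mul_lt_mul_of_pos_left h6 hs1
  have h8 : s * (885 / 1000 / (1885 / 1000 * (999 / 1000))) < Js s := lt_of_lt_of_le h7 h5
  have h9 : (885 / 1000 : ℝ) * s = (1885 / 1000 * (999 / 1000)) *
      (s * (885 / 1000 / (1885 / 1000 * (999 / 1000)))) := by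
    field_simp
  rw [h9]
  exact mul_lt_mul_of_pos_left h8 (by norm_num)

end Pool.Agent.R321.FA
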