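import Pool.Agent.R321.FA1

/-! Frequency algebra: the mass of the coefficients near frequency zero. -/

open Finset

namespace Pool.Agent.R321.FA

/-- the frequency of a vector -/
noncomputable def fr (e : G) : ℝ := e.sum fun p k => (k : ℝ) * Real.log p

lemma fr_add (e f : G) : fr (e + f) = fr e + fr f := by
  unfold fr
  exact Finsupp.sum_add_index' (by simp) (by intros; push_cast; ring)

lemma fr_zero : fr 0 = 0 := by simp [fr]

lemma fr_neg (e : G) : fr (-e) = -fr e := by
  have h := fr_add e (-e)
  rw [add_neg_cancel, fr_zero] at h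
  linarith

lemma fr_ds (p : ℕ) : fr (ds p) = Real.log p := by simp [fr, ds]

lemma fr_sub_ds (e : G) (p : ℕ) : fr (e - ds p) = fr e - Real.log p := by
  rw [sub_eq_add_neg, fr_add, fr_neg, fr_ds]
  ring

/-- total mass -/
theorem total_le {S : Finset ℕ} {u : ℕ → ℝ} (hu : ∀ p, 0 ≤ u p) {A : ℝ}
    (hA : ∑ p ∈ S, u p ≤ A) (k : ℕ) (U : Finset G) :
    ∑ e ∈ U, ((1 + VV S u) ^ k).coeff e ≤ (1 + 2 * A) ^ k := by
  classical
  have hA0 : 0 ≤ A := (Finset.sum_nonneg fun p _ => hu p).trans hA
  induction k generalizing U with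
  | zero =>
    simp only [pow_zero]
    calc ∑ e ∈ U, (1 : Al).coeff e ≤ ∑ e ∈ insert 0 U, (1 : Al).coeff e := by
          apply Finset.sum_le_sum_of_subset_of_nonneg (Finset.subset_insert _ _)
          intro e _ _
          have := coeff_nonneg (S := S) hu 0 e
          rwa [pow_zero] at this
      _ = (1 : Al).coeff 0 := by
          apply Finset.sum_eq_single_of_mem 0 (Finset.mem_insert_self _ _)
          intro e _ he
          rw [AddMonoidAlgebra.one_def, AddMonoidAlgebra.coeff_single, Finsupp.single_apply,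
            if_neg (Ne.symm he)]
      _ = 1 := by
          rw [AddMonoidAlgebra.one_def, AddMonoidAlgebra.coeff_single, Finsupp.single_apply,
            if_pos rfl]
      _ ≤ 1 := le_rfl
  | succ k ih =>
    simp only [coeff_step]
    rw [Finset.sum_add_distrib, Finset.sum_comm]
    have h1 := ih U
    have h2 : ∀ p, ∑ e ∈ U, u p * (((1 + VV S u) ^ k).coeff (e - ds p) +
        ((1 + VV S u) ^ k).coeff (e + ds p)) ≤ u p * (2 * (1 + 2 * A) ^ k) := by
      intro p
      rw [← Finset.mul_sum, Finset.sum_add_distrib]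
      apply mul_le_mul_of_nonneg_left _ (hu p)
      have h3 := ih (U.image (fun e => e - ds p))
      have h4 := ih (U.image (fun e => e + ds p))
      rw [Finset.sum_image (fun a _ b _ h => by simpa using h)] at h3 h4
      linarith
    have h5 : ∑ p ∈ S, ∑ e ∈ U, u p * (((1 + VV S u) ^ k).coeff (e - ds p) +
        ((1 + VV S u) ^ k).coeff (e + ds p)) ≤ A * (2 * (1 + 2 * A) ^ k) := by
      calc _ ≤ ∑ p ∈ S, u p * (2 * (1 + 2 * A) ^ k) := Finset.sum_le_sum fun p _ => h2 p
        _ = (∑ p ∈ S, u p) * (2 * (1 + 2 * A) ^ k) := by rw [Finset.sum_mul]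
        _ ≤ _ := by gcongr
    calc _ ≤ (1 + 2 * A) ^ k + A * (2 * (1 + 2 * A) ^ k) := add_le_add h1 h5
      _ = _ := by ring

/-- mass near a frequency, without the zero vector -/
theorem near_le {S : Finset ℕ} {u : ℕ → ℝ} (hu : ∀ p, 0 ≤ u p) {A : ℝ}
    (hA : ∑ p ∈ S, u p ≤ A) {δ μ : ℝ}
    (hμ : ∀ x : ℝ, ∑ p ∈ S.filter (fun p : ℕ => |Real.log p - x| ≤ δ), u p ≤ μ)
    (k : ℕ) (x : ℝ) (U : Finset G) :
    ∑ e ∈ U.filter (fun e => e ≠ 0 ∧ |fr e - x| ≤ δ), ((1 + VV S u) ^ k).coeff e ≤
      2 * k * μ * (1 + 2 * A) ^ k := by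
  classical
  have hA0 : 0 ≤ A := (Finset.sum_nonneg fun p _ => hu p).trans hA
  have hμ0 : 0 ≤ μ := (Finset.sum_nonneg fun p _ => hu p).trans (hμ 0)
  induction k generalizing x U with
  | zero =>
    rw [Nat.cast_zero, mul_zero, zero_mul, zero_mul]
    apply le_of_eq
    apply Finset.sum_eq_zero
    intro e he
    rw [Finset.mem_filter] at he
    rw [pow_zero, AddMonoidAlgebra.one_def, AddMonoidAlgebra.coeff_single, Finsupp.single_apply,
      if_neg (Ne.symm he.2.1)]
  | succ k ih =>
    simp only [coeff_step]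
    rw [Finset.sum_add_distrib, Finset.sum_comm]
    have h1 := ih x U
    set P := (1 + 2 * A) ^ k with hP
    have hP1 : 0 ≤ P := by positivity
    have h0 : ((1 + VV S u) ^ k).coeff 0 ≤ P := by
      have := total_le hu hA k {0}
      rwa [Finset.sum_singleton] at this
    have hplus : ∀ p, ∑ e ∈ U.filter (fun e => e ≠ 0 ∧ |fr e - x| ≤ δ),
        ((1 + VV S u) ^ k).coeff (e + ds p) ≤
        2 * k * μ * P + if |Real.log p - (-x)| ≤ δ then P else 0 := by
      intro p
      have h2 := ih (x + Real.log p) (U.image (fun e => e + ds p))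
      set Q := (U.filter (fun e => e ≠ 0 ∧ |fr e - x| ≤ δ)) with hQ
      have e1 : ∑ e ∈ Q, ((1 + VV S u) ^ k).coeff (e + ds p) =
          ∑ e ∈ Q.image (fun e => e + ds p), ((1 + VV S u) ^ k).coeff e := by
        rw [Finset.sum_image (fun a _ b _ h => by simpa using h)]
      rw [e1, ← Finset.sum_filter_add_sum_filter_not (Q.image (fun e => e + ds p)) (fun e => e ≠ 0)]
      apply add_le_add
      · refine le_trans ?_ h2
        apply Finset.sum_le_sum_of_subset_of_nonneg
        · intro e he
          rw [Finset.mem_filter, Finset.mem_image] at he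
          obtain ⟨⟨a, ha, rfl⟩, he0⟩ := he
          rw [hQ, Finset.mem_filter] at ha
          rw [Finset.mem_filter, Finset.mem_image]
          refine ⟨⟨a, ha.1, rfl⟩, he0, ?_⟩
          rw [fr_add, fr_ds]
          convert ha.2.2 using 2
          ring
        · intro e _ _
          exact coeff_nonneg hu k e
      · split_ifs with hc
        · refine le_trans ?_ h0
          calc _ ≤ ∑ e ∈ ({0} : Finset G), ((1 + VV S u) ^ k).coeff e := by
                apply Finset.sum_le_sum_of_subset_of_nonneg
                · intro e he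
                  rw [Finset.mem_filter, not_not] at he
                  rw [Finset.mem_singleton]
                  exact he.2
                · intro e _ _
                  exact coeff_nonneg hu k e
            _ = _ := Finset.sum_singleton _ _
        · apply le_of_eq
          apply Finset.sum_eq_zero
          intro e he
          exfalso
          rw [Finset.mem_filter, Finset.mem_image, not_not] at he
          obtain ⟨⟨a, ha, rfl⟩, he0⟩ := he
          rw [hQ, Finset.mem_filter] at ha
          apply hc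
          have h3 : fr a + Real.log p = 0 := by rw [← fr_ds, ← fr_add, he0, fr_zero]
          have h4 : Real.log p - -x = -(fr a - x) := by linarith
          rw [h4, abs_neg]
          exact ha.2.2
    have hminus : ∀ p, ∑ e ∈ U.filter (fun e => e ≠ 0 ∧ |fr e - x| ≤ δ),
        ((1 + VV S u) ^ k).coeff (e - ds p) ≤
        2 * k * μ * P + if |Real.log p - x| ≤ δ then P else 0 := by
      intro p
      have h2 := ih (x - Real.log p) (U.image (fun e => e - ds p))
      set Q := (U.filter (fun e => e ≠ 0 ∧ |fr e - x| ≤ δ)) with hQ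
      have e1 : ∑ e ∈ Q, ((1 + VV S u) ^ k).coeff (e - ds p) =
          ∑ e ∈ Q.image (fun e => e - ds p), ((1 + VV S u) ^ k).coeff e := by
        rw [Finset.sum_image (fun a _ b _ h => by simpa using h)]
      rw [e1, ← Finset.sum_filter_add_sum_filter_not (Q.image (fun e => e - ds p)) (fun e => e ≠ 0)]
      apply add_le_add
      · refine le_trans ?_ h2
        apply Finset.sum_le_sum_of_subset_of_nonneg
        · intro e he
          rw [Finset.mem_filter, Finset.mem_image] at he
          obtain ⟨⟨a, ha, rfl⟩, he0⟩ := he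
          rw [hQ, Finset.mem_filter] at ha
          rw [Finset.mem_filter, Finset.mem_image]
          refine ⟨⟨a, ha.1, rfl⟩, he0, ?_⟩
          rw [fr_sub_ds]
          convert ha.2.2 using 2
          ring
        · intro e _ _
          exact coeff_nonneg hu k e
      · split_ifs with hc
        · refine le_trans ?_ h0
          calc _ ≤ ∑ e ∈ ({0} : Finset G), ((1 + VV S u) ^ k).coeff e := by
                apply Finset.sum_le_sum_of_subset_of_nonneg
                · intro e he
                  rw [Finset.mem_filter, not_not] at he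
                  rw [Finset.mem_singleton]
                  exact he.2
                · intro e _ _
                  exact coeff_nonneg hu k e
            _ = _ := Finset.sum_singleton _ _
        · apply le_of_eq
          apply Finset.sum_eq_zero
          intro e he
          exfalso
          rw [Finset.mem_filter, Finset.mem_image, not_not] at he
          obtain ⟨⟨a, ha, rfl⟩, he0⟩ := he
          rw [hQ, Finset.mem_filter] at ha
          apply hc
          have h3 : fr a - Real.log p = 0 := by rw [← fr_sub_ds, he0, fr_zero]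
          have h4 : Real.log p - x = fr a - x := by linarith
          rw [h4]
          exact ha.2.2
    have h5 : ∑ p ∈ S, ∑ e ∈ U.filter (fun e => e ≠ 0 ∧ |fr e - x| ≤ δ),
        u p * (((1 + VV S u) ^ k).coeff (e - ds p) + ((1 + VV S u) ^ k).coeff (e + ds p)) ≤
        A * (2 * (2 * k * μ * P)) + 2 * (μ * P) := by
      calc _ ≤ ∑ p ∈ S, (u p * (2 * (2 * k * μ * P)) +
            ((if |Real.log p - x| ≤ δ then u p else 0) * P +
            (if |Real.log p - (-x)| ≤ δ then u p else 0) * P)) := by
            refine Finset.sum_le_sum fun p _ => ?_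
            rw [← Finset.mul_sum, Finset.sum_add_distrib]
            refine (mul_le_mul_of_nonneg_left (add_le_add (hminus p) (hplus p)) (hu p)).trans
              (le_of_eq ?_)
            split_ifs <;> ring
        _ = (∑ p ∈ S, u p) * (2 * (2 * k * μ * P)) +
            ((∑ p ∈ S.filter (fun p : ℕ => |Real.log p - x| ≤ δ), u p) * P +
            (∑ p ∈ S.filter (fun p : ℕ => |Real.log p - (-x)| ≤ δ), u p) * P) := by
            rw [Finset.sum_add_distrib, Finset.sum_add_distrib, Finset.sum_mul, ← Finset.sum_mul,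
              ← Finset.sum_mul, Finset.sum_filter, Finset.sum_filter, ← Finset.sum_mul]
        _ ≤ A * (2 * (2 * k * μ * P)) + (μ * P + μ * P) := by
            have := hμ x
            have := hμ (-x)
            gcongr
        _ = _ := by ring
    calc _ ≤ 2 * k * μ * P + (A * (2 * (2 * k * μ * P)) + 2 * (μ * P)) := add_le_add h1 h5
      _ = (1 + 2 * A) * (2 * k * μ * P) + 2 * μ * P := by ring
      _ ≤ (1 + 2 * A) * (2 * k * μ * P) + 2 * μ * P * (1 + 2 * A) := by
          have : 0 ≤ 2 * μ * P := by positivity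
          nlinarith
      _ = _ := by rw [pow_succ, ← hP]; push_cast; ring

lemma mw_sq (v : ℕ → ℝ) (e : G) : mw v e ^ 2 = mw (fun p => v p ^ 2) e := by
  unfold mw
  rw [← Finset.prod_pow]
  refine Finset.prod_congr rfl fun p _ => ?_
  rw [← pow_mul, ← pow_mul, mul_comm]

/-- coefficient functions dominated by `mw` -/
def Dom (S : Finset ℕ) (v : ℕ → ℝ) (k : ℕ) (C : ℝ) (f : G → ℝ) : Prop :=
  ∀ e, |f e| ≤ C * mw v e ∧ (f e ≠ 0 → len e ≤ k ∧ e.support ⊆ S)

lemma Dom.sq_le {S : Finset ℕ} {v : ℕ → ℝ} (hv : ∀ p, 0 ≤ v p) {k : ℕ} {C : ℝ} {f : G → ℝ}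
    (h : Dom S v k C f) (e : G) :
    f e ^ 2 ≤ C ^ 2 * ((1 + VV S (fun p => v p ^ 2)) ^ k).coeff e := by
  have hc := coeff_nonneg (S := S) (v := fun p => v p ^ 2) (fun p => sq_nonneg _) k e
  by_cases h0 : f e = 0
  · rw [h0]
    have : 0 ≤ C ^ 2 * ((1 + VV S (fun p => v p ^ 2)) ^ k).coeff e := mul_nonneg (sq_nonneg _) hc
    simpa using this
  · obtain ⟨h1, h2⟩ := h e
    obtain ⟨h3, h4⟩ := h2 h0
    have h5 := le_coeff (v := fun p => v p ^ 2) (fun p => sq_nonneg _) k e h3 h4
    rw [← mw_sq] at h5
    calc f e ^ 2 = |f e| ^ 2 := (sq_abs _).symm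
      _ ≤ (C * mw v e) ^ 2 := pow_le_pow_left₀ (abs_nonneg _) h1 2
      _ = C ^ 2 * mw v e ^ 2 := by ring
      _ ≤ _ := mul_le_mul_of_nonneg_left h5 (sq_nonneg _)

theorem Dom.total {S : Finset ℕ} {v : ℕ → ℝ} (hv : ∀ p, 0 ≤ v p) {k : ℕ} {C A : ℝ} {f : G → ℝ}
    (h : Dom S v k C f) (hA : ∑ p ∈ S, v p ^ 2 ≤ A) (U : Finset G) :
    ∑ e ∈ U, f e ^ 2 ≤ C ^ 2 * (1 + 2 * A) ^ k := by
  refine (Finset.sum_le_sum fun e _ => h.sq_le hv e).trans ?_
  rw [← Finset.mul_sum]
  exact mul_le_mul_of_nonneg_left (total_le (fun p => sq_nonneg _) hA k U) (sq_nonneg _)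

theorem Dom.near {S : Finset ℕ} {v : ℕ → ℝ} (hv : ∀ p, 0 ≤ v p) {k : ℕ} {C A δ μ : ℝ} {f : G → ℝ}
    (h : Dom S v k C f) (hA : ∑ p ∈ S, v p ^ 2 ≤ A)
    (hμ : ∀ x : ℝ, ∑ p ∈ S.filter (fun p : ℕ => |Real.log p - x| ≤ δ), v p ^ 2 ≤ μ)
    (U : Finset G) :
    ∑ e ∈ U.filter (fun e => e ≠ 0 ∧ |fr e| ≤ δ), f e ^ 2 ≤
      C ^ 2 * (2 * k * μ * (1 + 2 * A) ^ k) := by
  refine (Finset.sum_le_sum fun e _ => h.sq_le hv e).trans ?_
  rw [← Finset.mul_sum]
  have := near_le (u := fun p => v p ^ 2) (fun p => sq_nonneg _) hA hμ k 0 U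
  simp only [sub_zero] at this
  exact mul_le_mul_of_nonneg_left this (sq_nonneg _)

/-- products -/
theorem Dom.mul {S : Finset ℕ} {v : ℕ → ℝ} (hv : ∀ p, 0 ≤ v p) {M : ℝ}
    (hM : ∑ p ∈ S, v p ^ 2 ≤ M) {k l : ℕ} {C D : ℝ} (hC : 0 ≤ C) (hD : 0 ≤ D) {f g : Al}
    (hf : Dom S v k C f.coeff) (hg : Dom S v l D g.coeff) :
    Dom S v (k + l) (C * D * Cc M (k + l)) (f * g).coeff := by
  classical
  intro e
  have hfb : ∀ e, |f.coeff e| ≤ C * ((1 + VV S v) ^ k).coeff e := by
    intro e
    by_cases h0 : f.coeff e = 0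
    · rw [h0, abs_zero]; exact mul_nonneg hC (coeff_nonneg hv k e)
    · obtain ⟨h1, h2⟩ := hf e
      obtain ⟨h3, h4⟩ := h2 h0
      exact h1.trans (mul_le_mul_of_nonneg_left (le_coeff hv k e h3 h4) hC)
  have hgb : ∀ e, |g.coeff e| ≤ D * ((1 + VV S v) ^ l).coeff e := by
    intro e
    by_cases h0 : g.coeff e = 0
    · rw [h0, abs_zero]; exact mul_nonneg hD (coeff_nonneg hv l e)
    · obtain ⟨h1, h2⟩ := hg e
      obtain ⟨h3, h4⟩ := h2 h0
      exact h1.trans (mul_le_mul_of_nonneg_left (le_coeff hv l e h3 h4) hD)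
  constructor
  · have hb : |(f * g).coeff e| ≤ C * D * ((1 + VV S v) ^ (k + l)).coeff e := by
      rw [pow_add]
      set A := (1 + VV S v) ^ k with hA
      set B := (1 + VV S v) ^ l with hB
      rw [AddMonoidAlgebra.coeff_mul, AddMonoidAlgebra.coeff_mul]
      have hAn : ∀ a, 0 ≤ A.coeff a := fun a => coeff_nonneg hv k a
      have hBn : ∀ a, 0 ≤ B.coeff a := fun a => coeff_nonneg hv l a
      have hsf : f.coeff.support ⊆ A.coeff.support := by
        intro a ha
        rw [Finsupp.mem_support_iff] at ha ⊢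
        intro h0
        have := hfb a
        rw [h0, mul_zero] at this
        exact ha (abs_nonpos_iff.1 this)
      have hsg : g.coeff.support ⊆ B.coeff.support := by
        intro a ha
        rw [Finsupp.mem_support_iff] at ha ⊢
        intro h0
        have := hgb a
        rw [h0, mul_zero] at this
        exact ha (abs_nonpos_iff.1 this)
      unfold Finsupp.sum
      calc |∑ a ∈ f.coeff.support, ∑ b ∈ g.coeff.support,
            if a + b = e then f.coeff a * g.coeff b else 0| ≤
          ∑ a ∈ f.coeff.support, ∑ b ∈ g.coeff.support,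
            |if a + b = e then f.coeff a * g.coeff b else 0| := by
            refine (Finset.abs_sum_le_sum_abs _ _).trans ?_
            exact Finset.sum_le_sum fun a _ => Finset.abs_sum_le_sum_abs _ _
        _ ≤ ∑ a ∈ f.coeff.support, ∑ b ∈ g.coeff.support,
            C * D * (if a + b = e then A.coeff a * B.coeff b else 0) := by
            refine Finset.sum_le_sum fun a _ => Finset.sum_le_sum fun b _ => ?_
            split_ifs
            · rw [abs_mul]
              calc |f.coeff a| * |g.coeff b| ≤ (C * A.coeff a) * (D * B.coeff b) :=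
                    mul_le_mul (hfb a) (hgb b) (abs_nonneg _) (mul_nonneg hC (hAn a))
                _ = _ := by ring
            · simp
        _ ≤ ∑ a ∈ A.coeff.support, ∑ b ∈ B.coeff.support,
            C * D * (if a + b = e then A.coeff a * B.coeff b else 0) := by
            have hnn : ∀ a b, 0 ≤ C * D * (if a + b = e then A.coeff a * B.coeff b else 0) := by
              intro a b
              apply mul_nonneg (mul_nonneg hC hD)
              split_ifs
              · exact mul_nonneg (hAn a) (hBn b)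
              · exact le_rfl
            refine (Finset.sum_le_sum fun a _ => Finset.sum_le_sum_of_subset_of_nonneg hsg
              (fun b _ _ => hnn a b)).trans ?_
            exact Finset.sum_le_sum_of_subset_of_nonneg hsf
              (fun a _ _ => Finset.sum_nonneg fun b _ => hnn a b)
        _ = _ := by
            rw [Finset.mul_sum]
            exact Finset.sum_congr rfl fun a _ => by rw [Finset.mul_sum]
    refine hb.trans ?_
    rw [mul_assoc (C * D)]
    exact mul_le_mul_of_nonneg_left (coeff_le hv hM (k + l) e) (mul_nonneg hC hD)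
  · intro h0
    rw [AddMonoidAlgebra.coeff_mul] at h0
    obtain ⟨a, ha, h1⟩ := Finset.exists_ne_zero_of_sum_ne_zero h0
    obtain ⟨b, hb, h2⟩ := Finset.exists_ne_zero_of_sum_ne_zero h1
    simp only at h2
    split_ifs at h2 with h3
    · have hfa : f.coeff a ≠ 0 := left_ne_zero_of_mul h2
      have hgb' : g.coeff b ≠ 0 := right_ne_zero_of_mul h2
      obtain ⟨q1, q2⟩ := (hf a).2 hfa
      obtain ⟨q3, q4⟩ := (hg b).2 hgb'
      subst h3
      constructor
      · have hU1 : a.support ⊆ a.support ∪ b.support := Finset.subset_union_left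
        have hU2 : b.support ⊆ a.support ∪ b.support := Finset.subset_union_right
        rw [len_eq (a + b) _ Finsupp.support_add]
        rw [len_eq a _ hU1] at q1
        rw [len_eq b _ hU2] at q3
        refine le_trans ?_ (add_le_add q1 q3)
        rw [← Finset.sum_add_distrib]
        exact Finset.sum_le_sum fun p _ => Int.natAbs_add_le _ _
      · exact Finsupp.support_add.trans (Finset.union_subset q2 q4)
    · exact absurd rfl h2

end Pool.Agent.R321.FA
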