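import Pool.Agent.R321.FA2
import Pool.Agent.TH800.MS.Gm

/-! Frequency algebra: evaluation, heights, separation. -/

open Finset Complex

namespace Pool.Agent.R321.FA

/-! ### evaluation -/

/-- the character `e ↦ exp(i t fr e)` -/
noncomputable def ch (t : ℝ) : Multiplicative G →* ℂ where
  toFun e := cexp (((t * fr e.toAdd : ℝ) : ℂ) * I)
  map_one' := by
    show cexp (((t * fr (0 : G) : ℝ) : ℂ) * I) = 1
    rw [fr_zero]; simp
  map_mul' a b := by
    show cexp (((t * fr (a.toAdd + b.toAdd) : ℝ) : ℂ) * I) = _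
    rw [fr_add, ← Complex.exp_add]
    congr 1
    push_cast
    ring

/-- evaluation at `t` -/
noncomputable def ev (t : ℝ) : Al →ₐ[ℝ] ℂ := AddMonoidAlgebra.lift ℝ ℂ G (ch t)

lemma ev_single (t : ℝ) (e : G) (c : ℝ) :
    ev t (AddMonoidAlgebra.single e c) = (c : ℂ) * cexp (((t * fr e : ℝ) : ℂ) * I) := by
  unfold ev
  rw [AddMonoidAlgebra.lift_single]
  simp [ch]

lemma ev_eq (t : ℝ) (f : Al) :
    ev t f = ∑ e ∈ f.coeff.support, (f.coeff e : ℂ) * cexp (((t * fr e : ℝ) : ℂ) * I) := by
  unfold ev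
  rw [AddMonoidAlgebra.lift_apply]
  unfold Finsupp.sum
  refine Finset.sum_congr rfl fun e _ => ?_
  simp [ch]

lemma ev_cont (f : Al) : Continuous (fun t => ev t f) := by
  simp_rw [ev_eq]
  fun_prop

/-- the sum of the absolute values of the coefficients -/
noncomputable def nm (f : Al) : ℝ := ∑ e ∈ f.coeff.support, |f.coeff e|

lemma nm_nonneg (f : Al) : 0 ≤ nm f := Finset.sum_nonneg fun _ _ => abs_nonneg _

lemma norm_ev_le (t : ℝ) (f : Al) : ‖ev t f‖ ≤ nm f := by
  rw [ev_eq]
  refine (norm_sum_le _ _).trans (Finset.sum_le_sum fun e _ => ?_)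
  rw [norm_mul, Complex.norm_exp_ofReal_mul_I, mul_one, Complex.norm_real, Real.norm_eq_abs]

/-! ### heights -/

noncomputable def hp (e : G) : ℝ := ∑ p ∈ e.support, ((e p).toNat : ℝ) * Real.log p
noncomputable def hn (e : G) : ℝ := hp (-e)

lemma hp_eq (e : G) (U : Finset ℕ) (h : e.support ⊆ U) :
    hp e = ∑ p ∈ U, ((e p).toNat : ℝ) * Real.log p := by
  unfold hp
  refine Finset.sum_subset h fun p _ hp => ?_
  rw [Finsupp.notMem_support_iff] at hp
  simp [hp]

lemma fr_eq (e : G) (U : Finset ℕ) (h : e.support ⊆ U) :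
    fr e = ∑ p ∈ U, ((e p : ℤ) : ℝ) * Real.log p := by
  unfold fr Finsupp.sum
  refine Finset.sum_subset h fun p _ hp => ?_
  rw [Finsupp.notMem_support_iff] at hp
  simp [hp]

lemma hn_eq (e : G) (U : Finset ℕ) (h : e.support ⊆ U) :
    hn e = ∑ p ∈ U, ((-(e p)).toNat : ℝ) * Real.log p := by
  unfold hn
  rw [hp_eq (-e) U (by rwa [Finsupp.support_neg])]
  rfl

lemma log_nn (p : ℕ) : 0 ≤ Real.log p := Real.log_natCast_nonneg p

lemma hp_nonneg (e : G) : 0 ≤ hp e :=
  Finset.sum_nonneg fun p _ => mul_nonneg (Nat.cast_nonneg _) (log_nn p)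

lemma hn_nonneg (e : G) : 0 ≤ hn e := hp_nonneg _

lemma fr_hp_hn (e : G) : fr e = hp e - hn e := by
  rw [fr_eq e e.support subset_rfl, hn_eq e e.support subset_rfl, hp_eq e e.support subset_rfl,
    ← Finset.sum_sub_distrib]
  refine Finset.sum_congr rfl fun p _ => ?_
  rw [← sub_mul]
  congr 1
  have : (e p : ℤ) = (e p).toNat - (-(e p)).toNat := by omega
  exact_mod_cast this

lemma hp_add_le (e f : G) : hp (e + f) ≤ hp e + hp f := by
  have h1 : e.support ⊆ e.support ∪ f.support := Finset.subset_union_left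
  have h2 : f.support ⊆ e.support ∪ f.support := Finset.subset_union_right
  rw [hp_eq (e + f) _ Finsupp.support_add, hp_eq e _ h1, hp_eq f _ h2, ← Finset.sum_add_distrib]
  refine Finset.sum_le_sum fun p _ => ?_
  rw [← add_mul]
  apply mul_le_mul_of_nonneg_right _ (log_nn p)
  have : ((e + f) p).toNat ≤ (e p).toNat + (f p).toNat := by
    rw [Finsupp.add_apply]; omega
  exact_mod_cast this

lemma hn_add_le (e f : G) : hn (e + f) ≤ hn e + hn f := by
  unfold hn
  rw [neg_add]
  exact hp_add_le _ _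

lemma hp_neg (e : G) : hp (-e) = hn e := rfl

lemma hn_neg (e : G) : hn (-e) = hp e := by unfold hn; rw [neg_neg]

lemma hp_zero : hp 0 = 0 := by simp [hp]
lemma hn_zero : hn 0 = 0 := by unfold hn; rw [neg_zero, hp_zero]

lemma hn_nsmul_ds (k p : ℕ) : hn (k • ds p) = 0 := by
  unfold hn hp
  apply Finset.sum_eq_zero
  intro q _
  have : (-(k • ds p)) q ≤ 0 := by
    simp only [Finsupp.coe_neg, Pi.neg_apply, Finsupp.smul_apply, ds, Finsupp.single_apply]
    split_ifs <;> simp
  have h0 : ((-(k • ds p)) q).toNat = 0 := by omega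
  rw [h0]; simp

lemma fr_nsmul (k : ℕ) (e : G) : fr (k • e) = k * fr e := by
  induction k with
  | zero => simp [fr_zero]
  | succ k ih => rw [succ_nsmul, fr_add, ih]; push_cast; ring

lemma hp_nsmul_ds (k p : ℕ) : hp (k • ds p) = k * Real.log p := by
  have h := fr_hp_hn (k • ds p)
  rw [hn_nsmul_ds, fr_nsmul, fr_ds] at h
  linarith

/-- the natural number attached to the positive part -/
noncomputable def nt (a : ℕ → ℕ) (U : Finset ℕ) : ℕ := ∏ p ∈ U, p ^ a p

lemma nt_log {a : ℕ → ℕ} {U : Finset ℕ} (hU : ∀ p ∈ U, p.Prime) :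
    Real.log (nt a U) = ∑ p ∈ U, (a p : ℝ) * Real.log p := by
  unfold nt
  push_cast
  rw [Real.log_prod]
  · exact Finset.sum_congr rfl fun p _ => Real.log_pow _ _
  · intro p hp
    have := (hU p hp).pos
    positivity

lemma nt_pos {a : ℕ → ℕ} {U : Finset ℕ} (hU : ∀ p ∈ U, p.Prime) : 0 < nt a U :=
  Finset.prod_pos fun p hp => pow_pos (hU p hp).pos _

lemma nt_inj {a b : ℕ → ℕ} {U : Finset ℕ} (hU : ∀ p ∈ U, p.Prime) (h : nt a U = nt b U) :
    ∀ p ∈ U, a p = b p := by
  classical
  intro p hp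
  have key : ∀ a : ℕ → ℕ, (nt a U).factorization p = a p := by
    intro a
    unfold nt
    rw [Nat.factorization_prod (fun q hq => (pow_pos (hU q hq).pos _).ne'), Finsupp.finsetSum_apply]
    rw [Finset.sum_eq_single_of_mem p hp]
    · rw [Nat.factorization_pow, Finsupp.smul_apply, (hU p hp).factorization_self, smul_eq_mul,
        mul_one]
    · intro q hq hqp
      rw [Nat.factorization_pow, Finsupp.smul_apply, (hU q hq).factorization, Finsupp.single_apply,
        if_neg hqp, smul_zero]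
  rw [← key a, ← key b, h]

/-- separation of the frequencies -/
theorem sep {e f : G} (he : ∀ p ∈ e.support, p.Prime) (hf : ∀ p ∈ f.support, p.Prime)
    (hne : e ≠ f) {M : ℝ} (h1 : hp e + hn f ≤ M) (h2 : hp f + hn e ≤ M) :
    Real.exp (-M) ≤ |fr e - fr f| := by
  classical
  set U := e.support ∪ f.support with hU
  have hUp : ∀ p ∈ U, p.Prime := by
    intro p hp
    rw [hU, Finset.mem_union] at hp
    exact hp.elim (he p) (hf p)
  have s1 : e.support ⊆ U := Finset.subset_union_left
  have s2 : f.support ⊆ U := Finset.subset_union_right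
  set a : ℕ → ℕ := fun p => (e p).toNat + (-(f p)).toNat with ha
  set b : ℕ → ℕ := fun p => (f p).toNat + (-(e p)).toNat with hb
  have la : Real.log (nt a U) = hp e + hn f := by
    rw [nt_log hUp, hp_eq e U s1, hn_eq f U s2, ← Finset.sum_add_distrib]
    refine Finset.sum_congr rfl fun p _ => ?_
    rw [ha]; push_cast; ring
  have lb : Real.log (nt b U) = hp f + hn e := by
    rw [nt_log hUp, hp_eq f U s2, hn_eq e U s1, ← Finset.sum_add_distrib]
    refine Finset.sum_congr rfl fun p _ => ?_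
    rw [hb]; push_cast; ring
  have hab : nt a U ≠ nt b U := by
    intro h
    apply hne
    ext p
    by_cases hp : p ∈ U
    · have := nt_inj hUp h p hp
      rw [ha, hb] at this
      simp only at this
      omega
    · have h3 : e p = 0 := Finsupp.notMem_support_iff.1 (fun h => hp (s1 h))
      have h4 : f p = 0 := Finsupp.notMem_support_iff.1 (fun h => hp (s2 h))
      rw [h3, h4]
  have pa : (0 : ℝ) < nt a U := by exact_mod_cast nt_pos (a := a) hUp
  have pb : (0 : ℝ) < nt b U := by exact_mod_cast nt_pos (a := b) hUp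
  have h3 := TH800.MS.log_sep (N := Real.exp M) (nt_pos (a := a) hUp) (nt_pos (a := b) hUp) hab
    (by rw [← Real.log_le_iff_le_exp pa, la]; exact h1)
    (by rw [← Real.log_le_iff_le_exp pb, lb]; exact h2)
  rw [la, lb] at h3
  rw [Real.exp_neg, ← one_div]
  refine h3.trans (le_of_eq ?_)
  rw [fr_hp_hn e, fr_hp_hn f]
  congr 1
  ring

end Pool.Agent.R321.FA
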