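import Pool.Agent.R321.FA3
import Pool.Agent.TH800.MS.Sd

/-! Window averages of frequency polynomials and their variance. -/

open Finset Complex MeasureTheory Filter

namespace Pool.Agent.R321.FA

open TH800.MS (Om be kb gau0)

/-- normalised window -/
noncomputable def om (β y : ℝ) : ℝ := β / (2 * Real.pi) * Om β y

/-- its Fourier transform -/
noncomputable def Of (β ξ : ℝ) : ℝ := β * be β ξ

lemma om_nonneg {β : ℝ} (hβ : 0 < β) (y : ℝ) : 0 ≤ om β y := by
  unfold om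
  have := TH800.MS.Om_nonneg β y
  have := Real.pi_pos
  positivity

lemma om_cont (β : ℝ) : Continuous (om β) := by
  unfold om
  exact continuous_const.mul (TH800.MS.Om_cont β)

lemma om_le {β : ℝ} (hβ : 0 < β) (y : ℝ) : om β y ≤ β * Real.exp (-y ^ 2 / 2) := by
  have hpi := Real.pi_gt_three
  unfold om Om
  have h2 : Real.sinc (β * y / 2) ^ 2 ≤ 1 := by
    rw [sq_le_one_iff_abs_le_one]
    exact Real.abs_sinc_le_one _
  have h3 : β / (2 * Real.pi) ≤ β := div_le_self hβ.le (by linarith)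
  have h4 := Real.exp_pos (-y ^ 2 / 2)
  calc β / (2 * Real.pi) * (Real.exp (-y ^ 2 / 2) * Real.sinc (β * y / 2) ^ 2) ≤
      β * (Real.exp (-y ^ 2 / 2) * 1) := by gcongr
    _ = _ := by ring

lemma gau_int : Integrable (fun y : ℝ => Real.exp (-y ^ 2 / 2)) := by
  have h := SP.pp_gauss_integrable 0
  simpa only [sub_zero] using h

lemma om_int {β : ℝ} (hβ : 0 < β) : Integrable (om β) :=
  (gau_int.const_mul β).mono' (om_cont β).aestronglyMeasurable
    (Eventually.of_forall fun y => by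
      rw [Real.norm_of_nonneg (om_nonneg hβ y)]; exact om_le hβ y)

lemma Of_nonneg {β : ℝ} (hβ : 0 < β) (z : ℝ) : 0 ≤ Of β z :=
  mul_nonneg hβ.le (TH800.MS.be_nonneg hβ z)

lemma Of_le_one {β : ℝ} (hβ : 0 < β) (z : ℝ) : Of β z ≤ 1 := by
  unfold Of
  calc β * be β z ≤ β * (1 / β) := by
        have := TH800.MS.be_le hβ z
        gcongr
    _ = 1 := by field_simp

lemma Of_far {β : ℝ} (hβ : 0 < β) {z : ℝ} (hz : β ≤ |z|) :
    Of β z ≤ Real.exp (-(|z| - β) ^ 2 / 2) := by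
  have h1 : be β z = be β |z| := by
    rcases abs_cases z with ⟨h, _⟩ | ⟨h, _⟩
    · rw [h]
    · rw [h, TH800.MS.be_even hβ]
  unfold Of
  rw [h1]
  calc β * be β |z| ≤ β * (1 / β * Real.exp (-(|z| - β) ^ 2 / 2)) := by
        have := TH800.MS.be_far hβ hz
        gcongr
    _ = _ := by field_simp

lemma Of_far2 {β : ℝ} (hβ : 0 < β) {z : ℝ} (hz : 2 * β ≤ |z|) :
    Of β z ≤ Real.exp (-β ^ 2 / 2) := by
  refine (Of_far hβ (by linarith)).trans ?_
  apply Real.exp_le_exp.2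
  have : β ^ 2 ≤ (|z| - β) ^ 2 := by
    apply pow_le_pow_left₀ hβ.le
    linarith
  linarith

lemma Of_zero {β : ℝ} (hβ : 0 < β) : |Of β 0 - 1| ≤ 1 / β := by
  have h1 := TH800.MS.be_close hβ 0
  have h2 : kb β 0 = 1 / β := by
    rw [TH800.MS.kb_pos_part hβ le_rfl hβ.le]; simp
  have h3 : Of β 0 - 1 = β * (be β 0 - kb β 0) := by
    unfold Of
    rw [h2]
    field_simp
  rw [h3, abs_mul, abs_of_pos hβ]
  calc β * |be β 0 - kb β 0| ≤ β * (1 / β ^ 2) := by gcongr
    _ = _ := by field_simp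

theorem om_ft {β : ℝ} (hβ : 0 < β) (x : ℝ) :
    ∫ y, ((om β y : ℝ) : ℂ) * cexp (((y * x : ℝ) : ℂ) * I) = ((Of β x : ℝ) : ℂ) := by
  have hpi := Real.pi_pos
  set F : ℝ → ℝ → ℂ := fun y u => ((Real.exp (-y ^ 2 / 2) * kb β u : ℝ) : ℂ) *
    cexp (((y * (x + u) : ℝ) : ℂ) * I) with hF
  have hkc : Continuous (kb β) := TH800.MS.kb_cont
  have hint : Integrable (Function.uncurry F) (volume.prod volume) := by
    have h1 : Integrable (fun z : ℝ × ℝ => Real.exp (-z.1 ^ 2 / 2) * kb β z.2)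
      (volume.prod volume) := gau_int.mul_prod (TH800.MS.kb_integrable hβ)
    refine h1.mono' ?_ (Eventually.of_forall fun z => ?_)
    · apply Continuous.aestronglyMeasurable
      show Continuous (fun z : ℝ × ℝ => ((Real.exp (-z.1 ^ 2 / 2) * kb β z.2 : ℝ) : ℂ) *
        cexp (((z.1 * (x + z.2) : ℝ) : ℂ) * I))
      have : Continuous (fun z : ℝ × ℝ => kb β z.2) := hkc.comp continuous_snd
      fun_prop
    · show ‖((Real.exp (-z.1 ^ 2 / 2) * kb β z.2 : ℝ) : ℂ) *
        cexp (((z.1 * (x + z.2) : ℝ) : ℂ) * I)‖ ≤ _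
      rw [norm_mul, Complex.norm_exp_ofReal_mul_I, mul_one, Complex.norm_real,
        Real.norm_of_nonneg (mul_nonneg (Real.exp_pos _).le (TH800.MS.kb_nonneg hβ _))]
  have hswap := integral_integral_swap hint
  have e1 : ∀ y, ∫ u, F y u = ((2 * Real.pi / β : ℝ) : ℂ) * (((om β y : ℝ) : ℂ) *
      cexp (((y * x : ℝ) : ℂ) * I)) := by
    intro y
    have h1 : ∀ u, F y u = (((Real.exp (-y ^ 2 / 2) : ℝ) : ℂ) * cexp (((y * x : ℝ) : ℂ) * I)) *
        ((kb β u : ℂ) * cexp (I * ((u * y : ℝ) : ℂ))) := by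
      intro u
      rw [hF]
      simp only
      have : cexp (((y * (x + u) : ℝ) : ℂ) * I) =
          cexp (((y * x : ℝ) : ℂ) * I) * cexp (I * ((u * y : ℝ) : ℂ)) := by
        rw [← Complex.exp_add]; congr 1; push_cast; ring
      rw [this]
      push_cast
      ring
    simp_rw [h1]
    rw [integral_const_mul]
    have h2 : ∫ u, (kb β u : ℂ) * cexp (I * ((u * y : ℝ) : ℂ)) =
        ((Real.sinc (β * y / 2) ^ 2 : ℝ) : ℂ) := by
      rw [← TH800.MS.kb_exp hβ, intervalIntegral.integral_of_le (by linarith)]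
      symm
      apply setIntegral_eq_integral_of_forall_compl_eq_zero
      intro u hu
      rw [TH800.MS.kb_zero hβ, ofReal_zero, zero_mul]
      by_contra hcon
      rw [not_le, abs_lt] at hcon
      exact hu ⟨hcon.1, hcon.2.le⟩
    rw [h2]
    unfold om Om
    push_cast
    have hb : (β : ℂ) ≠ 0 := by exact_mod_cast hβ.ne'
    have hp : (Real.pi : ℂ) ≠ 0 := by exact_mod_cast hpi.ne'
    field_simp
  have e2 : ∀ u, ∫ y, F y u = ((2 * Real.pi * (kb β u * gau0 (u - (-x))) : ℝ) : ℂ) := by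
    intro u
    have h1 : ∀ y, F y u = (kb β u : ℂ) * ((TC.om 0 1 y : ℂ) *
        cexp (((y * (x + u) : ℝ) : ℂ) * I)) := by
      intro y
      rw [hF]
      simp only
      have : TC.om 0 1 y = Real.exp (-y ^ 2 / 2) := by
        unfold TC.om; simp
      rw [this]
      push_cast
      ring
    simp_rw [h1]
    rw [integral_const_mul, (TC.gau 0 1 (x + u) one_pos).2, zero_mul, ofReal_zero, zero_mul,
      Complex.exp_zero, mul_one, ← ofReal_mul]
    congr 1
    unfold gau0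
    have hs : Real.sqrt (2 * Real.pi) ^ 2 = 2 * Real.pi := Real.sq_sqrt (by positivity)
    have hs0 := TH800.MS.s2pi
    have e3 : Real.exp (-(1 ^ 2 * (x + u) ^ 2) / 2) = Real.exp (-(u - -x) ^ 2 / 2) := by
      congr 1; ring
    rw [e3, mul_one]
    field_simp
    rw [hs]
    ring
  simp_rw [e1, e2] at hswap
  have hr : ∫ y : ℝ, ((2 * Real.pi * (kb β y * gau0 (y - -x)) : ℝ) : ℂ) =
      ((2 * Real.pi * be β x : ℝ) : ℂ) := by
    rw [integral_complex_ofReal, integral_const_mul, ← TH800.MS.be_eq hβ, TH800.MS.be_even hβ]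
  rw [integral_const_mul, hr] at hswap
  have h3 : ((2 * Real.pi / β : ℝ) : ℂ) * ((Of β x : ℝ) : ℂ) =
      ((2 * Real.pi * be β x : ℝ) : ℂ) := by
    rw [← ofReal_mul]
    congr 1
    unfold Of
    field_simp
  rw [← h3] at hswap
  refine mul_left_cancel₀ ?_ hswap
  rw [ofReal_ne_zero]
  positivity

/-- window average -/
noncomputable def av (β t0 : ℝ) (f : Al) : ℂ :=
  ∑ e ∈ f.coeff.support, (f.coeff e : ℂ) * (Of β (fr e) : ℂ) *
    cexp (((t0 * fr e : ℝ) : ℂ) * I)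

lemma om_shift_int {β : ℝ} (hβ : 0 < β) (t0 x : ℝ) :
    Integrable (fun t => ((om β (t - t0) : ℝ) : ℂ) * cexp (((t * x : ℝ) : ℂ) * I)) := by
  have h1 : Integrable (fun t => om β (t - t0)) := (om_int hβ).comp_sub_right t0
  refine h1.mono' ?_ (Eventually.of_forall fun t => ?_)
  · apply Continuous.aestronglyMeasurable
    have : Continuous (fun t => om β (t - t0)) := (om_cont β).comp (by fun_prop)
    fun_prop
  · rw [norm_mul, Complex.norm_exp_ofReal_mul_I, mul_one, Complex.norm_real,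
      Real.norm_of_nonneg (om_nonneg hβ _)]

lemma om_shift {β : ℝ} (hβ : 0 < β) (t0 x : ℝ) :
    ∫ t, ((om β (t - t0) : ℝ) : ℂ) * cexp (((t * x : ℝ) : ℂ) * I) =
      (Of β x : ℂ) * cexp (((t0 * x : ℝ) : ℂ) * I) := by
  have h := integral_sub_right_eq_self (fun y => ((om β y : ℝ) : ℂ) *
    cexp ((((y + t0) * x : ℝ) : ℂ) * I)) (μ := volume) t0
  simp only [sub_add_cancel] at h
  rw [h]
  have h2 : ∀ y : ℝ, ((om β y : ℝ) : ℂ) * cexp ((((y + t0) * x : ℝ) : ℂ) * I) =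
      cexp (((t0 * x : ℝ) : ℂ) * I) * (((om β y : ℝ) : ℂ) * cexp (((y * x : ℝ) : ℂ) * I)) := by
    intro y
    have : cexp ((((y + t0) * x : ℝ) : ℂ) * I) =
        cexp (((t0 * x : ℝ) : ℂ) * I) * cexp (((y * x : ℝ) : ℂ) * I) := by
      rw [← Complex.exp_add]; congr 1; push_cast; ring
    rw [this]; ring
  simp_rw [h2]
  rw [integral_const_mul, om_ft hβ, mul_comm]

theorem av_eq {β : ℝ} (hβ : 0 < β) (t0 : ℝ) (f : Al) :
    ∫ t, ((om β (t - t0) : ℝ) : ℂ) * ev t f = av β t0 f := by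
  unfold av
  simp_rw [ev_eq, Finset.mul_sum]
  rw [integral_finsetSum]
  · refine Finset.sum_congr rfl fun e _ => ?_
    have : ∀ t : ℝ, ((om β (t - t0) : ℝ) : ℂ) * ((f.coeff e : ℂ) *
        cexp (((t * fr e : ℝ) : ℂ) * I)) = (f.coeff e : ℂ) * (((om β (t - t0) : ℝ) : ℂ) *
        cexp (((t * fr e : ℝ) : ℂ) * I)) := fun t => by ring
    simp_rw [this]
    rw [integral_const_mul, om_shift hβ, mul_assoc]
  · intro e _
    have : ∀ t : ℝ, ((om β (t - t0) : ℝ) : ℂ) * ((f.coeff e : ℂ) *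
        cexp (((t * fr e : ℝ) : ℂ) * I)) = (f.coeff e : ℂ) * (((om β (t - t0) : ℝ) : ℂ) *
        cexp (((t * fr e : ℝ) : ℂ) * I)) := fun t => by ring
    simp_rw [this]
    exact (om_shift_int hβ t0 (fr e)).const_mul _

lemma av_cont (β : ℝ) (f : Al) : Continuous (fun t0 => av β t0 f) := by
  unfold av
  fun_prop

lemma Dom.nm_le {S : Finset ℕ} {v : ℕ → ℝ} (hv : ∀ p, 0 ≤ v p) {k : ℕ} {C V : ℝ} {f : Al}
    (hC : 0 ≤ C) (h : Dom S v k C f.coeff) (hV : ∑ p ∈ S, v p ≤ V) :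
    nm f ≤ C * (1 + 2 * V) ^ k := by
  unfold nm
  calc ∑ e ∈ f.coeff.support, |f.coeff e| ≤
      ∑ e ∈ f.coeff.support, C * ((1 + VV S v) ^ k).coeff e := by
        refine Finset.sum_le_sum fun e he => ?_
        obtain ⟨h1, h2⟩ := h e
        obtain ⟨h3, h4⟩ := h2 (Finsupp.mem_support_iff.1 he)
        exact h1.trans (mul_le_mul_of_nonneg_left (le_coeff hv k e h3 h4) hC)
    _ = C * ∑ e ∈ f.coeff.support, ((1 + VV S v) ^ k).coeff e := by rw [Finset.mul_sum]
    _ ≤ _ := mul_le_mul_of_nonneg_left (total_le hv hV k _) hC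

/-- **variance of the window averages** -/
theorem var {S : Finset ℕ} {v : ℕ → ℝ} (hS : ∀ p ∈ S, p.Prime) (hv : ∀ p, 0 ≤ v p) {k : ℕ}
    {C A μ V h β T : ℝ} {f : Al} (hC : 0 ≤ C) (hD : Dom S v k C f.coeff)
    (hA : ∑ p ∈ S, v p ^ 2 ≤ A)
    (hμ : ∀ x : ℝ, ∑ p ∈ S.filter (fun p : ℕ => |Real.log p - x| ≤ 2 * β), v p ^ 2 ≤ μ)
    (hV : ∑ p ∈ S, v p ≤ V) (hh : ∀ e, f.coeff e ≠ 0 → min (hp e) (hn e) ≤ h)
    (hβ : 0 < β) (hT : 0 < T) :
    ∫ t0 in T..(2 * T), ‖av β t0 f - ((f.coeff 0 * Of β 0 : ℝ) : ℂ)‖ ^ 2 ≤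
      8 * T * (C ^ 2 * (2 * k * μ * (1 + 2 * A) ^ k) + (C * (1 + 2 * V) ^ k) ^ 2 *
        Real.exp (-(T ^ 2 * Real.exp (-(2 * h + 4 * β)) ^ 2) / 2)) +
      2 * T * (C * (1 + 2 * V) ^ k * Real.exp (-β ^ 2 / 2)) ^ 2 := by
  classical
  set N := C * (1 + 2 * V) ^ k with hN
  have hnm := Dom.nm_le hv hC hD hV
  rw [← hN] at hnm
  have hN0 : 0 ≤ N := (nm_nonneg f).trans hnm
  set U := f.coeff.support with hU
  set U1 := U.filter (fun e => e ≠ 0 ∧ |fr e| ≤ 2 * β) with hU1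
  set U2 := U.filter (fun e => e ≠ 0 ∧ ¬ |fr e| ≤ 2 * β) with hU2
  set c : G → ℂ := fun e => (f.coeff e : ℂ) * (Of β (fr e) : ℂ) with hc
  have hcn : ∀ e, ‖c e‖ = |f.coeff e| * Of β (fr e) := by
    intro e
    rw [hc]
    simp only [norm_mul, Complex.norm_real, Real.norm_eq_abs]
    rw [abs_of_nonneg (Of_nonneg hβ _)]
  set g1 : ℝ → ℂ := fun t => ∑ e ∈ U1, c e * cexp (((t * fr e : ℝ) : ℂ) * I) with hg1
  set g2 : ℝ → ℂ := fun t => ∑ e ∈ U2, c e * cexp (((t * fr e : ℝ) : ℂ) * I) with hg2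
  have hsplit : ∀ t, av β t f - ((f.coeff 0 * Of β 0 : ℝ) : ℂ) = g1 t + g2 t := by
    intro t
    have h1 : av β t f = ∑ e ∈ U, c e * cexp (((t * fr e : ℝ) : ℂ) * I) := rfl
    have h2 : U1 = (U.filter (fun e => e ≠ 0)).filter (fun e => |fr e| ≤ 2 * β) := by
      rw [hU1, Finset.filter_filter]
    have h3 : U2 = (U.filter (fun e => e ≠ 0)).filter (fun e => ¬ |fr e| ≤ 2 * β) := by
      rw [hU2, Finset.filter_filter]
    rw [hg1, hg2]
    simp only
    rw [h2, h3, Finset.sum_filter_add_sum_filter_not, h1,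
      ← Finset.sum_filter_add_sum_filter_not U (fun e => e ≠ 0)]
    have h4 : ∑ e ∈ U.filter (fun e => ¬ e ≠ 0), c e * cexp (((t * fr e : ℝ) : ℂ) * I) =
        ((f.coeff 0 * Of β 0 : ℝ) : ℂ) := by
      have h5 : ∀ e ∈ U.filter (fun e => ¬ e ≠ 0), c e * cexp (((t * fr e : ℝ) : ℂ) * I) =
          if e = 0 then ((f.coeff 0 * Of β 0 : ℝ) : ℂ) else 0 := by
        intro e he
        rw [Finset.mem_filter, not_not] at he
        rw [if_pos he.2, he.2, hc]
        simp only [fr_zero, mul_zero, ofReal_zero, zero_mul, Complex.exp_zero, mul_one]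
        push_cast
        rfl
      rw [Finset.sum_congr rfl h5]
      by_cases h0 : (0 : G) ∈ U
      · have : U.filter (fun e => ¬ e ≠ 0) = {0} := by
          ext e
          rw [Finset.mem_filter, not_not, Finset.mem_singleton]
          constructor
          · exact fun h => h.2
          · rintro rfl; exact ⟨h0, rfl⟩
        rw [this, Finset.sum_singleton, if_pos rfl]
      · have : U.filter (fun e => ¬ e ≠ 0) = ∅ := by
          ext e
          rw [Finset.mem_filter, not_not]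
          constructor
          · rintro ⟨h, rfl⟩; exact absurd h h0
          · intro h; simp at h
        rw [this, Finset.sum_empty]
        rw [hU, Finsupp.notMem_support_iff] at h0
        rw [h0]; simp
    rw [h4]
    ring
  -- the first part
  have hsep : ∀ i ∈ U1, ∀ j ∈ U1, i ≠ j → Real.exp (-(2 * h + 4 * β)) ≤ |fr i - fr j| := by
    intro i hi j hj hij
    have key : ∀ i ∈ U1, (∀ p ∈ i.support, p.Prime) ∧ hp i ≤ h + 2 * β ∧ hn i ≤ h + 2 * β := by
      intro i hi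
      rw [hU1, Finset.mem_filter] at hi
      obtain ⟨h1, h2, h3⟩ := hi
      have h0 := Finsupp.mem_support_iff.1 h1
      have h4 := hh i h0
      rw [fr_hp_hn, abs_le] at h3
      refine ⟨fun p hp => hS p (((hD i).2 h0).2 hp), ?_, ?_⟩
      · rcases min_le_iff.1 h4 with h5 | h5 <;> linarith
      · rcases min_le_iff.1 h4 with h5 | h5 <;> linarith
    obtain ⟨a1, a2, a3⟩ := key i hi
    obtain ⟨b1, b2, b3⟩ := key j hj
    exact sep a1 b1 hij (by linarith) (by linarith)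
  have hI1 := TH800.MS.gm_sep U1 c fr T (Real.exp (-(2 * h + 4 * β))) hT (Real.exp_pos _) hsep
  have hs1 : ∑ e ∈ U1, ‖c e‖ ^ 2 ≤ C ^ 2 * (2 * k * μ * (1 + 2 * A) ^ k) := by
    refine le_trans ?_ (Dom.near (C := C) hv hD hA hμ U)
    refine Finset.sum_le_sum fun e _ => ?_
    rw [hcn, mul_pow, sq_abs]
    have h1 := Of_le_one hβ (fr e)
    have h2 := Of_nonneg hβ (fr e)
    exact mul_le_of_le_one_right (sq_nonneg _) (pow_le_one₀ h2 h1)
  have hs2 : ∑ e ∈ U1, ‖c e‖ ≤ N := by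
    refine le_trans ?_ hnm
    unfold nm
    calc ∑ e ∈ U1, ‖c e‖ ≤ ∑ e ∈ U1, |f.coeff e| := by
          refine Finset.sum_le_sum fun e _ => ?_
          rw [hcn]
          exact mul_le_of_le_one_right (abs_nonneg _) (Of_le_one hβ (fr e))
      _ ≤ _ := Finset.sum_le_sum_of_subset_of_nonneg (Finset.filter_subset _ _)
          (fun _ _ _ => abs_nonneg _)
  have hs2' : 0 ≤ ∑ e ∈ U1, ‖c e‖ := Finset.sum_nonneg fun _ _ => norm_nonneg _
  have hI1' : ∫ t in T..(2 * T), ‖g1 t‖ ^ 2 ≤ 4 * T * (C ^ 2 * (2 * k * μ * (1 + 2 * A) ^ k) +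
      N ^ 2 * Real.exp (-(T ^ 2 * Real.exp (-(2 * h + 4 * β)) ^ 2) / 2)) := by
    refine hI1.trans ?_
    gcongr
  -- the second part
  have hb2 : ∀ t, ‖g2 t‖ ≤ N * Real.exp (-β ^ 2 / 2) := by
    intro t
    rw [hg2]
    simp only
    refine (norm_sum_le _ _).trans ?_
    calc ∑ e ∈ U2, ‖c e * cexp (((t * fr e : ℝ) : ℂ) * I)‖ ≤
        ∑ e ∈ U2, |f.coeff e| * Real.exp (-β ^ 2 / 2) := by
          refine Finset.sum_le_sum fun e he => ?_
          rw [norm_mul, Complex.norm_exp_ofReal_mul_I, mul_one, hcn]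
          rw [hU2, Finset.mem_filter, not_le] at he
          exact mul_le_mul_of_nonneg_left (Of_far2 hβ he.2.2.le) (abs_nonneg _)
      _ = (∑ e ∈ U2, |f.coeff e|) * Real.exp (-β ^ 2 / 2) := by rw [Finset.sum_mul]
      _ ≤ nm f * Real.exp (-β ^ 2 / 2) := by
          apply mul_le_mul_of_nonneg_right _ (Real.exp_pos _).le
          exact Finset.sum_le_sum_of_subset_of_nonneg (Finset.filter_subset _ _)
            (fun _ _ _ => abs_nonneg _)
      _ ≤ _ := mul_le_mul_of_nonneg_right hnm (Real.exp_pos _).le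
  have hg1c : Continuous g1 := by rw [hg1]; fun_prop
  have hg2c : Continuous g2 := by rw [hg2]; fun_prop
  calc ∫ t0 in T..(2 * T), ‖av β t0 f - ((f.coeff 0 * Of β 0 : ℝ) : ℂ)‖ ^ 2 ≤
      ∫ t0 in T..(2 * T), (2 * ‖g1 t0‖ ^ 2 + 2 * (N * Real.exp (-β ^ 2 / 2)) ^ 2) := by
        refine intervalIntegral.integral_mono_on (by linarith) ?_ ?_ ?_
        · apply Continuous.intervalIntegrable
          exact ((av_cont β f).sub continuous_const).norm.pow 2
        · apply Continuous.intervalIntegrable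
          fun_prop
        · intro t _
          rw [hsplit t]
          have h1 := norm_add_le (g1 t) (g2 t)
          have h2 := hb2 t
          have h3 := norm_nonneg (g1 t + g2 t)
          have h4 := norm_nonneg (g1 t)
          have h5 := norm_nonneg (g2 t)
          have h6 : ‖g1 t + g2 t‖ ^ 2 ≤ (‖g1 t‖ + N * Real.exp (-β ^ 2 / 2)) ^ 2 :=
            pow_le_pow_left₀ h3 (h1.trans (by linarith)) 2
          nlinarith [sq_nonneg (‖g1 t‖ - N * Real.exp (-β ^ 2 / 2))]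
    _ = 2 * (∫ t0 in T..(2 * T), ‖g1 t0‖ ^ 2) + 2 * T * (N * Real.exp (-β ^ 2 / 2)) ^ 2 := by
        rw [intervalIntegral.integral_add, intervalIntegral.integral_const_mul,
          intervalIntegral.integral_const, smul_eq_mul]
        · ring
        · apply Continuous.intervalIntegrable
          fun_prop
        · simp
    _ ≤ 2 * (4 * T * (C ^ 2 * (2 * k * μ * (1 + 2 * A) ^ k) +
      N ^ 2 * Real.exp (-(T ^ 2 * Real.exp (-(2 * h + 4 * β)) ^ 2) / 2))) +
        2 * T * (N * Real.exp (-β ^ 2 / 2)) ^ 2 := by gcongr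
    _ = _ := by ring

end Pool.Agent.R321.FA
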