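import Pool.Agent.R321.FA3
import Pool.Agent.R321.FA5
import Pool.Agent.H297R2.LG.Mom0
import Pool.Agent.H851R2.LG.Sets
import Pool.Agent.H613R2.LG.Comb0

/-! The polynomial `EE` as a frequency polynomial. -/

open Finset Complex

namespace Pool.Agent.R321.FA

open LG (prs fam ae yp nA EE Cn)
open SP (Par Eb PS chi)

/-- indicator vector of a set -/
noncomputable def iv (A : Finset ℕ) : G := ∑ p ∈ A, ds p

lemma iv_apply (A : Finset ℕ) (p : ℕ) : iv A p = if p ∈ A then 1 else 0 := by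
  classical
  unfold iv ds
  rw [Finsupp.finsetSum_apply]
  simp only [Finsupp.single_apply]
  rw [Finset.sum_ite_eq']

lemma iv_support (A : Finset ℕ) : (iv A).support = A := by
  ext p
  rw [Finsupp.mem_support_iff, iv_apply]
  split_ifs with h <;> simp [h]

lemma fr_iv (A : Finset ℕ) : fr (iv A) = ∑ p ∈ A, Real.log p := by
  rw [fr_eq (iv A) A (iv_support A).le]
  refine Finset.sum_congr rfl fun p hp => ?_
  rw [iv_apply, if_pos hp]; simp

/-- the vector of a pair of sets -/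
noncomputable def vv (q : Finset ℕ × Finset ℕ) : G := iv q.2 - iv q.1

lemma vv_apply (q : Finset ℕ × Finset ℕ) (p : ℕ) :
    vv q p = (if p ∈ q.2 then 1 else 0) - (if p ∈ q.1 then 1 else 0) := by
  unfold vv
  rw [Finsupp.sub_apply, iv_apply, iv_apply]

lemma vv_inj {q q' : Finset ℕ × Finset ℕ} (h1 : Disjoint q.1 q.2) (h2 : Disjoint q'.1 q'.2)
    (h : vv q = vv q') : q = q' := by
  rw [Finset.disjoint_left] at h1 h2
  have key : ∀ p, vv q p = vv q' p := fun p => by rw [h]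
  simp only [vv_apply] at key
  apply Prod.ext
  · ext p
    have := key p
    by_cases a : p ∈ q.1 <;> by_cases b : p ∈ q.2 <;> by_cases c : p ∈ q'.1 <;>
      by_cases d : p ∈ q'.2 <;> simp_all
  · ext p
    have := key p
    by_cases a : p ∈ q.1 <;> by_cases b : p ∈ q.2 <;> by_cases c : p ∈ q'.1 <;>
      by_cases d : p ∈ q'.2 <;> simp_all

lemma vv_supp {q : Finset ℕ × Finset ℕ} (h1 : Disjoint q.1 q.2) :
    (vv q).support = q.1 ∪ q.2 := by
  rw [Finset.disjoint_left] at h1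
  ext p
  rw [Finsupp.mem_support_iff, vv_apply, Finset.mem_union]
  by_cases a : p ∈ q.1 <;> by_cases b : p ∈ q.2 <;> simp_all

lemma vv_natAbs {q : Finset ℕ × Finset ℕ} (h1 : Disjoint q.1 q.2) {p : ℕ}
    (hp : p ∈ q.1 ∪ q.2) : (vv q p).natAbs = 1 := by
  rw [Finset.disjoint_left] at h1
  rw [Finset.mem_union] at hp
  rw [vv_apply]
  by_cases a : p ∈ q.1 <;> by_cases b : p ∈ q.2 <;> simp_all

lemma vv_len {q : Finset ℕ × Finset ℕ} (h1 : Disjoint q.1 q.2) :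
    len (vv q) = q.1.card + q.2.card := by
  unfold len
  rw [vv_supp h1, ← Finset.card_union_of_disjoint h1, Finset.card_eq_sum_ones]
  exact Finset.sum_congr rfl fun p hp => vv_natAbs h1 hp

lemma vv_mw (v : ℕ → ℝ) {q : Finset ℕ × Finset ℕ} (h1 : Disjoint q.1 q.2) :
    mw v (vv q) = (∏ p ∈ q.1, v p) * ∏ p ∈ q.2, v p := by
  unfold mw
  rw [vv_supp h1, ← Finset.prod_union h1]
  exact Finset.prod_congr rfl fun p hp => by rw [vv_natAbs h1 hp, pow_one]

lemma vv_hp {q : Finset ℕ × Finset ℕ} (h1 : Disjoint q.1 q.2) :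
    hp (vv q) = ∑ p ∈ q.2, Real.log p := by
  rw [hp_eq (vv q) (q.1 ∪ q.2) (vv_supp h1).le, Finset.sum_union h1]
  rw [Finset.disjoint_left] at h1
  have e1 : ∑ p ∈ q.1, ((vv q p).toNat : ℝ) * Real.log p = 0 := by
    apply Finset.sum_eq_zero
    intro p hp
    rw [vv_apply, if_neg (h1 hp), if_pos hp]
    simp
  rw [e1, zero_add]
  refine Finset.sum_congr rfl fun p hp => ?_
  rw [vv_apply, if_pos hp, if_neg (fun h => h1 h hp)]
  simp

lemma vv_neg (q : Finset ℕ × Finset ℕ) : -vv q = vv (q.2, q.1) := by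
  unfold vv; simp

lemma vv_hn {q : Finset ℕ × Finset ℕ} (h1 : Disjoint q.1 q.2) :
    hn (vv q) = ∑ p ∈ q.1, Real.log p := by
  unfold hn
  rw [vv_neg, vv_hp h1.symm]

/-- coefficient of a pair -/
noncomputable def aq (P : Par) (r : ℝ) (F : ℕ → ℝ) (T : ℝ) (q : Finset ℕ × Finset ℕ) : ℝ :=
  ae P r F T q.1 * ae P r F T q.2

noncomputable def eE (P : Par) (B0 : ℕ) (r : ℝ) (F : ℕ → ℝ) (T : ℝ) : Al :=
  ∑ q ∈ prs P B0 T, AddMonoidAlgebra.single (vv q) (aq P r F T q)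

noncomputable def eEb (P : Par) (B0 : ℕ) (r : ℝ) (F : ℕ → ℝ) (T : ℝ) : Al :=
  ∑ q ∈ prs P B0 T, AddMonoidAlgebra.single (-vv q) (aq P r F T q)

/-- the weight `|E|²` -/
noncomputable def wE (P : Par) (B0 : ℕ) (r : ℝ) (F : ℕ → ℝ) (T : ℝ) : Al :=
  eE P B0 r F T * eEb P B0 r F T

lemma mem_prs {P : Par} {B0 : ℕ} {T : ℝ} {q : Finset ℕ × Finset ℕ} :
    q ∈ prs P B0 T ↔ q.1 ∈ fam P B0 T ∧ q.2 ∈ fam P B0 T ∧ Disjoint q.1 q.2 := by
  unfold prs
  rw [Finset.mem_filter, Finset.mem_product]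
  tauto

lemma fr_vv {P : Par} {B0 : ℕ} {T : ℝ} {q : Finset ℕ × Finset ℕ} (hq : q ∈ prs P B0 T) :
    fr (vv q) = Real.log (nA q.2) - Real.log (nA q.1) := by
  obtain ⟨h1, h2, h3⟩ := mem_prs.1 hq
  have e : fr (vv q) = fr (iv q.2) - fr (iv q.1) := by
    unfold vv
    rw [sub_eq_add_neg, fr_add, fr_neg]; ring
  rw [e, fr_iv, fr_iv, LG.MomA.log_nA (LG.MomA.mem_fam.1 h1).1,
    LG.MomA.log_nA (LG.MomA.mem_fam.1 h2).1]

lemma ev_eE (P : Par) (B0 : ℕ) (r : ℝ) (F : ℕ → ℝ) (T t : ℝ) :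
    ev t (eE P B0 r F T) = EE P B0 r F T t := by
  unfold eE EE
  rw [map_sum]
  refine Finset.sum_congr rfl fun q hq => ?_
  rw [ev_single, fr_vv hq, mul_comm I]
  rfl

lemma ev_eEb (P : Par) (B0 : ℕ) (r : ℝ) (F : ℕ → ℝ) (T t : ℝ) :
    ev t (eEb P B0 r F T) = (starRingEnd ℂ) (EE P B0 r F T t) := by
  unfold eEb EE
  rw [map_sum, map_sum]
  refine Finset.sum_congr rfl fun q hq => ?_
  rw [ev_single, fr_neg, fr_vv hq, map_mul, conj_ofReal, ← Complex.exp_conj, map_mul, conj_I,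
    conj_ofReal]
  congr 2
  push_cast
  ring

lemma ev_wE (P : Par) (B0 : ℕ) (r : ℝ) (F : ℕ → ℝ) (T t : ℝ) :
    ev t (wE P B0 r F T) = ((‖EE P B0 r F T t‖ ^ 2 : ℝ) : ℂ) := by
  unfold wE
  rw [map_mul, ev_eE, ev_eEb, Complex.mul_conj']
  push_cast
  rfl

lemma eE_coeff (P : Par) (B0 : ℕ) (r : ℝ) (F : ℕ → ℝ) (T : ℝ) (e : G) :
    (eE P B0 r F T).coeff e = 0 ∨ ∃ q ∈ prs P B0 T, vv q = e ∧
      (eE P B0 r F T).coeff e = aq P r F T q := by
  classical
  unfold eE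
  rw [AddMonoidAlgebra.coeff_sum, Finsupp.finsetSum_apply]
  simp only [AddMonoidAlgebra.coeff_single, Finsupp.single_apply]
  by_cases h : ∃ q ∈ prs P B0 T, vv q = e
  · obtain ⟨q, hq, he⟩ := h
    right
    refine ⟨q, hq, he, ?_⟩
    rw [Finset.sum_eq_single_of_mem q hq, if_pos he]
    intro q' hq' hne
    rw [if_neg]
    intro he'
    exact hne (vv_inj (mem_prs.1 hq').2.2 (mem_prs.1 hq).2.2 (he'.trans he.symm))
  · left
    apply Finset.sum_eq_zero
    intro q hq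
    rw [if_neg]
    intro he
    exact h ⟨q, hq, he⟩

lemma prs_swap {P : Par} {B0 : ℕ} {T : ℝ} {q : Finset ℕ × Finset ℕ} (hq : q ∈ prs P B0 T) :
    (q.2, q.1) ∈ prs P B0 T := by
  obtain ⟨h1, h2, h3⟩ := mem_prs.1 hq
  exact mem_prs.2 ⟨h2, h1, h3.symm⟩

lemma eEb_eq (P : Par) (B0 : ℕ) (r : ℝ) (F : ℕ → ℝ) (T : ℝ) :
    eEb P B0 r F T = eE P B0 r F T := by
  unfold eE eEb
  refine Finset.sum_bij' (fun q _ => (q.2, q.1)) (fun q _ => (q.2, q.1)) (fun q hq => prs_swap hq)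
    (fun q hq => prs_swap hq) (fun q _ => rfl) (fun q _ => rfl) (fun q _ => ?_)
  rw [vv_neg]
  congr 1
  unfold aq
  rw [mul_comm]

/-- domination of the coefficients of `E` -/
lemma eE_dom {P : Par} {B0 : ℕ} {r : ℝ} {F : ℕ → ℝ} {T : ℝ} {S : Finset ℕ} {v : ℕ → ℝ} {KF : ℝ}
    (hKF : ∀ n ≤ B0, |F n| ≤ KF) (hKF0 : 0 ≤ KF) (hv : ∀ p, 0 ≤ v p)
    (hy : ∀ p ∈ PS P T, |yp P r T p| ≤ v p) (hS : PS P T ⊆ S) :
    Dom S v (2 * B0) (KF ^ 2) (eE P B0 r F T).coeff := by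
  have hcard : ∀ A ∈ fam P B0 T, A.card ≤ B0 := by
    intro A hA
    obtain ⟨h1, h2⟩ := LG.MomA.mem_fam.1 hA
    refine le_trans ?_ h2
    unfold LG.MomA.en
    rw [Finset.card_eq_sum_ones]
    refine Finset.sum_le_sum fun p hp => ?_
    have := (LG.MomA.prime_of_mem (h1 hp)).2
    omega
  have hae : ∀ A ∈ fam P B0 T, |ae P r F T A| ≤ KF * ∏ p ∈ A, v p := by
    intro A hA
    obtain ⟨h1, h2⟩ := LG.MomA.mem_fam.1 hA
    unfold LG.ae
    rw [abs_mul, Finset.abs_prod]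
    apply mul_le_mul (hKF _ h2) _ (Finset.prod_nonneg fun _ _ => abs_nonneg _) hKF0
    exact Finset.prod_le_prod (fun _ _ => abs_nonneg _) fun p hp => hy p (h1 hp)
  intro e
  rcases eE_coeff P B0 r F T e with h | ⟨q, hq, rfl, h⟩
  · rw [h, abs_zero]
    exact ⟨mul_nonneg (sq_nonneg _) (mw_nonneg hv _), fun h' => absurd rfl h'⟩
  · obtain ⟨h1, h2, h3⟩ := mem_prs.1 hq
    rw [h]
    constructor
    · unfold aq
      rw [abs_mul, vv_mw v h3]
      calc |ae P r F T q.1| * |ae P r F T q.2| ≤ (KF * ∏ p ∈ q.1, v p) * (KF * ∏ p ∈ q.2, v p) :=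
            mul_le_mul (hae _ h1) (hae _ h2) (abs_nonneg _)
              (mul_nonneg hKF0 (Finset.prod_nonneg fun _ _ => hv _))
        _ = _ := by ring
    · intro _
      constructor
      · rw [vv_len h3]
        have := hcard _ h1
        have := hcard _ h2
        omega
      · rw [vv_supp h3]
        exact Finset.union_subset ((LG.MomA.mem_fam.1 h1).1.trans hS)
          ((LG.MomA.mem_fam.1 h2).1.trans hS)

/-- heights of `E` -/
lemma eE_ht {P : Par} {B0 B1 : ℕ} {r : ℝ} {F : ℕ → ℝ} {T : ℝ} (hB : P.B = 2 * B0) (hT : 10 ≤ T)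
    (hF : ∀ n, B1 < n → F n = 0) (e : G) (he : (eE P B0 r F T).coeff e ≠ 0) :
    hp e ≤ B1 * ((1 - P.κ) * Real.log T / (2 * B0)) ∧
    hn e ≤ B1 * ((1 - P.κ) * Real.log T / (2 * B0)) := by
  have hL : 0 < Real.log T := Real.log_pos (by linarith)
  have hκ1 := P.hκ1
  have hw : 0 ≤ (1 - P.κ) * Real.log T / (2 * B0) := by
    apply div_nonneg (mul_nonneg (by linarith) hL.le) (by positivity)
  have key : ∀ A : Finset ℕ, ae P r F T A ≠ 0 →
      ∑ p ∈ A, Real.log p ≤ B1 * ((1 - P.κ) * Real.log T / (2 * B0)) := by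
    intro A hA
    have h1 : F (∑ p ∈ A, Eb P T p) ≠ 0 := by
      unfold LG.ae at hA
      exact left_ne_zero_of_mul hA
    have h2 : ∑ p ∈ A, Eb P T p ≤ B1 := by
      by_contra h
      exact h1 (hF _ (not_le.1 h))
    calc ∑ p ∈ A, Real.log p ≤ ∑ p ∈ A, (Eb P T p : ℝ) * ((1 - P.κ) * Real.log T / (2 * B0)) :=
          Finset.sum_le_sum fun p _ => LG.log_le_Eb P B0 hB T hT p
      _ = ((∑ p ∈ A, Eb P T p : ℕ) : ℝ) * ((1 - P.κ) * Real.log T / (2 * B0)) := by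
          rw [← Finset.sum_mul]; push_cast; rfl
      _ ≤ _ := by
          apply mul_le_mul_of_nonneg_right _ hw
          exact_mod_cast h2
  rcases eE_coeff P B0 r F T e with h | ⟨q, hq, rfl, h⟩
  · exact absurd h he
  · obtain ⟨h1, h2, h3⟩ := mem_prs.1 hq
    rw [h] at he
    unfold aq at he
    rw [vv_hp h3, vv_hn h3]
    exact ⟨key _ (right_ne_zero_of_mul he), key _ (left_ne_zero_of_mul he)⟩

/-- heights of products -/
lemma mul_ht {f g : Al} {a b a' b' : ℝ}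
    (hf : ∀ e, f.coeff e ≠ 0 → hp e ≤ a ∧ hn e ≤ b) (hg : ∀ e, g.coeff e ≠ 0 → hp e ≤ a' ∧ hn e ≤ b')
    (e : G) (he : (f * g).coeff e ≠ 0) : hp e ≤ a + a' ∧ hn e ≤ b + b' := by
  classical
  rw [AddMonoidAlgebra.coeff_mul] at he
  obtain ⟨x, hx, h1⟩ := Finset.exists_ne_zero_of_sum_ne_zero he
  obtain ⟨y, hy, h2⟩ := Finset.exists_ne_zero_of_sum_ne_zero h1
  simp only at h2
  split_ifs at h2 with h3
  · obtain ⟨p1, p2⟩ := hf x (left_ne_zero_of_mul h2)
    obtain ⟨p3, p4⟩ := hg y (right_ne_zero_of_mul h2)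
    subst h3
    exact ⟨(hp_add_le x y).trans (by linarith), (hn_add_le x y).trans (by linarith)⟩
  · exact absurd rfl h2

/-- heights of `w` when `F` is supported below `B0/2` -/
lemma wE_ht {P : Par} {B0 B1 : ℕ} {r : ℝ} {F : ℕ → ℝ} {T : ℝ} (hB : P.B = 2 * B0) (hT : 10 ≤ T)
    (hB1 : 2 * B1 ≤ B0) (hF : ∀ n, B1 < n → F n = 0) (e : G)
    (he : (wE P B0 r F T).coeff e ≠ 0) :
    hp e ≤ (1 - P.κ) / 2 * Real.log T ∧ hn e ≤ (1 - P.κ) / 2 * Real.log T := by
  have hL : 0 < Real.log T := Real.log_pos (by linarith)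
  have hκ1 := P.hκ1
  have hPB := P.hB
  have hB0 : 0 < B0 := by omega
  have hB0' : (0 : ℝ) < B0 := by exact_mod_cast hB0
  have h1 := eE_ht (r := r) hB hT hF
  unfold wE at he
  rw [eEb_eq] at he
  have h2 := mul_ht h1 h1 e he
  have h3 : (B1 : ℝ) * ((1 - P.κ) * Real.log T / (2 * B0)) +
      (B1 : ℝ) * ((1 - P.κ) * Real.log T / (2 * B0)) ≤ (1 - P.κ) / 2 * Real.log T := by
    have h4 : (2 * B1 : ℝ) ≤ B0 := by exact_mod_cast hB1
    have h5 : 0 ≤ (1 - P.κ) * Real.log T / (2 * B0) := by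
      apply div_nonneg (mul_nonneg (by linarith) hL.le) (by positivity)
    calc _ = (2 * B1 : ℝ) * ((1 - P.κ) * Real.log T / (2 * B0)) := by ring
      _ ≤ (B0 : ℝ) * ((1 - P.κ) * Real.log T / (2 * B0)) := mul_le_mul_of_nonneg_right h4 h5
      _ = _ := by field_simp
  exact ⟨h2.1.trans h3, h2.2.trans h3⟩

/-! ### the coefficients of `w` -/

lemma wE_coeff (P : Par) (B0 : ℕ) (r : ℝ) (F : ℕ → ℝ) (T : ℝ) (e : G) :
    (wE P B0 r F T).coeff e = ∑ q ∈ prs P B0 T, ∑ q' ∈ prs P B0 T,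
      if vv q - vv q' = e then aq P r F T q * aq P r F T q' else 0 := by
  classical
  unfold wE eE eEb
  rw [Finset.sum_mul_sum, AddMonoidAlgebra.coeff_sum, Finsupp.finsetSum_apply]
  refine Finset.sum_congr rfl fun q _ => ?_
  rw [AddMonoidAlgebra.coeff_sum, Finsupp.finsetSum_apply]
  refine Finset.sum_congr rfl fun q' _ => ?_
  rw [AddMonoidAlgebra.single_mul_single, AddMonoidAlgebra.coeff_single, Finsupp.single_apply,
    sub_eq_add_neg]

lemma nA_fact {A : Finset ℕ} (hA : ∀ p ∈ A, p.Prime) (l : ℕ) :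
    (nA A).factorization l = if l ∈ A then 1 else 0 := by
  classical
  unfold LG.nA
  rw [Nat.factorization_prod (fun q hq => (hA q hq).ne_zero), Finsupp.finsetSum_apply]
  have : ∀ q ∈ A, q.factorization l = if q = l then 1 else 0 := by
    intro q hq
    rw [(hA q hq).factorization, Finsupp.single_apply]
  rw [Finset.sum_congr rfl this, Finset.sum_ite_eq']

lemma wE_Cn (P : Par) (B0 : ℕ) (r : ℝ) (F : ℕ → ℝ) (T : ℝ) {p : ℕ} (hp : p.Prime) (k : ℕ) :
    (wE P B0 r F T).coeff (k • ds p) = Cn P B0 r F T (p ^ k) := by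
  classical
  rw [wE_coeff]
  unfold LG.Cn
  refine Finset.sum_congr rfl fun q hq => Finset.sum_congr rfl fun q' hq' => ?_
  obtain ⟨h1, h2, -⟩ := mem_prs.1 hq
  obtain ⟨h3, h4, -⟩ := mem_prs.1 hq'
  have pr : ∀ A ∈ fam P B0 T, ∀ l ∈ A, l.Prime := fun A hA l hl =>
    (LG.MomA.prime_of_mem ((LG.MomA.mem_fam.1 hA).1 hl)).1
  have ne : ∀ A ∈ fam P B0 T, nA A ≠ 0 := fun A hA => by
    have := LG.nA_pos P B0 T A hA
    omega
  have hiff : (vv q - vv q' = k • ds p) ↔ nA q.2 * nA q'.1 = p ^ k * (nA q.1 * nA q'.2) := by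
    have e1 : nA q.2 * nA q'.1 = p ^ k * (nA q.1 * nA q'.2) ↔
        (nA q.2 * nA q'.1).factorization = (p ^ k * (nA q.1 * nA q'.2)).factorization := by
      constructor
      · intro h; rw [h]
      · intro h
        exact Nat.eq_of_factorization_eq (mul_ne_zero (ne _ h2) (ne _ h3))
          (mul_ne_zero (pow_ne_zero _ hp.ne_zero) (mul_ne_zero (ne _ h1) (ne _ h4)))
          (fun l => by rw [h])
    rw [e1, Nat.factorization_mul (ne _ h2) (ne _ h3), Nat.factorization_mul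
      (pow_ne_zero _ hp.ne_zero) (mul_ne_zero (ne _ h1) (ne _ h4)),
      Nat.factorization_mul (ne _ h1) (ne _ h4), Nat.factorization_pow, hp.factorization]
    constructor
    · intro h
      ext l
      have h5 := DFunLike.congr_fun h l
      simp only [Finsupp.sub_apply, vv_apply, Finsupp.smul_apply, ds, Finsupp.single_apply] at h5
      simp only [Finsupp.add_apply, nA_fact (pr _ h1), nA_fact (pr _ h2), nA_fact (pr _ h3),
        nA_fact (pr _ h4), Finsupp.smul_apply, Finsupp.single_apply, smul_eq_mul]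
      simp only [nsmul_eq_mul] at h5
      split_ifs at h5 ⊢ <;> push_cast at h5 <;> omega
    · intro h
      ext l
      have h5 := DFunLike.congr_fun h l
      simp only [Finsupp.sub_apply, vv_apply, Finsupp.smul_apply, ds, Finsupp.single_apply]
      simp only [Finsupp.add_apply, nA_fact (pr _ h1), nA_fact (pr _ h2), nA_fact (pr _ h3),
        nA_fact (pr _ h4), Finsupp.smul_apply, Finsupp.single_apply, smul_eq_mul] at h5
      simp only [nsmul_eq_mul]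
      split_ifs at h5 ⊢ <;> push_cast <;> omega
  unfold aq
  by_cases h : vv q - vv q' = k • ds p
  · rw [if_pos h, if_pos (hiff.1 h)]
  · rw [if_neg h, if_neg (fun h' => h (hiff.2 h'))]

lemma wE_zero (P : Par) (B0 : ℕ) (r : ℝ) (F : ℕ → ℝ) (T : ℝ) :
    (wE P B0 r F T).coeff 0 = Cn P B0 r F T 1 := by
  have h := wE_Cn P B0 r F T Nat.prime_two 0
  rwa [zero_smul, pow_zero] at h

/-- the coefficient at a large prime power vanishes -/
lemma Cn_big {P : Par} {B0 B1 : ℕ} {r : ℝ} {F : ℕ → ℝ} {T : ℝ} (hB : P.B = 2 * B0) (hT : 10 ≤ T)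
    (hB1 : 2 * B1 ≤ B0) (hF : ∀ n, B1 < n → F n = 0) {p k : ℕ} (hp : p.Prime)
    (hn : (1 - P.κ) / 2 * Real.log T < Real.log ((p ^ k : ℕ) : ℝ)) :
    Cn P B0 r F T (p ^ k) = 0 := by
  rw [← wE_Cn P B0 r F T hp]
  by_contra h
  have h1 := (wE_ht hB hT hB1 hF _ h).1
  rw [hp_nsmul_ds] at h1
  push_cast at hn
  rw [Real.log_pow] at hn
  linarith

end Pool.Agent.R321.FA
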