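import Pool.Agent.R321.FA6
import Pool.Agent.H503R2.LG.Ker

/-! The short prime polynomial. -/

open Finset Complex

namespace Pool.Agent.R321.FA

open LG (lk bk Cn)
open SP (Par)

lemma Dom.add {S : Finset ℕ} {v : ℕ → ℝ} {k : ℕ} {C D : ℝ} {f g : Al}
    (hf : Dom S v k C f.coeff) (hg : Dom S v k D g.coeff) : Dom S v k (C + D) (f + g).coeff := by
  intro e
  rw [AddMonoidAlgebra.coeff_add, Finsupp.add_apply]
  obtain ⟨f1, f2⟩ := hf e
  obtain ⟨g1, g2⟩ := hg e
  constructor
  · refine (abs_add_le _ _).trans ?_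
    rw [add_mul]
    exact add_le_add f1 g1
  · intro h
    by_cases h0 : f.coeff e = 0
    · rw [h0, zero_add] at h
      exact g2 h
    · exact f2 h0

lemma Dom.mono {S : Finset ℕ} {v : ℕ → ℝ} (hv : ∀ p, 0 ≤ v p) {k k' : ℕ} {C D : ℝ} {f : G → ℝ}
    (hf : Dom S v k C f) (hk : k ≤ k') (hC : C ≤ D) : Dom S v k' D f := by
  intro e
  obtain ⟨f1, f2⟩ := hf e
  exact ⟨f1.trans (mul_le_mul_of_nonneg_right hC (mw_nonneg hv e)), fun h =>
    ⟨(f2 h).1.trans hk, (f2 h).2⟩⟩

/-- sums of monomials over distinct vectors -/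
lemma dom_fam {S : Finset ℕ} {v : ℕ → ℝ} (hv : ∀ p, 0 ≤ v p) {k : ℕ} {C : ℝ} (hC : 0 ≤ C)
    (U : Finset ℕ) (φ : ℕ → G) (x : ℕ → ℝ) (hinj : ∀ p ∈ U, ∀ q ∈ U, φ p = φ q → p = q)
    (hb : ∀ p ∈ U, |x p| ≤ C * mw v (φ p) ∧ len (φ p) ≤ k ∧ (φ p).support ⊆ S) :
    Dom S v k C (∑ p ∈ U, (AddMonoidAlgebra.single (φ p) (x p) : Al)).coeff := by
  classical
  intro e
  rw [AddMonoidAlgebra.coeff_sum, Finsupp.finsetSum_apply]
  simp only [AddMonoidAlgebra.coeff_single, Finsupp.single_apply]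
  by_cases h : ∃ p ∈ U, φ p = e
  · obtain ⟨p, hp, he⟩ := h
    have h1 : ∑ q ∈ U, (if φ q = e then x q else 0) = x p := by
      rw [Finset.sum_eq_single_of_mem p hp, if_pos he]
      intro q hq hne
      rw [if_neg]
      intro h'
      exact hne (hinj q hq p hp (h'.trans he.symm))
    rw [h1, ← he]
    exact ⟨(hb p hp).1, fun _ => (hb p hp).2⟩
  · have h1 : ∑ q ∈ U, (if φ q = e then x q else 0) = 0 := by
      apply Finset.sum_eq_zero
      intro q hq
      rw [if_neg]
      intro h'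
      exact h ⟨q, hq, h'⟩
    rw [h1, abs_zero]
    exact ⟨mul_nonneg hC (mw_nonneg hv e), fun h => absurd rfl h⟩

lemma nds_apply (k p q : ℕ) : (k • ds p) q = if p = q then (k : ℤ) else 0 := by
  classical
  unfold ds
  rw [Finsupp.smul_apply, Finsupp.single_apply]
  split_ifs <;> simp

lemma nds_support {k : ℕ} (hk : k ≠ 0) (p : ℕ) : (k • ds p).support = {p} := by
  ext q
  rw [Finsupp.mem_support_iff, nds_apply, Finset.mem_singleton]
  constructor
  · intro h
    by_contra h'
    rw [if_neg (fun h'' => h' h''.symm)] at h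
    exact h rfl
  · rintro rfl
    rw [if_pos rfl]
    exact_mod_cast hk

lemma nds_len (k p : ℕ) : len (k • ds p) = k := by
  rcases Nat.eq_zero_or_pos k with h | h
  · subst h; rw [zero_smul, len_zero]
  · unfold len
    rw [nds_support h.ne', Finset.sum_singleton, nds_apply, if_pos rfl, Int.natAbs_natCast]

lemma nds_mw (v : ℕ → ℝ) (k p : ℕ) : mw v (k • ds p) = v p ^ k := by
  rcases Nat.eq_zero_or_pos k with h | h
  · subst h; rw [zero_smul, mw_zero, pow_zero]
  · unfold mw
    rw [nds_support h.ne', Finset.prod_singleton, nds_apply, if_pos rfl, Int.natAbs_natCast]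

lemma nds_inj {k p q : ℕ} (hk : k ≠ 0) (h : -(k • ds p) = -(k • ds q)) : p = q := by
  have h1 := neg_injective h
  have h2 := nds_support hk p
  rw [h1, nds_support hk q] at h2
  exact (Finset.singleton_injective h2).symm

/-- primes with `p² ≤ N` -/
def PN2 (N : ℕ) : Finset ℕ := (PN N).filter (fun p => p ^ 2 ≤ N)

/-- the prime polynomial `c - (2/L) (∑_p lk(p) p^{-it} + ∑_p lk(p²) p^{-2it})` -/
noncomputable def pp (a c T : ℝ) (N : ℕ) : Al :=
  AddMonoidAlgebra.single 0 c +
    (∑ p ∈ PN N, AddMonoidAlgebra.single (-(1 • ds p)) (-(2 / Real.log T * lk a c T p)) +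
    ∑ p ∈ PN2 N, AddMonoidAlgebra.single (-(2 • ds p)) (-(2 / Real.log T * lk a c T ((p ^ 2 : ℕ)))))

lemma pp_dom {a c T : ℝ} (hc : 0 < c) (hT : 10 ≤ T) (N : ℕ) (hN : (N : ℝ) ≤ T) {K : ℝ}
    (hK : 1 ≤ K) : Dom (PN N) (vp K (Real.log T)) 2 (5 * c) (pp a c T N).coeff := by
  set L := Real.log T with hL
  have hL1 : 1 ≤ L := by
    rw [hL, Real.le_log_iff_exp_le (by linarith)]
    have := Real.exp_one_lt_d9
    linarith
  have hv : ∀ p, 0 ≤ vp K L p := fun p => vp_nonneg (by linarith) L p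
  have hlog : ∀ p ∈ PN N, 0 ≤ Real.log p ∧ Real.log p ≤ L := by
    intro p hp
    have h1 := mem_PN.1 hp
    have hp0 : (0 : ℝ) < p := by exact_mod_cast h1.1.pos
    refine ⟨Real.log_natCast_nonneg p, Real.log_le_log hp0 ?_⟩
    have : (p : ℝ) ≤ N := by exact_mod_cast h1.2
    linarith
  have h0 : Dom (PN N) (vp K L) 2 c (AddMonoidAlgebra.single (0 : G) c).coeff := by
    classical
    intro e
    rw [AddMonoidAlgebra.coeff_single, Finsupp.single_apply]
    split_ifs with h
    · rw [← h, mw_zero, abs_of_pos hc, mul_one]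
      refine ⟨le_rfl, fun _ => ⟨by rw [len_zero]; omega, by simp⟩⟩
    · rw [abs_zero]
      exact ⟨mul_nonneg hc.le (mw_nonneg hv e), fun h => absurd rfl h⟩
  have h1 : Dom (PN N) (vp K L) 2 (2 * c) (∑ p ∈ PN N,
      (AddMonoidAlgebra.single (-(1 • ds p)) (-(2 / L * lk a c T p)) : Al)).coeff := by
    apply dom_fam hv (by positivity) (PN N) (fun p => -(1 • ds p)) _
      (fun p _ q _ h => nds_inj one_ne_zero h)
    intro p hp
    obtain ⟨l0, l1⟩ := hlog p hp
    have hpp := (mem_PN.1 hp).1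
    have hp0 : (0 : ℝ) < p := by exact_mod_cast hpp.pos
    refine ⟨?_, ?_, ?_⟩
    · rw [mw_neg, nds_mw, pow_one, abs_neg, LG.CombAux.lk_prime a c T p hpp, abs_mul, abs_mul,
        abs_mul, abs_of_pos (by positivity : 0 < 2 / L), abs_of_nonneg l0,
        abs_of_pos (by positivity : 0 < 1 / Real.sqrt p)]
      have hb := LG.bk_le a c T p hc
      have h3 : Real.log p / L * (1 / Real.sqrt p) ≤ vp K L p := by
        unfold vp
        have h4 : Real.log p / L * (1 / Real.sqrt p) ≤ Real.sqrt (Real.log p / (L * p)) := by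
          apply Real.le_sqrt_of_sq_le
          rw [mul_pow, div_pow, div_pow, Real.sq_sqrt hp0.le, one_pow]
          rw [div_mul_div_comm, mul_one, div_le_div_iff₀ (by positivity) (by positivity)]
          have : Real.log p * (L * p) * L ≥ Real.log p * (L * p) * Real.log p :=
            mul_le_mul_of_nonneg_left l1 (by positivity)
          nlinarith
        have := Real.sqrt_nonneg (Real.log p / (L * p))
        nlinarith
      have h5 : 0 ≤ Real.log p / L * (1 / Real.sqrt p) := by positivity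
      have h6 := hv p
      calc 2 / L * (Real.log p * (1 / Real.sqrt p) * |bk a c T p|) =
          2 * (Real.log p / L * (1 / Real.sqrt p)) * |bk a c T p| := by ring
        _ ≤ 2 * vp K L p * c := by gcongr
        _ = _ := by ring
    · rw [len_neg, nds_len]; omega
    · rw [Finsupp.support_neg, nds_support one_ne_zero, Finset.singleton_subset_iff]
      exact hp
  have h2 : Dom (PN N) (vp K L) 2 (2 * c) (∑ p ∈ PN2 N,
      (AddMonoidAlgebra.single (-(2 • ds p)) (-(2 / L * lk a c T ((p ^ 2 : ℕ)))) : Al)).coeff := by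
    apply dom_fam hv (by positivity) (PN2 N) (fun p => -(2 • ds p)) _
      (fun p _ q _ h => nds_inj two_ne_zero h)
    intro p hp
    have hp' : p ∈ PN N := (Finset.filter_subset _ _) hp
    obtain ⟨l0, l1⟩ := hlog p hp'
    have hpp := (mem_PN.1 hp').1
    have hp0 : (0 : ℝ) < p := by exact_mod_cast hpp.pos
    refine ⟨?_, ?_, ?_⟩
    · rw [mw_neg, nds_mw, abs_neg, LG.CombAux.lk_prime_sq a c T p hpp, abs_mul, abs_mul,
        abs_mul, abs_of_pos (by positivity : 0 < 2 / L), abs_of_nonneg l0,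
        abs_of_pos (by positivity : 0 < 1 / (p : ℝ)), vp_sq (by linarith)]
      have hb := LG.bk_le a c T ((p ^ 2 : ℕ) : ℝ) hc
      have h3 : 1 / L * (Real.log p / p) ≤ K ^ 2 / L * (Real.log p / p) := by
        apply mul_le_mul_of_nonneg_right _ (by positivity)
        apply div_le_div_of_nonneg_right _ (by linarith)
        nlinarith
      calc 2 / L * (Real.log p * (1 / p) * |bk a c T ((p ^ 2 : ℕ) : ℝ)|) =
          2 * (1 / L * (Real.log p / p)) * |bk a c T ((p ^ 2 : ℕ) : ℝ)| := by ring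
        _ ≤ 2 * (K ^ 2 / L * (Real.log p / p)) * c := by gcongr
        _ = _ := by ring
    · rw [len_neg, nds_len]
    · rw [Finsupp.support_neg, nds_support two_ne_zero, Finset.singleton_subset_iff]
      exact hp'
  have h3 := Dom.add h0 (Dom.add h1 h2)
  exact Dom.mono hv h3 le_rfl (by linarith)

/-- heights of the prime polynomial -/
lemma pp_ht (a c T : ℝ) (N : ℕ) (e : G) (he : (pp a c T N).coeff e ≠ 0) :
    hp e ≤ 0 ∧ hn e ≤ Real.log N := by
  classical
  have hN0 : 0 ≤ Real.log N := Real.log_natCast_nonneg N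
  by_cases h0 : e = 0
  · rw [h0, hp_zero, hn_zero]; exact ⟨le_rfl, hN0⟩
  · unfold pp at he
    rw [AddMonoidAlgebra.coeff_add, AddMonoidAlgebra.coeff_add, Finsupp.add_apply,
      Finsupp.add_apply, AddMonoidAlgebra.coeff_single, Finsupp.single_apply,
      if_neg (fun h => h0 h.symm), zero_add, AddMonoidAlgebra.coeff_sum,
      AddMonoidAlgebra.coeff_sum, Finsupp.finsetSum_apply, Finsupp.finsetSum_apply] at he
    have key : (∃ p ∈ PN N, -(1 • ds p) = e) ∨ ∃ p ∈ PN2 N, -(2 • ds p) = e := by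
      by_contra hcon
      push Not at hcon
      apply he
      rw [Finset.sum_eq_zero, Finset.sum_eq_zero, add_zero]
      · intro p hp
        rw [AddMonoidAlgebra.coeff_single, Finsupp.single_apply, if_neg (hcon.2 p hp)]
      · intro p hp
        rw [AddMonoidAlgebra.coeff_single, Finsupp.single_apply, if_neg (hcon.1 p hp)]
    rcases key with ⟨p, hp, rfl⟩ | ⟨p, hp, rfl⟩
    · rw [hp_neg, hn_neg, hn_nsmul_ds, hp_nsmul_ds]
      have h1 := mem_PN.1 hp
      have hp0 : (0 : ℝ) < p := by exact_mod_cast h1.1.pos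
      refine ⟨le_rfl, ?_⟩
      rw [Nat.cast_one, one_mul]
      exact Real.log_le_log hp0 (by exact_mod_cast h1.2)
    · rw [hp_neg, hn_neg, hn_nsmul_ds, hp_nsmul_ds]
      unfold PN2 at hp
      rw [Finset.mem_filter] at hp
      have h1 := mem_PN.1 hp.1
      have hp0 : (0 : ℝ) < p := by exact_mod_cast h1.1.pos
      refine ⟨le_rfl, ?_⟩
      have : ((2 : ℕ) : ℝ) * Real.log p = Real.log ((p : ℝ) ^ 2) := by rw [Real.log_pow]
      rw [this]
      exact Real.log_le_log (by positivity) (by exact_mod_cast hp.2)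

/-- the constant term of `w * pp` -/
lemma gg_zero (w : Al) (a c T : ℝ) (N : ℕ) : (w * pp a c T N).coeff 0 =
    c * w.coeff 0 - 2 / Real.log T * (∑ p ∈ PN N, lk a c T p * w.coeff (1 • ds p) +
      ∑ p ∈ PN2 N, lk a c T ((p ^ 2 : ℕ)) * w.coeff (2 • ds p)) := by
  unfold pp
  rw [mul_add, mul_add, Finset.mul_sum, Finset.mul_sum, AddMonoidAlgebra.coeff_add,
    AddMonoidAlgebra.coeff_add, Finsupp.add_apply, Finsupp.add_apply,
    AddMonoidAlgebra.coeff_sum, AddMonoidAlgebra.coeff_sum, Finsupp.finsetSum_apply,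
    Finsupp.finsetSum_apply, AddMonoidAlgebra.coeff_mul_single_apply]
  simp only [AddMonoidAlgebra.coeff_mul_single_apply, neg_neg, zero_add, neg_zero]
  rw [mul_add, Finset.mul_sum, Finset.mul_sum]
  have e1 : ∀ p, w.coeff (1 • ds p) * -(2 / Real.log T * lk a c T p) =
      -(2 / Real.log T * (lk a c T p * w.coeff (1 • ds p))) := fun p => by ring
  have e2 : ∀ p : ℕ, w.coeff (2 • ds p) * -(2 / Real.log T * lk a c T ((p ^ 2 : ℕ))) =
      -(2 / Real.log T * (lk a c T ((p ^ 2 : ℕ)) * w.coeff (2 • ds p))) := fun p => by ring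
  rw [Finset.sum_congr rfl (fun p _ => e1 p), Finset.sum_congr rfl (fun p _ => e2 p),
    Finset.sum_neg_distrib, Finset.sum_neg_distrib]
  ring

end Pool.Agent.R321.FA
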