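import Pool.Agent.R321.FA4
import Pool.Agent.R321.FA7

/-! Prime powers with exponent at least three, and the twisted window averages. -/

open Finset Complex MeasureTheory Filter

namespace Pool.Agent.R321.FA

open LG (lk bk Cn)
open SP (Par)

/-! ### cubes and higher powers -/

noncomputable def f3 (z : ℕ × ℕ) : ℝ :=
  Real.log (z.1 + 2 : ℕ) * (((z.1 + 2) ^ (z.2 + 3) : ℕ) : ℝ) ^ (-(1 / 2) : ℝ)

lemma f3_nonneg (z : ℕ × ℕ) : 0 ≤ f3 z := by
  unfold f3
  have := Real.log_natCast_nonneg (z.1 + 2)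
  positivity

lemma f3_eq (z : ℕ × ℕ) : f3 z = (Real.log (z.1 + 2 : ℕ) * ((z.1 + 2 : ℕ) : ℝ) ^ (-(3 / 2) : ℝ)) *
    (((z.1 + 2 : ℕ) : ℝ) ^ (-(1 / 2) : ℝ)) ^ z.2 := by
  unfold f3
  have h : (0 : ℝ) < ((z.1 + 2 : ℕ) : ℝ) := by positivity
  rw [mul_assoc]
  congr 1
  rw [Nat.cast_pow, ← Real.rpow_natCast, ← Real.rpow_mul h.le, ← Real.rpow_natCast,
    ← Real.rpow_mul h.le, ← Real.rpow_add h]
  congr 1
  push_cast
  ring

lemma f3_summable : Summable f3 := by
  have hx : ∀ m : ℕ, 0 ≤ (((m + 2 : ℕ) : ℝ) ^ (-(1 / 2) : ℝ)) ∧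
      (((m + 2 : ℕ) : ℝ) ^ (-(1 / 2) : ℝ)) ≤ 3 / 4 := by
    intro m
    refine ⟨by positivity, ?_⟩
    have h2 : (2 : ℝ) ≤ ((m + 2 : ℕ) : ℝ) := by push_cast; linarith [Nat.cast_nonneg (α := ℝ) m]
    rw [Real.rpow_neg (by positivity), ← Real.sqrt_eq_rpow]
    have h3 : 4 / 3 ≤ Real.sqrt ((m + 2 : ℕ) : ℝ) := by
      apply Real.le_sqrt_of_sq_le
      linarith
    calc (Real.sqrt ((m + 2 : ℕ) : ℝ))⁻¹ ≤ (4 / 3)⁻¹ := inv_anti₀ (by norm_num) h3
      _ = 3 / 4 := by norm_num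
  have hA : ∀ m : ℕ, 0 ≤ Real.log (m + 2 : ℕ) * ((m + 2 : ℕ) : ℝ) ^ (-(3 / 2) : ℝ) := fun m => by
    have := Real.log_natCast_nonneg (m + 2)
    positivity
  rw [summable_prod_of_nonneg f3_nonneg]
  constructor
  · intro m
    simp_rw [f3_eq]
    exact (summable_geometric_of_lt_one (hx m).1 (by linarith [(hx m).2])).mul_left _
  · have h1 : ∀ m : ℕ, ∑' j : ℕ, f3 (m, j) ≤
        16 * ((m + 2 : ℕ) : ℝ) ^ (-(5 / 4) : ℝ) := by
      intro m
      simp_rw [f3_eq]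
      rw [tsum_mul_left, tsum_geometric_of_lt_one (hx m).1 (by linarith [(hx m).2])]
      have h2 : (1 - ((m + 2 : ℕ) : ℝ) ^ (-(1 / 2) : ℝ))⁻¹ ≤ 4 := by
        calc (1 - ((m + 2 : ℕ) : ℝ) ^ (-(1 / 2) : ℝ))⁻¹ ≤ (1 / 4)⁻¹ :=
              inv_anti₀ (by norm_num) (by linarith [(hx m).2])
          _ = 4 := by norm_num
      have hm : (0 : ℝ) < ((m + 2 : ℕ) : ℝ) := by positivity
      have h3 : Real.log ((m + 2 : ℕ) : ℝ) ≤ 4 * ((m + 2 : ℕ) : ℝ) ^ (1 / 4 : ℝ) := by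
        have := Real.log_le_rpow_div hm.le (ε := 1 / 4) (by norm_num)
        calc _ ≤ ((m + 2 : ℕ) : ℝ) ^ (1 / 4 : ℝ) / (1 / 4) := this
          _ = _ := by ring
      calc Real.log ((m + 2 : ℕ) : ℝ) * ((m + 2 : ℕ) : ℝ) ^ (-(3 / 2) : ℝ) *
          (1 - ((m + 2 : ℕ) : ℝ) ^ (-(1 / 2) : ℝ))⁻¹ ≤
          (4 * ((m + 2 : ℕ) : ℝ) ^ (1 / 4 : ℝ)) * ((m + 2 : ℕ) : ℝ) ^ (-(3 / 2) : ℝ) * 4 := by
            apply mul_le_mul _ h2 (inv_nonneg.2 (by linarith [(hx m).2])) (by positivity)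
            apply mul_le_mul_of_nonneg_right h3 (by positivity)
        _ = 16 * (((m + 2 : ℕ) : ℝ) ^ (1 / 4 : ℝ) * ((m + 2 : ℕ) : ℝ) ^ (-(3 / 2) : ℝ)) := by ring
        _ = _ := by
            rw [← Real.rpow_add hm]
            norm_num
    apply Summable.of_nonneg_of_le (fun m => tsum_nonneg fun j => f3_nonneg _) h1
    apply Summable.mul_left
    have h4 : Summable (fun n : ℕ => (n : ℝ) ^ (-(5 / 4) : ℝ)) :=
      Real.summable_nat_rpow.2 (by norm_num)
    exact (summable_nat_add_iff 2).2 h4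

/-- prime powers with exponent at least three -/
def is3 (n : ℕ) : Prop := ∃ p k : ℕ, p.Prime ∧ 3 ≤ k ∧ n = p ^ k

open Classical in
noncomputable def g3 (n : ℕ) : ℝ :=
  if is3 n then ArithmeticFunction.vonMangoldt n * (n : ℝ) ^ (-(1 / 2) : ℝ) else 0

lemma g3_nonneg (n : ℕ) : 0 ≤ g3 n := by
  unfold g3
  have := ArithmeticFunction.vonMangoldt_nonneg (n := n)
  split_ifs
  · positivity
  · exact le_rfl

lemma g3_summable : Summable g3 ∧ ∑' n, g3 n ≤ ∑' z, f3 z := by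
  classical
  have key : ∀ V : Finset ℕ, ∑ n ∈ V, g3 n ≤ ∑' z, f3 z := by
    intro V
    set V' := V.filter is3 with hV'
    have h1 : ∑ n ∈ V, g3 n = ∑ n ∈ V', g3 n := by
      rw [hV', Finset.sum_filter]
      refine Finset.sum_congr rfl fun n _ => ?_
      unfold g3
      split_ifs <;> rfl
    have hchoose : ∀ n ∈ V', ∃ z : ℕ × ℕ, (z.1 + 2).Prime ∧ n = (z.1 + 2) ^ (z.2 + 3) := by
      intro n hn
      rw [hV', Finset.mem_filter] at hn
      obtain ⟨p, k, hp, hk, h⟩ := hn.2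
      refine ⟨(p - 2, k - 3), ?_, ?_⟩
      · have : p - 2 + 2 = p := by have := hp.two_le; omega
        rwa [this]
      · have e1 : p - 2 + 2 = p := by have := hp.two_le; omega
        have e2 : k - 3 + 3 = k := by omega
        simp only [e1, e2]
        exact h
    choose! ψ hψ1 hψ2 using hchoose
    have hval : ∀ n ∈ V', g3 n = f3 (ψ n) := by
      intro n hn
      have h2 := hn
      rw [hV', Finset.mem_filter] at h2
      unfold g3 f3
      rw [if_pos h2.2]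
      have h3 : ArithmeticFunction.vonMangoldt n = Real.log ((ψ n).1 + 2 : ℕ) := by
        conv_lhs => rw [hψ2 n hn]
        rw [ArithmeticFunction.vonMangoldt_apply_pow (by omega),
          ArithmeticFunction.vonMangoldt_apply_prime (hψ1 n hn)]
      rw [h3]
      congr 2
      exact_mod_cast congrArg (Nat.cast : ℕ → ℝ) (hψ2 n hn)
    have hinj : Set.InjOn ψ V' := by
      intro a ha b hb h
      rw [hψ2 a ha, hψ2 b hb, h]
    rw [h1, Finset.sum_congr rfl hval]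
    rw [← Finset.sum_image (f := f3) (g := ψ) hinj]
    exact f3_summable.sum_le_tsum _ (fun z _ => f3_nonneg z)
  have hs : Summable g3 := summable_of_sum_le g3_nonneg key
  exact ⟨hs, hs.tsum_le_of_sum_le key⟩

/-! ### twisted averages -/

lemma ev_tw_int {β : ℝ} (hβ : 0 < β) (t0 y : ℝ) (f : Al) :
    Integrable (fun t => ((om β (t - t0) : ℝ) : ℂ) * (ev t f * cexp (-(I * ((t * y : ℝ) : ℂ))))) := by
  have h1 : Integrable (fun t => nm f * om β (t - t0)) :=
    ((om_int hβ).comp_sub_right t0).const_mul _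
  refine h1.mono' ?_ (Eventually.of_forall fun t => ?_)
  · apply Continuous.aestronglyMeasurable
    have h2 : Continuous (fun t => om β (t - t0)) := (om_cont β).comp (by fun_prop)
    have h3 := ev_cont f
    fun_prop
  · rw [norm_mul, norm_mul, Complex.norm_real, Real.norm_of_nonneg (om_nonneg hβ _)]
    have h2 : ‖cexp (-(I * ((t * y : ℝ) : ℂ)))‖ = 1 := by
      have : -(I * ((t * y : ℝ) : ℂ)) = ((-(t * y) : ℝ) : ℂ) * I := by push_cast; ring
      rw [this, Complex.norm_exp_ofReal_mul_I]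
    rw [h2, mul_one, mul_comm]
    exact mul_le_mul_of_nonneg_right (norm_ev_le t f) (om_nonneg hβ _)

/-- a large twist kills a short polynomial -/
theorem tw_le {β : ℝ} (hβ : 0 < β) (t0 : ℝ) {f : Al} {H y : ℝ}
    (hf : ∀ e, f.coeff e ≠ 0 → hp e ≤ H) (hy : H + β ≤ y) :
    ‖∫ t, ((om β (t - t0) : ℝ) : ℂ) * (ev t f * cexp (-(I * ((t * y : ℝ) : ℂ))))‖ ≤
      nm f * Real.exp (-(y - H - β) ^ 2 / 2) := by
  have h1 : ∀ t : ℝ, ((om β (t - t0) : ℝ) : ℂ) * (ev t f * cexp (-(I * ((t * y : ℝ) : ℂ)))) =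
      ∑ e ∈ f.coeff.support, (f.coeff e : ℂ) * (((om β (t - t0) : ℝ) : ℂ) *
        cexp (((t * (fr e - y) : ℝ) : ℂ) * I)) := by
    intro t
    rw [ev_eq, Finset.sum_mul, Finset.mul_sum]
    refine Finset.sum_congr rfl fun e _ => ?_
    have : cexp (((t * (fr e - y) : ℝ) : ℂ) * I) =
        cexp (((t * fr e : ℝ) : ℂ) * I) * cexp (-(I * ((t * y : ℝ) : ℂ))) := by
      rw [← Complex.exp_add]; congr 1; push_cast; ring
    rw [this]; ring
  simp_rw [h1]
  rw [integral_finsetSum _ (fun e _ => (om_shift_int hβ t0 (fr e - y)).const_mul _)]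
  unfold nm
  rw [Finset.sum_mul]
  refine (norm_sum_le _ _).trans (Finset.sum_le_sum fun e he => ?_)
  rw [integral_const_mul, om_shift hβ, norm_mul, norm_mul, Complex.norm_exp_ofReal_mul_I, mul_one,
    Complex.norm_real, Complex.norm_real, Real.norm_eq_abs, Real.norm_of_nonneg (Of_nonneg hβ _)]
  apply mul_le_mul_of_nonneg_left _ (abs_nonneg _)
  have h2 := hf e (Finsupp.mem_support_iff.1 he)
  have h3 : fr e ≤ H := by
    rw [fr_hp_hn]
    have := hn_nonneg e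
    linarith
  have h4 : |fr e - y| = y - fr e := by
    rw [abs_sub_comm, abs_of_nonneg (by linarith)]
  refine (Of_far hβ (by rw [h4]; linarith)).trans ?_
  apply Real.exp_le_exp.2
  rw [h4]
  have : (y - H - β) ^ 2 ≤ (y - fr e - β) ^ 2 := by
    apply pow_le_pow_left₀ (by linarith)
    linarith
  linarith

end Pool.Agent.R321.FA
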