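import Pool.Agent.R321.FA8

/-! The window averages of `|E|² Zs`, first part. -/

open Finset Complex MeasureTheory Filter

namespace Pool.Agent.R321.FA

open LG (lk bk Cn EE)
open SP (Par)

/-- the weight -/
noncomputable def WE (P : Par) (B0 : ℕ) (r : ℝ) (F : ℕ → ℝ) (T t : ℝ) : ℝ :=
  ‖EE P B0 r F T t‖ ^ 2

lemma WE_nonneg (P : Par) (B0 : ℕ) (r : ℝ) (F : ℕ → ℝ) (T t : ℝ) : 0 ≤ WE P B0 r F T t :=
  sq_nonneg _

lemma WE_ev (P : Par) (B0 : ℕ) (r : ℝ) (F : ℕ → ℝ) (T t : ℝ) :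
    ev t (wE P B0 r F T) = ((WE P B0 r F T t : ℝ) : ℂ) := ev_wE P B0 r F T t

lemma WE_cont (P : Par) (B0 : ℕ) (r : ℝ) (F : ℕ → ℝ) (T : ℝ) : Continuous (WE P B0 r F T) := by
  have h := ev_cont (wE P B0 r F T)
  have h2 := Complex.continuous_re.comp h
  refine h2.congr fun t => ?_
  simp only [Function.comp]
  rw [WE_ev, ofReal_re]

lemma WE_le (P : Par) (B0 : ℕ) (r : ℝ) (F : ℕ → ℝ) (T t : ℝ) :
    WE P B0 r F T t ≤ nm (wE P B0 r F T) := by
  have h := norm_ev_le t (wE P B0 r F T)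
  rwa [WE_ev, Complex.norm_real, Real.norm_of_nonneg (WE_nonneg _ _ _ _ _ _)] at h

/-- window average of the weight -/
noncomputable def Aw (P : Par) (B0 : ℕ) (r : ℝ) (F : ℕ → ℝ) (T β t0 : ℝ) : ℝ :=
  ∫ t, om β (t - t0) * WE P B0 r F T t

lemma Aw_nonneg (P : Par) (B0 : ℕ) (r : ℝ) (F : ℕ → ℝ) (T : ℝ) {β : ℝ} (hβ : 0 < β) (t0 : ℝ) :
    0 ≤ Aw P B0 r F T β t0 :=
  integral_nonneg fun t => mul_nonneg (om_nonneg hβ _) (WE_nonneg _ _ _ _ _ _)

lemma Aw_eq (P : Par) (B0 : ℕ) (r : ℝ) (F : ℕ → ℝ) (T : ℝ) {β : ℝ} (hβ : 0 < β) (t0 : ℝ) :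
    av β t0 (wE P B0 r F T) = ((Aw P B0 r F T β t0 : ℝ) : ℂ) := by
  rw [← av_eq hβ]
  unfold Aw
  rw [← integral_complex_ofReal]
  congr 1
  funext t
  rw [WE_ev]
  push_cast
  rfl

/-- the explicit formula for the smoothed number of zeros -/
noncomputable def ZF (a c T t : ℝ) : ℝ :=
  c - (2 / Real.log T) * (∑' n : ℕ, (lk a c T n : ℂ) *
    cexp (-(I * ((t * Real.log n : ℝ) : ℂ)))).re

/-- the cut-off -/
noncomputable def NN (P : Par) (b T : ℝ) : ℕ := ⌊T ^ ((1 - P.κ) / 2 + 2 * b)⌋₊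

/-- the kept frequencies -/
def S12 (N : ℕ) : Finset ℕ := PN N ∪ (PN2 N).image (fun p => p ^ 2)

lemma S12_sum (N : ℕ) {M : Type*} [AddCommMonoid M] (f : ℕ → M) : ∑ n ∈ S12 N, f n =
    ∑ p ∈ PN N, f p + ∑ p ∈ PN2 N, f (p ^ 2) := by
  unfold S12
  rw [Finset.sum_union, Finset.sum_image]
  · intro a _ b _ h
    exact Nat.pow_left_injective (by norm_num : 2 ≠ 0) h
  · rw [Finset.disjoint_left]
    intro x hx hx'
    rw [Finset.mem_image] at hx'
    obtain ⟨b, hb, rfl⟩ := hx'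
    exact Nat.Prime.not_prime_pow (by norm_num : 2 ≤ 2) (mem_PN.1 hx).1

lemma norm_tw (x : ℝ) : ‖cexp (-(I * (x : ℂ)))‖ = 1 := by
  have : -(I * (x : ℂ)) = ((-x : ℝ) : ℂ) * I := by push_cast; ring
  rw [this, Complex.norm_exp_ofReal_mul_I]

lemma ev_pp (a c T : ℝ) (N : ℕ) (t : ℝ) : ev t (pp a c T N) =
    (c : ℂ) - ((2 / Real.log T : ℝ) : ℂ) * ∑ n ∈ S12 N, (lk a c T n : ℂ) *
      cexp (-(I * ((t * Real.log n : ℝ) : ℂ))) := by
  unfold pp
  rw [map_add, map_add, map_sum, map_sum, S12_sum, ev_single, fr_zero, mul_zero, ofReal_zero,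
    zero_mul, Complex.exp_zero, mul_one, mul_add, Finset.mul_sum, Finset.mul_sum, sub_eq_add_neg,
    neg_add, ← Finset.sum_neg_distrib, ← Finset.sum_neg_distrib]
  congr 2
  · refine Finset.sum_congr rfl fun p _ => ?_
    rw [ev_single, fr_neg, fr_nsmul, fr_ds]
    have : cexp (((t * -(((1 : ℕ) : ℝ) * Real.log p) : ℝ) : ℂ) * I) =
        cexp (-(I * ((t * Real.log p : ℝ) : ℂ))) := by
      congr 1; push_cast; ring
    rw [this]
    push_cast
    ring
  · refine Finset.sum_congr rfl fun p _ => ?_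
    rw [ev_single, fr_neg, fr_nsmul, fr_ds]
    have : cexp (((t * -(((2 : ℕ) : ℝ) * Real.log p) : ℝ) : ℂ) * I) =
        cexp (-(I * ((t * Real.log ((p ^ 2 : ℕ) : ℝ) : ℝ) : ℂ))) := by
      congr 1
      rw [Nat.cast_pow, Real.log_pow]
      push_cast; ring
    rw [this]
    push_cast
    ring

/-- sizes of the coefficients outside the kept set -/
lemma lk_out {a c T : ℝ} (hc : 0 < c) {N n : ℕ} (hn : n ∉ S12 N) (hnN : n ≤ N) :
    |lk a c T n| ≤ c * g3 n := by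
  classical
  by_cases h0 : ArithmeticFunction.vonMangoldt n = 0
  · unfold LG.lk
    rw [h0, zero_mul, zero_mul, abs_zero]
    exact mul_nonneg hc.le (g3_nonneg n)
  · have hpp : IsPrimePow n := by
      by_contra h
      exact h0 (ArithmeticFunction.vonMangoldt_eq_zero_iff.2 h)
    obtain ⟨p, k, hp, hk, rfl⟩ := (isPrimePow_nat_iff n).mp hpp
    have h3 : is3 (p ^ k) := by
      refine ⟨p, k, hp, ?_, rfl⟩
      by_contra hcon
      have hk2 : k = 1 ∨ k = 2 := by omega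
      apply hn
      unfold S12
      rw [Finset.mem_union, Finset.mem_image]
      rcases hk2 with h | h
      · left
        subst h
        rw [pow_one] at hnN ⊢
        exact mem_PN.2 ⟨hp, hnN⟩
      · right
        subst h
        refine ⟨p, ?_, rfl⟩
        unfold PN2
        rw [Finset.mem_filter]
        refine ⟨mem_PN.2 ⟨hp, ?_⟩, hnN⟩
        have := hp.two_le
        nlinarith
    unfold LG.lk g3
    rw [if_pos h3, abs_mul, abs_mul, abs_of_nonneg ArithmeticFunction.vonMangoldt_nonneg,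
      abs_of_nonneg (by positivity : (0:ℝ) ≤ (((p ^ k : ℕ) : ℕ) : ℝ) ^ (-(1 / 2) : ℝ)), mul_comm c]
    apply mul_le_mul_of_nonneg_left (LG.bk_le a c T _ hc)
    have := ArithmeticFunction.vonMangoldt_nonneg (n := p ^ k)
    positivity

/-- crude bound for the norm of the weight -/
lemma nm_wE (P : Par) (B0 : ℕ) (hB : P.B = 2 * B0) (r : ℝ) (F : ℕ → ℝ) : ∃ T0 : ℝ, 10 ≤ T0 ∧
    ∀ T : ℝ, T0 ≤ T → nm (wE P B0 r F T) ≤ T ^ 4 := by
  classical
  obtain ⟨C, T0, hC, hT0, h⟩ := LG.fam_facts P B0 hB r F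
  refine ⟨T0, hT0, fun T hT => ?_⟩
  have hT10 := hT0.trans hT
  have h1 := (h T hT).2.2.1
  set S := ∑ q ∈ LG.prs P B0 T, |aq P r F T q| with hS
  have hS0 : 0 ≤ S := Finset.sum_nonneg fun _ _ => abs_nonneg _
  have hS2 : S ≤ T ^ 2 := h1
  unfold nm
  set U := (wE P B0 r F T).coeff.support with hU
  calc ∑ e ∈ U, |(wE P B0 r F T).coeff e| ≤ ∑ e ∈ U, ∑ q ∈ LG.prs P B0 T, ∑ q' ∈ LG.prs P B0 T,
        if vv q - vv q' = e then |aq P r F T q| * |aq P r F T q'| else 0 := by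
        refine Finset.sum_le_sum fun e _ => ?_
        rw [wE_coeff]
        refine (Finset.abs_sum_le_sum_abs _ _).trans (Finset.sum_le_sum fun q _ => ?_)
        refine (Finset.abs_sum_le_sum_abs _ _).trans (Finset.sum_le_sum fun q' _ => ?_)
        split_ifs
        · rw [abs_mul]
        · rw [abs_zero]
    _ = ∑ q ∈ LG.prs P B0 T, ∑ q' ∈ LG.prs P B0 T, ∑ e ∈ U,
        if vv q - vv q' = e then |aq P r F T q| * |aq P r F T q'| else 0 := by
        rw [Finset.sum_comm]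
        refine Finset.sum_congr rfl fun q _ => ?_
        rw [Finset.sum_comm]
    _ ≤ ∑ q ∈ LG.prs P B0 T, ∑ q' ∈ LG.prs P B0 T, |aq P r F T q| * |aq P r F T q'| := by
        refine Finset.sum_le_sum fun q _ => Finset.sum_le_sum fun q' _ => ?_
        rw [Finset.sum_ite_eq]
        split_ifs
        · exact le_rfl
        · exact mul_nonneg (abs_nonneg _) (abs_nonneg _)
    _ = S * S := by rw [hS, Finset.sum_mul_sum]
    _ ≤ T ^ 2 * T ^ 2 := mul_le_mul hS2 hS2 hS0 (sq_nonneg T)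
    _ = T ^ 4 := by ring

lemma far_aux {l M n c X : ℝ} (hc : 0 < c) (hn : 0 < n) (hM : 0 ≤ M) (hX : 0 ≤ X)
    (h1 : |l| ≤ c * n) (h2 : M ≤ n ^ (16 : ℝ)) (h3 : X ≤ n ^ (-19 : ℝ)) :
    |l| * (M * X) ≤ c * (n ^ 2)⁻¹ := by
  have h4 : M * X ≤ n ^ (16 : ℝ) * n ^ (-19 : ℝ) := mul_le_mul h2 h3 hX (Real.rpow_nonneg hn.le _)
  calc |l| * (M * X) ≤ (c * n) * (n ^ (16 : ℝ) * n ^ (-19 : ℝ)) :=
        mul_le_mul h1 h4 (mul_nonneg hM hX) (mul_nonneg hc.le hn.le)
    _ = c * (n ^ (1 : ℝ) * n ^ (16 : ℝ) * n ^ (-19 : ℝ)) := by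
        rw [Real.rpow_one]; ring
    _ = c * (n ^ 2)⁻¹ := by
        rw [← Real.rpow_add hn, ← Real.rpow_add hn,
          show (1 : ℝ) + 16 + (-19) = -((2 : ℕ) : ℝ) by norm_num, Real.rpow_neg hn.le,
          Real.rpow_natCast]

/-- the far part of the sum -/
lemma far_bound (P : Par) (B0 : ℕ) (hB : P.B = 2 * B0) (r : ℝ) (F : ℕ → ℝ) (a c b : ℝ)
    (hc : 0 < c) (hb : 0 < b) (hb1 : (1 - P.κ) / 2 + 2 * b ≤ 1) : ∃ T0 : ℝ, 10 ≤ T0 ∧
    ∀ T : ℝ, T0 ≤ T → ∀ n : ℕ, NN P b T < n →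
      (1 - P.κ) / 2 * Real.log T + b * Real.log T ≤ Real.log n ∧
      |lk a c T n| * (nm (wE P B0 r F T) *
        Real.exp (-(Real.log n - (1 - P.κ) / 2 * Real.log T - b * Real.log T) ^ 2 / 2)) ≤
        c * ((n : ℝ) ^ 2)⁻¹ := by
  obtain ⟨T1, hT1, h1⟩ := nm_wE P B0 hB r F
  have hκ := P.hκ
  have hκ1 := P.hκ1
  obtain ⟨T2, hT2⟩ : ∃ T2 : ℝ, ∀ T : ℝ, T2 ≤ T → (2 / b ^ 2) * 19 ≤ Real.log T :=
    (Real.tendsto_log_atTop.eventually_ge_atTop _).exists_forall_of_atTop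
  refine ⟨max T1 T2, hT1.trans (le_max_left _ _), fun T hT n hn => ?_⟩
  have hTT1 : T1 ≤ T := (le_max_left _ _).trans hT
  have hL19 := hT2 T ((le_max_right _ _).trans hT)
  have hT10 := hT1.trans hTT1
  have hT0 : 0 < T := by linarith
  set L := Real.log T with hL
  have hL1 : 1 ≤ L := by
    rw [hL, Real.le_log_iff_exp_le (by linarith)]
    have := Real.exp_one_lt_d9
    linarith
  set D := (1 - P.κ) / 2 with hD
  have hD4 : 1 / 4 ≤ D := by rw [hD]; linarith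
  have hn1 : T ^ (D + 2 * b) < n := by
    have := Nat.lt_of_floor_lt hn
    exact this
  have hn0 : (0 : ℝ) < n := lt_trans (by positivity) hn1
  have hn1' : (1 : ℝ) ≤ n := by
    have : 1 ≤ n := by
      rcases Nat.eq_zero_or_pos n with h | h
      · subst h; simp at hn0
      · exact h
    exact_mod_cast this
  set y := Real.log n with hy
  have hyL : (D + 2 * b) * L ≤ y := by
    rw [hy, hL, ← Real.log_rpow hT0]
    exact Real.log_le_log (by positivity) hn1.le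
  have hbL : 0 < b * L := by positivity
  refine ⟨by nlinarith, ?_⟩
  have hy0 : 0 ≤ y := by nlinarith
  -- the exponent
  have e1 : b * L ≤ y - D * L - b * L := by nlinarith
  have e2 : b * y ≤ y - D * L - b * L := by
    -- `(1-b) y ≥ (D+b) L`
    have h3 : 0 ≤ 1 - b := by linarith
    have h4 : (1 - b) * ((D + 2 * b) * L) ≤ (1 - b) * y := mul_le_mul_of_nonneg_left hyL h3
    have h5 : (D + b) * L ≤ (1 - b) * ((D + 2 * b) * L) := by
      have h6 : D + b ≤ (1 - b) * (D + 2 * b) := by nlinarith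
      calc (D + b) * L ≤ ((1 - b) * (D + 2 * b)) * L := mul_le_mul_of_nonneg_right h6 (by linarith)
        _ = _ := by ring
    nlinarith
  have e3 : 19 * y ≤ (y - D * L - b * L) ^ 2 / 2 := by
    have h3 : (b * y) * (b * L) ≤ (y - D * L - b * L) * (y - D * L - b * L) :=
      mul_le_mul e2 e1 hbL.le (by linarith)
    have h4 : 38 ≤ b ^ 2 * L := by
      rw [div_mul_eq_mul_div, div_le_iff₀ (by positivity)] at hL19
      linarith
    have h5 : 38 * y ≤ b ^ 2 * L * y := mul_le_mul_of_nonneg_right h4 hy0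
    nlinarith
  have e4 : Real.exp (-(y - D * L - b * L) ^ 2 / 2) ≤ (n : ℝ) ^ (-19 : ℝ) := by
    rw [Real.rpow_def_of_pos hn0]
    apply Real.exp_le_exp.2
    rw [← hy]
    linarith
  have e5 : nm (wE P B0 r F T) ≤ (n : ℝ) ^ (16 : ℝ) := by
    refine (h1 T hTT1).trans ?_
    have h2 : T ≤ (n : ℝ) ^ (4 : ℝ) := by
      have h3 : T ^ (1 / 4 : ℝ) ≤ n := by
        refine le_trans ?_ hn1.le
        apply Real.rpow_le_rpow_of_exponent_le (by linarith)
        linarith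
      calc T = (T ^ (1 / 4 : ℝ)) ^ (4 : ℝ) := by
            rw [← Real.rpow_mul hT0.le]; norm_num
        _ ≤ _ := Real.rpow_le_rpow (by positivity) h3 (by norm_num)
    calc T ^ 4 ≤ ((n : ℝ) ^ (4 : ℝ)) ^ 4 := by gcongr
      _ = (n : ℝ) ^ (16 : ℝ) := by
          rw [← Real.rpow_natCast, ← Real.rpow_mul hn0.le]; norm_num
  have e6 : |lk a c T n| ≤ c * n := by
    unfold LG.lk
    rw [abs_mul, abs_mul, abs_of_nonneg ArithmeticFunction.vonMangoldt_nonneg,
      abs_of_nonneg (by positivity : (0:ℝ) ≤ (n : ℝ) ^ (-(1 / 2) : ℝ))]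
    have h2 : ArithmeticFunction.vonMangoldt n ≤ n := by
      refine ArithmeticFunction.vonMangoldt_le_log.trans ?_
      have := Real.log_le_sub_one_of_pos hn0
      linarith
    have h3 : (n : ℝ) ^ (-(1 / 2) : ℝ) ≤ 1 := Real.rpow_le_one_of_one_le_of_nonpos hn1' (by norm_num)
    have h4 := LG.bk_le a c T n hc
    calc ArithmeticFunction.vonMangoldt n * (n : ℝ) ^ (-(1 / 2) : ℝ) * |bk a c T n| ≤
        n * 1 * c := by
          apply mul_le_mul _ h4 (abs_nonneg _) (by positivity)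
          exact mul_le_mul h2 h3 (by positivity) (by positivity)
      _ = _ := by ring
  exact far_aux hc hn0 (nm_nonneg _) (Real.exp_nonneg _) e6 e5 e4

end Pool.Agent.R321.FA
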