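import Pool.Agent.R321.FA6
import Pool.Agent.H613R2.LG.Comb0
import Pool.Agent.H403R2.LGLocalB

/-! Resonators with the opposite sign: the diagonal terms. -/

open Filter Topology Set MeasureTheory

namespace Pool.Agent.R321.FA

open LG (lk bk Cn nA ae prs fam yp SF SM sm sm0 tm IsQ)
open SP (Par PS)

lemma card_nA {A : Finset ℕ} (hA : ∀ p ∈ A, p.Prime) :
    ArithmeticFunction.cardFactors (nA A) = A.card := by
  classical
  unfold LG.nA
  induction A using Finset.induction_on with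
  | empty => simp
  | insert p A hp ih =>
    rw [Finset.prod_insert hp, ArithmeticFunction.cardFactors_mul
      (hA p (Finset.mem_insert_self p A)).ne_zero
      (Finset.prod_ne_zero_iff.2 fun q hq => (hA q (Finset.mem_insert_of_mem hq)).ne_zero),
      ArithmeticFunction.cardFactors_apply_prime (hA p (Finset.mem_insert_self p A)),
      ih (fun q hq => hA q (Finset.mem_insert_of_mem hq)), Finset.card_insert_of_notMem hp]
    ring

lemma ae_neg (P : Par) (r : ℝ) (F : ℕ → ℝ) (T : ℝ) (A : Finset ℕ) :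
    ae P (-r) F T A = (-1) ^ A.card * ae P r F T A := by
  unfold LG.ae
  have : ∀ p ∈ A, yp P (-r) T p = -yp P r T p := fun p _ => by
    unfold LG.yp; ring
  rw [Finset.prod_congr rfl this, Finset.prod_neg]
  ring

/-- changing the sign of the resonator -/
lemma Cn_neg (P : Par) (B0 : ℕ) (r : ℝ) (F : ℕ → ℝ) (T : ℝ) {n : ℕ} (hn : n ≠ 0) :
    Cn P B0 (-r) F T n = (-1) ^ ArithmeticFunction.cardFactors n * Cn P B0 r F T n := by
  classical
  unfold LG.Cn
  rw [Finset.mul_sum]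
  refine Finset.sum_congr rfl fun q hq => ?_
  rw [Finset.mul_sum]
  refine Finset.sum_congr rfl fun q' hq' => ?_
  obtain ⟨h1, h2, -⟩ := mem_prs.1 hq
  obtain ⟨h3, h4, -⟩ := mem_prs.1 hq'
  have pr : ∀ A ∈ fam P B0 T, ∀ l ∈ A, l.Prime := fun A hA l hl =>
    (LG.MomA.prime_of_mem ((LG.MomA.mem_fam.1 hA).1 hl)).1
  have ne : ∀ A ∈ fam P B0 T, nA A ≠ 0 := fun A hA => by
    have := LG.nA_pos P B0 T A hA
    omega
  by_cases h : nA q.2 * nA q'.1 = n * (nA q.1 * nA q'.2)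
  · rw [if_pos h, if_pos h]
    have h5 := congrArg ArithmeticFunction.cardFactors h
    rw [ArithmeticFunction.cardFactors_mul (ne _ h2) (ne _ h3),
      ArithmeticFunction.cardFactors_mul hn (mul_ne_zero (ne _ h1) (ne _ h4)),
      ArithmeticFunction.cardFactors_mul (ne _ h1) (ne _ h4), card_nA (pr _ h1),
      card_nA (pr _ h2), card_nA (pr _ h3), card_nA (pr _ h4)] at h5
    rw [ae_neg, ae_neg, ae_neg, ae_neg]
    have h6 : ((-1 : ℝ)) ^ q.1.card * (-1) ^ q.2.card * ((-1) ^ q'.1.card * (-1) ^ q'.2.card) =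
        (-1) ^ ArithmeticFunction.cardFactors n := by
      rw [← pow_add, ← pow_add, ← pow_add]
      have e : q.1.card + q.2.card + (q'.1.card + q'.2.card) =
          ArithmeticFunction.cardFactors n + 2 * (q.1.card + q'.2.card) := by omega
      rw [e, pow_add, pow_mul]
      norm_num
    rw [← h6]
    ring
  · rw [if_neg h, if_neg h, mul_zero]

lemma Cn_neg_one (P : Par) (B0 : ℕ) (r : ℝ) (F : ℕ → ℝ) (T : ℝ) :
    Cn P B0 (-r) F T 1 = Cn P B0 r F T 1 := by
  rw [Cn_neg P B0 r F T one_ne_zero]; simp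

lemma Cn_neg_prime (P : Par) (B0 : ℕ) (r : ℝ) (F : ℕ → ℝ) (T : ℝ) {p : ℕ} (hp : p.Prime) :
    Cn P B0 (-r) F T p = -Cn P B0 r F T p := by
  rw [Cn_neg P B0 r F T hp.ne_zero, ArithmeticFunction.cardFactors_apply_prime hp]; simp

lemma Cn_neg_sq (P : Par) (B0 : ℕ) (r : ℝ) (F : ℕ → ℝ) (T : ℝ) {p : ℕ} (hp : p.Prime) :
    Cn P B0 (-r) F T (p ^ 2) = Cn P B0 r F T (p ^ 2) := by
  rw [Cn_neg P B0 r F T (pow_ne_zero 2 hp.ne_zero), ArithmeticFunction.cardFactors_apply_prime_pow hp]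
  simp

/-- the constant term -/
theorem COMB1_neg (P : Par) (B0 : ℕ) (hB : P.B = 2 * B0) (r : ℝ) (hr : 0 < r) (F q : ℕ → ℝ)
    (hq : IsQ B0 (tm P r) q) :
    Tendsto (fun T : ℝ => Cn P B0 (-r) F T 1) atTop (𝓝 (SF B0 F q ^ 2)) := by
  have h := LG.COMB1 P B0 hB r hr F q hq
  refine h.congr fun T => ?_
  rw [Cn_neg_one]

/-- the prime terms -/
theorem COMB2_neg (P : Par) (B0 : ℕ) (hB : P.B = 2 * B0) (r : ℝ) (hr : 0 < r) (F q : ℕ → ℝ)
    (hq : IsQ B0 (tm P r) q) (A c : ℝ)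
    (hPSUM : ∀ m : ℕ, Tendsto (fun T : ℝ => ∑ p ∈ (PS P T).filter (fun p => SP.Eb P T p = m),
      Real.log p / Real.log T * bk A c T p * SP.chi P T p / p) atTop (𝓝 (sm P A c m / Real.pi)))
    (hPSUM_abs : ∃ C T0 : ℝ, 0 < C ∧ 10 ≤ T0 ∧
    ∀ T : ℝ, T0 ≤ T → ∑ p ∈ PS P T, |Real.log p / Real.log T * bk A c T p * SP.chi P T p / p| ≤ C ∧
      ∑ p ∈ PS P T, |Real.log p * bk A c T ((p ^ 2 : ℕ) : ℝ) / (p : ℝ) ^ 2| ≤ C) :
    Tendsto (fun T : ℝ => (2 / Real.log T) * ∑' n : ℕ, lk A c T n * Cn P B0 (-r) F T n) atTop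
      (𝓝 (-(4 * r / Real.pi * (SF B0 F q * ∑ m ∈ Finset.Icc 2 B0, sm P A c m * SM B0 F q m)))) := by
  have h0 := LG.COMB2_of P B0 hB r hr F q hq A c hPSUM hPSUM_abs
  obtain ⟨C, η, T0, hC, hη, hT0, h⟩ := LG.DIS P B0 hB r hr F
  obtain ⟨C1, T1, hC1, hT1, h1⟩ := hPSUM_abs
  have hd : Tendsto (fun T : ℝ => (2 / Real.log T) * (∑' n : ℕ, lk A c T n * Cn P B0 (-r) F T n) +
      (2 / Real.log T) * ∑' n : ℕ, lk A c T n * Cn P B0 r F T n) atTop (𝓝 0) := by
    apply squeeze_zero_norm' (a := fun T : ℝ => 4 * C * C1 * (Real.log T)⁻¹)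
    · filter_upwards [eventually_ge_atTop T0, eventually_ge_atTop T1,
        eventually_ge_atTop (10 : ℝ)] with T hT hTT1 hT10
      obtain ⟨_, hp1, hp2, hp3⟩ := h T hT
      obtain ⟨ha1, ha2⟩ := h1 T hTT1
      have hL : 0 < Real.log T := Real.log_pos (by linarith)
      have e0 : (2 / Real.log T) * (∑' n : ℕ, lk A c T n * Cn P B0 (-r) F T n) +
          (2 / Real.log T) * ∑' n : ℕ, lk A c T n * Cn P B0 r F T n =
          ∑ p ∈ PS P T, 4 / Real.log T * (lk A c T (p ^ 2 : ℕ) * Cn P B0 r F T (p ^ 2)) := by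
        rw [LG.CombAux.tsum_split P B0 (-r) F T A c hT10, LG.CombAux.tsum_split P B0 r F T A c hT10]
        have e1 : ∑ p ∈ PS P T, lk A c T p * Cn P B0 (-r) F T p =
            -∑ p ∈ PS P T, lk A c T p * Cn P B0 r F T p := by
          rw [← Finset.sum_neg_distrib]
          refine Finset.sum_congr rfl fun p hp => ?_
          rw [Cn_neg_prime P B0 r F T (LG.CombAux.PS_prime P T p hp)]
          ring
        have e2 : ∑ p ∈ PS P T, lk A c T (p ^ 2 : ℕ) * Cn P B0 (-r) F T (p ^ 2) =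
            ∑ p ∈ PS P T, lk A c T (p ^ 2 : ℕ) * Cn P B0 r F T (p ^ 2) := by
          refine Finset.sum_congr rfl fun p hp => ?_
          rw [Cn_neg_sq P B0 r F T (LG.CombAux.PS_prime P T p hp)]
        rw [e1, e2, ← Finset.mul_sum]
        ring
      rw [e0]
      refine (norm_sum_le _ _).trans ?_
      calc _ ≤ ∑ p ∈ PS P T, 4 * C * (Real.log T)⁻¹ *
            |Real.log p * bk A c T ((p ^ 2 : ℕ) : ℝ) / (p : ℝ) ^ 2| := by
            apply Finset.sum_le_sum
            intro p hp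
            have hpr := LG.CombAux.PS_prime P T p hp
            have hp0 : (0 : ℝ) < p := by exact_mod_cast hpr.pos
            rw [LG.CombAux.lk_prime_sq A c T p hpr]
            have e1 : 4 / Real.log T * (Real.log p * (1 / p) * bk A c T ((p ^ 2 : ℕ) : ℝ) *
                Cn P B0 r F T (p ^ 2)) = 4 * (Real.log T)⁻¹ * ((Real.log p *
                  bk A c T ((p ^ 2 : ℕ) : ℝ) / (p : ℝ) ^ 2) * (p * Cn P B0 r F T (p ^ 2))) := by
              field_simp
            rw [e1, Real.norm_eq_abs, abs_mul (4 * (Real.log T)⁻¹), abs_mul (Real.log p *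
                  bk A c T ((p ^ 2 : ℕ) : ℝ) / (p : ℝ) ^ 2),
              abs_of_pos (show (0 : ℝ) < 4 * (Real.log T)⁻¹ by positivity)]
            have e5 : |p * Cn P B0 r F T (p ^ 2)| ≤ C := by
              rw [abs_mul, abs_of_pos hp0]
              have := hp3 p hp
              rw [le_div_iff₀ hp0] at this
              linarith
            calc 4 * (Real.log T)⁻¹ * (|Real.log p * bk A c T ((p ^ 2 : ℕ) : ℝ) / (p : ℝ) ^ 2| *
                  |p * Cn P B0 r F T (p ^ 2)|) ≤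
                  4 * (Real.log T)⁻¹ * (|Real.log p * bk A c T ((p ^ 2 : ℕ) : ℝ) /
                    (p : ℝ) ^ 2| * C) := by gcongr
              _ = _ := by ring
        _ = 4 * C * (Real.log T)⁻¹ * ∑ p ∈ PS P T,
            |Real.log p * bk A c T ((p ^ 2 : ℕ) : ℝ) / (p : ℝ) ^ 2| := by rw [Finset.mul_sum]
        _ ≤ 4 * C * (Real.log T)⁻¹ * C1 := by gcongr
        _ = _ := by ring
    · have h4 := (Real.tendsto_log_atTop.inv_tendsto_atTop).const_mul (4 * C * C1)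
      simpa using h4
  have h6 := hd.sub h0
  rw [zero_sub] at h6
  refine h6.congr fun T => ?_
  ring

/-- parameters for small gaps -/
theorem choose_small (P : Par) (B0 : ℕ) (r : ℝ) (F q : ℕ → ℝ) (c : ℝ) (hc0 : 0 < c)
    (hstrict : SF B0 F q < c * SF B0 F q +
      4 * r / Real.pi * ∑ m ∈ Finset.Icc 2 B0, sm0 P c m * SM B0 F q m) :
    ∃ η δ A1 : ℝ, 0 < η ∧ 2 * η < c ∧ 0 < δ ∧ 0 < A1 ∧ ∀ A : ℝ, A1 ≤ A →
      SF B0 F q + 4 * δ ≤ (c - 2 * η) * SF B0 F q +
        4 * r / Real.pi * ∑ m ∈ Finset.Icc 2 B0, sm P A (c - 2 * η) m * SM B0 F q m := by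
  set Ψ : ℝ × ℝ → ℝ := fun x => x.1 * SF B0 F q + 4 * r / Real.pi * ∑ m ∈ Finset.Icc 2 B0,
    (∫ u in (0 : ℝ)..1, P.b m u * Real.sin (Real.pi * x.1 * u) *
      Real.exp (-(u * x.2) ^ 2 / 2)) * SM B0 F q m - SF B0 F q with hΨ
  have hc : Continuous Ψ := by
    rw [hΨ]
    apply Continuous.sub
    · apply Continuous.add (by fun_prop)
      apply Continuous.mul continuous_const
      apply continuous_finsetSum
      intro m _
      exact (LG.LocAux.param_cont P m).mul continuous_const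
    · fun_prop
  have h0 : 0 < Ψ (c, 0) := by
    have : Ψ (c, 0) = c * SF B0 F q + 4 * r / Real.pi * ∑ m ∈ Finset.Icc 2 B0,
      sm0 P c m * SM B0 F q m - SF B0 F q := by
      simp only [hΨ, LG.LocAux.sm0_eq]
    rw [this]
    linarith
  have hev : ∀ᶠ x in 𝓝 ((c, 0) : ℝ × ℝ), Ψ (c, 0) / 2 < Ψ x :=
    hc.continuousAt.eventually (lt_mem_nhds (by linarith))
  rw [Metric.eventually_nhds_iff] at hev
  obtain ⟨ρ, hρ, hev⟩ := hev
  set s := min ρ c with hs
  have hs0 : 0 < s := lt_min hρ hc0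
  have hsρ : s ≤ ρ := min_le_left _ _
  have hsc : s ≤ c := min_le_right _ _
  refine ⟨s / 4, Ψ (c, 0) / 8, 4 / ρ, by positivity, by linarith, by positivity, by positivity,
    fun A hA => ?_⟩
  have hA0 : 0 < A := lt_of_lt_of_le (by positivity) hA
  have h1 : dist ((c - 2 * (s / 4), 1 / A) : ℝ × ℝ) (c, 0) < ρ := by
    rw [Prod.dist_eq, Real.dist_eq, Real.dist_eq]
    simp only
    apply max_lt
    · rw [show c - 2 * (s / 4) - c = -(s / 2) by ring, abs_neg, abs_of_pos (by positivity)]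
      linarith
    · rw [sub_zero, abs_of_pos (by positivity)]
      rw [div_le_iff₀ hρ] at hA
      rw [div_lt_iff₀ hA0]
      linarith
  have h2 := hev h1
  have h3 : Ψ (c - 2 * (s / 4), 1 / A) = (c - 2 * (s / 4)) * SF B0 F q + 4 * r / Real.pi *
      ∑ m ∈ Finset.Icc 2 B0, sm P A (c - 2 * (s / 4)) m * SM B0 F q m - SF B0 F q := by
    simp only [hΨ, LG.LocAux.sm_eq]
  rw [h3] at h2
  linarith

end Pool.Agent.R321.FA
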