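import Pool.Agent.H297R2.LG.Defs
import Pool.Agent.H503R2.LG.Ker
import Pool.Agent.TH800.MS.Sg4

/-! Upper bounds for the smoothed number of zeros. -/

open Filter Topology Set MeasureTheory

namespace Pool.Agent.R321.FA

open LG (Zs gK)
open SP (RHs ZZ mu Mk)
open H370 (Zf good_zeta finsum_Zf)
open TH800.MS (Iso NT)

/-- decay of the kernel -/
lemma gK_far {A c c0 x : ℝ} (hA : 0 < A) (hc : 0 < c) (hc0 : c < c0) (hx : Real.pi * c0 ≤ |x|) :
    gK A c x ≤ 16 * Real.pi * c / (1 - c / c0) ^ 4 * (1 / (Real.pi * c0) ^ 2) *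
      (1 + 1 / (Real.pi * c0) ^ 2) / A ^ 3 / (1 + x ^ 2) := by
  have hpi := Real.pi_pos
  have hc00 : 0 < c0 := by linarith
  set θ := 1 - c / c0 with hθ
  have hθ0 : 0 < θ := by
    rw [hθ]
    have : c / c0 < 1 := by rw [div_lt_one hc00]; exact hc0
    linarith
  have hx0 : 0 < |x| := lt_of_lt_of_le (by positivity) hx
  have hxsq : (Real.pi * c0) ^ 2 ≤ x ^ 2 := by
    rw [← sq_abs x]
    exact pow_le_pow_left₀ (by positivity) hx 2
  have hle : -(Real.pi * c) ≤ Real.pi * c := by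
    have : 0 < Real.pi * c := by positivity
    linarith
  have hs : 1 ≤ Real.sqrt (2 * Real.pi) := by
    rw [Real.one_le_sqrt]
    have := Real.pi_gt_three
    linarith
  have hx2 : 0 < x ^ 2 := by rw [← sq_abs]; positivity
  -- the integrand
  have hpt : ∀ y ∈ Set.Icc (-(Real.pi * c)) (Real.pi * c),
      A / Real.sqrt (2 * Real.pi) * Real.exp (-(A * (x - y)) ^ 2 / 2) ≤
        A * (8 / (A * θ * |x|) ^ 4) := by
    intro y hy
    have h1 : |y| ≤ Real.pi * c := abs_le.2 hy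
    have h2 : θ * |x| ≤ |x - y| := by
      have h3 : |x| - |y| ≤ |x - y| := abs_sub_abs_le_abs_sub x y
      have h4 : Real.pi * c ≤ c / c0 * |x| := by
        calc Real.pi * c = c / c0 * (Real.pi * c0) := by field_simp
          _ ≤ c / c0 * |x| := mul_le_mul_of_nonneg_left hx (by positivity)
      have h5 : θ * |x| = |x| - c / c0 * |x| := by rw [hθ]; ring
      rw [h5]
      linarith
    have h6 : (A * θ * |x|) ^ 2 ≤ (A * (x - y)) ^ 2 := by
      rw [← sq_abs (A * (x - y)), abs_mul, abs_of_pos hA]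
      apply pow_le_pow_left₀ (by positivity)
      calc A * θ * |x| = A * (θ * |x|) := by ring
        _ ≤ _ := mul_le_mul_of_nonneg_left h2 hA.le
    have h7 : Real.exp (-(A * (x - y)) ^ 2 / 2) ≤ 8 / (A * θ * |x|) ^ 4 := by
      have h8 : Real.exp (-(A * (x - y)) ^ 2 / 2) ≤ Real.exp (-((A * θ * |x|) ^ 2 / 2)) := by
        apply Real.exp_le_exp.2
        linarith
      refine h8.trans ?_
      set z := (A * θ * |x|) ^ 2 / 2 with hz
      have hz0 : 0 < z := by positivity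
      have h9 : z ^ 2 / 2 ≤ Real.exp z := by
        have := Real.quadratic_le_exp_of_nonneg hz0.le
        linarith
      rw [Real.exp_neg]
      calc (Real.exp z)⁻¹ ≤ (z ^ 2 / 2)⁻¹ := inv_anti₀ (by positivity) h9
        _ = 8 / (A * θ * |x|) ^ 4 := by rw [hz]; field_simp; ring
    have h8 : A / Real.sqrt (2 * Real.pi) ≤ A := div_le_self hA.le hs
    calc _ ≤ A * Real.exp (-(A * (x - y)) ^ 2 / 2) :=
          mul_le_mul_of_nonneg_right h8 (Real.exp_nonneg _)
      _ ≤ _ := mul_le_mul_of_nonneg_left h7 hA.le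
  have hcont : Continuous fun y : ℝ => A / Real.sqrt (2 * Real.pi) *
      Real.exp (-(A * (x - y)) ^ 2 / 2) := by fun_prop
  have h1 : gK A c x ≤ ∫ y in (-(Real.pi * c))..(Real.pi * c), A * (8 / (A * θ * |x|) ^ 4) := by
    unfold LG.gK
    exact intervalIntegral.integral_mono_on hle (hcont.intervalIntegrable _ _) (by simp) hpt
  rw [intervalIntegral.integral_const, smul_eq_mul] at h1
  refine h1.trans ?_
  have e1 : (Real.pi * c - -(Real.pi * c)) * (A * (8 / (A * θ * |x|) ^ 4)) =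
      16 * Real.pi * c / θ ^ 4 / A ^ 3 * (1 / x ^ 2 * (1 / x ^ 2)) := by
    have : |x| ^ 4 = x ^ 2 * x ^ 2 := by
      rw [← sq_abs x]; ring
    rw [mul_pow, this]
    field_simp
    ring
  rw [e1]
  have h2 : 1 / x ^ 2 ≤ 1 / (Real.pi * c0) ^ 2 := one_div_le_one_div_of_le (by positivity) hxsq
  have h3 : 1 / x ^ 2 ≤ (1 + 1 / (Real.pi * c0) ^ 2) / (1 + x ^ 2) := by
    rw [le_div_iff₀ (by positivity)]
    have hxne : x ≠ 0 := by
      rintro rfl
      simp at hx2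
    have : 1 / x ^ 2 * (1 + x ^ 2) = 1 / x ^ 2 + 1 := by
      field_simp
    rw [this]
    linarith
  calc 16 * Real.pi * c / θ ^ 4 / A ^ 3 * (1 / x ^ 2 * (1 / x ^ 2)) ≤
      16 * Real.pi * c / θ ^ 4 / A ^ 3 * (1 / (Real.pi * c0) ^ 2 *
        ((1 + 1 / (Real.pi * c0) ^ 2) / (1 + x ^ 2))) := by
        apply mul_le_mul_of_nonneg_left _ (by positivity)
        exact mul_le_mul h2 h3 (by positivity) (by positivity)
    _ = _ := by ring

/-- the kernel is small outside a larger interval -/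
lemma gK_small (c c0 ε : ℝ) (hc : 0 < c) (hc0 : c < c0) (hε : 0 < ε) : ∃ A0 : ℝ, 0 < A0 ∧
    ∀ A : ℝ, A0 ≤ A → ∀ x : ℝ, Real.pi * c0 ≤ |x| → gK A c x ≤ ε / (1 + x ^ 2) := by
  have hpi := Real.pi_pos
  have hc00 : 0 < c0 := by linarith
  have hθ0 : 0 < 1 - c / c0 := by
    have : c / c0 < 1 := by rw [div_lt_one hc00]; exact hc0
    linarith
  set K := 16 * Real.pi * c / (1 - c / c0) ^ 4 * (1 / (Real.pi * c0) ^ 2) *
      (1 + 1 / (Real.pi * c0) ^ 2) with hK
  have hK0 : 0 < K := by positivity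
  refine ⟨max 1 (K / ε), lt_max_of_lt_left one_pos, fun A hA x hx => ?_⟩
  have hA1 : 1 ≤ A := (le_max_left _ _).trans hA
  have hA2 : K / ε ≤ A := (le_max_right _ _).trans hA
  refine (gK_far (by linarith) hc hc0 hx).trans ?_
  rw [← hK]
  apply div_le_div_of_nonneg_right _ (by positivity)
  have hA3 : A ≤ A ^ 3 := le_self_pow₀ hA1 (by norm_num)
  rw [div_le_iff₀ (by positivity)]
  rw [div_le_iff₀ hε] at hA2
  nlinarith

/-- the kernel is bounded by a multiple of `1/(1+x²)` -/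
lemma gK_bd (A c : ℝ) (hA : 0 < A) (hc : 0 < c) : ∃ C : ℝ, 0 < C ∧ ∀ x : ℝ,
    gK A c x ≤ C / (1 + x ^ 2) := by
  have hpi := Real.pi_pos
  set K := 16 * Real.pi * c / (1 - c / (2 * c)) ^ 4 * (1 / (Real.pi * (2 * c)) ^ 2) *
      (1 + 1 / (Real.pi * (2 * c)) ^ 2) / A ^ 3 with hK
  have hθ0 : 0 < 1 - c / (2 * c) := by
    have : c / (2 * c) = 1 / 2 := by field_simp
    rw [this]; norm_num
  have hK0 : 0 < K := by positivity
  refine ⟨(1 + (Real.pi * (2 * c)) ^ 2) + K, by positivity, fun x => ?_⟩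
  rcases le_total (Real.pi * (2 * c)) |x| with h | h
  · refine (gK_far hA hc (by linarith) h).trans ?_
    rw [← hK]
    apply div_le_div_of_nonneg_right _ (by positivity)
    have : 0 ≤ (Real.pi * (2 * c)) ^ 2 := sq_nonneg _
    linarith
  · refine (LG.gK_bounds A c x hA hc).2.trans ?_
    rw [le_div_iff₀ (by positivity), one_mul]
    have : x ^ 2 ≤ (Real.pi * (2 * c)) ^ 2 := by
      rw [← sq_abs x]
      exact pow_le_pow_left₀ (abs_nonneg x) h 2
    linarith

lemma Zs_Zf (A c t : ℝ) {T : ℝ} (hT : 1 ≤ T) : Zs A c T t = ∑ s ∈ Zf riemannZeta T (2 * T),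
    (mu s : ℝ) * Real.exp (-(s.im - t) ^ 2 / 2) * gK A c (Real.log T * (s.im - t)) :=
  finsum_Zf good_zeta hT _

lemma Mk_Zf (k t : ℝ) {T : ℝ} (hT : 1 ≤ T) : Mk T k t = ∑ s ∈ Zf riemannZeta T (2 * T),
    (mu s : ℝ) * Real.exp (-(s.im - t) ^ 2 / 2) / (1 + (Real.log T * (s.im - t) / k) ^ 2) :=
  finsum_Zf good_zeta hT _

lemma Zs_le_Mk {A c C T : ℝ} (hT : 1 ≤ T) (hg : ∀ x, gK A c x ≤ C / (1 + x ^ 2)) (t : ℝ) :
    Zs A c T t ≤ C * Mk T 1 t := by
  rw [Zs_Zf A c t hT, Mk_Zf 1 t hT, Finset.mul_sum]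
  refine Finset.sum_le_sum fun s _ => ?_
  have h1 := hg (Real.log T * (s.im - t))
  calc (mu s : ℝ) * Real.exp (-(s.im - t) ^ 2 / 2) * gK A c (Real.log T * (s.im - t)) ≤
      (mu s : ℝ) * Real.exp (-(s.im - t) ^ 2 / 2) * (C / (1 + (Real.log T * (s.im - t)) ^ 2)) :=
        mul_le_mul_of_nonneg_left h1 (by positivity)
    _ = _ := by rw [div_one]; ring

/-- isolated zeros -/
lemma Zs_le_iso {A c c0 ε T t r ρ : ℝ} (hT : 1 ≤ T) (hL : 0 < Real.log T)
    (hg1 : ∀ x, gK A c x ≤ 1) (hε : 0 ≤ ε)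
    (hg : ∀ x : ℝ, Real.pi * c0 ≤ |x| → gK A c x ≤ ε / (1 + x ^ 2))
    (hiso : Iso T t r ρ) (hr : Real.pi * c0 / Real.log T ≤ r)
    (hρ : 2 * Real.pi * c0 / Real.log T ≤ ρ) : Zs A c T t ≤ 1 + ε * Mk T 1 t := by
  classical
  set L := Real.log T with hLd
  rw [Zs_Zf A c t hT, Mk_Zf 1 t hT, Finset.mul_sum]
  set Z := Zf riemannZeta T (2 * T) with hZ
  set f : ℂ → ℝ := fun s => (mu s : ℝ) * Real.exp (-(s.im - t) ^ 2 / 2) * gK A c (L * (s.im - t))
    with hf
  set g : ℂ → ℝ := fun s => ε * ((mu s : ℝ) * Real.exp (-(s.im - t) ^ 2 / 2) /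
    (1 + (L * (s.im - t) / 1) ^ 2)) with hgd
  have hg0 : ∀ s, 0 ≤ g s := fun s => by simp only [hgd]; positivity
  have hfar : ∀ s, Real.pi * c0 ≤ |L * (s.im - t)| → f s ≤ g s := by
    intro s hs
    simp only [hf, hgd]
    calc (mu s : ℝ) * Real.exp (-(s.im - t) ^ 2 / 2) * gK A c (L * (s.im - t)) ≤
        (mu s : ℝ) * Real.exp (-(s.im - t) ^ 2 / 2) * (ε / (1 + (L * (s.im - t)) ^ 2)) :=
          mul_le_mul_of_nonneg_left (hg _ hs) (by positivity)
      _ = _ := by rw [div_one]; ring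
  show ∑ s ∈ Z, f s ≤ 1 + ∑ s ∈ Z, g s
  by_cases hex : ∃ s0 ∈ Z, |L * (s0.im - t)| < Real.pi * c0
  · obtain ⟨s0, hs0, hs0n⟩ := hex
    have hd : ∀ s : ℂ, |L * (s.im - t)| < Real.pi * c0 → |s.im - t| < Real.pi * c0 / L := by
      intro s hs
      rw [abs_mul, abs_of_pos hL] at hs
      rw [lt_div_iff₀ hL]
      linarith
    obtain ⟨m1, m2⟩ := hiso s0 hs0 ((hd s0 hs0n).le.trans hr)
    have hothers : ∀ s ∈ Z.erase s0, f s ≤ g s := by
      intro s hs
      rw [Finset.mem_erase] at hs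
      apply hfar
      by_contra hcon
      push Not at hcon
      have h1 := m2 s hs.2 hs.1
      have h2 := hd s hcon
      have h3 := hd s0 hs0n
      have h4 : |s0.im - s.im| ≤ |s0.im - t| + |s.im - t| := by
        calc |s0.im - s.im| = |(s0.im - t) - (s.im - t)| := by congr 1; ring
          _ ≤ _ := abs_sub _ _
      have h5 : 2 * Real.pi * c0 / L = Real.pi * c0 / L + Real.pi * c0 / L := by ring
      linarith
    have hs0f : f s0 ≤ 1 := by
      simp only [hf]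
      rw [m1]
      have h1 : Real.exp (-(s0.im - t) ^ 2 / 2) ≤ 1 := by
        rw [Real.exp_le_one_iff]
        have := sq_nonneg (s0.im - t)
        linarith
      push_cast
      rw [one_mul]
      calc Real.exp (-(s0.im - t) ^ 2 / 2) * gK A c (L * (s0.im - t)) ≤
          Real.exp (-(s0.im - t) ^ 2 / 2) * 1 :=
            mul_le_mul_of_nonneg_left (hg1 _) (Real.exp_nonneg _)
        _ ≤ 1 := by rw [mul_one]; exact h1
    rw [← Finset.add_sum_erase Z f hs0, ← Finset.add_sum_erase Z g hs0]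
    have := Finset.sum_le_sum hothers
    have := hg0 s0
    linarith
  · push Not at hex
    have := Finset.sum_le_sum (fun s hs => hfar s (hex s hs))
    linarith

lemma Mk_le_NT {T : ℝ} (hT : 1 ≤ T) (k t : ℝ) : Mk T k t ≤ NT T := by
  rw [Mk_Zf k t hT]
  unfold TH800.MS.NT
  refine Finset.sum_le_sum fun s _ => ?_
  have h1 : Real.exp (-(s.im - t) ^ 2 / 2) ≤ 1 := by
    rw [Real.exp_le_one_iff]
    have := sq_nonneg (s.im - t)
    linarith
  have h2 : 1 ≤ 1 + (Real.log T * (s.im - t) / k) ^ 2 := by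
    have := sq_nonneg (Real.log T * (s.im - t) / k)
    linarith
  calc (mu s : ℝ) * Real.exp (-(s.im - t) ^ 2 / 2) / (1 + (Real.log T * (s.im - t) / k) ^ 2) ≤
      (mu s : ℝ) * Real.exp (-(s.im - t) ^ 2 / 2) := div_le_self (by positivity) h2
    _ ≤ (mu s : ℝ) * 1 := by gcongr
    _ = _ := mul_one _

end Pool.Agent.R321.FA
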