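import Pool.Agent.H382P.ExpMom

/-! The second moment of the majorant `Mk` over a block. -/

open Filter Topology Set MeasureTheory

namespace Pool.Agent.R321.FA

open SP (RHs ZZ mu Mk wt)
open SP.ExpAux (wt_nonneg wt_cont Mk_cont Mk_nonneg dd_pos Ya_cont)

/-- from Gaussian windows to the block -/
lemma avg_block {f : ℝ → ℝ} (hf : Continuous f) (hf0 : ∀ t, 0 ≤ f t) {K D T V1 V2 : ℝ}
    (hD : 0 < D) (hDT : D ≤ T) (hV : V1 ≤ V2) (h1 : T ≤ V1) (h2 : V2 ≤ 2 * T)
    (h : ∀ t0, ∫ t in V1..V2, wt t0 D t * f t ≤ K * D) :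
    ∫ t in V1..V2, f t ≤ 3 * K * T := by
  have hT : 0 < T := by linarith
  have hT3 : (0 : ℝ) ≤ 3 * T := by linarith
  have hwc : Continuous fun q : ℝ × ℝ => wt q.1 D q.2 * f q.2 := by
    unfold SP.wt
    have : Continuous fun q : ℝ × ℝ => f q.2 := hf.comp continuous_snd
    fun_prop
  have hwc2 : Continuous fun q : ℝ × ℝ => wt q.1 D q.2 := by
    unfold SP.wt
    fun_prop
  have hF : Continuous fun t0 => ∫ t in V1..V2, wt t0 D t * f t :=
    intervalIntegral.continuous_parametric_intervalIntegral_of_continuous' hwc V1 V2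
  have e1 : ∫ t0 in (0 : ℝ)..(3 * T), ∫ t in V1..V2, wt t0 D t * f t ≤ K * D * (3 * T) := by
    calc _ ≤ ∫ t0 in (0 : ℝ)..(3 * T), K * D :=
          intervalIntegral.integral_mono_on hT3 (hF.intervalIntegrable _ _) (by simp)
            fun t0 _ => h t0
      _ = _ := by
          rw [intervalIntegral.integral_const, smul_eq_mul]; ring
  have e2 : ∫ t0 in (0 : ℝ)..(3 * T), ∫ t in V1..V2, wt t0 D t * f t =
      ∫ t in V1..V2, ∫ t0 in (0 : ℝ)..(3 * T), wt t0 D t * f t := by
    apply intervalIntegral_intervalIntegral_swap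
    apply (hwc.continuousOn.integrableOn_compact
      (isCompact_uIcc.prod isCompact_uIcc)).mono_set
    exact Set.prod_mono uIoc_subset_uIcc uIoc_subset_uIcc
  have e3 : ∀ t ∈ Set.Icc V1 V2, D * f t ≤ ∫ t0 in (0 : ℝ)..(3 * T), wt t0 D t * f t := by
    intro t ht
    rw [intervalIntegral.integral_mul_const]
    apply mul_le_mul_of_nonneg_right _ (hf0 t)
    have hc : Continuous fun t0 => wt t0 D t := by
      unfold SP.wt
      fun_prop
    have g1 : ∫ t0 in (t - D)..(t + D), (1 / 2 : ℝ) ≤ ∫ t0 in (t - D)..(t + D), wt t0 D t := by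
      apply intervalIntegral.integral_mono_on (by linarith) (by simp) (hc.intervalIntegrable _ _)
      intro t0 ht0
      unfold SP.wt
      have g2 : -(1 / 2 : ℝ) ≤ -(t - t0) ^ 2 / (2 * D ^ 2) := by
        have g3 : (t - t0) ^ 2 ≤ D ^ 2 := by
          apply sq_le_sq'
          · linarith [ht0.2]
          · linarith [ht0.1]
        rw [neg_div]
        apply neg_le_neg
        rw [div_le_iff₀ (by positivity)]
        linarith
      have g4 := Real.add_one_le_exp (-(1 / 2 : ℝ))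
      have g5 := Real.exp_le_exp.2 g2
      linarith
    rw [intervalIntegral.integral_const, smul_eq_mul] at g1
    have g6 : ∫ t0 in (t - D)..(t + D), wt t0 D t ≤ ∫ t0 in (0 : ℝ)..(3 * T), wt t0 D t := by
      apply intervalIntegral.integral_mono_interval _ (by linarith) _
        (Eventually.of_forall fun t0 => wt_nonneg t0 D t) (hc.intervalIntegrable _ _)
      · linarith [ht.1]
      · linarith [ht.2]
    linarith
  have hG : Continuous fun t => ∫ t0 in (0 : ℝ)..(3 * T), wt t0 D t * f t := by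
    apply intervalIntegral.continuous_parametric_intervalIntegral_of_continuous'
    exact hwc.comp continuous_swap
  have e4 : ∫ t in V1..V2, D * f t ≤ ∫ t in V1..V2, ∫ t0 in (0 : ℝ)..(3 * T), wt t0 D t * f t :=
    intervalIntegral.integral_mono_on hV ((hf.const_mul D).intervalIntegrable _ _)
      (hG.intervalIntegrable _ _) e3
  rw [intervalIntegral.integral_const_mul, ← e2] at e4
  have e5 : D * ∫ t in V1..V2, f t ≤ D * (3 * K * T) := by
    refine (e4.trans e1).trans (le_of_eq ?_)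
    ring
  exact le_of_mul_le_mul_left e5 hD

/-- the second moment of `Mk` -/
theorem Mk_sq (hRH : RHs) : ∃ C T0 : ℝ, 0 < C ∧ 10 ≤ T0 ∧ ∀ T : ℝ, T0 ≤ T → ∀ V1 V2 : ℝ,
    V1 ≤ V2 → T + Real.log T ≤ V1 → V2 ≤ 2 * T - Real.log T →
    ∫ t in V1..V2, Mk T 1 t ^ 2 ≤ C * T := by
  obtain ⟨C, T0, hC, hT0, h⟩ := SP.exp_main hRH (1 / 4) 1 1 (by norm_num) (by norm_num) one_pos
    one_pos
  refine ⟨3 * (2 * C), T0, by positivity, hT0, fun T hT V1 V2 hV hV1 hV2 => ?_⟩
  have hT10 := hT0.trans hT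
  have hT1 : 1 ≤ T := by linarith
  have hL : 0 ≤ Real.log T := Real.log_nonneg hT1
  have hD := dd_pos (κ := 1 / 4) hT10
  have hDT : SG.dd (1 / 4) T ≤ T := by
    unfold SG.dd
    calc T ^ (1 - (1 / 4 : ℝ) / 2) ≤ T ^ (1 : ℝ) :=
          Real.rpow_le_rpow_of_exponent_le hT1 (by norm_num)
      _ = T := Real.rpow_one T
  apply avg_block ((Mk_cont hT1 1).pow 2) (fun t => sq_nonneg _) hD hDT hV (by linarith)
    (by linarith)
  intro t0
  have h1 := h T hT t0 V1 V2 hV hV1 hV2
  have hc : Continuous fun t => wt t0 (SG.dd (1 / 4) T) t *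
      Real.exp (1 * (‖SP.Ya T 1 t‖ + Mk T 1 t)) :=
    (wt_cont _ _).mul (Real.continuous_exp.comp
      (continuous_const.mul ((Ya_cont hT1 one_pos).norm.add (Mk_cont hT1 1))))
  calc ∫ t in V1..V2, wt t0 (SG.dd (1 / 4) T) t * Mk T 1 t ^ 2 ≤
      ∫ t in V1..V2, 2 * (wt t0 (SG.dd (1 / 4) T) t *
        Real.exp (1 * (‖SP.Ya T 1 t‖ + Mk T 1 t))) := by
        apply intervalIntegral.integral_mono_on hV
          (((wt_cont _ _).mul ((Mk_cont hT1 1).pow 2)).intervalIntegrable _ _)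
          ((hc.const_mul 2).intervalIntegrable _ _)
        intro t _
        have g1 := Mk_nonneg hT1 1 t
        have g2 : Mk T 1 t ^ 2 ≤ 2 * Real.exp (1 * (‖SP.Ya T 1 t‖ + Mk T 1 t)) := by
          have g3 := Real.quadratic_le_exp_of_nonneg g1
          have g4 : Real.exp (Mk T 1 t) ≤ Real.exp (1 * (‖SP.Ya T 1 t‖ + Mk T 1 t)) := by
            apply Real.exp_le_exp.2
            have := norm_nonneg (SP.Ya T 1 t)
            linarith
          linarith
        calc wt t0 (SG.dd (1 / 4) T) t * Mk T 1 t ^ 2 ≤ wt t0 (SG.dd (1 / 4) T) t *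
              (2 * Real.exp (1 * (‖SP.Ya T 1 t‖ + Mk T 1 t))) :=
              mul_le_mul_of_nonneg_left g2 (wt_nonneg _ _ _)
          _ = _ := by ring
    _ = 2 * ∫ t in V1..V2, wt t0 (SG.dd (1 / 4) T) t *
        Real.exp (1 * (‖SP.Ya T 1 t‖ + Mk T 1 t)) := intervalIntegral.integral_const_mul _ _
    _ ≤ 2 * (C * SG.dd (1 / 4) T) := by gcongr
    _ = 2 * C * SG.dd (1 / 4) T := by ring

end Pool.Agent.R321.FA
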