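import Pool.Agent.R321.FA15
import Pool.Agent.R321.FB1
import Pool.Agent.R321.FB2
import Pool.Agent.R321.FB3

/-! The means of the window averages of `|E|² Mk`. -/

open Finset Complex MeasureTheory Filter Topology

namespace Pool.Agent.R321.FA

open LG (lk bk Cn EE Zs yp SF SM sm sm0 tm IsQ gK)
open SP (Par RHs PS Eb ZZ Mk)

lemma om_total {β : ℝ} (hβ : 0 < β) : ∫ y, om β y ≤ 1 := by
  have h := om_ft hβ 0
  have e : ∀ y : ℝ, ((om β y : ℝ) : ℂ) * cexp (((y * 0 : ℝ) : ℂ) * I) = ((om β y : ℝ) : ℂ) := by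
    intro y
    rw [mul_zero, ofReal_zero, zero_mul, Complex.exp_zero, mul_one]
  simp_rw [e] at h
  rw [integral_complex_ofReal] at h
  have h2 : ∫ y, om β y = Of β 0 := by exact_mod_cast h
  rw [h2]
  exact Of_le_one hβ 0

lemma gen_cont {g : ℝ → ℝ} (hgi : Integrable g) {W : ℝ → ℝ} (hWc : Continuous W) {M : ℝ}
    (hWM : ∀ t, |W t| ≤ M) : Continuous (fun t0 => ∫ y, g y * W (t0 + y)) := by
  apply continuous_of_dominated (bound := fun y => |g y| * M)
  · intro t0
    exact hgi.aestronglyMeasurable.mul (hWc.comp (by fun_prop)).aestronglyMeasurable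
  · intro t0
    refine Eventually.of_forall fun y => ?_
    rw [norm_mul, Real.norm_eq_abs, Real.norm_eq_abs]
    exact mul_le_mul_of_nonneg_left (hWM _) (abs_nonneg _)
  · exact hgi.abs.mul_const M
  · refine Eventually.of_forall fun y => ?_
    exact continuous_const.mul (hWc.comp (by fun_prop))

/-- the mean of a generalised window average -/
theorem tail_gen {β R G U1 U2 V1 V2 M : ℝ} (hβ : 0 < β) (hR : 0 ≤ R) (hV : V1 ≤ V2)
    (h1 : U1 ≤ V1 - R) (h2 : V2 + R ≤ U2) {g : ℝ → ℝ} (hgi : Integrable g) (hg0 : ∀ y, 0 ≤ g y)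
    (hg1 : ∀ y, g y ≤ om β y) (hG : ∫ y, g y ≤ G) {W : ℝ → ℝ} (hWc : Continuous W)
    (hW0 : ∀ t, 0 ≤ W t) (hWM : ∀ t, W t ≤ M) :
    ∫ t0 in V1..V2, (∫ y, g y * W (t0 + y)) ≤
      G * (∫ t in U1..U2, W t) + (V2 - V1) * M * ∫ y, gT β R y := by
  have hWM' : ∀ t, |W t| ≤ M := fun t => by rw [abs_of_nonneg (hW0 t)]; exact hWM t
  have hM0 : 0 ≤ M := (hW0 0).trans (hWM 0)
  have hU : U1 ≤ U2 := by linarith
  set J : ℝ → ℝ := fun y => ∫ t0 in V1..V2, W (t0 + y) with hJ
  have hswap : ∫ t0 in V1..V2, (∫ y, g y * W (t0 + y)) = ∫ y, g y * J y := by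
    have hint : Integrable (Function.uncurry fun t0 y => g y * W (t0 + y))
        ((volume.restrict (Set.Ioc V1 V2)).prod volume) := by
      have h3 : Integrable (fun z : ℝ × ℝ => (1 : ℝ) * (g z.2 * M))
          ((volume.restrict (Set.Ioc V1 V2)).prod volume) :=
        Integrable.mul_prod (f := fun _ : ℝ => (1 : ℝ)) (g := fun y => g y * M)
          (integrable_const _) (hgi.mul_const M)
      refine h3.mono' ?_ (Eventually.of_forall fun z => ?_)
      · apply AEStronglyMeasurable.mul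
        · exact hgi.aestronglyMeasurable.comp_snd
        · apply Continuous.aestronglyMeasurable
          exact hWc.comp (by fun_prop)
      · show ‖g z.2 * W (z.1 + z.2)‖ ≤ 1 * (g z.2 * M)
        rw [norm_mul, Real.norm_of_nonneg (hg0 _), Real.norm_eq_abs, one_mul]
        exact mul_le_mul_of_nonneg_left (hWM' _) (hg0 _)
    rw [intervalIntegral.integral_of_le hV, integral_integral_swap hint]
    congr 1
    funext y
    rw [integral_const_mul, hJ]
    simp only
    rw [intervalIntegral.integral_of_le hV]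
  have hJ0 : ∀ y, 0 ≤ J y := fun y => by
    rw [hJ]
    exact intervalIntegral.integral_nonneg hV fun t _ => hW0 _
  have hJM : ∀ y, J y ≤ (V2 - V1) * M := by
    intro y
    rw [hJ]
    calc ∫ t0 in V1..V2, W (t0 + y) ≤ ∫ t0 in V1..V2, M :=
          intervalIntegral.integral_mono_on hV ((hWc.comp (by fun_prop)).intervalIntegrable _ _)
            (by simp) fun t _ => hWM _
      _ = (V2 - V1) * M := by rw [intervalIntegral.integral_const, smul_eq_mul]
  have hJR : ∀ y, |y| ≤ R → J y ≤ ∫ t in U1..U2, W t := by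
    intro y hy
    rw [abs_le] at hy
    rw [hJ]
    simp only
    rw [intervalIntegral.integral_comp_add_right]
    exact intervalIntegral.integral_mono_interval (by linarith) (by linarith) (by linarith)
      (Eventually.of_forall fun t => hW0 t) (hWc.intervalIntegrable _ _)
  have hI0 : 0 ≤ ∫ t in U1..U2, W t := intervalIntegral.integral_nonneg hU fun t _ => hW0 t
  have hVM : 0 ≤ (V2 - V1) * M := mul_nonneg (by linarith) hM0
  rw [hswap]
  calc ∫ y, g y * J y ≤ ∫ y, (g y * (∫ t in U1..U2, W t) + (V2 - V1) * M * gT β R y) := by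
        apply integral_mono_of_nonneg
        · exact Eventually.of_forall fun y => mul_nonneg (hg0 y) (hJ0 y)
        · exact (hgi.mul_const _).add ((gT_int hβ R).const_mul _)
        · refine Eventually.of_forall fun y => ?_
          have g1 := hg0 y
          have g2 := gT_nonneg hβ R y
          show g y * J y ≤ g y * (∫ t in U1..U2, W t) + (V2 - V1) * M * gT β R y
          by_cases hy : |y| ≤ R
          · have := mul_le_mul_of_nonneg_left (hJR y hy) g1
            have := mul_nonneg hVM g2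
            linarith
          · have h5 : gT β R y = om β y := by
              unfold gT
              exact Set.indicator_of_mem (show y ∈ {y : ℝ | R < |y|} from not_le.1 hy) _
            have h6 := hg1 y
            rw [h5]
            calc g y * J y ≤ om β y * ((V2 - V1) * M) :=
                  mul_le_mul h6 (hJM y) (hJ0 y) (om_nonneg hβ y)
              _ = (V2 - V1) * M * om β y := by ring
              _ ≤ _ := by
                have := mul_nonneg g1 hI0
                linarith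
    _ = (∫ y, g y) * (∫ t in U1..U2, W t) + (V2 - V1) * M * ∫ y, gT β R y := by
        rw [integral_add (hgi.mul_const _) ((gT_int hβ R).const_mul _),
          integral_mul_const, integral_const_mul]
    _ ≤ _ := by
        have := mul_le_mul_of_nonneg_right hG hI0
        linarith

/-- second moment of the weight -/
theorem WE_sq (P : Par) (B0 B1 : ℕ) (hB : P.B = 2 * B0) (hB1 : 2 * B1 ≤ B0) (r : ℝ)
    (F : ℕ → ℝ) (hF : ∀ n, B1 < n → F n = 0) (a0 d0 : ℝ)
    (h1 : Tendsto (fun T : ℝ => Cn P B0 r F T 1) atTop (𝓝 a0))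
    (h2 : Tendsto (fun T : ℝ => (2 / Real.log T) * ∑' n : ℕ, lk 1 1 T n * Cn P B0 r F T n) atTop
      (𝓝 d0)) :
    ∃ K T0 : ℝ, 0 < K ∧ 10 ≤ T0 ∧ ∀ T : ℝ, T0 ≤ T → ∫ t in T..(2 * T), WE P B0 r F T t ^ 2 ≤ K * T := by
  obtain ⟨K, hK, h⟩ := lln P B0 B1 hB hB1 r F hF 1 1 one_pos a0 d0 h1 h2
  have hκ := P.hκ
  obtain ⟨T0, hT0, h3⟩ := h (P.κ / 8) (by positivity) (by linarith)
  exact ⟨K, T0, hK, hT0, fun T hT => (h3 T hT).2.2⟩

/-- the mean of `|E|² Mk` -/
theorem WM_mean (hRH : RHs) (P : Par) (B0 : ℕ) (r : ℝ) (F : ℕ → ℝ) {K T1 : ℝ} (hK : 0 < K)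
    (hT1 : 10 ≤ T1) (h : ∀ T : ℝ, T1 ≤ T → ∫ t in T..(2 * T), WE P B0 r F T t ^ 2 ≤ K * T) :
    ∃ K' T0 : ℝ, 0 < K' ∧ 10 ≤ T0 ∧ ∀ T : ℝ, T0 ≤ T →
      ∫ t in (T + Real.log T ^ 3)..(2 * T - Real.log T ^ 3), WE P B0 r F T t * Mk T 1 t ≤ K' * T := by
  obtain ⟨C, T2, hC, hT2, h2⟩ := Mk_sq hRH
  obtain ⟨T3, hT3⟩ : ∃ T3 : ℝ, ∀ T : ℝ, T3 ≤ T → 4 * Real.log T ^ 3 ≤ T := by
    have g2 : ∀ᶠ T : ℝ in atTop, 4 * Real.log T ^ 3 ≤ T := by
      have h3 := isLittleO_log_rpow_atTop (show (0 : ℝ) < 1 / 3 by norm_num)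
      rw [Asymptotics.isLittleO_iff] at h3
      filter_upwards [h3 (show (0 : ℝ) < 1 / 2 by norm_num), eventually_ge_atTop 1] with T g3 g4
      rw [Real.norm_of_nonneg (Real.log_nonneg g4), Real.norm_of_nonneg (by positivity)] at g3
      have g5 := pow_le_pow_left₀ (Real.log_nonneg g4) g3 3
      rw [mul_pow, ← Real.rpow_natCast (T ^ (1 / 3 : ℝ)), ← Real.rpow_mul (by linarith)] at g5
      norm_num at g5
      linarith
    exact g2.exists_forall_of_atTop
  refine ⟨K + C, max T1 (max T2 T3), by positivity, hT1.trans (le_max_left _ _), fun T hT => ?_⟩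
  simp only [max_le_iff] at hT
  obtain ⟨hTT1, hTT2, hTT3⟩ := hT
  have hT10 := hT1.trans hTT1
  have hTone : 1 ≤ T := by linarith
  have hL1 : 1 ≤ Real.log T := by
    rw [Real.le_log_iff_exp_le (by linarith)]
    have := Real.exp_one_lt_d9
    linarith
  have hL3 : Real.log T ≤ Real.log T ^ 3 := le_self_pow₀ hL1 (by norm_num)
  have h4 := hT3 T hTT3
  have hV : T + Real.log T ^ 3 ≤ 2 * T - Real.log T ^ 3 := by linarith
  have k1 : Continuous (fun t => WE P B0 r F T t ^ 2) := (WE_cont P B0 r F T).pow 2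
  have k2 : Continuous (fun t => Mk T 1 t ^ 2) := (SP.ExpAux.Mk_cont hTone 1).pow 2
  have k3 : Continuous (fun t => WE P B0 r F T t * Mk T 1 t) :=
    (WE_cont P B0 r F T).mul (SP.ExpAux.Mk_cont hTone 1)
  calc ∫ t in (T + Real.log T ^ 3)..(2 * T - Real.log T ^ 3), WE P B0 r F T t * Mk T 1 t ≤
      ∫ t in (T + Real.log T ^ 3)..(2 * T - Real.log T ^ 3),
        (WE P B0 r F T t ^ 2 + Mk T 1 t ^ 2) := by
        apply intervalIntegral.integral_mono_on hV (k3.intervalIntegrable _ _)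
          ((k1.add k2).intervalIntegrable _ _)
        intro t _
        show WE P B0 r F T t * Mk T 1 t ≤ WE P B0 r F T t ^ 2 + Mk T 1 t ^ 2
        have g1 := sq_nonneg (WE P B0 r F T t - Mk T 1 t)
        have g2 := sq_nonneg (WE P B0 r F T t)
        have g3 := sq_nonneg (Mk T 1 t)
        have g4 : (WE P B0 r F T t - Mk T 1 t) ^ 2 = WE P B0 r F T t ^ 2 + Mk T 1 t ^ 2 -
          2 * (WE P B0 r F T t * Mk T 1 t) := by ring
        linarith only [g1, g2, g3, g4]
    _ = (∫ t in (T + Real.log T ^ 3)..(2 * T - Real.log T ^ 3), WE P B0 r F T t ^ 2) +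
        ∫ t in (T + Real.log T ^ 3)..(2 * T - Real.log T ^ 3), Mk T 1 t ^ 2 :=
        intervalIntegral.integral_add (k1.intervalIntegrable _ _) (k2.intervalIntegrable _ _)
    _ ≤ K * T + C * T := by
        apply add_le_add
        · refine le_trans ?_ (h T hTT1)
          exact intervalIntegral.integral_mono_interval (by linarith) hV (by linarith)
            (Eventually.of_forall fun t => sq_nonneg _) (k1.intervalIntegrable _ _)
        · exact h2 T hTT2 _ _ hV (by linarith) (by linarith)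
    _ = _ := by ring

/-- global bound for `|E|² Mk` -/
lemma WM_le (P : Par) (B0 : ℕ) (hB : P.B = 2 * B0) (r : ℝ) (F : ℕ → ℝ) : ∃ T0 : ℝ, 10 ≤ T0 ∧
    ∀ T : ℝ, T0 ≤ T → ∀ t, WE P B0 r F T t * Mk T 1 t ≤ T ^ 4 * Real.exp (Real.log T ^ 4) := by
  obtain ⟨T1, hT1, h1⟩ := nm_wE P B0 hB r F
  obtain ⟨C, T2, hC, hT2, h2⟩ := TH800.MS.NT_le
  obtain ⟨T3, hT3⟩ : ∃ T3 : ℝ, ∀ T : ℝ, T3 ≤ T → max 2 C ≤ Real.log T :=
    (Real.tendsto_log_atTop.eventually_ge_atTop _).exists_forall_of_atTop
  refine ⟨max T1 (max T2 T3), hT1.trans (le_max_left _ _), fun T hT t => ?_⟩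
  simp only [max_le_iff] at hT
  obtain ⟨hTT1, hTT2, hTT3⟩ := hT
  have hT10 := hT1.trans hTT1
  have hT0 : 0 < T := by linarith
  obtain ⟨hL2, hLC⟩ := max_le_iff.1 (hT3 T hTT3)
  set L := Real.log T with hL
  have hexp : Real.exp L = T := Real.exp_log hT0
  have e1 : TH800.MS.NT T ≤ Real.exp (L ^ 4) := by
    have g1 : L ≤ Real.exp L := by linarith [Real.add_one_le_exp L]
    have g2 : C * (T * L) ≤ Real.exp (3 * L) := by
      have : Real.exp (3 * L) = Real.exp L * (Real.exp L * Real.exp L) := by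
        rw [← Real.exp_add, ← Real.exp_add]; ring_nf
      rw [this]
      calc C * (T * L) ≤ Real.exp L * (Real.exp L * Real.exp L) := by
            rw [hexp] at g1 ⊢
            have g3 : C ≤ T := by linarith
            have g4 : T * L ≤ T * T := mul_le_mul_of_nonneg_left g1 hT0.le
            exact mul_le_mul g3 g4 (by positivity) hT0.le
        _ = _ := rfl
    refine ((h2 T hTT2).trans g2).trans (Real.exp_le_exp.2 ?_)
    have g5 : 3 ≤ L ^ 3 := by
      calc (3 : ℝ) ≤ 2 ^ 3 := by norm_num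
        _ ≤ L ^ 3 := pow_le_pow_left₀ (by norm_num) hL2 3
    calc 3 * L ≤ L ^ 3 * L := mul_le_mul_of_nonneg_right g5 (by linarith)
      _ = L ^ 4 := by ring
  exact mul_le_mul ((WE_le P B0 r F T t).trans (h1 T hTT1))
    ((Mk_le_NT (by linarith) 1 t).trans e1) (SP.ExpAux.Mk_nonneg (by linarith) 1 t) (by positivity)

end Pool.Agent.R321.FA
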