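import Pool.Agent.R321.FB5
import Pool.Agent.R321.FA17

/-! Small gaps in almost all runs. -/

open Filter Topology Set MeasureTheory

namespace Pool.Agent.R321.FA

open SG (ord NZ)
open TH800.MS (dlt)
open LG (SF SM sm0 tm IsQ)
open SP (Par RHs ZZ)

/-- runs of large gaps in a block -/
theorem blockS (RH : RiemannHypothesis) (P : Par) (B0 B1 : ℕ) (hB : P.B = 2 * B0)
    (hB1 : 2 * B1 ≤ B0) (r : ℝ) (hr : 0 < r) (F q : ℕ → ℝ) (hF : ∀ n, B1 < n → F n = 0)
    (hq : IsQ B0 (tm P r) q) (c : ℝ) (hc : 0 < c) (hSF : 0 < SF B0 F q)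
    (hstrict : SF B0 F q < c * SF B0 F q +
      4 * r / Real.pi * ∑ m ∈ Finset.Icc 2 B0, sm0 P c m * SM B0 F q m) :
    ∃ η : ℝ, 0 < η ∧ 2 * η < c ∧ ∀ ε : ℝ, 0 < ε → ∃ m0 T0 : ℝ, 1 ≤ m0 ∧ 10 ≤ T0 ∧ ∀ T : ℝ, T0 ≤ T →
      ∀ m : ℕ, m0 ≤ m → ∀ B : Finset ℕ,
      (∀ n ∈ B, 1 ≤ n ∧ T + 2 * Real.log T ^ 3 ≤ ord n ∧ ord (n + m) ≤ 2 * T - 2 * Real.log T ^ 3 ∧
        ∀ i < m, 2 * Real.pi * (c - η) / Real.log T < ord (n + i + 1) - ord (n + i)) →
      (B.card : ℝ) ≤ ε * (T * Real.log T) := by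
  classical
  have hpi := Real.pi_pos
  obtain ⟨η, hη, hηc, h⟩ := winS (TH800.MS.rhs_of RH) P B0 B1 hB hB1 r hr F q hF hq c hc hSF
    hstrict
  refine ⟨η, hη, hηc, fun ε hε => ?_⟩
  set s := Real.pi * (c - η) with hs
  have hs0 : 0 < s := mul_pos hpi (by linarith)
  obtain ⟨b, X, T1, hb, hX, hT1, hw⟩ := h (ε * s) (by positivity)
  have hX0 : 0 < X := by linarith
  refine ⟨2 * (X / b + 3 * s) / s + 1, T1, ?_, hT1, fun T hT m hm B hBs => ?_⟩
  · have : 0 < 2 * (X / b + 3 * s) / s := by positivity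
    linarith
  have hT10 := hT1.trans hT
  have hT0 : 0 < T := by linarith
  obtain ⟨Φ, hΦc, hΦ0, hV, hΦ1, hΦi⟩ := hw T hT
  have hL0 : 0 < Real.log T := Real.log_pos (by linarith)
  set L := Real.log T with hL
  set h0 := X / (b * L) with hh0
  have hh0' : 0 < h0 := by positivity
  have hm0 : (0 : ℝ) < m := by
    have : 0 < 2 * (X / b + 3 * s) / s := by positivity
    linarith
  have hms : 2 * (X / b + 3 * s) ≤ m * s := by
    have : 2 * (X / b + 3 * s) / s ≤ m := by linarith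
    rwa [div_le_iff₀ hs0] at this
  set r0 := h0 + s / L with hr0
  set ρ := 2 * s / L with hρ
  have hρ0 : 0 < ρ := by positivity
  have hr00 : 0 < r0 := by positivity
  have hρe : 2 * Real.pi * (c - η) / L = ρ := by rw [hρ, hs]; ring
  have hcount := TH800.LD.count_gen B (fun n => ord n + r0 + ρ) (fun n => ord (n + m) - r0 - ρ)
    (T + 2 * L ^ 3) (2 * T - 2 * L ^ 3) (m * s / L) (fun t => m * Φ t) hV
    (continuous_const.mul hΦc) (by positivity) (fun n hn => by
      obtain ⟨a1, a2, a3, a4⟩ := hBs n hn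
      rw [hρe] at a4
      have h2 := TH800.MS.gap_sum a4
      refine ⟨by linarith, by linarith, ?_⟩
      have h3 : m * s / L + 2 * (r0 + ρ) ≤ m * ρ := by
        have e1 : m * s / L + 2 * (r0 + ρ) = (m * s + 2 * (X / b + 3 * s)) / L := by
          rw [hr0, hρ, hh0]; field_simp; ring
        have e2 : (m : ℝ) * ρ = (m * s + m * s) / L := by rw [hρ]; ring
        rw [e1, e2]
        apply div_le_div_of_nonneg_right _ hL0.le
        linarith only [hms]
      linarith) (fun t ht1 ht2 => by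
      by_cases hfe : (B.filter (fun n => ord n + r0 + ρ ≤ t ∧ t ≤ ord (n + m) - r0 - ρ)).Nonempty
      · obtain ⟨n2, hn2⟩ := hfe
        rw [Finset.mem_filter] at hn2
        obtain ⟨hn2F, b1, b2⟩ := hn2
        obtain ⟨a1, a2, a3, a4⟩ := hBs n2 hn2F
        rw [hρe] at a4
        have hiso := TH800.MS.iso_of RH (by linarith : 1 ≤ T) hρ0 a1 a4 b1 b2
        have h4 := hΦ1 t ht1 ht2 (by rw [hρe]; exact hiso)
        have h5 : (B.filter (fun n => ord n + r0 + ρ ≤ t ∧ t ≤ ord (n + m) - r0 - ρ)).card ≤ m := by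
          apply TH800.MS.overlap (t := t)
          intro n hn
          rw [Finset.mem_filter] at hn
          obtain ⟨hnF, b3, b4⟩ := hn
          exact ⟨(hBs n hnF).1, by linarith, by linarith⟩
        calc ((B.filter (fun n => ord n + r0 + ρ ≤ t ∧ t ≤ ord (n + m) - r0 - ρ)).card : ℝ) ≤
            m * 1 := by rw [mul_one]; exact_mod_cast h5
          _ ≤ m * Φ t := mul_le_mul_of_nonneg_left h4 hm0.le
      · rw [Finset.not_nonempty_iff_eq_empty] at hfe
        rw [hfe, Finset.card_empty, Nat.cast_zero]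
        exact mul_nonneg hm0.le (hΦ0 t))
  have h3 : (B.card : ℝ) * (m * s / L) ≤ m * (ε * s * T) := by
    refine hcount.trans ?_
    rw [intervalIntegral.integral_const_mul]
    exact mul_le_mul_of_nonneg_left hΦi hm0.le
  have e1 : (B.card : ℝ) * (m * s / L) = (m * s / L) * B.card := by ring
  have e2 : m * (ε * s * T) = (m * s / L) * (ε * (T * L)) := by field_simp
  rw [e1, e2] at h3
  exact le_of_mul_le_mul_left h3 (by positivity)

/-- **small gaps in almost all runs** -/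
theorem runsS (RH : RiemannHypothesis) (P : Par) (B0 B1 : ℕ) (hB : P.B = 2 * B0)
    (hB1 : 2 * B1 ≤ B0) (r : ℝ) (hr : 0 < r) (F q : ℕ → ℝ) (hF : ∀ n, B1 < n → F n = 0)
    (hq : IsQ B0 (tm P r) q) (c : ℝ) (hc : 0 < c) (hSF : 0 < SF B0 F q)
    (hstrict : SF B0 F q < c * SF B0 F q +
      4 * r / Real.pi * ∑ m ∈ Finset.Icc 2 B0, sm0 P c m * SM B0 F q m) :
    ∀ ε : ℝ, 0 < ε → ∃ m N0 : ℕ, ∀ N : ℕ, N0 ≤ N →
      ({n : ℕ | 1 ≤ n ∧ n ≤ N ∧ ∀ i < m, c ≤ dlt (n + i)}.ncard : ℝ) ≤ ε * N := by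
  classical
  intro ε hε
  have hpi := Real.pi_gt_three
  obtain ⟨η, hη, hηc, hbl⟩ := blockS RH P B0 B1 hB hB1 r hr F q hF hq c hc hSF hstrict
  have hcη : 0 < c - η := by linarith
  obtain ⟨C, hC, hall⟩ := all_of_block
  obtain ⟨m0, T0, hm0, hT0, hblk⟩ := hbl (ε / C) (by positivity)
  obtain ⟨m, hmm0⟩ := exists_nat_ge m0
  have hm1 : (1 : ℝ) ≤ m := hm0.trans hmm0
  have hmp : (0 : ℝ) < m := by linarith
  obtain ⟨A, hA, hsh⟩ := TH800.MS.ord_short (TH800.MS.rhs_of RH)
  obtain ⟨T3, hT3⟩ : ∃ T3 : ℝ, ∀ T : ℝ, T3 ≤ T → max 4 (3 * (c - η) / η + 1) ≤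
      Real.log (9 / 10 * T) ∧ 1000 * Real.log T ^ 3 ≤ T ∧ 1000 * (60 + 30 * (m : ℝ)) ≤ T := by
    have g0 : Tendsto (fun T : ℝ => 9 / 10 * T) atTop atTop :=
      tendsto_id.const_mul_atTop (by norm_num)
    have g1 : ∀ᶠ T : ℝ in atTop, max 4 (3 * (c - η) / η + 1) ≤ Real.log (9 / 10 * T) :=
      (Real.tendsto_log_atTop.comp g0).eventually_ge_atTop _
    have g2 : ∀ᶠ T : ℝ in atTop, 1000 * Real.log T ^ 3 ≤ T := by
      have h3 := isLittleO_log_rpow_atTop (show (0 : ℝ) < 1 / 3 by norm_num)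
      rw [Asymptotics.isLittleO_iff] at h3
      filter_upwards [h3 (show (0 : ℝ) < 1 / 10 by norm_num), eventually_ge_atTop 1] with T g3 g4
      rw [Real.norm_of_nonneg (Real.log_nonneg g4), Real.norm_of_nonneg (by positivity)] at g3
      have g5 := pow_le_pow_left₀ (Real.log_nonneg g4) g3 3
      rw [mul_pow, ← Real.rpow_natCast (T ^ (1 / 3 : ℝ)), ← Real.rpow_mul (by linarith)] at g5
      norm_num at g5
      linarith
    exact (g1.and (g2.and (eventually_ge_atTop _))).exists_forall_of_atTop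
  obtain ⟨N2, hN2⟩ := hall (fun n => ∀ i < m, c ≤ dlt (n + i)) (ε / C) (by positivity) (by
    refine ⟨max (max (2 * T0) A) T3, fun T hT => ?_⟩
    simp only [max_le_iff] at hT
    obtain ⟨⟨hTT0, hTA⟩, hTT3⟩ := hT
    obtain ⟨hl1', hl2, hl3⟩ := hT3 T hTT3
    obtain ⟨hl1, hlη⟩ := max_le_iff.1 hl1'
    have hT20 : 20 ≤ T := by linarith
    set S : ℝ := 9 / 10 * T with hS
    have hS0 : 0 < S := by positivity
    have hST0 : T0 ≤ S := by rw [hS]; linarith
    set Ls := Real.log S with hLs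
    have hLST : Ls ≤ Real.log T := Real.log_le_log hS0 (by rw [hS]; linarith)
    have hLs0 : 0 < Ls := by linarith
    set Bd : Set ℕ := {n : ℕ | 1 ≤ n ∧ T ≤ ord n ∧ ord n ≤ 3 / 2 * T ∧ ∀ i < m, c ≤ dlt (n + i)}
      with hBd
    have hBfin : Bd.Finite := LG.GapAux.fin_ord (3 / 2 * T) Bd fun n hn => ⟨hn.1, hn.2.2.1⟩
    rw [Set.ncard_eq_toFinset_card Bd hBfin]
    have hLs3 : 2 * Ls ^ 3 ≤ T / 100 := by
      have : Ls ^ 3 ≤ Real.log T ^ 3 := pow_le_pow_left₀ hLs0.le hLST 3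
      linarith
    have h1 := hblk S hST0 m hmm0 hBfin.toFinset (fun n hn => by
      rw [Set.Finite.mem_toFinset] at hn
      obtain ⟨a1, a2, a3, a4⟩ := hn
      have hs1 := hsh n a1 (by linarith) m
      have hom : ord (n + m) ≤ 8 / 5 * T := by linarith
      have hn0 : 0 < ord n := by linarith
      refine ⟨a1, by rw [hS] at *; linarith, by rw [hS] at *; linarith, fun i hi => ?_⟩
      have a6 := a4 i hi
      have g1 : ord n ≤ ord (n + i) := SG.ord_mono a1 (by omega)
      have g2 : ord (n + i) ≤ ord (n + i + 1) := SG.ord_mono (by omega) (by omega)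
      have g3 : ord (n + i + 1) ≤ ord (n + m) := SG.ord_mono (by omega) (by omega)
      have hx0 : 0 < ord (n + i) := by linarith
      have h5 := H370.A3.xlog_aux hx0 g2
      have hy : ord (n + i + 1) ≤ 2 * T := by linarith
      have hlog3 : Real.log (ord (n + i + 1)) + 1 ≤ Ls + 3 := by
        have h6 : Real.log (ord (n + i + 1)) ≤ Real.log (2 * T) :=
          Real.log_le_log (by linarith) hy
        have h6' : Real.log (2 * T) = Real.log (20 / 9) + Ls := by
          rw [hLs, ← Real.log_mul (by norm_num) hS0.ne', hS]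
          congr 1
          ring
        have h7 := Real.log_le_sub_one_of_pos (show (0 : ℝ) < 20 / 9 by norm_num)
        linarith
      have hd : (ord (n + i + 1) * Real.log (ord (n + i + 1)) - ord (n + i) *
          Real.log (ord (n + i))) / (2 * Real.pi) = dlt (n + i) := rfl
      have h6 : c * (2 * Real.pi) ≤ (ord (n + i + 1) - ord (n + i)) * (Ls + 3) := by
        have h7 : dlt (n + i) * (2 * Real.pi) ≤
            (ord (n + i + 1) - ord (n + i)) * (Real.log (ord (n + i + 1)) + 1) := by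
          rw [← hd, div_mul_cancel₀ _ (by positivity)]
          exact h5
        calc c * (2 * Real.pi) ≤ dlt (n + i) * (2 * Real.pi) := by gcongr
          _ ≤ _ := h7
          _ ≤ _ := by
              apply mul_le_mul_of_nonneg_left hlog3
              linarith
      have h8 : (c - η) * (Ls + 3) < c * Ls := by
        have h9 : 3 * (c - η) / η < Ls := by linarith
        rw [div_lt_iff₀ hη] at h9
        linarith
      rw [div_lt_iff₀ hLs0]
      have h11 : 0 < Ls + 3 := by linarith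
      by_contra hcon
      push Not at hcon
      have h12 : c * (2 * Real.pi) * Ls ≤
          (ord (n + i + 1) - ord (n + i)) * (Ls + 3) * Ls :=
        mul_le_mul_of_nonneg_right h6 (by linarith)
      have h13 : (ord (n + i + 1) - ord (n + i)) * Ls * (Ls + 3) ≤
          2 * Real.pi * (c - η) * (Ls + 3) := mul_le_mul_of_nonneg_right hcon h11.le
      have h14 : 2 * Real.pi * ((c - η) * (Ls + 3)) < 2 * Real.pi * (c * Ls) :=
        mul_lt_mul_of_pos_left h8 (by positivity)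
      linarith)
    refine h1.trans ?_
    have h8 : S * Ls ≤ T * Real.log T := by
      apply mul_le_mul _ hLST hLs0.le (by linarith)
      rw [hS]; linarith
    exact mul_le_mul_of_nonneg_left h8 (by positivity))
  refine ⟨m, N2, fun N hN => ?_⟩
  have i2 := hN2 N hN
  have i4 : C * (ε / C) * N = ε * N := by field_simp
  rw [i4] at i2
  exact i2

end Pool.Agent.R321.FA
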