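import Pool.Agent.R321.FA19

/-! Numerical inequalities. -/

namespace Pool.Agent.R321.FA

theorem Js_ge' (c : ℝ) (hc : 0 < c) (a : ℝ) (s : ℝ) (hs : s = Real.pi * c * (999 / 4000))
    (h : a / (c * (999 / 1000)) < 1 / 2 - s ^ 2 / 72 + s ^ 4 / 3600 - s ^ 6 / 282240) :
    a < 4 / Real.pi * Js s := by
  have hpi := Real.pi_pos
  have hs1 : 0 < s := by rw [hs]; positivity
  have h3 := Js_ge s hs1.le
  have h4 : 4 / Real.pi = c * (999 / 1000) / s := by
    rw [hs]; field_simp; ring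
  rw [h4, div_mul_eq_mul_div, lt_div_iff₀ hs1]
  have h5 : s * (1 / 2 - s ^ 2 / 72 + s ^ 4 / 3600 - s ^ 6 / 282240) ≤ Js s := by
    refine le_trans (le_of_eq ?_) h3
    ring
  have h7 := mul_lt_mul_of_pos_left h hs1
  have h8 : s * (a / (c * (999 / 1000))) < Js s := lt_of_lt_of_le h7 h5
  have h9 : a * s = (c * (999 / 1000)) * (s * (a / (c * (999 / 1000)))) := by
    field_simp
  rw [h9]
  exact mul_lt_mul_of_pos_left h8 (by positivity)

theorem num_large2 : (888 / 1000 : ℝ) < 4 / Real.pi * Js (Real.pi * (1888 / 1000) * (999 / 4000)) := by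
  have h1 := Real.pi_gt_d6
  have h2 := Real.pi_lt_d6
  apply Js_ge' _ (by norm_num) _ _ rfl
  set s : ℝ := Real.pi * (1888 / 1000) * (999 / 4000) with hs
  have hsl : (148134 / 100000 : ℝ) ≤ s := by rw [hs]; linarith
  have hsu : s ≤ (148135 / 100000 : ℝ) := by rw [hs]; linarith
  have hs0 : 0 ≤ s := by linarith
  have q2 : s ^ 2 ≤ (148135 / 100000 : ℝ) ^ 2 := by gcongr
  have q4 : (148134 / 100000 : ℝ) ^ 4 ≤ s ^ 4 := by gcongr
  have q6 : s ^ 6 ≤ (148135 / 100000 : ℝ) ^ 6 := by gcongr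
  norm_num at q2 q4 q6 ⊢
  linarith

theorem num_small : (3314 / 10000 : ℝ) < 4 / Real.pi * Js (Real.pi * (6686 / 10000) * (999 / 4000)) := by
  have h1 := Real.pi_gt_d6
  have h2 := Real.pi_lt_d6
  apply Js_ge' _ (by norm_num) _ _ rfl
  set s : ℝ := Real.pi * (6686 / 10000) * (999 / 4000) with hs
  have hsl : (52459 / 100000 : ℝ) ≤ s := by rw [hs]; linarith
  have hsu : s ≤ (52460 / 100000 : ℝ) := by rw [hs]; linarith
  have hs0 : 0 ≤ s := by linarith
  have q2 : s ^ 2 ≤ (52460 / 100000 : ℝ) ^ 2 := by gcongr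
  have q4 : (52459 / 100000 : ℝ) ^ 4 ≤ s ^ 4 := by gcongr
  have q6 : s ^ 6 ≤ (52460 / 100000 : ℝ) ^ 6 := by gcongr
  norm_num at q2 q4 q6 ⊢
  linarith

end Pool.Agent.R321.FA
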