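import Pool.Agent.R321.FA7

/-! Real prime polynomials: definition, domination, heights. -/

open Finset Complex

namespace Pool.Agent.R321.FA

lemma zds_apply (m : ℤ) (p q : ℕ) : (m • ds p) q = if p = q then m else 0 := by
  classical
  unfold ds
  rw [Finsupp.smul_apply, Finsupp.single_apply]
  split_ifs <;> simp

lemma zds_support {m : ℤ} (hm : m ≠ 0) (p : ℕ) : (m • ds p).support = {p} := by
  ext q
  rw [Finsupp.mem_support_iff, zds_apply, Finset.mem_singleton]
  constructor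
  · intro h
    by_contra h'
    rw [if_neg (fun h'' => h' h''.symm)] at h
    exact h rfl
  · rintro rfl
    rw [if_pos rfl]
    exact hm

lemma zds_len (m : ℤ) (p : ℕ) : len (m • ds p) = m.natAbs := by
  rcases eq_or_ne m 0 with h | h
  · subst h; rw [zero_smul, len_zero]; rfl
  · unfold len
    rw [zds_support h, Finset.sum_singleton, zds_apply, if_pos rfl]

lemma zds_mw (v : ℕ → ℝ) (m : ℤ) (p : ℕ) : mw v (m • ds p) = v p ^ m.natAbs := by
  rcases eq_or_ne m 0 with h | h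
  · subst h; rw [zero_smul, mw_zero]; simp
  · unfold mw
    rw [zds_support h, Finset.prod_singleton, zds_apply, if_pos rfl]

lemma zds_inj {m : ℤ} {p q : ℕ} (hm : m ≠ 0) (h : m • ds p = m • ds q) : p = q := by
  have h2 := zds_support hm p
  rw [h, zds_support hm q] at h2
  exact (Finset.singleton_injective h2).symm

lemma zds_hp (m : ℤ) (p : ℕ) : hp (m • ds p) = (m.toNat : ℝ) * Real.log p := by
  rcases eq_or_ne m 0 with h | h
  · subst h; rw [zero_smul, hp_zero]; simp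
  · rw [hp_eq (m • ds p) {p} (zds_support h p).le, Finset.sum_singleton, zds_apply, if_pos rfl]

lemma zds_hn (m : ℤ) (p : ℕ) : hn (m • ds p) = ((-m).toNat : ℝ) * Real.log p := by
  unfold hn
  rw [← neg_smul, zds_hp]

lemma zds_fr (m : ℤ) (p : ℕ) : fr (m • ds p) = (m : ℝ) * Real.log p := by
  rcases eq_or_ne m 0 with h | h
  · subst h; rw [zero_smul, fr_zero]; simp
  · rw [fr_eq (m • ds p) {p} (zds_support h p).le, Finset.sum_singleton, zds_apply, if_pos rfl]

/-- sum of the monomials `m • ds p` -/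
noncomputable def sg (U : Finset ℕ) (m : ℤ) (y : ℕ → ℝ) : Al :=
  ∑ p ∈ U, AddMonoidAlgebra.single (m • ds p) (y p)

lemma sg_coeff (U : Finset ℕ) (m : ℤ) (y : ℕ → ℝ) (e : G) :
    (sg U m y).coeff e = ∑ p ∈ U, if m • ds p = e then y p else 0 := by
  classical
  unfold sg
  rw [AddMonoidAlgebra.coeff_sum, Finsupp.finsetSum_apply]
  simp only [AddMonoidAlgebra.coeff_single, Finsupp.single_apply]

/-- the real prime polynomial `c - ∑ y_p (p^{it} + p^{-it}) - ∑ z_p (p^{2it} + p^{-2it})` -/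
noncomputable def rp (c : ℝ) (U : Finset ℕ) (y z : ℕ → ℝ) : Al :=
  AddMonoidAlgebra.single 0 c - ((sg U 1 y + sg U (-1) y) + (sg U 2 z + sg U (-2) z))

/-- domination of the coefficients -/
def YB (U : Finset ℕ) (v : ℕ → ℝ) (C : ℝ) (c : ℝ) (y z : ℕ → ℝ) : Prop :=
  |c| ≤ C ∧ (∀ p ∈ U, |y p| ≤ C * v p) ∧ ∀ p ∈ U, |z p| ≤ C * v p ^ 2

lemma Dom.neg {S : Finset ℕ} {v : ℕ → ℝ} {k : ℕ} {C : ℝ} {f : Al}
    (hf : Dom S v k C f.coeff) : Dom S v k C (-f).coeff := by
  intro e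
  rw [AddMonoidAlgebra.coeff_neg, Finsupp.neg_apply, abs_neg]
  obtain ⟨f1, f2⟩ := hf e
  exact ⟨f1, fun h => f2 (fun h' => h (by rw [h', neg_zero]))⟩

lemma Dom.single {S : Finset ℕ} {v : ℕ → ℝ} (hv : ∀ p, 0 ≤ v p) {k : ℕ} {C c : ℝ} (hC : |c| ≤ C) :
    Dom S v k C (AddMonoidAlgebra.single (0 : G) c : Al).coeff := by
  classical
  intro e
  rw [AddMonoidAlgebra.coeff_single, Finsupp.single_apply]
  split_ifs with h
  · rw [← h, mw_zero, mul_one]
    refine ⟨hC, fun _ => ⟨by rw [len_zero]; omega, by simp⟩⟩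
  · rw [abs_zero]
    exact ⟨mul_nonneg ((abs_nonneg _).trans hC) (mw_nonneg hv e), fun h => absurd rfl h⟩

lemma sg_dom {U : Finset ℕ} {v : ℕ → ℝ} (hv : ∀ p, 0 ≤ v p) {C : ℝ} (hC : 0 ≤ C) {m : ℤ}
    (hm : m ≠ 0) {y : ℕ → ℝ} (hy : ∀ p ∈ U, |y p| ≤ C * v p ^ m.natAbs) {k : ℕ}
    (hk : m.natAbs ≤ k) : Dom U v k C (sg U m y).coeff := by
  apply dom_fam hv hC U (fun p => m • ds p) _ (fun p _ q _ h => zds_inj hm h)
  intro p hp
  refine ⟨?_, ?_, ?_⟩
  · rw [zds_mw]; exact hy p hp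
  · rw [zds_len]; exact hk
  · rw [zds_support hm, Finset.singleton_subset_iff]; exact hp

lemma rp_dom {U : Finset ℕ} {v : ℕ → ℝ} (hv : ∀ p, 0 ≤ v p) {C c : ℝ} {y z : ℕ → ℝ}
    (h : YB U v C c y z) : Dom U v 2 (5 * C) (rp c U y z).coeff := by
  obtain ⟨h0, h1, h2⟩ := h
  have hC : 0 ≤ C := (abs_nonneg _).trans h0
  have a1 := sg_dom (U := U) hv hC (m := 1) one_ne_zero (y := y) (by simpa using h1)
    (k := 2) (by decide)
  have a2 := sg_dom (U := U) hv hC (m := -1) (by decide) (y := y) (by simpa using h1)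
    (k := 2) (by decide)
  have a3 := sg_dom (U := U) hv hC (m := 2) (by decide) (y := z) h2
    (k := 2) (by decide)
  have a4 := sg_dom (U := U) hv hC (m := -2) (by decide) (y := z)
    (fun p hp => by simpa using h2 p hp) (k := 2) (by decide)
  have a5 := Dom.add (Dom.add a1 a2) (Dom.add a3 a4)
  have a6 := Dom.add (Dom.single (S := U) hv (k := 2) h0) (Dom.neg a5)
  rw [← sub_eq_add_neg] at a6
  exact Dom.mono hv a6 le_rfl (by linarith)

/-- bound for the sum of the two heights -/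
def Ht (f : Al) (H : ℝ) : Prop := ∀ e, f.coeff e ≠ 0 → hp e + hn e ≤ H

lemma Ht.add {f g : Al} {H : ℝ} (hf : Ht f H) (hg : Ht g H) : Ht (f + g) H := by
  intro e he
  rw [AddMonoidAlgebra.coeff_add, Finsupp.add_apply] at he
  by_cases h0 : f.coeff e = 0
  · rw [h0, zero_add] at he; exact hg e he
  · exact hf e h0

lemma Ht.neg {f : Al} {H : ℝ} (hf : Ht f H) : Ht (-f) H := by
  intro e he
  rw [AddMonoidAlgebra.coeff_neg, Finsupp.neg_apply] at he
  exact hf e (fun h => he (by rw [h, neg_zero]))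

lemma Ht.mono {f : Al} {H H' : ℝ} (hf : Ht f H) (h : H ≤ H') : Ht f H' :=
  fun e he => (hf e he).trans h

lemma Ht.single {c H : ℝ} (hH : 0 ≤ H) : Ht (AddMonoidAlgebra.single (0 : G) c) H := by
  classical
  intro e he
  rw [AddMonoidAlgebra.coeff_single, Finsupp.single_apply] at he
  split_ifs at he with h
  · rw [← h, hp_zero, hn_zero, add_zero]; exact hH
  · exact absurd rfl he

lemma Ht.mul {f g : Al} {H H' : ℝ} (hf : Ht f H) (hg : Ht g H') : Ht (f * g) (H + H') := by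
  classical
  intro e he
  have : ∃ a b : G, f.coeff a ≠ 0 ∧ g.coeff b ≠ 0 ∧ a + b = e := by
    by_contra hcon
    push Not at hcon
    apply he
    rw [AddMonoidAlgebra.coeff_mul, Finsupp.sum]
    refine Finset.sum_eq_zero fun a ha => ?_
    refine Finset.sum_eq_zero fun b hb => ?_
    show (if a + b = e then f.coeff a * g.coeff b else 0) = 0
    rw [if_neg]
    exact hcon a b (Finsupp.mem_support_iff.1 ha) (Finsupp.mem_support_iff.1 hb)
  obtain ⟨a, b, ha, hb, rfl⟩ := this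
  have h1 := hf a ha
  have h2 := hg b hb
  have h3 := hp_add_le a b
  have h4 := hn_add_le a b
  linarith

lemma sg_ht {U : Finset ℕ} {m : ℤ} {y : ℕ → ℝ} {H : ℝ}
    (h : ∀ p ∈ U, y p ≠ 0 → (m.natAbs : ℝ) * Real.log p ≤ H) : Ht (sg U m y) H := by
  classical
  intro e he
  rw [sg_coeff] at he
  obtain ⟨p, hp, hne⟩ := Finset.exists_ne_zero_of_sum_ne_zero he
  split_ifs at hne with h0
  · rw [← h0, zds_hp, zds_hn]
    refine le_trans (le_of_eq ?_) (h p hp hne)
    rw [← add_mul]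
    congr 1
    have : m.toNat + (-m).toNat = m.natAbs := by omega
    exact_mod_cast this
  · exact absurd rfl hne

lemma rp_ht {U : Finset ℕ} {c : ℝ} {y z : ℕ → ℝ} {H : ℝ} (hH : 0 ≤ H)
    (h1 : ∀ p ∈ U, y p ≠ 0 → Real.log p ≤ H) (h2 : ∀ p ∈ U, z p ≠ 0 → 2 * Real.log p ≤ H) :
    Ht (rp c U y z) H := by
  unfold rp
  rw [sub_eq_add_neg]
  refine (Ht.single hH).add (Ht.neg (Ht.add (Ht.add ?_ ?_) (Ht.add ?_ ?_)))
  · exact sg_ht (by simpa using h1)
  · exact sg_ht (by simpa using h1)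
  · exact sg_ht (by simpa using h2)
  · exact sg_ht (by simpa using h2)

lemma ev_sg (t : ℝ) (U : Finset ℕ) (m : ℤ) (y : ℕ → ℝ) : ev t (sg U m y) =
    ∑ p ∈ U, (y p : ℂ) * cexp (((t * (m * Real.log p) : ℝ) : ℂ) * I) := by
  unfold sg
  rw [map_sum]
  refine Finset.sum_congr rfl fun p _ => ?_
  rw [ev_single, zds_fr]

/-- the values are real -/
lemma ev_rp (t c : ℝ) (U : Finset ℕ) (y z : ℕ → ℝ) : ev t (rp c U y z) =
    ((c - 2 * ∑ p ∈ U, y p * Real.cos (t * Real.log p) -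
      2 * ∑ p ∈ U, z p * Real.cos (t * (2 * Real.log p)) : ℝ) : ℂ) := by
  unfold rp
  rw [map_sub, map_add, map_add, map_add, ev_sg, ev_sg, ev_sg, ev_sg, ev_single, fr_zero, mul_zero,
    ofReal_zero, zero_mul, Complex.exp_zero, mul_one, ← Finset.sum_add_distrib,
    ← Finset.sum_add_distrib]
  have key : ∀ x θ : ℝ, (x : ℂ) * cexp ((θ : ℂ) * I) + (x : ℂ) * cexp (((-θ : ℝ) : ℂ) * I) =
      ((2 * (x * Real.cos θ) : ℝ) : ℂ) := by
    intro x θ
    push_cast
    rw [Complex.cos]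
    ring
  have e1 : ∀ p : ℕ, (y p : ℂ) * cexp (((t * (((1 : ℤ) : ℝ) * Real.log p) : ℝ) : ℂ) * I) +
      (y p : ℂ) * cexp (((t * (((-1 : ℤ) : ℝ) * Real.log p) : ℝ) : ℂ) * I) =
      ((2 * (y p * Real.cos (t * Real.log p)) : ℝ) : ℂ) := by
    intro p
    have h1 : t * (((1 : ℤ) : ℝ) * Real.log p) = t * Real.log p := by push_cast; ring
    have h2 : t * (((-1 : ℤ) : ℝ) * Real.log p) = -(t * Real.log p) := by push_cast; ring
    rw [h1, h2]
    exact key _ _
  have e2 : ∀ p : ℕ, (z p : ℂ) * cexp (((t * (((2 : ℤ) : ℝ) * Real.log p) : ℝ) : ℂ) * I) +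
      (z p : ℂ) * cexp (((t * (((-2 : ℤ) : ℝ) * Real.log p) : ℝ) : ℂ) * I) =
      ((2 * (z p * Real.cos (t * (2 * Real.log p))) : ℝ) : ℂ) := by
    intro p
    have h1 : t * (((2 : ℤ) : ℝ) * Real.log p) = t * (2 * Real.log p) := by push_cast; ring
    have h2 : t * (((-2 : ℤ) : ℝ) * Real.log p) = -(t * (2 * Real.log p)) := by push_cast; ring
    rw [h1, h2]
    exact key _ _
  rw [Finset.sum_congr rfl (fun p _ => e1 p), Finset.sum_congr rfl (fun p _ => e2 p),
    Finset.mul_sum, Finset.mul_sum]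
  push_cast
  ring

/-! ### products -/

/-- the constants for products of `n` factors -/
noncomputable def Dc (C M : ℝ) : ℕ → ℝ
  | 0 => 1
  | n + 1 => 5 * C * Dc C M n * Cc M (2 + 2 * n)

lemma Dc_nonneg {C M : ℝ} (hC : 0 ≤ C) (hM : 0 ≤ M) (n : ℕ) : 0 ≤ Dc C M n := by
  induction n with
  | zero => unfold Dc; exact zero_le_one
  | succ n ih =>
    unfold Dc
    have := (Cc_pos hM (2 + 2 * n)).le
    positivity

lemma prod_dom {U : Finset ℕ} {v : ℕ → ℝ} (hv : ∀ p, 0 ≤ v p) {M : ℝ}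
    (hM : ∑ p ∈ U, v p ^ 2 ≤ M) {C : ℝ} (hC : 0 ≤ C) (l : List Al)
    (hl : ∀ f ∈ l, Dom U v 2 (5 * C) f.coeff) :
    Dom U v (2 * l.length) (Dc C M l.length) l.prod.coeff := by
  have hM0 : 0 ≤ M := (Finset.sum_nonneg fun p _ => sq_nonneg _).trans hM
  induction l with
  | nil =>
    rw [List.prod_nil, List.length_nil, mul_zero, AddMonoidAlgebra.one_def]
    exact Dom.single hv (by unfold Dc; simp)
  | cons f l ih =>
    rw [List.prod_cons, List.length_cons]
    have h1 := hl f (List.mem_cons_self ..)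
    have h2 := ih (fun g hg => hl g (List.mem_cons_of_mem _ hg))
    have h3 := Dom.mul hv hM (by positivity) (Dc_nonneg hC hM0 _) h1 h2
    have e : 2 * (l.length + 1) = 2 + 2 * l.length := by ring
    rw [e]
    exact h3

lemma prod_ht (l : List (Al × ℝ)) (hl : ∀ f ∈ l, Ht f.1 f.2) :
    Ht (l.map Prod.fst).prod (l.map Prod.snd).sum := by
  induction l with
  | nil =>
    rw [List.map_nil, List.prod_nil, List.map_nil, List.sum_nil, AddMonoidAlgebra.one_def]
    exact Ht.single le_rfl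
  | cons f l ih =>
    rw [List.map_cons, List.prod_cons, List.map_cons, List.sum_cons]
    exact (hl f (List.mem_cons_self ..)).mul (ih (fun g hg => hl g (List.mem_cons_of_mem _ hg)))

end Pool.Agent.R321.FA
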