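import Pool.Agent.R321.FC9

/-! The moments of the majorant; bounds for the linear statistics. -/

open Finset Complex MeasureTheory Filter Topology

namespace Pool.Agent.R321.FA

open SP (zs ps bt ZZ mu Mk RHs wt)
open SP.ExpAux (wt_nonneg wt_cont Mk_cont Mk_nonneg dd_pos Ya_cont Mk_eq)
open H370.A2 (RR evp evp_cont evp_zero evp_even evp_int int_sym)
open Pool.Agent.TH800.LD (ZZf re_zs)

/-- **moments of the majorant** -/
theorem Mp_mom (hRH : RHs) (m : ℕ) : ∃ C T0 : ℝ, 0 < C ∧ 10 ≤ T0 ∧ ∀ T : ℝ, T0 ≤ T →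
    ∀ V1 V2 : ℝ, V1 ≤ V2 → T + 5 * Real.log T ≤ V1 → V2 ≤ 2 * T - 5 * Real.log T →
    ∫ t in V1..V2, (1 + Mp T t) ^ m ≤ C * T := by
  obtain ⟨C1, T1, hC1, hT1, h1⟩ := Mk_mom hRH m
  obtain ⟨C2, hC2, h2⟩ := SP.gauss_zeros
  set W0 := ∑' i : ℤ, dp i with hW0
  have hW0pos : 0 < W0 := dp_summable.tsum_pos (fun i => (dp_pos _).le) 0 (dp_pos _)
  refine ⟨2 ^ m * ((1 + C2) ^ m + (5 * W0) ^ m * C1), T1, by positivity, hT1,
    fun T hT V1 V2 hV hV1 hV2 => ?_⟩
  have hT10 := hT1.trans hT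
  have hTp : 0 < T := by linarith
  have hT1' : 1 ≤ T := by linarith
  set L := Real.log T with hL
  have hL1 : 1 ≤ L := by
    rw [hL, Real.le_log_iff_exp_le hTp]
    have := Real.exp_one_lt_d9
    linarith
  have hL0 : 0 < L := by linarith
  set I := Finset.Icc (-((⌈L⌉₊ : ℤ) + 1)) ((⌈L⌉₊ : ℤ) + 1) with hI
  have hpt := fun t => dp_mul_le hT10 (fun t => h2 T hT10 t) t
  rw [← hL, ← hI] at hpt
  set W := ∑ i ∈ I, dp i with hW
  have hW1 : 0 < W := by
    apply Finset.sum_pos (fun i _ => dp_pos _)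
    exact ⟨0, by rw [hI, Finset.mem_Icc]; omega⟩
  have hWW : W ≤ W0 := dp_summable.sum_le_tsum _ (fun i _ => (dp_pos _).le)
  have hVT : V2 - V1 ≤ T := by linarith
  have hMk0 : ∀ t, 0 ≤ Mk T 1 t := Mk_nonneg hT1' 1
  have hMkc : Continuous (Mk T 1) := Mk_cont hT1' 1
  have hbd : ∀ t, (1 + Mp T t) ^ m ≤ 2 ^ m * ((1 + C2) ^ m +
      5 ^ m * (W ^ m * ∑ i ∈ I, (dp i / W) * Mk T 1 (t + i / L) ^ m)) := by
    intro t
    set S := ∑ i ∈ I, dp i * Mk T 1 (t + i / L) with hS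
    have hS0 : 0 ≤ S := Finset.sum_nonneg fun i _ => mul_nonneg (dp_pos _).le (hMk0 _)
    have g1 : 1 + Mp T t ≤ (1 + C2) + 5 * S := by linarith [hpt t]
    have g2 : 0 ≤ Mp T t := Mp_nonneg hT1' t
    have g3 : ((1 + C2) + 5 * S) ^ m ≤ 2 ^ m * ((1 + C2) ^ m + (5 * S) ^ m) := by
      have a1 : (1 + C2) + 5 * S ≤ 2 * max (1 + C2) (5 * S) := by
        have := le_max_left (1 + C2) (5 * S)
        have := le_max_right (1 + C2) (5 * S)
        linarith
      calc ((1 + C2) + 5 * S) ^ m ≤ (2 * max (1 + C2) (5 * S)) ^ m :=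
            pow_le_pow_left₀ (by positivity) a1 m
        _ = 2 ^ m * (max (1 + C2) (5 * S)) ^ m := by rw [mul_pow]
        _ ≤ 2 ^ m * ((1 + C2) ^ m + (5 * S) ^ m) := by
            apply mul_le_mul_of_nonneg_left _ (by positivity)
            rcases max_choice (1 + C2) (5 * S) with h | h
            · rw [h]
              exact le_add_of_nonneg_right (by positivity)
            · rw [h]
              exact le_add_of_nonneg_left (by positivity)
    have g4 : S ^ m ≤ W ^ m * ∑ i ∈ I, (dp i / W) * Mk T 1 (t + i / L) ^ m := by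
      have a1 : S = W * ∑ i ∈ I, (dp i / W) * Mk T 1 (t + i / L) := by
        rw [hS, Finset.mul_sum]
        refine Finset.sum_congr rfl fun i _ => ?_
        field_simp
      rw [a1, mul_pow]
      apply mul_le_mul_of_nonneg_left _ (by positivity)
      apply Real.pow_arith_mean_le_arith_mean_pow
      · intro i _
        exact div_nonneg (dp_pos _).le hW1.le
      · rw [← Finset.sum_div]
        exact div_self hW1.ne'
      · intro i _
        exact hMk0 _
    calc (1 + Mp T t) ^ m ≤ ((1 + C2) + 5 * S) ^ m := pow_le_pow_left₀ (by linarith) g1 m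
      _ ≤ 2 ^ m * ((1 + C2) ^ m + (5 * S) ^ m) := g3
      _ = 2 ^ m * ((1 + C2) ^ m + 5 ^ m * S ^ m) := by rw [mul_pow 5]
      _ ≤ _ := by gcongr
  have hci : ∀ i : ℤ, Continuous fun t => Mk T 1 (t + i / L) ^ m := fun i =>
    (hMkc.comp (continuous_id.add continuous_const)).pow m
  have hcs : Continuous fun t => ∑ i ∈ I, (dp i / W) * Mk T 1 (t + i / L) ^ m :=
    continuous_finsetSum _ fun i _ => continuous_const.mul (hci i)
  have hcR : Continuous fun t => 2 ^ m * ((1 + C2) ^ m +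
      5 ^ m * (W ^ m * ∑ i ∈ I, (dp i / W) * Mk T 1 (t + i / L) ^ m)) :=
    continuous_const.mul (continuous_const.add (continuous_const.mul (continuous_const.mul hcs)))
  have hcR2 : Continuous fun t =>
      5 ^ m * (W ^ m * ∑ i ∈ I, (dp i / W) * Mk T 1 (t + i / L) ^ m) :=
    continuous_const.mul (continuous_const.mul hcs)
  have hcL : Continuous fun t => (1 + Mp T t) ^ m := (continuous_const.add (Mp_cont hT1')).pow m
  have hsh : ∀ i ∈ I, ∫ t in V1..V2, Mk T 1 (t + i / L) ^ m ≤ C1 * T := by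
    intro i hi
    have g1 := intervalIntegral.integral_comp_add_right (a := V1) (b := V2)
      (fun t => Mk T 1 t ^ m) ((i : ℝ) / L)
    rw [g1]
    rw [hI, Finset.mem_Icc] at hi
    have g2 : |(i : ℝ)| ≤ L + 2 := by
      have g3 := Nat.ceil_lt_add_one hL0.le
      rw [abs_le]
      constructor
      · have : (-((⌈L⌉₊ : ℤ) + 1) : ℝ) ≤ (i : ℝ) := by exact_mod_cast hi.1
        push_cast at this
        linarith
      · have : (i : ℝ) ≤ (((⌈L⌉₊ : ℤ) + 1 : ℤ) : ℝ) := by exact_mod_cast hi.2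
        push_cast at this
        linarith
    have g4 : |(i : ℝ) / L| ≤ 3 := by
      rw [abs_div, abs_of_pos hL0, div_le_iff₀ hL0]
      linarith
    rw [abs_le] at g4
    apply h1 T hT
    · linarith
    · linarith [g4.1]
    · linarith [g4.2]
  calc ∫ t in V1..V2, (1 + Mp T t) ^ m ≤ ∫ t in V1..V2, 2 ^ m * ((1 + C2) ^ m +
      5 ^ m * (W ^ m * ∑ i ∈ I, (dp i / W) * Mk T 1 (t + i / L) ^ m)) :=
        intervalIntegral.integral_mono_on hV (hcL.intervalIntegrable _ _)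
          (hcR.intervalIntegrable _ _) fun t _ => hbd t
    _ = 2 ^ m * ((V2 - V1) * (1 + C2) ^ m +
      5 ^ m * (W ^ m * ∑ i ∈ I, (dp i / W) * ∫ t in V1..V2, Mk T 1 (t + i / L) ^ m)) := by
        rw [intervalIntegral.integral_const_mul, intervalIntegral.integral_add (by simp)
          (hcR2.intervalIntegrable _ _),
          intervalIntegral.integral_const, smul_eq_mul, intervalIntegral.integral_const_mul,
          intervalIntegral.integral_const_mul, intervalIntegral.integral_finsetSum]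
        · simp_rw [intervalIntegral.integral_const_mul]
        · intro i _
          exact (continuous_const.mul (hci i)).intervalIntegrable _ _
    _ ≤ 2 ^ m * (T * (1 + C2) ^ m + 5 ^ m * (W ^ m * ∑ i ∈ I, (dp i / W) * (C1 * T))) := by
        gcongr with i hi
        · exact div_nonneg (dp_pos _).le hW1.le
        · exact hsh i hi
    _ = 2 ^ m * (T * (1 + C2) ^ m + 5 ^ m * (W ^ m * (C1 * T))) := by
        rw [← Finset.sum_mul, ← Finset.sum_div, div_self hW1.ne', one_mul]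
    _ ≤ 2 ^ m * (T * (1 + C2) ^ m + 5 ^ m * (W0 ^ m * (C1 * T))) := by gcongr
    _ = _ := by rw [mul_pow 5 W0]; ring

/-- decay of the kernels -/
lemma RR_dp {ψ : ℝ → ℝ} {μ : ℝ} (hψ : Continuous ψ) (hz : ∀ x, μ ≤ |x| → ψ x = 0)
    {C : ℝ} (hC : ∀ x, |RR ψ μ x| * x ^ 2 ≤ C) : ∃ G : ℝ, 1 ≤ G ∧
    ∀ x, |RR ψ μ x| ≤ G * (1 + |2 * Real.pi * x|) ^ (-2 : ℝ) := by
  have hC0 : 0 ≤ C := by
    have := hC 0
    simpa using this
  have hB0 : 0 ≤ ∫ α, |evp ψ α| := integral_nonneg fun _ => abs_nonneg _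
  refine ⟨1 + 2 * (∫ α, |evp ψ α|) + 8 * Real.pi ^ 2 * C, by
    have : 0 ≤ 8 * Real.pi ^ 2 * C := by positivity
    linarith, fun x => ?_⟩
  have h1 := H370.A2.RR_bound hψ hz x
  have h2 := hC x
  have h3 : 0 < 1 + |2 * Real.pi * x| := by positivity
  rw [Real.rpow_neg h3.le, ← div_eq_mul_inv, le_div_iff₀ (by positivity)]
  have h4 : (1 + |2 * Real.pi * x|) ^ (2 : ℝ) ≤ 2 + 8 * Real.pi ^ 2 * x ^ 2 := by
    rw [Real.rpow_two]
    have h5 : |2 * Real.pi * x| ^ 2 = 4 * Real.pi ^ 2 * x ^ 2 := by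
      rw [sq_abs]; ring
    nlinarith [sq_nonneg (|2 * Real.pi * x| - 1)]
  have h0 := abs_nonneg (RR ψ μ x)
  calc |RR ψ μ x| * (1 + |2 * Real.pi * x|) ^ (2 : ℝ) ≤
      |RR ψ μ x| * (2 + 8 * Real.pi ^ 2 * x ^ 2) := mul_le_mul_of_nonneg_left h4 h0
    _ = 2 * |RR ψ μ x| + 8 * Real.pi ^ 2 * (|RR ψ μ x| * x ^ 2) := by ring
    _ ≤ 2 * (∫ α, |evp ψ α|) + 8 * Real.pi ^ 2 * C := by gcongr
    _ ≤ _ := by linarith

lemma p2_dp (y : ℝ) : (1 + |y|) ^ (-2 : ℝ) = (1 + |y|) ^ (-(3 / 4) : ℝ) * dp y := by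
  unfold dp
  have := abs_nonneg y
  rw [← Real.rpow_add (by linarith)]
  norm_num

end Pool.Agent.R321.FA
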