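import Pool.Agent.R321.FC10

/-! Sharp and smooth counts in a window. -/

open Finset Complex MeasureTheory Filter Topology

namespace Pool.Agent.R321.FA

open SP (ZZ mu Mk RHs)
open H370.A2 (RR evp)
open Pool.Agent.TH800.LD (ZZf)

/-- zeros in the window -/
def JF (t w : ℝ) (s : ℂ) : Prop := t < s.im ∧ s.im ≤ t + w

open Classical in
/-- the sharp linear statistic -/
noncomputable def AA {T : ℝ} (hT : 1 ≤ T) (g : ℝ → ℝ) (t w u : ℝ) : ℝ :=
  ∑ s ∈ (ZZf hT).toFinset.filter (JF t w),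
    (mu s : ℝ) * g ((s.im - t) * Real.log T / (2 * Real.pi) - u)

/-- decay of a kernel -/
def Dk (G : ℝ) (g : ℝ → ℝ) : Prop := ∀ x, |g x| ≤ G * (1 + |2 * Real.pi * x|) ^ (-2 : ℝ)

lemma xs_eq {L : ℝ} (hL : 0 < L) (γ t u : ℝ) :
    2 * Real.pi * ((γ - t) * L / (2 * Real.pi) - u) = L * (γ - (t + 2 * Real.pi * u / L)) := by
  have := Real.pi_pos
  field_simp
  ring

/-- the general bound -/
lemma AA_gen {T : ℝ} (hT : 10 ≤ T) {g : ℝ → ℝ} {G : ℝ} (hG0 : 0 ≤ G) (hG : Dk G g) {Λ t u R : ℝ}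
    (hΛ : 0 < Λ) (hLΛ : 2 * Real.pi * Λ ≤ Real.log T) (hu0 : -Real.log T ≤ u)
    (hu1 : u ≤ Λ + Real.log T)
    (hR : ∀ x, 0 < x → x ≤ Λ → (1 + |2 * Real.pi * (x - u)|) ^ (-(3 / 4) : ℝ) ≤ R) :
    |AA (by linarith : 1 ≤ T) g t (2 * Real.pi * Λ / Real.log T) u| ≤
      Real.exp 32 * (G * R) * Mp T (t + 2 * Real.pi * u / Real.log T) := by
  classical
  have hT1 : 1 ≤ T := by linarith
  have hpi := Real.pi_pos
  have hpi3 := Real.pi_gt_three
  have hpi4 : Real.pi < 3.15 := Real.pi_lt_d2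
  set L := Real.log T with hL
  have hL0 : 0 < L := Real.log_pos (by linarith)
  set w := 2 * Real.pi * Λ / L with hw
  have hw0 : 0 < w := by positivity
  have hw1 : w ≤ 1 := by rw [hw, div_le_one hL0]; exact hLΛ
  set t' := t + 2 * Real.pi * u / L with ht'
  have hR0 : 0 ≤ R := le_trans (by positivity) (hR Λ hΛ le_rfl)
  unfold AA
  rw [Mp_eq hT1, Finset.mul_sum]
  refine (Finset.abs_sum_le_sum_abs _ _).trans ?_
  refine (Finset.sum_le_sum (g := fun s => Real.exp 32 * (G * R) *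
    ((mu s : ℝ) * Real.exp (-(s.im - t') ^ 2 / 2) * dp (L * (s.im - t')))) fun s hs => ?_).trans ?_
  · rw [Finset.mem_filter] at hs
    obtain ⟨-, h1, h2⟩ := hs
    set x := (s.im - t) * L / (2 * Real.pi) with hx
    have hx0 : 0 < x := by
      rw [hx]; have : 0 < s.im - t := by linarith
      positivity
    have hx1 : x ≤ Λ := by
      rw [hx, div_le_iff₀ (by positivity)]
      have : s.im - t ≤ w := by linarith
      calc (s.im - t) * L ≤ w * L := mul_le_mul_of_nonneg_right this hL0.le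
        _ = Λ * (2 * Real.pi) := by rw [hw]; field_simp
    have e1 : 2 * Real.pi * (x - u) = L * (s.im - t') := xs_eq hL0 s.im t u
    have h3 := hG (x - u)
    rw [e1, p2_dp] at h3
    have h4 := hR x hx0 hx1
    rw [e1] at h4
    have hdp := (dp_pos (L * (s.im - t'))).le
    have h5 : |g (x - u)| ≤ G * R * dp (L * (s.im - t')) := by
      refine h3.trans ?_
      calc G * ((1 + |L * (s.im - t')|) ^ (-(3 / 4) : ℝ) * dp (L * (s.im - t'))) ≤
          G * (R * dp (L * (s.im - t'))) := by gcongr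
        _ = _ := by ring
    have h6 : 1 ≤ Real.exp 32 * Real.exp (-(s.im - t') ^ 2 / 2) := by
      rw [← Real.exp_add, ← Real.exp_zero]
      apply Real.exp_le_exp.2
      have g1 : |s.im - t'| ≤ 8 := by
        rw [ht', abs_le]
        have a1 : 2 * Real.pi * u / L ≤ 2 * Real.pi * (Λ + L) / L := by gcongr
        have a2 : 2 * Real.pi * (Λ + L) / L = w + 2 * Real.pi := by rw [hw]; field_simp
        have a3 : -(2 * Real.pi) ≤ 2 * Real.pi * u / L := by
          rw [le_div_iff₀ hL0]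
          nlinarith
        constructor
        · linarith
        · linarith
      have g2 : (s.im - t') ^ 2 ≤ 8 ^ 2 := by
        rw [← sq_abs]
        exact pow_le_pow_left₀ (abs_nonneg _) g1 2
      linarith
    rw [abs_mul, Nat.abs_cast]
    calc (mu s : ℝ) * |g (x - u)| ≤ (mu s : ℝ) * (G * R * dp (L * (s.im - t'))) := by gcongr
      _ ≤ (mu s : ℝ) * (G * R * dp (L * (s.im - t'))) *
          (Real.exp 32 * Real.exp (-(s.im - t') ^ 2 / 2)) :=
          le_mul_of_one_le_right (by positivity) h6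
      _ = _ := by ring
  · apply Finset.sum_le_sum_of_subset_of_nonneg (Finset.filter_subset _ _)
    intro s _ _
    have hdp := (dp_pos (L * (s.im - t'))).le
    positivity

/-- the smooth statistic is dominated by the majorant -/
lemma XX_le {T : ℝ} (hT : 10 ≤ T) {ψ : ℝ → ℝ} {μ G : ℝ} (hG0 : 0 ≤ G) (hG : Dk G (RR ψ μ)) (t : ℝ) :
    |XX ψ μ T t| ≤ G * Mp T t := by
  have hT1 : 1 ≤ T := by linarith
  have hpi := Real.pi_pos
  rw [XX_eq hT1, Mp_eq hT1, Finset.mul_sum]
  refine (Finset.abs_sum_le_sum_abs _ _).trans (Finset.sum_le_sum fun s _ => ?_)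
  have h1 := hG ((s.im - t) * Real.log T / (2 * Real.pi))
  have e1 : 2 * Real.pi * ((s.im - t) * Real.log T / (2 * Real.pi)) = Real.log T * (s.im - t) := by
    field_simp
  rw [e1, p2_dp] at h1
  have h2 : (1 + |Real.log T * (s.im - t)|) ^ (-(3 / 4) : ℝ) ≤ 1 :=
    Real.rpow_le_one_of_one_le_of_nonpos (by linarith [abs_nonneg (Real.log T * (s.im - t))])
      (by norm_num)
  have hdp := (dp_pos (Real.log T * (s.im - t))).le
  rw [abs_mul, abs_mul, Nat.abs_cast, abs_of_pos (Real.exp_pos _)]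
  calc (mu s : ℝ) * Real.exp (-(s.im - t) ^ 2 / 2) * |RR ψ μ ((s.im - t) * Real.log T / (2 * Real.pi))| ≤
      (mu s : ℝ) * Real.exp (-(s.im - t) ^ 2 / 2) * (G * (1 * dp (Real.log T * (s.im - t)))) := by
        apply mul_le_mul_of_nonneg_left _ (by positivity)
        refine h1.trans ?_
        gcongr
    _ = _ := by ring

/-- the difference of the sharp and the smooth statistic -/
lemma AA_sub {T : ℝ} (hT : 10 ≤ T) {ψ : ℝ → ℝ} {μ G : ℝ} (hG0 : 0 ≤ G) (hG : Dk G (RR ψ μ))
    {Λ t u : ℝ} (hΛ : 0 < Λ) (hLΛ : 2 * Real.pi * Λ ≤ Real.log T) (hu0 : 0 ≤ u) (hu1 : u ≤ Λ) :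
    |AA (by linarith : 1 ≤ T) (RR ψ μ) t (2 * Real.pi * Λ / Real.log T) u -
      XX ψ μ T (t + 2 * Real.pi * u / Real.log T)| ≤
      G * (((1 + u) ^ (-(3 / 4) : ℝ) + (1 + (Λ - u)) ^ (-(3 / 4) : ℝ)) +
        Real.exp 32 * (2 * Real.pi * Λ / Real.log T) ^ 2) *
        Mp T (t + 2 * Real.pi * u / Real.log T) := by
  classical
  have hT1 : 1 ≤ T := by linarith
  have hpi := Real.pi_pos
  have hpi3 := Real.pi_gt_three
  set L := Real.log T with hL
  have hL0 : 0 < L := Real.log_pos (by linarith)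
  set w := 2 * Real.pi * Λ / L with hw
  have hw0 : 0 < w := by positivity
  have hw1 : w ≤ 1 := by rw [hw, div_le_one hL0]; exact hLΛ
  set t' := t + 2 * Real.pi * u / L with ht'
  have ht1 : t ≤ t' := by rw [ht']; have : 0 ≤ 2 * Real.pi * u / L := by positivity
                          linarith
  have ht2 : t' ≤ t + w := by
    rw [ht', hw]
    have : 2 * Real.pi * u / L ≤ 2 * Real.pi * Λ / L := by gcongr
    linarith
  unfold AA
  rw [XX_eq hT1, Mp_eq hT1, Finset.mul_sum, Finset.sum_filter, ← Finset.sum_sub_distrib]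
  refine (Finset.abs_sum_le_sum_abs _ _).trans (Finset.sum_le_sum fun s _ => ?_)
  set x := (s.im - t) * L / (2 * Real.pi) with hx
  have e1 : 2 * Real.pi * (x - u) = L * (s.im - t') := xs_eq hL0 s.im t u
  have e2 : (s.im - t') * L / (2 * Real.pi) = x - u := by
    have : x - u = (2 * Real.pi * (x - u)) / (2 * Real.pi) := by field_simp
    rw [this, e1]
    ring
  rw [e2]
  have h3 := hG (x - u)
  rw [e1, p2_dp] at h3
  have hdp := (dp_pos (L * (s.im - t'))).le
  set E := Real.exp (-(s.im - t') ^ 2 / 2) with hE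
  have hE0 : 0 < E := Real.exp_pos _
  have ha1 : 0 ≤ (1 + u) ^ (-(3 / 4) : ℝ) := by positivity
  have ha2 : 0 ≤ (1 + (Λ - u)) ^ (-(3 / 4) : ℝ) := by
    have : 0 ≤ Λ - u := by linarith
    positivity
  have hrp : (1 + |L * (s.im - t')|) ^ (-(3 / 4) : ℝ) ≤ 1 :=
    Real.rpow_le_one_of_one_le_of_nonpos (by linarith [abs_nonneg (L * (s.im - t'))])
      (by norm_num)
  by_cases hJ : JF t w s
  · rw [if_pos hJ]
    obtain ⟨h1, h2⟩ := hJ
    have e3 : (mu s : ℝ) * RR ψ μ (x - u) - (mu s : ℝ) * E * RR ψ μ (x - u) =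
        (mu s : ℝ) * (1 - E) * RR ψ μ (x - u) := by ring
    have g1 : |s.im - t'| ≤ w := by
      rw [abs_le]; constructor <;> linarith
    have g2 : (s.im - t') ^ 2 ≤ w ^ 2 := by
      rw [← sq_abs]
      exact pow_le_pow_left₀ (abs_nonneg _) g1 2
    have g3 : 1 - E ≤ w ^ 2 := by
      have := Real.add_one_le_exp (-(s.im - t') ^ 2 / 2)
      nlinarith
    have g4 : 0 ≤ 1 - E := by
      rw [sub_nonneg, hE, Real.exp_le_one_iff]
      have := sq_nonneg (s.im - t')
      linarith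
    have h6 : 1 ≤ Real.exp 32 * E := by
      rw [hE, ← Real.exp_add, ← Real.exp_zero]
      apply Real.exp_le_exp.2
      have : w ^ 2 ≤ 1 := pow_le_one₀ hw0.le hw1
      linarith
    rw [e3, abs_mul, abs_mul, Nat.abs_cast, abs_of_nonneg g4]
    calc (mu s : ℝ) * (1 - E) * |RR ψ μ (x - u)| ≤
        (mu s : ℝ) * w ^ 2 * (G * (1 * dp (L * (s.im - t')))) := by
          apply mul_le_mul
          · exact mul_le_mul_of_nonneg_left g3 (Nat.cast_nonneg _)
          · refine h3.trans ?_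
            gcongr
          · exact abs_nonneg _
          · positivity
      _ ≤ (mu s : ℝ) * w ^ 2 * (G * (1 * dp (L * (s.im - t')))) * (Real.exp 32 * E) :=
          le_mul_of_one_le_right (by positivity) h6
      _ = G * (Real.exp 32 * w ^ 2) * ((mu s : ℝ) * E * dp (L * (s.im - t'))) := by ring
      _ ≤ _ := by
          apply mul_le_mul_of_nonneg_right _ (by positivity)
          apply mul_le_mul_of_nonneg_left _ hG0
          linarith
  · rw [if_neg hJ, zero_sub, abs_neg, abs_mul, abs_mul, Nat.abs_cast, abs_of_pos hE0]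
    have h7 : (1 + |L * (s.im - t')|) ^ (-(3 / 4) : ℝ) ≤
        (1 + u) ^ (-(3 / 4) : ℝ) + (1 + (Λ - u)) ^ (-(3 / 4) : ℝ) := by
      unfold JF at hJ
      rw [not_and_or, not_lt, not_le] at hJ
      rcases hJ with h | h
      · refine le_trans ?_ (le_add_of_nonneg_right ha2)
        apply Real.rpow_le_rpow_of_nonpos (by linarith) _ (by norm_num)
        have g1 : L * (s.im - t') ≤ -u := by
          have : s.im - t' ≤ -(2 * Real.pi * u / L) := by rw [ht']; linarith
          calc L * (s.im - t') ≤ L * (-(2 * Real.pi * u / L)) := by gcongr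
            _ = -(2 * Real.pi * u) := by field_simp
            _ ≤ -u := by nlinarith
        have := neg_abs_le (L * (s.im - t'))
        linarith
      · refine le_trans ?_ (le_add_of_nonneg_left ha1)
        apply Real.rpow_le_rpow_of_nonpos (by linarith) _ (by norm_num)
        have g1 : Λ - u ≤ L * (s.im - t') := by
          have : 2 * Real.pi * (Λ - u) / L ≤ s.im - t' := by
            rw [ht']
            have : 2 * Real.pi * (Λ - u) / L = w - 2 * Real.pi * u / L := by rw [hw]; ring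
            linarith
          calc Λ - u ≤ 2 * Real.pi * (Λ - u) := by nlinarith
            _ = L * (2 * Real.pi * (Λ - u) / L) := by field_simp
            _ ≤ L * (s.im - t') := by gcongr
        have := le_abs_self (L * (s.im - t'))
        linarith
    calc (mu s : ℝ) * E * |RR ψ μ (x - u)| ≤
        (mu s : ℝ) * E * (G * ((((1 + u) ^ (-(3 / 4) : ℝ) + (1 + (Λ - u)) ^ (-(3 / 4) : ℝ))) *
          dp (L * (s.im - t')))) := by
          apply mul_le_mul_of_nonneg_left _ (by positivity)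
          refine h3.trans ?_
          gcongr
      _ = G * ((1 + u) ^ (-(3 / 4) : ℝ) + (1 + (Λ - u)) ^ (-(3 / 4) : ℝ)) *
          ((mu s : ℝ) * E * dp (L * (s.im - t'))) := by ring
      _ ≤ _ := by
          apply mul_le_mul_of_nonneg_right _ (by positivity)
          apply mul_le_mul_of_nonneg_left _ hG0
          have : 0 ≤ Real.exp 32 * w ^ 2 := by positivity
          linarith

/-- the number of zeros in the window -/
lemma N_le {C T : ℝ} (hT : 10 ≤ T)
    (hC : ∀ t : ℝ, ∑ᶠ s ∈ ZZ T, (mu s : ℝ) * Real.exp (-(s.im - t) ^ 2 / 2) ≤ C * Real.log T)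
    {t w : ℝ} (hw1 : w ≤ 1) [DecidablePred (JF t w)] :
    ∑ s ∈ (ZZf (by linarith : 1 ≤ T)).toFinset.filter (JF t w), (mu s : ℝ) ≤
      2 * (C * Real.log T) := by
  have hT1 : 1 ≤ T := by linarith
  have h1 : ∑ s ∈ (ZZf hT1).toFinset, (mu s : ℝ) * Real.exp (-(s.im - t) ^ 2 / 2) =
      ∑ᶠ s ∈ ZZ T, (mu s : ℝ) * Real.exp (-(s.im - t) ^ 2 / 2) :=
    (finsum_mem_eq_finite_toFinset_sum _ (ZZf hT1)).symm
  calc ∑ s ∈ (ZZf hT1).toFinset.filter (JF t w), (mu s : ℝ) ≤
      ∑ s ∈ (ZZf hT1).toFinset.filter (JF t w),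
        2 * ((mu s : ℝ) * Real.exp (-(s.im - t) ^ 2 / 2)) := by
        refine Finset.sum_le_sum fun s hs => ?_
        rw [Finset.mem_filter] at hs
        obtain ⟨-, g1, g2⟩ := hs
        have g3 : 1 / 2 ≤ Real.exp (-(s.im - t) ^ 2 / 2) := by
          have := Real.add_one_le_exp (-(s.im - t) ^ 2 / 2)
          have g4 : (s.im - t) ^ 2 ≤ 1 := by
            have : s.im - t ≤ 1 := by linarith
            have : 0 ≤ s.im - t := by linarith
            nlinarith
          linarith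
        have : 0 ≤ (mu s : ℝ) := Nat.cast_nonneg _
        nlinarith
    _ ≤ ∑ s ∈ (ZZf hT1).toFinset, 2 * ((mu s : ℝ) * Real.exp (-(s.im - t) ^ 2 / 2)) :=
        Finset.sum_le_sum_of_subset_of_nonneg (Finset.filter_subset _ _)
          fun s _ _ => by positivity
    _ ≤ 2 * (C * Real.log T) := by
        rw [← Finset.mul_sum, h1]
        exact mul_le_mul_of_nonneg_left (hC t) (by norm_num)

/-- far away -/
lemma AA_far {C T : ℝ} (hC0 : 0 ≤ C) (hT : 10 ≤ T)
    (hC : ∀ t : ℝ, ∑ᶠ s ∈ ZZ T, (mu s : ℝ) * Real.exp (-(s.im - t) ^ 2 / 2) ≤ C * Real.log T)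
    {g : ℝ → ℝ} {G : ℝ} (hG0 : 0 ≤ G) (hG : Dk G g) {Λ t u d : ℝ}
    (hΛ : 0 < Λ) (hLΛ : 2 * Real.pi * Λ ≤ Real.log T) (hd : Real.log T ≤ d)
    (hR : ∀ x, 0 < x → x ≤ Λ → d ≤ |x - u|) :
    |AA (by linarith : 1 ≤ T) g t (2 * Real.pi * Λ / Real.log T) u| ≤ 2 * C * G / d := by
  classical
  have hT1 : 1 ≤ T := by linarith
  have hpi := Real.pi_pos
  have hpi3 := Real.pi_gt_three
  set L := Real.log T with hL
  have hL0 : 0 < L := Real.log_pos (by linarith)
  have hd0 : 0 < d := by linarith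
  set w := 2 * Real.pi * Λ / L with hw
  have hw1 : w ≤ 1 := by rw [hw, div_le_one hL0]; exact hLΛ
  unfold AA
  refine (Finset.abs_sum_le_sum_abs _ _).trans ?_
  refine (Finset.sum_le_sum (g := fun s => (mu s : ℝ) * (G / d ^ 2)) fun s hs => ?_).trans ?_
  · rw [Finset.mem_filter] at hs
    obtain ⟨-, h1, h2⟩ := hs
    set x := (s.im - t) * L / (2 * Real.pi) with hx
    have hx0 : 0 < x := by
      rw [hx]; have : 0 < s.im - t := by linarith
      positivity
    have hx1 : x ≤ Λ := by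
      rw [hx, div_le_iff₀ (by positivity)]
      have : s.im - t ≤ w := by linarith
      calc (s.im - t) * L ≤ w * L := mul_le_mul_of_nonneg_right this hL0.le
        _ = Λ * (2 * Real.pi) := by rw [hw]; field_simp
    have h4 := hR x hx0 hx1
    rw [abs_mul, Nat.abs_cast]
    apply mul_le_mul_of_nonneg_left _ (Nat.cast_nonneg _)
    refine (hG (x - u)).trans ?_
    rw [div_eq_mul_inv, ← Real.rpow_two, ← Real.rpow_neg hd0.le]
    apply mul_le_mul_of_nonneg_left _ hG0
    apply Real.rpow_le_rpow_of_nonpos hd0 _ (by norm_num)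
    rw [abs_mul, abs_of_pos (by positivity : 0 < 2 * Real.pi)]
    nlinarith [abs_nonneg (x - u)]
  · rw [← Finset.sum_mul]
    have h1 := N_le hT hC (t := t) hw1
    calc _ ≤ (2 * (C * L)) * (G / d ^ 2) := mul_le_mul_of_nonneg_right h1 (by positivity)
      _ = 2 * C * G * (L / d ^ 2) := by ring
      _ ≤ 2 * C * G * (1 / d) := by
          apply mul_le_mul_of_nonneg_left _ (by positivity)
          rw [div_le_div_iff₀ (by positivity) hd0]
          nlinarith
      _ = _ := by ring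

end Pool.Agent.R321.FA
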