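import Pool.Agent.R321.FC11

/-! Products of sharp and smooth statistics. -/

open Finset Complex MeasureTheory Filter Topology

namespace Pool.Agent.R321.FA

open SP (ZZ mu Mk RHs)
open H370.A2 (RR evp RR_cont)
open Pool.Agent.TH800.LD (ZZf)

lemma prod_diff {k : ℕ} (a b : Fin k → ℝ) {M δ : ℝ} (hM : 0 ≤ M) (ha : ∀ j, |a j| ≤ M)
    (hb : ∀ j, |b j| ≤ M) (hd : ∀ j, |a j - b j| ≤ δ * M) :
    |∏ j, a j - ∏ j, b j| ≤ k * δ * M ^ k := by
  induction k with
  | zero => simp
  | succ n ih =>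
    rw [Fin.prod_univ_succ, Fin.prod_univ_succ]
    have h1 := ih (fun j => a j.succ) (fun j => b j.succ) (fun j => ha _) (fun j => hb _)
      (fun j => hd _)
    set A := ∏ i : Fin n, a i.succ with hA
    set B := ∏ i : Fin n, b i.succ with hB
    have h2 : |B| ≤ M ^ n := by
      rw [hB, Finset.abs_prod]
      calc ∏ i : Fin n, |b i.succ| ≤ ∏ _i : Fin n, M :=
            Finset.prod_le_prod (fun _ _ => abs_nonneg _) (fun i _ => hb _)
        _ = M ^ n := by simp
    have e : a 0 * A - b 0 * B = a 0 * (A - B) + (a 0 - b 0) * B := by ring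
    rw [e]
    have hδ : 0 ≤ δ * M := (abs_nonneg _).trans (hd 0)
    calc |a 0 * (A - B) + (a 0 - b 0) * B| ≤ |a 0| * |A - B| + |a 0 - b 0| * |B| := by
          refine (abs_add_le _ _).trans ?_
          rw [abs_mul, abs_mul]
      _ ≤ M * (n * δ * M ^ n) + (δ * M) * M ^ n := by
          apply add_le_add
          · exact mul_le_mul (ha 0) h1 (abs_nonneg _) hM
          · exact mul_le_mul (hd 0) h2 (abs_nonneg _) hδ
      _ = ((n + 1 : ℕ) : ℝ) * δ * M ^ (n + 1) := by push_cast; ring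

lemma prod_abs_le {k : ℕ} (a : Fin k → ℝ) {M : ℝ} (ha : ∀ j, |a j| ≤ M) :
    |∏ j, a j| ≤ M ^ k := by
  rw [Finset.abs_prod]
  calc ∏ i : Fin k, |a i| ≤ ∏ _i : Fin k, M :=
        Finset.prod_le_prod (fun _ _ => abs_nonneg _) (fun i _ => ha _)
    _ = M ^ k := by simp

lemma ioi2 {L : ℝ} (hL : 0 < L) : ∫ x in Set.Ioi L, x ^ (-2 : ℝ) = 1 / L := by
  rw [integral_Ioi_rpow_of_lt (by norm_num) hL, show (-2 : ℝ) + 1 = -1 by norm_num,
    Real.rpow_neg_one]
  rw [one_div]; ring

lemma AA_cont {T : ℝ} (hT : 1 ≤ T) {g : ℝ → ℝ} (hg : Continuous g) (t w : ℝ) :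
    Continuous (fun u => AA hT g t w u) := by
  classical
  unfold AA
  exact continuous_finsetSum _ fun s _ =>
    continuous_const.mul (hg.comp (continuous_const.sub continuous_id))

/-- splitting the integral over the line -/
lemma split_int {F : ℝ → ℝ} (hF : Continuous F) {Λ L c : ℝ} (hΛ : 0 < Λ) (hΛL : Λ ≤ L)
    (hL : 1 ≤ L) (hc : 0 ≤ c) (h1 : ∀ u, u ≤ -L → |F u| ≤ c * (-u) ^ (-2 : ℝ))
    (h2 : ∀ u, Λ + L ≤ u → |F u| ≤ c * (u - Λ) ^ (-2 : ℝ)) :
    Integrable F ∧ |(∫ u, F u) - ∫ u in (0 : ℝ)..Λ, F u| ≤ |∫ u in (-L)..0, F u| +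
      |∫ u in Λ..(Λ + L), F u| + 5 * c / L := by
  have hL0 : 0 < L := by linarith
  have h2' : ∀ u, Λ + L ≤ u → |F u| ≤ 4 * c * u ^ (-2 : ℝ) := by
    intro u hu
    refine (h2 u hu).trans ?_
    have g1 : (u - Λ) ^ (-2 : ℝ) ≤ (u / 2) ^ (-2 : ℝ) :=
      Real.rpow_le_rpow_of_nonpos (by linarith) (by linarith) (by norm_num)
    have g2 : (u / 2) ^ (-2 : ℝ) = 4 * u ^ (-2 : ℝ) := by
      rw [Real.div_rpow (by linarith) (by norm_num), Real.rpow_neg (by norm_num : (0:ℝ) ≤ 2),
        Real.rpow_two]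
      norm_num
      ring
    rw [g2] at g1
    calc c * (u - Λ) ^ (-2 : ℝ) ≤ c * (4 * u ^ (-2 : ℝ)) := mul_le_mul_of_nonneg_left g1 hc
      _ = _ := by ring
  have hI2 : IntegrableOn (fun x : ℝ => x ^ (-2 : ℝ)) (Set.Ioi L) :=
    integrableOn_Ioi_rpow_of_lt (by norm_num) hL0
  have hI3 : IntegrableOn (fun x : ℝ => x ^ (-2 : ℝ)) (Set.Ioi (Λ + L)) :=
    integrableOn_Ioi_rpow_of_lt (by norm_num) (by linarith)
  have hint : Integrable F := by
    obtain ⟨M, hM⟩ := (isCompact_Icc (a := -L) (b := Λ + L)).exists_bound_of_continuousOn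
      hF.continuousOn
    have hM0 : 0 ≤ M := (norm_nonneg _).trans (hM 0 ⟨by linarith, by linarith⟩)
    refine (integrable_inv_one_add_sq.const_mul (M * (1 + (Λ + L) ^ 2) + 8 * c)).mono'
      hF.aestronglyMeasurable (Eventually.of_forall fun u => ?_)
    rw [← div_eq_mul_inv, le_div_iff₀ (by positivity)]
    by_cases hu1 : u < -L
    · have g1 := h1 u hu1.le
      have g2 : (-u) ^ (-2 : ℝ) * (1 + u ^ 2) ≤ 2 := by
        rw [Real.rpow_neg (by linarith), Real.rpow_two, inv_mul_le_iff₀ (by nlinarith)]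
        nlinarith
      rw [Real.norm_eq_abs]
      calc |F u| * (1 + u ^ 2) ≤ c * (-u) ^ (-2 : ℝ) * (1 + u ^ 2) := by gcongr
        _ = c * ((-u) ^ (-2 : ℝ) * (1 + u ^ 2)) := by ring
        _ ≤ c * 2 := by gcongr
        _ ≤ _ := by
          have : 0 ≤ M * (1 + (Λ + L) ^ 2) := by positivity
          linarith
    · by_cases hu2 : Λ + L < u
      · have g1 := h2' u hu2.le
        have hu0 : 0 < u := by linarith
        have g2 : u ^ (-2 : ℝ) * (1 + u ^ 2) ≤ 2 := by
          rw [Real.rpow_neg (by linarith), Real.rpow_two, inv_mul_le_iff₀ (by positivity)]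
          nlinarith
        rw [Real.norm_eq_abs]
        calc |F u| * (1 + u ^ 2) ≤ 4 * c * u ^ (-2 : ℝ) * (1 + u ^ 2) := by gcongr
          _ = 4 * c * (u ^ (-2 : ℝ) * (1 + u ^ 2)) := by ring
          _ ≤ 4 * c * 2 := by gcongr
          _ ≤ _ := by
            have : 0 ≤ M * (1 + (Λ + L) ^ 2) := by positivity
            linarith
      · push Not at hu1 hu2
        have g1 := hM u ⟨hu1, hu2⟩
        have g2 : u ^ 2 ≤ (Λ + L) ^ 2 := by
          rw [← sq_abs u]
          apply pow_le_pow_left₀ (abs_nonneg _)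
          rw [abs_le]; constructor <;> linarith
        calc ‖F u‖ * (1 + u ^ 2) ≤ M * (1 + (Λ + L) ^ 2) := by gcongr
          _ ≤ _ := by linarith
  refine ⟨hint, ?_⟩
  have e1 : ∫ u, F u = (∫ u in Set.Iic (-L), F u) + ∫ u in Set.Ioi (-L), F u :=
    (intervalIntegral.integral_Iic_add_Ioi hint.integrableOn hint.integrableOn).symm
  have e2 : ∫ u in Set.Ioi (-L), F u = (∫ u in (-L)..(Λ + L), F u) + ∫ u in Set.Ioi (Λ + L), F u :=
    (intervalIntegral.integral_interval_add_Ioi hint.integrableOn hint.integrableOn).symm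
  have e3 : ∫ u in (-L)..(Λ + L), F u = (∫ u in (-L)..0, F u) + (∫ u in (0 : ℝ)..Λ, F u) +
      ∫ u in Λ..(Λ + L), F u := by
    rw [intervalIntegral.integral_add_adjacent_intervals (hF.intervalIntegrable _ _)
      (hF.intervalIntegrable _ _), intervalIntegral.integral_add_adjacent_intervals
      (hF.intervalIntegrable _ _) (hF.intervalIntegrable _ _)]
  have e4 : |∫ u in Set.Iic (-L), F u| ≤ c / L := by
    rw [← integral_comp_neg_Ioi, ← Real.norm_eq_abs]
    refine (norm_integral_le_of_norm_le (g := fun x => c * x ^ (-2 : ℝ)) (hI2.const_mul c) ?_).trans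
      ?_
    · rw [ae_restrict_iff' measurableSet_Ioi]
      refine Eventually.of_forall fun u hu => ?_
      have hu0 : L < u := hu
      have := h1 (-u) (by linarith)
      rw [neg_neg] at this
      exact this
    · rw [integral_const_mul, ioi2 hL0]
      apply le_of_eq; ring
  have e5 : |∫ u in Set.Ioi (Λ + L), F u| ≤ 4 * c / L := by
    rw [← Real.norm_eq_abs]
    refine (norm_integral_le_of_norm_le (g := fun x => 4 * c * x ^ (-2 : ℝ))
      (hI3.const_mul (4 * c)) ?_).trans ?_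
    · rw [ae_restrict_iff' measurableSet_Ioi]
      refine Eventually.of_forall fun u hu => ?_
      have hu0 : Λ + L < u := hu
      exact h2' u hu0.le
    · rw [integral_const_mul, ioi2 (by linarith)]
      calc 4 * c * (1 / (Λ + L)) ≤ 4 * c * (1 / L) := by
            apply mul_le_mul_of_nonneg_left _ (by positivity)
            apply one_div_le_one_div_of_le hL0
            linarith
        _ = 4 * c / L := by ring
  rw [e1, e2, e3]
  have e6 : (∫ u in Set.Iic (-L), F u) + ((∫ u in (-L)..0, F u) + (∫ u in (0 : ℝ)..Λ, F u) +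
      (∫ u in Λ..(Λ + L), F u) + ∫ u in Set.Ioi (Λ + L), F u) - ∫ u in (0 : ℝ)..Λ, F u =
      (∫ u in Set.Iic (-L), F u) + (∫ u in (-L)..0, F u) + (∫ u in Λ..(Λ + L), F u) +
      ∫ u in Set.Ioi (Λ + L), F u := by ring
  rw [e6]
  have t1 := abs_add_le ((∫ u in Set.Iic (-L), F u) + (∫ u in (-L)..0, F u) +
    (∫ u in Λ..(Λ + L), F u)) (∫ u in Set.Ioi (Λ + L), F u)
  have t2 := abs_add_le ((∫ u in Set.Iic (-L), F u) + (∫ u in (-L)..0, F u))
    (∫ u in Λ..(Λ + L), F u)
  have t3 := abs_add_le (∫ u in Set.Iic (-L), F u) (∫ u in (-L)..0, F u)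
  have t4 : c / L + 4 * c / L = 5 * c / L := by ring
  linarith

/-- the weight inside the window -/
noncomputable def wIn (Λ u : ℝ) : ℝ := (1 + |u|) ^ (-(3 / 4) : ℝ) + (1 + |Λ - u|) ^ (-(3 / 4) : ℝ)

lemma wIn_cont (Λ : ℝ) : Continuous (wIn Λ) := by
  unfold wIn
  apply Continuous.add
  · apply Continuous.rpow_const (by fun_prop)
    intro x; left; have := abs_nonneg x; linarith
  · apply Continuous.rpow_const (by fun_prop)
    intro x; left; have := abs_nonneg (Λ - x); linarith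

/-- the weight outside the window -/
noncomputable def wOut (u : ℝ) : ℝ := (1 + |u|) ^ (-(3 / 2) : ℝ)

lemma wOut_cont : Continuous wOut := by
  unfold wOut
  apply Continuous.rpow_const (by fun_prop)
  intro x; left; have := abs_nonneg x; linarith

lemma wOut_nonneg (u : ℝ) : 0 ≤ wOut u := by unfold wOut; positivity

lemma wIn_nonneg (Λ u : ℝ) : 0 ≤ wIn Λ u := by unfold wIn; positivity

end Pool.Agent.R321.FA
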