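import Pool.Agent.R321.FC12

/-! The deterministic comparison of the sharp and the smooth product statistics. -/

open Finset Complex MeasureTheory Filter Topology

namespace Pool.Agent.R321.FA

open SP (ZZ mu Mk RHs)
open H370.A2 (RR evp RR_cont)
open Pool.Agent.TH800.LD (ZZf)

lemma r_pow {k : ℕ} (hk : 2 ≤ k) (y : ℝ) : ((1 + |y|) ^ (-(3 / 4) : ℝ)) ^ k ≤ wOut y := by
  have h0 : (1 : ℝ) ≤ 1 + |y| := by linarith [abs_nonneg y]
  have h1 : (1 + |y|) ^ (-(3 / 4) : ℝ) ≤ 1 :=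
    Real.rpow_le_one_of_one_le_of_nonpos h0 (by norm_num)
  have h2 : 0 ≤ (1 + |y|) ^ (-(3 / 4) : ℝ) := by positivity
  calc ((1 + |y|) ^ (-(3 / 4) : ℝ)) ^ k ≤ ((1 + |y|) ^ (-(3 / 4) : ℝ)) ^ 2 :=
        pow_le_pow_of_le_one h2 h1 hk
    _ = wOut y := by
        unfold wOut
        rw [← Real.rpow_natCast, ← Real.rpow_mul (by linarith)]
        norm_num

lemma XX_cont {ψ : ℝ → ℝ} (hψ : Continuous ψ) (μ : ℝ) {T : ℝ} (hT : 1 ≤ T) :
    Continuous (XX ψ μ T) := by
  have : XX ψ μ T = fun t => ∑ s ∈ (ZZf hT).toFinset, (mu s : ℝ) *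
      Real.exp (-(s.im - t) ^ 2 / 2) * RR ψ μ ((s.im - t) * Real.log T / (2 * Real.pi)) :=
    funext (XX_eq hT ψ μ)
  rw [this]
  refine continuous_finsetSum _ fun s _ => ?_
  exact Continuous.mul (by fun_prop) ((RR_cont hψ).comp (by fun_prop))

/-- **deterministic comparison** -/
theorem det_bound {k : ℕ} (hk : 2 ≤ k) {G : ℝ} (hG1 : 1 ≤ G) : ∃ K : ℝ, 0 < K ∧
    ∀ (ψ : Fin k → ℝ → ℝ) (μ : Fin k → ℝ), (∀ j, Continuous (ψ j)) →
    (∀ j, Dk G (RR (ψ j) (μ j))) → ∀ T : ℝ, ∀ hT : 10 ≤ T, ∀ Λ t : ℝ, 1 ≤ Λ →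
    2 * Real.pi * Λ ≤ Real.log T →
    Integrable (fun u => ∏ j, AA (by linarith : 1 ≤ T) (RR (ψ j) (μ j)) t
      (2 * Real.pi * Λ / Real.log T) u) ∧
    |(∫ u, ∏ j, AA (by linarith : 1 ≤ T) (RR (ψ j) (μ j)) t (2 * Real.pi * Λ / Real.log T) u) -
      ∫ u in (0 : ℝ)..Λ, ∏ j, XX (ψ j) (μ j) T (t + 2 * Real.pi * u / Real.log T)| ≤
    K * ((∫ u in (0 : ℝ)..Λ, (wIn Λ u + (2 * Real.pi * Λ / Real.log T) ^ 2) *
        (1 + Mp T (t + 2 * Real.pi * u / Real.log T)) ^ k) +
      (∫ u in (-Real.log T)..0, wOut u * (1 + Mp T (t + 2 * Real.pi * u / Real.log T)) ^ k) +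
      (∫ u in Λ..(Λ + Real.log T), wOut (u - Λ) *
        (1 + Mp T (t + 2 * Real.pi * u / Real.log T)) ^ k) + 1 / Real.log T) := by
  obtain ⟨C, hC0, hC⟩ := SP.gauss_zeros
  set E := Real.exp 32 with hE
  have hE0 : 0 < E := Real.exp_pos _
  have hE1 : 1 ≤ E := by rw [hE]; exact Real.one_le_exp (by norm_num)
  set K1 := k * E * (E * G) ^ k with hK1
  set K2 := (E * G) ^ k with hK2
  set K3 := 5 * (2 * C * G) ^ k with hK3
  have hk0 : (0 : ℝ) < k := by exact_mod_cast (by omega : 0 < k)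
  have hK10 : 0 < K1 := by positivity
  have hK20 : 0 < K2 := by positivity
  have hK30 : 0 < K3 := by positivity
  refine ⟨K1 + K2 + K3, by positivity, fun ψ μ hψ hG T hT Λ t hΛ1 hLΛ => ?_⟩
  have hT1 : 1 ≤ T := by linarith
  have hpi3 := Real.pi_gt_three
  have hpi := Real.pi_pos
  set L := Real.log T with hL
  have hL0 : 0 < L := Real.log_pos (by linarith)
  have hL1 : 1 ≤ L := by nlinarith
  have hΛL : Λ ≤ L := by nlinarith
  have hΛ0 : 0 < Λ := by linarith
  have hG0 : 0 ≤ G := by linarith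
  set w := 2 * Real.pi * Λ / L with hw
  have hMp0 : ∀ t, 0 ≤ Mp T t := Mp_nonneg hT1
  set q : ℝ → ℝ := fun u => (1 + Mp T (t + 2 * Real.pi * u / L)) ^ k with hq
  have hq0 : ∀ u, 0 ≤ q u := fun u => by
    have := hMp0 (t + 2 * Real.pi * u / L)
    simp only [hq]; positivity
  have hqc : Continuous q := by
    simp only [hq]
    exact (continuous_const.add ((Mp_cont hT1).comp (by fun_prop))).pow k
  set F : ℝ → ℝ := fun u => ∏ j, AA hT1 (RR (ψ j) (μ j)) t w u with hF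
  have hFc : Continuous F := by
    simp only [hF]
    exact continuous_finsetProd _ fun j _ => AA_cont hT1 (RR_cont (hψ j)) t w
  set P : ℝ → ℝ := fun u => ∏ j, XX (ψ j) (μ j) T (t + 2 * Real.pi * u / L) with hP
  have hPc : Continuous P := by
    simp only [hP]
    exact continuous_finsetProd _ fun j _ => (XX_cont (hψ j) _ hT1).comp (by fun_prop)
  have hdec : ∀ a d : ℝ, 0 ≤ a → 1 ≤ d → (a / d) ^ k ≤ a ^ k * d ^ (-2 : ℝ) := by
    intro a d ha hd
    rw [div_pow, Real.rpow_neg (by linarith), Real.rpow_two, ← div_eq_mul_inv]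
    apply div_le_div_of_nonneg_left (by positivity) (by positivity)
    exact pow_le_pow_right₀ hd hk
  have h1 : ∀ u, u ≤ -L → |F u| ≤ (2 * C * G) ^ k * (-u) ^ (-2 : ℝ) := by
    intro u hu
    refine (prod_abs_le _ (M := 2 * C * G / (-u)) fun j => ?_).trans
      (hdec _ _ (by positivity) (by linarith))
    apply AA_far hC0.le hT (hC T hT) hG0 (hG j) hΛ0 hLΛ (by linarith)
    intro x hx0 _
    rw [abs_of_pos (by linarith)]
    linarith
  have h2 : ∀ u, Λ + L ≤ u → |F u| ≤ (2 * C * G) ^ k * (u - Λ) ^ (-2 : ℝ) := by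
    intro u hu
    refine (prod_abs_le _ (M := 2 * C * G / (u - Λ)) fun j => ?_).trans
      (hdec _ _ (by positivity) (by linarith))
    apply AA_far hC0.le hT (hC T hT) hG0 (hG j) hΛ0 hLΛ (by linarith)
    intro x _ hx1
    rw [abs_sub_comm, abs_of_nonneg (by linarith)]
    linarith
  obtain ⟨hint, hsplit⟩ := split_int hFc hΛ0 hΛL hL1 (by positivity) h1 h2
  refine ⟨hint, ?_⟩
  -- outside, left
  have hout : ∀ u R : ℝ, -L ≤ u → u ≤ Λ + L →
      (∀ x, 0 < x → x ≤ Λ → (1 + |2 * Real.pi * (x - u)|) ^ (-(3 / 4) : ℝ) ≤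
        (1 + |R|) ^ (-(3 / 4) : ℝ)) → |F u| ≤ K2 * (wOut R * q u) := by
    intro u R hu0 hu1 hR
    have g0 := hMp0 (t + 2 * Real.pi * u / L)
    refine (prod_abs_le _ (M := E * G * (1 + |R|) ^ (-(3 / 4) : ℝ) *
      (1 + Mp T (t + 2 * Real.pi * u / L))) fun j => ?_).trans ?_
    · refine (AA_gen hT hG0 (hG j) hΛ0 hLΛ hu0 hu1 hR).trans ?_
      rw [← hL, ← hE]
      calc E * (G * (1 + |R|) ^ (-(3 / 4) : ℝ)) * Mp T (t + 2 * Real.pi * u / L) ≤
          E * (G * (1 + |R|) ^ (-(3 / 4) : ℝ)) * (1 + Mp T (t + 2 * Real.pi * u / L)) := by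
            gcongr; linarith
        _ = _ := by ring
    · rw [mul_pow, mul_pow]
      calc (E * G) ^ k * ((1 + |R|) ^ (-(3 / 4) : ℝ)) ^ k *
          (1 + Mp T (t + 2 * Real.pi * u / L)) ^ k ≤
          (E * G) ^ k * wOut R * (1 + Mp T (t + 2 * Real.pi * u / L)) ^ k := by
            have := r_pow hk R
            gcongr
        _ = _ := by simp only [hK2, hq]; ring
  have hmono : ∀ x u R : ℝ, |R| ≤ |x - u| → (1 + |2 * Real.pi * (x - u)|) ^ (-(3 / 4) : ℝ) ≤
      (1 + |R|) ^ (-(3 / 4) : ℝ) := by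
    intro x u R h
    apply Real.rpow_le_rpow_of_nonpos (by positivity) _ (by norm_num)
    rw [abs_mul, abs_of_pos (by positivity : 0 < 2 * Real.pi)]
    nlinarith [abs_nonneg (x - u)]
  have e1 : |∫ u in (-L)..0, F u| ≤ K2 * ∫ u in (-L)..0, wOut u * q u := by
    rw [← Real.norm_eq_abs, ← intervalIntegral.integral_const_mul]
    apply intervalIntegral.norm_integral_le_of_norm_le (by linarith)
    · refine Eventually.of_forall fun u hu => ?_
      rw [Real.norm_eq_abs]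
      apply hout u u hu.1.le (by linarith [hu.2])
      intro x hx0 _
      apply hmono
      rw [abs_of_nonpos hu.2, abs_of_pos (by linarith [hu.2])]
      linarith
    · exact (continuous_const.mul (wOut_cont.mul hqc)).intervalIntegrable _ _
  have e2 : |∫ u in Λ..(Λ + L), F u| ≤ K2 * ∫ u in Λ..(Λ + L), wOut (u - Λ) * q u := by
    rw [← Real.norm_eq_abs, ← intervalIntegral.integral_const_mul]
    apply intervalIntegral.norm_integral_le_of_norm_le (by linarith)
    · refine Eventually.of_forall fun u hu => ?_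
      rw [Real.norm_eq_abs]
      apply hout u (u - Λ) (by linarith [hu.1]) hu.2
      intro x _ hx1
      apply hmono
      rw [abs_of_nonneg (by linarith [hu.1]), abs_sub_comm x u, abs_of_nonneg (by linarith [hu.1])]
      linarith
    · exact (continuous_const.mul ((wOut_cont.comp (by fun_prop)).mul hqc)).intervalIntegrable _ _
  -- inside
  have e3 : |(∫ u in (0 : ℝ)..Λ, F u) - ∫ u in (0 : ℝ)..Λ, P u| ≤
      K1 * ∫ u in (0 : ℝ)..Λ, (wIn Λ u + w ^ 2) * q u := by
    rw [← intervalIntegral.integral_sub (hFc.intervalIntegrable _ _) (hPc.intervalIntegrable _ _),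
      ← Real.norm_eq_abs, ← intervalIntegral.integral_const_mul]
    apply intervalIntegral.norm_integral_le_of_norm_le hΛ0.le
    · refine Eventually.of_forall fun u hu => ?_
      have g0 := hMp0 (t + 2 * Real.pi * u / L)
      have gw := wIn_nonneg Λ u
      set m := Mp T (t + 2 * Real.pi * u / L) with hm
      rw [Real.norm_eq_abs]
      have b1 : ∀ j, |AA hT1 (RR (ψ j) (μ j)) t w u| ≤ E * G * (1 + m) := by
        intro j
        refine (AA_gen (R := 1) hT hG0 (hG j) hΛ0 hLΛ (by linarith [hu.1]) (by linarith [hu.2])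
          (fun x _ _ => Real.rpow_le_one_of_one_le_of_nonpos
            (by linarith [abs_nonneg (2 * Real.pi * (x - u))]) (by norm_num))).trans ?_
        rw [← hL, ← hE, mul_one]
        gcongr
        linarith
      have b2 : ∀ j, |XX (ψ j) (μ j) T (t + 2 * Real.pi * u / L)| ≤ E * G * (1 + m) := by
        intro j
        refine (XX_le hT hG0 (hG j) _).trans ?_
        calc G * m ≤ G * (1 + m) := by gcongr; linarith
          _ = 1 * (G * (1 + m)) := by ring
          _ ≤ E * (G * (1 + m)) := by gcongr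
          _ = _ := by ring
      have b3 : ∀ j, |AA hT1 (RR (ψ j) (μ j)) t w u -
          XX (ψ j) (μ j) T (t + 2 * Real.pi * u / L)| ≤ (E * (wIn Λ u + w ^ 2)) *
            (E * G * (1 + m)) := by
        intro j
        refine (AA_sub hT hG0 (hG j) hΛ0 hLΛ hu.1.le hu.2).trans ?_
        rw [← hL, ← hE, ← hw, ← hm]
        have c1 : (1 + u) ^ (-(3 / 4) : ℝ) + (1 + (Λ - u)) ^ (-(3 / 4) : ℝ) = wIn Λ u := by
          unfold wIn
          rw [abs_of_pos hu.1, abs_of_nonneg (by linarith [hu.2] : 0 ≤ Λ - u)]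
        rw [c1]
        have c2 : wIn Λ u + E * w ^ 2 ≤ E * (wIn Λ u + w ^ 2) := by nlinarith
        calc G * (wIn Λ u + E * w ^ 2) * m ≤ G * (E * (wIn Λ u + w ^ 2)) * (1 + m) := by
              gcongr; linarith
          _ = 1 * (G * (E * (wIn Λ u + w ^ 2)) * (1 + m)) := by ring
          _ ≤ E * (G * (E * (wIn Λ u + w ^ 2)) * (1 + m)) := by gcongr
          _ = _ := by ring
      refine (prod_diff _ _ (by positivity) b1 b2 b3).trans (le_of_eq ?_)
      simp only [hK1, hq, ← hm]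
      rw [mul_pow (E * G) (1 + m)]
      ring
    · exact (continuous_const.mul (((wIn_cont Λ).add continuous_const).mul hqc)).intervalIntegrable
        _ _
  have p1 : 0 ≤ ∫ u in (0 : ℝ)..Λ, (wIn Λ u + w ^ 2) * q u := by
    apply intervalIntegral.integral_nonneg hΛ0.le
    intro u _
    have := wIn_nonneg Λ u
    have := hq0 u
    positivity
  have p2 : 0 ≤ ∫ u in (-L)..0, wOut u * q u := by
    apply intervalIntegral.integral_nonneg (by linarith)
    intro u _
    exact mul_nonneg (wOut_nonneg u) (hq0 u)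
  have p3 : 0 ≤ ∫ u in Λ..(Λ + L), wOut (u - Λ) * q u := by
    apply intervalIntegral.integral_nonneg (by linarith)
    intro u _
    exact mul_nonneg (wOut_nonneg _) (hq0 u)
  have p4 : 0 ≤ 1 / L := by positivity
  set I1 := ∫ u in (0 : ℝ)..Λ, (wIn Λ u + w ^ 2) * q u with hI1
  set I2 := ∫ u in (-L)..0, wOut u * q u with hI2
  set I3 := ∫ u in Λ..(Λ + L), wOut (u - Λ) * q u with hI3
  have e4 : |(∫ u, F u) - ∫ u in (0 : ℝ)..Λ, P u| ≤
      |(∫ u, F u) - ∫ u in (0 : ℝ)..Λ, F u| + |(∫ u in (0 : ℝ)..Λ, F u) - ∫ u in (0 : ℝ)..Λ, P u| := by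
    have : (∫ u, F u) - ∫ u in (0 : ℝ)..Λ, P u = ((∫ u, F u) - ∫ u in (0 : ℝ)..Λ, F u) +
        ((∫ u in (0 : ℝ)..Λ, F u) - ∫ u in (0 : ℝ)..Λ, P u) := by ring
    rw [this]
    exact abs_add_le _ _
  have e5 : 5 * (2 * C * G) ^ k / L = K3 * (1 / L) := by simp only [hK3]; ring
  rw [e5] at hsplit
  calc |(∫ u, F u) - ∫ u in (0 : ℝ)..Λ, P u| ≤
      (K2 * I2 + K2 * I3 + K3 * (1 / L)) + K1 * I1 := by linarith
    _ ≤ (K1 + K2 + K3) * (I1 + I2 + I3 + 1 / L) := by
      nlinarith [mul_nonneg hK10.le p2, mul_nonneg hK10.le p3, mul_nonneg hK10.le p4,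
        mul_nonneg hK20.le p1, mul_nonneg hK20.le p4, mul_nonneg hK30.le p1,
        mul_nonneg hK30.le p2, mul_nonneg hK30.le p3]

end Pool.Agent.R321.FA
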