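import Pool.Agent.R321.FC13

/-! Families of linear statistics. -/

open Finset Complex MeasureTheory Filter Topology

namespace Pool.Agent.R321.FA

open SP (ZZ mu Mk RHs)
open H370.A2 (RR evp RR_cont)
open Pool.Agent.TH800.LD (ZZf)

/-- a family of test functions -/
structure Fam {k : ℕ} (ψ : Fin k → ℝ → ℝ) (μ : Fin k → ℝ) : Prop where
  cont : ∀ j, Continuous (ψ j)
  pos : ∀ j, 0 < μ j
  sum : ∑ j, μ j < 1
  zero : ∀ j x, μ j ≤ |x| → ψ j x = 0
  lip : ∃ K : ℝ, ∀ j x y, |evp (ψ j) x - evp (ψ j) y| ≤ K * |x - y|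
  bd : ∃ B : ℝ, 1 ≤ B ∧ ∀ j x, |evp (ψ j) x| ≤ B
  dec : ∃ G : ℝ, 1 ≤ G ∧ ∀ j, Dk G (RR (ψ j) (μ j))

/-- **the products of linear statistics are prime polynomials** -/
theorem fam_rp (hRH : RHs) {k : ℕ} {ψ : Fin k → ℝ → ℝ} {μ : Fin k → ℝ} (F : Fam ψ μ) :
    ∃ (f : ℝ → Al) (D κ K T0 : ℝ), 0 ≤ D ∧ 0 < κ ∧ κ ≤ 1 ∧ 0 ≤ K ∧ 10 ≤ T0 ∧
    (∀ T : ℝ, T0 ≤ T → Dom (PN ⌊T⌋₊) (vp 1 (Real.log T)) (2 * k) D (f T).coeff ∧
      Ht (f T) ((1 - κ) * Real.log T) ∧
      ∀ t : ℝ, T + Real.log T ≤ t → t ≤ 2 * T - Real.log T →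
        ‖((∏ j, XX (ψ j) (μ j) T t : ℝ) : ℂ) - ev t (f T)‖ ≤
          K / Real.log T * (1 + Mp T t) ^ k) ∧
    Tendsto (fun T => (f T).coeff 0) atTop (𝓝 (wk (fun j => ψ j 0)
      (fun i j => 2 * ∫ u in (0 : ℝ)..1, u * evp (ψ i) u * evp (ψ j) u) (List.finRange k))) := by
  obtain ⟨KL, hKL⟩ := F.lip
  obtain ⟨B, hB1, hB⟩ := F.bd
  obtain ⟨G, hG1, hG⟩ := F.dec
  have hB0 : 0 ≤ B := by linarith
  have hG0 : 0 ≤ G := by linarith
  set S := ∑ j, μ j with hS
  have hS1 : S < 1 := F.sum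
  have hS0 : 0 ≤ S := Finset.sum_nonneg fun j _ => (F.pos j).le
  set δ := (1 - S) / (2 * (k + 1)) with hδ
  have hk0 : (0 : ℝ) ≤ k := Nat.cast_nonneg k
  have hδ0 : 0 < δ := by
    rw [hδ]
    apply div_pos (by linarith) (by positivity)
  have hδ1 : (k + 1) * δ = (1 - S) / 2 := by
    rw [hδ]; field_simp
  set ν : Fin k → ℝ := fun j => μ j + δ with hν
  have hμν : ∀ j, μ j < ν j := fun j => by simp only [hν]; linarith
  have hμS : ∀ j, μ j ≤ S := fun j =>
    Finset.single_le_sum (f := μ) (fun i _ => (F.pos i).le) (Finset.mem_univ j)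
  have hν1 : ∀ j, ν j ≤ 1 := fun j => by
    simp only [hν]
    have := hμS j
    nlinarith
  have hν0 : ∀ j, 0 ≤ ν j := fun j => (F.pos j).le.trans (hμν j).le
  set κ := (1 - S) / 2 with hκ
  have hκ0 : 0 < κ := by rw [hκ]; linarith
  have hκ1 : κ ≤ 1 := by rw [hκ]; linarith
  have hsν : ∑ j, ν j ≤ 1 - κ := by
    simp only [hν]
    rw [Finset.sum_add_distrib, ← hS, Finset.sum_const, Finset.card_univ, Fintype.card_fin,
      nsmul_eq_mul]
    nlinarith
  -- the data
  set X : ℝ → Fin k → Dt := fun T j =>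
    (cc (ψ j) (Real.log T), yy (ψ j) (ν j) (Real.log T), zz (ψ j) (ν j) (Real.log T)) with hX
  set f : ℝ → Al := fun T => (rl (PN ⌊T⌋₊) ((List.finRange k).map (X T))).prod with hf
  have hfp : ∀ T, f T = ∏ j, rp (X T j).1 (PN ⌊T⌋₊) (X T j).2.1 (X T j).2.2 := by
    intro T
    rw [Fin.prod_univ_def]
    simp only [hf]
    unfold rl
    rw [List.map_map]
    rfl
  choose C T1 hC hT1 hlin using fun j => lin_rp hRH (F.cont j) (F.pos j) (hμν j) (hν1 j)
    (F.zero j) (hB j)
  set C' := ∑ j, C j with hC'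
  have hC'0 : 0 ≤ C' := Finset.sum_nonneg fun j _ => hC j
  have hCj : ∀ j, C j ≤ C' := fun j =>
    Finset.single_le_sum (f := C) (fun i _ => hC i) (Finset.mem_univ j)
  set T0 := ∑ j, T1 j + 10 with hT0
  have hT1j : ∀ j, T1 j ≤ T0 := fun j => by
    have := Finset.single_le_sum (f := T1) (fun i _ => (by linarith [hT1 i] : 0 ≤ T1 i))
      (Finset.mem_univ j)
    linarith
  have hT010 : 10 ≤ T0 := by
    have : 0 ≤ ∑ j, T1 j := Finset.sum_nonneg fun i _ => by linarith [hT1 i]
    linarith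
  have hbasic : ∀ T, T0 ≤ T → (∀ p, 0 ≤ vp 1 (Real.log T) p) ∧
      (∀ p ∈ PN ⌊T⌋₊, vp 1 (Real.log T) p ≤ 1) ∧
      (∑ p ∈ PN ⌊T⌋₊, vp 1 (Real.log T) p ^ 2 ≤ 7) ∧
      ∀ i, YB (PN ⌊T⌋₊) (vp 1 (Real.log T)) (2 * B) (X T i).1 (X T i).2.1 (X T i).2.2 := by
    intro T hT
    have hT10 := hT010.trans hT
    have hTp : 0 < T := by linarith
    have hL1 : 1 ≤ Real.log T := by
      rw [Real.le_log_iff_exp_le hTp]
      have := Real.exp_one_lt_d9
      linarith
    have hN1 : 1 ≤ ⌊T⌋₊ := by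
      rw [Nat.one_le_floor_iff]
      linarith
    have hNT : (⌊T⌋₊ : ℝ) ≤ T := Nat.floor_le hTp.le
    have hNL : Real.log ⌊T⌋₊ ≤ Real.log T := Real.log_le_log (by exact_mod_cast hN1) hNT
    refine ⟨fun p => vp_nonneg (by norm_num) _ p, fun p _ => vp_le (by norm_num) hL1 p, ?_,
      fun i => lin_YB (hB i) (ν i) hT10⟩
    have := vp_total (K := 1) hL1 _ hN1 hNL
    linarith
  refine ⟨f, Dc (2 * B) 7 k, κ, k * C' * (G + C') ^ k, T0, Dc_nonneg (by positivity) (by norm_num) k,
    hκ0, hκ1, by positivity, hT010, ?_, ?_⟩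
  · intro T hT
    have hT10 := hT010.trans hT
    have hT1' : 1 ≤ T := by linarith
    have hL0 : 0 < Real.log T := Real.log_pos (by linarith)
    obtain ⟨b1, b2, b3, b4⟩ := hbasic T hT
    refine ⟨?_, ?_, ?_⟩
    · have h1 := rl_dom b1 b3 (by positivity : 0 ≤ 2 * B) ((List.finRange k).map (X T)) (by
        intro x hx
        obtain ⟨i, _, rfl⟩ := List.mem_map.1 hx
        exact b4 i)
      rw [List.length_map, List.length_finRange] at h1
      exact h1
    · have h1 := prod_ht ((List.finRange k).map (fun j =>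
        ((rp (X T j).1 (PN ⌊T⌋₊) (X T j).2.1 (X T j).2.2, ν j * Real.log T) : Al × ℝ))) (by
          intro x hx
          obtain ⟨i, _, rfl⟩ := List.mem_map.1 hx
          exact lin_ht (ψ i) (hν0 i) hT10)
      rw [List.map_map, List.map_map] at h1
      have e1 : ((List.finRange k).map (Prod.fst ∘ fun j =>
        ((rp (X T j).1 (PN ⌊T⌋₊) (X T j).2.1 (X T j).2.2, ν j * Real.log T) : Al × ℝ))).prod =
          f T := by
        rw [hfp, Fin.prod_univ_def]
        rfl
      have e2 : ((List.finRange k).map (Prod.snd ∘ fun j =>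
        ((rp (X T j).1 (PN ⌊T⌋₊) (X T j).2.1 (X T j).2.2, ν j * Real.log T) : Al × ℝ))).sum =
          (∑ j, ν j) * Real.log T := by
        rw [Finset.sum_mul, Fin.sum_univ_def]
        rfl
      rw [e1, e2] at h1
      exact h1.mono (mul_le_mul_of_nonneg_right hsν hL0.le)
    · intro t ht1 ht2
      have hMp := Mp_nonneg hT1' t
      set r : Fin k → ℝ := fun j => (X T j).1 - 2 * ∑ p ∈ PN ⌊T⌋₊, (X T j).2.1 p *
        Real.cos (t * Real.log p) - 2 * ∑ p ∈ PN ⌊T⌋₊, (X T j).2.2 p *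
        Real.cos (t * (2 * Real.log p)) with hr
      have e1 : ev t (f T) = ((∏ j, r j : ℝ) : ℂ) := by
        rw [hfp, map_prod, Complex.ofReal_prod]
        refine Finset.prod_congr rfl fun j _ => ?_
        rw [ev_rp]
      have hd : ∀ j, |XX (ψ j) (μ j) T t - r j| ≤ C' / Real.log T := by
        intro j
        have h1 := hlin j T ((hT1j j).trans hT) t ht1 ht2
        rw [ev_rp, ← Complex.ofReal_sub, Complex.norm_real, Real.norm_eq_abs] at h1
        exact h1.trans (by have := hCj j; gcongr)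
      have hL1 : 1 ≤ Real.log T := by
        rw [Real.le_log_iff_exp_le (by linarith)]
        have := Real.exp_one_lt_d9
        linarith
      have hCL : C' / Real.log T ≤ C' := div_le_self hC'0 hL1
      have hx : ∀ j, |XX (ψ j) (μ j) T t| ≤ G * Mp T t := fun j => XX_le hT10 hG0 (hG j) t
      rw [e1, ← Complex.ofReal_sub, Complex.norm_real, Real.norm_eq_abs]
      refine (prod_diff _ _ (M := (G + C') * (1 + Mp T t)) (δ := C' / Real.log T) (by positivity)
        (fun j => ?_) (fun j => ?_) (fun j => ?_)).trans (le_of_eq ?_)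
      · refine (hx j).trans ?_
        nlinarith [mul_nonneg hC'0 hMp]
      · have h1 : |r j| ≤ |XX (ψ j) (μ j) T t| + |XX (ψ j) (μ j) T t - r j| := by
          have h0 := abs_sub_abs_le_abs_sub (r j) (XX (ψ j) (μ j) T t)
          have h0' := abs_sub_comm (r j) (XX (ψ j) (μ j) T t)
          linarith
        have h2 := hd j
        have h3 := hx j
        nlinarith [mul_nonneg hC'0 hMp]
      · refine (hd j).trans ?_
        apply le_mul_of_one_le_right (by positivity)
        nlinarith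
      · rw [mul_pow]
        ring
  · have hlim := E0_lim (fun j => ψ j 0)
      (fun i j => 2 * ∫ u in (0 : ℝ)..1, u * evp (ψ i) u * evp (ψ j) u)
      (fun T => PN ⌊T⌋₊) (fun T => vp 1 (Real.log T)) X (M := 7) (C := 2 * B) (T0 := T0)
      (by positivity) hbasic ?_ (fun i => cc_lim (F.cont i) (hKL i))
      (fun i j => cov_lim (F.cont i) (F.cont j) (hμν i) (hν1 i) (hμν j) (hν1 j) (F.zero i)
        (F.zero j) (hKL i) (hKL j) (hB i) (hB j)) (List.finRange k)
    · exact hlim
    · have h7 : Tendsto (fun T : ℝ => 7 / Real.log T) atTop (𝓝 0) :=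
        Real.tendsto_log_atTop.const_div_atTop _
      apply squeeze_zero' _ _ h7
      · exact Eventually.of_forall fun T => Finset.sum_nonneg fun p _ => by
          have : vp 1 (Real.log T) p ^ 4 = (vp 1 (Real.log T) p ^ 2) ^ 2 := by ring
          rw [this]; positivity
      · filter_upwards [eventually_ge_atTop T0] with T hT
        obtain ⟨b1, b2, b3, b4⟩ := hbasic T hT
        have hT10 := hT010.trans hT
        have hL0 : 0 < Real.log T := Real.log_pos (by linarith)
        calc ∑ p ∈ PN ⌊T⌋₊, vp 1 (Real.log T) p ^ 4 ≤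
            ∑ p ∈ PN ⌊T⌋₊, 1 / Real.log T * vp 1 (Real.log T) p ^ 2 := by
              refine Finset.sum_le_sum fun p hp => ?_
              have hpp := mem_PN.1 hp
              have hp0 : (0 : ℝ) < p := by exact_mod_cast hpp.1.pos
              have h1 : vp 1 (Real.log T) p ^ 2 ≤ 1 / Real.log T := by
                rw [vp_sq hL0]
                have h2 : Real.log p / p ≤ 1 := by
                  rw [div_le_one hp0]
                  exact (Real.log_le_sub_one_of_pos hp0).trans (by linarith)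
                calc (1 : ℝ) ^ 2 / Real.log T * (Real.log p / p) ≤ 1 ^ 2 / Real.log T * 1 :=
                      mul_le_mul_of_nonneg_left h2 (by positivity)
                  _ = _ := by ring
              have e : vp 1 (Real.log T) p ^ 4 =
                  vp 1 (Real.log T) p ^ 2 * vp 1 (Real.log T) p ^ 2 := by ring
              rw [e]
              exact mul_le_mul_of_nonneg_right h1 (sq_nonneg _)
          _ = 1 / Real.log T * ∑ p ∈ PN ⌊T⌋₊, vp 1 (Real.log T) p ^ 2 := by rw [Finset.mul_sum]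
          _ ≤ 1 / Real.log T * 7 := by gcongr
          _ = _ := by ring

end Pool.Agent.R321.FA
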