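import Pool.Agent.R321.FC14

/-! Products of linear statistics in almost all windows. -/

open Finset Complex MeasureTheory Filter Topology

namespace Pool.Agent.R321.FA

open SP (ZZ mu Mk RHs)
open H370.A2 (RR evp RR_cont)
open Pool.Agent.TH800.LD (ZZf)

lemma cheb {f : ℝ → ℝ} (hf : Continuous f) (h0 : ∀ t, 0 ≤ f t) {V1 V2 ε Q : ℝ} (hV : V1 ≤ V2)
    (hε : 0 < ε) (h : ∫ t in V1..V2, f t ≤ Q) :
    volume {t | V1 ≤ t ∧ t ≤ V2 ∧ ε < f t} ≤ ENNReal.ofReal (Q / ε) := by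
  have h1 := mul_meas_ge_le_integral_of_nonneg (μ := volume.restrict (Set.Icc V1 V2)) (f := f)
    (Eventually.of_forall h0) (hf.continuousOn.integrableOn_compact isCompact_Icc) ε
  rw [integral_Icc_eq_integral_Ioc, ← intervalIntegral.integral_of_le hV] at h1
  have hms : MeasurableSet {t | ε ≤ f t} := measurableSet_le measurable_const hf.measurable
  have h2 : volume {t | V1 ≤ t ∧ t ≤ V2 ∧ ε < f t} ≤
      (volume.restrict (Set.Icc V1 V2)) {t | ε ≤ f t} := by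
    rw [Measure.restrict_apply hms]
    apply measure_mono
    rintro t ⟨g1, g2, g3⟩
    exact ⟨g3.le, g1, g2⟩
  refine h2.trans ?_
  have h3 : (volume.restrict (Set.Icc V1 V2)) {t | ε ≤ f t} ≠ ⊤ := by
    apply ne_top_of_le_ne_top _ (measure_mono (Set.subset_univ _))
    rw [Measure.restrict_apply_univ, Real.volume_Icc]
    exact ENNReal.ofReal_ne_top
  rw [← ENNReal.ofReal_toReal h3]
  apply ENNReal.ofReal_le_ofReal
  rw [le_div_iff₀ hε, mul_comm]
  exact h1.trans h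

lemma swap_le {H : ℝ → ℝ → ℝ} (hH : Continuous (Function.uncurry H)) {ω : ℝ → ℝ}
    (hω : Continuous ω) (hω0 : ∀ u, 0 ≤ ω u) {a b V1 V2 Q : ℝ} (hab : a ≤ b)
    (h : ∀ u ∈ Set.Icc a b, ∫ t in V1..V2, H t u ≤ Q) :
    ∫ t in V1..V2, ∫ u in a..b, ω u * H t u ≤ Q * ∫ u in a..b, ω u := by
  have hc : Continuous fun q : ℝ × ℝ => ω q.2 * H q.1 q.2 := (hω.comp continuous_snd).mul hH
  have e2 : ∫ t in V1..V2, ∫ u in a..b, ω u * H t u = ∫ u in a..b, ∫ t in V1..V2, ω u * H t u := by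
    apply intervalIntegral_intervalIntegral_swap
    apply (hc.continuousOn.integrableOn_compact
      (isCompact_uIcc.prod isCompact_uIcc)).mono_set
    exact Set.prod_mono Set.uIoc_subset_uIcc Set.uIoc_subset_uIcc
  rw [e2, ← intervalIntegral.integral_const_mul]
  apply intervalIntegral.integral_mono_on hab
  · apply Continuous.intervalIntegrable
    apply intervalIntegral.continuous_parametric_intervalIntegral_of_continuous'
    exact hc.comp continuous_swap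
  · exact (continuous_const.mul hω).intervalIntegrable _ _
  · intro u hu
    rw [intervalIntegral.integral_const_mul, mul_comm Q]
    exact mul_le_mul_of_nonneg_left (h u hu) (hω0 u)

lemma sw_eq {L Λ : ℝ} (hL : 0 < L) (hΛ : 0 < Λ) (t : ℝ) (F : ℝ → ℂ) :
    sw (2 * Real.pi * Λ / L) t F = ((1 / Λ : ℝ) : ℂ) *
      ∫ u in (0 : ℝ)..Λ, F (t + 2 * Real.pi * u / L) := by
  have hpi := Real.pi_pos
  unfold sw
  have h1 := intervalIntegral.integral_comp_mul_left (a := 0) (b := Λ) (fun s => F (t + s))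
    (c := 2 * Real.pi / L) (by positivity)
  have e1 : ∫ u in (0 : ℝ)..Λ, F (t + 2 * Real.pi * u / L) =
      ∫ u in (0 : ℝ)..Λ, F (t + 2 * Real.pi / L * u) := by
    refine intervalIntegral.integral_congr fun u _ => ?_
    show F _ = F _
    congr 1
    ring
  rw [e1, h1, mul_zero, Complex.real_smul]
  have e2 : 2 * Real.pi / L * Λ = 2 * Real.pi * Λ / L := by ring
  rw [e2, ← mul_assoc, ← Complex.ofReal_mul]
  congr 2
  field_simp

lemma wIn_int {Λ : ℝ} (hΛ : 1 ≤ Λ) : ∫ u in (0 : ℝ)..Λ, wIn Λ u ≤ 16 * Real.sqrt Λ := by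
  have hΛ0 : 0 < Λ := by linarith
  have hc : Continuous fun u : ℝ => (1 + |u|) ^ (-(3 / 4) : ℝ) := by
    apply Continuous.rpow_const (by fun_prop)
    intro x; left; have := abs_nonneg x; linarith
  have e1 : ∫ u in (0 : ℝ)..Λ, (1 + |u|) ^ (-(3 / 4) : ℝ) = 4 * ((1 + Λ) ^ (1 / 4 : ℝ) - 1) := by
    have h1 : ∫ u in (0 : ℝ)..Λ, (1 + |u|) ^ (-(3 / 4) : ℝ) =
        ∫ u in (0 : ℝ)..Λ, (1 + u) ^ (-(3 / 4) : ℝ) := by
      refine intervalIntegral.integral_congr fun u hu => ?_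
      rw [Set.uIcc_of_le hΛ0.le] at hu
      show (1 + |u|) ^ (-(3 / 4) : ℝ) = _
      rw [abs_of_nonneg hu.1]
    rw [h1, intervalIntegral.integral_comp_add_left (fun x => x ^ (-(3 / 4) : ℝ)) 1,
      integral_rpow (Or.inl (by norm_num))]
    norm_num
    ring
  have e2 : ∫ u in (0 : ℝ)..Λ, (1 + |Λ - u|) ^ (-(3 / 4) : ℝ) =
      ∫ u in (0 : ℝ)..Λ, (1 + |u|) ^ (-(3 / 4) : ℝ) := by
    have := intervalIntegral.integral_comp_sub_left (a := 0) (b := Λ)
      (fun x => (1 + |x|) ^ (-(3 / 4) : ℝ)) Λ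
    simpa using this
  have hc2 : Continuous fun u : ℝ => (1 + |Λ - u|) ^ (-(3 / 4) : ℝ) :=
    hc.comp (continuous_const.sub continuous_id)
  unfold wIn
  rw [intervalIntegral.integral_add (hc.intervalIntegrable _ _) (hc2.intervalIntegrable _ _),
    e2, e1]
  have h3 : (1 + Λ) ^ (1 / 4 : ℝ) ≤ 2 * Real.sqrt Λ := by
    calc (1 + Λ) ^ (1 / 4 : ℝ) ≤ (1 + Λ) ^ (1 / 2 : ℝ) :=
          Real.rpow_le_rpow_of_exponent_le (by linarith) (by norm_num)
      _ = Real.sqrt (1 + Λ) := (Real.sqrt_eq_rpow _).symm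
      _ ≤ Real.sqrt (2 ^ 2 * Λ) := Real.sqrt_le_sqrt (by linarith)
      _ = 2 * Real.sqrt Λ := by
          rw [Real.sqrt_mul (by norm_num), Real.sqrt_sq (by norm_num)]
  linarith

lemma wOut_int {L : ℝ} (hL : 0 ≤ L) : ∫ u in (0 : ℝ)..L, wOut u ≤ 2 := by
  unfold wOut
  have h1 : ∫ u in (0 : ℝ)..L, (1 + |u|) ^ (-(3 / 2) : ℝ) =
      ∫ u in (0 : ℝ)..L, (1 + u) ^ (-(3 / 2) : ℝ) := by
    refine intervalIntegral.integral_congr fun u hu => ?_
    rw [Set.uIcc_of_le hL] at hu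
    show (1 + |u|) ^ (-(3 / 2) : ℝ) = _
    rw [abs_of_nonneg hu.1]
  rw [h1, intervalIntegral.integral_comp_add_left (fun x => x ^ (-(3 / 2) : ℝ)) 1,
    integral_rpow (Or.inr ⟨by norm_num, by
      rw [Set.uIcc_of_le (by linarith)]
      intro h
      linarith [h.1]⟩)]
  have h2 : 0 ≤ (1 + L) ^ (-(1 / 2) : ℝ) := by positivity
  have h3 : (-(3 / 2) : ℝ) + 1 = -(1 / 2) := by norm_num
  rw [h3, add_zero, Real.one_rpow]
  have h4 : ((1 + L) ^ (-(1 / 2) : ℝ) - 1) / (-(1 / 2) : ℝ) = 2 - 2 * (1 + L) ^ (-(1 / 2) : ℝ) := by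
    ring
  rw [h4]
  linarith

lemma wOut_int_neg {L : ℝ} (hL : 0 ≤ L) : ∫ u in (-L)..0, wOut u ≤ 2 := by
  have h := intervalIntegral.integral_comp_neg (a := 0) (b := L) wOut
  rw [neg_zero] at h
  rw [← h]
  have : ∀ u, wOut (-u) = wOut u := fun u => by unfold wOut; rw [abs_neg]
  simp_rw [this]
  exact wOut_int hL

lemma wOut_int_shift {L : ℝ} (hL : 0 ≤ L) (Λ : ℝ) : ∫ u in Λ..(Λ + L), wOut (u - Λ) ≤ 2 := by
  rw [intervalIntegral.integral_comp_sub_right wOut Λ, sub_self, add_sub_cancel_left]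
  exact wOut_int hL

end Pool.Agent.R321.FA
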