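import Pool.Agent.R321.FC15

/-! Products of linear statistics in almost all windows: the error terms. -/

open Finset Complex MeasureTheory Filter Topology

namespace Pool.Agent.R321.FA

open SP (ZZ mu Mk RHs)
open H370.A2 (RR evp RR_cont)
open Pool.Agent.TH800.LD (ZZf)

/-- weighted moments of the majorant in a window -/
noncomputable def Jw (k : ℕ) (T : ℝ) (ω : ℝ → ℝ) (a b t : ℝ) : ℝ :=
  ∫ u in a..b, ω u * (1 + Mp T (t + 2 * Real.pi * u / Real.log T)) ^ k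

lemma Hk_cont (k : ℕ) {T : ℝ} (hT1 : 1 ≤ T) : Continuous (Function.uncurry fun t u : ℝ =>
    (1 + Mp T (t + 2 * Real.pi * u / Real.log T)) ^ k) := by
  unfold Function.uncurry
  exact (continuous_const.add ((Mp_cont hT1).comp (by fun_prop))).pow k

lemma Hk_cont' (k : ℕ) {T : ℝ} (hT1 : 1 ≤ T) (t : ℝ) : Continuous (fun u : ℝ =>
    (1 + Mp T (t + 2 * Real.pi * u / Real.log T)) ^ k) :=
  (continuous_const.add ((Mp_cont hT1).comp (by fun_prop))).pow k

lemma Hk_nonneg (k : ℕ) {T : ℝ} (hT1 : 1 ≤ T) (t u : ℝ) :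
    0 ≤ (1 + Mp T (t + 2 * Real.pi * u / Real.log T)) ^ k := by
  have := Mp_nonneg hT1 (t + 2 * Real.pi * u / Real.log T)
  positivity

lemma Jw_cont (k : ℕ) {T : ℝ} (hT1 : 1 ≤ T) {ω : ℝ → ℝ} (hω : Continuous ω) (a b : ℝ) :
    Continuous (Jw k T ω a b) := by
  unfold Jw
  apply intervalIntegral.continuous_parametric_intervalIntegral_of_continuous'
  exact (hω.comp continuous_snd).mul (Hk_cont k hT1)

lemma Jw_nonneg (k : ℕ) {T : ℝ} (hT1 : 1 ≤ T) {ω : ℝ → ℝ} (hω0 : ∀ u, 0 ≤ ω u) {a b : ℝ}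
    (hab : a ≤ b) (t : ℝ) : 0 ≤ Jw k T ω a b t :=
  intervalIntegral.integral_nonneg hab fun u _ => mul_nonneg (hω0 u) (Hk_nonneg k hT1 t u)

lemma Jw_int (k : ℕ) {C3 T : ℝ} (hT : 10 ≤ T)
    (hMp : ∀ V1 V2 : ℝ, V1 ≤ V2 → T + 5 * Real.log T ≤ V1 → V2 ≤ 2 * T - 5 * Real.log T →
      ∫ t in V1..V2, (1 + Mp T t) ^ k ≤ C3 * T) (hL8 : 8 ≤ Real.log T) {Λ : ℝ}
    (hLΛ : 2 * Real.pi * Λ ≤ Real.log T)
    (hLT : 48 * Real.log T ≤ T) {ω : ℝ → ℝ} (hω : Continuous ω) (hω0 : ∀ u, 0 ≤ ω u) {a b : ℝ}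
    (hab : a ≤ b) (ha : -Real.log T ≤ a) (hb : b ≤ Λ + Real.log T) :
    ∫ t in (T + 6 * Real.log T)..(2 * T - 6 * Real.log T), Jw k T ω a b t ≤
      C3 * T * ∫ u in a..b, ω u := by
  have hT1 : 1 ≤ T := by linarith
  have hpi := Real.pi_pos
  have hpi3 := Real.pi_gt_three
  have hpi4 : Real.pi < 3.15 := Real.pi_lt_d2
  set L := Real.log T with hL
  have hL0 : 0 < L := by linarith
  unfold Jw
  apply swap_le (Hk_cont k hT1) hω hω0 hab
  intro u hu
  have hu1 : -L ≤ u := ha.trans hu.1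
  have hu2 : u ≤ Λ + L := hu.2.trans hb
  have a1 : 2 * Real.pi * u / L ≤ 8 := by
    rw [div_le_iff₀ hL0]
    nlinarith
  have a2 : -8 ≤ 2 * Real.pi * u / L := by
    rw [le_div_iff₀ hL0]
    nlinarith
  have e := intervalIntegral.integral_comp_add_right (a := T + 6 * L) (b := 2 * T - 6 * L)
    (fun t => (1 + Mp T t) ^ k) (2 * Real.pi * u / L)
  rw [e]
  apply hMp
  · linarith
  · linarith
  · linarith

lemma lin_comb {f0 f1 f2 f3 : ℝ → ℝ} (c0 : Continuous f0) (c1 : Continuous f1)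
    (c2 : Continuous f2) (c3 : Continuous f3) (p K q c V1 V2 : ℝ) :
    ∫ t in V1..V2, p * (K * (f1 t + f2 t + f3 t + q) + c * f0 t) =
      p * (K * ((∫ t in V1..V2, f1 t) + (∫ t in V1..V2, f2 t) + (∫ t in V1..V2, f3 t) +
        (V2 - V1) * q) + c * ∫ t in V1..V2, f0 t) := by
  have d1 : Continuous fun t => f1 t + f2 t := c1.add c2
  have d2 : Continuous fun t => f1 t + f2 t + f3 t := d1.add c3
  have d3 : Continuous fun t => f1 t + f2 t + f3 t + q := d2.add continuous_const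
  have d4 : Continuous fun t => K * (f1 t + f2 t + f3 t + q) := continuous_const.mul d3
  have d5 : Continuous fun t => c * f0 t := continuous_const.mul c0
  rw [intervalIntegral.integral_const_mul,
    intervalIntegral.integral_add (d4.intervalIntegrable _ _) (d5.intervalIntegrable _ _),
    intervalIntegral.integral_const_mul, intervalIntegral.integral_const_mul,
    intervalIntegral.integral_add (d2.intervalIntegrable _ _) (by simp),
    intervalIntegral.integral_add (d1.intervalIntegrable _ _) (c3.intervalIntegrable _ _),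
    intervalIntegral.integral_add (c1.intervalIntegrable _ _) (c2.intervalIntegrable _ _),
    intervalIntegral.integral_const, smul_eq_mul]

/-- the error function -/
noncomputable def EAf (k : ℕ) (K K2 T Λ t : ℝ) : ℝ :=
  1 / Λ * (K * (Jw k T (fun u => wIn Λ u + (2 * Real.pi * Λ / Real.log T) ^ 2) 0 Λ t +
    Jw k T wOut (-Real.log T) 0 t + Jw k T (fun u => wOut (u - Λ)) Λ (Λ + Real.log T) t +
    1 / Real.log T) + K2 / Real.log T * Jw k T (fun _ => 1) 0 Λ t)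

lemma EAf_cont (k : ℕ) (K K2 : ℝ) {T : ℝ} (hT1 : 1 ≤ T) (Λ : ℝ) : Continuous (EAf k K K2 T Λ) := by
  have c0 := Jw_cont k hT1 (ω := fun _ => 1) continuous_const 0 Λ
  have c1 := Jw_cont k hT1 (ω := fun u => wIn Λ u + (2 * Real.pi * Λ / Real.log T) ^ 2)
    ((wIn_cont Λ).add continuous_const) 0 Λ
  have c2 := Jw_cont k hT1 wOut_cont (-Real.log T) 0
  have c3 := Jw_cont k hT1 (ω := fun u => wOut (u - Λ)) (wOut_cont.comp (by fun_prop)) Λ
    (Λ + Real.log T)
  unfold EAf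
  exact continuous_const.mul ((continuous_const.mul (((c1.add c2).add c3).add
    continuous_const)).add (continuous_const.mul c0))

lemma EAf_nonneg (k : ℕ) {K K2 : ℝ} (hK : 0 ≤ K) (hK2 : 0 ≤ K2) {T : ℝ} (hT : 10 ≤ T) {Λ : ℝ}
    (hΛ : 0 < Λ) (t : ℝ) : 0 ≤ EAf k K K2 T Λ t := by
  have hT1 : 1 ≤ T := by linarith
  have hL0 : 0 < Real.log T := Real.log_pos (by linarith)
  have c0 := Jw_nonneg k hT1 (ω := fun _ => 1) (fun _ => zero_le_one) hΛ.le t
  have c1 := Jw_nonneg k hT1 (ω := fun u => wIn Λ u + (2 * Real.pi * Λ / Real.log T) ^ 2)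
    (fun u => add_nonneg (wIn_nonneg Λ u) (sq_nonneg _)) hΛ.le t
  have c2 := Jw_nonneg k hT1 wOut_nonneg (by linarith : -Real.log T ≤ 0) t
  have c3 := Jw_nonneg k hT1 (ω := fun u => wOut (u - Λ)) (fun u => wOut_nonneg _)
    (by linarith : Λ ≤ Λ + Real.log T) t
  unfold EAf
  positivity

lemma EAf_int (k : ℕ) {K K2 C3 T : ℝ} (hK : 0 ≤ K) (hK2 : 0 ≤ K2) (hC3 : 0 ≤ C3) (hT : 10 ≤ T)
    (hMp : ∀ V1 V2 : ℝ, V1 ≤ V2 → T + 5 * Real.log T ≤ V1 → V2 ≤ 2 * T - 5 * Real.log T →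
      ∫ t in V1..V2, (1 + Mp T t) ^ k ≤ C3 * T) {Λ : ℝ} (hΛ1 : 1 ≤ Λ)
    (hL8 : 2 * Real.pi * Λ * Real.sqrt Λ + 8 ≤ Real.log T) (hLT : 48 * Real.log T ≤ T) :
    ∫ t in (T + 6 * Real.log T)..(2 * T - 6 * Real.log T), EAf k K K2 T Λ t ≤
      (21 * K * C3 + K + K2 * C3) / Real.sqrt Λ * T := by
  have hT1 : 1 ≤ T := by linarith
  have hTp : 0 < T := by linarith
  have hΛp : 0 < Λ := by linarith
  have hpi := Real.pi_pos
  have hpi3 := Real.pi_gt_three
  have hL0' : 0 < Real.log T := Real.log_pos (by linarith)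
  have c0 := Jw_cont k hT1 (ω := fun _ => 1) continuous_const 0 Λ
  have c1 := Jw_cont k hT1 (ω := fun u => wIn Λ u + (2 * Real.pi * Λ / Real.log T) ^ 2)
    ((wIn_cont Λ).add continuous_const) 0 Λ
  have c2 := Jw_cont k hT1 wOut_cont (-Real.log T) 0
  have c3 := Jw_cont k hT1 (ω := fun u => wOut (u - Λ)) (wOut_cont.comp (by fun_prop)) Λ
    (Λ + Real.log T)
  set r := Real.sqrt Λ with hr
  have hr1 : 1 ≤ r := Real.one_le_sqrt.2 hΛ1
  have hr0 : 0 < r := by linarith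
  have hrr : r ^ 2 = Λ := Real.sq_sqrt hΛp.le
  have hpos : 0 ≤ 2 * Real.pi * Λ * r := by positivity
  have hL8' : 8 ≤ Real.log T := by linarith
  have hLΛ : 2 * Real.pi * Λ ≤ Real.log T := by
    have : 2 * Real.pi * Λ * 1 ≤ 2 * Real.pi * Λ * r := by gcongr
    linarith
  have hLr2 : r ≤ Real.log T := by
    have : 1 * r ≤ 2 * Real.pi * Λ * r := by
      apply mul_le_mul_of_nonneg_right _ hr0.le
      nlinarith
    linarith
  have i0 := Jw_int k hT hMp hL8' hLΛ hLT (ω := fun _ => 1) continuous_const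
    (fun _ => zero_le_one) hΛp.le (by linarith) (by linarith)
  have i1 := Jw_int k hT hMp hL8' hLΛ hLT (ω := fun u => wIn Λ u +
    (2 * Real.pi * Λ / Real.log T) ^ 2) ((wIn_cont Λ).add continuous_const)
    (fun u => add_nonneg (wIn_nonneg Λ u) (sq_nonneg _)) hΛp.le (by linarith) (by linarith)
  have i2 := Jw_int k hT hMp hL8' hLΛ hLT wOut_cont wOut_nonneg
    (by linarith : -Real.log T ≤ 0) le_rfl (by linarith)
  have i3 := Jw_int k hT hMp hL8' hLΛ hLT (ω := fun u => wOut (u - Λ))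
    (wOut_cont.comp (by fun_prop)) (fun u => wOut_nonneg _) (by linarith : Λ ≤ Λ + Real.log T)
    (by linarith) le_rfl
  have o1 := wOut_int_neg hL0'.le
  have o2 := wOut_int_shift hL0'.le Λ
  have o3 := wIn_int hΛ1
  set L := Real.log T with hL
  set w := 2 * Real.pi * Λ / L with hw
  have hw0 : 0 < w := by positivity
  have hw1 : w ≤ 1 := by rw [hw, div_le_one hL0']; exact hLΛ
  have hwr : w ≤ 1 / r := by
    rw [hw, div_le_div_iff₀ hL0' hr0]
    linarith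
  have hw2 : w ^ 2 ≤ 1 / r := by nlinarith
  have hLinv : 1 / L ≤ 1 / r := one_div_le_one_div_of_le hr0 hLr2
  have hrΛ : 1 / Λ ≤ 1 / r := by
    apply one_div_le_one_div_of_le hr0
    rw [← hrr]; nlinarith
  have hΛ1' : 1 / Λ ≤ 1 := by rw [div_le_one hΛp]; exact hΛ1
  have hC3T : 0 ≤ C3 * T := by positivity
  have j0 : ∫ u in (0 : ℝ)..Λ, (1 : ℝ) = Λ := by simp
  have j1 : ∫ u in (0 : ℝ)..Λ, (wIn Λ u + w ^ 2) ≤ 17 * r := by
    rw [intervalIntegral.integral_add ((wIn_cont Λ).intervalIntegrable _ _) (by simp),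
      intervalIntegral.integral_const, smul_eq_mul, sub_zero]
    have h3 : Λ * w ^ 2 ≤ r := by
      calc Λ * w ^ 2 ≤ Λ * (1 / r) := by gcongr
        _ = r := by rw [← hrr]; field_simp
    linarith
  rw [j0] at i0
  have i1' := i1.trans (mul_le_mul_of_nonneg_left j1 hC3T)
  have i2' := i2.trans (mul_le_mul_of_nonneg_left o1 hC3T)
  have i3' := i3.trans (mul_le_mul_of_nonneg_left o2 hC3T)
  have e1 : ∫ t in (T + 6 * L)..(2 * T - 6 * L), EAf k K K2 T Λ t =
      1 / Λ * (K * ((∫ t in (T + 6 * L)..(2 * T - 6 * L), Jw k T (fun u => wIn Λ u + w ^ 2) 0 Λ t) +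
        (∫ t in (T + 6 * L)..(2 * T - 6 * L), Jw k T wOut (-L) 0 t) +
        (∫ t in (T + 6 * L)..(2 * T - 6 * L), Jw k T (fun u => wOut (u - Λ)) Λ (Λ + L) t) +
        ((2 * T - 6 * L) - (T + 6 * L)) * (1 / L)) +
        K2 / L * ∫ t in (T + 6 * L)..(2 * T - 6 * L), Jw k T (fun _ => 1) 0 Λ t) := by
    unfold EAf
    rw [← hL, ← hw]
    exact lin_comb c0 c1 c2 c3 _ _ _ _ _ _
  rw [e1]
  have hVT : (2 * T - 6 * L) - (T + 6 * L) ≤ T := by linarith
  have hVT0 : 0 ≤ (2 * T - 6 * L) - (T + 6 * L) := by linarith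
  have hΛr : 1 / Λ * r = 1 / r := by
    rw [← hrr]; field_simp
  calc _ ≤ 1 / Λ * (K * (C3 * T * (17 * r) + C3 * T * 2 + C3 * T * 2 +
        T * (1 / r)) + K2 / L * (C3 * T * Λ)) := by
        gcongr
    _ = 17 * (K * C3 * T) * (1 / Λ * r) + K * C3 * T * 4 * (1 / Λ) +
        K * T * ((1 / Λ) * (1 / r)) + K2 * C3 * T * (1 / L) := by
        field_simp
        ring
    _ ≤ 17 * (K * C3 * T) * (1 / r) + K * C3 * T * 4 * (1 / r) +
        K * T * (1 * (1 / r)) + K2 * C3 * T * (1 / r) := by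
        rw [hΛr]
        gcongr
    _ = (21 * K * C3 + K + K2 * C3) / r * T := by ring

end Pool.Agent.R321.FA
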