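import Pool.Agent.R321.FC16

/-! Products of linear statistics in almost all windows: the theorem. -/

open Finset Complex MeasureTheory Filter Topology

namespace Pool.Agent.R321.FA

open SP (ZZ mu Mk RHs)
open H370.A2 (RR evp RR_cont)
open Pool.Agent.TH800.LD (ZZf)

/-- the mean value -/
noncomputable def WW {k : ℕ} (ψ : Fin k → ℝ → ℝ) : ℝ :=
  wk (fun j => ψ j 0) (fun i j => 2 * ∫ u in (0 : ℝ)..1, u * evp (ψ i) u * evp (ψ j) u)
    (List.finRange k)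

lemma sw_cont (h : ℝ) (f : Al) : Continuous fun t => sw h t (fun t => ev t f) := by
  simp_rw [sw_ev]
  refine continuous_finsetSum _ fun e _ => ?_
  fun_prop

/-- comparison of the window averages -/
lemma sw_diff {P : ℝ → ℝ} (hP : Continuous P) (f : Al) {k : ℕ} {T Λ K2 : ℝ} (hT : 10 ≤ T)
    (hΛ : 0 < Λ) (t : ℝ) (h : ∀ u ∈ Set.Icc 0 Λ,
      ‖((P (t + 2 * Real.pi * u / Real.log T) : ℝ) : ℂ) - ev (t + 2 * Real.pi * u / Real.log T) f‖ ≤
        K2 / Real.log T * (1 + Mp T (t + 2 * Real.pi * u / Real.log T)) ^ k) :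
    ‖((1 / Λ * ∫ u in (0 : ℝ)..Λ, P (t + 2 * Real.pi * u / Real.log T) : ℝ) : ℂ) -
      sw (2 * Real.pi * Λ / Real.log T) t (fun t => ev t f)‖ ≤
      1 / Λ * (K2 / Real.log T * Jw k T (fun _ => 1) 0 Λ t) := by
  have hT1 : 1 ≤ T := by linarith
  have hL0 : 0 < Real.log T := Real.log_pos (by linarith)
  rw [sw_eq hL0 hΛ, Complex.ofReal_mul, ← intervalIntegral.integral_ofReal, ← mul_sub, norm_mul,
    Complex.norm_real, Real.norm_of_nonneg (by positivity : 0 ≤ 1 / Λ)]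
  apply mul_le_mul_of_nonneg_left _ (by positivity)
  have c1 : Continuous fun u => ((P (t + 2 * Real.pi * u / Real.log T) : ℝ) : ℂ) :=
    Complex.continuous_ofReal.comp (hP.comp (by fun_prop))
  have c2 : Continuous fun u => ev (t + 2 * Real.pi * u / Real.log T) f :=
    (ev_cont f).comp (by fun_prop : Continuous fun u : ℝ => t + 2 * Real.pi * u / Real.log T)
  rw [← intervalIntegral.integral_sub (c1.intervalIntegrable _ _) (c2.intervalIntegrable _ _)]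
  unfold Jw
  rw [← intervalIntegral.integral_const_mul]
  apply intervalIntegral.norm_integral_le_of_norm_le hΛ.le
  · refine Eventually.of_forall fun u hu => ?_
    rw [one_mul]
    exact h u ⟨hu.1.le, hu.2⟩
  · apply Continuous.intervalIntegrable
    exact continuous_const.mul (continuous_const.mul (Hk_cont' k hT1 t))

/-- the exceptional set -/
lemma exc_set {D EA EC : ℝ → ℝ} {T V1 V2 ε : ℝ} (hε : 0 < ε) (hEA : Continuous EA)
    (hEA0 : ∀ t, 0 ≤ EA t) (hEC : Continuous EC) (hEC0 : ∀ t, 0 ≤ EC t) (hT : 0 < T)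
    (h1 : T ≤ V1) (h2 : V1 ≤ V2) (h3 : V2 ≤ 2 * T)
    (hV : (V1 - T) + (2 * T - V2) ≤ ε / 4 * T)
    (hA : ∫ t in V1..V2, EA t ≤ ε ^ 2 / 16 * T) (hC : ∫ t in T..(2 * T), EC t ≤ ε ^ 3 / 64 * T)
    (hpt : ∀ t, V1 ≤ t → t ≤ V2 → D t ≤ EA t + Real.sqrt (EC t) + ε / 4) :
    volume {t : ℝ | T ≤ t ∧ t ≤ 2 * T ∧ ε < D t} ≤ ENNReal.ofReal (ε * T) := by
  have hsub : {t : ℝ | T ≤ t ∧ t ≤ 2 * T ∧ ε < D t} ⊆
      (Set.Icc T V1 ∪ Set.Icc V2 (2 * T)) ∪
      ({t | V1 ≤ t ∧ t ≤ V2 ∧ ε / 4 < EA t} ∪ {t | T ≤ t ∧ t ≤ 2 * T ∧ ε ^ 2 / 16 < EC t}) := by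
    rintro t ⟨ht1, ht2, ht3⟩
    by_cases g1 : t ≤ V1
    · exact Or.inl (Or.inl ⟨ht1, g1⟩)
    by_cases g2 : V2 ≤ t
    · exact Or.inl (Or.inr ⟨g2, ht2⟩)
    push Not at g1 g2
    by_cases g3 : ε / 4 < EA t
    · exact Or.inr (Or.inl ⟨g1.le, g2.le, g3⟩)
    refine Or.inr (Or.inr ⟨ht1, ht2, ?_⟩)
    push Not at g3
    have g4 := hpt t g1.le g2.le
    have g5 : ε / 4 < Real.sqrt (EC t) := by linarith
    have g6 : (ε / 4) ^ 2 < Real.sqrt (EC t) ^ 2 := pow_lt_pow_left₀ g5 (by linarith) (by norm_num)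
    rw [Real.sq_sqrt (hEC0 t)] at g6
    linarith
  refine (measure_mono hsub).trans ?_
  refine (measure_union_le _ _).trans ?_
  have m1 : volume (Set.Icc T V1 ∪ Set.Icc V2 (2 * T)) ≤ ENNReal.ofReal (ε / 4 * T) := by
    refine (measure_union_le _ _).trans ?_
    rw [Real.volume_Icc, Real.volume_Icc, ← ENNReal.ofReal_add (by linarith) (by linarith)]
    exact ENNReal.ofReal_le_ofReal hV
  have m2 : volume {t | V1 ≤ t ∧ t ≤ V2 ∧ ε / 4 < EA t} ≤ ENNReal.ofReal (ε / 4 * T) := by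
    refine (cheb hEA hEA0 h2 (by linarith) hA).trans ?_
    apply ENNReal.ofReal_le_ofReal
    rw [div_le_iff₀ (by linarith)]
    apply le_of_eq; ring
  have m3 : volume {t | T ≤ t ∧ t ≤ 2 * T ∧ ε ^ 2 / 16 < EC t} ≤ ENNReal.ofReal (ε / 4 * T) := by
    refine (cheb hEC hEC0 (by linarith) (by positivity) hC).trans ?_
    apply ENNReal.ofReal_le_ofReal
    rw [div_le_iff₀ (by positivity)]
    apply le_of_eq; ring
  refine (add_le_add m1 ((measure_union_le _ _).trans (add_le_add m2 m3))).trans ?_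
  rw [← ENNReal.ofReal_add (by positivity) (by positivity), ← ENNReal.ofReal_add (by positivity)
    (by positivity)]
  apply ENNReal.ofReal_le_ofReal
  nlinarith [mul_pos hε hT]

/-- **products of linear statistics in almost all windows** -/
theorem klevel (hRH : RHs) {k : ℕ} (hk : 2 ≤ k) {ψ : Fin k → ℝ → ℝ} {μ : Fin k → ℝ}
    (F : Fam ψ μ) (ε : ℝ) (hε : 0 < ε) : ∃ Λ0 : ℝ, 1 ≤ Λ0 ∧ ∀ Λ : ℝ, Λ0 ≤ Λ →
    ∃ T0 : ℝ, 10 ≤ T0 ∧ ∀ T : ℝ, T0 ≤ T → 2 * Real.pi * Λ ≤ Real.log T ∧ ∀ hT1 : 1 ≤ T,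
    volume {t : ℝ | T ≤ t ∧ t ≤ 2 * T ∧ ε < |1 / Λ * (∫ u, ∏ j, AA hT1 (RR (ψ j) (μ j)) t
      (2 * Real.pi * Λ / Real.log T) u) - WW ψ|} ≤ ENNReal.ofReal (ε * T) := by
  obtain ⟨f, D, κ, K2, T2, hD, hκ, hκ1, hK2, hT2, hf, hlim⟩ := fam_rp hRH F
  obtain ⟨G, hG1, hG⟩ := F.dec
  obtain ⟨K, hK, hdet⟩ := det_bound hk hG1
  obtain ⟨C3, T3, hC3, hT3, hMp⟩ := Mp_mom hRH k
  obtain ⟨K4, hK4, hlln⟩ := lln_sharp D hD (2 * k) κ hκ hκ1
  set K5 := 21 * K * C3 + K + K2 * C3 with hK5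
  have hK50 : 0 < K5 := by positivity
  -- the choice of Λ0
  refine ⟨max 1 (max ((16 * K5 / ε ^ 2) ^ 2) ((64 * K4 / ε ^ 3) ^ 2)), le_max_left _ _,
    fun Λ hΛ => ?_⟩
  have hΛ1 : 1 ≤ Λ := (le_max_left _ _).trans hΛ
  have hΛp : 0 < Λ := by linarith
  set r := Real.sqrt Λ with hr
  have hr1 : 1 ≤ r := Real.one_le_sqrt.2 hΛ1
  have hr0 : 0 < r := by linarith
  have hrA : 16 * K5 / ε ^ 2 ≤ r := by
    apply Real.le_sqrt_of_sq_le
    exact (le_max_left _ _).trans ((le_max_right _ _).trans hΛ)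
  have hrB : 64 * K4 / ε ^ 3 ≤ r := by
    apply Real.le_sqrt_of_sq_le
    exact (le_max_right _ _).trans ((le_max_right _ _).trans hΛ)
  obtain ⟨T4, hT4, hln⟩ := hlln Λ hΛ1
  -- largeness of T
  obtain ⟨T5, hT5⟩ : ∃ T5 : ℝ, ∀ T : ℝ, T5 ≤ T → 2 * Real.pi * Λ * r + 8 ≤ Real.log T :=
    (Real.tendsto_log_atTop.eventually_ge_atTop _).exists_forall_of_atTop
  obtain ⟨T6, hT6⟩ : ∃ T6 : ℝ, ∀ T : ℝ, T6 ≤ T → |(f T).coeff 0 - WW ψ| ≤ ε / 4 := by
    have h1 := Metric.tendsto_atTop.1 hlim (ε / 4) (by linarith)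
    obtain ⟨N, hN⟩ := h1
    exact ⟨N, fun T hT => (hN T hT).le⟩
  obtain ⟨T7, hT7⟩ : ∃ T7 : ℝ, ∀ T : ℝ, T7 ≤ T → (48 / min 1 ε) * Real.log T ≤ T := by
    have hm0 : 0 < min 1 ε := lt_min one_pos hε
    have h1 := Real.isLittleO_log_id_atTop
    have h2 := h1.def (c := (48 / min 1 ε)⁻¹) (by positivity)
    obtain ⟨N, hN⟩ := (h2.and (eventually_ge_atTop 1)).exists_forall_of_atTop
    refine ⟨N, fun T hT => ?_⟩
    obtain ⟨g1, g2⟩ := hN T hT
    rw [id, Real.norm_of_nonneg (Real.log_nonneg g2), Real.norm_of_nonneg (by linarith)] at g1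
    rw [inv_mul_eq_div, le_div_iff₀ (by positivity)] at g1
    linarith
  refine ⟨max (max T2 T3) (max T4 (max T5 (max T6 T7))), hT2.trans ((le_max_left _ _).trans
    (le_max_left _ _)), fun T hT => ?_⟩
  have hTa : T2 ≤ T := ((le_max_left _ _).trans (le_max_left _ _)).trans hT
  have hTb : T3 ≤ T := ((le_max_right _ _).trans (le_max_left _ _)).trans hT
  have hTc : T4 ≤ T := ((le_max_left _ _).trans (le_max_right _ _)).trans hT
  have hTd : T5 ≤ T := ((le_max_left _ _).trans ((le_max_right _ _).trans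
    (le_max_right _ _))).trans hT
  have hTe : T6 ≤ T := ((le_max_left _ _).trans ((le_max_right _ _).trans
    ((le_max_right _ _).trans (le_max_right _ _)))).trans hT
  have hTf : T7 ≤ T := ((le_max_right _ _).trans ((le_max_right _ _).trans
    ((le_max_right _ _).trans (le_max_right _ _)))).trans hT
  have hT10 : 10 ≤ T := hT2.trans hTa
  have hTp : 0 < T := by linarith
  obtain ⟨hfD, hfH, hfX⟩ := hf T hTa
  have g5 := hT5 T hTd
  have g6 := hT6 T hTe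
  have g7 := hT7 T hTf
  have hln' := hln T hTc (f T) hfD hfH
  have hpi := Real.pi_pos
  have hpi3 := Real.pi_gt_three
  have hpi4 : Real.pi < 3.15 := Real.pi_lt_d2
  have hL8 : 8 ≤ Real.log T := by
    have : 0 ≤ 2 * Real.pi * Λ * r := by positivity
    linarith
  have hL0 : 0 < Real.log T := by linarith
  have hLΛ : 2 * Real.pi * Λ ≤ Real.log T := by
    have : 2 * Real.pi * Λ * 1 ≤ 2 * Real.pi * Λ * r := by gcongr
    linarith
  refine ⟨hLΛ, fun hT1 => ?_⟩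
  have hm1 : min 1 ε ≤ 1 := min_le_left _ _
  have hm0 : 0 < min 1 ε := lt_min one_pos hε
  have hLT : 48 * Real.log T ≤ T := by
    have : 48 * Real.log T ≤ (48 / min 1 ε) * Real.log T := by
      apply mul_le_mul_of_nonneg_right _ hL0.le
      have : (48 : ℝ) / 1 ≤ 48 / min 1 ε := div_le_div_of_nonneg_left (by norm_num) hm0 hm1
      linarith
    linarith
  have hLε : 12 * Real.log T ≤ ε / 4 * T := by
    have h1 : 48 / ε ≤ 48 / min 1 ε :=
      div_le_div_of_nonneg_left (by norm_num : (0:ℝ) ≤ 48) hm0 (min_le_right 1 ε)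
    have h2 : 48 / ε * Real.log T ≤ T := (mul_le_mul_of_nonneg_right h1 hL0.le).trans g7
    have h3 : 48 / ε * Real.log T = 48 * Real.log T / ε := by ring
    rw [h3, div_le_iff₀ hε] at h2
    linarith
  have hEAi := EAf_int k hK.le hK2 hC3.le hT10 (fun V1 V2 => hMp T hTb V1 V2) hΛ1 g5 hLT
  rw [← hK5, ← hr] at hEAi
  have hcoef1 : K5 / r ≤ ε ^ 2 / 16 := by
    rw [div_le_iff₀ hr0]
    rw [div_le_iff₀ (by positivity)] at hrA
    linarith
  have hcoef2 : K4 / r ≤ ε ^ 3 / 64 := by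
    rw [div_le_iff₀ hr0]
    rw [div_le_iff₀ (by positivity)] at hrB
    linarith
  refine exc_set (EA := EAf k K K2 T Λ) (EC := fun t =>
    ‖sw (2 * Real.pi * Λ / Real.log T) t (fun t => ev t (f T)) - ((f T).coeff 0 : ℂ)‖ ^ 2)
    (V1 := T + 6 * Real.log T) (V2 := 2 * T - 6 * Real.log T) hε
    (EAf_cont k K K2 hT1 Λ) (EAf_nonneg k hK.le hK2 hT10 hΛp)
    (((sw_cont _ _).sub continuous_const).norm.pow 2) (fun t => by positivity) hTp
    (by linarith) (by linarith) (by linarith) (by linarith)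
    (hEAi.trans (mul_le_mul_of_nonneg_right hcoef1 hTp.le))
    (hln'.trans (mul_le_mul_of_nonneg_right hcoef2 hTp.le)) ?_
  intro t ht1 ht2
  obtain ⟨-, hd⟩ := hdet ψ μ F.cont hG T hT10 Λ t hΛ1 hLΛ
  have hPc : Continuous fun t => ∏ j, XX (ψ j) (μ j) T t :=
    continuous_finsetProd _ fun j _ => XX_cont (F.cont j) _ hT1
  have b2 := sw_diff hPc (f T) (k := k) (K2 := K2) hT10 hΛp t (fun u hu => by
    have a1 : 2 * Real.pi * u / Real.log T ≤ 8 := by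
      rw [div_le_iff₀ hL0]
      nlinarith [hu.2]
    have a2 : 0 ≤ 2 * Real.pi * u / Real.log T := by
      have := hu.1
      positivity
    exact hfX (t + 2 * Real.pi * u / Real.log T) (by linarith) (by linarith))
  set I0 := ∫ u, ∏ j, AA hT1 (RR (ψ j) (μ j)) t (2 * Real.pi * Λ / Real.log T) u with hI0
  set P0 := ∫ u in (0 : ℝ)..Λ, ∏ j, XX (ψ j) (μ j) T (t + 2 * Real.pi * u / Real.log T) with hP0
  set S0 := sw (2 * Real.pi * Λ / Real.log T) t (fun t => ev t (f T)) with hS0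
  have e3 : EAf k K K2 T Λ t = 1 / Λ * (K * (Jw k T (fun u => wIn Λ u +
      (2 * Real.pi * Λ / Real.log T) ^ 2) 0 Λ t + Jw k T wOut (-Real.log T) 0 t +
      Jw k T (fun u => wOut (u - Λ)) Λ (Λ + Real.log T) t + 1 / Real.log T)) +
      1 / Λ * (K2 / Real.log T * Jw k T (fun _ => 1) 0 Λ t) := by
    unfold EAf; ring
  have b5 : |1 / Λ * I0 - 1 / Λ * P0| ≤ 1 / Λ * (K * (Jw k T (fun u => wIn Λ u +
      (2 * Real.pi * Λ / Real.log T) ^ 2) 0 Λ t + Jw k T wOut (-Real.log T) 0 t +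
      Jw k T (fun u => wOut (u - Λ)) Λ (Λ + Real.log T) t + 1 / Real.log T)) := by
    rw [← mul_sub, abs_mul, abs_of_nonneg (by positivity : 0 ≤ 1 / Λ)]
    exact mul_le_mul_of_nonneg_left hd (by positivity)
  have b4 : |1 / Λ * P0 - (f T).coeff 0| ≤ 1 / Λ * (K2 / Real.log T * Jw k T (fun _ => 1) 0 Λ t) +
      ‖S0 - ((f T).coeff 0 : ℂ)‖ := by
    have h1 : ((1 / Λ * P0 - (f T).coeff 0 : ℝ) : ℂ) =
        (((1 / Λ * P0 : ℝ) : ℂ) - S0) + (S0 - ((f T).coeff 0 : ℂ)) := by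
      rw [Complex.ofReal_sub]; ring
    rw [← Real.norm_eq_abs, ← Complex.norm_real, h1]
    exact (norm_add_le _ _).trans (add_le_add b2 le_rfl)
  have e2 : 1 / Λ * I0 - WW ψ = (1 / Λ * I0 - 1 / Λ * P0) + (1 / Λ * P0 - (f T).coeff 0) +
      ((f T).coeff 0 - WW ψ) := by ring
  rw [e2, e3]
  refine (abs_add_three _ _ _).trans ?_
  rw [Real.sqrt_sq (norm_nonneg _)]
  linarith

end Pool.Agent.R321.FA
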