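import Pool.Agent.R321.FC17

/-! The flat-top kernel and the convolution identity. -/

open Finset Complex MeasureTheory Filter Topology

namespace Pool.Agent.R321.FA

open H370.A2 (RR evp RR_cont RR_integrable RR_inv RR_even RR_bound RR_eq fejer evp_cont evp_zero
  evp_integrable)

/-- the convolution identity -/
theorem conv_id {ψ τ : ℝ → ℝ} {μ ν C : ℝ} (hψ : Continuous ψ) (hz : ∀ x, μ ≤ |x| → ψ x = 0)
    (hC : ∀ x, |RR ψ μ x| * x ^ 2 ≤ C) (hτ : Continuous τ) (hzτ : ∀ x, ν ≤ |x| → τ x = 0)
    (hτ1 : ∀ α, evp ψ α ≠ 0 → evp τ α = 1) (x y : ℝ) :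
    ∫ u, RR ψ μ (x - u) * RR τ ν (y - u) = RR ψ μ (x - y) := by
  have hRi := RR_integrable hψ hz hC
  have hRc := RR_cont (μ := μ) hψ
  have hτi := evp_integrable hτ hzτ
  have hτc := evp_cont hτ
  have h1 : ∫ u, RR ψ μ (x - u) * RR τ ν (y - u) =
      ∫ u, ∫ α, RR ψ μ (x - u) * (evp τ α * Real.cos (2 * Real.pi * α * (y - u))) := by
    refine integral_congr_ae (Eventually.of_forall fun u => ?_)
    show RR ψ μ (x - u) * RR τ ν (y - u) =
      ∫ α, RR ψ μ (x - u) * (evp τ α * Real.cos (2 * Real.pi * α * (y - u)))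
    rw [RR_eq hτ hzτ, integral_const_mul]
  have hint : Integrable (Function.uncurry fun u α : ℝ =>
      RR ψ μ (x - u) * (evp τ α * Real.cos (2 * Real.pi * α * (y - u))))
      (volume.prod volume) := by
    have hRi' : Integrable fun u => RR ψ μ (x - u) := hRi.comp_sub_left x
    refine (hRi'.norm.mul_prod hτi.norm).mono' ?_ (Eventually.of_forall fun z => ?_)
    · apply Continuous.aestronglyMeasurable
      unfold Function.uncurry
      exact (hRc.comp (by fun_prop)).mul ((hτc.comp (by fun_prop)).mul (by fun_prop))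
    · simp only [Function.uncurry]
      rw [norm_mul, norm_mul]
      have := Real.abs_cos_le_one (2 * Real.pi * z.2 * (y - z.1))
      rw [← Real.norm_eq_abs] at this
      calc ‖RR ψ μ (x - z.1)‖ * (‖evp τ z.2‖ * ‖Real.cos (2 * Real.pi * z.2 * (y - z.1))‖) ≤
          ‖RR ψ μ (x - z.1)‖ * (‖evp τ z.2‖ * 1) := by gcongr
        _ = _ := by ring
  rw [h1, integral_integral_swap hint]
  have h2 : ∀ α, ∫ u, RR ψ μ (x - u) * (evp τ α * Real.cos (2 * Real.pi * α * (y - u))) =
      evp ψ α * Real.cos (2 * Real.pi * α * (x - y)) := by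
    intro α
    have e1 : ∫ u, RR ψ μ (x - u) * (evp τ α * Real.cos (2 * Real.pi * α * (y - u))) =
        ∫ v, RR ψ μ v * (evp τ α * Real.cos (2 * Real.pi * α * (y - x + v))) := by
      have := integral_sub_left_eq_self
        (fun v => RR ψ μ v * (evp τ α * Real.cos (2 * Real.pi * α * (y - x + v)))) volume x
      rw [← this]
      refine integral_congr_ae (Eventually.of_forall fun u => ?_)
      show _ = RR ψ μ (x - u) * (evp τ α * Real.cos (2 * Real.pi * α * (y - x + (x - u))))
      congr 3
      ring_nf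
    have hi1 : Integrable fun v => RR ψ μ v * Real.cos (2 * Real.pi * v * α) := by
      refine hRi.norm.mono' (hRc.aestronglyMeasurable.mul
        (by fun_prop : Continuous fun v : ℝ => Real.cos (2 * Real.pi * v * α)).aestronglyMeasurable)
        (Eventually.of_forall fun v => ?_)
      rw [norm_mul]
      have := Real.abs_cos_le_one (2 * Real.pi * v * α)
      rw [← Real.norm_eq_abs] at this
      exact mul_le_of_le_one_right (norm_nonneg _) this
    have hi2 : Integrable fun v => RR ψ μ v * Real.sin (2 * Real.pi * v * α) := by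
      refine hRi.norm.mono' (hRc.aestronglyMeasurable.mul
        (by fun_prop : Continuous fun v : ℝ => Real.sin (2 * Real.pi * v * α)).aestronglyMeasurable)
        (Eventually.of_forall fun v => ?_)
      rw [norm_mul]
      have := Real.abs_sin_le_one (2 * Real.pi * v * α)
      rw [← Real.norm_eq_abs] at this
      exact mul_le_of_le_one_right (norm_nonneg _) this
    have hodd : ∫ v, RR ψ μ v * Real.sin (2 * Real.pi * v * α) = 0 := by
      have h3 := integral_neg_eq_self (fun v => RR ψ μ v * Real.sin (2 * Real.pi * v * α)) volume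
      have h4 : ∀ v, RR ψ μ (-v) * Real.sin (2 * Real.pi * (-v) * α) =
          -(RR ψ μ v * Real.sin (2 * Real.pi * v * α)) := by
        intro v
        rw [RR_even]
        have : 2 * Real.pi * (-v) * α = -(2 * Real.pi * v * α) := by ring
        rw [this, Real.sin_neg]
        ring
      simp_rw [h4] at h3
      rw [integral_neg] at h3
      linarith
    have e2 : ∀ v, RR ψ μ v * (evp τ α * Real.cos (2 * Real.pi * α * (y - x + v))) =
        evp τ α * Real.cos (2 * Real.pi * α * (y - x)) *
          (RR ψ μ v * Real.cos (2 * Real.pi * v * α)) -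
        evp τ α * Real.sin (2 * Real.pi * α * (y - x)) *
          (RR ψ μ v * Real.sin (2 * Real.pi * v * α)) := by
      intro v
      have : 2 * Real.pi * α * (y - x + v) = 2 * Real.pi * α * (y - x) + 2 * Real.pi * v * α := by
        ring
      rw [this, Real.cos_add]
      ring
    rw [e1]
    simp_rw [e2]
    rw [integral_sub (hi1.const_mul _) (hi2.const_mul _), integral_const_mul, integral_const_mul,
      hodd, RR_inv hψ hz hC]
    have e3 : Real.cos (2 * Real.pi * α * (y - x)) = Real.cos (2 * Real.pi * α * (x - y)) := by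
      rw [← Real.cos_neg]
      congr 1
      ring
    rw [e3, mul_zero, sub_zero]
    by_cases h : evp ψ α = 0
    · rw [h]; ring
    · rw [hτ1 α h]; ring
  simp_rw [h2]
  rw [← RR_eq hψ hz]

/-- the triangle -/
noncomputable def tri (a α : ℝ) : ℝ := max (a - |α|) 0

lemma tri_cont (a : ℝ) : Continuous (tri a) := by unfold tri; fun_prop

lemma tri_zero {a α : ℝ} (h : a ≤ |α|) : tri a α = 0 := by
  unfold tri; exact max_eq_right (by linarith)

lemma tri_lip (a x y : ℝ) : |tri a x - tri a y| ≤ |x - y| := by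
  unfold tri
  refine (abs_max_sub_max_le_abs _ _ _).trans ?_
  have : a - |x| - (a - |y|) = |y| - |x| := by ring
  rw [this, abs_sub_comm]
  exact abs_abs_sub_abs_le_abs_sub x y

/-- the transform of the triangle -/
lemma tri_tr {a b : ℝ} (ha : 0 < a) (hab : a ≤ b) {x : ℝ} (hx : x ≠ 0) :
    (∫ α in (-b)..b, tri a α * Real.cos (2 * Real.pi * α * x)) * x ^ 2 =
      Real.sin (Real.pi * (a * x)) ^ 2 / Real.pi ^ 2 := by
  have hpi := Real.pi_pos
  have hc : Continuous fun α => tri a α * Real.cos (2 * Real.pi * α * x) :=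
    (tri_cont a).mul (by fun_prop)
  have e1 : ∫ α in (-b)..b, tri a α * Real.cos (2 * Real.pi * α * x) =
      ∫ α in (-a)..a, tri a α * Real.cos (2 * Real.pi * α * x) := by
    rw [← intervalIntegral.integral_add_adjacent_intervals (b := -a) (hc.intervalIntegrable _ _)
      (hc.intervalIntegrable _ _), ← intervalIntegral.integral_add_adjacent_intervals (a := -a)
      (b := a) (hc.intervalIntegrable _ _) (hc.intervalIntegrable _ _)]
    have z1 : ∫ α in (-b)..(-a), tri a α * Real.cos (2 * Real.pi * α * x) = 0 := by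
      rw [intervalIntegral.integral_congr (g := fun _ => (0 : ℝ)), intervalIntegral.integral_zero]
      intro α hα
      rw [Set.uIcc_of_le (by linarith)] at hα
      show tri a α * _ = 0
      rw [tri_zero, zero_mul]
      have := neg_abs_le α
      linarith [hα.2]
    have z2 : ∫ α in a..b, tri a α * Real.cos (2 * Real.pi * α * x) = 0 := by
      rw [intervalIntegral.integral_congr (g := fun _ => (0 : ℝ)), intervalIntegral.integral_zero]
      intro α hα
      rw [Set.uIcc_of_le hab] at hα
      show tri a α * _ = 0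
      rw [tri_zero, zero_mul]
      exact hα.1.trans (le_abs_self α)
    rw [z1, z2]
    ring
  have e2 : ∫ α in (-a)..a, tri a α * Real.cos (2 * Real.pi * α * x) =
      a ^ 2 * ∫ β in (-1 : ℝ)..1, (1 - |β|) * Real.cos (2 * Real.pi * (a * x) * β) := by
    have h1 := intervalIntegral.integral_comp_mul_left (a := -1) (b := 1)
      (fun α => tri a α * Real.cos (2 * Real.pi * α * x)) ha.ne'
    have h2 : ∫ α in (-a)..a, tri a α * Real.cos (2 * Real.pi * α * x) =
        a * ∫ β in (-1 : ℝ)..1, tri a (a * β) * Real.cos (2 * Real.pi * (a * β) * x) := by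
      rw [h1, smul_eq_mul, mul_inv_cancel_left₀ ha.ne', mul_neg, mul_one]
    rw [h2, sq, mul_assoc]
    congr 1
    rw [← intervalIntegral.integral_const_mul]
    refine intervalIntegral.integral_congr fun β hβ => ?_
    rw [Set.uIcc_of_le (by norm_num)] at hβ
    show tri a (a * β) * Real.cos (2 * Real.pi * (a * β) * x) =
      a * ((1 - |β|) * Real.cos (2 * Real.pi * (a * x) * β))
    have h3 : tri a (a * β) = a * (1 - |β|) := by
      unfold tri
      rw [abs_mul, abs_of_pos ha, max_eq_left]
      · ring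
      · have : |β| ≤ 1 := abs_le.2 hβ
        nlinarith
    rw [h3, mul_assoc]
    congr 3
    ring
  have hax : a * x ≠ 0 := mul_ne_zero ha.ne' hx
  rw [e1, e2, fejer hax]
  field_simp

/-- the flat-top function -/
noncomputable def trp (μ ν α : ℝ) : ℝ := (tri ν α - tri μ α) / (ν - μ)

lemma trp_cont (μ ν : ℝ) : Continuous (trp μ ν) := by
  unfold trp
  exact ((tri_cont ν).sub (tri_cont μ)).div_const _

lemma trp_zero {μ ν α : ℝ} (hμν : μ < ν) (h : ν ≤ |α|) : trp μ ν α = 0 := by
  unfold trp
  rw [tri_zero h, tri_zero (by linarith)]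
  simp

lemma trp_one {μ ν α : ℝ} (hμν : μ < ν) (h : |α| ≤ μ) : trp μ ν α = 1 := by
  unfold trp tri
  rw [max_eq_left (by linarith), max_eq_left (by linarith)]
  rw [div_eq_one_iff_eq (by linarith)]
  ring

lemma trp_even (μ ν α : ℝ) : trp μ ν (-α) = trp μ ν α := by
  unfold trp tri
  rw [abs_neg]

lemma trp_evp (μ ν α : ℝ) : evp (trp μ ν) α = trp μ ν α := by
  unfold H370.A2.evp
  rw [trp_even]
  ring

lemma trp_lip {μ ν : ℝ} (hμν : μ < ν) (x y : ℝ) :
    |trp μ ν x - trp μ ν y| ≤ 2 / (ν - μ) * |x - y| := by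
  have h0 : 0 < ν - μ := by linarith
  unfold trp
  rw [← sub_div, abs_div, abs_of_pos h0, div_le_iff₀ h0]
  have e : tri ν x - tri μ x - (tri ν y - tri μ y) = (tri ν x - tri ν y) - (tri μ x - tri μ y) := by
    ring
  rw [e]
  refine (abs_sub _ _).trans ?_
  have h1 := tri_lip ν x y
  have h2 := tri_lip μ x y
  have h3 : 2 / (ν - μ) * |x - y| * (ν - μ) = 2 * |x - y| := by field_simp
  rw [h3]
  linarith

lemma trp_dec {μ ν : ℝ} (hμ : 0 < μ) (hμν : μ < ν) :
    ∃ C : ℝ, ∀ x, |RR (trp μ ν) ν x| * x ^ 2 ≤ C := by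
  have hpi := Real.pi_gt_three
  have h0 : 0 < ν - μ := by linarith
  refine ⟨1 / (ν - μ), fun x => ?_⟩
  rcases eq_or_ne x 0 with h | h
  · subst h
    simp only [ne_eq, OfNat.ofNat_ne_zero, not_false_eq_true, zero_pow, mul_zero]
    positivity
  · have e1 : RR (trp μ ν) ν x * x ^ 2 = ((Real.sin (Real.pi * (ν * x)) ^ 2 / Real.pi ^ 2) -
        (Real.sin (Real.pi * (μ * x)) ^ 2 / Real.pi ^ 2)) / (ν - μ) := by
      rw [← tri_tr (hμ.trans hμν) le_rfl h, ← tri_tr hμ hμν.le h, ← sub_mul]
      have hc1 : Continuous fun α => tri ν α * Real.cos (2 * Real.pi * α * x) :=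
        (tri_cont ν).mul (by fun_prop)
      have hc2 : Continuous fun α => tri μ α * Real.cos (2 * Real.pi * α * x) :=
        (tri_cont μ).mul (by fun_prop)
      rw [← intervalIntegral.integral_sub (hc1.intervalIntegrable _ _)
        (hc2.intervalIntegrable _ _)]
      unfold H370.A2.RR trp
      have e2 : ∀ α, (tri ν α - tri μ α) / (ν - μ) * Real.cos (2 * Real.pi * α * x) =
          (ν - μ)⁻¹ * (tri ν α * Real.cos (2 * Real.pi * α * x) -
            tri μ α * Real.cos (2 * Real.pi * α * x)) := fun α => by ring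
      simp_rw [e2]
      rw [intervalIntegral.integral_const_mul]
      ring
    have e3 : |RR (trp μ ν) ν x| * x ^ 2 = |RR (trp μ ν) ν x * x ^ 2| := by
      rw [abs_mul, abs_of_nonneg (sq_nonneg x)]
    rw [e3, e1, abs_div, abs_of_pos h0]
    apply div_le_div_of_nonneg_right _ h0.le
    have hs : ∀ θ : ℝ, 0 ≤ Real.sin θ ^ 2 / Real.pi ^ 2 ∧ Real.sin θ ^ 2 / Real.pi ^ 2 ≤ 1 := by
      intro θ
      refine ⟨by positivity, ?_⟩
      rw [div_le_one (by positivity)]
      have := Real.sin_sq_le_one θ
      nlinarith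
    have s1 := hs (Real.pi * (ν * x))
    have s2 := hs (Real.pi * (μ * x))
    rw [abs_le]
    constructor <;> linarith [s1.1, s1.2, s2.1, s2.2]

end Pool.Agent.R321.FA
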