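import Pool.Agent.R321.FC18

/-! Sums over the zeros in a window; the pair correlation. -/

open Finset Complex MeasureTheory Filter Topology

namespace Pool.Agent.R321.FA

open SP (ZZ mu Mk RHs)
open H370.A2 (RR evp RR_cont RR_integrable RR_inv RR_even RR_bound RR_eq fejer evp_cont evp_zero
  evp_integrable evp_int int_sym main_term evp_even)
open Pool.Agent.TH800.LD (ZZf)

open Classical in
/-- the zeros in `(a, b]` -/
noncomputable def ZN (a b : ℝ) : Finset ℂ :=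
  if h : (H370.zset riemannZeta a b).Finite then h.toFinset else ∅

lemma ZN_mem {a b : ℝ} (ha : 0 < a) (s : ℂ) : s ∈ ZN a b ↔ s ∈ H370.zset riemannZeta a b := by
  unfold ZN
  rw [dif_pos (H370.zset_finite' H370.good_zeta a b ha), Set.Finite.mem_toFinset]

lemma ZN_finsum {a b : ℝ} (ha : 0 < a) (f : ℂ → ℝ) :
    ∑ᶠ s ∈ H370.zset riemannZeta a b, f s = ∑ s ∈ ZN a b, f s := by
  have hf := H370.zset_finite' H370.good_zeta a b ha
  rw [finsum_mem_eq_finite_toFinset_sum _ hf]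
  unfold ZN
  rw [dif_pos hf]

/-- the product statistic of the zeros in the window -/
noncomputable def kst {k : ℕ} (g : Fin k → ℝ → ℝ) (L t w : ℝ) : ℝ :=
  ∫ u, ∏ j, ∑ s ∈ ZN t (t + w), (mu s : ℝ) * g j ((s.im - t) * L / (2 * Real.pi) - u)

/-- **products of linear statistics in almost all windows** -/
theorem klevel2 (hRH : RHs) {k : ℕ} (hk : 2 ≤ k) {ψ : Fin k → ℝ → ℝ} {μ : Fin k → ℝ}
    (F : Fam ψ μ) (ε : ℝ) (hε : 0 < ε) : ∃ Λ0 : ℝ, 1 ≤ Λ0 ∧ ∀ Λ : ℝ, Λ0 ≤ Λ →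
    ∃ T0 : ℝ, 10 ≤ T0 ∧ ∀ T : ℝ, T0 ≤ T →
    volume {t : ℝ | T ≤ t ∧ t ≤ 2 * T ∧ ε < |1 / Λ * kst (fun j => RR (ψ j) (μ j)) (Real.log T) t
      (2 * Real.pi * Λ / Real.log T) - WW ψ|} ≤ ENNReal.ofReal (ε * T) := by
  classical
  obtain ⟨Λ0, hΛ0, h⟩ := klevel hRH hk F (ε / 2) (by linarith)
  refine ⟨Λ0, hΛ0, fun Λ hΛ => ?_⟩
  obtain ⟨T0, hT0, h2⟩ := h Λ hΛ
  refine ⟨max T0 (2 / ε), hT0.trans (le_max_left _ _), fun T hT => ?_⟩
  have hTa : T0 ≤ T := (le_max_left _ _).trans hT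
  have hTb : 2 / ε ≤ T := (le_max_right _ _).trans hT
  have hT10 : 10 ≤ T := hT0.trans hTa
  have hT1 : 1 ≤ T := by linarith
  have hL0 : 0 < Real.log T := Real.log_pos (by linarith)
  obtain ⟨hLΛ, h3⟩ := h2 T hTa
  have h4 := h3 hT1
  set w := 2 * Real.pi * Λ / Real.log T with hw
  have hw1 : w ≤ 1 := by rw [hw, div_le_one hL0]; exact hLΛ
  have hsub : {t : ℝ | T ≤ t ∧ t ≤ 2 * T ∧ ε < |1 / Λ * kst (fun j => RR (ψ j) (μ j))
      (Real.log T) t w - WW ψ|} ⊆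
      {t : ℝ | T ≤ t ∧ t ≤ 2 * T ∧ ε / 2 < |1 / Λ * (∫ u, ∏ j, AA hT1 (RR (ψ j) (μ j)) t w u) -
        WW ψ|} ∪ Set.Icc (2 * T - 1) (2 * T) := by
    rintro t ⟨ht1, ht2, ht3⟩
    by_cases h5 : 2 * T - 1 ≤ t
    · exact Or.inr ⟨h5, ht2⟩
    left
    refine ⟨ht1, ht2, ?_⟩
    push Not at h5
    have e1 : ∀ g u, AA hT1 g t w u =
        ∑ s ∈ ZN t (t + w), (mu s : ℝ) * g ((s.im - t) * Real.log T / (2 * Real.pi) - u) := by
      intro g u
      unfold AA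
      apply Finset.sum_congr _ (fun _ _ => rfl)
      ext s
      rw [Finset.mem_filter, Set.Finite.mem_toFinset, ZN_mem (by linarith)]
      unfold SP.ZZ JF H370.zset
      simp only [Set.mem_ofPred_eq]
      constructor
      · rintro ⟨⟨a1, a2, a3, a4, a5⟩, a6, a7⟩
        exact ⟨a1, a2, a6, a7, a5⟩
      · rintro ⟨a1, a2, a6, a7, a5⟩
        exact ⟨⟨a1, a2, by linarith, by linarith, a5⟩, a6, a7⟩
    simp_rw [e1]
    unfold kst at ht3
    linarith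
  refine (measure_mono hsub).trans ((measure_union_le _ _).trans ((add_le_add h4 le_rfl).trans ?_))
  rw [Real.volume_Icc, ← ENNReal.ofReal_add (by positivity) (by linarith)]
  apply ENNReal.ofReal_le_ofReal
  rw [div_le_iff₀ hε] at hTb
  linarith

lemma kst2 {ψ τ : ℝ → ℝ} {μ ν C : ℝ} (hψ : Continuous ψ) (hz : ∀ x, μ ≤ |x| → ψ x = 0)
    (hC : ∀ x, |RR ψ μ x| * x ^ 2 ≤ C) (hτ : Continuous τ) (hzτ : ∀ x, ν ≤ |x| → τ x = 0)
    (hτ1 : ∀ α, evp ψ α ≠ 0 → evp τ α = 1) (L t w : ℝ) :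
    kst (fun j => RR ((![ψ, τ] : Fin 2 → ℝ → ℝ) j) ((![μ, ν] : Fin 2 → ℝ) j)) L t w =
      ∑ s ∈ ZN t (t + w), ∑ s' ∈ ZN t (t + w), (mu s : ℝ) * (mu s' : ℝ) *
        RR ψ μ ((s.im - s'.im) * L / (2 * Real.pi)) := by
  have hRi := RR_integrable hψ hz hC
  have hRc := RR_cont (μ := μ) hψ
  have hRc' := RR_cont (μ := ν) hτ
  unfold kst
  simp only [Fin.prod_univ_two, Matrix.cons_val_zero, Matrix.cons_val_one]
  simp_rw [Finset.sum_mul_sum]
  have hint : ∀ x y : ℝ, Integrable fun u => RR ψ μ (x - u) * RR τ ν (y - u) := by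
    intro x y
    have h1 : Integrable fun u => RR ψ μ (x - u) := hRi.comp_sub_left x
    refine (h1.norm.mul_const (∫ α, |evp τ α|)).mono'
      ((hRc.comp (by fun_prop)).mul (hRc'.comp (by fun_prop))).aestronglyMeasurable
      (Eventually.of_forall fun u => ?_)
    rw [norm_mul]
    exact mul_le_mul_of_nonneg_left (RR_bound hτ hzτ _) (norm_nonneg _)
  have e1 : ∀ (s s' : ℂ) (u : ℝ), (mu s : ℝ) * RR ψ μ ((s.im - t) * L / (2 * Real.pi) - u) *
      ((mu s' : ℝ) * RR τ ν ((s'.im - t) * L / (2 * Real.pi) - u)) =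
      ((mu s : ℝ) * (mu s' : ℝ)) * (RR ψ μ ((s.im - t) * L / (2 * Real.pi) - u) *
        RR τ ν ((s'.im - t) * L / (2 * Real.pi) - u)) := fun s s' u => by ring
  simp_rw [e1]
  rw [integral_finset_sum _ fun s _ => integrable_finset_sum _ fun s' _ =>
    (hint _ _).const_mul _]
  refine Finset.sum_congr rfl fun s _ => ?_
  rw [integral_finset_sum _ fun s' _ => (hint _ _).const_mul _]
  refine Finset.sum_congr rfl fun s' _ => ?_
  rw [integral_const_mul, conv_id hψ hz hC hτ hzτ hτ1]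
  congr 2
  ring

lemma finRange2 : List.finRange 2 = [0, 1] := by decide

lemma WW2 {ψ : ℝ → ℝ} {μ ν C : ℝ} (hμ : 0 < μ) (hμν : μ < ν) (hμ1 : μ ≤ 1) (hψ : Continuous ψ)
    (hz : ∀ x, μ ≤ |x| → ψ x = 0) (hC : ∀ x, |RR ψ μ x| * x ^ 2 ≤ C) :
    WW (![ψ, trp μ ν] : Fin 2 → ℝ → ℝ) =
      RR ψ μ 0 + ∫ x, RR ψ μ x * (1 - (Real.sin (Real.pi * x) / (Real.pi * x)) ^ 2) := by
  rw [main_term hψ hz hμ1 hC]
  unfold WW
  rw [finRange2, wk_cons, wk_cons, wk_nil]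
  simp only [Matrix.cons_val_zero, Matrix.cons_val_one, List.length_nil, Finset.univ_eq_empty,
    Finset.sum_empty, List.length_cons]
  rw [trp_one hμν (by rw [abs_zero]; exact hμ.le)]
  have e1 : ∑ i : Fin (0 + 1), (2 * ∫ u in (0 : ℝ)..1, u * evp ψ u *
      evp ((![ψ, trp μ ν] : Fin 2 → ℝ → ℝ) (([1] : List (Fin 2)).get i)) u) *
      wk (fun j => (![ψ, trp μ ν] : Fin 2 → ℝ → ℝ) j 0) (fun i j => 2 * ∫ u in (0 : ℝ)..1,
        u * evp ((![ψ, trp μ ν] : Fin 2 → ℝ → ℝ) i) u * evp ((![ψ, trp μ ν] : Fin 2 → ℝ → ℝ) j) u)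
        (([1] : List (Fin 2)).eraseIdx i) = 2 * ∫ u in (0 : ℝ)..1, u * evp ψ u * trp μ ν u := by
    rw [Fin.sum_univ_one]
    have e2 : (([1] : List (Fin 2)).eraseIdx ((0 : Fin (0 + 1)) : ℕ)) = [] := rfl
    have e3 : ([1] : List (Fin 2)).get (0 : Fin (0 + 1)) = 1 := rfl
    rw [e2, e3, wk_nil, mul_one]
    have e4 : ∀ u, evp ((![ψ, trp μ ν] : Fin 2 → ℝ → ℝ) 1) u = trp μ ν u := fun u =>
      trp_evp μ ν u
    simp_rw [e4]
  rw [e1]
  have e4 : ∀ u : ℝ, u * evp ψ u * trp μ ν u = u * evp ψ u := by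
    intro u
    by_cases h : |u| ≤ μ
    · rw [trp_one hμν h, mul_one]
    · push Not at h
      rw [evp_zero hz h.le]; ring
  simp_rw [e4]
  have hev := evp_cont hψ
  have e5 : ∫ α in (-μ)..μ, |α| * ψ α = ∫ α in (-μ)..μ, |α| * evp ψ α := by
    have h1 := evp_int hψ (c := fun α => |α|) continuous_abs (fun x => abs_neg x) μ
    have h2 : ∀ α, |α| * ψ α = ψ α * |α| := fun α => mul_comm _ _
    have h3 : ∀ α, |α| * evp ψ α = evp ψ α * |α| := fun α => mul_comm _ _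
    simp_rw [h2, h3]
    exact h1
  have e6 : ∫ α in (-μ)..μ, |α| * evp ψ α = 2 * ∫ α in (0 : ℝ)..μ, α * evp ψ α := by
    rw [int_sym (fun α => |α| * evp ψ α) (continuous_abs.mul hev) μ,
      ← intervalIntegral.integral_const_mul]
    refine intervalIntegral.integral_congr fun α hα => ?_
    rw [Set.uIcc_of_le hμ.le] at hα
    show |α| * evp ψ α + |-α| * evp ψ (-α) = _
    rw [abs_neg, evp_even, abs_of_nonneg hα.1]
    ring
  have e7 : ∫ u in (0 : ℝ)..1, u * evp ψ u = ∫ u in (0 : ℝ)..μ, u * evp ψ u := by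
    have hc : Continuous fun u => u * evp ψ u := continuous_id.mul hev
    rw [← intervalIntegral.integral_add_adjacent_intervals (b := μ) (hc.intervalIntegrable _ _)
      (hc.intervalIntegrable _ _)]
    have z : ∫ u in μ..1, u * evp ψ u = 0 := by
      rw [intervalIntegral.integral_congr (g := fun _ => (0 : ℝ)), intervalIntegral.integral_zero]
      intro u hu
      rw [Set.uIcc_of_le hμ1] at hu
      show u * evp ψ u = 0
      rw [evp_zero hz (hu.1.trans (le_abs_self u)), mul_zero]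
    rw [z, add_zero]
  rw [e5, e6, e7]
  ring

end Pool.Agent.R321.FA
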