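import Pool.Agent.R321.FC1

/-! The Euler operator and Wick's recursion for the constant coefficients. -/

open Finset

namespace Pool.Agent.R321.FA

/-- the Euler operator of the prime `p` -/
noncomputable def De (p : ℕ) (f : Al) : Al :=
  ∑ e ∈ f.coeff.support, AddMonoidAlgebra.single e ((e p : ℝ) * f.coeff e)

lemma De_coeff (p : ℕ) (f : Al) (e : G) : (De p f).coeff e = (e p : ℝ) * f.coeff e := by
  classical
  unfold De
  rw [AddMonoidAlgebra.coeff_sum, Finsupp.finsetSum_apply]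
  simp only [AddMonoidAlgebra.coeff_single, Finsupp.single_apply]
  rw [Finset.sum_ite_eq' f.coeff.support e (fun x => (x p : ℝ) * f.coeff x)]
  split_ifs with h
  · rfl
  · rw [Finsupp.notMem_support_iff.1 h, mul_zero]

lemma De_add (p : ℕ) (f g : Al) : De p (f + g) = De p f + De p g := by
  apply AddMonoidAlgebra.coeff_injective
  ext e
  rw [De_coeff, AddMonoidAlgebra.coeff_add, AddMonoidAlgebra.coeff_add, Finsupp.add_apply,
    Finsupp.add_apply, De_coeff, De_coeff]
  ring

lemma De_single (p : ℕ) (a : G) (x : ℝ) :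
    De p (AddMonoidAlgebra.single a x) = AddMonoidAlgebra.single a ((a p : ℝ) * x) := by
  classical
  apply AddMonoidAlgebra.coeff_injective
  ext e
  rw [De_coeff, AddMonoidAlgebra.coeff_single, AddMonoidAlgebra.coeff_single, Finsupp.single_apply,
    Finsupp.single_apply]
  split_ifs with h
  · rw [h]
  · rw [mul_zero]

lemma De_zero (p : ℕ) : De p 0 = 0 := by
  apply AddMonoidAlgebra.coeff_injective
  ext e
  rw [De_coeff]
  simp

/-- product rule -/
lemma De_mul (p : ℕ) (f g : Al) : De p (f * g) = De p f * g + f * De p g := by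
  induction f using AddMonoidAlgebra.induction_linear with
  | zero => rw [zero_mul, De_zero, zero_mul, zero_mul, add_zero]
  | add f1 f2 h1 h2 =>
    rw [add_mul, De_add, De_add, h1, h2]
    ring
  | single a x =>
    induction g using AddMonoidAlgebra.induction_linear with
    | zero => rw [mul_zero, De_zero, mul_zero, mul_zero, add_zero]
    | add g1 g2 h1 h2 =>
      rw [mul_add, De_add, De_add, h1, h2]
      ring
    | single b y =>
      rw [AddMonoidAlgebra.single_mul_single, De_single, De_single, De_single,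
        AddMonoidAlgebra.single_mul_single, AddMonoidAlgebra.single_mul_single,
        ← AddMonoidAlgebra.single_add]
      congr 1
      rw [Finsupp.add_apply]
      push_cast
      ring

/-- product rule for lists -/
lemma De_prod (p : ℕ) (l : List Al) : De p l.prod =
    ∑ i : Fin l.length, De p (l.get i) * (l.eraseIdx i).prod := by
  induction l with
  | nil =>
    rw [List.prod_nil, AddMonoidAlgebra.one_def, De_single]
    simp
  | cons f l ih =>
    rw [List.prod_cons, De_mul, ih, Finset.mul_sum]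
    refine Eq.trans ?_ (Fin.sum_univ_succ (n := l.length)
      (fun i => De p ((f :: l).get i) * ((f :: l).eraseIdx i).prod)).symm
    simp only [List.get_eq_getElem, Fin.val_zero, List.getElem_cons_zero, List.eraseIdx_cons_zero,
      Fin.val_succ, List.getElem_cons_succ, List.eraseIdx_cons_succ, List.prod_cons]
    congr 1
    refine Finset.sum_congr rfl fun i _ => ?_
    ring

lemma De_sg {U : Finset ℕ} {p : ℕ} (hp : p ∈ U) (m : ℤ) (y : ℕ → ℝ) :
    De p (sg U m y) = AddMonoidAlgebra.single (m • ds p) ((m : ℝ) * y p) := by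
  classical
  apply AddMonoidAlgebra.coeff_injective
  ext e
  rw [De_coeff, sg_coeff, AddMonoidAlgebra.coeff_single, Finsupp.single_apply, Finset.mul_sum]
  rw [Finset.sum_eq_single_of_mem p hp]
  · split_ifs with h
    · rw [← h, zds_apply, if_pos rfl]
    · rw [mul_zero]
  · intro q _ hq
    split_ifs with h
    · rw [← h, zds_apply, if_neg hq]; simp
    · rw [mul_zero]

lemma De_rp {U : Finset ℕ} {p : ℕ} (hp : p ∈ U) (c : ℝ) (y z : ℕ → ℝ) :
    De p (rp c U y z) = -((AddMonoidAlgebra.single ((1 : ℤ) • ds p) (y p) -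
      AddMonoidAlgebra.single ((-1 : ℤ) • ds p) (y p)) +
      (AddMonoidAlgebra.single ((2 : ℤ) • ds p) (2 * z p) -
      AddMonoidAlgebra.single ((-2 : ℤ) • ds p) (2 * z p))) := by
  have hs : ∀ (m : ℤ) (y : ℕ → ℝ), De p (sg U m y) =
      AddMonoidAlgebra.single (m • ds p) ((m : ℝ) * y p) := fun m y => De_sg hp m y
  have hneg : ∀ f : Al, De p (-f) = - De p f := by
    intro f
    apply AddMonoidAlgebra.coeff_injective
    ext e
    rw [De_coeff, AddMonoidAlgebra.coeff_neg, AddMonoidAlgebra.coeff_neg, Finsupp.neg_apply,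
      Finsupp.neg_apply, De_coeff]
    ring
  unfold rp
  rw [sub_eq_add_neg, De_add, hneg, De_add, De_add, De_add, hs, hs, hs, hs, De_single]
  have e1 : (AddMonoidAlgebra.single (0 : G) ((((0 : G) p : ℤ) : ℝ) * c) : Al) = 0 := by simp
  rw [e1]
  have e2 : ∀ (m : G) (x x' : ℝ), x' = -x → (AddMonoidAlgebra.single m x' : Al) =
      -AddMonoidAlgebra.single m x := by
    intro m x x' h
    rw [h, AddMonoidAlgebra.single_neg]
  rw [e2 ((-1 : ℤ) • ds p) (y p) (((-1 : ℤ) : ℝ) * y p) (by push_cast; ring),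
    e2 ((-2 : ℤ) • ds p) (2 * z p) (((-2 : ℤ) : ℝ) * z p) (by push_cast; ring)]
  have e3 : (((1 : ℤ) : ℝ) * y p) = y p := by push_cast; ring
  have e4 : (((2 : ℤ) : ℝ) * z p) = 2 * z p := by push_cast; ring
  rw [e3, e4]
  abel

/-- coefficient of `De (rp) * H` -/
lemma De_rp_coeff {U : Finset ℕ} {p : ℕ} (hp : p ∈ U) (c : ℝ) (y z : ℕ → ℝ) (H : Al) (e : G) :
    (De p (rp c U y z) * H).coeff e = -((y p * H.coeff (e - ds p) - y p * H.coeff (e + ds p)) +
      (2 * z p * H.coeff (e - (2 : ℤ) • ds p) - 2 * z p * H.coeff (e + (2 : ℤ) • ds p))) := by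
  rw [De_rp hp, neg_mul, add_mul, sub_mul, sub_mul, AddMonoidAlgebra.coeff_neg, Finsupp.neg_apply,
    AddMonoidAlgebra.coeff_add, Finsupp.add_apply, AddMonoidAlgebra.coeff_sub,
    AddMonoidAlgebra.coeff_sub, Finsupp.sub_apply, Finsupp.sub_apply,
    AddMonoidAlgebra.coeff_single_mul_apply, AddMonoidAlgebra.coeff_single_mul_apply,
    AddMonoidAlgebra.coeff_single_mul_apply, AddMonoidAlgebra.coeff_single_mul_apply]
  have a1 : -((1 : ℤ) • ds p) + e = e - ds p := by rw [one_smul]; abel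
  have a2 : -((-1 : ℤ) • ds p) + e = e + ds p := by rw [neg_one_smul]; abel
  have a3 : -((2 : ℤ) • ds p) + e = e - (2 : ℤ) • ds p := by abel
  have a4 : -((-2 : ℤ) • ds p) + e = e + (2 : ℤ) • ds p := by rw [neg_smul]; abel
  rw [a1, a2, a3, a4]

/-- the list of the polynomials -/
noncomputable def rl (U : Finset ℕ) (l : List (ℝ × (ℕ → ℝ) × (ℕ → ℝ))) : List Al :=
  l.map fun x => rp x.1 U x.2.1 x.2.2

lemma rl_erase (U : Finset ℕ) (l : List (ℝ × (ℕ → ℝ) × (ℕ → ℝ))) (i : ℕ) :
    (rl U l).eraseIdx i = rl U (l.eraseIdx i) := by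
  unfold rl
  rw [List.eraseIdx_map]

lemma rl_dom {U : Finset ℕ} {v : ℕ → ℝ} (hv : ∀ p, 0 ≤ v p) {M : ℝ}
    (hM : ∑ p ∈ U, v p ^ 2 ≤ M) {C : ℝ} (hC : 0 ≤ C) (l : List (ℝ × (ℕ → ℝ) × (ℕ → ℝ)))
    (hl : ∀ x ∈ l, YB U v C x.1 x.2.1 x.2.2) :
    Dom U v (2 * l.length) (Dc C M l.length) (rl U l).prod.coeff := by
  have h := prod_dom hv hM hC (rl U l) (fun f hf => by
    unfold rl at hf
    obtain ⟨x, hx, rfl⟩ := List.mem_map.1 hf
    exact rp_dom hv (hl x hx))
  have e : (rl U l).length = l.length := by unfold rl; rw [List.length_map]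
  rw [e] at h
  exact h

/-- coefficients at `± p` -/
lemma coeff_ds {U : Finset ℕ} {v : ℕ → ℝ} (hv : ∀ p, 0 ≤ v p) {M : ℝ}
    (hM : ∑ p ∈ U, v p ^ 2 ≤ M) {C : ℝ} (hC : 0 ≤ C) (l : List (ℝ × (ℕ → ℝ) × (ℕ → ℝ)))
    (hl : ∀ x ∈ l, YB U v C x.1 x.2.1 x.2.2) {p : ℕ} (hp : p ∈ U) (hv1 : v p ≤ 1) {D : ℝ}
    (hD : ∀ i : Fin l.length, Dc C M (l.eraseIdx i).length ≤ D) :
    |(rl U l).prod.coeff (ds p) + ∑ i : Fin l.length, (l.get i).2.1 p *
      (rl U (l.eraseIdx i)).prod.coeff 0| ≤ l.length * (5 * C * D) * v p ^ 3 ∧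
    |(rl U l).prod.coeff (-ds p) + ∑ i : Fin l.length, (l.get i).2.1 p *
      (rl U (l.eraseIdx i)).prod.coeff 0| ≤ l.length * (5 * C * D) * v p ^ 3 := by
  have hlen : (rl U l).length = l.length := by unfold rl; rw [List.length_map]
  -- the derivative
  have hder : ∀ e : G, (e p : ℝ) * (rl U l).prod.coeff e = ∑ i : Fin l.length,
      -(((l.get i).2.1 p * (rl U (l.eraseIdx i)).prod.coeff (e - ds p) -
        (l.get i).2.1 p * (rl U (l.eraseIdx i)).prod.coeff (e + ds p)) +
      (2 * (l.get i).2.2 p * (rl U (l.eraseIdx i)).prod.coeff (e - (2 : ℤ) • ds p) -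
        2 * (l.get i).2.2 p * (rl U (l.eraseIdx i)).prod.coeff (e + (2 : ℤ) • ds p))) := by
    intro e
    rw [← De_coeff, De_prod, AddMonoidAlgebra.coeff_sum, Finsupp.finsetSum_apply]
    refine Fintype.sum_equiv (finCongr hlen) _ _ fun i => ?_
    rw [rl_erase]
    have e1 : (rl U l).get i = rp (l.get (finCongr hlen i)).1 U (l.get (finCongr hlen i)).2.1
        (l.get (finCongr hlen i)).2.2 := by
      have h0 : ∀ (n : ℕ) (h1 : n < (rl U l).length) (h2 : n < l.length), (rl U l)[n] =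
          rp (l[n]).1 U (l[n]).2.1 (l[n]).2.2 := by
        intro n h1 h2
        simp only [rl, List.getElem_map]
      exact h0 i i.isLt (by rw [← hlen]; exact i.isLt)
    rw [e1, De_rp_coeff hp]
    rfl
  have hbd : ∀ (i : Fin l.length) (e : G), |(rl U (l.eraseIdx i)).prod.coeff e| ≤ D * mw v e := by
    intro i e
    have h1 := (rl_dom hv hM hC (l.eraseIdx i)
      (fun x hx => hl x (List.mem_of_mem_eraseIdx hx)) e).1
    exact h1.trans (mul_le_mul_of_nonneg_right (hD i) (mw_nonneg hv e))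
  have hv0 := hv p
  have hpow : ∀ m : ℤ, mw v (m • ds p) = v p ^ m.natAbs := fun m => zds_mw v m p
  have hy : ∀ i : Fin l.length, |(l.get i).2.1 p| ≤ C * v p := fun i =>
    (hl _ (List.get_mem l i)).2.1 p hp
  have hz : ∀ i : Fin l.length, |(l.get i).2.2 p| ≤ C * v p ^ 2 := fun i =>
    (hl _ (List.get_mem l i)).2.2 p hp
  have hD0 : ∀ i : Fin l.length, 0 ≤ D := fun i =>
    (Dc_nonneg hC ((Finset.sum_nonneg fun p _ => sq_nonneg _).trans hM) _).trans (hD i)
  have b1 : ∀ (i : Fin l.length) (m : ℤ), |(rl U (l.eraseIdx i)).prod.coeff (m • ds p)| ≤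
      D * v p ^ m.natAbs := fun i m => by rw [← hpow]; exact hbd i _
  have v5 : v p ^ 5 ≤ v p ^ 3 := pow_le_pow_of_le_one hv0 hv1 (by norm_num)
  -- the bound for the remaining terms
  have hrest : ∀ (i : Fin l.length) (x1 x2 x3 : ℝ), |x1| ≤ D * v p ^ 2 → |x2| ≤ D * v p ^ 1 →
      |x3| ≤ D * v p ^ 3 → |(l.get i).2.1 p * x1 - (2 * (l.get i).2.2 p * x2 -
        2 * (l.get i).2.2 p * x3)| ≤ 5 * C * D * v p ^ 3 := by
    intro i x1 x2 x3 h1 h2 h3
    have hDi := hD0 i
    have g1 : |(l.get i).2.1 p * x1| ≤ C * v p * (D * v p ^ 2) := by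
      rw [abs_mul]; exact mul_le_mul (hy i) h1 (abs_nonneg _) (by positivity)
    have g2 : |2 * (l.get i).2.2 p * x2| ≤ 2 * (C * v p ^ 2) * (D * v p ^ 1) := by
      rw [abs_mul, abs_mul, abs_of_pos (by norm_num : (0 : ℝ) < 2)]
      exact mul_le_mul (by linarith [hz i]) h2 (abs_nonneg _) (by positivity)
    have g3 : |2 * (l.get i).2.2 p * x3| ≤ 2 * (C * v p ^ 2) * (D * v p ^ 3) := by
      rw [abs_mul, abs_mul, abs_of_pos (by norm_num : (0 : ℝ) < 2)]
      exact mul_le_mul (by linarith [hz i]) h3 (abs_nonneg _) (by positivity)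
    have g4 : 2 * (C * v p ^ 2) * (D * v p ^ 3) ≤ 2 * (C * D) * v p ^ 3 := by
      calc 2 * (C * v p ^ 2) * (D * v p ^ 3) = 2 * (C * D) * v p ^ 5 := by ring
        _ ≤ _ := mul_le_mul_of_nonneg_left v5 (by positivity)
    calc _ ≤ |(l.get i).2.1 p * x1| + (|2 * (l.get i).2.2 p * x2| +
          |2 * (l.get i).2.2 p * x3|) :=
          (abs_sub _ _).trans (add_le_add le_rfl (abs_sub _ _))
      _ ≤ C * v p * (D * v p ^ 2) + (2 * (C * v p ^ 2) * (D * v p ^ 1) +
          2 * (C * D) * v p ^ 3) := add_le_add g1 (add_le_add g2 (g3.trans g4))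
      _ = _ := by ring
  constructor
  · have h1 := hder (ds p)
    have e0 : ((ds p) p : ℝ) = 1 := by unfold ds; simp
    rw [e0, one_mul] at h1
    rw [h1, ← Finset.sum_add_distrib]
    have e1 : ds p - ds p = 0 := sub_self _
    have e2 : ds p + ds p = (2 : ℤ) • ds p := by rw [two_smul]
    have e3 : ds p - (2 : ℤ) • ds p = (-1 : ℤ) • ds p := by rw [two_smul, neg_one_smul]; abel
    have e4 : ds p + (2 : ℤ) • ds p = (3 : ℤ) • ds p := by
      rw [two_smul, show (3 : ℤ) = 1 + 1 + 1 by norm_num, add_smul, add_smul, one_smul]; abel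
    refine (Finset.abs_sum_le_sum_abs _ _).trans ?_
    refine (Finset.sum_le_card_nsmul _ _ (5 * C * D * v p ^ 3) fun i _ => ?_).trans ?_
    · rw [e1, e2, e3, e4]
      refine le_trans (le_of_eq ?_) (hrest i ((rl U (l.eraseIdx i)).prod.coeff ((2 : ℤ) • ds p))
        ((rl U (l.eraseIdx i)).prod.coeff ((-1 : ℤ) • ds p))
        ((rl U (l.eraseIdx i)).prod.coeff ((3 : ℤ) • ds p)) (b1 i 2) (b1 i (-1)) (b1 i 3))
      congr 1
      ring
    · rw [Finset.card_univ, Fintype.card_fin, nsmul_eq_mul]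
      apply le_of_eq
      ring
  · have h1 := hder (-ds p)
    have e0 : ((-ds p) p : ℝ) = -1 := by unfold ds; simp
    have e00 : (((-ds p : G) p : ℤ) : ℝ) = -1 := by
      rw [Finsupp.neg_apply]
      unfold ds
      simp
    rw [e00] at h1
    have h1' : (rl U l).prod.coeff (-ds p) = ∑ i : Fin l.length,
      (((l.get i).2.1 p * (rl U (l.eraseIdx i)).prod.coeff (-ds p - ds p) -
        (l.get i).2.1 p * (rl U (l.eraseIdx i)).prod.coeff (-ds p + ds p)) +
      (2 * (l.get i).2.2 p * (rl U (l.eraseIdx i)).prod.coeff (-ds p - (2 : ℤ) • ds p) -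
        2 * (l.get i).2.2 p * (rl U (l.eraseIdx i)).prod.coeff (-ds p + (2 : ℤ) • ds p))) := by
      have h2 : (rl U l).prod.coeff (-ds p) = -(-1 * (rl U l).prod.coeff (-ds p)) := by ring
      rw [h2, h1, ← Finset.sum_neg_distrib]
      exact Finset.sum_congr rfl fun i _ => neg_neg _
    rw [h1', ← Finset.sum_add_distrib]
    have e1 : -ds p + ds p = 0 := neg_add_cancel _
    have e2 : -ds p - ds p = (-2 : ℤ) • ds p := by rw [neg_smul, two_smul]; abel
    have e3 : -ds p + (2 : ℤ) • ds p = (1 : ℤ) • ds p := by rw [two_smul, one_smul]; abel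
    have e4 : -ds p - (2 : ℤ) • ds p = (-3 : ℤ) • ds p := by
      rw [neg_smul, two_smul, show (3 : ℤ) = 1 + 1 + 1 by norm_num, add_smul, add_smul, one_smul]
      abel
    refine (Finset.abs_sum_le_sum_abs _ _).trans ?_
    refine (Finset.sum_le_card_nsmul _ _ (5 * C * D * v p ^ 3) fun i _ => ?_).trans ?_
    · rw [e1, e2, e3, e4]
      refine le_trans (le_of_eq ?_) (hrest i ((rl U (l.eraseIdx i)).prod.coeff ((-2 : ℤ) • ds p))
        ((rl U (l.eraseIdx i)).prod.coeff ((1 : ℤ) • ds p))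
        ((rl U (l.eraseIdx i)).prod.coeff ((-3 : ℤ) • ds p)) (b1 i (-2)) (b1 i 1) (b1 i (-3)))
      congr 1
      ring
    · rw [Finset.card_univ, Fintype.card_fin, nsmul_eq_mul]
      apply le_of_eq
      ring

end Pool.Agent.R321.FA
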