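import Pool.Agent.R321.FC19

/-! Families from test functions. -/

open Finset Complex MeasureTheory Filter Topology

namespace Pool.Agent.R321.FA

open SP (ZZ mu Mk RHs)
open H370.A2 (RR evp RR_cont evp_zero)

/-- test functions -/
structure TF (ψ : ℝ → ℝ) (μ : ℝ) : Prop where
  lip : ∃ K : ℝ, ∀ x y, |ψ x - ψ y| ≤ K * |x - y|
  zero : ∀ x, μ ≤ |x| → ψ x = 0
  dec : ∃ C : ℝ, ∀ x, |RR ψ μ x| * x ^ 2 ≤ C

lemma lip_nonneg {f : ℝ → ℝ} {K : ℝ} (h : ∀ x y, |f x - f y| ≤ K * |x - y|) : 0 ≤ K := by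
  have h1 := h 1 0
  have h2 := abs_nonneg (f 1 - f 0)
  simp at h1
  linarith

lemma lip_cont {f : ℝ → ℝ} {K : ℝ} (h : ∀ x y, |f x - f y| ≤ K * |x - y|) : Continuous f := by
  have : LipschitzWith K.toNNReal f := by
    refine LipschitzWith.of_dist_le_mul fun x y => ?_
    rw [Real.dist_eq, Real.dist_eq, Real.coe_toNNReal _ (lip_nonneg h)]
    exact h x y
  exact this.continuous

lemma evp_lip {f : ℝ → ℝ} {K : ℝ} (h : ∀ x y, |f x - f y| ≤ K * |x - y|) (x y : ℝ) :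
    |evp f x - evp f y| ≤ K * |x - y| := by
  unfold H370.A2.evp
  have h1 := h x y
  have h2 := h (-x) (-y)
  have e1 : |-x - -y| = |x - y| := by
    rw [← abs_neg]; congr 1; ring
  rw [e1] at h2
  have e2 : (f x + f (-x)) / 2 - (f y + f (-y)) / 2 = ((f x - f y) + (f (-x) - f (-y))) / 2 := by
    ring
  rw [e2, abs_div, abs_two, div_le_iff₀ (by norm_num)]
  refine (abs_add_le _ _).trans ?_
  linarith

theorem fam_mk {k : ℕ} {ψ : Fin k → ℝ → ℝ} {μ : Fin k → ℝ} (h : ∀ j, TF (ψ j) (μ j))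
    (hpos : ∀ j, 0 < μ j) (hsum : ∑ j, μ j < 1) : Fam ψ μ := by
  choose K hK using fun j => (h j).lip
  have hK0 : ∀ j, 0 ≤ K j := fun j => lip_nonneg (hK j)
  have hc : ∀ j, Continuous (ψ j) := fun j => lip_cont (hK j)
  choose C hC using fun j => (h j).dec
  choose G hG1 hG using fun j => RR_dp (hc j) (h j).zero (hC j)
  have hKs : ∀ j, K j ≤ ∑ i, K i := fun j =>
    Finset.single_le_sum (f := K) (fun i _ => hK0 i) (Finset.mem_univ j)
  have hμs : ∀ j, μ j ≤ ∑ i, μ i := fun j =>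
    Finset.single_le_sum (f := μ) (fun i _ => (hpos i).le) (Finset.mem_univ j)
  have hGs : ∀ j, G j ≤ ∑ i, G i := fun j =>
    Finset.single_le_sum (f := G) (fun i _ => by linarith [hG1 i]) (Finset.mem_univ j)
  have hG0 : 0 ≤ ∑ i, G i := Finset.sum_nonneg fun i _ => by linarith [hG1 i]
  have hKs0 : 0 ≤ ∑ i, K i := Finset.sum_nonneg fun i _ => hK0 i
  refine ⟨hc, hpos, hsum, fun j => (h j).zero, ⟨∑ i, K i, fun j x y => ?_⟩,
    ⟨1 + 2 * ∑ i, K i, by linarith, fun j x => ?_⟩, ⟨1 + ∑ i, G i, by linarith, fun j x => ?_⟩⟩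
  · exact (evp_lip (hK j) x y).trans (mul_le_mul_of_nonneg_right (hKs j) (abs_nonneg _))
  · by_cases hx : μ j ≤ |x|
    · rw [evp_zero (h j).zero hx, abs_zero]
      linarith
    · push Not at hx
      have h1 := evp_lip (hK j) x (μ j)
      rw [evp_zero (h j).zero (le_abs_self _), sub_zero] at h1
      have h2 : |x - μ j| ≤ 2 := by
        have h3 := hμs j
        obtain ⟨a, b⟩ := abs_lt.1 hx
        rw [abs_le]
        constructor <;> linarith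
      have h4 : K j * |x - μ j| ≤ (∑ i, K i) * 2 :=
        mul_le_mul (hKs j) h2 (abs_nonneg _) hKs0
      linarith
  · refine (hG j x).trans ?_
    apply mul_le_mul_of_nonneg_right _ (by positivity)
    linarith [hGs j]

lemma trp_TF {μ ν : ℝ} (hμ : 0 < μ) (hμν : μ < ν) : TF (trp μ ν) ν :=
  ⟨⟨_, trp_lip hμν⟩, fun _ hx => trp_zero hμν hx, trp_dec hμ hμν⟩

/-- **the pair correlation in almost all windows** -/
theorem pair_micro (hRH : RHs) {μ : ℝ} (hμ : 0 < μ) (hμ2 : μ < 1 / 2) {ψ : ℝ → ℝ} (h : TF ψ μ)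
    (ε : ℝ) (hε : 0 < ε) : ∃ Λ0 : ℝ, 1 ≤ Λ0 ∧ ∀ Λ : ℝ, Λ0 ≤ Λ →
    ∃ T0 : ℝ, 10 ≤ T0 ∧ ∀ T : ℝ, T0 ≤ T →
    volume {t : ℝ | T ≤ t ∧ t ≤ 2 * T ∧ ε < |1 / Λ * (∑ s ∈ ZN t (t + 2 * Real.pi * Λ / Real.log T),
      ∑ s' ∈ ZN t (t + 2 * Real.pi * Λ / Real.log T), (mu s : ℝ) * (mu s' : ℝ) *
        RR ψ μ ((s.im - s'.im) * Real.log T / (2 * Real.pi))) -
      (RR ψ μ 0 + ∫ x, RR ψ μ x * (1 - (Real.sin (Real.pi * x) / (Real.pi * x)) ^ 2))|} ≤
        ENNReal.ofReal (ε * T) := by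
  obtain ⟨K, hK⟩ := h.lip
  obtain ⟨C, hC⟩ := h.dec
  have hψ := lip_cont hK
  have F : Fam (![ψ, trp μ (1 / 2)] : Fin 2 → ℝ → ℝ) (![μ, 1 / 2] : Fin 2 → ℝ) := by
    apply fam_mk
    · intro j
      fin_cases j
      · exact h
      · exact trp_TF hμ hμ2
    · intro j
      fin_cases j
      · exact hμ
      · show (0 : ℝ) < 1 / 2
        norm_num
    · rw [Fin.sum_univ_two]
      show μ + 1 / 2 < 1
      linarith
  obtain ⟨Λ0, hΛ0, h1⟩ := klevel2 hRH le_rfl F ε hε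
  refine ⟨Λ0, hΛ0, fun Λ hΛ => ?_⟩
  obtain ⟨T0, hT0, h2⟩ := h1 Λ hΛ
  refine ⟨T0, hT0, fun T hT => ?_⟩
  have h3 := h2 T hT
  rw [WW2 hμ hμ2 (by linarith) hψ h.zero hC] at h3
  have hτ1 : ∀ α, evp ψ α ≠ 0 → evp (trp μ (1 / 2)) α = 1 := by
    intro α hα
    rw [trp_evp]
    apply trp_one hμ2
    by_contra hcon
    push Not at hcon
    exact hα (evp_zero h.zero hcon.le)
  have e1 : ∀ t, kst (fun j => RR ((![ψ, trp μ (1 / 2)] : Fin 2 → ℝ → ℝ) j)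
      ((![μ, 1 / 2] : Fin 2 → ℝ) j)) (Real.log T) t (2 * Real.pi * Λ / Real.log T) =
      ∑ s ∈ ZN t (t + 2 * Real.pi * Λ / Real.log T),
        ∑ s' ∈ ZN t (t + 2 * Real.pi * Λ / Real.log T), (mu s : ℝ) * (mu s' : ℝ) *
        RR ψ μ ((s.im - s'.im) * Real.log T / (2 * Real.pi)) := fun t =>
    kst2 hψ h.zero hC (trp_cont _ _) (fun x hx => trp_zero hμ2 hx) hτ1 _ _ _
  simp_rw [e1] at h3
  exact h3

end Pool.Agent.R321.FA
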