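import Pool.Agent.R321.FC20

/-! The product statistic as a sum over tuples of zeros. -/

open Finset Complex MeasureTheory Filter Topology

namespace Pool.Agent.R321.FA

open SP (ZZ mu Mk RHs)
open H370.A2 (RR evp RR_cont RR_integrable RR_bound)

/-- the translation invariant kernel -/
noncomputable def Phi {k : ℕ} (g : Fin k → ℝ → ℝ) (x : Fin k → ℝ) : ℝ := ∫ u, ∏ j, g j (x j - u)

lemma Phi_shift {k : ℕ} (g : Fin k → ℝ → ℝ) (x : Fin k → ℝ) (c : ℝ) :
    Phi g (fun j => x j - c) = Phi g x := by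
  unfold Phi
  have h := integral_add_right_eq_self (fun u => ∏ j, g j (x j - u)) c (μ := volume)
  rw [← h]
  refine integral_congr_ae (Eventually.of_forall fun u => ?_)
  refine Finset.prod_congr rfl fun j _ => ?_
  congr 1
  ring

/-- bounded integrable continuous functions -/
structure BI (f : ℝ → ℝ) : Prop where
  cont : Continuous f
  int : Integrable f
  bd : ∃ C : ℝ, ∀ x, |f x| ≤ C

lemma BI_shift {f : ℝ → ℝ} (h : BI f) (x : ℝ) : BI fun u => f (x - u) := by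
  obtain ⟨C, hC⟩ := h.bd
  exact ⟨h.cont.comp (by fun_prop), h.int.comp_sub_left x, C, fun u => hC _⟩

lemma BI_prod : ∀ {k : ℕ} {f : Fin (k + 1) → ℝ → ℝ}, (∀ j, BI (f j)) → BI fun u => ∏ j, f j u := by
  intro k
  induction k with
  | zero =>
    intro f h
    have : (fun u => ∏ j, f j u) = f 0 := by
      ext u
      simp
    rw [this]
    exact h 0
  | succ n ih =>
    intro f h
    have h1 : BI fun u => ∏ j : Fin (n + 1), f j.succ u := ih fun j => h j.succ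
    have e : (fun u => ∏ j, f j u) = fun u => f 0 u * ∏ j : Fin (n + 1), f j.succ u := by
      ext u
      rw [Fin.prod_univ_succ]
    rw [e]
    obtain ⟨C, hC⟩ := (h 0).bd
    obtain ⟨C', hC'⟩ := h1.bd
    refine ⟨(h 0).cont.mul h1.cont, ?_, C * C', fun x => ?_⟩
    · refine ((h 0).int.norm.mul_const C').mono' ((h 0).cont.mul h1.cont).aestronglyMeasurable
        (Eventually.of_forall fun u => ?_)
      rw [norm_mul]
      exact mul_le_mul_of_nonneg_left (hC' u) (norm_nonneg _)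
    · rw [abs_mul]
      exact mul_le_mul (hC x) (hC' x) (abs_nonneg _) ((abs_nonneg _).trans (hC x))

lemma kst_sum {k : ℕ} (hk : 1 ≤ k) {g : Fin k → ℝ → ℝ} (hg : ∀ j, BI (g j)) (L t w : ℝ) :
    kst g L t w = ∑ s ∈ Fintype.piFinset (fun _ : Fin k => ZN t (t + w)),
      (∏ j, (mu (s j) : ℝ)) * Phi g (fun j => (s j).im * (L / (2 * Real.pi))) := by
  obtain ⟨n, rfl⟩ : ∃ n, k = n + 1 := ⟨k - 1, by omega⟩
  unfold kst
  simp_rw [Finset.prod_univ_sum, Finset.prod_mul_distrib]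
  rw [integral_finset_sum]
  · refine Finset.sum_congr rfl fun s _ => ?_
    rw [integral_const_mul]
    congr 1
    rw [← Phi_shift g (fun j => (s j).im * (L / (2 * Real.pi))) (t * (L / (2 * Real.pi)))]
    unfold Phi
    refine integral_congr_ae (Eventually.of_forall fun u => ?_)
    refine Finset.prod_congr rfl fun j _ => ?_
    congr 1
    ring
  · intro s _
    apply Integrable.const_mul
    exact (BI_prod fun j => BI_shift (hg j) ((s j).im - t) |> fun _ =>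
      BI_shift (hg j) (((s j).im - t) * L / (2 * Real.pi))).int

lemma TF_BI {ψ : ℝ → ℝ} {μ : ℝ} (h : TF ψ μ) : BI (RR ψ μ) := by
  obtain ⟨K, hK⟩ := h.lip
  obtain ⟨C, hC⟩ := h.dec
  have hψ := lip_cont hK
  exact ⟨RR_cont hψ, RR_integrable hψ h.zero hC, _, RR_bound hψ h.zero⟩

/-- **the k-level sums in almost all windows** -/
theorem klevel3 (hRH : RHs) {k : ℕ} (hk : 2 ≤ k) {ψ : Fin k → ℝ → ℝ} {μ : Fin k → ℝ}
    (h : ∀ j, TF (ψ j) (μ j)) (hpos : ∀ j, 0 < μ j) (hsum : ∑ j, μ j < 1) (ε : ℝ) (hε : 0 < ε) :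
    ∃ Λ0 : ℝ, 1 ≤ Λ0 ∧ ∀ Λ : ℝ, Λ0 ≤ Λ → ∃ T0 : ℝ, 10 ≤ T0 ∧ ∀ T : ℝ, T0 ≤ T →
    volume {t : ℝ | T ≤ t ∧ t ≤ 2 * T ∧ ε < |1 / Λ *
      (∑ s ∈ Fintype.piFinset (fun _ : Fin k => ZN t (t + 2 * Real.pi * Λ / Real.log T)),
        (∏ j, (mu (s j) : ℝ)) * Phi (fun j => RR (ψ j) (μ j))
          (fun j => (s j).im * (Real.log T / (2 * Real.pi)))) - WW ψ|} ≤ ENNReal.ofReal (ε * T) := by
  obtain ⟨Λ0, hΛ0, h1⟩ := klevel2 hRH hk (fam_mk h hpos hsum) ε hε
  refine ⟨Λ0, hΛ0, fun Λ hΛ => ?_⟩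
  obtain ⟨T0, hT0, h2⟩ := h1 Λ hΛ
  refine ⟨T0, hT0, fun T hT => ?_⟩
  have h3 := h2 T hT
  have e1 : ∀ t, kst (fun j => RR (ψ j) (μ j)) (Real.log T) t (2 * Real.pi * Λ / Real.log T) =
      ∑ s ∈ Fintype.piFinset (fun _ : Fin k => ZN t (t + 2 * Real.pi * Λ / Real.log T)),
        (∏ j, (mu (s j) : ℝ)) * Phi (fun j => RR (ψ j) (μ j))
          (fun j => (s j).im * (Real.log T / (2 * Real.pi))) := fun t =>
    kst_sum (by omega) (fun j => TF_BI (h j)) _ _ _
  simp_rw [e1] at h3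
  exact h3

end Pool.Agent.R321.FA
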