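import Pool.Agent.R321.FC2

/-! Wick's recursion and the limit of the constant coefficients. -/

open Finset Filter Topology

namespace Pool.Agent.R321.FA

/-- the mean of the product of the `c j + ξ j`, where `ξ` is a centred Gaussian vector with
covariances `κ` -/
noncomputable def wk {ι : Type} (c : ι → ℝ) (κ : ι → ι → ℝ) : List ι → ℝ
  | [] => 1
  | j :: l => c j * wk c κ l + ∑ i : Fin l.length, κ j (l.get i) * wk c κ (l.eraseIdx i)
termination_by l => l.length
decreasing_by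
  · simp
  · have := List.length_eraseIdx_le l i
    simp only [List.length_cons]
    omega

lemma wk_nil {ι : Type} (c : ι → ℝ) (κ : ι → ι → ℝ) : wk c κ [] = 1 := by rw [wk]

lemma wk_cons {ι : Type} (c : ι → ℝ) (κ : ι → ι → ℝ) (j : ι) (l : List ι) :
    wk c κ (j :: l) = c j * wk c κ l +
      ∑ i : Fin l.length, κ j (l.get i) * wk c κ (l.eraseIdx i) := by rw [wk]

/-- data of a prime polynomial -/
abbrev Dt := ℝ × (ℕ → ℝ) × (ℕ → ℝ)

/-- the constant coefficient of the product -/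
noncomputable def E0 (U : Finset ℕ) (l : List Dt) : ℝ := (rl U l).prod.coeff 0

lemma E0_nil (U : Finset ℕ) : E0 U [] = 1 := by
  unfold E0 rl
  rw [List.map_nil, List.prod_nil, AddMonoidAlgebra.one_def, AddMonoidAlgebra.coeff_single,
    Finsupp.single_apply, if_pos rfl]

/-- the largest constant -/
noncomputable def Dm (C M : ℝ) (n : ℕ) : ℝ := ∑ k ∈ Finset.range (n + 1), Dc C M k

lemma Dc_le_Dm {C M : ℝ} (hC : 0 ≤ C) (hM : 0 ≤ M) {k n : ℕ} (h : k ≤ n) : Dc C M k ≤ Dm C M n :=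
  Finset.single_le_sum (f := fun k => Dc C M k) (fun i _ => Dc_nonneg hC hM i)
    (Finset.mem_range.2 (by omega))

lemma Dm_nonneg {C M : ℝ} (hC : 0 ≤ C) (hM : 0 ≤ M) (n : ℕ) : 0 ≤ Dm C M n :=
  Finset.sum_nonneg fun i _ => Dc_nonneg hC hM i

/-- **the recursion** -/
theorem E0_rec {U : Finset ℕ} {v : ℕ → ℝ} (hv : ∀ p, 0 ≤ v p) (hv1 : ∀ p ∈ U, v p ≤ 1) {M : ℝ}
    (hM : ∑ p ∈ U, v p ^ 2 ≤ M) {C : ℝ} (hC : 0 ≤ C) (x : Dt) (l : List Dt)
    (hx : YB U v C x.1 x.2.1 x.2.2) (hl : ∀ x ∈ l, YB U v C x.1 x.2.1 x.2.2) :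
    |E0 U (x :: l) - (x.1 * E0 U l + ∑ i : Fin l.length,
      (2 * ∑ p ∈ U, x.2.1 p * (l.get i).2.1 p) * E0 U (l.eraseIdx i))| ≤
      2 * C * Dm C M l.length * (5 * C * l.length + 1) * ∑ p ∈ U, v p ^ 4 := by
  have hM0 : 0 ≤ M := (Finset.sum_nonneg fun p _ => sq_nonneg _).trans hM
  set D := Dm C M l.length with hDd
  have hD0 : 0 ≤ D := Dm_nonneg hC hM0 _
  set g := (rl U l).prod with hg
  have hgD : ∀ e, |g.coeff e| ≤ D * mw v e := fun e =>
    ((rl_dom hv hM hC l hl) e).1.trans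
      (mul_le_mul_of_nonneg_right (Dc_le_Dm hC hM0 le_rfl) (mw_nonneg hv e))
  have hDi : ∀ i : Fin l.length, Dc C M (l.eraseIdx i).length ≤ D := fun i =>
    Dc_le_Dm hC hM0 (List.length_eraseIdx_le l i)
  -- the exact formula
  have hE : E0 U (x :: l) = x.1 * g.coeff 0 -
      ((∑ p ∈ U, x.2.1 p * g.coeff (-ds p) + ∑ p ∈ U, x.2.1 p * g.coeff (ds p)) +
      (∑ p ∈ U, x.2.2 p * g.coeff ((-2 : ℤ) • ds p) +
        ∑ p ∈ U, x.2.2 p * g.coeff ((2 : ℤ) • ds p))) := by
    have hs : ∀ (m : ℤ) (y : ℕ → ℝ), (sg U m y * g).coeff 0 =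
        ∑ p ∈ U, y p * g.coeff ((-m) • ds p) := by
      intro m y
      unfold sg
      rw [Finset.sum_mul, AddMonoidAlgebra.coeff_sum, Finsupp.finsetSum_apply]
      refine Finset.sum_congr rfl fun p _ => ?_
      rw [AddMonoidAlgebra.coeff_single_mul_apply, add_zero, neg_smul]
    unfold E0 rl
    rw [List.map_cons, List.prod_cons]
    change (rp x.1 U x.2.1 x.2.2 * g).coeff 0 = _
    unfold rp
    rw [sub_mul, add_mul, add_mul, add_mul, AddMonoidAlgebra.coeff_sub, Finsupp.sub_apply,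
      AddMonoidAlgebra.coeff_add, Finsupp.add_apply, AddMonoidAlgebra.coeff_add, Finsupp.add_apply,
      AddMonoidAlgebra.coeff_add, Finsupp.add_apply, hs, hs, hs, hs,
      AddMonoidAlgebra.coeff_single_mul_apply, neg_zero, add_zero]
    have e1 : ∀ p, ((-1 : ℤ)) • ds p = -ds p := fun p => neg_one_smul _ _
    have e2 : ∀ p, (-(-1) : ℤ) • ds p = ds p := fun p => by rw [neg_neg, one_smul]
    have e3 : ∀ p, (-(-2) : ℤ) • ds p = (2 : ℤ) • ds p := fun p => by rw [neg_neg]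
    simp only [e1, e2, e3]
  -- the squares
  have hsq : ∀ m : ℤ, m.natAbs = 2 → |∑ p ∈ U, x.2.2 p * g.coeff (m • ds p)| ≤
      C * D * ∑ p ∈ U, v p ^ 4 := by
    intro m hm
    refine (Finset.abs_sum_le_sum_abs _ _).trans ?_
    rw [Finset.mul_sum]
    refine Finset.sum_le_sum fun p hp => ?_
    rw [abs_mul]
    have h1 := hx.2.2 p hp
    have h2 := hgD (m • ds p)
    rw [zds_mw, hm] at h2
    have := hv p
    calc |x.2.2 p| * |g.coeff (m • ds p)| ≤ (C * v p ^ 2) * (D * v p ^ 2) :=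
          mul_le_mul h1 h2 (abs_nonneg _) (by positivity)
      _ = _ := by ring
  -- the primes
  have hpr : ∀ s : G → G, (∀ p ∈ U, |g.coeff (s (ds p)) + ∑ i : Fin l.length, (l.get i).2.1 p *
      (rl U (l.eraseIdx i)).prod.coeff 0| ≤ l.length * (5 * C * D) * v p ^ 3) →
      |∑ p ∈ U, x.2.1 p * g.coeff (s (ds p)) + ∑ i : Fin l.length,
        (∑ p ∈ U, x.2.1 p * (l.get i).2.1 p) * E0 U (l.eraseIdx i)| ≤
        C * (l.length * (5 * C * D)) * ∑ p ∈ U, v p ^ 4 := by
    intro s hs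
    have e1 : ∑ p ∈ U, x.2.1 p * g.coeff (s (ds p)) + ∑ i : Fin l.length,
        (∑ p ∈ U, x.2.1 p * (l.get i).2.1 p) * E0 U (l.eraseIdx i) =
        ∑ p ∈ U, x.2.1 p * (g.coeff (s (ds p)) + ∑ i : Fin l.length, (l.get i).2.1 p *
          (rl U (l.eraseIdx i)).prod.coeff 0) := by
      simp only [mul_add, Finset.sum_add_distrib]
      congr 1
      simp only [Finset.sum_mul, Finset.mul_sum]
      rw [Finset.sum_comm]
      refine Finset.sum_congr rfl fun p _ => Finset.sum_congr rfl fun i _ => ?_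
      unfold E0
      ring
    rw [e1]
    refine (Finset.abs_sum_le_sum_abs _ _).trans ?_
    rw [Finset.mul_sum]
    refine Finset.sum_le_sum fun p hp => ?_
    rw [abs_mul]
    have := hv p
    calc |x.2.1 p| * |_| ≤ (C * v p) * (l.length * (5 * C * D) * v p ^ 3) :=
          mul_le_mul (hx.2.1 p hp) (hs p hp) (abs_nonneg _) (by positivity)
      _ = _ := by ring
  have c1 := hpr (fun e => e) (fun p hp => (coeff_ds hv hM hC l hl hp (hv1 p hp) hDi).1)
  have c2 := hpr (fun e => -e) (fun p hp => (coeff_ds hv hM hC l hl hp (hv1 p hp) hDi).2)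
  have c3 := hsq 2 rfl
  have c4 := hsq (-2) rfl
  have e5 : ∑ i : Fin l.length, (2 * ∑ p ∈ U, x.2.1 p * (l.get i).2.1 p) * E0 U (l.eraseIdx i) =
      2 * ∑ i : Fin l.length, (∑ p ∈ U, x.2.1 p * (l.get i).2.1 p) * E0 U (l.eraseIdx i) := by
    rw [Finset.mul_sum]
    exact Finset.sum_congr rfl fun i _ => by ring
  rw [hE, e5]
  set S := ∑ i : Fin l.length, (∑ p ∈ U, x.2.1 p * (l.get i).2.1 p) * E0 U (l.eraseIdx i) with hS
  set A1 := ∑ p ∈ U, x.2.1 p * g.coeff (-ds p)
  set A2 := ∑ p ∈ U, x.2.1 p * g.coeff (ds p)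
  set A3 := ∑ p ∈ U, x.2.2 p * g.coeff ((-2 : ℤ) • ds p)
  set A4 := ∑ p ∈ U, x.2.2 p * g.coeff ((2 : ℤ) • ds p)
  set V := ∑ p ∈ U, v p ^ 4
  have eg : E0 U l = g.coeff 0 := rfl
  rw [eg]
  have e6 : x.1 * g.coeff 0 - ((A1 + A2) + (A3 + A4)) - (x.1 * g.coeff 0 + 2 * S) =
      -((A2 + S) + (A1 + S) + A3 + A4) := by ring
  rw [e6, abs_neg]
  calc |A2 + S + (A1 + S) + A3 + A4| ≤ |A2 + S| + |A1 + S| + |A3| + |A4| := by
        refine (abs_add_le _ _).trans (add_le_add ((abs_add_le _ _).trans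
          (add_le_add (abs_add_le _ _) le_rfl)) le_rfl)
    _ ≤ C * (l.length * (5 * C * D)) * V + C * (l.length * (5 * C * D)) * V + C * D * V +
        C * D * V := add_le_add (add_le_add (add_le_add c1 c2) c4) c3
    _ = _ := by ring

/-- **the limit** -/
theorem E0_lim {ι : Type} (c : ι → ℝ) (κ : ι → ι → ℝ) (U : ℝ → Finset ℕ) (v : ℝ → ℕ → ℝ)
    (X : ℝ → ι → Dt) {M C T0 : ℝ} (hC : 0 ≤ C)
    (hv : ∀ T, T0 ≤ T → (∀ p, 0 ≤ v T p) ∧ (∀ p ∈ U T, v T p ≤ 1) ∧
      (∑ p ∈ U T, v T p ^ 2 ≤ M) ∧ ∀ i, YB (U T) (v T) C (X T i).1 (X T i).2.1 (X T i).2.2)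
    (h4 : Tendsto (fun T => ∑ p ∈ U T, v T p ^ 4) atTop (𝓝 0))
    (hc : ∀ i, Tendsto (fun T => (X T i).1) atTop (𝓝 (c i)))
    (hκ : ∀ i j, Tendsto (fun T => 2 * ∑ p ∈ U T, (X T i).2.1 p * (X T j).2.1 p) atTop
      (𝓝 (κ i j))) (l : List ι) :
    Tendsto (fun T => E0 (U T) (l.map (X T))) atTop (𝓝 (wk c κ l)) := by
  induction hn : l.length using Nat.strong_induction_on generalizing l with
  | _ n ih =>
    rcases l with _ | ⟨j, l⟩
    · simp only [List.map_nil, E0_nil, wk_nil]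
      exact tendsto_const_nhds
    · have hlen : l.length < n := by rw [← hn]; simp
      rw [wk_cons]
      have h1 : Tendsto (fun T => (X T j).1 * E0 (U T) (l.map (X T)) + ∑ i : Fin l.length,
          (2 * ∑ p ∈ U T, (X T j).2.1 p * (X T (l.get i)).2.1 p) *
            E0 (U T) ((l.eraseIdx i).map (X T))) atTop
          (𝓝 (c j * wk c κ l + ∑ i : Fin l.length, κ j (l.get i) * wk c κ (l.eraseIdx i))) := by
        refine ((hc j).mul (ih _ hlen l rfl)).add (tendsto_finsetSum _ fun i _ => ?_)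
        refine (hκ j (l.get i)).mul (ih _ ?_ (l.eraseIdx i) rfl)
        exact lt_of_le_of_lt (List.length_eraseIdx_le l i) hlen
      have h2 : Tendsto (fun T => 2 * C * Dm C M l.length * (5 * C * l.length + 1) *
          ∑ p ∈ U T, v T p ^ 4) atTop (𝓝 0) := by
        have := h4.const_mul (2 * C * Dm C M l.length * (5 * C * l.length + 1))
        rwa [mul_zero] at this
      have h3 : Tendsto (fun T => E0 (U T) ((j :: l).map (X T)) -
          ((X T j).1 * E0 (U T) (l.map (X T)) + ∑ i : Fin l.length,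
          (2 * ∑ p ∈ U T, (X T j).2.1 p * (X T (l.get i)).2.1 p) *
            E0 (U T) ((l.eraseIdx i).map (X T)))) atTop (𝓝 0) := by
        apply squeeze_zero_norm' _ h2
        filter_upwards [eventually_ge_atTop T0] with T hT
        obtain ⟨g1, g2, g3, g4⟩ := hv T hT
        have h5 := E0_rec g1 g2 g3 hC (X T j) (l.map (X T)) (g4 j) (by
          intro x hx
          obtain ⟨i, _, rfl⟩ := List.mem_map.1 hx
          exact g4 i)
        have e1 : (l.map (X T)).length = l.length := List.length_map _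
        have e2 : ∑ i : Fin (l.map (X T)).length,
            (2 * ∑ p ∈ U T, (X T j).2.1 p * ((l.map (X T)).get i).2.1 p) *
              E0 (U T) ((l.map (X T)).eraseIdx i) = ∑ i : Fin l.length,
            (2 * ∑ p ∈ U T, (X T j).2.1 p * (X T (l.get i)).2.1 p) *
              E0 (U T) ((l.eraseIdx i).map (X T)) := by
          refine Fintype.sum_equiv (finCongr e1) _ _ fun i => ?_
          rw [List.eraseIdx_map]
          congr 2
          refine Finset.sum_congr rfl fun p _ => ?_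
          congr 2
          simp
        rw [e2, e1] at h5
        rw [Real.norm_eq_abs, List.map_cons]
        exact h5
      have h6 := h3.add h1
      rw [zero_add] at h6
      refine h6.congr fun T => ?_
      ring

end Pool.Agent.R321.FA
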