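import Pool.Agent.R321.FC3
import Pool.Agent.R321.FA12

/-! The law of large numbers for the averages over sharp windows. -/

open Finset Complex MeasureTheory Filter Topology

namespace Pool.Agent.R321.FA

/-- the multiplier of the average over a window of length `h` -/
noncomputable def mf (h x : ℝ) : ℂ := (1 / h : ℝ) * ∫ s in (0 : ℝ)..h, cexp (((s * x : ℝ) : ℂ) * I)

lemma mf_le_one {h : ℝ} (hh : 0 < h) (x : ℝ) : ‖mf h x‖ ≤ 1 := by
  unfold mf
  rw [norm_mul, Complex.norm_real, Real.norm_of_nonneg (by positivity : (0 : ℝ) ≤ 1 / h)]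
  have h1 : ‖∫ s in (0 : ℝ)..h, cexp (((s * x : ℝ) : ℂ) * I)‖ ≤ 1 * |h - 0| := by
    apply intervalIntegral.norm_integral_le_of_norm_le_const
    intro s _
    rw [Complex.norm_exp_ofReal_mul_I]
  rw [sub_zero, abs_of_pos hh, one_mul] at h1
  calc 1 / h * ‖∫ s in (0 : ℝ)..h, cexp (((s * x : ℝ) : ℂ) * I)‖ ≤ 1 / h * h := by gcongr
    _ = 1 := by field_simp

lemma mf_le {h : ℝ} (hh : 0 < h) {x : ℝ} (hx : x ≠ 0) : ‖mf h x‖ ≤ 2 / (h * |x|) := by
  unfold mf
  rw [norm_mul, Complex.norm_real, Real.norm_of_nonneg (by positivity : (0 : ℝ) ≤ 1 / h)]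
  have hxI : (x : ℂ) * I ≠ 0 := mul_ne_zero (by exact_mod_cast hx) I_ne_zero
  have e1 : ∫ s in (0 : ℝ)..h, cexp (((s * x : ℝ) : ℂ) * I) =
      (cexp ((x : ℂ) * I * h) - cexp ((x : ℂ) * I * (0 : ℝ))) / ((x : ℂ) * I) := by
    rw [← integral_exp_mul_complex hxI]
    refine intervalIntegral.integral_congr fun s _ => ?_
    show cexp (((s * x : ℝ) : ℂ) * I) = cexp ((x : ℂ) * I * s)
    congr 1
    push_cast
    ring
  rw [e1, norm_div, norm_mul, Complex.norm_I, mul_one, Complex.norm_real, Real.norm_eq_abs]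
  have hx0 : 0 < |x| := abs_pos.2 hx
  have h2 : ‖cexp ((x : ℂ) * I * h) - cexp ((x : ℂ) * I * (0 : ℝ))‖ ≤ 2 := by
    refine (norm_sub_le _ _).trans ?_
    have a1 : ‖cexp ((x : ℂ) * I * h)‖ = 1 := by
      rw [show (x : ℂ) * I * h = ((x * h : ℝ) : ℂ) * I by push_cast; ring,
        Complex.norm_exp_ofReal_mul_I]
    have a2 : ‖cexp ((x : ℂ) * I * (0 : ℝ))‖ = 1 := by simp
    rw [a1, a2]; norm_num
  calc 1 / h * (‖cexp ((x : ℂ) * I * h) - cexp ((x : ℂ) * I * (0 : ℝ))‖ / |x|) ≤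
      1 / h * (2 / |x|) := by gcongr
    _ = _ := by field_simp

/-- the average over the window `[t, t + h]` -/
noncomputable def sw (h t : ℝ) (F : ℝ → ℂ) : ℂ := (1 / h : ℝ) * ∫ s in (0 : ℝ)..h, F (t + s)

lemma sw_ev (h t : ℝ) (f : Al) : sw h t (fun t => ev t f) =
    ∑ e ∈ f.coeff.support, ((f.coeff e : ℂ) * mf h (fr e)) * cexp (((t * fr e : ℝ) : ℂ) * I) := by
  unfold sw
  simp_rw [ev_eq]
  rw [intervalIntegral.integral_finsetSum]
  · rw [Finset.mul_sum]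
    refine Finset.sum_congr rfl fun e _ => ?_
    unfold mf
    have : ∀ s : ℝ, (f.coeff e : ℂ) * cexp ((((t + s) * fr e : ℝ) : ℂ) * I) =
        ((f.coeff e : ℂ) * cexp (((t * fr e : ℝ) : ℂ) * I)) * cexp (((s * fr e : ℝ) : ℂ) * I) := by
      intro s
      rw [mul_assoc, ← Complex.exp_add]
      congr 2
      push_cast
      ring
    simp_rw [this]
    rw [intervalIntegral.integral_const_mul]
    ring
  · intro e _
    apply Continuous.intervalIntegrable
    fun_prop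

/-- separation under a bound for the sum of the heights -/
lemma sep_sum {e f : G} (he : ∀ p ∈ e.support, p.Prime) (hf : ∀ p ∈ f.support, p.Prime)
    (hne : e ≠ f) {H : ℝ} (h1 : hp e + hn e ≤ H) (h2 : hp f + hn f ≤ H) (hH : 0 ≤ H) :
    Real.exp (-(H + 1 / 2)) ≤ |fr e - fr f| := by
  have hfr : fr e - fr f = (hp e + hn f) - (hp f + hn e) := by
    rw [fr_hp_hn e, fr_hp_hn f]; ring
  rcases le_or_gt |fr e - fr f| 1 with h | h
  · rw [hfr] at h
    obtain ⟨g1, g2⟩ := abs_le.1 h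
    apply sep he hf hne (by linarith) (by linarith)
  · refine le_trans ?_ h.le
    rw [Real.exp_le_one_iff]
    linarith

/-- the general mean value estimate -/
lemma mv_gen (C : ℝ) (hC : 0 ≤ C) (k : ℕ) (κ : ℝ) (hκ : 0 < κ) (hκ1 : κ ≤ 1) (b : ℝ) (hb : 0 < b) :
    ∃ T0 : ℝ, 10 ≤ T0 ∧ ∀ T : ℝ, T0 ≤ T → ∀ f : Al,
    Dom (PN ⌊T⌋₊) (vp 1 (Real.log T)) k C f.coeff → Ht f ((1 - κ) * Real.log T) →
    ∀ (U : Finset G) (c : G → ℂ), U ⊆ f.coeff.support → (∀ e, ‖c e‖ ≤ 1) →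
    ∫ t in T..(2 * T), ‖∑ e ∈ U, ((f.coeff e : ℂ) * c e) * cexp (((t * fr e : ℝ) : ℂ) * I)‖ ^ 2 ≤
      4 * T * (∑ e ∈ U, f.coeff e ^ 2 * ‖c e‖ ^ 2 + b) := by
  set M := max C 1 with hM
  have hCM : C ≤ M := le_max_left _ _
  have hM1 : 1 ≤ M := le_max_right _ _
  obtain ⟨T1, hT1, h1⟩ := poly_exp M k κ b hκ hb
  obtain ⟨T2, hT2⟩ : ∃ T2 : ℝ, ∀ T : ℝ, T2 ≤ T → 1 ≤ κ * Real.log T := by
    have h2 : Tendsto (fun T : ℝ => κ * Real.log T) atTop atTop :=
      Real.tendsto_log_atTop.const_mul_atTop hκ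
    exact (h2.eventually_ge_atTop _).exists_forall_of_atTop
  refine ⟨max T1 T2, hT1.trans (le_max_left _ _), fun T hT f hD hh U c hU hc => ?_⟩
  obtain ⟨g1, -⟩ := h1 T ((le_max_left _ _).trans hT)
  have hκL := hT2 T ((le_max_right _ _).trans hT)
  have hT10 : 10 ≤ T := hT1.trans ((le_max_left _ _).trans hT)
  have hT0 : 0 < T := by linarith
  set L := Real.log T with hL
  have hL1 : 1 ≤ L := by
    rw [hL, Real.le_log_iff_exp_le (by linarith)]
    have := Real.exp_one_lt_d9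
    linarith
  have hv : ∀ p, 0 ≤ vp 1 L p := fun p => vp_nonneg (by norm_num) L p
  have hNT : (⌊T⌋₊ : ℝ) ≤ T := Nat.floor_le hT0.le
  have hV : ∑ p ∈ PN ⌊T⌋₊, vp 1 L p ≤ T :=
    (vp_sum (by norm_num) hL1 _).trans (by rw [one_mul]; exact hNT)
  have hnm := Dom.nm_le hv hC hD hV
  have hH0 : 0 ≤ (1 - κ) * L := mul_nonneg (by linarith) (by linarith)
  set δ := Real.exp (-((1 - κ) * L + 1 / 2)) with hδ
  have hsep : ∀ i ∈ U, ∀ j ∈ U, i ≠ j → δ ≤ |fr i - fr j| := by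
    intro i hi j hj hij
    have hi0 := Finsupp.mem_support_iff.1 (hU hi)
    have hj0 := Finsupp.mem_support_iff.1 (hU hj)
    exact sep_sum (fun p hp => (mem_PN.1 (((hD i).2 hi0).2 hp)).1)
      (fun p hp => (mem_PN.1 (((hD j).2 hj0).2 hp)).1) hij (hh i hi0) (hh j hj0) hH0
  refine (TH800.MS.gm_sep U (fun e => (f.coeff e : ℂ) * c e) fr T δ hT0 (Real.exp_pos _)
    hsep).trans ?_
  apply mul_le_mul_of_nonneg_left _ (by positivity)
  apply add_le_add
  · apply le_of_eq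
    refine Finset.sum_congr rfl fun e _ => ?_
    rw [norm_mul, mul_pow, Complex.norm_real, Real.norm_eq_abs, sq_abs]
  · refine le_trans ?_ g1
    have a1 : ∑ e ∈ U, ‖(f.coeff e : ℂ) * c e‖ ≤ M * (1 + 2 * (M * T)) ^ k := by
      calc ∑ e ∈ U, ‖(f.coeff e : ℂ) * c e‖ ≤ ∑ e ∈ U, |f.coeff e| := by
            refine Finset.sum_le_sum fun e _ => ?_
            rw [norm_mul, Complex.norm_real, Real.norm_eq_abs]
            exact mul_le_of_le_one_right (abs_nonneg _) (hc e)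
        _ ≤ ∑ e ∈ f.coeff.support, |f.coeff e| :=
            Finset.sum_le_sum_of_subset_of_nonneg hU fun _ _ _ => abs_nonneg _
        _ ≤ C * (1 + 2 * T) ^ k := hnm
        _ ≤ M * (1 + 2 * (M * T)) ^ k := by
            have : T ≤ M * T := le_mul_of_one_le_left hT0.le hM1
            gcongr
    have a2 : T ^ κ ≤ T ^ 2 * δ ^ 2 := by
      have e1 : T ^ 2 * δ ^ 2 = Real.exp (2 * κ * L - 1) := by
        have e2 : T ^ 2 = Real.exp (2 * L) := by
          rw [← Real.exp_log hT0, ← hL, ← Real.exp_nat_mul]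
          push_cast
          ring_nf
        rw [e2, hδ, ← Real.exp_nat_mul, ← Real.exp_add]
        congr 1
        push_cast
        ring
      rw [e1, Real.rpow_def_of_pos hT0]
      apply Real.exp_le_exp.2
      rw [← hL]
      nlinarith
    have a3 : 0 ≤ ∑ e ∈ U, ‖(f.coeff e : ℂ) * c e‖ := Finset.sum_nonneg fun _ _ => norm_nonneg _
    apply mul_le_mul
    · exact pow_le_pow_left₀ a3 a1 2
    · apply Real.exp_le_exp.2
      linarith
    · exact (Real.exp_pos _).le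
    · positivity

/-- the second moment -/
theorem sq_sum (C : ℝ) (hC : 0 ≤ C) (k : ℕ) (κ : ℝ) (hκ : 0 < κ) (hκ1 : κ ≤ 1) :
    ∃ T0 : ℝ, 10 ≤ T0 ∧ ∀ T : ℝ, T0 ≤ T → ∀ f : Al,
    Dom (PN ⌊T⌋₊) (vp 1 (Real.log T)) k C f.coeff → Ht f ((1 - κ) * Real.log T) →
    ∫ t in T..(2 * T), ‖ev t f‖ ^ 2 ≤ (4 * (C ^ 2 * 15 ^ k + 1)) * T := by
  obtain ⟨T0, hT0, h⟩ := mv_gen C hC k κ hκ hκ1 1 one_pos
  refine ⟨T0, hT0, fun T hT f hD hh => ?_⟩
  have hT10 := hT0.trans hT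
  have hT0' : 0 < T := by linarith
  set L := Real.log T with hL
  have hL1 : 1 ≤ L := by
    rw [hL, Real.le_log_iff_exp_le (by linarith)]
    have := Real.exp_one_lt_d9
    linarith
  have hv : ∀ p, 0 ≤ vp 1 L p := fun p => vp_nonneg (by norm_num) L p
  have hN1 : 1 ≤ ⌊T⌋₊ := by
    rw [Nat.one_le_floor_iff]
    linarith
  have hNT : (⌊T⌋₊ : ℝ) ≤ T := Nat.floor_le hT0'.le
  have hNL : Real.log ⌊T⌋₊ ≤ L := Real.log_le_log (by exact_mod_cast hN1) hNT
  have h1 := h T hT f hD hh f.coeff.support (fun _ => 1) subset_rfl (fun _ => by simp)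
  have htot := Dom.total hv hD (vp_total hL1 _ hN1 hNL) f.coeff.support
  have e1 : ∀ t, ‖ev t f‖ ^ 2 = ‖∑ e ∈ f.coeff.support, ((f.coeff e : ℂ) * 1) *
      cexp (((t * fr e : ℝ) : ℂ) * I)‖ ^ 2 := fun t => by
    rw [ev_eq]; simp only [mul_one]
  simp_rw [e1]
  refine h1.trans ?_
  have e2 : ∑ e ∈ f.coeff.support, f.coeff e ^ 2 * ‖(1 : ℂ)‖ ^ 2 ≤ C ^ 2 * 15 ^ k := by
    refine le_trans (le_of_eq ?_) (htot.trans (le_of_eq ?_))
    · refine Finset.sum_congr rfl fun e _ => ?_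
      simp
    · norm_num
  calc _ ≤ 4 * T * (C ^ 2 * 15 ^ k + 1) := by gcongr
    _ = _ := by ring

/-- **the law of large numbers** -/
theorem lln_sharp (C : ℝ) (hC : 0 ≤ C) (k : ℕ) (κ : ℝ) (hκ : 0 < κ) (hκ1 : κ ≤ 1) :
    ∃ K : ℝ, 0 < K ∧ ∀ Λ : ℝ, 1 ≤ Λ → ∃ T0 : ℝ, 10 ≤ T0 ∧ ∀ T : ℝ, T0 ≤ T → ∀ f : Al,
    Dom (PN ⌊T⌋₊) (vp 1 (Real.log T)) k C f.coeff → Ht f ((1 - κ) * Real.log T) →
    ∫ t in T..(2 * T), ‖sw (2 * Real.pi * Λ / Real.log T) t (fun t => ev t f) -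
      (f.coeff 0 : ℂ)‖ ^ 2 ≤ K / Real.sqrt Λ * T := by
  refine ⟨4 * (C ^ 2 * (6 * k + 1) * 15 ^ k + 1), by positivity, fun Λ hΛ => ?_⟩
  have hpi := Real.pi_gt_three
  set r := Real.sqrt Λ with hr
  have hr1 : 1 ≤ r := Real.one_le_sqrt.2 hΛ
  have hr2 : r ^ 2 = Λ := Real.sq_sqrt (by linarith)
  obtain ⟨T0, hT0, h⟩ := mv_gen C hC k κ hκ hκ1 (1 / r) (by positivity)
  obtain ⟨T2, hT2⟩ : ∃ T2 : ℝ, ∀ T : ℝ, T2 ≤ T → 8 * r ≤ Real.log T :=
    (Real.tendsto_log_atTop.eventually_ge_atTop _).exists_forall_of_atTop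
  refine ⟨max T0 T2, hT0.trans (le_max_left _ _), fun T hT f hD hh => ?_⟩
  have hTT0 : T0 ≤ T := (le_max_left _ _).trans hT
  have hLr := hT2 T ((le_max_right _ _).trans hT)
  have hT10 := hT0.trans hTT0
  have hT0' : 0 < T := by linarith
  set L := Real.log T with hL
  have hL1 : 1 ≤ L := by linarith
  have hL0 : 0 < L := by linarith
  have hv : ∀ p, 0 ≤ vp 1 L p := fun p => vp_nonneg (by norm_num) L p
  have hN1 : 1 ≤ ⌊T⌋₊ := by
    rw [Nat.one_le_floor_iff]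
    linarith
  have hNT : (⌊T⌋₊ : ℝ) ≤ T := Nat.floor_le hT0'.le
  have hNL : Real.log ⌊T⌋₊ ≤ L := Real.log_le_log (by exact_mod_cast hN1) hNT
  set w := 2 * Real.pi * Λ / L with hw
  have hw0 : 0 < w := by positivity
  set U := f.coeff.support.erase 0 with hU
  have h1 := h T hTT0 f hD hh U (fun e => mf w (fr e)) (Finset.erase_subset _ _)
    (fun e => mf_le_one hw0 _)
  -- remove the constant term
  have e1 : ∀ t, sw w t (fun t => ev t f) - (f.coeff 0 : ℂ) =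
      ∑ e ∈ U, ((f.coeff e : ℂ) * mf w (fr e)) * cexp (((t * fr e : ℝ) : ℂ) * I) := by
    intro t
    rw [sw_ev]
    by_cases h0 : (0 : G) ∈ f.coeff.support
    · rw [← Finset.add_sum_erase _ _ h0, fr_zero, mul_zero, ofReal_zero, zero_mul, Complex.exp_zero,
        mul_one]
      have : mf w 0 = 1 := by
        unfold mf
        simp only [mul_zero, ofReal_zero, zero_mul, Complex.exp_zero,
          intervalIntegral.integral_const, sub_zero]
        rw [Complex.real_smul, mul_one, ← ofReal_mul]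
        rw [one_div_mul_cancel hw0.ne', ofReal_one]
      rw [this, mul_one]
      ring
    · rw [hU, Finset.erase_eq_of_notMem h0, Finsupp.notMem_support_iff.1 h0]
      simp
  simp_rw [e1]
  refine h1.trans ?_
  have hsum : ∑ e ∈ U, f.coeff e ^ 2 * ‖mf w (fr e)‖ ^ 2 ≤
      C ^ 2 * (6 * k + 1) * 15 ^ k * (1 / r) := by
    have b1 : ∀ e ∈ U, f.coeff e ^ 2 * ‖mf w (fr e)‖ ^ 2 ≤
        (if |fr e| ≤ L / r then f.coeff e ^ 2 else 0) + f.coeff e ^ 2 * (1 / r) := by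
      intro e _
      split_ifs with h0
      · have g1 : ‖mf w (fr e)‖ ^ 2 ≤ 1 := pow_le_one₀ (norm_nonneg _) (mf_le_one hw0 _)
        have g2 : f.coeff e ^ 2 * ‖mf w (fr e)‖ ^ 2 ≤ f.coeff e ^ 2 :=
          mul_le_of_le_one_right (sq_nonneg _) g1
        have : 0 ≤ f.coeff e ^ 2 * (1 / r) := by positivity
        linarith
      · rw [zero_add]
        apply mul_le_mul_of_nonneg_left _ (sq_nonneg _)
        push Not at h0
        have hx0 : 0 < |fr e| := lt_trans (by positivity) h0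
        have hx : fr e ≠ 0 := abs_pos.1 hx0
        have g1 := mf_le hw0 hx
        have g2 : 2 / (w * |fr e|) ≤ 1 / r := by
          rw [div_le_div_iff₀ (by positivity) (by positivity), one_mul]
          have g3 : w * (L / r) ≤ w * |fr e| := mul_le_mul_of_nonneg_left h0.le hw0.le
          have g4 : w * (L / r) = 2 * Real.pi * r := by
            rw [hw, ← hr2]; field_simp
          rw [g4] at g3
          nlinarith
        calc ‖mf w (fr e)‖ ^ 2 ≤ (1 / r) ^ 2 := pow_le_pow_left₀ (norm_nonneg _) (g1.trans g2) 2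
          _ ≤ 1 / r := by
            rw [sq]
            apply mul_le_of_le_one_right (by positivity)
            rw [div_le_one (by linarith)]; exact hr1
    refine (Finset.sum_le_sum b1).trans ?_
    rw [Finset.sum_add_distrib, ← Finset.sum_filter, ← Finset.sum_mul]
    have htot := Dom.total hv hD (vp_total hL1 _ hN1 hNL) U
    have hμ : ∀ x : ℝ, ∑ p ∈ (PN ⌊T⌋₊).filter (fun p : ℕ => |Real.log p - x| ≤ L / r),
        vp 1 L p ^ 2 ≤ 3 / r := by
      intro x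
      refine (vp_near hL1 _ (by positivity) x).trans ?_
      rw [one_pow, div_mul_eq_mul_div, one_mul, div_le_div_iff₀ hL0 (by positivity)]
      have : (2 * (L / r) + 8) * r = 2 * L + 8 * r := by field_simp
      rw [this]
      linarith
    have hnear := Dom.near hv hD (vp_total hL1 _ hN1 hNL) hμ U
    have e3 : U.filter (fun e => |fr e| ≤ L / r) = U.filter (fun e => e ≠ 0 ∧ |fr e| ≤ L / r) := by
      apply Finset.filter_congr
      intro e he
      rw [hU, Finset.mem_erase] at he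
      simp [he.1]
    rw [e3]
    have e15 : (1 : ℝ) + 2 * (7 * 1 ^ 2) = 15 := by norm_num
    rw [e15] at htot hnear
    calc _ ≤ C ^ 2 * (2 * k * (3 / r) * 15 ^ k) + C ^ 2 * 15 ^ k * (1 / r) := by gcongr
      _ = _ := by ring
  calc 4 * T * (∑ e ∈ U, f.coeff e ^ 2 * ‖mf w (fr e)‖ ^ 2 + 1 / r) ≤
      4 * T * (C ^ 2 * (6 * k + 1) * 15 ^ k * (1 / r) + 1 / r) := by gcongr
    _ = _ := by ring

end Pool.Agent.R321.FA
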