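import Pool.Agent.R321.FC4
import Pool.Agent.R321.FA8
import Pool.Agent.H345R2.A2.Four
import Pool.Agent.TH800.LD.Win

/-! Linear statistics of the zeros and prime polynomials. -/

open Finset Complex MeasureTheory Filter Topology

namespace Pool.Agent.R321.FA

open SP (zs ps bt ZZ mu Mk RHs)
open H370.A2 (RR evp evp_cont evp_zero evp_even evp_int int_sym)
open Pool.Agent.TH800.LD (ZZf re_zs)

/-- the weight on the frequency side -/
noncomputable def wv (ψ : ℝ → ℝ) (L u : ℝ) : ℝ := evp ψ (u / L) / L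

/-- linear statistics of the zeros -/
noncomputable def XX (ψ : ℝ → ℝ) (μ T t : ℝ) : ℝ :=
  ∑ᶠ s ∈ ZZ T, (mu s : ℝ) * Real.exp (-(s.im - t) ^ 2 / 2) *
    RR ψ μ ((s.im - t) * Real.log T / (2 * Real.pi))

lemma XX_eq {T : ℝ} (hT : 1 ≤ T) (ψ : ℝ → ℝ) (μ t : ℝ) : XX ψ μ T t =
    ∑ s ∈ (ZZf hT).toFinset, (mu s : ℝ) * Real.exp (-(s.im - t) ^ 2 / 2) *
      RR ψ μ ((s.im - t) * Real.log T / (2 * Real.pi)) :=
  finsum_mem_eq_finite_toFinset_sum _ (ZZf hT)

lemma wv_cont {ψ : ℝ → ℝ} (hψ : Continuous ψ) (L : ℝ) : Continuous (wv ψ L) := by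
  unfold wv
  exact ((evp_cont hψ).comp (continuous_id.div_const L)).div_const L

lemma wv_zero {ψ : ℝ → ℝ} {μ L u : ℝ} (hz : ∀ x, μ ≤ |x| → ψ x = 0) (hL : 0 < L)
    (hu : μ * L ≤ u) : wv ψ L u = 0 := by
  unfold wv
  rw [evp_zero hz, zero_div]
  rw [abs_div, abs_of_pos hL, le_div_iff₀ hL]
  exact hu.trans (le_abs_self u)

lemma wv_le {ψ : ℝ → ℝ} {B L : ℝ} (hB : ∀ x, |evp ψ x| ≤ B) (hL : 0 < L) (u : ℝ) :
    |wv ψ L u| ≤ B / L := by
  unfold wv
  rw [abs_div, abs_of_pos hL]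
  have := hB (u / L)
  gcongr

lemma RR_W {ψ : ℝ → ℝ} {μ : ℝ} (hψ : Continuous ψ) (hz : ∀ x, μ ≤ |x| → ψ x = 0) (hμ1 : μ ≤ 1)
    {L : ℝ} (hL : 0 < L) (x : ℝ) : RR ψ μ (x * L / (2 * Real.pi)) =
    2 * ∫ u in (0 : ℝ)..L, wv ψ L u * Real.cos (u * x) := by
  have hpi := Real.pi_pos
  have h1 : RR ψ μ (x * L / (2 * Real.pi)) = ∫ α, evp ψ α * Real.cos (α * (L * x)) := by
    rw [H370.A2.RR_eq hψ hz]
    refine integral_congr_ae (Eventually.of_forall fun α => ?_)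
    show evp ψ α * Real.cos (2 * Real.pi * α * (x * L / (2 * Real.pi))) = _
    congr 2
    field_simp
  rw [h1, ← H370.A2.evp_int_R hz hμ1, int_sym (fun α => evp ψ α * Real.cos (α * (L * x)))
    ((evp_cont hψ).mul (by fun_prop)) 1]
  have h2 : ∀ α : ℝ, evp ψ α * Real.cos (α * (L * x)) + evp ψ (-α) * Real.cos (-α * (L * x)) =
      2 * (evp ψ α * Real.cos (α * (L * x))) := by
    intro α
    rw [evp_even, neg_mul, Real.cos_neg]
    ring
  simp_rw [h2]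
  rw [intervalIntegral.integral_const_mul]
  congr 1
  have h3 : ∀ u : ℝ, wv ψ L u * Real.cos (u * x) =
      L⁻¹ * (fun α => evp ψ α * Real.cos (α * (L * x))) (u / L) := by
    intro u
    unfold wv
    have : u / L * (L * x) = u * x := by field_simp
    simp only [this]
    ring
  have h4 := intervalIntegral.integral_comp_div (a := (0 : ℝ)) (b := L)
    (fun α => evp ψ α * Real.cos (α * (L * x))) hL.ne'
  rw [intervalIntegral.integral_congr (fun u _ => h3 u), intervalIntegral.integral_const_mul, h4,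
    zero_div, div_self hL.ne', smul_eq_mul, inv_mul_cancel_left₀ hL.ne']

lemma XX_zs {ψ : ℝ → ℝ} {μ : ℝ} (hψ : Continuous ψ) (hz : ∀ x, μ ≤ |x| → ψ x = 0) (hμ1 : μ ≤ 1)
    {T : ℝ} (hT : 10 ≤ T) (t : ℝ) : XX ψ μ T t =
    2 * (zs T t (fun u => ((wv ψ (Real.log T) u : ℝ) : ℂ))).re := by
  have hT1 : 1 ≤ T := by linarith
  have hL : 0 < Real.log T := Real.log_pos (by linarith)
  rw [XX_eq hT1, re_zs hT1 t _ (wv_cont hψ _), Finset.mul_sum]
  refine Finset.sum_congr rfl fun s _ => ?_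
  rw [RR_W hψ hz hμ1 hL]
  ring

/-- the real smoothed weight -/
noncomputable def btr (ψ : ℝ → ℝ) (L x : ℝ) : ℝ :=
  1 / Real.sqrt (2 * Real.pi) *
    ∫ u in (0 : ℝ)..L, wv ψ L u * Real.exp (-(u - Real.log x) ^ 2 / 2)

lemma bt_btr (ψ : ℝ → ℝ) (T x : ℝ) : bt T (fun u => ((wv ψ (Real.log T) u : ℝ) : ℂ)) x =
    ((btr ψ (Real.log T) x : ℝ) : ℂ) := by
  unfold SP.bt btr
  rw [Complex.ofReal_mul, ← intervalIntegral.integral_ofReal]
  congr 1
  refine intervalIntegral.integral_congr fun u _ => ?_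
  push_cast
  rfl

lemma btr_le {ψ : ℝ → ℝ} {B : ℝ} (hB : ∀ x, |evp ψ x| ≤ B) {T : ℝ} (hT : 10 ≤ T) (x : ℝ) :
    |btr ψ (Real.log T) x| ≤ B / Real.log T := by
  have hL : 0 < Real.log T := Real.log_pos (by linarith)
  have h := SP.bt_le T (by linarith) (fun u => ((wv ψ (Real.log T) u : ℝ) : ℂ)) (B / Real.log T)
    (fun u _ => by
      rw [Complex.norm_real, Real.norm_eq_abs]; exact wv_le hB hL u) x
  rwa [bt_btr, Complex.norm_real, Real.norm_eq_abs] at h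

lemma btr_far {ψ : ℝ → ℝ} {μ B : ℝ} (hz : ∀ x, μ ≤ |x| → ψ x = 0) (hB : ∀ x, |evp ψ x| ≤ B)
    {T : ℝ} (hT : 10 ≤ T) (x : ℝ) (hx : μ * Real.log T ≤ Real.log x) :
    |btr ψ (Real.log T) x| ≤ B * Real.exp (-(Real.log x - μ * Real.log T) ^ 2 / 2) := by
  have hL : 0 < Real.log T := Real.log_pos (by linarith)
  have h := SP.bt_far T (by linarith) (fun u => ((wv ψ (Real.log T) u : ℝ) : ℂ)) (B / Real.log T)
    (μ * Real.log T) (fun u _ => by
      rw [Complex.norm_real, Real.norm_eq_abs]; exact wv_le hB hL u)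
    (fun u hu => by rw [wv_zero hz hL hu]; simp) x hx
  rw [bt_btr, Complex.norm_real, Real.norm_eq_abs] at h
  refine h.trans (le_of_eq ?_)
  field_simp

/-- the coefficient at the primes -/
noncomputable def yy (ψ : ℝ → ℝ) (ν L : ℝ) (p : ℕ) : ℝ :=
  if Real.log p ≤ ν * L then Real.log p * (p : ℝ) ^ (-(1 / 2) : ℝ) * btr ψ L p else 0

/-- the coefficient at the squares of primes -/
noncomputable def zz (ψ : ℝ → ℝ) (ν L : ℝ) (p : ℕ) : ℝ :=
  if 2 * Real.log p ≤ ν * L then Real.log p * (p : ℝ)⁻¹ * btr ψ L ((p ^ 2 : ℕ) : ℝ) else 0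

/-- the constant term -/
noncomputable def cc (ψ : ℝ → ℝ) (L : ℝ) : ℝ :=
  2 * (L / Real.sqrt (2 * Real.pi) * ∫ u in (0 : ℝ)..L, wv ψ L u * Real.exp (-u ^ 2 / 2))

lemma ncpow {n : ℕ} (hn : 1 ≤ n) (t : ℝ) : (n : ℂ) ^ (-(1 / 2 : ℂ) - I * t) =
    (((n : ℝ) ^ (-(1 / 2) : ℝ) : ℝ) : ℂ) * cexp (((-(t * Real.log n) : ℝ) : ℂ) * I) := by
  have hn0 : (n : ℂ) ≠ 0 := by
    rw [Nat.cast_ne_zero]; omega
  have hn0' : (0 : ℝ) < n := by exact_mod_cast hn
  rw [Complex.cpow_def_of_ne_zero hn0, Real.rpow_def_of_pos hn0', Complex.ofReal_exp,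
    ← Complex.exp_add]
  congr 1
  rw [← Complex.natCast_log]
  push_cast
  ring

/-- the terms of the prime side -/
noncomputable def at' (ψ : ℝ → ℝ) (L t : ℝ) (n : ℕ) : ℝ :=
  ArithmeticFunction.vonMangoldt n * (n : ℝ) ^ (-(1 / 2) : ℝ) * btr ψ L n * Real.cos (t * Real.log n)

lemma term_re (ψ : ℝ → ℝ) (T t : ℝ) (n : ℕ) :
    ((ArithmeticFunction.vonMangoldt n : ℂ) * (n : ℂ) ^ (-(1 / 2 : ℂ) - I * t) *
      bt T (fun u => ((wv ψ (Real.log T) u : ℝ) : ℂ)) n).re = at' ψ (Real.log T) t n := by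
  unfold at'
  rcases Nat.eq_zero_or_pos n with h | h
  · subst h; simp
  · rw [ncpow h, bt_btr]
    have : (ArithmeticFunction.vonMangoldt n : ℂ) * ((((n : ℝ) ^ (-(1 / 2) : ℝ) : ℝ) : ℂ) *
        cexp (((-(t * Real.log n) : ℝ) : ℂ) * I)) * ((btr ψ (Real.log T) n : ℝ) : ℂ) =
        ((ArithmeticFunction.vonMangoldt n * (n : ℝ) ^ (-(1 / 2) : ℝ) *
          btr ψ (Real.log T) n : ℝ) : ℂ) * cexp (((-(t * Real.log n) : ℝ) : ℂ) * I) := by
      push_cast; ring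
    rw [this, Complex.re_ofReal_mul, Complex.exp_ofReal_mul_I_re, Real.cos_neg]

lemma term_norm (ψ : ℝ → ℝ) (T t : ℝ) (n : ℕ) :
    ‖(ArithmeticFunction.vonMangoldt n : ℂ) * (n : ℂ) ^ (-(1 / 2 : ℂ) - I * t) *
      bt T (fun u => ((wv ψ (Real.log T) u : ℝ) : ℂ)) n‖ =
    ArithmeticFunction.vonMangoldt n * (n : ℝ) ^ (-(1 / 2) : ℝ) * |btr ψ (Real.log T) n| := by
  have h0 : 0 ≤ ArithmeticFunction.vonMangoldt n := ArithmeticFunction.vonMangoldt_nonneg
  rcases Nat.eq_zero_or_pos n with h | h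
  · subst h; simp
  · rw [ncpow h, bt_btr, norm_mul, norm_mul, norm_mul, Complex.norm_exp_ofReal_mul_I, mul_one,
      Complex.norm_real, Complex.norm_real, Complex.norm_real, Real.norm_eq_abs, Real.norm_eq_abs,
      Real.norm_eq_abs, abs_of_nonneg h0, abs_of_nonneg (by positivity :
        (0 : ℝ) ≤ (n : ℝ) ^ (-(1 / 2) : ℝ))]

/-- the tail majorant -/
lemma tail_aux {c : ℝ} (hc : 0 < c) {ν : ℝ} (hν : 0 < ν) {L x : ℝ} (hL : 1 ≤ L)
    (hx : ν * L ≤ x) : Real.exp (-(c * x) ^ 2 / 2) ≤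
      (Real.exp (4 / c ^ 2) * (4 / (c ^ 2 * ν ^ 2)) / L) * Real.exp (-(2 * x)) := by
  have hx0 : 0 < x := lt_of_lt_of_le (by positivity) hx
  have e0 : Real.exp (-(c * x) ^ 2 / 2) =
      Real.exp (-(c * x) ^ 2 / 4) * Real.exp (-(c * x) ^ 2 / 4) := by
    rw [← Real.exp_add]; congr 1; ring
  have e1 : Real.exp (-(c * x) ^ 2 / 4) ≤ Real.exp (4 / c ^ 2) * Real.exp (-(2 * x)) := by
    rw [← Real.exp_add]
    apply Real.exp_le_exp.2
    have h1 : 0 ≤ (c * x / 2 - 2 / c) ^ 2 := sq_nonneg _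
    have h2 : (c * x / 2 - 2 / c) ^ 2 = (c * x) ^ 2 / 4 - 2 * x + 4 / c ^ 2 := by
      field_simp
      ring
    linarith
  have e2 : Real.exp (-(c * x) ^ 2 / 4) ≤ 4 / (c ^ 2 * ν ^ 2) / L := by
    have h1 := Real.add_one_le_exp ((c * x) ^ 2 / 4)
    have h2 : (c * (ν * L)) ^ 2 ≤ (c * x) ^ 2 := by
      apply pow_le_pow_left₀ (by positivity)
      exact mul_le_mul_of_nonneg_left hx hc.le
    have h3 : c ^ 2 * ν ^ 2 * L ≤ (c * (ν * L)) ^ 2 := by
      have : (c * (ν * L)) ^ 2 = c ^ 2 * ν ^ 2 * (L * L) := by ring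
      rw [this]
      apply mul_le_mul_of_nonneg_left _ (by positivity)
      nlinarith
    have h4 : Real.exp (-(c * x) ^ 2 / 4) = (Real.exp ((c * x) ^ 2 / 4))⁻¹ := by
      rw [← Real.exp_neg]; congr 1; ring
    rw [h4, div_div]
    rw [inv_le_comm₀ (Real.exp_pos _) (by positivity), inv_div]
    linarith
  rw [e0]
  calc _ ≤ (Real.exp (4 / c ^ 2) * Real.exp (-(2 * x))) * (4 / (c ^ 2 * ν ^ 2) / L) :=
        mul_le_mul e1 e2 (Real.exp_pos _).le (by positivity)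
    _ = _ := by ring

/-- the kept integers -/
noncomputable def KS1 (ν L : ℝ) (N : ℕ) : Finset ℕ := (PN N).filter (fun p : ℕ => Real.log p ≤ ν * L)

noncomputable def KS2 (ν L : ℝ) (N : ℕ) : Finset ℕ :=
  ((PN N).filter (fun p : ℕ => 2 * Real.log p ≤ ν * L))

noncomputable def KS (ν L : ℝ) (N : ℕ) : Finset ℕ := KS1 ν L N ∪ (KS2 ν L N).image (fun p => p ^ 2)

lemma KS_sum (ν L : ℝ) (N : ℕ) (f : ℕ → ℝ) : ∑ n ∈ KS ν L N, f n =
    ∑ p ∈ KS1 ν L N, f p + ∑ p ∈ KS2 ν L N, f (p ^ 2) := by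
  unfold KS
  rw [Finset.sum_union, Finset.sum_image]
  · intro a _ b _ h
    exact Nat.pow_left_injective (by norm_num : 2 ≠ 0) h
  · rw [Finset.disjoint_left]
    intro x hx hx'
    rw [Finset.mem_image] at hx'
    obtain ⟨b, hb, rfl⟩ := hx'
    exact Nat.Prime.not_prime_pow (by norm_num : 2 ≤ 2) (mem_PN.1 (Finset.mem_filter.1 hx).1).1

/-- outside the kept set the terms are small -/
lemma out_bound {ψ : ℝ → ℝ} {μ ν B : ℝ} (hμ : 0 < μ) (hμν : μ < ν) (hν1 : ν ≤ 1)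
    (hz : ∀ x, μ ≤ |x| → ψ x = 0)
    (hB : ∀ x, |evp ψ x| ≤ B) : ∃ C1 : ℝ, 0 ≤ C1 ∧ ∀ T : ℝ, 10 ≤ T → ∀ n : ℕ,
    n ∉ KS ν (Real.log T) ⌊T⌋₊ →
    ArithmeticFunction.vonMangoldt n * (n : ℝ) ^ (-(1 / 2) : ℝ) * |btr ψ (Real.log T) n| ≤
      B / Real.log T * g3 n + C1 / Real.log T * (n : ℝ) ^ (-(3 / 2) : ℝ) := by
  classical
  have hB0 : 0 ≤ B := (abs_nonneg _).trans (hB 0)
  set c := 1 - μ / ν with hc
  have hν : 0 < ν := hμ.trans hμν
  have hc0 : 0 < c := by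
    rw [hc, sub_pos, div_lt_one hν]; exact hμν
  refine ⟨B * (Real.exp (4 / c ^ 2) * (4 / (c ^ 2 * ν ^ 2))), by positivity, fun T hT n hn => ?_⟩
  have hT0 : 0 < T := by linarith
  set L := Real.log T with hL
  have hL1 : 1 ≤ L := by
    rw [hL, Real.le_log_iff_exp_le hT0]
    have := Real.exp_one_lt_d9
    linarith
  have hL0 : 0 < L := by linarith
  have hvM : 0 ≤ ArithmeticFunction.vonMangoldt n := ArithmeticFunction.vonMangoldt_nonneg
  have hg := g3_nonneg n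
  have hr1 : 0 ≤ B / L * g3 n := by positivity
  have hr2 : 0 ≤ B * (Real.exp (4 / c ^ 2) * (4 / (c ^ 2 * ν ^ 2))) / L * (n : ℝ) ^ (-(3 / 2) : ℝ) := by
    positivity
  by_cases h0 : ArithmeticFunction.vonMangoldt n = 0
  · rw [h0, zero_mul, zero_mul]; linarith
  have hpp : IsPrimePow n := by
    by_contra h
    exact h0 (ArithmeticFunction.vonMangoldt_eq_zero_iff.2 h)
  have hn1 : 1 ≤ n := hpp.one_lt.le
  have hnpos : (0 : ℝ) < n := by exact_mod_cast hn1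
  by_cases hbig : ν * L < Real.log n
  · -- the far range
    have h1 := btr_far hz hB hT n (by
      have : μ * L ≤ ν * L := mul_le_mul_of_nonneg_right hμν.le hL0.le
      linarith)
    have h2 : c * Real.log n ≤ Real.log n - μ * L := by
      have : μ * L ≤ μ / ν * Real.log n := by
        rw [div_mul_eq_mul_div, le_div_iff₀ hν]
        nlinarith
      rw [hc]; linarith
    have hlog0 : 0 ≤ Real.log n := Real.log_natCast_nonneg n
    have h3 : Real.exp (-(Real.log n - μ * L) ^ 2 / 2) ≤ Real.exp (-(c * Real.log n) ^ 2 / 2) := by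
      apply Real.exp_le_exp.2
      have : (c * Real.log n) ^ 2 ≤ (Real.log n - μ * L) ^ 2 :=
        pow_le_pow_left₀ (mul_nonneg hc0.le hlog0) h2 2
      linarith
    have h4 := tail_aux hc0 hν hL1 hbig.le
    have h5 : Real.exp (-(2 * Real.log n)) = (n : ℝ) ^ (-2 : ℝ) := by
      rw [Real.rpow_def_of_pos hnpos]; congr 1; ring
    rw [h5] at h4
    have h6 : ArithmeticFunction.vonMangoldt n ≤ (n : ℝ) := by
      refine ArithmeticFunction.vonMangoldt_le_log.trans ?_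
      exact (Real.log_le_sub_one_of_pos hnpos).trans (by linarith)
    have h7 : (n : ℝ) * (n : ℝ) ^ (-(1 / 2) : ℝ) * (n : ℝ) ^ (-2 : ℝ) = (n : ℝ) ^ (-(3 / 2) : ℝ) := by
      nth_rw 1 [← Real.rpow_one (n : ℝ)]
      rw [← Real.rpow_add hnpos, ← Real.rpow_add hnpos]
      norm_num
    refine le_trans ?_ (le_add_of_nonneg_left hr1)
    calc ArithmeticFunction.vonMangoldt n * (n : ℝ) ^ (-(1 / 2) : ℝ) * |btr ψ L n| ≤
        (n : ℝ) * (n : ℝ) ^ (-(1 / 2) : ℝ) *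
          (B * ((Real.exp (4 / c ^ 2) * (4 / (c ^ 2 * ν ^ 2)) / L) * (n : ℝ) ^ (-2 : ℝ))) := by
          apply mul_le_mul
          · exact mul_le_mul_of_nonneg_right h6 (by positivity)
          · exact h1.trans (mul_le_mul_of_nonneg_left (h3.trans h4) hB0)
          · exact abs_nonneg _
          · positivity
      _ = B * (Real.exp (4 / c ^ 2) * (4 / (c ^ 2 * ν ^ 2))) / L *
          ((n : ℝ) * (n : ℝ) ^ (-(1 / 2) : ℝ) * (n : ℝ) ^ (-2 : ℝ)) := by ring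
      _ = _ := by rw [h7]
  · push Not at hbig
    obtain ⟨p, k, hp, hk, hpk⟩ := (isPrimePow_nat_iff n).mp hpp
    have hlogp : Real.log n = k * Real.log p := by
      rw [← hpk, Nat.cast_pow, Real.log_pow]
    have hlp0 : 0 ≤ Real.log p := Real.log_natCast_nonneg p
    have hpp0 : (0 : ℝ) < p := by exact_mod_cast hp.pos
    have hpN : p ≤ ⌊T⌋₊ := by
      apply Nat.le_floor
      rw [← Real.log_le_log_iff hpp0 hT0]
      have hk1 : (1 : ℝ) ≤ k := by exact_mod_cast hk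
      have : ν * L ≤ L := by nlinarith
      nlinarith
    have h3 : is3 n := by
      refine ⟨p, k, hp, ?_, hpk.symm⟩
      by_contra hcon
      have hk2 : k = 1 ∨ k = 2 := by omega
      apply hn
      unfold KS
      rw [Finset.mem_union, Finset.mem_image]
      rcases hk2 with h | h
      · left
        subst h
        rw [pow_one] at hpk
        subst hpk
        exact Finset.mem_filter.2 ⟨mem_PN.2 ⟨hp, hpN⟩, hbig⟩
      · right
        subst h
        refine ⟨p, ?_, hpk⟩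
        refine Finset.mem_filter.2 ⟨mem_PN.2 ⟨hp, hpN⟩, ?_⟩
        rw [hlogp] at hbig
        exact_mod_cast hbig
    refine le_trans ?_ (le_add_of_nonneg_right hr2)
    unfold g3
    rw [if_pos h3, mul_comm (B / L)]
    exact mul_le_mul_of_nonneg_left (btr_le hB hT _) (by positivity)

end Pool.Agent.R321.FA
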