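import Pool.Agent.R321.FC5

/-! Linear statistics of the zeros and prime polynomials, continued. -/

open Finset Complex MeasureTheory Filter Topology

namespace Pool.Agent.R321.FA

open SP (zs ps bt ZZ mu Mk RHs)
open H370.A2 (RR evp evp_cont evp_zero evp_even evp_int int_sym)

lemma hsum32 : Summable (fun n : ℕ => (n : ℝ) ^ (-(3 / 2) : ℝ)) :=
  Real.summable_nat_rpow.2 (by norm_num)

/-- the prime side -/
lemma ps_lin {ψ : ℝ → ℝ} {μ ν B : ℝ} (hμ : 0 < μ) (hμν : μ < ν) (hν1 : ν ≤ 1)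
    (hz : ∀ x, μ ≤ |x| → ψ x = 0) (hB : ∀ x, |evp ψ x| ≤ B) :
    ∃ C : ℝ, 0 ≤ C ∧ ∀ T : ℝ, 10 ≤ T → ∀ t : ℝ,
    |(ps T t (fun u => ((wv ψ (Real.log T) u : ℝ) : ℂ))).re -
      (∑ p ∈ PN ⌊T⌋₊, yy ψ ν (Real.log T) p * Real.cos (t * Real.log p) +
        ∑ p ∈ PN ⌊T⌋₊, zz ψ ν (Real.log T) p * Real.cos (t * (2 * Real.log p)))| ≤
      C / Real.log T := by
  classical
  have hB0 : 0 ≤ B := (abs_nonneg _).trans (hB 0)
  obtain ⟨C1, hC1, hout⟩ := out_bound hμ hμν hν1 hz hB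
  have hg0 : 0 ≤ ∑' n, g3 n := tsum_nonneg g3_nonneg
  have hh0 : 0 ≤ ∑' n : ℕ, (n : ℝ) ^ (-(3 / 2) : ℝ) := tsum_nonneg fun n => by positivity
  refine ⟨B * (∑' n, g3 n) + C1 * ∑' n : ℕ, (n : ℝ) ^ (-(3 / 2) : ℝ), by positivity, ?_⟩
  intro T hT t
  set L := Real.log T with hL
  have hT0 : 0 < T := by linarith
  have hL0 : 0 < L := Real.log_pos (by linarith)
  set D : ℕ → ℝ := fun n => B / L * g3 n + C1 / L * (n : ℝ) ^ (-(3 / 2) : ℝ) with hD
  have hDs : Summable D := (g3_summable.1.mul_left _).add (hsum32.mul_left _)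
  have hD0 : ∀ n, 0 ≤ D n := fun n => by
    have := g3_nonneg n
    simp only [hD]; positivity
  have hDt : ∑' n, D n = (B * (∑' n, g3 n) + C1 * ∑' n : ℕ, (n : ℝ) ^ (-(3 / 2) : ℝ)) / L := by
    simp only [hD]
    rw [Summable.tsum_add (g3_summable.1.mul_left _) (hsum32.mul_left _), tsum_mul_left,
      tsum_mul_left]
    ring
  set F : ℕ → ℂ := fun n => (ArithmeticFunction.vonMangoldt n : ℂ) *
    (n : ℂ) ^ (-(1 / 2 : ℂ) - I * t) * bt T (fun u => ((wv ψ L u : ℝ) : ℂ)) n with hF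
  have hFn : ∀ n, n ∉ KS ν L ⌊T⌋₊ → ‖F n‖ ≤ D n := by
    intro n hn
    simp only [hF]
    rw [hL, term_norm, ← hL]
    exact hout T hT n hn
  have hFs : Summable F := by
    apply Summable.of_norm_bounded_eventually hDs
    rw [Filter.eventually_cofinite]
    apply (KS ν L ⌊T⌋₊).finite_toSet.subset
    intro n hn
    by_contra h
    exact hn (hFn n h)
  have hre : (∑' n, F n).re = ∑' n, at' ψ L t n := by
    have h1 := Complex.reCLM.map_tsum hFs
    rw [Complex.reCLM_apply] at h1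
    rw [h1]
    refine tsum_congr fun n => ?_
    rw [Complex.reCLM_apply]
    exact term_re ψ T t n
  have has : Summable (at' ψ L t) := by
    have h1 := Complex.reCLM.summable hFs
    refine h1.congr fun n => ?_
    rw [Complex.reCLM_apply]
    exact (term_re ψ T t n)
  have hab : ∀ n, n ∉ KS ν L ⌊T⌋₊ → |at' ψ L t n| ≤ D n := by
    intro n hn
    refine le_trans ?_ (hFn n hn)
    have := term_re ψ T t n
    rw [← hL] at this
    rw [← this]
    exact Complex.abs_re_le_norm _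
  have hps : (ps T t (fun u => ((wv ψ L u : ℝ) : ℂ))).re = ∑' n, at' ψ L t n := by
    rw [← hre]; rfl
  rw [hps]
  have e1 : ∑ n ∈ KS ν L ⌊T⌋₊, at' ψ L t n =
      ∑ p ∈ PN ⌊T⌋₊, yy ψ ν L p * Real.cos (t * Real.log p) +
        ∑ p ∈ PN ⌊T⌋₊, zz ψ ν L p * Real.cos (t * (2 * Real.log p)) := by
    rw [KS_sum]
    unfold KS1 KS2
    rw [Finset.sum_filter, Finset.sum_filter]
    congr 1
    · refine Finset.sum_congr rfl fun p hp => ?_
      unfold at' yy
      rw [ArithmeticFunction.vonMangoldt_apply_prime (mem_PN.1 hp).1]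
      split_ifs <;> simp
    · refine Finset.sum_congr rfl fun p hp => ?_
      have hpr := (mem_PN.1 hp).1
      have hp0 : (0 : ℝ) < p := by exact_mod_cast hpr.pos
      unfold at' zz
      rw [ArithmeticFunction.vonMangoldt_apply_pow (by norm_num : 2 ≠ 0),
        ArithmeticFunction.vonMangoldt_apply_prime hpr]
      have h2 : (((p ^ 2 : ℕ) : ℕ) : ℝ) ^ (-(1 / 2) : ℝ) = (p : ℝ)⁻¹ := by
        rw [Nat.cast_pow, ← Real.rpow_natCast, ← Real.rpow_mul hp0.le]
        norm_num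
        exact Real.rpow_neg_one _
      have h3 : Real.log (((p ^ 2 : ℕ) : ℕ) : ℝ) = 2 * Real.log p := by
        rw [Nat.cast_pow, Real.log_pow]; norm_num
      rw [h2, h3]
      split_ifs <;> simp
  rw [← e1, ← has.sum_add_tsum_subtype_compl (KS ν L ⌊T⌋₊), add_sub_cancel_left, ← Real.norm_eq_abs,
    ← hDt]
  have hsub : Summable (fun x : {x // x ∉ KS ν L ⌊T⌋₊} => D x) := hDs.subtype _
  calc ‖∑' x : {x // x ∉ KS ν L ⌊T⌋₊}, at' ψ L t x‖ ≤ ∑' x : {x // x ∉ KS ν L ⌊T⌋₊}, D x := by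
        apply tsum_of_norm_bounded hsub.hasSum
        intro x
        exact hab x x.2
    _ ≤ ∑' n, D n := by
        apply hDs.tsum_subtype_le _ _ hD0

/-- **the linear statistics are prime polynomials** -/
theorem lin_rp (hRH : RHs) {ψ : ℝ → ℝ} {μ ν B : ℝ} (hψ : Continuous ψ) (hμ : 0 < μ) (hμν : μ < ν)
    (hν1 : ν ≤ 1) (hz : ∀ x, μ ≤ |x| → ψ x = 0) (hB : ∀ x, |evp ψ x| ≤ B) :
    ∃ C T0 : ℝ, 0 ≤ C ∧ 10 ≤ T0 ∧ ∀ T : ℝ, T0 ≤ T → ∀ t : ℝ,
    T + Real.log T ≤ t → t ≤ 2 * T - Real.log T →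
    ‖((XX ψ μ T t : ℝ) : ℂ) - ev t (rp (cc ψ (Real.log T)) (PN ⌊T⌋₊) (yy ψ ν (Real.log T))
      (zz ψ ν (Real.log T)))‖ ≤ C / Real.log T := by
  obtain ⟨C1, T1, hC1, hT1, h1⟩ := LG.EFWm hRH
  obtain ⟨C2, hC2, h2⟩ := ps_lin hμ hμν hν1 hz hB
  have hB0 : 0 ≤ B := (abs_nonneg _).trans (hB 0)
  refine ⟨2 * (C1 * B) + 2 * C2, T1, by positivity, hT1, fun T hT t ht1 ht2 => ?_⟩
  have hT10 := hT1.trans hT
  have hL0 : 0 < Real.log T := Real.log_pos (by linarith)
  have e1 := h1 T hT t ht1 ht2 (fun u => ((wv ψ (Real.log T) u : ℝ) : ℂ)) (B / Real.log T)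
    (Complex.continuous_ofReal.comp (wv_cont hψ _)) (fun u _ => by
      rw [Complex.norm_real, Real.norm_eq_abs]; exact wv_le hB hL0 u)
  have e2 := h2 T hT10 t
  rw [ev_rp, ← Complex.ofReal_sub, Complex.norm_real, Real.norm_eq_abs,
    XX_zs hψ hz (by linarith) hT10]
  set A := zs T t (fun u => ((wv ψ (Real.log T) u : ℝ) : ℂ)) with hA
  set P := ps T t (fun u => ((wv ψ (Real.log T) u : ℝ) : ℂ)) with hP
  set L := Real.log T with hL
  have e3 : ∫ u in (0 : ℝ)..L, ((wv ψ L u : ℝ) : ℂ) * (Real.exp (-u ^ 2 / 2) : ℂ) =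
      ((∫ u in (0 : ℝ)..L, wv ψ L u * Real.exp (-u ^ 2 / 2) : ℝ) : ℂ) := by
    rw [← intervalIntegral.integral_ofReal]
    refine intervalIntegral.integral_congr fun u _ => ?_
    push_cast
    rfl
  rw [e3, ← Complex.ofReal_mul] at e1
  have f1 := (Complex.abs_re_le_norm _).trans e1
  rw [Complex.sub_re, Complex.add_re, Complex.ofReal_re] at f1
  have e4 : cc ψ L = 2 * (L / Real.sqrt (2 * Real.pi) *
      ∫ u in (0 : ℝ)..L, wv ψ L u * Real.exp (-u ^ 2 / 2)) := rfl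
  rw [e4]
  set J := L / Real.sqrt (2 * Real.pi) * ∫ u in (0 : ℝ)..L, wv ψ L u * Real.exp (-u ^ 2 / 2) with hJ
  set S1 := ∑ p ∈ PN ⌊T⌋₊, yy ψ ν L p * Real.cos (t * Real.log p) with hS1
  set S2 := ∑ p ∈ PN ⌊T⌋₊, zz ψ ν L p * Real.cos (t * (2 * Real.log p)) with hS2
  have e5 : (2 * (C1 * B) + 2 * C2) / L = 2 * (C1 * (B / L)) + 2 * (C2 / L) := by ring
  rw [e5]
  have e6 : 2 * A.re - (2 * J - 2 * S1 - 2 * S2) = 2 * (A.re + P.re - J) - 2 * (P.re - (S1 + S2)) := by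
    ring
  rw [e6]
  refine (abs_sub _ _).trans ?_
  rw [abs_mul, abs_mul, abs_two]
  linarith

/-- domination of the coefficients -/
lemma lin_YB {ψ : ℝ → ℝ} {B : ℝ} (hB : ∀ x, |evp ψ x| ≤ B) (ν : ℝ) {T : ℝ}
    (hT : 10 ≤ T) : YB (PN ⌊T⌋₊) (vp 1 (Real.log T)) (2 * B) (cc ψ (Real.log T))
      (yy ψ ν (Real.log T)) (zz ψ ν (Real.log T)) := by
  have hB0 : 0 ≤ B := (abs_nonneg _).trans (hB 0)
  have hT0 : 0 < T := by linarith
  set L := Real.log T with hL
  have hL1 : 1 ≤ L := by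
    rw [hL, Real.le_log_iff_exp_le hT0]
    have := Real.exp_one_lt_d9
    linarith
  have hL0 : 0 < L := by linarith
  have hNT : (⌊T⌋₊ : ℝ) ≤ T := Nat.floor_le hT0.le
  refine ⟨?_, ?_, ?_⟩
  · unfold cc
    have h1 := SP.bt_le T (by linarith) (fun u => ((wv ψ L u : ℝ) : ℂ)) (B / L)
      (fun u _ => by rw [Complex.norm_real, Real.norm_eq_abs]; exact wv_le hB hL0 u) 1
    rw [hL, bt_btr, Complex.norm_real, Real.norm_eq_abs, ← hL] at h1
    unfold btr at h1
    simp only [Real.log_one, sub_zero] at h1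
    have h2 : 2 * (L / Real.sqrt (2 * Real.pi) *
        ∫ u in (0 : ℝ)..L, wv ψ L u * Real.exp (-u ^ 2 / 2)) =
        2 * L * (1 / Real.sqrt (2 * Real.pi) *
        ∫ u in (0 : ℝ)..L, wv ψ L u * Real.exp (-u ^ 2 / 2)) := by ring
    rw [h2, abs_mul, abs_of_pos (by positivity : 0 < 2 * L)]
    calc 2 * L * |1 / Real.sqrt (2 * Real.pi) *
        ∫ u in (0 : ℝ)..L, wv ψ L u * Real.exp (-u ^ 2 / 2)| ≤ 2 * L * (B / L) := by gcongr
      _ = 2 * B := by field_simp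
  · intro p hp
    have hpp := mem_PN.1 hp
    have hp0 : (0 : ℝ) < p := by exact_mod_cast hpp.1.pos
    have hlp : 0 ≤ Real.log p := Real.log_natCast_nonneg p
    have hlpL : Real.log p ≤ L := by
      apply Real.log_le_log hp0
      exact le_trans (by exact_mod_cast hpp.2) hNT
    have hv0 := vp_nonneg (K := 1) (by norm_num) L p
    unfold yy
    split_ifs with h
    · have h1 := btr_le hB hT p
      rw [← hL] at h1
      have h2 : Real.log p * (p : ℝ) ^ (-(1 / 2) : ℝ) / L ≤ vp 1 L p := by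
        unfold vp
        rw [one_mul]
        apply Real.le_sqrt_of_sq_le
        have h3 : ((p : ℝ) ^ (-(1 / 2) : ℝ)) ^ 2 = (p : ℝ)⁻¹ := by
          rw [← Real.rpow_natCast, ← Real.rpow_mul hp0.le]
          norm_num
          exact Real.rpow_neg_one _
        rw [div_pow, mul_pow, h3]
        rw [div_le_div_iff₀ (by positivity) (by positivity)]
        have : Real.log p ^ 2 * (p : ℝ)⁻¹ * (L * p) = Real.log p * (Real.log p * L) := by
          field_simp
        rw [this]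
        apply mul_le_mul_of_nonneg_left _ hlp
        nlinarith
      rw [abs_mul, abs_of_nonneg (by positivity : 0 ≤ Real.log p * (p : ℝ) ^ (-(1 / 2) : ℝ))]
      calc Real.log p * (p : ℝ) ^ (-(1 / 2) : ℝ) * |btr ψ L p| ≤
          Real.log p * (p : ℝ) ^ (-(1 / 2) : ℝ) * (B / L) := by gcongr
        _ = B * (Real.log p * (p : ℝ) ^ (-(1 / 2) : ℝ) / L) := by ring
        _ ≤ B * vp 1 L p := by gcongr
        _ ≤ 2 * B * vp 1 L p := by
            have := mul_nonneg hB0 hv0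
            linarith
    · rw [abs_zero]; positivity
  · intro p hp
    have hpp := mem_PN.1 hp
    have hp0 : (0 : ℝ) < p := by exact_mod_cast hpp.1.pos
    have hlp : 0 ≤ Real.log p := Real.log_natCast_nonneg p
    unfold zz
    rw [vp_sq hL0]
    split_ifs with h
    · have h1 := btr_le hB hT ((p ^ 2 : ℕ) : ℝ)
      rw [← hL] at h1
      rw [abs_mul, abs_of_nonneg (by positivity : 0 ≤ Real.log p * (p : ℝ)⁻¹)]
      calc Real.log p * (p : ℝ)⁻¹ * |btr ψ L ((p ^ 2 : ℕ) : ℝ)| ≤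
          Real.log p * (p : ℝ)⁻¹ * (B / L) := by gcongr
        _ = B * (1 ^ 2 / L * (Real.log p / p)) := by ring
        _ ≤ 2 * B * (1 ^ 2 / L * (Real.log p / p)) := by
            have : 0 ≤ B * (1 ^ 2 / L * (Real.log p / p)) := by positivity
            linarith
    · rw [abs_zero]; positivity

/-- the heights -/
lemma lin_ht (ψ : ℝ → ℝ) {ν : ℝ} (hν : 0 ≤ ν) {T : ℝ} (hT : 10 ≤ T) :
    Ht (rp (cc ψ (Real.log T)) (PN ⌊T⌋₊) (yy ψ ν (Real.log T)) (zz ψ ν (Real.log T)))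
      (ν * Real.log T) := by
  have hL0 : 0 < Real.log T := Real.log_pos (by linarith)
  apply rp_ht (by positivity)
  · intro p _ hne
    unfold yy at hne
    split_ifs at hne with h
    · exact h
    · exact absurd rfl hne
  · intro p _ hne
    unfold zz at hne
    split_ifs at hne with h
    · exact h
    · exact absurd rfl hne

end Pool.Agent.R321.FA
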