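import Pool.Agent.R321.FC6

/-! The limits of the constant terms and of the covariances. -/

open Finset Complex MeasureTheory Filter Topology

namespace Pool.Agent.R321.FA

open SP (zs ps bt ZZ mu Mk RHs)
open H370.A2 (RR evp evp_cont evp_zero evp_even evp_int int_sym)

lemma gs_int (l : ℝ) : Integrable (fun u : ℝ => Real.exp (-(u - l) ^ 2 / 2)) := by
  have h := (integrable_exp_neg_mul_sq (b := 1 / 2) (by norm_num)).comp_sub_right l
  refine h.congr (Eventually.of_forall fun u => ?_)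
  simp only
  congr 1
  ring

lemma gs_val (l : ℝ) : ∫ u : ℝ, Real.exp (-(u - l) ^ 2 / 2) = Real.sqrt (2 * Real.pi) := by
  have h := integral_sub_right_eq_self (fun u : ℝ => Real.exp (-u ^ 2 / 2)) l (μ := volume)
  rw [h]
  have h2 := integral_gaussian (1 / 2)
  have h3 : ∀ x : ℝ, Real.exp (-x ^ 2 / 2) = Real.exp (-(1 / 2) * x ^ 2) := fun x => by
    congr 1; ring
  simp_rw [h3]
  rw [h2]
  congr 1
  ring

lemma gs4_int (l : ℝ) : Integrable (fun u : ℝ => Real.exp (-(u - l) ^ 2 / 4)) := by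
  have h := (integrable_exp_neg_mul_sq (b := 1 / 4) (by norm_num)).comp_sub_right l
  refine h.congr (Eventually.of_forall fun u => ?_)
  simp only
  congr 1
  ring

lemma gs4_val (l : ℝ) : ∫ u : ℝ, Real.exp (-(u - l) ^ 2 / 4) = Real.sqrt (4 * Real.pi) := by
  have h := integral_sub_right_eq_self (fun u : ℝ => Real.exp (-u ^ 2 / 4)) l (μ := volume)
  rw [h]
  have h2 := integral_gaussian (1 / 4)
  have h3 : ∀ x : ℝ, Real.exp (-x ^ 2 / 4) = Real.exp (-(1 / 4) * x ^ 2) := fun x => by
    congr 1; ring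
  simp_rw [h3]
  rw [h2]
  congr 1
  ring

lemma gs_abs (v : ℝ) : |v| * Real.exp (-v ^ 2 / 2) ≤ Real.exp (-v ^ 2 / 4) := by
  have h1 : |v| ≤ Real.exp (v ^ 2 / 4) := by
    have h2 := Real.add_one_le_exp (v ^ 2 / 4)
    have h3 : |v| ≤ v ^ 2 / 4 + 1 := by
      rw [← sq_abs]
      nlinarith [sq_nonneg (|v| - 2)]
    linarith
  calc |v| * Real.exp (-v ^ 2 / 2) ≤ Real.exp (v ^ 2 / 4) * Real.exp (-v ^ 2 / 2) :=
        mul_le_mul_of_nonneg_right h1 (Real.exp_pos _).le
    _ = _ := by rw [← Real.exp_add]; congr 1; ring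

/-- the smoothed weight is the weight up to a small error -/
lemma btr_approx {ψ : ℝ → ℝ} {μ K B : ℝ} (hψ : Continuous ψ) (hz : ∀ x, μ ≤ |x| → ψ x = 0)
    (hμ1 : μ ≤ 1) (hK : ∀ x y, |evp ψ x - evp ψ y| ≤ K * |x - y|) (hB : ∀ x, |evp ψ x| ≤ B)
    {L : ℝ} (hL : 0 < L) {x : ℝ} (hl : 0 < Real.log x) :
    |btr ψ L x - wv ψ L (Real.log x)| ≤ 2 * K / L ^ 2 + B / (L * Real.log x) := by
  set l := Real.log x with hldef
  have hB0 : 0 ≤ B := (abs_nonneg _).trans (hB 0)
  have hK0 : 0 ≤ K := by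
    have h1 := hK 1 0
    have h2 := abs_nonneg (evp ψ 1 - evp ψ 0)
    simp at h1
    linarith
  set c := Real.sqrt (2 * Real.pi) with hc
  have hc0 : 0 < c := Real.sqrt_pos.2 (by positivity)
  have hwc := wv_cont hψ L
  have hwB := fun u => wv_le (ψ := ψ) hB hL u
  set f : ℝ → ℝ := fun u => wv ψ L u * Real.exp (-(u - l) ^ 2 / 2) with hf
  have hfi : Integrable f := by
    refine ((gs_int l).const_mul (B / L)).mono' (by
      apply Continuous.aestronglyMeasurable
      exact hwc.mul (by fun_prop)) (Eventually.of_forall fun u => ?_)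
    rw [hf, Real.norm_eq_abs, abs_mul, abs_of_pos (Real.exp_pos _)]
    exact mul_le_mul_of_nonneg_right (hwB u) (Real.exp_pos _).le
  -- the half line
  have e1 : ∫ u in (0 : ℝ)..L, f u = ∫ u in Set.Ioi (0 : ℝ), f u := by
    rw [intervalIntegral.integral_of_le hL.le]
    symm
    apply setIntegral_eq_of_subset_of_forall_diff_eq_zero measurableSet_Ioi
      Set.Ioc_subset_Ioi_self
    intro u hu
    obtain ⟨h1, h2⟩ := hu
    have hu0 : 0 < u := h1
    have hLu : L < u := by
      by_contra h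
      push Not at h
      exact h2 ⟨hu0, h⟩
    rw [hf]
    show wv ψ L u * _ = 0
    rw [wv_zero hz hL (by nlinarith), zero_mul]
  have e2 : ∫ u, f u = (∫ u in Set.Iic (0 : ℝ), f u) + ∫ u in Set.Ioi (0 : ℝ), f u :=
    (intervalIntegral.integral_Iic_add_Ioi hfi.integrableOn hfi.integrableOn).symm
  have e3 : |∫ u in Set.Iic (0 : ℝ), f u| ≤ B / L * (1 / l * c) := by
    rw [← Real.norm_eq_abs]
    refine (norm_integral_le_of_norm_le (g := fun u => B / L * (1 / l * Real.exp (-(u - 0) ^ 2 / 2)))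
      (((gs_int 0).const_mul _).const_mul _).integrableOn ?_).trans ?_
    · rw [ae_restrict_iff' measurableSet_Iic]
      refine Eventually.of_forall fun u hu => ?_
      have hu0 : u ≤ 0 := hu
      rw [hf, Real.norm_eq_abs, abs_mul, abs_of_pos (Real.exp_pos _)]
      apply mul_le_mul (hwB u) _ (Real.exp_pos _).le (by positivity)
      have g1 : Real.exp (-(u - l) ^ 2 / 2) ≤ Real.exp (-l ^ 2 / 2) * Real.exp (-(u - 0) ^ 2 / 2) := by
        rw [← Real.exp_add]
        apply Real.exp_le_exp.2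
        nlinarith
      have g2 : Real.exp (-l ^ 2 / 2) ≤ 1 / l := by
        have g3 := Real.add_one_le_exp (l ^ 2 / 2)
        have g4 : l ≤ Real.exp (l ^ 2 / 2) := by nlinarith [sq_nonneg (l - 1)]
        have g5 : Real.exp (-l ^ 2 / 2) = (Real.exp (l ^ 2 / 2))⁻¹ := by
          rw [← Real.exp_neg]; congr 1; ring
        rw [g5, one_div]
        exact inv_anti₀ hl g4
      exact g1.trans (mul_le_mul_of_nonneg_right g2 (Real.exp_pos _).le)
    · rw [integral_const_mul, integral_const_mul]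
      apply mul_le_mul_of_nonneg_left _ (by positivity)
      apply mul_le_mul_of_nonneg_left _ (by positivity)
      rw [hc, ← gs_val 0]
      exact setIntegral_le_integral (gs_int 0) (Eventually.of_forall fun u => (Real.exp_pos _).le)
  have e4 : |(∫ u, f u) - wv ψ L l * c| ≤ K / L ^ 2 * 4 := by
    have h1 : (∫ u, f u) - wv ψ L l * c =
        ∫ u, (wv ψ L u - wv ψ L l) * Real.exp (-(u - l) ^ 2 / 2) := by
      have h2 : ∀ u, (wv ψ L u - wv ψ L l) * Real.exp (-(u - l) ^ 2 / 2) =
          f u - wv ψ L l * Real.exp (-(u - l) ^ 2 / 2) := fun u => by rw [hf]; ring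
      simp_rw [h2]
      rw [integral_sub hfi ((gs_int l).const_mul _), integral_const_mul, gs_val]
    rw [h1, ← Real.norm_eq_abs]
    refine (norm_integral_le_of_norm_le (g := fun u => K / L ^ 2 * Real.exp (-(u - l) ^ 2 / 4))
      ((gs4_int l).const_mul _) (Eventually.of_forall fun u => ?_)).trans ?_
    · rw [Real.norm_eq_abs, abs_mul, abs_of_pos (Real.exp_pos _)]
      have h3 : |wv ψ L u - wv ψ L l| ≤ K / L ^ 2 * |u - l| := by
        unfold wv
        rw [← sub_div, abs_div, abs_of_pos hL, div_le_iff₀ hL]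
        refine (hK _ _).trans (le_of_eq ?_)
        rw [← sub_div, abs_div, abs_of_pos hL]
        field_simp
      calc |wv ψ L u - wv ψ L l| * Real.exp (-(u - l) ^ 2 / 2) ≤
          K / L ^ 2 * |u - l| * Real.exp (-(u - l) ^ 2 / 2) :=
            mul_le_mul_of_nonneg_right h3 (Real.exp_pos _).le
        _ = K / L ^ 2 * (|u - l| * Real.exp (-(u - l) ^ 2 / 2)) := by ring
        _ ≤ K / L ^ 2 * Real.exp (-(u - l) ^ 2 / 4) :=
            mul_le_mul_of_nonneg_left (gs_abs _) (by positivity)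
    · rw [integral_const_mul, gs4_val]
      apply mul_le_mul_of_nonneg_left _ (by positivity)
      rw [show (4 : ℝ) = Real.sqrt 16 by
        rw [show (16 : ℝ) = 4 ^ 2 by norm_num, Real.sqrt_sq (by norm_num)]]
      apply Real.sqrt_le_sqrt
      rw [show Real.sqrt 16 = 4 by
        rw [show (16 : ℝ) = 4 ^ 2 by norm_num, Real.sqrt_sq (by norm_num)]]
      linarith [Real.pi_lt_four]
  have e5 : btr ψ L x - wv ψ L l = 1 / c * (((∫ u, f u) - wv ψ L l * c) -
      ∫ u in Set.Iic (0 : ℝ), f u) := by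
    have h1 : btr ψ L x = 1 / c * ∫ u in (0 : ℝ)..L, f u := rfl
    rw [h1, e1, e2]
    field_simp
    ring
  have hc2 : 2 ≤ c := by
    rw [hc, show (2 : ℝ) = Real.sqrt (2 ^ 2) by rw [Real.sqrt_sq (by norm_num)]]
    apply Real.sqrt_le_sqrt
    rw [Real.sqrt_sq (by norm_num)]
    linarith [Real.pi_gt_three]
  rw [e5, abs_mul, abs_of_pos (by positivity : 0 < 1 / c)]
  calc 1 / c * |((∫ u, f u) - wv ψ L l * c) - ∫ u in Set.Iic (0 : ℝ), f u| ≤
      1 / c * (K / L ^ 2 * 4 + B / L * (1 / l * c)) := by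
        apply mul_le_mul_of_nonneg_left _ (by positivity)
        refine (abs_sub _ _).trans ?_
        linarith
    _ = 4 / c * (K / L ^ 2) + B / (L * l) := by
        field_simp
    _ ≤ 2 * (K / L ^ 2) + B / (L * l) := by
        have h1 : 4 / c ≤ 2 := by
          rw [div_le_iff₀ hc0]; linarith
        have h2 : 0 ≤ K / L ^ 2 := by positivity
        nlinarith
    _ = _ := by ring

end Pool.Agent.R321.FA
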