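import Pool.Agent.R321.FC7

/-! The limits of the constant terms and of the covariances, continued. -/

open Finset Complex MeasureTheory Filter Topology

namespace Pool.Agent.R321.FA

open SP (zs ps bt ZZ mu Mk RHs)
open H370.A2 (RR evp evp_cont evp_zero evp_even evp_int int_sym)

/-- the limit of the constant term -/
theorem cc_lim {ψ : ℝ → ℝ} {K : ℝ} (hψ : Continuous ψ)
    (hK : ∀ x y, |evp ψ x - evp ψ y| ≤ K * |x - y|) :
    Tendsto (fun T : ℝ => cc ψ (Real.log T)) atTop (𝓝 (ψ 0)) := by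
  have hK0 : 0 ≤ K := by
    have h1 := hK 1 0
    have h2 := abs_nonneg (evp ψ 1 - evp ψ 0)
    simp at h1
    linarith
  set c := Real.sqrt (2 * Real.pi) with hc
  have hc0 : 0 < c := Real.sqrt_pos.2 (by positivity)
  have hc2 : 2 ≤ c := by
    rw [hc, show (2 : ℝ) = Real.sqrt (2 ^ 2) by rw [Real.sqrt_sq (by norm_num)]]
    apply Real.sqrt_le_sqrt
    rw [Real.sqrt_sq (by norm_num)]
    linarith [Real.pi_gt_three]
  have hev0 : evp ψ 0 = ψ 0 := by unfold H370.A2.evp; rw [neg_zero]; ring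
  have hgi : Integrable (fun u : ℝ => Real.exp (-u ^ 2 / 2)) := by
    have := gs_int 0
    simpa using this
  have h1 : Tendsto (fun T : ℝ => ∫ u in (0 : ℝ)..Real.log T, Real.exp (-u ^ 2 / 2)) atTop
      (𝓝 (c / 2)) := by
    have h2 := intervalIntegral_tendsto_integral_Ioi 0 hgi.integrableOn Real.tendsto_log_atTop
    have h3 : ∫ u in Set.Ioi (0 : ℝ), Real.exp (-u ^ 2 / 2) = c / 2 := by
      have h4 := integral_gaussian_Ioi (1 / 2)
      have h5 : ∀ x : ℝ, Real.exp (-x ^ 2 / 2) = Real.exp (-(1 / 2) * x ^ 2) := fun x => by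
        congr 1; ring
      simp_rw [h5]
      rw [h4, hc]
      congr 2
      ring
    rwa [h3] at h2
  have h2 : Tendsto (fun T : ℝ => 2 / c * (ψ 0 * ∫ u in (0 : ℝ)..Real.log T,
      Real.exp (-u ^ 2 / 2))) atTop (𝓝 (ψ 0)) := by
    have h3 := (h1.const_mul (ψ 0)).const_mul (2 / c)
    have h4 : 2 / c * (ψ 0 * (c / 2)) = ψ 0 := by field_simp
    rwa [h4] at h3
  have h3 : Tendsto (fun T : ℝ => 4 * K / Real.log T) atTop (𝓝 0) :=
    Real.tendsto_log_atTop.const_div_atTop _
  have h4 : Tendsto (fun T : ℝ => cc ψ (Real.log T) - 2 / c * (ψ 0 * ∫ u in (0 : ℝ)..Real.log T,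
      Real.exp (-u ^ 2 / 2))) atTop (𝓝 0) := by
    apply squeeze_zero_norm' _ h3
    filter_upwards [eventually_ge_atTop 10] with T hT
    have hL : 0 < Real.log T := Real.log_pos (by linarith)
    set L := Real.log T with hLdef
    have e1 : cc ψ L - 2 / c * (ψ 0 * ∫ u in (0 : ℝ)..L, Real.exp (-u ^ 2 / 2)) =
        2 / c * ∫ u in (0 : ℝ)..L, (evp ψ (u / L) - evp ψ 0) * Real.exp (-u ^ 2 / 2) := by
      have e2 : ∀ u, (evp ψ (u / L) - evp ψ 0) * Real.exp (-u ^ 2 / 2) =
          L * (wv ψ L u * Real.exp (-u ^ 2 / 2)) - ψ 0 * Real.exp (-u ^ 2 / 2) := by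
        intro u
        unfold wv
        rw [hev0]
        field_simp
      simp_rw [e2]
      rw [intervalIntegral.integral_sub, intervalIntegral.integral_const_mul,
        intervalIntegral.integral_const_mul]
      · unfold cc
        rw [← hc]
        ring
      · apply Continuous.intervalIntegrable
        exact continuous_const.mul ((wv_cont hψ L).mul (by fun_prop))
      · apply Continuous.intervalIntegrable
        fun_prop
    rw [e1, norm_mul, Real.norm_of_nonneg (by positivity : 0 ≤ 2 / c)]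
    have e3 : ‖∫ u in (0 : ℝ)..L, (evp ψ (u / L) - evp ψ 0) * Real.exp (-u ^ 2 / 2)‖ ≤
        K / L * 4 := by
      calc _ ≤ ∫ u in (0 : ℝ)..L, K / L * Real.exp (-u ^ 2 / 4) := by
            apply intervalIntegral.norm_integral_le_of_norm_le hL.le
            · refine Eventually.of_forall fun u hu => ?_
              rw [norm_mul, Real.norm_of_nonneg (Real.exp_pos _).le, Real.norm_eq_abs]
              calc |evp ψ (u / L) - evp ψ 0| * Real.exp (-u ^ 2 / 2) ≤
                  (K * |u / L - 0|) * Real.exp (-u ^ 2 / 2) :=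
                    mul_le_mul_of_nonneg_right (hK _ _) (Real.exp_pos _).le
                _ = K / L * (|u| * Real.exp (-u ^ 2 / 2)) := by
                    rw [sub_zero, abs_div, abs_of_pos hL]; ring
                _ ≤ _ := mul_le_mul_of_nonneg_left (gs_abs u) (by positivity)
            · apply Continuous.intervalIntegrable
              fun_prop
        _ = K / L * ∫ u in (0 : ℝ)..L, Real.exp (-u ^ 2 / 4) :=
            intervalIntegral.integral_const_mul _ _
        _ ≤ K / L * 4 := by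
            apply mul_le_mul_of_nonneg_left _ (by positivity)
            rw [intervalIntegral.integral_of_le hL.le]
            have g1 := gs4_int 0
            have g2 := gs4_val 0
            simp only [sub_zero] at g1 g2
            refine (setIntegral_le_integral g1
              (Eventually.of_forall fun u => (Real.exp_pos _).le)).trans ?_
            rw [g2]
            rw [show (4 : ℝ) = Real.sqrt 16 by
              rw [show (16 : ℝ) = 4 ^ 2 by norm_num, Real.sqrt_sq (by norm_num)]]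
            apply Real.sqrt_le_sqrt
            rw [show Real.sqrt 16 = 4 by
              rw [show (16 : ℝ) = 4 ^ 2 by norm_num, Real.sqrt_sq (by norm_num)]]
            linarith [Real.pi_lt_four]
    calc 2 / c * ‖∫ u in (0 : ℝ)..L, (evp ψ (u / L) - evp ψ 0) * Real.exp (-u ^ 2 / 2)‖ ≤
        1 * (K / L * 4) := by
          apply mul_le_mul _ e3 (norm_nonneg _) (by norm_num)
          rw [div_le_one hc0]; exact hc2
      _ = 4 * K / L := by ring
  have h5 := h4.add h2
  simpa using h5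

/-- Lipschitz products -/
lemma lip3 {a b : ℝ → ℝ} {K B : ℝ} (ha : ∀ x y, |a x - a y| ≤ K * |x - y|)
    (hb : ∀ x y, |b x - b y| ≤ K * |x - y|) (haB : ∀ x, |a x| ≤ B) (hbB : ∀ x, |b x| ≤ B)
    (hz : ∀ x, 1 ≤ |x| → a x = 0) (x y : ℝ) :
    |x * a x * b x - y * a y * b y| ≤ (B * B + 2 * K * B) * |x - y| := by
  have hB0 : 0 ≤ B := (abs_nonneg _).trans (haB 0)
  have hK0 : 0 ≤ K := by
    have h1 := ha 1 0
    have h2 := abs_nonneg (a 1 - a 0)
    simp at h1
    linarith
  set cl : ℝ → ℝ := fun x => max (-1) (min x 1) with hcl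
  have h1 : ∀ x, |cl x| ≤ 1 := by
    intro x
    rw [abs_le]
    constructor
    · exact le_max_left _ _
    · apply max_le (by norm_num) (min_le_right _ _)
  have h2 : ∀ x, x * a x = cl x * a x := by
    intro x
    by_cases h : 1 ≤ |x|
    · rw [hz x h]; simp
    · push Not at h
      obtain ⟨g1, g2⟩ := abs_lt.1 h
      have : cl x = x := by
        simp only [hcl]
        rw [min_eq_left g2.le, max_eq_right g1.le]
      rw [this]
  have h3 : ∀ x y, |cl x - cl y| ≤ |x - y| := by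
    have key : ∀ x y, x ≤ y → |cl x - cl y| ≤ |x - y| := by
      intro x y hxy
      rw [abs_sub_comm, abs_sub_comm x y, abs_of_nonneg (by linarith : 0 ≤ y - x), abs_le]
      simp only [hcl]
      constructor
      · have : max (-1) (min x 1) ≤ max (-1) (min y 1) :=
          max_le_max le_rfl (min_le_min hxy le_rfl)
        linarith
      · simp only [max_def, min_def]
        split_ifs <;> linarith
    intro x y
    rcases le_total x y with h | h
    · exact key x y h
    · rw [abs_sub_comm, abs_sub_comm x y]; exact key y x h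
  rw [h2 x, h2 y]
  have e : cl x * a x * b x - cl y * a y * b y = (cl x - cl y) * a x * b x +
      cl y * (a x - a y) * b x + cl y * a y * (b x - b y) := by ring
  rw [e]
  have a1 : |(cl x - cl y) * a x * b x| ≤ |x - y| * B * B := by
    rw [abs_mul, abs_mul]
    exact mul_le_mul (mul_le_mul (h3 x y) (haB x) (abs_nonneg _) (abs_nonneg _)) (hbB x)
      (abs_nonneg _) (by positivity)
  have a2 : |cl y * (a x - a y) * b x| ≤ 1 * (K * |x - y|) * B := by
    rw [abs_mul, abs_mul]
    exact mul_le_mul (mul_le_mul (h1 y) (ha x y) (abs_nonneg _) (by norm_num)) (hbB x)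
      (abs_nonneg _) (by positivity)
  have a3 : |cl y * a y * (b x - b y)| ≤ 1 * B * (K * |x - y|) := by
    rw [abs_mul, abs_mul]
    exact mul_le_mul (mul_le_mul (h1 y) (haB y) (abs_nonneg _) (by norm_num)) (hb x y)
      (abs_nonneg _) (by positivity)
  calc _ ≤ |(cl x - cl y) * a x * b x| + |cl y * (a x - a y) * b x| +
        |cl y * a y * (b x - b y)| := by
        refine (abs_add_le _ _).trans ?_
        gcongr
        exact abs_add_le _ _
    _ ≤ |x - y| * B * B + 1 * (K * |x - y|) * B + 1 * B * (K * |x - y|) := by gcongr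
    _ = _ := by ring

/-- **the limit of the covariances** -/
theorem cov_lim {ψ φ : ℝ → ℝ} {μ μ' ν ν' K B : ℝ} (hψ : Continuous ψ) (hφ : Continuous φ)
    (hμν : μ < ν) (hν1 : ν ≤ 1) (hμν' : μ' < ν') (hν1' : ν' ≤ 1)
    (hz : ∀ x, μ ≤ |x| → ψ x = 0) (hz' : ∀ x, μ' ≤ |x| → φ x = 0)
    (hK : ∀ x y, |evp ψ x - evp ψ y| ≤ K * |x - y|) (hK' : ∀ x y, |evp φ x - evp φ y| ≤ K * |x - y|)
    (hB : ∀ x, |evp ψ x| ≤ B) (hB' : ∀ x, |evp φ x| ≤ B) :
    Tendsto (fun T : ℝ => 2 * ∑ p ∈ PN ⌊T⌋₊, yy ψ ν (Real.log T) p * yy φ ν' (Real.log T) p) atTop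
      (𝓝 (2 * ∫ u in (0 : ℝ)..1, u * evp ψ u * evp φ u)) := by
  have hB0 : 0 ≤ B := (abs_nonneg _).trans (hB 0)
  have hK0 : 0 ≤ K := by
    have h1 := hK 1 0
    have h2 := abs_nonneg (evp ψ 1 - evp ψ 0)
    simp at h1
    linarith
  set H : ℝ → ℝ := fun u => u * evp ψ u * evp φ u with hH
  have hzero : ∀ u : ℝ, 1 ≤ |u| → evp ψ u = 0 := fun u hu => evp_zero hz (by linarith)
  have hlip : LipschitzWith (B * B + 2 * K * B).toNNReal (fun u => ((H u : ℝ) : ℂ)) := by
    refine LipschitzWith.of_dist_le_mul fun x y => ?_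
    rw [dist_eq_norm, ← Complex.ofReal_sub, Complex.norm_real, Real.norm_eq_abs,
      Real.coe_toNNReal _ (by positivity), Real.dist_eq]
    exact lip3 hK hK' hB hB' hzero x y
  obtain ⟨C, hC, hm⟩ := SP.mert (fun u => ((H u : ℝ) : ℂ)) _ hlip (fun u hu => by
    show ((H u : ℝ) : ℂ) = 0
    simp only [hH]
    rw [hzero u (hu.trans (le_abs_self u))]
    simp)
  rw [tendsto_iff_norm_sub_tendsto_zero]
  have hlim : Tendsto (fun T : ℝ => (2 * (2 * B * (2 * K + B) * 7) + 2 * C) / Real.log T) atTop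
      (𝓝 0) := Real.tendsto_log_atTop.const_div_atTop _
  apply squeeze_zero' (Eventually.of_forall fun T => norm_nonneg _) _ hlim
  filter_upwards [eventually_ge_atTop 10] with T hT
  have hT0 : 0 < T := by linarith
  have h1 := hm T hT
  set L := Real.log T with hL
  have hL1 : 1 ≤ L := by
    rw [hL, Real.le_log_iff_exp_le hT0]
    have := Real.exp_one_lt_d9
    linarith
  have hL0 : 0 < L := by linarith
  have hNT : (⌊T⌋₊ : ℝ) ≤ T := Nat.floor_le hT0.le
  have hN1 : 1 ≤ ⌊T⌋₊ := by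
    rw [Nat.one_le_floor_iff]
    linarith
  have hPN : (Finset.Icc 1 ⌊T⌋₊).filter Nat.Prime = PN ⌊T⌋₊ := rfl
  -- Mertens
  have e1 : |(1 / L) * ∑ p ∈ PN ⌊T⌋₊, (Real.log p / p) * H (Real.log p / L) -
      ∫ u in (0 : ℝ)..1, H u| ≤ C / L := by
    rw [hPN] at h1
    have e2 : ((1 / L : ℝ) : ℂ) * ∑ p ∈ PN ⌊T⌋₊, ((Real.log p / p : ℝ) : ℂ) *
        ((H (Real.log p / L) : ℝ) : ℂ) - ∫ u in (0 : ℝ)..1, ((H u : ℝ) : ℂ) =
        (((1 / L) * ∑ p ∈ PN ⌊T⌋₊, (Real.log p / p) * H (Real.log p / L) -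
          ∫ u in (0 : ℝ)..1, H u : ℝ) : ℂ) := by
      rw [intervalIntegral.integral_ofReal]
      push_cast
      rfl
    rw [e2, Complex.norm_real, Real.norm_eq_abs] at h1
    exact h1
  -- the coefficients
  have e3 : ∀ (ψ : ℝ → ℝ) (μ ν : ℝ), Continuous ψ → μ < ν → ν ≤ 1 → (∀ x, μ ≤ |x| → ψ x = 0) →
      (∀ x y, |evp ψ x - evp ψ y| ≤ K * |x - y|) → (∀ x, |evp ψ x| ≤ B) → ∀ p ∈ PN ⌊T⌋₊,
      ∃ b : ℝ, yy ψ ν L p = Real.log p * (p : ℝ) ^ (-(1 / 2) : ℝ) * b ∧ |b| ≤ B / L ∧
        |b - wv ψ L (Real.log p)| ≤ 2 * K / L ^ 2 + B / (L * Real.log p) := by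
    intro ψ μ ν hψ hμν hν1 hz hK hB p hp
    have hpp := mem_PN.1 hp
    have hlp : 0 < Real.log p := Real.log_pos (by exact_mod_cast hpp.1.one_lt)
    unfold yy
    split_ifs with h
    · exact ⟨_, rfl, btr_le hB hT p, btr_approx hψ hz (by linarith) hK hB hL0 hlp⟩
    · refine ⟨0, by ring, by rw [abs_zero]; positivity, ?_⟩
      push Not at h
      rw [wv_zero hz hL0 (by nlinarith), sub_zero, abs_zero]
      positivity
  have e4 : ∀ p ∈ PN ⌊T⌋₊, |yy ψ ν L p * yy φ ν' L p -
      (1 / L) * ((Real.log p / p) * H (Real.log p / L))| ≤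
      (2 * B * (2 * K + B)) / L ^ 2 * (Real.log p / p) := by
    intro p hp
    have hpp := mem_PN.1 hp
    have hp0 : (0 : ℝ) < p := by exact_mod_cast hpp.1.pos
    have hlp : 0 < Real.log p := Real.log_pos (by exact_mod_cast hpp.1.one_lt)
    have hlpL : Real.log p ≤ L := by
      apply Real.log_le_log hp0
      exact le_trans (by exact_mod_cast hpp.2) hNT
    obtain ⟨b, hb1, hb2, hb3⟩ := e3 ψ μ ν hψ hμν hν1 hz hK hB p hp
    obtain ⟨b', hb1', hb2', hb3'⟩ := e3 φ μ' ν' hφ hμν' hν1' hz' hK' hB' p hp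
    have hpow : (p : ℝ) ^ (-(1 / 2) : ℝ) * (p : ℝ) ^ (-(1 / 2) : ℝ) = (p : ℝ)⁻¹ := by
      rw [← Real.rpow_add hp0]
      norm_num
      exact Real.rpow_neg_one _
    have e5 : yy ψ ν L p * yy φ ν' L p = Real.log p ^ 2 * (p : ℝ)⁻¹ * (b * b') := by
      rw [hb1, hb1']
      calc _ = Real.log p ^ 2 * ((p : ℝ) ^ (-(1 / 2) : ℝ) * (p : ℝ) ^ (-(1 / 2) : ℝ)) * (b * b') := by
            ring
        _ = _ := by rw [hpow]
    have e6 : (1 / L) * ((Real.log p / p) * H (Real.log p / L)) =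
        Real.log p ^ 2 * (p : ℝ)⁻¹ * (wv ψ L (Real.log p) * wv φ L (Real.log p)) := by
      simp only [hH]
      unfold wv
      field_simp
    rw [e5, e6, ← mul_sub, abs_mul, abs_of_nonneg (by positivity : 0 ≤ Real.log p ^ 2 * (p : ℝ)⁻¹)]
    have e7 : |b * b' - wv ψ L (Real.log p) * wv φ L (Real.log p)| ≤
        2 * ((B / L) * (2 * K / L ^ 2 + B / (L * Real.log p))) := by
      have e8 : b * b' - wv ψ L (Real.log p) * wv φ L (Real.log p) =
          (b - wv ψ L (Real.log p)) * b' + wv ψ L (Real.log p) * (b' - wv φ L (Real.log p)) := by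
        ring
      rw [e8]
      refine (abs_add_le _ _).trans ?_
      rw [abs_mul, abs_mul]
      have g1 := mul_le_mul hb3 hb2' (abs_nonneg _) (by positivity)
      have g2 := mul_le_mul (wv_le hB hL0 (Real.log p)) hb3' (abs_nonneg _) (by positivity)
      linarith
    calc Real.log p ^ 2 * (p : ℝ)⁻¹ * |b * b' - wv ψ L (Real.log p) * wv φ L (Real.log p)| ≤
        Real.log p ^ 2 * (p : ℝ)⁻¹ * (2 * ((B / L) * (2 * K / L ^ 2 + B / (L * Real.log p)))) := by
          gcongr
      _ = Real.log p / p * (2 * B / L ^ 2 * (2 * K * (Real.log p / L) + B)) := by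
          field_simp
      _ ≤ Real.log p / p * (2 * B / L ^ 2 * (2 * K * 1 + B)) := by
          have : Real.log p / L ≤ 1 := by rw [div_le_one hL0]; exact hlpL
          gcongr
      _ = _ := by ring
  have e9 : |∑ p ∈ PN ⌊T⌋₊, yy ψ ν L p * yy φ ν' L p -
      (1 / L) * ∑ p ∈ PN ⌊T⌋₊, (Real.log p / p) * H (Real.log p / L)| ≤
      2 * B * (2 * K + B) * 7 / L := by
    rw [Finset.mul_sum, ← Finset.sum_sub_distrib]
    refine (Finset.abs_sum_le_sum_abs _ _).trans ((Finset.sum_le_sum e4).trans ?_)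
    rw [← Finset.mul_sum]
    have g1 := mert_all ⌊T⌋₊ hN1
    have g2 : Real.log ⌊T⌋₊ ≤ L := Real.log_le_log (by exact_mod_cast hN1) hNT
    calc _ ≤ (2 * B * (2 * K + B)) / L ^ 2 * (7 * L) := by
          apply mul_le_mul_of_nonneg_left _ (by positivity)
          linarith
      _ = _ := by field_simp
  rw [Real.norm_eq_abs]
  set S := ∑ p ∈ PN ⌊T⌋₊, yy ψ ν L p * yy φ ν' L p with hS
  set S' := (1 / L) * ∑ p ∈ PN ⌊T⌋₊, (Real.log p / p) * H (Real.log p / L) with hS'
  have e10 : 2 * S - 2 * ∫ u in (0 : ℝ)..1, u * evp ψ u * evp φ u =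
      2 * (S - S') + 2 * (S' - ∫ u in (0 : ℝ)..1, H u) := by simp only [hH]; ring
  rw [e10]
  refine (abs_add_le _ _).trans ?_
  rw [abs_mul, abs_mul, abs_two]
  calc 2 * |S - S'| + 2 * |S' - ∫ u in (0 : ℝ)..1, H u| ≤
      2 * (2 * B * (2 * K + B) * 7 / L) + 2 * (C / L) := by gcongr
    _ = _ := by ring

end Pool.Agent.R321.FA
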