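import Pool.Agent.R321.FC8
import Pool.Agent.R321.FB3

/-! A majorant for the linear statistics and its moments. -/

open Finset Complex MeasureTheory Filter Topology

namespace Pool.Agent.R321.FA

open SP (zs ps bt ZZ mu Mk RHs wt)
open SP.ExpAux (wt_nonneg wt_cont Mk_cont Mk_nonneg dd_pos Ya_cont Mk_eq)
open H370.A2 (RR evp evp_cont evp_zero evp_even evp_int int_sym)
open Pool.Agent.TH800.LD (ZZf re_zs)

/-- all moments of `Mk` -/
theorem Mk_mom (hRH : RHs) (m : ℕ) : ∃ C T0 : ℝ, 0 < C ∧ 10 ≤ T0 ∧ ∀ T : ℝ, T0 ≤ T →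
    ∀ V1 V2 : ℝ, V1 ≤ V2 → T + Real.log T ≤ V1 → V2 ≤ 2 * T - Real.log T →
    ∫ t in V1..V2, Mk T 1 t ^ m ≤ C * T := by
  obtain ⟨C, T0, hC, hT0, h⟩ := SP.exp_main hRH (1 / 4) 1 1 (by norm_num) (by norm_num) one_pos
    one_pos
  refine ⟨3 * (m.factorial * C), T0, by positivity, hT0, fun T hT V1 V2 hV hV1 hV2 => ?_⟩
  have hT10 := hT0.trans hT
  have hT1 : 1 ≤ T := by linarith
  have hL : 0 ≤ Real.log T := Real.log_nonneg hT1
  have hD := dd_pos (κ := 1 / 4) hT10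
  have hDT : SG.dd (1 / 4) T ≤ T := by
    unfold SG.dd
    calc T ^ (1 - (1 / 4 : ℝ) / 2) ≤ T ^ (1 : ℝ) :=
          Real.rpow_le_rpow_of_exponent_le hT1 (by norm_num)
      _ = T := Real.rpow_one T
  apply avg_block ((Mk_cont hT1 1).pow m) (fun t => pow_nonneg (Mk_nonneg hT1 1 t) m) hD hDT hV
    (by linarith) (by linarith)
  intro t0
  have h1 := h T hT t0 V1 V2 hV hV1 hV2
  have hc : Continuous fun t => wt t0 (SG.dd (1 / 4) T) t *
      Real.exp (1 * (‖SP.Ya T 1 t‖ + Mk T 1 t)) :=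
    (wt_cont _ _).mul (Real.continuous_exp.comp
      (continuous_const.mul ((Ya_cont hT1 one_pos).norm.add (Mk_cont hT1 1))))
  calc ∫ t in V1..V2, wt t0 (SG.dd (1 / 4) T) t * Mk T 1 t ^ m ≤
      ∫ t in V1..V2, m.factorial * (wt t0 (SG.dd (1 / 4) T) t *
        Real.exp (1 * (‖SP.Ya T 1 t‖ + Mk T 1 t))) := by
        apply intervalIntegral.integral_mono_on hV
          (((wt_cont _ _).mul ((Mk_cont hT1 1).pow m)).intervalIntegrable _ _)
          ((hc.const_mul _).intervalIntegrable _ _)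
        intro t _
        have g1 := Mk_nonneg hT1 1 t
        have g2 : Mk T 1 t ^ m ≤ m.factorial * Real.exp (1 * (‖SP.Ya T 1 t‖ + Mk T 1 t)) := by
          have g3 := Real.pow_div_factorial_le_exp (Mk T 1 t) g1 m
          rw [div_le_iff₀ (by positivity)] at g3
          have g4 : Real.exp (Mk T 1 t) ≤ Real.exp (1 * (‖SP.Ya T 1 t‖ + Mk T 1 t)) := by
            apply Real.exp_le_exp.2
            have := norm_nonneg (SP.Ya T 1 t)
            linarith
          calc _ ≤ Real.exp (Mk T 1 t) * m.factorial := g3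
            _ ≤ Real.exp (1 * (‖SP.Ya T 1 t‖ + Mk T 1 t)) * m.factorial := by gcongr
            _ = _ := by ring
        calc wt t0 (SG.dd (1 / 4) T) t * Mk T 1 t ^ m ≤ wt t0 (SG.dd (1 / 4) T) t *
              (m.factorial * Real.exp (1 * (‖SP.Ya T 1 t‖ + Mk T 1 t))) :=
              mul_le_mul_of_nonneg_left g2 (wt_nonneg _ _ _)
          _ = _ := by ring
    _ = m.factorial * ∫ t in V1..V2, wt t0 (SG.dd (1 / 4) T) t *
        Real.exp (1 * (‖SP.Ya T 1 t‖ + Mk T 1 t)) := intervalIntegral.integral_const_mul _ _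
    _ ≤ m.factorial * (C * SG.dd (1 / 4) T) := by gcongr
    _ = m.factorial * C * SG.dd (1 / 4) T := by ring

/-- the decay profile -/
noncomputable def dp (y : ℝ) : ℝ := (1 + |y|) ^ (-(5 / 4) : ℝ)

lemma dp_pos (y : ℝ) : 0 < dp y := by unfold dp; positivity

lemma dp_le (y : ℝ) : dp y ≤ 1 := by
  unfold dp
  apply Real.rpow_le_one_of_one_le_of_nonpos (by linarith [abs_nonneg y]) (by norm_num)

lemma dp_cont : Continuous dp := by
  unfold dp
  apply Continuous.rpow_const (by fun_prop)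
  intro x
  left
  have := abs_nonneg x
  linarith

/-- the majorant -/
noncomputable def Mp (T t : ℝ) : ℝ :=
  ∑ᶠ s ∈ ZZ T, (mu s : ℝ) * Real.exp (-(s.im - t) ^ 2 / 2) * dp (Real.log T * (s.im - t))

lemma Mp_eq {T : ℝ} (hT : 1 ≤ T) (t : ℝ) : Mp T t = ∑ s ∈ (ZZf hT).toFinset,
    (mu s : ℝ) * Real.exp (-(s.im - t) ^ 2 / 2) * dp (Real.log T * (s.im - t)) :=
  finsum_mem_eq_finite_toFinset_sum _ (ZZf hT)

lemma Mp_nonneg {T : ℝ} (hT : 1 ≤ T) (t : ℝ) : 0 ≤ Mp T t := by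
  rw [Mp_eq hT]
  refine Finset.sum_nonneg fun s _ => ?_
  have := dp_pos (Real.log T * (s.im - t))
  positivity

lemma Mp_cont {T : ℝ} (hT : 1 ≤ T) : Continuous (Mp T) := by
  have : Mp T = fun t => ∑ s ∈ (ZZf hT).toFinset,
    (mu s : ℝ) * Real.exp (-(s.im - t) ^ 2 / 2) * dp (Real.log T * (s.im - t)) :=
    funext (Mp_eq hT)
  rw [this]
  refine continuous_finsetSum _ fun s _ => ?_
  exact Continuous.mul (by fun_prop) (dp_cont.comp (by fun_prop))

/-- the integer weights -/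
lemma dp_summable : Summable (fun i : ℤ => dp i) := by
  have h4 : Summable (fun n : ℕ => (n : ℝ) ^ (-(5 / 4) : ℝ)) :=
    Real.summable_nat_rpow.2 (by norm_num)
  have h5 := (summable_nat_add_iff 1).2 h4
  rw [summable_int_iff_summable_nat_and_neg]
  constructor
  · refine h5.congr fun n => ?_
    unfold dp
    rw [Int.cast_natCast, abs_of_nonneg (Nat.cast_nonneg n)]
    push_cast
    rw [add_comm]
  · refine h5.congr fun n => ?_
    unfold dp
    rw [Int.cast_neg, Int.cast_natCast, abs_neg, abs_of_nonneg (Nat.cast_nonneg n)]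
    push_cast
    rw [add_comm]

lemma dp_round {y : ℝ} {i : ℤ} (h : |y - i| ≤ 1 / 2) :
    dp y ≤ (5 / 2) * dp i * (1 + (y - i) ^ 2)⁻¹ := by
  have h1 : 1 + |(i : ℝ)| ≤ 3 / 2 * (1 + |y|) := by
    have h2 : |(i : ℝ)| ≤ |y| + |y - i| := by
      have := abs_sub_abs_le_abs_sub (i : ℝ) y
      rw [abs_sub_comm] at this
      linarith
    have := abs_nonneg y
    linarith
  have h3 : dp y ≤ 2 * dp i := by
    unfold dp
    have hi := abs_nonneg (i : ℝ)
    have hy := abs_nonneg y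
    have h4 : (3 / 2 * (1 + |y|)) ^ (-(5 / 4) : ℝ) ≤ (1 + |(i : ℝ)|) ^ (-(5 / 4) : ℝ) :=
      Real.rpow_le_rpow_of_nonpos (by linarith) h1 (by norm_num)
    rw [Real.mul_rpow (by norm_num) (by linarith)] at h4
    have h5 : (1 / 2 : ℝ) ≤ (3 / 2 : ℝ) ^ (-(5 / 4) : ℝ) := by
      have h6 : (3 / 2 : ℝ) ^ (-(5 / 4) : ℝ) ≥ (3 / 2 : ℝ) ^ (-(3 / 2) : ℝ) :=
        Real.rpow_le_rpow_of_exponent_le (by norm_num) (by norm_num)
      have h7 : (1 / 2 : ℝ) ≤ (3 / 2 : ℝ) ^ (-(3 / 2) : ℝ) := by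
        have h8 : ((3 / 2 : ℝ) ^ (-(3 / 2) : ℝ)) ^ 2 = 8 / 27 := by
          rw [← Real.rpow_natCast, ← Real.rpow_mul (by norm_num)]
          rw [show (-(3 / 2) : ℝ) * ((2 : ℕ) : ℝ) = ((-3 : ℤ) : ℝ) by norm_num, Real.rpow_intCast]
          norm_num
        have h9 : (0 : ℝ) ≤ (3 / 2 : ℝ) ^ (-(3 / 2) : ℝ) := by positivity
        nlinarith
      linarith
    have h10 : (1 / 2 : ℝ) * (1 + |y|) ^ (-(5 / 4) : ℝ) ≤
        (3 / 2 : ℝ) ^ (-(5 / 4) : ℝ) * (1 + |y|) ^ (-(5 / 4) : ℝ) :=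
      mul_le_mul_of_nonneg_right h5 (by positivity)
    linarith
  have h4 : (4 / 5 : ℝ) ≤ (1 + (y - i) ^ 2)⁻¹ := by
    rw [show (4 / 5 : ℝ) = (5 / 4)⁻¹ by norm_num]
    apply inv_anti₀ (by positivity)
    have : (y - i) ^ 2 ≤ (1 / 2) ^ 2 := by
      rw [← sq_abs]
      exact pow_le_pow_left₀ (abs_nonneg _) h 2
    linarith
  have hdi := dp_pos (i : ℝ)
  calc dp y ≤ 2 * dp i := h3
    _ = (5 / 2) * dp i * (4 / 5) := by ring
    _ ≤ _ := mul_le_mul_of_nonneg_left h4 (by positivity)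

lemma dp_mul_le {C : ℝ} {T : ℝ} (hT : 10 ≤ T)
    (hC : ∀ t : ℝ, ∑ᶠ s ∈ ZZ T, (mu s : ℝ) * Real.exp (-(s.im - t) ^ 2 / 2) ≤ C * Real.log T)
    (t : ℝ) : Mp T t ≤ C + 5 * ∑ i ∈ Finset.Icc (-((⌈Real.log T⌉₊ : ℤ) + 1)) ((⌈Real.log T⌉₊ : ℤ) + 1),
      dp i * Mk T 1 (t + i / Real.log T) := by
  have hT1 : 1 ≤ T := by linarith
  have hT0 : 0 < T := by linarith
  set L := Real.log T with hL
  have hL1 : 1 ≤ L := by
    rw [hL, Real.le_log_iff_exp_le hT0]
    have := Real.exp_one_lt_d9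
    linarith
  have hL0 : 0 < L := by linarith
  set n : ℤ := (⌈L⌉₊ : ℤ) + 1 with hn
  have hnL : L + 1 ≤ (n : ℝ) := by
    have := Nat.le_ceil L
    rw [hn]; push_cast; linarith
  have hdpL : dp L ≤ 1 / L := by
    unfold dp
    have h1 : (1 + |L|) ^ (-(5 / 4) : ℝ) ≤ (1 + |L|) ^ (-1 : ℝ) :=
      Real.rpow_le_rpow_of_exponent_le (by linarith [abs_nonneg L]) (by norm_num)
    refine h1.trans ?_
    rw [Real.rpow_neg_one, one_div]
    apply inv_anti₀ hL0
    rw [abs_of_pos hL0]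
    linarith
  rw [Mp_eq hT1]
  have key : ∀ s ∈ (ZZf hT1).toFinset, (mu s : ℝ) * Real.exp (-(s.im - t) ^ 2 / 2) *
      dp (L * (s.im - t)) ≤ (1 / L) * ((mu s : ℝ) * Real.exp (-(s.im - t) ^ 2 / 2)) +
      5 * ∑ i ∈ Finset.Icc (-n) n, dp i * ((mu s : ℝ) *
        Real.exp (-(s.im - (t + i / L)) ^ 2 / 2) /
          (1 + (L * (s.im - (t + i / L)) / 1) ^ 2)) := by
    intro s _
    have hpos : ∀ i ∈ Finset.Icc (-n) n, 0 ≤ dp i * ((mu s : ℝ) *
        Real.exp (-(s.im - (t + i / L)) ^ 2 / 2) /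
          (1 + (L * (s.im - (t + i / L)) / 1) ^ 2)) := fun i _ => by
      have := (dp_pos (i : ℝ)).le
      positivity
    have hA : 0 ≤ (1 / L) * ((mu s : ℝ) * Real.exp (-(s.im - t) ^ 2 / 2)) := by positivity
    set y := L * (s.im - t) with hy
    rcases le_or_gt |y| L with h | h
    · set i := round y with hi
      have h1 : |y - i| ≤ 1 / 2 := abs_sub_round y
      have h2 : i ∈ Finset.Icc (-n) n := by
        have h3 : |(i : ℝ)| ≤ |y| + |y - i| := by
          have := abs_sub_abs_le_abs_sub (i : ℝ) y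
          rw [abs_sub_comm] at this
          linarith
        have h4 : |(i : ℝ)| ≤ n := by linarith
        rw [abs_le] at h4
        rw [Finset.mem_Icc]
        exact ⟨by exact_mod_cast h4.1, by exact_mod_cast h4.2⟩
      have h3 := Finset.single_le_sum hpos h2
      refine le_trans ?_ (le_add_of_nonneg_left hA)
      refine le_trans ?_ (mul_le_mul_of_nonneg_left h3 (by norm_num))
      have h4 : s.im - (t + i / L) = (y - i) / L := by
        rw [hy]; field_simp; ring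
      have h5 : L * (s.im - (t + i / L)) / 1 = y - i := by
        rw [h4]; field_simp
      rw [h5, h4]
      have h6 : 1 / 2 ≤ Real.exp (-((y - i) / L) ^ 2 / 2) := by
        have g1 := Real.add_one_le_exp (-((y - i) / L) ^ 2 / 2)
        have g2 : ((y - i) / L) ^ 2 ≤ 1 := by
          rw [div_pow, div_le_one (by positivity)]
          have : (y - i) ^ 2 ≤ (1 / 2) ^ 2 := by
            rw [← sq_abs]
            exact pow_le_pow_left₀ (abs_nonneg _) h1 2
          nlinarith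
        linarith
      have h7 : Real.exp (-(s.im - t) ^ 2 / 2) ≤ 1 := by
        rw [Real.exp_le_one_iff]
        have := sq_nonneg (s.im - t)
        linarith
      have h8 := dp_round h1
      have hdi := (dp_pos (i : ℝ)).le
      have h9 : Real.exp (-(s.im - t) ^ 2 / 2) * dp y ≤
          5 * (dp i * (Real.exp (-((y - i) / L) ^ 2 / 2) / (1 + (y - i) ^ 2))) := by
        calc Real.exp (-(s.im - t) ^ 2 / 2) * dp y ≤ 1 * ((5 / 2) * dp i * (1 + (y - i) ^ 2)⁻¹) :=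
              mul_le_mul h7 h8 (dp_pos y).le (by norm_num)
          _ = 5 * (dp i * ((1 / 2) / (1 + (y - i) ^ 2))) := by
              rw [div_eq_mul_inv (1 / 2 : ℝ)]; ring
          _ ≤ _ := by gcongr
      calc (mu s : ℝ) * Real.exp (-(s.im - t) ^ 2 / 2) * dp y =
          (mu s : ℝ) * (Real.exp (-(s.im - t) ^ 2 / 2) * dp y) := by ring
        _ ≤ (mu s : ℝ) * (5 * (dp i * (Real.exp (-((y - i) / L) ^ 2 / 2) / (1 + (y - i) ^ 2)))) :=
            mul_le_mul_of_nonneg_left h9 (Nat.cast_nonneg _)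
        _ = _ := by ring
    · have h1 : dp y ≤ 1 / L := by
        refine le_trans ?_ hdpL
        unfold dp
        apply Real.rpow_le_rpow_of_nonpos (by positivity) _ (by norm_num)
        rw [abs_of_pos hL0]
        linarith
      have h2 : 0 ≤ 5 * ∑ i ∈ Finset.Icc (-n) n, dp i * ((mu s : ℝ) *
        Real.exp (-(s.im - (t + i / L)) ^ 2 / 2) /
          (1 + (L * (s.im - (t + i / L)) / 1) ^ 2)) :=
        mul_nonneg (by norm_num) (Finset.sum_nonneg hpos)
      refine le_trans ?_ (le_add_of_nonneg_right h2)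
      rw [mul_comm (1 / L)]
      exact mul_le_mul_of_nonneg_left h1 (by positivity)
  refine (Finset.sum_le_sum key).trans ?_
  rw [Finset.sum_add_distrib, ← Finset.mul_sum, ← Finset.mul_sum, Finset.sum_comm]
  apply add_le_add
  · have h1 : ∑ s ∈ (ZZf hT1).toFinset, (mu s : ℝ) * Real.exp (-(s.im - t) ^ 2 / 2) =
        ∑ᶠ s ∈ ZZ T, (mu s : ℝ) * Real.exp (-(s.im - t) ^ 2 / 2) :=
      (finsum_mem_eq_finite_toFinset_sum _ (ZZf hT1)).symm
    rw [h1]
    calc 1 / L * ∑ᶠ s ∈ ZZ T, (mu s : ℝ) * Real.exp (-(s.im - t) ^ 2 / 2) ≤ 1 / L * (C * L) :=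
          mul_le_mul_of_nonneg_left (hC t) (by positivity)
      _ = C := by field_simp
  · apply le_of_eq
    congr 1
    refine Finset.sum_congr rfl fun i _ => ?_
    rw [← Finset.mul_sum, Mk_eq hT1]

end Pool.Agent.R321.FA
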