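import Pool.Agent.R321.FA6
import Pool.Agent.H380R2.RG.SGN

/-! The signed polynomial `EES` as a frequency polynomial. -/

open Finset Complex

namespace Pool.Agent.R321.FA

open LG (prs fam ae yp nA EE Cn)
open SP (Par Eb PS chi)
open RGap (IsSgn sg aeS EES CnS)

lemma sg_abs {s : ℕ → ℝ} (hs : IsSgn s) (P : Par) (T : ℝ) (A : Finset ℕ) :
    |sg P s T A| = 1 := by
  unfold RGap.sg
  rw [Finset.abs_prod]
  apply Finset.prod_eq_one
  intro p _
  rcases hs (Eb P T p) with h | h <;> rw [h] <;> norm_num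

lemma aeS_abs {s : ℕ → ℝ} (hs : IsSgn s) (P : Par) (r : ℝ) (F : ℕ → ℝ) (T : ℝ) (A : Finset ℕ) :
    |aeS P r F s T A| = |ae P r F T A| := by
  unfold RGap.aeS
  rw [abs_mul, sg_abs hs, one_mul]

/-- coefficient of a pair -/
noncomputable def aqS (P : Par) (r : ℝ) (F s : ℕ → ℝ) (T : ℝ) (q : Finset ℕ × Finset ℕ) : ℝ :=
  aeS P r F s T q.1 * aeS P r F s T q.2

noncomputable def eS (P : Par) (B0 : ℕ) (r : ℝ) (F s : ℕ → ℝ) (T : ℝ) : Al :=
  ∑ q ∈ prs P B0 T, AddMonoidAlgebra.single (vv q) (aqS P r F s T q)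

noncomputable def eSb (P : Par) (B0 : ℕ) (r : ℝ) (F s : ℕ → ℝ) (T : ℝ) : Al :=
  ∑ q ∈ prs P B0 T, AddMonoidAlgebra.single (-vv q) (aqS P r F s T q)

/-- the weight `|E|²` -/
noncomputable def wS (P : Par) (B0 : ℕ) (r : ℝ) (F s : ℕ → ℝ) (T : ℝ) : Al :=
  eS P B0 r F s T * eSb P B0 r F s T

lemma ev_eS (P : Par) (B0 : ℕ) (r : ℝ) (F s : ℕ → ℝ) (T t : ℝ) :
    ev t (eS P B0 r F s T) = EES P B0 r F s T t := by
  unfold eS RGap.EES
  rw [map_sum]
  refine Finset.sum_congr rfl fun q hq => ?_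
  rw [ev_single, fr_vv hq, mul_comm I]
  rfl

lemma ev_eSb (P : Par) (B0 : ℕ) (r : ℝ) (F s : ℕ → ℝ) (T t : ℝ) :
    ev t (eSb P B0 r F s T) = (starRingEnd ℂ) (EES P B0 r F s T t) := by
  unfold eSb RGap.EES
  rw [map_sum, map_sum]
  refine Finset.sum_congr rfl fun q hq => ?_
  rw [ev_single, fr_neg, fr_vv hq, map_mul, conj_ofReal, ← Complex.exp_conj, map_mul, conj_I,
    conj_ofReal]
  congr 2
  push_cast
  ring

lemma ev_wS (P : Par) (B0 : ℕ) (r : ℝ) (F s : ℕ → ℝ) (T t : ℝ) :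
    ev t (wS P B0 r F s T) = ((‖EES P B0 r F s T t‖ ^ 2 : ℝ) : ℂ) := by
  unfold wS
  rw [map_mul, ev_eS, ev_eSb, Complex.mul_conj']
  push_cast
  rfl

lemma eS_coeff (P : Par) (B0 : ℕ) (r : ℝ) (F s : ℕ → ℝ) (T : ℝ) (e : G) :
    (eS P B0 r F s T).coeff e = 0 ∨ ∃ q ∈ prs P B0 T, vv q = e ∧
      (eS P B0 r F s T).coeff e = aqS P r F s T q := by
  classical
  unfold eS
  rw [AddMonoidAlgebra.coeff_sum, Finsupp.finsetSum_apply]
  simp only [AddMonoidAlgebra.coeff_single, Finsupp.single_apply]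
  by_cases h : ∃ q ∈ prs P B0 T, vv q = e
  · obtain ⟨q, hq, he⟩ := h
    right
    refine ⟨q, hq, he, ?_⟩
    rw [Finset.sum_eq_single_of_mem q hq, if_pos he]
    intro q' hq' hne
    rw [if_neg]
    intro he'
    exact hne (vv_inj (mem_prs.1 hq').2.2 (mem_prs.1 hq).2.2 (he'.trans he.symm))
  · left
    apply Finset.sum_eq_zero
    intro q hq
    rw [if_neg]
    intro he
    exact h ⟨q, hq, he⟩

lemma eSb_eq (P : Par) (B0 : ℕ) (r : ℝ) (F s : ℕ → ℝ) (T : ℝ) :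
    eSb P B0 r F s T = eS P B0 r F s T := by
  unfold eS eSb
  refine Finset.sum_bij' (fun q _ => (q.2, q.1)) (fun q _ => (q.2, q.1)) (fun q hq => prs_swap hq)
    (fun q hq => prs_swap hq) (fun q _ => rfl) (fun q _ => rfl) (fun q _ => ?_)
  rw [vv_neg]
  congr 1
  unfold aqS
  rw [mul_comm]

/-- domination of the coefficients of `E` -/
lemma eS_dom {P : Par} {B0 : ℕ} {r : ℝ} {F s : ℕ → ℝ} {T : ℝ} {S : Finset ℕ} {v : ℕ → ℝ} {KF : ℝ}
    (hs : IsSgn s) (hKF : ∀ n ≤ B0, |F n| ≤ KF) (hKF0 : 0 ≤ KF) (hv : ∀ p, 0 ≤ v p)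
    (hy : ∀ p ∈ PS P T, |yp P r T p| ≤ v p) (hS : PS P T ⊆ S) :
    Dom S v (2 * B0) (KF ^ 2) (eS P B0 r F s T).coeff := by
  have hcard : ∀ A ∈ fam P B0 T, A.card ≤ B0 := by
    intro A hA
    obtain ⟨h1, h2⟩ := LG.MomA.mem_fam.1 hA
    refine le_trans ?_ h2
    unfold LG.MomA.en
    rw [Finset.card_eq_sum_ones]
    refine Finset.sum_le_sum fun p hp => ?_
    have := (LG.MomA.prime_of_mem (h1 hp)).2
    omega
  have hae : ∀ A ∈ fam P B0 T, |aeS P r F s T A| ≤ KF * ∏ p ∈ A, v p := by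
    intro A hA
    obtain ⟨h1, h2⟩ := LG.MomA.mem_fam.1 hA
    rw [aeS_abs hs]
    unfold LG.ae
    rw [abs_mul, Finset.abs_prod]
    apply mul_le_mul (hKF _ h2) _ (Finset.prod_nonneg fun _ _ => abs_nonneg _) hKF0
    exact Finset.prod_le_prod (fun _ _ => abs_nonneg _) fun p hp => hy p (h1 hp)
  intro e
  rcases eS_coeff P B0 r F s T e with h | ⟨q, hq, rfl, h⟩
  · rw [h, abs_zero]
    exact ⟨mul_nonneg (sq_nonneg _) (mw_nonneg hv _), fun h' => absurd rfl h'⟩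
  · obtain ⟨h1, h2, h3⟩ := mem_prs.1 hq
    rw [h]
    constructor
    · unfold aqS
      rw [abs_mul, vv_mw v h3]
      calc |aeS P r F s T q.1| * |aeS P r F s T q.2| ≤ (KF * ∏ p ∈ q.1, v p) * (KF * ∏ p ∈ q.2, v p) :=
            mul_le_mul (hae _ h1) (hae _ h2) (abs_nonneg _)
              (mul_nonneg hKF0 (Finset.prod_nonneg fun _ _ => hv _))
        _ = _ := by ring
    · intro _
      constructor
      · rw [vv_len h3]
        have := hcard _ h1
        have := hcard _ h2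
        omega
      · rw [vv_supp h3]
        exact Finset.union_subset ((LG.MomA.mem_fam.1 h1).1.trans hS)
          ((LG.MomA.mem_fam.1 h2).1.trans hS)

/-- heights of `E` -/
lemma eS_ht {P : Par} {B0 B1 : ℕ} {r : ℝ} {F s : ℕ → ℝ} {T : ℝ} (hB : P.B = 2 * B0) (hT : 10 ≤ T)
    (hF : ∀ n, B1 < n → F n = 0) (e : G) (he : (eS P B0 r F s T).coeff e ≠ 0) :
    hp e ≤ B1 * ((1 - P.κ) * Real.log T / (2 * B0)) ∧
    hn e ≤ B1 * ((1 - P.κ) * Real.log T / (2 * B0)) := by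
  have hL : 0 < Real.log T := Real.log_pos (by linarith)
  have hκ1 := P.hκ1
  have hw : 0 ≤ (1 - P.κ) * Real.log T / (2 * B0) := by
    apply div_nonneg (mul_nonneg (by linarith) hL.le) (by positivity)
  have key : ∀ A : Finset ℕ, aeS P r F s T A ≠ 0 →
      ∑ p ∈ A, Real.log p ≤ B1 * ((1 - P.κ) * Real.log T / (2 * B0)) := by
    intro A hA
    have h1 : F (∑ p ∈ A, Eb P T p) ≠ 0 := by
      unfold RGap.aeS LG.ae at hA
      exact left_ne_zero_of_mul (right_ne_zero_of_mul hA)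
    have h2 : ∑ p ∈ A, Eb P T p ≤ B1 := by
      by_contra h
      exact h1 (hF _ (not_le.1 h))
    calc ∑ p ∈ A, Real.log p ≤ ∑ p ∈ A, (Eb P T p : ℝ) * ((1 - P.κ) * Real.log T / (2 * B0)) :=
          Finset.sum_le_sum fun p _ => LG.log_le_Eb P B0 hB T hT p
      _ = ((∑ p ∈ A, Eb P T p : ℕ) : ℝ) * ((1 - P.κ) * Real.log T / (2 * B0)) := by
          rw [← Finset.sum_mul]; push_cast; rfl
      _ ≤ _ := by
          apply mul_le_mul_of_nonneg_right _ hw
          exact_mod_cast h2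
  rcases eS_coeff P B0 r F s T e with h | ⟨q, hq, rfl, h⟩
  · exact absurd h he
  · obtain ⟨h1, h2, h3⟩ := mem_prs.1 hq
    rw [h] at he
    unfold aqS at he
    rw [vv_hp h3, vv_hn h3]
    exact ⟨key _ (right_ne_zero_of_mul he), key _ (left_ne_zero_of_mul he)⟩

/-- heights of `w` when `F` is supported below `B0/2` -/
lemma wS_ht {P : Par} {B0 B1 : ℕ} {r : ℝ} {F s : ℕ → ℝ} {T : ℝ} (hB : P.B = 2 * B0) (hT : 10 ≤ T)
    (hB1 : 2 * B1 ≤ B0) (hF : ∀ n, B1 < n → F n = 0) (e : G)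
    (he : (wS P B0 r F s T).coeff e ≠ 0) :
    hp e ≤ (1 - P.κ) / 2 * Real.log T ∧ hn e ≤ (1 - P.κ) / 2 * Real.log T := by
  have hL : 0 < Real.log T := Real.log_pos (by linarith)
  have hκ1 := P.hκ1
  have hPB := P.hB
  have hB0 : 0 < B0 := by omega
  have hB0' : (0 : ℝ) < B0 := by exact_mod_cast hB0
  have h1 := eS_ht (r := r) (s := s) hB hT hF
  unfold wS at he
  rw [eSb_eq] at he
  have h2 := mul_ht h1 h1 e he
  have h3 : (B1 : ℝ) * ((1 - P.κ) * Real.log T / (2 * B0)) +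
      (B1 : ℝ) * ((1 - P.κ) * Real.log T / (2 * B0)) ≤ (1 - P.κ) / 2 * Real.log T := by
    have h4 : (2 * B1 : ℝ) ≤ B0 := by exact_mod_cast hB1
    have h5 : 0 ≤ (1 - P.κ) * Real.log T / (2 * B0) := by
      apply div_nonneg (mul_nonneg (by linarith) hL.le) (by positivity)
    calc _ = (2 * B1 : ℝ) * ((1 - P.κ) * Real.log T / (2 * B0)) := by ring
      _ ≤ (B0 : ℝ) * ((1 - P.κ) * Real.log T / (2 * B0)) := mul_le_mul_of_nonneg_right h4 h5
      _ = _ := by field_simp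
  exact ⟨h2.1.trans h3, h2.2.trans h3⟩

/-! ### the coefficients of `w` -/

lemma wS_coeff (P : Par) (B0 : ℕ) (r : ℝ) (F s : ℕ → ℝ) (T : ℝ) (e : G) :
    (wS P B0 r F s T).coeff e = ∑ q ∈ prs P B0 T, ∑ q' ∈ prs P B0 T,
      if vv q - vv q' = e then aqS P r F s T q * aqS P r F s T q' else 0 := by
  classical
  unfold wS eS eSb
  rw [Finset.sum_mul_sum, AddMonoidAlgebra.coeff_sum, Finsupp.finsetSum_apply]
  refine Finset.sum_congr rfl fun q _ => ?_
  rw [AddMonoidAlgebra.coeff_sum, Finsupp.finsetSum_apply]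
  refine Finset.sum_congr rfl fun q' _ => ?_
  rw [AddMonoidAlgebra.single_mul_single, AddMonoidAlgebra.coeff_single, Finsupp.single_apply,
    sub_eq_add_neg]

lemma wS_Cn (P : Par) (B0 : ℕ) (r : ℝ) (F s : ℕ → ℝ) (T : ℝ) {p : ℕ} (hp : p.Prime) (k : ℕ) :
    (wS P B0 r F s T).coeff (k • ds p) = CnS P B0 r F s T (p ^ k) := by
  classical
  rw [wS_coeff]
  unfold RGap.CnS
  refine Finset.sum_congr rfl fun q hq => Finset.sum_congr rfl fun q' hq' => ?_
  obtain ⟨h1, h2, -⟩ := mem_prs.1 hq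
  obtain ⟨h3, h4, -⟩ := mem_prs.1 hq'
  have pr : ∀ A ∈ fam P B0 T, ∀ l ∈ A, l.Prime := fun A hA l hl =>
    (LG.MomA.prime_of_mem ((LG.MomA.mem_fam.1 hA).1 hl)).1
  have ne : ∀ A ∈ fam P B0 T, nA A ≠ 0 := fun A hA => by
    have := LG.nA_pos P B0 T A hA
    omega
  have hiff : (vv q - vv q' = k • ds p) ↔ nA q.2 * nA q'.1 = p ^ k * (nA q.1 * nA q'.2) := by
    have e1 : nA q.2 * nA q'.1 = p ^ k * (nA q.1 * nA q'.2) ↔
        (nA q.2 * nA q'.1).factorization = (p ^ k * (nA q.1 * nA q'.2)).factorization := by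
      constructor
      · intro h; rw [h]
      · intro h
        exact Nat.eq_of_factorization_eq (mul_ne_zero (ne _ h2) (ne _ h3))
          (mul_ne_zero (pow_ne_zero _ hp.ne_zero) (mul_ne_zero (ne _ h1) (ne _ h4)))
          (fun l => by rw [h])
    rw [e1, Nat.factorization_mul (ne _ h2) (ne _ h3), Nat.factorization_mul
      (pow_ne_zero _ hp.ne_zero) (mul_ne_zero (ne _ h1) (ne _ h4)),
      Nat.factorization_mul (ne _ h1) (ne _ h4), Nat.factorization_pow, hp.factorization]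
    constructor
    · intro h
      ext l
      have h5 := DFunLike.congr_fun h l
      simp only [Finsupp.sub_apply, vv_apply, Finsupp.smul_apply, ds, Finsupp.single_apply] at h5
      simp only [Finsupp.add_apply, nA_fact (pr _ h1), nA_fact (pr _ h2), nA_fact (pr _ h3),
        nA_fact (pr _ h4), Finsupp.smul_apply, Finsupp.single_apply, smul_eq_mul]
      simp only [nsmul_eq_mul] at h5
      split_ifs at h5 ⊢ <;> push_cast at h5 <;> omega
    · intro h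
      ext l
      have h5 := DFunLike.congr_fun h l
      simp only [Finsupp.sub_apply, vv_apply, Finsupp.smul_apply, ds, Finsupp.single_apply]
      simp only [Finsupp.add_apply, nA_fact (pr _ h1), nA_fact (pr _ h2), nA_fact (pr _ h3),
        nA_fact (pr _ h4), Finsupp.smul_apply, Finsupp.single_apply, smul_eq_mul] at h5
      simp only [nsmul_eq_mul]
      split_ifs at h5 ⊢ <;> push_cast <;> omega
  unfold aqS
  by_cases h : vv q - vv q' = k • ds p
  · rw [if_pos h, if_pos (hiff.1 h)]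
  · rw [if_neg h, if_neg (fun h' => h (hiff.2 h'))]

lemma wS_zero (P : Par) (B0 : ℕ) (r : ℝ) (F s : ℕ → ℝ) (T : ℝ) :
    (wS P B0 r F s T).coeff 0 = CnS P B0 r F s T 1 := by
  have h := wS_Cn P B0 r F s T Nat.prime_two 0
  rwa [zero_smul, pow_zero] at h

/-- the coefficient at a large prime power vanishes -/
lemma CnS_big {P : Par} {B0 B1 : ℕ} {r : ℝ} {F s : ℕ → ℝ} {T : ℝ} (hB : P.B = 2 * B0) (hT : 10 ≤ T)
    (hB1 : 2 * B1 ≤ B0) (hF : ∀ n, B1 < n → F n = 0) {p k : ℕ} (hp : p.Prime)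
    (hn : (1 - P.κ) / 2 * Real.log T < Real.log ((p ^ k : ℕ) : ℝ)) :
    CnS P B0 r F s T (p ^ k) = 0 := by
  rw [← wS_Cn P B0 r F s T hp]
  by_contra h
  have h1 := (wS_ht hB hT hB1 hF _ h).1
  rw [hp_nsmul_ds] at h1
  push_cast at hn
  rw [Real.log_pow] at hn
  linarith

end Pool.Agent.R321.FA
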