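import Pool.Agent.R321.FD9

/-! Small `k`-gaps in almost all windows. -/

open Finset Complex MeasureTheory Filter Topology

namespace Pool.Agent.R321.FA

open LG (lk bk Cn EE Zs yp SF SM sm sm0 tm IsQ gK prs fam nA ae)
open SP (Par RHs PS Eb ZZ Mk)
open RGap (IsSgn sg aeS EES CnS LM)

lemma winSr_comb {a0 ρ Av Gv b0 C J e1 C3 M1 M2 k : ℝ} (hk : 1 ≤ k)
    (hb0a : k * a0 + 3 * ρ ≤ b0) (hup : J ≤ k * Av + e1 * M1 + C3 * M2)
    (hlow : Gv - J ≤ C * (Av + 1)) (c1 : C * (a0 + 1) ≤ ρ) (c2 : C ≤ 1) (c3 : 0 ≤ C) :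
    2 * ρ ≤ (k + 1) * |Av - a0| + |Gv - b0| + (e1 * M1 + C3 * M2) := by
  have x1 := le_abs_self (Av - a0)
  have y2 := neg_abs_le (Gv - b0)
  have d1 : C * (Av - a0) ≤ |Av - a0| := by
    calc C * (Av - a0) ≤ C * |Av - a0| := mul_le_mul_of_nonneg_left (le_abs_self _) c3
      _ ≤ 1 * |Av - a0| := mul_le_mul_of_nonneg_right c2 (abs_nonneg _)
      _ = _ := one_mul _
  have d4 : C * (Av + 1) = C * (Av - a0) + C * (a0 + 1) := by ring
  have d5 : k * (Av - a0) ≤ k * |Av - a0| := mul_le_mul_of_nonneg_left x1 (by linarith)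
  linarith

lemma div_aux {ρ x y k : ℝ} (hk : 1 ≤ k) (hx : 0 ≤ x) (hy : 0 ≤ y) (h : ρ ≤ (k + 1) * x + y) :
    ρ / (k + 1) ≤ 2 * x + y := by
  rw [div_le_iff₀ (by linarith)]
  have h1 : 0 ≤ (k + 1) * x := mul_nonneg (by linarith) hx
  have h2 : 0 ≤ k * y := mul_nonneg (by linarith) hy
  linarith

set_option maxHeartbeats 4000000 in
/-- **windows without small `k`-gaps are rare** -/
theorem winSr (hRH : RHs) (P : Par) (B0 B1 : ℕ) (hB : P.B = 2 * B0) (hB1 : 2 * B1 ≤ B0) (r : ℝ)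
    (hr : 0 < r) (F q s : ℕ → ℝ) (hs : IsSgn s) (hF : ∀ n, B1 < n → F n = 0)
    (hq : IsQ B0 (tm P r) q) (k : ℕ) (c : ℝ) (hk : 1 ≤ k)
    (hc : 0 < c) (hSF : 0 < SF B0 F q)
    (hstrict : (k - c) * SF B0 F q < -LM P B0 r F q s c) :
    ∃ η : ℝ, 0 < η ∧ 2 * η < c ∧ ∀ ε : ℝ, 0 < ε → ∃ b X T0 : ℝ, 0 < b ∧ 1 ≤ X ∧ 10 ≤ T0 ∧
      ∀ T : ℝ, T0 ≤ T → ∃ Φ : ℝ → ℝ, Continuous Φ ∧ (∀ t, 0 ≤ Φ t) ∧
      T + 2 * Real.log T ^ 3 ≤ 2 * T - 2 * Real.log T ^ 3 ∧
      (∀ t0, T + 2 * Real.log T ^ 3 ≤ t0 → t0 ≤ 2 * T - 2 * Real.log T ^ 3 →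
        (∀ t, |t - t0| ≤ X / (b * Real.log T) →
          RGap.NN (Real.pi * (c - η) / Real.log T) t ≤ k) → 1 ≤ Φ t0) ∧
      ∫ t0 in (T + 2 * Real.log T ^ 3)..(2 * T - 2 * Real.log T ^ 3), Φ t0 ≤ ε * T := by
  classical
  have hpi := Real.pi_pos
  have hkr : (1 : ℝ) ≤ k := by exact_mod_cast hk
  obtain ⟨η, δ, A1, hη, hηc', hδ, hA1, hpar⟩ := RGap.PARC_proof P B0 r F q (fun m => -s m) c
    (k - c) (c / 4) (by positivity) (by rw [RGap.LM_neg]; exact hstrict)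
  have hηc : 2 * η < c := by linarith
  refine ⟨η, hη, hηc, fun ε hε => ?_⟩
  set S0 := SF B0 F q with hS0
  have hc1 : 0 < c - 2 * η := by linarith
  have hc01 : c - 2 * η < c - η := by linarith
  have hc0 : 0 < c - η := by linarith
  set a0 := S0 ^ 2 with ha0
  set ρ := δ * S0 with hρ
  have hρ0 : 0 < ρ := by positivity
  -- second moments
  obtain ⟨K0, TW, hK0, hTW, hWsq⟩ := WS_sq P B0 B1 hB hB1 r F s hs hF _ _
    (RGap.COMBS_main P B0 hB r hr F q s hs hq 1 1 one_pos one_pos).1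
    (RGap.COMBS_main P B0 hB r hr F q s hs hq 1 1 one_pos one_pos).2
  obtain ⟨KW, TM, hKW, hTM, hWM⟩ := WSM_mean hRH P B0 r F s hK0 hTW hWsq
  obtain ⟨TB, hTB, hWMle⟩ := WSM_le P B0 hB r F s hs
  set e1 := ρ * ε / (8 * (KW + 1)) with he1
  have he10 : 0 < e1 := by positivity
  obtain ⟨A0, hA0, hzup⟩ := RGap.ZUP_proof (c - 2 * η) (c - η) e1 hc1 hc01 he10
  set A := max A0 A1 with hA
  have hApos : 0 < A := lt_of_lt_of_le hA0 (le_max_left _ _)
  have hst := hpar A (c - 2 * η) (le_max_right _ _) (by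
    rw [show c - 2 * η - c = -(2 * η) by ring, abs_neg, abs_of_pos (by positivity)])
  obtain ⟨TZ, hTZ, hzupA⟩ := hzup A (le_max_left _ _)
  obtain ⟨C3, hC3, hbd⟩ := gK_bd A (c - 2 * η) hApos hc1
  set U1 := ∑ m ∈ Finset.Icc 2 B0, s m * (sm P A (c - 2 * η) m * SM B0 F q m) with hU1
  have hU1' : ∑ m ∈ Finset.Icc 2 B0, (fun m => -s m) m * (sm P A (c - 2 * η) m * SM B0 F q m) =
      -U1 := by
    rw [hU1, ← Finset.sum_neg_distrib]
    exact Finset.sum_congr rfl fun m _ => by ring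
  rw [hU1'] at hst
  set d0 := 4 * r / Real.pi * (S0 * U1) with hd0
  obtain ⟨l1, l2⟩ := RGap.COMBS_main P B0 hB r hr F q s hs hq A (c - 2 * η) hApos hc1
  set b0 := (c - 2 * η) * a0 - d0 with hb0
  have hb0a : k * a0 + 3 * ρ ≤ b0 := by
    have e : b0 = S0 * ((c - 2 * η) * S0 - 4 * r / Real.pi * U1) := by rw [hb0, hd0, ha0]; ring
    rw [e]
    have e2 : k * S0 + 3 * δ ≤ (c - 2 * η) * S0 - 4 * r / Real.pi * U1 := by linarith
    calc k * a0 + 3 * ρ = S0 * (k * S0 + 3 * δ) := by rw [ha0, hρ]; ring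
      _ ≤ S0 * ((c - 2 * η) * S0 - 4 * r / Real.pi * U1) :=
          mul_le_mul_of_nonneg_left e2 hSF.le
  set ρ' := ρ / (k + 1) with hρ'
  have hρ'0 : 0 < ρ' := by positivity
  obtain ⟨Kp, hKp, hmean⟩ := PhS_mean P B0 B1 hB hB1 r F s hs hF A (c - 2 * η) hc1 a0 d0 ρ' hρ'0
    l1 l2
  have hκ := P.hκ
  have hκ1 := P.hκ1
  -- the parameters
  set b := min (P.κ / 8) (ε / (8 * Kp)) with hb
  have hbpos : 0 < b := lt_min (by positivity) (by positivity)
  have hbκ : 8 * b ≤ P.κ := by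
    have : b ≤ P.κ / 8 := min_le_left _ _
    linarith
  have hbK : Kp * b ≤ ε / 8 := by
    have h1 : b ≤ ε / (8 * Kp) := min_le_right _ _
    calc Kp * b ≤ Kp * (ε / (8 * Kp)) := mul_le_mul_of_nonneg_left h1 hKp.le
      _ = ε / 8 := by field_simp
  set X := max 1 (max (8 * Kp / ε) (16 * C3 * KW / (ρ * ε))) with hX
  have hX1 : 1 ≤ X := le_max_left _ _
  have hX0 : 0 < X := by linarith
  have hXK : Kp * (1 / X) ≤ ε / 8 := by
    have h1 : 8 * Kp / ε ≤ X := (le_max_left _ _).trans (le_max_right _ _)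
    rw [mul_one_div, div_le_iff₀ hX0]
    rw [div_le_iff₀ hε] at h1
    linarith
  have hXC : 1 / ρ * (C3 * (2 / X * KW)) ≤ ε / 8 := by
    have h1 : 16 * C3 * KW / (ρ * ε) ≤ X := (le_max_right _ _).trans (le_max_right _ _)
    rw [div_le_iff₀ (by positivity)] at h1
    have e : 1 / ρ * (C3 * (2 / X * KW)) = 2 * C3 * KW / (ρ * X) := by field_simp
    rw [e, div_le_iff₀ (by positivity)]
    linarith only [h1]
  obtain ⟨T1, hT1, hm⟩ := hmean b X hbpos hbκ hX1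
  obtain ⟨C2, T2, hC2, hT2, hloc⟩ := loc2S hRH P B0 B1 hB hB1 r F s hs hF A (c - 2 * η) b hApos
    hc1 hbpos (by linarith)
  obtain ⟨T4, hT4, hts⟩ := tail_small b 1 1 hbpos one_pos one_pos
  obtain ⟨T3, hT3⟩ := (Real.tendsto_log_atTop.eventually_ge_atTop
    (max (max 1 (8 * C3 / (ρ * ε))) (max (C2 * (a0 + 1) / ρ) (max C2 (X / b))))).exists_forall_of_atTop
  refine ⟨b, X, max (max T1 T2) (max (max T3 T4) (max (max TM TB) TZ)), hbpos, hX1,
    hT1.trans ((le_max_left _ _).trans (le_max_left _ _)), fun T hT => ?_⟩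
  simp only [max_le_iff] at hT
  obtain ⟨⟨hTT1, hTT2⟩, ⟨hTT3, hTT4⟩, ⟨hTTM, hTTB⟩, hTTZ⟩ := hT
  have hLB := hT3 T hTT3
  simp only [max_le_iff] at hLB
  obtain ⟨⟨hL1, hLe⟩, hLC, hLC2, hLX⟩ := hLB
  have hT10 := hT1.trans hTT1
  have hTone : 1 ≤ T := by linarith
  have hTpos : 0 < T := by linarith
  obtain ⟨hV, hmT⟩ := hm T hTT1
  have hlocT := hloc T hTT2
  have htsT := hts T hTT4
  have hWMT := hWM T hTTM
  have hWMb := hWMle T hTTB
  have hzT := hzupA T hTTZ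
  set L := Real.log T with hL
  have hL0 : 0 < L := by linarith
  have hβ : 0 < b * L := by positivity
  set h := X / (b * L) with hh
  have hh0 : 0 < h := by positivity
  have hL3 : 1 ≤ L ^ 3 := one_le_pow₀ hL1
  have hLL3 : L ≤ L ^ 3 := le_self_pow₀ hL1 (by norm_num)
  have hh1 : h ≤ L ^ 3 := by
    rw [hh, ← div_div, div_le_iff₀ hL0]
    calc X / b ≤ L := hLX
      _ = 1 * L := (one_mul L).symm
      _ ≤ L ^ 3 * L := mul_le_mul_of_nonneg_right hL3 hL0.le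
  have hWc := WS_cont P B0 r F s T
  have hMc := SP.ExpAux.Mk_cont hTone 1
  have hW0 := WS_nonneg P B0 r F s T
  have hM0 := SP.ExpAux.Mk_nonneg hTone 1
  have hWWc : Continuous (fun t => WS P B0 r F s T t * Mk T 1 t) := hWc.mul hMc
  have hWW0 : ∀ t, 0 ≤ WS P B0 r F s T t * Mk T 1 t := fun t => mul_nonneg (hW0 t) (hM0 t)
  set M1 : ℝ → ℝ := fun t0 => ∫ y, om (b * L) y * (WS P B0 r F s T (t0 + y) * Mk T 1 (t0 + y))
    with hM1
  set M2 : ℝ → ℝ := fun t0 => ∫ y, gT (b * L) h y * (WS P B0 r F s T (t0 + y) *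
    Mk T 1 (t0 + y)) with hM2
  have hM1c : Continuous M1 := gen_cont (om_int hβ) hWWc (M := T ^ 4 * Real.exp (L ^ 4))
    (fun t => by rw [abs_of_nonneg (hWW0 t)]; exact hWMb t)
  have hM2c : Continuous M2 := gen_cont (gT_int hβ h) hWWc (M := T ^ 4 * Real.exp (L ^ 4))
    (fun t => by rw [abs_of_nonneg (hWW0 t)]; exact hWMb t)
  have hM10 : ∀ t0, 0 ≤ M1 t0 := fun t0 =>
    integral_nonneg fun y => mul_nonneg (om_nonneg hβ y) (hWW0 _)
  have hM20 : ∀ t0, 0 ≤ M2 t0 := fun t0 =>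
    integral_nonneg fun y => mul_nonneg (gT_nonneg hβ h y) (hWW0 _)
  have hPc := PhS_cont P B0 r F s A (c - 2 * η) h a0 b0 ρ' hβ
  have hP0 := PhS_nonneg P B0 r F s A (c - 2 * η) h a0 b0 hρ'0 hβ
  set V1 := T + 2 * L ^ 3 with hV1
  set V2 := 2 * T - 2 * L ^ 3 with hV2
  have hQc : Continuous (fun t0 => 1 / ρ * (e1 * M1 t0 + C3 * M2 t0)) :=
    ((hM1c.const_mul e1).add (hM2c.const_mul C3)).const_mul _
  refine ⟨fun t0 => PhS P B0 r F s A (c - 2 * η) b h a0 b0 ρ' T t0 +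
    1 / ρ * (e1 * M1 t0 + C3 * M2 t0), hPc.add hQc, ?_, hV, ?_, ?_⟩
  · intro t0
    have g1 := mul_nonneg he10.le (hM10 t0)
    have g2 := mul_nonneg hC3.le (hM20 t0)
    have g3 : 0 ≤ 1 / ρ * (e1 * M1 t0 + C3 * M2 t0) :=
      mul_nonneg (by positivity) (add_nonneg g1 g2)
    exact add_nonneg (hP0 t0) g3
  · intro t0 ht1 ht2 hnn
    have hl := hlocT t0 ht1 ht2
    have hZ1 : ∀ t, |t - t0| ≤ h → Zs A (c - 2 * η) T t ≤ k + e1 * Mk T 1 t := by
      intro t ht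
      have g1 := hnn t ht
      rw [abs_le] at ht
      have g2 := hzT t (by linarith [ht.1]) (by linarith [ht.2])
      linarith
    have hup := pair_upS (A := A) (c := c - 2 * η) (K := k) P B0 r F s hTone hβ hh0 hh1
      (by linarith) he10.le hC3.le hWMb hZ1 (fun t => Zs_le_Mk hTone hbd t)
    have c1 : C2 / L * (a0 + 1) ≤ ρ := by
      rw [div_mul_eq_mul_div, div_le_iff₀ hL0]
      rw [div_le_iff₀ hρ0] at hLC
      linarith only [hLC]
    have c2 : C2 / L ≤ 1 := by rw [div_le_one hL0]; exact hLC2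
    have c3 : 0 ≤ C2 / L := div_nonneg hC2.le hL0.le
    rw [abs_sub_comm] at hl
    have hlow := (le_abs_self _).trans hl
    set Gv := (av (b * L) t0 (wS P B0 r F s T * pp A (c - 2 * η) T (NN P b T))).re with hGv
    set Av := AwS P B0 r F s T (b * L) t0 with hAv
    have key := winSr_comb hkr hb0a hup hlow c1 c2 c3
    have g3 := hP0 t0
    have g4 : 0 ≤ ∫ y, gT (b * L) h y * WS P B0 r F s T (t0 + y) :=
      integral_nonneg fun y => mul_nonneg (gT_nonneg hβ h y) (hW0 _)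
    by_cases hcase : ρ ≤ (k + 1) * |Av - a0| + |Gv - b0|
    · have g0 := div_aux hkr (abs_nonneg _) (abs_nonneg _) hcase
      have g1 := PhS_ge_one (P := P) (B0 := B0) (r := r) (F := F) (s := s) (a := A)
        (c := c - 2 * η) (h := h)
        (a0 := a0) (b0 := b0) hρ'0 hβ (t0 := t0) (by linarith only [g0, g4])
      have g2 : 0 ≤ 1 / ρ * (e1 * M1 t0 + C3 * M2 t0) :=
        mul_nonneg (by positivity) (add_nonneg (mul_nonneg he10.le (hM10 t0))
          (mul_nonneg hC3.le (hM20 t0)))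
      show 1 ≤ PhS P B0 r F s A (c - 2 * η) b h a0 b0 ρ' T t0 + 1 / ρ * (e1 * M1 t0 + C3 * M2 t0)
      linarith only [g1, g2]
    · push Not at hcase
      have g1 : ρ ≤ e1 * M1 t0 + C3 * M2 t0 := by
        have key' : 2 * ρ ≤ (k + 1) * |Av - a0| + |Gv - b0| + (e1 * M1 t0 + C3 * M2 t0) := key
        linarith only [key', hcase, hρ0]
      have g2 : 1 ≤ 1 / ρ * (e1 * M1 t0 + C3 * M2 t0) := by
        rw [one_div_mul_eq_div, le_div_iff₀ hρ0, one_mul]
        exact g1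
      show 1 ≤ PhS P B0 r F s A (c - 2 * η) b h a0 b0 ρ' T t0 + 1 / ρ * (e1 * M1 t0 + C3 * M2 t0)
      linarith only [g3, g2]
  · -- the means
    have hgau := gT_gauss (R := L ^ 3) hβ (by positivity)
    have hrem : (V2 - V1) * (T ^ 4 * Real.exp (L ^ 4)) * ∫ y, gT (b * L) (L ^ 3) y ≤ T * (1 / L) := by
      have e3 : 0 ≤ ∫ y, gT (b * L) (L ^ 3) y := integral_nonneg fun y => gT_nonneg hβ _ y
      have e4 : V2 - V1 ≤ T := by rw [hV1, hV2]; linarith only [hL3]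
      have e5 : T ^ 4 * Real.exp (L ^ 4) * ∫ y, gT (b * L) (L ^ 3) y ≤ 1 / L := by
        calc T ^ 4 * Real.exp (L ^ 4) * ∫ y, gT (b * L) (L ^ 3) y ≤
            T ^ 4 * Real.exp (L ^ 4) * (b * L * (4 * 1) *
              Real.exp (-((L ^ 3) ^ 2 / (4 * 1 ^ 2)))) :=
              mul_le_mul_of_nonneg_left hgau (by positivity)
          _ = (b * L * T ^ 4 * Real.exp (L ^ 4)) * (4 * 1) *
              Real.exp (-((L ^ 3) ^ 2 / (4 * 1 ^ 2))) := by ring
          _ ≤ (b * L * T ^ 4 * (1 + 2 * (1 * Real.exp (L ^ 4)))) * (4 * 1) *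
              Real.exp (-((L ^ 3) ^ 2 / (4 * 1 ^ 2))) := by
              have g1 : Real.exp (L ^ 4) ≤ 1 + 2 * (1 * Real.exp (L ^ 4)) := by
                have := Real.exp_pos (L ^ 4)
                linarith
              apply mul_le_mul_of_nonneg_right _ (Real.exp_nonneg _)
              apply mul_le_mul_of_nonneg_right _ (by norm_num)
              exact mul_le_mul_of_nonneg_left g1 (by positivity)
          _ ≤ 1 / L := htsT
      calc (V2 - V1) * (T ^ 4 * Real.exp (L ^ 4)) * ∫ y, gT (b * L) (L ^ 3) y =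
          (V2 - V1) * (T ^ 4 * Real.exp (L ^ 4) * ∫ y, gT (b * L) (L ^ 3) y) := by ring
        _ ≤ T * (1 / L) := mul_le_mul e4 e5 (by positivity) hTpos.le
    have m1 := tail_gen (β := b * L) (R := L ^ 3) (G := 1) (U1 := T + L ^ 3) (U2 := 2 * T - L ^ 3)
      (V1 := V1) (V2 := V2) (M := T ^ 4 * Real.exp (L ^ 4)) hβ (by positivity) hV
      (by rw [hV1]; linarith only) (by rw [hV2]; linarith only) (om_int hβ) (om_nonneg hβ)
      (fun y => le_rfl) (om_total hβ) hWWc hWW0 hWMb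
    have m2 := tail_gen (β := b * L) (R := L ^ 3) (G := 2 / (b * L * h)) (U1 := T + L ^ 3)
      (U2 := 2 * T - L ^ 3)
      (V1 := V1) (V2 := V2) (M := T ^ 4 * Real.exp (L ^ 4)) hβ (by positivity) hV
      (by rw [hV1]; linarith only) (by rw [hV2]; linarith only) (gT_int hβ h) (gT_nonneg hβ h)
      (gT_le hβ h) (gT_total hβ hh0) hWWc hWW0 hWMb
    have m1' : ∫ t0 in V1..V2, M1 t0 ≤ KW * T + T * (1 / L) := by
      refine m1.trans ?_
      linarith only [hWMT, hrem]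
    have m2' : ∫ t0 in V1..V2, M2 t0 ≤ 2 / X * (KW * T) + T * (1 / L) := by
      refine m2.trans ?_
      have e1 : 2 / (b * L * h) = 2 / X := by rw [hh]; field_simp
      rw [e1]
      have := mul_le_mul_of_nonneg_left hWMT (show 0 ≤ 2 / X by positivity)
      linarith only [this, hrem]
    have hint : ∫ t0 in V1..V2, (PhS P B0 r F s A (c - 2 * η) b h a0 b0 ρ' T t0 +
        1 / ρ * (e1 * M1 t0 + C3 * M2 t0)) =
        (∫ t0 in V1..V2, PhS P B0 r F s A (c - 2 * η) b h a0 b0 ρ' T t0) +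
        1 / ρ * (e1 * (∫ t0 in V1..V2, M1 t0) + C3 * ∫ t0 in V1..V2, M2 t0) := by
      rw [intervalIntegral.integral_add (hPc.intervalIntegrable _ _) (hQc.intervalIntegrable _ _),
        intervalIntegral.integral_const_mul, intervalIntegral.integral_add
        ((hM1c.const_mul e1).intervalIntegrable _ _) ((hM2c.const_mul C3).intervalIntegrable _ _),
        intervalIntegral.integral_const_mul, intervalIntegral.integral_const_mul]
    rw [hint]
    have p1 : Kp * (b + 1 / X) * T ≤ ε / 4 * T := by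
      apply mul_le_mul_of_nonneg_right _ hTpos.le
      have : Kp * (b + 1 / X) = Kp * b + Kp * (1 / X) := by ring
      linarith only [this, hbK, hXK]
    have hL1' : 1 / L ≤ 1 := by rw [div_le_one hL0]; exact hL1
    have p2 : 1 / ρ * (e1 * (∫ t0 in V1..V2, M1 t0)) ≤ ε / 8 * T := by
      calc 1 / ρ * (e1 * (∫ t0 in V1..V2, M1 t0)) ≤ 1 / ρ * (e1 * ((KW + 1) * T)) := by
            apply mul_le_mul_of_nonneg_left _ (by positivity)
            apply mul_le_mul_of_nonneg_left _ he10.le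
            have := mul_le_mul_of_nonneg_left hL1' hTpos.le
            linarith only [m1', this]
        _ = ε / 8 * T := by rw [he1]; field_simp
    have p3 : 1 / ρ * (C3 * (∫ t0 in V1..V2, M2 t0)) ≤ ε / 4 * T := by
      have e1 : 1 / ρ * (C3 * (∫ t0 in V1..V2, M2 t0)) ≤
          1 / ρ * (C3 * (2 / X * (KW * T) + T * (1 / L))) :=
        mul_le_mul_of_nonneg_left (mul_le_mul_of_nonneg_left m2' hC3.le) (by positivity)
      have e2 : 1 / ρ * (C3 * (2 / X * (KW * T) + T * (1 / L))) =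
          1 / ρ * (C3 * (2 / X * KW)) * T + C3 / (ρ * L) * T := by field_simp
      have e3 : C3 / (ρ * L) ≤ ε / 8 := by
        rw [div_le_iff₀ (by positivity)]
        rw [div_le_iff₀ (by positivity)] at hLe
        linarith only [hLe]
      have e4 := mul_le_mul_of_nonneg_right e3 hTpos.le
      have e5 := mul_le_mul_of_nonneg_right hXC hTpos.le
      linarith only [e1, e2, e4, e5]
    have p4 : 0 ≤ ε * T := by positivity
    have p5 : 1 / ρ * (e1 * (∫ t0 in V1..V2, M1 t0) + C3 * ∫ t0 in V1..V2, M2 t0) =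
        1 / ρ * (e1 * (∫ t0 in V1..V2, M1 t0)) + 1 / ρ * (C3 * ∫ t0 in V1..V2, M2 t0) := by ring
    rw [p5]
    have hmT' : ∫ t0 in V1..V2, PhS P B0 r F s A (c - 2 * η) b h a0 b0 ρ' T t0 ≤
        Kp * (b + 1 / X) * T := hmT
    linarith only [hmT', p1, p2, p3, p4]

end Pool.Agent.R321.FA
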