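import Pool.Agent.R321.FD8
import Pool.Agent.R321.FD10

/-! Small `k`-gaps in almost all runs. -/

open Filter Topology Set MeasureTheory

namespace Pool.Agent.R321.FA

open SG (ord NZ)
open TH800.MS (dlt)
open LG (SF SM sm0 tm IsQ)
open SP (Par RHs ZZ)
open RGap (IsSgn LM)

lemma near_rS {ρ t : ℝ} {n m r : ℕ} (hρ : 0 < ρ) (hn : 1 ≤ n)
    (hgap : ∀ i < m, 2 * ρ < ord (n + i + r) - ord (n + i)) (h1 : ord n ≤ t - ρ)
    (h2 : t + ρ < ord (n + m)) : RGap.NN ρ t ≤ r := by
  by_contra hcon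
  push Not at hcon
  unfold RGap.NN at hcon
  have h3 : ((NZ (t - ρ) + r : ℕ) : ℝ) < NZ (t + ρ) := by push_cast; linarith
  have h4 : NZ (t - ρ) + r + 1 ≤ NZ (t + ρ) := by exact_mod_cast h3
  obtain ⟨a1, a2, a3⟩ := RGap.ORDS_proof t ρ r hρ h4
  have hk : n ≤ NZ (t - ρ) := (SG.ord_le_iff hn _).mp h1
  have hk2 : NZ (t - ρ) + 1 < n + m := by
    by_contra hcon
    push Not at hcon
    have := SG.ord_mono (by omega : 1 ≤ n + m) hcon
    linarith
  have h5 := hgap (NZ (t - ρ) + 1 - n) (by omega)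
  have e : n + (NZ (t - ρ) + 1 - n) = NZ (t - ρ) + 1 := by omega
  rw [e] at h5
  linarith

/-- runs of large `k`-gaps in a block -/
theorem blockSr (RH : RiemannHypothesis) (P : Par) (B0 B1 : ℕ) (hB : P.B = 2 * B0)
    (hB1 : 2 * B1 ≤ B0) (r : ℝ) (hr : 0 < r) (F q s : ℕ → ℝ) (hs : IsSgn s)
    (hF : ∀ n, B1 < n → F n = 0)
    (hq : IsQ B0 (tm P r) q) (k : ℕ) (c : ℝ) (hk : 1 ≤ k) (hc : 0 < c) (hSF : 0 < SF B0 F q)
    (hstrict : (k - c) * SF B0 F q < -LM P B0 r F q s c) :
    ∃ η : ℝ, 0 < η ∧ 2 * η < c ∧ ∀ ε : ℝ, 0 < ε → ∃ m0 T0 : ℝ, 1 ≤ m0 ∧ 10 ≤ T0 ∧ ∀ T : ℝ, T0 ≤ T →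
      ∀ m : ℕ, m0 ≤ m → ∀ B : Finset ℕ,
      (∀ n ∈ B, 1 ≤ n ∧ T + 2 * Real.log T ^ 3 ≤ ord n ∧ ord (n + m) ≤ 2 * T - 2 * Real.log T ^ 3 ∧
        (∀ i < m, 2 * Real.pi * (c - η) / Real.log T < ord (n + i + k) - ord (n + i)) ∧
        m / Real.log T ≤ ord (n + m) - ord n) →
      (B.card : ℝ) ≤ ε * (T * Real.log T) := by
  classical
  have hpi := Real.pi_pos
  obtain ⟨η, hη, hηc, h⟩ := winSr (TH800.MS.rhs_of RH) P B0 B1 hB hB1 r hr F q s hs hF hq k c hk
    hc hSF hstrict
  refine ⟨η, hη, hηc, fun ε hε => ?_⟩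
  have hcη : 0 < c - η := by linarith
  obtain ⟨b, X, T1, hb0, hX1, hT1, hw⟩ := h (ε / 4) (by positivity)
  have hX0 : 0 < X := by linarith
  obtain ⟨T2, hT2⟩ := (Real.tendsto_log_atTop.eventually_ge_atTop
    (max 1 (Real.pi * (c - η)))).exists_forall_of_atTop
  refine ⟨4 * X / b + 2 + 4 * (Real.pi * (c - η)), max T1 T2, ?_, hT1.trans (le_max_left _ _),
    fun T hT m hm B hBs => ?_⟩
  · have : 0 < 4 * X / b := by positivity
    have : 0 < Real.pi * (c - η) := by positivity
    linarith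
  have hTT1 : T1 ≤ T := (le_max_left _ _).trans hT
  have hLB := hT2 T ((le_max_right _ _).trans hT)
  simp only [max_le_iff] at hLB
  obtain ⟨hL1, hLR⟩ := hLB
  have hT10 := hT1.trans hTT1
  obtain ⟨Φ, hΦc, hΦ0, hV, hΦ1, hΦi⟩ := hw T hTT1
  set L := Real.log T with hL
  have hL0 : 0 < L := by linarith
  set h0 := X / (b * L) with hh0
  have hh0' : 0 < h0 := by positivity
  set ρ := Real.pi * (c - η) / L with hρ
  have hρ0 : 0 < ρ := by positivity
  have hm0 : (0 : ℝ) < m := by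
    have : 0 < 4 * X / b := by positivity
    have : 0 < Real.pi * (c - η) := by positivity
    linarith
  have hL3 : 1 ≤ L ^ 3 := one_le_pow₀ hL1
  have hcount := TH800.LD.count_gen B (fun n => ord n + (h0 + ρ))
    (fun n => ord (n + m) - (h0 + ρ) - 1 / L)
    (T + 2 * L ^ 3) (2 * T - 2 * L ^ 3) (m / (2 * L)) (fun t => m * Φ t) hV
    (continuous_const.mul hΦc) (by positivity) (fun n hn => by
      obtain ⟨a1, a2, a3, a4, a5⟩ := hBs n hn
      have hL' : 0 < 1 / L := by positivity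
      refine ⟨by linarith, by linarith, ?_⟩
      have e1 : (m : ℝ) / (2 * L) = m / L - m / (2 * L) := by field_simp; ring
      have e2 : 2 * h0 + 2 * ρ + 1 / L ≤ m / (2 * L) := by
        have e3 : 2 * h0 + 2 * ρ + 1 / L = (4 * X / b + 2 + 4 * (Real.pi * (c - η))) / (2 * L) := by
          rw [hh0, hρ]; field_simp; ring
        rw [e3]
        gcongr
      linarith) (fun t ht1 ht2 => by
      by_cases hfe : (B.filter (fun n => ord n + (h0 + ρ) ≤ t ∧
          t ≤ ord (n + m) - (h0 + ρ) - 1 / L)).Nonempty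
      · obtain ⟨n2, hn2⟩ := hfe
        rw [Finset.mem_filter] at hn2
        obtain ⟨hn2F, b1, b2⟩ := hn2
        obtain ⟨a1, a2, a3, a4, a5⟩ := hBs n2 hn2F
        have hL' : 0 < 1 / L := by positivity
        have h4 := hΦ1 t ht1 ht2 (fun t' ht' => by
          rw [abs_le] at ht'
          exact near_rS hρ0 a1 (fun i hi => by
              have := a4 i hi
              have e : 2 * ρ = 2 * Real.pi * (c - η) / L := by rw [hρ]; ring
              rw [e]; exact this) (by linarith) (by linarith))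
        have h5 : (B.filter (fun n => ord n + (h0 + ρ) ≤ t ∧
            t ≤ ord (n + m) - (h0 + ρ) - 1 / L)).card ≤ m := by
          apply TH800.MS.overlap (t := t)
          intro n hn
          rw [Finset.mem_filter] at hn
          obtain ⟨hnF, b3, b4⟩ := hn
          exact ⟨(hBs n hnF).1, by linarith, by linarith⟩
        calc ((B.filter (fun n => ord n + (h0 + ρ) ≤ t ∧
              t ≤ ord (n + m) - (h0 + ρ) - 1 / L)).card : ℝ) ≤
            m * 1 := by rw [mul_one]; exact_mod_cast h5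
          _ ≤ m * Φ t := by gcongr
      · rw [Finset.not_nonempty_iff_eq_empty] at hfe
        rw [hfe, Finset.card_empty, Nat.cast_zero]
        have := hΦ0 t
        positivity)
  have hT0 : 0 < T := by linarith
  have h5 : (B.card : ℝ) * (m / (2 * L)) ≤ m * (ε / 4 * T) := by
    refine hcount.trans ?_
    rw [intervalIntegral.integral_const_mul]
    gcongr
  have h6 : (B.card : ℝ) ≤ ε / 2 * (T * L) := by
    have e1 : (B.card : ℝ) * (m / (2 * L)) = (m / (2 * L)) * B.card := by ring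
    have e2 : m * (ε / 4 * T) = (m / (2 * L)) * (ε / 2 * (T * L)) := by field_simp; ring
    rw [e1, e2] at h5
    exact le_of_mul_le_mul_left h5 (by positivity)
  have h7 : 0 ≤ T * L := by positivity
  linarith [mul_nonneg hε.le h7]

/-- **small `k`-gaps in almost all runs** -/
theorem runsSr (RH : RiemannHypothesis) (P : Par) (B0 B1 : ℕ) (hB : P.B = 2 * B0)
    (hB1 : 2 * B1 ≤ B0) (r : ℝ) (hr : 0 < r) (F q s : ℕ → ℝ) (hs : IsSgn s)
    (hF : ∀ n, B1 < n → F n = 0)
    (hq : IsQ B0 (tm P r) q) (k : ℕ) (c : ℝ) (hk : 1 ≤ k) (hc : 0 < c) (hSF : 0 < SF B0 F q)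
    (hstrict : (k - c) * SF B0 F q < -LM P B0 r F q s c) :
    ∀ ε : ℝ, 0 < ε → ∃ m N0 : ℕ, ∀ N : ℕ, N0 ≤ N →
      ({n : ℕ | 1 ≤ n ∧ n ≤ N ∧ ∀ j < m, c ≤ ∑ i ∈ Finset.range k, dlt (n + j + i)}.ncard : ℝ) ≤
        ε * N := by
  classical
  intro ε hε
  have hpi := Real.pi_gt_three
  obtain ⟨η, hη, hηc, hbl⟩ := blockSr RH P B0 B1 hB hB1 r hr F q s hs hF hq k c hk hc hSF hstrict
  have hcη : 0 < c - η := by linarith
  obtain ⟨C, hC, hall⟩ := all_of_block
  obtain ⟨Ks, ms, hKs, hshort⟩ := short_runs RH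
  obtain ⟨m0, T0, hm0, hT0, hblk⟩ := hbl (ε / (4 * C)) (by positivity)
  obtain ⟨m, hm⟩ := exists_nat_ge (max (max m0 ms) (2 * Ks / ε))
  simp only [max_le_iff] at hm
  obtain ⟨⟨hmm0, hmms⟩, hmK⟩ := hm
  have hm1 : (1 : ℝ) ≤ m := hm0.trans hmm0
  have hmp : (0 : ℝ) < m := by linarith
  obtain ⟨N1, hN1⟩ := hshort m hmms
  obtain ⟨A, hA, hsh⟩ := TH800.MS.ord_short (TH800.MS.rhs_of RH)
  obtain ⟨T3, hT3⟩ : ∃ T3 : ℝ, ∀ T : ℝ, T3 ≤ T → max 4 (3 * (c - η) / η + 1) ≤
      Real.log (9 / 10 * T) ∧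
      1000 * Real.log T ^ 3 ≤ T ∧ 1000 * (60 + 30 * ((m + k : ℕ) : ℝ)) ≤ T := by
    have g0 : Tendsto (fun T : ℝ => 9 / 10 * T) atTop atTop :=
      tendsto_id.const_mul_atTop (by norm_num)
    have g1 : ∀ᶠ T : ℝ in atTop, max 4 (3 * (c - η) / η + 1) ≤ Real.log (9 / 10 * T) :=
      (Real.tendsto_log_atTop.comp g0).eventually_ge_atTop _
    have g2 : ∀ᶠ T : ℝ in atTop, 1000 * Real.log T ^ 3 ≤ T := by
      have h3 := isLittleO_log_rpow_atTop (show (0 : ℝ) < 1 / 3 by norm_num)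
      rw [Asymptotics.isLittleO_iff] at h3
      filter_upwards [h3 (show (0 : ℝ) < 1 / 10 by norm_num), eventually_ge_atTop 1] with T g3 g4
      rw [Real.norm_of_nonneg (Real.log_nonneg g4), Real.norm_of_nonneg (by positivity)] at g3
      have g5 := pow_le_pow_left₀ (Real.log_nonneg g4) g3 3
      rw [mul_pow, ← Real.rpow_natCast (T ^ (1 / 3 : ℝ)), ← Real.rpow_mul (by linarith)] at g5
      norm_num at g5
      linarith
    exact (g1.and (g2.and (eventually_ge_atTop _))).exists_forall_of_atTop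
  obtain ⟨N2, hN2⟩ := hall (fun n => (∀ j < m, c ≤ ∑ i ∈ Finset.range k, dlt (n + j + i)) ∧
      (m : ℝ) / 2 < ∑ i ∈ Finset.range m, dlt (n + i)) (ε / (2 * C)) (by positivity) (by
    refine ⟨max (max (2 * T0) A) T3, fun T hT => ?_⟩
    simp only [max_le_iff] at hT
    obtain ⟨⟨hTT0, hTA⟩, hTT3⟩ := hT
    obtain ⟨hl1', hl2, hl3⟩ := hT3 T hTT3
    obtain ⟨hl1, hlη⟩ := max_le_iff.1 hl1'
    have hT20 : 20 ≤ T := by linarith
    set S : ℝ := 9 / 10 * T with hS
    have hS0 : 0 < S := by positivity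
    have hST0 : T0 ≤ S := by rw [hS]; linarith
    set Ls := Real.log S with hLs
    have hLST : Ls ≤ Real.log T := Real.log_le_log hS0 (by rw [hS]; linarith)
    have hLST' : Real.log T ≤ Ls + 1 := by
      have h1 : Real.log T = Real.log (10 / 9) + Ls := by
        rw [hLs, ← Real.log_mul (by norm_num) hS0.ne', hS]
        congr 1
        ring
      have h2 := Real.log_le_sub_one_of_pos (show (0 : ℝ) < 10 / 9 by norm_num)
      linarith
    have hLs0 : 0 < Ls := by linarith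
    set Bd : Set ℕ := {n : ℕ | 1 ≤ n ∧ T ≤ ord n ∧ ord n ≤ 3 / 2 * T ∧
      ((∀ j < m, c ≤ ∑ i ∈ Finset.range k, dlt (n + j + i)) ∧
      (m : ℝ) / 2 < ∑ i ∈ Finset.range m, dlt (n + i))} with hBd
    have hBfin : Bd.Finite := LG.GapAux.fin_ord (3 / 2 * T) Bd fun n hn => ⟨hn.1, hn.2.2.1⟩
    rw [Set.ncard_eq_toFinset_card Bd hBfin]
    have hLs3 : 2 * Ls ^ 3 ≤ T / 100 := by
      have : Ls ^ 3 ≤ Real.log T ^ 3 := pow_le_pow_left₀ hLs0.le hLST 3
      linarith
    have h1 := hblk S hST0 m hmm0 hBfin.toFinset (fun n hn => by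
      rw [Set.Finite.mem_toFinset] at hn
      obtain ⟨a1, a2, a3, a4, a5⟩ := hn
      have hs1 := hsh n a1 (by linarith) (m + k)
      have homk : ord (n + (m + k)) ≤ 8 / 5 * T := by linarith
      have hom' : ord (n + m) ≤ ord (n + (m + k)) := SG.ord_mono (by omega) (by omega)
      have hom : ord (n + m) ≤ 8 / 5 * T := by linarith
      have hn0 : 0 < ord n := by linarith
      refine ⟨a1, by rw [hS] at *; linarith, by rw [hS] at *; linarith, fun i hi => ?_, ?_⟩
      · have a6 := a4 i hi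
        have g1 : ord n ≤ ord (n + i) := SG.ord_mono a1 (by omega)
        have g2 : ord (n + i) ≤ ord (n + i + k) := SG.ord_mono (by omega) (by omega)
        have g3 : ord (n + i + k) ≤ ord (n + (m + k)) := SG.ord_mono (by omega) (by omega)
        have hx0 : 0 < ord (n + i) := by linarith
        have h5 := H370.A3.xlog_aux hx0 g2
        have hy : ord (n + i + k) ≤ 2 * T := by linarith
        have hlog3 : Real.log (ord (n + i + k)) + 1 ≤ Ls + 3 := by
          have h6 : Real.log (ord (n + i + k)) ≤ Real.log (2 * T) :=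
            Real.log_le_log (by linarith) hy
          have h6' : Real.log (2 * T) = Real.log (20 / 9) + Ls := by
            rw [hLs, ← Real.log_mul (by norm_num) hS0.ne', hS]
            congr 1
            ring
          have h7 := Real.log_le_sub_one_of_pos (show (0 : ℝ) < 20 / 9 by norm_num)
          linarith
        have hd := dlt_sum (n + i) k
        have h6 : c * (2 * Real.pi) ≤ (ord (n + i + k) - ord (n + i)) * (Ls + 3) := by
          have h7 : (∑ l ∈ Finset.range k, dlt (n + i + l)) * (2 * Real.pi) ≤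
              (ord (n + i + k) - ord (n + i)) * (Real.log (ord (n + i + k)) + 1) := by
            rw [hd, div_mul_cancel₀ _ (by positivity)]
            exact h5
          calc c * (2 * Real.pi) ≤ (∑ l ∈ Finset.range k, dlt (n + i + l)) * (2 * Real.pi) := by
                gcongr
            _ ≤ _ := h7
            _ ≤ _ := by
                apply mul_le_mul_of_nonneg_left hlog3
                linarith
        have h8 : (c - η) * (Ls + 3) < c * Ls := by
          have h9 : 3 * (c - η) / η < Ls := by linarith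
          rw [div_lt_iff₀ hη] at h9
          linarith
        rw [div_lt_iff₀ hLs0]
        have h11 : 0 < Ls + 3 := by linarith
        by_contra hcon
        push Not at hcon
        have h12 : c * (2 * Real.pi) * Ls ≤
            (ord (n + i + k) - ord (n + i)) * (Ls + 3) * Ls :=
          mul_le_mul_of_nonneg_right h6 (by linarith)
        have h13 : (ord (n + i + k) - ord (n + i)) * Ls * (Ls + 3) ≤
            2 * Real.pi * (c - η) * (Ls + 3) := mul_le_mul_of_nonneg_right hcon h11.le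
        have h14 : 2 * Real.pi * ((c - η) * (Ls + 3)) < 2 * Real.pi * (c * Ls) :=
          mul_lt_mul_of_pos_left h8 (by positivity)
        linarith
      · -- total length
        have e1 := dlt_sum n m
        rw [e1, lt_div_iff₀ (by positivity)] at a5
        have g2 : ord n ≤ ord (n + m) := SG.ord_mono a1 (by omega)
        have g3 := H370.A3.xlog_aux hn0 g2
        have g4 : Real.log (ord (n + m)) + 1 ≤ Ls + 3 := by
          have h6 : Real.log (ord (n + m)) ≤ Real.log (2 * T) :=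
            Real.log_le_log (by linarith) (by linarith)
          have h6' : Real.log (2 * T) = Real.log 2 + Real.log T :=
            Real.log_mul (by norm_num) (by linarith)
          have h7 := Real.log_two_lt_d9
          linarith
        have g5 : (m : ℝ) / 2 * (2 * Real.pi) < (ord (n + m) - ord n) * (Ls + 3) := by
          refine a5.trans_le (g3.trans ?_)
          apply mul_le_mul_of_nonneg_left g4
          linarith
        rw [div_le_iff₀ hLs0]
        by_contra hcon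
        push Not at hcon
        have g6 : (ord (n + m) - ord n) * (Ls + 3) ≤ (ord (n + m) - ord n) * Ls * (7 / 4) := by
          have : Ls + 3 ≤ Ls * (7 / 4) := by linarith
          calc _ ≤ (ord (n + m) - ord n) * (Ls * (7 / 4)) :=
                mul_le_mul_of_nonneg_left this (by linarith)
            _ = _ := by ring
        nlinarith)
    refine h1.trans ?_
    have h8 : S * Ls ≤ T * Real.log T := by
      apply mul_le_mul _ hLST hLs0.le (by linarith)
      rw [hS]; linarith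
    have h9 : ε / (4 * C) * (S * Ls) ≤ ε / (4 * C) * (T * Real.log T) := by gcongr
    have h10 : 0 ≤ T * Real.log T := mul_nonneg (by linarith) (by linarith)
    have h11 : ε / (4 * C) ≤ ε / (2 * C) := by
      apply div_le_div_of_nonneg_left hε.le (by positivity)
      linarith
    calc _ ≤ ε / (4 * C) * (T * Real.log T) := h9
      _ ≤ _ := mul_le_mul_of_nonneg_right h11 h10)
  refine ⟨m, max N1 N2, fun N hN => ?_⟩
  have i1 := hN1 N ((le_max_left _ _).trans hN)
  have i2 := hN2 N ((le_max_right _ _).trans hN)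
  have hN0 : (0 : ℝ) ≤ N := Nat.cast_nonneg _
  have hsub : {n : ℕ | 1 ≤ n ∧ n ≤ N ∧ ∀ j < m, c ≤ ∑ i ∈ Finset.range k, dlt (n + j + i)} ⊆
      {n : ℕ | 1 ≤ n ∧ n ≤ N ∧ ∑ i ∈ Finset.range m, dlt (n + i) ≤ m / 2} ∪
      {n : ℕ | 1 ≤ n ∧ n ≤ N ∧ ((∀ j < m, c ≤ ∑ i ∈ Finset.range k, dlt (n + j + i)) ∧
        (m : ℝ) / 2 < ∑ i ∈ Finset.range m, dlt (n + i))} := by
    rintro n ⟨a1, a2, a3⟩
    by_cases hcs : ∑ i ∈ Finset.range m, dlt (n + i) ≤ m / 2
    · left; exact ⟨a1, a2, hcs⟩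
    · right; exact ⟨a1, a2, a3, not_le.1 hcs⟩
  have hfin : ∀ Q : ℕ → Prop, {n : ℕ | 1 ≤ n ∧ n ≤ N ∧ Q n}.Finite := fun Q =>
    (Set.finite_Icc 1 N).subset fun n hn => ⟨hn.1, hn.2.1⟩
  have hcard := (Set.ncard_le_ncard hsub ((hfin _).union (hfin _))).trans (Set.ncard_union_le _ _)
  have hcardr : ({n : ℕ | 1 ≤ n ∧ n ≤ N ∧
      ∀ j < m, c ≤ ∑ i ∈ Finset.range k, dlt (n + j + i)}.ncard : ℝ) ≤
      ({n : ℕ | 1 ≤ n ∧ n ≤ N ∧ ∑ i ∈ Finset.range m, dlt (n + i) ≤ m / 2}.ncard : ℝ) +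
      ({n : ℕ | 1 ≤ n ∧ n ≤ N ∧ ((∀ j < m, c ≤ ∑ i ∈ Finset.range k, dlt (n + j + i)) ∧
        (m : ℝ) / 2 < ∑ i ∈ Finset.range m, dlt (n + i))}.ncard : ℝ) := by exact_mod_cast hcard
  have i3 : Ks * (N * (1 / m)) ≤ ε / 2 * N := by
    have : Ks * (1 / m) ≤ ε / 2 := by
      rw [mul_one_div, div_le_iff₀ hmp]
      rw [div_le_iff₀ hε] at hmK
      linarith
    calc Ks * (N * (1 / m)) = (Ks * (1 / m)) * N := by ring
      _ ≤ _ := mul_le_mul_of_nonneg_right this hN0
  have i4 : C * (ε / (2 * C)) * N = ε / 2 * N := by field_simp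
  rw [i4] at i2
  linarith

end Pool.Agent.R321.FA
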