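import Pool.Agent.R321.FD11
import Pool.Agent.TH861.RGP.Fin

/-! Large and small `k`-sums in almost all runs: the parameters. -/

open Filter Topology Set MeasureTheory

namespace Pool.Agent.R321.FA

open SG (ord NZ)
open TH800.MS (dlt)
open LG (SF SM sm0 tm IsQ)
open SP (Par RHs ZZ)
open RGap (IsSgn LM Ideal smI)

/-- cut-off of the weights -/
noncomputable def cutF (B : ℕ) (F : ℕ → ℝ) (n : ℕ) : ℝ := if n ≤ B then F n else 0

lemma cutF_zero {B : ℕ} {F : ℕ → ℝ} {n : ℕ} (h : B < n) : cutF B F n = 0 := by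
  unfold cutF
  rw [if_neg (by omega)]

lemma cutF_of {B : ℕ} {F : ℕ → ℝ} {n : ℕ} (h : n ≤ B) : cutF B F n = F n := by
  unfold cutF
  rw [if_pos h]

lemma SF_cut (B : ℕ) (F q : ℕ → ℝ) : SF (2 * B) (cutF B F) q = SF B F q := by
  unfold LG.SF
  symm
  calc ∑ n ∈ Finset.range (B + 1), F n ^ 2 * q n =
      ∑ n ∈ Finset.range (B + 1), cutF B F n ^ 2 * q n := by
        refine Finset.sum_congr rfl fun n hn => ?_
        rw [Finset.mem_range] at hn
        rw [cutF_of (by omega)]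
    _ = _ := by
        refine Finset.sum_subset (Finset.range_subset_range.2 (by omega)) fun n _ hn => ?_
        rw [Finset.mem_range, not_lt] at hn
        rw [cutF_zero (by omega)]
        ring

lemma SM_cut (B : ℕ) (F q : ℕ → ℝ) (m : ℕ) : SM (2 * B) (cutF B F) q m = SM B F q m := by
  unfold LG.SM
  symm
  calc ∑ n ∈ Finset.range (B + 1 - m), F n * F (n + m) * q n =
      ∑ n ∈ Finset.range (B + 1 - m), cutF B F n * cutF B F (n + m) * q n := by
        refine Finset.sum_congr rfl fun n hn => ?_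
        rw [Finset.mem_range] at hn
        rw [cutF_of (by omega), cutF_of (by omega)]
    _ = _ := by
        refine Finset.sum_subset (Finset.range_subset_range.2 (by omega)) fun n _ hn => ?_
        rw [Finset.mem_range, not_lt] at hn
        rw [cutF_zero (n := n + m) (by omega)]
        ring

lemma SM_big (B : ℕ) (F q : ℕ → ℝ) {m : ℕ} (h : B < m) : SM B F q m = 0 := by
  unfold LG.SM
  rw [show B + 1 - m = 0 by omega]
  simp

lemma smI_scale (w c : ℝ) (m : ℕ) : smI (w / 2) c m = smI w (c / 2) m := by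
  unfold RGap.smI
  have h := intervalIntegral.integral_comp_mul_right (a := m * w * Real.exp (-1 / m) / 2)
    (b := m * w / 2) (fun v => Real.sin (Real.pi * (c / 2) * v) / v) (c := 2) (by norm_num)
  have e1 : ∀ x : ℝ, Real.sin (Real.pi * (c / 2) * (x * 2)) / (x * 2) =
      (2 : ℝ)⁻¹ * (Real.sin (Real.pi * c * x) / x) := by
    intro x
    rw [show Real.pi * (c / 2) * (x * 2) = Real.pi * c * x by ring, div_mul_eq_div_div_swap]
    ring
  simp_rw [e1] at h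
  rw [intervalIntegral.integral_const_mul, smul_eq_mul] at h
  have h2 := mul_left_cancel₀ (by norm_num : (2 : ℝ)⁻¹ ≠ 0) h
  rw [show m * (w / 2) * Real.exp (-1 / m) = m * w * Real.exp (-1 / m) / 2 by ring,
    show (m : ℝ) * (w / 2) = m * w / 2 by ring, h2]
  congr 1 <;> ring

/-- the half-length resonator -/
theorem ideal_half {κ : ℝ} {B : ℕ} {r : ℝ} {V F s : ℕ → ℝ} {x c : ℝ}
    (h : Ideal κ B r V F s x (c / 2)) : Ideal κ (2 * B) r V (cutF B F) s x c := by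
  intro q hq
  obtain ⟨h1, h2⟩ := h q ⟨hq.1, fun n a1 a2 => hq.2 n a1 (by omega)⟩
  rw [SF_cut]
  refine ⟨h1, h2.trans_le (le_of_eq ?_)⟩
  congr 1
  have e0 : ∀ m : ℕ, smI ((1 - κ) / (2 * ((2 * B : ℕ) : ℝ))) c m =
      smI ((1 - κ) / (2 * (B : ℝ))) (c / 2) m := by
    intro m
    rw [← smI_scale]
    congr 1
    push_cast
    ring
  calc _ = ∑ m ∈ Finset.Icc 2 B, s m * (V m * smI ((1 - κ) / (2 * ((2 * B : ℕ) : ℝ))) c m *
        SM (2 * B) (cutF B F) q m) := by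
        refine Finset.sum_congr rfl fun m _ => ?_
        rw [SM_cut, e0]
    _ = _ := by
        refine Finset.sum_subset (Finset.Icc_subset_Icc_right (by omega)) fun m hm hm2 => ?_
        rw [Finset.mem_Icc] at hm hm2
        rw [SM_cut, SM_big B F q (by omega)]
        ring

/-- large sums from the ideal inequality -/
theorem large_dlt (RH : RiemannHypothesis) {κ : ℝ} {B : ℕ} {r : ℝ} {V F s : ℕ → ℝ} {c : ℝ} {k : ℕ}
    (hκ : 0 < κ) (hκ1 : κ < 1 / 2) (hB0 : 1 ≤ B) (hr : 0 < r) (hV : ∀ m, 0 ≤ V m ∧ V m ≤ 1)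
    (hs : IsSgn s) (hk : 1 ≤ k) (hc : 0 < c) (hI : Ideal κ B r V F s (c - k) (c / 2)) :
    ∀ ε : ℝ, 0 < ε → ∃ m N0 : ℕ, ∀ N : ℕ, N0 ≤ N →
      ({n : ℕ | 1 ≤ n ∧ n ≤ N ∧ ∀ j < m, ∑ i ∈ Finset.range k, dlt (n + j + i) ≤ c}.ncard : ℝ) ≤
        ε * N := by
  obtain ⟨P, q, hB, hq, hSF, hst⟩ := RGap.PARG_proof κ hκ hκ1 (2 * B) (by omega) r V (cutF B F) s
    hV (c - k) c (ideal_half hI)
  exact runsLr RH P (2 * B) B hB le_rfl r hr (cutF B F) q s hs (fun n hn => cutF_zero hn) hq k c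
    hk hc hSF hst

/-- small sums from the ideal inequality -/
theorem small_dlt (RH : RiemannHypothesis) {κ : ℝ} {B : ℕ} {r : ℝ} {V F s : ℕ → ℝ} {c : ℝ} {k : ℕ}
    (hκ : 0 < κ) (hκ1 : κ < 1 / 2) (hB0 : 1 ≤ B) (hr : 0 < r) (hV : ∀ m, 0 ≤ V m ∧ V m ≤ 1)
    (hs : IsSgn s) (hk : 1 ≤ k) (hc : 0 < c) (hI : Ideal κ B r V F s (k - c) (c / 2)) :
    ∀ ε : ℝ, 0 < ε → ∃ m N0 : ℕ, ∀ N : ℕ, N0 ≤ N →
      ({n : ℕ | 1 ≤ n ∧ n ≤ N ∧ ∀ j < m, c ≤ ∑ i ∈ Finset.range k, dlt (n + j + i)}.ncard : ℝ) ≤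
        ε * N := by
  obtain ⟨P, q, hB, hq, hSF, hst⟩ := RGap.PARG_proof κ hκ hκ1 (2 * B) (by omega) r V (cutF B F) s
    hV (k - c) c (ideal_half hI)
  exact runsSr RH P (2 * B) B hB le_rfl r hr (cutF B F) q (fun m => -s m) hs.neg
    (fun n hn => cutF_zero hn) hq k c hk hc hSF (by rw [RGap.LM_neg, neg_neg]; exact hst)

/-- the gaps of the problem -/
noncomputable def dl0 (n : ℕ) : ℝ :=
  (ord (n + 1) - ord n) / (2 * Real.pi) * Real.log (ord n / (2 * Real.pi))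

lemma dl0_le {n : ℕ} (hn : 1 ≤ n) : dl0 n ≤ dlt n := by
  refine (RGap.gap_le n hn).trans (le_of_eq ?_)
  unfold TH800.MS.dlt
  rw [sub_div]

/-- the two normalisations are asymptotically equal -/
lemma dlt_le_dl0 (RH : RiemannHypothesis) {η : ℝ} (hη : 0 < η) : ∃ n0 : ℕ, 1 ≤ n0 ∧
    ∀ n : ℕ, n0 ≤ n → dlt n ≤ (1 + η) * dl0 n := by
  have hpi := Real.pi_gt_three
  obtain ⟨A, hA, hsh⟩ := TH800.MS.ord_short (TH800.MS.rhs_of RH)
  obtain ⟨n1, hn1⟩ := (SG.ord_tendsto.eventually_ge_atTop (max (max A 1000)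
    (Real.exp (8 / η + 8)))).exists_forall_of_atTop
  refine ⟨max n1 1, le_max_right _ _, fun n hn => ?_⟩
  have hn1' : 1 ≤ n := (le_max_right _ _).trans hn
  have h1 := hn1 n ((le_max_left _ _).trans hn)
  simp only [max_le_iff] at h1
  obtain ⟨⟨hA', h1000⟩, hexp⟩ := h1
  have h2 := hsh n hn1' (by linarith) 1
  have hp : 0 < ord n := by linarith
  have hm : ord n ≤ ord (n + 1) := SG.ord_mono hn1' (by omega)
  have h3 : ord (n + 1) ≤ 2 * ord n := by
    push_cast at h2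
    linarith
  have h4 := H370.A3.xlog_aux hp hm
  have hL : 8 / η + 8 ≤ Real.log (ord n) := by
    rw [Real.le_log_iff_exp_le hp]; exact hexp
  have h5 : Real.log (ord (n + 1)) ≤ Real.log 2 + Real.log (ord n) := by
    rw [← Real.log_mul (by norm_num) hp.ne']
    exact Real.log_le_log (by linarith) h3
  have h6 : Real.log (ord n / (2 * Real.pi)) = Real.log (ord n) - Real.log (2 * Real.pi) :=
    Real.log_div hp.ne' (by positivity)
  have h7 : Real.log (2 * Real.pi) ≤ 3 := by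
    have e1 : 2 * Real.pi ≤ 2 * (2 * 2) := by
      have := Real.pi_le_four
      linarith
    have e2 := Real.log_le_log (by positivity) e1
    have e3 : Real.log (2 * (2 * 2)) = 3 * Real.log 2 := by
      rw [show (2 * (2 * 2) : ℝ) = 2 ^ 3 by norm_num, Real.log_pow]; norm_num
    have := Real.log_two_lt_d9
    linarith
  have h8 : Real.log (ord (n + 1)) + 1 ≤ (1 + η) * Real.log (ord n / (2 * Real.pi)) := by
    rw [h6]
    have e1 := Real.log_two_lt_d9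
    have e2 : 8 + 8 * η ≤ η * Real.log (ord n) := by
      have := mul_le_mul_of_nonneg_left hL hη.le
      have e3 : η * (8 / η + 8) = 8 + 8 * η := by field_simp
      linarith
    have e4 : (1 + η) * (Real.log (ord n) - Real.log (2 * Real.pi)) =
      Real.log (ord n) + η * Real.log (ord n) - (1 + η) * Real.log (2 * Real.pi) := by ring
    have e5 : (1 + η) * Real.log (2 * Real.pi) ≤ (1 + η) * 3 := by gcongr
    linarith
  unfold TH800.MS.dlt dl0
  rw [div_mul_eq_mul_div, mul_div_assoc', div_le_div_iff_of_pos_right (by positivity)]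
  refine h4.trans ?_
  calc (ord (n + 1) - ord n) * (Real.log (ord (n + 1)) + 1) ≤
      (ord (n + 1) - ord n) * ((1 + η) * Real.log (ord n / (2 * Real.pi))) :=
        mul_le_mul_of_nonneg_left h8 (by linarith)
    _ = _ := by ring

/-- `P` holds somewhere in almost all runs of bounded length -/
def Runs (Q : ℕ → Prop) : Prop :=
  ∀ ε : ℝ, 0 < ε → ∃ m N0 : ℕ, ∀ N : ℕ, N0 ≤ N →
    ({n : ℕ | 1 ≤ n ∧ n ≤ N ∧ ∀ j < m, ¬ Q (n + j)}.ncard : ℝ) ≤ ε * N

lemma Runs.of {Q Q' : ℕ → Prop} (h : Runs Q) (hQ : ∃ n0 : ℕ, ∀ n, n0 ≤ n → 1 ≤ n → Q n → Q' n) :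
    Runs Q' := by
  intro ε hε
  obtain ⟨n0, hn0⟩ := hQ
  obtain ⟨m, N0, h0⟩ := h (ε / 2) (by positivity)
  obtain ⟨N1, hN1⟩ := exists_nat_ge ((n0 : ℝ) / (ε / 2))
  refine ⟨m, max N0 N1, fun N hN => ?_⟩
  have h1 := h0 N ((le_max_left _ _).trans hN)
  have hsub : {n : ℕ | 1 ≤ n ∧ n ≤ N ∧ ∀ j < m, ¬ Q' (n + j)} ⊆
      Set.Iio n0 ∪ {n : ℕ | 1 ≤ n ∧ n ≤ N ∧ ∀ j < m, ¬ Q (n + j)} := by
    rintro n ⟨a1, a2, a3⟩
    by_cases hc : n < n0
    · left; exact hc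
    · right
      exact ⟨a1, a2, fun j hj hq => a3 j hj (hn0 (n + j) (by omega) (by omega) hq)⟩
  have hfin : {n : ℕ | 1 ≤ n ∧ n ≤ N ∧ ∀ j < m, ¬ Q (n + j)}.Finite :=
    (Set.finite_Icc 1 N).subset fun n hn => ⟨hn.1, hn.2.1⟩
  have h2 := (Set.ncard_le_ncard hsub ((Set.finite_Iio n0).union hfin)).trans
    (Set.ncard_union_le _ _)
  have h3 : (Set.Iio n0).ncard = n0 := by
    rw [← Finset.coe_Iio, Set.ncard_coe_finset, Nat.card_Iio]
  rw [h3] at h2
  have h4 : ({n : ℕ | 1 ≤ n ∧ n ≤ N ∧ ∀ j < m, ¬ Q' (n + j)}.ncard : ℝ) ≤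
      n0 + ({n : ℕ | 1 ≤ n ∧ n ≤ N ∧ ∀ j < m, ¬ Q (n + j)}.ncard : ℝ) := by exact_mod_cast h2
  have h5 : (n0 : ℝ) ≤ ε / 2 * N := by
    rw [div_le_iff₀ (by positivity)] at hN1
    have h6 : (N1 : ℝ) ≤ N := by exact_mod_cast (le_max_right _ _).trans hN
    nlinarith
  linarith

/-- large sums -/
theorem large_sums (RH : RiemannHypothesis) {κ : ℝ} {B : ℕ} {r : ℝ} {V F s : ℕ → ℝ} {c c' : ℝ}
    {k : ℕ} (hκ : 0 < κ) (hκ1 : κ < 1 / 2) (hB0 : 1 ≤ B) (hr : 0 < r)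
    (hV : ∀ m, 0 ≤ V m ∧ V m ≤ 1) (hs : IsSgn s) (hk : 1 ≤ k) (hc : 0 < c')
    (hcc : c' < c) (hI : Ideal κ B r V F s (c - k) (c / 2)) :
    Runs (fun n => c' < ∑ i ∈ Finset.range k, dl0 (n + i)) := by
  have h := large_dlt RH hκ hκ1 hB0 hr hV hs hk (by linarith) hI
  have h' : Runs (fun n => c < ∑ i ∈ Finset.range k, dlt (n + i)) := by
    intro ε hε
    obtain ⟨m, N0, h0⟩ := h ε hε
    refine ⟨m, N0, fun N hN => ?_⟩
    simp only [not_lt]
    exact h0 N hN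
  refine h'.of ?_
  obtain ⟨n0, hn0, h1⟩ := dlt_le_dl0 RH (η := c / c' - 1) (by
    rw [sub_pos, one_lt_div hc]; exact hcc)
  refine ⟨n0, fun n hn _ hq => ?_⟩
  have h2 : ∑ i ∈ Finset.range k, dlt (n + i) ≤
      c / c' * ∑ i ∈ Finset.range k, dl0 (n + i) := by
    rw [Finset.mul_sum]
    refine Finset.sum_le_sum fun i _ => (h1 (n + i) (by omega)).trans (le_of_eq ?_)
    ring
  have h3 := hq.trans_le h2
  rw [div_mul_eq_mul_div, lt_div_iff₀ hc] at h3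
  have hc0 : 0 < c := by linarith
  exact lt_of_mul_lt_mul_left h3 hc0.le

/-- small sums -/
theorem small_sums (RH : RiemannHypothesis) {κ : ℝ} {B : ℕ} {r : ℝ} {V F s : ℕ → ℝ} {c : ℝ}
    {k : ℕ} (hκ : 0 < κ) (hκ1 : κ < 1 / 2) (hB0 : 1 ≤ B) (hr : 0 < r)
    (hV : ∀ m, 0 ≤ V m ∧ V m ≤ 1) (hs : IsSgn s) (hk : 1 ≤ k) (hc : 0 < c)
    (hI : Ideal κ B r V F s (k - c) (c / 2)) :
    Runs (fun n => ∑ i ∈ Finset.range k, dl0 (n + i) < c) := by
  have h := small_dlt RH hκ hκ1 hB0 hr hV hs hk hc hI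
  have h' : Runs (fun n => ∑ i ∈ Finset.range k, dlt (n + i) < c) := by
    intro ε hε
    obtain ⟨m, N0, h0⟩ := h ε hε
    refine ⟨m, N0, fun N hN => ?_⟩
    simp only [not_lt]
    exact h0 N hN
  refine h'.of ⟨1, fun n hn _ hq => ?_⟩
  refine lt_of_le_of_lt (Finset.sum_le_sum fun i _ => dl0_le (by omega)) hq

end Pool.Agent.R321.FA
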