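import Pool.Agent.R321.FD12
import Pool.Agent.R321.FB7

/-! Large and small `k`-sums in almost all runs: asymptotic and uniform statements. -/

open Filter Topology Set MeasureTheory

namespace Pool.Agent.R321.FA

open SG (ord NZ)
open TH800.MS (dlt)
open LG (SF SM sm0 tm IsQ)
open SP (Par RHs ZZ)
open RGap (IsSgn LM Ideal smI)

lemma sqrt_two_bd : (141421 / 100000 : ℝ) ≤ Real.sqrt 2 ∧ Real.sqrt 2 ≤ 141422 / 100000 := by
  constructor
  · apply Real.le_sqrt_of_sq_le; norm_num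
  · rw [Real.sqrt_le_left (by norm_num)]; norm_num

theorem asym1 (RH : RiemannHypothesis) {ε : ℝ} (hε : 0 < ε) (hε1 : ε ≤ 1) :
    ∃ r0 : ℕ, ∀ k : ℕ, r0 ≤ k →
      Runs (fun n => k + (Real.sqrt 2 - ε) * Real.sqrt k < ∑ i ∈ Finset.range k, dl0 (n + i)) ∧
      Runs (fun n => ∑ i ∈ Finset.range k, dl0 (n + i) < k - (Real.sqrt 2 - ε) * Real.sqrt k) := by
  obtain ⟨c0, hc0, hI⟩ := RGap.IDEAL2_main (ε / 2) (by positivity)
  obtain ⟨k1, hk1⟩ := exists_nat_ge (max (4 * c0 + 10) ((8 / ε) ^ 2))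
  simp only [max_le_iff] at hk1
  obtain ⟨hka, hkb⟩ := hk1
  obtain ⟨s2l, s2u⟩ := sqrt_two_bd
  set s2 := Real.sqrt 2 with hs2
  have hs2q : s2 ^ 2 = 2 := Real.sq_sqrt (by norm_num)
  refine ⟨k1, fun k hk => ?_⟩
  have hkr : (k1 : ℝ) ≤ k := by exact_mod_cast hk
  have hk4 : 4 * c0 + 10 ≤ (k : ℝ) := hka.trans hkr
  have hk8 : (8 / ε) ^ 2 ≤ (k : ℝ) := hkb.trans hkr
  have hk1' : 1 ≤ k := by
    have : (1 : ℝ) ≤ k := by linarith
    exact_mod_cast this
  set y := Real.sqrt k with hy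
  have hy2 : y ^ 2 = k := Real.sq_sqrt (by positivity)
  have hy8 : 8 / ε ≤ y := by
    rw [hy]; exact Real.le_sqrt_of_sq_le hk8
  have h8 : 8 ≤ 8 / ε := by
    rw [le_div_iff₀ hε]; linarith
  have hy0 : 0 < y := by linarith
  constructor
  · set c := (k : ℝ) + (s2 - ε / 2) * y with hc
    have hck : (k : ℝ) ≤ c := by
      rw [hc]
      have : 0 ≤ (s2 - ε / 2) * y := mul_nonneg (by linarith) hy0.le
      linarith
    obtain ⟨κ, B, r, V, s, hκ, hκ1, hB, hr, hV, hs, hid⟩ := hI (c / 2) (by linarith)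
    have hz : y * s2 / 2 ≤ Real.sqrt (c / 2) := by
      apply Real.le_sqrt_of_sq_le
      have : (y * s2 / 2) ^ 2 = y ^ 2 * s2 ^ 2 / 4 := by ring
      rw [this, hs2q, hy2]
      linarith
    have hle : c - k ≤ (2 - ε / 2) * Real.sqrt (c / 2) := by
      calc c - k = (s2 - ε / 2) * y := by rw [hc]; ring
        _ ≤ (2 - ε / 2) * (y * s2 / 2) := by
            have e : (2 - ε / 2) * (y * s2 / 2) - (s2 - ε / 2) * y = ε * y / 2 * (1 - s2 / 2) := by
              ring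
            have : 0 ≤ ε * y / 2 * (1 - s2 / 2) := by
              apply mul_nonneg (by positivity)
              linarith
            linarith
        _ ≤ _ := mul_le_mul_of_nonneg_left hz (by linarith)
    have hpos : 0 < (k : ℝ) + (s2 - ε) * y := by
      have : 0 ≤ (s2 - ε) * y := mul_nonneg (by linarith) hy0.le
      linarith
    exact large_sums RH hκ hκ1 hB hr hV hs hk1' hpos (by
      rw [hc]
      have : 0 < ε / 2 * y := by positivity
      linarith) (hid.mono hle)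
  · set c := (k : ℝ) - (s2 - ε) * y with hc
    have hse : 0 ≤ s2 - ε := by linarith
    have hck : (k : ℝ) * (4 / 5) ≤ c := by
      rw [hc, ← hy2]
      have e1 : (s2 - ε) * y ≤ 3 / 2 * y := by
        apply mul_le_mul_of_nonneg_right _ hy0.le
        linarith
      have e2 : 8 * y ≤ y ^ 2 := by nlinarith
      linarith
    obtain ⟨κ, B, r, V, s, hκ, hκ1, hB, hr, hV, hs, hid⟩ := hI (c / 2) (by linarith)
    have hle : k - c ≤ (2 - ε / 2) * Real.sqrt (c / 2) := by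
      have hz0 : 0 ≤ Real.sqrt (c / 2) := Real.sqrt_nonneg _
      have hz2 : Real.sqrt (c / 2) ^ 2 = c / 2 := Real.sq_sqrt (by linarith)
      have e0 : k - c = (s2 - ε) * y := by rw [hc]; ring
      rw [e0]
      by_contra hcon
      push Not at hcon
      have h1 : ((2 - ε / 2) * Real.sqrt (c / 2)) ^ 2 < ((s2 - ε) * y) ^ 2 :=
        pow_lt_pow_left₀ hcon (mul_nonneg (by linarith) hz0) (by norm_num)
      rw [mul_pow, hz2, mul_pow] at h1
      have e1 : c = y ^ 2 - (s2 - ε) * y := by rw [hc, hy2]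
      rw [e1] at h1
      have e2 : (2 - ε / 2) ^ 2 * ((y ^ 2 - (s2 - ε) * y) / 2) - (s2 - ε) ^ 2 * y ^ 2 =
          y * (ε * y * (2 * s2 - 1 - 7 / 8 * ε) - (2 - ε / 2) ^ 2 / 2 * (s2 - ε) +
            y * (2 - s2 ^ 2)) := by ring
      rw [hs2q] at e2
      have e3 : 8 ≤ ε * y := by
        rw [div_le_iff₀ hε] at hy8
        linarith
      have e4 : 8 * (9 / 10) ≤ ε * y * (2 * s2 - 1 - 7 / 8 * ε) := by
        apply mul_le_mul e3 _ (by norm_num) (by positivity)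
        linarith
      have e5 : (2 - ε / 2) ^ 2 / 2 * (s2 - ε) ≤ 2 * 2 := by
        apply mul_le_mul _ (by linarith) hse (by norm_num)
        have : (2 - ε / 2) ^ 2 ≤ 2 ^ 2 := pow_le_pow_left₀ (by linarith) (by linarith) 2
        linarith
      have e6 : 0 ≤ y * (ε * y * (2 * s2 - 1 - 7 / 8 * ε) - (2 - ε / 2) ^ 2 / 2 * (s2 - ε) +
            y * (2 - 2)) := by
        apply mul_nonneg hy0.le
        linarith
      linarith
    have hc0' : 0 < c := by
      have : 0 < (k : ℝ) * (4 / 5) := by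
        have : (0 : ℝ) < k := by linarith
        positivity
      linarith
    exact small_sums RH hκ hκ1 hB hr hV hs hk1' hc0' (hid.mono hle)

/-- the asymptotic statement -/
theorem asym (RH : RiemannHypothesis) {ε : ℝ} (hε : 0 < ε) :
    ∃ r0 : ℕ, ∀ k : ℕ, r0 ≤ k →
      Runs (fun n => k + (Real.sqrt 2 - ε) * Real.sqrt k < ∑ i ∈ Finset.range k, dl0 (n + i)) ∧
      Runs (fun n => ∑ i ∈ Finset.range k, dl0 (n + i) < k - (Real.sqrt 2 - ε) * Real.sqrt k) := by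
  obtain ⟨r0, h⟩ := asym1 RH (ε := min ε 1) (lt_min hε one_pos) (min_le_right _ _)
  refine ⟨r0, fun k hk => ?_⟩
  obtain ⟨h1, h2⟩ := h k hk
  have hle : (Real.sqrt 2 - ε) * Real.sqrt k ≤ (Real.sqrt 2 - min ε 1) * Real.sqrt k := by
    apply mul_le_mul_of_nonneg_right _ (Real.sqrt_nonneg _)
    have := min_le_left ε 1
    linarith
  exact ⟨h1.of ⟨0, fun n _ _ hq => by linarith⟩, h2.of ⟨0, fun n _ _ hq => by linarith⟩⟩

/-! ### the uniform statement -/

lemma large_Js (RH : RiemannHypothesis) {c c' : ℝ} {k : ℕ} (hk : 1 ≤ k) (hc : 0 < c')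
    (hcc : c' < c) (h : c - k < 4 / Real.pi * Js (Real.pi * c * (999 / 4000))) :
    Runs (fun n => c' < ∑ i ∈ Finset.range k, dl0 (n + i)) := by
  obtain ⟨B, P, q, hB, h1, h2, h3, h4⟩ := pars (c - k) c (by linarith) h
  have h5 := runsLr RH P (2 * B) B h1 le_rfl 1 one_pos (FB B) q (fun _ => 1) (fun _ => Or.inl rfl)
    (fun n hn => by unfold FB; rw [if_neg (by omega)]) h2 k c hk (by linarith) h3 (by
      unfold RGap.LM
      simp only [one_mul, mul_one]
      exact h4)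
  have h' : Runs (fun n => c < ∑ i ∈ Finset.range k, dlt (n + i)) := by
    intro ε hε
    obtain ⟨m, N0, h0⟩ := h5 ε hε
    refine ⟨m, N0, fun N hN => ?_⟩
    simp only [not_lt]
    exact h0 N hN
  refine h'.of ?_
  obtain ⟨n0, hn0, h1⟩ := dlt_le_dl0 RH (η := c / c' - 1) (by
    rw [sub_pos, one_lt_div hc]; exact hcc)
  refine ⟨n0, fun n hn _ hq => ?_⟩
  have h2 : ∑ i ∈ Finset.range k, dlt (n + i) ≤
      c / c' * ∑ i ∈ Finset.range k, dl0 (n + i) := by
    rw [Finset.mul_sum]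
    refine Finset.sum_le_sum fun i _ => (h1 (n + i) (by omega)).trans (le_of_eq ?_)
    ring
  have h3 := hq.trans_le h2
  rw [div_mul_eq_mul_div, lt_div_iff₀ hc] at h3
  have hc0 : 0 < c := by linarith
  exact lt_of_mul_lt_mul_left h3 hc0.le

lemma small_Js (RH : RiemannHypothesis) {c : ℝ} {k : ℕ} (hk : 1 ≤ k) (hc : 0 < c)
    (h : k - c < 4 / Real.pi * Js (Real.pi * c * (999 / 4000))) :
    Runs (fun n => ∑ i ∈ Finset.range k, dl0 (n + i) < c) := by
  obtain ⟨B, P, q, hB, h1, h2, h3, h4⟩ := pars (k - c) c hc h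
  have h5 := runsSr RH P (2 * B) B h1 le_rfl 1 one_pos (FB B) q (fun _ => -1) (fun _ => Or.inr rfl)
    (fun n hn => by unfold FB; rw [if_neg (by omega)]) h2 k c hk hc h3 (by
      have e := RGap.LM_neg P (2 * B) 1 (FB B) q (fun _ => 1) c
      rw [e, neg_neg]
      unfold RGap.LM
      simp only [one_mul, mul_one]
      exact h4)
  have h' : Runs (fun n => ∑ i ∈ Finset.range k, dlt (n + i) < c) := by
    intro ε hε
    obtain ⟨m, N0, h0⟩ := h5 ε hε
    refine ⟨m, N0, fun N hN => ?_⟩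
    simp only [not_lt]
    exact h0 N hN
  refine h'.of ⟨1, fun n hn _ hq => ?_⟩
  exact lt_of_le_of_lt (Finset.sum_le_sum fun i _ => dl0_le (by omega)) hq

theorem num_L2 : (13 / 10 : ℝ) < 4 / Real.pi * Js (Real.pi * (33 / 10) * (999 / 4000)) := by
  have h1 := Real.pi_gt_d6
  have h2 := Real.pi_lt_d6
  apply Js_ge' _ (by norm_num) _ _ rfl
  set s : ℝ := Real.pi * (33 / 10) * (999 / 4000) with hs
  have hsl : (2589 / 1000 : ℝ) ≤ s := by rw [hs]; linarith
  have hsu : s ≤ (2590 / 1000 : ℝ) := by rw [hs]; linarith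
  have hs0 : 0 ≤ s := by linarith
  have q2 : s ^ 2 ≤ (2590 / 1000 : ℝ) ^ 2 := by gcongr
  have q4 : (2589 / 1000 : ℝ) ^ 4 ≤ s ^ 4 := by gcongr
  have q6 : s ^ 6 ≤ (2590 / 1000 : ℝ) ^ 6 := by gcongr
  norm_num at q2 q4 q6 ⊢
  linarith

theorem num_L3 : (16 / 10 : ℝ) < 4 / Real.pi * Js (Real.pi * (46 / 10) * (999 / 4000)) := by
  have h1 := Real.pi_gt_d6
  have h2 := Real.pi_lt_d6
  apply Js_ge' _ (by norm_num) _ _ rfl
  set s : ℝ := Real.pi * (46 / 10) * (999 / 4000) with hs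
  have hsl : (3609 / 1000 : ℝ) ≤ s := by rw [hs]; linarith
  have hsu : s ≤ (3610 / 1000 : ℝ) := by rw [hs]; linarith
  have hs0 : 0 ≤ s := by linarith
  have q2 : s ^ 2 ≤ (3610 / 1000 : ℝ) ^ 2 := by gcongr
  have q4 : (3609 / 1000 : ℝ) ^ 4 ≤ s ^ 4 := by gcongr
  have q6 : s ^ 6 ≤ (3610 / 1000 : ℝ) ^ 6 := by gcongr
  norm_num at q2 q4 q6 ⊢
  linarith

theorem num_S2 : (65 / 100 : ℝ) < 4 / Real.pi * Js (Real.pi * (135 / 100) * (999 / 4000)) := by
  have h1 := Real.pi_gt_d6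
  have h2 := Real.pi_lt_d6
  apply Js_ge' _ (by norm_num) _ _ rfl
  set s : ℝ := Real.pi * (135 / 100) * (999 / 4000) with hs
  have hsl : (1059 / 1000 : ℝ) ≤ s := by rw [hs]; linarith
  have hsu : s ≤ (1060 / 1000 : ℝ) := by rw [hs]; linarith
  have hs0 : 0 ≤ s := by linarith
  have q2 : s ^ 2 ≤ (1060 / 1000 : ℝ) ^ 2 := by gcongr
  have q4 : (1059 / 1000 : ℝ) ^ 4 ≤ s ^ 4 := by gcongr
  have q6 : s ^ 6 ≤ (1060 / 1000 : ℝ) ^ 6 := by gcongr
  norm_num at q2 q4 q6 ⊢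
  linarith

theorem num_S3 : (95 / 100 : ℝ) < 4 / Real.pi * Js (Real.pi * (205 / 100) * (999 / 4000)) := by
  have h1 := Real.pi_gt_d6
  have h2 := Real.pi_lt_d6
  apply Js_ge' _ (by norm_num) _ _ rfl
  set s : ℝ := Real.pi * (205 / 100) * (999 / 4000) with hs
  have hsl : (1608 / 1000 : ℝ) ≤ s := by rw [hs]; linarith
  have hsu : s ≤ (1609 / 1000 : ℝ) := by rw [hs]; linarith
  have hs0 : 0 ≤ s := by linarith
  have q2 : s ^ 2 ≤ (1609 / 1000 : ℝ) ^ 2 := by gcongr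
  have q4 : (1608 / 1000 : ℝ) ^ 4 ≤ s ^ 4 := by gcongr
  have q6 : s ^ 6 ≤ (1609 / 1000 : ℝ) ^ 6 := by gcongr
  norm_num at q2 q4 q6 ⊢
  linarith

end Pool.Agent.R321.FA
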