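import Pool.Agent.R321.FD13

/-! Large and small `k`-sums in almost all runs, for every `k`. -/

open Filter Topology Set MeasureTheory

namespace Pool.Agent.R321.FA

open RGap (IsSgn LM Ideal smI)

theorem large_k (RH : RiemannHypothesis) {k : ℕ} (hk : 4 ≤ k) :
    Runs (fun n => k + Real.sqrt k - 3 / 20 < ∑ i ∈ Finset.range k, dl0 (n + i)) := by
  have hkr : (4 : ℝ) ≤ k := by exact_mod_cast hk
  set Q := Real.sqrt (81 / 25 + 8 * k) with hQ
  have hQ2 : Q ^ 2 = 81 / 25 + 8 * k := Real.sq_sqrt (by positivity)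
  have hQ0 : 0 ≤ Q := Real.sqrt_nonneg _
  have hQ6 : 29 / 5 ≤ Q := by
    rw [hQ]; apply Real.le_sqrt_of_sq_le; norm_num; linarith
  set S := (-9 / 5 + Q) / 4 with hS
  have hS1 : 1 ≤ S := by rw [hS]; linarith
  have hkS : (k : ℝ) = 2 * S ^ 2 + 9 / 5 * S := by
    have : Q = 4 * S + 9 / 5 := by rw [hS]; ring
    rw [this] at hQ2
    linarith
  obtain ⟨ν, b, hν, hb, h⟩ := RGP.large_num hS1
  set c := (k : ℝ) + 9 / 5 * S with hc
  have hc2 : c / 2 = S ^ 2 + 9 / 5 * S := by rw [hc, hkS]; ring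
  rw [← hc2] at h
  obtain ⟨κ, B, hκ, hκ1, hB, hid⟩ := RGP.ideal_of hν hb (by linarith) h
  have hck : c - k = 9 / 5 * S := by rw [hc]; ring
  rw [← hck] at hid
  have hsq : Real.sqrt k < 9 / 5 * S + 3 / 20 := by
    rw [Real.sqrt_lt' (by positivity), hkS]
    nlinarith
  have hs0 := Real.sqrt_nonneg (k : ℝ)
  exact large_sums RH hκ hκ1 hB (Real.sqrt_pos.2 (by linarith))
    (fun m => ⟨zero_le_one, le_rfl⟩) (fun m => Or.inl rfl) (by omega) (by linarith)
    (by rw [hc]; linarith) hid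

theorem small_k (RH : RiemannHypothesis) {k : ℕ} (hk : 4 ≤ k) :
    Runs (fun n => ∑ i ∈ Finset.range k, dl0 (n + i) < k - 7 / 10 * Real.sqrt k + 37 / 100) := by
  have hkr : (4 : ℝ) ≤ k := by exact_mod_cast hk
  set Q := Real.sqrt (8 * k - 312 / 100) with hQ
  have hQ2 : Q ^ 2 = 8 * k - 312 / 100 := Real.sq_sqrt (by linarith)
  have hQ6 : 4.656 ≤ Q := by
    rw [hQ]; apply Real.le_sqrt_of_sq_le; norm_num; linarith
  set S := (1 + Q) / 4 with hS
  have hS1 : 1.414 ≤ S := by rw [hS]; linarith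
  have hkS : (k : ℝ) = 2 * S ^ 2 - S + 103 / 200 := by
    have : Q = 4 * S - 1 := by rw [hS]; ring
    rw [this] at hQ2
    linarith
  obtain ⟨ν, b, hν, hb, h⟩ := RGP.small_num hS1
  set c := (k : ℝ) - (S - 103 / 200) with hc
  have hc2 : c / 2 = S ^ 2 - S + 103 / 200 := by rw [hc, hkS]; ring
  have hcp : 0 < c / 2 := by rw [hc2]; nlinarith
  rw [← hc2] at h
  obtain ⟨κ, B, hκ, hκ1, hB, hid⟩ := RGP.ideal_of hν hb hcp h
  have hck : k - c = S - 103 / 200 := by rw [hc]; ring
  rw [← hck] at hid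
  have hsq : 7 / 10 * Real.sqrt k ≤ S - 145 / 1000 := by
    have h1 : Real.sqrt k ≤ 10 / 7 * (S - 145 / 1000) := by
      apply Real.sqrt_le_iff.2
      constructor
      · norm_num at hS1 ⊢; linarith
      · rw [hkS]; norm_num at hS1; nlinarith
    linarith
  have h2 := small_sums RH hκ hκ1 hB (Real.sqrt_pos.2 (by linarith))
    (fun m => ⟨zero_le_one, le_rfl⟩) (fun m => Or.inl rfl) (by omega) (by linarith) hid
  exact h2.of ⟨0, fun n _ _ hq => by
    rw [hc] at hq
    linarith⟩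

theorem sqrt3_bd : Real.sqrt 3 ≤ 17321 / 10000 := by
  rw [Real.sqrt_le_left (by norm_num)]; norm_num

theorem all_k (RH : RiemannHypothesis) {k : ℕ} (hk : 1 ≤ k) :
    Runs (fun n => k + Real.sqrt k - 3 / 20 < ∑ i ∈ Finset.range k, dl0 (n + i)) ∧
    Runs (fun n => ∑ i ∈ Finset.range k, dl0 (n + i) < k - 7 / 10 * Real.sqrt k + 37 / 100) := by
  obtain ⟨s2l, s2u⟩ := sqrt_two_bd
  have s3 := sqrt3_bd
  have s30 := Real.sqrt_nonneg (3 : ℝ)
  rcases (show k = 1 ∨ k = 2 ∨ k = 3 ∨ 4 ≤ k by omega) with h | h | h | h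
  · subst h
    constructor
    · rw [Nat.cast_one, Real.sqrt_one]
      exact large_Js RH (k := 1) (c := 1888 / 1000) le_rfl (by norm_num) (by norm_num) (by
        rw [show ((1888 / 1000 : ℝ) - ((1 : ℕ) : ℝ)) = 888 / 1000 by norm_num]
        exact num_large2)
    · rw [Nat.cast_one, Real.sqrt_one]
      have := small_Js RH (k := 1) (c := 6686 / 10000) le_rfl (by norm_num) (by
        rw [show (((1 : ℕ) : ℝ) - (6686 / 10000 : ℝ)) = 3314 / 10000 by norm_num]
        exact num_small)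
      exact this.of ⟨0, fun n _ _ hq => by linarith⟩
  · subst h
    constructor
    · exact large_Js RH (k := 2) (c := 33 / 10) (by norm_num) (by push_cast; linarith)
        (by push_cast; linarith) (by
        rw [show ((33 / 10 : ℝ) - ((2 : ℕ) : ℝ)) = 13 / 10 by norm_num]
        exact num_L2)
    · have := small_Js RH (k := 2) (c := 135 / 100) (by norm_num) (by norm_num) (by
        rw [show (((2 : ℕ) : ℝ) - (135 / 100 : ℝ)) = 65 / 100 by norm_num]
        exact num_S2)
      exact this.of ⟨0, fun n _ _ hq => by push_cast; linarith⟩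
  · subst h
    constructor
    · exact large_Js RH (k := 3) (c := 46 / 10) (by norm_num) (by push_cast; linarith)
        (by push_cast; linarith) (by
        rw [show ((46 / 10 : ℝ) - ((3 : ℕ) : ℝ)) = 16 / 10 by norm_num]
        exact num_L3)
    · have := small_Js RH (k := 3) (c := 205 / 100) (by norm_num) (by norm_num) (by
        rw [show (((3 : ℕ) : ℝ) - (205 / 100 : ℝ)) = 95 / 100 by norm_num]
        exact num_S3)
      exact this.of ⟨0, fun n _ _ hq => by push_cast; linarith⟩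
  · exact ⟨large_k RH h, small_k RH h⟩

end Pool.Agent.R321.FA
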