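import Pool.Agent.R321.FA9
import Pool.Agent.R321.FD1

/-! Signed weights: window averages, first part. -/

open Finset Complex MeasureTheory Filter Topology

namespace Pool.Agent.R321.FA

open LG (lk bk Cn EE Zs yp SF SM sm sm0 tm IsQ gK prs fam nA ae)
open SP (Par RHs PS Eb ZZ Mk)
open RGap (IsSgn sg aeS EES CnS)

/-- the weight -/
noncomputable def WS (P : Par) (B0 : ℕ) (r : ℝ) (F s : ℕ → ℝ) (T t : ℝ) : ℝ :=
  ‖EES P B0 r F s T t‖ ^ 2

lemma WS_nonneg (P : Par) (B0 : ℕ) (r : ℝ) (F s : ℕ → ℝ) (T t : ℝ) : 0 ≤ WS P B0 r F s T t :=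
  sq_nonneg _

lemma WS_ev (P : Par) (B0 : ℕ) (r : ℝ) (F s : ℕ → ℝ) (T t : ℝ) :
    ev t (wS P B0 r F s T) = ((WS P B0 r F s T t : ℝ) : ℂ) := ev_wS P B0 r F s T t

lemma WS_cont (P : Par) (B0 : ℕ) (r : ℝ) (F s : ℕ → ℝ) (T : ℝ) : Continuous (WS P B0 r F s T) := by
  have h := ev_cont (wS P B0 r F s T)
  have h2 := Complex.continuous_re.comp h
  refine h2.congr fun t => ?_
  simp only [Function.comp]
  rw [WS_ev, ofReal_re]

lemma WS_le (P : Par) (B0 : ℕ) (r : ℝ) (F s : ℕ → ℝ) (T t : ℝ) :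
    WS P B0 r F s T t ≤ nm (wS P B0 r F s T) := by
  have h := norm_ev_le t (wS P B0 r F s T)
  rwa [WS_ev, Complex.norm_real, Real.norm_of_nonneg (WS_nonneg _ _ _ _ _ _ _)] at h

/-- window average of the weight -/
noncomputable def AwS (P : Par) (B0 : ℕ) (r : ℝ) (F s : ℕ → ℝ) (T β t0 : ℝ) : ℝ :=
  ∫ t, om β (t - t0) * WS P B0 r F s T t

lemma AwS_nonneg (P : Par) (B0 : ℕ) (r : ℝ) (F s : ℕ → ℝ) (T : ℝ) {β : ℝ} (hβ : 0 < β) (t0 : ℝ) :
    0 ≤ AwS P B0 r F s T β t0 :=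
  integral_nonneg fun t => mul_nonneg (om_nonneg hβ _) (WS_nonneg _ _ _ _ _ _ _)

lemma AwS_eq (P : Par) (B0 : ℕ) (r : ℝ) (F s : ℕ → ℝ) (T : ℝ) {β : ℝ} (hβ : 0 < β) (t0 : ℝ) :
    av β t0 (wS P B0 r F s T) = ((AwS P B0 r F s T β t0 : ℝ) : ℂ) := by
  rw [← av_eq hβ]
  unfold AwS
  rw [← integral_complex_ofReal]
  congr 1
  funext t
  rw [WS_ev]
  push_cast
  rfl

/-- crude bound for the norm of the weight -/
lemma nm_wS (P : Par) (B0 : ℕ) (hB : P.B = 2 * B0) (r : ℝ) (F s : ℕ → ℝ) (hs : IsSgn s) : ∃ T0 : ℝ, 10 ≤ T0 ∧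
    ∀ T : ℝ, T0 ≤ T → nm (wS P B0 r F s T) ≤ T ^ 4 := by
  classical
  obtain ⟨C, T0, hC, hT0, h⟩ := LG.fam_facts P B0 hB r F
  refine ⟨T0, hT0, fun T hT => ?_⟩
  have hT10 := hT0.trans hT
  have h1 := (h T hT).2.2.1
  set S := ∑ q ∈ LG.prs P B0 T, |aqS P r F s T q| with hS
  have hS0 : 0 ≤ S := Finset.sum_nonneg fun _ _ => abs_nonneg _
  have hS2 : S ≤ T ^ 2 := by
    refine le_trans (le_of_eq ?_) h1
    rw [hS]
    refine Finset.sum_congr rfl fun q _ => ?_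
    unfold aqS
    rw [abs_mul, abs_mul, aeS_abs hs, aeS_abs hs]
  unfold nm
  set U := (wS P B0 r F s T).coeff.support with hU
  calc ∑ e ∈ U, |(wS P B0 r F s T).coeff e| ≤ ∑ e ∈ U, ∑ q ∈ LG.prs P B0 T, ∑ q' ∈ LG.prs P B0 T,
        if vv q - vv q' = e then |aqS P r F s T q| * |aqS P r F s T q'| else 0 := by
        refine Finset.sum_le_sum fun e _ => ?_
        rw [wS_coeff]
        refine (Finset.abs_sum_le_sum_abs _ _).trans (Finset.sum_le_sum fun q _ => ?_)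
        refine (Finset.abs_sum_le_sum_abs _ _).trans (Finset.sum_le_sum fun q' _ => ?_)
        split_ifs
        · rw [abs_mul]
        · rw [abs_zero]
    _ = ∑ q ∈ LG.prs P B0 T, ∑ q' ∈ LG.prs P B0 T, ∑ e ∈ U,
        if vv q - vv q' = e then |aqS P r F s T q| * |aqS P r F s T q'| else 0 := by
        rw [Finset.sum_comm]
        refine Finset.sum_congr rfl fun q _ => ?_
        rw [Finset.sum_comm]
    _ ≤ ∑ q ∈ LG.prs P B0 T, ∑ q' ∈ LG.prs P B0 T, |aqS P r F s T q| * |aqS P r F s T q'| := by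
        refine Finset.sum_le_sum fun q _ => Finset.sum_le_sum fun q' _ => ?_
        rw [Finset.sum_ite_eq]
        split_ifs
        · exact le_rfl
        · exact mul_nonneg (abs_nonneg _) (abs_nonneg _)
    _ = S * S := by rw [hS, Finset.sum_mul_sum]
    _ ≤ T ^ 2 * T ^ 2 := mul_le_mul hS2 hS2 hS0 (sq_nonneg T)
    _ = T ^ 4 := by ring

/-- the far part of the sum -/
lemma far_boundS (P : Par) (B0 : ℕ) (hB : P.B = 2 * B0) (r : ℝ) (F s : ℕ → ℝ) (hs : IsSgn s) (a c b : ℝ)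
    (hc : 0 < c) (hb : 0 < b) (hb1 : (1 - P.κ) / 2 + 2 * b ≤ 1) : ∃ T0 : ℝ, 10 ≤ T0 ∧
    ∀ T : ℝ, T0 ≤ T → ∀ n : ℕ, NN P b T < n →
      (1 - P.κ) / 2 * Real.log T + b * Real.log T ≤ Real.log n ∧
      |lk a c T n| * (nm (wS P B0 r F s T) *
        Real.exp (-(Real.log n - (1 - P.κ) / 2 * Real.log T - b * Real.log T) ^ 2 / 2)) ≤
        c * ((n : ℝ) ^ 2)⁻¹ := by
  obtain ⟨T1, hT1, h1⟩ := nm_wS P B0 hB r F s hs
  have hκ := P.hκ
  have hκ1 := P.hκ1
  obtain ⟨T2, hT2⟩ : ∃ T2 : ℝ, ∀ T : ℝ, T2 ≤ T → (2 / b ^ 2) * 19 ≤ Real.log T :=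
    (Real.tendsto_log_atTop.eventually_ge_atTop _).exists_forall_of_atTop
  refine ⟨max T1 T2, hT1.trans (le_max_left _ _), fun T hT n hn => ?_⟩
  have hTT1 : T1 ≤ T := (le_max_left _ _).trans hT
  have hL19 := hT2 T ((le_max_right _ _).trans hT)
  have hT10 := hT1.trans hTT1
  have hT0 : 0 < T := by linarith
  set L := Real.log T with hL
  have hL1 : 1 ≤ L := by
    rw [hL, Real.le_log_iff_exp_le (by linarith)]
    have := Real.exp_one_lt_d9
    linarith
  set D := (1 - P.κ) / 2 with hD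
  have hD4 : 1 / 4 ≤ D := by rw [hD]; linarith
  have hn1 : T ^ (D + 2 * b) < n := by
    have := Nat.lt_of_floor_lt hn
    exact this
  have hn0 : (0 : ℝ) < n := lt_trans (by positivity) hn1
  have hn1' : (1 : ℝ) ≤ n := by
    have : 1 ≤ n := by
      rcases Nat.eq_zero_or_pos n with h | h
      · subst h; simp at hn0
      · exact h
    exact_mod_cast this
  set y := Real.log n with hy
  have hyL : (D + 2 * b) * L ≤ y := by
    rw [hy, hL, ← Real.log_rpow hT0]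
    exact Real.log_le_log (by positivity) hn1.le
  have hbL : 0 < b * L := by positivity
  refine ⟨by nlinarith, ?_⟩
  have hy0 : 0 ≤ y := by nlinarith
  -- the exponent
  have e1 : b * L ≤ y - D * L - b * L := by nlinarith
  have e2 : b * y ≤ y - D * L - b * L := by
    -- `(1-b) y ≥ (D+b) L`
    have h3 : 0 ≤ 1 - b := by linarith
    have h4 : (1 - b) * ((D + 2 * b) * L) ≤ (1 - b) * y := mul_le_mul_of_nonneg_left hyL h3
    have h5 : (D + b) * L ≤ (1 - b) * ((D + 2 * b) * L) := by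
      have h6 : D + b ≤ (1 - b) * (D + 2 * b) := by nlinarith
      calc (D + b) * L ≤ ((1 - b) * (D + 2 * b)) * L := mul_le_mul_of_nonneg_right h6 (by linarith)
        _ = _ := by ring
    nlinarith
  have e3 : 19 * y ≤ (y - D * L - b * L) ^ 2 / 2 := by
    have h3 : (b * y) * (b * L) ≤ (y - D * L - b * L) * (y - D * L - b * L) :=
      mul_le_mul e2 e1 hbL.le (by linarith)
    have h4 : 38 ≤ b ^ 2 * L := by
      rw [div_mul_eq_mul_div, div_le_iff₀ (by positivity)] at hL19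
      linarith
    have h5 : 38 * y ≤ b ^ 2 * L * y := mul_le_mul_of_nonneg_right h4 hy0
    nlinarith
  have e4 : Real.exp (-(y - D * L - b * L) ^ 2 / 2) ≤ (n : ℝ) ^ (-19 : ℝ) := by
    rw [Real.rpow_def_of_pos hn0]
    apply Real.exp_le_exp.2
    rw [← hy]
    linarith
  have e5 : nm (wS P B0 r F s T) ≤ (n : ℝ) ^ (16 : ℝ) := by
    refine (h1 T hTT1).trans ?_
    have h2 : T ≤ (n : ℝ) ^ (4 : ℝ) := by
      have h3 : T ^ (1 / 4 : ℝ) ≤ n := by
        refine le_trans ?_ hn1.le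
        apply Real.rpow_le_rpow_of_exponent_le (by linarith)
        linarith
      calc T = (T ^ (1 / 4 : ℝ)) ^ (4 : ℝ) := by
            rw [← Real.rpow_mul hT0.le]; norm_num
        _ ≤ _ := Real.rpow_le_rpow (by positivity) h3 (by norm_num)
    calc T ^ 4 ≤ ((n : ℝ) ^ (4 : ℝ)) ^ 4 := by gcongr
      _ = (n : ℝ) ^ (16 : ℝ) := by
          rw [← Real.rpow_natCast, ← Real.rpow_mul hn0.le]; norm_num
  have e6 : |lk a c T n| ≤ c * n := by
    unfold LG.lk
    rw [abs_mul, abs_mul, abs_of_nonneg ArithmeticFunction.vonMangoldt_nonneg,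
      abs_of_nonneg (by positivity : (0:ℝ) ≤ (n : ℝ) ^ (-(1 / 2) : ℝ))]
    have h2 : ArithmeticFunction.vonMangoldt n ≤ n := by
      refine ArithmeticFunction.vonMangoldt_le_log.trans ?_
      have := Real.log_le_sub_one_of_pos hn0
      linarith
    have h3 : (n : ℝ) ^ (-(1 / 2) : ℝ) ≤ 1 := Real.rpow_le_one_of_one_le_of_nonpos hn1' (by norm_num)
    have h4 := LG.bk_le a c T n hc
    calc ArithmeticFunction.vonMangoldt n * (n : ℝ) ^ (-(1 / 2) : ℝ) * |bk a c T n| ≤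
        n * 1 * c := by
          apply mul_le_mul _ h4 (abs_nonneg _) (by positivity)
          exact mul_le_mul h2 h3 (by positivity) (by positivity)
      _ = _ := by ring
  exact far_aux hc hn0 (nm_nonneg _) (Real.exp_nonneg _) e6 e5 e4

end Pool.Agent.R321.FA
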