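import Pool.Agent.R321.FA10
import Pool.Agent.R321.FD2

/-! Signed weights: window averages. -/

open Finset Complex MeasureTheory Filter Topology

namespace Pool.Agent.R321.FA

open LG (lk bk Cn EE Zs yp SF SM sm sm0 tm IsQ gK prs fam nA ae)
open SP (Par RHs PS Eb ZZ Mk)
open RGap (IsSgn sg aeS EES CnS)

lemma WS_om_int (P : Par) (B0 : ℕ) (r : ℝ) (F s : ℕ → ℝ) (T : ℝ) {β : ℝ} (hβ : 0 < β) (t0 : ℝ) :
    Integrable (fun t => om β (t - t0) * WS P B0 r F s T t) := by
  have h1 : Integrable (fun t => nm (wS P B0 r F s T) * om β (t - t0)) :=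
    ((om_int hβ).comp_sub_right t0).const_mul _
  refine h1.mono' ?_ (Eventually.of_forall fun t => ?_)
  · apply Continuous.aestronglyMeasurable
    exact ((om_cont β).comp (by fun_prop)).mul (WS_cont P B0 r F s T)
  · rw [Real.norm_of_nonneg (mul_nonneg (om_nonneg hβ _) (WS_nonneg _ _ _ _ _ _ _)), mul_comm]
    exact mul_le_mul_of_nonneg_right (WS_le _ _ _ _ _ _ _) (om_nonneg hβ _)

set_option maxHeartbeats 4000000 in
/-- the window average of `|E|² ZF` -/
theorem loc1S (P : Par) (B0 B1 : ℕ) (hB : P.B = 2 * B0) (hB1 : 2 * B1 ≤ B0) (r : ℝ) (F s : ℕ → ℝ)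
    (hs : IsSgn s)
    (hF : ∀ n, B1 < n → F n = 0) (a c b : ℝ) (hc : 0 < c) (hb : 0 < b)
    (hb1 : (1 - P.κ) / 2 + 2 * b ≤ 1) : ∃ C T0 : ℝ, 0 < C ∧ 10 ≤ T0 ∧ ∀ T : ℝ, T0 ≤ T →
    ∀ t0 : ℝ, Integrable (fun t => om (b * Real.log T) (t - t0) * WS P B0 r F s T t * ZF a c T t) ∧
    |(∫ t, om (b * Real.log T) (t - t0) * WS P B0 r F s T t * ZF a c T t) -
      (av (b * Real.log T) t0 (wS P B0 r F s T * pp a c T (NN P b T))).re| ≤
      C / Real.log T * (AwS P B0 r F s T (b * Real.log T) t0 + 1) := by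
  classical
  obtain ⟨T1, hT1, hfar⟩ := far_boundS P B0 hB r F s hs a c b hc hb hb1
  obtain ⟨C2, hC2, hsum⟩ := LG.lk_summable a c hc
  set G3 := ∑' n, g3 n with hG3
  have hG30 : 0 ≤ G3 := tsum_nonneg g3_nonneg
  have hZ2s : Summable (fun n : ℕ => ((n : ℝ) ^ 2)⁻¹) := by
    have := Real.summable_nat_pow_inv (p := 2)
    exact this.2 (by norm_num)
  set Z2 := ∑' n : ℕ, ((n : ℝ) ^ 2)⁻¹ with hZ2
  have hZ20 : 0 ≤ Z2 := tsum_nonneg fun n => by positivity
  refine ⟨2 * c * (G3 + Z2) + 1, T1, by positivity, hT1, fun T hT t0 => ?_⟩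
  have hT10 := hT1.trans hT
  have hT0 : 0 < T := by linarith
  set L := Real.log T with hL
  have hL1 : 1 ≤ L := by
    rw [hL, Real.le_log_iff_exp_le (by linarith)]
    have := Real.exp_one_lt_d9
    linarith
  set β := b * L with hβd
  have hβ : 0 < β := by positivity
  set w := wS P B0 r F s T with hw
  set N := NN P b T with hN
  obtain ⟨hlks, -⟩ := hsum T hT10
  set W : ℝ → ℝ := WS P B0 r F s T with hW
  have hW0 : ∀ t, 0 ≤ W t := WS_nonneg P B0 r F s T
  have hWc : Continuous W := WS_cont P B0 r F s T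
  have hevw : ∀ t, ev t w = ((W t : ℝ) : ℂ) := WS_ev P B0 r F s T
  set o : ℝ → ℝ := fun t => om β (t - t0) with ho
  have ho0 : ∀ t, 0 ≤ o t := fun t => om_nonneg hβ _
  have hoc : Continuous o := (om_cont β).comp (by fun_prop)
  set A := AwS P B0 r F s T β t0 with hA
  have hA0 : 0 ≤ A := AwS_nonneg P B0 r F s T hβ t0
  have hoW : Integrable (fun t => o t * W t) := WS_om_int P B0 r F s T hβ t0
  -- the characters
  set e : ℕ → ℝ → ℂ := fun n t => cexp (-(I * ((t * Real.log n : ℝ) : ℂ))) with he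
  have hec : ∀ n, Continuous (e n) := fun n => by rw [he]; fun_prop
  have hen : ∀ n t, ‖e n t‖ = 1 := fun n t => norm_tw _
  set Sf : ℝ → ℂ := fun t => ∑' n : ℕ, (lk a c T n : ℂ) * e n t with hSf
  have hnorm : ∀ (n : ℕ) (t : ℝ), ‖(lk a c T n : ℂ) * e n t‖ = |lk a c T n| := by
    intro n t
    rw [norm_mul, hen, mul_one, Complex.norm_real, Real.norm_eq_abs]
  have hSfsum : ∀ t : ℝ, Summable fun n : ℕ => (lk a c T n : ℂ) * e n t := by
    intro t
    apply Summable.of_norm
    simp only [hnorm]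
    exact hlks
  have hSfc : Continuous Sf := by
    rw [hSf]
    apply continuous_tsum (u := fun n => |lk a c T n|) _ hlks
    · intro n t
      rw [hnorm]
    · intro n
      exact continuous_const.mul (hec n)
  set Λ := ∑' n, |lk a c T n| with hΛ
  have hSfn : ∀ t, ‖Sf t‖ ≤ Λ := by
    intro t
    rw [hSf]
    exact tsum_of_norm_bounded hlks.hasSum (fun n => (hnorm n t).le)
  -- integrals
  set J : ℕ → ℂ := fun n => ∫ t, ((o t : ℝ) : ℂ) * (ev t w * e n t) with hJ
  have hFint : ∀ n, Integrable (fun t => ((o t : ℝ) : ℂ) * (ev t w * e n t)) := by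
    intro n
    exact ev_tw_int hβ t0 (Real.log n) w
  have hFn : ∀ n t, ‖((o t : ℝ) : ℂ) * (ev t w * e n t)‖ = o t * W t := by
    intro n t
    rw [norm_mul, norm_mul, hen, mul_one, hevw, Complex.norm_real, Complex.norm_real,
      Real.norm_of_nonneg (ho0 t), Real.norm_of_nonneg (hW0 t)]
  have hJn : ∀ n, ‖J n‖ ≤ A := by
    intro n
    rw [hJ]
    refine (norm_integral_le_integral_norm _).trans (le_of_eq ?_)
    simp_rw [hFn]
    rfl
  have hhas : HasSum (fun n : ℕ => (lk a c T n : ℂ) * J n)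
      (∫ t, ((o t : ℝ) : ℂ) * (ev t w * Sf t)) := by
    have h1 := hasSum_integral_of_summable_integral_norm (μ := volume)
      (F := fun (n : ℕ) (t : ℝ) => (lk a c T n : ℂ) * (((o t : ℝ) : ℂ) * (ev t w * e n t)))
      (fun n => (hFint n).const_mul _) (by
        have h2 : (fun n : ℕ => ∫ t, ‖(lk a c T n : ℂ) * (((o t : ℝ) : ℂ) * (ev t w * e n t))‖) =
            fun n => |lk a c T n| * A := by
          funext n
          have h3 : ∀ t, ‖(lk a c T n : ℂ) * (((o t : ℝ) : ℂ) * (ev t w * e n t))‖ =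
              |lk a c T n| * (o t * W t) := by
            intro t
            rw [norm_mul, hFn, Complex.norm_real, Real.norm_eq_abs]
          simp_rw [h3]
          rw [integral_const_mul]
          rfl
        rw [h2]
        exact hlks.mul_right A)
    have h2 : (fun n : ℕ => ∫ t, (lk a c T n : ℂ) * (((o t : ℝ) : ℂ) * (ev t w * e n t))) =
        fun n => (lk a c T n : ℂ) * J n := by
      funext n
      rw [integral_const_mul]
    rw [h2] at h1
    have h5 : (fun t => ((o t : ℝ) : ℂ) * (ev t w * Sf t)) = fun t => ∑' n : ℕ,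
        (lk a c T n : ℂ) * (((o t : ℝ) : ℂ) * (ev t w * e n t)) := by
      funext t
      rw [hSf]
      simp only
      rw [← tsum_mul_left, ← tsum_mul_left]
      refine tsum_congr fun n => ?_
      ring
    rw [h5]
    exact h1
  -- remove the kept part
  set R : ℂ := (∫ t, ((o t : ℝ) : ℂ) * (ev t w * Sf t)) - ∑ n ∈ S12 N, (lk a c T n : ℂ) * J n
    with hR
  have hhas2 : HasSum (fun n : ℕ => if n ∈ S12 N then 0 else (lk a c T n : ℂ) * J n) R := by
    have h1 : HasSum (fun n : ℕ => if n ∈ S12 N then (lk a c T n : ℂ) * J n else 0)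
        (∑ n ∈ S12 N, (lk a c T n : ℂ) * J n) := by
      have h2 : HasSum (fun n : ℕ => if n ∈ S12 N then (lk a c T n : ℂ) * J n else 0)
          (∑ n ∈ S12 N, if n ∈ S12 N then (lk a c T n : ℂ) * J n else 0) :=
        hasSum_sum_of_ne_finset_zero (fun n hn => if_neg hn)
      rw [Finset.sum_congr rfl (fun n hn => if_pos hn)] at h2
      exact h2
    have h3 := hhas.sub h1
    have h4 : (fun n : ℕ => if n ∈ S12 N then 0 else (lk a c T n : ℂ) * J n) =
        fun n : ℕ => (lk a c T n : ℂ) * J n -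
          (if n ∈ S12 N then (lk a c T n : ℂ) * J n else 0) := by
      funext n
      split_ifs <;> simp
    rw [h4]
    exact h3
  have hRb : ‖R‖ ≤ A * (c * G3) + c * Z2 := by
    have hu : HasSum (fun n : ℕ => A * (c * g3 n) + c * ((n : ℝ) ^ 2)⁻¹)
        (A * (c * G3) + c * Z2) :=
      ((g3_summable.1.hasSum.mul_left c).mul_left A).add (hZ2s.hasSum.mul_left c)
    rw [← hhas2.tsum_eq]
    refine tsum_of_norm_bounded hu fun n => ?_
    have p1 : 0 ≤ A * (c * g3 n) := mul_nonneg hA0 (mul_nonneg hc.le (g3_nonneg n))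
    have p2 : 0 ≤ c * ((n : ℝ) ^ 2)⁻¹ := by positivity
    split_ifs with hn
    · rw [norm_zero]; linarith
    · rw [norm_mul, Complex.norm_real, Real.norm_eq_abs]
      rcases le_or_gt n N with hnN | hnN
      · have h1 := lk_out (a := a) (T := T) hc hn hnN
        calc |lk a c T n| * ‖J n‖ ≤ (c * g3 n) * A := by
              apply mul_le_mul h1 (hJn n) (norm_nonneg _) (mul_nonneg hc.le (g3_nonneg n))
          _ = A * (c * g3 n) := by ring
          _ ≤ _ := by linarith
      · obtain ⟨h1, h2⟩ := hfar T hT n hnN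
        have h3 := tw_le hβ t0 (f := w) (H := (1 - P.κ) / 2 * L) (y := Real.log n)
          (fun e he => (wS_ht hB hT10 hB1 hF e he).1) h1
        calc |lk a c T n| * ‖J n‖ ≤ |lk a c T n| * (nm w * Real.exp (-(Real.log n -
              (1 - P.κ) / 2 * L - β) ^ 2 / 2)) := by
              apply mul_le_mul_of_nonneg_left _ (abs_nonneg _)
              exact h3
          _ ≤ c * ((n : ℝ) ^ 2)⁻¹ := h2
          _ ≤ _ := by linarith
  -- integrability
  have hZFc : Continuous (ZF a c T) := by
    unfold ZF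
    exact continuous_const.sub (continuous_const.mul (Complex.continuous_re.comp hSfc))
  have hSint : Integrable (fun t => ((o t : ℝ) : ℂ) * (ev t w * Sf t)) := by
    refine (hoW.mul_const Λ).mono' ?_ (Eventually.of_forall fun t => ?_)
    · apply Continuous.aestronglyMeasurable
      have := ev_cont w
      fun_prop
    · rw [norm_mul, norm_mul, hevw, Complex.norm_real, Complex.norm_real,
        Real.norm_of_nonneg (ho0 t), Real.norm_of_nonneg (hW0 t), ← mul_assoc]
      exact mul_le_mul_of_nonneg_left (hSfn t) (mul_nonneg (ho0 t) (hW0 t))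
  have hSre : Integrable (fun t => o t * W t * (Sf t).re) := by
    have h1 := hSint.re
    refine h1.congr (Eventually.of_forall fun t => ?_)
    show (((o t : ℝ) : ℂ) * (ev t w * Sf t)).re = _
    rw [hevw, ← mul_assoc, ← ofReal_mul, re_ofReal_mul]
  have hZint : Integrable (fun t => o t * W t * ZF a c T t) := by
    have h1 := (hoW.mul_const c).sub (hSre.mul_const (2 / L))
    refine h1.congr (Eventually.of_forall fun t => ?_)
    show o t * W t * c - o t * W t * (Sf t).re * (2 / L) = o t * W t * ZF a c T t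
    unfold ZF
    ring
  refine ⟨hZint, ?_⟩
  -- the value
  have hv1 : ∫ t, o t * W t * ZF a c T t = c * A -
      (2 / L) * (∫ t, ((o t : ℝ) : ℂ) * (ev t w * Sf t)).re := by
    have h1 : (∫ t, ((o t : ℝ) : ℂ) * (ev t w * Sf t)).re = ∫ t, o t * W t * (Sf t).re := by
      have h2 := integral_re hSint
      have h3 : ∀ t, RCLike.re (((o t : ℝ) : ℂ) * (ev t w * Sf t)) = o t * W t * (Sf t).re := by
        intro t
        show (((o t : ℝ) : ℂ) * (ev t w * Sf t)).re = _
        rw [hevw, ← mul_assoc, ← ofReal_mul, re_ofReal_mul]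
      simp_rw [h3] at h2
      exact h2.symm
    rw [h1]
    have h4 : ∀ t, o t * W t * ZF a c T t = c * (o t * W t) - (2 / L) * (o t * W t * (Sf t).re) := by
      intro t
      unfold ZF
      ring
    simp_rw [h4]
    rw [integral_sub (hoW.const_mul c) (hSre.const_mul _), integral_const_mul,
      integral_const_mul]
    rfl
  have hv2 : av β t0 (w * pp a c T N) = ((c * A : ℝ) : ℂ) -
      ((2 / L : ℝ) : ℂ) * ∑ n ∈ S12 N, (lk a c T n : ℂ) * J n := by
    rw [← av_eq hβ]
    have h1 : ∀ t, ((om β (t - t0) : ℝ) : ℂ) * ev t (w * pp a c T N) =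
        (c : ℂ) * ((o t * W t : ℝ) : ℂ) - ((2 / L : ℝ) : ℂ) * ∑ n ∈ S12 N, (lk a c T n : ℂ) *
          (((o t : ℝ) : ℂ) * (ev t w * e n t)) := by
      intro t
      rw [map_mul, ev_pp, mul_sub, mul_sub]
      congr 1
      · rw [hevw]; push_cast; ring
      · rw [Finset.mul_sum, Finset.mul_sum, Finset.mul_sum, Finset.mul_sum]
        refine Finset.sum_congr rfl fun n _ => ?_
        rw [he]
        ring
    simp_rw [h1]
    have i1 : Integrable (fun t => (c : ℂ) * ((o t * W t : ℝ) : ℂ)) := (hoW.ofReal).const_mul _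
    have i2 : ∀ n ∈ S12 N, Integrable (fun t => (lk a c T n : ℂ) *
          (((o t : ℝ) : ℂ) * (ev t w * e n t))) := fun n _ => (hFint n).const_mul _
    rw [integral_sub i1 ((integrable_finsetSum _ i2).const_mul _), integral_const_mul,
      integral_const_mul, integral_finsetSum _ i2, integral_complex_ofReal]
    congr 1
    · rw [ofReal_mul]; rfl
    · congr 1
      refine Finset.sum_congr rfl fun n _ => ?_
      rw [integral_const_mul]
  have hdiff : (∫ t, o t * W t * ZF a c T t) - (av β t0 (w * pp a c T N)).re =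
      -(2 / L) * R.re := by
    rw [hv1, hv2, hR, sub_re, sub_re, re_ofReal_mul, ofReal_re]
    ring
  show |(∫ t, o t * W t * ZF a c T t) - (av β t0 (w * pp a c T N)).re| ≤ _
  rw [hdiff, abs_mul, abs_neg, abs_of_pos (by positivity : 0 < 2 / L)]
  have h5 := (Complex.abs_re_le_norm R).trans hRb
  calc 2 / L * |R.re| ≤ 2 / L * (A * (c * G3) + c * Z2) := by gcongr
    _ = (2 * c * (A * G3 + Z2)) / L := by ring
    _ ≤ ((2 * c * (G3 + Z2) + 1) * (A + 1)) / L := by
        apply div_le_div_of_nonneg_right _ (by linarith)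
        have q1 : 0 ≤ c * G3 := by positivity
        have q2 : 0 ≤ c * Z2 := by positivity
        have q3 : 0 ≤ c * Z2 * A := by positivity
        nlinarith
    _ = _ := by ring

end Pool.Agent.R321.FA
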