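import Pool.Agent.R321.FA11
import Pool.Agent.R321.FD3

/-! Signed weights: localisation. -/

open Finset Complex MeasureTheory Filter Topology

namespace Pool.Agent.R321.FA

open LG (lk bk Cn EE Zs yp SF SM sm sm0 tm IsQ gK prs fam nA ae)
open SP (Par RHs PS Eb ZZ Mk)
open RGap (IsSgn sg aeS EES CnS)

set_option maxHeartbeats 4000000 in
/-- localisation -/
theorem loc2S (hRH : RHs) (P : Par) (B0 B1 : ℕ) (hB : P.B = 2 * B0) (hB1 : 2 * B1 ≤ B0) (r : ℝ)
    (F s : ℕ → ℝ) (hs : IsSgn s) (hF : ∀ n, B1 < n → F n = 0) (a c b : ℝ) (ha : 0 < a) (hc : 0 < c) (hb : 0 < b)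
    (hb1 : (1 - P.κ) / 2 + 2 * b ≤ 1) : ∃ C T0 : ℝ, 0 < C ∧ 10 ≤ T0 ∧ ∀ T : ℝ, T0 ≤ T →
    ∀ t0 : ℝ, T + 2 * Real.log T ^ 3 ≤ t0 → t0 ≤ 2 * T - 2 * Real.log T ^ 3 →
    |(∫ t in (t0 - Real.log T ^ 3)..(t0 + Real.log T ^ 3),
        om (b * Real.log T) (t - t0) * WS P B0 r F s T t * Zs a c T t) -
      (av (b * Real.log T) t0 (wS P B0 r F s T * pp a c T (NN P b T))).re| ≤
      C / Real.log T * (AwS P B0 r F s T (b * Real.log T) t0 + 1) := by
  classical
  obtain ⟨C1, T1, hC1, hT1, h1⟩ := loc1S P B0 B1 hB hB1 r F s hs hF a c b hc hb hb1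
  obtain ⟨C2, hC2, hsum⟩ := LG.lk_summable a c hc
  obtain ⟨T3, hT3, h3⟩ := tail_small b c C2 hb hc hC2
  obtain ⟨C4, T4, hC4, hT4, h4⟩ := LG.MeanAux.ZEF' hRH a c ha hc
  obtain ⟨T5, hT5, h5⟩ := nm_wS P B0 hB r F s hs
  refine ⟨C1 + 1 + C4, max (max T1 T3) (max T4 T5), by positivity,
    hT1.trans ((le_max_left _ _).trans (le_max_left _ _)), fun T hT t0 ht1 ht2 => ?_⟩
  simp only [max_le_iff] at hT
  obtain ⟨⟨hTT1, hTT3⟩, hTT4, hTT5⟩ := hT
  have hT10 := hT1.trans hTT1
  obtain ⟨hZint, hl1⟩ := h1 T hTT1 t0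
  obtain ⟨hlks, hΛ⟩ := hsum T hT10
  have h3' := h3 T hTT3
  have hw4 := h5 T hTT5
  set L := Real.log T with hL
  have hL1 : 1 ≤ L := by
    rw [hL, Real.le_log_iff_exp_le (by linarith)]
    have := Real.exp_one_lt_d9
    linarith
  have hL3 : L ≤ L ^ 3 := le_self_pow₀ hL1 (by norm_num)
  set R := L ^ 3 with hR
  have hR0 : 0 ≤ R := by linarith
  set β := b * L with hβd
  have hβ : 0 < β := by positivity
  set A := AwS P B0 r F s T β t0 with hA
  have hA0 : 0 ≤ A := AwS_nonneg P B0 r F s T hβ t0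
  have hoW : Integrable (fun t => om β (t - t0) * WS P B0 r F s T t) := WS_om_int P B0 r F s T hβ t0
  have hoWc : Continuous (fun t => om β (t - t0) * WS P B0 r F s T t) :=
    ((om_cont β).comp (by fun_prop)).mul (WS_cont P B0 r F s T)
  have hoW0 : ∀ t, 0 ≤ om β (t - t0) * WS P B0 r F s T t := fun t =>
    mul_nonneg (om_nonneg hβ _) (WS_nonneg _ _ _ _ _ _ _)
  -- continuity of ZF
  have hnorm : ∀ (n : ℕ) (t : ℝ), ‖(lk a c T n : ℂ) * cexp (-(I * ((t * Real.log n : ℝ) : ℂ)))‖ =
      |lk a c T n| := by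
    intro n t
    rw [norm_mul, norm_tw, mul_one, Complex.norm_real, Real.norm_eq_abs]
  have hSfc : Continuous (fun t : ℝ => ∑' n : ℕ, (lk a c T n : ℂ) *
      cexp (-(I * ((t * Real.log n : ℝ) : ℂ)))) := by
    apply continuous_tsum (u := fun n => |lk a c T n|) _ hlks
    · intro n t
      rw [hnorm]
    · intro n
      fun_prop
  have hZFc : Continuous (ZF a c T) := by
    unfold ZF
    exact continuous_const.sub (continuous_const.mul (Complex.continuous_re.comp hSfc))
  have hZFb : ∀ t, |ZF a c T t| ≤ c + 2 * (C2 * Real.exp (L ^ 4)) := by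
    intro t
    unfold ZF
    have h6 : ‖∑' n : ℕ, (lk a c T n : ℂ) * cexp (-(I * ((t * Real.log n : ℝ) : ℂ)))‖ ≤
        C2 * Real.exp (L ^ 4) :=
      (tsum_of_norm_bounded hlks.hasSum (fun n => (hnorm n t).le)).trans hΛ
    have h7 := (Complex.abs_re_le_norm _).trans h6
    refine (abs_sub _ _).trans ?_
    rw [abs_of_pos hc, abs_mul, abs_of_pos (by positivity : 0 < 2 / Real.log T)]
    have h8 : 2 / Real.log T ≤ 2 := div_le_self (by norm_num) hL1
    have h9 : 2 / Real.log T * |(∑' n : ℕ, (lk a c T n : ℂ) *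
        cexp (-(I * ((t * Real.log n : ℝ) : ℂ)))).re| ≤ 2 * (C2 * Real.exp (L ^ 4)) := by
      gcongr
    linarith
  have hZsc : Continuous (Zs a c T) := LG.MeanAux.Zs_cont a c T (by linarith)
  -- tail
  have htail := LG.MeanAux.tail_int
    (fun t => ((om β (t - t0) * WS P B0 r F s T t * ZF a c T t : ℝ) : ℂ)) t0 1 (t0 - R) (t0 + R) R
    (b * L * T ^ 4 * (c + 2 * (C2 * Real.exp (L ^ 4)))) one_pos hR0 (by linarith) (by linarith)
    le_rfl (Complex.continuous_ofReal.comp (hoWc.mul hZFc)) (by positivity) (fun t => by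
      rw [Complex.norm_real, Real.norm_eq_abs, abs_mul, abs_of_nonneg (hoW0 t)]
      have h6 := om_le hβ (t - t0)
      have h7 : SP.wt t0 1 t = Real.exp (-(t - t0) ^ 2 / 2) := by
        unfold SP.wt; norm_num
      have h8 := (WS_le P B0 r F s T t).trans hw4
      have h9 := hZFb t
      rw [h7]
      calc om β (t - t0) * WS P B0 r F s T t * |ZF a c T t| ≤
          (β * Real.exp (-(t - t0) ^ 2 / 2)) * T ^ 4 * (c + 2 * (C2 * Real.exp (L ^ 4))) := by
            have g1 := WS_nonneg P B0 r F s T t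
            have g2 := om_nonneg hβ (t - t0)
            gcongr
        _ = _ := by rw [hβd]; ring)
  have htail' : |(∫ t in (t0 - R)..(t0 + R), om β (t - t0) * WS P B0 r F s T t * ZF a c T t) -
      ∫ t, om β (t - t0) * WS P B0 r F s T t * ZF a c T t| ≤ 1 / L := by
    rw [intervalIntegral.integral_ofReal, integral_complex_ofReal, ← ofReal_sub,
      Complex.norm_real, Real.norm_eq_abs] at htail
    exact htail.trans h3'
  -- comparison with the explicit formula
  have hcmp : |(∫ t in (t0 - R)..(t0 + R), om β (t - t0) * WS P B0 r F s T t * Zs a c T t) -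
      ∫ t in (t0 - R)..(t0 + R), om β (t - t0) * WS P B0 r F s T t * ZF a c T t| ≤ C4 / L * A := by
    have k1 : Continuous (fun t => om β (t - t0) * WS P B0 r F s T t * Zs a c T t) := hoWc.mul hZsc
    have k2 : Continuous (fun t => om β (t - t0) * WS P B0 r F s T t * ZF a c T t) := hoWc.mul hZFc
    rw [← intervalIntegral.integral_sub (k1.intervalIntegrable _ _) (k2.intervalIntegrable _ _),
      ← Real.norm_eq_abs]
    calc _ ≤ ∫ t in (t0 - R)..(t0 + R), C4 / L * (om β (t - t0) * WS P B0 r F s T t) := by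
          apply intervalIntegral.norm_integral_le_of_norm_le (by linarith)
          · refine Eventually.of_forall fun t ht => ?_
            rw [← mul_sub, Real.norm_eq_abs, abs_mul, abs_of_nonneg (hoW0 t), mul_comm (C4 / L)]
            apply mul_le_mul_of_nonneg_left _ (hoW0 t)
            have h6 := h4 T hTT4 t (by linarith [ht.1]) (by linarith [ht.2])
            exact h6
          · exact (hoWc.const_mul _).intervalIntegrable _ _
      _ = C4 / L * ∫ t in (t0 - R)..(t0 + R), om β (t - t0) * WS P B0 r F s T t := by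
          rw [intervalIntegral.integral_const_mul]
      _ ≤ C4 / L * A := by
          apply mul_le_mul_of_nonneg_left _ (by positivity)
          rw [intervalIntegral.integral_of_le (by linarith)]
          exact setIntegral_le_integral hoW (Eventually.of_forall hoW0)
  have hfin : |(∫ t in (t0 - R)..(t0 + R), om β (t - t0) * WS P B0 r F s T t * Zs a c T t) -
      (av β t0 (wS P B0 r F s T * pp a c T (NN P b T))).re| ≤
      C4 / L * A + 1 / L + C1 / L * (A + 1) := by
    have e : (∫ t in (t0 - R)..(t0 + R), om β (t - t0) * WS P B0 r F s T t * Zs a c T t) -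
      (av β t0 (wS P B0 r F s T * pp a c T (NN P b T))).re =
      ((∫ t in (t0 - R)..(t0 + R), om β (t - t0) * WS P B0 r F s T t * Zs a c T t) -
      ∫ t in (t0 - R)..(t0 + R), om β (t - t0) * WS P B0 r F s T t * ZF a c T t) +
      ((∫ t in (t0 - R)..(t0 + R), om β (t - t0) * WS P B0 r F s T t * ZF a c T t) -
      ∫ t, om β (t - t0) * WS P B0 r F s T t * ZF a c T t) +
      ((∫ t, om β (t - t0) * WS P B0 r F s T t * ZF a c T t) -
      (av β t0 (wS P B0 r F s T * pp a c T (NN P b T))).re) := by ring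
    rw [e]
    exact (abs_add_three _ _ _).trans (add_le_add (add_le_add hcmp htail') hl1)
  refine hfin.trans ?_
  have e : C4 / L * A + 1 / L + C1 / L * (A + 1) = (C4 * A + 1 + C1 * (A + 1)) / L := by ring
  have e' : (C1 + 1 + C4) / L * (A + 1) = ((C1 + 1 + C4) * (A + 1)) / L := by ring
  rw [e, e']
  apply div_le_div_of_nonneg_right _ (by linarith)
  nlinarith

end Pool.Agent.R321.FA
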