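import Pool.Agent.R321.FA13
import Pool.Agent.R321.FD4

/-! Signed weights: the law of large numbers. -/

open Finset Complex MeasureTheory Filter Topology

namespace Pool.Agent.R321.FA

open LG (lk bk Cn EE Zs yp SF SM sm sm0 tm IsQ gK prs fam nA ae)
open SP (Par RHs PS Eb ZZ Mk)
open RGap (IsSgn sg aeS EES CnS)

/-- the constant term -/
lemma tsum_S12S {P : Par} {B0 B1 : ℕ} (hB : P.B = 2 * B0) (hB1 : 2 * B1 ≤ B0) {r : ℝ}
    {F s : ℕ → ℝ} (hs : IsSgn s) (hF : ∀ n, B1 < n → F n = 0) (a c : ℝ) {b T : ℝ} (hb : 0 < b) (hT : 10 ≤ T) :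
    ∑' n : ℕ, lk a c T n * CnS P B0 r F s T n =
      ∑ n ∈ S12 (NN P b T), lk a c T n * CnS P B0 r F s T n := by
  apply tsum_eq_sum
  intro n hn
  by_cases h0 : ArithmeticFunction.vonMangoldt n = 0
  · unfold LG.lk
    rw [h0]; ring
  · have hpp : IsPrimePow n := by
      by_contra h
      exact h0 (ArithmeticFunction.vonMangoldt_eq_zero_iff.2 h)
    obtain ⟨p, k, hp, hk, rfl⟩ := (isPrimePow_nat_iff n).mp hpp
    rcases le_or_gt (p ^ k) (NN P b T) with hle | hgt
    · have hk3 : 3 ≤ k := by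
        by_contra hcon
        have hk2 : k = 1 ∨ k = 2 := by omega
        apply hn
        unfold S12
        rw [Finset.mem_union, Finset.mem_image]
        rcases hk2 with h | h
        · left
          subst h
          rw [pow_one] at hle ⊢
          exact mem_PN.2 ⟨hp, hle⟩
        · right
          subst h
          refine ⟨p, ?_, rfl⟩
          unfold PN2
          rw [Finset.mem_filter]
          refine ⟨mem_PN.2 ⟨hp, ?_⟩, hle⟩
          have := hp.two_le
          nlinarith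
      rw [(RGap.SGN_proof P B0 r F s T hs hT).2.2.2 p k hp hk (Or.inr hk3), mul_zero]
    · rw [CnS_big hB hT hB1 hF hp, mul_zero]
      have hT0 : 0 < T := by linarith
      have h1 : T ^ ((1 - P.κ) / 2 + 2 * b) < ((p ^ k : ℕ) : ℝ) := Nat.lt_of_floor_lt hgt
      have h2 : T ^ ((1 - P.κ) / 2) ≤ T ^ ((1 - P.κ) / 2 + 2 * b) :=
        Real.rpow_le_rpow_of_exponent_le (by linarith) (by linarith)
      rw [← Real.log_rpow hT0]
      exact Real.log_lt_log (by positivity) (lt_of_le_of_lt h2 h1)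

lemma gg_constS {P : Par} {B0 B1 : ℕ} (hB : P.B = 2 * B0) (hB1 : 2 * B1 ≤ B0) {r : ℝ}
    {F s : ℕ → ℝ} (hs : IsSgn s) (hF : ∀ n, B1 < n → F n = 0) (a c : ℝ) {b T : ℝ} (hb : 0 < b) (hT : 10 ≤ T) :
    (wS P B0 r F s T * pp a c T (NN P b T)).coeff 0 = c * CnS P B0 r F s T 1 -
      2 / Real.log T * ∑' n : ℕ, lk a c T n * CnS P B0 r F s T n := by
  have e1 : ∑ p ∈ PN (NN P b T), lk a c T p * CnS P B0 r F s T p =
      ∑ p ∈ PN (NN P b T), lk a c T p * (wS P B0 r F s T).coeff (1 • ds p) := by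
    refine Finset.sum_congr rfl fun p hp => ?_
    rw [wS_Cn P B0 r F s T (mem_PN.1 hp).1, pow_one]
  have e2 : ∑ p ∈ PN2 (NN P b T), lk a c T (p ^ 2) * CnS P B0 r F s T (p ^ 2) =
      ∑ p ∈ PN2 (NN P b T), lk a c T (p ^ 2) * (wS P B0 r F s T).coeff (2 • ds p) := by
    refine Finset.sum_congr rfl fun p hp => ?_
    rw [wS_Cn P B0 r F s T (mem_PN.1 ((Finset.filter_subset _ _) hp)).1]
  rw [gg_zero, wS_zero, tsum_S12S hB hB1 hs hF a c hb hT, S12_sum, e1, e2]

set_option maxHeartbeats 4000000 in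
/-- **law of large numbers** -/
theorem llnS (P : Par) (B0 B1 : ℕ) (hB : P.B = 2 * B0) (hB1 : 2 * B1 ≤ B0) (r : ℝ)
    (F s : ℕ → ℝ) (hs : IsSgn s) (hF : ∀ n, B1 < n → F n = 0) (a c : ℝ) (hc : 0 < c) (a0 d0 : ℝ)
    (h1 : Tendsto (fun T : ℝ => CnS P B0 r F s T 1) atTop (𝓝 a0))
    (h2 : Tendsto (fun T : ℝ => (2 / Real.log T) * ∑' n : ℕ, lk a c T n * CnS P B0 r F s T n) atTop
      (𝓝 d0)) :
    ∃ K : ℝ, 0 < K ∧ ∀ b : ℝ, 0 < b → 8 * b ≤ P.κ → ∃ T0 : ℝ, 10 ≤ T0 ∧ ∀ T : ℝ, T0 ≤ T →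
      (∫ t0 in T..(2 * T), (AwS P B0 r F s T (b * Real.log T) t0 - a0) ^ 2 ≤ K * b * T) ∧
      (∫ t0 in T..(2 * T), ((av (b * Real.log T) t0 (wS P B0 r F s T *
        pp a c T (NN P b T))).re - (c * a0 - d0)) ^ 2 ≤ K * b * T) ∧
      (∫ t in T..(2 * T), WS P B0 r F s T t ^ 2 ≤ K * T) := by
  have hκ := P.hκ
  have hκ1 := P.hκ1
  obtain ⟨K1, T1, hK1, hT1, hy⟩ := yp_le P B0 hB r
  obtain ⟨KF, hKF, hFb⟩ := F_bd F B0
  set M := 7 * K1 ^ 2 with hM
  have hM0 : 0 ≤ M := by positivity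
  set Cw := KF ^ 2 * KF ^ 2 * Cc M (2 * B0 + 2 * B0) with hCw
  have hCw0 : 0 ≤ Cw := by
    have := Cc_pos hM0 (2 * B0 + 2 * B0)
    positivity
  set Cg := Cw * (5 * c) * Cc M (2 * B0 + 2 * B0 + 2) with hCg
  have hCg0 : 0 ≤ Cg := by
    have := Cc_pos hM0 (2 * B0 + 2 * B0 + 2)
    positivity
  set Vw := 8 * (Cw ^ 2 * (2 * ((2 * B0 + 2 * B0 : ℕ) : ℝ) * (5 * K1 ^ 2) *
    (1 + 14 * K1 ^ 2) ^ (2 * B0 + 2 * B0))) + 10 with hVw
  set Vg := 8 * (Cg ^ 2 * (2 * ((2 * B0 + 2 * B0 + 2 : ℕ) : ℝ) * (5 * K1 ^ 2) *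
    (1 + 14 * K1 ^ 2) ^ (2 * B0 + 2 * B0 + 2))) + 10 with hVg
  set Vs := 4 * (Cw ^ 2 * (1 + 14 * K1 ^ 2) ^ (2 * B0 + 2 * B0) + 1) with hVs
  have hVw0 : 0 < Vw := by positivity
  have hVg0 : 0 < Vg := by positivity
  have hVs0 : 0 < Vs := by positivity
  refine ⟨2 * (Vw + 1) + 2 * (Vg + 1) + Vs, by positivity, fun b hb hbκ => ?_⟩
  have hb1 : (1 - P.κ) / 2 + 2 * b ≤ 1 := by linarith
  obtain ⟨T2, hT2, hvw⟩ := varT K1 Cw hK1 hCw0 (2 * B0 + 2 * B0) P.κ b hκ hb hbκ
  obtain ⟨T3, hT3, hvg⟩ := varT K1 Cg hK1 hCg0 (2 * B0 + 2 * B0 + 2) P.κ b hκ hb hbκ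
  obtain ⟨T4, hT4, hvs⟩ := sqT K1 Cw hK1 hCw0 (2 * B0 + 2 * B0) P.κ hκ
  -- constants
  have hOf : Tendsto (fun T : ℝ => Of (b * Real.log T) 0) atTop (𝓝 1) := by
    have e1 : Tendsto (fun T : ℝ => b * Real.log T) atTop atTop :=
      Real.tendsto_log_atTop.const_mul_atTop hb
    have e2 : Tendsto (fun T : ℝ => 1 / (b * Real.log T)) atTop (𝓝 0) :=
      e1.const_div_atTop 1
    have e3 : Tendsto (fun T : ℝ => Of (b * Real.log T) 0 - 1) atTop (𝓝 0) := by
      apply squeeze_zero_norm' (a := fun T : ℝ => 1 / (b * Real.log T)) _ e2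
      filter_upwards [e1.eventually_gt_atTop 0] with T hT
      rw [Real.norm_eq_abs]
      exact Of_zero hT
    have e4 := e3.add_const 1
    simpa using e4
  have hcw : Tendsto (fun T : ℝ => (CnS P B0 r F s T 1 * Of (b * Real.log T) 0 - a0) ^ 2) atTop
      (𝓝 0) := by
    have e := ((h1.mul hOf).sub_const a0).pow 2
    simpa using e
  have hcg : Tendsto (fun T : ℝ => ((c * CnS P B0 r F s T 1 - 2 / Real.log T *
      ∑' n : ℕ, lk a c T n * CnS P B0 r F s T n) * Of (b * Real.log T) 0 - (c * a0 - d0)) ^ 2) atTop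
      (𝓝 0) := by
    have e := ((((h1.const_mul c).sub h2).mul hOf).sub_const (c * a0 - d0)).pow 2
    simpa using e
  obtain ⟨T5, hT5⟩ := ((hcw.eventually_le_const hb).and
    (hcg.eventually_le_const hb)).exists_forall_of_atTop
  refine ⟨max (max T1 T2) (max (max T3 T4) T5), hT1.trans ((le_max_left _ _).trans (le_max_left _ _)),
    fun T hT => ?_⟩
  simp only [max_le_iff] at hT
  obtain ⟨⟨hTT1, hTT2⟩, ⟨hTT3, hTT4⟩, hTT5⟩ := hT
  have hT10 := hT1.trans hTT1
  have hT0 : 0 < T := by linarith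
  obtain ⟨hk1, hk2⟩ := hT5 T hTT5
  set L := Real.log T with hL
  have hL1 : 1 ≤ L := by
    rw [hL, Real.le_log_iff_exp_le (by linarith)]
    have := Real.exp_one_lt_d9
    linarith
  set β := b * L with hβd
  have hβ : 0 < β := by positivity
  have hN1 : 1 ≤ ⌊T⌋₊ := by
    rw [Nat.one_le_floor_iff]
    linarith
  have hNT : (⌊T⌋₊ : ℝ) ≤ T := Nat.floor_le hT0.le
  have hNL : Real.log ⌊T⌋₊ ≤ L := Real.log_le_log (by exact_mod_cast hN1) hNT
  have hv : ∀ p, 0 ≤ vp K1 L p := fun p => vp_nonneg (by linarith) L p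
  have hvt : ∑ p ∈ PN ⌊T⌋₊, vp K1 L p ^ 2 ≤ M := vp_total hL1 _ hN1 hNL
  -- domination
  have hPS : PS P T ⊆ PN ⌊T⌋₊ := by
    intro p hp
    have hpp := (LG.MomA.prime_of_mem hp).1
    unfold SP.PS at hp
    rw [Finset.mem_filter, Finset.mem_Icc] at hp
    rw [mem_PN]
    refine ⟨hpp, hp.1.2.trans ?_⟩
    unfold SG.nn
    apply Nat.floor_le_floor
    calc T ^ (1 - P.κ) ≤ T ^ (1 : ℝ) := Real.rpow_le_rpow_of_exponent_le (by linarith) (by linarith)
      _ = T := Real.rpow_one T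
  have hdE : Dom (PN ⌊T⌋₊) (vp K1 L) (2 * B0) (KF ^ 2) (eS P B0 r F s T).coeff :=
    eS_dom hs hFb hKF hv (hy T hTT1) hPS
  have hdw : Dom (PN ⌊T⌋₊) (vp K1 L) (2 * B0 + 2 * B0) Cw (wS P B0 r F s T).coeff := by
    have hdEb : Dom (PN ⌊T⌋₊) (vp K1 L) (2 * B0) (KF ^ 2) (eSb P B0 r F s T).coeff := by
      rw [eSb_eq]; exact hdE
    exact Dom.mul hv hvt (sq_nonneg _) (sq_nonneg _) hdE hdEb
  have hNNT : (NN P b T : ℝ) ≤ T := by
    unfold NN
    refine (Nat.floor_le (by positivity)).trans ?_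
    calc T ^ ((1 - P.κ) / 2 + 2 * b) ≤ T ^ (1 : ℝ) :=
          Real.rpow_le_rpow_of_exponent_le (by linarith) hb1
      _ = T := Real.rpow_one T
  have hdp : Dom (PN ⌊T⌋₊) (vp K1 L) 2 (5 * c) (pp a c T (NN P b T)).coeff :=
    Dom.mono_S (pp_dom hc hT10 _ hNNT hK1) (PN_mono (Nat.le_floor hNNT))
  have hdg : Dom (PN ⌊T⌋₊) (vp K1 L) (2 * B0 + 2 * B0 + 2) Cg
      (wS P B0 r F s T * pp a c T (NN P b T)).coeff :=
    Dom.mul hv hvt hCw0 (by positivity) hdw hdp
  have hhw := fun e he => wS_ht (r := r) (s := s) hB hT10 hB1 hF e he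
  have hhg : ∀ e, (wS P B0 r F s T * pp a c T (NN P b T)).coeff e ≠ 0 →
      min (hp e) (hn e) ≤ (1 - P.κ) / 2 * L := by
    intro e he
    have := (mul_ht hhw (fun e he => pp_ht a c T (NN P b T) e he) e he).1
    rw [add_zero] at this
    exact (min_le_left _ _).trans this
  have i1 := hvw T hTT2 (wS P B0 r F s T) hdw (fun e he => (min_le_left _ _).trans (hhw e he).1)
  have i2 := hvg T hTT3 (wS P B0 r F s T * pp a c T (NN P b T)) hdg hhg
  have i3 := hvs T hTT4 (wS P B0 r F s T) hdw hhw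
  rw [wS_zero] at i1
  rw [gg_constS hB hB1 hs hF a c hb hT10] at i2
  rw [← hL, ← hβd] at i1 i2
  set xw := CnS P B0 r F s T 1 * Of β 0 with hxw
  set xg := (c * CnS P B0 r F s T 1 - 2 / L * ∑' n : ℕ, lk a c T n * CnS P B0 r F s T n) * Of β 0 with hxg
  have hbT : 0 ≤ b * T := by positivity
  refine ⟨?_, ?_, ?_⟩
  · have hcA : Continuous (fun t0 => AwS P B0 r F s T β t0) := by
      have := Complex.continuous_re.comp (av_cont β (wS P B0 r F s T))
      refine this.congr fun t0 => ?_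
      simp only [Function.comp]
      rw [AwS_eq P B0 r F s T hβ, ofReal_re]
    have e1 : ∀ t0, ‖av β t0 (wS P B0 r F s T) - ((xw : ℝ) : ℂ)‖ ^ 2 =
        (AwS P B0 r F s T β t0 - xw) ^ 2 := by
      intro t0
      rw [AwS_eq P B0 r F s T hβ, ← ofReal_sub, Complex.norm_real, Real.norm_eq_abs, sq_abs]
    simp_rw [e1] at i1
    calc ∫ t0 in T..(2 * T), (AwS P B0 r F s T β t0 - a0) ^ 2 ≤
        ∫ t0 in T..(2 * T), (2 * (AwS P B0 r F s T β t0 - xw) ^ 2 + 2 * b) := by
          apply intervalIntegral.integral_mono_on (by linarith)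
          · exact ((hcA.sub continuous_const).pow 2).intervalIntegrable _ _
          · exact ((((hcA.sub continuous_const).pow 2).const_mul 2).add
              continuous_const).intervalIntegrable _ _
          · intro t0 _
            exact sq_two hk1
      _ = 2 * (∫ t0 in T..(2 * T), (AwS P B0 r F s T β t0 - xw) ^ 2) + 2 * b * T := by
          rw [intervalIntegral.integral_add, intervalIntegral.integral_const_mul,
            intervalIntegral.integral_const, smul_eq_mul]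
          · ring
          · exact (((hcA.sub continuous_const).pow 2).const_mul 2).intervalIntegrable _ _
          · simp
      _ ≤ 2 * (Vw * b * T) + 2 * b * T := add_le_add_left (mul_le_mul_of_nonneg_left i1 zero_le_two) _
      _ ≤ _ := V_bd hVg0.le hVs0.le hbT (Or.inl rfl) hVw0.le
  · have hcA : Continuous (fun t0 => (av β t0 (wS P B0 r F s T * pp a c T (NN P b T))).re) :=
      Complex.continuous_re.comp (av_cont β _)
    set X := fun t0 => (av β t0 (wS P B0 r F s T * pp a c T (NN P b T))).re with hX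
    have e1 : ∀ t0, (X t0 - xg) ^ 2 ≤ ‖av β t0 (wS P B0 r F s T * pp a c T (NN P b T)) -
        ((xg : ℝ) : ℂ)‖ ^ 2 := by
      intro t0
      have := Complex.abs_re_le_norm (av β t0 (wS P B0 r F s T * pp a c T (NN P b T)) -
        ((xg : ℝ) : ℂ))
      rw [sub_re, ofReal_re] at this
      rw [← sq_abs (X t0 - xg)]
      exact pow_le_pow_left₀ (abs_nonneg _) this 2
    have i2' : ∫ t0 in T..(2 * T), (X t0 - xg) ^ 2 ≤ Vg * b * T := by
      refine le_trans ?_ i2
      apply intervalIntegral.integral_mono_on (by linarith)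
      · exact ((hcA.sub continuous_const).pow 2).intervalIntegrable _ _
      · exact (((av_cont β _).sub continuous_const).norm.pow 2).intervalIntegrable _ _
      · intro t0 _
        exact e1 t0
    calc ∫ t0 in T..(2 * T), (X t0 - (c * a0 - d0)) ^ 2 ≤
        ∫ t0 in T..(2 * T), (2 * (X t0 - xg) ^ 2 + 2 * b) := by
          apply intervalIntegral.integral_mono_on (by linarith)
          · exact ((hcA.sub continuous_const).pow 2).intervalIntegrable _ _
          · exact ((((hcA.sub continuous_const).pow 2).const_mul 2).add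
              continuous_const).intervalIntegrable _ _
          · intro t0 _
            exact sq_two hk2
      _ = 2 * (∫ t0 in T..(2 * T), (X t0 - xg) ^ 2) + 2 * b * T := by
          rw [intervalIntegral.integral_add, intervalIntegral.integral_const_mul,
            intervalIntegral.integral_const, smul_eq_mul]
          · ring
          · exact (((hcA.sub continuous_const).pow 2).const_mul 2).intervalIntegrable _ _
          · simp
      _ ≤ 2 * (Vg * b * T) + 2 * b * T := add_le_add_left (mul_le_mul_of_nonneg_left i2' zero_le_two) _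
      _ ≤ _ := V_bd hVw0.le hVs0.le hbT (Or.inr rfl) hVg0.le
  · have e1 : ∀ t, ‖ev t (wS P B0 r F s T)‖ ^ 2 = WS P B0 r F s T t ^ 2 := by
      intro t
      rw [WS_ev, Complex.norm_real, Real.norm_eq_abs, sq_abs]
    simp_rw [e1] at i3
    refine i3.trans ?_
    apply mul_le_mul_of_nonneg_right _ hT0.le
    linarith

end Pool.Agent.R321.FA
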