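import Pool.Agent.R321.FA15
import Pool.Agent.R321.FD5

/-! Signed weights: the detecting function. -/

open Finset Complex MeasureTheory Filter Topology

namespace Pool.Agent.R321.FA

open LG (lk bk Cn EE Zs yp SF SM sm sm0 tm IsQ gK prs fam nA ae)
open SP (Par RHs PS Eb ZZ Mk)
open RGap (IsSgn sg aeS EES CnS)

lemma AwS_cont (P : Par) (B0 : ℕ) (r : ℝ) (F s : ℕ → ℝ) (T : ℝ) {β : ℝ} (hβ : 0 < β) :
    Continuous (fun t0 => AwS P B0 r F s T β t0) := by
  have := Complex.continuous_re.comp (av_cont β (wS P B0 r F s T))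
  refine this.congr fun t0 => ?_
  simp only [Function.comp]
  rw [AwS_eq P B0 r F s T hβ, ofReal_re]

/-- the detecting function -/
noncomputable def PhS (P : Par) (B0 : ℕ) (r : ℝ) (F s : ℕ → ℝ) (a c b h a0 b0 ρ T t0 : ℝ) : ℝ :=
  16 / ρ ^ 2 * ((AwS P B0 r F s T (b * Real.log T) t0 - a0) ^ 2 +
    ((av (b * Real.log T) t0 (wS P B0 r F s T * pp a c T (NN P b T))).re - b0) ^ 2) +
  4 / ρ * ∫ y, gT (b * Real.log T) h y * WS P B0 r F s T (t0 + y)

lemma PhS_cont (P : Par) (B0 : ℕ) (r : ℝ) (F s : ℕ → ℝ) (a c h a0 b0 ρ : ℝ) {b T : ℝ}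
    (hb : 0 < b * Real.log T) : Continuous (PhS P B0 r F s a c b h a0 b0 ρ T) := by
  unfold PhS
  have h1 := AwS_cont P B0 r F s T hb
  have h2 : Continuous (fun t0 => (av (b * Real.log T) t0
      (wS P B0 r F s T * pp a c T (NN P b T))).re) := Complex.continuous_re.comp (av_cont _ _)
  have h3 := Tl_cont (h := h) hb (WS_cont P B0 r F s T) (M := nm (wS P B0 r F s T)) (fun t => by
    rw [abs_of_nonneg (WS_nonneg _ _ _ _ _ _ _)]; exact WS_le _ _ _ _ _ _ _)
  fun_prop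

lemma PhS_nonneg (P : Par) (B0 : ℕ) (r : ℝ) (F s : ℕ → ℝ) (a c h a0 b0 : ℝ) {ρ b T : ℝ}
    (hρ : 0 < ρ) (hb : 0 < b * Real.log T) (t0 : ℝ) : 0 ≤ PhS P B0 r F s a c b h a0 b0 ρ T t0 := by
  unfold PhS
  have : 0 ≤ ∫ y, gT (b * Real.log T) h y * WS P B0 r F s T (t0 + y) :=
    integral_nonneg fun y => mul_nonneg (gT_nonneg hb h y) (WS_nonneg _ _ _ _ _ _ _)
  positivity

lemma PhS_ge_one {P : Par} {B0 : ℕ} {r : ℝ} {F s : ℕ → ℝ} {a c h a0 b0 ρ b T t0 : ℝ}
    (hρ : 0 < ρ) (hb : 0 < b * Real.log T)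
    (hs0 : ρ ≤ 2 * |AwS P B0 r F s T (b * Real.log T) t0 - a0| +
      |(av (b * Real.log T) t0 (wS P B0 r F s T * pp a c T (NN P b T))).re - b0| +
      ∫ y, gT (b * Real.log T) h y * WS P B0 r F s T (t0 + y)) :
    1 ≤ PhS P B0 r F s a c b h a0 b0 ρ T t0 := by
  unfold PhS
  have h0 : 0 ≤ ∫ y, gT (b * Real.log T) h y * WS P B0 r F s T (t0 + y) :=
    integral_nonneg fun y => mul_nonneg (gT_nonneg hb h y) (WS_nonneg _ _ _ _ _ _ _)
  set x := AwS P B0 r F s T (b * Real.log T) t0 - a0 with hx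
  set y := (av (b * Real.log T) t0 (wS P B0 r F s T * pp a c T (NN P b T))).re - b0 with hy
  set z := ∫ y, gT (b * Real.log T) h y * WS P B0 r F s T (t0 + y) with hz
  have key : ∀ x : ℝ, ρ / 4 ≤ |x| → 1 ≤ 16 / ρ ^ 2 * x ^ 2 := by
    intro x hx
    rw [div_mul_eq_mul_div, le_div_iff₀ (by positivity), one_mul]
    have : (ρ / 4) ^ 2 ≤ |x| ^ 2 := pow_le_pow_left₀ (by positivity) hx 2
    rw [sq_abs] at this
    linarith
  have e : 16 / ρ ^ 2 * (x ^ 2 + y ^ 2) = 16 / ρ ^ 2 * x ^ 2 + 16 / ρ ^ 2 * y ^ 2 := by ring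
  have p1 : 0 ≤ 16 / ρ ^ 2 * x ^ 2 := by positivity
  have p2 : 0 ≤ 16 / ρ ^ 2 * y ^ 2 := by positivity
  have p3 : 0 ≤ 4 / ρ * z := by positivity
  rw [e]
  by_cases h1 : ρ / 4 ≤ |x|
  · have := key x h1
    linarith
  by_cases h2 : ρ / 4 ≤ |y|
  · have := key y h2
    linarith
  have h3 : ρ / 4 ≤ z := by linarith
  have : 1 ≤ 4 / ρ * z := by
    rw [div_mul_eq_mul_div, le_div_iff₀ hρ]
    linarith
  linarith

/-- the mean of the detecting function -/
theorem PhS_mean (P : Par) (B0 B1 : ℕ) (hB : P.B = 2 * B0) (hB1 : 2 * B1 ≤ B0) (r : ℝ)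
    (F s : ℕ → ℝ) (hs : IsSgn s) (hF : ∀ n, B1 < n → F n = 0) (a c : ℝ) (hc : 0 < c) (a0 d0 ρ : ℝ) (hρ : 0 < ρ)
    (h1 : Tendsto (fun T : ℝ => CnS P B0 r F s T 1) atTop (𝓝 a0))
    (h2 : Tendsto (fun T : ℝ => (2 / Real.log T) * ∑' n : ℕ, lk a c T n * CnS P B0 r F s T n) atTop
      (𝓝 d0)) :
    ∃ K : ℝ, 0 < K ∧ ∀ b X : ℝ, 0 < b → 8 * b ≤ P.κ → 1 ≤ X → ∃ T0 : ℝ, 10 ≤ T0 ∧
      ∀ T : ℝ, T0 ≤ T →
      T + 2 * Real.log T ^ 3 ≤ 2 * T - 2 * Real.log T ^ 3 ∧
      ∫ t0 in (T + 2 * Real.log T ^ 3)..(2 * T - 2 * Real.log T ^ 3),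
        PhS P B0 r F s a c b (X / (b * Real.log T)) a0 (c * a0 - d0) ρ T t0 ≤
        K * (b + 1 / X) * T := by
  obtain ⟨K, hK, hlln⟩ := llnS P B0 B1 hB hB1 r F s hs hF a c hc a0 d0 h1 h2
  refine ⟨16 / ρ ^ 2 * (2 * K) + 4 / ρ * (2 * K + 3), by positivity, fun b X hb hbκ hX => ?_⟩
  obtain ⟨T1, hT1, hl⟩ := hlln b hb hbκ
  obtain ⟨T2, hT2, ht⟩ := tail_small b 1 1 hb one_pos one_pos
  obtain ⟨T3, hT3, hn⟩ := nm_wS P B0 hB r F s hs
  obtain ⟨T4, hT4⟩ : ∃ T4 : ℝ, ∀ T : ℝ, T4 ≤ T → X ≤ Real.log T ∧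
      4 * Real.log T ^ 3 ≤ T := by
    have g1 := Real.tendsto_log_atTop.eventually_ge_atTop X
    have g2 : ∀ᶠ T : ℝ in atTop, 4 * Real.log T ^ 3 ≤ T := by
      have h3 := isLittleO_log_rpow_atTop (show (0 : ℝ) < 1 / 3 by norm_num)
      rw [Asymptotics.isLittleO_iff] at h3
      filter_upwards [h3 (show (0 : ℝ) < 1 / 2 by norm_num), eventually_ge_atTop 1] with T g3 g4
      rw [Real.norm_of_nonneg (Real.log_nonneg g4), Real.norm_of_nonneg (by positivity)] at g3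
      have g5 := pow_le_pow_left₀ (Real.log_nonneg g4) g3 3
      rw [mul_pow, ← Real.rpow_natCast (T ^ (1 / 3 : ℝ)), ← Real.rpow_mul (by linarith)] at g5
      norm_num at g5
      linarith
    exact (g1.and g2).exists_forall_of_atTop
  refine ⟨max (max T1 T2) (max T3 T4), hT1.trans ((le_max_left _ _).trans (le_max_left _ _)),
    fun T hT => ?_⟩
  simp only [max_le_iff] at hT
  obtain ⟨⟨hTT1, hTT2⟩, hTT3, hTT4⟩ := hT
  obtain ⟨i1, i2, i3⟩ := hl T hTT1
  have hts := ht T hTT2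
  have hnm := hn T hTT3
  obtain ⟨hLX, hLT⟩ := hT4 T hTT4
  have hT10 := hT1.trans hTT1
  have hT0 : 0 < T := by linarith
  set L := Real.log T with hL
  have hL1 : 1 ≤ L := by
    rw [hL, Real.le_log_iff_exp_le (by linarith)]
    have := Real.exp_one_lt_d9
    linarith
  have hL3 : 0 ≤ L ^ 3 := by positivity
  set V1 := T + 2 * L ^ 3 with hV1
  set V2 := 2 * T - 2 * L ^ 3 with hV2
  have hV : V1 ≤ V2 := by rw [hV1, hV2]; linarith
  refine ⟨hV, ?_⟩
  have hβ : 0 < b * L := by positivity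
  set β := b * L with hβd
  have hX0 : 0 < X := by linarith
  have hWc := WS_cont P B0 r F s T
  have hW0 := WS_nonneg P B0 r F s T
  have hcA := AwS_cont P B0 r F s T hβ
  have hcG : Continuous (fun t0 => (av β t0 (wS P B0 r F s T * pp a c T (NN P b T))).re) :=
    Complex.continuous_re.comp (av_cont _ _)
  have hcT := Tl_cont (h := X / β) hβ hWc (M := nm (wS P B0 r F s T)) (fun t => by
    rw [abs_of_nonneg (WS_nonneg _ _ _ _ _ _ _)]; exact WS_le _ _ _ _ _ _ _)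
  -- the tail
  have htm := tail_mean (R := L ^ 3) hβ (by positivity : 0 < X / β) hL3 hV
    (by rw [hV1]; linarith : T ≤ V1 - L ^ 3) (by rw [hV2]; linarith : V2 + L ^ 3 ≤ 2 * T) hWc hW0
    (fun t => (WS_le P B0 r F s T t).trans hnm)
  have hg := gT_gauss hβ hL3
  have hWint : ∫ t in T..(2 * T), WS P B0 r F s T t ≤ (K + 1) * T := by
    have k1 : Continuous (fun t => WS P B0 r F s T t ^ 2) := hWc.pow 2
    have k2 : Continuous (fun t => WS P B0 r F s T t ^ 2 + 1) := k1.add continuous_const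
    calc ∫ t in T..(2 * T), WS P B0 r F s T t ≤ ∫ t in T..(2 * T), (WS P B0 r F s T t ^ 2 + 1) := by
          apply intervalIntegral.integral_mono_on (by linarith) (hWc.intervalIntegrable _ _)
            (k2.intervalIntegrable _ _)
          intro t _
          nlinarith [sq_nonneg (WS P B0 r F s T t - 1), hW0 t]
      _ = (∫ t in T..(2 * T), WS P B0 r F s T t ^ 2) + T := by
          rw [intervalIntegral.integral_add (k1.intervalIntegrable _ _) (by simp),
            intervalIntegral.integral_const, smul_eq_mul]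
          ring
      _ ≤ K * T + T := by linarith
      _ = _ := by ring
  have htail : ∫ t0 in V1..V2, (∫ y, gT β (X / β) y * WS P B0 r F s T (t0 + y)) ≤
      (2 * (K + 1) + 1) * (1 / X) * T := by
    refine htm.trans ?_
    have e1 : 2 / (β * (X / β)) = 2 * (1 / X) := by field_simp
    rw [e1]
    have e2 : (V2 - V1) * T ^ 4 * ∫ y, gT β (L ^ 3) y ≤ T * (1 / X) := by
      have e3 : 0 ≤ ∫ y, gT β (L ^ 3) y := integral_nonneg fun y => gT_nonneg hβ _ y
      have e4 : V2 - V1 ≤ T := by rw [hV1, hV2]; linarith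
      have e5 : T ^ 4 * ∫ y, gT β (L ^ 3) y ≤ 1 / X := by
        calc T ^ 4 * ∫ y, gT β (L ^ 3) y ≤ T ^ 4 * (β * (4 * 1) *
              Real.exp (-((L ^ 3) ^ 2 / (4 * 1 ^ 2)))) := by gcongr
          _ = (b * L * T ^ 4 * 1) * (4 * 1) * Real.exp (-((L ^ 3) ^ 2 / (4 * 1 ^ 2))) := by
              rw [hβd]; ring
          _ ≤ (b * L * T ^ 4 * (1 + 2 * (1 * Real.exp (L ^ 4)))) * (4 * 1) *
              Real.exp (-((L ^ 3) ^ 2 / (4 * 1 ^ 2))) := by
              have : 1 ≤ 1 + 2 * (1 * Real.exp (L ^ 4)) := by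
                have := Real.exp_pos (L ^ 4)
                linarith
              gcongr
          _ ≤ 1 / L := hts
          _ ≤ 1 / X := one_div_le_one_div_of_le hX0 hLX
      calc (V2 - V1) * T ^ 4 * ∫ y, gT β (L ^ 3) y = (V2 - V1) * (T ^ 4 * ∫ y, gT β (L ^ 3) y) := by
            ring
        _ ≤ T * (1 / X) := by
            apply mul_le_mul e4 e5 (by positivity) hT0.le
    calc 2 * (1 / X) * (∫ t in T..(2 * T), WS P B0 r F s T t) + (V2 - V1) * T ^ 4 *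
          ∫ y, gT β (L ^ 3) y ≤ 2 * (1 / X) * ((K + 1) * T) + T * (1 / X) := by gcongr
      _ = _ := by ring
  -- the squares
  have hsq : ∀ f : ℝ → ℝ, Continuous f → (∀ t, 0 ≤ f t) → ∫ t in V1..V2, f t ≤
      ∫ t in T..(2 * T), f t := by
    intro f hf hf0
    exact intervalIntegral.integral_mono_interval (by rw [hV1]; linarith) hV (by rw [hV2]; linarith)
      (Eventually.of_forall hf0) (hf.intervalIntegrable _ _)
  have m1 : Continuous (fun t0 => (AwS P B0 r F s T β t0 - a0) ^ 2) :=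
    (hcA.sub continuous_const).pow 2
  have m2 : Continuous (fun t0 => ((av β t0 (wS P B0 r F s T * pp a c T (NN P b T))).re -
      (c * a0 - d0)) ^ 2) := (hcG.sub continuous_const).pow 2
  have m3 : Continuous (fun t0 => 16 / ρ ^ 2 * ((AwS P B0 r F s T β t0 - a0) ^ 2 +
      ((av β t0 (wS P B0 r F s T * pp a c T (NN P b T))).re - (c * a0 - d0)) ^ 2)) :=
    (m1.add m2).const_mul _
  have m4 : Continuous (fun t0 => 4 / ρ * ∫ y, gT β (X / β) y * WS P B0 r F s T (t0 + y)) :=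
    hcT.const_mul _
  have j1 := (hsq _ m1 (fun t => sq_nonneg _)).trans i1
  have j2 := (hsq _ m2 (fun t => sq_nonneg _)).trans i2
  unfold PhS
  rw [← hL, ← hβd, intervalIntegral.integral_add (m3.intervalIntegrable _ _)
    (m4.intervalIntegrable _ _), intervalIntegral.integral_const_mul,
    intervalIntegral.integral_const_mul, intervalIntegral.integral_add
    (m1.intervalIntegrable _ _) (m2.intervalIntegrable _ _)]
  · calc _ ≤ 16 / ρ ^ 2 * (K * b * T + K * b * T) + 4 / ρ * ((2 * (K + 1) + 1) * (1 / X) * T) := by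
          gcongr
      _ ≤ _ := by
          have p1 : 0 ≤ 16 / ρ ^ 2 * (2 * K) * (1 / X) * T := by positivity
          have p2 : 0 ≤ 4 / ρ * (2 * K + 3) * b * T := by positivity
          have e : 16 / ρ ^ 2 * (K * b * T + K * b * T) + 4 / ρ * ((2 * (K + 1) + 1) * (1 / X) * T) =
            16 / ρ ^ 2 * (2 * K) * b * T + 4 / ρ * ((2 * K + 3)) * (1 / X) * T := by ring
          rw [e]
          have e' : (16 / ρ ^ 2 * (2 * K) + 4 / ρ * (2 * K + 3)) * (b + 1 / X) * T =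
            16 / ρ ^ 2 * (2 * K) * b * T + 4 / ρ * ((2 * K + 3)) * (1 / X) * T +
            (16 / ρ ^ 2 * (2 * K) * (1 / X) * T + 4 / ρ * (2 * K + 3) * b * T) := by ring
          rw [e']
          linarith

end Pool.Agent.R321.FA
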