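import Pool.Agent.R321.FA16
import Pool.Agent.R321.FD6
import Pool.Agent.H360R2.RG.Main

/-! Large `k`-gaps in almost all windows. -/

open Finset Complex MeasureTheory Filter Topology

namespace Pool.Agent.R321.FA

open LG (lk bk Cn EE Zs yp SF SM sm sm0 tm IsQ gK prs fam nA ae)
open SP (Par RHs PS Eb ZZ Mk)
open RGap (IsSgn sg aeS EES CnS LM)

lemma pair_intS {β T a c : ℝ} (P : Par) (B0 : ℕ) (r : ℝ) (F s : ℕ → ℝ) (hT : 1 ≤ T)
    (t0 u v : ℝ) :
    IntervalIntegrable (fun t => om β (t - t0) * WS P B0 r F s T t * Zs a c T t) volume u v :=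
  ((((om_cont β).comp (by fun_prop)).mul (WS_cont P B0 r F s T)).mul
    (LG.MeanAux.Zs_cont a c T hT)).intervalIntegrable _ _

lemma winLr_comb {e1 a0 ρ Av Tl Gv b0 C J k : ℝ} (he : 0 ≤ e1) (he14 : e1 ≤ 1 / 4)
    (hTl : 0 ≤ Tl) (hk : 1 ≤ k)
    (hb0a : b0 ≤ k * a0 - 3 * ρ) (hlow : (1 - 2 * e1) * k * (Av - Tl) ≤ J)
    (hup : J - Gv ≤ C * (Av + 1)) (c1 : C * (a0 + 1) ≤ ρ) (c2 : C ≤ 1) (c3 : 0 ≤ C)
    (c4 : 2 * e1 * k * a0 ≤ ρ) :
    ρ / (k + 1) ≤ 2 * |Av - a0| + |Gv - b0| + Tl := by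
  have x1 := neg_abs_le (Av - a0)
  have y2 := le_abs_self (Gv - b0)
  have y3 := abs_nonneg (Gv - b0)
  have y4 := abs_nonneg (Av - a0)
  have d1 : C * (Av - a0) ≤ |Av - a0| := by
    calc C * (Av - a0) ≤ C * |Av - a0| := mul_le_mul_of_nonneg_left (le_abs_self _) c3
      _ ≤ 1 * |Av - a0| := mul_le_mul_of_nonneg_right c2 (abs_nonneg _)
      _ = _ := one_mul _
  have d2 : (1 - 2 * e1) * k * (a0 - |Av - a0| - Tl) ≤ (1 - 2 * e1) * k * (Av - Tl) := by
    apply mul_le_mul_of_nonneg_left _ (mul_nonneg (by linarith) (by linarith))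
    linarith
  have hk0 : 0 ≤ k := by linarith
  have g1 : 0 ≤ 2 * e1 * k * |Av - a0| :=
    mul_nonneg (mul_nonneg (by linarith) hk0) (abs_nonneg _)
  have g2 : 0 ≤ 2 * e1 * k * Tl := mul_nonneg (mul_nonneg (by linarith) hk0) hTl
  have d3 : (1 - 2 * e1) * k * (a0 - |Av - a0| - Tl) =
      k * a0 - k * |Av - a0| - k * Tl - 2 * e1 * k * a0 + 2 * e1 * k * |Av - a0| +
        2 * e1 * k * Tl := by ring
  have d4 : C * (Av + 1) = C * (Av - a0) + C * (a0 + 1) := by ring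
  rw [div_le_iff₀ (by linarith)]
  have d5 : ρ ≤ (k + 1) * |Av - a0| + |Gv - b0| + k * Tl := by linarith
  have d6 : (2 * |Av - a0| + |Gv - b0| + Tl) * (k + 1) = (k + 1) * |Av - a0| + |Gv - b0| + k * Tl +
      ((k + 1) * |Av - a0| + k * |Gv - b0| + Tl) := by ring
  have d7 : 0 ≤ (k + 1) * |Av - a0| + k * |Gv - b0| + Tl := by positivity
  linarith

set_option maxHeartbeats 4000000 in
/-- **windows without large `k`-gaps are rare** -/
theorem winLr (hRH : RHs) (P : Par) (B0 B1 : ℕ) (hB : P.B = 2 * B0) (hB1 : 2 * B1 ≤ B0) (r : ℝ)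
    (hr : 0 < r) (F q s : ℕ → ℝ) (hs : IsSgn s) (hF : ∀ n, B1 < n → F n = 0)
    (hq : IsQ B0 (tm P r) q) (k : ℕ) (c : ℝ) (hk : 1 ≤ k)
    (hc : 0 < c) (hSF : 0 < SF B0 F q)
    (hstrict : (c - k) * SF B0 F q < LM P B0 r F q s c) :
    ∃ η K : ℝ, 0 < η ∧ 0 < K ∧ ∀ b X : ℝ, 0 < b → 8 * b ≤ P.κ → 1 ≤ X → ∃ T0 : ℝ, 10 ≤ T0 ∧
      ∀ T : ℝ, T0 ≤ T → ∃ Φ : ℝ → ℝ, Continuous Φ ∧ (∀ t, 0 ≤ Φ t) ∧
      T + 2 * Real.log T ^ 3 ≤ 2 * T - 2 * Real.log T ^ 3 ∧
      (∀ t0, T + 2 * Real.log T ^ 3 ≤ t0 → t0 ≤ 2 * T - 2 * Real.log T ^ 3 →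
        (∀ t, |t - t0| ≤ X / (b * Real.log T) →
          (k : ℝ) ≤ RGap.NN (Real.pi * (c + η) / Real.log T) t) → 1 ≤ Φ t0) ∧
      ∫ t0 in (T + 2 * Real.log T ^ 3)..(2 * T - 2 * Real.log T ^ 3), Φ t0 ≤
        K * (b + 1 / X) * T := by
  classical
  have hpi := Real.pi_pos
  have hkr : (1 : ℝ) ≤ k := by exact_mod_cast hk
  obtain ⟨η, δ, A1, hη, -, hδ, hA1, hpar⟩ := RGap.PARC_proof P B0 r F q s c (c - k) 1 one_pos
    hstrict
  set S0 := SF B0 F q with hS0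
  set e1 := min (1 / 4) (δ / (2 * k * S0)) with he1
  have he10 : 0 < e1 := by rw [he1]; exact lt_min (by norm_num) (by positivity)
  have he14 : e1 ≤ 1 / 4 := min_le_left _ _
  have he1S : 2 * e1 * k * S0 ≤ δ := by
    have : e1 ≤ δ / (2 * k * S0) := min_le_right _ _
    rw [le_div_iff₀ (by positivity)] at this
    linarith
  have hc1 : 0 < c + 2 * η := by linarith
  obtain ⟨A0, hA0, hge⟩ := LG.gK_ge (c + η) (c + 2 * η) e1 (by linarith) (by linarith) he10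
  set A := max A0 A1 with hA
  have hApos : 0 < A := lt_of_lt_of_le hA0 (le_max_left _ _)
  have hst := hpar A (c + 2 * η) (le_max_right _ _) (by
    rw [show c + 2 * η - c = 2 * η by ring, abs_of_pos (by positivity)])
  have hge' := hge A (le_max_left _ _)
  have hg0 : ∀ x, 0 ≤ gK A (c + 2 * η) x := fun x => (LG.gK_bounds A (c + 2 * η) x hApos hc1).1
  set U1 := ∑ m ∈ Finset.Icc 2 B0, s m * (sm P A (c + 2 * η) m * SM B0 F q m) with hU1
  set d0 := 4 * r / Real.pi * (S0 * U1) with hd0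
  obtain ⟨l1, l2⟩ := RGap.COMBS_main P B0 hB r hr F q s hs hq A (c + 2 * η) hApos hc1
  set ρ := δ * S0 with hρ
  have hρ0 : 0 < ρ := by positivity
  set a0 := S0 ^ 2 with ha0
  set b0 := (c + 2 * η) * a0 - d0 with hb0
  have hb0a : b0 ≤ k * a0 - 3 * ρ := by
    have e : b0 = S0 * ((c + 2 * η) * S0 - 4 * r / Real.pi * U1) := by rw [hb0, hd0, ha0]; ring
    have e2 : (c + 2 * η) * S0 - 4 * r / Real.pi * U1 ≤ k * S0 - 3 * δ := by linarith
    rw [e]
    calc S0 * ((c + 2 * η) * S0 - 4 * r / Real.pi * U1) ≤ S0 * (k * S0 - 3 * δ) :=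
          mul_le_mul_of_nonneg_left e2 hSF.le
      _ = k * a0 - 3 * ρ := by rw [ha0, hρ]; ring
  set ρ' := ρ / (k + 1) with hρ'
  have hρ'0 : 0 < ρ' := by positivity
  obtain ⟨K, hK, hmean⟩ := PhS_mean P B0 B1 hB hB1 r F s hs hF A (c + 2 * η) hc1 a0 d0 ρ' hρ'0 l1 l2
  refine ⟨η, K, hη, hK, fun b X hb hbκ hX => ?_⟩
  have hκ := P.hκ
  have hκ1 := P.hκ1
  obtain ⟨T1, hT1, hm⟩ := hmean b X hb hbκ hX
  obtain ⟨C2, T2, hC2, hT2, hloc⟩ := loc2S hRH P B0 B1 hB hB1 r F s hs hF A (c + 2 * η) b hApos hc1 hb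
    (by linarith)
  obtain ⟨T4, hT4, hzl⟩ := RGap.ZLOW_proof A (c + 2 * η) (c + η) e1 hApos (by linarith)
    (by linarith) he10 (by linarith) hge'
  obtain ⟨T3, hT3⟩ := (Real.tendsto_log_atTop.eventually_ge_atTop
    (max 1 (max (C2 * (a0 + 1) / ρ) (max C2 (X / b))))).exists_forall_of_atTop
  refine ⟨max (max T1 T4) (max T2 T3), hT1.trans ((le_max_left _ _).trans (le_max_left _ _)),
    fun T hT => ?_⟩
  simp only [max_le_iff] at hT
  obtain ⟨⟨hTT1, hTT4⟩, hTT2, hTT3⟩ := hT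
  have hLB := hT3 T hTT3
  simp only [max_le_iff] at hLB
  obtain ⟨hL1, hLC, hLC2, hLX⟩ := hLB
  have hT10 := hT1.trans hTT1
  obtain ⟨hV, hmT⟩ := hm T hTT1
  have hlocT := hloc T hTT2
  have hzlT := hzl T hTT4
  set L := Real.log T with hL
  have hL0 : 0 < L := by linarith
  have hβ : 0 < b * L := by positivity
  have hX0 : 0 < X := by linarith
  set h := X / (b * L) with hh
  have hh0 : 0 < h := by positivity
  refine ⟨PhS P B0 r F s A (c + 2 * η) b h a0 b0 ρ' T,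
    PhS_cont P B0 r F s A (c + 2 * η) h a0 b0 ρ' hβ,
    PhS_nonneg P B0 r F s A (c + 2 * η) h a0 b0 hρ'0 hβ, hV, ?_, hmT⟩
  intro t0 ht1 ht2 hz
  apply PhS_ge_one hρ'0 hβ
  have hl := hlocT t0 ht1 ht2
  have hWc := WS_cont P B0 r F s T
  have hW0 := WS_nonneg P B0 r F s T
  have hZ0 : ∀ t, 0 ≤ Zs A (c + 2 * η) T t := fun t =>
    LG.LocAux.Zs_nonneg A (c + 2 * η) T t (by linarith) hg0
  have hL31 : 1 ≤ L ^ 3 := one_le_pow₀ hL1
  have hLL3 : L ≤ L ^ 3 := le_self_pow₀ hL1 (by norm_num)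
  have hh1 : h ≤ L ^ 3 := by
    rw [hh, ← div_div, div_le_iff₀ hL0]
    calc X / b ≤ L := hLX
      _ = 1 * L := (one_mul L).symm
      _ ≤ L ^ 3 * L := mul_le_mul_of_nonneg_right hL31 hL0.le
  set Tl := ∫ y, gT (b * L) h y * WS P B0 r F s T (t0 + y) with hTl
  have hTl0 : 0 ≤ Tl := integral_nonneg fun y => mul_nonneg (gT_nonneg hβ h y) (WS_nonneg _ _ _ _ _ _ _)
  set Av := AwS P B0 r F s T (b * L) t0 with hAv
  have hsp : Av = (∫ t in (t0 - h)..(t0 + h), om (b * L) (t - t0) * WS P B0 r F s T t) + Tl :=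
    gT_split hβ hh0.le hWc (M := nm (wS P B0 r F s T)) (fun t => by
      rw [abs_of_nonneg (WS_nonneg _ _ _ _ _ _ _)]; exact WS_le _ _ _ _ _ _ _) t0
  have hT1' : 1 ≤ T := by linarith
  have hlow : (1 - 2 * e1) * k * (Av - Tl) ≤ ∫ t in (t0 - L ^ 3)..(t0 + L ^ 3),
      om (b * L) (t - t0) * WS P B0 r F s T t * Zs A (c + 2 * η) T t := by
    have e2 : Av - Tl = ∫ t in (t0 - h)..(t0 + h), om (b * L) (t - t0) * WS P B0 r F s T t := by
      rw [hsp]; ring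
    have hoWc : Continuous (fun t => om (b * L) (t - t0) * WS P B0 r F s T t) :=
      ((om_cont _).comp (by fun_prop)).mul hWc
    rw [e2, ← intervalIntegral.integral_const_mul]
    calc ∫ t in (t0 - h)..(t0 + h), (1 - 2 * e1) * k * (om (b * L) (t - t0) * WS P B0 r F s T t) ≤
        ∫ t in (t0 - h)..(t0 + h), om (b * L) (t - t0) * WS P B0 r F s T t *
          Zs A (c + 2 * η) T t := by
          apply intervalIntegral.integral_mono_on (by linarith)
            ((hoWc.const_mul _).intervalIntegrable _ _) (pair_intS P B0 r F s hT1' t0 _ _)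
          intro t ht
          have g1 : 0 ≤ om (b * L) (t - t0) * WS P B0 r F s T t := mul_nonneg (om_nonneg hβ _) (hW0 t)
          rw [mul_comm]
          apply mul_le_mul_of_nonneg_left _ g1
          have g2 := hz t (by rw [abs_le]; constructor <;> linarith [ht.1, ht.2])
          have g3 := hzlT t (by linarith [ht.1]) (by linarith [ht.2])
          refine le_trans ?_ g3
          apply mul_le_mul_of_nonneg_left g2
          linarith
      _ ≤ _ := by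
          apply intervalIntegral.integral_mono_interval (by linarith) (by linarith) (by linarith)
            (Eventually.of_forall fun t => mul_nonneg (mul_nonneg (om_nonneg hβ _) (hW0 t)) (hZ0 t))
            (pair_intS P B0 r F s hT1' t0 _ _)
  set Gv := (av (b * L) t0 (wS P B0 r F s T * pp A (c + 2 * η) T (NN P b T))).re with hGv
  have hup := (abs_le.1 hl).2
  have c1 : C2 / L * (a0 + 1) ≤ ρ := by
    rw [div_mul_eq_mul_div, div_le_iff₀ hL0]
    rw [div_le_iff₀ hρ0] at hLC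
    linarith only [hLC]
  have c2 : C2 / L ≤ 1 := by rw [div_le_one hL0]; exact hLC2
  have c3 : 0 ≤ C2 / L := div_nonneg hC2.le hL0.le
  have c4 : 2 * e1 * k * a0 ≤ ρ := by
    calc 2 * e1 * k * a0 = (2 * e1 * k * S0) * S0 := by rw [ha0]; ring
      _ ≤ δ * S0 := mul_le_mul_of_nonneg_right he1S hSF.le
      _ = ρ := rfl
  exact winLr_comb he10.le he14 hTl0 hkr hb0a hlow hup c1 c2 c3 c4

end Pool.Agent.R321.FA
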