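import Pool.Agent.R321.FB5
import Pool.Agent.R321.FD7

/-! Signed weights: means against `Mk`, upper bound for the pairing. -/

open Finset Complex MeasureTheory Filter Topology

namespace Pool.Agent.R321.FA

open LG (lk bk Cn EE Zs yp SF SM sm sm0 tm IsQ gK prs fam nA ae)
open SP (Par RHs PS Eb ZZ Mk)
open RGap (IsSgn sg aeS EES CnS)

/-- second moment of the weight -/
theorem WS_sq (P : Par) (B0 B1 : ℕ) (hB : P.B = 2 * B0) (hB1 : 2 * B1 ≤ B0) (r : ℝ)
    (F s : ℕ → ℝ) (hs : IsSgn s) (hF : ∀ n, B1 < n → F n = 0) (a0 d0 : ℝ)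
    (h1 : Tendsto (fun T : ℝ => CnS P B0 r F s T 1) atTop (𝓝 a0))
    (h2 : Tendsto (fun T : ℝ => (2 / Real.log T) * ∑' n : ℕ, lk 1 1 T n * CnS P B0 r F s T n) atTop
      (𝓝 d0)) :
    ∃ K T0 : ℝ, 0 < K ∧ 10 ≤ T0 ∧ ∀ T : ℝ, T0 ≤ T → ∫ t in T..(2 * T), WS P B0 r F s T t ^ 2 ≤ K * T := by
  obtain ⟨K, hK, h⟩ := llnS P B0 B1 hB hB1 r F s hs hF 1 1 one_pos a0 d0 h1 h2
  have hκ := P.hκ
  obtain ⟨T0, hT0, h3⟩ := h (P.κ / 8) (by positivity) (by linarith)
  exact ⟨K, T0, hK, hT0, fun T hT => (h3 T hT).2.2⟩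

/-- the mean of `|E|² Mk` -/
theorem WSM_mean (hRH : RHs) (P : Par) (B0 : ℕ) (r : ℝ) (F s : ℕ → ℝ) {K T1 : ℝ} (hK : 0 < K)
    (hT1 : 10 ≤ T1) (h : ∀ T : ℝ, T1 ≤ T → ∫ t in T..(2 * T), WS P B0 r F s T t ^ 2 ≤ K * T) :
    ∃ K' T0 : ℝ, 0 < K' ∧ 10 ≤ T0 ∧ ∀ T : ℝ, T0 ≤ T →
      ∫ t in (T + Real.log T ^ 3)..(2 * T - Real.log T ^ 3), WS P B0 r F s T t * Mk T 1 t ≤ K' * T := by
  obtain ⟨C, T2, hC, hT2, h2⟩ := Mk_sq hRH
  obtain ⟨T3, hT3⟩ : ∃ T3 : ℝ, ∀ T : ℝ, T3 ≤ T → 4 * Real.log T ^ 3 ≤ T := by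
    have g2 : ∀ᶠ T : ℝ in atTop, 4 * Real.log T ^ 3 ≤ T := by
      have h3 := isLittleO_log_rpow_atTop (show (0 : ℝ) < 1 / 3 by norm_num)
      rw [Asymptotics.isLittleO_iff] at h3
      filter_upwards [h3 (show (0 : ℝ) < 1 / 2 by norm_num), eventually_ge_atTop 1] with T g3 g4
      rw [Real.norm_of_nonneg (Real.log_nonneg g4), Real.norm_of_nonneg (by positivity)] at g3
      have g5 := pow_le_pow_left₀ (Real.log_nonneg g4) g3 3
      rw [mul_pow, ← Real.rpow_natCast (T ^ (1 / 3 : ℝ)), ← Real.rpow_mul (by linarith)] at g5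
      norm_num at g5
      linarith
    exact g2.exists_forall_of_atTop
  refine ⟨K + C, max T1 (max T2 T3), by positivity, hT1.trans (le_max_left _ _), fun T hT => ?_⟩
  simp only [max_le_iff] at hT
  obtain ⟨hTT1, hTT2, hTT3⟩ := hT
  have hT10 := hT1.trans hTT1
  have hTone : 1 ≤ T := by linarith
  have hL1 : 1 ≤ Real.log T := by
    rw [Real.le_log_iff_exp_le (by linarith)]
    have := Real.exp_one_lt_d9
    linarith
  have hL3 : Real.log T ≤ Real.log T ^ 3 := le_self_pow₀ hL1 (by norm_num)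
  have h4 := hT3 T hTT3
  have hV : T + Real.log T ^ 3 ≤ 2 * T - Real.log T ^ 3 := by linarith
  have k1 : Continuous (fun t => WS P B0 r F s T t ^ 2) := (WS_cont P B0 r F s T).pow 2
  have k2 : Continuous (fun t => Mk T 1 t ^ 2) := (SP.ExpAux.Mk_cont hTone 1).pow 2
  have k3 : Continuous (fun t => WS P B0 r F s T t * Mk T 1 t) :=
    (WS_cont P B0 r F s T).mul (SP.ExpAux.Mk_cont hTone 1)
  calc ∫ t in (T + Real.log T ^ 3)..(2 * T - Real.log T ^ 3), WS P B0 r F s T t * Mk T 1 t ≤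
      ∫ t in (T + Real.log T ^ 3)..(2 * T - Real.log T ^ 3),
        (WS P B0 r F s T t ^ 2 + Mk T 1 t ^ 2) := by
        apply intervalIntegral.integral_mono_on hV (k3.intervalIntegrable _ _)
          ((k1.add k2).intervalIntegrable _ _)
        intro t _
        show WS P B0 r F s T t * Mk T 1 t ≤ WS P B0 r F s T t ^ 2 + Mk T 1 t ^ 2
        have g1 := sq_nonneg (WS P B0 r F s T t - Mk T 1 t)
        have g2 := sq_nonneg (WS P B0 r F s T t)
        have g3 := sq_nonneg (Mk T 1 t)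
        have g4 : (WS P B0 r F s T t - Mk T 1 t) ^ 2 = WS P B0 r F s T t ^ 2 + Mk T 1 t ^ 2 -
          2 * (WS P B0 r F s T t * Mk T 1 t) := by ring
        linarith only [g1, g2, g3, g4]
    _ = (∫ t in (T + Real.log T ^ 3)..(2 * T - Real.log T ^ 3), WS P B0 r F s T t ^ 2) +
        ∫ t in (T + Real.log T ^ 3)..(2 * T - Real.log T ^ 3), Mk T 1 t ^ 2 :=
        intervalIntegral.integral_add (k1.intervalIntegrable _ _) (k2.intervalIntegrable _ _)
    _ ≤ K * T + C * T := by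
        apply add_le_add
        · refine le_trans ?_ (h T hTT1)
          exact intervalIntegral.integral_mono_interval (by linarith) hV (by linarith)
            (Eventually.of_forall fun t => sq_nonneg _) (k1.intervalIntegrable _ _)
        · exact h2 T hTT2 _ _ hV (by linarith) (by linarith)
    _ = _ := by ring

/-- global bound for `|E|² Mk` -/
lemma WSM_le (P : Par) (B0 : ℕ) (hB : P.B = 2 * B0) (r : ℝ) (F s : ℕ → ℝ) (hs : IsSgn s) : ∃ T0 : ℝ, 10 ≤ T0 ∧
    ∀ T : ℝ, T0 ≤ T → ∀ t, WS P B0 r F s T t * Mk T 1 t ≤ T ^ 4 * Real.exp (Real.log T ^ 4) := by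
  obtain ⟨T1, hT1, h1⟩ := nm_wS P B0 hB r F s hs
  obtain ⟨C, T2, hC, hT2, h2⟩ := TH800.MS.NT_le
  obtain ⟨T3, hT3⟩ : ∃ T3 : ℝ, ∀ T : ℝ, T3 ≤ T → max 2 C ≤ Real.log T :=
    (Real.tendsto_log_atTop.eventually_ge_atTop _).exists_forall_of_atTop
  refine ⟨max T1 (max T2 T3), hT1.trans (le_max_left _ _), fun T hT t => ?_⟩
  simp only [max_le_iff] at hT
  obtain ⟨hTT1, hTT2, hTT3⟩ := hT
  have hT10 := hT1.trans hTT1
  have hT0 : 0 < T := by linarith
  obtain ⟨hL2, hLC⟩ := max_le_iff.1 (hT3 T hTT3)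
  set L := Real.log T with hL
  have hexp : Real.exp L = T := Real.exp_log hT0
  have e1 : TH800.MS.NT T ≤ Real.exp (L ^ 4) := by
    have g1 : L ≤ Real.exp L := by linarith [Real.add_one_le_exp L]
    have g2 : C * (T * L) ≤ Real.exp (3 * L) := by
      have : Real.exp (3 * L) = Real.exp L * (Real.exp L * Real.exp L) := by
        rw [← Real.exp_add, ← Real.exp_add]; ring_nf
      rw [this]
      calc C * (T * L) ≤ Real.exp L * (Real.exp L * Real.exp L) := by
            rw [hexp] at g1 ⊢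
            have g3 : C ≤ T := by linarith
            have g4 : T * L ≤ T * T := mul_le_mul_of_nonneg_left g1 hT0.le
            exact mul_le_mul g3 g4 (by positivity) hT0.le
        _ = _ := rfl
    refine ((h2 T hTT2).trans g2).trans (Real.exp_le_exp.2 ?_)
    have g5 : 3 ≤ L ^ 3 := by
      calc (3 : ℝ) ≤ 2 ^ 3 := by norm_num
        _ ≤ L ^ 3 := pow_le_pow_left₀ (by norm_num) hL2 3
    calc 3 * L ≤ L ^ 3 * L := mul_le_mul_of_nonneg_right g5 (by linarith)
      _ = L ^ 4 := by ring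
  exact mul_le_mul ((WS_le P B0 r F s T t).trans (h1 T hTT1))
    ((Mk_le_NT (by linarith) 1 t).trans e1) (SP.ExpAux.Mk_nonneg (by linarith) 1 t) (by positivity)


/-- upper bound for the local pairing -/
lemma pair_upS {β h R e1 C3 T t0 A c M K : ℝ} (P : Par) (B0 : ℕ) (r : ℝ) (F s : ℕ → ℝ) (hT : 1 ≤ T)
    (hβ : 0 < β) (hh : 0 < h) (hhR : h ≤ R) (hK : 0 ≤ K) (he : 0 ≤ e1) (hC3 : 0 ≤ C3)
    (hM : ∀ t, WS P B0 r F s T t * Mk T 1 t ≤ M)
    (h1 : ∀ t, |t - t0| ≤ h → Zs A c T t ≤ K + e1 * Mk T 1 t)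
    (h2 : ∀ t, Zs A c T t ≤ C3 * Mk T 1 t) :
    ∫ t in (t0 - R)..(t0 + R), om β (t - t0) * WS P B0 r F s T t * Zs A c T t ≤
      K * AwS P B0 r F s T β t0 + e1 * (∫ y, om β y * (WS P B0 r F s T (t0 + y) * Mk T 1 (t0 + y))) +
      C3 * ∫ y, gT β h y * (WS P B0 r F s T (t0 + y) * Mk T 1 (t0 + y)) := by
  have hWc := WS_cont P B0 r F s T
  have hMc := SP.ExpAux.Mk_cont hT 1
  have hW0 := WS_nonneg P B0 r F s T
  have hM0 := SP.ExpAux.Mk_nonneg hT 1
  have hoc : Continuous (fun t => om β (t - t0)) := (om_cont β).comp (by fun_prop)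
  have hZc : Continuous (fun t => Zs A c T t) := LG.MeanAux.Zs_cont A c T hT
  set W : ℝ → ℝ := fun t => WS P B0 r F s T t * Mk T 1 t with hW
  have hWWc : Continuous W := hWc.mul hMc
  have hWW0 : ∀ t, 0 ≤ W t := fun t => mul_nonneg (hW0 t) (hM0 t)
  have k1 : Continuous (fun t => om β (t - t0) * WS P B0 r F s T t * Zs A c T t) :=
    (hoc.mul hWc).mul hZc
  have k2 : Continuous (fun t => om β (t - t0) * W t) := hoc.mul hWWc
  have k3 : Continuous (fun t => om β (t - t0) * WS P B0 r F s T t) := hoc.mul hWc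
  have hsplit := gT_split (h := h) hβ hh.le hWWc (M := M) (fun t => by
    rw [abs_of_nonneg (hWW0 t)]; exact hM t) t0
  have hsplit2 := gT_split (h := h) hβ hh.le hWc (M := nm (wS P B0 r F s T)) (fun t => by
    rw [abs_of_nonneg (hW0 t)]; exact WS_le _ _ _ _ _ _ _) t0
  have hsplit3 := gT_split (h := R) hβ (by linarith) hWWc (M := M) (fun t => by
    rw [abs_of_nonneg (hWW0 t)]; exact hM t) t0
  have htail2 : 0 ≤ ∫ y, gT β h y * WS P B0 r F s T (t0 + y) :=
    integral_nonneg fun y => mul_nonneg (gT_nonneg hβ h y) (hW0 _)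
  have htail3 : 0 ≤ ∫ y, gT β R y * W (t0 + y) :=
    integral_nonneg fun y => mul_nonneg (gT_nonneg hβ R y) (hWW0 _)
  have htail1 : 0 ≤ ∫ y, gT β h y * W (t0 + y) :=
    integral_nonneg fun y => mul_nonneg (gT_nonneg hβ h y) (hWW0 _)
  have hfull : (∫ t, om β (t - t0) * W t) = ∫ y, om β y * W (t0 + y) := by
    have h1 := integral_add_right_eq_self (fun t => om β (t - t0) * W t) (μ := volume) t0
    rw [← h1]
    congr 1
    funext y
    rw [add_sub_cancel_right, add_comm]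
  -- inner part
  have hin : ∫ t in (t0 - h)..(t0 + h), om β (t - t0) * WS P B0 r F s T t * Zs A c T t ≤
      K * (∫ t in (t0 - h)..(t0 + h), om β (t - t0) * WS P B0 r F s T t) +
      e1 * ∫ t in (t0 - h)..(t0 + h), om β (t - t0) * W t := by
    rw [← intervalIntegral.integral_const_mul, ← intervalIntegral.integral_const_mul,
      ← intervalIntegral.integral_add
      ((k3.const_mul K).intervalIntegrable _ _) ((k2.const_mul e1).intervalIntegrable _ _)]
    apply intervalIntegral.integral_mono_on (by linarith) (k1.intervalIntegrable _ _)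
      (((k3.const_mul K).add (k2.const_mul e1)).intervalIntegrable _ _)
    intro t ht
    have g1 : 0 ≤ om β (t - t0) * WS P B0 r F s T t := mul_nonneg (om_nonneg hβ _) (hW0 t)
    have g2 := h1 t (by rw [abs_le]; constructor <;> linarith [ht.1, ht.2])
    calc om β (t - t0) * WS P B0 r F s T t * Zs A c T t ≤
        om β (t - t0) * WS P B0 r F s T t * (K + e1 * Mk T 1 t) := mul_le_mul_of_nonneg_left g2 g1
      _ = K * (om β (t - t0) * WS P B0 r F s T t) + e1 * (om β (t - t0) * W t) := by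
          simp only [hW]; ring
  -- outer part
  have hout : (∫ t in (t0 - R)..(t0 + R), om β (t - t0) * WS P B0 r F s T t * Zs A c T t) -
      (∫ t in (t0 - h)..(t0 + h), om β (t - t0) * WS P B0 r F s T t * Zs A c T t) ≤
      C3 * ((∫ t in (t0 - R)..(t0 + R), om β (t - t0) * W t) -
        ∫ t in (t0 - h)..(t0 + h), om β (t - t0) * W t) := by
    have k4 : Continuous (fun t => C3 * (om β (t - t0) * W t) -
        om β (t - t0) * WS P B0 r F s T t * Zs A c T t) := (k2.const_mul C3).sub k1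
    have g1 : ∫ t in (t0 - h)..(t0 + h), (C3 * (om β (t - t0) * W t) -
        om β (t - t0) * WS P B0 r F s T t * Zs A c T t) ≤
        ∫ t in (t0 - R)..(t0 + R), (C3 * (om β (t - t0) * W t) -
        om β (t - t0) * WS P B0 r F s T t * Zs A c T t) := by
      apply intervalIntegral.integral_mono_interval (by linarith) (by linarith) (by linarith) _
        (k4.intervalIntegrable _ _)
      refine Eventually.of_forall fun t => ?_
      have g1 : 0 ≤ om β (t - t0) * WS P B0 r F s T t := mul_nonneg (om_nonneg hβ _) (hW0 t)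
      have g2 := mul_le_mul_of_nonneg_left (h2 t) g1
      have g3 : om β (t - t0) * WS P B0 r F s T t * (C3 * Mk T 1 t) =
          C3 * (om β (t - t0) * W t) := by simp only [hW]; ring
      rw [g3] at g2
      exact sub_nonneg.2 g2
    rw [intervalIntegral.integral_sub ((k2.const_mul C3).intervalIntegrable _ _)
      (k1.intervalIntegrable _ _), intervalIntegral.integral_sub
      ((k2.const_mul C3).intervalIntegrable _ _) (k1.intervalIntegrable _ _),
      intervalIntegral.integral_const_mul, intervalIntegral.integral_const_mul] at g1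
    linarith
  have hAw : AwS P B0 r F s T β t0 = (∫ t in (t0 - h)..(t0 + h), om β (t - t0) * WS P B0 r F s T t) +
      ∫ y, gT β h y * WS P B0 r F s T (t0 + y) := hsplit2
  have hy1 : (∫ t in (t0 - h)..(t0 + h), om β (t - t0) * WS P B0 r F s T t) ≤
      AwS P B0 r F s T β t0 := by linarith
  have hy2 : (∫ t in (t0 - h)..(t0 + h), om β (t - t0) * W t) ≤ ∫ y, om β y * W (t0 + y) := by
    rw [← hfull]; linarith
  have hy3 : (∫ t in (t0 - R)..(t0 + R), om β (t - t0) * W t) -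
      (∫ t in (t0 - h)..(t0 + h), om β (t - t0) * W t) ≤ ∫ y, gT β h y * W (t0 + y) := by
    linarith
  have hy1' := mul_le_mul_of_nonneg_left hy1 hK
  have hy4 := mul_le_mul_of_nonneg_left hy2 he
  have hy5 := mul_le_mul_of_nonneg_left hy3 hC3
  linarith


end Pool.Agent.R321.FA
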