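import Pool.Agent.Y743.CL.Ga

/-! # Test functions -/

set_option autoImplicit false

namespace Pool.Agent.R321.QA

open Filter Topology MeasureTheory Complex FourierTransform ContDiff
open Pool.Agent.Y743.CL (gs gs_shrink)

/-- test functions with an integrable Fourier transform -/
lemma bump (u v δ : ℝ) (huv : u < v) (hδ : 0 < δ) : ∃ (f : ℝ → ℝ) (g : ℝ → ℂ), Continuous f ∧
    Continuous g ∧ Integrable g ∧ (∀ x, 0 ≤ f x) ∧ (∀ x, f x ≤ 1) ∧
    (∀ x, ¬ (u < x ∧ x < v) → f x = 0) ∧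
    (∀ x : ℝ, (f x : ℂ) = ∫ s, g s * cexp (I * ((2 * Real.pi * s * x : ℝ) : ℂ))) ∧
    gs.real (Set.Ioo u v) - δ ≤ ∫ x, f x ∂gs := by
  obtain ⟨δ', h1, h2, h3⟩ : ∃ δ' : ℝ, 0 < δ' ∧ 2 * δ' ≤ δ ∧ δ' ≤ (v - u) / 4 :=
    ⟨min (δ / 2) ((v - u) / 4), lt_min (by linarith) (by linarith),
      by have := min_le_left (δ / 2) ((v - u) / 4); linarith, min_le_right _ _⟩
  let b : ContDiffBump ((u + v) / 2) :=
    ⟨(v - u) / 2 - δ', (v - u) / 2, by linarith, by linarith⟩
  have hsupp : ∀ x : ℝ, ¬ (u < x ∧ x < v) → b x = 0 := by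
    intro x hx
    by_contra hne
    have hm : x ∈ Function.support b := hne
    rw [b.support_eq, Metric.mem_ball, Real.dist_eq, abs_lt] at hm
    apply hx
    have e : b.rOut = (v - u) / 2 := rfl
    rw [e] at hm
    constructor <;> linarith [hm.1, hm.2]
  have hone : ∀ x ∈ Set.Ioo (u + δ') (v - δ'), b x = 1 := by
    intro x hx
    apply b.one_of_mem_closedBall
    have e : b.rIn = (v - u) / 2 - δ' := rfl
    rw [Metric.mem_closedBall, Real.dist_eq, abs_le, e]
    constructor <;> linarith [hx.1, hx.2]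
  have hF1 : HasCompactSupport fun x => ((b x : ℝ) : ℂ) :=
    b.hasCompactSupport.comp_left (g := fun y : ℝ => (y : ℂ)) (by simp)
  have hF2 : ContDiff ℝ ∞ fun x => ((b x : ℝ) : ℂ) := Complex.ofRealCLM.contDiff.comp b.contDiff
  let S : SchwartzMap ℝ ℂ := hF1.toSchwartzMap hF2
  have hbc : Continuous b := b.continuous
  have hb0 : ∀ x, 0 ≤ b x := fun x => b.nonneg
  have hb1 : ∀ x, b x ≤ 1 := fun x => b.le_one
  have hinv : ∀ x : ℝ, ((b x : ℝ) : ℂ) = 𝓕⁻ (𝓕 (S : ℝ → ℂ)) x := by
    intro x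
    rw [Continuous.fourierInv_fourier_eq S.continuous S.integrable]
    · rfl
    · exact (𝓕 S).integrable
  refine ⟨b, 𝓕 (S : ℝ → ℂ), hbc, (𝓕 S).continuous, (𝓕 S).integrable, hb0, hb1,
    hsupp, fun x => ?_, ?_⟩
  · rw [hinv x, Real.fourierInv_eq']
    refine integral_congr_ae (Eventually.of_forall fun s => ?_)
    simp only
    rw [smul_eq_mul, mul_comm]
    congr 2
    have e : inner ℝ s x = x * s := by simp
    rw [e]
    push_cast
    ring
  · have i1 : Integrable (fun x => b x) gs := by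
      refine (integrable_const (1 : ℝ)).mono' hbc.measurable.aestronglyMeasurable
        (Eventually.of_forall fun x => ?_)
      rw [Real.norm_eq_abs, abs_of_nonneg (hb0 x)]
      exact hb1 x
    have h4 : gs.real (Set.Ioo (u + δ') (v - δ')) ≤ ∫ x, b x ∂gs := by
      have h5 : ∫ x, (Set.Ioo (u + δ') (v - δ')).indicator (fun _ => (1 : ℝ)) x ∂gs =
          gs.real (Set.Ioo (u + δ') (v - δ')) := by
        rw [integral_indicator_const _ measurableSet_Ioo, smul_eq_mul, mul_one]
      rw [← h5]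
      refine integral_mono ((integrable_const (1 : ℝ)).indicator measurableSet_Ioo) i1 fun x => ?_
      by_cases hx : x ∈ Set.Ioo (u + δ') (v - δ')
      · rw [Set.indicator_of_mem hx, hone x hx]
      · rw [Set.indicator_of_notMem hx]; exact hb0 x
    have h6 := gs_shrink u v δ' h1.le
    linarith

end Pool.Agent.R321.QA
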