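import Pool.Agent.Y743.CL.Fm

/-! # The characteristic function of prime polynomials -/

set_option autoImplicit false

namespace Pool.Agent.R321.QA

open Filter Topology MeasureTheory Complex
open Pool.Agent.Y743.CL (G G_cont VS SS)

/-- the moments, with another normalisation -/
theorem mom_lim2 (T A B : ℕ → ℝ) (X : ℕ → ℕ) (c : ℕ → ℕ → ℝ) (N : ℕ → ℝ) {M : ℝ}
    (hM : ∀ j p, c j p ^ 2 ≤ M)
    (hT : Tendsto T atTop atTop) (hAB : ∀ j, A j ≤ B j)
    (hlen : Tendsto (fun j => (B j - A j) / T j) atTop (𝓝 1)) (hX1 : ∀ j, 1 ≤ X j)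
    (hX : ∀ m : ℕ, ∀ᶠ j in atTop, ((X j ^ m : ℕ) : ℝ) ≤ Real.sqrt (T j))
    (hV : Tendsto (fun j => VS (c j) (X j)) atTop atTop)
    (hN : Tendsto (fun j => Real.sqrt (VS (c j) (X j)) / N j) atTop (𝓝 1)) (k l : ℕ) :
    Tendsto (fun j => (((1 / T j) * (1 / N j ^ (k + l)) : ℝ) : ℂ) *
      ∫ t in (A j)..(B j), G (c j) (X j) t ^ k * (starRingEnd ℂ) (G (c j) (X j) t) ^ l) atTop
      (𝓝 (if k = l then (k.factorial : ℂ) else 0)) := by
  have h1 := Pool.Agent.Y743.CL.mom_lim T A B X c hM hT hAB hlen hX1 hX hV k l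
  have h2 : Tendsto (fun j => (((Real.sqrt (VS (c j) (X j)) / N j) ^ (k + l) : ℝ) : ℂ)) atTop
      (𝓝 1) := by
    have := (Complex.continuous_ofReal.tendsto _).comp (hN.pow (k + l))
    rw [one_pow, Complex.ofReal_one] at this
    exact this
  have h3 := h2.mul h1
  rw [one_mul] at h3
  refine h3.congr' ?_
  filter_upwards [hV.eventually_gt_atTop 0] with j hj
  have hs : ((Real.sqrt (VS (c j) (X j)) : ℝ) : ℂ) ≠ 0 := by
    exact_mod_cast (Real.sqrt_pos.2 hj).ne'
  rw [← mul_assoc]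
  congr 1
  push_cast
  rw [div_pow, one_div (((Real.sqrt (VS (c j) (X j)) : ℝ) : ℂ) ^ (k + l))]
  field_simp

/-- **the characteristic function of prime polynomials** -/
theorem cf_poly (T A B : ℕ → ℝ) (X : ℕ → ℕ) (c : ℕ → ℕ → ℝ) (N : ℕ → ℝ) {M : ℝ}
    (hM : ∀ j p, c j p ^ 2 ≤ M)
    (hT : Tendsto T atTop atTop) (hT0 : ∀ j, 0 < T j) (hAB : ∀ j, A j ≤ B j)
    (hlen : Tendsto (fun j => (B j - A j) / T j) atTop (𝓝 1)) (hX1 : ∀ j, 1 ≤ X j)
    (hX : ∀ m : ℕ, ∀ᶠ j in atTop, ((X j ^ m : ℕ) : ℝ) ≤ Real.sqrt (T j))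
    (hV : Tendsto (fun j => VS (c j) (X j)) atTop atTop)
    (hN : Tendsto (fun j => Real.sqrt (VS (c j) (X j)) / N j) atTop (𝓝 1))
    (ω : ℂ) (hω : ω * (starRingEnd ℂ) ω = 1) (s : ℝ) :
    Tendsto (fun j => ((1 / T j : ℝ) : ℂ) * ∫ t in (A j)..(B j),
      cexp (I * ((s * (Real.sqrt 2 * (ω * G (c j) (X j) t / (N j : ℂ)).re) : ℝ) : ℂ))) atTop
      (𝓝 (cexp ((-(s ^ 2) / 2 : ℝ) : ℂ))) := by
  set μ : ℕ → Measure ℝ := fun j => ENNReal.ofReal (1 / T j) • volume.restrict (Set.Ioc (A j) (B j)) with hμ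
  set f : ℕ → ℝ → ℂ := fun j t => ω * G (c j) (X j) t / (N j : ℂ) with hf
  have hfc : ∀ j, Continuous (f j) := fun j => by
    simp only [hf]
    exact (continuous_const.mul (G_cont _ _)).div_const _
  have hfin : ∀ j, IsFiniteMeasure (μ j) := fun j => by
    simp only [hμ]
    refine ⟨?_⟩
    rw [Measure.smul_apply, smul_eq_mul, Measure.restrict_apply_univ, Real.volume_Ioc]
    exact ENNReal.mul_lt_top ENNReal.ofReal_lt_top ENNReal.ofReal_lt_top
  have hint : ∀ (j : ℕ) (g : ℝ → ℂ), ∫ x, g x ∂(μ j) = ((1 / T j : ℝ) : ℂ) * ∫ t in (A j)..(B j), g t := by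
    intro j g
    simp only [hμ]
    rw [integral_smul_measure, ENNReal.toReal_ofReal (by have := hT0 j; positivity),
      intervalIntegral.integral_of_le (hAB j)]
    simp
  have hHy : Pool.Agent.Y586.SW.Hy μ f 1 := by
    refine ⟨zero_le_one, hfin, fun j => (hfc j).measurable, fun j k => ?_, fun k l => ?_⟩
    · have h1 : IntegrableOn (fun x => ‖f j x‖ ^ k) (Set.Ioc (A j) (B j)) volume :=
        (((hfc j).norm.pow k).integrableOn_Icc).mono_set Set.Ioc_subset_Icc_self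
      simp only [hμ]
      exact h1.smul_measure ENNReal.ofReal_ne_top
    · have h1 := mom_lim2 T A B X c N hM hT hAB hlen hX1 hX hV hN k l
      have h1' := h1.const_mul (ω ^ k * (starRingEnd ℂ) ω ^ l)
      have e : ω ^ k * (starRingEnd ℂ) ω ^ l * (if k = l then (k.factorial : ℂ) else 0) =
          (if k = l then (k.factorial : ℂ) * ((1 : ℝ) : ℂ) else 0) := by
        split_ifs with hkl
        · subst hkl
          rw [← mul_pow, hω, one_pow]
          simp
        · simp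
      rw [e] at h1'
      refine h1'.congr fun j => ?_
      rw [hint]
      have e2 : ∀ t, f j t ^ k * (starRingEnd ℂ) (f j t) ^ l =
          (ω ^ k * (starRingEnd ℂ) ω ^ l * ((1 / N j ^ (k + l) : ℝ) : ℂ)) *
          (G (c j) (X j) t ^ k * (starRingEnd ℂ) (G (c j) (X j) t) ^ l) := by
        intro t
        simp only [hf]
        rw [map_div₀, map_mul, Complex.conj_ofReal, div_pow, div_pow, mul_pow, mul_pow, pow_add]
        push_cast
        ring
      simp only [e2]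
      rw [intervalIntegral.integral_const_mul]
      push_cast
      ring
  have h := Pool.Agent.Y586.SW.char_lim hHy s
  rw [Complex.ofReal_one, one_mul] at h
  refine h.congr fun j => ?_
  rw [hint]
  rfl

end Pool.Agent.R321.QA
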