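import Pool.Agent.R321.QA1
import Pool.Agent.Y743.CL.Cf

/-! # Differences of prime polynomials -/

set_option autoImplicit false

namespace Pool.Agent.R321.QA

open Filter Topology MeasureTheory Complex
open Pool.Agent.Y743.CL (G G_cont VS SS pr pr_apply Pr mem_Pr rc)
open Pool.Agent.Y41.SW (DP)

/-- the coefficients of the difference -/
noncomputable def cm (v : ℝ) (c : ℕ → ℝ) (n : ℕ) : ℝ := 2 * Real.sin (v / 2 * Real.log n) * c n

lemma cm_bd {v : ℝ} {c : ℕ → ℝ} {M : ℝ} (hM : ∀ p, c p ^ 2 ≤ M) (p : ℕ) : cm v c p ^ 2 ≤ 4 * M := by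
  unfold cm
  have h1 := Real.sin_sq_le_one (v / 2 * Real.log p)
  have h2 := hM p
  have h3 : (2 * Real.sin (v / 2 * Real.log p) * c p) ^ 2 =
      4 * (Real.sin (v / 2 * Real.log p) ^ 2 * c p ^ 2) := by ring
  rw [h3]
  have h4 : Real.sin (v / 2 * Real.log p) ^ 2 * c p ^ 2 ≤ 1 * M :=
    mul_le_mul h1 h2 (sq_nonneg _) zero_le_one
  linarith

lemma pow_diff (n : ℕ) (hn : 1 ≤ n) (t v : ℝ) :
    (n : ℂ) ^ (-(t : ℂ) * I) - (n : ℂ) ^ (-((t + v : ℝ) : ℂ) * I) =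
      I * (((2 * Real.sin (v / 2 * Real.log n) : ℝ) : ℂ) * (n : ℂ) ^ (-((t + v / 2 : ℝ) : ℂ) * I)) := by
  have hn0 : (n : ℂ) ≠ 0 := by exact_mod_cast (by omega : n ≠ 0)
  rw [Complex.cpow_def_of_ne_zero hn0, Complex.cpow_def_of_ne_zero hn0,
    Complex.cpow_def_of_ne_zero hn0, ← Complex.natCast_log]
  set ℓ : ℝ := Real.log n
  have e1 : cexp ((ℓ : ℂ) * (-(t : ℂ) * I)) = cexp ((ℓ : ℂ) * (-((t + v / 2 : ℝ) : ℂ) * I)) *
      cexp (((v / 2 * ℓ : ℝ) : ℂ) * I) := by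
    rw [← Complex.exp_add]; congr 1; push_cast; ring
  have e2 : cexp ((ℓ : ℂ) * (-((t + v : ℝ) : ℂ) * I)) = cexp ((ℓ : ℂ) * (-((t + v / 2 : ℝ) : ℂ) * I)) *
      cexp (-((v / 2 * ℓ : ℝ) : ℂ) * I) := by
    rw [← Complex.exp_add]; congr 1; push_cast; ring
  have e3 : ((Real.sin (v / 2 * ℓ) : ℝ) : ℂ) =
      (cexp (-((v / 2 * ℓ : ℝ) : ℂ) * I) - cexp (((v / 2 * ℓ : ℝ) : ℂ) * I)) * I / 2 := by
    rw [Complex.ofReal_sin, Complex.sin]
  have e4 : ((2 * Real.sin (v / 2 * ℓ) : ℝ) : ℂ) = 2 * ((Real.sin (v / 2 * ℓ) : ℝ) : ℂ) := by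
    rw [Complex.ofReal_mul]; norm_num
  rw [e1, e2, e4, e3]
  generalize cexp ((ℓ : ℂ) * (-((t + v / 2 : ℝ) : ℂ) * I)) = E
  generalize cexp (((v / 2 * ℓ : ℝ) : ℂ) * I) = E1
  generalize cexp (-((v / 2 * ℓ : ℝ) : ℂ) * I) = E2
  have e5 : I * (2 * ((E2 - E1) * I / 2) * E) = (E2 - E1) * E * (I * I) := by ring
  rw [e5, Complex.I_mul_I]
  ring

/-- the difference of a prime polynomial and its translate -/
lemma G_sub (c : ℕ → ℝ) (X : ℕ) (t v : ℝ) :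
    G c X t - G c X (t + v) = I * G (cm v c) X (t + v / 2) := by
  unfold G DP
  rw [← Finset.sum_sub_distrib, Finset.mul_sum]
  refine Finset.sum_congr rfl fun n hn => ?_
  rw [Finset.mem_Icc] at hn
  rw [← mul_sub, pow_diff n hn.1 t v, pr_apply, pr_apply]
  split_ifs with h
  · unfold cm
    push_cast
    ring
  · simp

/-- the coefficients -/
lemma rc_sin (l h v : ℝ) (n : ℕ) :
    cm v (rc l h) n ^ 2 = 2 * rc l v n ^ 2 + 2 * rc l h n ^ 2 - rc l (h + v) n ^ 2 -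
      rc l (h - v) n ^ 2 := by
  unfold cm rc
  set x := Real.log n
  have e1 : (h + v) / 2 * x = h / 2 * x + v / 2 * x := by ring
  have e2 : (h - v) / 2 * x = h / 2 * x - v / 2 * x := by ring
  rw [e1, e2, Real.sin_add, Real.sin_sub]
  have h1 := Real.sin_sq_add_cos_sq (h / 2 * x)
  have h2 := Real.sin_sq_add_cos_sq (v / 2 * x)
  set a := Real.sin (h / 2 * x)
  set b := Real.cos (h / 2 * x)
  set a' := Real.sin (v / 2 * x)
  set b' := Real.cos (v / 2 * x)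
  have hb : b ^ 2 = 1 - a ^ 2 := by linarith
  have hb' : b' ^ 2 = 1 - a' ^ 2 := by linarith
  generalize 2 * (1 / Real.sqrt (2 * Real.pi)) *
    (ArithmeticFunction.vonMangoldt n * (Real.sqrt n)⁻¹ * Pool.Agent.TH850.UV.ggo l n) = w
  generalize l / (2 * Real.pi) = z
  have key : (a * b' + b * a') ^ 2 + (a * b' - b * a') ^ 2 = 2 * a ^ 2 * b' ^ 2 + 2 * b ^ 2 * a' ^ 2 := by
    ring
  have e3 : (w * (z * (2 * (a * b' + b * a') / x))) ^ 2 + (w * (z * (2 * (a * b' - b * a') / x))) ^ 2 =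
      (w * z * 2 / x) ^ 2 * (2 * a ^ 2 * b' ^ 2 + 2 * b ^ 2 * a' ^ 2) := by
    rw [← key]; ring
  have e4 : 2 * (w * (z * (2 * a' / x))) ^ 2 + 2 * (w * (z * (2 * a / x))) ^ 2 =
      (w * z * 2 / x) ^ 2 * (2 * a' ^ 2 + 2 * a ^ 2) := by ring
  have e5 : (2 * a' * (w * (z * (2 * a / x)))) ^ 2 = (w * z * 2 / x) ^ 2 * (4 * a' ^ 2 * a ^ 2) := by ring
  rw [e5]
  have e6 : (w * z * 2 / x) ^ 2 * (4 * a' ^ 2 * a ^ 2) =
      (w * z * 2 / x) ^ 2 * (2 * a' ^ 2 + 2 * a ^ 2) -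
      (w * z * 2 / x) ^ 2 * (2 * a ^ 2 * b' ^ 2 + 2 * b ^ 2 * a' ^ 2) := by
    rw [hb, hb']; ring
  rw [e6, ← e4, ← e3]
  ring

/-- the variance of the difference -/
lemma VS_sub (l h v : ℝ) (X : ℕ) : VS (cm v (rc l h)) X =
    2 * VS (rc l v) X + 2 * VS (rc l h) X - VS (rc l (h + v)) X - VS (rc l (h - v)) X := by
  unfold VS
  rw [Finset.mul_sum, Finset.mul_sum, ← Finset.sum_add_distrib, ← Finset.sum_sub_distrib,
    ← Finset.sum_sub_distrib]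
  exact Finset.sum_congr rfl fun n _ => rc_sin l h v n

end Pool.Agent.R321.QA
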