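import Pool.Agent.R321.QA2
import Pool.Agent.Y743.CL.St

/-! # The characteristic function of the number of zeros in a window -/

set_option autoImplicit false

namespace Pool.Agent.R321.QA

open Filter Topology MeasureTheory Complex
open Pool.Agent.Y743.CL (G G_cont VS SS pr pr_apply Pr mem_Pr rc comb er er_meas XK small_log rc_bd Zv)

lemma exp_diff (x y : ℝ) : ‖cexp (I * (x : ℂ)) - cexp (I * (y : ℂ))‖ ≤ |x - y| := by
  have h : cexp (I * (x : ℂ)) - cexp (I * (y : ℂ)) =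
      cexp (I * (y : ℂ)) * (cexp (I * ((x - y : ℝ) : ℂ)) - 1) := by
    rw [mul_sub, ← Complex.exp_add, mul_one]
    congr 2
    push_cast
    ring
  rw [h, norm_mul, mul_comm I (y : ℂ), Complex.norm_exp_ofReal_mul_I, one_mul]
  exact (Real.norm_exp_I_mul_ofReal_sub_one_le).trans (le_of_eq (Real.norm_eq_abs _))

lemma exp_meas {f : ℝ → ℝ} (hf : Measurable f) : Measurable fun t => cexp (I * ((f t : ℝ) : ℂ)) :=
  Complex.measurable_exp.comp ((Complex.measurable_ofReal.comp hf).const_mul I)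

lemma exp_int {f : ℝ → ℝ} (hf : Measurable f) (A B : ℝ) :
    IntervalIntegrable (fun t => cexp (I * ((f t : ℝ) : ℂ))) volume A B := by
  refine (intervalIntegrable_const (c := (1 : ℝ)) (μ := volume) (a := A) (b := B)).mono_fun'
    (exp_meas hf).aestronglyMeasurable (Eventually.of_forall fun t => ?_)
  show ‖cexp (I * ((f t : ℝ) : ℂ))‖ ≤ 1
  rw [mul_comm, Complex.norm_exp_ofReal_mul_I]

lemma exp_norm (x : ℝ) : ‖cexp (I * (x : ℂ))‖ = 1 := by
  rw [mul_comm, Complex.norm_exp_ofReal_mul_I]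

/-- transfer of the limits -/
lemma trans_lim (T A B : ℕ → ℝ) (Y Z e : ℕ → ℝ → ℝ) (L : ℂ) (ξ : ℝ)
    (hT : ∀ j, 0 < T j) (hA : ∀ j, T j ≤ A j) (hAB : ∀ j, A j ≤ B j) (hB : ∀ j, B j ≤ 2 * T j)
    (hlen : Tendsto (fun j => (B j - A j) / T j) atTop (𝓝 1))
    (hY : ∀ j, Measurable (Y j)) (hZ : ∀ j, Measurable (Z j))
    (he : ∀ j, IntervalIntegrable (e j) volume (A j) (B j))
    (hee : Tendsto (fun j => (1 / T j) * ∫ t in (A j)..(B j), e j t) atTop (𝓝 0))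
    (heq : ∀ j, ∀ t ∈ Set.Icc (A j) (B j), (Z j t - Y j t) ^ 2 ≤ e j t)
    (hL : Tendsto (fun j => ((1 / T j : ℝ) : ℂ) * ∫ t in (A j)..(B j),
      cexp (I * ((ξ * Y j t : ℝ) : ℂ))) atTop (𝓝 L)) :
    Tendsto (fun j => ((1 / T j : ℝ) : ℂ) * ∫ t in (T j)..(2 * T j),
      cexp (I * ((ξ * Z j t : ℝ) : ℂ))) atTop (𝓝 L) := by
  rw [Metric.tendsto_atTop] at hL ⊢
  intro ε hε
  obtain ⟨N1, hN1⟩ := hL (ε / 4) (by positivity)
  obtain ⟨δ, hδd⟩ : ∃ δ : ℝ, δ = ε / 4 := ⟨_, rfl⟩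
  have hδ : 0 < δ := by rw [hδd]; positivity
  have h1 : ∀ᶠ j in atTop, ξ ^ 2 / δ * ((1 / T j) * ∫ t in (A j)..(B j), e j t) ≤ ε / 4 := by
    have := hee.const_mul (ξ ^ 2 / δ)
    rw [mul_zero] at this
    exact this.eventually_le_const (by positivity)
  have h2 : ∀ᶠ j in atTop, 1 - (B j - A j) / T j ≤ ε / 4 := by
    have := hlen.const_sub 1
    rw [sub_self] at this
    exact this.eventually_le_const (by positivity)
  obtain ⟨N2, hN2⟩ := (h1.and h2).exists_forall_of_atTop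
  refine ⟨max N1 N2, fun j hj => ?_⟩
  have g1 := hN1 j ((le_max_left _ _).trans hj)
  obtain ⟨g2, g3⟩ := hN2 j ((le_max_right _ _).trans hj)
  have hTj := hT j
  have iZ := exp_int ((hZ j).const_mul ξ)
  have iY := exp_int ((hY j).const_mul ξ)
  have hsplit : ∫ t in (T j)..(2 * T j), cexp (I * ((ξ * Z j t : ℝ) : ℂ)) =
      (∫ t in (T j)..(A j), cexp (I * ((ξ * Z j t : ℝ) : ℂ))) +
      (∫ t in (A j)..(B j), cexp (I * ((ξ * Z j t : ℝ) : ℂ))) +
      ∫ t in (B j)..(2 * T j), cexp (I * ((ξ * Z j t : ℝ) : ℂ)) := by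
    rw [intervalIntegral.integral_add_adjacent_intervals (iZ _ _) (iZ _ _),
      intervalIntegral.integral_add_adjacent_intervals (iZ _ _) (iZ _ _)]
  have b1 : ‖∫ t in (T j)..(A j), cexp (I * ((ξ * Z j t : ℝ) : ℂ))‖ ≤ 1 * |A j - T j| :=
    intervalIntegral.norm_integral_le_of_norm_le_const fun t _ => (exp_norm _).le
  have b2 : ‖∫ t in (B j)..(2 * T j), cexp (I * ((ξ * Z j t : ℝ) : ℂ))‖ ≤ 1 * |2 * T j - B j| :=
    intervalIntegral.norm_integral_le_of_norm_le_const fun t _ => (exp_norm _).le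
  rw [abs_of_nonneg (by linarith [hA j]), one_mul] at b1
  rw [abs_of_nonneg (by linarith [hB j]), one_mul] at b2
  have b3 : ‖(∫ t in (A j)..(B j), cexp (I * ((ξ * Z j t : ℝ) : ℂ))) -
      ∫ t in (A j)..(B j), cexp (I * ((ξ * Y j t : ℝ) : ℂ))‖ ≤
      δ / 2 * (B j - A j) + ξ ^ 2 / (2 * δ) * ∫ t in (A j)..(B j), e j t := by
    rw [← intervalIntegral.integral_sub (iZ _ _) (iY _ _)]
    have : δ / 2 * (B j - A j) + ξ ^ 2 / (2 * δ) * ∫ t in (A j)..(B j), e j t =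
        ∫ t in (A j)..(B j), (δ / 2 + ξ ^ 2 / (2 * δ) * e j t) := by
      rw [intervalIntegral.integral_add intervalIntegrable_const ((he j).const_mul _),
        intervalIntegral.integral_const, intervalIntegral.integral_const_mul, smul_eq_mul]
      ring
    rw [this]
    refine intervalIntegral.norm_integral_le_of_norm_le (hAB j) ?_
      (intervalIntegrable_const.add ((he j).const_mul _))
    refine Eventually.of_forall fun t ht => ?_
    refine (exp_diff _ _).trans ?_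
    have h5 := heq j t ⟨ht.1.le, ht.2⟩
    have h6 : |ξ * Z j t - ξ * Y j t| = |ξ| * |Z j t - Y j t| := by rw [← mul_sub, abs_mul]
    rw [h6]
    have h7 : |ξ| * |Z j t - Y j t| ≤ δ / 2 + ξ ^ 2 / (2 * δ) * (Z j t - Y j t) ^ 2 := by
      have h8 : 0 ≤ (|ξ| * |Z j t - Y j t| - δ) ^ 2 / (2 * δ) := by positivity
      have h9 : (|ξ| * |Z j t - Y j t| - δ) ^ 2 / (2 * δ) =
          ξ ^ 2 / (2 * δ) * (Z j t - Y j t) ^ 2 - |ξ| * |Z j t - Y j t| + δ / 2 := by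
        have e1 : (|ξ| * |Z j t - Y j t| - δ) ^ 2 =
            |ξ| ^ 2 * |Z j t - Y j t| ^ 2 - 2 * δ * (|ξ| * |Z j t - Y j t|) + δ ^ 2 := by ring
        rw [e1, sq_abs, sq_abs]
        field_simp
      linarith
    refine h7.trans ?_
    have : 0 ≤ ξ ^ 2 / (2 * δ) := by positivity
    nlinarith
  -- the end
  have hint : 0 ≤ ∫ t in (A j)..(B j), e j t :=
    intervalIntegral.integral_nonneg (hAB j) fun t ht => (sq_nonneg _).trans (heq j t ht)
  rw [dist_eq_norm] at g1 ⊢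
  have e1 : ((1 / T j : ℝ) : ℂ) * (∫ t in (T j)..(2 * T j), cexp (I * ((ξ * Z j t : ℝ) : ℂ))) - L =
      (((1 / T j : ℝ) : ℂ) * (∫ t in (A j)..(B j), cexp (I * ((ξ * Y j t : ℝ) : ℂ))) - L) +
      ((1 / T j : ℝ) : ℂ) * ((∫ t in (T j)..(A j), cexp (I * ((ξ * Z j t : ℝ) : ℂ))) +
        ((∫ t in (A j)..(B j), cexp (I * ((ξ * Z j t : ℝ) : ℂ))) -
          ∫ t in (A j)..(B j), cexp (I * ((ξ * Y j t : ℝ) : ℂ))) +
        ∫ t in (B j)..(2 * T j), cexp (I * ((ξ * Z j t : ℝ) : ℂ))) := by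
    rw [hsplit]; ring
  rw [e1]
  have b4 := norm_add₃_le (a := ∫ t in (T j)..(A j), cexp (I * ((ξ * Z j t : ℝ) : ℂ)))
    (b := (∫ t in (A j)..(B j), cexp (I * ((ξ * Z j t : ℝ) : ℂ))) -
          ∫ t in (A j)..(B j), cexp (I * ((ξ * Y j t : ℝ) : ℂ)))
    (c := ∫ t in (B j)..(2 * T j), cexp (I * ((ξ * Z j t : ℝ) : ℂ)))
  have b5 : ‖((1 / T j : ℝ) : ℂ) * ((∫ t in (T j)..(A j), cexp (I * ((ξ * Z j t : ℝ) : ℂ))) +
        ((∫ t in (A j)..(B j), cexp (I * ((ξ * Z j t : ℝ) : ℂ))) -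
          ∫ t in (A j)..(B j), cexp (I * ((ξ * Y j t : ℝ) : ℂ))) +
        ∫ t in (B j)..(2 * T j), cexp (I * ((ξ * Z j t : ℝ) : ℂ)))‖ ≤
      1 / T j * ((A j - T j) + (δ / 2 * (B j - A j) + ξ ^ 2 / (2 * δ) * ∫ t in (A j)..(B j), e j t) +
        (2 * T j - B j)) := by
    rw [norm_mul, Complex.norm_real, Real.norm_eq_abs, abs_of_pos (by positivity)]
    exact mul_le_mul_of_nonneg_left (by linarith) (by positivity)
  have b6 : 1 / T j * ((A j - T j) + (δ / 2 * (B j - A j) + ξ ^ 2 / (2 * δ) * ∫ t in (A j)..(B j), e j t) +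
        (2 * T j - B j)) ≤ ε / 4 + ε / 8 + ε / 8 := by
    have c1 : 1 / T j * ((A j - T j) + (δ / 2 * (B j - A j) + ξ ^ 2 / (2 * δ) * ∫ t in (A j)..(B j), e j t) +
        (2 * T j - B j)) = (1 - (B j - A j) / T j) + δ / 2 * ((B j - A j) / T j) +
        1 / 2 * (ξ ^ 2 / δ * ((1 / T j) * ∫ t in (A j)..(B j), e j t)) := by
      field_simp
      ring
    rw [c1]
    have c2 : (B j - A j) / T j ≤ 1 := by
      rw [div_le_one hTj]; linarith [hA j, hB j]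
    have c3 : δ / 2 * ((B j - A j) / T j) ≤ δ / 2 * 1 := mul_le_mul_of_nonneg_left c2 (by positivity)
    rw [hδd] at c3
    rw [hδd] at g2 ⊢
    linarith
  calc _ ≤ _ := norm_add_le _ _
    _ < ε := by linarith

end Pool.Agent.R321.QA
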