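import Pool.Agent.R321.QA3
import Pool.Agent.Y743.CL.Bl

/-! # The characteristic function of the number of zeros in a window, continued -/

set_option autoImplicit false

namespace Pool.Agent.R321.QA

open Filter Topology MeasureTheory Complex
open Pool.Agent.Y743.CL (G G_cont VS SS pr pr_apply Pr mem_Pr rc comb er er_meas XK small_log rc_bd Zv Zv_meas)
open SG (NZ)

/-- the exponent of the length of the prime polynomial -/
noncomputable def kp (a : ℝ) : ℝ := 1 / (8 + Real.log a)

/-- the size of the error terms -/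
noncomputable def qq (a : ℝ) : ℝ := 1 + Real.log (8 + Real.log a)

/-- the standing facts about a sequence of window lengths and heights -/
structure SD (lam C : ℝ) (a T : ℕ → ℝ) : Prop where
  lam16 : 16 ≤ lam
  C0 : 0 < C
  age : ∀ j, lam ≤ a j
  atop : Tendsto a atTop atTop
  Ttop : Tendsto T atTop atTop
  T10 : ∀ j, 10 ≤ T j
  Tlog : ∀ j, 2 * Real.log (T j) + 17 ≤ T j / 2
  haL : ∀ j, a j ≤ Real.log (T j)
  hX : ∀ m : ℕ, ∀ᶠ j in atTop, ((XK (kp (a j)) (T j) ^ m : ℕ) : ℝ) ≤ Real.sqrt (T j)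
  cb : ∀ j, ∀ b : ℝ, lam ≤ b → b ≤ 3 / 2 * a j →
    IntervalIntegrable (fun t => er lam (kp (a j)) (T j) b t ^ 2) volume
      (T j + Real.log (T j)) (2 * T j - Real.log (T j) - 7) ∧
    ∫ t in (T j + Real.log (T j))..(2 * T j - Real.log (T j) - 7),
      er lam (kp (a j)) (T j) b t ^ 2 ≤ C * qq (a j) * T j ∧
    |VS (rc (Real.log (T j) / lam) (2 * Real.pi * b / Real.log (T j))) (XK (kp (a j)) (T j)) -
      2 / Real.pi ^ 2 * Real.log b| ≤ C * qq (a j)

theorem sd_mk (B : ℝ) (hB : 1 ≤ B) : ∃ A0 lam C : ℝ, 16 ≤ A0 ∧ ∀ a T : ℕ → ℝ,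
    (∀ j, A0 ≤ a j) → (∀ j, 1 ≤ T j) → Tendsto a atTop atTop →
    (∀ j, a j * Real.log (a j) ≤ B * Real.log (T j)) → SD lam C a T := by
  obtain ⟨lam, C, T0, hlam, hC, hT0, hcomb⟩ := comb (3 * B) (by linarith)
  have hev : ∀ᶠ T : ℝ in atTop, 2 * Real.log T + 17 ≤ 1 * T / 2 := by
    have h1 : (fun T : ℝ => 2 * Real.log T + 17) =o[atTop] fun T : ℝ => T :=
      (Real.isLittleO_log_id_atTop.const_mul_left 2).add (Asymptotics.isLittleO_const_id_atTop _)
    have h2 := h1.bound (c := 1 / 2) (by norm_num)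
    filter_upwards [h2, eventually_ge_atTop 1] with T hT hT1
    rw [Real.norm_of_nonneg (by linarith : (0 : ℝ) ≤ T)] at hT
    have := (le_abs_self _).trans hT
    linarith
  obtain ⟨T3, hT3⟩ := hev.exists_forall_of_atTop
  have hpi := Real.pi_pos
  refine ⟨max (max lam (Real.exp B)) (max (B * Real.log (max T0 T3)) (72 * B)), lam, C,
    hlam.trans ((le_max_left _ _).trans (le_max_left _ _)), fun a T ha hT1 hat haT => ?_⟩
  have f1 : ∀ j, lam ≤ a j := fun j => ((le_max_left _ _).trans (le_max_left _ _)).trans (ha j)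
  have f1' : ∀ j, Real.exp B ≤ a j := fun j => ((le_max_right _ _).trans (le_max_left _ _)).trans (ha j)
  have f3 : ∀ j, B * Real.log (max T0 T3) ≤ a j := fun j =>
    ((le_max_left _ _).trans (le_max_right _ _)).trans (ha j)
  have f4 : ∀ j, 72 * B ≤ a j := fun j =>
    ((le_max_right _ _).trans (le_max_right _ _)).trans (ha j)
  have f2 : ∀ j, 16 ≤ a j := fun j => hlam.trans (f1 j)
  have f5' : ∀ j, B ≤ Real.log (a j) := fun j => by
    rw [Real.le_log_iff_exp_le (by linarith [f2 j])]
    exact f1' j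
  have f5 : ∀ j, 1 ≤ Real.log (a j) := fun j => hB.trans (f5' j)
  have f6 : ∀ j, a j / B ≤ Real.log (T j) := fun j => by
    rw [div_le_iff₀ (by linarith)]
    have := haT j
    have h1 : a j * 1 ≤ a j * Real.log (a j) :=
      mul_le_mul_of_nonneg_left (f5 j) (by linarith [f2 j])
    linarith
  have f6' : ∀ j, a j ≤ Real.log (T j) := fun j => by
    have h1 := haT j
    have h2 : a j * B ≤ a j * Real.log (a j) :=
      mul_le_mul_of_nonneg_left (f5' j) (by linarith [f2 j])
    have h3 : B * a j ≤ B * Real.log (T j) := by linarith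
    exact le_of_mul_le_mul_left h3 (by linarith)
  have f7 : ∀ j, max T0 T3 ≤ T j := fun j => by
    have h0 : 0 < max T0 T3 := lt_of_lt_of_le (by linarith) (le_max_left T0 T3)
    rw [← Real.log_le_log_iff h0 (by linarith [hT1 j])]
    refine le_trans ?_ (f6 j)
    rw [le_div_iff₀ (by linarith)]
    linarith [f3 j]
  have f8 : ∀ j, T0 ≤ T j := fun j => (le_max_left _ _).trans (f7 j)
  have f10 : ∀ j, 0 < T j := fun j => by linarith [hT1 j]
  have hTt : Tendsto T atTop atTop := by
    refine tendsto_atTop_mono (fun j => ?_) hat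
    have h1 := Real.log_le_sub_one_of_pos (f10 j)
    linarith [f6' j]
  have hLt : Tendsto (fun j => Real.log (a j)) atTop atTop := Real.tendsto_log_atTop.comp hat
  have k1 : ∀ j, 0 < kp (a j) := fun j => by
    have := f5 j
    unfold kp; positivity
  have k2 : ∀ j, kp (a j) ≤ 1 / 8 := fun j => by
    have := f5 j
    unfold kp
    exact one_div_le_one_div_of_le (by norm_num) (by linarith)
  have k3 : ∀ j, 8 ≤ kp (a j) * Real.log (T j) := fun j => by
    have h1 := f5 j
    have h2 := haT j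
    unfold kp
    rw [div_mul_eq_mul_div, one_mul, le_div_iff₀ (by linarith)]
    have h3 : 8 * (8 + Real.log (a j)) ≤ 72 * Real.log (a j) := by linarith
    have h4 : 72 * B * Real.log (a j) ≤ a j * Real.log (a j) :=
      mul_le_mul_of_nonneg_right (f4 j) (by linarith)
    have h5 : B * (72 * Real.log (a j)) ≤ B * Real.log (T j) := by linarith
    have h6 := le_of_mul_le_mul_left h5 (by linarith : 0 < B)
    linarith
  have k4 : ∀ j, Real.log (1 / kp (a j)) = Real.log (8 + Real.log (a j)) := fun j => by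
    unfold kp; rw [one_div_one_div]
  refine ⟨hlam, hC, f1, hat, hTt, fun j => hT0.trans (f8 j), fun j => ?_, f6', fun m => ?_,
    fun j b hb hba => ?_⟩
  · have := hT3 (T j) ((le_max_right _ _).trans (f7 j))
    linarith
  · filter_upwards [hLt.eventually_ge_atTop (2 * (m : ℝ))] with j hj
    have h1 : ((XK (kp (a j)) (T j) ^ m : ℕ) : ℝ) ≤ (T j ^ kp (a j)) ^ m := by
      push_cast
      exact pow_le_pow_left₀ (Nat.cast_nonneg _) (Nat.floor_le (by have := f10 j; positivity)) m
    refine h1.trans ?_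
    rw [← Real.rpow_natCast, ← Real.rpow_mul (f10 j).le, Real.sqrt_eq_rpow]
    apply Real.rpow_le_rpow_of_exponent_le (hT1 j)
    unfold kp
    rw [div_mul_eq_mul_div, one_mul, div_le_iff₀ (by linarith [f5 j])]
    linarith
  · have hb0 : 0 < b := by linarith
    have h1 : b * Real.log b ≤ 3 * B * Real.log (T j) := by
      have h2 : Real.log b ≤ Real.log (a j) + 1 := by
        have h3 : Real.log b ≤ Real.log (3 / 2 * a j) := Real.log_le_log hb0 hba
        rw [Real.log_mul (by norm_num) (by linarith [f2 j])] at h3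
        have h4 : Real.log (3 / 2) ≤ 3 / 2 - 1 := Real.log_le_sub_one_of_pos (by norm_num)
        linarith
      have h5 : 0 ≤ Real.log (a j) := by linarith [f5 j]
      calc b * Real.log b ≤ b * (Real.log (a j) + 1) := mul_le_mul_of_nonneg_left h2 hb0.le
        _ ≤ (3 / 2 * a j) * (Real.log (a j) + 1) := mul_le_mul_of_nonneg_right hba (by linarith)
        _ ≤ (3 / 2 * a j) * (2 * Real.log (a j)) :=
            mul_le_mul_of_nonneg_left (by linarith [f5 j]) (by linarith [f2 j])
        _ = 3 * (a j * Real.log (a j)) := by ring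
        _ ≤ 3 * (B * Real.log (T j)) := by linarith [haT j]
        _ = _ := by ring
    have h2 := hcomb (T j) (f8 j) b hb h1 (kp (a j)) (k1 j) (k2 j) (k3 j)
    rw [k4] at h2
    exact h2

variable {lam C : ℝ} {a T : ℕ → ℝ}

lemma SD.a16 (h : SD lam C a T) (j : ℕ) : 16 ≤ a j := h.lam16.trans (h.age j)

lemma SD.la (h : SD lam C a T) (j : ℕ) : 1 ≤ Real.log (a j) := by
  have := h.a16 j
  rw [Real.le_log_iff_exp_le (by linarith)]
  linarith [Real.exp_one_lt_d9]

lemma SD.L0 (h : SD lam C a T) (j : ℕ) : 0 < Real.log (T j) := by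
  linarith [h.a16 j, h.haL j]

lemma SD.latop (h : SD lam C a T) : Tendsto (fun j => Real.log (a j)) atTop atTop :=
  Real.tendsto_log_atTop.comp h.atop

lemma SD.q0 (h : SD lam C a T) : Tendsto (fun j => qq (a j) / Real.log (a j)) atTop (𝓝 0) :=
  small_log.comp h.latop

lemma qq_nonneg {x : ℝ} (hx : 1 ≤ Real.log x) : 0 ≤ qq x := by
  unfold qq
  have := Real.log_nonneg (show (1 : ℝ) ≤ 8 + Real.log x by linarith)
  linarith

lemma SD.h7 (h : SD lam C a T) (j : ℕ) : 2 * Real.pi * a j / Real.log (T j) ≤ 7 := by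
  rw [div_le_iff₀ (h.L0 j)]
  have h1 := h.haL j
  have h2 := h.a16 j
  nlinarith [Real.pi_lt_d2, Real.pi_pos]

/-- the normalised deviation in terms of the prime polynomial -/
lemma Zv_er (lam κ T a t : ℝ) : Zv a T t = Real.pi / Real.sqrt (Real.log a) *
    ((G (rc (Real.log T / lam) (2 * Real.pi * a / Real.log T)) (XK κ T)
      (t + 2 * Real.pi * a / Real.log T / 2)).re - er lam κ T a t) := by
  unfold Zv er
  ring

end Pool.Agent.R321.QA
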