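import Pool.Agent.R321.QA4

/-! # The characteristic function of the number of zeros in a window, the limits -/

set_option autoImplicit false

namespace Pool.Agent.R321.QA

open Filter Topology MeasureTheory Complex
open Pool.Agent.Y743.CL (G G_cont VS SS pr pr_apply Pr mem_Pr rc comb er er_meas XK small_log rc_bd Zv Zv_meas)
open SG (NZ)

variable {lam C : ℝ} {a T : ℕ → ℝ}

lemma SD.len (h : SD lam C a T) : Tendsto (fun j => ((2 * T j - Real.log (T j) - 17) -
    (T j + Real.log (T j))) / T j) atTop (𝓝 1) := by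
  have h1 : Tendsto (fun j => 1 - (2 * (Real.log (T j) / T j ^ (1:ℝ)) + 17 / T j)) atTop
      (𝓝 (1 - (2 * 0 + 0))) := by
    refine tendsto_const_nhds.sub ?_
    refine Tendsto.add ?_ (tendsto_const_nhds.div_atTop h.Ttop)
    exact ((isLittleO_log_rpow_atTop (by norm_num : (0:ℝ) < 1)).tendsto_div_nhds_zero.comp h.Ttop).const_mul 2
  rw [mul_zero, add_zero, sub_zero] at h1
  refine h1.congr fun j => ?_
  have : T j ≠ 0 := by have := h.T10 j; linarith
  rw [Real.rpow_one]
  field_simp
  ring

lemma VS_lim (h : SD lam C a T) {V : ℕ → ℝ} {m M D : ℝ}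
    (hV : ∀ᶠ j in atTop, |V j - m * Real.log (a j)| ≤ M * qq (a j) + D) :
    Tendsto (fun j => V j / Real.log (a j)) atTop (𝓝 m) := by
  rw [tendsto_iff_norm_sub_tendsto_zero]
  have h1 := (h.q0.const_mul M).add ((tendsto_const_nhds (x := D)).div_atTop h.latop)
  rw [mul_zero, zero_add] at h1
  refine squeeze_zero' (Eventually.of_forall fun _ => norm_nonneg _) ?_ h1
  filter_upwards [hV] with j hj
  have h2 : 0 < Real.log (a j) := by linarith [h.la j]
  have h3 : V j / Real.log (a j) - m = (V j - m * Real.log (a j)) / Real.log (a j) := by field_simp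
  rw [h3, Real.norm_eq_abs, abs_div, abs_of_pos h2, ← mul_div_assoc, ← add_div]
  exact div_le_div_of_nonneg_right hj h2.le

/-- the window in the scale of the heights -/
noncomputable abbrev hs (a T : ℝ) : ℝ := 2 * Real.pi * a / Real.log T

lemma SD.VA (h : SD lam C a T) : Tendsto (fun j => VS (rc (Real.log (T j) / lam) (hs (a j) (T j)))
    (XK (kp (a j)) (T j)) / Real.log (a j)) atTop (𝓝 (2 / Real.pi ^ 2)) := by
  refine VS_lim h (M := C) (D := 0) (Eventually.of_forall fun j => ?_)
  rw [add_zero]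
  exact (h.cb j (a j) (h.age j) (by linarith [h.a16 j])).2.2

lemma SD.VB (h : SD lam C a T) {η : ℝ} (hη : 0 < η) (v : ℕ → ℝ) (hv1 : ∀ j, η * a j ≤ v j)
    (hv2 : ∀ j, v j ≤ a j / 2) :
    Tendsto (fun j => VS (cm (hs (v j) (T j)) (rc (Real.log (T j) / lam) (hs (a j) (T j))))
    (XK (kp (a j)) (T j)) / Real.log (a j)) atTop (𝓝 (4 / Real.pi ^ 2)) := by
  have hpi := Real.pi_pos
  refine VS_lim h (M := 6 * C) (D := 2 / Real.pi ^ 2 * (2 * |Real.log η| + 5)) ?_
  filter_upwards [(h.atop.const_mul_atTop hη).eventually_ge_atTop lam,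
    h.atop.eventually_ge_atTop (2 * lam)] with j g1 g2
  have ha := h.a16 j
  have hlam := h.lam16
  have b1 := hv1 j
  have b2 := hv2 j
  have hv0 : lam ≤ v j := g1.trans b1
  have c1 := (h.cb j (v j) hv0 (by linarith)).2.2
  have c2 := (h.cb j (a j) (h.age j) (by linarith)).2.2
  have c3 := (h.cb j (a j + v j) (by linarith) (by linarith)).2.2
  have c4 := (h.cb j (a j - v j) (by linarith) (by linarith)).2.2
  have e1 : hs (a j) (T j) + hs (v j) (T j) = 2 * Real.pi * (a j + v j) / Real.log (T j) := by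
    unfold hs; ring
  have e2 : hs (a j) (T j) - hs (v j) (T j) = 2 * Real.pi * (a j - v j) / Real.log (T j) := by
    unfold hs; ring
  rw [VS_sub, e1, e2]
  unfold hs
  have l1 : Real.log (a j + v j) - Real.log (a j) ≤ 1 := by
    rw [← Real.log_div (by linarith) (by linarith)]
    have := Real.log_le_sub_one_of_pos (show 0 < (a j + v j) / a j by
      apply div_pos <;> linarith)
    have h3 : (a j + v j) / a j ≤ 2 := by rw [div_le_iff₀ (by linarith)]; linarith
    linarith
  have l2 : Real.log (a j) ≤ Real.log (a j + v j) := Real.log_le_log (by linarith) (by linarith)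
  have l3 : Real.log (a j - v j) ≤ Real.log (a j) := Real.log_le_log (by linarith) (by linarith)
  have l4 : Real.log (a j) - Real.log (a j - v j) ≤ 1 := by
    rw [← Real.log_div (by linarith) (by linarith)]
    have := Real.log_le_sub_one_of_pos (show 0 < a j / (a j - v j) by
      apply div_pos <;> linarith)
    have h3 : a j / (a j - v j) ≤ 2 := by rw [div_le_iff₀ (by linarith)]; linarith
    linarith
  have l5 : Real.log (v j) ≤ Real.log (a j) := Real.log_le_log (by linarith) (by linarith)
  have l6 : Real.log η + Real.log (a j) ≤ Real.log (v j) := by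
    rw [← Real.log_mul hη.ne' (by linarith)]
    exact Real.log_le_log (by positivity) b1
  have l7 := neg_abs_le (Real.log η)
  have l8 := abs_nonneg (Real.log η)
  have hw : 0 < 2 / Real.pi ^ 2 := by positivity
  have hD : |2 / Real.pi ^ 2 * (2 * Real.log (v j) + 2 * Real.log (a j) - Real.log (a j + v j) -
      Real.log (a j - v j) - 2 * Real.log (a j))| ≤ 2 / Real.pi ^ 2 * (2 * |Real.log η| + 5) := by
    rw [abs_mul, abs_of_pos hw]
    refine mul_le_mul_of_nonneg_left ?_ hw.le
    rw [abs_le]
    constructor <;> linarith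
  have c1' := abs_le.1 c1
  have c2' := abs_le.1 c2
  have c3' := abs_le.1 c3
  have c4' := abs_le.1 c4
  have hD' := abs_le.1 hD
  have e3 : 2 / Real.pi ^ 2 * (2 * Real.log (v j) + 2 * Real.log (a j) - Real.log (a j + v j) -
      Real.log (a j - v j) - 2 * Real.log (a j)) = 2 * (2 / Real.pi ^ 2 * Real.log (v j)) +
      2 * (2 / Real.pi ^ 2 * Real.log (a j)) - 2 / Real.pi ^ 2 * Real.log (a j + v j) -
      2 / Real.pi ^ 2 * Real.log (a j - v j) - 4 / Real.pi ^ 2 * Real.log (a j) := by ring
  rw [e3] at hD'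
  rw [abs_le]
  constructor <;> linarith [hD'.1, hD'.2, c1'.1, c1'.2, c2'.1, c2'.2, c3'.1, c3'.2, c4'.1, c4'.2]

lemma div_atTop_of {V : ℕ → ℝ} {m : ℝ} (hm : 0 < m) (h : SD lam C a T)
    (hV : Tendsto (fun j => V j / Real.log (a j)) atTop (𝓝 m)) : Tendsto V atTop atTop := by
  have h1 := hV.pos_mul_atTop hm h.latop
  refine h1.congr fun j => ?_
  have : Real.log (a j) ≠ 0 := by have := h.la j; linarith
  field_simp

lemma sqrt_ratio {V : ℕ → ℝ} {m : ℝ} (hm : 0 < m)
    (hV : Tendsto (fun j => V j / Real.log (a j)) atTop (𝓝 m)) (h : SD lam C a T) :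
    Tendsto (fun j => Real.sqrt (V j) / (Real.sqrt m * Real.sqrt (Real.log (a j)))) atTop (𝓝 1) := by
  have h1 := (hV.div_const m).sqrt
  rw [div_self hm.ne', Real.sqrt_one] at h1
  refine h1.congr fun j => ?_
  rw [← Real.sqrt_mul hm.le, ← Real.sqrt_div' _ (by have := h.la j; positivity)]
  congr 1
  rw [div_div, mul_comm]

/-- the mean square of the error term -/
lemma SD.ee (h : SD lam C a T) (K : ℝ) (hK : 0 ≤ K) : Tendsto (fun j => (1 / T j) *
    (K / Real.log (a j) * (C * qq (a j) * T j))) atTop (𝓝 0) := by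
  have h1 := h.q0.const_mul (K * C)
  rw [mul_zero] at h1
  refine h1.congr fun j => ?_
  have h2 : T j ≠ 0 := by have := h.T10 j; linarith
  field_simp

/-- **one window** -/
theorem cfA (h : SD lam C a T) (ξ : ℝ) : Tendsto (fun j => ((1 / T j : ℝ) : ℂ) *
    ∫ t in (T j)..(2 * T j), cexp (I * ((ξ * Zv (a j) (T j) t : ℝ) : ℂ))) atTop
    (𝓝 (cexp ((-(ξ ^ 2) / 2 : ℝ) : ℂ))) := by
  have hpi := Real.pi_pos
  have hm : (0 : ℝ) < 2 / Real.pi ^ 2 := by positivity
  set c : ℕ → ℕ → ℝ := fun j => rc (Real.log (T j) / lam) (hs (a j) (T j)) with hc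
  set X : ℕ → ℕ := fun j => XK (kp (a j)) (T j) with hX
  set N : ℕ → ℝ := fun j => Real.sqrt (2 / Real.pi ^ 2) * Real.sqrt (Real.log (a j)) with hN
  have hsq : Real.sqrt (2 / Real.pi ^ 2) = Real.sqrt 2 / Real.pi := by
    rw [Real.sqrt_div (by norm_num), Real.sqrt_sq hpi.le]
  have hT0 : ∀ j, 0 < T j := fun j => by linarith [h.T10 j]
  have hA : ∀ j, T j ≤ T j + Real.log (T j) := fun j => by linarith [h.L0 j]
  have hAB : ∀ j, T j + Real.log (T j) ≤ 2 * T j - Real.log (T j) - 17 := fun j => by
    linarith [h.Tlog j, hT0 j]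
  have hB : ∀ j, 2 * T j - Real.log (T j) - 17 ≤ 2 * T j := fun j => by linarith [h.L0 j]
  have hcf := cf_poly T (fun j => T j + Real.log (T j) + hs (a j) (T j) / 2)
    (fun j => 2 * T j - Real.log (T j) - 17 + hs (a j) (T j) / 2) X c N
    (M := 1) (fun j p => rc_bd (div_pos (h.L0 j) (by linarith [h.lam16])) _ p) h.Ttop hT0
    (fun j => by linarith [hAB j])
    (h.len.congr fun j => by ring)
    (fun j => by
      simp only [hX]
      unfold XK
      apply Nat.le_floor
      push_cast
      exact Real.one_le_rpow (by linarith [h.T10 j]) (by have := h.la j; unfold kp; positivity))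
    h.hX (div_atTop_of hm h h.VA) (sqrt_ratio hm h.VA h) 1 (by simp) ξ
  refine trans_lim T (fun j => T j + Real.log (T j)) (fun j => 2 * T j - Real.log (T j) - 17)
    (fun j t => Real.sqrt 2 * (1 * G (c j) (X j) (t + hs (a j) (T j) / 2) / (N j : ℂ)).re)
    (fun j t => Zv (a j) (T j) t)
    (fun j t => Real.pi ^ 2 / Real.log (a j) * er lam (kp (a j)) (T j) (a j) t ^ 2) _ ξ hT0 hA hAB hB
    h.len (fun j => ?_) (fun j => Zv_meas _ _) (fun j => ?_) ?_ (fun j t ht => ?_) ?_
  · have hc1 : Continuous fun t : ℝ => Real.sqrt 2 * (1 * G (c j) (X j) (t + hs (a j) (T j) / 2) /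
        (N j : ℂ)).re :=
      continuous_const.mul (Complex.continuous_re.comp
        ((continuous_const.mul ((G_cont _ _).comp (by fun_prop))).div_const _))
    exact hc1.measurable
  · refine (((h.cb j (a j) (h.age j) (by linarith [h.a16 j])).1).const_mul _).mono_set ?_
    rw [Set.uIcc_of_le (hAB j), Set.uIcc_of_le (by linarith [hAB j])]
    exact Set.Icc_subset_Icc_right (by linarith)
  · refine squeeze_zero (fun j => ?_) (fun j => ?_) (h.ee (Real.pi ^ 2) (by positivity))
    · refine mul_nonneg (by have := hT0 j; positivity) ?_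
      refine intervalIntegral.integral_nonneg (hAB j) fun t _ => ?_
      have := h.la j
      positivity
    · have hTj := hT0 j
      refine mul_le_mul_of_nonneg_left ?_ (by positivity)
      rw [intervalIntegral.integral_const_mul]
      refine mul_le_mul_of_nonneg_left ?_ (by have := h.la j; positivity)
      obtain ⟨i1, i2, -⟩ := h.cb j (a j) (h.age j) (by linarith [h.a16 j])
      refine le_trans ?_ i2
      refine intervalIntegral.integral_mono_interval le_rfl (hAB j) (by linarith)
        (Eventually.of_forall fun t => sq_nonneg _) i1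
  · refine le_of_eq ?_
    have hla := h.la j
    have hsl : 0 < Real.sqrt (Real.log (a j)) := Real.sqrt_pos.2 (by linarith)
    have hs2 : 0 < Real.sqrt 2 := Real.sqrt_pos.2 (by norm_num)
    rw [Zv_er lam (kp (a j))]
    rw [Complex.div_ofReal_re, one_mul]
    have e1 : Real.pi / Real.sqrt (Real.log (a j)) *
        ((G (rc (Real.log (T j) / lam) (2 * Real.pi * a j / Real.log (T j))) (XK (kp (a j)) (T j))
          (t + 2 * Real.pi * a j / Real.log (T j) / 2)).re - er lam (kp (a j)) (T j) (a j) t) -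
        Real.sqrt 2 * ((G (c j) (X j) (t + hs (a j) (T j) / 2)).re / N j) =
        -(Real.pi / Real.sqrt (Real.log (a j)) * er lam (kp (a j)) (T j) (a j) t) := by
      simp only [hN, hsq, hc, hX, hs]
      field_simp
      ring
    rw [e1, neg_sq, mul_pow, div_pow, Real.sq_sqrt (by linarith)]
  · refine hcf.congr fun j => ?_
    congr 1
    rw [← intervalIntegral.integral_comp_add_right (fun t => cexp (I * ((ξ * (Real.sqrt 2 *
      (1 * G (c j) (X j) t / (N j : ℂ)).re) : ℝ) : ℂ))) (hs (a j) (T j) / 2)]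

end Pool.Agent.R321.QA
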