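import Pool.Agent.R321.QA5

/-! # The characteristic function of the difference of two windows -/

set_option autoImplicit false

namespace Pool.Agent.R321.QA

open Filter Topology MeasureTheory Complex
open Pool.Agent.Y743.CL (G G_cont VS SS pr pr_apply Pr mem_Pr rc comb er er_meas XK small_log rc_bd Zv Zv_meas)
open SG (NZ)

variable {lam C : ℝ} {a T : ℕ → ℝ}

/-- **two windows** -/
theorem cfB (h : SD lam C a T) {η : ℝ} (hη : 0 < η) (v : ℕ → ℝ) (hv1 : ∀ j, η * a j ≤ v j)
    (hv2 : ∀ j, v j ≤ a j / 2) (ξ : ℝ) : Tendsto (fun j => ((1 / T j : ℝ) : ℂ) *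
    ∫ t in (T j)..(2 * T j), cexp (I * ((ξ * (Zv (a j) (T j) t -
      Zv (a j) (T j) (t + hs (v j) (T j))) : ℝ) : ℂ))) atTop
    (𝓝 (cexp ((-(ξ ^ 2) : ℝ) : ℂ))) := by
  have hpi := Real.pi_pos
  have hm : (0 : ℝ) < 4 / Real.pi ^ 2 := by positivity
  set c : ℕ → ℕ → ℝ := fun j => rc (Real.log (T j) / lam) (hs (a j) (T j)) with hc
  set c' : ℕ → ℕ → ℝ := fun j => cm (hs (v j) (T j)) (c j) with hc'
  set X : ℕ → ℕ := fun j => XK (kp (a j)) (T j) with hX
  set N : ℕ → ℝ := fun j => Real.sqrt (4 / Real.pi ^ 2) * Real.sqrt (Real.log (a j)) with hN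
  have hsq : Real.sqrt (4 / Real.pi ^ 2) = 2 / Real.pi := by
    rw [show (4 : ℝ) / Real.pi ^ 2 = (2 / Real.pi) ^ 2 by ring, Real.sqrt_sq (by positivity)]
  have hT0 : ∀ j, 0 < T j := fun j => by linarith [h.T10 j]
  have hA : ∀ j, T j ≤ T j + Real.log (T j) := fun j => by linarith [h.L0 j]
  have hAB : ∀ j, T j + Real.log (T j) ≤ 2 * T j - Real.log (T j) - 17 := fun j => by
    linarith [h.Tlog j, hT0 j]
  have hB : ∀ j, 2 * T j - Real.log (T j) - 17 ≤ 2 * T j := fun j => by linarith [h.L0 j]
  have hv0 : ∀ j, 0 ≤ hs (v j) (T j) := fun j => by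
    have h1 := hv1 j
    have h2 := h.a16 j
    have h3 := h.L0 j
    have h4 : 0 ≤ v j := le_trans (by positivity) h1
    unfold hs
    positivity
  have hv7 : ∀ j, hs (v j) (T j) ≤ 7 := fun j => by
    refine le_trans ?_ (h.h7 j)
    unfold hs
    have h2 := h.a16 j
    have h3 := h.L0 j
    have h4 := hv2 j
    gcongr
    linarith
  set sh : ℕ → ℝ := fun j => hs (a j) (T j) / 2 + hs (v j) (T j) / 2 with hsh
  have hcf := cf_poly T (fun j => T j + Real.log (T j) + sh j)
    (fun j => 2 * T j - Real.log (T j) - 17 + sh j) X c' N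
    (M := 4 * 1) (fun j p => cm_bd (fun p => rc_bd (div_pos (h.L0 j) (by linarith [h.lam16])) _ p) p)
    h.Ttop hT0
    (fun j => by linarith [hAB j])
    (h.len.congr fun j => by ring)
    (fun j => by
      simp only [hX]
      unfold XK
      apply Nat.le_floor
      push_cast
      exact Real.one_le_rpow (by linarith [h.T10 j]) (by have := h.la j; unfold kp; positivity))
    h.hX (div_atTop_of hm h (h.VB hη v hv1 hv2)) (sqrt_ratio hm (h.VB hη v hv1 hv2) h) I (by simp)
    (Real.sqrt 2 * ξ)
  have elim : cexp ((-((Real.sqrt 2 * ξ) ^ 2) / 2 : ℝ) : ℂ) = cexp ((-(ξ ^ 2) : ℝ) : ℂ) := by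
    congr 2
    rw [mul_pow, Real.sq_sqrt (by norm_num)]
    ring
  rw [elim] at hcf
  refine trans_lim T (fun j => T j + Real.log (T j)) (fun j => 2 * T j - Real.log (T j) - 17)
    (fun j t => Real.sqrt 2 * (Real.sqrt 2 * (I * G (c' j) (X j) (t + sh j) / (N j : ℂ)).re))
    (fun j t => Zv (a j) (T j) t - Zv (a j) (T j) (t + hs (v j) (T j)))
    (fun j t => 2 * Real.pi ^ 2 / Real.log (a j) * (er lam (kp (a j)) (T j) (a j) t ^ 2 +
      er lam (kp (a j)) (T j) (a j) (t + hs (v j) (T j)) ^ 2)) _ ξ hT0 hA hAB hB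
    h.len (fun j => ?_) (fun j => ?_) (fun j => ?_) ?_ (fun j t ht => ?_) ?_
  · have hc1 : Continuous fun t : ℝ => Real.sqrt 2 * (Real.sqrt 2 * (I * G (c' j) (X j) (t + sh j) /
        (N j : ℂ)).re) :=
      continuous_const.mul (continuous_const.mul (Complex.continuous_re.comp
        ((continuous_const.mul ((G_cont _ _).comp (by fun_prop))).div_const _)))
    exact hc1.measurable
  · exact (Zv_meas _ _).sub ((Zv_meas _ _).comp (measurable_id.add_const _))
  · obtain ⟨i1, i2, -⟩ := h.cb j (a j) (h.age j) (by linarith [h.a16 j])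
    refine IntervalIntegrable.const_mul (IntervalIntegrable.add ?_ ?_) _
    · refine i1.mono_set ?_
      rw [Set.uIcc_of_le (hAB j), Set.uIcc_of_le (by linarith [hAB j])]
      exact Set.Icc_subset_Icc_right (by linarith)
    · have i3 : IntervalIntegrable (fun t => er lam (kp (a j)) (T j) (a j) t ^ 2) volume
          (T j + Real.log (T j) + hs (v j) (T j)) (2 * T j - Real.log (T j) - 17 + hs (v j) (T j)) := by
        refine i1.mono_set ?_
        rw [Set.uIcc_of_le (by linarith [hAB j]), Set.uIcc_of_le (by linarith [hAB j])]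
        exact Set.Icc_subset_Icc (by linarith [hv0 j]) (by linarith [hv7 j])
      have i4 := i3.comp_add_right (hs (v j) (T j))
      simpa using i4
  · refine squeeze_zero (fun j => ?_) (fun j => ?_) (h.ee (4 * Real.pi ^ 2) (by positivity))
    · refine mul_nonneg (by have := hT0 j; positivity) ?_
      refine intervalIntegral.integral_nonneg (hAB j) fun t _ => ?_
      have := h.la j
      positivity
    · have hTj := hT0 j
      refine mul_le_mul_of_nonneg_left ?_ (by positivity)
      obtain ⟨i1, i2, -⟩ := h.cb j (a j) (h.age j) (by linarith [h.a16 j])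
      have i0 : IntervalIntegrable (fun t => er lam (kp (a j)) (T j) (a j) t ^ 2) volume
          (T j + Real.log (T j)) (2 * T j - Real.log (T j) - 17) := by
        refine i1.mono_set ?_
        rw [Set.uIcc_of_le (hAB j), Set.uIcc_of_le (by linarith [hAB j])]
        exact Set.Icc_subset_Icc_right (by linarith)
      have i3 : IntervalIntegrable (fun t => er lam (kp (a j)) (T j) (a j) t ^ 2) volume
          (T j + Real.log (T j) + hs (v j) (T j)) (2 * T j - Real.log (T j) - 17 + hs (v j) (T j)) := by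
        refine i1.mono_set ?_
        rw [Set.uIcc_of_le (by linarith [hAB j]), Set.uIcc_of_le (by linarith [hAB j])]
        exact Set.Icc_subset_Icc (by linarith [hv0 j]) (by linarith [hv7 j])
      have i4 : IntervalIntegrable (fun t => er lam (kp (a j)) (T j) (a j) (t + hs (v j) (T j)) ^ 2)
          volume (T j + Real.log (T j)) (2 * T j - Real.log (T j) - 17) := by
        have := i3.comp_add_right (hs (v j) (T j))
        simpa using this
      rw [intervalIntegral.integral_const_mul, intervalIntegral.integral_add i0 i4,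
        intervalIntegral.integral_comp_add_right
          (fun t => er lam (kp (a j)) (T j) (a j) t ^ 2) (hs (v j) (T j))]
      have k1 : ∫ t in (T j + Real.log (T j))..(2 * T j - Real.log (T j) - 17),
          er lam (kp (a j)) (T j) (a j) t ^ 2 ≤ C * qq (a j) * T j := by
        refine le_trans ?_ i2
        exact intervalIntegral.integral_mono_interval le_rfl (hAB j) (by linarith)
          (Eventually.of_forall fun t => sq_nonneg _) i1
      have k2 : ∫ t in (T j + Real.log (T j) + hs (v j) (T j))..(2 * T j - Real.log (T j) - 17 +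
          hs (v j) (T j)), er lam (kp (a j)) (T j) (a j) t ^ 2 ≤ C * qq (a j) * T j := by
        refine le_trans ?_ i2
        exact intervalIntegral.integral_mono_interval (by linarith [hv0 j]) (by linarith [hAB j])
          (by linarith [hv7 j]) (Eventually.of_forall fun t => sq_nonneg _) i1
      have hla := h.la j
      have e1 : 4 * Real.pi ^ 2 / Real.log (a j) * (C * qq (a j) * T j) =
          2 * Real.pi ^ 2 / Real.log (a j) * (C * qq (a j) * T j + C * qq (a j) * T j) := by ring
      rw [e1]
      exact mul_le_mul_of_nonneg_left (add_le_add k1 k2) (by positivity)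
  · have hla := h.la j
    have hsl : 0 < Real.sqrt (Real.log (a j)) := Real.sqrt_pos.2 (by linarith)
    have hs2 : Real.sqrt 2 * Real.sqrt 2 = 2 := Real.mul_self_sqrt (by norm_num)
    rw [Zv_er lam (kp (a j)), Zv_er lam (kp (a j))]
    have hG := congrArg Complex.re (G_sub (c j) (X j) (t + hs (a j) (T j) / 2) (hs (v j) (T j)))
    rw [Complex.sub_re] at hG
    have e0 : t + hs (a j) (T j) / 2 + hs (v j) (T j) / 2 = t + sh j := by simp only [hsh]; ring
    have e0' : t + hs (a j) (T j) / 2 + hs (v j) (T j) = t + hs (v j) (T j) + hs (a j) (T j) / 2 := by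
      ring
    rw [e0, e0'] at hG
    rw [Complex.div_ofReal_re]
    have e2 : (I * G (c' j) (X j) (t + sh j)).re =
      (G (c j) (X j) (t + hs (a j) (T j) / 2)).re -
        (G (c j) (X j) (t + hs (v j) (T j) + hs (a j) (T j) / 2)).re := hG.symm
    rw [e2]
    set g1 := (G (c j) (X j) (t + hs (a j) (T j) / 2)).re with hg1
    set g2 := (G (c j) (X j) (t + hs (v j) (T j) + hs (a j) (T j) / 2)).re with hg2
    set r1 := er lam (kp (a j)) (T j) (a j) t with hr1
    set r2 := er lam (kp (a j)) (T j) (a j) (t + hs (v j) (T j)) with hr2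
    have e3 : Real.pi / Real.sqrt (Real.log (a j)) * (g1 - r1) -
        Real.pi / Real.sqrt (Real.log (a j)) * (g2 - r2) -
        Real.sqrt 2 * (Real.sqrt 2 * ((g1 - g2) / N j)) =
        -(Real.pi / Real.sqrt (Real.log (a j)) * (r1 - r2)) := by
      rw [← mul_assoc, hs2]
      simp only [hN, hsq]
      field_simp
      ring
    have e4 : (Real.pi / Real.sqrt (Real.log (a j)) * (g1 - r1) -
        Real.pi / Real.sqrt (Real.log (a j)) * (g2 - r2) -
        Real.sqrt 2 * (Real.sqrt 2 * ((g1 - g2) / N j))) ^ 2 ≤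
        2 * Real.pi ^ 2 / Real.log (a j) * (r1 ^ 2 + r2 ^ 2) := by
      rw [e3, neg_sq, mul_pow, div_pow, Real.sq_sqrt (by linarith)]
      have e5 : 2 * Real.pi ^ 2 / Real.log (a j) * (r1 ^ 2 + r2 ^ 2) =
        Real.pi ^ 2 / Real.log (a j) * (2 * r1 ^ 2 + 2 * r2 ^ 2) := by ring
      rw [e5]
      refine mul_le_mul_of_nonneg_left ?_ (by positivity)
      nlinarith [sq_nonneg (r1 + r2)]
    exact e4
  · refine hcf.congr fun j => ?_
    congr 1
    rw [← intervalIntegral.integral_comp_add_right (fun t => cexp (I * ((Real.sqrt 2 * ξ * (Real.sqrt 2 *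
      (I * G (c' j) (X j) t / (N j : ℂ)).re) : ℝ) : ℂ))) (sh j)]
    refine intervalIntegral.integral_congr fun t _ => ?_
    congr 3
    ring

end Pool.Agent.R321.QA
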