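import Pool.Agent.R321.QA6
import Pool.Agent.R321.QA0

/-! # Averages over equidistant points -/

set_option autoImplicit false

namespace Pool.Agent.R321.QA

open Filter Topology MeasureTheory Complex
open Pool.Agent.Y743.CL (Zv Zv_meas gs gs_shrink)

variable {lam C : ℝ} {a T : ℕ → ℝ}

/-- translation of the limits -/
lemma shift_lim (hT : Tendsto T atTop atTop) (hT10 : ∀ j, 10 ≤ T j) (F : ℕ → ℝ → ℂ)
    (hF : ∀ j, Measurable (F j)) (hb : ∀ j t, ‖F j t‖ ≤ 1) (y : ℕ → ℝ)
    (hy : ∀ j, 0 ≤ y j) (hy7 : ∀ j, y j ≤ 7) (L : ℂ)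
    (hL : Tendsto (fun j => ((1 / T j : ℝ) : ℂ) * ∫ t in (T j)..(2 * T j), F j t) atTop (𝓝 L)) :
    Tendsto (fun j => ((1 / T j : ℝ) : ℂ) * ∫ t in (T j)..(2 * T j), F j (t + y j)) atTop (𝓝 L) := by
  have hi : ∀ j (A B : ℝ), IntervalIntegrable (F j) volume A B := fun j A B =>
    (intervalIntegrable_const (c := (1 : ℝ))).mono_fun' (hF j).aestronglyMeasurable
      (Eventually.of_forall fun t => hb j t)
  have h1 : Tendsto (fun j => ((1 / T j : ℝ) : ℂ) * (∫ t in (T j)..(2 * T j), F j (t + y j)) -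
      ((1 / T j : ℝ) : ℂ) * ∫ t in (T j)..(2 * T j), F j t) atTop (𝓝 0) := by
    have h2 : Tendsto (fun j => 14 / T j) atTop (𝓝 0) := tendsto_const_nhds.div_atTop hT
    refine squeeze_zero_norm (fun j => ?_) h2
    have hTj : 0 < T j := by linarith [hT10 j]
    rw [intervalIntegral.integral_comp_add_right (fun t => F j t), ← mul_sub]
    have e1 : (∫ t in (T j + y j)..(2 * T j + y j), F j t) - ∫ t in (T j)..(2 * T j), F j t =
        (∫ t in (2 * T j)..(2 * T j + y j), F j t) - ∫ t in (T j)..(T j + y j), F j t := by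
      rw [← intervalIntegral.integral_add_adjacent_intervals (hi j (T j) (T j + y j))
        (hi j (T j + y j) (2 * T j)), ← intervalIntegral.integral_add_adjacent_intervals
        (hi j (T j + y j) (2 * T j)) (hi j (2 * T j) (2 * T j + y j))]
      ring
    rw [e1, norm_mul, Complex.norm_real, Real.norm_eq_abs, abs_of_pos (by positivity)]
    have b1 : ‖∫ t in (2 * T j)..(2 * T j + y j), F j t‖ ≤ 1 * |2 * T j + y j - 2 * T j| :=
      intervalIntegral.norm_integral_le_of_norm_le_const fun t _ => hb j t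
    have b2 : ‖∫ t in (T j)..(T j + y j), F j t‖ ≤ 1 * |T j + y j - T j| :=
      intervalIntegral.norm_integral_le_of_norm_le_const fun t _ => hb j t
    rw [add_sub_cancel_left, abs_of_nonneg (hy j), one_mul] at b1 b2
    have b3 := norm_sub_le (∫ t in (2 * T j)..(2 * T j + y j), F j t) (∫ t in (T j)..(T j + y j), F j t)
    have b4 := hy7 j
    rw [div_mul_eq_mul_div, one_mul]
    exact div_le_div_of_nonneg_right (by linarith) hTj.le
  have h3 := h1.add hL
  rw [zero_add] at h3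
  refine h3.congr fun j => ?_
  ring

/-- the average of the characters -/
noncomputable def DK (K : ℕ) (ξ a T m t : ℝ) : ℂ :=
  (1 / K : ℂ) * ∑ k ∈ Finset.range K, cexp (I * ((ξ * Zv a T (t + hs (k * m / K) T) : ℝ) : ℂ))

lemma DK_meas (K : ℕ) (ξ a T m : ℝ) : Measurable (DK K ξ a T m) := by
  unfold DK
  refine Measurable.const_mul (Finset.measurable_fun_sum _ fun k _ => ?_) _
  exact exp_meas (((Zv_meas a T).comp (measurable_id.add_const _)).const_mul ξ)

lemma DK_norm {K : ℕ} (hK : 1 ≤ K) (ξ a T m t : ℝ) : ‖DK K ξ a T m t‖ ≤ 1 := by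
  unfold DK
  have hK0 : (0 : ℝ) < K := by exact_mod_cast hK
  rw [norm_mul]
  have h1 : ‖∑ k ∈ Finset.range K, cexp (I * ((ξ * Zv a T (t + hs (k * m / K) T) : ℝ) : ℂ))‖ ≤ K := by
    refine (norm_sum_le _ _).trans ?_
    simp only [exp_norm]
    simp
  have h2 : ‖(1 / K : ℂ)‖ = 1 / K := by
    rw [norm_div, norm_one, Complex.norm_natCast]
  rw [h2, div_mul_eq_mul_div, one_mul, div_le_one hK0]
  exact h1

/-- the characters -/
noncomputable def Fk (K : ℕ) (ξ a T m : ℝ) (k : ℕ) (t : ℝ) : ℂ :=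
  cexp (I * ((ξ * Zv a T (t + hs (k * m / K) T) : ℝ) : ℂ))

lemma Fk_meas (K : ℕ) (ξ a T m : ℝ) (k : ℕ) : Measurable (Fk K ξ a T m k) :=
  exp_meas (((Zv_meas a T).comp (measurable_id.add_const _)).const_mul ξ)

lemma bd_int {F : ℝ → ℂ} (hF : Measurable F) {M : ℝ} (hb : ∀ t, ‖F t‖ ≤ M) (A B : ℝ) :
    IntervalIntegrable F volume A B :=
  (intervalIntegrable_const (c := M)).mono_fun' hF.aestronglyMeasurable
      (Eventually.of_forall fun t => hb t)

lemma Fk_mul (K : ℕ) (ξ a T m : ℝ) (k l : ℕ) (t : ℝ) : Fk K ξ a T m k t * (starRingEnd ℂ) (Fk K ξ a T m l t) =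
    cexp (I * ((ξ * (Zv a T (t + hs (k * m / K) T) - Zv a T (t + hs (l * m / K) T)) : ℝ) : ℂ)) := by
  unfold Fk
  rw [← Complex.exp_conj, map_mul, Complex.conj_I, Complex.conj_ofReal, ← Complex.exp_add]
  congr 1
  push_cast
  ring

lemma limA (h : SD lam C a T) {η : ℝ} (hη : 0 < η) (m : ℕ → ℝ) (hm1 : ∀ j, η * a j ≤ m j)
    (hm2 : ∀ j, m j ≤ a j / 2) {K : ℕ} (hK : 1 ≤ K) (ξ : ℝ) (k : ℕ) (hk : k < K) :
    Tendsto (fun j => ((1 / T j : ℝ) : ℂ) * ∫ t in (T j)..(2 * T j), Fk K ξ (a j) (T j) (m j) k t)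
    atTop (𝓝 (cexp ((-(ξ ^ 2) / 2 : ℝ) : ℂ))) := by
  have hK0 : (0 : ℝ) < K := by exact_mod_cast hK
  have hy0 : ∀ j, 0 ≤ hs (k * m j / K) (T j) ∧ hs (k * m j / K) (T j) ≤ 7 := fun j => by
    have h1 := h.a16 j
    have h2 := h.L0 j
    have h3 : 0 ≤ m j := le_trans (by positivity) (hm1 j)
    have h4 : (k : ℝ) ≤ K := by exact_mod_cast hk.le
    have h5 : k * m j / K ≤ a j := by
      rw [div_le_iff₀ hK0]
      have : (k : ℝ) * m j ≤ K * m j := mul_le_mul_of_nonneg_right h4 h3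
      nlinarith [hm2 j]
    have hpi := Real.pi_pos
    constructor
    · unfold hs; positivity
    · refine le_trans ?_ (h.h7 j)
      unfold hs
      gcongr
  exact shift_lim h.Ttop h.T10 (fun j t => cexp (I * ((ξ * Zv (a j) (T j) t : ℝ) : ℂ)))
    (fun j => exp_meas ((Zv_meas _ _).const_mul ξ)) (fun j t => (exp_norm _).le) _
    (fun j => (hy0 j).1) (fun j => (hy0 j).2) _ (cfA h ξ)

lemma limB (h : SD lam C a T) {η : ℝ} (hη : 0 < η) (m : ℕ → ℝ) (hm1 : ∀ j, η * a j ≤ m j)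
    (hm2 : ∀ j, m j ≤ a j / 2) {K : ℕ} (hK : 1 ≤ K) (ξ : ℝ) (k l : ℕ) (hkl : k < l) (hl : l < K) :
    Tendsto (fun j => ((1 / T j : ℝ) : ℂ) * ∫ t in (T j)..(2 * T j), Fk K ξ (a j) (T j) (m j) k t *
      (starRingEnd ℂ) (Fk K ξ (a j) (T j) (m j) l t))
    atTop (𝓝 (cexp ((-(ξ ^ 2) : ℝ) : ℂ))) := by
  have hK0 : (0 : ℝ) < K := by exact_mod_cast hK
  have hpi := Real.pi_pos
  have hm0 : ∀ j, 0 ≤ m j := fun j => by
    have h1 := h.a16 j
    exact le_trans (by positivity) (hm1 j)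
  have hy0 : ∀ j, 0 ≤ hs (k * m j / K) (T j) ∧ hs (k * m j / K) (T j) ≤ 7 := fun j => by
    have h1 := h.a16 j
    have h2 := h.L0 j
    have h3 := hm0 j
    have h4 : (k : ℝ) ≤ K := by exact_mod_cast (hkl.trans hl).le
    have h5 : k * m j / K ≤ a j := by
      rw [div_le_iff₀ hK0]
      have : (k : ℝ) * m j ≤ K * m j := mul_le_mul_of_nonneg_right h4 h3
      nlinarith [hm2 j]
    constructor
    · unfold hs; positivity
    · refine le_trans ?_ (h.h7 j)
      unfold hs
      gcongr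
  have hd1 : (1 : ℝ) ≤ (l : ℝ) - k := by
    have : (k : ℝ) + 1 ≤ l := by exact_mod_cast hkl
    linarith
  have hd2 : (l : ℝ) - k ≤ K := by
    have h1 : (l : ℝ) ≤ K := by exact_mod_cast hl.le
    have h2 : (0 : ℝ) ≤ k := Nat.cast_nonneg _
    linarith
  have hB := cfB h (η := η / K) (by positivity) (fun j => ((l : ℝ) - k) * m j / K) (fun j => by
      rw [div_mul_eq_mul_div]
      refine div_le_div_of_nonneg_right ?_ hK0.le
      have : 1 * m j ≤ ((l : ℝ) - k) * m j := mul_le_mul_of_nonneg_right hd1 (hm0 j)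
      linarith [hm1 j]) (fun j => by
      rw [div_le_iff₀ hK0]
      have : ((l : ℝ) - k) * m j ≤ K * m j := mul_le_mul_of_nonneg_right hd2 (hm0 j)
      have h3 : K * m j ≤ K * (a j / 2) := mul_le_mul_of_nonneg_left (hm2 j) hK0.le
      linarith) ξ
  have h1 := shift_lim h.Ttop h.T10 (fun j t => cexp (I * ((ξ * (Zv (a j) (T j) t -
      Zv (a j) (T j) (t + hs (((l : ℝ) - k) * m j / K) (T j))) : ℝ) : ℂ)))
    (fun j => exp_meas (((Zv_meas _ _).sub ((Zv_meas _ _).comp (measurable_id.add_const _))).const_mul ξ))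
    (fun j t => (exp_norm _).le) (fun j => hs (k * m j / K) (T j))
    (fun j => (hy0 j).1) (fun j => (hy0 j).2) _ hB
  refine h1.congr fun j => ?_
  congr 1
  refine intervalIntegral.integral_congr fun t _ => ?_
  rw [Fk_mul]
  have e : t + hs (k * m j / K) (T j) + hs (((l : ℝ) - k) * m j / K) (T j) = t + hs (l * m j / K) (T j) := by
    unfold hs
    have := (h.L0 j).ne'
    field_simp
    ring
  rw [e]

/-- **the mean square of the average over equidistant points** -/
theorem kpt (h : SD lam C a T) {η : ℝ} (hη : 0 < η) (m : ℕ → ℝ) (hm1 : ∀ j, η * a j ≤ m j)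
    (hm2 : ∀ j, m j ≤ a j / 2) {K : ℕ} (hK : 1 ≤ K) (ξ : ℝ) :
    Tendsto (fun j => (1 / T j) * ∫ t in (T j)..(2 * T j),
      ‖DK K ξ (a j) (T j) (m j) t - cexp ((-(ξ ^ 2) / 2 : ℝ) : ℂ)‖ ^ 2) atTop
    (𝓝 ((1 - Real.exp (-(ξ ^ 2))) / K)) := by
  have hK0 : (0 : ℝ) < K := by exact_mod_cast hK
  have hKc : (K : ℂ) ≠ 0 := by exact_mod_cast hK0.ne'
  set φ : ℝ := Real.exp (-(ξ ^ 2) / 2) with hφ
  have hφc : cexp ((-(ξ ^ 2) / 2 : ℝ) : ℂ) = (φ : ℂ) := by rw [hφ, Complex.ofReal_exp]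
  have hφ2 : φ ^ 2 = Real.exp (-(ξ ^ 2)) := by
    rw [hφ, ← Real.exp_nat_mul]
    congr 1
    push_cast
    ring
  -- limits of all the pairs
  have hpair : ∀ k ∈ Finset.range K, ∀ l ∈ Finset.range K,
      Tendsto (fun j => ((1 / T j : ℝ) : ℂ) * ∫ t in (T j)..(2 * T j), Fk K ξ (a j) (T j) (m j) k t *
      (starRingEnd ℂ) (Fk K ξ (a j) (T j) (m j) l t)) atTop
      (𝓝 (if k = l then 1 else ((φ ^ 2 : ℝ) : ℂ))) := by
    intro k hk l hl
    rw [Finset.mem_range] at hk hl
    have e0 : cexp ((-(ξ ^ 2) : ℝ) : ℂ) = ((φ ^ 2 : ℝ) : ℂ) := by rw [hφ2, Complex.ofReal_exp]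
    rcases lt_trichotomy k l with hkl | hkl | hkl
    · rw [if_neg (by omega), ← e0]
      exact limB h hη m hm1 hm2 hK ξ k l hkl hl
    · rw [if_pos hkl]
      subst hkl
      refine tendsto_const_nhds.congr fun j => ?_
      have hTj : T j ≠ 0 := by have := h.T10 j; linarith
      have e1 : ∫ t in (T j)..(2 * T j), Fk K ξ (a j) (T j) (m j) k t *
          (starRingEnd ℂ) (Fk K ξ (a j) (T j) (m j) k t) = ∫ t in (T j)..(2 * T j), (1 : ℂ) := by
        refine intervalIntegral.integral_congr fun t _ => ?_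
        rw [Fk_mul, sub_self, mul_zero]
        simp
      rw [e1, intervalIntegral.integral_const]
      have e2 : 2 * T j - T j = T j := by ring
      rw [e2, Complex.real_smul, mul_one, ← Complex.ofReal_mul, one_div, inv_mul_cancel₀ hTj]
      simp
    · rw [if_neg (by omega), ← e0]
      have h1 := (limB h hη m hm1 hm2 hK ξ l k hkl hk)
      have h2 := (Complex.continuous_conj.tendsto _).comp h1
      have e3 : (starRingEnd ℂ) (cexp ((-(ξ ^ 2) : ℝ) : ℂ)) = cexp ((-(ξ ^ 2) : ℝ) : ℂ) := by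
        rw [e0, Complex.conj_ofReal]
      rw [e3] at h2
      refine h2.congr fun j => ?_
      simp only [Function.comp]
      rw [map_mul, Complex.conj_ofReal]
      congr 1
      rw [intervalIntegral.integral_of_le (by linarith [h.T10 j]),
        intervalIntegral.integral_of_le (by linarith [h.T10 j]), ← integral_conj]
      refine integral_congr_ae (Eventually.of_forall fun t => ?_)
      simp only
      rw [map_mul, Complex.conj_conj, mul_comm]
  have hone : ∀ k ∈ Finset.range K, Tendsto (fun j => ((1 / T j : ℝ) : ℂ) * ∫ t in (T j)..(2 * T j),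
      Fk K ξ (a j) (T j) (m j) k t) atTop (𝓝 (φ : ℂ)) := by
    intro k hk
    rw [← hφc]
    exact limA h hη m hm1 hm2 hK ξ k (Finset.mem_range.1 hk)
  have hone' : ∀ k ∈ Finset.range K, Tendsto (fun j => ((1 / T j : ℝ) : ℂ) * ∫ t in (T j)..(2 * T j),
      (starRingEnd ℂ) (Fk K ξ (a j) (T j) (m j) k t)) atTop (𝓝 (φ : ℂ)) := by
    intro k hk
    have h2 := (Complex.continuous_conj.tendsto _).comp (hone k hk)
    rw [Complex.conj_ofReal] at h2
    refine h2.congr fun j => ?_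
    simp only [Function.comp]
    rw [map_mul, Complex.conj_ofReal]
    congr 1
    rw [intervalIntegral.integral_of_le (by linarith [h.T10 j]),
      intervalIntegral.integral_of_le (by linarith [h.T10 j]), ← integral_conj]
  -- the combination
  have hsum2 : Tendsto (fun j => ∑ k ∈ Finset.range K, ∑ l ∈ Finset.range K, ((1 / T j : ℝ) : ℂ) *
      ∫ t in (T j)..(2 * T j), Fk K ξ (a j) (T j) (m j) k t *
      (starRingEnd ℂ) (Fk K ξ (a j) (T j) (m j) l t)) atTop
      (𝓝 (∑ k ∈ Finset.range K, ∑ l ∈ Finset.range K, (if k = l then 1 else ((φ ^ 2 : ℝ) : ℂ)))) :=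
    tendsto_finsetSum _ fun k hk => tendsto_finsetSum _ fun l hl => hpair k hk l hl
  have hsum1 := tendsto_finsetSum (Finset.range K) hone
  have hsum1' := tendsto_finsetSum (Finset.range K) hone'
  have hv : ∑ k ∈ Finset.range K, ∑ l ∈ Finset.range K, (if k = l then 1 else ((φ ^ 2 : ℝ) : ℂ)) =
      K + K * (K - 1) * ((φ ^ 2 : ℝ) : ℂ) := by
    have e1 : ∀ k ∈ Finset.range K, ∑ l ∈ Finset.range K, (if k = l then (1 : ℂ) else ((φ ^ 2 : ℝ) : ℂ)) =
        (1 - ((φ ^ 2 : ℝ) : ℂ)) + K * ((φ ^ 2 : ℝ) : ℂ) := by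
      intro k hk
      have e2 : ∀ l ∈ Finset.range K, (if k = l then (1 : ℂ) else ((φ ^ 2 : ℝ) : ℂ)) =
          (if k = l then (1 - ((φ ^ 2 : ℝ) : ℂ)) else 0) + ((φ ^ 2 : ℝ) : ℂ) := by
        intro l _
        split_ifs <;> ring
      rw [Finset.sum_congr rfl e2, Finset.sum_add_distrib, Finset.sum_ite_eq, if_pos hk,
        Finset.sum_const, Finset.card_range, nsmul_eq_mul]
    rw [Finset.sum_congr rfl e1, Finset.sum_const, Finset.card_range, nsmul_eq_mul]
    ring
  rw [hv] at hsum2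
  rw [Finset.sum_const, Finset.card_range, nsmul_eq_mul] at hsum1 hsum1'
  have htot := (((hsum2.const_mul (1 / (K : ℂ) ^ 2)).sub (hsum1.const_mul ((φ : ℂ) / K))).sub
    (hsum1'.const_mul ((φ : ℂ) / K))).add (tendsto_const_nhds (x := ((φ : ℂ)) ^ 2))
  have hlim : 1 / (K : ℂ) ^ 2 * (K + K * (K - 1) * ((φ ^ 2 : ℝ) : ℂ)) - (φ : ℂ) / K * (K * (φ : ℂ)) -
      (φ : ℂ) / K * (K * (φ : ℂ)) + ((φ : ℂ)) ^ 2 = (((1 - Real.exp (-(ξ ^ 2))) / K : ℝ) : ℂ) := by
    rw [← hφ2]
    push_cast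
    field_simp
    ring
  rw [hlim] at htot
  have hre := (Complex.continuous_re.tendsto _).comp htot
  rw [Complex.ofReal_re] at hre
  refine hre.congr fun j => ?_
  simp only [Function.comp]
  have hTj : T j ≠ 0 := by have := h.T10 j; linarith
  -- interchange of sum and integral
  have iF : ∀ k, IntervalIntegrable (Fk K ξ (a j) (T j) (m j) k) volume (T j) (2 * T j) := fun k =>
    bd_int (Fk_meas _ _ _ _ _ _) (fun t => (exp_norm _).le) _ _
  have iF' : ∀ k, IntervalIntegrable (fun t => (starRingEnd ℂ) (Fk K ξ (a j) (T j) (m j) k t)) volume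
      (T j) (2 * T j) := fun k =>
    bd_int (Complex.continuous_conj.measurable.comp (Fk_meas _ _ _ _ _ _))
      (fun t => by
        show ‖(starRingEnd ℂ) (Fk K ξ (a j) (T j) (m j) k t)‖ ≤ 1
        rw [RCLike.norm_conj]; exact (exp_norm _).le) _ _
  have iFF : ∀ k l, IntervalIntegrable (fun t => Fk K ξ (a j) (T j) (m j) k t *
      (starRingEnd ℂ) (Fk K ξ (a j) (T j) (m j) l t)) volume (T j) (2 * T j) := fun k l =>
    bd_int ((Fk_meas _ _ _ _ _ _).mul (Complex.continuous_conj.measurable.comp (Fk_meas _ _ _ _ _ _)))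
      (fun t => by
        show ‖Fk K ξ (a j) (T j) (m j) k t * (starRingEnd ℂ) (Fk K ξ (a j) (T j) (m j) l t)‖ ≤ 1
        rw [Fk_mul]; exact (exp_norm _).le) _ _
  have key : ((1 / T j * ∫ t in (T j)..(2 * T j),
      ‖DK K ξ (a j) (T j) (m j) t - cexp ((-(ξ ^ 2) / 2 : ℝ) : ℂ)‖ ^ 2 : ℝ) : ℂ) =
      1 / (K : ℂ) ^ 2 * (∑ k ∈ Finset.range K, ∑ l ∈ Finset.range K, ((1 / T j : ℝ) : ℂ) *
      ∫ t in (T j)..(2 * T j), Fk K ξ (a j) (T j) (m j) k t *
      (starRingEnd ℂ) (Fk K ξ (a j) (T j) (m j) l t)) - (φ : ℂ) / K * (∑ k ∈ Finset.range K,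
      ((1 / T j : ℝ) : ℂ) * ∫ t in (T j)..(2 * T j), Fk K ξ (a j) (T j) (m j) k t) -
      (φ : ℂ) / K * (∑ k ∈ Finset.range K, ((1 / T j : ℝ) : ℂ) * ∫ t in (T j)..(2 * T j),
      (starRingEnd ℂ) (Fk K ξ (a j) (T j) (m j) k t)) + ((φ : ℂ)) ^ 2 := by
    rw [hφc, Complex.ofReal_mul, ← intervalIntegral.integral_ofReal]
    have e1 : ∀ t, ((‖DK K ξ (a j) (T j) (m j) t - (φ : ℂ)‖ ^ 2 : ℝ) : ℂ) =
        1 / (K : ℂ) ^ 2 * (∑ k ∈ Finset.range K, ∑ l ∈ Finset.range K, Fk K ξ (a j) (T j) (m j) k t *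
        (starRingEnd ℂ) (Fk K ξ (a j) (T j) (m j) l t)) - (φ : ℂ) / K * (∑ k ∈ Finset.range K,
        Fk K ξ (a j) (T j) (m j) k t) - (φ : ℂ) / K * (∑ k ∈ Finset.range K,
        (starRingEnd ℂ) (Fk K ξ (a j) (T j) (m j) k t)) + ((φ : ℂ)) ^ 2 := by
      intro t
      have e2 : DK K ξ (a j) (T j) (m j) t = 1 / (K : ℂ) * ∑ k ∈ Finset.range K,
        Fk K ξ (a j) (T j) (m j) k t := rfl
      have e3 : ((‖DK K ξ (a j) (T j) (m j) t - (φ : ℂ)‖ ^ 2 : ℝ) : ℂ) =
          (DK K ξ (a j) (T j) (m j) t - (φ : ℂ)) * (starRingEnd ℂ) (DK K ξ (a j) (T j) (m j) t - (φ : ℂ)) := by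
        rw [Complex.mul_conj, Complex.normSq_eq_norm_sq]
      have e4 : ∑ k ∈ Finset.range K, ∑ l ∈ Finset.range K, Fk K ξ (a j) (T j) (m j) k t *
        (starRingEnd ℂ) (Fk K ξ (a j) (T j) (m j) l t) = (∑ k ∈ Finset.range K,
        Fk K ξ (a j) (T j) (m j) k t) * (∑ k ∈ Finset.range K,
        (starRingEnd ℂ) (Fk K ξ (a j) (T j) (m j) k t)) := by
        rw [Finset.sum_mul_sum]
      rw [e3, map_sub, Complex.conj_ofReal, e2, map_mul, map_sum, map_div₀, map_one,
        Complex.conj_natCast, e4]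
      ring
    rw [intervalIntegral.integral_congr (fun t _ => e1 t)]
    have i1 : IntervalIntegrable (fun t => ∑ k ∈ Finset.range K, ∑ l ∈ Finset.range K,
        Fk K ξ (a j) (T j) (m j) k t * (starRingEnd ℂ) (Fk K ξ (a j) (T j) (m j) l t)) volume
        (T j) (2 * T j) := by
      have := IntervalIntegrable.sum (Finset.range K) (f := fun k t => ∑ l ∈ Finset.range K,
        Fk K ξ (a j) (T j) (m j) k t * (starRingEnd ℂ) (Fk K ξ (a j) (T j) (m j) l t))
        (μ := volume) (a := T j) (b := 2 * T j) (fun k _ => by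
          have := IntervalIntegrable.sum (Finset.range K) (f := fun l t =>
            Fk K ξ (a j) (T j) (m j) k t * (starRingEnd ℂ) (Fk K ξ (a j) (T j) (m j) l t))
            (μ := volume) (a := T j) (b := 2 * T j) (fun l _ => iFF k l)
          refine this.congr (fun t _ => ?_)
          simp [Finset.sum_apply])
      refine this.congr (fun t _ => ?_)
      simp [Finset.sum_apply]
    have i2 : IntervalIntegrable (fun t => ∑ k ∈ Finset.range K, Fk K ξ (a j) (T j) (m j) k t) volume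
        (T j) (2 * T j) := by
      have := IntervalIntegrable.sum (Finset.range K) (f := fun k t => Fk K ξ (a j) (T j) (m j) k t)
        (μ := volume) (a := T j) (b := 2 * T j) (fun k _ => iF k)
      refine this.congr (fun t _ => ?_)
      simp [Finset.sum_apply]
    have i3 : IntervalIntegrable (fun t => ∑ k ∈ Finset.range K,
        (starRingEnd ℂ) (Fk K ξ (a j) (T j) (m j) k t)) volume (T j) (2 * T j) := by
      have := IntervalIntegrable.sum (Finset.range K) (f := fun k t =>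
        (starRingEnd ℂ) (Fk K ξ (a j) (T j) (m j) k t))
        (μ := volume) (a := T j) (b := 2 * T j) (fun k _ => iF' k)
      refine this.congr (fun t _ => ?_)
      simp [Finset.sum_apply]
    rw [intervalIntegral.integral_add ((((i1.const_mul _).sub (i2.const_mul _)).sub (i3.const_mul _)))
      intervalIntegrable_const, intervalIntegral.integral_sub ((i1.const_mul _).sub (i2.const_mul _))
      (i3.const_mul _), intervalIntegral.integral_sub (i1.const_mul _) (i2.const_mul _),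
      intervalIntegral.integral_const_mul, intervalIntegral.integral_const_mul,
      intervalIntegral.integral_const_mul, intervalIntegral.integral_const,
      intervalIntegral.integral_finset_sum (fun k _ => by
          have := IntervalIntegrable.sum (Finset.range K) (f := fun l t =>
            Fk K ξ (a j) (T j) (m j) k t * (starRingEnd ℂ) (Fk K ξ (a j) (T j) (m j) l t))
            (μ := volume) (a := T j) (b := 2 * T j) (fun l _ => iFF k l)
          refine this.congr (fun t _ => ?_)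
          simp [Finset.sum_apply]),
      intervalIntegral.integral_finset_sum (fun k _ => iF k),
      intervalIntegral.integral_finset_sum (fun k _ => iF' k)]
    have e5 : ∀ k ∈ Finset.range K, ∫ t in (T j)..(2 * T j), ∑ l ∈ Finset.range K,
        Fk K ξ (a j) (T j) (m j) k t * (starRingEnd ℂ) (Fk K ξ (a j) (T j) (m j) l t) =
        ∑ l ∈ Finset.range K, ∫ t in (T j)..(2 * T j),
        Fk K ξ (a j) (T j) (m j) k t * (starRingEnd ℂ) (Fk K ξ (a j) (T j) (m j) l t) := fun k _ =>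
      intervalIntegral.integral_finset_sum (fun l _ => iFF k l)
    rw [Finset.sum_congr rfl e5]
    simp only [← Finset.mul_sum]
    have e6 : 2 * T j - T j = T j := by ring
    rw [e6, Complex.real_smul]
    have hTc : ((T j : ℝ) : ℂ) ≠ 0 := by exact_mod_cast hTj
    push_cast
    field_simp
  rw [← key, Complex.ofReal_re]

end Pool.Agent.R321.QA
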