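import Pool.Agent.R321.QA7

/-! # Averages of test functions over equidistant points -/

set_option autoImplicit false

namespace Pool.Agent.R321.QA

open Filter Topology MeasureTheory Complex
open Pool.Agent.Y743.CL (Zv Zv_meas gs gs_shrink)

variable {lam C : ℝ} {a T : ℕ → ℝ}

lemma char_gs (s : ℝ) : ∫ x, cexp (I * ((2 * Real.pi * s * x : ℝ) : ℂ)) ∂gs =
    cexp ((-((2 * Real.pi * s) ^ 2) / 2 : ℝ) : ℂ) := by
  have h1 := ProbabilityTheory.charFun_gaussianReal (μ := 0) (v := 1) (2 * Real.pi * s)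
  rw [charFun_apply_real] at h1
  have h2 : ∫ x, cexp (I * ((2 * Real.pi * s * x : ℝ) : ℂ)) ∂gs =
      ∫ x : ℝ, cexp (((2 * Real.pi * s : ℝ) : ℂ) * (x : ℂ) * I) ∂(ProbabilityTheory.gaussianReal 0 1) := by
    refine integral_congr_ae (Eventually.of_forall fun x => ?_)
    simp only
    congr 1
    push_cast
    ring
  rw [h2, h1]
  congr 1
  push_cast
  ring

/-- Parseval for the normal law -/
lemma cf_eq {f : ℝ → ℝ} {g : ℝ → ℂ} (hgc : Continuous g) (hgi : Integrable g)
    (hfg : ∀ x : ℝ, (f x : ℂ) = ∫ s, g s * cexp (I * ((2 * Real.pi * s * x : ℝ) : ℂ))) :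
    ((∫ x, f x ∂gs : ℝ) : ℂ) = ∫ s, g s * cexp ((-((2 * Real.pi * s) ^ 2) / 2 : ℝ) : ℂ) := by
  rw [← integral_complex_ofReal]
  simp_rw [hfg]
  have hint : Integrable (Function.uncurry fun (x : ℝ) (s : ℝ) =>
      g s * cexp (I * ((2 * Real.pi * s * x : ℝ) : ℂ))) (gs.prod volume) := by
    have h1 : Integrable (fun p : ℝ × ℝ => g p.2) (gs.prod volume) := by
      have := (integrable_const (μ := gs) (1 : ℂ)).mul_prod hgi
      simpa using this
    refine h1.norm.mono' ?_ (Eventually.of_forall fun p => ?_)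
    · have : Continuous (Function.uncurry fun (x : ℝ) (s : ℝ) =>
        g s * cexp (I * ((2 * Real.pi * s * x : ℝ) : ℂ))) := by
        have h2 : Continuous fun p : ℝ × ℝ => g p.2 := hgc.comp continuous_snd
        have h3 : Continuous fun p : ℝ × ℝ => cexp (I * ((2 * Real.pi * p.2 * p.1 : ℝ) : ℂ)) := by
          fun_prop
        exact h2.mul h3
      exact this.aestronglyMeasurable
    · show ‖g p.2 * cexp (I * ((2 * Real.pi * p.2 * p.1 : ℝ) : ℂ))‖ ≤ ‖g p.2‖
      rw [norm_mul, exp_norm, mul_one]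
  rw [integral_integral_swap hint]
  refine integral_congr_ae (Eventually.of_forall fun s => ?_)
  simp only
  rw [integral_const_mul, char_gs]

/-- the deviation of the average of a test function -/
noncomputable def Qf (f : ℝ → ℝ) (K : ℕ) (a T m t : ℝ) : ℝ :=
  1 / (K : ℝ) * ∑ k ∈ Finset.range K, f (Zv a T (t + hs (k * m / K) T)) - ∫ x, f x ∂gs

lemma Qf_meas {f : ℝ → ℝ} (hf : Continuous f) (K : ℕ) (a T m : ℝ) : Measurable (Qf f K a T m) := by
  unfold Qf
  refine Measurable.sub_const (Measurable.const_mul (Finset.measurable_fun_sum _ fun k _ => ?_) _) _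
  exact hf.measurable.comp ((Zv_meas a T).comp (measurable_id.add_const _))

lemma Qf_bd {f : ℝ → ℝ} (hf : Continuous f) (h0 : ∀ x, 0 ≤ f x) (h1 : ∀ x, f x ≤ 1) {K : ℕ}
    (hK : 1 ≤ K) (a T m t : ℝ) : |Qf f K a T m t| ≤ 1 := by
  have hK0 : (0 : ℝ) < K := by exact_mod_cast hK
  have b1 : 0 ≤ ∫ x, f x ∂gs := integral_nonneg h0
  have b2 : ∫ x, f x ∂gs ≤ 1 := by
    have : ∫ x, f x ∂gs ≤ ∫ x, (1 : ℝ) ∂gs := by
      refine integral_mono ((integrable_const (1 : ℝ)).mono' hf.aestronglyMeasurable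
        (Eventually.of_forall fun x => ?_)) (integrable_const _) h1
      rw [Real.norm_eq_abs, abs_of_nonneg (h0 x)]
      exact h1 x
    simpa using this
  have b3 : 0 ≤ 1 / (K : ℝ) * ∑ k ∈ Finset.range K, f (Zv a T (t + hs (k * m / K) T)) :=
    mul_nonneg (by positivity) (Finset.sum_nonneg fun _ _ => h0 _)
  have b4 : 1 / (K : ℝ) * ∑ k ∈ Finset.range K, f (Zv a T (t + hs (k * m / K) T)) ≤ 1 := by
    rw [div_mul_eq_mul_div, one_mul, div_le_one hK0]
    calc ∑ k ∈ Finset.range K, f (Zv a T (t + hs (k * m / K) T)) ≤ ∑ k ∈ Finset.range K, (1 : ℝ) :=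
          Finset.sum_le_sum fun _ _ => h1 _
      _ = K := by simp
  unfold Qf
  rw [abs_le]
  constructor <;> linarith

/-- the integrand -/
noncomputable def Eg (K : ℕ) (a T m s t : ℝ) : ℝ :=
  ‖DK K (2 * Real.pi * s) a T m t - cexp ((-((2 * Real.pi * s) ^ 2) / 2 : ℝ) : ℂ)‖ ^ 2

lemma Eg_nonneg (K : ℕ) (a T m s t : ℝ) : 0 ≤ Eg K a T m s t := by unfold Eg; positivity

lemma Eg_le {K : ℕ} (hK : 1 ≤ K) (a T m s t : ℝ) : Eg K a T m s t ≤ 4 := by
  unfold Eg
  have h1 := DK_norm hK (2 * Real.pi * s) a T m t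
  have h2 : ‖cexp ((-((2 * Real.pi * s) ^ 2) / 2 : ℝ) : ℂ)‖ ≤ 1 := by
    rw [← Complex.ofReal_exp, Complex.norm_real, Real.norm_eq_abs, abs_of_pos (Real.exp_pos _)]
    apply Real.exp_le_one_iff.2
    have := sq_nonneg (2 * Real.pi * s)
    linarith
  have h3 := norm_sub_le (DK K (2 * Real.pi * s) a T m t) (cexp ((-((2 * Real.pi * s) ^ 2) / 2 : ℝ) : ℂ))
  have h4 := norm_nonneg (DK K (2 * Real.pi * s) a T m t - cexp ((-((2 * Real.pi * s) ^ 2) / 2 : ℝ) : ℂ))
  nlinarith

lemma Eg_meas (K : ℕ) (a T m : ℝ) : Measurable fun p : ℝ × ℝ => Eg K a T m p.1 p.2 := by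
  unfold Eg DK
  refine Measurable.pow_const (Measurable.norm (Measurable.sub ?_ ?_)) 2
  · refine Measurable.const_mul (Finset.measurable_fun_sum _ fun k _ => ?_) _
    refine Complex.measurable_exp.comp (Measurable.const_mul (Complex.measurable_ofReal.comp ?_) _)
    exact (measurable_fst.const_mul _).mul (((Zv_meas a T).comp (measurable_id.add_const _)).comp
      measurable_snd)
  · exact (Continuous.measurable (by fun_prop))

/-- the pointwise bound -/
lemma Qf_le {f : ℝ → ℝ} {g : ℝ → ℂ} (hgc : Continuous g) (hgi : Integrable g)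
    (hfg : ∀ x : ℝ, (f x : ℂ) = ∫ s, g s * cexp (I * ((2 * Real.pi * s * x : ℝ) : ℂ)))
    {K : ℕ} (hK : 1 ≤ K) (a T m t : ℝ) {ε : ℝ} (hε : 0 < ε) :
    |Qf f K a T m t| ≤ ε / 2 * (∫ s, ‖g s‖) + 1 / (2 * ε) * ∫ s, ‖g s‖ * Eg K a T m s t := by
  have hK0 : (0 : ℝ) < K := by exact_mod_cast hK
  have iE : Integrable fun s => ‖g s‖ * Eg K a T m s t := by
    refine (hgi.norm.mul_const 4).mono' ?_ (Eventually.of_forall fun s => ?_)
    · exact (hgc.norm.measurable.mul ((Eg_meas K a T m).comp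
        (measurable_id.prodMk measurable_const))).aestronglyMeasurable
    · rw [Real.norm_eq_abs, abs_of_nonneg (mul_nonneg (norm_nonneg _) (Eg_nonneg _ _ _ _ _ _))]
      exact mul_le_mul_of_nonneg_left (Eg_le hK _ _ _ _ _) (norm_nonneg _)
  have i1 : ∀ z : ℝ, Integrable fun s => g s * cexp (I * ((2 * Real.pi * s * z : ℝ) : ℂ)) := by
    intro z
    refine hgi.norm.mono' ?_ (Eventually.of_forall fun s => ?_)
    · exact (hgc.mul (by fun_prop)).aestronglyMeasurable
    · rw [norm_mul, exp_norm, mul_one]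
  have i2 : Integrable fun s => g s * cexp ((-((2 * Real.pi * s) ^ 2) / 2 : ℝ) : ℂ) := by
    refine hgi.norm.mono' ?_ (Eventually.of_forall fun s => ?_)
    · exact (hgc.mul (by fun_prop)).aestronglyMeasurable
    · have h2 : ‖cexp ((-((2 * Real.pi * s) ^ 2) / 2 : ℝ) : ℂ)‖ ≤ 1 := by
        rw [← Complex.ofReal_exp, Complex.norm_real, Real.norm_eq_abs, abs_of_pos (Real.exp_pos _)]
        apply Real.exp_le_one_iff.2
        have := sq_nonneg (2 * Real.pi * s)
        linarith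
      rw [norm_mul]
      calc _ ≤ ‖g s‖ * 1 := mul_le_mul_of_nonneg_left h2 (norm_nonneg _)
        _ = _ := mul_one _
  have key : ((Qf f K a T m t : ℝ) : ℂ) = ∫ s, g s * (DK K (2 * Real.pi * s) a T m t -
      cexp ((-((2 * Real.pi * s) ^ 2) / 2 : ℝ) : ℂ)) := by
    unfold Qf
    rw [Complex.ofReal_sub, cf_eq hgc hgi hfg, Complex.ofReal_mul, Complex.ofReal_sum]
    simp_rw [hfg]
    rw [← integral_finset_sum _ (fun k _ => i1 _), ← integral_const_mul, ← integral_sub]
    · refine integral_congr_ae (Eventually.of_forall fun s => ?_)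
      simp only
      unfold DK
      rw [mul_sub, ← Finset.mul_sum]
      push_cast
      ring
    · exact (integrable_finset_sum _ (fun k _ => i1 _)).const_mul _
    · exact i2
  have h1 : |Qf f K a T m t| = ‖((Qf f K a T m t : ℝ) : ℂ)‖ := by
    rw [Complex.norm_real, Real.norm_eq_abs]
  rw [h1, key]
  have h2 : ε / 2 * (∫ s, ‖g s‖) + 1 / (2 * ε) * (∫ s, ‖g s‖ * Eg K a T m s t) =
      ∫ s, (ε / 2 * ‖g s‖ + 1 / (2 * ε) * (‖g s‖ * Eg K a T m s t)) := by
    rw [integral_add (hgi.norm.const_mul _) (iE.const_mul _), integral_const_mul, integral_const_mul]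
  rw [h2]
  refine norm_integral_le_of_norm_le ((hgi.norm.const_mul _).add (iE.const_mul _))
    (Eventually.of_forall fun s => ?_)
  rw [norm_mul]
  have h3 : ‖DK K (2 * Real.pi * s) a T m t - cexp ((-((2 * Real.pi * s) ^ 2) / 2 : ℝ) : ℂ)‖ ≤
      ε / 2 + 1 / (2 * ε) * Eg K a T m s t := by
    unfold Eg
    set x := ‖DK K (2 * Real.pi * s) a T m t - cexp ((-((2 * Real.pi * s) ^ 2) / 2 : ℝ) : ℂ)‖
    have h8 : 0 ≤ (x - ε) ^ 2 / (2 * ε) := by positivity
    have h9 : (x - ε) ^ 2 / (2 * ε) = 1 / (2 * ε) * x ^ 2 - x + ε / 2 := by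
      field_simp
      ring
    linarith
  calc _ ≤ ‖g s‖ * (ε / 2 + 1 / (2 * ε) * Eg K a T m s t) :=
        mul_le_mul_of_nonneg_left h3 (norm_nonneg _)
    _ = _ := by ring

/-- **the average of a test function over equidistant points** -/
theorem avg_f {f : ℝ → ℝ} {g : ℝ → ℂ} (hfc : Continuous f) (h0 : ∀ x, 0 ≤ f x) (h1 : ∀ x, f x ≤ 1)
    (hgc : Continuous g) (hgi : Integrable g)
    (hfg : ∀ x : ℝ, (f x : ℂ) = ∫ s, g s * cexp (I * ((2 * Real.pi * s * x : ℝ) : ℂ)))
    (h : SD lam C a T) {η : ℝ} (hη : 0 < η) (m : ℕ → ℝ) (hm1 : ∀ j, η * a j ≤ m j)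
    (hm2 : ∀ j, m j ≤ a j / 2) {K : ℕ} (hK : 1 ≤ K) {ε ρ : ℝ} (hε : 0 < ε) (hρ : 0 < ρ) :
    ∀ᶠ j in atTop, (1 / T j) * ∫ t in (T j)..(2 * T j), |Qf f K (a j) (T j) (m j) t| ≤
      ε / 2 * (∫ s, ‖g s‖) + 1 / (2 * ε) * ((∫ s, ‖g s‖) / K) + ρ := by
  have hK0 : (0 : ℝ) < K := by exact_mod_cast hK
  -- the double integral
  have hprod : ∀ j, Integrable (fun p : ℝ × ℝ => ‖g p.1‖ * Eg K (a j) (T j) (m j) p.1 p.2)
      (volume.prod (volume.restrict (Set.Ioc (T j) (2 * T j)))) := by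
    intro j
    have hfin : IsFiniteMeasure (volume.restrict (Set.Ioc (T j) (2 * T j))) :=
      ⟨by rw [Measure.restrict_apply_univ, Real.volume_Ioc]; exact ENNReal.ofReal_lt_top⟩
    have i1 := hgi.norm.mul_prod (integrable_const (μ := volume.restrict (Set.Ioc (T j) (2 * T j))) (4 : ℝ))
    refine i1.mono' ?_ (Eventually.of_forall fun p => ?_)
    · exact ((hgc.norm.measurable.comp measurable_fst).mul (Eg_meas K _ _ _)).aestronglyMeasurable
    · rw [Real.norm_eq_abs, abs_of_nonneg (mul_nonneg (norm_nonneg _) (Eg_nonneg _ _ _ _ _ _))]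
      exact mul_le_mul_of_nonneg_left (Eg_le hK _ _ _ _ _) (norm_nonneg _)
  have hdom : Tendsto (fun j => ∫ s, ‖g s‖ * ((1 / T j) * ∫ t in (T j)..(2 * T j),
      Eg K (a j) (T j) (m j) s t)) atTop
      (𝓝 (∫ s, ‖g s‖ * ((1 - Real.exp (-((2 * Real.pi * s) ^ 2))) / K))) := by
    refine tendsto_integral_of_dominated_convergence (fun s => ‖g s‖ * 4) (fun j => ?_)
      (hgi.norm.mul_const 4) (fun j => Eventually.of_forall fun s => ?_)
      (Eventually.of_forall fun s => ?_)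
    · have i1 := (hprod j).integral_prod_left
      have i2 := i1.const_mul (1 / T j)
      refine i2.aestronglyMeasurable.congr (Eventually.of_forall fun s => ?_)
      simp only
      rw [intervalIntegral.integral_of_le (by linarith [h.T10 j]), integral_const_mul]
      ring
    · have hTj : 0 < T j := by linarith [h.T10 j]
      have b1 : 0 ≤ ∫ t in (T j)..(2 * T j), Eg K (a j) (T j) (m j) s t :=
        intervalIntegral.integral_nonneg (by linarith) fun t _ => Eg_nonneg _ _ _ _ _ _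
      have b2 : ∫ t in (T j)..(2 * T j), Eg K (a j) (T j) (m j) s t ≤ 4 * T j := by
        have := intervalIntegral.norm_integral_le_of_norm_le_const (a := T j) (b := 2 * T j) (C := 4)
          (f := fun t => Eg K (a j) (T j) (m j) s t) (fun t _ => by
            rw [Real.norm_eq_abs, abs_of_nonneg (Eg_nonneg _ _ _ _ _ _)]
            exact Eg_le hK _ _ _ _ _)
        rw [show 2 * T j - T j = T j by ring, abs_of_pos hTj] at this
        exact (le_abs_self _).trans this
      rw [Real.norm_eq_abs, abs_of_nonneg (by positivity)]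
      refine mul_le_mul_of_nonneg_left ?_ (norm_nonneg _)
      rw [div_mul_eq_mul_div, one_mul, div_le_iff₀ hTj]
      exact b2
    · exact (kpt h hη m hm1 hm2 hK (2 * Real.pi * s)).const_mul _
  have hlim : ∫ s, ‖g s‖ * ((1 - Real.exp (-((2 * Real.pi * s) ^ 2))) / K) ≤ (∫ s, ‖g s‖) / K := by
    rw [← integral_div]
    refine integral_mono_of_nonneg (Eventually.of_forall fun s => ?_) (hgi.norm.div_const _)
      (Eventually.of_forall fun s => ?_)
    · have : Real.exp (-((2 * Real.pi * s) ^ 2)) ≤ 1 := by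
        apply Real.exp_le_one_iff.2
        have := sq_nonneg (2 * Real.pi * s)
        linarith
      have h3 : 0 ≤ 1 - Real.exp (-((2 * Real.pi * s) ^ 2)) := by linarith
      show 0 ≤ ‖g s‖ * ((1 - Real.exp (-((2 * Real.pi * s) ^ 2))) / K)
      positivity
    · show ‖g s‖ * ((1 - Real.exp (-((2 * Real.pi * s) ^ 2))) / K) ≤ ‖g s‖ / K
      rw [← mul_div_assoc]
      refine div_le_div_of_nonneg_right ?_ hK0.le
      have := Real.exp_pos (-((2 * Real.pi * s) ^ 2))
      calc ‖g s‖ * (1 - Real.exp (-((2 * Real.pi * s) ^ 2))) ≤ ‖g s‖ * 1 :=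
            mul_le_mul_of_nonneg_left (by linarith) (norm_nonneg _)
        _ = _ := mul_one _
  have hev := hdom.eventually_le_const (show ∫ s, ‖g s‖ * ((1 - Real.exp (-((2 * Real.pi * s) ^ 2))) / K) <
    (∫ s, ‖g s‖) / K + 2 * ε * ρ by
      have : 0 < 2 * ε * ρ := by positivity
      linarith)
  filter_upwards [hev] with j hj
  have hTj : 0 < T j := by linarith [h.T10 j]
  have hTT : T j ≤ 2 * T j := by linarith
  have hswap : ∫ s, ‖g s‖ * ((1 / T j) * ∫ t in (T j)..(2 * T j), Eg K (a j) (T j) (m j) s t) =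
      (1 / T j) * ∫ t in (T j)..(2 * T j), ∫ s, ‖g s‖ * Eg K (a j) (T j) (m j) s t := by
    rw [intervalIntegral.integral_of_le hTT]
    have e1 := integral_integral_swap (f := fun s t => ‖g s‖ * Eg K (a j) (T j) (m j) s t) (hprod j)
    rw [← e1, ← integral_const_mul]
    refine integral_congr_ae (Eventually.of_forall fun s => ?_)
    simp only
    rw [intervalIntegral.integral_of_le hTT, integral_const_mul]
    ring
  have iI : IntervalIntegrable (fun t => ∫ s, ‖g s‖ * Eg K (a j) (T j) (m j) s t) volume (T j) (2 * T j) := by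
    rw [intervalIntegrable_iff_integrableOn_Ioc_of_le hTT]
    exact (hprod j).integral_prod_right
  have iQ : IntervalIntegrable (fun t => |Qf f K (a j) (T j) (m j) t|) volume (T j) (2 * T j) := by
    refine (intervalIntegrable_const (c := (1 : ℝ))).mono_fun' (Qf_meas hfc _ _ _ _).abs.aestronglyMeasurable
      (Eventually.of_forall fun t => ?_)
    show ‖|Qf f K (a j) (T j) (m j) t|‖ ≤ 1
    rw [Real.norm_eq_abs, abs_abs]
    exact Qf_bd hfc h0 h1 hK _ _ _ _
  have h3 : ∫ t in (T j)..(2 * T j), |Qf f K (a j) (T j) (m j) t| ≤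
      ∫ t in (T j)..(2 * T j), (ε / 2 * (∫ s, ‖g s‖) + 1 / (2 * ε) * ∫ s, ‖g s‖ * Eg K (a j) (T j) (m j) s t) :=
    intervalIntegral.integral_mono_on hTT iQ (intervalIntegrable_const.add (iI.const_mul _))
      fun t _ => Qf_le hgc hgi hfg hK _ _ _ _ hε
  rw [intervalIntegral.integral_add intervalIntegrable_const (iI.const_mul _),
    intervalIntegral.integral_const, intervalIntegral.integral_const_mul, smul_eq_mul,
    show 2 * T j - T j = T j by ring] at h3
  rw [hswap] at hj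
  calc (1 / T j) * ∫ t in (T j)..(2 * T j), |Qf f K (a j) (T j) (m j) t| ≤
        (1 / T j) * (T j * (ε / 2 * (∫ s, ‖g s‖)) + 1 / (2 * ε) *
          ∫ t in (T j)..(2 * T j), ∫ s, ‖g s‖ * Eg K (a j) (T j) (m j) s t) :=
        mul_le_mul_of_nonneg_left h3 (by positivity)
    _ = ε / 2 * (∫ s, ‖g s‖) + 1 / (2 * ε) * ((1 / T j) *
          ∫ t in (T j)..(2 * T j), ∫ s, ‖g s‖ * Eg K (a j) (T j) (m j) s t) := by
        field_simp
    _ ≤ ε / 2 * (∫ s, ‖g s‖) + 1 / (2 * ε) * ((∫ s, ‖g s‖) / K + 2 * ε * ρ) := by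
        have : 1 / (2 * ε) * ((1 / T j) *
          ∫ t in (T j)..(2 * T j), ∫ s, ‖g s‖ * Eg K (a j) (T j) (m j) s t) ≤
          1 / (2 * ε) * ((∫ s, ‖g s‖) / K + 2 * ε * ρ) :=
          mul_le_mul_of_nonneg_left hj (by positivity)
        linarith
    _ = _ := by field_simp; ring

end Pool.Agent.R321.QA
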