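import Pool.Agent.R321.QA8

/-! # The time spent in short windows -/

set_option autoImplicit false

namespace Pool.Agent.R321.QA

open Filter Topology MeasureTheory Complex
open Pool.Agent.Y743.CL (Zv Zv_meas gs gs_shrink)

/-- integrals over moving windows -/
lemma win_int {F : ℝ → ℝ} (hi : ∀ A B, IntervalIntegrable F volume A B) (h0 : ∀ t, 0 ≤ F t)
    {A B h : ℝ} (hh : 0 ≤ h) (hAB : A ≤ B) :
    ∫ t in A..B, (∫ y in t..(t + h), F y) ≤ h * ∫ y in A..(B + h), F y := by
  set Φ : ℝ → ℝ := fun x => ∫ y in A..x, F y with hΦ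
  have hc : Continuous Φ := intervalIntegral.continuous_primitive hi A
  have hmono : ∀ x y, x ≤ y → Φ x ≤ Φ y := by
    intro x y hxy
    have h1 := intervalIntegral.integral_add_adjacent_intervals (hi A x) (hi x y)
    have h2 : 0 ≤ ∫ z in x..y, F z := intervalIntegral.integral_nonneg hxy fun z _ => h0 z
    simp only [hΦ]
    linarith
  have e1 : ∀ t, ∫ y in t..(t + h), F y = Φ (t + h) - Φ t := by
    intro t
    simp only [hΦ]
    rw [← intervalIntegral.integral_add_adjacent_intervals (hi A t) (hi t (t + h))]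
    ring
  simp only [e1]
  have ic : ∀ A B, IntervalIntegrable Φ volume A B := fun A B => hc.intervalIntegrable _ _
  have ic2 : ∀ A B, IntervalIntegrable (fun t => Φ (t + h)) volume A B := fun A B =>
    (hc.comp (by fun_prop)).intervalIntegrable _ _
  rw [intervalIntegral.integral_sub (ic2 A B) (ic A B), intervalIntegral.integral_comp_add_right Φ h]
  have e2 : (∫ t in (A + h)..(B + h), Φ t) - ∫ t in A..B, Φ t =
      (∫ t in B..(B + h), Φ t) - ∫ t in A..(A + h), Φ t := by
    rw [← intervalIntegral.integral_add_adjacent_intervals (ic A (A + h)) (ic (A + h) B),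
      ← intervalIntegral.integral_add_adjacent_intervals (ic (A + h) B) (ic B (B + h))]
    ring
  rw [e2]
  have e3 : ∫ t in B..(B + h), Φ t ≤ ∫ t in B..(B + h), Φ (B + h) :=
    intervalIntegral.integral_mono_on (by linarith) (ic _ _) intervalIntegrable_const
      fun t ht => hmono _ _ ht.2
  rw [intervalIntegral.integral_const, smul_eq_mul, add_sub_cancel_left] at e3
  have e4 : 0 ≤ ∫ t in A..(A + h), Φ t := by
    refine intervalIntegral.integral_nonneg (by linarith) fun t ht => ?_
    have : Φ A = 0 := intervalIntegral.integral_same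
    rw [← this]
    exact hmono _ _ ht.1
  linarith

lemma win_cont {F : ℝ → ℝ} (hi : ∀ A B, IntervalIntegrable F volume A B) (h : ℝ) :
    Continuous fun t => ∫ y in t..(t + h), F y := by
  have hc : Continuous fun x => ∫ y in (0 : ℝ)..x, F y := intervalIntegral.continuous_primitive hi 0
  have e1 : (fun t => ∫ y in t..(t + h), F y) = fun t => (∫ y in (0 : ℝ)..(t + h), F y) -
      ∫ y in (0 : ℝ)..t, F y := by
    funext t
    rw [← intervalIntegral.integral_add_adjacent_intervals (hi 0 t) (hi t (t + h))]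
    ring
  rw [e1]
  exact (hc.comp (by fun_prop)).sub hc

/-- the time spent outside `(u, v)` -/
noncomputable def So (u v a T : ℝ) : Set ℝ := {y | ¬ (u < Zv a T y ∧ Zv a T y < v)}

lemma So_meas (u v a T : ℝ) : MeasurableSet (So u v a T) := Pool.Agent.Y743.CL.W_meas a T u v

/-- splitting of the integral over a window -/
lemma split_win {H : ℝ → ℝ} (hi : ∀ A B, IntervalIntegrable H volume A B) {K : ℕ} (hK : 1 ≤ K)
    (t w : ℝ) : ∫ y in t..(t + w), H y =
      ∫ y in t..(t + w / K), ∑ k ∈ Finset.range K, H (y + k * (w / K)) := by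
  have hK0 : (K : ℝ) ≠ 0 := by
    have : (0 : ℝ) < K := by exact_mod_cast hK
    exact this.ne'
  have h1 := intervalIntegral.sum_integral_adjacent_intervals (f := H) (μ := volume)
    (a := fun k : ℕ => t + k * (w / K)) (n := K) (fun k _ => hi _ _)
  have e1 : t + ((0 : ℕ) : ℝ) * (w / K) = t := by simp
  have e2 : t + (K : ℝ) * (w / K) = t + w := by field_simp
  rw [e1, e2] at h1
  rw [← h1, intervalIntegral.integral_finset_sum]
  · refine Finset.sum_congr rfl fun k _ => ?_
    rw [intervalIntegral.integral_comp_add_right H]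
    congr 1
    push_cast
    ring
  · intro k _
    have := (hi (t + k * (w / K)) (t + w / K + k * (w / K))).comp_add_right (k * (w / K))
    simpa using this

lemma hs_mul (k K : ℕ) (m T : ℝ) : hs (k * m / K) T = k * (hs m T / K) := by
  unfold hs; ring

/-- the pointwise bound -/
lemma So_le {f : ℝ → ℝ} (hfc : Continuous f) (h0 : ∀ x, 0 ≤ f x) (h1 : ∀ x, f x ≤ 1) {u v : ℝ}
    (hf0 : ∀ x, ¬ (u < x ∧ x < v) → f x = 0) {K : ℕ} (hK : 1 ≤ K) (a T m t : ℝ)
    (hw : 0 < hs m T) : volume.real (So u v a T ∩ Set.Ioc t (t + hs m T)) ≤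
      (1 - ∫ x, f x ∂gs) * hs m T + K * ∫ y in t..(t + hs m T / K), |Qf f K a T m y| := by
  have hK0 : (0 : ℝ) < K := by exact_mod_cast hK
  set w := hs m T with hwd
  have hfm : Measurable fun y => f (Zv a T y) := hfc.measurable.comp (Zv_meas a T)
  have hfi : ∀ A B, IntervalIntegrable (fun y => f (Zv a T y)) volume A B := fun A B =>
    (intervalIntegrable_const (c := (1 : ℝ))).mono_fun' hfm.aestronglyMeasurable
      (Eventually.of_forall fun t => by
        show ‖f (Zv a T t)‖ ≤ 1
        rw [Real.norm_eq_abs, abs_of_nonneg (h0 _)]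
        exact h1 _)
  have hQi : ∀ A B, IntervalIntegrable (Qf f K a T m) volume A B := fun A B =>
    (intervalIntegrable_const (c := (1 : ℝ))).mono_fun' (Qf_meas hfc K a T m).aestronglyMeasurable
      (Eventually.of_forall fun t => by
        show ‖Qf f K a T m t‖ ≤ 1
        rw [Real.norm_eq_abs]
        exact Qf_bd hfc h0 h1 hK _ _ _ _)
  have step1 : volume.real (So u v a T ∩ Set.Ioc t (t + w)) ≤ ∫ y in t..(t + w), (1 - f (Zv a T y)) := by
    rw [intervalIntegral.integral_of_le (by linarith)]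
    have e1 : volume.real (So u v a T ∩ Set.Ioc t (t + w)) =
        ∫ y in Set.Ioc t (t + w), (So u v a T).indicator (fun _ => (1 : ℝ)) y := by
      rw [integral_indicator_const _ (So_meas u v a T), measureReal_restrict_apply (So_meas u v a T),
        smul_eq_mul, mul_one]
    rw [e1]
    refine setIntegral_mono_on ((integrableOn_const (by
      rw [Real.volume_Ioc]; exact ENNReal.ofReal_ne_top)).indicator (So_meas u v a T)) ?_
      measurableSet_Ioc fun y _ => ?_
    · have := (intervalIntegrable_const (c := (1 : ℝ)) (μ := volume) (a := t) (b := t + w)).sub (hfi t (t + w))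
      rwa [intervalIntegrable_iff_integrableOn_Ioc_of_le (by linarith)] at this
    · by_cases hy : y ∈ So u v a T
      · rw [Set.indicator_of_mem hy, hf0 _ hy]
        linarith
      · rw [Set.indicator_of_notMem hy]
        linarith [h1 (Zv a T y)]
  refine step1.trans ?_
  rw [intervalIntegral.integral_sub intervalIntegrable_const (hfi _ _), intervalIntegral.integral_const,
    split_win hfi hK, smul_eq_mul, mul_one, add_sub_cancel_left]
  have e2 : ∀ y, ∑ k ∈ Finset.range K, f (Zv a T (y + k * (w / K))) =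
      K * (Qf f K a T m y + ∫ x, f x ∂gs) := by
    intro y
    unfold Qf
    have e3 : ∀ k : ℕ, hs (k * m / K) T = k * (w / K) := fun k => hs_mul k K m T
    simp only [e3]
    rw [sub_add_cancel, ← mul_assoc, mul_one_div_cancel hK0.ne', one_mul]
  simp only [e2]
  rw [intervalIntegral.integral_const_mul, intervalIntegral.integral_add (hQi _ _)
    intervalIntegrable_const, intervalIntegral.integral_const, smul_eq_mul, add_sub_cancel_left]
  have h3 : -(∫ y in t..(t + w / K), Qf f K a T m y) ≤ ∫ y in t..(t + w / K), |Qf f K a T m y| := by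
    have := intervalIntegral.abs_integral_le_integral_abs (f := Qf f K a T m) (μ := volume)
      (show t ≤ t + w / K by have : 0 < w / K := by positivity
                             linarith)
    exact (neg_le_abs _).trans this
  have h4 := mul_le_mul_of_nonneg_left h3 hK0.le
  have e5 : (K : ℝ) * (w / K * ∫ x, f x ∂gs) = w * ∫ x, f x ∂gs := by field_simp
  rw [mul_add, e5]
  linarith

variable {lam C : ℝ} {a T : ℕ → ℝ}

/-- **time spent in short windows, along a sequence** -/
theorem seq_win (h : SD lam C a T) {u v ε : ℝ} (huv : u < v) (hε : 0 < ε) {η : ℝ} (hη : 0 < η)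
    (m : ℕ → ℝ) (hm1 : ∀ j, η * a j ≤ m j) (hm2 : ∀ j, m j ≤ a j / 2) :
    ∀ᶠ j in atTop, volume.real {t ∈ Set.Ioc (T j) (2 * T j) |
      (1 - gs.real (Set.Ioo u v) + ε) * hs (m j) (T j) <
        volume.real (So u v (a j) (T j) ∩ Set.Ioc t (t + hs (m j) (T j)))} ≤ ε * T j := by
  obtain ⟨f, g, hfc, hgc, hgi, h0, h1, hf0, hfg, hcf⟩ := bump u v (ε / 2) huv (by positivity)
  -- the parameters
  set I : ℝ := ∫ s, ‖g s‖ with hI
  have hI0 : 0 ≤ I := integral_nonneg fun _ => norm_nonneg _
  obtain ⟨e, he, he2⟩ : ∃ e : ℝ, 0 < e ∧ e / 2 * I ≤ ε ^ 2 / 32 := by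
    refine ⟨ε ^ 2 / (16 * (I + 1)), by positivity, ?_⟩
    rw [div_div, div_mul_eq_mul_div, div_le_div_iff₀ (by positivity) (by norm_num)]
    nlinarith [sq_nonneg ε, mul_nonneg hI0 (sq_nonneg ε)]
  obtain ⟨K, hK, hK2⟩ : ∃ K : ℕ, 1 ≤ K ∧ 1 / (2 * e) * (I / K) ≤ ε ^ 2 / 32 := by
    obtain ⟨K, hK⟩ := exists_nat_ge (max 1 (1 / (2 * e) * I * (32 / ε ^ 2)))
    have hK1 : (1 : ℝ) ≤ K := (le_max_left _ _).trans hK
    refine ⟨K, by exact_mod_cast hK1, ?_⟩
    have h2 := (le_max_right _ _).trans hK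
    rw [← mul_div_assoc, div_le_iff₀ (by linarith)]
    have h3 : 0 < ε ^ 2 / 32 := by positivity
    calc 1 / (2 * e) * I = (ε ^ 2 / 32) * (1 / (2 * e) * I * (32 / ε ^ 2)) := by field_simp
      _ ≤ _ := mul_le_mul_of_nonneg_left h2 h3.le
  have hK0 : (0 : ℝ) < K := by exact_mod_cast hK
  have hev := avg_f hfc h0 h1 hgc hgi hfg h hη m hm1 hm2 hK he (show 0 < ε ^ 2 / 32 by positivity)
  have hev2 : ∀ᶠ j in atTop, 7 / T j ≤ ε ^ 2 / 32 :=
    ((tendsto_const_nhds (x := (7 : ℝ))).div_atTop h.Ttop).eventually_le_const (by positivity)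
  filter_upwards [hev, hev2] with j g1 g2
  have hTj : 0 < T j := by linarith [h.T10 j]
  have hL := h.L0 j
  have ha := h.a16 j
  have hpi := Real.pi_pos
  have hm0 : 0 < m j := lt_of_lt_of_le (by positivity) (hm1 j)
  set w := hs (m j) (T j) with hw
  have hw0 : 0 < w := by rw [hw]; unfold hs; positivity
  have hw7 : w ≤ 7 := by
    refine le_trans ?_ (h.h7 j)
    rw [hw]; unfold hs
    have := hm2 j
    gcongr
    linarith
  have hwK0 : 0 < w / K := by positivity
  have hwK7 : w / K ≤ 7 := by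
    rw [div_le_iff₀ hK0]
    have : (1 : ℝ) ≤ K := by exact_mod_cast hK
    nlinarith
  set F : ℝ → ℝ := fun t => |Qf f K (a j) (T j) (m j) t| with hF
  have hFm : Measurable F := (Qf_meas hfc _ _ _ _).abs
  have hF1 : ∀ t, F t ≤ 1 := fun t => Qf_bd hfc h0 h1 hK _ _ _ _
  have hF0 : ∀ t, 0 ≤ F t := fun t => abs_nonneg _
  have hFi : ∀ A B, IntervalIntegrable F volume A B := fun A B =>
    (intervalIntegrable_const (c := (1 : ℝ))).mono_fun' hFm.aestronglyMeasurable
      (Eventually.of_forall fun t => by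
        show ‖F t‖ ≤ 1
        rw [Real.norm_eq_abs, abs_of_nonneg (hF0 _)]
        exact hF1 _)
  set P : ℝ → ℝ := fun t => K / w * ∫ y in t..(t + w / K), F y with hP
  have hPc : Continuous P := continuous_const.mul (win_cont hFi _)
  have hP0 : ∀ t, 0 ≤ P t := fun t =>
    mul_nonneg (by positivity) (intervalIntegral.integral_nonneg (by linarith) fun y _ => hF0 y)
  have hPint : ∫ t in (T j)..(2 * T j), P t ≤ ε ^ 2 / 8 * T j := by
    simp only [hP]
    rw [intervalIntegral.integral_const_mul]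
    have b1 := win_int hFi hF0 hwK0.le (show T j ≤ 2 * T j by linarith)
    have b2 : ∫ y in (T j)..(2 * T j + w / K), F y ≤ (∫ y in (T j)..(2 * T j), F y) + 7 := by
      rw [← intervalIntegral.integral_add_adjacent_intervals (hFi (T j) (2 * T j)) (hFi _ _)]
      have b3 := intervalIntegral.norm_integral_le_of_norm_le_const (a := 2 * T j)
        (b := 2 * T j + w / K) (C := 1) (f := F) (fun t _ => by
          rw [Real.norm_eq_abs, abs_of_nonneg (hF0 _)]; exact hF1 _)
      rw [add_sub_cancel_left, abs_of_pos hwK0, one_mul] at b3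
      have := (le_abs_self _).trans b3
      linarith
    have b4 : ∫ y in (T j)..(2 * T j), F y ≤ 3 * (ε ^ 2 / 32) * T j := by
      have : (1 / T j) * ∫ y in (T j)..(2 * T j), F y ≤ 3 * (ε ^ 2 / 32) := by
        refine g1.trans ?_
        linarith
      rw [div_mul_eq_mul_div, one_mul, div_le_iff₀ hTj] at this
      exact this
    have b5 : (7 : ℝ) ≤ ε ^ 2 / 32 * T j := by rwa [div_le_iff₀ hTj] at g2
    calc K / w * ∫ t in (T j)..(2 * T j), (∫ y in t..(t + w / K), F y) ≤
          K / w * (w / K * ∫ y in (T j)..(2 * T j + w / K), F y) :=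
          mul_le_mul_of_nonneg_left b1 (by positivity)
      _ = ∫ y in (T j)..(2 * T j + w / K), F y := by field_simp
      _ ≤ _ := by linarith
  -- Chebyshev
  have hsub : {t ∈ Set.Ioc (T j) (2 * T j) | (1 - gs.real (Set.Ioo u v) + ε) * w <
        volume.real (So u v (a j) (T j) ∩ Set.Ioc t (t + w))} ⊆
      {t | ε / 2 ≤ P t} ∩ Set.Ioc (T j) (2 * T j) := by
    rintro t ⟨ht1, ht2⟩
    refine ⟨?_, ht1⟩
    have b1 := So_le hfc h0 h1 hf0 hK (a j) (T j) (m j) t hw0
    rw [← hw] at b1
    have b2 : (K : ℝ) * ∫ y in t..(t + w / K), |Qf f K (a j) (T j) (m j) y| = P t * w := by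
      simp only [hP, hF]
      field_simp
    rw [b2] at b1
    have b3 : (1 - gs.real (Set.Ioo u v) + ε) * w < (1 - ∫ x, f x ∂gs + P t) * w := by
      have : (1 - ∫ x, f x ∂gs + P t) * w = (1 - ∫ x, f x ∂gs) * w + P t * w := by ring
      linarith
    have b4 := lt_of_mul_lt_mul_right b3 hw0.le
    show ε / 2 ≤ P t
    linarith
  have hE : MeasurableSet {t | ε / 2 ≤ P t} := measurableSet_le measurable_const hPc.measurable
  have hfin : volume ({t | ε / 2 ≤ P t} ∩ Set.Ioc (T j) (2 * T j)) ≠ ⊤ :=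
    ne_top_of_le_ne_top (by rw [Real.volume_Ioc]; exact ENNReal.ofReal_ne_top)
      (measure_mono Set.inter_subset_right)
  refine (measureReal_mono hsub hfin).trans ?_
  have h5 := mul_meas_ge_le_integral_of_nonneg (μ := volume.restrict (Set.Ioc (T j) (2 * T j)))
      (f := P) (Eventually.of_forall hP0) (by
        have := hPc.intervalIntegrable (μ := volume) (T j) (2 * T j)
        rwa [intervalIntegrable_iff_integrableOn_Ioc_of_le (by linarith)] at this) (ε / 2)
  rw [measureReal_restrict_apply hE, ← intervalIntegral.integral_of_le (by linarith)] at h5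
  have h6 : ε / 2 * volume.real ({t | ε / 2 ≤ P t} ∩ Set.Ioc (T j) (2 * T j)) ≤ ε / 2 * (ε * T j) := by
    refine (h5.trans hPint).trans ?_
    nlinarith [sq_nonneg ε]
  exact le_of_mul_le_mul_left h6 (by positivity)

/-- **time spent in short windows** -/
theorem loc_win (B : ℝ) (hB : 1 ≤ B) {u v ε η : ℝ} (huv : u < v) (hε : 0 < ε) (hη : 0 < η) :
    ∃ R : ℝ, 3 ≤ R ∧ ∀ a T m : ℝ, R ≤ a → 1 ≤ T → a * Real.log a ≤ B * Real.log T →
    η * a ≤ m → m ≤ a / 2 → volume.real {t ∈ Set.Ioc T (2 * T) |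
      (1 - gs.real (Set.Ioo u v) + ε) * hs m T <
        volume.real (So u v a T ∩ Set.Ioc t (t + hs m T))} ≤ ε * T := by
  obtain ⟨A0, lam, C, hA0, hseq⟩ := sd_mk B hB
  by_contra hcon
  push Not at hcon
  have hch : ∀ j : ℕ, ∃ x : ℝ × ℝ × ℝ, A0 + j ≤ x.1 ∧ 1 ≤ x.2.1 ∧
      x.1 * Real.log x.1 ≤ B * Real.log x.2.1 ∧ η * x.1 ≤ x.2.2 ∧ x.2.2 ≤ x.1 / 2 ∧
      ε * x.2.1 < volume.real {t ∈ Set.Ioc x.2.1 (2 * x.2.1) |
      (1 - gs.real (Set.Ioo u v) + ε) * hs x.2.2 x.2.1 <
        volume.real (So u v x.1 x.2.1 ∩ Set.Ioc t (t + hs x.2.2 x.2.1))} := by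
    intro j
    obtain ⟨a, T, m, h1, h2, h3, h4, h5, h6⟩ := hcon (A0 + j)
      (by have : (0 : ℝ) ≤ j := Nat.cast_nonneg j; linarith)
    exact ⟨(a, T, m), h1, h2, h3, h4, h5, h6⟩
  choose x hx using hch
  have hsd := hseq (fun j => (x j).1) (fun j => (x j).2.1)
    (fun j => by
      have : (0 : ℝ) ≤ j := Nat.cast_nonneg j
      have := (hx j).1
      linarith) (fun j => (hx j).2.1)
    (tendsto_atTop_mono (fun j => by have := (hx j).1; linarith) tendsto_natCast_atTop_atTop)
    (fun j => (hx j).2.2.1)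
  have h := seq_win hsd huv hε hη (fun j => (x j).2.2) (fun j => (hx j).2.2.2.1)
    (fun j => (hx j).2.2.2.2.1)
  obtain ⟨j, hj⟩ := h.exists
  exact absurd (hx j).2.2.2.2.2 (not_lt.2 hj)

end Pool.Agent.R321.QA
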