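import Pool.Agent.R321.QA9
import Pool.Agent.Y743.CL.Fa

/-! # From heights to runs of zeros -/

set_option autoImplicit false

open Filter Topology MeasureTheory Set

namespace Pool.Agent.R321.QA

open SG (ord NZ)
open Pool.Agent.Y743.NC (dev dev_nonneg dev_int count_le var_le unit_count up)
open Pool.Agent.Y743.CL (dev_eq split_int exM)

/-- counting by integration -/
lemma palm {T M s A B : ℝ} (hT : 1 < T) (hM : 0 < M) (hs : 0 < s) (hAB : A ≤ B) (S : Finset ℕ)
    (W : Set ℝ) (hWm : MeasurableSet W)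
    (h1 : ∀ n ∈ S, 1 ≤ n) (h2 : ∀ n ∈ S, A + M * (2 * Real.pi / Real.log T) ≤ ord n)
    (h3 : ∀ n ∈ S, ord n ≤ B)
    (hW : ∀ n ∈ S, ∀ t, ord n - M * (2 * Real.pi / Real.log T) ≤ t → t < ord n → t ∈ W) :
    M * (2 * Real.pi / Real.log T) * S.card ≤ M * volume.real (W ∩ Icc A B) +
      (s * (B - A) + (1 / s) * ∫ t in Icc A B, dev T M t) / 2 := by
  have hpi := Real.pi_pos
  have hL : 0 < Real.log T := Real.log_pos hT
  set h : ℝ := 2 * Real.pi / Real.log T with hh
  have hh0 : 0 < h := by positivity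
  set ℓ : ℝ := M * h with hℓ
  have hℓ0 : 0 < ℓ := by positivity
  have i1 : IntegrableOn (dev T M) (Icc A B) := dev_int _ _ _ _
  have i2 : IntegrableOn (W.indicator fun _ : ℝ => (1 : ℝ)) (Icc A B) :=
    (integrableOn_const (by rw [Real.volume_Icc]; exact ENNReal.ofReal_ne_top)).indicator hWm
  have i3 : IntegrableOn (fun _ : ℝ => s) (Icc A B) :=
    integrableOn_const (by rw [Real.volume_Icc]; exact ENNReal.ofReal_ne_top)
  have hmain := count_le (A := A) (B := B) hℓ0.le S (fun n => ord n - ℓ)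
    (g := fun t => M * W.indicator (fun _ : ℝ => (1 : ℝ)) t + (s + (1 / s) * dev T M t) / 2)
    ((i2.const_mul M).add ((i3.add (i1.const_mul (1 / s))).div_const 2))
    (fun n hn => ⟨by have := h2 n hn; linarith, by have := h3 n hn; linarith⟩) (by
      intro t ht
      have hd := dev_nonneg T M t
      rcases (S.filter fun n => ord n - ℓ ≤ t ∧ t < ord n - ℓ + ℓ).eq_empty_or_nonempty with he | he
      · rw [he, Finset.card_empty, Nat.cast_zero]
        have : 0 ≤ W.indicator (fun _ : ℝ => (1 : ℝ)) t := indicator_nonneg (fun _ _ => zero_le_one) _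
        positivity
      obtain ⟨n0, hn0⟩ := he
      rw [Finset.mem_filter] at hn0
      obtain ⟨hn0S, b1, b2⟩ := hn0
      -- the count
      have hsub : (S.filter fun n => ord n - ℓ ≤ t ∧ t < ord n - ℓ + ℓ) ⊆
          Finset.Ioc (NZ t) (NZ (t + ℓ)) := by
        intro n hn
        rw [Finset.mem_filter] at hn
        obtain ⟨c1, c2, c3⟩ := hn
        rw [Finset.mem_Ioc]
        refine ⟨?_, (SG.ord_le_iff (h1 n c1) _).mp (by linarith)⟩
        by_contra hcon
        push Not at hcon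
        have := (SG.ord_le_iff (h1 n c1) _).mpr hcon
        linarith
      have hcard := Finset.card_le_card hsub
      rw [Nat.card_Ioc] at hcard
      have hmono : NZ t ≤ NZ (t + ℓ) := SG.NZ_mono (by linarith)
      have hcard' : ((S.filter fun n => ord n - ℓ ≤ t ∧ t < ord n - ℓ + ℓ).card : ℝ) ≤
          (NZ (t + ℓ) : ℝ) - NZ t := by
        have : ((S.filter fun n => ord n - ℓ ≤ t ∧ t < ord n - ℓ + ℓ).card : ℝ) ≤
          ((NZ (t + ℓ) - NZ t : ℕ) : ℝ) := by exact_mod_cast hcard
        rwa [Nat.cast_sub hmono] at this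
      refine hcard'.trans ?_
      have htW : t ∈ W := hW n0 hn0S t b1 (by linarith)
      show _ ≤ M * W.indicator (fun _ : ℝ => (1 : ℝ)) t + (s + (1 / s) * dev T M t) / 2
      rw [indicator_of_mem htW, dev_eq, ← hh, ← hℓ, mul_one]
      set w : ℝ := (NZ (t + ℓ) : ℝ) - NZ t with hw
      have h5 : w - M ≤ (s + 1 / s * (w - M) ^ 2) / 2 := by
        have h6 : 0 ≤ (s - (w - M)) ^ 2 / s := by positivity
        have h7 : (s - (w - M)) ^ 2 / s = s - 2 * (w - M) + 1 / s * (w - M) ^ 2 := by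
          field_simp
          ring
        linarith
      linarith)
  refine hmain.trans (le_of_eq ?_)
  rw [split_int (by rw [Real.volume_Icc]; exact ENNReal.ofReal_ne_top) hWm M s i1,
    Real.volume_real_Icc_of_le hAB]

lemma dev_ii (T a A B : ℝ) : IntervalIntegrable (dev T a) volume A B := by
  rcases le_total A B with h | h
  · rw [intervalIntegrable_iff_integrableOn_Icc_of_le h]
    exact dev_int _ _ _ _
  · refine IntervalIntegrable.symm ?_
    rw [intervalIntegrable_iff_integrableOn_Icc_of_le h]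
    exact dev_int _ _ _ _

/-- few events in a good run -/
lemma one_run {T M0 s θ w p ε g t' : ℝ} {m n : ℕ} (hT : 1 < T) (hM0 : 0 < M0) (hs : 0 < s)
    (hθ : 0 < θ) (hθ4 : θ ≤ 1 / 4) (hθε : θ ≤ ε / 32) (hε : 0 < ε)
    (hw : w = m * (2 * Real.pi / Real.log T)) (hm : 0 < m)
    (hM0m : M0 ≤ ε / 16 * m) (hM0m1 : M0 ≤ m) (hsM : s ≤ ε / 12 * M0)
    (hn : 1 ≤ n) (hg : g = ord n) (hG : ord (n + m) ≤ g + (1 + θ) * w)
    (E : ℕ → Prop) [DecidablePred E] (W : Set ℝ) (hWm : MeasurableSet W)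
    (hE : ∀ k, n ≤ k → k < n + m → E k → ∀ t, ord k - M0 * (2 * Real.pi / Real.log T) ≤ t →
      t < ord k → t ∈ W)
    (ht1 : g - θ * w ≤ t') (ht2 : t' < g)
    (hW1 : volume.real (W ∩ Ioc t' (t' + w)) ≤ (p + ε / 2) * w)
    (hV : ∫ t in (t' - w)..(t' + 2 * w), dev T M0 t ≤ ε / 4 * s * M0 * w) :
    (((Finset.Ico n (n + m)).filter E).card : ℝ) ≤ (p + ε) * m := by
  have hpi := Real.pi_pos
  have hL : 0 < Real.log T := Real.log_pos hT
  obtain ⟨q, hq⟩ : ∃ q : ℝ, q = 2 * Real.pi / Real.log T := ⟨_, rfl⟩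
  have hq0 : 0 < q := by rw [hq]; positivity
  rw [← hq] at hE hw
  have hmr : (0 : ℝ) < m := by exact_mod_cast hm
  have hw0 : 0 < w := by rw [hw]; positivity
  have hMq : M0 * q ≤ ε / 16 * w := by
    rw [hw]
    calc M0 * q ≤ (ε / 16 * m) * q := mul_le_mul_of_nonneg_right hM0m hq0.le
      _ = _ := by ring
  have hMq1 : M0 * q ≤ w := by rw [hw]; exact mul_le_mul_of_nonneg_right hM0m1 hq0.le
  have hMq0 : 0 < M0 * q := by positivity
  have hAB : g - M0 * q ≤ g + (1 + θ) * w := by nlinarith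
  have hp := palm (T := T) (M := M0) (s := s) (A := g - M0 * q) (B := g + (1 + θ) * w) hT hM0 hs
    hAB ((Finset.Ico n (n + m)).filter E) W hWm
    (fun k hk => by
      rw [Finset.mem_filter, Finset.mem_Ico] at hk
      omega)
    (fun k hk => by
      rw [Finset.mem_filter, Finset.mem_Ico] at hk
      rw [← hq, hg, sub_add_cancel]
      exact SG.ord_mono hn hk.1.1)
    (fun k hk => by
      rw [Finset.mem_filter, Finset.mem_Ico] at hk
      exact (SG.ord_mono (by omega) hk.1.2.le).trans hG)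
    (fun k hk => by
      rw [Finset.mem_filter, Finset.mem_Ico] at hk
      rw [← hq]
      exact hE k hk.1.1 hk.1.2 hk.2)
  rw [← hq] at hp
  -- the measure
  have hθw : 0 < θ * w := by positivity
  have hmeas : volume.real (W ∩ Icc (g - M0 * q) (g + (1 + θ) * w)) ≤
      (p + ε / 2) * w + (M0 * q + 2 * θ * w) := by
    have hsub : W ∩ Icc (g - M0 * q) (g + (1 + θ) * w) ⊆ (W ∩ Ioc t' (t' + w)) ∪
        (Icc (t' - M0 * q) t' ∪ Icc (t' + w) (t' + w + 2 * (θ * w))) := by
      intro x hx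
      obtain ⟨hx1, hx2, hx3⟩ := hx
      rcases le_or_gt x t' with h1 | h1
      · right; left; exact ⟨by linarith, h1⟩
      rcases le_or_gt x (t' + w) with h2 | h2
      · left; exact ⟨hx1, h1, h2⟩
      · right; right; exact ⟨h2.le, by nlinarith⟩
    have hf1 : volume (W ∩ Ioc t' (t' + w)) ≠ ⊤ :=
      ne_top_of_le_ne_top (by rw [Real.volume_Ioc]; exact ENNReal.ofReal_ne_top)
        (measure_mono inter_subset_right)
    have hf2 : volume (Icc (t' - M0 * q) t' ∪ Icc (t' + w) (t' + w + 2 * (θ * w))) ≠ ⊤ :=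
      measure_union_ne_top (by rw [Real.volume_Icc]; exact ENNReal.ofReal_ne_top)
        (by rw [Real.volume_Icc]; exact ENNReal.ofReal_ne_top)
    have h1 := measureReal_mono hsub (measure_union_ne_top hf1 hf2)
    have h2 := measureReal_union_le (μ := volume) (W ∩ Ioc t' (t' + w))
      (Icc (t' - M0 * q) t' ∪ Icc (t' + w) (t' + w + 2 * (θ * w)))
    have h3 := measureReal_union_le (μ := volume) (Icc (t' - M0 * q) t')
      (Icc (t' + w) (t' + w + 2 * (θ * w)))
    rw [Real.volume_real_Icc_of_le (by linarith), Real.volume_real_Icc_of_le (by linarith)] at h3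
    linarith
  have hdev : ∫ t in Icc (g - M0 * q) (g + (1 + θ) * w), dev T M0 t ≤ ε / 4 * s * M0 * w := by
    refine le_trans ?_ hV
    rw [intervalIntegral.integral_of_le (by linarith), ← integral_Icc_eq_integral_Ioc]
    refine setIntegral_mono_set (dev_int _ _ _ _)
      (Filter.Eventually.of_forall fun t => dev_nonneg _ _ _) ?_
    refine (Icc_subset_Icc ?_ ?_).eventuallyLE
    · linarith
    · nlinarith
  have h4 : (1 / s) * ∫ t in Icc (g - M0 * q) (g + (1 + θ) * w), dev T M0 t ≤ ε / 4 * M0 * w := by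
    calc (1 / s) * ∫ t in Icc (g - M0 * q) (g + (1 + θ) * w), dev T M0 t ≤
          (1 / s) * (ε / 4 * s * M0 * w) := mul_le_mul_of_nonneg_left hdev (by positivity)
      _ = _ := by field_simp
  have h5 : s * (g + (1 + θ) * w - (g - M0 * q)) ≤ ε / 4 * M0 * w := by
    have a1 : g + (1 + θ) * w - (g - M0 * q) ≤ 3 * w := by nlinarith
    calc s * (g + (1 + θ) * w - (g - M0 * q)) ≤ (ε / 12 * M0) * (3 * w) :=
          mul_le_mul hsM a1 (by nlinarith) (by positivity)
      _ = _ := by ring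
  have h6 : M0 * volume.real (W ∩ Icc (g - M0 * q) (g + (1 + θ) * w)) ≤
      M0 * ((p + ε / 2) * w + (ε / 16 * w + ε / 16 * w)) := by
    refine mul_le_mul_of_nonneg_left (hmeas.trans ?_) hM0.le
    have : 2 * θ * w ≤ ε / 16 * w := mul_le_mul_of_nonneg_right (by linarith) hw0.le
    linarith
  have h7 : M0 * q * (((Finset.Ico n (n + m)).filter E).card : ℝ) ≤ M0 * q * ((p + ε) * m) := by
    have e1 : M0 * q * ((p + ε) * m) = M0 * ((p + ε) * w) := by rw [hw]; ring
    rw [e1]
    have h8 : 0 < M0 * w := by positivity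
    nlinarith
  exact le_of_mul_le_mul_left h7 hMq0

end Pool.Agent.R321.QA
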