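import Pool.Agent.R321.QB1

/-! # From heights to runs of zeros, continued -/

set_option autoImplicit false

open Filter Topology MeasureTheory Set

namespace Pool.Agent.R321.QA

open SG (ord NZ)
open Pool.Agent.Y743.NC (dev dev_nonneg dev_int count_le var_le unit_count up)
open Pool.Agent.Y743.CL (dev_eq split_int exM big_ev)

lemma vol_win (W : Set ℝ) (hWm : MeasurableSet W) {t w : ℝ} (hw : 0 ≤ w) :
    volume.real (W ∩ Ioc t (t + w)) = ∫ y in t..(t + w), W.indicator (fun _ => (1 : ℝ)) y := by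
  rw [intervalIntegral.integral_of_le (by linarith), integral_indicator_const _ hWm,
    measureReal_restrict_apply hWm, smul_eq_mul, mul_one]

lemma ind_ii (W : Set ℝ) (hWm : MeasurableSet W) (A B : ℝ) :
    IntervalIntegrable (W.indicator (fun _ : ℝ => (1 : ℝ))) volume A B := by
  refine (intervalIntegrable_const (c := (1 : ℝ))).mono_fun'
    ((measurable_const.indicator hWm).aestronglyMeasurable) (Eventually.of_forall fun t => ?_)
  show ‖W.indicator (fun _ : ℝ => (1 : ℝ)) t‖ ≤ 1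
  by_cases h : t ∈ W
  · rw [indicator_of_mem h]; simp
  · rw [indicator_of_notMem h]; simp

lemma xlogx_le {x y Z : ℝ} (hx : 0 < x) (hxy : x ≤ y) (h1 : y * Real.log y ≤ Z) (hZ : 0 ≤ Z) :
    x * Real.log x ≤ Z := by
  rcases le_total (Real.log x) 0 with h | h
  · have : x * Real.log x ≤ 0 := mul_nonpos_of_nonneg_of_nonpos hx.le h
    linarith
  · have h2 : Real.log x ≤ Real.log y := Real.log_le_log hx hxy
    have : x * Real.log x ≤ y * Real.log y := mul_le_mul hxy h2 h (by linarith)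
    linarith

/-- **few bad runs** -/
theorem runs_bd (ε : ℝ) (hε : 0 < ε) (hε1 : ε ≤ 1) : ∃ M0 : ℝ, 1 ≤ M0 ∧ ∃ (m1 : ℕ) (T1 : ℝ),
    10 ≤ T1 ∧ 1 ≤ m1 ∧ M0 ≤ ε / 16 * m1 ∧ ∀ T : ℝ, T1 ≤ T → ∀ m : ℕ, m1 ≤ m →
    (2 * (m : ℝ)) * Real.log (2 * m) ≤ Real.log T → m * (2 * Real.pi / Real.log T) ≤ 1 / 8 →
    ∀ (p : ℝ) (E : ℕ → Prop) [DecidablePred E] (W : Set ℝ), MeasurableSet W →
    (∀ k, E k → NZ T < k → k ≤ NZ (2 * T) → T + M0 * (2 * Real.pi / Real.log T) ≤ ord k →
      ∀ t, ord k - M0 * (2 * Real.pi / Real.log T) ≤ t → t < ord k → t ∈ W) →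
    volume.real {t ∈ Ioc T (2 * T) | (p + ε / 2) * (m * (2 * Real.pi / Real.log T)) <
      volume.real (W ∩ Ioc t (t + m * (2 * Real.pi / Real.log T)))} ≤ ε / 8 * T →
    (((Finset.Ioc (NZ T) (NZ (2 * T))).filter (fun n => (p + ε) * m <
      (((Finset.Ico n (n + m)).filter E).card : ℝ))).card : ℝ) ≤
      ε * (T * Real.log T / (2 * Real.pi)) := by
  have hpi := Real.pi_pos
  obtain ⟨C, T0, hC, hT0, hvar⟩ := var_le
  obtain ⟨C2, hC2, huc⟩ := unit_count
  obtain ⟨M0, hM01, hM0⟩ := exM C (ε ^ 2 / 200) (by positivity)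
  obtain ⟨T2, hT2, hbig⟩ := big_ev M0 C2 (ε / 8) (by positivity)
  obtain ⟨θ, hθd⟩ : ∃ θ : ℝ, θ = ε / 32 := ⟨_, rfl⟩
  have hθ : 0 < θ := by rw [hθd]; positivity
  have hθ32 : θ ≤ 1 / 32 := by rw [hθd]; linarith
  obtain ⟨m1, hm1⟩ := exists_nat_ge (max (max 1 (16 * M0 / ε))
    (max ((C + 1) * (64 / (ε * θ) ^ 2)) (128 * (C + 2) / (θ ^ 2 * ε))))
  have hb1 : (1 : ℝ) ≤ m1 := ((le_max_left _ _).trans (le_max_left _ _)).trans hm1
  have hb2 : 16 * M0 / ε ≤ m1 := ((le_max_right _ _).trans (le_max_left _ _)).trans hm1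
  have hb3 : (C + 1) * (64 / (ε * θ) ^ 2) ≤ m1 := ((le_max_left _ _).trans (le_max_right _ _)).trans hm1
  have hb4 : 128 * (C + 2) / (θ ^ 2 * ε) ≤ m1 := ((le_max_right _ _).trans (le_max_right _ _)).trans hm1
  have hb2' : M0 ≤ ε / 16 * m1 := by
    rw [div_le_iff₀ hε] at hb2
    linarith
  refine ⟨M0, hM01, m1, max T0 T2, hT0.trans (le_max_left _ _), by exact_mod_cast hb1, hb2',
    fun T hT m hm hmT hmq p E _ W hWm hE hH => ?_⟩
  have hTT0 : T0 ≤ T := (le_max_left _ _).trans hT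
  have hTT2 : T2 ≤ T := (le_max_right _ _).trans hT
  obtain ⟨g1, -, g3, g4⟩ := hbig T hTT2
  have hT10 : 10 ≤ T := hT0.trans hTT0
  have hT1 : 1 < T := by linarith
  have hL0 : 0 < Real.log T := by linarith
  obtain ⟨q, hq⟩ : ∃ q : ℝ, q = 2 * Real.pi / Real.log T := ⟨_, rfl⟩
  have hq0 : 0 < q := by rw [hq]; positivity
  have hmr : (m1 : ℝ) ≤ m := by exact_mod_cast hm
  have hm1r : (1 : ℝ) ≤ m := hb1.trans hmr
  have hm0 : 0 < m := by exact_mod_cast (by linarith : (0 : ℝ) < m)
  rw [← hq] at hmq hE hH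
  obtain ⟨w, hw⟩ : ∃ w : ℝ, w = m * q := ⟨_, rfl⟩
  have hw0 : 0 < w := by rw [hw]; positivity
  have hw8 : w ≤ 1 / 8 := by rw [hw]; exact hmq
  rw [← hw] at hH
  obtain ⟨s, hs⟩ : ∃ s : ℝ, s = ε ^ 2 / 200 * M0 := ⟨_, rfl⟩
  have hM00 : 0 < M0 := by linarith
  have hs0 : 0 < s := by rw [hs]; positivity
  have hs2 : C + Real.log (1 + M0) ≤ s ^ 2 := by
    rw [← hs] at hM0
    exact (Real.sqrt_le_left hs0.le).1 hM0
  have hsM : s ≤ ε / 12 * M0 := by
    rw [hs]
    refine mul_le_mul_of_nonneg_right ?_ hM00.le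
    have : ε ^ 2 ≤ ε * 1 := by rw [sq]; exact mul_le_mul_of_nonneg_left hε1 hε.le
    linarith
  have hM0m : M0 ≤ ε / 16 * m := hb2'.trans (mul_le_mul_of_nonneg_left hmr (by positivity))
  have hM0m1 : M0 ≤ m := by
    have := mul_le_mul_of_nonneg_right (show ε / 16 ≤ 1 by linarith) (show (0 : ℝ) ≤ m by linarith)
    linarith
  have hM0q : M0 * q ≤ 1 / 8 := (mul_le_mul_of_nonneg_right hM0m1 hq0.le).trans hmq
  -- the second scale
  obtain ⟨H, hH'⟩ : ∃ H : ℝ, H = θ * m := ⟨_, rfl⟩
  have hH0 : 0 < H := by rw [hH']; positivity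
  have hHm : H ≤ m / 32 := by
    rw [hH']
    have := mul_le_mul_of_nonneg_right hθ32 (show (0 : ℝ) ≤ m by positivity)
    linarith
  obtain ⟨s', hs'⟩ : ∃ s' : ℝ, s' = ε / 8 * H := ⟨_, rfl⟩
  have hs'0 : 0 < s' := by rw [hs']; positivity
  have hs'2 : C + Real.log (1 + H) ≤ s' ^ 2 := by
    have h1 : Real.log (1 + H) ≤ H := by
      have := Real.log_le_sub_one_of_pos (show 0 < 1 + H by linarith)
      linarith
    have h2 : (C + 1) * 64 ≤ m * (ε * θ) ^ 2 := by
      have h3 := hb3.trans hmr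
      rw [← mul_div_assoc, div_le_iff₀ (by positivity)] at h3
      exact h3
    have h4 : s' ^ 2 = m * (m * (ε * θ) ^ 2) / 64 := by rw [hs', hH']; ring
    rw [h4]
    have h5 : (m : ℝ) * ((C + 1) * 64) ≤ m * (m * (ε * θ) ^ 2) :=
      mul_le_mul_of_nonneg_left h2 (by positivity)
    have h6 : C * 1 ≤ C * m := mul_le_mul_of_nonneg_left hm1r (by linarith)
    linarith
  -- the variances
  have v1 : ∫ t in Icc T (2 * T), dev T M0 t ≤ T * s ^ 2 :=
    (hvar T hTT0 M0 hM00 g1).trans (mul_le_mul_of_nonneg_left hs2 (by linarith))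
  have v2 : ∫ t in Icc T (2 * T), dev T H t ≤ T * s' ^ 2 :=
    (hvar T hTT0 H hH0 (xlogx_le hH0 (by linarith) hmT hL0.le)).trans
      (mul_le_mul_of_nonneg_left hs'2 (by linarith))
  have v3 : ∫ t in Icc T (2 * T), dev T (m + H / 2) t ≤ T * (C + 2 * m) := by
    refine (hvar T hTT0 (m + H / 2) (by positivity) (xlogx_le (by positivity) (by linarith) hmT
      hL0.le)).trans (mul_le_mul_of_nonneg_left ?_ (by linarith))
    have := Real.log_le_sub_one_of_pos (show 0 < 1 + (m + H / 2) by positivity)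
    linarith
  have v4 : ∫ t in Icc T (2 * T), dev T (H / 2) t ≤ T * (C + 2 * m) := by
    refine (hvar T hTT0 (H / 2) (by positivity) (xlogx_le (by positivity) (by linarith) hmT
      hL0.le)).trans (mul_le_mul_of_nonneg_left ?_ (by linarith))
    have := Real.log_le_sub_one_of_pos (show 0 < 1 + H / 2 by positivity)
    linarith
  -- the sets
  set F := (Finset.Ioc (NZ T) (NZ (2 * T))).filter (fun n => (p + ε) * m <
      (((Finset.Ico n (n + m)).filter E).card : ℝ)) with hF
  set S1 := F.filter (fun n => T + 1 ≤ ord n ∧ ord n + 1 ≤ 2 * T) with hS1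
  set S2 := S1.filter (fun n => ord (n + m) ≤ ord n + (1 + θ) * w) with hS2
  set S3 := S1.filter (fun n => ¬ (ord (n + m) ≤ ord n + (1 + θ) * w)) with hS3
  have hmem : ∀ n ∈ F, NZ T < n ∧ n ≤ NZ (2 * T) ∧ (p + ε) * m <
      (((Finset.Ico n (n + m)).filter E).card : ℝ) := by
    intro n hn
    rw [hF, Finset.mem_filter, Finset.mem_Ioc] at hn
    exact ⟨hn.1.1, hn.1.2, hn.2⟩
  have hmem1 : ∀ n ∈ S1, 1 ≤ n ∧ n ∈ F ∧ T + 1 ≤ ord n ∧ ord n + 1 ≤ 2 * T := by
    intro n hn
    rw [hS1, Finset.mem_filter] at hn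
    have := (hmem n hn.1).1
    exact ⟨by omega, hn.1, hn.2⟩
  -- S3
  have e1 : (m + H) * q = (1 + θ) * w := by rw [hw, hH']; ring
  have hHq' : H * q ≤ 1 / 8 := by
    have : H * q ≤ m * q := mul_le_mul_of_nonneg_right (by linarith) hq0.le
    linarith
  have hHq : H / 2 * q ≤ 1 := by linarith
  have hS3b := up (T := T) (H := H) hT1 hH0 m S3
    (fun n hn => (hmem1 n (Finset.mem_filter.1 hn).1).1)
    (fun n hn => by
      have := (hmem1 n (Finset.mem_filter.1 hn).1).2.2.1
      rw [← hq]; linarith)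
    (fun n hn => by
      have := (hmem1 n (Finset.mem_filter.1 hn).1).2.2.2
      rw [← hq]; linarith)
    (fun n hn => by
      have := (Finset.mem_filter.1 hn).2
      push Not at this
      rw [← hq, e1]; exact this)
  rw [← hq] at hS3b
  have hS3c : q * S3.card ≤ ε / 8 * T := by
    have h1 : 4 / H * ((∫ t in Icc T (2 * T), dev T (m + H / 2) t) + ∫ t in Icc T (2 * T), dev T (H / 2) t) ≤
        4 / H * (T * (C + 2 * m) + T * (C + 2 * m)) :=
      mul_le_mul_of_nonneg_left (add_le_add v3 v4) (by positivity)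
    have h2 : H / 2 * (q * S3.card) ≤ 4 / H * (T * (C + 2 * m) + T * (C + 2 * m)) := by
      have e2 : H / 2 * (q * S3.card) = H / 2 * q * S3.card := by ring
      rw [e2]; exact hS3b.trans h1
    have h3 : 4 / H * (T * (C + 2 * m) + T * (C + 2 * m)) ≤ H / 2 * (ε / 8 * T) := by
      rw [div_mul_eq_mul_div, div_le_iff₀ hH0]
      have h4 : 128 * (C + 2) ≤ m * (θ ^ 2 * ε) := by
        have h5 := hb4.trans hmr
        rwa [div_le_iff₀ (by positivity)] at h5
      have h6 : H / 2 * (ε / 8 * T) * H = T * (m * (m * (θ ^ 2 * ε))) / 16 := by rw [hH']; ring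
      rw [h6]
      have h7 : T * (m * (128 * (C + 2))) ≤ T * (m * (m * (θ ^ 2 * ε))) := by gcongr
      have h8 : C + 2 * (m : ℝ) ≤ (C + 2) * m := by
        have : C * 1 ≤ C * m := mul_le_mul_of_nonneg_left hm1r (by linarith)
        linarith
      have h9 : T * (C + 2 * m) ≤ T * ((C + 2) * m) := mul_le_mul_of_nonneg_left h8 (by linarith)
      linarith
    exact le_of_mul_le_mul_left (h2.trans h3) (by positivity)
  -- the bad set
  set B1 : Set ℝ := {t | (p + ε / 2) * w < volume.real (W ∩ Ioc t (t + w))} with hB1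
  set B2 : Set ℝ := {t | ε / 4 * s * M0 * w < ∫ y in (t - w)..(t + 2 * w), dev T M0 y} with hB2
  have hB1m : MeasurableSet B1 := by
    have h1 : Continuous fun t => volume.real (W ∩ Ioc t (t + w)) := by
      have e2 : (fun t => volume.real (W ∩ Ioc t (t + w))) =
          fun t => ∫ y in t..(t + w), W.indicator (fun _ => (1 : ℝ)) y :=
        funext fun t => vol_win W hWm hw0.le
      rw [e2]
      exact win_cont (ind_ii W hWm) w
    exact (isOpen_lt continuous_const h1).measurableSet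
  have hVeq : ∀ t, ∫ y in (t - w)..(t + 2 * w), dev T M0 y =
      (fun x => ∫ y in x..(x + 3 * w), dev T M0 y) (t - w) := by
    intro t
    simp only
    congr 1
    ring
  have hVc : Continuous fun t => ∫ y in (t - w)..(t + 2 * w), dev T M0 y := by
    simp only [hVeq]
    exact (win_cont (dev_ii T M0) (3 * w)).comp (continuous_id.sub continuous_const)
  have hB2m : MeasurableSet B2 := (isOpen_lt continuous_const hVc).measurableSet
  have hV0 : ∀ t, 0 ≤ ∫ y in (t - w)..(t + 2 * w), dev T M0 y := fun t =>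
    intervalIntegral.integral_nonneg (by linarith) fun y _ => dev_nonneg _ _ _
  -- S2
  have hp := palm (T := T) (M := H) (s := s') (A := T + 1 / 2) (B := 2 * T - 1 / 2) hT1 hH0 hs'0
    (by linarith) S2 (B1 ∪ B2) (hB1m.union hB2m)
    (fun n hn => (hmem1 n (Finset.mem_filter.1 hn).1).1)
    (fun n hn => by
      have := (hmem1 n (Finset.mem_filter.1 hn).1).2.2.1
      rw [← hq]
      linarith)
    (fun n hn => by
      have := (hmem1 n (Finset.mem_filter.1 hn).1).2.2.2
      linarith)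
    (fun n hn t ht1 ht2 => by
      by_contra hcon
      have hcon1 : ¬ (p + ε / 2) * w < volume.real (W ∩ Ioc t (t + w)) := fun h => hcon (Or.inl h)
      have hcon2 : ¬ ε / 4 * s * M0 * w < ∫ y in (t - w)..(t + 2 * w), dev T M0 y :=
        fun h => hcon (Or.inr h)
      push Not at hcon1 hcon2
      rw [hS2, Finset.mem_filter] at hn
      obtain ⟨b1, b2⟩ := hn
      obtain ⟨c1, c2, c3, c4⟩ := hmem1 n b1
      obtain ⟨d1, d2, d3⟩ := hmem n c2
      have h1 := one_run (T := T) (M0 := M0) (s := s) (θ := θ) (w := w) (p := p) (ε := ε)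
        (g := ord n) (t' := t) (m := m) (n := n) hT1 hM00 hs0 hθ (by linarith) (by linarith) hε
        (by rw [← hq]; exact hw) hm0 hM0m hM0m1 hsM c1 rfl b2 E W hWm
        (fun k hk1 hk2 hEk => by
          have f1 : ord n ≤ ord k := SG.ord_mono c1 hk1
          have f2 : ord k ≤ ord (n + m) := SG.ord_mono (by omega) hk2.le
          have f3 : (1 + θ) * w ≤ 2 * (1 / 8) :=
            mul_le_mul (by linarith) hw8 hw0.le (by norm_num)
          rw [← hq]
          exact hE k hEk (by omega) ((SG.ord_le_iff (by omega) _).mp (by linarith)) (by linarith))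
        (by
          rw [← hq] at ht1
          have e2 : θ * w = H * q := by rw [hw, hH']; ring
          rw [e2]; exact ht1) ht2 hcon1 hcon2
      linarith)
  rw [← hq] at hp
  have hm1' : volume.real ((B1 ∪ B2) ∩ Icc (T + 1 / 2) (2 * T - 1 / 2)) ≤ (ε / 8 + ε / 16) * T := by
    have hsub : (B1 ∪ B2) ∩ Icc (T + 1 / 2) (2 * T - 1 / 2) ⊆
        {t ∈ Ioc T (2 * T) | (p + ε / 2) * w < volume.real (W ∩ Ioc t (t + w))} ∪
        (B2 ∩ Icc (T + 1 / 2) (2 * T - 1 / 2)) := by
      rintro x ⟨hx1 | hx1, hx2⟩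
      · left; exact ⟨⟨by linarith [hx2.1], by linarith [hx2.2]⟩, hx1⟩
      · right; exact ⟨hx1, hx2⟩
    have hf1 : volume {t ∈ Ioc T (2 * T) | (p + ε / 2) * w < volume.real (W ∩ Ioc t (t + w))} ≠ ⊤ :=
      ne_top_of_le_ne_top (by rw [Real.volume_Ioc]; exact ENNReal.ofReal_ne_top)
        (measure_mono fun x hx => hx.1)
    have hf2 : volume (B2 ∩ Icc (T + 1 / 2) (2 * T - 1 / 2)) ≠ ⊤ :=
      ne_top_of_le_ne_top (by rw [Real.volume_Icc]; exact ENNReal.ofReal_ne_top)
        (measure_mono inter_subset_right)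
    have h1 := measureReal_mono hsub (measure_union_ne_top hf1 hf2)
    have h2 := measureReal_union_le (μ := volume)
      {t ∈ Ioc T (2 * T) | (p + ε / 2) * w < volume.real (W ∩ Ioc t (t + w))}
      (B2 ∩ Icc (T + 1 / 2) (2 * T - 1 / 2))
    -- Chebyshev
    have h3 : volume.real (B2 ∩ Icc (T + 1 / 2) (2 * T - 1 / 2)) ≤ ε / 16 * T := by
      have i1 : Integrable (fun t => ∫ y in (t - w)..(t + 2 * w), dev T M0 y)
          (volume.restrict (Icc (T + 1 / 2) (2 * T - 1 / 2))) := hVc.integrableOn_Icc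
      have h4 := mul_meas_ge_le_integral_of_nonneg (μ := volume.restrict (Icc (T + 1 / 2) (2 * T - 1 / 2)))
        (f := fun t => ∫ y in (t - w)..(t + 2 * w), dev T M0 y) (Eventually.of_forall hV0) i1
        (ε / 4 * s * M0 * w)
      have h5 : volume.real (B2 ∩ Icc (T + 1 / 2) (2 * T - 1 / 2)) ≤
          (volume.restrict (Icc (T + 1 / 2) (2 * T - 1 / 2))).real
            {t | ε / 4 * s * M0 * w ≤ ∫ y in (t - w)..(t + 2 * w), dev T M0 y} := by
        rw [measureReal_restrict_apply (isClosed_le continuous_const hVc).measurableSet]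
        refine measureReal_mono (inter_subset_inter_left _ fun x hx => ?_)
          (ne_top_of_le_ne_top (by rw [Real.volume_Icc]; exact ENNReal.ofReal_ne_top)
            (measure_mono inter_subset_right))
        have hx' : ε / 4 * s * M0 * w < ∫ y in (x - w)..(x + 2 * w), dev T M0 y := hx
        exact hx'.le
      have hτ : 0 < ε / 4 * s * M0 * w := by positivity
      have h6 : ∫ t in Icc (T + 1 / 2) (2 * T - 1 / 2), (∫ y in (t - w)..(t + 2 * w), dev T M0 y) ≤
          3 * w * (T * s ^ 2) := by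
        rw [integral_Icc_eq_integral_Ioc, ← intervalIntegral.integral_of_le (by linarith)]
        simp only [hVeq]
        rw [intervalIntegral.integral_comp_sub_right (fun x => ∫ y in x..(x + 3 * w), dev T M0 y) w]
        have h7 := win_int (dev_ii T M0) (dev_nonneg T M0) (A := T + 1 / 2 - w) (B := 2 * T - 1 / 2 - w)
          (h := 3 * w) (by linarith) (by linarith)
        refine h7.trans (mul_le_mul_of_nonneg_left ?_ (by linarith))
        refine le_trans ?_ v1
        rw [intervalIntegral.integral_of_le (by linarith), ← integral_Icc_eq_integral_Ioc]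
        refine setIntegral_mono_set (dev_int _ _ _ _)
          (Filter.Eventually.of_forall fun t => dev_nonneg _ _ _) ?_
        exact (Icc_subset_Icc (by linarith) (by linarith)).eventuallyLE
      have h8 : ε / 4 * s * M0 * w * volume.real (B2 ∩ Icc (T + 1 / 2) (2 * T - 1 / 2)) ≤
          ε / 4 * s * M0 * w * (ε / 16 * T) := by
        refine ((mul_le_mul_of_nonneg_left h5 hτ.le).trans h4).trans (h6.trans ?_)
        have e3 : 3 * w * (T * s ^ 2) = s * w * T * (3 * s) := by ring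
        have e4 : ε / 4 * s * M0 * w * (ε / 16 * T) = s * w * T * (ε ^ 2 / 64 * M0) := by ring
        rw [e3, e4]
        refine mul_le_mul_of_nonneg_left ?_ (by positivity)
        rw [hs]
        have := mul_pos (sq_pos_of_pos hε) hM00
        linarith
      exact le_of_mul_le_mul_left h8 hτ
    have h9 : (ε / 8 + ε / 16) * T = ε / 8 * T + ε / 16 * T := by ring
    linarith
  have hp2 : H * (q * S2.card) ≤ H * ((ε / 8 + ε / 16 + ε / 8) * T) := by
    have h1 : (1 / s') * ∫ t in Icc (T + 1 / 2) (2 * T - 1 / 2), dev T H t ≤ s' * T := by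
      have h2 : ∫ t in Icc (T + 1 / 2) (2 * T - 1 / 2), dev T H t ≤ T * s' ^ 2 := by
        refine le_trans ?_ v2
        refine setIntegral_mono_set (dev_int _ _ _ _)
          (Filter.Eventually.of_forall fun t => dev_nonneg _ _ _) ?_
        exact (Icc_subset_Icc (by linarith) (by linarith)).eventuallyLE
      calc (1 / s') * ∫ t in Icc (T + 1 / 2) (2 * T - 1 / 2), dev T H t ≤ (1 / s') * (T * s' ^ 2) :=
            mul_le_mul_of_nonneg_left h2 (by positivity)
        _ = s' * T := by field_simp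
    have h3 : s' * (2 * T - 1 / 2 - (T + 1 / 2)) ≤ s' * T := mul_le_mul_of_nonneg_left (by linarith) hs'0.le
    have h4 : H * volume.real ((B1 ∪ B2) ∩ Icc (T + 1 / 2) (2 * T - 1 / 2)) ≤ H * ((ε / 8 + ε / 16) * T) :=
      mul_le_mul_of_nonneg_left hm1' hH0.le
    have h5 : s' * T = H * (ε / 8 * T) := by rw [hs']; ring
    have e5 : H * (q * S2.card) = H * q * S2.card := by ring
    rw [e5]
    have e6 : H * ((ε / 8 + ε / 16 + ε / 8) * T) = H * ((ε / 8 + ε / 16) * T) + H * (ε / 8 * T) := by ring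
    rw [e6, ← h5]
    linarith
  have hS2c : q * S2.card ≤ (ε / 8 + ε / 16 + ε / 8) * T := le_of_mul_le_mul_left hp2 hH0
  -- the edges
  have hrest : ((F.filter (fun n => ¬ (T + 1 ≤ ord n ∧ ord n + 1 ≤ 2 * T))).card : ℝ) ≤
      2 * (C2 * Real.log (2 * T)) := by
    have hsub : F.filter (fun n => ¬ (T + 1 ≤ ord n ∧ ord n + 1 ≤ 2 * T)) ⊆
        Finset.Ioc (NZ T) (NZ (T + 1)) ∪ Finset.Ioc (NZ (2 * T - 1)) (NZ (2 * T)) := by
      intro n hn
      rw [Finset.mem_filter] at hn
      obtain ⟨b1, b2⟩ := hn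
      obtain ⟨a1, a2, -⟩ := hmem n b1
      rw [Finset.mem_union, Finset.mem_Ioc, Finset.mem_Ioc]
      rcases not_and_or.1 b2 with h | h
      · left
        push Not at h
        exact ⟨a1, (SG.ord_le_iff (by omega) _).mp h.le⟩
      · right
        push Not at h
        refine ⟨?_, a2⟩
        by_contra hcon
        push Not at hcon
        have := (SG.ord_le_iff (by omega) _).mpr hcon
        linarith
    have h1 := (Finset.card_le_card hsub).trans (Finset.card_union_le _ _)
    rw [Nat.card_Ioc, Nat.card_Ioc] at h1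
    have hmono1 : NZ T ≤ NZ (T + 1) := SG.NZ_mono (by linarith)
    have hmono2 : NZ (2 * T - 1) ≤ NZ (2 * T) := SG.NZ_mono (by linarith)
    have h2 : ((F.filter (fun n => ¬ (T + 1 ≤ ord n ∧ ord n + 1 ≤ 2 * T))).card : ℝ) ≤
        ((NZ (T + 1) - NZ T : ℕ) : ℝ) + ((NZ (2 * T) - NZ (2 * T - 1) : ℕ) : ℝ) := by exact_mod_cast h1
    rw [Nat.cast_sub hmono1, Nat.cast_sub hmono2] at h2
    have h3 := huc T (by linarith)
    have h4 := huc (2 * T - 1) (by linarith)
    rw [show 2 * T - 1 + 1 = 2 * T by ring] at h4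
    have h5 : Real.log T ≤ Real.log (2 * T) := Real.log_le_log (by linarith) (by linarith)
    have h6 : Real.log (2 * T - 1) ≤ Real.log (2 * T) := Real.log_le_log (by linarith) (by linarith)
    have h7 := mul_le_mul_of_nonneg_left h5 hC2.le
    have h8 := mul_le_mul_of_nonneg_left h6 hC2.le
    linarith
  have hsplit1 := Finset.card_filter_add_card_filter_not (s := F)
    (fun n => T + 1 ≤ ord n ∧ ord n + 1 ≤ 2 * T)
  have hsplit2 := Finset.card_filter_add_card_filter_not (s := S1)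
    (fun n => ord (n + m) ≤ ord n + (1 + θ) * w)
  have hs1 : (F.card : ℝ) = S1.card + ((F.filter (fun n => ¬ (T + 1 ≤ ord n ∧ ord n + 1 ≤ 2 * T))).card : ℝ) := by
    exact_mod_cast hsplit1.symm
  have hs2' : (S1.card : ℝ) = S2.card + (S3.card : ℝ) := by exact_mod_cast hsplit2.symm
  have e7 : T * Real.log T / (2 * Real.pi) = T / q := by rw [hq]; field_simp
  rw [e7] at g3 ⊢
  have hS2d : (S2.card : ℝ) ≤ (ε / 8 + ε / 16 + ε / 8) * (T / q) := by
    rw [← mul_div_assoc, le_div_iff₀ hq0]; linarith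
  have hS3d : (S3.card : ℝ) ≤ ε / 8 * (T / q) := by
    rw [← mul_div_assoc, le_div_iff₀ hq0]; linarith
  rw [hs1, hs2']
  have hTq : 0 < ε * (T / q) := by positivity
  linarith

end Pool.Agent.R321.QA
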