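import Pool.Agent.R321.QB2

/-! # Runs of sums of consecutive gaps in a dyadic block -/

set_option autoImplicit false

open Filter Topology MeasureTheory Set

namespace Pool.Agent.R321.QA

open SG (ord NZ)
open Pool.Agent.Y743.CL (Zv Zv_eq Zv_meas gs gs_left gs_right Ph Ph_lip lm as1 as4 as5 as6 as7 bigT log_nat
  Ev unf_lo unf_hi grow4)

lemma near_of (x : ℝ) : ∀ᶠ r : ℕ in atTop, ∀ T : ℝ, 1 ≤ T →
    r * Real.log r ≤ 2 * Real.log T → ∀ n, NZ T < n → Ev x r n →
    ord (n + r) ≤ ord n + (r + x * lm r) * (2 * Real.pi / Real.log T) := by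
  have hpi := Real.pi_pos
  filter_upwards [bigT 2 (by norm_num) 10, (as6 x 0).eventually_ge_atTop 0] with r h2 h3 T hT hrT n hn1 hn2
  have hT10 := h2 T hT hrT
  have hn0 : 1 ≤ n := by omega
  have hu : T < ord n := by
    by_contra hcon
    push Not at hcon
    have := (SG.ord_le_iff hn0 _).mp hcon
    omega
  have huv : ord n ≤ ord (n + r) := SG.ord_mono hn0 (by omega)
  have h4 := unf_lo (by linarith) huv
  have hLT : 0 < Real.log T := Real.log_pos (by linarith)
  have h5 : Real.log T ≤ Real.log (ord (n + r)) := Real.log_le_log (by linarith) (by linarith)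
  have h6 : (ord (n + r) - ord n) * Real.log T ≤ (ord (n + r) - ord n) * Real.log (ord (n + r)) :=
    mul_le_mul_of_nonneg_left h5 (by linarith)
  unfold Ev at hn2
  rw [← sub_div, div_le_iff₀ (by positivity)] at hn2
  have h7 : ord (n + r) - ord n ≤ (r + x * lm r) * (2 * Real.pi / Real.log T) := by
    rw [← mul_div_assoc, le_div_iff₀ hLT]
    linarith
  linarith

lemma far_of (x : ℝ) : ∀ᶠ r : ℕ in atTop, ∀ T : ℝ, 1 ≤ T →
    r * Real.log r ≤ 2 * Real.log T → ∀ n, NZ T < n → n ≤ NZ (2 * T) → ¬ Ev x r n →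
    ord n + (r + x * lm r - 1) * (2 * Real.pi / Real.log T) < ord (n + r) := by
  have hpi := Real.pi_pos
  obtain ⟨A0, hA0, hgrow⟩ := grow4
  filter_upwards [bigT 2 (by norm_num) A0,
    (as6 x 0).eventually_ge_atTop 0, as7,
    (as1 x 0).eventually_le_const (show (0 : ℝ) < 1 by norm_num)] with r h2 h3 h4 h5 T hT hrT n hn1 hn1' hn2
  have hTA := h2 T hT hrT
  have hr0 : (0 : ℝ) < r := by
    rcases Nat.eq_zero_or_pos r with h | h
    · rw [h] at h4; simp at h4; linarith
    · exact_mod_cast h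
  rw [add_zero] at h3 h5
  rw [div_le_iff₀ hr0, one_mul] at h5
  obtain ⟨a, ha⟩ : ∃ a : ℝ, a = r + x * lm r := ⟨_, rfl⟩
  obtain ⟨L, hL⟩ : ∃ L : ℝ, L = Real.log T := ⟨_, rfl⟩
  have ha0 : 0 ≤ a := by rw [ha]; exact h3
  have ha2 : a ≤ 2 * r := by rw [ha]; linarith
  rw [← hL] at hrT
  have h6 : (r : ℝ) * 12 ≤ r * Real.log r := mul_le_mul_of_nonneg_left h4 hr0.le
  have h7 : 3 * a ≤ L := by linarith
  have hL0 : 0 < L := by linarith
  have hLT : L ≤ T := by
    rw [hL]
    have := Real.log_le_sub_one_of_pos (show 0 < T by linarith)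
    linarith
  have hrT2 : (r : ℝ) ≤ 2 * T := by linarith
  have hn0 : 1 ≤ n := by omega
  have hu : T < ord n := by
    by_contra hcon
    push Not at hcon
    have := (SG.ord_le_iff hn0 _).mp hcon
    omega
  have huv : ord n ≤ ord (n + r) := SG.ord_mono hn0 (by omega)
  have h8 := unf_hi (by linarith) huv
  have h9 : n + r ≤ NZ (4 * T) := by
    have g1 := hgrow T hTA
    have g2 : (n : ℝ) ≤ NZ (2 * T) := by exact_mod_cast hn1'
    have g3 : ((n + r : ℕ) : ℝ) ≤ NZ (4 * T) := by push_cast; linarith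
    exact_mod_cast g3
  have h10 : ord (n + r) ≤ 4 * T := (SG.ord_le_iff (by omega) _).mpr h9
  have h11 : Real.log (ord (n + r)) ≤ L + 2 := by
    have g1 : Real.log (ord (n + r)) ≤ Real.log (4 * T) := Real.log_le_log (by linarith) h10
    have g2 : Real.log (4 * T) = 2 * Real.log 2 + L := by
      rw [Real.log_mul (by norm_num) (by linarith), ← hL,
        show (4 : ℝ) = 2 ^ 2 by norm_num, Real.log_pow]
      norm_num
    have g3 := Real.log_two_lt_d9
    linarith
  have h12 : (ord (n + r) - ord n) * (Real.log (ord (n + r)) + 1) ≤ (ord (n + r) - ord n) * (L + 3) :=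
    mul_le_mul_of_nonneg_left (by linarith) (by linarith)
  unfold Ev at hn2
  rw [← sub_div, not_le, lt_div_iff₀ (by positivity), ← ha] at hn2
  rw [← hL, ← ha]
  have h13 : a * (2 * Real.pi) < (ord (n + r) - ord n) * (L + 3) := by linarith
  by_contra hcon
  push Not at hcon
  have h14 : ord (n + r) - ord n ≤ (a - 1) * (2 * Real.pi / L) := by linarith
  have h15 : (ord (n + r) - ord n) * (L + 3) ≤ (a - 1) * (2 * Real.pi / L) * (L + 3) :=
    mul_le_mul_of_nonneg_right h14 (by linarith)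
  have h16 : (a - 1) * (2 * Real.pi / L) * (L + 3) = (2 * Real.pi) * ((a - 1) * (L + 3) / L) := by
    ring
  have h17 : (a - 1) * (L + 3) / L ≤ a := by
    rw [div_le_iff₀ hL0]
    nlinarith
  have h18 : (2 * Real.pi) * ((a - 1) * (L + 3) / L) ≤ (2 * Real.pi) * a :=
    mul_le_mul_of_nonneg_left h17 (by positivity)
  linarith

/-- the conditions on the run length -/
lemma m_cond {η : ℝ} (hη : 0 < η) (hη8 : η ≤ 1 / 8) (m1 : ℕ) : ∀ᶠ r : ℕ in atTop, ∀ T : ℝ, 1 ≤ T →
    r * Real.log r ≤ 2 * Real.log T → ∀ m : ℕ, η * r ≤ m → (m : ℝ) ≤ 2 * η * r →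
    m1 ≤ m ∧ (2 * (m : ℝ)) * Real.log (2 * m) ≤ Real.log T ∧
    m * (2 * Real.pi / Real.log T) ≤ 1 / 8 ∧ (0 : ℝ) < r ∧ 0 < m := by
  have hpi := Real.pi_pos
  filter_upwards [log_nat.eventually_ge_atTop 26,
    (tendsto_natCast_atTop_atTop (R := ℝ)).eventually_ge_atTop ((m1 + 1) / η)] with r h1 h2 T hT hrT m hm1 hm2
  have hr0 : (0 : ℝ) < r := by
    have : 0 < ((m1 : ℝ) + 1) / η := by positivity
    linarith
  rw [div_le_iff₀ hη] at h2
  have h3 : (m1 : ℝ) + 1 ≤ m := by linarith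
  have hm4 : (m : ℝ) ≤ r / 4 := by nlinarith
  have hlogT : 0 < Real.log T := by nlinarith
  have hm0 : (0 : ℝ) < m := by
    have : (0 : ℝ) ≤ m1 := Nat.cast_nonneg _
    linarith
  refine ⟨by exact_mod_cast (by linarith : (m1 : ℝ) ≤ m), ?_, ?_, hr0, by exact_mod_cast hm0⟩
  · refine xlogx_le (y := r / 2) (by linarith) (by linarith) ?_ hlogT.le
    have h4 : Real.log (r / 2) ≤ Real.log r := Real.log_le_log (by linarith) (by linarith)
    have h5 : r / 2 * Real.log (r / 2) ≤ r / 2 * Real.log r := mul_le_mul_of_nonneg_left h4 (by linarith)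
    linarith
  · rw [← mul_div_assoc, div_le_iff₀ hlogT]
    have h4 : (r : ℝ) * 26 ≤ r * Real.log r := mul_le_mul_of_nonneg_left h1 hr0.le
    have h5 : (m : ℝ) * (2 * Real.pi) ≤ r / 4 * (2 * Real.pi) := mul_le_mul_of_nonneg_right hm4 (by positivity)
    have h6 : r / 4 * (2 * Real.pi) ≤ r / 4 * (2 * 3.15) :=
      mul_le_mul_of_nonneg_left (by linarith [Real.pi_lt_d2]) (by linarith)
    linarith

/-- **near neighbours along runs** -/
theorem nearR (x ε η : ℝ) (hε : 0 < ε) (hε1 : ε ≤ 1) (hη : 0 < η) (hη8 : η ≤ 1 / 8) :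
    ∀ᶠ r : ℕ in atTop, ∀ T : ℝ, 1 ≤ T → r * Real.log r ≤ 2 * Real.log T →
    ∀ m : ℕ, η * r ≤ m → (m : ℝ) ≤ 2 * η * r →
    (((Finset.Ioc (NZ T) (NZ (2 * T))).filter (fun n => (Ph x + ε) * m <
      (((Finset.Ico n (n + m)).filter (fun k => Ev x r k)).card : ℝ))).card : ℝ) ≤
      ε * (T * Real.log T / (2 * Real.pi)) := by
  have hpi := Real.pi_pos
  obtain ⟨M0, hM01, m1, T1, hT1, hm11, hM0m1, hruns⟩ := runs_bd ε hε hε1
  obtain ⟨δ, hδd⟩ : ∃ δ : ℝ, δ = ε / 16 := ⟨_, rfl⟩
  have hδ : 0 < δ := by rw [hδd]; positivity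
  obtain ⟨K, hK1, hK2⟩ := gs_right hδ (x + δ)
  obtain ⟨R, hR3, hR⟩ := loc_win 4 (by norm_num) hK1 (show 0 < ε / 8 by positivity)
    (show 0 < η / 2 by positivity)
  filter_upwards [(as6 x M0).eventually_ge_atTop R, as5 x M0,
    (as4 x M0).eventually_le_const (show x < x + δ by linarith), bigT 2 (by norm_num) T1,
    (as1 x M0).eventually_le_const (show (0 : ℝ) < 1 by norm_num),
    (as1 x M0).eventually_const_le (show (-(1 / 2) : ℝ) < 0 by norm_num),
    near_of x, m_cond hη hη8 m1] with r c1 c2 c3 c4 c5 c6 c7 c8 T hT hrT m hm1 hm2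
  have hTT1 := c4 T hT hrT
  obtain ⟨d1, d2, d3, hr0, hm0⟩ := c8 T hT hrT m hm1 hm2
  rw [div_le_iff₀ hr0] at c5
  rw [le_div_iff₀ hr0] at c6
  obtain ⟨a, ha⟩ : ∃ a : ℝ, a = r + (x * lm r + M0) := ⟨_, rfl⟩
  rw [← ha] at c1 c2 c3
  have hη4 : 4 * η * r ≤ 4 * (1 / 8) * r := by gcongr
  have hw := hR a T m c1 hT (by linarith) (by
    have h1 : a ≤ 2 * r := by rw [ha]; linarith
    have h2 : η / 2 * a ≤ η / 2 * (2 * r) := mul_le_mul_of_nonneg_left h1 (by positivity)
    linarith) (by rw [ha]; linarith)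
  obtain ⟨q, hq⟩ : ∃ q : ℝ, q = 2 * Real.pi / Real.log T := ⟨_, rfl⟩
  have hsq : hs m T = m * q := by unfold hs; rw [hq]; ring
  rw [hsq] at hw
  have hT10 : 10 ≤ T := hT1.trans hTT1
  have hL0 : 0 < Real.log T := Real.log_pos (by linarith)
  have hq0 : 0 < q := by rw [hq]; positivity
  have hmr : (0 : ℝ) < m := by exact_mod_cast hm0
  refine hruns T hTT1 m d1 d2 d3 (Ph x) (fun k => Ev x r k) (So (x + δ) K a T) (So_meas _ _ _ _) ?_ ?_
  · intro k hEk hk1 hk2 hk3 t ht1 ht2
    rw [← hq] at ht1 hk3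
    have hnear := c7 T hT hrT k hk1 hEk
    rw [← hq] at hnear
    have b1 : NZ t < k := by
      by_contra hcon
      push Not at hcon
      have := (SG.ord_le_iff (by omega) _).mpr hcon
      linarith
    have b2 : k + r ≤ NZ (t + a * q) := by
      refine (SG.ord_le_iff (by omega) _).mp ?_
      have e1 : a * q = (r + x * lm r) * q + M0 * q := by rw [ha]; ring
      linarith
    have b3 : (NZ t : ℝ) < k := by exact_mod_cast b1
    have b4 : (k : ℝ) + r ≤ NZ (t + a * q) := by exact_mod_cast b2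
    rintro ⟨hz, -⟩
    rw [Zv_eq, ← hq] at hz
    have hz2 : Real.pi * (a - ((NZ (t + a * q) : ℝ) - NZ t)) / Real.sqrt (Real.log a) ≤
        Real.pi * (x * lm r + M0) / Real.sqrt (Real.log a) := by
      apply div_le_div_of_nonneg_right _ (Real.sqrt_nonneg _)
      apply mul_le_mul_of_nonneg_left _ hpi.le
      linarith
    linarith
  · rw [← hq]
    refine le_trans (measureReal_mono ?_ ?_) hw
    · rintro t ⟨ht1, ht2⟩
      refine ⟨ht1, lt_of_le_of_lt ?_ ht2⟩
      refine mul_le_mul_of_nonneg_right ?_ (by positivity)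
      have := Ph_lip (show x ≤ x + δ by linarith)
      linarith
    · exact ne_top_of_le_ne_top (by rw [Real.volume_Ioc]; exact ENNReal.ofReal_ne_top)
        (measure_mono fun x hx => hx.1)

/-- **far neighbours along runs** -/
theorem farR (x ε η : ℝ) (hε : 0 < ε) (hε1 : ε ≤ 1) (hη : 0 < η) (hη8 : η ≤ 1 / 8) :
    ∀ᶠ r : ℕ in atTop, ∀ T : ℝ, 1 ≤ T → r * Real.log r ≤ 2 * Real.log T →
    ∀ m : ℕ, η * r ≤ m → (m : ℝ) ≤ 2 * η * r →
    (((Finset.Ioc (NZ T) (NZ (2 * T))).filter (fun n => (1 - Ph x + ε) * m <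
      (((Finset.Ico n (n + m)).filter (fun k => ¬ Ev x r k)).card : ℝ))).card : ℝ) ≤
      ε * (T * Real.log T / (2 * Real.pi)) := by
  have hpi := Real.pi_pos
  obtain ⟨M0, hM01, m1, T1, hT1, hm11, hM0m1, hruns⟩ := runs_bd ε hε hε1
  obtain ⟨δ, hδd⟩ : ∃ δ : ℝ, δ = ε / 16 := ⟨_, rfl⟩
  have hδ : 0 < δ := by rw [hδd]; positivity
  obtain ⟨K, hK1, hK2⟩ := gs_left hδ (x - δ)
  obtain ⟨R, hR3, hR⟩ := loc_win 4 (by norm_num) hK1 (show 0 < ε / 8 by positivity)
    (show 0 < η / 2 by positivity)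
  filter_upwards [(as6 x (-1 - M0)).eventually_ge_atTop R, as5 x (-1 - M0),
    (as4 x (-1 - M0)).eventually_const_le (show x - δ < x by linarith), bigT 2 (by norm_num) T1,
    (as1 x (-1 - M0)).eventually_le_const (show (0 : ℝ) < 1 by norm_num),
    (as1 x (-1 - M0)).eventually_const_le (show (-(1 / 2) : ℝ) < 0 by norm_num),
    far_of x, m_cond hη hη8 m1] with r c1 c2 c3 c4 c5 c6 c7 c8 T hT hrT m hm1 hm2
  have hTT1 := c4 T hT hrT
  obtain ⟨d1, d2, d3, hr0, hm0⟩ := c8 T hT hrT m hm1 hm2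
  rw [div_le_iff₀ hr0] at c5
  rw [le_div_iff₀ hr0] at c6
  obtain ⟨a, ha⟩ : ∃ a : ℝ, a = r + (x * lm r + (-1 - M0)) := ⟨_, rfl⟩
  rw [← ha] at c1 c2 c3
  have hη4 : 4 * η * r ≤ 4 * (1 / 8) * r := by gcongr
  have hw := hR a T m c1 hT (by linarith) (by
    have h1 : a ≤ 2 * r := by rw [ha]; linarith
    have h2 : η / 2 * a ≤ η / 2 * (2 * r) := mul_le_mul_of_nonneg_left h1 (by positivity)
    linarith) (by rw [ha]; linarith)
  obtain ⟨q, hq⟩ : ∃ q : ℝ, q = 2 * Real.pi / Real.log T := ⟨_, rfl⟩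
  have hsq : hs m T = m * q := by unfold hs; rw [hq]; ring
  rw [hsq] at hw
  have hT10 : 10 ≤ T := hT1.trans hTT1
  have hL0 : 0 < Real.log T := Real.log_pos (by linarith)
  have hq0 : 0 < q := by rw [hq]; positivity
  have hmr : (0 : ℝ) < m := by exact_mod_cast hm0
  have hM0q : 0 < M0 * q := by positivity
  have hmeas : MeasurableSet ((fun t : ℝ => t + M0 * q) ⁻¹' So (-K) (x - δ) a T) :=
    (measurable_id.add_const _) (So_meas _ _ _ _)
  have hM0m : M0 * q ≤ ε / 16 * (m * q) := by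
    have h1 : M0 ≤ ε / 16 * m := hM0m1.trans (mul_le_mul_of_nonneg_left (by exact_mod_cast d1) (by positivity))
    calc M0 * q ≤ (ε / 16 * m) * q := mul_le_mul_of_nonneg_right h1 hq0.le
      _ = _ := by ring
  refine hruns T hTT1 m d1 d2 d3 (1 - Ph x) (fun k => ¬ Ev x r k)
    ((fun t : ℝ => t + M0 * q) ⁻¹' So (-K) (x - δ) a T) hmeas ?_ ?_
  · intro k hEk hk1 hk2 hk3 t ht1 ht2
    rw [← hq] at ht1 hk3
    have hfar := c7 T hT hrT k hk1 hk2 hEk
    rw [← hq] at hfar
    show t + M0 * q ∈ So (-K) (x - δ) a T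
    obtain ⟨y, hy⟩ : ∃ y : ℝ, y = t + M0 * q := ⟨_, rfl⟩
    rw [← hy]
    have b1 : k ≤ NZ y := (SG.ord_le_iff (by omega) _).mp (by linarith)
    have b2 : NZ (y + a * q) < k + r := by
      by_contra hcon
      push Not at hcon
      have h5 := (SG.ord_le_iff (by omega) _).mpr hcon
      have e1 : a * q = (r + x * lm r - 1) * q - M0 * q := by rw [ha]; ring
      linarith
    have b3 : (k : ℝ) ≤ NZ y := by exact_mod_cast b1
    have b4 : (NZ (y + a * q) : ℝ) < k + r := by exact_mod_cast b2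
    rintro ⟨-, hz⟩
    rw [Zv_eq, ← hq] at hz
    have hz2 : Real.pi * (x * lm r + (-1 - M0)) / Real.sqrt (Real.log a) ≤
        Real.pi * (a - ((NZ (y + a * q) : ℝ) - NZ y)) / Real.sqrt (Real.log a) := by
      apply div_le_div_of_nonneg_right _ (Real.sqrt_nonneg _)
      apply mul_le_mul_of_nonneg_left _ hpi.le
      linarith
    linarith
  · rw [← hq]
    refine le_trans (measureReal_mono ?_ ?_) hw
    · rintro t ⟨ht1, ht2⟩
      refine ⟨ht1, ?_⟩
      have hshift : volume.real ((fun t : ℝ => t + M0 * q) ⁻¹' So (-K) (x - δ) a T ∩ Ioc t (t + m * q)) ≤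
          volume.real (So (-K) (x - δ) a T ∩ Ioc t (t + m * q)) + M0 * q := by
        have e1 : (fun t : ℝ => t + M0 * q) ⁻¹' So (-K) (x - δ) a T ∩ Ioc t (t + m * q) =
            (fun t : ℝ => t + M0 * q) ⁻¹' (So (-K) (x - δ) a T ∩
              Ioc (t + M0 * q) (t + m * q + M0 * q)) := by
          ext z
          constructor
          · rintro ⟨h1, h2, h3⟩
            exact ⟨h1, by simp only; linarith, by simp only; linarith⟩
          · rintro ⟨h1, h2, h3⟩
            exact ⟨h1, by simp only at h2; linarith, by simp only at h3; linarith⟩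
        rw [e1, Measure.real, measure_preimage_add_right, ← Measure.real]
        have hsub : So (-K) (x - δ) a T ∩ Ioc (t + M0 * q) (t + m * q + M0 * q) ⊆
            (So (-K) (x - δ) a T ∩ Ioc t (t + m * q)) ∪ Ioc (t + m * q) (t + m * q + M0 * q) := by
          rintro z ⟨hz1, hz2, hz3⟩
          rcases le_or_gt z (t + m * q) with h | h
          · left; exact ⟨hz1, by linarith, h⟩
          · right; exact ⟨h, hz3⟩
        have hf1 : volume (So (-K) (x - δ) a T ∩ Ioc t (t + m * q)) ≠ ⊤ :=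
          ne_top_of_le_ne_top (by rw [Real.volume_Ioc]; exact ENNReal.ofReal_ne_top)
            (measure_mono inter_subset_right)
        have h1 := measureReal_mono hsub (measure_union_ne_top hf1
          (by rw [Real.volume_Ioc]; exact ENNReal.ofReal_ne_top))
        have h2 := measureReal_union_le (μ := volume) (So (-K) (x - δ) a T ∩ Ioc t (t + m * q))
          (Ioc (t + m * q) (t + m * q + M0 * q))
        rw [Real.volume_real_Ioc_of_le (by linarith), add_sub_cancel_left] at h2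
        linarith
      have h3 := Ph_lip (show x - δ ≤ x by linarith)
      have h4 : (1 - gs.real (Ioo (-K) (x - δ)) + ε / 8) * (m * q) ≤
          (1 - Ph x + ε / 2 - ε / 16) * (m * q) := by
        refine mul_le_mul_of_nonneg_right ?_ (by positivity)
        linarith
      have h5 : (1 - Ph x + ε / 2 - ε / 16) * (m * q) =
        (1 - Ph x + ε / 2) * (m * q) - ε / 16 * (m * q) := by ring
      linarith
    · exact ne_top_of_le_ne_top (by rw [Real.volume_Ioc]; exact ENNReal.ofReal_ne_top)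
        (measure_mono fun x hx => hx.1)

end Pool.Agent.R321.QA
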