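import Pool.Agent.R321.QB3
import Pool.Agent.R320.CL.Asm

/-! # Runs of arbitrary length -/

set_option autoImplicit false

open Filter Topology MeasureTheory Set

namespace Pool.Agent.R321.QA

open SG (ord NZ)
open Pool.Agent.Y743.CL (gs gs_left gs_right gs_bot gs_top gs_compl Ph Ph_lip Ph_nonneg Ph_le_one Ph_mono
  lm lm_nonneg log_nat Ev)

/-- the number of `k ∈ [n, n + M)` with the property `e` -/
noncomputable def ct (e : ℕ → Prop) (n M : ℕ) : ℝ := by
  classical exact (((Finset.Ico n (n + M)).filter e).card : ℝ)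

lemma ct_eq (e : ℕ → Prop) [DecidablePred e] (n M : ℕ) :
    ct e n M = (((Finset.Ico n (n + M)).filter e).card : ℝ) := by
  unfold ct
  congr!

lemma ct_nonneg (e : ℕ → Prop) (n M : ℕ) : 0 ≤ ct e n M := by
  classical
  rw [ct_eq]; positivity

lemma ct_le (e : ℕ → Prop) (n M : ℕ) : ct e n M ≤ M := by
  classical
  rw [ct_eq]
  have := Finset.card_filter_le (Finset.Ico n (n + M)) e
  rw [Nat.card_Ico, Nat.add_sub_cancel_left] at this
  exact_mod_cast this

lemma ct_not (e : ℕ → Prop) (n M : ℕ) : ct e n M + ct (fun k => ¬ e k) n M = M := by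
  classical
  rw [ct_eq, ct_eq]
  have := Finset.card_filter_add_card_filter_not (s := Finset.Ico n (n + M)) e
  rw [Nat.card_Ico, Nat.add_sub_cancel_left] at this
  exact_mod_cast this

lemma ct_mono {e f : ℕ → Prop} (h : ∀ k, e k → f k) (n M : ℕ) : ct e n M ≤ ct f n M := by
  classical
  rw [ct_eq, ct_eq]
  have : (Finset.Ico n (n + M)).filter e ⊆ (Finset.Ico n (n + M)).filter f := by
    intro k hk
    rw [Finset.mem_filter] at hk ⊢
    exact ⟨hk.1, h k hk.2⟩
  exact_mod_cast Finset.card_le_card this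

lemma ct_sum (e : ℕ → Prop) [DecidablePred e] (n M : ℕ) :
    ct e n M = ∑ i ∈ Finset.range M, (if e (n + i) then (1 : ℝ) else 0) := by
  rw [ct_eq, Finset.card_filter, Finset.sum_Ico_eq_sum_range, Nat.add_sub_cancel_left]
  push_cast
  rfl

/-- from long runs to short runs -/
lemma cover (e : ℕ → Prop) {c : ℝ} (hc : 0 ≤ c) (n M m : ℕ) (hm : 0 < m) :
    ct e n M ≤ c * M + ct (fun j => c * m < ct e j m) n M + m := by
  classical
  have hmr : (0 : ℝ) < m := by exact_mod_cast hm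
  -- the lower bound
  have h1 : m * ct e n M ≤ (∑ j ∈ Finset.range M, ct e (n + j) m) + m * m := by
    have h2 : ∑ j ∈ Finset.range M, ct e (n + j) m = ∑ i ∈ Finset.range m, ct e (n + i) M := by
      have e1 : ∀ j ∈ Finset.range M, ct e (n + j) m =
          ∑ i ∈ Finset.range m, (if e (n + j + i) then (1 : ℝ) else 0) := fun j _ => ct_sum e _ _
      have e2 : ∀ i ∈ Finset.range m, ct e (n + i) M =
          ∑ j ∈ Finset.range M, (if e (n + i + j) then (1 : ℝ) else 0) := fun j _ => ct_sum e _ _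
      rw [Finset.sum_congr rfl e1, Finset.sum_congr rfl e2, Finset.sum_comm]
      refine Finset.sum_congr rfl fun i _ => Finset.sum_congr rfl fun j _ => ?_
      rw [add_right_comm]
    have h3 : ∀ i ∈ Finset.range m, ct e n M - m ≤ ct e (n + i) M := by
      intro i hi
      rw [Finset.mem_range] at hi
      rw [ct_eq, ct_eq]
      have hsub : (Finset.Ico n (n + M)).filter e ⊆
          (Finset.Ico (n + i) (n + i + M)).filter e ∪ Finset.Ico n (n + i) := by
        intro k hk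
        rw [Finset.mem_filter, Finset.mem_Ico] at hk
        rw [Finset.mem_union, Finset.mem_filter, Finset.mem_Ico, Finset.mem_Ico]
        by_cases h : k < n + i
        · right; exact ⟨hk.1.1, h⟩
        · left; exact ⟨⟨by omega, by omega⟩, hk.2⟩
      have h4 := (Finset.card_le_card hsub).trans (Finset.card_union_le _ _)
      rw [Nat.card_Ico, Nat.add_sub_cancel_left] at h4
      have h5 : (((Finset.Ico n (n + M)).filter e).card : ℝ) ≤
          (((Finset.Ico (n + i) (n + i + M)).filter e).card : ℝ) + i := by exact_mod_cast h4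
      have h6 : (i : ℝ) ≤ m := by exact_mod_cast hi.le
      linarith
    have h4 : ∑ i ∈ Finset.range m, (ct e n M - m) ≤ ∑ i ∈ Finset.range m, ct e (n + i) M :=
      Finset.sum_le_sum h3
    rw [Finset.sum_const, Finset.card_range, nsmul_eq_mul, ← h2] at h4
    linarith
  -- the upper bound
  have h5 : ∑ j ∈ Finset.range M, ct e (n + j) m ≤
      m * (c * M + ct (fun j => c * m < ct e j m) n M) := by
    have h6 : ∀ j ∈ Finset.range M, ct e (n + j) m ≤ c * m +
        m * (if c * m < ct e (n + j) m then (1 : ℝ) else 0) := by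
      intro j _
      split_ifs with h
      · have := ct_le e (n + j) m
        have h0 : 0 ≤ c * m := by positivity
        linarith
      · push Not at h
        linarith
    refine (Finset.sum_le_sum h6).trans (le_of_eq ?_)
    rw [Finset.sum_add_distrib, Finset.sum_const, Finset.card_range, nsmul_eq_mul, ← Finset.mul_sum,
      ct_sum (fun j => c * m < ct e j m)]
    ring
  have h7 : m * ct e n M ≤ m * (c * M + ct (fun j => c * m < ct e j m) n M + m) := by
    have : m * (c * M + ct (fun j => c * m < ct e j m) n M + m) =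
      m * (c * M + ct (fun j => c * m < ct e j m) n M) + m * m := by ring
    linarith
  exact le_of_mul_le_mul_left h7 hmr

/-- Markov's inequality for runs -/
lemma markov_runs (B : ℕ → Prop) {ρ : ℝ} (hρ : 0 < ρ) (N M : ℕ) (hM : 0 < M) (hMN : M ≤ N) :
    ct (fun n => ρ * M < ct B n M) 1 N ≤ 1 / ρ * ct B 1 (2 * N) := by
  classical
  have hMr : (0 : ℝ) < M := by exact_mod_cast hM
  have h1 : ρ * M * ct (fun n => ρ * M < ct B n M) 1 N ≤ ∑ j ∈ Finset.range N, ct B (1 + j) M := by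
    rw [ct_sum, Finset.mul_sum]
    refine Finset.sum_le_sum fun j _ => ?_
    split_ifs with h
    · rw [mul_one]; exact h.le
    · rw [mul_zero]; exact ct_nonneg _ _ _
  have h2 : ∑ j ∈ Finset.range N, ct B (1 + j) M = ∑ i ∈ Finset.range M, ct B (1 + i) N := by
    have e1 : ∀ j ∈ Finset.range N, ct B (1 + j) M =
        ∑ i ∈ Finset.range M, (if B (1 + j + i) then (1 : ℝ) else 0) := fun j _ => ct_sum B _ _
    have e2 : ∀ i ∈ Finset.range M, ct B (1 + i) N =
        ∑ j ∈ Finset.range N, (if B (1 + i + j) then (1 : ℝ) else 0) := fun j _ => ct_sum B _ _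
    rw [Finset.sum_congr rfl e1, Finset.sum_congr rfl e2, Finset.sum_comm]
    refine Finset.sum_congr rfl fun i _ => Finset.sum_congr rfl fun j _ => ?_
    rw [add_right_comm]
  have h3 : ∀ i ∈ Finset.range M, ct B (1 + i) N ≤ ct B 1 (2 * N) := by
    intro i hi
    rw [Finset.mem_range] at hi
    rw [ct_eq, ct_eq]
    have hsub : (Finset.Ico (1 + i) (1 + i + N)).filter B ⊆ (Finset.Ico 1 (1 + 2 * N)).filter B := by
      intro k hk
      rw [Finset.mem_filter, Finset.mem_Ico] at hk ⊢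
      exact ⟨⟨by omega, by omega⟩, hk.2⟩
    exact_mod_cast Finset.card_le_card hsub
  have h4 := Finset.sum_le_sum h3
  rw [Finset.sum_const, Finset.card_range, nsmul_eq_mul] at h4
  have h5 : ρ * M * ct (fun n => ρ * M < ct B n M) 1 N ≤ ρ * M * (1 / ρ * ct B 1 (2 * N)) := by
    have e1 : ρ * M * (1 / ρ * ct B 1 (2 * N)) = M * ct B 1 (2 * N) := by field_simp
    rw [e1]
    linarith
  exact le_of_mul_le_mul_left h5 (by positivity)

lemma Icc_Ico (N : ℕ) : Finset.Icc 1 N = Finset.Ico 1 (1 + N) := by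
  ext k
  rw [Finset.mem_Icc, Finset.mem_Ico]
  omega

/-- all zeros, short runs -/
lemma allN (pr : ℕ → ℕ → Prop) {c ε η : ℝ} (hε : 0 < ε) (hε1 : ε ≤ 1)
    (hb : ∀ᶠ r : ℕ in atTop, ∀ T : ℝ, 1 ≤ T → r * Real.log r ≤ 2 * Real.log T →
    ∀ m : ℕ, η * r ≤ m → (m : ℝ) ≤ 2 * η * r →
    (((Finset.Ioc (NZ T) (NZ (2 * T))).filter (fun n => c * m < ct (pr r) n m)).card : ℝ) ≤
      ε * (T * Real.log T / (2 * Real.pi))) :
    ∀ᶠ r : ℕ in atTop, ∀ N : ℕ, 1 ≤ N → r * Real.log r ≤ Real.log N →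
    ∀ m : ℕ, η * r ≤ m → (m : ℝ) ≤ 2 * η * r →
    ct (fun n => c * m < ct (pr r) n m) 1 N ≤ 2 * ε * N := by
  classical
  obtain ⟨N₀, hN₀, hasm⟩ := Pool.Agent.R320.CL.asm ε hε hε1
  have hN₀r : (1 : ℝ) ≤ N₀ := by exact_mod_cast hN₀
  filter_upwards [hb, log_nat.eventually_ge_atTop 1,
    tendsto_natCast_atTop_atTop.eventually_ge_atTop (Real.log N₀ + 1)] with r h1 h3 h4 N hN hrN m hm1 hm2
  have hNN : N₀ ≤ N := by
    have hlog0 : 0 ≤ Real.log N₀ := Real.log_nonneg hN₀r
    have a1 : Real.log N₀ < Real.log N := by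
      have : (r : ℝ) * 1 ≤ r * Real.log r := by
        apply mul_le_mul_of_nonneg_left h3 (Nat.cast_nonneg _)
      linarith
    have a2 : (N₀ : ℝ) < N := (Real.log_lt_log_iff (by linarith) (by exact_mod_cast hN)).1 a1
    have a3 : N₀ < N := by exact_mod_cast a2
    exact a3.le
  have g1 := hasm N hNN (fun n => c * m < ct (pr r) n m) ε hε.le (by linarith)
    (fun T hT hlog => by
      have := h1 T hT (hrN.trans hlog) m hm1 hm2
      rw [mul_comm (T * Real.log T / (2 * Real.pi)) ε]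
      exact this)
  rw [ct_eq, ← Icc_Ico]
  rw [two_mul]
  exact g1

/-- all zeros, long runs -/
lemma allM (pr : ℕ → ℕ → Prop) {c : ℝ} (hc : 0 ≤ c) {ε η : ℝ} (hε : 0 < ε) (hε1 : ε ≤ 1) (hη : 0 < η)
    (hη1 : η ≤ 1)
    (hb : ∀ e₁ η₁ : ℝ, 0 < e₁ → e₁ ≤ 1 → 0 < η₁ → η₁ ≤ 1 / 8 → ∀ᶠ r : ℕ in atTop, ∀ T : ℝ, 1 ≤ T →
    r * Real.log r ≤ 2 * Real.log T → ∀ m : ℕ, η₁ * r ≤ m → (m : ℝ) ≤ 2 * η₁ * r →
    (((Finset.Ioc (NZ T) (NZ (2 * T))).filter (fun n => (c + e₁) * m < ct (pr r) n m)).card : ℝ) ≤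
      e₁ * (T * Real.log T / (2 * Real.pi))) :
    ∀ᶠ r : ℕ in atTop, ∀ N : ℕ, 1 ≤ N → r * Real.log r ≤ Real.log N →
    ∀ M : ℕ, η * r ≤ M → M ≤ N →
    ct (fun n => (c + ε) * M < ct (pr r) n M) 1 N ≤ ε * N := by
  classical
  obtain ⟨e₁, he₁⟩ : ∃ e₁ : ℝ, e₁ = ε ^ 2 / 16 := ⟨_, rfl⟩
  have he₁0 : 0 < e₁ := by rw [he₁]; positivity
  have hεε : ε ^ 2 ≤ ε := by
    have : ε ^ 2 ≤ ε * 1 := by rw [sq]; exact mul_le_mul_of_nonneg_left hε1 hε.le
    linarith
  obtain ⟨η₁, hη₁⟩ : ∃ η₁ : ℝ, η₁ = ε * η / 8 := ⟨_, rfl⟩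
  have hη₁0 : 0 < η₁ := by rw [hη₁]; positivity
  have hη₁8 : η₁ ≤ 1 / 8 := by
    rw [hη₁]
    have : ε * η ≤ 1 * 1 := mul_le_mul hε1 hη1 hη.le zero_le_one
    linarith
  have h1 := allN pr (c := c + e₁) (η := η₁) he₁0 (by rw [he₁]; linarith)
    (hb e₁ η₁ he₁0 (by rw [he₁]; linarith) hη₁0 hη₁8)
  filter_upwards [h1, (tendsto_natCast_atTop_atTop (R := ℝ)).eventually_ge_atTop (1 / η₁)]
    with r h2 h3 N hN hrN M hM1 hMN
  have hr0 : (0 : ℝ) < r := lt_of_lt_of_le (by positivity) h3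
  rw [div_le_iff₀ hη₁0] at h3
  obtain ⟨m, hm⟩ : ∃ m : ℕ, m = ⌈η₁ * r⌉₊ := ⟨_, rfl⟩
  have hm1 : η₁ * r ≤ m := by rw [hm]; exact Nat.le_ceil _
  have hm2 : (m : ℝ) ≤ 2 * η₁ * r := by
    have := Nat.ceil_lt_add_one (show 0 ≤ η₁ * r by positivity)
    rw [← hm] at this
    linarith
  have hm0 : 0 < m := by
    have : (0 : ℝ) < m := by linarith
    exact_mod_cast this
  have hMr : (0 : ℝ) < M := lt_of_lt_of_le (by positivity) hM1
  have hM0 : 0 < M := by exact_mod_cast hMr
  have hmM : (m : ℝ) ≤ ε / 4 * M := by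
    have e1 : 2 * η₁ * r = ε / 4 * (η * r) := by rw [hη₁]; ring
    rw [e1] at hm2
    exact hm2.trans (mul_le_mul_of_nonneg_left hM1 (by positivity))
  have h4 := h2 (2 * N) (by omega) (by
    push_cast
    refine hrN.trans (Real.log_le_log (by exact_mod_cast hN) ?_)
    have : (0 : ℝ) ≤ N := Nat.cast_nonneg _
    linarith) m hm1 hm2
  have h5 := markov_runs (fun j => (c + e₁) * m < ct (pr r) j m) (show 0 < ε / 4 by positivity) N M hM0 hMN
  have h6 : ct (fun n => (c + ε) * M < ct (pr r) n M) 1 N ≤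
      ct (fun n => ε / 4 * M < ct (fun j => (c + e₁) * m < ct (pr r) j m) n M) 1 N := by
    refine ct_mono (fun n hn => ?_) 1 N
    by_contra hcon
    push Not at hcon
    have h7 := cover (pr r) (c := c + e₁) (by linarith) n M m hm0
    have h8 : e₁ * M ≤ ε / 16 * M := mul_le_mul_of_nonneg_right (by rw [he₁]; linarith) hMr.le
    have h9 : 0 < ε * M := by positivity
    nlinarith
  refine h6.trans (h5.trans ?_)
  have h10 : 1 / (ε / 4) * ct (fun j => (c + e₁) * m < ct (pr r) j m) 1 (2 * N) ≤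
      1 / (ε / 4) * (2 * e₁ * ((2 * N : ℕ) : ℝ)) := mul_le_mul_of_nonneg_left h4 (by positivity)
  refine h10.trans (le_of_eq ?_)
  rw [he₁]
  push_cast
  field_simp
  ring

end Pool.Agent.R321.QA
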