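import Pool.Agent.R321.QB4

/-! # The normal law along almost all runs -/

set_option autoImplicit false

open Filter Topology MeasureTheory Set

namespace Pool.Agent.R321.QA

open SG (ord NZ)
open Pool.Agent.Y743.CL (gs gs_left gs_right gs_bot gs_top gs_compl Ph Ph_lip Ph_nonneg Ph_le_one Ph_mono
  lm lm_nonneg log_nat Ev)

/-- uniformity of the convergence of distribution functions -/
lemma net_unif (ε : ℝ) (hε : 0 < ε) : ∃ (K h : ℝ) (L : ℕ), ∀ (F : ℝ → ℝ) (M : ℝ), 0 ≤ M →
    (∀ x y, x ≤ y → F x ≤ F y) → (∀ x, 0 ≤ F x) → (∀ x, F x ≤ M) →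
    (∀ i : ℕ, i ≤ L → |F (-K + i * h) - Ph (-K + i * h) * M| ≤ ε / 4 * M) →
    ∀ x, |F x - Ph x * M| ≤ ε * M := by
  obtain ⟨K1, hK1⟩ := gs_bot (show 0 < ε / 4 by positivity)
  obtain ⟨K2, hK2⟩ := gs_top (show 0 < ε / 4 by positivity)
  obtain ⟨K, hK⟩ : ∃ K : ℝ, K = max 1 (max K1 K2) := ⟨_, rfl⟩
  have hK0 : 1 ≤ K := by rw [hK]; exact le_max_left _ _
  have hKb : Ph (-K) ≤ ε / 4 := hK1 K (by rw [hK]; exact (le_max_left _ _).trans (le_max_right _ _))
  have hKt : 1 - Ph K ≤ ε / 4 := by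
    rw [← gs_compl]
    refine le_trans ?_ (hK2 K (by rw [hK]; exact (le_max_right _ _).trans (le_max_right _ _)))
    exact measureReal_mono Set.Ioi_subset_Ici_self
  obtain ⟨L, hL⟩ := exists_nat_ge (8 * K / ε)
  have hLpos : (0 : ℝ) < L := lt_of_lt_of_le (by positivity) hL
  obtain ⟨h, hh⟩ : ∃ h : ℝ, h = 2 * K / L := ⟨_, rfl⟩
  have hh0 : 0 < h := by rw [hh]; positivity
  have hhL : h * L = 2 * K := by rw [hh]; field_simp
  have hhε : h ≤ ε / 4 := by
    rw [hh, div_le_iff₀ hLpos]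
    rw [div_le_iff₀ hε] at hL
    linarith
  refine ⟨K, h, L, fun F N hNr hmono hF0 hcN key x => ?_⟩
  have hεN : 0 ≤ ε * N := by positivity
  rcases le_or_gt x (-K) with h1 | h1
  · have a1 := key 0 (by omega)
    rw [Nat.cast_zero, zero_mul, add_zero] at a1
    have a2 := hmono _ _ h1
    have a3 := Ph_mono h1
    have a4 := Ph_nonneg x
    have a5 := hF0 x
    have a6 := (abs_le.1 a1).2
    have a7 : Ph (-K) * N ≤ ε / 4 * N := mul_le_mul_of_nonneg_right hKb hNr
    have a8 : Ph x * N ≤ ε / 4 * N := mul_le_mul_of_nonneg_right (a3.trans hKb) hNr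
    have a9 : 0 ≤ Ph x * N := by positivity
    rw [abs_le]
    constructor <;> linarith
  rcases le_or_gt K x with h2 | h2
  · have a1 := key L le_rfl
    have e1 : -K + L * h = K := by rw [mul_comm, hhL]; ring
    rw [e1] at a1
    have a2 := hmono _ _ h2
    have a4 := Ph_le_one x
    have a5 := hcN x
    have a6 := (abs_le.1 a1).1
    have a7 : (1 - ε / 4) * N ≤ Ph K * N := mul_le_mul_of_nonneg_right (by linarith) hNr
    have a10 := Ph_mono h2
    have a8 : (1 - ε / 4) * N ≤ Ph x * N := mul_le_mul_of_nonneg_right (by linarith) hNr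
    have a9 : Ph x * N ≤ 1 * N := mul_le_mul_of_nonneg_right a4 hNr
    rw [abs_le]
    constructor <;> nlinarith
  · obtain ⟨i, hi⟩ : ∃ i : ℕ, i = ⌊(x + K) / h⌋₊ := ⟨_, rfl⟩
    have hxK : 0 ≤ (x + K) / h := div_nonneg (by linarith) hh0.le
    have b1 : (i : ℝ) * h ≤ x + K := by
      have := Nat.floor_le hxK
      rw [← hi, le_div_iff₀ hh0] at this
      exact this
    have b2 : x + K < (i + 1) * h := by
      have := Nat.lt_floor_add_one ((x + K) / h)
      rw [← hi, div_lt_iff₀ hh0] at this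
      exact this
    have b3 : i + 1 ≤ L := by
      have : (i : ℝ) * h < L * h := by
        rw [mul_comm (L : ℝ) h, hhL]; linarith
      have := lt_of_mul_lt_mul_right this hh0.le
      exact_mod_cast this
    have a1 := key i (by omega)
    have a2 := key (i + 1) b3
    push_cast at a2
    have c1 : -K + i * h ≤ x := by linarith
    have c2 : x ≤ -K + (i + 1) * h := by linarith
    have d1 := hmono _ _ c1
    have d2 := hmono _ _ c2
    have f1 := Ph_lip c1
    have f2 := Ph_lip c2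
    have g1 : Ph x * N ≤ Ph (-K + i * h) * N + ε / 4 * N := by
      rw [← add_mul]
      exact mul_le_mul_of_nonneg_right (by linarith) hNr
    have g2 : Ph (-K + (i + 1) * h) * N ≤ Ph x * N + ε / 4 * N := by
      rw [← add_mul]
      exact mul_le_mul_of_nonneg_right (by linarith) hNr
    obtain ⟨x1, x2⟩ := abs_le.1 a1
    obtain ⟨x3, x4⟩ := abs_le.1 a2
    rw [abs_le]
    constructor <;> linarith

lemma Ev_mono {x y : ℝ} (h : x ≤ y) {r n : ℕ} (hx : Ev x r n) : Ev y r n := by
  unfold Ev at hx ⊢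
  have := mul_le_mul_of_nonneg_right h (lm_nonneg r)
  linarith

lemma ct_union (L : ℕ) (P Q : ℕ → ℕ → Prop) (R : ℕ → Prop)
    (h : ∀ n, R n → ∃ i < L, P i n ∨ Q i n) (a N : ℕ) :
    ct R a N ≤ ∑ i ∈ Finset.range L, (ct (P i) a N + ct (Q i) a N) := by
  classical
  simp only [ct_sum]
  simp only [← Finset.sum_add_distrib]
  rw [Finset.sum_comm]
  refine Finset.sum_le_sum fun j _ => ?_
  have h0 : ∀ i ∈ Finset.range L, (0 : ℝ) ≤ (if P i (a + j) then (1 : ℝ) else 0) +
      (if Q i (a + j) then (1 : ℝ) else 0) := fun i _ => by positivity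
  by_cases hR : R (a + j)
  · rw [if_pos hR]
    obtain ⟨i, hi, hPQ⟩ := h _ hR
    refine le_trans ?_ (Finset.single_le_sum h0 (Finset.mem_range.2 hi))
    rcases hPQ with h1 | h1
    · rw [if_pos h1]
      split_ifs <;> norm_num
    · rw [if_pos h1]
      split_ifs <;> norm_num
  · rw [if_neg hR]
    exact Finset.sum_nonneg h0

/-- **the normal law along almost all runs** -/
theorem quenched (ε η : ℝ) (hε : 0 < ε) (hε1 : ε ≤ 1) (hη : 0 < η) (hη1 : η ≤ 1) :
    ∀ᶠ r : ℕ in atTop, ∀ N : ℕ, 1 ≤ N → r * Real.log r ≤ Real.log N →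
    ∀ M : ℕ, η * r ≤ M → M ≤ N →
    ct (fun n => ∃ x : ℝ, ε * M < |ct (fun k => Ev x r k) n M - Ph x * M|) 1 N ≤ ε * N := by
  classical
  obtain ⟨K, h, L, hnet⟩ := net_unif ε hε
  obtain ⟨e, he⟩ : ∃ e : ℝ, e = ε / (4 * (L + 1)) := ⟨_, rfl⟩
  have hL0 : (0 : ℝ) ≤ L := Nat.cast_nonneg _
  have he0 : 0 < e := by rw [he]; positivity
  have he4 : e ≤ ε / 4 := by
    rw [he]
    exact div_le_div_of_nonneg_left hε.le (by norm_num) (by linarith)
  have hall : ∀ᶠ r : ℕ in atTop, ∀ i ∈ Finset.range (L + 1), (∀ N : ℕ, 1 ≤ N →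
      r * Real.log r ≤ Real.log N → ∀ M : ℕ, η * r ≤ M → M ≤ N →
      ct (fun n => (Ph (-K + i * h) + e) * M < ct (Ev (-K + i * h) r) n M) 1 N ≤ e * N) ∧
      (∀ N : ℕ, 1 ≤ N →
      r * Real.log r ≤ Real.log N → ∀ M : ℕ, η * r ≤ M → M ≤ N →
      ct (fun n => (1 - Ph (-K + i * h) + e) * M <
        ct (fun k => ¬ Ev (-K + i * h) r k) n M) 1 N ≤ e * N) := by
    rw [Filter.eventually_all_finset]
    intro i _
    refine Filter.Eventually.and ?_ ?_
    · refine allM (fun r => Ev (-K + i * h) r) (Ph_nonneg _) he0 (by linarith) hη hη1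
        fun e₁ η₁ h1 h2 h3 h4 => ?_
      filter_upwards [nearR (-K + i * h) e₁ η₁ h1 h2 h3 h4] with r hr T hT hrT m hm1 hm2
      have := hr T hT hrT m hm1 hm2
      refine le_trans (le_of_eq ?_) this
      norm_cast
    · refine allM (fun r k => ¬ Ev (-K + i * h) r k)
        (by have := Ph_le_one (-K + i * h); linarith) he0 (by linarith) hη hη1
        fun e₁ η₁ h1 h2 h3 h4 => ?_
      filter_upwards [farR (-K + i * h) e₁ η₁ h1 h2 h3 h4] with r hr T hT hrT m hm1 hm2
      have := hr T hT hrT m hm1 hm2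
      refine le_trans (le_of_eq ?_) this
      norm_cast
      congr 1
      refine Finset.filter_congr fun n _ => ?_
      rw [ct_eq]
  filter_upwards [hall] with r hr N hN hrN M hM1 hM2
  have hMr : (0 : ℝ) ≤ M := Nat.cast_nonneg _
  have hNr : (0 : ℝ) ≤ N := Nat.cast_nonneg _
  refine (ct_union (L + 1) (fun i n => (Ph (-K + i * h) + e) * M < ct (Ev (-K + i * h) r) n M)
    (fun i n => (1 - Ph (-K + i * h) + e) * M < ct (fun k => ¬ Ev (-K + i * h) r k) n M) _
    (fun n hn => ?_) 1 N).trans ?_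
  · by_contra hcon
    push Not at hcon
    obtain ⟨x, hx⟩ := hn
    have h1 := hnet (fun x => ct (Ev x r) n M) M hMr
      (fun x y hxy => ct_mono (fun k hk => Ev_mono hxy hk) n M)
      (fun x => ct_nonneg _ _ _) (fun x => ct_le _ _ _) (fun i hi => ?_) x
    · linarith
    · obtain ⟨c1, c2⟩ := hcon i (by omega)
      have c3 := ct_not (Ev (-K + i * h) r) n M
      have c4 : e * M ≤ ε / 4 * M := mul_le_mul_of_nonneg_right he4 hMr
      have c5 : (Ph (-K + i * h) + e) * M = Ph (-K + i * h) * M + e * M := by ring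
      have c6 : (1 - Ph (-K + i * h) + e) * M = M - Ph (-K + i * h) * M + e * M := by ring
      rw [c5] at c1
      rw [c6] at c2
      rw [abs_le]
      constructor <;> linarith
  · have h2 : ∀ i ∈ Finset.range (L + 1),
        ct (fun n => (Ph (-K + i * h) + e) * M < ct (Ev (-K + i * h) r) n M) 1 N +
        ct (fun n => (1 - Ph (-K + i * h) + e) * M < ct (fun k => ¬ Ev (-K + i * h) r k) n M) 1 N ≤
        2 * (e * N) := by
      intro i hi
      have b1 := (hr i hi).1 N hN hrN M hM1 hM2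
      have b2 := (hr i hi).2 N hN hrN M hM1 hM2
      linarith
    refine (Finset.sum_le_sum h2).trans ?_
    rw [Finset.sum_const, Finset.card_range, nsmul_eq_mul, he]
    push_cast
    have e1 : ((L : ℝ) + 1) * (2 * (ε / (4 * (L + 1)) * N)) = ε * N / 2 := by
      field_simp
      ring
    rw [e1]
    have : 0 ≤ ε * N := by positivity
    linarith

end Pool.Agent.R321.QA
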