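import Pool.Agent.R321.QB5

/-! # The second moment -/

set_option autoImplicit false

namespace Pool.Agent.R321.QA

open Filter Topology MeasureTheory Complex FourierTransform ContDiff
open Pool.Agent.Y743.CL (gs Zv Zv_meas)
open Pool.Agent.Y743.NC (dev dev_int)

lemma Zv_dev {a : ℝ} (ha : 1 ≤ Real.log a) (T t : ℝ) :
    Zv a T t ^ 2 = Real.pi ^ 2 / Real.log a * dev T a t := by
  unfold Zv dev
  rw [div_pow, Real.sq_sqrt (by linarith)]
  ring

lemma Zv_sq_ii {a : ℝ} (ha : 1 ≤ Real.log a) (T A B : ℝ) :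
    IntervalIntegrable (fun t => Zv a T t ^ 2) volume A B := by
  have e : (fun t => Zv a T t ^ 2) = fun t => Real.pi ^ 2 / Real.log a * dev T a t := by
    funext t; exact Zv_dev ha T t
  rw [e]
  exact (dev_ii T a A B).const_mul _

variable {lam C : ℝ} {a T : ℕ → ℝ}

/-- the second moment along a sequence -/
lemma SD.var (h : SD lam C a T) (B : ℝ) (hB : 1 ≤ B)
    (haB : ∀ j, a j * Real.log (a j) ≤ B * Real.log (T j)) {ρ : ℝ} (hρ : 0 < ρ) :
    ∀ᶠ j in atTop, ∫ t in (T j)..(2 * T j), Zv (a j) (T j) t ^ 2 ≤ (1 + ρ) * T j := by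
  obtain ⟨C1, T1, hC1, hT1, hnv⟩ := Pool.Agent.TH850.UV.nv2 B hB
  have ev1 := h.Ttop.eventually_ge_atTop T1
  have ev2 : ∀ᶠ j in atTop, (1 + Real.pi ^ 2 * C1) / ρ ≤ Real.log (a j) :=
    h.latop.eventually_ge_atTop _
  filter_upwards [ev1, ev2] with j g1 g2
  have hla := h.la j
  have hL := h.L0 j
  have ha := h.a16 j
  have hTj : 0 < T j := by linarith [h.T10 j]
  have hpi := Real.pi_pos
  obtain ⟨_, h4⟩ := hnv (T j) g1 (a j) (by linarith) (haB j)
  have hh0 : 0 ≤ 2 * Real.pi * a j / Real.log (T j) := by positivity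
  have e1 : ∫ t in (T j)..(2 * T j),
      ((Pool.Agent.TH850.UV.cnt t (2 * Real.pi * a j / Real.log (T j)) : ℝ) - a j) ^ 2 =
      ∫ t in (T j)..(2 * T j), dev (T j) (a j) t := by
    refine intervalIntegral.integral_congr fun t ht => ?_
    rw [Set.uIcc_of_le (by linarith)] at ht
    show ((Pool.Agent.TH850.UV.cnt t (2 * Real.pi * a j / Real.log (T j)) : ℝ) - a j) ^ 2 = _
    rw [Pool.Agent.Y743.LR.cnt_NZ (by linarith [ht.1]) hh0]
    rfl
  rw [e1] at h4
  have h5 := (abs_le.mp h4).2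
  have e2 : ∫ t in (T j)..(2 * T j), Zv (a j) (T j) t ^ 2 =
      Real.pi ^ 2 / Real.log (a j) * ∫ t in (T j)..(2 * T j), dev (T j) (a j) t := by
    rw [← intervalIntegral.integral_const_mul]
    exact intervalIntegral.integral_congr fun t _ => Zv_dev hla _ _
  rw [e2]
  have h6 : Real.log (1 + a j) ≤ Real.log (a j) + 1 := by
    have h7 : Real.log (1 + a j) ≤ Real.log (a j * 2) := Real.log_le_log (by linarith) (by linarith)
    rw [Real.log_mul (by linarith) (by norm_num)] at h7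
    have := Real.log_two_lt_d9
    linarith
  set la := Real.log (a j) with hlad
  have hla0 : 0 < la := by linarith
  rw [div_le_iff₀ hρ] at g2
  have h8 : ∫ t in (T j)..(2 * T j), dev (T j) (a j) t ≤ T j / Real.pi ^ 2 * (la + 1) + C1 * T j := by
    have : T j / Real.pi ^ 2 * Real.log (1 + a j) ≤ T j / Real.pi ^ 2 * (la + 1) :=
      mul_le_mul_of_nonneg_left h6 (by positivity)
    linarith
  calc Real.pi ^ 2 / la * ∫ t in (T j)..(2 * T j), dev (T j) (a j) t ≤
      Real.pi ^ 2 / la * (T j / Real.pi ^ 2 * (la + 1) + C1 * T j) :=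
        mul_le_mul_of_nonneg_left h8 (by positivity)
    _ = (1 + (1 + Real.pi ^ 2 * C1) / la) * T j := by field_simp; ring
    _ ≤ (1 + ρ) * T j := by
        apply mul_le_mul_of_nonneg_right _ hTj.le
        have : (1 + Real.pi ^ 2 * C1) / la ≤ ρ := by
          rw [div_le_iff₀ hla0]
          linarith
        linarith

/-- truncated squares -/
lemma sqbump (δ : ℝ) (hδ : 0 < δ) : ∃ (M : ℝ) (f : ℝ → ℝ) (g : ℝ → ℂ), 1 ≤ M ∧ Continuous f ∧
    Continuous g ∧ Integrable g ∧ (∀ x, 0 ≤ f x) ∧ (∀ x, f x ≤ 1) ∧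
    (∀ x, M * f x ≤ x ^ 2) ∧
    (∀ x : ℝ, (f x : ℂ) = ∫ s, g s * cexp (I * ((2 * Real.pi * s * x : ℝ) : ℂ))) ∧
    1 - δ ≤ M * ∫ x, f x ∂gs := by
  have hb : ∀ n : ℕ, ∃ b : ContDiffBump (0 : ℝ), b.rIn = n + 1 ∧ b.rOut = n + 2 := fun n =>
    ⟨⟨n + 1, n + 2, by positivity, by linarith⟩, rfl, rfl⟩
  choose b hb1 hb2 using hb
  have hsq : Integrable (fun x : ℝ => x ^ 2) gs := by
    have := (ProbabilityTheory.memLp_id_gaussianReal (μ := 0) (v := 1) 2).integrable_sq
    simpa using this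
  have hval : ∫ x, x ^ 2 ∂gs = 1 := by
    have h1 := ProbabilityTheory.variance_id_gaussianReal (μ := 0) (v := 1)
    have h2 := ProbabilityTheory.variance_of_integral_eq_zero (X := (id : ℝ → ℝ)) (μ := gs)
      aemeasurable_id (by
        have := ProbabilityTheory.integral_id_gaussianReal (μ := 0) (v := 1)
        simpa using this)
    rw [h2] at h1
    simpa using h1
  have hlim : Tendsto (fun n : ℕ => ∫ x, x ^ 2 * b n x ∂gs) atTop (𝓝 (∫ x, x ^ 2 ∂gs)) := by
    refine tendsto_integral_of_dominated_convergence (fun x => x ^ 2) (fun n => ?_) hsq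
      (fun n => Eventually.of_forall fun x => ?_) (Eventually.of_forall fun x => ?_)
    · exact ((continuous_pow 2).mul (b n).continuous).aestronglyMeasurable
    · rw [Real.norm_eq_abs, abs_of_nonneg (mul_nonneg (sq_nonneg _) (b n).nonneg)]
      exact mul_le_of_le_one_right (sq_nonneg _) (b n).le_one
    · refine tendsto_const_nhds.congr' ?_
      obtain ⟨N, hN⟩ := exists_nat_ge |x|
      filter_upwards [eventually_ge_atTop N] with n hn
      have hn' : (N : ℝ) ≤ n := by exact_mod_cast hn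
      rw [(b n).one_of_mem_closedBall, mul_one]
      rw [Metric.mem_closedBall, Real.dist_eq, sub_zero, hb1]
      linarith
  rw [hval] at hlim
  obtain ⟨n, hn⟩ := (hlim.eventually_const_le (show 1 - δ < 1 by linarith)).exists
  set M : ℝ := (n + 2) ^ 2 with hM
  have hn0 : (0 : ℝ) ≤ n := Nat.cast_nonneg n
  have hM1 : 1 ≤ M := by rw [hM]; nlinarith
  have hM0 : 0 < M := by linarith
  have hsupp : ∀ x : ℝ, (n + 2 : ℝ) ≤ |x| → b n x = 0 := by
    intro x hx
    by_contra hne
    have hm : x ∈ Function.support (b n) := hne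
    rw [(b n).support_eq, Metric.mem_ball, Real.dist_eq, sub_zero, hb2] at hm
    linarith
  have hF2 : ContDiff ℝ ∞ fun x : ℝ => ((1 / M * (x ^ 2 * b n x) : ℝ) : ℂ) :=
    Complex.ofRealCLM.contDiff.comp (contDiff_const.mul ((contDiff_id.pow 2).mul (b n).contDiff))
  have hF1 : HasCompactSupport fun x : ℝ => ((1 / M * (x ^ 2 * b n x) : ℝ) : ℂ) := by
    refine HasCompactSupport.intro (K := Metric.closedBall 0 (n + 2)) (isCompact_closedBall _ _) ?_
    intro x hx
    rw [Metric.mem_closedBall, Real.dist_eq, sub_zero, not_le] at hx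
    rw [hsupp x hx.le]
    simp
  let S : SchwartzMap ℝ ℂ := hF1.toSchwartzMap hF2
  have hinv : ∀ x : ℝ, ((1 / M * (x ^ 2 * b n x) : ℝ) : ℂ) = 𝓕⁻ (𝓕 (S : ℝ → ℂ)) x := by
    intro x
    rw [Continuous.fourierInv_fourier_eq S.continuous S.integrable]
    · rfl
    · exact (𝓕 S).integrable
  refine ⟨M, fun x => 1 / M * (x ^ 2 * b n x), 𝓕 (S : ℝ → ℂ), hM1,
    continuous_const.mul ((continuous_pow 2).mul (b n).continuous), (𝓕 S).continuous,
    (𝓕 S).integrable, fun x => ?_, fun x => ?_, fun x => ?_, fun x => ?_, ?_⟩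
  · exact mul_nonneg (by positivity) (mul_nonneg (sq_nonneg _) (b n).nonneg)
  · rcases le_total ((n : ℝ) + 2) |x| with hx | hx
    · simp only [hsupp x hx]; norm_num
    · have h1 : x ^ 2 ≤ M := by
        rw [hM, ← sq_abs x]
        exact pow_le_pow_left₀ (abs_nonneg _) hx 2
      have h2 : x ^ 2 * b n x ≤ M * 1 :=
        mul_le_mul h1 (b n).le_one (b n).nonneg hM0.le
      calc 1 / M * (x ^ 2 * b n x) ≤ 1 / M * (M * 1) := mul_le_mul_of_nonneg_left h2 (by positivity)
        _ = 1 := by field_simp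
  · have h2 : x ^ 2 * b n x ≤ x ^ 2 := mul_le_of_le_one_right (sq_nonneg _) (b n).le_one
    calc M * (1 / M * (x ^ 2 * b n x)) = x ^ 2 * b n x := by field_simp
      _ ≤ x ^ 2 := h2
  · rw [hinv x, Real.fourierInv_eq']
    refine integral_congr_ae (Eventually.of_forall fun s => ?_)
    simp only
    rw [smul_eq_mul, mul_comm]
    congr 2
    have e : inner ℝ s x = x * s := by simp
    rw [e]
    push_cast
    ring
  · rw [integral_const_mul, ← mul_assoc, mul_one_div_cancel hM0.ne', one_mul]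
    exact hn

end Pool.Agent.R321.QA
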