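import Pool.Agent.R321.QC0

/-! # The mean square over short windows -/

set_option autoImplicit false

namespace Pool.Agent.R321.QA

open Filter Topology MeasureTheory Complex
open Pool.Agent.Y743.CL (gs Zv Zv_meas)

/-- the mean of the square of the normalised deviation over a window -/
noncomputable def Aw (a T w t : ℝ) : ℝ := 1 / w * ∫ y in t..(t + w), Zv a T y ^ 2

lemma Aw_cont {a : ℝ} (ha : 1 ≤ Real.log a) (T w : ℝ) : Continuous (Aw a T w) :=
  continuous_const.mul (win_cont (Zv_sq_ii ha T) w)

/-- the pointwise bound -/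
lemma Aw_le {a : ℝ} (ha : 1 ≤ Real.log a) {M : ℝ} {f : ℝ → ℝ} (hM : 1 ≤ M) (hfc : Continuous f)
    (h0 : ∀ x, 0 ≤ f x) (h1 : ∀ x, f x ≤ 1) (hf : ∀ x, M * f x ≤ x ^ 2) {K : ℕ} (hK : 1 ≤ K)
    (T m t c : ℝ) (hw : 0 < hs m T) (hc : c = M * ∫ x, f x ∂gs) :
    |Aw a T (hs m T) t - 1| ≤ 1 / hs m T * (∫ y in t..(t + hs m T), (Zv a T y ^ 2 - M * f (Zv a T y))) +
      M * (K / hs m T * ∫ y in t..(t + hs m T / K), |Qf f K a T m y|) + |c - 1| := by
  have hK0 : (0 : ℝ) < K := by exact_mod_cast hK
  set w := hs m T with hwd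
  have hfm : Measurable fun y => f (Zv a T y) := hfc.measurable.comp (Zv_meas a T)
  have hfi : ∀ A B, IntervalIntegrable (fun y => f (Zv a T y)) volume A B := fun A B =>
    (intervalIntegrable_const (c := (1 : ℝ))).mono_fun' hfm.aestronglyMeasurable
      (Eventually.of_forall fun t => by
        show ‖f (Zv a T t)‖ ≤ 1
        rw [Real.norm_eq_abs, abs_of_nonneg (h0 _)]
        exact h1 _)
  have hQi : ∀ A B, IntervalIntegrable (Qf f K a T m) volume A B := fun A B =>
    (intervalIntegrable_const (c := (1 : ℝ))).mono_fun' (Qf_meas hfc K a T m).aestronglyMeasurable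
      (Eventually.of_forall fun t => by
        show ‖Qf f K a T m t‖ ≤ 1
        rw [Real.norm_eq_abs]
        exact Qf_bd hfc h0 h1 hK _ _ _ _)
  have e2 : ∀ y, ∑ k ∈ Finset.range K, f (Zv a T (y + k * (w / K))) =
      K * (Qf f K a T m y + ∫ x, f x ∂gs) := by
    intro y
    unfold Qf
    have e3 : ∀ k : ℕ, hs (k * m / K) T = k * (w / K) := fun k => hs_mul k K m T
    simp only [e3]
    rw [sub_add_cancel, ← mul_assoc, mul_one_div_cancel hK0.ne', one_mul]
  have e4 : ∫ y in t..(t + w), f (Zv a T y) =
      K * (∫ y in t..(t + w / K), Qf f K a T m y) + w * ∫ x, f x ∂gs := by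
    rw [split_win hfi hK]
    simp only [e2]
    rw [intervalIntegral.integral_const_mul, intervalIntegral.integral_add (hQi _ _)
      intervalIntegrable_const, intervalIntegral.integral_const, smul_eq_mul, add_sub_cancel_left]
    field_simp
  have e5 : ∫ y in t..(t + w), (Zv a T y ^ 2 - M * f (Zv a T y)) =
      (∫ y in t..(t + w), Zv a T y ^ 2) - M * ∫ y in t..(t + w), f (Zv a T y) := by
    rw [intervalIntegral.integral_sub (Zv_sq_ii ha T _ _) ((hfi _ _).const_mul _),
      intervalIntegral.integral_const_mul]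
  have h5 : 0 ≤ ∫ y in t..(t + w), (Zv a T y ^ 2 - M * f (Zv a T y)) :=
    intervalIntegral.integral_nonneg (by linarith) fun y _ => by linarith [hf (Zv a T y)]
  have e6 : Aw a T w t - 1 = 1 / w * (∫ y in t..(t + w), (Zv a T y ^ 2 - M * f (Zv a T y))) +
      M * (K / w * ∫ y in t..(t + w / K), Qf f K a T m y) + (c - 1) := by
    rw [e5, e4, hc]
    unfold Aw
    field_simp
    ring
  rw [e6]
  refine (abs_add_le _ _).trans ?_
  apply add_le_add_left
  refine (abs_add_le _ _).trans ?_
  have h7 := intervalIntegral.abs_integral_le_integral_abs (f := Qf f K a T m) (μ := volume)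
      (show t ≤ t + w / K by have : 0 < w / K := by positivity
                             linarith)
  apply add_le_add
  · rw [abs_of_nonneg (mul_nonneg (by positivity) h5)]
  · rw [abs_mul, abs_mul, abs_of_pos (by linarith : 0 < M), abs_of_pos (by positivity : 0 < (K : ℝ) / w)]
    exact mul_le_mul_of_nonneg_left (mul_le_mul_of_nonneg_left h7 (by positivity)) (by linarith)

variable {lam C : ℝ} {a T : ℕ → ℝ}

/-- **the mean square over short windows, along a sequence** -/
theorem seq_var (h : SD lam C a T) (B : ℝ) (hB : 1 ≤ B)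
    (haB : ∀ j, a j * Real.log (a j) ≤ B * Real.log (T j)) {ε : ℝ} (hε : 0 < ε) {η : ℝ} (hη : 0 < η)
    (m : ℕ → ℝ) (hm1 : ∀ j, η * a j ≤ m j) (hm2 : ∀ j, m j ≤ a j / 2) :
    ∀ᶠ j in atTop, ∫ t in (T j)..(2 * T j - hs (m j) (T j)),
      |Aw (a j) (T j) (hs (m j) (T j)) t - 1| ≤ ε * T j := by
  obtain ⟨M, f, g, hM, hfc, hgc, hgi, h0, h1, hf, hfg, hcf⟩ := sqbump (ε / 16) (by positivity)
  have hM0 : 0 < M := by linarith
  set c : ℝ := M * ∫ x, f x ∂gs with hc
  set I : ℝ := ∫ s, ‖g s‖ with hI
  have hI0 : 0 ≤ I := integral_nonneg fun _ => norm_nonneg _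
  set d : ℝ := ε / (32 * M) with hd
  have hd0 : 0 < d := by positivity
  obtain ⟨e, he, he2⟩ : ∃ e : ℝ, 0 < e ∧ e / 2 * I ≤ d / 3 := by
    refine ⟨2 * d / (3 * (I + 1)), by positivity, ?_⟩
    rw [div_div, div_mul_eq_mul_div, div_le_div_iff₀ (by positivity) (by norm_num)]
    nlinarith [mul_nonneg hI0 hd0.le]
  obtain ⟨K, hK, hK2⟩ : ∃ K : ℕ, 1 ≤ K ∧ 1 / (2 * e) * (I / K) ≤ d / 3 := by
    obtain ⟨K, hK⟩ := exists_nat_ge (max 1 (1 / (2 * e) * I * (3 / d)))
    have hK1 : (1 : ℝ) ≤ K := (le_max_left _ _).trans hK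
    refine ⟨K, by exact_mod_cast hK1, ?_⟩
    have h2 := (le_max_right _ _).trans hK
    rw [← mul_div_assoc, div_le_iff₀ (by linarith)]
    calc 1 / (2 * e) * I = (d / 3) * (1 / (2 * e) * I * (3 / d)) := by field_simp
      _ ≤ _ := mul_le_mul_of_nonneg_left h2 (by positivity)
  have hK0 : (0 : ℝ) < K := by exact_mod_cast hK
  have hev := avg_f hfc h0 h1 hgc hgi hfg h hη m hm1 hm2 hK he (show 0 < d / 3 by positivity)
  have hev1 := h.var B hB haB (show 0 < ε / 16 by positivity)
  have hev2 : ∀ᶠ j in atTop, M * 7 / T j ≤ ε / 16 :=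
    ((tendsto_const_nhds (x := M * 7)).div_atTop h.Ttop).eventually_le_const (by positivity)
  -- the constant is close to 1
  have hsq : Integrable (fun x : ℝ => x ^ 2) gs := by
    have := (ProbabilityTheory.memLp_id_gaussianReal (μ := 0) (v := 1) 2).integrable_sq
    simpa using this
  have hval : ∫ x, x ^ 2 ∂gs = 1 := by
    have h1 := ProbabilityTheory.variance_id_gaussianReal (μ := 0) (v := 1)
    have h2 := ProbabilityTheory.variance_of_integral_eq_zero (X := (id : ℝ → ℝ)) (μ := gs)
      aemeasurable_id (by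
        have := ProbabilityTheory.integral_id_gaussianReal (μ := 0) (v := 1)
        simpa using this)
    rw [h2] at h1
    simpa using h1
  have hc1 : c ≤ 1 := by
    rw [hc, ← integral_const_mul, ← hval]
    refine integral_mono_of_nonneg (Eventually.of_forall fun x => mul_nonneg hM0.le (h0 x)) hsq
      (Eventually.of_forall fun x => hf x)
  have hcabs : |c - 1| ≤ ε / 16 := by
    rw [abs_le]; constructor <;> linarith
  filter_upwards [hev, hev1, hev2] with j g1 g3 g2
  have hTj : 0 < T j := by linarith [h.T10 j]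
  have hL := h.L0 j
  have hla := h.la j
  have ha := h.a16 j
  have hpi := Real.pi_pos
  have hm0 : 0 < m j := lt_of_lt_of_le (by positivity) (hm1 j)
  set w := hs (m j) (T j) with hw
  have hw0 : 0 < w := by rw [hw]; unfold hs; positivity
  have hw7 : w ≤ 7 := by
    refine le_trans ?_ (h.h7 j)
    rw [hw]; unfold hs
    have := hm2 j
    gcongr
    linarith
  have hTw : w ≤ T j / 2 := by
    have := h.Tlog j
    have h3 := h.L0 j
    linarith
  have hwK0 : 0 < w / K := by positivity
  have hwK : w / K ≤ w := by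
    apply div_le_self hw0.le
    exact_mod_cast hK
  have hQm : Measurable (fun t => |Qf f K (a j) (T j) (m j) t|) := (Qf_meas hfc _ _ _ _).abs
  have hQi : ∀ A B, IntervalIntegrable (fun t => |Qf f K (a j) (T j) (m j) t|) volume A B := fun A B =>
    (intervalIntegrable_const (c := (1 : ℝ))).mono_fun' hQm.aestronglyMeasurable
      (Eventually.of_forall fun t => by
        show ‖|Qf f K (a j) (T j) (m j) t|‖ ≤ 1
        rw [Real.norm_eq_abs, abs_abs]
        exact Qf_bd hfc h0 h1 hK _ _ _ _)
  have hQi' : ∀ A B, IntervalIntegrable (fun t => Qf f K (a j) (T j) (m j) t) volume A B := fun A B =>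
    (intervalIntegrable_const (c := (1 : ℝ))).mono_fun' (Qf_meas hfc K _ _ _).aestronglyMeasurable
      (Eventually.of_forall fun t => by
        show ‖Qf f K (a j) (T j) (m j) t‖ ≤ 1
        rw [Real.norm_eq_abs]
        exact Qf_bd hfc h0 h1 hK _ _ _ _)
  have hfm : Measurable fun y => f (Zv (a j) (T j) y) := hfc.measurable.comp (Zv_meas _ _)
  have hfi : ∀ A B, IntervalIntegrable (fun y => f (Zv (a j) (T j) y)) volume A B := fun A B =>
    (intervalIntegrable_const (c := (1 : ℝ))).mono_fun' hfm.aestronglyMeasurable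
      (Eventually.of_forall fun t => by
        show ‖f (Zv (a j) (T j) t)‖ ≤ 1
        rw [Real.norm_eq_abs, abs_of_nonneg (h0 _)]
        exact h1 _)
  have hDi : ∀ A B, IntervalIntegrable (fun y => Zv (a j) (T j) y ^ 2 - M * f (Zv (a j) (T j) y))
      volume A B := fun A B => (Zv_sq_ii hla _ _ _).sub ((hfi A B).const_mul _)
  have hD0 : ∀ y, 0 ≤ Zv (a j) (T j) y ^ 2 - M * f (Zv (a j) (T j) y) := fun y => by
    linarith [hf (Zv (a j) (T j) y)]
  have hTT : T j ≤ 2 * T j - w := by linarith
  -- the mean of |Q|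
  have b4 : ∫ y in (T j)..(2 * T j), |Qf f K (a j) (T j) (m j) y| ≤ d * T j := by
    have : (1 / T j) * ∫ y in (T j)..(2 * T j), |Qf f K (a j) (T j) (m j) y| ≤ d := by
      refine g1.trans ?_
      linarith
    rw [div_mul_eq_mul_div, one_mul, div_le_iff₀ hTj] at this
    exact this
  -- the mean of f
  have b5 : (c - M * d) * T j - M * 7 ≤ M * ∫ y in (T j)..(2 * T j), f (Zv (a j) (T j) y) := by
    have c1 : -(d * T j) ≤ ∫ y in (T j)..(2 * T j), Qf f K (a j) (T j) (m j) y := by
      have := intervalIntegral.abs_integral_le_integral_abs (f := Qf f K (a j) (T j) (m j)) (μ := volume)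
        (show T j ≤ 2 * T j by linarith)
      have := (neg_abs_le _).trans' (neg_le_neg (this.trans b4))
      linarith
    have c2 : ∫ y in (T j)..(2 * T j), Qf f K (a j) (T j) (m j) y =
        1 / (K : ℝ) * ∑ k ∈ Finset.range K, (∫ y in (T j)..(2 * T j),
          f (Zv (a j) (T j) (y + hs (k * m j / K) (T j)))) - T j * ∫ x, f x ∂gs := by
      unfold Qf
      have hi : ∀ k : ℕ, IntervalIntegrable (fun y => f (Zv (a j) (T j) (y + hs (k * m j / K) (T j))))
          volume (T j) (2 * T j) := fun k => by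
        have := (hfi (T j + hs (k * m j / K) (T j)) (2 * T j + hs (k * m j / K) (T j))).comp_add_right
          (hs (k * m j / K) (T j))
        simpa using this
      have hS : IntervalIntegrable (fun y => ∑ k ∈ Finset.range K,
          f (Zv (a j) (T j) (y + hs (k * m j / K) (T j)))) volume (T j) (2 * T j) := by
        have := IntervalIntegrable.sum (Finset.range K) (fun k _ => hi k)
        refine this.congr ?_
        intro y _
        simp [Finset.sum_apply]
      rw [intervalIntegral.integral_sub (hS.const_mul _)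
        intervalIntegrable_const, intervalIntegral.integral_const_mul,
        intervalIntegral.integral_finset_sum (fun k _ => hi k), intervalIntegral.integral_const,
        smul_eq_mul, show 2 * T j - T j = T j by ring]
    have c3 : ∀ k ∈ Finset.range K, ∫ y in (T j)..(2 * T j),
        f (Zv (a j) (T j) (y + hs (k * m j / K) (T j))) ≤ (∫ y in (T j)..(2 * T j), f (Zv (a j) (T j) y)) + 7 := by
      intro k hk
      rw [Finset.mem_range] at hk
      have hk' : (k : ℝ) ≤ K := by exact_mod_cast hk.le
      have hy0 : 0 ≤ hs (k * m j / K) (T j) := by unfold hs; positivity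
      have hy7 : hs (k * m j / K) (T j) ≤ 7 := by
        rw [hs_mul, ← hw]
        calc (k : ℝ) * (w / K) = (k / K) * w := by ring
          _ ≤ 1 * w := mul_le_mul_of_nonneg_right (by rw [div_le_one hK0]; exact hk') hw0.le
          _ ≤ 7 := by linarith
      rw [intervalIntegral.integral_comp_add_right (fun y => f (Zv (a j) (T j) y))]
      set y0 := hs (k * m j / K) (T j) with hy0d
      have c4 := intervalIntegral.integral_add_adjacent_intervals
        (hfi (T j) (T j + y0)) (hfi (T j + y0) (2 * T j + y0))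
      have c5 := intervalIntegral.integral_add_adjacent_intervals
        (hfi (T j) (2 * T j)) (hfi (2 * T j) (2 * T j + y0))
      have c6 : 0 ≤ ∫ y in (T j)..(T j + y0), f (Zv (a j) (T j) y) :=
        intervalIntegral.integral_nonneg (by linarith) fun y _ => h0 _
      have c7 : ∫ y in (2 * T j)..(2 * T j + y0), f (Zv (a j) (T j) y) ≤ 7 := by
        have := intervalIntegral.norm_integral_le_of_norm_le_const (a := 2 * T j)
          (b := 2 * T j + y0) (C := 1) (f := fun y => f (Zv (a j) (T j) y)) (fun t _ => by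
            rw [Real.norm_eq_abs, abs_of_nonneg (h0 _)]; exact h1 _)
        rw [add_sub_cancel_left, abs_of_nonneg hy0, one_mul] at this
        have := (le_abs_self _).trans this
        linarith
      linarith
    have c8 := Finset.sum_le_sum c3
    rw [Finset.sum_const, Finset.card_range, nsmul_eq_mul] at c8
    have c9 := mul_le_mul_of_nonneg_left c8 (show (0 : ℝ) ≤ 1 / K by positivity)
    rw [← mul_assoc, one_div_mul_cancel hK0.ne', one_mul] at c9
    rw [c2] at c1
    have c10 : T j * (∫ x, f x ∂gs) - d * T j - 7 ≤ ∫ y in (T j)..(2 * T j), f (Zv (a j) (T j) y) := by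
      linarith
    have c11 := mul_le_mul_of_nonneg_left c10 hM0.le
    refine le_trans (le_of_eq ?_) c11
    rw [hc]
    ring
  -- integrate the pointwise bound
  have hAi : IntervalIntegrable (fun t => |Aw (a j) (T j) w t - 1|) volume (T j) (2 * T j - w) :=
    ((Aw_cont hla (T j) w).sub continuous_const).abs.intervalIntegrable _ _
  have hW1 : Continuous fun t => ∫ y in t..(t + w), (Zv (a j) (T j) y ^ 2 - M * f (Zv (a j) (T j) y)) :=
    win_cont hDi w
  have hW2 : Continuous fun t => ∫ y in t..(t + w / K), |Qf f K (a j) (T j) (m j) y| :=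
    win_cont hQi (w / K)
  have k1 : ∫ t in (T j)..(2 * T j - w), |Aw (a j) (T j) w t - 1| ≤
      ∫ t in (T j)..(2 * T j - w), (1 / w * (∫ y in t..(t + w),
        (Zv (a j) (T j) y ^ 2 - M * f (Zv (a j) (T j) y))) +
      M * (K / w * ∫ y in t..(t + w / K), |Qf f K (a j) (T j) (m j) y|) + |c - 1|) := by
    refine intervalIntegral.integral_mono_on hTT hAi ?_ fun t _ =>
      Aw_le hla hM hfc h0 h1 hf hK (T j) (m j) t c (by rw [← hw]; exact hw0) hc
    exact (((continuous_const.mul hW1).add (continuous_const.mul (continuous_const.mul hW2))).add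
      continuous_const).intervalIntegrable _ _
  have iW1 : IntervalIntegrable (fun t => 1 / w * ∫ y in t..(t + w),
      (Zv (a j) (T j) y ^ 2 - M * f (Zv (a j) (T j) y))) volume (T j) (2 * T j - w) :=
    (continuous_const.mul hW1).intervalIntegrable _ _
  have iW2 : IntervalIntegrable (fun t => M * (K / w * ∫ y in t..(t + w / K),
      |Qf f K (a j) (T j) (m j) y|)) volume (T j) (2 * T j - w) :=
    (continuous_const.mul (continuous_const.mul hW2)).intervalIntegrable _ _
  rw [intervalIntegral.integral_add (iW1.add iW2) intervalIntegrable_const,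
    intervalIntegral.integral_add iW1 iW2,
    intervalIntegral.integral_const_mul, intervalIntegral.integral_const_mul,
    intervalIntegral.integral_const_mul, intervalIntegral.integral_const, smul_eq_mul] at k1
  have k2 := win_int hDi hD0 hw0.le hTT
  have k3 := win_int hQi (fun t => abs_nonneg _) hwK0.le hTT
  rw [sub_add_cancel] at k2
  have k4 : ∫ y in (T j)..(2 * T j - w + w / K), |Qf f K (a j) (T j) (m j) y| ≤ d * T j := by
    refine le_trans ?_ b4
    apply intervalIntegral.integral_mono_interval le_rfl (by linarith) (by linarith)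
      (Eventually.of_forall fun t => abs_nonneg _) (hQi _ _)
  have k5 : ∫ y in (T j)..(2 * T j), (Zv (a j) (T j) y ^ 2 - M * f (Zv (a j) (T j) y)) ≤
      (1 + ε / 16) * T j - ((c - M * d) * T j - M * 7) := by
    rw [intervalIntegral.integral_sub (Zv_sq_ii hla _ _ _) ((hfi _ _).const_mul _),
      intervalIntegral.integral_const_mul]
    linarith
  have k6 : 1 / w * ∫ t in (T j)..(2 * T j - w), (∫ y in t..(t + w),
        (Zv (a j) (T j) y ^ 2 - M * f (Zv (a j) (T j) y))) ≤
      (1 + ε / 16) * T j - ((c - M * d) * T j - M * 7) := by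
    refine (mul_le_mul_of_nonneg_left k2 (by positivity)).trans ?_
    rw [← mul_assoc, one_div_mul_cancel hw0.ne', one_mul]
    exact k5
  have k7 : M * (K / w * ∫ t in (T j)..(2 * T j - w), (∫ y in t..(t + w / K),
      |Qf f K (a j) (T j) (m j) y|)) ≤ M * (d * T j) := by
    apply mul_le_mul_of_nonneg_left _ hM0.le
    refine (mul_le_mul_of_nonneg_left k3 (by positivity)).trans ?_
    have : (K : ℝ) / w * (w / K * ∫ y in (T j)..(2 * T j - w + w / K), |Qf f K (a j) (T j) (m j) y|) =
      ∫ y in (T j)..(2 * T j - w + w / K), |Qf f K (a j) (T j) (m j) y| := by field_simp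
    rw [this]
    exact k4
  have k8 : (2 * T j - w - T j) * |c - 1| ≤ T j * (ε / 16) :=
    mul_le_mul (by linarith) hcabs (abs_nonneg _) hTj.le
  have k9 : M * 7 ≤ ε / 16 * T j := by rwa [div_le_iff₀ hTj] at g2
  have k10 : M * d = ε / 32 := by rw [hd]; field_simp
  have k11 : M * (d * T j) = ε / 32 * T j := by rw [← mul_assoc, k10]
  rw [k11] at k7
  rw [k10] at k6
  have k12 : 1 - ε / 16 ≤ c := hcf
  have k13 : (1 - ε / 16) * T j ≤ c * T j := mul_le_mul_of_nonneg_right k12 hTj.le
  nlinarith [mul_pos hε hTj]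

end Pool.Agent.R321.QA
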