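import Pool.Agent.R321.QC1

/-! # The local number variance -/

set_option autoImplicit false

namespace Pool.Agent.R321.QA

open Filter Topology MeasureTheory Complex
open Pool.Agent.Y743.CL (gs Zv Zv_meas)
open Pool.Agent.Y743.NC (dev dev_int)

/-- **the mean square over short windows** -/
theorem loc_var (B : ℝ) (hB : 1 ≤ B) {ε η : ℝ} (hε : 0 < ε) (hη : 0 < η) :
    ∃ R : ℝ, 16 ≤ R ∧ ∀ a T m : ℝ, R ≤ a → 1 ≤ T → a * Real.log a ≤ B * Real.log T →
    η * a ≤ m → m ≤ a / 2 →
    ∫ t in T..(2 * T - hs m T), |Aw a T (hs m T) t - 1| ≤ ε * T := by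
  obtain ⟨A0, lam, C, hA0, hseq⟩ := sd_mk B hB
  by_contra hcon
  push Not at hcon
  have hch : ∀ j : ℕ, ∃ x : ℝ × ℝ × ℝ, A0 + j ≤ x.1 ∧ 1 ≤ x.2.1 ∧
      x.1 * Real.log x.1 ≤ B * Real.log x.2.1 ∧ η * x.1 ≤ x.2.2 ∧ x.2.2 ≤ x.1 / 2 ∧
      ε * x.2.1 < ∫ t in x.2.1..(2 * x.2.1 - hs x.2.2 x.2.1), |Aw x.1 x.2.1 (hs x.2.2 x.2.1) t - 1| := by
    intro j
    obtain ⟨a, T, m, h1, h2, h3, h4, h5, h6⟩ := hcon (A0 + j)
      (by have : (0 : ℝ) ≤ j := Nat.cast_nonneg j; linarith)
    exact ⟨(a, T, m), h1, h2, h3, h4, h5, h6⟩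
  choose x hx using hch
  have hsd := hseq (fun j => (x j).1) (fun j => (x j).2.1)
    (fun j => by
      have : (0 : ℝ) ≤ j := Nat.cast_nonneg j
      have := (hx j).1
      linarith) (fun j => (hx j).2.1)
    (tendsto_atTop_mono (fun j => by have := (hx j).1; linarith) tendsto_natCast_atTop_atTop)
    (fun j => (hx j).2.2.1)
  have h := seq_var hsd B hB (fun j => (hx j).2.2.1) hε hη (fun j => (x j).2.2)
    (fun j => (hx j).2.2.2.1) (fun j => (hx j).2.2.2.2.1)
  obtain ⟨j, hj⟩ := h.exists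
  exact absurd (hx j).2.2.2.2.2 (not_lt.2 hj)

/-- the mean over a window in terms of the means over its parts -/
lemma Aw_split {a : ℝ} (ha : 1 ≤ Real.log a) (T w t : ℝ) {n : ℕ} (hn : 1 ≤ n) :
    Aw a T (n * w) t = 1 / (n : ℝ) * ∑ i ∈ Finset.range n, Aw a T w (t + i * w) := by
  have hn0 : (0 : ℝ) < n := by exact_mod_cast hn
  unfold Aw
  have h1 := intervalIntegral.sum_integral_adjacent_intervals (f := fun y => Zv a T y ^ 2) (μ := volume)
    (a := fun k : ℕ => t + k * w) (n := n) (fun k _ => Zv_sq_ii ha T _ _)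
  have e1 : t + ((0 : ℕ) : ℝ) * w = t := by simp
  rw [e1] at h1
  rw [← h1, ← Finset.mul_sum, ← mul_assoc]
  have e2 : ∀ k : ℕ, t + ((k + 1 : ℕ) : ℝ) * w = t + k * w + w := by
    intro k; push_cast; ring
  simp only [e2]
  congr 1
  rw [one_div, one_div, one_div, mul_inv]

/-- **the mean square over windows of any length** -/
theorem all_var (B : ℝ) (hB : 1 ≤ B) {ε η : ℝ} (hε : 0 < ε) (hη : 0 < η) :
    ∃ R : ℝ, 16 ≤ R ∧ ∀ a T W : ℝ, R ≤ a → 1 < T → a * Real.log a ≤ B * Real.log T →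
    η * (2 * Real.pi * a / Real.log T) ≤ W → W ≤ T →
    ∫ t in T..(2 * T - W), |Aw a T W t - 1| ≤ ε * T := by
  set η' : ℝ := min η (1 / 4) with hη'
  have hη0 : 0 < η' := lt_min hη (by norm_num)
  obtain ⟨R, hR, h⟩ := loc_var B hB hε hη0
  refine ⟨R, hR, fun a T W ha hT haB hW hWT => ?_⟩
  have hL : 0 < Real.log T := Real.log_pos hT
  have hpi := Real.pi_pos
  have ha0 : 0 < a := by linarith
  have hla : 1 ≤ Real.log a := by
    rw [Real.le_log_iff_exp_le ha0]
    have := Real.exp_one_lt_d9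
    linarith
  have hη1 : η' ≤ η := min_le_left _ _
  have hη4 : η' ≤ 1 / 4 := min_le_right _ _
  set D : ℝ := 2 * Real.pi * a / Real.log T with hD
  have hD0 : 0 < D := by positivity
  have hW0 : 0 < W := lt_of_lt_of_le (by positivity) hW
  -- the number of parts
  obtain ⟨n, hn1, hn2, hn3⟩ : ∃ n : ℕ, 1 ≤ n ∧ W / n ≤ D / 2 ∧ η' * D ≤ W / n := by
    rcases le_total W (D / 2) with hc | hc
    · refine ⟨1, le_rfl, by simpa using hc, ?_⟩
      rw [Nat.cast_one, div_one]
      exact (mul_le_mul_of_nonneg_right hη1 hD0.le).trans hW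
    · have h2 : 0 < 2 * W / D := by positivity
      refine ⟨⌈2 * W / D⌉₊, Nat.one_le_ceil_iff.2 h2, ?_, ?_⟩
      · have h3 := Nat.le_ceil (2 * W / D)
        have h4 : (0 : ℝ) < ⌈2 * W / D⌉₊ := lt_of_lt_of_le h2 h3
        rw [div_le_iff₀ h4]
        rw [div_le_iff₀ hD0] at h3
        linarith
      · have h3 := (Nat.ceil_lt_add_one h2.le).le
        have h4 : (0 : ℝ) < ⌈2 * W / D⌉₊ := lt_of_lt_of_le h2 (Nat.le_ceil _)
        have h5 : 1 ≤ 2 * W / D := by rw [le_div_iff₀ hD0]; linarith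
        rw [le_div_iff₀ h4]
        have h6 : (⌈2 * W / D⌉₊ : ℝ) ≤ 4 * W / D := by
          have : 4 * W / D = 2 * W / D + 2 * W / D := by ring
          linarith
        calc η' * D * (⌈2 * W / D⌉₊ : ℝ) ≤ 1 / 4 * D * (4 * W / D) := by gcongr
          _ = W := by field_simp
  have hn0 : (0 : ℝ) < n := by exact_mod_cast hn1
  set m : ℝ := W / n * Real.log T / (2 * Real.pi) with hm
  have em : hs m T = W / n := by
    unfold hs; rw [hm]; field_simp
  have hm1 : η' * a ≤ m := by
    rw [hm, le_div_iff₀ (by positivity)]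
    have : η' * a * (2 * Real.pi) = η' * D * Real.log T := by rw [hD]; field_simp
    rw [this]
    exact mul_le_mul_of_nonneg_right hn3 hL.le
  have hm2 : m ≤ a / 2 := by
    rw [hm, div_le_iff₀ (by positivity)]
    have : a / 2 * (2 * Real.pi) = D / 2 * Real.log T := by rw [hD]; field_simp
    rw [this]
    exact mul_le_mul_of_nonneg_right hn2 hL.le
  have h1 := h a T m ha hT.le haB hm1 hm2
  rw [em] at h1
  set w := W / n with hw
  have hw0 : 0 < w := by positivity
  have eW : W = n * w := by rw [hw]; field_simp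
  have hTT : T ≤ 2 * T - W := by linarith
  have hc : Continuous fun t => |Aw a T w t - 1| := ((Aw_cont hla T w).sub continuous_const).abs
  have hci : ∀ A B, IntervalIntegrable (fun t => |Aw a T w t - 1|) volume A B := fun A B =>
    hc.intervalIntegrable _ _
  have hsh : ∀ i : ℕ, Continuous fun t => |Aw a T w (t + i * w) - 1| := fun i =>
    hc.comp (by fun_prop)
  have key : ∀ t, |Aw a T W t - 1| ≤ 1 / (n : ℝ) * ∑ i ∈ Finset.range n, |Aw a T w (t + i * w) - 1| := by
    intro t
    rw [eW, Aw_split hla T w t hn1]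
    have e1 : 1 / (n : ℝ) * ∑ i ∈ Finset.range n, Aw a T w (t + i * w) - 1 =
        1 / (n : ℝ) * ∑ i ∈ Finset.range n, (Aw a T w (t + i * w) - 1) := by
      rw [Finset.sum_sub_distrib, Finset.sum_const, Finset.card_range, nsmul_eq_mul, mul_sub, mul_one,
        one_div_mul_cancel hn0.ne']
    rw [e1, abs_mul, abs_of_pos (by positivity : (0:ℝ) < 1 / n)]
    exact mul_le_mul_of_nonneg_left (Finset.abs_sum_le_sum_abs _ _) (by positivity)
  have h2 : ∫ t in T..(2 * T - W), |Aw a T W t - 1| ≤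
      ∫ t in T..(2 * T - W), (1 / (n : ℝ) * ∑ i ∈ Finset.range n, |Aw a T w (t + i * w) - 1|) := by
    refine intervalIntegral.integral_mono_on hTT
      (((Aw_cont hla T W).sub continuous_const).abs.intervalIntegrable _ _) ?_ fun t _ => key t
    exact (continuous_const.mul (continuous_finsetSum _ fun i _ => hsh i)).intervalIntegrable _ _
  rw [intervalIntegral.integral_const_mul, intervalIntegral.integral_finset_sum
    (fun i _ => (hsh i).intervalIntegrable _ _)] at h2
  have h3 : ∀ i ∈ Finset.range n, ∫ t in T..(2 * T - W), |Aw a T w (t + i * w) - 1| ≤ ε * T := by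
    intro i hi
    rw [Finset.mem_range] at hi
    have hi' : (i : ℝ) + 1 ≤ n := by exact_mod_cast hi
    rw [intervalIntegral.integral_comp_add_right (fun t => |Aw a T w t - 1|)]
    refine le_trans ?_ h1
    have hi0 : (0 : ℝ) ≤ i * w := by positivity
    have hi1 : (i : ℝ) * w + w ≤ W := by
      rw [eW]
      calc (i : ℝ) * w + w = (i + 1) * w := by ring
        _ ≤ n * w := mul_le_mul_of_nonneg_right hi' hw0.le
    exact intervalIntegral.integral_mono_interval (by linarith) (by linarith) (by linarith)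
      (Eventually.of_forall fun t => abs_nonneg _) (hci _ _)
  have h4 := Finset.sum_le_sum h3
  rw [Finset.sum_const, Finset.card_range, nsmul_eq_mul] at h4
  calc ∫ t in T..(2 * T - W), |Aw a T W t - 1| ≤ 1 / (n : ℝ) * _ := h2
    _ ≤ 1 / (n : ℝ) * (n * (ε * T)) := mul_le_mul_of_nonneg_left h4 (by positivity)
    _ = ε * T := by field_simp

/-- **the local number variance** -/
theorem number_variance (B : ℝ) (hB : 1 ≤ B) {ε η : ℝ} (hε : 0 < ε) (hη : 0 < η) :
    ∃ R : ℝ, 16 ≤ R ∧ ∀ a T W : ℝ, R ≤ a → 1 < T → a * Real.log a ≤ B * Real.log T →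
    η * (2 * Real.pi * a / Real.log T) ≤ W → W ≤ T →
    ∫ t in T..(2 * T - W), |1 / W * (∫ y in t..(t + W), dev T a y) - Real.log a / Real.pi ^ 2| ≤
      ε * (T * Real.log a) := by
  obtain ⟨R, hR, h⟩ := all_var B hB hε hη
  refine ⟨R, hR, fun a T W ha hT haB hW hWT => ?_⟩
  have ha0 : 0 < a := by linarith
  have hpi := Real.pi_gt_three
  have hla : 1 ≤ Real.log a := by
    rw [Real.le_log_iff_exp_le ha0]
    have := Real.exp_one_lt_d9
    linarith
  have h1 := h a T W ha hT haB hW hWT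
  have e1 : ∀ t, |1 / W * (∫ y in t..(t + W), dev T a y) - Real.log a / Real.pi ^ 2| =
      Real.log a / Real.pi ^ 2 * |Aw a T W t - 1| := by
    intro t
    have e2 : 1 / W * (∫ y in t..(t + W), dev T a y) - Real.log a / Real.pi ^ 2 =
        Real.log a / Real.pi ^ 2 * (Aw a T W t - 1) := by
      unfold Aw
      simp only [Zv_dev hla]
      rw [intervalIntegral.integral_const_mul]
      field_simp
    rw [e2, abs_mul, abs_of_pos (by positivity)]
  simp only [e1]
  rw [intervalIntegral.integral_const_mul]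
  have hT0 : 0 < T := by linarith
  calc Real.log a / Real.pi ^ 2 * ∫ t in T..(2 * T - W), |Aw a T W t - 1| ≤
      Real.log a / Real.pi ^ 2 * (ε * T) := mul_le_mul_of_nonneg_left h1 (by positivity)
    _ ≤ Real.log a / 1 * (ε * T) := by
        apply mul_le_mul_of_nonneg_right _ (by positivity)
        apply div_le_div_of_nonneg_left (by linarith) (by norm_num)
        nlinarith
    _ = _ := by ring

end Pool.Agent.R321.QA
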