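import Pool.Agent.H385R2.FinD
import Pool.Agent.TH299.RunsZeta
import Pool.Agent.H370R2.DirGood

/-!
# Runs of simple critical zeros in the family of all primitive Dirichlet characters
-/

open Complex Filter Topology Set MeasureTheory
open H370 (zset mult NN Nd Ns)

namespace Pool.Agent.R321.RA

open H385 Pool.Agent.TH299.RunsL

/-- the L-functions of all the primitive characters with conductor in `(X, Y]` have many zeros -/
theorem fam_many (B : ℝ) : ∃ X0 : ℝ, 1 ≤ X0 ∧ ∀ (X Y : ℕ) (T η : ℝ), X0 ≤ X → 0 < η → η ≤ 1 →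
    (Y : ℝ) ≤ (X : ℝ) ^ (1 + η) → (Real.log X) ^ 2 ≤ T → T ≤ (X : ℝ) ^ η →
    1 ≤ T ∧ ∀ (q : ℕ) (χ : DirichletCharacter ℂ q), X < q → q ≤ Y → χ.IsPrimitive →
      B ≤ (NN (LF q χ) T (2 * T) : ℝ) := by
  obtain ⟨A, hA, hgood⟩ := good_dirichlet_U
  obtain ⟨C2, hC2, hlow⟩ := N_lower A hA
  have hpi := Real.pi_pos
  set L0 : ℝ := 12 + 2 * Real.pi * (5 * C2 + 1) + |B| with hL0
  refine ⟨max 1 (Real.exp L0), le_max_left _ _, ?_⟩
  intro X Y T η hX hη hη1 hY hT1 hT2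
  have hXe : Real.exp L0 ≤ X := (le_max_right _ _).trans hX
  have hX1 : (1 : ℝ) ≤ X := (le_max_left _ _).trans hX
  have hXpos : (0 : ℝ) < X := by linarith
  set L : ℝ := Real.log X with hL
  have hLL0 : L0 ≤ L := by
    rw [hL, Real.le_log_iff_exp_le hXpos]; exact hXe
  have hB0 := abs_nonneg B
  have hC20 : 0 ≤ 2 * Real.pi * (5 * C2 + 1) := by positivity
  have hL12 : 12 ≤ L := by rw [hL0] at hLL0; linarith
  have hLB : |B| ≤ L := by rw [hL0] at hLL0; linarith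
  have hLC : 2 * Real.pi * (5 * C2 + 1) ≤ L := by rw [hL0] at hLL0; linarith
  have hXη : (X : ℝ) ^ η = Real.exp (η * L) := by
    rw [Real.rpow_def_of_pos hXpos, mul_comm]
  have hT2' : T ≤ Real.exp (η * L) := by rw [← hXη]; exact hT2
  obtain ⟨p1, p2, p3, p4, p5, p6⟩ := param_ok 1 L T η one_pos hη1 (by linarith)
    (by rw [div_one]; linarith) hT1 hT2'
  have hTpos : 0 < T := by linarith
  have hT1' : 1 ≤ T := by linarith
  refine ⟨hT1', fun q χ hq1 hq2 hχ => ?_⟩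
  have hq : NeZero q := ⟨by omega⟩
  have hqX : (X : ℝ) ≤ q := by exact_mod_cast hq1.le
  have hqY : (q : ℝ) ≤ Y := by exact_mod_cast hq2
  have hq0 : (0 : ℝ) < q := by linarith
  have hYpos : (0 : ℝ) < Y := by linarith
  have hYη : Real.log (Y * T) ≤ 3 * L := by
    rw [Real.log_mul hYpos.ne' hTpos.ne']
    have h1 : Real.log Y ≤ (1 + η) * L := by
      have := Real.log_le_log hYpos hY
      rwa [Real.log_rpow hXpos] at this
    have h2 : Real.log T ≤ η * L := by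
      have := Real.log_le_log hTpos hT2'
      rwa [Real.log_exp] at this
    have h3 : η * L ≤ 1 * L := mul_le_mul_of_nonneg_right hη1 (by linarith)
    linarith
  have hl := hlow q (LF q χ) _ (by linarith) (by rw [LF_eq]; exact hgood q χ hχ) T L p1 p2
  have hlog1 : L ≤ Real.log (q * T) := by
    rw [hL]
    refine Real.log_le_log hXpos ?_
    calc (X : ℝ) = X * 1 := (mul_one _).symm
      _ ≤ q * T := mul_le_mul hqX hT1' zero_le_one hq0.le
  have hlog2 : Real.log (q * T) ≤ 3 * L :=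
    (Real.log_le_log (by positivity) (mul_le_mul_of_nonneg_right hqY hTpos.le)).trans hYη
  have a1 : T / (2 * Real.pi) * L ≤ T / (2 * Real.pi) * Real.log (q * T) :=
    mul_le_mul_of_nonneg_left hlog1 (by positivity)
  have a2 : L * Real.log (q * T) ≤ 3 * T := by
    have : L * Real.log (q * T) ≤ L * (3 * L) := mul_le_mul_of_nonneg_left hlog2 (by linarith)
    linarith [show L * (3 * L) = 3 * L ^ 2 by ring]
  have a3 : T * Real.log (q * T) ^ 2 * Real.exp (-L ^ 2 / 2) ≤ T := by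
    have b1 : Real.log (q * T) ^ 2 ≤ (3 * L) ^ 2 := pow_le_pow_left₀ (by linarith) hlog2 2
    have b2 : Real.log (q * T) ^ 2 * Real.exp (-L ^ 2 / 2) ≤ 1 := by
      refine le_trans (mul_le_mul_of_nonneg_right b1 (Real.exp_pos _).le) ?_
      rw [show (3 * L) ^ 2 = 9 * L ^ 2 by ring]; exact p6
    calc _ = T * (Real.log (q * T) ^ 2 * Real.exp (-L ^ 2 / 2)) := by ring
      _ ≤ T * 1 := mul_le_mul_of_nonneg_left b2 hTpos.le
      _ = T := mul_one T
  have a4 : C2 * (T + L * Real.log (q * T) + T * Real.log (q * T) ^ 2 * Real.exp (-L ^ 2 / 2)) ≤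
      C2 * (5 * T) := mul_le_mul_of_nonneg_left (by linarith) hC2.le
  have a5 : (5 * C2 + 1) * T ≤ T / (2 * Real.pi) * L := by
    rw [div_mul_eq_mul_div, le_div_iff₀ (by positivity)]
    have := mul_le_mul_of_nonneg_left hLC hTpos.le
    linarith
  have a6 : L ≤ L ^ 2 := by nlinarith
  have a7 := le_abs_self B
  linarith

/-- the family of all primitive characters with conductor in `(X, Y]`, from a lower bound `κ` for the
proportion of the simple critical zeros -/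
theorem fam_runs_of {κ η K X1 : ℝ} (hK : 1 ≤ K) (hη : 0 < η)
    (hmain : ∀ (X Y : ℕ) (T : ℝ), X1 ≤ X → K * X ≤ Y → (Y : ℝ) ≤ (X : ℝ) ^ (1 + η) →
      (Real.log X) ^ 2 ≤ T → T ≤ (X : ℝ) ^ η →
      κ * primFam X Y (fun q χ => (NN (LF q χ) T (2 * T) : ℝ)) ≤
        primFam X Y (fun q χ => (Ns (LF q χ) T (2 * T) : ℝ)))
    (m : ℕ) {ε : ℝ} (hε : 0 < ε) :
    ∃ X0 : ℝ, 1 ≤ X0 ∧
    ∀ (X Y : ℕ) (T : ℝ), X0 ≤ X → K * X ≤ Y → (Y : ℝ) ≤ (X : ℝ) ^ (1 + min η 1) →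
      (Real.log X) ^ 2 ≤ T → T ≤ (X : ℝ) ^ (min η 1) → ∀ A : ℝ, 0 < A →
      (κ - m * ((1 - κ) / 2) - m / A - ε) *
          primFam X Y (fun q χ => (NN (LF q χ) T (2 * T) : ℝ)) ≤
        primFam X Y (fun q χ => ({t : ℝ | RunA (LF q χ) m (A * T / NN (LF q χ) T (2 * T)) T
          (2 * T) t}.ncard : ℝ)) ∧
      (κ - (m + 1) * ((1 - κ) / 2) - m / A - ε) *
          primFam X Y (fun q χ => (NN (LF q χ) T (2 * T) : ℝ)) ≤
        primFam X Y (fun q χ => ({t : ℝ | RunB (LF q χ) m (A * T / NN (LF q χ) T (2 * T)) T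
          (2 * T) t}.ncard : ℝ)) := by
  have hm : (0 : ℝ) ≤ m := Nat.cast_nonneg m
  obtain ⟨X2, hX2, hmany⟩ := fam_many (max 1 (m / ε))
  refine ⟨max X1 X2, hX2.trans (le_max_right _ _), ?_⟩
  intro X Y T hX hKX hY hT1 hT2 A hA
  have hη' : 0 < min η 1 := lt_min hη one_pos
  have hXX1 : X1 ≤ X := (le_max_left _ _).trans hX
  have hXX2 : X2 ≤ X := (le_max_right _ _).trans hX
  have hX1 : (1 : ℝ) ≤ X := hX2.trans hXX2
  obtain ⟨hTone, hN⟩ := hmany X Y T (min η 1) hXX2 hη' (min_le_right _ _) hY hT1 hT2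
  have h1 := hmain X Y T hXX1 hKX
    (hY.trans (Real.rpow_le_rpow_of_exponent_le hX1 (by linarith [min_le_left η 1]))) hT1
    (hT2.trans (Real.rpow_le_rpow_of_exponent_le hX1 (min_le_left _ _)))
  -- pointwise
  have hpt : ∀ (q : ℕ) (χ : DirichletCharacter ℂ q), X < q → q ≤ Y → χ.IsPrimitive →
      (1 + m / 2) * (Ns (LF q χ) T (2 * T) : ℝ) - (m / 2 + m / A + ε) * (NN (LF q χ) T (2 * T) : ℝ) ≤
        ({t : ℝ | RunA (LF q χ) m (A * T / NN (LF q χ) T (2 * T)) T (2 * T) t}.ncard : ℝ) ∧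
      (3 / 2 + m / 2) * (Ns (LF q χ) T (2 * T) : ℝ) -
          ((m + 1) / 2 + m / A + ε) * (NN (LF q χ) T (2 * T) : ℝ) ≤
        ({t : ℝ | RunB (LF q χ) m (A * T / NN (LF q χ) T (2 * T)) T (2 * T) t}.ncard : ℝ) := by
    intro q χ hq1 hq2 hχ
    have hq : NeZero q := ⟨by omega⟩
    have hg : H370.GoodL (LF q χ) := by rw [LF_eq]; exact H370.good_dirichlet χ hχ
    have hn := hN q χ hq1 hq2 hχ
    have hn1 : (1 : ℝ) ≤ NN (LF q χ) T (2 * T) := (le_max_left _ _).trans hn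
    have hn2 : (m : ℝ) / ε ≤ NN (LF q χ) T (2 * T) := (le_max_right _ _).trans hn
    rw [div_le_iff₀ hε] at hn2
    have hTpos : 0 < T := by linarith
    have hL : 0 < A * T / (NN (LF q χ) T (2 * T) : ℝ) := by positivity
    obtain ⟨b1, b2⟩ := runs_window hg hTone (show T ≤ 2 * T by linarith) m hL
    have h6 : (m : ℝ) * (2 * T - T) / (A * T / (NN (LF q χ) T (2 * T) : ℝ)) =
        m / A * (NN (LF q χ) T (2 * T) : ℝ) := by
      field_simp
      ring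
    rw [h6] at b1 b2
    constructor
    · refine le_trans (le_of_sub_nonneg ?_) b1
      have : (Ns (LF q χ) T (2 * T) : ℝ) -
            m * (((NN (LF q χ) T (2 * T) : ℝ) - Ns (LF q χ) T (2 * T)) / 2 + 1) -
            m / A * (NN (LF q χ) T (2 * T) : ℝ) -
          ((1 + m / 2) * (Ns (LF q χ) T (2 * T) : ℝ) -
            (m / 2 + m / A + ε) * (NN (LF q χ) T (2 * T) : ℝ)) =
          (NN (LF q χ) T (2 * T) : ℝ) * ε - m := by ring
      rw [this]
      linarith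
    · refine le_trans (le_of_sub_nonneg ?_) b2
      have : (Ns (LF q χ) T (2 * T) : ℝ) -
            ((NN (LF q χ) T (2 * T) : ℝ) - Ns (LF q χ) T (2 * T)) / 2 -
            m * (((NN (LF q χ) T (2 * T) : ℝ) - Ns (LF q χ) T (2 * T)) / 2 + 1) -
            m / A * (NN (LF q χ) T (2 * T) : ℝ) -
          ((3 / 2 + m / 2) * (Ns (LF q χ) T (2 * T) : ℝ) -
            ((m + 1) / 2 + m / A + ε) * (NN (LF q χ) T (2 * T) : ℝ)) =
          (NN (LF q χ) T (2 * T) : ℝ) * ε - m := by ring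
      rw [this]
      linarith
  set SN := primFam X Y (fun q χ => (NN (LF q χ) T (2 * T) : ℝ)) with hSN
  set SS := primFam X Y (fun q χ => (Ns (LF q χ) T (2 * T) : ℝ)) with hSS
  have l1 := primFam_lin X Y (1 + m / 2) (m / 2 + m / A + ε)
    (fun q χ => (Ns (LF q χ) T (2 * T) : ℝ)) (fun q χ => (NN (LF q χ) T (2 * T) : ℝ))
  have l2 := primFam_lin X Y (3 / 2 + m / 2) ((m + 1) / 2 + m / A + ε)
    (fun q χ => (Ns (LF q χ) T (2 * T) : ℝ)) (fun q χ => (NN (LF q χ) T (2 * T) : ℝ))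
  have m1 := primFam_mono X Y _ _ (fun q χ h1 h2 h3 => (hpt q χ h1 h2 h3).1)
  have m2 := primFam_mono X Y _ _ (fun q χ h1 h2 h3 => (hpt q χ h1 h2 h3).2)
  rw [l1] at m1
  rw [l2] at m2
  rw [← hSN, ← hSS] at m1 m2
  have k1 := mul_le_mul_of_nonneg_left h1 (show (0 : ℝ) ≤ 1 + m / 2 by positivity)
  have k2 := mul_le_mul_of_nonneg_left h1 (show (0 : ℝ) ≤ 3 / 2 + m / 2 by positivity)
  constructor
  · refine le_trans ?_ m1
    have e : (1 + (m : ℝ) / 2) * (κ * SN) - (m / 2 + m / A + ε) * SN =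
        (κ - m * ((1 - κ) / 2) - m / A - ε) * SN := by ring
    linarith
  · refine le_trans ?_ m2
    have e : (3 / 2 + (m : ℝ) / 2) * (κ * SN) - ((m + 1) / 2 + m / A + ε) * SN =
        (κ - (m + 1) * ((1 - κ) / 2) - m / A - ε) * SN := by ring
    linarith

/-- runs in the family -/
theorem fam_runs : ∃ K η : ℝ, 1 ≤ K ∧ 0 < η ∧ ∀ (m : ℕ) (ε : ℝ), 0 < ε → ∃ X0 : ℝ, 1 ≤ X0 ∧
    ∀ (X Y : ℕ) (T : ℝ), X0 ≤ X → K * X ≤ Y → (Y : ℝ) ≤ (X : ℝ) ^ (1 + η) →
      (Real.log X) ^ 2 ≤ T → T ≤ (X : ℝ) ^ η → ∀ A : ℝ, 0 < A →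
      (0.9322 - 0.0339 * m - m / A - ε) *
          primFam X Y (fun q χ => (NN (LF q χ) T (2 * T) : ℝ)) ≤
        primFam X Y (fun q χ => ({t : ℝ | RunA (LF q χ) m (A * T / NN (LF q χ) T (2 * T)) T
          (2 * T) t}.ncard : ℝ)) ∧
      (0.9322 - 0.0339 * (m + 1) - m / A - ε) *
          primFam X Y (fun q χ => (NN (LF q χ) T (2 * T) : ℝ)) ≤
        primFam X Y (fun q χ => ({t : ℝ | RunB (LF q χ) m (A * T / NN (LF q χ) T (2 * T)) T
          (2 * T) t}.ncard : ℝ)) := by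
  obtain ⟨K, η, X1, hK, hη, hX1, hmain⟩ := stage2_final
  refine ⟨K, min η 1, hK, lt_min hη one_pos, fun m ε hε => ?_⟩
  obtain ⟨X0, hX0, h⟩ := fam_runs_of (κ := 0.9322) hK hη
    (fun X Y T a1 a2 a3 a4 a5 => (hmain X Y T a1 a2 a3 a4 a5).1) m hε
  refine ⟨X0, hX0, fun X Y T a1 a2 a3 a4 a5 A hA => ?_⟩
  obtain ⟨b1, b2⟩ := h X Y T a1 a2 a3 a4 a5 A hA
  rw [show (0.9322 : ℝ) - m * ((1 - 0.9322) / 2) = 0.9322 - 0.0339 * m by ring] at b1
  rw [show (0.9322 : ℝ) - (m + 1) * ((1 - 0.9322) / 2) = 0.9322 - 0.0339 * (m + 1) by ring] at b2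
  exact ⟨b1, b2⟩

end Pool.Agent.R321.RA
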