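import Pool.Agent.H385R2.FinD

/-!
# The family theorem with a general weight

For a weight `W F s` with `W ≤ 4 m - kk` and `W ≤ 3 m` (`m` the multiplicity of `s`, `kk = 3` for a
simple critical zero, `4` for a multiple critical zero and `2` for a zero off the line) the sum of `W`
over the zeros with ordinate in `(T, 2 T]` is on average over the family of all primitive Dirichlet
characters at most `1.0678` times the number of zeros.
-/

open Complex Filter Topology Set MeasureTheory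
open H370 (zset mult NN Nd Ns)

set_option maxHeartbeats 4000000

namespace Pool.Agent.R321.RA

open H385 H385.PerChi

/-- the sum of the weight over the zeros with ordinate in `(T, 2 T]` -/
noncomputable def SW (W : (ℂ → ℂ) → ℂ → ℝ) (F : ℂ → ℂ) (T : ℝ) : ℝ :=
  ∑ᶠ s ∈ zset F T (2 * T), W F s

theorem per_chi_w (W : (ℂ → ℂ) → ℂ → ℝ)
    (hW1 : ∀ F s, 1 ≤ mult F s → W F s ≤ 4 * (mult F s : ℝ) - kk F s)
    (hW2 : ∀ F s, 1 ≤ mult F s → W F s ≤ 3 * (mult F s : ℝ))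
    (γ : ℝ) (h0 : 0 < γ) (hπ : γ < Real.pi) (A : ℝ) (hA : 1 ≤ A) :
    ∃ C : ℝ, 0 < C ∧ ∀ (Q : ℝ) (F : ℂ → ℂ) (a : ℕ → ℂ), 1 ≤ Q → GoodU A Q F a →
    ∀ T κ Λ V1 V2 : ℝ, 3 ≤ κ → 8 * κ ≤ T → 1 ≤ Λ → T - 3 * κ ≤ V1 → V1 ≤ T - 3 * κ + 1 →
      2 * T + 3 * κ - 1 ≤ V2 → V2 ≤ 2 * T + 3 * κ →
      SW W F T ≤
        (2 / (Real.sqrt Real.pi * Λ)) * (∫ u in (0 : ℝ)..Λ, Rw γ (u / Λ) *
          ∫ t : ℝ, ‖BB F V1 V2 T u t‖ ^ 2)
        + C * (κ + T * Real.exp (-κ ^ 2 / 2)) * Real.log (Q * T) := by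
  classical
  obtain ⟨C, hC, h⟩ := PerChi.core γ h0 hπ A hA
  refine ⟨C, hC, ?_⟩
  intro Q F a hQ hFU T κ Λ V1 V2 hκ hκT hΛ hV1 hV1' hV2 hV2'
  have hF := goodL hA hQ hFU
  have hfin : (zset F T (2 * T)).Finite := H370.zset_finite hF T _ (by linarith)
  have h1 := h Q F a hQ hFU (W F) (hW1 F) (hW2 F) T κ Λ V1 V2 hκ hκT hΛ hV1 hV1' hV2 hV2' hfin
  unfold SW
  rw [finsum_mem_eq_finite_toFinset_sum _ hfin]
  exact h1

theorem fam_abstract_w (W : (ℂ → ℂ) → ℂ → ℝ)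
    (hW1 : ∀ F s, 1 ≤ mult F s → W F s ≤ 4 * (mult F s : ℝ) - kk F s)
    (hW2 : ∀ F s, 1 ≤ mult F s → W F s ≤ 3 * (mult F s : ℝ)) (γ : ℝ) (h0 : 0 < γ) (hπ : γ < Real.pi) (A : ℝ) (hA : 1 ≤ A) :
    ∃ C : ℝ, 0 < C ∧ ∀ {ι : Type} (s : Finset ι) (ω : ι → ℝ) (Q : ι → ℝ) (F : ι → ℂ → ℂ)
      (a : ι → ℕ → ℂ) (T κ Λ Lm y1 y2 : ℝ) (Y : ℝ → ℝ),
      (∀ i ∈ s, 0 ≤ ω i ∧ 1 ≤ Q i ∧ GoodU A (Q i) (F i) (a i) ∧ Real.log (Q i * T) ≤ Lm) →
      3 ≤ κ → 8 * κ ≤ T → T ≤ Real.exp (κ ^ 2 / 2) → 1 ≤ Λ → 1 ≤ Lm →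
      Lm ^ 2 * Real.exp (Λ - κ ^ 2 / 2) ≤ Real.exp (-Λ) → 0 ≤ y1 → 0 ≤ y2 →
      (∀ u ∈ Set.Icc 0 Λ,
        ∫ t : ℝ, ∑ i ∈ s, ω i *
          ‖∑' n : ℕ, a i n * ((Real.sqrt n : ℂ)⁻¹ * bt T u t (Real.log n))‖ ^ 2 ≤ Y u) →
      (∀ u ∈ Set.Icc 0 Λ, Y u ≤ T * (y1 * (u + 1) + y2)) →
      IntervalIntegrable Y volume 0 Λ →
      ∑ i ∈ s, ω i * SW W (F i) T ≤
        (∑ i ∈ s, ω i) * Lm ^ 2 * Rw γ 0 * T / (2 * Real.pi * Λ) +
        (2 / (Real.sqrt Real.pi * Λ)) * (∫ u in (0 : ℝ)..Λ, Rw γ (u / Λ) * Y u) +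
        C * ((∑ i ∈ s, ω i) * (Lm ^ 2 * κ / Λ + Lm * T / Λ + κ * Lm) +
          Real.sqrt (∑ i ∈ s, ω i) * Lm * T * (Real.sqrt y1 + Real.sqrt y2) / Λ) := by
  obtain ⟨K, hK, hcore⟩ := fa_core γ h0 hπ A hA
  obtain ⟨C2, hC2, hper⟩ := per_chi_w W hW1 hW2 γ h0 hπ A hA
  refine ⟨K + 2 * C2, by positivity, ?_⟩
  intro ι s ω Q F a T κ Λ Lm y1 y2 Y hs hκ hT hTκ hΛ hLm hLmΛ hy1 hy2 hY hYb hYi
  obtain ⟨V1, V2, hV, hb⟩ := hcore s ω Q F a T κ Λ Lm y1 y2 Y hs hκ hT hTκ hΛ hLm hLmΛ hy1 hy2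
    hY hYb hYi
  have hT0 : 0 < T := by linarith
  have hΛ0 : 0 < Λ := by linarith
  have hκ0 : 0 < κ := by linarith
  have hW0 : 0 ≤ ∑ i ∈ s, ω i := Finset.sum_nonneg fun i hi => (hs i hi).1
  have hTe : T * Real.exp (-κ ^ 2 / 2) ≤ 1 := by
    calc T * Real.exp (-κ ^ 2 / 2) ≤ Real.exp (κ ^ 2 / 2) * Real.exp (-κ ^ 2 / 2) := by gcongr
      _ = 1 := by rw [← Real.exp_add]; simp; ring
  have hstep : ∑ i ∈ s, ω i * SW W (F i) T ≤
      (∑ i ∈ s, ω i * ((2 / (Real.sqrt Real.pi * Λ)) * (∫ u in (0 : ℝ)..Λ, Rw γ (u / Λ) *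
          ∫ t : ℝ, ‖BB (F i) (V1 i) (V2 i) T u t‖ ^ 2))) +
      (∑ i ∈ s, ω i) * (2 * C2 * (κ * Lm)) := by
    rw [Finset.sum_mul, ← Finset.sum_add_distrib]
    apply Finset.sum_le_sum
    intro i hi
    obtain ⟨hω, hQ, hg, hL⟩ := hs i hi
    obtain ⟨h1, h2, h3, h4⟩ := hV i hi
    have hp := hper (Q i) (F i) (a i) hQ hg T κ Λ (V1 i) (V2 i) hκ hT hΛ h1 h2 h3 h4
    have hlog : 0 ≤ Real.log (Q i * T) := by
      apply Real.log_nonneg
      exact NL.a1 hQ (by linarith)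
    have he : C2 * (κ + T * Real.exp (-κ ^ 2 / 2)) * Real.log (Q i * T) ≤
        2 * C2 * (κ * Lm) := by
      calc C2 * (κ + T * Real.exp (-κ ^ 2 / 2)) * Real.log (Q i * T) ≤
          C2 * (κ + κ) * Lm := by
            have : T * Real.exp (-κ ^ 2 / 2) ≤ κ := by linarith
            gcongr
        _ = _ := by ring
    calc ω i * SW W (F i) T ≤
        ω i * ((2 / (Real.sqrt Real.pi * Λ)) * (∫ u in (0 : ℝ)..Λ, Rw γ (u / Λ) *
          ∫ t : ℝ, ‖BB (F i) (V1 i) (V2 i) T u t‖ ^ 2) + 2 * C2 * (κ * Lm)) := by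
          apply mul_le_mul_of_nonneg_left _ hω
          linarith
      _ = _ := by ring
  refine (hstep.trans (add_le_add_left hb _)).trans ?_
  set W0 := ∑ i ∈ s, ω i
  have p1 : 0 ≤ W0 * (κ * Lm) := by positivity
  have p2 : 0 ≤ W0 * (Lm ^ 2 * κ / Λ + Lm * T / Λ) := by positivity
  have p3 : 0 ≤ Real.sqrt W0 * Lm * T * (Real.sqrt y1 + Real.sqrt y2) / Λ := by positivity
  have q1 : 0 ≤ K * (W0 * (κ * Lm)) := by positivity
  have q2 : 0 ≤ C2 * (W0 * (Lm ^ 2 * κ / Λ + Lm * T / Λ)) := by positivity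
  have q3 : 0 ≤ C2 * (Real.sqrt W0 * Lm * T * (Real.sqrt y1 + Real.sqrt y2) / Λ) := by positivity
  have e : (K + 2 * C2) * (W0 * (Lm ^ 2 * κ / Λ + Lm * T / Λ + κ * Lm) +
      Real.sqrt W0 * Lm * T * (Real.sqrt y1 + Real.sqrt y2) / Λ) =
      K * (W0 * (Lm ^ 2 * κ / Λ + Lm * T / Λ) +
      Real.sqrt W0 * Lm * T * (Real.sqrt y1 + Real.sqrt y2) / Λ) + W0 * (2 * C2 * (κ * Lm)) +
      K * (W0 * (κ * Lm)) + 2 * (C2 * (W0 * (Lm ^ 2 * κ / Λ + Lm * T / Λ))) +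
      2 * (C2 * (Real.sqrt W0 * Lm * T * (Real.sqrt y1 + Real.sqrt y2) / Λ)) := by ring
  rw [e]
  linarith

/-- the family theorem from the mean square hypothesis -/
theorem final_core_w (W : (ℂ → ℂ) → ℂ → ℝ)
    (hW1 : ∀ F s, 1 ≤ mult F s → W F s ≤ 4 * (mult F s : ℝ) - kk F s)
    (hW2 : ∀ F s, 1 ≤ mult F s → W F s ≤ 3 * (mult F s : ℝ)) (γ β c' : ℝ) (h0 : 0 < γ) (hπ : γ < Real.pi) (hβ : 0 < β) (hc' : 0 ≤ c')
    (hR0 : 0 ≤ Rw γ 0) (H : HY γ β c') (ε : ℝ) (hε : 0 < ε) :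
    ∃ K η X0 : ℝ, 1 ≤ K ∧ 0 < η ∧ 1 ≤ X0 ∧
    ∀ (X Y : ℕ) (T : ℝ), X0 ≤ X → K * X ≤ Y → (Y : ℝ) ≤ (X : ℝ) ^ (1 + η) →
      (Real.log X) ^ 2 ≤ T → T ≤ (X : ℝ) ^ η →
      primFam X Y (fun q χ => SW W (LF q χ) T) ≤
        (Rw γ 0 / β + c' + ε) * primFam X Y (fun q χ => (NN (LF q χ) T (2 * T) : ℝ)) := by
  obtain ⟨A, hA, hgood⟩ := good_dirichlet_U
  obtain ⟨C1, hC1, hfam⟩ := fam_abstract_w W hW1 hW2 γ h0 hπ A hA
  obtain ⟨C2, hC2, hlow⟩ := N_lower A hA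
  -- choose ε1
  have hpi := Real.pi_pos
  set CC : ℝ := C1 with hCC
  have hCC0 : 0 < CC := hC1
  obtain ⟨ε1, hε1, hε1a, hε1b⟩ : ∃ ε1 : ℝ, 0 < ε1 ∧ ε1 ≤ ε / 8 ∧ 6 * Real.pi * CC * ε1 / β ≤ ε / 8 := by
    refine ⟨min (ε / 8) (ε / 8 * β / (6 * Real.pi * CC)), ?_, min_le_left _ _, ?_⟩
    · exact lt_min (by positivity) (by positivity)
    · have : 6 * Real.pi * CC * min (ε / 8) (ε / 8 * β / (6 * Real.pi * CC)) ≤
          6 * Real.pi * CC * (ε / 8 * β / (6 * Real.pi * CC)) := by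
        gcongr; exact min_le_right _ _
      rw [div_le_iff₀ hβ]
      refine this.trans (le_of_eq ?_)
      field_simp
  obtain ⟨K, η0, X0, hK, hη0, hX0, hmain⟩ := H ε1 hε1
  -- choose η
  obtain ⟨η, hη, hη1, hηη0, hη2⟩ : ∃ η : ℝ, 0 < η ∧ η ≤ 1 ∧ η ≤ η0 ∧
      8 * η * (Rw γ 0 / β) ≤ ε / 8 := by
    refine ⟨min (min 1 η0) (ε / 64 / (Rw γ 0 / β + 1)), ?_, ?_, ?_, ?_⟩
    · exact lt_min (lt_min one_pos hη0) (by positivity)
    · exact (min_le_left _ _).trans (min_le_left _ _)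
    · exact (min_le_left _ _).trans (min_le_right _ _)
    · have h1 : min (min 1 η0) (ε / 64 / (Rw γ 0 / β + 1)) ≤ ε / 64 / (Rw γ 0 / β + 1) :=
        min_le_right _ _
      have h2 : 0 ≤ Rw γ 0 / β := by positivity
      have h3 : ε / 64 / (Rw γ 0 / β + 1) * (Rw γ 0 / β) ≤ ε / 64 := by
        rw [div_mul_eq_mul_div, div_le_iff₀ (by positivity)]
        exact NL.b9 (by positivity)
      have h4 : min (min 1 η0) (ε / 64 / (Rw γ 0 / β + 1)) * (Rw γ 0 / β) ≤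
          ε / 64 / (Rw γ 0 / β + 1) * (Rw γ 0 / β) := mul_le_mul_of_nonneg_right h1 h2
      exact NL.b10 h4 h3
  -- choose L0
  set L0 : ℝ := 8 + 4 * β + 1 / β + CC * (12 / β + 3) * (2 * Real.pi) * (8 / ε) +
    10 * Real.pi * C2 * (Rw γ 0 / β + c' + ε) * (2 / ε) with hL0
  have hL0a : 4 * β + 8 ≤ L0 := by
    have : 0 ≤ 1 / β + CC * (12 / β + 3) * (2 * Real.pi) * (8 / ε) +
      10 * Real.pi * C2 * (Rw γ 0 / β + c' + ε) * (2 / ε) := by positivity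
    rw [hL0]; linarith
  have hL0b : 1 / β ≤ L0 := by
    have : 0 ≤ 8 + 4 * β + CC * (12 / β + 3) * (2 * Real.pi) * (8 / ε) +
      10 * Real.pi * C2 * (Rw γ 0 / β + c' + ε) * (2 / ε) := by positivity
    rw [hL0]; linarith
  have hL0c : CC * (12 / β + 3) * (2 * Real.pi) ≤ ε / 8 * L0 := by
    have h1 : 0 ≤ 8 + 4 * β + 1 / β +
      10 * Real.pi * C2 * (Rw γ 0 / β + c' + ε) * (2 / ε) := by positivity
    have h2 : ε / 8 * L0 = CC * (12 / β + 3) * (2 * Real.pi) + ε / 8 * (8 + 4 * β + 1 / β +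
      10 * Real.pi * C2 * (Rw γ 0 / β + c' + ε) * (2 / ε)) := by
      rw [hL0]; field_simp; ring
    rw [h2]
    have := mul_nonneg (show 0 ≤ ε / 8 by positivity) h1
    linarith
  have hL0d : 10 * Real.pi * C2 * (Rw γ 0 / β + c' + ε) ≤ ε / 2 * L0 := by
    have h1 : 0 ≤ 8 + 4 * β + 1 / β + CC * (12 / β + 3) * (2 * Real.pi) * (8 / ε) := by positivity
    have h2 : ε / 2 * L0 = 10 * Real.pi * C2 * (Rw γ 0 / β + c' + ε) + ε / 2 * (8 + 4 * β + 1 / β +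
      CC * (12 / β + 3) * (2 * Real.pi) * (8 / ε)) := by
      rw [hL0]; field_simp; ring
    rw [h2]
    have := mul_nonneg (show 0 ≤ ε / 2 by positivity) h1
    linarith
  refine ⟨K, η, max X0 (Real.exp L0), hK, hη, le_max_of_le_left hX0, ?_⟩
  intro X Y T hX hKX hY hT1 hT2
  have hXX0 : X0 ≤ X := (le_max_left _ _).trans hX
  have hXe : Real.exp L0 ≤ X := (le_max_right _ _).trans hX
  have hX1 : (1 : ℝ) ≤ X := hX0.trans hXX0
  have hXpos : (0 : ℝ) < X := by linarith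
  set L : ℝ := Real.log X with hL
  have hLL0 : L0 ≤ L := by
    rw [hL, Real.le_log_iff_exp_le hXpos]; exact hXe
  have hXexp : (X : ℝ) = Real.exp L := by rw [hL, Real.exp_log hXpos]
  have hXη : (X : ℝ) ^ η = Real.exp (η * L) := by
    rw [Real.rpow_def_of_pos hXpos, mul_comm]
  have hT2' : T ≤ Real.exp (η * L) := by rw [← hXη]; exact hT2
  have hXY : (X : ℝ) ≤ Y := NL.b11 hXpos.le hK hKX
  have hYpos : (0 : ℝ) < Y := by linarith
  obtain ⟨p1, p2, p3, p4, p5, p6⟩ := param_ok β L T η hβ hη1 (by linarith) (by linarith) hT1 hT2'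
  have hTpos : 0 < T := by linarith
  have hL8 : 8 ≤ L := by linarith
  have hYη : Real.log (Y * T) ≤ (1 + 2 * η) * L := by
    rw [Real.log_mul hYpos.ne' hTpos.ne']
    have h1 : Real.log Y ≤ (1 + η) * L := by
      have := Real.log_le_log hYpos hY
      rwa [Real.log_rpow hXpos] at this
    have h2 : Real.log T ≤ η * L := by
      have := Real.log_le_log hTpos hT2'
      rwa [Real.log_exp] at this
    linarith
  obtain ⟨Yf, y1, y2, hy1, hy2, m1, m2, m3, m4, m5⟩ := hmain X Y T hXX0 hKX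
    (hY.trans (Real.rpow_le_rpow_of_exponent_le hX1 (by linarith))) hT1
    (hT2.trans (Real.rpow_le_rpow_of_exponent_le hX1 hηη0))
  -- family data
  have hdata : ∀ p ∈ primSet X Y, 0 ≤ (1 / (p.1 : ℝ) ^ 2) ∧ (1 : ℝ) ≤ (p.1 : ℝ) ∧
      GoodU A (p.1 : ℝ) (LF p.1 p.2)
        (fun n => p.2 (n : ZMod p.1) * (ArithmeticFunction.vonMangoldt n : ℂ)) ∧
      Real.log ((p.1 : ℝ) * T) ≤ (1 + 2 * η) * L := by
    intro p hp
    obtain ⟨h1, h2, h3⟩ := (mem_primSet X Y p).mp hp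
    have hq : NeZero p.1 := ⟨by omega⟩
    refine ⟨by positivity, by exact_mod_cast (show 1 ≤ p.1 by omega), ?_, ?_⟩
    · rw [LF_eq]
      exact hgood p.1 p.2 h3
    · refine le_trans (Real.log_le_log ?_ ?_) hYη
      · have : (0 : ℝ) < (p.1 : ℝ) := by exact_mod_cast (show 0 < p.1 by omega)
        positivity
      · have : (p.1 : ℝ) ≤ Y := by exact_mod_cast h2
        exact mul_le_mul_of_nonneg_right this hTpos.le
  have hLm : (1 + 2 * η) * L ≤ 3 * L := mul_le_mul_of_nonneg_right (by linarith) (by linarith)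
  have hLm1 : 1 ≤ (1 + 2 * η) * L := NL.b12 hη (by linarith)
  have hLm0 : 0 ≤ (1 + 2 * η) * L := by linarith
  have hLm2 : ((1 + 2 * η) * L) ^ 2 ≤ 9 * L ^ 2 := by
    have h0 : ((1 + 2 * η) * L) ^ 2 ≤ (3 * L) ^ 2 := pow_le_pow_left₀ hLm0 hLm 2
    linarith [show (3 * L) ^ 2 = 9 * L ^ 2 by ring]
  have hWs : ∑ p ∈ primSet X Y, (1 / (p.1 : ℝ) ^ 2) = WW X Y := by
    unfold WW; rw [primFam_eq]; simp
  have hW0 : 0 ≤ WW X Y := primFam_nonneg _ _ _ (fun _ _ => zero_le_one)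
  have hms : ∀ u ∈ Set.Icc 0 (β * L),
        ∫ t : ℝ, ∑ p ∈ primSet X Y, (1 / (p.1 : ℝ) ^ 2) *
          ‖∑' n : ℕ, (p.2 (n : ZMod p.1) * (ArithmeticFunction.vonMangoldt n : ℂ)) *
            ((Real.sqrt n : ℂ)⁻¹ * bt T u t (Real.log n))‖ ^ 2 ≤ Yf u := by
    intro u hu
    refine le_trans (le_of_eq ?_) (m1 u hu)
    congr 1
    funext t
    rw [primFam_eq]
  have hexp : ((1 + 2 * η) * L) ^ 2 * Real.exp (β * L - L ^ 2 / 2) ≤ Real.exp (-(β * L)) :=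
    le_trans (mul_le_mul_of_nonneg_right hLm2 (Real.exp_pos _).le) p5
  have k1 := hfam (primSet X Y) (fun p => 1 / (p.1 : ℝ) ^ 2) (fun p => (p.1 : ℝ))
    (fun p => LF p.1 p.2) (fun p n => p.2 (n : ZMod p.1) * (ArithmeticFunction.vonMangoldt n : ℂ))
    T L (β * L) ((1 + 2 * η) * L) y1 y2 Yf hdata p1 p2 p3 p4 hLm1 hexp hy1 hy2 hms m2 m3
  -- lower bound for the number of zeros
  have hN : WW X Y * (T / (2 * Real.pi) * L - 5 * C2 * T) ≤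
      primFam X Y (fun q χ => (NN (LF q χ) T (2 * T) : ℝ)) := by
    have : WW X Y * (T / (2 * Real.pi) * L - 5 * C2 * T) =
        primFam X Y (fun _ _ => T / (2 * Real.pi) * L - 5 * C2 * T) := by
      rw [primFam_eq, ← hWs, Finset.sum_mul]
    rw [this]
    refine primFam_mono _ _ _ _ (fun q χ hq1 hq2 hχ => ?_)
    have hq : NeZero q := ⟨by omega⟩
    have hqX : (X : ℝ) ≤ q := by exact_mod_cast hq1.le
    have hqY : (q : ℝ) ≤ Y := by exact_mod_cast hq2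
    have hq0 : (0 : ℝ) < q := by linarith
    have hT1' : 1 ≤ T := by linarith
    have hl := hlow q (LF q χ) _ (by linarith) (by rw [LF_eq]; exact hgood q χ hχ) T L p1 p2
    have hlog1 : L ≤ Real.log (q * T) := by
      rw [hL]
      refine Real.log_le_log hXpos ?_
      calc (X : ℝ) = X * 1 := (mul_one _).symm
        _ ≤ q * T := mul_le_mul hqX hT1' zero_le_one hq0.le
    have hlog2 : Real.log (q * T) ≤ 3 * L := by
      refine le_trans ?_ hLm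
      refine le_trans (Real.log_le_log (by positivity) ?_) hYη
      exact mul_le_mul_of_nonneg_right hqY hTpos.le
    refine le_trans ?_ hl
    have a1 : T / (2 * Real.pi) * L ≤ T / (2 * Real.pi) * Real.log (q * T) :=
      mul_le_mul_of_nonneg_left hlog1 (by positivity)
    have a2 : L * Real.log (q * T) ≤ 3 * T := by
      have : L * Real.log (q * T) ≤ L * (3 * L) := mul_le_mul_of_nonneg_left hlog2 (by linarith)
      linarith [show L * (3 * L) = 3 * L ^ 2 by ring]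
    have a3 : T * Real.log (q * T) ^ 2 * Real.exp (-L ^ 2 / 2) ≤ T := by
      have b1 : Real.log (q * T) ^ 2 ≤ (3 * L) ^ 2 := pow_le_pow_left₀ (by linarith) hlog2 2
      have b2 : Real.log (q * T) ^ 2 * Real.exp (-L ^ 2 / 2) ≤ 1 := by
        refine le_trans (mul_le_mul_of_nonneg_right b1 (Real.exp_pos _).le) ?_
        rw [show (3 * L) ^ 2 = 9 * L ^ 2 by ring]; exact p6
      calc _ = T * (Real.log (q * T) ^ 2 * Real.exp (-L ^ 2 / 2)) := by ring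
        _ ≤ T * 1 := mul_le_mul_of_nonneg_left b2 hTpos.le
        _ = T := mul_one T
    have a4 : C2 * (T + L * Real.log (q * T) + T * Real.log (q * T) ^ 2 * Real.exp (-L ^ 2 / 2)) ≤
        C2 * (5 * T) := mul_le_mul_of_nonneg_left (by linarith) hC2.le
    linarith
  have hL0L : ε / 8 * L0 ≤ ε / 8 * L := mul_le_mul_of_nonneg_left hLL0 (by positivity)
  have hL0L' : ε / 2 * L0 ≤ ε / 2 * L := mul_le_mul_of_nonneg_left hLL0 (by positivity)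
  have core : ∀ (D : ℝ) (SM : ℝ), 0 < D → D ≤ CC →
      SM ≤ WW X Y * ((1 + 2 * η) * L) ^ 2 * Rw γ 0 * T / (2 * Real.pi * (β * L)) +
        (2 / (Real.sqrt Real.pi * (β * L))) * (∫ u in (0 : ℝ)..(β * L), Rw γ (u / (β * L)) * Yf u) +
      D * (WW X Y * (((1 + 2 * η) * L) ^ 2 * L / (β * L) + ((1 + 2 * η) * L) * T / (β * L) +
        L * ((1 + 2 * η) * L)) + Real.sqrt (WW X Y) * ((1 + 2 * η) * L) * T *
          (Real.sqrt y1 + Real.sqrt y2) / (β * L)) →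
      SM ≤ (Rw γ 0 / β + c' + ε) * primFam X Y (fun q χ => (NN (LF q χ) T (2 * T) : ℝ)) := by
    intro D SM hD hDC hSM
    refine numeric_core β c' ε (Rw γ 0) D C2 η ε1 L T (WW X Y) _ SM _ _ hβ hc' hε hR0 hD hC2 hη hη1
      hε1 hL8 hT1 hW0 hη2 hε1a ?_ ?_ ?_ m4 m5 hSM hN
    · refine le_trans ?_ (hL0c.trans hL0L)
      have : 0 ≤ (12 / β + 3) * (2 * Real.pi) := by positivity
      rw [mul_assoc, mul_assoc]
      exact mul_le_mul_of_nonneg_right hDC this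
    · refine le_trans ?_ hε1b
      gcongr
    · exact hL0d.trans hL0L'
  refine core C1 _ hC1 le_rfl ?_
  rw [primFam_eq]
  rw [hWs] at k1
  refine k1.trans (le_of_eq ?_)
  ring

/-- the family theorem, given a numerical bound for the constant -/
theorem final_of_const_w (W : (ℂ → ℂ) → ℂ → ℝ)
    (hW1 : ∀ F s, 1 ≤ mult F s → W F s ≤ 4 * (mult F s : ℝ) - kk F s)
    (hW2 : ∀ F s, 1 ≤ mult F s → W F s ≤ 3 * (mult F s : ℝ)) (γ c : ℝ) (h0 : 0 < γ) (hπ : γ < Real.pi)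
    (hc : Rw γ 0 / 2 + 2 * (∫ α in (0 : ℝ)..1, min (2 * α) 1 * Rw γ α) < c) :
    ∃ K η X0 : ℝ, 1 ≤ K ∧ 0 < η ∧ 1 ≤ X0 ∧
    ∀ (X Y : ℕ) (T : ℝ), X0 ≤ X → K * X ≤ Y → (Y : ℝ) ≤ (X : ℝ) ^ (1 + η) →
      (Real.log X) ^ 2 ≤ T → T ≤ (X : ℝ) ^ η →
      primFam X Y (fun q χ => SW W (LF q χ) T) ≤
        c * primFam X Y (fun q χ => (NN (LF q χ) T (2 * T) : ℝ)) := by
  set R0 : ℝ := Rw γ 0 with hR0
  have hR0n : 0 ≤ R0 := Rw_nonneg γ h0 hπ 0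
  set J : ℝ := ∫ α in (0 : ℝ)..1, min (2 * α) 1 * Rw γ α with hJ
  set d : ℝ := c - (R0 / 2 + 2 * J) with hd
  have hd0 : 0 < d := by rw [hd]; linarith
  -- choose β
  set s : ℝ := min (1 / 2) (d / (R0 + 1)) with hs
  have hs0 : 0 < s := by positivity
  have hs1 : s ≤ 1 / 2 := min_le_left _ _
  have hs2 : R0 * s ≤ d := by
    have h1 : s ≤ d / (R0 + 1) := min_le_right _ _
    calc R0 * s ≤ R0 * (d / (R0 + 1)) := mul_le_mul_of_nonneg_left h1 hR0n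
      _ = d * (R0 / (R0 + 1)) := by ring
      _ ≤ d * 1 := by
        refine mul_le_mul_of_nonneg_left ?_ hd0.le
        rw [div_le_one (by positivity)]; linarith
      _ = d := mul_one d
  set β : ℝ := 2 - s with hβ
  have hβ1 : 1 < β := by rw [hβ]; linarith
  have hβ2 : β < 2 := by rw [hβ]; linarith
  have hβ0 : 0 < β := by linarith
  have hR := H385.Rw_cont γ h0 hπ
  have c1 : Continuous (fun α : ℝ => min (2 * α) 1 * Rw γ α) := by fun_prop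
  have c2 : Continuous (fun α : ℝ => min (β * α) 1 * Rw γ α) := by fun_prop
  have e1 : ∫ α in (0 : ℝ)..1, min (β * α) 1 * Rw γ α ≤ J := by
    refine intervalIntegral.integral_mono_on zero_le_one (c2.intervalIntegrable _ _)
      (c1.intervalIntegrable _ _) (fun α hα => ?_)
    refine mul_le_mul_of_nonneg_right ?_ (Rw_nonneg γ h0 hπ α)
    exact min_le_min_right _ (mul_le_mul_of_nonneg_right hβ2.le hα.1)
  have e2 : R0 / β ≤ R0 / 2 + d / 2 := by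
    have : R0 / β = R0 / 2 + R0 * s / (2 * β) := by
      rw [hβ]
      have : (2 - s) ≠ 0 := by linarith
      field_simp
      ring
    rw [this]
    have h3 : R0 * s / (2 * β) ≤ d / 2 := by
      rw [div_le_div_iff₀ (by positivity) (by norm_num)]
      nlinarith [mul_nonneg hR0n hs0.le]
    linarith
  have hcp : 0 ≤ 2 * (∫ α in (0 : ℝ)..1, min (β * α) 1 * Rw γ α) := by
    refine mul_nonneg (by norm_num) (intervalIntegral.integral_nonneg zero_le_one (fun α hα => ?_))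
    exact mul_nonneg (le_min (mul_nonneg hβ0.le hα.1) zero_le_one) (Rw_nonneg γ h0 hπ α)
  obtain ⟨K, η, X0, hK, hη, hX0, h⟩ := final_core_w W hW1 hW2 γ β _ h0 hπ hβ0 hcp hR0n
    (HY_stage2 γ β h0 hπ hβ1 hβ2) (d / 2) (by positivity)
  refine ⟨K, η, X0, hK, hη, hX0, ?_⟩
  intro X Y T a1 a2 a3 a4 a5
  have b1 := h X Y T a1 a2 a3 a4 a5
  have hN : 0 ≤ primFam X Y (fun q χ => (NN (LF q χ) T (2 * T) : ℝ)) :=
    primFam_nonneg _ _ _ (fun _ _ => Nat.cast_nonneg _)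
  have hcc : R0 / β + 2 * (∫ α in (0 : ℝ)..1, min (β * α) 1 * Rw γ α) + d / 2 ≤ c := by
    have : R0 / 2 + 2 * J + d = c := by rw [hd]; ring
    linarith
  have hcc' := mul_le_mul_of_nonneg_right hcc hN
  exact b1.trans hcc'

/-- stage 2 with a general weight -/
theorem stage2_w (W : (ℂ → ℂ) → ℂ → ℝ)
    (hW1 : ∀ F s, 1 ≤ mult F s → W F s ≤ 4 * (mult F s : ℝ) - kk F s)
    (hW2 : ∀ F s, 1 ≤ mult F s → W F s ≤ 3 * (mult F s : ℝ)) :
    ∃ K η X0 : ℝ, 1 ≤ K ∧ 0 < η ∧ 1 ≤ X0 ∧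
    ∀ (X Y : ℕ) (T : ℝ), X0 ≤ X → K * X ≤ Y → (Y : ℝ) ≤ (X : ℝ) ^ (1 + η) →
      (Real.log X) ^ 2 ≤ T → T ≤ (X : ℝ) ^ η →
      primFam X Y (fun q χ => SW W (LF q χ) T) ≤
        1.0678 * primFam X Y (fun q χ => (NN (LF q χ) T (2 * T) : ℝ)) := by
  have hπ : (11 / 5 : ℝ) < Real.pi := by linarith [Real.pi_gt_three]
  exact final_of_const_w W hW1 hW2 (11 / 5) 1.0678 (by norm_num) hπ
    (lt_of_le_of_lt Rw_const_sharp (by norm_num))

end Pool.Agent.R321.RA
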