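import Pool.Agent.R321.RA0
import Pool.Agent.R321.RA1
import Pool.Agent.R304.DS.Dir
import Pool.Agent.W69.DZ.Trace

/-!
# The derivative of Hardy's function at its zeros in the family of all primitive characters
-/

open Complex Filter Topology Set MeasureTheory
open H370 (zset mult NN Nd Ns)

namespace Pool.Agent.R321.RA

open H385 H385.PerChi

open Classical in
/-- the weight `2 m - [simple critical zero] + excess` -/
noncomputable def WE (F : ℂ → ℂ) (s : ℂ) : ℝ :=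
  2 * (mult F s : ℝ) - (if (s.re = 1 / 2 ∧ mult F s = 1) then 1 else 0) +
    (((if s.re = 1 / 2 then mult F s - 2 else mult F s - 1 : ℕ)) : ℝ)

lemma WE1 (F : ℂ → ℂ) (s : ℂ) (hs : 1 ≤ mult F s) : WE F s ≤ 4 * (mult F s : ℝ) - kk F s := by
  have hs' : (1 : ℝ) ≤ (mult F s : ℝ) := by exact_mod_cast hs
  unfold WE kk
  by_cases h2 : s.re = 1 / 2
  · by_cases h3 : mult F s = 1
    · have h7 : (mult F s : ℝ) = 1 := by rw [h3]; norm_num
      have h8 : mult F s - 2 = 0 := by omega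
      simp only [if_pos h2, if_pos h3, if_pos (And.intro h2 h3), h8, Nat.cast_zero]; linarith
    · have h4 : 2 ≤ mult F s := by omega
      have h5 : (2 : ℝ) ≤ (mult F s : ℝ) := by exact_mod_cast h4
      have h6 : ¬ (s.re = 1 / 2 ∧ mult F s = 1) := fun h => h3 h.2
      have h8 : ((mult F s - 2 : ℕ) : ℝ) = (mult F s : ℝ) - 2 := by
        rw [Nat.cast_sub h4]; norm_num
      simp only [if_pos h2, if_neg h3, if_neg h6, h8]; linarith
  · have h6 : ¬ (s.re = 1 / 2 ∧ mult F s = 1) := fun h => h2 h.1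
    have h8 : ((mult F s - 1 : ℕ) : ℝ) = (mult F s : ℝ) - 1 := by
      rw [Nat.cast_sub hs]; norm_num
    simp only [if_neg h2, if_neg h6, h8]; linarith

lemma WE2 (F : ℂ → ℂ) (s : ℂ) (hs : 1 ≤ mult F s) : WE F s ≤ 3 * (mult F s : ℝ) := by
  have hs' : (1 : ℝ) ≤ (mult F s : ℝ) := by exact_mod_cast hs
  unfold WE
  have h1 : (((if s.re = 1 / 2 then mult F s - 2 else mult F s - 1 : ℕ)) : ℝ) ≤ (mult F s : ℝ) := by
    have : (if s.re = 1 / 2 then mult F s - 2 else mult F s - 1 : ℕ) ≤ mult F s := by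
      split_ifs <;> omega
    exact_mod_cast this
  have h2 : (0 : ℝ) ≤ (if (s.re = 1 / 2 ∧ mult F s = 1) then 1 else 0) := by
    split_ifs <;> norm_num
  linarith

/-- the sum of the weight in terms of the counting functions -/
lemma SW_WE {F : ℂ → ℂ} (hF : H370.GoodL F) {T : ℝ} (hT : 1 ≤ T) :
    SW WE F T = 2 * (NN F T (2 * T) : ℝ) - (Ns F T (2 * T) : ℝ) + (W69DZ.EX F T (2 * T) : ℝ) := by
  classical
  have hfin : (zset F T (2 * T)).Finite := H370.zset_finite hF T _ hT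
  unfold SW WE
  rw [finsum_mem_eq_finite_toFinset_sum _ hfin, Finset.sum_add_distrib, Finset.sum_sub_distrib,
    ← Finset.mul_sum]
  congr 1
  · congr 1
    · congr 1
      unfold NN
      rw [finsum_mem_eq_finite_toFinset_sum _ hfin]
      push_cast; rfl
    · unfold Ns
      have : {s : ℂ | s ∈ zset F T (2 * T) ∧ s.re = 1 / 2 ∧ mult F s = 1} =
          ((hfin.toFinset.filter (fun s => s.re = 1 / 2 ∧ mult F s = 1) : Finset ℂ) : Set ℂ) := by
        ext s
        simp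
      rw [this, Set.ncard_coe_finset, Finset.card_filter]
      push_cast
      exact Finset.sum_congr rfl fun _ _ => by congr
  · unfold W69DZ.EX
    rw [finsum_mem_eq_finite_toFinset_sum _ hfin]
    push_cast
    exact Finset.sum_congr rfl fun _ _ => by congr

/-- the number of zeros of a Hardy function with positive, and with negative, derivative -/
def Balanced (F : ℂ → ℂ) (T : ℝ) (p : ℕ) : Prop :=
  Ns F T (2 * T) ≤ 2 * p + 1 + W69DZ.EX F T (2 * T)

/-- the family average of a number `p` with `Ns ≤ 2 p + 1 + EX` -/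
theorem fam_balanced : ∃ K η : ℝ, 1 ≤ K ∧ 0 < η ∧ ∀ ε : ℝ, 0 < ε → ∃ X0 : ℝ, 1 ≤ X0 ∧
    ∀ (X Y : ℕ) (T : ℝ), X0 ≤ X → K * X ≤ Y → (Y : ℝ) ≤ (X : ℝ) ^ (1 + η) →
      (Real.log X) ^ 2 ≤ T → T ≤ (X : ℝ) ^ η →
      ∀ p : (q : ℕ) → DirichletCharacter ℂ q → ℕ,
      (∀ (q : ℕ) (χ : DirichletCharacter ℂ q), X < q → q ≤ Y → χ.IsPrimitive →
        Balanced (LF q χ) T (p q χ)) →
      (0.4661 - ε) * primFam X Y (fun q χ => (NN (LF q χ) T (2 * T) : ℝ)) ≤
        primFam X Y (fun q χ => (p q χ : ℝ)) := by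
  obtain ⟨K, η, X1, hK, hη, hX1, hmain⟩ := stage2_w WE WE1 WE2
  refine ⟨K, min η 1, hK, lt_min hη one_pos, fun ε hε => ?_⟩
  obtain ⟨X2, hX2, hmany⟩ := fam_many (1 / (2 * ε))
  refine ⟨max X1 X2, hX2.trans (le_max_right _ _), ?_⟩
  intro X Y T hX hKX hY hT1 hT2 p hp
  have hη' : 0 < min η 1 := lt_min hη one_pos
  have hXX1 : X1 ≤ X := (le_max_left _ _).trans hX
  have hXX2 : X2 ≤ X := (le_max_right _ _).trans hX
  have hX1 : (1 : ℝ) ≤ X := hX2.trans hXX2
  obtain ⟨hTone, hN⟩ := hmany X Y T (min η 1) hXX2 hη' (min_le_right _ _) hY hT1 hT2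
  have h1 := hmain X Y T hXX1 hKX
    (hY.trans (Real.rpow_le_rpow_of_exponent_le hX1 (by linarith [min_le_left η 1]))) hT1
    (hT2.trans (Real.rpow_le_rpow_of_exponent_le hX1 (min_le_left _ _)))
  have hpt : ∀ (q : ℕ) (χ : DirichletCharacter ℂ q), X < q → q ≤ Y → χ.IsPrimitive →
      (2 - 2 * ε) * (NN (LF q χ) T (2 * T) : ℝ) - 1 * SW WE (LF q χ) T ≤ 2 * (p q χ : ℝ) := by
    intro q χ hq1 hq2 hχ
    have hq : NeZero q := ⟨by omega⟩
    have hg : H370.GoodL (LF q χ) := by rw [LF_eq]; exact H370.good_dirichlet χ hχ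
    have hn := hN q χ hq1 hq2 hχ
    rw [div_le_iff₀ (by positivity)] at hn
    have hb : (Ns (LF q χ) T (2 * T) : ℝ) ≤ 2 * (p q χ : ℝ) + 1 + (W69DZ.EX (LF q χ) T (2 * T) : ℝ) := by
      have := hp q χ hq1 hq2 hχ
      unfold Balanced at this
      exact_mod_cast this
    rw [SW_WE hg hTone]
    linarith
  have m1 := primFam_mono X Y _ _ hpt
  have l1 := primFam_lin X Y (2 - 2 * ε) 1 (fun q χ => (NN (LF q χ) T (2 * T) : ℝ))
    (fun q χ => SW WE (LF q χ) T)
  have l2 := primFam_lin X Y 2 0 (fun q χ => (p q χ : ℝ)) (fun q χ => (p q χ : ℝ))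
  simp only [zero_mul, sub_zero] at l2
  rw [l1, l2] at m1
  linarith

end Pool.Agent.R321.RA
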