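import Pool.Agent.H385R2.PrimMass
import Pool.Agent.H385R2.PrimSet

/-!
# The sum of the values of the primitive characters

For `n ≥ 2` the sum of `χ(n)` over all primitive characters `χ` modulo `q` is at most the sum of the
common divisors of `q` and `n - 1`; with the weight `q⁻²` the sum over `X < q ≤ Y` is at most
`2 τ(n - 1) / X`.
-/

open Complex Filter Topology Set MeasureTheory

set_option maxHeartbeats 4000000

namespace Pool.Agent.R321.RC

open H385

/-- the primitive characters modulo `q` -/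
noncomputable def PF (q : ℕ) : Finset (DirichletCharacter ℂ q) :=
  if h : q ≠ 0 then (prim_finite q h).toFinset else ∅

lemma mem_PF {q : ℕ} (hq : q ≠ 0) (χ : DirichletCharacter ℂ q) : χ ∈ PF q ↔ χ.IsPrimitive := by
  unfold PF
  rw [dif_pos hq]
  simp

lemma primSet_eq (X Y : ℕ) : primSet X Y = (Finset.Ioc X Y).sigma PF := rfl

/-- the sum of the values at `n` of the primitive characters modulo `q` -/
noncomputable def sps (q n : ℕ) : ℂ := ∑ χ ∈ PF q, χ (n : ZMod q)

lemma sps_of_not_coprime {q n : ℕ} (h : ¬ Nat.Coprime n q) : sps q n = 0 := by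
  refine Finset.sum_eq_zero fun χ _ => ?_
  apply MulChar.map_nonunit
  rw [ZMod.isUnit_iff_coprime]
  exact h

open Classical in
lemma sps_fiber (q : ℕ) [NeZero q] (n : ℕ) (hn : Nat.Coprime n q) (d : ℕ) (hd : d ∣ q) :
    ∑ χ ∈ (Finset.univ : Finset (DirichletCharacter ℂ q)).filter (fun χ => χ.conductor = d),
      χ (n : ZMod q) = sps d n := by
  have hd0 : d ≠ 0 := by
    rintro rfl
    exact NeZero.ne q (Nat.eq_zero_of_zero_dvd hd)
  have : NeZero d := ⟨hd0⟩
  have himg : (Finset.univ : Finset (DirichletCharacter ℂ q)).filter (fun χ => χ.conductor = d) =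
      (PF d).image (DirichletCharacter.changeLevel hd) := by
    ext χ
    simp only [Finset.mem_filter, Finset.mem_univ, true_and, Finset.mem_image]
    constructor
    · intro hc
      subst hc
      exact ⟨χ.primitiveCharacter, (mem_PF hd0 _).2 χ.primitiveCharacter_isPrimitive,
        χ.changeLevel_primitiveCharacter⟩
    · rintro ⟨χ0, h0, rfl⟩
      rw [DirichletCharacter.conductor_changeLevel]
      exact (mem_PF hd0 _).1 h0
  rw [himg, Finset.sum_image fun x _ y _ h => DirichletCharacter.changeLevel_injective hd h]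
  unfold sps
  refine Finset.sum_congr rfl fun χ _ => ?_
  have hu : IsUnit ((n : ZMod q)) := (ZMod.isUnit_iff_coprime n q).2 hn
  obtain ⟨u, hu'⟩ := hu
  rw [← hu', DirichletCharacter.changeLevel_eq_cast_of_dvd χ hd u, hu', ZMod.cast_natCast hd]

lemma sum_sps {q : ℕ} (hq : 0 < q) (n : ℕ) (hn : Nat.Coprime n q) :
    ∑ d ∈ q.divisors, sps d n = if (n : ZMod q) = 1 then ((Nat.totient q : ℕ) : ℂ) else 0 := by
  classical
  have : NeZero q := ⟨hq.ne'⟩
  have h1 := DirichletCharacter.sum_characters_eq ℂ (n := q) (n : ZMod q)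
  rw [← h1, ← Finset.sum_fiberwise_of_maps_to (s := Finset.univ)
    (g := fun χ : DirichletCharacter ℂ q => χ.conductor) (t := q.divisors) (fun χ _ => by
      simp only [Nat.mem_divisors]
      exact ⟨χ.conductor_dvd_level, hq.ne'⟩) (fun χ => χ (n : ZMod q))]
  refine Finset.sum_congr rfl fun d hd => ?_
  rw [Nat.mem_divisors] at hd
  rw [← sps_fiber q n hn d hd.1]

lemma sps_moebius {q : ℕ} (hq : 0 < q) (n : ℕ) (hn : Nat.Coprime n q) :
    ∑ x ∈ q.divisorsAntidiagonal, (ArithmeticFunction.moebius x.1 : ℂ) *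
      (if (n : ZMod x.2) = 1 then ((Nat.totient x.2 : ℕ) : ℂ) else 0) = sps q n := by
  have h := (ArithmeticFunction.sum_eq_iff_sum_mul_moebius_eq_on (R := ℂ) {m | Nat.Coprime n m}
    (fun a b hab hb => Nat.Coprime.coprime_dvd_right hab hb)
    (f := fun d => sps d n)
    (g := fun d => if (n : ZMod d) = 1 then ((Nat.totient d : ℕ) : ℂ) else 0)).1
    (fun m hm hmn => sum_sps hm n hmn)
  exact h q hq hn

lemma natCast_eq_one_iff {d n : ℕ} (hn : 1 ≤ n) : (n : ZMod d) = 1 ↔ d ∣ n - 1 := by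
  have h : (n : ZMod d) = ((1 : ℕ) : ZMod d) ↔ d ∣ n - 1 := by
    rw [ZMod.natCast_eq_natCast_iff, Nat.ModEq.comm, Nat.modEq_iff_dvd' hn]
  rwa [Nat.cast_one] at h

lemma sps_norm_le {q : ℕ} (hq : 0 < q) {n : ℕ} (hn : 2 ≤ n) :
    ‖sps q n‖ ≤ ∑ d ∈ (n - 1).divisors, (if d ∣ q then (d : ℝ) else 0) := by
  have hnn : 0 ≤ ∑ d ∈ (n - 1).divisors, (if d ∣ q then (d : ℝ) else 0) :=
    Finset.sum_nonneg fun d _ => by split_ifs <;> positivity
  by_cases hc : Nat.Coprime n q
  swap
  · rw [sps_of_not_coprime hc, norm_zero]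
    exact hnn
  rw [← sps_moebius hq n hc]
  refine (norm_sum_le _ _).trans ?_
  have h1 : ∀ x ∈ q.divisorsAntidiagonal, ‖(ArithmeticFunction.moebius x.1 : ℂ) *
      (if (n : ZMod x.2) = 1 then ((Nat.totient x.2 : ℕ) : ℂ) else 0)‖ ≤
      (if x.2 ∣ n - 1 then (x.2 : ℝ) else 0) := by
    intro x _
    rw [norm_mul]
    have h2 : ‖(ArithmeticFunction.moebius x.1 : ℂ)‖ ≤ 1 := by
      rw [Complex.norm_intCast]
      exact_mod_cast ArithmeticFunction.abs_moebius_le_one
    by_cases h : x.2 ∣ n - 1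
    · rw [if_pos ((natCast_eq_one_iff (by omega)).2 h), if_pos h, Complex.norm_natCast]
      have h3 : ((Nat.totient x.2 : ℕ) : ℝ) ≤ (x.2 : ℝ) := by exact_mod_cast Nat.totient_le _
      calc _ ≤ 1 * ((Nat.totient x.2 : ℕ) : ℝ) := mul_le_mul_of_nonneg_right h2 (by positivity)
        _ ≤ (x.2 : ℝ) := by rw [one_mul]; exact h3
    · rw [if_neg (fun h' => h ((natCast_eq_one_iff (by omega)).1 h')), if_neg h]
      simp
  refine (Finset.sum_le_sum h1).trans (le_of_eq ?_)
  rw [Nat.sum_divisorsAntidiagonal' (f := fun _ d => if d ∣ n - 1 then (d : ℝ) else 0),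
    ← Finset.sum_filter, ← Finset.sum_filter]
  refine Finset.sum_congr ?_ fun _ _ => rfl
  ext d
  simp only [Finset.mem_filter, Nat.mem_divisors]
  constructor
  · rintro ⟨⟨h1, h2⟩, h3⟩
    exact ⟨⟨h3, by omega⟩, h1⟩
  · rintro ⟨⟨h1, h2⟩, h3⟩
    exact ⟨⟨h3, hq.ne'⟩, h1⟩

/-- multiples of `d` -/
lemma sum_mult (d : ℕ) (hd : 0 < d) (X : ℕ) (hX : 0 < X) (k : ℕ) :
    ∑ q ∈ Finset.Ioc X (X + k), (if d ∣ q then (d : ℝ) / (q : ℝ) ^ 2 else 0) ≤
      2 / (X : ℝ) - 2 / ((d : ℝ) * (((X + k) / d + 1 : ℕ) : ℝ)) := by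
  have hd0 : (0 : ℝ) < d := by exact_mod_cast hd
  have hX0 : (0 : ℝ) < X := by exact_mod_cast hX
  induction k with
  | zero =>
    simp only [add_zero, Finset.Ioc_self, Finset.sum_empty]
    rw [sub_nonneg]
    apply div_le_div_of_nonneg_left (by norm_num) hX0
    have h := Nat.lt_mul_div_succ X hd
    have h' : ((X : ℕ) : ℝ) < ((d * (X / d + 1) : ℕ) : ℝ) := by exact_mod_cast h
    rw [Nat.cast_mul] at h'
    exact h'.le
  | succ k ih =>
    rw [← add_assoc, ← Finset.Ioc_union_Ioc_eq_Ioc (a := X) (b := X + k) (c := X + k + 1)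
      (by omega) (by omega), Finset.sum_union]
    swap
    · rw [Finset.disjoint_left]
      intro a ha hb
      rw [Finset.mem_Ioc] at ha hb
      omega
    have e1 : Finset.Ioc (X + k) (X + k + 1) = {X + k + 1} := by
      ext a
      simp only [Finset.mem_Ioc, Finset.mem_singleton]
      omega
    rw [e1, Finset.sum_singleton]
    by_cases h : d ∣ X + k + 1
    · obtain ⟨m, hm⟩ := h
      have hm0 : 0 < m := by
        rcases Nat.eq_zero_or_pos m with h0 | h0
        · subst h0; omega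
        · exact h0
      have e2 : (X + k + 1) / d = m := by rw [hm]; exact Nat.mul_div_cancel_left m hd
      have e3 : (X + k) / d = m - 1 := by
        have : X + k = d * m - 1 := by omega
        rw [this]
        apply Nat.div_eq_of_lt_le
        · rw [Nat.sub_mul, one_mul]
          have := Nat.mul_comm m d
          omega
        · have h5 : (m - 1 + 1) * d = d * m := by
            rw [Nat.sub_add_cancel hm0, Nat.mul_comm]
          have h6 : 0 < d * m := Nat.mul_pos hd hm0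
          omega
      rw [if_pos ⟨m, hm⟩, e2]
      rw [e3] at ih
      have e4 : ((m - 1 + 1 : ℕ) : ℝ) = (m : ℝ) := by
        rw [Nat.sub_add_cancel hm0]
      rw [e4] at ih
      have hmr : (0 : ℝ) < m := by exact_mod_cast hm0
      have e5 : ((X + k + 1 : ℕ) : ℝ) = (d : ℝ) * m := by rw [hm]; push_cast; ring
      rw [e5]
      push_cast
      have e6 : (d : ℝ) / ((d : ℝ) * m) ^ 2 ≤ 2 / ((d : ℝ) * m) - 2 / ((d : ℝ) * (m + 1)) := by
        have e7 : 2 / ((d : ℝ) * m) - 2 / ((d : ℝ) * (m + 1)) = 2 / ((d : ℝ) * (m * (m + 1))) := by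
          field_simp
          ring
        rw [e7]
        have e8 : (d : ℝ) / ((d : ℝ) * m) ^ 2 = 1 / ((d : ℝ) * (m * m)) := by
          field_simp
        rw [e8, div_le_div_iff₀ (by positivity) (by positivity)]
        have : (1 : ℝ) ≤ m := by exact_mod_cast hm0
        nlinarith [mul_pos hd0 hmr]
      linarith
    · have e2 : (X + k + 1) / d = (X + k) / d := by
        rw [Nat.succ_div]
        rw [if_neg h, add_zero]
      rw [if_neg h, e2, add_zero]
      exact ih

/-- the weighted sum of the values of the characters of the family -/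
lemma fam_sps_le (X Y : ℕ) (hX : 0 < X) {n : ℕ} (hn : 2 ≤ n) :
    ‖∑ p ∈ primSet X Y, ((1 / (p.1 : ℝ) ^ 2 : ℝ) : ℂ) * p.2 (n : ZMod p.1)‖ ≤
      2 * ((n - 1).divisors.card : ℝ) / X := by
  have hX0 : (0 : ℝ) < X := by exact_mod_cast hX
  rw [primSet_eq, Finset.sum_sigma]
  have e1 : ∀ q ∈ Finset.Ioc X Y, ∑ χ ∈ PF q, ((1 / (q : ℝ) ^ 2 : ℝ) : ℂ) * χ (n : ZMod q) =
      ((1 / (q : ℝ) ^ 2 : ℝ) : ℂ) * sps q n := by
    intro q _
    rw [← Finset.mul_sum]
    rfl
  simp only
  rw [Finset.sum_congr rfl e1]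
  refine (norm_sum_le _ _).trans ?_
  have e2 : ∀ q ∈ Finset.Ioc X Y, ‖((1 / (q : ℝ) ^ 2 : ℝ) : ℂ) * sps q n‖ ≤
      ∑ d ∈ (n - 1).divisors, (if d ∣ q then (d : ℝ) / (q : ℝ) ^ 2 else 0) := by
    intro q hq
    rw [Finset.mem_Ioc] at hq
    rw [norm_mul, Complex.norm_real, Real.norm_of_nonneg (by positivity)]
    refine (mul_le_mul_of_nonneg_left (sps_norm_le (by omega) hn) (by positivity)).trans
      (le_of_eq ?_)
    rw [Finset.mul_sum]
    refine Finset.sum_congr rfl fun d _ => ?_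
    split_ifs
    · ring
    · ring
  refine (Finset.sum_le_sum e2).trans ?_
  rw [Finset.sum_comm]
  have e3 : ∀ d ∈ (n - 1).divisors, ∑ q ∈ Finset.Ioc X Y,
      (if d ∣ q then (d : ℝ) / (q : ℝ) ^ 2 else 0) ≤ 2 / (X : ℝ) := by
    intro d hd
    have hd0 : 0 < d := Nat.pos_of_mem_divisors hd
    have hdr : (0 : ℝ) < d := by exact_mod_cast hd0
    rcases le_or_gt X Y with h | h
    · obtain ⟨k, rfl⟩ := Nat.exists_eq_add_of_le h
      refine (sum_mult d hd0 X hX k).trans ?_
      have : 0 ≤ 2 / ((d : ℝ) * (((X + k) / d + 1 : ℕ) : ℝ)) := by positivity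
      linarith
    · rw [Finset.Ioc_eq_empty (by omega), Finset.sum_empty]
      positivity
  refine (Finset.sum_le_sum e3).trans (le_of_eq ?_)
  rw [Finset.sum_const, nsmul_eq_mul]
  ring

end Pool.Agent.R321.RC
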