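import Pool.Agent.R321.RC1
import Pool.Agent.H385R2.FamBase
import Pool.Agent.H385R2.NTW2
import Pool.Agent.H369R2.S6a

/-!
# The mean square of the average of the prime sums over the family

The average over the family of all primitive characters of the prime sums is small up to the length
`X^(2-ε)`.
-/

open Complex Filter Topology Set MeasureTheory

set_option maxHeartbeats 4000000

namespace Pool.Agent.R321.RC

open H385

/-- the coefficients of `- L'/L` -/
noncomputable def cf (p : IX) (n : ℕ) : ℂ :=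
  p.2 (n : ZMod p.1) * (ArithmeticFunction.vonMangoldt n : ℂ)

lemma cf_norm (p : IX) (n : ℕ) : ‖cf p n‖ ≤ ArithmeticFunction.vonMangoldt n := by
  unfold cf
  rw [norm_mul, Complex.norm_real, Real.norm_of_nonneg ArithmeticFunction.vonMangoldt_nonneg]
  exact mul_le_of_le_one_left ArithmeticFunction.vonMangoldt_nonneg
    (DirichletCharacter.norm_le_one _ _)

lemma Pf_summable {a : ℕ → ℂ} (ha : ∀ n, ‖a n‖ ≤ ArithmeticFunction.vonMangoldt n)
    (T u t : ℝ) (hT : 0 ≤ T) :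
    Summable (fun n : ℕ => a n * ((Real.sqrt n : ℂ)⁻¹ * bt T u t (Real.log n))) :=
  Summable.of_norm_bounded ((fa_term_summable u).mul_right (wt T t))
    fun n => fa_term_bound ha T u t hT n

lemma Pf_add {a b : ℕ → ℂ} (ha : ∀ n, ‖a n‖ ≤ ArithmeticFunction.vonMangoldt n)
    (hb : ∀ n, ‖b n‖ ≤ ArithmeticFunction.vonMangoldt n) (T u t : ℝ) (hT : 0 ≤ T) :
    Pf (fun n => a n + b n) T u t = Pf a T u t + Pf b T u t := by
  unfold Pf
  rw [← (Pf_summable ha T u t hT).tsum_add (Pf_summable hb T u t hT)]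
  exact tsum_congr fun n => by ring

lemma Pf_sum {ι : Type*} (s : Finset ι) (ω : ι → ℝ) (a : ι → ℕ → ℂ)
    (ha : ∀ i ∈ s, ∀ n, ‖a i n‖ ≤ ArithmeticFunction.vonMangoldt n) (T u t : ℝ) (hT : 0 ≤ T) :
    Pf (fun n => ∑ i ∈ s, (ω i : ℂ) * a i n) T u t = ∑ i ∈ s, (ω i : ℂ) * Pf (a i) T u t := by
  unfold Pf
  rw [Finset.sum_congr rfl fun i _ => (tsum_mul_left (a := (ω i : ℂ))
    (f := fun n : ℕ => a i n * ((Real.sqrt n : ℂ)⁻¹ * bt T u t (Real.log n)))).symm]
  rw [← Summable.tsum_finsetSum (fun i hi => (Pf_summable (ha i hi) T u t hT).mul_left _)]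
  refine tsum_congr fun n => ?_
  rw [Finset.sum_mul]
  exact Finset.sum_congr rfl fun i _ => by ring

/-- the pointwise bound for coefficients bounded by `D Λ(n) τ(n-1)` -/
theorem Pf_small (ε : ℝ) (hε : 0 < ε) (hε1 : ε ≤ 1) : ∃ C : ℝ, 0 < C ∧ ∀ (b : ℕ → ℂ) (D : ℝ), 0 ≤ D →
    (∀ n, 2 ≤ n → ‖b n‖ ≤ D * ((n - 1).divisors.card : ℝ) * ArithmeticFunction.vonMangoldt n) →
    (∀ n, n < 2 → b n = 0) →
    ∀ (T u : ℝ), 1 ≤ T → 0 ≤ u →
      ∫ t : ℝ, ‖Pf b T u t‖ ^ 2 ≤ C * (D ^ 2 * (T * Real.exp ((1 + 2 * ε) * u))) := by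
  obtain ⟨C1, hC1, hdiv⟩ := Pool.Agent.H369R2.divisor_bound ε hε
  obtain ⟨C2, hC2, hlam⟩ := lam_sqrt_crude
  obtain ⟨C3, hC3, hwt⟩ := wt_sq_int
  refine ⟨(C1 * Real.exp 2 * C2) ^ 2 * (1 + C3), by positivity, ?_⟩
  intro b D hD hb hb0 T u hT hu
  have hT0 : 0 ≤ T := by linarith
  obtain ⟨hs, hle⟩ := hlam u
  set G : ℝ := ∑' n : ℕ, ArithmeticFunction.vonMangoldt n / Real.sqrt n *
        Real.exp (-(u - Real.log n) ^ 2 / 8) with hG
  have hterm : ∀ (t : ℝ) (n : ℕ), ‖b n * ((Real.sqrt n : ℂ)⁻¹ * bt T u t (Real.log n))‖ ≤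
      (D * C1 * Real.exp 2 * Real.exp (ε * u) * wt T t) *
        (ArithmeticFunction.vonMangoldt n / Real.sqrt n * Real.exp (-(u - Real.log n) ^ 2 / 8)) := by
    intro t n
    have hw0 := wt_nonneg T t hT0
    have hL : 0 ≤ ArithmeticFunction.vonMangoldt n := ArithmeticFunction.vonMangoldt_nonneg
    rcases lt_or_ge n 2 with hn | hn
    · rw [hb0 n hn, zero_mul, norm_zero]
      positivity
    · have hn1 : (1 : ℝ) ≤ n := by exact_mod_cast (show 1 ≤ n by omega)
      have hn0 : (0 : ℝ) < n := by linarith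
      rw [norm_mul, norm_mul, norm_inv, Complex.norm_real, Real.norm_eq_abs,
        abs_of_nonneg (Real.sqrt_nonneg _)]
      have h1 := bt_norm T u t (Real.log n) hT0
      have h3 : 1 / Real.sqrt (2 * Real.pi) ≤ 1 := by
        rw [div_le_one (by positivity), Real.one_le_sqrt]
        linarith [Real.pi_gt_three]
      have h4 : ‖bt T u t (Real.log n)‖ ≤ Real.exp (-(u - Real.log n) ^ 2 / 4) * wt T t := by
        refine h1.trans ?_
        refine mul_le_mul_of_nonneg_right ?_ hw0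
        calc _ ≤ 1 * Real.exp (-(u - Real.log n) ^ 2 / 4) :=
              mul_le_mul_of_nonneg_right h3 (Real.exp_pos _).le
          _ = _ := one_mul _
      have h5 : ((n - 1).divisors.card : ℝ) ≤ C1 * Real.exp (ε * Real.log n) := by
        refine (hdiv (n - 1) (by omega)).trans ?_
        refine mul_le_mul_of_nonneg_left ?_ hC1.le
        have e1 : Real.exp (ε * Real.log n) = (n : ℝ) ^ ε := by
          rw [Real.rpow_def_of_pos hn0, mul_comm]
        rw [e1]
        refine Real.rpow_le_rpow (by positivity) ?_ hε.le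
        exact_mod_cast Nat.sub_le n 1
      have h6 : Real.exp (ε * Real.log n) * Real.exp (-(u - Real.log n) ^ 2 / 4) ≤
          Real.exp 2 * Real.exp (ε * u) * Real.exp (-(u - Real.log n) ^ 2 / 8) := by
        rw [← Real.exp_add, ← Real.exp_add, ← Real.exp_add]
        apply Real.exp_le_exp.2
        have : ε * (Real.log n - u) ≤ 2 + (u - Real.log n) ^ 2 / 8 := by
          have h7 : ε ^ 2 ≤ 1 := by nlinarith
          nlinarith [sq_nonneg (Real.log n - u - 4 * ε)]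
        linarith
      have h8 := hb n hn
      calc ‖b n‖ * ((Real.sqrt n)⁻¹ * ‖bt T u t (Real.log n)‖)
          ≤ (D * ((n - 1).divisors.card : ℝ) * ArithmeticFunction.vonMangoldt n) *
            ((Real.sqrt n)⁻¹ * (Real.exp (-(u - Real.log n) ^ 2 / 4) * wt T t)) := by gcongr
        _ ≤ (D * (C1 * Real.exp (ε * Real.log n)) * ArithmeticFunction.vonMangoldt n) *
            ((Real.sqrt n)⁻¹ * (Real.exp (-(u - Real.log n) ^ 2 / 4) * wt T t)) := by gcongr
        _ = (D * C1 * wt T t * (ArithmeticFunction.vonMangoldt n / Real.sqrt n)) *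
            (Real.exp (ε * Real.log n) * Real.exp (-(u - Real.log n) ^ 2 / 4)) := by
              rw [div_eq_mul_inv]; ring
        _ ≤ (D * C1 * wt T t * (ArithmeticFunction.vonMangoldt n / Real.sqrt n)) *
            (Real.exp 2 * Real.exp (ε * u) * Real.exp (-(u - Real.log n) ^ 2 / 8)) := by
              refine mul_le_mul_of_nonneg_left h6 ?_
              positivity
        _ = _ := by ring
  have hpt : ∀ t : ℝ, ‖Pf b T u t‖ ^ 2 ≤
      ((C1 * Real.exp 2 * C2) ^ 2 * (D ^ 2 * Real.exp ((1 + 2 * ε) * u))) * (wt T t) ^ 2 := by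
    intro t
    have hw0 := wt_nonneg T t hT0
    have h1 : ‖Pf b T u t‖ ≤ (D * C1 * Real.exp 2 * Real.exp (ε * u) * wt T t) * G := by
      unfold Pf
      have hs' := hs.mul_left (D * C1 * Real.exp 2 * Real.exp (ε * u) * wt T t)
      have hs'' : Summable (fun n : ℕ => ‖b n * ((Real.sqrt n : ℂ)⁻¹ * bt T u t (Real.log n))‖) :=
        Summable.of_nonneg_of_le (fun n => norm_nonneg _) (hterm t) hs'
      refine (norm_tsum_le_tsum_norm hs'').trans ?_
      rw [hG, ← tsum_mul_left]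
      exact hs''.tsum_le_tsum (hterm t) hs'
    have h2 : ‖Pf b T u t‖ ≤ (C1 * Real.exp 2 * C2) * (D * Real.exp (ε * u) * Real.exp (u / 2)) *
        wt T t := by
      refine h1.trans ?_
      calc (D * C1 * Real.exp 2 * Real.exp (ε * u) * wt T t) * G ≤
          (D * C1 * Real.exp 2 * Real.exp (ε * u) * wt T t) * (C2 * Real.exp (u / 2)) := by
            refine mul_le_mul_of_nonneg_left hle ?_
            positivity
        _ = _ := by ring
    refine (pow_le_pow_left₀ (norm_nonneg _) h2 2).trans (le_of_eq ?_)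
    have e1 : Real.exp ((1 + 2 * ε) * u) = (Real.exp (ε * u) * Real.exp (u / 2)) ^ 2 := by
      rw [← Real.exp_add, ← Real.exp_nat_mul]
      congr 1
      push_cast
      ring
    rw [e1]
    ring
  obtain ⟨hwi, hwle⟩ := hwt T hT0
  calc ∫ t : ℝ, ‖Pf b T u t‖ ^ 2 ≤
      ∫ t : ℝ, ((C1 * Real.exp 2 * C2) ^ 2 * (D ^ 2 * Real.exp ((1 + 2 * ε) * u))) * (wt T t) ^ 2 := by
        refine integral_mono_of_nonneg (Filter.Eventually.of_forall fun t => sq_nonneg _)
          (hwi.const_mul _) (Filter.Eventually.of_forall hpt)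
    _ = ((C1 * Real.exp 2 * C2) ^ 2 * (D ^ 2 * Real.exp ((1 + 2 * ε) * u))) *
        ∫ t : ℝ, (wt T t) ^ 2 := integral_const_mul _ _
    _ ≤ ((C1 * Real.exp 2 * C2) ^ 2 * (D ^ 2 * Real.exp ((1 + 2 * ε) * u))) * (T * (1 + C3)) := by
        refine mul_le_mul_of_nonneg_left (hwle.trans ?_) (by positivity)
        nlinarith
    _ = _ := by ring

/-- the mean square of the average of the prime sums -/
theorem cross_small (ε : ℝ) (hε : 0 < ε) (hε1 : ε ≤ 1) : ∃ C : ℝ, 0 < C ∧ ∀ (X Y : ℕ), 0 < X →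
    ∀ (T u : ℝ), 1 ≤ T → 0 ≤ u →
      ∫ t : ℝ, ‖∑ p ∈ primSet X Y, ((1 / (p.1 : ℝ) ^ 2 : ℝ) : ℂ) * Pf (cf p) T u t‖ ^ 2 ≤
        C * (T * Real.exp ((1 + 2 * ε) * u) / (X : ℝ) ^ 2) := by
  obtain ⟨C, hC, h⟩ := Pf_small ε hε hε1
  refine ⟨4 * C, by positivity, fun X Y hX T u hT hu => ?_⟩
  have hX0 : (0 : ℝ) < X := by exact_mod_cast hX
  have e1 : ∀ t, ∑ p ∈ primSet X Y, ((1 / (p.1 : ℝ) ^ 2 : ℝ) : ℂ) * Pf (cf p) T u t =
      Pf (fun n => ∑ p ∈ primSet X Y, ((1 / (p.1 : ℝ) ^ 2 : ℝ) : ℂ) * cf p n) T u t := fun t =>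
    (Pf_sum (primSet X Y) (fun p => 1 / (p.1 : ℝ) ^ 2) cf (fun p _ n => cf_norm p n) T u t
      (by linarith)).symm
  simp_rw [e1]
  have hfac : ∀ n : ℕ, ∑ p ∈ primSet X Y, ((1 / (p.1 : ℝ) ^ 2 : ℝ) : ℂ) * cf p n =
      (∑ p ∈ primSet X Y, ((1 / (p.1 : ℝ) ^ 2 : ℝ) : ℂ) * p.2 (n : ZMod p.1)) *
        (ArithmeticFunction.vonMangoldt n : ℂ) := by
    intro n
    rw [Finset.sum_mul]
    refine Finset.sum_congr rfl fun p _ => ?_
    unfold cf
    ring
  refine (h _ (2 / X) (by positivity) ?_ ?_ T u hT hu).trans (le_of_eq ?_)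
  · intro n hn
    rw [hfac n, norm_mul, Complex.norm_real,
      Real.norm_of_nonneg ArithmeticFunction.vonMangoldt_nonneg]
    refine mul_le_mul_of_nonneg_right ?_ ArithmeticFunction.vonMangoldt_nonneg
    refine (fam_sps_le X Y hX hn).trans (le_of_eq ?_)
    ring
  · intro n hn
    rw [hfac n]
    have : ArithmeticFunction.vonMangoldt n = 0 := by
      interval_cases n
      · simp
      · simp
    rw [this]
    simp
  · field_simp
    ring

end Pool.Agent.R321.RC
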