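import Pool.Agent.R321.RC0
import Pool.Agent.R321.RC2
import Pool.Agent.H385R2.FinDA
import Pool.Agent.H385R2.FinD

/-!
# Products of two Dirichlet L-functions, on average over all pairs of primitive characters
-/

open Complex Filter Topology Set MeasureTheory
open H370 (zset mult NN Nd Ns)

set_option maxHeartbeats 4000000

namespace Pool.Agent.R321.RC

open H385

lemma pair_id {ι : Type*} (s : Finset ι) (ω : ι → ℝ) (x : ι → ℂ) :
    ∑ z ∈ s ×ˢ s, (ω z.1 * ω z.2) * ‖x z.1 + x z.2‖ ^ 2 =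
      2 * (∑ i ∈ s, ω i) * (∑ i ∈ s, ω i * ‖x i‖ ^ 2) + 2 * ‖∑ i ∈ s, (ω i : ℂ) * x i‖ ^ 2 := by
  have h1 : ∀ a b : ℂ, ‖a + b‖ ^ 2 = ‖a‖ ^ 2 + ‖b‖ ^ 2 + 2 * (a * (starRingEnd ℂ) b).re := by
    intro a b
    rw [← Complex.normSq_eq_norm_sq, ← Complex.normSq_eq_norm_sq, ← Complex.normSq_eq_norm_sq,
      Complex.normSq_add]
  have h2 : ‖∑ i ∈ s, (ω i : ℂ) * x i‖ ^ 2 =
      ∑ i ∈ s, ∑ j ∈ s, (ω i * ω j) * (x i * (starRingEnd ℂ) (x j)).re := by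
    have e : ((‖∑ i ∈ s, (ω i : ℂ) * x i‖ ^ 2 : ℝ) : ℂ) =
        (∑ i ∈ s, (ω i : ℂ) * x i) * (starRingEnd ℂ) (∑ i ∈ s, (ω i : ℂ) * x i) := by
      rw [Complex.mul_conj, Complex.normSq_eq_norm_sq]
    have e2 := congrArg Complex.re e
    rw [Complex.ofReal_re] at e2
    rw [e2, map_sum, Finset.sum_mul_sum, Complex.re_sum]
    refine Finset.sum_congr rfl fun i _ => ?_
    rw [Complex.re_sum]
    refine Finset.sum_congr rfl fun j _ => ?_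
    rw [map_mul, Complex.conj_ofReal]
    have : (ω i : ℂ) * x i * ((ω j : ℂ) * (starRingEnd ℂ) (x j)) =
        ((ω i * ω j : ℝ) : ℂ) * (x i * (starRingEnd ℂ) (x j)) := by
      push_cast
      ring
    rw [this, Complex.re_ofReal_mul]
  rw [Finset.sum_product, h2]
  have h3 : ∀ i ∈ s, ∑ j ∈ s, (ω i * ω j) * ‖x i + x j‖ ^ 2 =
      (ω i * ‖x i‖ ^ 2) * (∑ j ∈ s, ω j) + ω i * (∑ j ∈ s, ω j * ‖x j‖ ^ 2) +
        2 * ∑ j ∈ s, (ω i * ω j) * (x i * (starRingEnd ℂ) (x j)).re := by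
    intro i _
    rw [Finset.mul_sum, Finset.mul_sum, Finset.mul_sum, ← Finset.sum_add_distrib,
      ← Finset.sum_add_distrib]
    refine Finset.sum_congr rfl fun j _ => ?_
    rw [h1]
    ring
  rw [Finset.sum_congr rfl h3, Finset.sum_add_distrib, Finset.sum_add_distrib, ← Finset.sum_mul,
    ← Finset.sum_mul, ← Finset.mul_sum]
  ring

/-- the pairs of primitive characters -/
noncomputable def PS (X Y : ℕ) : Finset (IX × IX) := primSet X Y ×ˢ primSet X Y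

/-- the weight of a pair -/
noncomputable def w2 (z : IX × IX) : ℝ := (1 / (z.1.1 : ℝ) ^ 2) * (1 / (z.2.1 : ℝ) ^ 2)

/-- the product of the two L-functions -/
noncomputable def F2 (z : IX × IX) : ℂ → ℂ := fun s => LF z.1.1 z.1.2 s * LF z.2.1 z.2.2 s

/-- sum over all pairs -/
noncomputable def avg2 (X Y : ℕ) (f : IX × IX → ℝ) : ℝ := ∑ z ∈ PS X Y, w2 z * f z

lemma w2_nonneg (z : IX × IX) : 0 ≤ w2 z := by unfold w2; positivity

lemma avg2_nonneg (X Y : ℕ) (f : IX × IX → ℝ) (hf : ∀ z, 0 ≤ f z) : 0 ≤ avg2 X Y f :=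
  Finset.sum_nonneg fun z _ => mul_nonneg (w2_nonneg z) (hf z)

lemma WW_eq (X Y : ℕ) : WW X Y = ∑ p ∈ primSet X Y, (1 / (p.1 : ℝ) ^ 2) := by
  unfold WW
  rw [primFam_eq]
  simp

lemma sum_w2 (X Y : ℕ) : ∑ z ∈ PS X Y, w2 z = WW X Y ^ 2 := by
  unfold PS w2
  rw [Finset.sum_product, WW_eq, sq, Finset.sum_mul_sum]

/-- the mean square for the pairs -/
theorem ms_pairs (ε0 : ℝ) (hε0 : 0 < ε0) (hε1 : ε0 ≤ 1) : ∃ C : ℝ, 0 < C ∧ ∀ (X Y : ℕ), 0 < X →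
    ∀ (T u Z : ℝ), 1 ≤ T → 0 ≤ u →
    ∫ t : ℝ, primFam X Y (fun q χ =>
      ‖∑' n : ℕ, (χ (n : ZMod q) * (ArithmeticFunction.vonMangoldt n : ℂ)) *
        ((Real.sqrt n : ℂ)⁻¹ * bt T u t (Real.log n))‖ ^ 2) ≤ Z →
    ∫ t : ℝ, ∑ z ∈ PS X Y, w2 z *
      ‖∑' n : ℕ, (cf z.1 n + cf z.2 n) * ((Real.sqrt n : ℂ)⁻¹ * bt T u t (Real.log n))‖ ^ 2 ≤
      2 * WW X Y * Z + C * (T * Real.exp ((1 + 2 * ε0) * u) / (X : ℝ) ^ 2) := by
  obtain ⟨C, hC, h⟩ := cross_small ε0 hε0 hε1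
  refine ⟨2 * C, by positivity, fun X Y hX T u Z hT hu hZ => ?_⟩
  have hT0 : 0 ≤ T := by linarith
  have hint : ∀ p : IX, Integrable (fun t => ‖Pf (cf p) T u t‖ ^ 2) := fun p =>
    fa_Pf_int (cf_norm p) T u hT0
  have hc : ∀ p : IX, Continuous (fun t => Pf (cf p) T u t) := fun p =>
    fa_Pf_cont (cf_norm p) T u hT0
  have e1 : ∀ t : ℝ, ∑ z ∈ PS X Y, w2 z *
      ‖∑' n : ℕ, (cf z.1 n + cf z.2 n) * ((Real.sqrt n : ℂ)⁻¹ * bt T u t (Real.log n))‖ ^ 2 =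
      2 * WW X Y * (∑ p ∈ primSet X Y, (1 / (p.1 : ℝ) ^ 2) * ‖Pf (cf p) T u t‖ ^ 2) +
      2 * ‖∑ p ∈ primSet X Y, ((1 / (p.1 : ℝ) ^ 2 : ℝ) : ℂ) * Pf (cf p) T u t‖ ^ 2 := by
    intro t
    rw [WW_eq, ← pair_id (primSet X Y) (fun p => 1 / (p.1 : ℝ) ^ 2) (fun p => Pf (cf p) T u t)]
    refine Finset.sum_congr rfl fun z _ => ?_
    have := Pf_add (cf_norm z.1) (cf_norm z.2) T u t hT0
    unfold Pf at this ⊢
    rw [this]
    rfl
  simp_rw [e1]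
  have hi1 : Integrable (fun t => ∑ p ∈ primSet X Y, (1 / (p.1 : ℝ) ^ 2) * ‖Pf (cf p) T u t‖ ^ 2) :=
    integrable_finset_sum _ fun p _ => (hint p).const_mul _
  have hi2 : Integrable (fun t => ‖∑ p ∈ primSet X Y,
      ((1 / (p.1 : ℝ) ^ 2 : ℝ) : ℂ) * Pf (cf p) T u t‖ ^ 2) := by
    refine Integrable.mono' (hi1.const_mul (∑ p ∈ primSet X Y, (1 / (p.1 : ℝ) ^ 2))) ?_ ?_
    · exact ((continuous_finset_sum _ fun p _ => continuous_const.mul (hc p)).norm.pow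
        2).aestronglyMeasurable
    · refine Filter.Eventually.of_forall fun t => ?_
      rw [Real.norm_of_nonneg (sq_nonneg _)]
      have k1 : ‖∑ p ∈ primSet X Y, ((1 / (p.1 : ℝ) ^ 2 : ℝ) : ℂ) * Pf (cf p) T u t‖ ≤
          ∑ p ∈ primSet X Y, Real.sqrt (1 / (p.1 : ℝ) ^ 2) *
            (Real.sqrt (1 / (p.1 : ℝ) ^ 2) * ‖Pf (cf p) T u t‖) := by
        refine (norm_sum_le _ _).trans (Finset.sum_le_sum fun p _ => ?_)
        rw [norm_mul, Complex.norm_real, Real.norm_of_nonneg (by positivity), ← mul_assoc,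
          Real.mul_self_sqrt (by positivity)]
      have k2 := Finset.sum_mul_sq_le_sq_mul_sq (primSet X Y)
        (fun p : IX => Real.sqrt (1 / (p.1 : ℝ) ^ 2))
        (fun p : IX => Real.sqrt (1 / (p.1 : ℝ) ^ 2) * ‖Pf (cf p) T u t‖)
      refine (pow_le_pow_left₀ (norm_nonneg _) k1 2).trans (k2.trans (le_of_eq ?_))
      congr 1
      · exact Finset.sum_congr rfl fun p _ => Real.sq_sqrt (by positivity)
      · refine Finset.sum_congr rfl fun p _ => ?_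
        rw [mul_pow, Real.sq_sqrt (by positivity)]
  rw [integral_add (hi1.const_mul _) (hi2.const_mul _), integral_const_mul, integral_const_mul]
  have hW : 0 ≤ WW X Y := primFam_nonneg _ _ _ (fun _ _ => zero_le_one)
  have hZ' : ∫ t : ℝ, ∑ p ∈ primSet X Y, (1 / (p.1 : ℝ) ^ 2) * ‖Pf (cf p) T u t‖ ^ 2 ≤ Z := by
    refine le_trans (le_of_eq ?_) hZ
    congr 1
    funext t
    rw [primFam_eq]
    rfl
  have h2 := h X Y hX T u hT hu
  have h3 : 2 * WW X Y * (∫ t : ℝ, ∑ p ∈ primSet X Y, (1 / (p.1 : ℝ) ^ 2) *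
      ‖Pf (cf p) T u t‖ ^ 2) ≤ 2 * WW X Y * Z := mul_le_mul_of_nonneg_left hZ' (by positivity)
  linarith

end Pool.Agent.R321.RC
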