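import Pool.Agent.R321.RC3

/-!
# Products of two Dirichlet L-functions: the family theorem
-/

open Complex Filter Topology Set MeasureTheory
open H370 (zset mult NN Nd Ns)

set_option maxHeartbeats 4000000

namespace Pool.Agent.R321.RC

open H385

lemma exp_neg_le {x : ℝ} (hx : 0 < x) : Real.exp (-x) ≤ 1 / x := by
  rw [Real.exp_neg, ← one_div]
  apply one_div_le_one_div_of_le hx
  linarith [Real.add_one_le_exp x]

/-- the mean square data for the pairs -/
theorem HY_pairs (γ β c' : ℝ) (h0 : 0 < γ) (hπ : γ < Real.pi) (hβ : 0 < β) (hβ1 : 1 < β)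
    (hβ2 : β < 2) (H : HY γ β c') (ε : ℝ) (hε : 0 < ε) :
    ∃ K η X0 : ℝ, 1 ≤ K ∧ 0 < η ∧ 1 ≤ X0 ∧
  ∀ (X Y : ℕ) (T : ℝ), X0 ≤ X → K * X ≤ Y → (Y : ℝ) ≤ (X : ℝ) ^ (1 + η) →
    (Real.log X) ^ 2 ≤ T → T ≤ (X : ℝ) ^ η →
  1 ≤ WW X Y ∧ ∃ (Yf : ℝ → ℝ) (y1 y2 : ℝ), 0 ≤ y1 ∧ 0 ≤ y2 ∧
    (∀ u ∈ Set.Icc 0 (β * Real.log X), ∫ t : ℝ, ∑ z ∈ PS X Y, w2 z *
      ‖∑' n : ℕ, (cf z.1 n + cf z.2 n) * ((Real.sqrt n : ℂ)⁻¹ * bt T u t (Real.log n))‖ ^ 2 ≤ Yf u) ∧
    (∀ u ∈ Set.Icc 0 (β * Real.log X), Yf u ≤ T * (y1 * (u + 1) + y2)) ∧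
    IntervalIntegrable Yf volume 0 (β * Real.log X) ∧
    (2 / (Real.sqrt Real.pi * (β * Real.log X))) * (∫ u in (0 : ℝ)..(β * Real.log X),
      Rw γ (u / (β * Real.log X)) * Yf u) ≤
      T / (2 * Real.pi) * Real.log X * (WW X Y ^ 2) * (2 * c' + ε) ∧
    Real.sqrt y1 + Real.sqrt y2 ≤ ε * Real.log X * Real.sqrt (WW X Y ^ 2) := by
  have hpi := Real.pi_pos
  set R0 : ℝ := Rw γ 0 with hR0
  have hR0n : 0 ≤ R0 := Rw_nonneg γ h0 hπ 0
  set δ : ℝ := (2 - β) / 2 with hδ
  have hδ0 : 0 < δ := by rw [hδ]; linarith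
  set ε0 : ℝ := (2 - β) / (4 * β) with hε0
  have hε00 : 0 < ε0 := by
    rw [hε0]
    have : 0 < 2 - β := by linarith
    positivity
  have hε01 : ε0 ≤ 1 := by
    rw [hε0, div_le_one (by positivity)]
    linarith
  have hexp : (1 + 2 * ε0) * β = 2 - δ := by
    rw [hε0, hδ]
    field_simp
    ring
  obtain ⟨C, hC, hms⟩ := ms_pairs ε0 hε00 hε01
  obtain ⟨C4, hC4, hmass⟩ := prim_mass
  obtain ⟨K, η, X0, hK, hη, hX0, hmain⟩ := H (ε / 4) (by positivity)
  have hc0 : 0 < c0 := by unfold c0; positivity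
  set L0 : ℝ := 1 + 8 * Real.pi * (R0 + 1) * C / (δ * ε) + 4 * Real.sqrt C / (δ * ε) with hL0
  refine ⟨max K (Real.exp ((C4 + 1) / c0 ^ 2)), η, max X0 (Real.exp L0), le_max_of_le_left hK, hη,
    le_max_of_le_left hX0, ?_⟩
  intro X Y T hX hKX hYX hT1 hT2
  have hXX0 : X0 ≤ X := (le_max_left _ _).trans hX
  have hXe : Real.exp L0 ≤ X := (le_max_right _ _).trans hX
  have hX1 : (1 : ℝ) ≤ X := hX0.trans hXX0
  have hXpos : (0 : ℝ) < X := by linarith
  have hXn : 1 ≤ X := by exact_mod_cast hX1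
  have hKX1 : K * X ≤ Y := (mul_le_mul_of_nonneg_right (le_max_left _ _) hXpos.le).trans hKX
  have hKX2 : Real.exp ((C4 + 1) / c0 ^ 2) * X ≤ Y :=
    (mul_le_mul_of_nonneg_right (le_max_right _ _) hXpos.le).trans hKX
  have hXYr : (X : ℝ) ≤ Y := NL.b11 hXpos.le hK hKX1
  have hXY : X ≤ Y := by exact_mod_cast hXYr
  have hYpos : (0 : ℝ) < Y := by linarith
  set L : ℝ := Real.log X with hL
  have hLL0 : L0 ≤ L := by rw [hL, Real.le_log_iff_exp_le hXpos]; exact hXe
  have hsC : 0 ≤ Real.sqrt C := Real.sqrt_nonneg _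
  have t1 : 0 ≤ 8 * Real.pi * (R0 + 1) * C / (δ * ε) := by positivity
  have t2 : 0 ≤ 4 * Real.sqrt C / (δ * ε) := by positivity
  have hL1 : 1 ≤ L := by linarith
  have hLa : 8 * Real.pi * (R0 + 1) * C / (δ * ε) ≤ L := by linarith
  have hLb : 4 * Real.sqrt C / (δ * ε) ≤ L := by linarith
  have hLp : 0 < L := by linarith
  have hT1' : 1 ≤ T := le_trans (by nlinarith) hT1
  have hTp : 0 < T := by linarith
  have hXexp : (X : ℝ) = Real.exp L := by rw [hL, Real.exp_log hXpos]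
  -- the mass
  have hW1 : 1 ≤ WW X Y := by
    have h1 := (abs_le.1 (hmass X Y hXn hXY)).1
    have h2 : (C4 + 1) / c0 ^ 2 ≤ Real.log ((Y : ℝ) / X) := by
      rw [Real.le_log_iff_exp_le (by positivity), le_div_iff₀ hXpos]
      exact hKX2
    rw [div_le_iff₀ (by positivity)] at h2
    have h3 : primFam X Y (fun _ _ => 1) = WW X Y := rfl
    rw [h3] at h1
    have h4 : c0 ^ 2 * Real.log ((Y : ℝ) / X) = Real.log ((Y : ℝ) / X) * c0 ^ 2 := mul_comm _ _
    linarith
  set W : ℝ := WW X Y with hW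
  have hW0 : 0 ≤ W := by linarith
  have hWW : W ≤ W ^ 2 := by nlinarith
  have hW2 : 1 ≤ W ^ 2 := by linarith
  obtain ⟨Yf, y1, y2, hy1, hy2, m1, m2, m3, m4, m5⟩ := hmain X Y T hXX0 hKX1 hYX hT1 hT2
  rw [← hL, ← hW] at m4 m5
  refine ⟨hW1, fun u => 2 * W * Yf u + C * (T * Real.exp ((1 + 2 * ε0) * u) / (X : ℝ) ^ 2),
    2 * W * y1, 2 * W * y2 + C * Real.exp (-(δ * L)), by positivity, by positivity, ?_, ?_, ?_, ?_, ?_⟩
  · intro u hu
    exact hms X Y hXn T u (Yf u) hT1' hu.1 (m1 u hu)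
  · intro u hu
    have b1 := m2 u hu
    have b2 : Real.exp ((1 + 2 * ε0) * u) / (X : ℝ) ^ 2 ≤ Real.exp (-(δ * L)) := by
      rw [hXexp, ← Real.exp_nat_mul, ← Real.exp_sub]
      apply Real.exp_le_exp.2
      have b3 : (1 + 2 * ε0) * u ≤ (1 + 2 * ε0) * (β * L) :=
        mul_le_mul_of_nonneg_left hu.2 (by positivity)
      have b4 : (1 + 2 * ε0) * (β * L) = (2 - δ) * L := by rw [← hexp]; ring
      push_cast
      linarith
    have b5 : 2 * W * Yf u ≤ 2 * W * (T * (y1 * (u + 1) + y2)) :=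
      mul_le_mul_of_nonneg_left b1 (by positivity)
    have b6 : C * (T * Real.exp ((1 + 2 * ε0) * u) / (X : ℝ) ^ 2) ≤ C * (T * Real.exp (-(δ * L))) := by
      refine mul_le_mul_of_nonneg_left ?_ hC.le
      rw [mul_div_assoc]
      exact mul_le_mul_of_nonneg_left b2 hTp.le
    have b7 : T * (2 * W * y1 * (u + 1) + (2 * W * y2 + C * Real.exp (-(δ * L)))) =
        2 * W * (T * (y1 * (u + 1) + y2)) + C * (T * Real.exp (-(δ * L))) := by ring
    simp only
    rw [b7]
    linarith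
  · exact (m3.const_mul _).add ((by fun_prop : Continuous (fun u : ℝ =>
      C * (T * Real.exp ((1 + 2 * ε0) * u) / (X : ℝ) ^ 2))).intervalIntegrable _ _)
  · have hβL : 0 < β * L := by positivity
    have hRc : Continuous (fun u : ℝ => Rw γ (u / (β * L))) :=
      (Rw_cont γ h0 hπ).comp (continuous_id.div_const _)
    have i1 : IntervalIntegrable (fun u => Rw γ (u / (β * L)) * (2 * W * Yf u)) volume 0 (β * L) :=
      (m3.const_mul _).continuousOn_mul hRc.continuousOn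
    have i2 : IntervalIntegrable (fun u => Rw γ (u / (β * L)) *
        (C * (T * Real.exp ((1 + 2 * ε0) * u) / (X : ℝ) ^ 2))) volume 0 (β * L) :=
      (hRc.mul (by fun_prop)).intervalIntegrable _ _
    have e1 : ∫ u in (0 : ℝ)..(β * L), Rw γ (u / (β * L)) *
        (2 * W * Yf u + C * (T * Real.exp ((1 + 2 * ε0) * u) / (X : ℝ) ^ 2)) =
        2 * W * (∫ u in (0 : ℝ)..(β * L), Rw γ (u / (β * L)) * Yf u) +
        ∫ u in (0 : ℝ)..(β * L), Rw γ (u / (β * L)) *
          (C * (T * Real.exp ((1 + 2 * ε0) * u) / (X : ℝ) ^ 2)) := by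
      rw [← intervalIntegral.integral_const_mul]
      have : ∀ u, 2 * W * (Rw γ (u / (β * L)) * Yf u) = Rw γ (u / (β * L)) * (2 * W * Yf u) :=
        fun u => by ring
      simp_rw [this]
      rw [← intervalIntegral.integral_add i1 i2]
      exact intervalIntegral.integral_congr fun u _ => by ring
    rw [e1, mul_add]
    have g1 : (2 / (Real.sqrt Real.pi * (β * L))) *
        (2 * W * (∫ u in (0 : ℝ)..(β * L), Rw γ (u / (β * L)) * Yf u)) ≤
        T / (2 * Real.pi) * L * W ^ 2 * (2 * c' + ε / 2) := by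
      have := mul_le_mul_of_nonneg_left m4 (show 0 ≤ 2 * W by positivity)
      calc _ = 2 * W * ((2 / (Real.sqrt Real.pi * (β * L))) *
          (∫ u in (0 : ℝ)..(β * L), Rw γ (u / (β * L)) * Yf u)) := by ring
        _ ≤ 2 * W * (T / (2 * Real.pi) * L * W * (c' + ε / 4)) := this
        _ = _ := by ring
    have g2 : ∫ u in (0 : ℝ)..(β * L), Rw γ (u / (β * L)) *
          (C * (T * Real.exp ((1 + 2 * ε0) * u) / (X : ℝ) ^ 2)) ≤
        ∫ u in (0 : ℝ)..(β * L), R0 * (C * (T * Real.exp (-(δ * L)))) := by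
      refine intervalIntegral.integral_mono_on hβL.le i2 (continuous_const.intervalIntegrable _ _)
        fun u hu => ?_
      have b2 : Real.exp ((1 + 2 * ε0) * u) / (X : ℝ) ^ 2 ≤ Real.exp (-(δ * L)) := by
        rw [hXexp, ← Real.exp_nat_mul, ← Real.exp_sub]
        apply Real.exp_le_exp.2
        have b3 : (1 + 2 * ε0) * u ≤ (1 + 2 * ε0) * (β * L) :=
          mul_le_mul_of_nonneg_left hu.2 (by positivity)
        have b4 : (1 + 2 * ε0) * (β * L) = (2 - δ) * L := by rw [← hexp]; ring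
        push_cast
        linarith
      refine mul_le_mul (Rw_le γ h0 hπ _ (div_nonneg hu.1 hβL.le)) ?_ (by positivity) hR0n
      refine mul_le_mul_of_nonneg_left ?_ hC.le
      rw [mul_div_assoc]
      exact mul_le_mul_of_nonneg_left b2 hTp.le
    rw [intervalIntegral.integral_const, smul_eq_mul, sub_zero] at g2
    have hs1 : 1 ≤ Real.sqrt Real.pi := by
      rw [Real.one_le_sqrt]; linarith [Real.pi_gt_three]
    have g3 : (2 / (Real.sqrt Real.pi * (β * L))) * (∫ u in (0 : ℝ)..(β * L), Rw γ (u / (β * L)) *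
          (C * (T * Real.exp ((1 + 2 * ε0) * u) / (X : ℝ) ^ 2))) ≤
        2 * (R0 * (C * (T * Real.exp (-(δ * L))))) := by
      calc _ ≤ (2 / (Real.sqrt Real.pi * (β * L))) * (β * L * (R0 * (C * (T * Real.exp (-(δ * L)))))) :=
            mul_le_mul_of_nonneg_left g2 (by positivity)
        _ = 2 / Real.sqrt Real.pi * (R0 * (C * (T * Real.exp (-(δ * L))))) := by field_simp
        _ ≤ 2 * (R0 * (C * (T * Real.exp (-(δ * L))))) := by
            refine mul_le_mul_of_nonneg_right (div_le_self (by norm_num) hs1) (by positivity)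
    have g4 : 2 * (R0 * (C * (T * Real.exp (-(δ * L))))) ≤
        T / (2 * Real.pi) * L * W ^ 2 * (ε / 2) := by
      have k1 : Real.exp (-(δ * L)) ≤ 1 / (δ * L) := exp_neg_le (by positivity)
      have k2 : 8 * Real.pi * R0 * C * Real.exp (-(δ * L)) ≤ ε := by
        have k3 : 8 * Real.pi * (R0 + 1) * C ≤ L * (δ * ε) := by
          rwa [div_le_iff₀ (by positivity)] at hLa
        calc 8 * Real.pi * R0 * C * Real.exp (-(δ * L)) ≤ 8 * Real.pi * (R0 + 1) * C * (1 / (δ * L)) := by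
              gcongr
              linarith
          _ ≤ (L * (δ * ε)) * (1 / (δ * L)) := mul_le_mul_of_nonneg_right k3 (by positivity)
          _ = ε := by field_simp
      have k4 : 2 * (R0 * (C * (T * Real.exp (-(δ * L))))) =
          T / (2 * Real.pi) * (8 * Real.pi * R0 * C * Real.exp (-(δ * L))) / 2 := by
        field_simp
        ring
      rw [k4]
      have k5 : T / (2 * Real.pi) * (8 * Real.pi * R0 * C * Real.exp (-(δ * L))) ≤
          T / (2 * Real.pi) * ε := mul_le_mul_of_nonneg_left k2 (by positivity)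
      have k6 : T / (2 * Real.pi) * ε * 1 ≤ T / (2 * Real.pi) * ε * (L * W ^ 2) := by
        refine mul_le_mul_of_nonneg_left ?_ (by positivity)
        nlinarith
      nlinarith
    have g5 : T / (2 * Real.pi) * L * W ^ 2 * (2 * c' + ε) =
        T / (2 * Real.pi) * L * W ^ 2 * (2 * c' + ε / 2) + T / (2 * Real.pi) * L * W ^ 2 * (ε / 2) := by
      ring
    rw [g5]
    linarith
  · have s1 : Real.sqrt (W ^ 2) = W := Real.sqrt_sq hW0
    rw [s1]
    have s2 : Real.sqrt (2 * W * y1) = Real.sqrt (2 * W) * Real.sqrt y1 :=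
      Real.sqrt_mul (by positivity) _
    have s3 : Real.sqrt (2 * W * y2 + C * Real.exp (-(δ * L))) ≤
        Real.sqrt (2 * W) * Real.sqrt y2 + Real.sqrt (C * Real.exp (-(δ * L))) := by
      refine (sqrt_add_le' _ _ (by positivity) (by positivity)).trans (le_of_eq ?_)
      rw [Real.sqrt_mul (by positivity : (0 : ℝ) ≤ 2 * W)]
    have s4 : Real.sqrt (2 * W) * (Real.sqrt y1 + Real.sqrt y2) ≤
        Real.sqrt (2 * W) * (ε / 4 * L * Real.sqrt W) :=
      mul_le_mul_of_nonneg_left m5 (Real.sqrt_nonneg _)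
    have s5 : Real.sqrt (2 * W) * Real.sqrt W ≤ 2 * W := by
      rw [← Real.sqrt_mul (by positivity)]
      rw [Real.sqrt_le_left (by positivity)]
      nlinarith
    have s6 : Real.sqrt (C * Real.exp (-(δ * L))) ≤ ε / 2 := by
      rw [Real.sqrt_mul hC.le]
      have k1 : Real.sqrt (Real.exp (-(δ * L))) = Real.exp (-(δ * L / 2)) := by
        rw [Real.sqrt_eq_iff_mul_self_eq (Real.exp_pos _).le (Real.exp_pos _).le, ← Real.exp_add]
        congr 1
        ring
      rw [k1]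
      have k2 : Real.exp (-(δ * L / 2)) ≤ 1 / (δ * L / 2) := exp_neg_le (by positivity)
      have k3 : 4 * Real.sqrt C ≤ L * (δ * ε) := by
        rwa [div_le_iff₀ (by positivity)] at hLb
      calc Real.sqrt C * Real.exp (-(δ * L / 2)) ≤ Real.sqrt C * (1 / (δ * L / 2)) :=
            mul_le_mul_of_nonneg_left k2 hsC
        _ = (4 * Real.sqrt C) * (1 / (2 * δ * L)) := by field_simp; ring
        _ ≤ (L * (δ * ε)) * (1 / (2 * δ * L)) := mul_le_mul_of_nonneg_right k3 (by positivity)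
        _ = ε / 2 := by field_simp
    have s7 : Real.sqrt (2 * W) * (ε / 4 * L * Real.sqrt W) ≤ ε / 2 * L * W := by
      calc _ = ε / 4 * L * (Real.sqrt (2 * W) * Real.sqrt W) := by ring
        _ ≤ ε / 4 * L * (2 * W) := mul_le_mul_of_nonneg_left s5 (by positivity)
        _ = _ := by ring
    have s8 : ε / 2 ≤ ε / 2 * L * W := by
      have : 1 ≤ L * W := by nlinarith
      calc ε / 2 = ε / 2 * 1 := (mul_one _).symm
        _ ≤ ε / 2 * (L * W) := mul_le_mul_of_nonneg_left this (by positivity)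
        _ = _ := by ring
    rw [s2]
    linarith

end Pool.Agent.R321.RC
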