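import Pool.Agent.R321.RC5
import Pool.Agent.R321.RC6

/-!
# The zeros of a product of two L-functions; the theorem for pairs
-/

open Complex Filter Topology Set MeasureTheory
open H370 (zset mult NN Nd Ns GoodL)

set_option maxHeartbeats 4000000

namespace Pool.Agent.R321.RC

open H385

lemma order_top {F : ℂ → ℂ} (hF : GoodL F) {s : ℂ} (hs : 0 < s.im) : analyticOrderAt F s ≠ ⊤ := by
  have hU : IsPreconnected {s : ℂ | 0 < s.im} := (convex_halfSpace_im_gt 0).isPreconnected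
  obtain ⟨c, hc, hl⟩ := hF.lower
  have h3 := hl 1 le_rfl
  have h2 : F ⟨2, 1⟩ ≠ 0 := norm_pos_iff.1 (hc.trans_le h3)
  exact H370.Loc.order_ne_top (f := F) (K := {s : ℂ | 0 < s.im}) hU (fun s hs => hF.an s hs)
    (c := ⟨2, 1⟩) (by simp only [Set.mem_ofPred_eq]; norm_num) h2 hs

lemma mult_pos_iff {F : ℂ → ℂ} (hF : GoodL F) {s : ℂ} (hs : 0 < s.im) :
    0 < mult F s ↔ F s = 0 := by
  have hU : IsPreconnected {s : ℂ | 0 < s.im} := (convex_halfSpace_im_gt 0).isPreconnected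
  obtain ⟨c, hc, hl⟩ := hF.lower
  have h3 := hl 1 le_rfl
  have h2 : F ⟨2, 1⟩ ≠ 0 := norm_pos_iff.1 (hc.trans_le h3)
  exact H370.Loc.mult_pos (f := F) (K := {s : ℂ | 0 < s.im}) hU (fun s hs => hF.an s hs)
    (c := ⟨2, 1⟩) (by simp only [Set.mem_ofPred_eq]; norm_num) h2 hs

lemma mult_mul {F G : ℂ → ℂ} (hF : GoodL F) (hG : GoodL G) {s : ℂ} (hs : 0 < s.im) :
    mult (fun s => F s * G s) s = mult F s + mult G s := by
  unfold mult
  have e : (fun s => F s * G s) = F * G := rfl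
  rw [e, analyticOrderNatAt_mul (hF.an s hs) (hG.an s hs) (order_top hF hs) (order_top hG hs)]

/-- simple critical zeros of `F` which are not zeros of `G` -/
noncomputable def On (F G : ℂ → ℂ) (T : ℝ) : ℕ :=
  {s : ℂ | s ∈ zset F T (2 * T) ∧ s.re = 1 / 2 ∧ mult F s = 1 ∧ G s ≠ 0}.ncard

/-- common zeros, counted with the smaller of the two multiplicities -/
noncomputable def Cm (F G : ℂ → ℂ) (T : ℝ) : ℕ :=
  ∑ᶠ s ∈ zset F T (2 * T) ∩ zset G T (2 * T), min (mult F s) (mult G s)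

lemma zset_mul (F G : ℂ → ℂ) (T1 T2 : ℝ) :
    zset (fun s => F s * G s) T1 T2 = zset F T1 T2 ∪ zset G T1 T2 := by
  ext s
  simp only [zset, Set.mem_ofPred_eq, Set.mem_union, mul_eq_zero]
  tauto

theorem counts {F G : ℂ → ℂ} (hF : GoodL F) (hG : GoodL G) {T : ℝ} (hT : 1 ≤ T) :
    NN (fun s => F s * G s) T (2 * T) = NN F T (2 * T) + NN G T (2 * T) ∧
    Nd (fun s => F s * G s) T (2 * T) = (zset F T (2 * T) ∪ zset G T (2 * T)).ncard ∧
    Ns (fun s => F s * G s) T (2 * T) ≤ On F G T + On G F T ∧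
    Cm F G T + Nd (fun s => F s * G s) T (2 * T) ≤ NN F T (2 * T) + NN G T (2 * T) := by
  classical
  have hfF : (zset F T (2 * T)).Finite := H370.zset_finite hF T _ hT
  have hfG : (zset G T (2 * T)).Finite := H370.zset_finite hG T _ hT
  have him : ∀ {s : ℂ}, s ∈ zset F T (2 * T) ∪ zset G T (2 * T) → 0 < s.im := by
    rintro s (h | h)
    · linarith [h.2.2.1]
    · linarith [h.2.2.1]
  have hU : (zset F T (2 * T) ∪ zset G T (2 * T)).Finite := hfF.union hfG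
  have hNF : NN F T (2 * T) = ∑ s ∈ hU.toFinset, mult F s := by
    unfold NN
    rw [finsum_mem_eq_finite_toFinset_sum _ hfF]
    refine Finset.sum_subset (fun s hs => ?_) (fun s hs hs' => ?_)
    · simp only [Set.Finite.mem_toFinset] at hs ⊢
      exact Or.inl hs
    · simp only [Set.Finite.mem_toFinset] at hs hs'
      have h0 : F s ≠ 0 := by
        intro h
        apply hs'
        rcases hs with h1 | h1
        · exact h1
        · exact ⟨h1.1, h1.2.1, h1.2.2.1, h1.2.2.2.1, h⟩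
      by_contra hc
      exact h0 ((mult_pos_iff hF (him hs)).1 (Nat.pos_of_ne_zero hc))
  have hNG : NN G T (2 * T) = ∑ s ∈ hU.toFinset, mult G s := by
    unfold NN
    rw [finsum_mem_eq_finite_toFinset_sum _ hfG]
    refine Finset.sum_subset (fun s hs => ?_) (fun s hs hs' => ?_)
    · simp only [Set.Finite.mem_toFinset] at hs ⊢
      exact Or.inr hs
    · simp only [Set.Finite.mem_toFinset] at hs hs'
      have h0 : G s ≠ 0 := by
        intro h
        apply hs'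
        rcases hs with h1 | h1
        · exact ⟨h1.1, h1.2.1, h1.2.2.1, h1.2.2.2.1, h⟩
        · exact h1
      by_contra hc
      exact h0 ((mult_pos_iff hG (him hs)).1 (Nat.pos_of_ne_zero hc))
  refine ⟨?_, ?_, ?_, ?_⟩
  · rw [hNF, hNG, ← Finset.sum_add_distrib]
    unfold NN
    rw [zset_mul, finsum_mem_eq_finite_toFinset_sum _ hU]
    refine Finset.sum_congr rfl fun s hs => ?_
    rw [Set.Finite.mem_toFinset] at hs
    exact mult_mul hF hG (him hs)
  · unfold Nd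
    rw [zset_mul]
  · unfold Ns On
    have hsub : {s : ℂ | s ∈ zset (fun s => F s * G s) T (2 * T) ∧ s.re = 1 / 2 ∧
        mult (fun s => F s * G s) s = 1} ⊆
        {s : ℂ | s ∈ zset F T (2 * T) ∧ s.re = 1 / 2 ∧ mult F s = 1 ∧ G s ≠ 0} ∪
        {s : ℂ | s ∈ zset G T (2 * T) ∧ s.re = 1 / 2 ∧ mult G s = 1 ∧ F s ≠ 0} := by
      rintro s ⟨h1, h2, h3⟩
      rw [zset_mul] at h1
      have i := him h1
      rw [mult_mul hF hG i] at h3
      rcases h1 with h1 | h1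
      · have hp := (mult_pos_iff hF i).2 h1.2.2.2.2
        left
        refine ⟨h1, h2, by omega, fun h0 => ?_⟩
        have := (mult_pos_iff hG i).2 h0
        omega
      · have hp := (mult_pos_iff hG i).2 h1.2.2.2.2
        right
        refine ⟨h1, h2, by omega, fun h0 => ?_⟩
        have := (mult_pos_iff hF i).2 h0
        omega
    refine (Set.ncard_le_ncard hsub ?_).trans (Set.ncard_union_le _ _)
    exact (hfF.subset fun s hs => hs.1).union (hfG.subset fun s hs => hs.1)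
  · have hI : (zset F T (2 * T) ∩ zset G T (2 * T)).Finite := hfF.subset Set.inter_subset_left
    have hC : Cm F G T = ∑ s ∈ hU.toFinset,
        (if s ∈ zset F T (2 * T) ∩ zset G T (2 * T) then min (mult F s) (mult G s) else 0) := by
      unfold Cm
      rw [finsum_mem_eq_finite_toFinset_sum _ hI, ← Finset.sum_filter]
      refine Finset.sum_congr ?_ fun _ _ => rfl
      ext s
      simp only [Set.Finite.mem_toFinset, Finset.mem_filter]
      constructor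
      · intro h
        exact ⟨Or.inl h.1, h⟩
      · intro h
        exact h.2
    have hD : Nd (fun s => F s * G s) T (2 * T) = ∑ s ∈ hU.toFinset, 1 := by
      unfold Nd
      rw [zset_mul, Set.ncard_eq_toFinset_card _ hU, Finset.card_eq_sum_ones]
    rw [hC, hD, hNF, hNG, ← Finset.sum_add_distrib, ← Finset.sum_add_distrib]
    refine Finset.sum_le_sum fun s hs => ?_
    rw [Set.Finite.mem_toFinset] at hs
    have i := him hs
    split_ifs with h
    · have h1 := (mult_pos_iff hF i).2 h.1.2.2.2.2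
      have h2 := (mult_pos_iff hG i).2 h.2.2.2.2.2
      rcases le_total (mult F s) (mult G s) with h3 | h3
      · rw [min_eq_left h3]; omega
      · rw [min_eq_right h3]; omega
    · rcases hs with h1 | h1
      · have := (mult_pos_iff hF i).2 h1.2.2.2.2
        omega
      · have := (mult_pos_iff hG i).2 h1.2.2.2.2
        omega

/-- the family theorem for pairs with a constant -/
theorem final_of_const_pairs (γ c : ℝ) (h0 : 0 < γ) (hπ : γ < Real.pi)
    (hc : Rw γ 0 + 2 * (∫ α in (0 : ℝ)..1, min (2 * α) 1 * Rw γ α) < c) :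
    ∃ K η X0 : ℝ, 1 ≤ K ∧ 0 < η ∧ 1 ≤ X0 ∧
    ∀ (X Y : ℕ) (T : ℝ), X0 ≤ X → K * X ≤ Y → (Y : ℝ) ≤ (X : ℝ) ^ (1 + η) →
      (Real.log X) ^ 2 ≤ T → T ≤ (X : ℝ) ^ η →
      0 < avg2 X Y (fun z => (NN (F2 z) T (2 * T) : ℝ)) ∧
      avg2 X Y (fun z => 2 * (NN (F2 z) T (2 * T) : ℝ) - (Ns (F2 z) T (2 * T) : ℝ)) ≤
        c * avg2 X Y (fun z => (NN (F2 z) T (2 * T) : ℝ)) ∧
      avg2 X Y (fun z => 3 * (NN (F2 z) T (2 * T) : ℝ) - 2 * (Nd (F2 z) T (2 * T) : ℝ)) ≤
        c * avg2 X Y (fun z => (NN (F2 z) T (2 * T) : ℝ)) := by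
  set R0 : ℝ := Rw γ 0 with hR0
  have hR0n : 0 ≤ R0 := Rw_nonneg γ h0 hπ 0
  set J : ℝ := ∫ α in (0 : ℝ)..1, min (2 * α) 1 * Rw γ α with hJ
  set d : ℝ := c - (R0 + 2 * J) with hd
  have hd0 : 0 < d := by rw [hd]; linarith
  -- choose β
  set s : ℝ := min (1 / 2) (d / (2 * (R0 + 1))) with hs
  have hs0 : 0 < s := by positivity
  have hs1 : s ≤ 1 / 2 := min_le_left _ _
  have hs2 : R0 * s ≤ d / 2 := by
    have h1 : s ≤ d / (2 * (R0 + 1)) := min_le_right _ _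
    calc R0 * s ≤ R0 * (d / (2 * (R0 + 1))) := mul_le_mul_of_nonneg_left h1 hR0n
      _ = d / 2 * (R0 / (R0 + 1)) := by field_simp
      _ ≤ d / 2 * 1 := by
        refine mul_le_mul_of_nonneg_left ?_ (by linarith)
        rw [div_le_one (by positivity)]; linarith
      _ = d / 2 := mul_one _
  set β : ℝ := 2 - s with hβ
  have hβ1 : 1 < β := by rw [hβ]; linarith
  have hβ2 : β < 2 := by rw [hβ]; linarith
  have hβ0 : 0 < β := by linarith
  have hR := H385.Rw_cont γ h0 hπ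
  have c1 : Continuous (fun α : ℝ => min (2 * α) 1 * Rw γ α) := by fun_prop
  have c2 : Continuous (fun α : ℝ => min (β * α) 1 * Rw γ α) := by fun_prop
  have e1 : ∫ α in (0 : ℝ)..1, min (β * α) 1 * Rw γ α ≤ J := by
    refine intervalIntegral.integral_mono_on zero_le_one (c2.intervalIntegrable _ _)
      (c1.intervalIntegrable _ _) (fun α hα => ?_)
    refine mul_le_mul_of_nonneg_right ?_ (Rw_nonneg γ h0 hπ α)
    exact min_le_min_right _ (mul_le_mul_of_nonneg_right hβ2.le hα.1)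
  have e2 : 2 * R0 / β ≤ R0 + d / 2 := by
    rw [div_le_iff₀ hβ0]
    have h1 : (R0 + d / 2) * β = 2 * R0 - R0 * s + d / 2 * β := by rw [hβ]; ring
    rw [h1]
    have h2 : d / 2 * 1 ≤ d / 2 * β := mul_le_mul_of_nonneg_left hβ1.le (by linarith)
    linarith
  have hcp : 0 ≤ 2 * (∫ α in (0 : ℝ)..1, min (β * α) 1 * Rw γ α) := by
    refine mul_nonneg (by norm_num) (intervalIntegral.integral_nonneg zero_le_one (fun α hα => ?_))
    exact mul_nonneg (le_min (mul_nonneg hβ0.le hα.1) zero_le_one) (Rw_nonneg γ h0 hπ α)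
  obtain ⟨K, η, X0, hK, hη, hX0, h⟩ := final_core_pairs γ β _ h0 hπ hβ1 hβ2 hcp
    (HY_stage2 γ β h0 hπ hβ1 hβ2) (d / 2) (by positivity)
  refine ⟨K, η, X0, hK, hη, hX0, ?_⟩
  intro X Y T a1 a2 a3 a4 a5
  obtain ⟨b0, b1, b2⟩ := h X Y T a1 a2 a3 a4 a5
  have hN : 0 ≤ avg2 X Y (fun z => (NN (F2 z) T (2 * T) : ℝ)) :=
    avg2_nonneg _ _ _ (fun _ => Nat.cast_nonneg _)
  have hcc : 2 * R0 / β + 2 * (∫ α in (0 : ℝ)..1, min (β * α) 1 * Rw γ α) + d / 2 ≤ c := by
    have : R0 + 2 * J + d = c := by rw [hd]; ring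
    linarith
  have hcc' := mul_le_mul_of_nonneg_right hcc hN
  exact ⟨b0, b1.trans hcc', b2.trans hcc'⟩

/-- the theorem for pairs with the constant `1.577` -/
theorem pairs_main : ∃ K η X0 : ℝ, 1 ≤ K ∧ 0 < η ∧ 1 ≤ X0 ∧
    ∀ (X Y : ℕ) (T : ℝ), X0 ≤ X → K * X ≤ Y → (Y : ℝ) ≤ (X : ℝ) ^ (1 + η) →
      (Real.log X) ^ 2 ≤ T → T ≤ (X : ℝ) ^ η →
      0 < avg2 X Y (fun z => (NN (F2 z) T (2 * T) : ℝ)) ∧
      avg2 X Y (fun z => 2 * (NN (F2 z) T (2 * T) : ℝ) - (Ns (F2 z) T (2 * T) : ℝ)) ≤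
        1.577 * avg2 X Y (fun z => (NN (F2 z) T (2 * T) : ℝ)) ∧
      avg2 X Y (fun z => 3 * (NN (F2 z) T (2 * T) : ℝ) - 2 * (Nd (F2 z) T (2 * T) : ℝ)) ≤
        1.577 * avg2 X Y (fun z => (NN (F2 z) T (2 * T) : ℝ)) := by
  have hπ : (3 / 2 : ℝ) < Real.pi := by linarith [Real.pi_gt_three]
  exact final_of_const_pairs (3 / 2) 1.577 (by norm_num) hπ
    (lt_of_le_of_lt Rw_const_pair (by norm_num))

/-- exchange of the two characters -/
lemma avg2_swap (X Y : ℕ) (f : IX → IX → ℝ) :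
    avg2 X Y (fun z => f z.1 z.2) = avg2 X Y (fun z => f z.2 z.1) := by
  unfold avg2 PS
  rw [Finset.sum_product, Finset.sum_product_right]
  refine Finset.sum_congr rfl fun p _ => Finset.sum_congr rfl fun p' _ => ?_
  simp only [w2]
  ring

lemma avg2_add (X Y : ℕ) (f g : IX × IX → ℝ) :
    avg2 X Y (fun z => f z + g z) = avg2 X Y f + avg2 X Y g := by
  unfold avg2
  rw [← Finset.sum_add_distrib]
  exact Finset.sum_congr rfl fun z _ => by ring

lemma avg2_mul (X Y : ℕ) (c : ℝ) (f : IX × IX → ℝ) :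
    avg2 X Y (fun z => c * f z) = c * avg2 X Y f := by
  unfold avg2
  rw [Finset.mul_sum]
  exact Finset.sum_congr rfl fun z _ => by ring

lemma avg2_mono (X Y : ℕ) (f g : IX × IX → ℝ) (h : ∀ z ∈ PS X Y, f z ≤ g z) :
    avg2 X Y f ≤ avg2 X Y g :=
  Finset.sum_le_sum fun z hz => mul_le_mul_of_nonneg_left (h z hz) (w2_nonneg z)

/-- the L-function of an index -/
noncomputable def LI (p : IX) : ℂ → ℂ := LF p.1 p.2

/-- **Common zeros on average over the pairs.** -/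
theorem pairs_common : ∃ K η X0 : ℝ, 1 ≤ K ∧ 0 < η ∧ 1 ≤ X0 ∧
    ∀ (X Y : ℕ) (T : ℝ), X0 ≤ X → K * X ≤ Y → (Y : ℝ) ≤ (X : ℝ) ^ (1 + η) →
      (Real.log X) ^ 2 ≤ T → T ≤ (X : ℝ) ^ η →
      0 < avg2 X Y (fun z => (NN (LI z.1) T (2 * T) : ℝ)) ∧
      (∀ q : ℕ, X < q → ∀ χ : DirichletCharacter ℂ q, χ.IsPrimitive →
        (zset (LI ⟨q, χ⟩) T (2 * T)).Finite) ∧
      0.423 * avg2 X Y (fun z => (NN (LI z.1) T (2 * T) : ℝ)) ≤
        avg2 X Y (fun z => (On (LI z.1) (LI z.2) T : ℝ)) ∧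
      1.423 * avg2 X Y (fun z => (NN (LI z.1) T (2 * T) : ℝ)) ≤
        avg2 X Y (fun z => ((zset (LI z.1) T (2 * T) ∪ zset (LI z.2) T (2 * T)).ncard : ℝ)) ∧
      avg2 X Y (fun z => (Cm (LI z.1) (LI z.2) T : ℝ)) ≤
        0.577 * avg2 X Y (fun z => (NN (LI z.1) T (2 * T) : ℝ)) := by
  obtain ⟨K, η, X0, hK, hη, hX0, h⟩ := pairs_main
  obtain ⟨A, hA, hgood⟩ := good_dirichlet_U
  refine ⟨K, η, max X0 (Real.exp 1), hK, hη, le_max_of_le_left hX0, ?_⟩
  intro X Y T hX a2 a3 a4 a5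
  have hXX : X0 ≤ X := (le_max_left _ _).trans hX
  have hXe : Real.exp 1 ≤ X := (le_max_right _ _).trans hX
  have hT1 : 1 ≤ T := by
    have h1 : 1 ≤ Real.log X := by
      rw [Real.le_log_iff_exp_le (lt_of_lt_of_le (Real.exp_pos 1) hXe)]; exact hXe
    nlinarith
  obtain ⟨b0, b1, b2⟩ := h X Y T hXX a2 a3 a4 a5
  have hgl' : ∀ p : IX, X < p.1 → p.2.IsPrimitive → GoodL (LI p) := by
    intro p h1 h3
    have hq : NeZero p.1 := ⟨by omega⟩
    have e1 : LI p = DirichletCharacter.LFunction p.2 := by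
      unfold LI LF
      rw [dif_neg (NeZero.ne _)]
    rw [e1]
    exact H385.PerChi.goodL hA (by exact_mod_cast (show 1 ≤ p.1 by omega)) (hgood p.1 p.2 h3)
  have hgl : ∀ p ∈ primSet X Y, GoodL (LI p) := by
    intro p hp
    obtain ⟨h1, h2, h3⟩ := (mem_primSet X Y p).mp hp
    exact hgl' p h1 h3
  have hcnt : ∀ z ∈ PS X Y, _ := fun z hz =>
    counts (hgl z.1 (Finset.mem_product.1 hz).1) (hgl z.2 (Finset.mem_product.1 hz).2) hT1
  set Nav := avg2 X Y (fun z => (NN (LI z.1) T (2 * T) : ℝ)) with hNav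
  have hN2 : avg2 X Y (fun z => (NN (F2 z) T (2 * T) : ℝ)) = 2 * Nav := by
    have e1 : avg2 X Y (fun z => (NN (F2 z) T (2 * T) : ℝ)) =
        avg2 X Y (fun z => (NN (LI z.1) T (2 * T) : ℝ) + (NN (LI z.2) T (2 * T) : ℝ)) := by
      unfold avg2
      refine Finset.sum_congr rfl fun z hz => ?_
      congr 1
      have := (hcnt z hz).1
      show ((NN (fun s => LI z.1 s * LI z.2 s) T (2 * T) : ℕ) : ℝ) = _
      rw [this]
      push_cast
      rfl
    rw [e1, avg2_add, avg2_swap X Y (fun _ p => (NN (LI p) T (2 * T) : ℝ))]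
    rw [← hNav]
    ring
  have hNs : avg2 X Y (fun z => (Ns (F2 z) T (2 * T) : ℝ)) ≤
      2 * avg2 X Y (fun z => (On (LI z.1) (LI z.2) T : ℝ)) := by
    have e1 : avg2 X Y (fun z => (Ns (F2 z) T (2 * T) : ℝ)) ≤
        avg2 X Y (fun z => (On (LI z.1) (LI z.2) T : ℝ) + (On (LI z.2) (LI z.1) T : ℝ)) := by
      refine avg2_mono X Y _ _ fun z hz => ?_
      have := (hcnt z hz).2.2.1
      show ((Ns (fun s => LI z.1 s * LI z.2 s) T (2 * T) : ℕ) : ℝ) ≤ _
      exact_mod_cast this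
    refine e1.trans (le_of_eq ?_)
    rw [avg2_add, avg2_swap X Y (fun p p' => (On (LI p') (LI p) T : ℝ))]
    ring
  have hNd : avg2 X Y (fun z => (Nd (F2 z) T (2 * T) : ℝ)) =
      avg2 X Y (fun z => ((zset (LI z.1) T (2 * T) ∪ zset (LI z.2) T (2 * T)).ncard : ℝ)) := by
    unfold avg2
    refine Finset.sum_congr rfl fun z hz => ?_
    have := (hcnt z hz).2.1
    show w2 z * ((Nd (fun s => LI z.1 s * LI z.2 s) T (2 * T) : ℕ) : ℝ) = _
    rw [this]
  have hCm : avg2 X Y (fun z => (Cm (LI z.1) (LI z.2) T : ℝ)) +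
      avg2 X Y (fun z => (Nd (F2 z) T (2 * T) : ℝ)) ≤ 2 * Nav := by
    rw [← avg2_add, ← hN2]
    refine avg2_mono X Y _ _ fun z hz => ?_
    have h1 := (hcnt z hz).2.2.2
    have h2 := (hcnt z hz).1
    rw [← h2] at h1
    show (Cm (LI z.1) (LI z.2) T : ℝ) + ((Nd (fun s => LI z.1 s * LI z.2 s) T (2 * T) : ℕ) : ℝ) ≤
      ((NN (fun s => LI z.1 s * LI z.2 s) T (2 * T) : ℕ) : ℝ)
    exact_mod_cast h1
  have f1 : avg2 X Y (fun z => 2 * (NN (F2 z) T (2 * T) : ℝ) - (Ns (F2 z) T (2 * T) : ℝ)) =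
      2 * (2 * Nav) - avg2 X Y (fun z => (Ns (F2 z) T (2 * T) : ℝ)) := by
    have e : ∀ z : IX × IX, 2 * (NN (F2 z) T (2 * T) : ℝ) - (Ns (F2 z) T (2 * T) : ℝ) =
        2 * (NN (F2 z) T (2 * T) : ℝ) + (-1) * (Ns (F2 z) T (2 * T) : ℝ) := fun z => by ring
    simp_rw [e]
    rw [avg2_add, avg2_mul, avg2_mul, hN2]
    ring
  have f2 : avg2 X Y (fun z => 3 * (NN (F2 z) T (2 * T) : ℝ) - 2 * (Nd (F2 z) T (2 * T) : ℝ)) =
      3 * (2 * Nav) - 2 * avg2 X Y (fun z => (Nd (F2 z) T (2 * T) : ℝ)) := by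
    have e : ∀ z : IX × IX, 3 * (NN (F2 z) T (2 * T) : ℝ) - 2 * (Nd (F2 z) T (2 * T) : ℝ) =
        3 * (NN (F2 z) T (2 * T) : ℝ) + (-2) * (Nd (F2 z) T (2 * T) : ℝ) := fun z => by ring
    simp_rw [e]
    rw [avg2_add, avg2_mul, avg2_mul, hN2]
    ring
  rw [f1, hN2] at b1
  rw [f2, hN2] at b2
  rw [hN2] at b0
  refine ⟨by linarith, fun q hq χ hχ => H370.zset_finite (hgl' ⟨q, χ⟩ hq hχ) T _ hT1,
    by linarith, ?_, by linarith⟩
  rw [← hNd]
  linarith

end Pool.Agent.R321.RC
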