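import Pool.Agent.R321.RC1

/-!
# The number of primitive characters

`q ≤ φ*(q) τ(q)²` if there is a primitive character modulo `q`.
-/

open Complex Filter Topology Set MeasureTheory

namespace Pool.Agent.R321.RD

open H385 Pool.Agent.R321.RC

/-- Euler's function as a real arithmetic function -/
noncomputable def aphi : ArithmeticFunction ℝ := ⟨fun d => (Nat.totient d : ℝ), by simp⟩

lemma aphi_mult : aphi.IsMultiplicative := by
  refine ⟨by simp [aphi], fun {m n} h => ?_⟩
  show ((Nat.totient (m * n) : ℕ) : ℝ) = (Nat.totient m : ℝ) * (Nat.totient n : ℝ)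
  rw [Nat.totient_mul h]
  push_cast
  rfl

/-- the number of primitive characters as an arithmetic function -/
noncomputable def aphs : ArithmeticFunction ℝ :=
  ((ArithmeticFunction.moebius : ArithmeticFunction ℤ) : ArithmeticFunction ℝ) * aphi

lemma aphs_mult : aphs.IsMultiplicative :=
  ArithmeticFunction.isMultiplicative_moebius.intCast.mul aphi_mult

lemma aphs_eq {n : ℕ} (hn : 0 < n) : aphs n = (phs n : ℝ) := by
  rw [← phs_moebius n hn]
  unfold aphs
  rw [ArithmeticFunction.mul_apply]
  rfl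

lemma phs_mul {m n : ℕ} (hm : 0 < m) (hn : 0 < n) (h : Nat.Coprime m n) :
    phs (m * n) = phs m * phs n := by
  have h1 := aphs_mult.map_mul_of_coprime h
  rw [aphs_eq (Nat.mul_pos hm hn), aphs_eq hm, aphs_eq hn] at h1
  exact_mod_cast h1

lemma phs_prime_pow {p : ℕ} (hp : p.Prime) (k : ℕ) :
    phs (p ^ (k + 1)) + Nat.totient (p ^ k) = Nat.totient (p ^ (k + 1)) := by
  have h1 := sum_phs (p ^ (k + 1)) (pow_pos hp.pos _)
  have h2 := sum_phs (p ^ k) (pow_pos hp.pos _)
  rw [Nat.sum_divisors_prime_pow hp] at h1 h2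
  rw [Finset.sum_range_succ, h2] at h1
  omega

theorem phs_lower (n : ℕ) (hn : 0 < n) : phs n = 0 ∨ n ≤ phs n * n.divisors.card ^ 2 := by
  induction n using Nat.recOnPosPrimePosCoprime with
  | zero => omega
  | one =>
    right
    have h1 := sum_phs 1 one_pos
    simp only [Nat.divisors_one, Finset.sum_singleton, Nat.totient_one] at h1
    rw [h1]
    simp
  | prime_pow p k hp hk =>
    obtain ⟨j, rfl⟩ : ∃ j, k = j + 1 := ⟨k - 1, by omega⟩
    have h1 := phs_prime_pow hp j
    have hp2 := hp.two_le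
    rw [Nat.divisors_prime_pow hp, Finset.card_map, Finset.card_range]
    rcases Nat.eq_zero_or_pos j with hj | hj
    · subst hj
      simp only [zero_add, pow_one, pow_zero, Nat.totient_one] at h1 ⊢
      rw [Nat.totient_prime hp] at h1
      have h2 : phs p = p - 2 := by omega
      rw [h2]
      rcases Nat.lt_or_ge p 3 with h3 | h3
      · left; omega
      · right
        omega
    · obtain ⟨i, rfl⟩ : ∃ i, j = i + 1 := ⟨j - 1, by omega⟩
      right
      rw [Nat.totient_prime_pow_succ hp, Nat.totient_prime_pow_succ hp] at h1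
      obtain ⟨m, rfl⟩ : ∃ m, p = m + 2 := ⟨p - 2, by omega⟩
      have e1 : m + 2 - 1 = m + 1 := by omega
      rw [e1] at h1
      have h2 : phs ((m + 2) ^ (i + 1 + 1)) = (m + 2) ^ i * (m + 1) ^ 2 := by
        have h3 : (m + 2) ^ (i + 1) * (m + 1) = (m + 2) ^ i * (m + 1) ^ 2 + (m + 2) ^ i * (m + 1) := by
          rw [pow_succ]
          ring
        rw [h3] at h1
        omega
      rw [h2]
      have h4 : (m + 2) ^ 2 ≤ (m + 1) ^ 2 * (i + 1 + 1 + 1) ^ 2 := by
        rw [← mul_pow]
        apply Nat.pow_le_pow_left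
        nlinarith
      calc (m + 2) ^ (i + 1 + 1) = (m + 2) ^ i * (m + 2) ^ 2 := by ring
        _ ≤ (m + 2) ^ i * ((m + 1) ^ 2 * (i + 1 + 1 + 1) ^ 2) := Nat.mul_le_mul_left _ h4
        _ = _ := by ring
  | coprime a b ha hb hab iha ihb =>
    have ha0 : 0 < a := by omega
    have hb0 : 0 < b := by omega
    rw [phs_mul ha0 hb0 hab, hab.card_divisors_mul]
    rcases iha ha0 with h1 | h1
    · left; rw [h1, zero_mul]
    · rcases ihb hb0 with h2 | h2
      · left; rw [h2, mul_zero]
      · right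
        calc a * b ≤ (phs a * a.divisors.card ^ 2) * (phs b * b.divisors.card ^ 2) :=
              Nat.mul_le_mul h1 h2
          _ = _ := by ring

lemma PF_card {q : ℕ} (hq : q ≠ 0) : (PF q).card = phs q := by
  unfold phs PF
  rw [dif_pos hq, ← Set.ncard_eq_toFinset_card]
  rfl

lemma phs_lower_real {q : ℕ} (hq : 0 < q) (h : phs q ≠ 0) :
    1 / (phs q : ℝ) ≤ (q.divisors.card : ℝ) ^ 2 / q := by
  have hq0 : (0 : ℝ) < q := by exact_mod_cast hq
  have h1 : (0 : ℝ) < phs q := by exact_mod_cast Nat.pos_of_ne_zero h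
  rw [div_le_div_iff₀ h1 hq0]
  rcases phs_lower q hq with h2 | h2
  · exact absurd h2 h
  · have : (q : ℝ) ≤ (phs q : ℝ) * (q.divisors.card : ℝ) ^ 2 := by exact_mod_cast h2
    linarith

end Pool.Agent.R321.RD
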