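import Pool.Agent.R321.RD0
import Pool.Agent.R321.RC2

/-!
# The mean square of the sum of the prime sums over the primitive characters of one modulus
-/

open Complex Filter Topology Set MeasureTheory

set_option maxHeartbeats 4000000

namespace Pool.Agent.R321.RD

open H385 Pool.Agent.R321.RC

/-- the terms `n ≡ 1 mod d`, `n ≥ 2` -/
noncomputable def apt (d : ℕ) (u : ℝ) (n : ℕ) : ℝ :=
  if 2 ≤ n ∧ d ∣ n - 1 then ArithmeticFunction.vonMangoldt n / Real.sqrt n *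
    Real.exp (-(u - Real.log n) ^ 2 / 4) else 0

lemma apt_nonneg (d : ℕ) (u : ℝ) (n : ℕ) : 0 ≤ apt d u n := by
  unfold apt
  split_ifs
  · have := @ArithmeticFunction.vonMangoldt_nonneg n
    positivity
  · exact le_rfl

theorem apt_sum (ε : ℝ) (hε : 0 < ε) (hε1 : ε ≤ 1) : ∃ C : ℝ, 0 < C ∧ ∀ (d : ℕ) (u : ℝ), 0 < d →
    Summable (apt d u) ∧ ∑' n : ℕ, apt d u n ≤ C / d * Real.exp ((1 / 2 + 2 * ε) * u) := by
  set a : ℝ := 1 / 2 + 2 * ε with ha
  set S : ℝ := ∑' k : ℕ, 1 / ((k : ℝ) + 1) ^ (1 + ε) with hS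
  have hSs : Summable (fun k : ℕ => 1 / ((k : ℝ) + 1) ^ (1 + ε)) := by
    have h1 : Summable (fun k : ℕ => 1 / ((k : ℕ) : ℝ) ^ (1 + ε)) :=
      Real.summable_one_div_nat_rpow.2 (by linarith)
    have h2 := (summable_nat_add_iff 1).2 h1
    refine h2.congr fun k => ?_
    push_cast
    rfl
  have hS0 : 0 ≤ S := tsum_nonneg fun k => by positivity
  refine ⟨Real.exp (a ^ 2) * (1 / ε) * (S + 1), by positivity, fun d u hd => ?_⟩
  have hd0 : (0 : ℝ) < d := by exact_mod_cast hd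
  have hd1 : (1 : ℝ) ≤ d := by exact_mod_cast hd
  set g : ℕ → ℕ := fun k => 1 + d * (k + 1) with hg
  have hgi : Function.Injective g := by
    intro k l h
    simp only [hg] at h
    have h1 : d * (k + 1) = d * (l + 1) := by omega
    have h2 := Nat.eq_of_mul_eq_mul_left hd h1
    omega
  have hsup : Function.support (apt d u) ⊆ Set.range g := by
    intro n hn
    rw [Function.mem_support] at hn
    unfold apt at hn
    split_ifs at hn with h
    · obtain ⟨h1, m, hm⟩ := h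
      have hm0 : 0 < m := by
        rcases Nat.eq_zero_or_pos m with h0 | h0
        · subst h0; omega
        · exact h0
      refine ⟨m - 1, ?_⟩
      simp only [hg]
      rw [Nat.sub_add_cancel hm0]
      omega
    · exact absurd rfl hn
  have hterm : ∀ k : ℕ, apt d u (g k) ≤
      (Real.exp (a ^ 2) * (1 / ε) * Real.exp (a * u) / d) * (1 / ((k : ℝ) + 1) ^ (1 + ε)) := by
    intro k
    have hn2 : 2 ≤ g k := by
      simp only [hg]
      have := Nat.mul_pos hd (Nat.succ_pos k)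
      have e : k.succ = k + 1 := rfl
      rw [e] at this
      omega
    have hdv : d ∣ g k - 1 := by
      simp only [hg]
      exact ⟨k + 1, by omega⟩
    unfold apt
    rw [if_pos ⟨hn2, hdv⟩]
    set n : ℕ := g k with hn
    have hnr : (d : ℝ) * ((k : ℝ) + 1) ≤ n := by
      rw [hn]
      simp only [hg]
      push_cast
      linarith
    have hk0 : (0 : ℝ) < (k : ℝ) + 1 := by positivity
    have hn0 : (0 : ℝ) < n := lt_of_lt_of_le (by positivity) hnr
    have h1 : ArithmeticFunction.vonMangoldt n ≤ (n : ℝ) ^ ε / ε :=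
      ArithmeticFunction.vonMangoldt_le_log.trans (Real.log_le_rpow_div hn0.le hε)
    have h2 : Real.exp (-(u - Real.log n) ^ 2 / 4) ≤ Real.exp (a ^ 2) * (Real.exp (a * u) *
        (n : ℝ) ^ (-a)) := by
      have e1 : (n : ℝ) ^ (-a) = Real.exp (-(a * Real.log n)) := by
        rw [Real.rpow_def_of_pos hn0]
        congr 1
        ring
      rw [e1, ← Real.exp_add, ← Real.exp_add]
      apply Real.exp_le_exp.2
      nlinarith [sq_nonneg ((u - Real.log n) / 2 + a)]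
    have h3 : (n : ℝ) ^ ε / ε / Real.sqrt n * (Real.exp (a ^ 2) * (Real.exp (a * u) *
        (n : ℝ) ^ (-a))) = Real.exp (a ^ 2) * (1 / ε) * Real.exp (a * u) *
        ((n : ℝ) ^ (1 + ε))⁻¹ := by
      have e2 : Real.sqrt n = (n : ℝ) ^ (1 / 2 : ℝ) := Real.sqrt_eq_rpow _
      have e3 : ((n : ℝ) ^ (1 + ε))⁻¹ = (n : ℝ) ^ ε * ((n : ℝ) ^ (1 / 2 : ℝ))⁻¹ * (n : ℝ) ^ (-a) := by
        rw [← Real.rpow_neg hn0.le, ← Real.rpow_neg hn0.le, ← Real.rpow_add hn0,
          ← Real.rpow_add hn0]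
        congr 1
        rw [ha]
        ring
      rw [e2, e3]
      ring
    have h4 : ((n : ℝ) ^ (1 + ε))⁻¹ ≤ 1 / d * (1 / ((k : ℝ) + 1) ^ (1 + ε)) := by
      have e4 : (d : ℝ) * ((k : ℝ) + 1) ^ (1 + ε) ≤ (n : ℝ) ^ (1 + ε) := by
        calc (d : ℝ) * ((k : ℝ) + 1) ^ (1 + ε) ≤ (d : ℝ) ^ (1 + ε) * ((k : ℝ) + 1) ^ (1 + ε) := by
              refine mul_le_mul_of_nonneg_right ?_ (by positivity)
              calc (d : ℝ) = (d : ℝ) ^ (1 : ℝ) := (Real.rpow_one _).symm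
                _ ≤ (d : ℝ) ^ (1 + ε) := Real.rpow_le_rpow_of_exponent_le hd1 (by linarith)
          _ = ((d : ℝ) * ((k : ℝ) + 1)) ^ (1 + ε) := (Real.mul_rpow hd0.le hk0.le).symm
          _ ≤ (n : ℝ) ^ (1 + ε) := Real.rpow_le_rpow (by positivity) hnr (by linarith)
      calc ((n : ℝ) ^ (1 + ε))⁻¹ ≤ ((d : ℝ) * ((k : ℝ) + 1) ^ (1 + ε))⁻¹ :=
            inv_anti₀ (by positivity) e4
        _ = 1 / d * (1 / ((k : ℝ) + 1) ^ (1 + ε)) := by
            rw [mul_inv, one_div, one_div]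
    have hL : 0 ≤ ArithmeticFunction.vonMangoldt n := ArithmeticFunction.vonMangoldt_nonneg
    calc ArithmeticFunction.vonMangoldt n / Real.sqrt n * Real.exp (-(u - Real.log n) ^ 2 / 4)
        ≤ (n : ℝ) ^ ε / ε / Real.sqrt n * (Real.exp (a ^ 2) * (Real.exp (a * u) *
        (n : ℝ) ^ (-a))) := by
          refine mul_le_mul (div_le_div_of_nonneg_right h1 (Real.sqrt_nonneg _)) h2
            (Real.exp_pos _).le (by positivity)
      _ = Real.exp (a ^ 2) * (1 / ε) * Real.exp (a * u) * ((n : ℝ) ^ (1 + ε))⁻¹ := h3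
      _ ≤ Real.exp (a ^ 2) * (1 / ε) * Real.exp (a * u) *
          (1 / d * (1 / ((k : ℝ) + 1) ^ (1 + ε))) := mul_le_mul_of_nonneg_left h4 (by positivity)
      _ = _ := by ring
  have hs1 : Summable (fun k => apt d u (g k)) :=
    Summable.of_nonneg_of_le (fun k => apt_nonneg _ _ _) hterm (hSs.mul_left _)
  have hs2 : Summable (apt d u) := by
    have h5 : ∀ x ∉ Set.range g, apt d u x = 0 := by
      intro x hx
      by_contra h
      exact hx (hsup h)
    exact (hgi.summable_iff h5).1 hs1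
  refine ⟨hs2, ?_⟩
  rw [← hgi.tsum_eq hsup]
  refine (hs1.tsum_le_tsum hterm (hSs.mul_left _)).trans ?_
  rw [tsum_mul_left, ← hS]
  calc (Real.exp (a ^ 2) * (1 / ε) * Real.exp (a * u) / d) * S ≤
      (Real.exp (a ^ 2) * (1 / ε) * Real.exp (a * u) / d) * (S + 1) :=
        mul_le_mul_of_nonneg_left (by linarith) (by positivity)
    _ = _ := by ring

/-- the pointwise bound -/
theorem Pf_mod (ε : ℝ) (hε : 0 < ε) (hε1 : ε ≤ 1) : ∃ C : ℝ, 0 < C ∧ ∀ (q : ℕ), 0 < q →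
    ∀ (T u : ℝ), 1 ≤ T → 0 ≤ u →
      ∫ t : ℝ, ‖∑ χ ∈ PF q, Pf (cf ⟨q, χ⟩) T u t‖ ^ 2 ≤
        C * ((q.divisors.card : ℝ) ^ 2 * (T * Real.exp ((1 + 4 * ε) * u))) := by
  obtain ⟨C1, hC1, hap⟩ := apt_sum ε hε hε1
  obtain ⟨C3, hC3, hwt⟩ := wt_sq_int
  refine ⟨C1 ^ 2 * (1 + C3), by positivity, ?_⟩
  intro q hq T u hT hu
  have hT0 : 0 ≤ T := by linarith
  have hq0 : (0 : ℝ) < q := by exact_mod_cast hq
  have e1 : ∀ t, ∑ χ ∈ PF q, Pf (cf ⟨q, χ⟩) T u t =
      Pf (fun n => sps q n * (ArithmeticFunction.vonMangoldt n : ℂ)) T u t := by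
    intro t
    have h := Pf_sum (PF q) (fun _ => 1) (fun χ => cf ⟨q, χ⟩) (fun χ _ n => cf_norm ⟨q, χ⟩ n) T u t hT0
    simp only [Complex.ofReal_one, one_mul] at h
    rw [← h]
    congr 1
    funext n
    unfold sps cf
    rw [Finset.sum_mul]
  simp_rw [e1]
  set b : ℕ → ℂ := fun n => sps q n * (ArithmeticFunction.vonMangoldt n : ℂ) with hb
  set G : ℕ → ℝ := fun n => ∑ d ∈ q.divisors, (d : ℝ) * apt d u n with hG
  have hGs : Summable G := summable_sum fun d hd =>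
    ((hap d u (Nat.pos_of_mem_divisors hd)).1).mul_left _
  have hGle : ∑' n, G n ≤ C1 * (q.divisors.card : ℝ) * Real.exp ((1 / 2 + 2 * ε) * u) := by
    rw [hG, Summable.tsum_finsetSum (fun d hd =>
      ((hap d u (Nat.pos_of_mem_divisors hd)).1).mul_left _)]
    have h1 : ∀ d ∈ q.divisors, ∑' n, (d : ℝ) * apt d u n ≤
        C1 * Real.exp ((1 / 2 + 2 * ε) * u) := by
      intro d hd
      have hd' := Nat.pos_of_mem_divisors hd
      have hd0 : (0 : ℝ) < d := by exact_mod_cast hd'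
      rw [tsum_mul_left]
      calc (d : ℝ) * ∑' n, apt d u n ≤ d * (C1 / d * Real.exp ((1 / 2 + 2 * ε) * u)) :=
            mul_le_mul_of_nonneg_left (hap d u hd').2 hd0.le
        _ = _ := by field_simp
    refine (Finset.sum_le_sum h1).trans (le_of_eq ?_)
    rw [Finset.sum_const, nsmul_eq_mul]
    ring
  have hterm : ∀ (t : ℝ) (n : ℕ), ‖b n * ((Real.sqrt n : ℂ)⁻¹ * bt T u t (Real.log n))‖ ≤
      wt T t * G n := by
    intro t n
    have hw0 := wt_nonneg T t hT0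
    have hL : 0 ≤ ArithmeticFunction.vonMangoldt n := ArithmeticFunction.vonMangoldt_nonneg
    have hG0 : 0 ≤ G n := Finset.sum_nonneg fun d _ => mul_nonneg (Nat.cast_nonneg _) (apt_nonneg _ _ _)
    rcases lt_or_ge n 2 with hn | hn
    · have h0 : ArithmeticFunction.vonMangoldt n = 0 := by
        interval_cases n
        · simp
        · simp
      simp only [hb]
      rw [h0]
      simp only [Complex.ofReal_zero, mul_zero, zero_mul, norm_zero]
      positivity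
    · rw [norm_mul, norm_mul ((Real.sqrt n : ℂ)⁻¹), norm_inv, Complex.norm_real, Real.norm_eq_abs,
        abs_of_nonneg (Real.sqrt_nonneg _)]
      have h1 := bt_norm T u t (Real.log n) hT0
      have h3 : 1 / Real.sqrt (2 * Real.pi) ≤ 1 := by
        rw [div_le_one (by positivity), Real.one_le_sqrt]
        linarith [Real.pi_gt_three]
      have h4 : ‖bt T u t (Real.log n)‖ ≤ Real.exp (-(u - Real.log n) ^ 2 / 4) * wt T t := by
        refine h1.trans ?_
        refine mul_le_mul_of_nonneg_right ?_ hw0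
        calc _ ≤ 1 * Real.exp (-(u - Real.log n) ^ 2 / 4) :=
              mul_le_mul_of_nonneg_right h3 (Real.exp_pos _).le
          _ = _ := one_mul _
      have h5 : ‖b n‖ ≤ (∑ d ∈ q.divisors, (if d ∣ n - 1 then (d : ℝ) else 0)) *
          ArithmeticFunction.vonMangoldt n := by
        simp only [hb]
        rw [norm_mul, Complex.norm_real, Real.norm_of_nonneg hL]
        refine mul_le_mul_of_nonneg_right ((sps_norm_le hq hn).trans (le_of_eq ?_)) hL
        rw [← Finset.sum_filter, ← Finset.sum_filter]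
        refine Finset.sum_congr ?_ fun _ _ => rfl
        ext d
        simp only [Finset.mem_filter, Nat.mem_divisors]
        constructor
        · rintro ⟨⟨h1, h2⟩, h3⟩
          exact ⟨⟨h3, hq.ne'⟩, h1⟩
        · rintro ⟨⟨h1, h2⟩, h3⟩
          exact ⟨⟨h3, by omega⟩, h1⟩
      have h6 : (∑ d ∈ q.divisors, (if d ∣ n - 1 then (d : ℝ) else 0)) *
          ArithmeticFunction.vonMangoldt n * ((Real.sqrt n)⁻¹ *
          (Real.exp (-(u - Real.log n) ^ 2 / 4) * wt T t)) = wt T t * G n := by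
        simp only [hG]
        rw [Finset.sum_mul, Finset.sum_mul, Finset.mul_sum]
        refine Finset.sum_congr rfl fun d _ => ?_
        unfold apt
        by_cases h : d ∣ n - 1
        · rw [if_pos h, if_pos ⟨hn, h⟩, div_eq_mul_inv]
          ring
        · rw [if_neg h, if_neg (fun h' => h h'.2)]
          ring
      rw [← h6]
      gcongr
  have hpt : ∀ t : ℝ, ‖Pf b T u t‖ ^ 2 ≤
      (C1 ^ 2 * ((q.divisors.card : ℝ) ^ 2 * Real.exp ((1 + 4 * ε) * u))) * (wt T t) ^ 2 := by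
    intro t
    have hw0 := wt_nonneg T t hT0
    have h1 : ‖Pf b T u t‖ ≤ wt T t * (C1 * (q.divisors.card : ℝ) *
        Real.exp ((1 / 2 + 2 * ε) * u)) := by
      unfold Pf
      have hs' := hGs.mul_left (wt T t)
      have hs'' : Summable (fun n : ℕ => ‖b n * ((Real.sqrt n : ℂ)⁻¹ * bt T u t (Real.log n))‖) :=
        Summable.of_nonneg_of_le (fun n => norm_nonneg _) (hterm t) hs'
      refine (norm_tsum_le_tsum_norm hs'').trans ?_
      refine (hs''.tsum_le_tsum (hterm t) hs').trans ?_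
      rw [tsum_mul_left]
      exact mul_le_mul_of_nonneg_left hGle hw0
    refine (pow_le_pow_left₀ (norm_nonneg _) h1 2).trans (le_of_eq ?_)
    have e1 : Real.exp ((1 + 4 * ε) * u) = (Real.exp ((1 / 2 + 2 * ε) * u)) ^ 2 := by
      rw [← Real.exp_nat_mul]
      congr 1
      push_cast
      ring
    rw [e1]
    ring
  obtain ⟨hwi, hwle⟩ := hwt T hT0
  calc ∫ t : ℝ, ‖Pf b T u t‖ ^ 2 ≤
      ∫ t : ℝ, (C1 ^ 2 * ((q.divisors.card : ℝ) ^ 2 * Real.exp ((1 + 4 * ε) * u))) * (wt T t) ^ 2 := by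
        refine integral_mono_of_nonneg (Filter.Eventually.of_forall fun t => sq_nonneg _)
          (hwi.const_mul _) (Filter.Eventually.of_forall hpt)
    _ = (C1 ^ 2 * ((q.divisors.card : ℝ) ^ 2 * Real.exp ((1 + 4 * ε) * u))) *
        ∫ t : ℝ, (wt T t) ^ 2 := integral_const_mul _ _
    _ ≤ (C1 ^ 2 * ((q.divisors.card : ℝ) ^ 2 * Real.exp ((1 + 4 * ε) * u))) * (T * (1 + C3)) := by
        refine mul_le_mul_of_nonneg_left (hwle.trans ?_) (by positivity)
        nlinarith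
    _ = _ := by ring

/-- the sum over the moduli -/
theorem cross_mod (ε : ℝ) (hε : 0 < ε) (hε1 : ε ≤ 1 / 8) : ∃ C : ℝ, 0 < C ∧ ∀ (X Y : ℕ), 0 < X →
    ∀ (T u : ℝ), 1 ≤ T → 0 ≤ u →
      ∑ q ∈ Finset.Ioc X Y, (1 / (q : ℝ) ^ 2) * (1 / (phs q : ℝ)) *
        ∫ t : ℝ, ‖∑ χ ∈ PF q, Pf (cf ⟨q, χ⟩) T u t‖ ^ 2 ≤
        C * (T * Real.exp ((1 + 4 * ε) * u) * (X : ℝ) ^ (-(2 - 4 * ε))) := by
  obtain ⟨C, hC, h⟩ := Pf_mod ε hε (by linarith)
  obtain ⟨C1, hC1, hdiv⟩ := Pool.Agent.H369R2.divisor_bound ε hε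
  refine ⟨2 * C * C1 ^ 4, by positivity, ?_⟩
  intro X Y hX T u hT hu
  have hX0 : (0 : ℝ) < X := by exact_mod_cast hX
  have hterm : ∀ q ∈ Finset.Ioc X Y, (1 / (q : ℝ) ^ 2) * (1 / (phs q : ℝ)) *
        ∫ t : ℝ, ‖∑ χ ∈ PF q, Pf (cf ⟨q, χ⟩) T u t‖ ^ 2 ≤
      (C * C1 ^ 4 * (T * Real.exp ((1 + 4 * ε) * u)) * (X : ℝ) ^ (-(1 - 4 * ε))) *
        (if 1 ∣ q then ((1 : ℕ) : ℝ) / (q : ℝ) ^ 2 else 0) := by
    intro q hq
    rw [Finset.mem_Ioc] at hq
    have hq0 : 0 < q := by omega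
    have hqr : (0 : ℝ) < q := by exact_mod_cast hq0
    have hqX : (X : ℝ) ≤ q := by exact_mod_cast hq.1.le
    rw [if_pos (one_dvd q), Nat.cast_one]
    by_cases h0 : phs q = 0
    · rw [h0, Nat.cast_zero, div_zero, mul_zero, zero_mul]
      positivity
    · have h1 := phs_lower_real hq0 h0
      have h2 := h q hq0 T u hT hu
      have h3 := hdiv q hq0
      have h4 : (q.divisors.card : ℝ) ^ 4 ≤ C1 ^ 4 * (q : ℝ) ^ (4 * ε) := by
        calc (q.divisors.card : ℝ) ^ 4 ≤ (C1 * (q : ℝ) ^ ε) ^ 4 :=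
              pow_le_pow_left₀ (Nat.cast_nonneg _) h3 4
          _ = _ := by
              rw [mul_pow, ← Real.rpow_natCast ((q : ℝ) ^ ε) 4, ← Real.rpow_mul hqr.le]
              congr 2
              push_cast
              ring
      have h5 : (q : ℝ) ^ (4 * ε) / q ≤ (X : ℝ) ^ (-(1 - 4 * ε)) := by
        have e1 : (q : ℝ) ^ (4 * ε) / q = (q : ℝ) ^ (-(1 - 4 * ε)) := by
          rw [div_eq_mul_inv, ← Real.rpow_neg_one, ← Real.rpow_add hqr]
          congr 1
          ring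
        rw [e1]
        exact Real.rpow_le_rpow_of_nonpos hX0 hqX (by linarith)
      have hi0 : 0 ≤ ∫ t : ℝ, ‖∑ χ ∈ PF q, Pf (cf ⟨q, χ⟩) T u t‖ ^ 2 :=
        integral_nonneg fun t => sq_nonneg _
      calc (1 / (q : ℝ) ^ 2) * (1 / (phs q : ℝ)) *
            ∫ t : ℝ, ‖∑ χ ∈ PF q, Pf (cf ⟨q, χ⟩) T u t‖ ^ 2
          ≤ (1 / (q : ℝ) ^ 2) * ((q.divisors.card : ℝ) ^ 2 / q) *
            (C * ((q.divisors.card : ℝ) ^ 2 * (T * Real.exp ((1 + 4 * ε) * u)))) := by gcongr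
        _ = (1 / (q : ℝ) ^ 2) * (C * (T * Real.exp ((1 + 4 * ε) * u))) *
            ((q.divisors.card : ℝ) ^ 4 / q) := by ring
        _ ≤ (1 / (q : ℝ) ^ 2) * (C * (T * Real.exp ((1 + 4 * ε) * u))) *
            (C1 ^ 4 * (q : ℝ) ^ (4 * ε) / q) := by gcongr
        _ = (1 / (q : ℝ) ^ 2) * (C * C1 ^ 4 * (T * Real.exp ((1 + 4 * ε) * u))) *
            ((q : ℝ) ^ (4 * ε) / q) := by ring
        _ ≤ (1 / (q : ℝ) ^ 2) * (C * C1 ^ 4 * (T * Real.exp ((1 + 4 * ε) * u))) *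
            (X : ℝ) ^ (-(1 - 4 * ε)) := by gcongr
        _ = _ := by ring
  refine (Finset.sum_le_sum hterm).trans ?_
  rw [← Finset.mul_sum]
  have h6 : ∑ q ∈ Finset.Ioc X Y, (if 1 ∣ q then ((1 : ℕ) : ℝ) / (q : ℝ) ^ 2 else 0) ≤ 2 / X := by
    rcases le_or_gt X Y with h | h
    · obtain ⟨k, rfl⟩ := Nat.exists_eq_add_of_le h
      refine (sum_mult 1 one_pos X hX k).trans ?_
      have : 0 ≤ 2 / (((1 : ℕ) : ℝ) * (((X + k) / 1 + 1 : ℕ) : ℝ)) := by positivity
      linarith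
    · rw [Finset.Ioc_eq_empty (by omega), Finset.sum_empty]
      positivity
  refine (mul_le_mul_of_nonneg_left h6 (by positivity)).trans (le_of_eq ?_)
  have e2 : (X : ℝ) ^ (-(2 - 4 * ε)) = (X : ℝ) ^ (-(1 - 4 * ε)) * (1 / X) := by
    rw [one_div, ← Real.rpow_neg_one, ← Real.rpow_add hX0]
    congr 1
    ring
  rw [e2]
  ring

end Pool.Agent.R321.RD
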