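import Pool.Agent.R321.RC5
import Pool.Agent.R321.RD1

/-!
# Products of two Dirichlet L-functions with the same modulus: the mean square
-/

open Complex Filter Topology Set MeasureTheory
open H370 (zset mult NN Nd Ns)

set_option maxHeartbeats 4000000

namespace Pool.Agent.R321.RD

open H385 Pool.Agent.R321.RC

/-- index type of the pairs of characters with the same modulus -/
abbrev IB := Σ q : ℕ, DirichletCharacter ℂ q × DirichletCharacter ℂ q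

/-- the pairs of primitive characters with the same modulus -/
noncomputable def PB (X Y : ℕ) : Finset IB := (Finset.Ioc X Y).sigma (fun q => PF q ×ˢ PF q)

/-- the weight of a pair -/
noncomputable def wB (z : IB) : ℝ := (1 / (z.1 : ℝ) ^ 2) * (1 / (phs z.1 : ℝ))

/-- the two indices -/
def fs (z : IB) : IX := ⟨z.1, z.2.1⟩
def sn (z : IB) : IX := ⟨z.1, z.2.2⟩

/-- the product of the two L-functions -/
noncomputable def FB (z : IB) : ℂ → ℂ := fun s => LF z.1 z.2.1 s * LF z.1 z.2.2 s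

/-- sum over all pairs -/
noncomputable def avgB (X Y : ℕ) (f : IB → ℝ) : ℝ := ∑ z ∈ PB X Y, wB z * f z

lemma wB_nonneg (z : IB) : 0 ≤ wB z := by unfold wB; positivity

lemma avgB_nonneg (X Y : ℕ) (f : IB → ℝ) (hf : ∀ z, 0 ≤ f z) : 0 ≤ avgB X Y f :=
  Finset.sum_nonneg fun z _ => mul_nonneg (wB_nonneg z) (hf z)

lemma mem_PB {X Y : ℕ} {z : IB} (hz : z ∈ PB X Y) :
    X < z.1 ∧ z.1 ≤ Y ∧ z.2.1.IsPrimitive ∧ z.2.2.IsPrimitive := by
  unfold PB at hz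
  rw [Finset.mem_sigma, Finset.mem_Ioc, Finset.mem_product] at hz
  obtain ⟨⟨h1, h2⟩, h3, h4⟩ := hz
  have hq : z.1 ≠ 0 := by omega
  exact ⟨h1, h2, (mem_PF hq _).1 h3, (mem_PF hq _).1 h4⟩

lemma WW_mod (X Y : ℕ) : WW X Y = ∑ q ∈ Finset.Ioc X Y, (1 / (q : ℝ) ^ 2) * (phs q : ℝ) := by
  rw [WW_eq, primSet_eq, Finset.sum_sigma]
  refine Finset.sum_congr rfl fun q hq => ?_
  have hq0 : q ≠ 0 := by
    rw [Finset.mem_Ioc] at hq
    omega
  simp only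
  rw [Finset.sum_const, nsmul_eq_mul, PF_card hq0]
  ring

lemma sum_wB (X Y : ℕ) : ∑ z ∈ PB X Y, wB z = WW X Y := by
  rw [WW_mod]
  unfold PB wB
  rw [Finset.sum_sigma]
  refine Finset.sum_congr rfl fun q hq => ?_
  have hq0 : q ≠ 0 := by
    rw [Finset.mem_Ioc] at hq
    omega
  simp only
  rw [Finset.sum_const, nsmul_eq_mul, Finset.card_product, PF_card hq0]
  by_cases h : phs q = 0
  · rw [h]
    simp
  · have : (phs q : ℝ) ≠ 0 := by exact_mod_cast h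
    push_cast
    field_simp

/-- sums over the pairs, modulus by modulus -/
lemma avgB_eq (X Y : ℕ) (f : IB → ℝ) : avgB X Y f = ∑ q ∈ Finset.Ioc X Y,
    (1 / (q : ℝ) ^ 2) * (1 / (phs q : ℝ)) * ∑ χ ∈ PF q, ∑ ψ ∈ PF q, f ⟨q, (χ, ψ)⟩ := by
  unfold avgB PB
  rw [Finset.sum_sigma]
  refine Finset.sum_congr rfl fun q _ => ?_
  rw [Finset.sum_product, Finset.mul_sum]
  refine Finset.sum_congr rfl fun χ _ => ?_
  rw [Finset.mul_sum]
  rfl

/-- a function of the first character only -/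
lemma avgB_fst (X Y : ℕ) (f : IX → ℝ) : avgB X Y (fun z => f (fs z)) =
    ∑ q ∈ Finset.Ioc X Y, (1 / (q : ℝ) ^ 2) * ∑ χ ∈ PF q, f ⟨q, χ⟩ := by
  rw [avgB_eq]
  refine Finset.sum_congr rfl fun q hq => ?_
  have hq0 : q ≠ 0 := by
    rw [Finset.mem_Ioc] at hq
    omega
  by_cases h : phs q = 0
  · have h1 : PF q = ∅ := by rw [← Finset.card_eq_zero, PF_card hq0, h]
    rw [h1]
    simp
  · have hp : (phs q : ℝ) ≠ 0 := by exact_mod_cast h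
    have e : ∀ χ ∈ PF q, ∑ ψ ∈ PF q, f (fs ⟨q, (χ, ψ)⟩) = (phs q : ℝ) * f ⟨q, χ⟩ := by
      intro χ _
      show ∑ ψ ∈ PF q, f ⟨q, χ⟩ = _
      rw [Finset.sum_const, nsmul_eq_mul, PF_card hq0]
    rw [Finset.sum_congr rfl e, ← Finset.mul_sum]
    field_simp

lemma avgB_swap (X Y : ℕ) (f : IX → IX → ℝ) :
    avgB X Y (fun z => f (fs z) (sn z)) = avgB X Y (fun z => f (sn z) (fs z)) := by
  rw [avgB_eq, avgB_eq]
  refine Finset.sum_congr rfl fun q _ => ?_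
  congr 1
  rw [Finset.sum_comm]
  rfl

lemma avgB_add (X Y : ℕ) (f g : IB → ℝ) :
    avgB X Y (fun z => f z + g z) = avgB X Y f + avgB X Y g := by
  unfold avgB
  rw [← Finset.sum_add_distrib]
  exact Finset.sum_congr rfl fun z _ => by ring

lemma avgB_mul (X Y : ℕ) (c : ℝ) (f : IB → ℝ) :
    avgB X Y (fun z => c * f z) = c * avgB X Y f := by
  unfold avgB
  rw [Finset.mul_sum]
  exact Finset.sum_congr rfl fun z _ => by ring

lemma avgB_mono (X Y : ℕ) (f g : IB → ℝ) (h : ∀ z ∈ PB X Y, f z ≤ g z) :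
    avgB X Y f ≤ avgB X Y g :=
  Finset.sum_le_sum fun z hz => mul_le_mul_of_nonneg_left (h z hz) (wB_nonneg z)

/-- the mean square for the pairs -/
theorem ms_mod (ε0 : ℝ) (hε0 : 0 < ε0) (hε1 : ε0 ≤ 1 / 8) : ∃ C : ℝ, 0 < C ∧ ∀ (X Y : ℕ), 0 < X →
    ∀ (T u Z : ℝ), 1 ≤ T → 0 ≤ u →
    ∫ t : ℝ, primFam X Y (fun q χ =>
      ‖∑' n : ℕ, (χ (n : ZMod q) * (ArithmeticFunction.vonMangoldt n : ℂ)) *
        ((Real.sqrt n : ℂ)⁻¹ * bt T u t (Real.log n))‖ ^ 2) ≤ Z →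
    ∫ t : ℝ, ∑ z ∈ PB X Y, wB z *
      ‖∑' n : ℕ, (cf (fs z) n + cf (sn z) n) * ((Real.sqrt n : ℂ)⁻¹ * bt T u t (Real.log n))‖ ^ 2 ≤
      2 * Z + C * (T * Real.exp ((1 + 4 * ε0) * u) * (X : ℝ) ^ (-(2 - 4 * ε0))) := by
  obtain ⟨C, hC, h⟩ := cross_mod ε0 hε0 hε1
  refine ⟨2 * C, by positivity, fun X Y hX T u Z hT hu hZ => ?_⟩
  have hT0 : 0 ≤ T := by linarith
  have hint : ∀ p : IX, Integrable (fun t => ‖Pf (cf p) T u t‖ ^ 2) := fun p =>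
    fa_Pf_int (cf_norm p) T u hT0
  have hc : ∀ p : IX, Continuous (fun t => Pf (cf p) T u t) := fun p =>
    fa_Pf_cont (cf_norm p) T u hT0
  have e1 : ∀ t : ℝ, ∑ z ∈ PB X Y, wB z *
      ‖∑' n : ℕ, (cf (fs z) n + cf (sn z) n) * ((Real.sqrt n : ℂ)⁻¹ * bt T u t (Real.log n))‖ ^ 2 =
      2 * (∑ q ∈ Finset.Ioc X Y, (1 / (q : ℝ) ^ 2) *
        ∑ χ ∈ PF q, ‖Pf (cf ⟨q, χ⟩) T u t‖ ^ 2) +
      2 * ∑ q ∈ Finset.Ioc X Y, (1 / (q : ℝ) ^ 2) * (1 / (phs q : ℝ)) *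
        ‖∑ χ ∈ PF q, Pf (cf ⟨q, χ⟩) T u t‖ ^ 2 := by
    intro t
    have h1 : ∑ z ∈ PB X Y, wB z *
      ‖∑' n : ℕ, (cf (fs z) n + cf (sn z) n) * ((Real.sqrt n : ℂ)⁻¹ * bt T u t (Real.log n))‖ ^ 2 =
      avgB X Y (fun z => ‖Pf (cf (fs z)) T u t + Pf (cf (sn z)) T u t‖ ^ 2) := by
      unfold avgB
      refine Finset.sum_congr rfl fun z _ => ?_
      have := Pf_add (cf_norm (fs z)) (cf_norm (sn z)) T u t hT0
      unfold Pf at this ⊢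
      rw [this]
    rw [h1, avgB_eq, Finset.mul_sum, Finset.mul_sum, ← Finset.sum_add_distrib]
    refine Finset.sum_congr rfl fun q hq => ?_
    have hq0 : q ≠ 0 := by
      rw [Finset.mem_Ioc] at hq
      omega
    have h2 := pair_id (PF q) (fun _ => 1) (fun χ => Pf (cf ⟨q, χ⟩) T u t)
    rw [Finset.sum_product] at h2
    simp only [one_mul, mul_one, Complex.ofReal_one, Finset.sum_const, nsmul_eq_mul,
      PF_card hq0] at h2
    show (1 / (q : ℝ) ^ 2) * (1 / (phs q : ℝ)) * ∑ χ ∈ PF q, ∑ ψ ∈ PF q,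
      ‖Pf (cf ⟨q, χ⟩) T u t + Pf (cf ⟨q, ψ⟩) T u t‖ ^ 2 = _
    rw [h2]
    by_cases h0 : phs q = 0
    · have h1 : PF q = ∅ := by rw [← Finset.card_eq_zero, PF_card hq0, h0]
      rw [h1, h0]
      simp
    · have hp : (phs q : ℝ) ≠ 0 := by exact_mod_cast h0
      field_simp
  simp_rw [e1]
  have hi1 : Integrable (fun t => ∑ q ∈ Finset.Ioc X Y, (1 / (q : ℝ) ^ 2) *
      ∑ χ ∈ PF q, ‖Pf (cf ⟨q, χ⟩) T u t‖ ^ 2) :=
    integrable_finset_sum _ fun q _ => (integrable_finset_sum _ fun χ _ => hint _).const_mul _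
  have hi3 : ∀ q : ℕ, Integrable (fun t => ‖∑ χ ∈ PF q, Pf (cf ⟨q, χ⟩) T u t‖ ^ 2) := by
    intro q
    refine Integrable.mono' ((integrable_finset_sum (PF q) fun χ _ => hint ⟨q, χ⟩).const_mul
      ((PF q).card : ℝ)) ?_ ?_
    · exact ((continuous_finset_sum _ fun χ _ => hc ⟨q, χ⟩).norm.pow 2).aestronglyMeasurable
    · refine Filter.Eventually.of_forall fun t => ?_
      rw [Real.norm_of_nonneg (sq_nonneg _)]
      have k1 : ‖∑ χ ∈ PF q, Pf (cf ⟨q, χ⟩) T u t‖ ≤ ∑ χ ∈ PF q, ‖Pf (cf ⟨q, χ⟩) T u t‖ :=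
        norm_sum_le _ _
      refine (pow_le_pow_left₀ (norm_nonneg _) k1 2).trans ?_
      exact sq_sum_le_card_mul_sum_sq
  have hi2 : Integrable (fun t => ∑ q ∈ Finset.Ioc X Y, (1 / (q : ℝ) ^ 2) * (1 / (phs q : ℝ)) *
        ‖∑ χ ∈ PF q, Pf (cf ⟨q, χ⟩) T u t‖ ^ 2) :=
    integrable_finset_sum _ fun q _ => (hi3 q).const_mul _
  rw [integral_add (hi1.const_mul _) (hi2.const_mul _), integral_const_mul, integral_const_mul]
  have hZ' : ∫ t : ℝ, ∑ q ∈ Finset.Ioc X Y, (1 / (q : ℝ) ^ 2) *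
      ∑ χ ∈ PF q, ‖Pf (cf ⟨q, χ⟩) T u t‖ ^ 2 ≤ Z := by
    refine le_trans (le_of_eq ?_) hZ
    congr 1
    funext t
    rw [primFam_eq, primSet_eq, Finset.sum_sigma]
    refine Finset.sum_congr rfl fun q _ => ?_
    rw [Finset.mul_sum]
    rfl
  have h2 := h X Y hX T u hT hu
  have h3 : ∫ t : ℝ, ∑ q ∈ Finset.Ioc X Y, (1 / (q : ℝ) ^ 2) * (1 / (phs q : ℝ)) *
        ‖∑ χ ∈ PF q, Pf (cf ⟨q, χ⟩) T u t‖ ^ 2 =
      ∑ q ∈ Finset.Ioc X Y, (1 / (q : ℝ) ^ 2) * (1 / (phs q : ℝ)) *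
        ∫ t : ℝ, ‖∑ χ ∈ PF q, Pf (cf ⟨q, χ⟩) T u t‖ ^ 2 := by
    rw [integral_finset_sum _ fun q _ => (hi3 q).const_mul _]
    refine Finset.sum_congr rfl fun q _ => ?_
    rw [integral_const_mul]
  rw [h3]
  linarith

end Pool.Agent.R321.RD
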