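import Pool.Agent.R321.RD3

/-!
# Products of two Dirichlet L-functions with the same modulus: the family theorem
-/

open Complex Filter Topology Set MeasureTheory
open H370 (zset mult NN Nd Ns)

set_option maxHeartbeats 4000000

namespace Pool.Agent.R321.RD

open H385 Pool.Agent.R321.RC

lemma good_mod {A : ℝ} (hA : 1 ≤ A)
    (hgood : ∀ (q : ℕ) [NeZero q] (χ : DirichletCharacter ℂ q), χ.IsPrimitive →
      GoodU A q (DirichletCharacter.LFunction χ)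
        (fun n => χ (n : ZMod q) * (ArithmeticFunction.vonMangoldt n : ℂ)))
    {X Y : ℕ} {z : IB} (hz : z ∈ PB X Y) :
    GoodD 2 (2 * A ^ 2) (z.1 : ℝ) (FB z)
      (fun n => cf (fs z) n + cf (sn z) n) := by
  obtain ⟨h1, h2, h3, h4⟩ := mem_PB hz
  have hq : NeZero z.1 := ⟨by omega⟩
  have e1 : LF z.1 z.2.1 = DirichletCharacter.LFunction z.2.1 := by
    unfold LF
    rw [dif_neg (NeZero.ne _)]
  have e2 : LF z.1 z.2.2 = DirichletCharacter.LFunction z.2.2 := by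
    unfold LF
    rw [dif_neg (NeZero.ne _)]
  have hq1 : (1 : ℝ) ≤ (z.1 : ℝ) := by exact_mod_cast (show 1 ≤ z.1 by omega)
  have h := goodD_mul hA hq1 hq1 (hgood z.1 z.2.1 h3) (hgood z.1 z.2.2 h4)
  rw [Real.sqrt_mul_self (by linarith)] at h
  unfold FB
  rw [e1, e2]
  exact h

/-- the family theorem for pairs from the mean square hypothesis -/
theorem final_core_mod (γ β c' : ℝ) (h0 : 0 < γ) (hπ : γ < Real.pi) (hβ1 : 1 < β) (hβ2 : β < 2)
    (hc' : 0 ≤ c') (H : HY γ β c') (ε : ℝ) (hε : 0 < ε) :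
    ∃ K η X0 : ℝ, 1 ≤ K ∧ 0 < η ∧ 1 ≤ X0 ∧
    ∀ (X Y : ℕ) (T : ℝ), X0 ≤ X → K * X ≤ Y → (Y : ℝ) ≤ (X : ℝ) ^ (1 + η) →
      (Real.log X) ^ 2 ≤ T → T ≤ (X : ℝ) ^ η →
      0 < avgB X Y (fun z => (NN (FB z) T (2 * T) : ℝ)) ∧
      avgB X Y (fun z => 2 * (NN (FB z) T (2 * T) : ℝ) - (Ns (FB z) T (2 * T) : ℝ)) ≤
        (2 * Rw γ 0 / β + c' + ε) * avgB X Y (fun z => (NN (FB z) T (2 * T) : ℝ)) ∧
      avgB X Y (fun z => 3 * (NN (FB z) T (2 * T) : ℝ) - 2 * (Nd (FB z) T (2 * T) : ℝ)) ≤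
        (2 * Rw γ 0 / β + c' + ε) * avgB X Y (fun z => (NN (FB z) T (2 * T) : ℝ)) := by
  have hβ : 0 < β := by linarith
  have hR0 : 0 ≤ Rw γ 0 := Rw_nonneg γ h0 hπ 0
  obtain ⟨A0, hA0, hgood0⟩ := good_dirichlet_U
  set A : ℝ := 2 * A0 ^ 2 with hAdef
  have hA : 1 ≤ A := by rw [hAdef]; nlinarith
  set d : ℝ := 2 with hdd
  have hd : 1 ≤ d := by rw [hdd]; norm_num
  obtain ⟨C1, hC1, hfam⟩ := fam_abstract_D γ h0 hπ d A hd hA
  obtain ⟨C1', hC1', hfam'⟩ := fam_abstract_d_D γ h0 hπ d A hd hA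
  obtain ⟨C2, hC2, hlow⟩ := N_lower_D d A hd hA
  have hd0 : 0 < d := by linarith
  -- choose ε1
  have hpi := Real.pi_pos
  set CC : ℝ := max C1 C1' with hCC
  have hCC0 : 0 < CC := lt_max_of_lt_left hC1
  obtain ⟨ε1, hε1, hε1a, hε1b⟩ : ∃ ε1 : ℝ, 0 < ε1 ∧ ε1 ≤ ε / 8 ∧ 6 * Real.pi * CC * ε1 / β ≤ ε / 8 := by
    refine ⟨min (ε / 8) (ε / 8 * β / (6 * Real.pi * CC)), ?_, min_le_left _ _, ?_⟩
    · exact lt_min (by positivity) (by positivity)
    · have : 6 * Real.pi * CC * min (ε / 8) (ε / 8 * β / (6 * Real.pi * CC)) ≤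
          6 * Real.pi * CC * (ε / 8 * β / (6 * Real.pi * CC)) := by
        gcongr; exact min_le_right _ _
      rw [div_le_iff₀ hβ]
      refine this.trans (le_of_eq ?_)
      field_simp
  obtain ⟨K, η0, X0, hK, hη0, hX0, hmain⟩ := HY_mod γ β c' h0 hπ hβ hβ1 hβ2 H ε1 hε1
  -- choose η
  obtain ⟨η, hη, hη1, hηη0, hη2⟩ : ∃ η : ℝ, 0 < η ∧ η ≤ 1 ∧ η ≤ η0 ∧
      8 * η * (d ^ 2 * Rw γ 0 / β) ≤ ε / 8 := by
    refine ⟨min (min 1 η0) (ε / 64 / (d ^ 2 * Rw γ 0 / β + 1)), ?_, ?_, ?_, ?_⟩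
    · exact lt_min (lt_min one_pos hη0) (by positivity)
    · exact (min_le_left _ _).trans (min_le_left _ _)
    · exact (min_le_left _ _).trans (min_le_right _ _)
    · have h1 : min (min 1 η0) (ε / 64 / (d ^ 2 * Rw γ 0 / β + 1)) ≤ ε / 64 / (d ^ 2 * Rw γ 0 / β + 1) :=
        min_le_right _ _
      have h2 : 0 ≤ d ^ 2 * Rw γ 0 / β := by positivity
      have h3 : ε / 64 / (d ^ 2 * Rw γ 0 / β + 1) * (d ^ 2 * Rw γ 0 / β) ≤ ε / 64 := by
        rw [div_mul_eq_mul_div, div_le_iff₀ (by positivity)]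
        exact NL.b9 (by positivity)
      have h4 : min (min 1 η0) (ε / 64 / (d ^ 2 * Rw γ 0 / β + 1)) * (d ^ 2 * Rw γ 0 / β) ≤
          ε / 64 / (d ^ 2 * Rw γ 0 / β + 1) * (d ^ 2 * Rw γ 0 / β) := mul_le_mul_of_nonneg_right h1 h2
      exact NL.b10 h4 h3
  -- choose L0
  set c2 : ℝ := 2 * c' with hc2
  have hc2n : 0 ≤ c2 := by rw [hc2]; linarith
  set L0 : ℝ := 8 + 4 * β + 1 / β + CC * (12 / β + 3) * (2 * Real.pi) * (8 / ε) +
    10 * Real.pi * C2 * (d ^ 2 * Rw γ 0 / β + c2 + ε) * (2 / ε) with hL0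
  have hL0a : 4 * β + 8 ≤ L0 := by
    have : 0 ≤ 1 / β + CC * (12 / β + 3) * (2 * Real.pi) * (8 / ε) +
      10 * Real.pi * C2 * (d ^ 2 * Rw γ 0 / β + c2 + ε) * (2 / ε) := by positivity
    rw [hL0]; linarith
  have hL0b : 1 / β ≤ L0 := by
    have : 0 ≤ 8 + 4 * β + CC * (12 / β + 3) * (2 * Real.pi) * (8 / ε) +
      10 * Real.pi * C2 * (d ^ 2 * Rw γ 0 / β + c2 + ε) * (2 / ε) := by positivity
    rw [hL0]; linarith
  have hL0c : CC * (12 / β + 3) * (2 * Real.pi) ≤ ε / 8 * L0 := by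
    have h1 : 0 ≤ 8 + 4 * β + 1 / β +
      10 * Real.pi * C2 * (d ^ 2 * Rw γ 0 / β + c2 + ε) * (2 / ε) := by positivity
    have h2 : ε / 8 * L0 = CC * (12 / β + 3) * (2 * Real.pi) + ε / 8 * (8 + 4 * β + 1 / β +
      10 * Real.pi * C2 * (d ^ 2 * Rw γ 0 / β + c2 + ε) * (2 / ε)) := by
      rw [hL0]; field_simp; ring
    rw [h2]
    have := mul_nonneg (show 0 ≤ ε / 8 by positivity) h1
    linarith
  have hL0d : 10 * Real.pi * C2 * (d ^ 2 * Rw γ 0 / β + c2 + ε) ≤ ε / 2 * L0 := by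
    have h1 : 0 ≤ 8 + 4 * β + 1 / β + CC * (12 / β + 3) * (2 * Real.pi) * (8 / ε) := by positivity
    have h2 : ε / 2 * L0 = 10 * Real.pi * C2 * (d ^ 2 * Rw γ 0 / β + c2 + ε) + ε / 2 * (8 + 4 * β + 1 / β +
      CC * (12 / β + 3) * (2 * Real.pi) * (8 / ε)) := by
      rw [hL0]; field_simp; ring
    rw [h2]
    have := mul_nonneg (show 0 ≤ ε / 2 by positivity) h1
    linarith
  refine ⟨K, η, max X0 (Real.exp L0), hK, hη, le_max_of_le_left hX0, ?_⟩
  intro X Y T hX hKX hY hT1 hT2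
  have hXX0 : X0 ≤ X := (le_max_left _ _).trans hX
  have hXe : Real.exp L0 ≤ X := (le_max_right _ _).trans hX
  have hX1 : (1 : ℝ) ≤ X := hX0.trans hXX0
  have hXpos : (0 : ℝ) < X := by linarith
  have hXn : 1 ≤ X := by exact_mod_cast hX1
  set L : ℝ := Real.log X with hL
  have hLL0 : L0 ≤ L := by
    rw [hL, Real.le_log_iff_exp_le hXpos]; exact hXe
  have hXexp : (X : ℝ) = Real.exp L := by rw [hL, Real.exp_log hXpos]
  have hXη : (X : ℝ) ^ η = Real.exp (η * L) := by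
    rw [Real.rpow_def_of_pos hXpos, mul_comm]
  have hT2' : T ≤ Real.exp (η * L) := by rw [← hXη]; exact hT2
  have hXY : (X : ℝ) ≤ Y := NL.b11 hXpos.le hK hKX
  have hYpos : (0 : ℝ) < Y := by linarith
  obtain ⟨p1, p2, p3, p4, p5, p6⟩ := param_ok β L T η hβ hη1 (by linarith) (by linarith) hT1 hT2'
  have hTpos : 0 < T := by linarith
  have hL8 : 8 ≤ L := by linarith
  have hYη : Real.log (Y * T) ≤ (1 + 2 * η) * L := by
    rw [Real.log_mul hYpos.ne' hTpos.ne']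
    have h1 : Real.log Y ≤ (1 + η) * L := by
      have := Real.log_le_log hYpos hY
      rwa [Real.log_rpow hXpos] at this
    have h2 : Real.log T ≤ η * L := by
      have := Real.log_le_log hTpos hT2'
      rwa [Real.log_exp] at this
    linarith
  obtain ⟨hW1, Yf, y1, y2, hy1, hy2, m1, m2, m3, m4, m5⟩ := hmain X Y T hXX0 hKX
    (hY.trans (Real.rpow_le_rpow_of_exponent_le hX1 (by linarith))) hT1
    (hT2.trans (Real.rpow_le_rpow_of_exponent_le hX1 hηη0))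
  set W2 : ℝ := WW X Y with hW2
  -- family data
  have hmem : ∀ z ∈ PB X Y, (X : ℝ) ≤ (z.1 : ℝ) ∧
      (z.1 : ℝ) ≤ Y := by
    intro z hz
    obtain ⟨h1, h2, h3, h4⟩ := mem_PB hz
    exact ⟨by exact_mod_cast h1.le, by exact_mod_cast h2⟩
  have hdata : ∀ z ∈ PB X Y, 0 ≤ wB z ∧ (1 : ℝ) ≤ (z.1 : ℝ) ∧
      GoodD d A ((z.1 : ℝ)) (FB z) (fun n => cf (fs z) n + cf (sn z) n) ∧
      Real.log ((z.1 : ℝ) * T) ≤ (1 + 2 * η) * L := by
    intro z hz
    obtain ⟨b1, b2⟩ := hmem z hz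
    refine ⟨wB_nonneg z, hX1.trans b1, good_mod hA0 hgood0 hz, ?_⟩
    refine le_trans (Real.log_le_log ?_ ?_) hYη
    · have : 0 < (z.1 : ℝ) := by linarith
      positivity
    · exact mul_le_mul_of_nonneg_right b2 hTpos.le
  have hLm : (1 + 2 * η) * L ≤ 3 * L := mul_le_mul_of_nonneg_right (by linarith) (by linarith)
  have hLm1 : 1 ≤ (1 + 2 * η) * L := NL.b12 hη (by linarith)
  have hLm0 : 0 ≤ (1 + 2 * η) * L := by linarith
  have hLm2 : ((1 + 2 * η) * L) ^ 2 ≤ 9 * L ^ 2 := by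
    have h0 : ((1 + 2 * η) * L) ^ 2 ≤ (3 * L) ^ 2 := pow_le_pow_left₀ hLm0 hLm 2
    linarith [show (3 * L) ^ 2 = 9 * L ^ 2 by ring]
  have hW : ∑ z ∈ PB X Y, wB z = W2 := sum_wB X Y
  have hW0 : 0 ≤ W2 := by linarith
  have hexp : ((1 + 2 * η) * L) ^ 2 * Real.exp (β * L - L ^ 2 / 2) ≤ Real.exp (-(β * L)) :=
    le_trans (mul_le_mul_of_nonneg_right hLm2 (Real.exp_pos _).le) p5
  have k1 := hfam (PB X Y) wB (fun z => (z.1 : ℝ)) FB
    (fun z n => cf (fs z) n + cf (sn z) n)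
    T L (β * L) ((1 + 2 * η) * L) y1 y2 Yf hdata p1 p2 p3 p4 hLm1 hexp hy1 hy2 m1 m2 m3
  have k2 := hfam' (PB X Y) wB (fun z => (z.1 : ℝ)) FB
    (fun z n => cf (fs z) n + cf (sn z) n)
    T L (β * L) ((1 + 2 * η) * L) y1 y2 Yf hdata p1 p2 p3 p4 hLm1 hexp hy1 hy2 m1 m2 m3
  -- lower bound for the number of zeros
  have hN : W2 * (d * (T / (2 * Real.pi) * L) - 5 * C2 * T) ≤
      avgB X Y (fun z => (NN (FB z) T (2 * T) : ℝ)) := by
    rw [← hW, Finset.sum_mul]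
    unfold avgB
    refine Finset.sum_le_sum fun z hz => ?_
    refine mul_le_mul_of_nonneg_left ?_ (wB_nonneg z)
    obtain ⟨b1, b2⟩ := hmem z hz
    set Q : ℝ := (z.1 : ℝ) with hQ
    have hq0 : (0 : ℝ) < Q := by linarith
    have hT1' : 1 ≤ T := by linarith
    have hl := hlow Q (FB z) _ (by linarith) (good_mod hA0 hgood0 hz) T L p1 p2
    have hlog1 : L ≤ Real.log (Q * T) := by
      rw [hL]
      refine Real.log_le_log hXpos ?_
      calc (X : ℝ) = X * 1 := (mul_one _).symm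
        _ ≤ Q * T := mul_le_mul b1 hT1' zero_le_one hq0.le
    have hlog2 : Real.log (Q * T) ≤ 3 * L := by
      refine le_trans ?_ hLm
      refine le_trans (Real.log_le_log (by positivity) ?_) hYη
      exact mul_le_mul_of_nonneg_right b2 hTpos.le
    refine le_trans ?_ hl
    have a1 : d * (T / (2 * Real.pi) * L) ≤ T / (2 * Real.pi) * (d * Real.log (Q * T)) := by
      calc d * (T / (2 * Real.pi) * L) = T / (2 * Real.pi) * (d * L) := by ring
        _ ≤ _ := mul_le_mul_of_nonneg_left (mul_le_mul_of_nonneg_left hlog1 hd0.le) (by positivity)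
    have a2 : L * Real.log (Q * T) ≤ 3 * T := by
      have : L * Real.log (Q * T) ≤ L * (3 * L) := mul_le_mul_of_nonneg_left hlog2 (by linarith)
      linarith [show L * (3 * L) = 3 * L ^ 2 by ring]
    have a3 : T * Real.log (Q * T) ^ 2 * Real.exp (-L ^ 2 / 2) ≤ T := by
      have b1 : Real.log (Q * T) ^ 2 ≤ (3 * L) ^ 2 := pow_le_pow_left₀ (by linarith) hlog2 2
      have b2 : Real.log (Q * T) ^ 2 * Real.exp (-L ^ 2 / 2) ≤ 1 := by
        refine le_trans (mul_le_mul_of_nonneg_right b1 (Real.exp_pos _).le) ?_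
        rw [show (3 * L) ^ 2 = 9 * L ^ 2 by ring]; exact p6
      calc _ = T * (Real.log (Q * T) ^ 2 * Real.exp (-L ^ 2 / 2)) := by ring
        _ ≤ T * 1 := mul_le_mul_of_nonneg_left b2 hTpos.le
        _ = T := mul_one T
    have a4 : C2 * (T + L * Real.log (Q * T) + T * Real.log (Q * T) ^ 2 * Real.exp (-L ^ 2 / 2)) ≤
        C2 * (5 * T) := mul_le_mul_of_nonneg_left (by linarith) hC2.le
    linarith
  have hL0L : ε / 8 * L0 ≤ ε / 8 * L := mul_le_mul_of_nonneg_left hLL0 (by positivity)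
  have hL0L' : ε / 2 * L0 ≤ ε / 2 * L := mul_le_mul_of_nonneg_left hLL0 (by positivity)
  have core : ∀ (D : ℝ) (SM : ℝ), 0 < D → D ≤ CC →
      SM ≤ W2 * (d * ((1 + 2 * η) * L)) ^ 2 * Rw γ 0 * T / (2 * Real.pi * (β * L)) +
        (2 / (Real.sqrt Real.pi * (β * L))) * (∫ u in (0 : ℝ)..(β * L), Rw γ (u / (β * L)) * Yf u) +
      D * (W2 * (((1 + 2 * η) * L) ^ 2 * L / (β * L) + ((1 + 2 * η) * L) * T / (β * L) +
        L * ((1 + 2 * η) * L)) + Real.sqrt W2 * ((1 + 2 * η) * L) * T *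
          (Real.sqrt y1 + Real.sqrt y2) / (β * L)) →
      SM ≤ (2 * Rw γ 0 / β + c' + ε) * avgB X Y (fun z => (NN (FB z) T (2 * T) : ℝ)) := by
    intro D SM hD hDC hSM
    have hk := numeric_core_D d β c2 ε (Rw γ 0) D C2 η ε1 L T W2
      (avgB X Y (fun z => (NN (FB z) T (2 * T) : ℝ))) SM _ _ hd hβ hc2n hε hR0 hD
      hC2 hη hη1 hε1 hL8 hT1 hW0 hη2 hε1a (by
        refine le_trans ?_ (hL0c.trans hL0L)
        have : 0 ≤ (12 / β + 3) * (2 * Real.pi) := by positivity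
        rw [mul_assoc, mul_assoc]
        exact mul_le_mul_of_nonneg_right hDC this) (by
        refine le_trans ?_ hε1b
        gcongr) (hL0d.trans hL0L') m4 m5 hSM hN
      (avgB_nonneg _ _ _ (fun _ => Nat.cast_nonneg _))
    refine hk.trans (le_of_eq ?_)
    rw [hdd, hc2]
    congr 2
    ring
  refine ⟨?_, ?_, ?_⟩
  · refine lt_of_lt_of_le ?_ hN
    have hL0e : 10 * Real.pi * C2 * 2 ≤ L0 := by
      have i1 : 0 ≤ d ^ 2 * Rw γ 0 / β := by positivity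
      have hh : ε * (2 / ε) = 2 := mul_div_cancel₀ 2 hε.ne'
      have i2 : 10 * Real.pi * C2 * (d ^ 2 * Rw γ 0 / β + c2 + ε) * (2 / ε) =
          10 * Real.pi * C2 * (ε * (2 / ε)) +
            10 * Real.pi * C2 * (d ^ 2 * Rw γ 0 / β + c2) * (2 / ε) := by
        ring
      have i3 : 0 ≤ 10 * Real.pi * C2 * (d ^ 2 * Rw γ 0 / β + c2) * (2 / ε) := by positivity
      have i4 : 0 ≤ 8 + 4 * β + 1 / β + CC * (12 / β + 3) * (2 * Real.pi) * (8 / ε) := by positivity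
      rw [hL0, i2, hh]
      linarith
    have hW1' : 1 ≤ W2 := hW1
    have i5 : 10 * Real.pi * C2 * 2 ≤ L := hL0e.trans hLL0
    have i6 : 0 < d * (T / (2 * Real.pi) * L) - 5 * C2 * T := by
      have i7 : d * (T / (2 * Real.pi) * L) = T / Real.pi * L := by
        show 2 * (T / (2 * Real.pi) * L) = T / Real.pi * L
        field_simp
      have i8 : T / Real.pi * (10 * Real.pi * C2 * 2) ≤ T / Real.pi * L :=
        mul_le_mul_of_nonneg_left i5 (by positivity)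
      have i9 : T / Real.pi * (10 * Real.pi * C2 * 2) = 20 * C2 * T := by
        field_simp
        norm_num
      rw [i7]
      have i10 : 0 < C2 * T := mul_pos hC2 hTpos
      linarith
    exact mul_pos (by linarith) i6
  · refine core C1 _ hC1 (le_max_left _ _) ?_
    rw [hW] at k1
    refine k1.trans (le_of_eq ?_)
    ring
  · refine core C1' _ hC1' (le_max_right _ _) ?_
    rw [hW] at k2
    refine k2.trans (le_of_eq ?_)
    ring

end Pool.Agent.R321.RD
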