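import Pool.Agent.R321.RD4
import Pool.Agent.R321.RC7

/-!
# Common zeros of two L-functions with the same modulus
-/

open Complex Filter Topology Set MeasureTheory
open H370 (zset mult NN Nd Ns GoodL)

set_option maxHeartbeats 4000000

namespace Pool.Agent.R321.RD

open H385 Pool.Agent.R321.RC

/-- simple critical zeros of `F`, not zeros of `G`, alone at their height -/
noncomputable def Al (F G : ℂ → ℂ) (T : ℝ) : ℕ :=
  {s : ℂ | (s ∈ zset F T (2 * T) ∧ s.re = 1 / 2 ∧ mult F s = 1 ∧ G s ≠ 0) ∧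
    ∀ s' ∈ zset F T (2 * T) ∪ zset G T (2 * T), s'.im = s.im → s' = s}.ncard

theorem once {F G : ℂ → ℂ} (hF : GoodL F) (hG : GoodL G) {T : ℝ} (hT : 1 ≤ T) :
    3 * Ns (fun s => F s * G s) T (2 * T) ≤
      NN (fun s => F s * G s) T (2 * T) + 2 * (Al F G T + Al G F T) := by
  classical
  set H : ℂ → ℂ := fun s => F s * G s with hH
  have hfF : (zset F T (2 * T)).Finite := H370.zset_finite hF T _ hT
  have hfG : (zset G T (2 * T)).Finite := H370.zset_finite hG T _ hT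
  have hz : zset H T (2 * T) = zset F T (2 * T) ∪ zset G T (2 * T) := zset_mul F G T (2 * T)
  have hU : (zset H T (2 * T)).Finite := by rw [hz]; exact hfF.union hfG
  have him : ∀ {s : ℂ}, s ∈ zset H T (2 * T) → 0 < s.im := fun h => by linarith [h.2.2.1]
  have hmp : ∀ {s : ℂ}, s ∈ zset H T (2 * T) → 1 ≤ mult H s := by
    intro s h
    have i := him h
    have e : mult H s = mult F s + mult G s := mult_mul hF hG i
    rw [e]
    rw [hz] at h
    rcases h with h1 | h1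
    · have := (mult_pos_iff hF i).2 h1.2.2.2.2
      omega
    · have := (mult_pos_iff hG i).2 h1.2.2.2.2
      omega
  -- reflection
  have hrefl : ∀ {s : ℂ}, s ∈ zset H T (2 * T) → 1 - (starRingEnd ℂ) s ∈ zset H T (2 * T) := by
    have key : ∀ {P : ℂ → ℂ}, GoodL P → ∀ {s : ℂ}, s ∈ zset P T (2 * T) →
        1 - (starRingEnd ℂ) s ∈ zset P T (2 * T) := by
      intro P hP s hs
      obtain ⟨h1, h2, h3, h4, h5⟩ := hs
      have i1 : (1 - (starRingEnd ℂ) s).im = s.im := by simp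
      have i2 : (1 - (starRingEnd ℂ) s).re = 1 - s.re := by simp
      refine ⟨by rw [i2]; linarith, by rw [i2]; linarith, by rw [i1]; exact h3,
        by rw [i1]; exact h4, ?_⟩
      have e := hP.symm s h1 h2 (by linarith)
      have o1 : analyticOrderAt P s ≠ 0 := by
        rw [Ne, (hP.an s (by linarith)).analyticOrderAt_eq_zero]
        simpa using h5
      rw [← e] at o1
      by_contra hc
      exact o1 ((hP.an _ (by rw [i1]; linarith)).analyticOrderAt_eq_zero.2 hc)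
    intro s hs
    rw [hz] at hs ⊢
    rcases hs with h | h
    · exact Or.inl (key hF h)
    · exact Or.inr (key hG h)
  set Z : Finset ℂ := hU.toFinset with hZ
  set S : Finset ℂ := Z.filter (fun s => s.re = 1 / 2 ∧ mult H s = 1) with hS
  set U : Finset ℂ := S.filter (fun s => ∀ s' ∈ zset H T (2 * T), s'.im = s.im → s' = s) with hUd
  set V : Finset ℂ := S.filter (fun s => ¬ ∀ s' ∈ zset H T (2 * T), s'.im = s.im → s' = s) with hV
  have hSUV : U.card + V.card = S.card := Finset.card_filter_add_card_filter_not _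
  have hNs : Ns H T (2 * T) = S.card := by
    unfold Ns
    have : {s : ℂ | s ∈ zset H T (2 * T) ∧ s.re = 1 / 2 ∧ mult H s = 1} =
        ((S : Finset ℂ) : Set ℂ) := by
      ext s
      simp [hS, hZ]
    rw [this, Set.ncard_coe_finset]
  have hNN : NN H T (2 * T) = ∑ s ∈ Z, mult H s := by
    unfold NN
    exact finsum_mem_eq_finite_toFinset_sum _ hU
  -- the off-line zeros to the right and to the left
  set R : Finset ℂ := Z.filter (fun s => 1 / 2 < s.re) with hR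
  set Lf : Finset ℂ := Z.filter (fun s => s.re < 1 / 2) with hLf
  have hVR : V.card ≤ R.card := by
    have hex : ∀ s ∈ V, ∃ s' ∈ R, s'.im = s.im := by
      intro s hs
      rw [hV, Finset.mem_filter, hS, Finset.mem_filter] at hs
      obtain ⟨⟨hsZ, hre, hm⟩, hn⟩ := hs
      push Not at hn
      obtain ⟨s', hs', hi, hne⟩ := hn
      have hre' : s'.re ≠ 1 / 2 := by
        intro h
        exact hne (Complex.ext (h.trans hre.symm) hi)
      rcases lt_or_gt_of_ne hre' with h | h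
      · refine ⟨1 - (starRingEnd ℂ) s', ?_, by simpa using hi⟩
        rw [hR, Finset.mem_filter, hZ, Set.Finite.mem_toFinset]
        refine ⟨hrefl hs', ?_⟩
        simp only [sub_re, one_re, conj_re]
        linarith
      · refine ⟨s', ?_, hi⟩
        rw [hR, Finset.mem_filter, hZ, Set.Finite.mem_toFinset]
        exact ⟨hs', h⟩
    choose! f hf using hex
    refine Finset.card_le_card_of_injOn f (fun s hs => (hf s hs).1) ?_
    intro s hs t ht h
    have h1 := (hf s hs).2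
    have h2 := (hf t ht).2
    rw [h] at h1
    rw [Finset.mem_coe, hV, Finset.mem_filter, hS, Finset.mem_filter] at hs ht
    exact Complex.ext (hs.1.2.1.trans ht.1.2.1.symm) (h1.symm.trans h2)
  have hRL : R.card ≤ Lf.card := by
    refine Finset.card_le_card_of_injOn (fun s => 1 - (starRingEnd ℂ) s) (fun s hs => ?_) ?_
    · rw [Finset.mem_coe, hR, Finset.mem_filter, hZ, Set.Finite.mem_toFinset] at hs
      rw [Finset.mem_coe, hLf, Finset.mem_filter, hZ, Set.Finite.mem_toFinset]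
      refine ⟨hrefl hs.1, ?_⟩
      simp only [sub_re, one_re, conj_re]
      linarith [hs.2]
    · intro s _ t _ h
      have h' : (starRingEnd ℂ) s = (starRingEnd ℂ) t := by
        simpa using h
      exact (starRingEnd ℂ).injective h'
  have hcount : S.card + R.card + Lf.card ≤ ∑ s ∈ Z, mult H s := by
    have hd1 : Disjoint S R := by
      rw [Finset.disjoint_left]
      intro s h1 h2
      rw [hS, Finset.mem_filter] at h1
      rw [hR, Finset.mem_filter] at h2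
      linarith [h1.2.1, h2.2]
    have hd2 : Disjoint (S ∪ R) Lf := by
      rw [Finset.disjoint_left]
      intro s h1 h2
      rw [hLf, Finset.mem_filter] at h2
      rw [Finset.mem_union, hS, Finset.mem_filter, hR, Finset.mem_filter] at h1
      rcases h1 with h1 | h1
      · linarith [h1.2.1, h2.2]
      · linarith [h1.2, h2.2]
    have hsub : (S ∪ R) ∪ Lf ⊆ Z := by
      intro s hs
      rw [Finset.mem_union, Finset.mem_union, hS, hR, hLf, Finset.mem_filter, Finset.mem_filter,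
        Finset.mem_filter] at hs
      tauto
    calc S.card + R.card + Lf.card = ((S ∪ R) ∪ Lf).card := by
          rw [Finset.card_union_of_disjoint hd2, Finset.card_union_of_disjoint hd1]
      _ ≤ Z.card := Finset.card_le_card hsub
      _ = ∑ s ∈ Z, 1 := Finset.card_eq_sum_ones _
      _ ≤ ∑ s ∈ Z, mult H s := Finset.sum_le_sum fun s hs => hmp (by
          rwa [hZ, Set.Finite.mem_toFinset] at hs)
  have hUA : U.card ≤ Al F G T + Al G F T := by
    have hsub : ((U : Finset ℂ) : Set ℂ) ⊆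
        {s : ℂ | (s ∈ zset F T (2 * T) ∧ s.re = 1 / 2 ∧ mult F s = 1 ∧ G s ≠ 0) ∧
          ∀ s' ∈ zset F T (2 * T) ∪ zset G T (2 * T), s'.im = s.im → s' = s} ∪
        {s : ℂ | (s ∈ zset G T (2 * T) ∧ s.re = 1 / 2 ∧ mult G s = 1 ∧ F s ≠ 0) ∧
          ∀ s' ∈ zset G T (2 * T) ∪ zset F T (2 * T), s'.im = s.im → s' = s} := by
      intro s hs
      rw [Finset.mem_coe, hUd, Finset.mem_filter, hS, Finset.mem_filter, hZ,
        Set.Finite.mem_toFinset] at hs
      obtain ⟨⟨h1, h2, h3⟩, h4⟩ := hs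
      have i := him h1
      have e : mult H s = mult F s + mult G s := mult_mul hF hG i
      rw [e] at h3
      rw [hz] at h1 h4
      rcases h1 with h1 | h1
      · have hp := (mult_pos_iff hF i).2 h1.2.2.2.2
        left
        refine ⟨⟨h1, h2, by omega, fun h0 => ?_⟩, h4⟩
        have := (mult_pos_iff hG i).2 h0
        omega
      · have hp := (mult_pos_iff hG i).2 h1.2.2.2.2
        right
        refine ⟨⟨h1, h2, by omega, fun h0 => ?_⟩, fun s' hs' => h4 s' (by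
          rw [Set.union_comm]; exact hs')⟩
        have := (mult_pos_iff hF i).2 h0
        omega
    rw [← Set.ncard_coe_finset]
    refine (Set.ncard_le_ncard hsub ?_).trans (Set.ncard_union_le _ _)
    exact (hfF.subset fun s hs => hs.1.1).union (hfG.subset fun s hs => hs.1.1)
  rw [hNs, hNN]
  omega

/-- the family theorem for pairs with a constant -/
theorem final_of_const_mod (γ c : ℝ) (h0 : 0 < γ) (hπ : γ < Real.pi)
    (hc : Rw γ 0 + 2 * (∫ α in (0 : ℝ)..1, min (2 * α) 1 * Rw γ α) < c) :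
    ∃ K η X0 : ℝ, 1 ≤ K ∧ 0 < η ∧ 1 ≤ X0 ∧
    ∀ (X Y : ℕ) (T : ℝ), X0 ≤ X → K * X ≤ Y → (Y : ℝ) ≤ (X : ℝ) ^ (1 + η) →
      (Real.log X) ^ 2 ≤ T → T ≤ (X : ℝ) ^ η →
      0 < avgB X Y (fun z => (NN (FB z) T (2 * T) : ℝ)) ∧
      avgB X Y (fun z => 2 * (NN (FB z) T (2 * T) : ℝ) - (Ns (FB z) T (2 * T) : ℝ)) ≤
        c * avgB X Y (fun z => (NN (FB z) T (2 * T) : ℝ)) ∧
      avgB X Y (fun z => 3 * (NN (FB z) T (2 * T) : ℝ) - 2 * (Nd (FB z) T (2 * T) : ℝ)) ≤
        c * avgB X Y (fun z => (NN (FB z) T (2 * T) : ℝ)) := by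
  set R0 : ℝ := Rw γ 0 with hR0
  have hR0n : 0 ≤ R0 := Rw_nonneg γ h0 hπ 0
  set J : ℝ := ∫ α in (0 : ℝ)..1, min (2 * α) 1 * Rw γ α with hJ
  set d : ℝ := c - (R0 + 2 * J) with hd
  have hd0 : 0 < d := by rw [hd]; linarith
  -- choose β
  set s : ℝ := min (1 / 2) (d / (2 * (R0 + 1))) with hs
  have hs0 : 0 < s := by positivity
  have hs1 : s ≤ 1 / 2 := min_le_left _ _
  have hs2 : R0 * s ≤ d / 2 := by
    have h1 : s ≤ d / (2 * (R0 + 1)) := min_le_right _ _
    calc R0 * s ≤ R0 * (d / (2 * (R0 + 1))) := mul_le_mul_of_nonneg_left h1 hR0n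
      _ = d / 2 * (R0 / (R0 + 1)) := by field_simp
      _ ≤ d / 2 * 1 := by
        refine mul_le_mul_of_nonneg_left ?_ (by linarith)
        rw [div_le_one (by positivity)]; linarith
      _ = d / 2 := mul_one _
  set β : ℝ := 2 - s with hβ
  have hβ1 : 1 < β := by rw [hβ]; linarith
  have hβ2 : β < 2 := by rw [hβ]; linarith
  have hβ0 : 0 < β := by linarith
  have hR := H385.Rw_cont γ h0 hπ
  have c1 : Continuous (fun α : ℝ => min (2 * α) 1 * Rw γ α) := by fun_prop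
  have c2 : Continuous (fun α : ℝ => min (β * α) 1 * Rw γ α) := by fun_prop
  have e1 : ∫ α in (0 : ℝ)..1, min (β * α) 1 * Rw γ α ≤ J := by
    refine intervalIntegral.integral_mono_on zero_le_one (c2.intervalIntegrable _ _)
      (c1.intervalIntegrable _ _) (fun α hα => ?_)
    refine mul_le_mul_of_nonneg_right ?_ (Rw_nonneg γ h0 hπ α)
    exact min_le_min_right _ (mul_le_mul_of_nonneg_right hβ2.le hα.1)
  have e2 : 2 * R0 / β ≤ R0 + d / 2 := by
    rw [div_le_iff₀ hβ0]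
    have h1 : (R0 + d / 2) * β = 2 * R0 - R0 * s + d / 2 * β := by rw [hβ]; ring
    rw [h1]
    have h2 : d / 2 * 1 ≤ d / 2 * β := mul_le_mul_of_nonneg_left hβ1.le (by linarith)
    linarith
  have hcp : 0 ≤ 2 * (∫ α in (0 : ℝ)..1, min (β * α) 1 * Rw γ α) := by
    refine mul_nonneg (by norm_num) (intervalIntegral.integral_nonneg zero_le_one (fun α hα => ?_))
    exact mul_nonneg (le_min (mul_nonneg hβ0.le hα.1) zero_le_one) (Rw_nonneg γ h0 hπ α)
  obtain ⟨K, η, X0, hK, hη, hX0, h⟩ := final_core_mod γ β _ h0 hπ hβ1 hβ2 hcp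
    (HY_stage2 γ β h0 hπ hβ1 hβ2) (d / 2) (by positivity)
  refine ⟨K, η, X0, hK, hη, hX0, ?_⟩
  intro X Y T a1 a2 a3 a4 a5
  obtain ⟨b0, b1, b2⟩ := h X Y T a1 a2 a3 a4 a5
  have hN : 0 ≤ avgB X Y (fun z => (NN (FB z) T (2 * T) : ℝ)) :=
    avgB_nonneg _ _ _ (fun _ => Nat.cast_nonneg _)
  have hcc : 2 * R0 / β + 2 * (∫ α in (0 : ℝ)..1, min (β * α) 1 * Rw γ α) + d / 2 ≤ c := by
    have : R0 + 2 * J + d = c := by rw [hd]; ring
    linarith
  have hcc' := mul_le_mul_of_nonneg_right hcc hN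
  exact ⟨b0, b1.trans hcc', b2.trans hcc'⟩

/-- the theorem for pairs with the constant `1.577` -/
theorem mod_main : ∃ K η X0 : ℝ, 1 ≤ K ∧ 0 < η ∧ 1 ≤ X0 ∧
    ∀ (X Y : ℕ) (T : ℝ), X0 ≤ X → K * X ≤ Y → (Y : ℝ) ≤ (X : ℝ) ^ (1 + η) →
      (Real.log X) ^ 2 ≤ T → T ≤ (X : ℝ) ^ η →
      0 < avgB X Y (fun z => (NN (FB z) T (2 * T) : ℝ)) ∧
      avgB X Y (fun z => 2 * (NN (FB z) T (2 * T) : ℝ) - (Ns (FB z) T (2 * T) : ℝ)) ≤
        1.577 * avgB X Y (fun z => (NN (FB z) T (2 * T) : ℝ)) ∧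
      avgB X Y (fun z => 3 * (NN (FB z) T (2 * T) : ℝ) - 2 * (Nd (FB z) T (2 * T) : ℝ)) ≤
        1.577 * avgB X Y (fun z => (NN (FB z) T (2 * T) : ℝ)) := by
  have hπ : (3 / 2 : ℝ) < Real.pi := by linarith [Real.pi_gt_three]
  exact final_of_const_mod (3 / 2) 1.577 (by norm_num) hπ
    (lt_of_le_of_lt Rw_const_pair (by norm_num))

/-- **Common zeros on average over the pairs.** -/
theorem mod_common : ∃ K η X0 : ℝ, 1 ≤ K ∧ 0 < η ∧ 1 ≤ X0 ∧
    ∀ (X Y : ℕ) (T : ℝ), X0 ≤ X → K * X ≤ Y → (Y : ℝ) ≤ (X : ℝ) ^ (1 + η) →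
      (Real.log X) ^ 2 ≤ T → T ≤ (X : ℝ) ^ η →
      0 < avgB X Y (fun z => (NN (LI (fs z)) T (2 * T) : ℝ)) ∧
      (∀ q : ℕ, X < q → ∀ χ : DirichletCharacter ℂ q, χ.IsPrimitive →
        (zset (LI ⟨q, χ⟩) T (2 * T)).Finite) ∧
      0.423 * avgB X Y (fun z => (NN (LI (fs z)) T (2 * T) : ℝ)) ≤
        avgB X Y (fun z => (On (LI (fs z)) (LI (sn z)) T : ℝ)) ∧
      1.423 * avgB X Y (fun z => (NN (LI (fs z)) T (2 * T) : ℝ)) ≤
        avgB X Y (fun z => ((zset (LI (fs z)) T (2 * T) ∪ zset (LI (sn z)) T (2 * T)).ncard : ℝ)) ∧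
      avgB X Y (fun z => (Cm (LI (fs z)) (LI (sn z)) T : ℝ)) ≤
        0.577 * avgB X Y (fun z => (NN (LI (fs z)) T (2 * T) : ℝ)) ∧
      0.134 * avgB X Y (fun z => (NN (LI (fs z)) T (2 * T) : ℝ)) ≤
        avgB X Y (fun z => (Al (LI (fs z)) (LI (sn z)) T : ℝ)) := by
  obtain ⟨K, η, X0, hK, hη, hX0, h⟩ := mod_main
  obtain ⟨A, hA, hgood⟩ := good_dirichlet_U
  refine ⟨K, η, max X0 (Real.exp 1), hK, hη, le_max_of_le_left hX0, ?_⟩
  intro X Y T hX a2 a3 a4 a5
  have hXX : X0 ≤ X := (le_max_left _ _).trans hX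
  have hXe : Real.exp 1 ≤ X := (le_max_right _ _).trans hX
  have hT1 : 1 ≤ T := by
    have h1 : 1 ≤ Real.log X := by
      rw [Real.le_log_iff_exp_le (lt_of_lt_of_le (Real.exp_pos 1) hXe)]; exact hXe
    nlinarith
  obtain ⟨b0, b1, b2⟩ := h X Y T hXX a2 a3 a4 a5
  have hgl' : ∀ p : IX, X < p.1 → p.2.IsPrimitive → GoodL (LI p) := by
    intro p h1 h3
    have hq : NeZero p.1 := ⟨by omega⟩
    have e1 : LI p = DirichletCharacter.LFunction p.2 := by
      unfold LI LF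
      rw [dif_neg (NeZero.ne _)]
    rw [e1]
    exact H385.PerChi.goodL hA (by exact_mod_cast (show 1 ≤ p.1 by omega)) (hgood p.1 p.2 h3)
  have hcnt : ∀ z ∈ PB X Y, _ := fun z hz =>
    counts (hgl' (fs z) (mem_PB hz).1 (mem_PB hz).2.2.1) (hgl' (sn z) (mem_PB hz).1 (mem_PB hz).2.2.2) hT1
  set Nav := avgB X Y (fun z => (NN (LI (fs z)) T (2 * T) : ℝ)) with hNav
  have hN2 : avgB X Y (fun z => (NN (FB z) T (2 * T) : ℝ)) = 2 * Nav := by
    have e1 : avgB X Y (fun z => (NN (FB z) T (2 * T) : ℝ)) =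
        avgB X Y (fun z => (NN (LI (fs z)) T (2 * T) : ℝ) + (NN (LI (sn z)) T (2 * T) : ℝ)) := by
      unfold avgB
      refine Finset.sum_congr rfl fun z hz => ?_
      congr 1
      have := (hcnt z hz).1
      show ((NN (fun s => LI (fs z) s * LI (sn z) s) T (2 * T) : ℕ) : ℝ) = _
      rw [this]
      push_cast
      rfl
    rw [e1, avgB_add, avgB_swap X Y (fun _ p => (NN (LI p) T (2 * T) : ℝ))]
    rw [← hNav]
    ring
  have hNs : avgB X Y (fun z => (Ns (FB z) T (2 * T) : ℝ)) ≤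
      2 * avgB X Y (fun z => (On (LI (fs z)) (LI (sn z)) T : ℝ)) := by
    have e1 : avgB X Y (fun z => (Ns (FB z) T (2 * T) : ℝ)) ≤
        avgB X Y (fun z => (On (LI (fs z)) (LI (sn z)) T : ℝ) + (On (LI (sn z)) (LI (fs z)) T : ℝ)) := by
      refine avgB_mono X Y _ _ fun z hz => ?_
      have := (hcnt z hz).2.2.1
      show ((Ns (fun s => LI (fs z) s * LI (sn z) s) T (2 * T) : ℕ) : ℝ) ≤ _
      exact_mod_cast this
    refine e1.trans (le_of_eq ?_)
    rw [avgB_add, avgB_swap X Y (fun p p' => (On (LI p') (LI p) T : ℝ))]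
    ring
  have hNd : avgB X Y (fun z => (Nd (FB z) T (2 * T) : ℝ)) =
      avgB X Y (fun z => ((zset (LI (fs z)) T (2 * T) ∪ zset (LI (sn z)) T (2 * T)).ncard : ℝ)) := by
    unfold avgB
    refine Finset.sum_congr rfl fun z hz => ?_
    have := (hcnt z hz).2.1
    show wB z * ((Nd (fun s => LI (fs z) s * LI (sn z) s) T (2 * T) : ℕ) : ℝ) = _
    rw [this]
  have hCm : avgB X Y (fun z => (Cm (LI (fs z)) (LI (sn z)) T : ℝ)) +
      avgB X Y (fun z => (Nd (FB z) T (2 * T) : ℝ)) ≤ 2 * Nav := by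
    rw [← avgB_add, ← hN2]
    refine avgB_mono X Y _ _ fun z hz => ?_
    have h1 := (hcnt z hz).2.2.2
    have h2 := (hcnt z hz).1
    rw [← h2] at h1
    show (Cm (LI (fs z)) (LI (sn z)) T : ℝ) + ((Nd (fun s => LI (fs z) s * LI (sn z) s) T (2 * T) : ℕ) : ℝ) ≤
      ((NN (fun s => LI (fs z) s * LI (sn z) s) T (2 * T) : ℕ) : ℝ)
    exact_mod_cast h1
  have f1 : avgB X Y (fun z => 2 * (NN (FB z) T (2 * T) : ℝ) - (Ns (FB z) T (2 * T) : ℝ)) =
      2 * (2 * Nav) - avgB X Y (fun z => (Ns (FB z) T (2 * T) : ℝ)) := by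
    have e : ∀ z : IB, 2 * (NN (FB z) T (2 * T) : ℝ) - (Ns (FB z) T (2 * T) : ℝ) =
        2 * (NN (FB z) T (2 * T) : ℝ) + (-1) * (Ns (FB z) T (2 * T) : ℝ) := fun z => by ring
    simp_rw [e]
    rw [avgB_add, avgB_mul, avgB_mul, hN2]
    ring
  have f2 : avgB X Y (fun z => 3 * (NN (FB z) T (2 * T) : ℝ) - 2 * (Nd (FB z) T (2 * T) : ℝ)) =
      3 * (2 * Nav) - 2 * avgB X Y (fun z => (Nd (FB z) T (2 * T) : ℝ)) := by
    have e : ∀ z : IB, 3 * (NN (FB z) T (2 * T) : ℝ) - 2 * (Nd (FB z) T (2 * T) : ℝ) =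
        3 * (NN (FB z) T (2 * T) : ℝ) + (-2) * (Nd (FB z) T (2 * T) : ℝ) := fun z => by ring
    simp_rw [e]
    rw [avgB_add, avgB_mul, avgB_mul, hN2]
    ring
  rw [f1, hN2] at b1
  rw [f2, hN2] at b2
  rw [hN2] at b0
  have hAl : 3 * avgB X Y (fun z => (Ns (FB z) T (2 * T) : ℝ)) ≤
      2 * Nav + 2 * (2 * avgB X Y (fun z => (Al (LI (fs z)) (LI (sn z)) T : ℝ))) := by
    have e1 : avgB X Y (fun z => 3 * (Ns (FB z) T (2 * T) : ℝ)) ≤
        avgB X Y (fun z => (NN (FB z) T (2 * T) : ℝ) +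
          (2 * (Al (LI (fs z)) (LI (sn z)) T : ℝ) + 2 * (Al (LI (sn z)) (LI (fs z)) T : ℝ))) := by
      refine avgB_mono X Y _ _ fun z hz => ?_
      have h1 := once (hgl' (fs z) (mem_PB hz).1 (mem_PB hz).2.2.1)
        (hgl' (sn z) (mem_PB hz).1 (mem_PB hz).2.2.2) hT1
      show 3 * ((Ns (fun s => LI (fs z) s * LI (sn z) s) T (2 * T) : ℕ) : ℝ) ≤
        ((NN (fun s => LI (fs z) s * LI (sn z) s) T (2 * T) : ℕ) : ℝ) +
          (2 * (Al (LI (fs z)) (LI (sn z)) T : ℝ) + 2 * (Al (LI (sn z)) (LI (fs z)) T : ℝ))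
      have h2 : (3 : ℝ) * ((Ns (fun s => LI (fs z) s * LI (sn z) s) T (2 * T) : ℕ) : ℝ) ≤
          ((NN (fun s => LI (fs z) s * LI (sn z) s) T (2 * T) : ℕ) : ℝ) +
          2 * ((Al (LI (fs z)) (LI (sn z)) T : ℝ) + (Al (LI (sn z)) (LI (fs z)) T : ℝ)) := by
        exact_mod_cast h1
      linarith
    rw [avgB_mul, avgB_add, avgB_add, avgB_mul, avgB_mul, hN2,
      avgB_swap X Y (fun p p' => (Al (LI p') (LI p) T : ℝ))] at e1
    linarith
  refine ⟨by linarith, fun q hq χ hχ => H370.zset_finite (hgl' ⟨q, χ⟩ hq hχ) T _ hT1,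
    by linarith, ?_, by linarith, by linarith⟩
  rw [← hNd]
  linarith

end Pool.Agent.R321.RD
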