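import Pool.Agent.R321.RC1
import Pool.Agent.H385R2.FinB

/-!
# Orthogonality of the primitive characters: lower bound for the mean square
-/

open Complex Filter Topology Set MeasureTheory

set_option maxHeartbeats 4000000

namespace Pool.Agent.R321.RE

open H385 Pool.Agent.R321.RC

/-- the distance of two natural numbers -/
def ds (p r : ℕ) : ℕ := (p - r) + (r - p)

lemma ds_pos {p r : ℕ} (h : p ≠ r) : 0 < ds p r := by unfold ds; omega

lemma dvd_ds {d p r : ℕ} (h : (p : ZMod d) = (r : ZMod d)) : d ∣ ds p r := by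
  unfold ds
  rcases le_total p r with h1 | h1
  · rw [Nat.sub_eq_zero_of_le h1, zero_add, ← Nat.modEq_iff_dvd' h1]
    exact (ZMod.natCast_eq_natCast_iff p r d).1 h
  · rw [Nat.sub_eq_zero_of_le h1, add_zero, ← Nat.modEq_iff_dvd' h1]
    exact (ZMod.natCast_eq_natCast_iff r p d).1 h.symm

lemma sps_pair {q : ℕ} (hq : 0 < q) {p r : ℕ} (hpr : p ≠ r) :
    ‖∑ χ ∈ PF q, χ (p : ZMod q) * (starRingEnd ℂ) (χ (r : ZMod q))‖ ≤
      ∑ d ∈ (ds p r).divisors, (if d ∣ q then (d : ℝ) else 0) := by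
  have hnn : 0 ≤ ∑ d ∈ (ds p r).divisors, (if d ∣ q then (d : ℝ) else 0) :=
    Finset.sum_nonneg fun d _ => by split_ifs <;> positivity
  have hq' : NeZero q := ⟨hq.ne'⟩
  by_cases hp : Nat.Coprime p q
  swap
  · rw [Finset.sum_eq_zero fun χ _ => ?_, norm_zero]
    · exact hnn
    · rw [MulChar.map_nonunit, zero_mul]
      rw [ZMod.isUnit_iff_coprime]
      exact hp
  by_cases hr : Nat.Coprime r q
  swap
  · rw [Finset.sum_eq_zero fun χ _ => ?_, norm_zero]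
    · exact hnn
    · rw [MulChar.map_nonunit χ (a := (r : ZMod q)), map_zero, mul_zero]
      rw [ZMod.isUnit_iff_coprime]
      exact hr
  obtain ⟨ur, hur⟩ := (ZMod.isUnit_iff_coprime r q).2 hr
  obtain ⟨up, hup⟩ := (ZMod.isUnit_iff_coprime p q).2 hp
  set n : ℕ := ((up * ur⁻¹ : (ZMod q)ˣ) : ZMod q).val with hn
  have hnq : (n : ZMod q) = ((up * ur⁻¹ : (ZMod q)ˣ) : ZMod q) := by
    rw [hn, ZMod.natCast_zmod_val]
  have hnc : Nat.Coprime n q := by
    rw [← ZMod.isUnit_iff_coprime, hnq]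
    exact Units.isUnit _
  have hnr : (n : ZMod q) * (r : ZMod q) = (p : ZMod q) := by
    rw [hnq, ← hur, ← hup, ← Units.val_mul, inv_mul_cancel_right]
  have e1 : ∀ χ ∈ PF q, χ (p : ZMod q) * (starRingEnd ℂ) (χ (r : ZMod q)) = χ (n : ZMod q) := by
    intro χ _
    rw [← hnr, map_mul, mul_assoc, Complex.mul_conj, Complex.normSq_eq_norm_sq, ← hur,
      DirichletCharacter.unit_norm_eq_one]
    simp
  rw [Finset.sum_congr rfl e1]
  have e2 : ∑ χ ∈ PF q, χ (n : ZMod q) = sps q n := rfl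
  rw [e2, ← sps_moebius hq n hnc]
  refine (norm_sum_le _ _).trans ?_
  have h1 : ∀ x ∈ q.divisorsAntidiagonal, ‖(ArithmeticFunction.moebius x.1 : ℂ) *
      (if (n : ZMod x.2) = 1 then ((Nat.totient x.2 : ℕ) : ℂ) else 0)‖ ≤
      (if x.2 ∣ ds p r then (x.2 : ℝ) else 0) := by
    intro x hx
    rw [Nat.mem_divisorsAntidiagonal] at hx
    rw [norm_mul]
    have h2 : ‖(ArithmeticFunction.moebius x.1 : ℂ)‖ ≤ 1 := by
      rw [Complex.norm_intCast]
      exact_mod_cast ArithmeticFunction.abs_moebius_le_one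
    by_cases h : (n : ZMod x.2) = 1
    · have hd : x.2 ∣ q := ⟨x.1, by rw [← hx.1]; ring⟩
      have h4 : x.2 ∣ ds p r := by
        apply dvd_ds
        have h5 : ((n * r : ℕ) : ZMod q) = ((p : ℕ) : ZMod q) := by push_cast; exact hnr
        have h6 : n * r ≡ p [MOD q] := (ZMod.natCast_eq_natCast_iff _ _ _).1 h5
        have h7 : n * r ≡ p [MOD x.2] := h6.of_dvd hd
        have h8 : ((n * r : ℕ) : ZMod x.2) = ((p : ℕ) : ZMod x.2) :=
          (ZMod.natCast_eq_natCast_iff _ _ _).2 h7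
        push_cast at h8
        rw [h, one_mul] at h8
        exact h8.symm
      rw [if_pos h, if_pos h4, Complex.norm_natCast]
      have h3 : ((Nat.totient x.2 : ℕ) : ℝ) ≤ (x.2 : ℝ) := by exact_mod_cast Nat.totient_le _
      calc _ ≤ 1 * ((Nat.totient x.2 : ℕ) : ℝ) := mul_le_mul_of_nonneg_right h2 (by positivity)
        _ ≤ (x.2 : ℝ) := by rw [one_mul]; exact h3
    · rw [if_neg h, norm_zero, mul_zero]
      split_ifs <;> positivity
  refine (Finset.sum_le_sum h1).trans (le_of_eq ?_)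
  rw [Nat.sum_divisorsAntidiagonal' (f := fun _ d => if d ∣ ds p r then (d : ℝ) else 0),
    ← Finset.sum_filter, ← Finset.sum_filter]
  have hds := ds_pos hpr
  refine Finset.sum_congr ?_ fun _ _ => rfl
  ext d
  simp only [Finset.mem_filter, Nat.mem_divisors]
  constructor
  · rintro ⟨⟨h1, h2⟩, h3⟩
    exact ⟨⟨h3, by omega⟩, h1⟩
  · rintro ⟨⟨h1, h2⟩, h3⟩
    exact ⟨⟨h3, hq.ne'⟩, h1⟩

/-- the weighted sum over the family -/
lemma fam_pair_le (X Y : ℕ) (hX : 0 < X) {p r : ℕ} (hpr : p ≠ r) :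
    ‖∑ z ∈ primSet X Y, ((1 / (z.1 : ℝ) ^ 2 : ℝ) : ℂ) *
      (z.2 (p : ZMod z.1) * (starRingEnd ℂ) (z.2 (r : ZMod z.1)))‖ ≤
      2 * ((ds p r).divisors.card : ℝ) / X := by
  have hX0 : (0 : ℝ) < X := by exact_mod_cast hX
  rw [primSet_eq, Finset.sum_sigma]
  have e1 : ∀ q ∈ Finset.Ioc X Y, ∑ χ ∈ PF q, ((1 / (q : ℝ) ^ 2 : ℝ) : ℂ) *
      (χ (p : ZMod q) * (starRingEnd ℂ) (χ (r : ZMod q))) =
      ((1 / (q : ℝ) ^ 2 : ℝ) : ℂ) * ∑ χ ∈ PF q, χ (p : ZMod q) * (starRingEnd ℂ) (χ (r : ZMod q)) := by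
    intro q _
    rw [← Finset.mul_sum]
  simp only
  rw [Finset.sum_congr rfl e1]
  refine (norm_sum_le _ _).trans ?_
  have e2 : ∀ q ∈ Finset.Ioc X Y, ‖((1 / (q : ℝ) ^ 2 : ℝ) : ℂ) *
      ∑ χ ∈ PF q, χ (p : ZMod q) * (starRingEnd ℂ) (χ (r : ZMod q))‖ ≤
      ∑ d ∈ (ds p r).divisors, (if d ∣ q then (d : ℝ) / (q : ℝ) ^ 2 else 0) := by
    intro q hq
    rw [Finset.mem_Ioc] at hq
    rw [norm_mul, Complex.norm_real, Real.norm_of_nonneg (by positivity)]
    refine (mul_le_mul_of_nonneg_left (sps_pair (by omega) hpr) (by positivity)).trans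
      (le_of_eq ?_)
    rw [Finset.mul_sum]
    refine Finset.sum_congr rfl fun d _ => ?_
    split_ifs
    · ring
    · ring
  refine (Finset.sum_le_sum e2).trans ?_
  rw [Finset.sum_comm]
  have e3 : ∀ d ∈ (ds p r).divisors, ∑ q ∈ Finset.Ioc X Y,
      (if d ∣ q then (d : ℝ) / (q : ℝ) ^ 2 else 0) ≤ 2 / (X : ℝ) := by
    intro d hd
    have hd0 : 0 < d := Nat.pos_of_mem_divisors hd
    have hdr : (0 : ℝ) < d := by exact_mod_cast hd0
    rcases le_or_gt X Y with h | h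
    · obtain ⟨k, rfl⟩ := Nat.exists_eq_add_of_le h
      refine (sum_mult d hd0 X hX k).trans ?_
      have : 0 ≤ 2 / ((d : ℝ) * (((X + k) / d + 1 : ℕ) : ℝ)) := by positivity
      linarith
    · rw [Finset.Ioc_eq_empty (by omega), Finset.sum_empty]
      positivity
  refine (Finset.sum_le_sum e3).trans (le_of_eq ?_)
  rw [Finset.sum_const, nsmul_eq_mul]
  ring

/-- the sum of `1/q` over the multiples of `p` -/
lemma sum_mult_inv {p X Z : ℕ} (hp : 1 ≤ p) (hpX : p ≤ X) (hXZ : X ≤ Z) :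
    ∑ q ∈ Finset.Ioc X Z, (if p ∣ q then 1 / (q : ℝ) else 0) ≤
      1 / (p : ℝ) * (Real.log ((Z : ℝ) / X) + 1) := by
  have hp0 : (0 : ℝ) < p := by exact_mod_cast hp
  have hX0 : (0 : ℝ) < X := by exact_mod_cast (show 0 < X by omega)
  have hZ0 : (0 : ℝ) < Z := by exact_mod_cast (show 0 < Z by omega)
  have e1 : (Finset.Ioc X Z).filter (fun q => p ∣ q) =
      (Finset.Ioc (X / p) (Z / p)).image (fun m => p * m) := by
    ext q
    simp only [Finset.mem_filter, Finset.mem_image, Finset.mem_Ioc]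
    constructor
    · rintro ⟨⟨h1, h2⟩, m, rfl⟩
      refine ⟨m, ⟨?_, ?_⟩, rfl⟩
      · rw [Nat.div_lt_iff_lt_mul (by omega), mul_comm]; exact h1
      · rw [Nat.le_div_iff_mul_le (by omega), mul_comm]; exact h2
    · rintro ⟨m, ⟨h1, h2⟩, rfl⟩
      refine ⟨⟨?_, ?_⟩, dvd_mul_right _ _⟩
      · rw [Nat.div_lt_iff_lt_mul (by omega), mul_comm] at h1; exact h1
      · rw [Nat.le_div_iff_mul_le (by omega), mul_comm] at h2; exact h2
  rw [← Finset.sum_filter, e1, Finset.sum_image (fun a _ b _ h => by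
    exact Nat.eq_of_mul_eq_mul_left (by omega) h)]
  have e2 : ∀ m ∈ Finset.Ioc (X / p) (Z / p), 1 / (((p * m : ℕ)) : ℝ) = 1 / (p : ℝ) * (1 / (m : ℝ)) := by
    intro m _
    push_cast
    rw [one_div_mul_one_div]
  rw [Finset.sum_congr rfl e2, ← Finset.mul_sum]
  refine mul_le_mul_of_nonneg_left ?_ (by positivity)
  have h1 : 1 ≤ X / p := Nat.div_pos hpX (by omega)
  have h2 : X / p ≤ Z / p := Nat.div_le_div_right hXZ
  refine (sum_inv_le _ _ h1 h2).trans ?_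
  have h3 : (((X / p : ℕ)) : ℝ) ≥ X / (2 * p) := by
    have h4 : X < p * (X / p + 1) := Nat.lt_mul_div_succ X (by omega)
    have h5 : X ≤ 2 * p * (X / p) := by nlinarith
    have h6 : (X : ℝ) ≤ 2 * p * ((X / p : ℕ) : ℝ) := by exact_mod_cast h5
    rw [ge_iff_le, div_le_iff₀ (by positivity)]
    linarith
  have h4 : (((Z / p : ℕ)) : ℝ) ≤ Z / p := Nat.cast_div_le
  have h5 : (0 : ℝ) < ((X / p : ℕ) : ℝ) := by exact_mod_cast h1
  have h5' : (0 : ℝ) < ((Z / p : ℕ) : ℝ) := by exact_mod_cast (lt_of_lt_of_le h1 h2)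
  have h6 : (((Z / p : ℕ)) : ℝ) / ((X / p : ℕ) : ℝ) ≤ 2 * ((Z : ℝ) / X) := by
    rw [div_le_iff₀ h5]
    calc (((Z / p : ℕ)) : ℝ) ≤ Z / p := h4
      _ = 2 * ((Z : ℝ) / X) * (X / (2 * p)) := by field_simp
      _ ≤ _ := mul_le_mul_of_nonneg_left h3 (by positivity)
  refine (Real.log_le_log (by positivity) h6).trans ?_
  rw [Real.log_mul (by norm_num) (by positivity)]
  have := Real.log_two_lt_d9
  linarith

lemma card_PF_le {q : ℕ} (hq : 0 < q) : ((PF q).card : ℝ) ≤ q := by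
  classical
  have : NeZero q := ⟨hq.ne'⟩
  have h1 : PF q ⊆ (Finset.univ : Finset (DirichletCharacter ℂ q)) := Finset.subset_univ _
  have h2 := Finset.card_le_card h1
  have h3 := DirichletCharacter.card_eq_totient_of_hasEnoughRootsOfUnity ℂ q
  rw [Nat.card_eq_fintype_card] at h3
  rw [Finset.card_univ, h3] at h2
  exact_mod_cast h2.trans (Nat.totient_le q)

/-- the mass of the characters with `p ∣ q` -/
lemma mass_dvd {X Y : ℕ} {p : ℕ} (hp : 1 ≤ p) (hpX : p ≤ X) (hXY : X ≤ Y) :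
    ∑ z ∈ primSet X Y, (1 / (z.1 : ℝ) ^ 2) * (if p ∣ z.1 then 1 else 0) ≤
      1 / (p : ℝ) * (Real.log ((Y : ℝ) / X) + 1) := by
  refine le_trans ?_ (sum_mult_inv hp hpX hXY)
  rw [primSet_eq, Finset.sum_sigma]
  refine Finset.sum_le_sum fun q hq => ?_
  rw [Finset.mem_Ioc] at hq
  have hq0 : 0 < q := by omega
  have hq0' : (0 : ℝ) < q := by exact_mod_cast hq0
  simp only
  by_cases h : p ∣ q
  · simp only [if_pos h]
    rw [Finset.sum_const, nsmul_eq_mul]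
    have := card_PF_le hq0
    calc ((PF q).card : ℝ) * (1 / (q : ℝ) ^ 2 * 1) ≤ (q : ℝ) * (1 / (q : ℝ) ^ 2 * 1) :=
          mul_le_mul_of_nonneg_right this (by positivity)
      _ = _ := by field_simp
  · simp only [if_neg h, mul_zero, Finset.sum_const_zero, le_refl]

/-- the mean square over the family, for sums over primes -/
theorem ms_lower (X Y N M0 : ℕ) (hX : 0 < X) (hXY : X ≤ Y) (hNX : N ≤ X) (hM0 : 0 < M0)
    (S : Finset ℕ) (hS : ∀ p ∈ S, p.Prime ∧ M0 < p ∧ p ≤ N) (a : ℕ → ℂ) :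
    (∑ z ∈ primSet X Y, (1 / (z.1 : ℝ) ^ 2) -
      (1 / (M0 : ℝ) * (Real.log ((Y : ℝ) / X) + 1) +
        4 / (X : ℝ) * ∑ h ∈ Finset.Icc 1 N, (h.divisors.card : ℝ))) * ∑ p ∈ S, ‖a p‖ ^ 2 ≤
    ∑ z ∈ primSet X Y, (1 / (z.1 : ℝ) ^ 2) * ‖∑ p ∈ S, a p * z.2 (p : ZMod z.1)‖ ^ 2 := by
  have hX0 : (0 : ℝ) < X := by exact_mod_cast hX
  have hM00 : (0 : ℝ) < M0 := by exact_mod_cast hM0
  have hlog : 0 ≤ Real.log ((Y : ℝ) / X) := by
    apply Real.log_nonneg
    rw [one_le_div hX0]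
    exact_mod_cast hXY
  -- expand
  have e1 : ∀ z ∈ primSet X Y, (1 / (z.1 : ℝ) ^ 2) * ‖∑ p ∈ S, a p * z.2 (p : ZMod z.1)‖ ^ 2 =
      (∑ p ∈ S, ∑ r ∈ S, (a p * (starRingEnd ℂ) (a r)) * (((1 / (z.1 : ℝ) ^ 2 : ℝ) : ℂ) *
        (z.2 (p : ZMod z.1) * (starRingEnd ℂ) (z.2 (r : ZMod z.1))))).re := by
    intro z _
    have e : ((‖∑ p ∈ S, a p * z.2 (p : ZMod z.1)‖ ^ 2 : ℝ) : ℂ) =
        (∑ p ∈ S, a p * z.2 (p : ZMod z.1)) *
          (starRingEnd ℂ) (∑ p ∈ S, a p * z.2 (p : ZMod z.1)) := by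
      rw [Complex.mul_conj, Complex.normSq_eq_norm_sq]
    have e2 : (((1 / (z.1 : ℝ) ^ 2) * ‖∑ p ∈ S, a p * z.2 (p : ZMod z.1)‖ ^ 2 : ℝ) : ℂ) =
        ∑ p ∈ S, ∑ r ∈ S, (a p * (starRingEnd ℂ) (a r)) * (((1 / (z.1 : ℝ) ^ 2 : ℝ) : ℂ) *
        (z.2 (p : ZMod z.1) * (starRingEnd ℂ) (z.2 (r : ZMod z.1)))) := by
      rw [Complex.ofReal_mul, e, map_sum, Finset.sum_mul_sum, Finset.mul_sum]
      refine Finset.sum_congr rfl fun p _ => ?_
      rw [Finset.mul_sum]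
      refine Finset.sum_congr rfl fun r _ => ?_
      rw [map_mul]
      ring
    rw [← e2, Complex.ofReal_re]
  rw [Finset.sum_congr rfl e1, ← Complex.re_sum, Finset.sum_comm]
  have e3 : ∑ p ∈ S, ∑ z ∈ primSet X Y, ∑ r ∈ S, (a p * (starRingEnd ℂ) (a r)) *
      (((1 / (z.1 : ℝ) ^ 2 : ℝ) : ℂ) * (z.2 (p : ZMod z.1) * (starRingEnd ℂ) (z.2 (r : ZMod z.1)))) =
      ∑ p ∈ S, ∑ r ∈ S, (a p * (starRingEnd ℂ) (a r)) * ∑ z ∈ primSet X Y,
      (((1 / (z.1 : ℝ) ^ 2 : ℝ) : ℂ) *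
        (z.2 (p : ZMod z.1) * (starRingEnd ℂ) (z.2 (r : ZMod z.1)))) := by
    refine Finset.sum_congr rfl fun p _ => ?_
    rw [Finset.sum_comm]
    refine Finset.sum_congr rfl fun r _ => ?_
    rw [Finset.mul_sum]
  rw [e3]
  set G : ℕ → ℕ → ℂ := fun p r => ∑ z ∈ primSet X Y, (((1 / (z.1 : ℝ) ^ 2 : ℝ) : ℂ) *
        (z.2 (p : ZMod z.1) * (starRingEnd ℂ) (z.2 (r : ZMod z.1)))) with hG
  -- diagonal and off-diagonal
  have e4 : (∑ p ∈ S, ∑ r ∈ S, (a p * (starRingEnd ℂ) (a r)) * G p r).re =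
      ∑ p ∈ S, (‖a p‖ ^ 2 * (G p p).re + (∑ r ∈ S.erase p, (a p * (starRingEnd ℂ) (a r)) * G p r).re) := by
    rw [Complex.re_sum]
    refine Finset.sum_congr rfl fun p hp => ?_
    rw [← Finset.add_sum_erase S _ hp, Complex.add_re]
    congr 1
    rw [Complex.mul_conj, Complex.normSq_eq_norm_sq, Complex.re_ofReal_mul]
  rw [e4]
  -- the diagonal
  have hdiag : ∀ p ∈ S, ∑ z ∈ primSet X Y, (1 / (z.1 : ℝ) ^ 2) -
      1 / (M0 : ℝ) * (Real.log ((Y : ℝ) / X) + 1) ≤ (G p p).re := by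
    intro p hp
    obtain ⟨hpp, hpM, hpN⟩ := hS p hp
    have h1 := mass_dvd (X := X) (Y := Y) hpp.one_lt.le (hpN.trans hNX) hXY
    have h2 : 1 / (p : ℝ) * (Real.log ((Y : ℝ) / X) + 1) ≤
        1 / (M0 : ℝ) * (Real.log ((Y : ℝ) / X) + 1) := by
      refine mul_le_mul_of_nonneg_right ?_ (by linarith)
      exact one_div_le_one_div_of_le hM00 (by exact_mod_cast hpM.le)
    have h3 : (G p p).re = ∑ z ∈ primSet X Y, (1 / (z.1 : ℝ) ^ 2) * ‖z.2 (p : ZMod z.1)‖ ^ 2 := by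
      rw [hG]
      simp only
      rw [Complex.re_sum]
      refine Finset.sum_congr rfl fun z _ => ?_
      rw [Complex.mul_conj, Complex.normSq_eq_norm_sq, ← Complex.ofReal_mul, Complex.ofReal_re]
    rw [h3]
    have h4 : ∑ z ∈ primSet X Y, (1 / (z.1 : ℝ) ^ 2) - ∑ z ∈ primSet X Y, (1 / (z.1 : ℝ) ^ 2) *
        (if p ∣ z.1 then 1 else 0) ≤
        ∑ z ∈ primSet X Y, (1 / (z.1 : ℝ) ^ 2) * ‖z.2 (p : ZMod z.1)‖ ^ 2 := by
      rw [← Finset.sum_sub_distrib]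
      refine Finset.sum_le_sum fun z hz => ?_
      obtain ⟨hz1, hz2, hz3⟩ := (mem_primSet X Y z).mp hz
      have hzq : NeZero z.1 := ⟨by omega⟩
      split_ifs with h
      · have : 0 ≤ (1 / (z.1 : ℝ) ^ 2) * ‖z.2 (p : ZMod z.1)‖ ^ 2 := by positivity
        linarith
      · have hc : Nat.Coprime p z.1 := (Nat.Prime.coprime_iff_not_dvd hpp).2 h
        obtain ⟨u, hu⟩ := (ZMod.isUnit_iff_coprime p z.1).2 hc
        rw [← hu, DirichletCharacter.unit_norm_eq_one]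
        simp
    linarith
  -- off-diagonal
  have hoff : ∀ p ∈ S, ∀ r ∈ S.erase p, ‖(a p * (starRingEnd ℂ) (a r)) * G p r‖ ≤
      (‖a p‖ ^ 2 / 2 + ‖a r‖ ^ 2 / 2) * (2 * ((ds p r).divisors.card : ℝ) / X) := by
    intro p _ r hr
    have hne : p ≠ r := (Finset.ne_of_mem_erase hr).symm
    rw [norm_mul, norm_mul, RCLike.norm_conj]
    refine mul_le_mul ?_ (fam_pair_le X Y hX hne) (norm_nonneg _) (by positivity)
    nlinarith [sq_nonneg (‖a p‖ - ‖a r‖)]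
  have htau : ∀ p ∈ S, ∑ r ∈ S.erase p, ((ds p r).divisors.card : ℝ) ≤
      2 * ∑ h ∈ Finset.Icc 1 N, (h.divisors.card : ℝ) := by
    intro p hp
    obtain ⟨hpp, hpM, hpN⟩ := hS p hp
    have h1 : ∑ r ∈ (S.erase p).filter (fun r => r ≤ p), ((ds p r).divisors.card : ℝ) ≤
        ∑ h ∈ Finset.Icc 1 N, (h.divisors.card : ℝ) := by
      rw [← Finset.sum_image (f := fun h : ℕ => (h.divisors.card : ℝ)) (g := fun r => ds p r)]
      · refine Finset.sum_le_sum_of_subset_of_nonneg ?_ fun _ _ _ => by positivity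
        intro h hh
        rw [Finset.mem_image] at hh
        obtain ⟨r, hr, rfl⟩ := hh
        rw [Finset.mem_filter] at hr
        have hne : p ≠ r := (Finset.ne_of_mem_erase hr.1).symm
        have := hS r (Finset.mem_of_mem_erase hr.1)
        rw [Finset.mem_Icc]
        unfold ds
        omega
      · intro x hx y hy hxy
        rw [Finset.mem_coe, Finset.mem_filter] at hx hy
        have hxy' : ds p x = ds p y := hxy
        unfold ds at hxy'
        omega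
    have h2 : ∑ r ∈ (S.erase p).filter (fun r => ¬ r ≤ p), ((ds p r).divisors.card : ℝ) ≤
        ∑ h ∈ Finset.Icc 1 N, (h.divisors.card : ℝ) := by
      rw [← Finset.sum_image (f := fun h : ℕ => (h.divisors.card : ℝ)) (g := fun r => ds p r)]
      · refine Finset.sum_le_sum_of_subset_of_nonneg ?_ fun _ _ _ => by positivity
        intro h hh
        rw [Finset.mem_image] at hh
        obtain ⟨r, hr, rfl⟩ := hh
        rw [Finset.mem_filter] at hr
        have hne : p ≠ r := (Finset.ne_of_mem_erase hr.1).symm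
        have := hS r (Finset.mem_of_mem_erase hr.1)
        rw [Finset.mem_Icc]
        unfold ds
        omega
      · intro x hx y hy hxy
        rw [Finset.mem_coe, Finset.mem_filter] at hx hy
        have hxy' : ds p x = ds p y := hxy
        unfold ds at hxy'
        omega
    rw [← Finset.sum_filter_add_sum_filter_not (S.erase p) (fun r => r ≤ p)]
    linarith
  set τ : ℝ := ∑ h ∈ Finset.Icc 1 N, (h.divisors.card : ℝ) with hτ
  have hoff2 : ∑ p ∈ S, ‖∑ r ∈ S.erase p, (a p * (starRingEnd ℂ) (a r)) * G p r‖ ≤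
      4 / (X : ℝ) * τ * ∑ p ∈ S, ‖a p‖ ^ 2 := by
    have s1 : ∑ p ∈ S, ‖∑ r ∈ S.erase p, (a p * (starRingEnd ℂ) (a r)) * G p r‖ ≤
        ∑ p ∈ S, ∑ r ∈ S.erase p, (‖a p‖ ^ 2 / 2 + ‖a r‖ ^ 2 / 2) *
          (2 * ((ds p r).divisors.card : ℝ) / X) :=
      Finset.sum_le_sum fun p hp => (norm_sum_le _ _).trans (Finset.sum_le_sum (hoff p hp))
    have hsymm : ∀ p r, ds p r = ds r p := fun p r => by unfold ds; omega
    have s2 : ∑ p ∈ S, ∑ r ∈ S.erase p, (‖a p‖ ^ 2 / 2 + ‖a r‖ ^ 2 / 2) *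
          (2 * ((ds p r).divisors.card : ℝ) / X) =
        ∑ p ∈ S, ∑ r ∈ S.erase p, ‖a p‖ ^ 2 * (2 * ((ds p r).divisors.card : ℝ) / X) := by
      have s3 : ∑ p ∈ S, ∑ r ∈ S.erase p, (‖a r‖ ^ 2 / 2) * (2 * ((ds p r).divisors.card : ℝ) / X) =
          ∑ p ∈ S, ∑ r ∈ S.erase p, (‖a p‖ ^ 2 / 2) * (2 * ((ds p r).divisors.card : ℝ) / X) := by
        rw [Finset.sum_comm' (t' := S) (s' := fun r => S.erase r)]
        · refine Finset.sum_congr rfl fun p _ => Finset.sum_congr rfl fun r _ => ?_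
          rw [hsymm]
        · intro p r
          simp only [Finset.mem_erase]
          constructor
          · rintro ⟨h1, h2, h3⟩
            exact ⟨⟨fun h => h2 h.symm, h1⟩, h3⟩
          · rintro ⟨⟨h1, h2⟩, h3⟩
            exact ⟨h2, fun h => h1 h.symm, h3⟩
      have s4 : ∑ p ∈ S, ∑ r ∈ S.erase p, (‖a p‖ ^ 2 / 2 + ‖a r‖ ^ 2 / 2) *
          (2 * ((ds p r).divisors.card : ℝ) / X) =
          ∑ p ∈ S, ∑ r ∈ S.erase p, (‖a p‖ ^ 2 / 2) * (2 * ((ds p r).divisors.card : ℝ) / X) +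
          ∑ p ∈ S, ∑ r ∈ S.erase p, (‖a r‖ ^ 2 / 2) * (2 * ((ds p r).divisors.card : ℝ) / X) := by
        rw [← Finset.sum_add_distrib]
        refine Finset.sum_congr rfl fun p _ => ?_
        rw [← Finset.sum_add_distrib]
        exact Finset.sum_congr rfl fun r _ => by ring
      rw [s4, s3, ← Finset.sum_add_distrib]
      refine Finset.sum_congr rfl fun p _ => ?_
      rw [← Finset.sum_add_distrib]
      exact Finset.sum_congr rfl fun r _ => by ring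
    rw [s2] at s1
    refine s1.trans ?_
    rw [Finset.mul_sum]
    refine Finset.sum_le_sum fun p hp => ?_
    have := htau p hp
    calc ∑ r ∈ S.erase p, ‖a p‖ ^ 2 * (2 * ((ds p r).divisors.card : ℝ) / X) =
        (2 * ‖a p‖ ^ 2 / X) * ∑ r ∈ S.erase p, ((ds p r).divisors.card : ℝ) := by
          rw [Finset.mul_sum]
          exact Finset.sum_congr rfl fun r _ => by ring
      _ ≤ (2 * ‖a p‖ ^ 2 / X) * (2 * τ) := mul_le_mul_of_nonneg_left this (by positivity)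
      _ = _ := by ring
  have hfin : ∑ p ∈ S, ‖a p‖ ^ 2 * (∑ z ∈ primSet X Y, (1 / (z.1 : ℝ) ^ 2) -
      1 / (M0 : ℝ) * (Real.log ((Y : ℝ) / X) + 1)) -
      ∑ p ∈ S, ‖∑ r ∈ S.erase p, (a p * (starRingEnd ℂ) (a r)) * G p r‖ ≤
      ∑ p ∈ S, (‖a p‖ ^ 2 * (G p p).re +
        (∑ r ∈ S.erase p, (a p * (starRingEnd ℂ) (a r)) * G p r).re) := by
    rw [← Finset.sum_sub_distrib]
    refine Finset.sum_le_sum fun p hp => ?_
    have h1 := mul_le_mul_of_nonneg_left (hdiag p hp) (sq_nonneg ‖a p‖)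
    have h2 := (abs_le.1 (Complex.abs_re_le_norm
      (∑ r ∈ S.erase p, (a p * (starRingEnd ℂ) (a r)) * G p r))).1
    linarith
  refine le_trans ?_ hfin
  rw [← Finset.sum_mul]
  nlinarith [hoff2]

end Pool.Agent.R321.RE
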