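import Pool.Agent.H385R2.FinB3

/-!
# Weighted integrals over the two ranges
-/

open Complex Filter Topology Set MeasureTheory

set_option maxHeartbeats 4000000

namespace Pool.Agent.R321.RE

open H385

lemma sqrt_add_le' (a b : ℝ) (ha : 0 ≤ a) (hb : 0 ≤ b) :
    Real.sqrt (a + b) ≤ Real.sqrt a + Real.sqrt b := by
  rw [Real.sqrt_le_left (by positivity)]
  have h1 := Real.sq_sqrt ha
  have h2 := Real.sq_sqrt hb
  have h3 := mul_nonneg (Real.sqrt_nonneg a) (Real.sqrt_nonneg b)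
  nlinarith

/-- weighted integral of the main part -/
lemma main_part (γ β : ℝ) (h0 : 0 < γ) (hπ : γ < Real.pi) (hβ : 0 < β) : ∃ C : ℝ, 0 < C ∧
    ∀ (L T m ε3 s : ℝ), 1 ≤ L → 1 ≤ β * L → 0 ≤ T → 0 ≤ m → 0 ≤ ε3 → ε3 ≤ 1 → 0 ≤ s →
    (2 / (Real.sqrt Real.pi * (β * L))) * (∫ u in (0 : ℝ)..(β * L), Rw γ (u / (β * L)) *
       ((1 + ε3) * m * (T / (2 * Real.pi) * S1 u) + ε3 * (T * (u + 1)) * s)) ≤
     T / (2 * Real.pi) * L * (m * (2 * β * (∫ α in (0 : ℝ)..1, α * Rw γ α) * (1 + ε3) + C / L) +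
       C * ε3 * s) := by
  obtain ⟨C10, hC10, h10⟩ := lam_sq_smooth_w γ h0 hπ
  set I1 : ℝ := ∫ α in (0 : ℝ)..1, α * Rw γ α with hI1
  have hI1n : 0 ≤ I1 := I1_nonneg γ h0 hπ
  set R0 : ℝ := Rw γ 0 with hR0
  have hR0n : 0 ≤ R0 := Rw_nonneg γ h0 hπ 0
  have hpi := Real.pi_pos
  set sp : ℝ := Real.sqrt Real.pi with hsp
  have hspi : 0 < sp := Real.sqrt_pos.mpr hpi
  have hspi2 : sp * sp = Real.pi := Real.mul_self_sqrt hpi.le
  refine ⟨4 * C10 / sp + 8 * sp * R0 * β, by positivity, ?_⟩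
  intro L T m ε3 s hL hβL hT hm hε3 hε31 hs
  set Λ : ℝ := β * L with hΛ
  have hΛ0 : 0 < Λ := by linarith
  have hL0 : 0 < L := by linarith
  have hR := Rw_cont γ h0 hπ
  have hR' : Continuous (fun u : ℝ => Rw γ (u / Λ)) := hR.comp (continuous_id.div_const Λ)
  have hS := S1_cont
  have hJ1 := h10 Λ hβL
  have hJ1' : ∫ u in (0 : ℝ)..Λ, Rw γ (u / Λ) * S1 u ≤ sp * Λ ^ 2 * I1 + C10 * Λ := hJ1
  have hJ2 : ∫ u in (0 : ℝ)..Λ, Rw γ (u / Λ) * (u + 1) ≤ 2 * R0 * Λ ^ 2 := by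
    have h1 : ∫ u in (0 : ℝ)..Λ, Rw γ (u / Λ) * (u + 1) ≤ ∫ _ in (0 : ℝ)..Λ, R0 * (2 * Λ) := by
      refine intervalIntegral.integral_mono_on hΛ0.le
        ((hR'.mul (by fun_prop)).intervalIntegrable _ _)
        (continuous_const.intervalIntegrable _ _) (fun u hu => ?_)
      refine mul_le_mul (Rw_le γ h0 hπ _ (div_nonneg hu.1 hΛ0.le)) (by linarith [hu.2])
        (by linarith [hu.1]) hR0n
    rw [intervalIntegral.integral_const, smul_eq_mul] at h1
    refine h1.trans (le_of_eq ?_)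
    ring
  have hsplit : ∫ u in (0 : ℝ)..Λ, Rw γ (u / Λ) *
       ((1 + ε3) * m * (T / (2 * Real.pi) * S1 u) + ε3 * (T * (u + 1)) * s) =
      ((1 + ε3) * m * (T / (2 * Real.pi))) * (∫ u in (0 : ℝ)..Λ, Rw γ (u / Λ) * S1 u) +
      (ε3 * T * s) * ∫ u in (0 : ℝ)..Λ, Rw γ (u / Λ) * (u + 1) := by
    rw [← intervalIntegral.integral_const_mul, ← intervalIntegral.integral_const_mul,
      ← intervalIntegral.integral_add]
    · congr 1
      funext u
      ring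
    · exact ((hR'.mul hS).const_mul _).intervalIntegrable _ _
    · exact ((hR'.mul (by fun_prop : Continuous fun u : ℝ => u + 1)).const_mul _).intervalIntegrable _ _
  rw [hsplit]
  have hc : 0 ≤ 2 / (sp * Λ) := by positivity
  have hb : ((1 + ε3) * m * (T / (2 * Real.pi))) * (∫ u in (0 : ℝ)..Λ, Rw γ (u / Λ) * S1 u) +
      (ε3 * T * s) * (∫ u in (0 : ℝ)..Λ, Rw γ (u / Λ) * (u + 1)) ≤
      ((1 + ε3) * m * (T / (2 * Real.pi))) * (sp * Λ ^ 2 * I1 + C10 * Λ) +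
      (ε3 * T * s) * (2 * R0 * Λ ^ 2) :=
    add_le_add (mul_le_mul_of_nonneg_left hJ1' (by positivity))
      (mul_le_mul_of_nonneg_left hJ2 (by positivity))
  refine (mul_le_mul_of_nonneg_left hb hc).trans ?_
  have he : 2 / (sp * Λ) * (((1 + ε3) * m * (T / (2 * Real.pi))) * (sp * Λ ^ 2 * I1 + C10 * Λ) +
      (ε3 * T * s) * (2 * R0 * Λ ^ 2)) =
      T / (2 * Real.pi) * L * (m * (2 * β * I1 * (1 + ε3) + (1 + ε3) * (2 * C10 / sp) / L) +
        (8 * sp * R0 * β) * ε3 * s) := by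
    have e1 : (8 : ℝ) * sp * R0 * β = 8 * (sp * sp) / sp * R0 * β := by field_simp
    rw [e1, hspi2, hΛ]
    field_simp
    ring
  rw [he]
  refine mul_le_mul_of_nonneg_left ?_ (by positivity)
  refine add_le_add (mul_le_mul_of_nonneg_left (add_le_add le_rfl ?_) hm) ?_
  · refine div_le_div_of_nonneg_right ?_ hL0.le
    have h1 : (1 + ε3) * (2 * C10 / sp) ≤ 2 * (2 * C10 / sp) :=
      mul_le_mul_of_nonneg_right (by linarith) (by positivity)
    have h2 : 0 ≤ 8 * sp * R0 * β := by positivity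
    have h3 : 2 * (2 * C10 / sp) = 4 * C10 / sp := by ring
    linarith
  · have h1 : 0 ≤ 4 * C10 / sp := by positivity
    have h2 : 0 ≤ ε3 * s := by positivity
    have h3 := mul_nonneg h1 h2
    nlinarith

/-- the small range -/
lemma small_part (γ β δ L V : ℝ) (Yt : ℝ → ℝ) (h0 : 0 < γ) (hπ : γ < Real.pi) (hβ : 0 < β)
    (hδ : 0 < δ) (hL : 0 < L) (hr : 0 < Rw γ (1 / 4))
    (hYt : ∀ u ∈ Set.Icc 0 (4 * δ * L), 0 ≤ Yt u)
    (hint : IntervalIntegrable Yt volume 0 (4 * δ * L))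
    (hV : (2 / (Real.sqrt Real.pi * (4 * δ * L))) * (∫ u in (0 : ℝ)..(4 * δ * L),
      Rw γ (u / (4 * δ * L)) * Yt u) ≤ V) :
    (2 / (Real.sqrt Real.pi * (β * L))) * (∫ u in (0 : ℝ)..(δ * L),
      Rw γ (u / (β * L)) * Yt u) ≤ (Rw γ 0 / Rw γ (1 / 4)) * (4 * δ / β) * V := by
  set R0 : ℝ := Rw γ 0 with hR0
  set r : ℝ := Rw γ (1 / 4) with hrd
  have hR0n : 0 ≤ R0 := Rw_nonneg γ h0 hπ 0
  have hpi := Real.pi_pos
  set sp : ℝ := Real.sqrt Real.pi with hsp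
  have hspi : 0 < sp := Real.sqrt_pos.mpr hpi
  have hR := Rw_cont γ h0 hπ
  have hdL : 0 < δ * L := by positivity
  have h4 : δ * L ≤ 4 * δ * L := by nlinarith
  have hint1 : IntervalIntegrable Yt volume 0 (δ * L) := by
    refine hint.mono_set ?_
    rw [Set.uIcc_of_le hdL.le, Set.uIcc_of_le (hdL.le.trans h4)]
    exact Set.Icc_subset_Icc_right h4
  have hRa : Continuous (fun u : ℝ => Rw γ (u / (β * L))) := hR.comp (continuous_id.div_const _)
  have hRb : Continuous (fun u : ℝ => Rw γ (u / (4 * δ * L))) := hR.comp (continuous_id.div_const _)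
  have s1 : ∫ u in (0 : ℝ)..(δ * L), Rw γ (u / (β * L)) * Yt u ≤
      ∫ u in (0 : ℝ)..(δ * L), (R0 / r) * (Rw γ (u / (4 * δ * L)) * Yt u) := by
    refine intervalIntegral.integral_mono_on hdL.le (hint1.continuousOn_mul hRa.continuousOn)
      ((hint1.continuousOn_mul hRb.continuousOn).const_mul _) (fun u hu => ?_)
    have g1 : Rw γ (u / (β * L)) ≤ R0 := Rw_le γ h0 hπ _ (div_nonneg hu.1 (by positivity))
    have g2 : r ≤ Rw γ (u / (4 * δ * L)) := by
      refine Rw_antitone γ h0 hπ (Set.mem_Ici.mpr (div_nonneg hu.1 (by positivity)))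
        (Set.mem_Ici.mpr (by norm_num)) ?_
      rw [div_le_iff₀ (by positivity)]
      linarith [hu.2]
    have g3 : Rw γ (u / (β * L)) ≤ (R0 / r) * Rw γ (u / (4 * δ * L)) := by
      calc Rw γ (u / (β * L)) ≤ R0 := g1
        _ = (R0 / r) * r := by field_simp
        _ ≤ _ := mul_le_mul_of_nonneg_left g2 (by positivity)
    have g4 := mul_le_mul_of_nonneg_right g3 (hYt u ⟨hu.1, hu.2.trans h4⟩)
    linarith
  rw [intervalIntegral.integral_const_mul] at s1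
  have s2 : ∫ u in (0 : ℝ)..(δ * L), Rw γ (u / (4 * δ * L)) * Yt u ≤
      ∫ u in (0 : ℝ)..(4 * δ * L), Rw γ (u / (4 * δ * L)) * Yt u := by
    refine intervalIntegral.integral_mono_interval le_rfl hdL.le h4 ?_
      (hint.continuousOn_mul hRb.continuousOn)
    filter_upwards [ae_restrict_mem measurableSet_Ioc] with u hu
    exact mul_nonneg (Rw_nonneg γ h0 hπ _) (hYt u ⟨hu.1.le, hu.2⟩)
  have s3 := s1.trans (mul_le_mul_of_nonneg_left s2 (by positivity : 0 ≤ R0 / r))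
  have s4 := mul_le_mul_of_nonneg_left s3 (show 0 ≤ 2 / (sp * (β * L)) by positivity)
  refine s4.trans ?_
  have e1 : 2 / (sp * (β * L)) * (R0 / r * ∫ u in (0 : ℝ)..(4 * δ * L), Rw γ (u / (4 * δ * L)) * Yt u) =
      (R0 / r) * (4 * δ / β) * ((2 / (sp * (4 * δ * L))) * ∫ u in (0 : ℝ)..(4 * δ * L),
        Rw γ (u / (4 * δ * L)) * Yt u) := by
    generalize (∫ u in (0 : ℝ)..(4 * δ * L), Rw γ (u / (4 * δ * L)) * Yt u) = J
    field_simp
  rw [e1]
  exact mul_le_mul_of_nonneg_left hV (by positivity)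

end Pool.Agent.R321.RE
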