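import Pool.Agent.R321.RE9a

/-!
# The law of large numbers over the family, final form
-/

open Complex Filter Topology Set MeasureTheory

set_option maxHeartbeats 4000000

namespace Pool.Agent.R321.RE

open H385 H385.Cut Pool.Agent.R321.RC

theorem lln (δ ε3 : ℝ) (hδ : 0 < δ) (hδ1 : δ ≤ 1 / 2) (hε3 : 0 < ε3) (hε31 : ε3 ≤ 1) :
    ∃ K L0 : ℝ, 1 ≤ K ∧ 1 ≤ L0 ∧ ∀ (X Y : ℕ) (T : ℝ), Real.exp L0 ≤ X → K * X ≤ Y →
    (Y : ℝ) ≤ (X : ℝ) ^ (2 : ℕ) → (Real.log X) ^ 2 ≤ T → T ≤ Real.exp (δ / 8 * Real.log X) →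
    ∀ B : Finset IX, B ⊆ primSet X Y → ∀ u : ℝ, δ * Real.log X ≤ u → u ≤ (1 - δ) * Real.log X →
    ∫ t, ∑ z ∈ B, (1 / (z.1 : ℝ) ^ 2) * ‖Pf (cf z) T u t‖ ^ 2 ≤
      (1 + ε3) * mB B * (T / (2 * Real.pi) * S1 u) +
        ε3 * (T * (u + 1)) * (mB B + Real.sqrt (mB B) * Real.sqrt (WW X Y)) := by
  obtain ⟨C5, hC5, h5⟩ := bt_sum_int
  obtain ⟨C6, hC6, h6⟩ := S1_le
  obtain ⟨C7, hC7, h7⟩ := Gs_bound
  obtain ⟨C8, hC8, h8⟩ := diff_bound
  obtain ⟨C9, hC9, h9⟩ := Pool.Agent.H369R2.divisor_bound (δ / 4) (by positivity)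
  have hc0 : 0 < c0 := by unfold c0; positivity
  have hpi := Real.pi_pos
  set CM : ℝ := C6 + C5 with hCM
  set ε4 : ℝ := ε3 / 4 with hε4
  have hε40 : 0 < ε4 := by positivity
  have hε41 : ε4 ≤ 1 := by rw [hε4]; linarith
  set ε : ℝ := min 1 (ε4 ^ 2 / (26 * CM ^ 2 + 2)) with hε
  have hε0 : 0 < ε := by positivity
  have hε1 : ε ≤ 1 := min_le_left _ _
  have hεCM : 13 * ε * CM ^ 2 ≤ ε4 ^ 2 / 2 := by
    have h1 : ε ≤ ε4 ^ 2 / (26 * CM ^ 2 + 2) := min_le_right _ _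
    rw [le_div_iff₀ (by positivity)] at h1
    linarith
  obtain ⟨C, CH, P, hC, hCH, hP, hraw⟩ := lln_raw ε hε0 hε1
  obtain ⟨K1, hK1, hD1⟩ := D1_le ε C hε0 hε1 hC
  obtain ⟨K2, hK2, hmass⟩ := mass_facts 1
  set κ : ℝ := 24 / δ with hκ
  have hκ0 : 0 < κ := by positivity
  have hPr : (1 : ℝ) ≤ P := by exact_mod_cast hP
  have hlogP : 0 ≤ Real.log P := Real.log_nonneg hPr
  set CG : ℝ := 8 / ε * (C7 * κ * ((Real.log P + 2) * (2 / c0 ^ 2))) with hCG
  have hCG0 : 0 < CG := by positivity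
  set Cd : ℝ := 2 * C8 with hCd
  set A1 : ℝ := 4 / c0 ^ 2 + 4 * C9 with hA1
  set A2 : ℝ := 12 * CH * (1 + 1 / δ) + CG / δ ^ 2 with hA2
  set εm : ℝ := min ε (min (ε4 ^ 2 / 2) (ε4 / 2)) with hεm
  have hεm0 : 0 < εm := by positivity
  obtain ⟨L0', hL0'⟩ := Filter.eventually_atTop.mp
    (ev_facts δ εm P A1 A2 (C5 * 2) ((1 + 1 / ε4) * Cd ^ 2) hδ hεm0)
  refine ⟨max K1 K2, max L0' 1, le_max_of_le_left hK1, le_max_right _ _, ?_⟩
  intro X Y T hXe hKX hYX hT1 hT2 B hB u hu1 hu2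
  have hXpos : (0 : ℝ) < X := lt_of_lt_of_le (Real.exp_pos _) hXe
  have hX1 : 1 ≤ X := by exact_mod_cast hXpos
  set L : ℝ := Real.log X with hL
  have hLL : max L0' 1 ≤ L := by
    rw [hL, Real.le_log_iff_exp_le hXpos]; exact hXe
  obtain ⟨b1, b2, b3, b4, b5, b6, b7, b8, b9, b10⟩ := hL0' L ((le_max_left _ _).trans hLL)
  have hL0p : 0 < L := by linarith
  have hXexp : (X : ℝ) = Real.exp L := by rw [hL, Real.exp_log hXpos]
  have hKX1 : K1 * X ≤ Y := (mul_le_mul_of_nonneg_right (le_max_left _ _) hXpos.le).trans hKX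
  have hKX2 : K2 * X ≤ Y := (mul_le_mul_of_nonneg_right (le_max_right _ _) hXpos.le).trans hKX
  obtain ⟨_, m2, m3, hXY, m5⟩ := hmass X Y hX1 hKX2
  have hYpos : (0 : ℝ) < Y := by
    have : (X : ℝ) ≤ Y := by exact_mod_cast hXY
    linarith
  set W : ℝ := WW X Y with hW
  have hW0 : 0 ≤ W := by linarith
  have hpar := par_ok δ hδ hδ1 X L hX1 hL b1 b2
  set N : ℕ := ⌊Real.exp ((1 - δ / 2) * L)⌋₊ with hN
  set M0 : ℕ := ⌊Real.exp (δ / 4 * L)⌋₊ with hM0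
  have hT1' : 1 ≤ T := (one_le_pow₀ b1).trans hT1
  have hTpos : 0 < T := by linarith
  have hδL0 : 0 ≤ δ * L := by positivity
  have hu0 : 0 ≤ u := le_trans (by positivity) hu1
  have hTM0 : T ≤ M0 := hT2.trans hpar.M0exp
  have hPM0 : P ≤ M0 := by
    have h1 : (P : ℝ) ≤ M0 := by
      rw [← Real.exp_log (show (0 : ℝ) < P by linarith)]
      exact (Real.exp_le_exp.2 b3).trans hpar.M0exp
    exact_mod_cast h1
  set S : Finset ℕ := PS M0 N with hS
  have hSm : ∀ p ∈ S, p.Prime ∧ M0 < p ∧ p ≤ N := fun p hp => mem_PS.1 hp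
  set v : ℝ := u + 1 with hv
  have hv1 : 1 ≤ v := by rw [hv]; linarith
  have hvL : δ * L ≤ v := by rw [hv]; linarith
  set M : ℝ := ∫ t, ∑ p ∈ S, ‖at' T u p t‖ ^ 2 with hM
  set H0 : ℝ := ∑ p ∈ S, hp u p with hH0
  set Gs : ℝ := ∑ q ∈ Finset.Ioc X (P * Y), (1 / (q : ℝ)) *
    (∑ p ∈ S, if p ∣ q then hp u p else 0) ^ 2 with hGs
  set D1 : ℝ := (1 + ε) * Real.exp (Real.pi * (N * N : ℕ) / (X : ℝ) ^ 2) *
        (c0 ^ 2 * (1 + ε) * Real.log ((Y : ℝ) / X) + C) with hD1d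
  set E1 : ℝ := 1 / (M0 : ℝ) * (Real.log ((Y : ℝ) / X) + 1) +
        4 / (X : ℝ) * ∑ h ∈ Finset.Icc 1 N, (h.divisors.card : ℝ) with hE1d
  set HS : ℝ := CH * ((u + 1) ^ 2 + T * L ^ 2 * (u + 1)) with hHSd
  have hr := hraw X Y N M0 S T u L B hX1 hXY hpar.NX hPM0 hT1' hu0 b1 hTM0 hpar.NL hSm hB
    D1 E1 M H0 Gs HS rfl rfl rfl rfl rfl rfl
  -- bounds
  have hNN : Real.pi * ((N * N : ℕ) : ℝ) / (X : ℝ) ^ 2 ≤ ε / 2 := by
    have h1 : ((N * N : ℕ) : ℝ) ≤ Real.exp ((2 - δ) * L) := by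
      push_cast
      have h2 := mul_le_mul hpar.Nexp hpar.Nexp (Nat.cast_nonneg N) (Real.exp_pos _).le
      rw [← Real.exp_add] at h2
      refine h2.trans (le_of_eq ?_)
      congr 1
      ring
    have h3 : (X : ℝ) ^ 2 = Real.exp (2 * L) := by
      rw [hXexp, ← Real.exp_nat_mul]
      norm_num
    rw [h3, mul_div_assoc]
    have h4 : ((N * N : ℕ) : ℝ) / Real.exp (2 * L) ≤ Real.exp (-(δ * L)) := by
      rw [div_le_iff₀ (Real.exp_pos _), ← Real.exp_add]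
      refine h1.trans (le_of_eq ?_)
      congr 1
      ring
    have h5 := mul_le_mul_of_nonneg_left h4 hpi.le
    have h6 : εm ≤ ε := min_le_left _ _
    linarith
  have hD1W : D1 ≤ (1 + 11 * ε) * W := hD1 X Y _ hX1 hKX1 hNN
  have hE1W : E1 ≤ ε * W := by
    have hM0e : 1 / (M0 : ℝ) ≤ Real.exp (-(δ / 8 * L)) := by
      rw [Real.exp_neg, ← one_div]
      exact one_div_le_one_div_of_le (Real.exp_pos _) hpar.M0exp
    have t1 : 1 / (M0 : ℝ) * (Real.log ((Y : ℝ) / X) + 1) ≤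
        Real.exp (-(δ / 8 * L)) * (4 / c0 ^ 2 * W) := by
      refine mul_le_mul hM0e ?_ (by linarith) (Real.exp_pos _).le
      have : 4 / c0 ^ 2 * W = 2 * (2 / c0 ^ 2 * W) := by ring
      rw [this]
      linarith
    have t2 : 4 / (X : ℝ) * ∑ h ∈ Finset.Icc 1 N, (h.divisors.card : ℝ) ≤
        Real.exp (-(δ / 8 * L)) * (4 * C9 * W) := by
      have s1 : ∑ h ∈ Finset.Icc 1 N, (h.divisors.card : ℝ) ≤ N * (C9 * (N : ℝ) ^ (δ / 4)) := by
        have s2 : ∀ h ∈ Finset.Icc 1 N, (h.divisors.card : ℝ) ≤ C9 * (N : ℝ) ^ (δ / 4) := by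
          intro h hh
          rw [Finset.mem_Icc] at hh
          refine (h9 h hh.1).trans (mul_le_mul_of_nonneg_left ?_ hC9.le)
          exact Real.rpow_le_rpow (Nat.cast_nonneg h) (by exact_mod_cast hh.2) (by positivity)
        refine (Finset.sum_le_sum s2).trans (le_of_eq ?_)
        rw [Finset.sum_const, nsmul_eq_mul, Nat.card_Icc]
        norm_num
      have hNpos : (0 : ℝ) < N := by exact_mod_cast hpar.N0
      have s3 : (N : ℝ) * (C9 * (N : ℝ) ^ (δ / 4)) ≤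
          C9 * Real.exp ((1 - δ / 2) * L + (1 - δ / 2) * L * (δ / 4)) := by
        have s4 : (N : ℝ) ^ (δ / 4) ≤ Real.exp ((1 - δ / 2) * L * (δ / 4)) := by
          rw [Real.exp_mul]
          exact Real.rpow_le_rpow hNpos.le hpar.Nexp (by positivity)
        rw [Real.exp_add]
        calc (N : ℝ) * (C9 * (N : ℝ) ^ (δ / 4)) = C9 * (N * (N : ℝ) ^ (δ / 4)) := by ring
          _ ≤ _ := mul_le_mul_of_nonneg_left (mul_le_mul hpar.Nexp s4 (by positivity)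
              (Real.exp_pos _).le) hC9.le
      have s5 : 4 / (X : ℝ) * (C9 * Real.exp ((1 - δ / 2) * L + (1 - δ / 2) * L * (δ / 4))) ≤
          Real.exp (-(δ / 8 * L)) * (4 * C9) := by
        have : 4 / (X : ℝ) * (C9 * Real.exp ((1 - δ / 2) * L + (1 - δ / 2) * L * (δ / 4))) =
            (4 * C9) * Real.exp ((1 - δ / 2) * L + (1 - δ / 2) * L * (δ / 4) - L) := by
          rw [Real.exp_sub, hXexp]
          field_simp
        rw [this, mul_comm (Real.exp _)]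
        refine mul_le_mul_of_nonneg_left (Real.exp_le_exp.2 ?_) (by positivity)
        have hδL : 0 ≤ δ * L := by positivity
        have hδL2 : 0 ≤ δ ^ 2 * L := by positivity
        linarith
      have s6 := mul_le_mul_of_nonneg_left (s1.trans s3) (show 0 ≤ 4 / (X : ℝ) by positivity)
      refine s6.trans (s5.trans ?_)
      refine mul_le_mul_of_nonneg_left ?_ (Real.exp_pos _).le
      exact le_mul_of_one_le_right (by positivity) m2
    have t3 : A1 * Real.exp (-(δ / 8 * L)) ≤ ε := b7.trans (min_le_left _ _)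
    have t4 := mul_le_mul_of_nonneg_right t3 hW0
    have t5 : Real.exp (-(δ / 8 * L)) * (4 / c0 ^ 2 * W) + Real.exp (-(δ / 8 * L)) * (4 * C9 * W) =
        A1 * Real.exp (-(δ / 8 * L)) * W := by rw [hA1]; ring
    rw [hE1d]
    linarith
  have hGn : 8 / ε * H0 ^ 2 * Gs * T ^ 2 ≤ CG * W * L * T ^ 2 := by
    have g1 := h7 X Y N M0 P S u L κ hX1 hXY hP hpar.NX hpar.M01 hu0 b1 hpar.NL hκ0.le (by
      intro q hqm
      rw [Finset.mem_Ioc] at hqm
      have hq0 : (0 : ℝ) < q := by exact_mod_cast (show 0 < q by omega)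
      have q5 : (q : ℝ) ≤ P * Y := by exact_mod_cast hqm.2
      have q6 := Real.log_le_log hq0 q5
      rw [Real.log_mul (by linarith) hYpos.ne'] at q6
      have q7 : Real.log Y ≤ 2 * L := by
        have := Real.log_le_log hYpos hYX
        rw [Real.log_pow] at this
        exact_mod_cast this
      have q8 : κ * (δ / 8 * L) ≤ κ * Real.log M0 := mul_le_mul_of_nonneg_left hpar.M0low hκ0.le
      have q9 : κ * (δ / 8 * L) = 3 * L := by rw [hκ]; field_simp; norm_num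
      linarith) (lt_of_lt_of_le (by positivity) hpar.M0low) hSm
    have g2 : Real.log ((P * Y : ℕ) / (X : ℝ)) + 1 ≤ (Real.log P + 2) * (2 / c0 ^ 2) * W := by
      push_cast
      rw [mul_div_assoc, Real.log_mul (by linarith) (by positivity)]
      have g3 : Real.log P + Real.log ((Y : ℝ) / X) + 1 ≤ (Real.log P + 2) * Real.log ((Y : ℝ) / X) := by
        have g30 := mul_nonneg hlogP (sub_nonneg.2 m5)
        linarith
      have g4 := mul_le_mul_of_nonneg_left m3 (show 0 ≤ Real.log P + 2 by linarith)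
      linarith
    have g5 : H0 ^ 2 * Gs ≤ C7 * κ * L * ((Real.log P + 2) * (2 / c0 ^ 2) * W) :=
      g1.trans (mul_le_mul_of_nonneg_left g2 (by positivity))
    have g6 := mul_le_mul_of_nonneg_left g5 (show 0 ≤ 8 / ε by positivity)
    have g7 := mul_le_mul_of_nonneg_right g6 (sq_nonneg T)
    refine le_trans (le_of_eq ?_) (g7.trans (le_of_eq ?_))
    · ring
    · rw [hCG]; ring
  have hMn : 0 ≤ M := integral_nonneg fun t => Finset.sum_nonneg fun _ _ => sq_nonneg _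
  have hTκ : T ≤ Real.exp (L ^ 2) := by
    refine hT2.trans (Real.exp_le_exp.2 ?_)
    have h1 : δ / 8 * L ≤ 1 * L := mul_le_mul_of_nonneg_right (by linarith) hL0p.le
    have h2 : L * 1 ≤ L * L := mul_le_mul_of_nonneg_left b1 hL0p.le
    have h3 : L ^ 2 = L * L := sq L
    rw [h3]
    linarith
  have hMle : M ≤ T / (2 * Real.pi) * S1 u + C5 * L * (u + 1) := by
    obtain ⟨i1, i2⟩ := h5 T L u N b1 hT1' hTκ hu0
    refine le_trans ?_ i2
    refine integral_mono (integrable_finsetSum _ fun p _ => sq_int (at_mul_int T u hTpos.le) p) i1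
      fun t => ?_
    show ∑ p ∈ S, ‖at' T u p t‖ ^ 2 ≤ _
    have hsub : S ⊆ Finset.Icc 1 N := Finset.filter_subset _ _
    refine le_trans (Finset.sum_le_sum_of_subset_of_nonneg hsub fun _ _ _ => sq_nonneg _) ?_
    refine Finset.sum_le_sum fun n _ => le_of_eq ?_
    unfold at'
    rw [norm_mul, mul_pow, Complex.norm_real, Real.norm_of_nonneg
      ArithmeticFunction.vonMangoldt_nonneg]
  obtain ⟨s1, s2⟩ := h6 u hu0
  have hLT : L ≤ T := by
    have : L * 1 ≤ L * L := mul_le_mul_of_nonneg_left b1 hL0p.le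
    linarith [show L ^ 2 = L * L by ring]
  have hMCM : M ≤ CM * (T * v) := by
    refine hMle.trans ?_
    have c1 : T / (2 * Real.pi) * S1 u ≤ T * (C6 * (u + 1)) :=
      mul_le_mul (aux_pi T hTpos) s2 s1 hTpos.le
    have c2 : C5 * L * (u + 1) ≤ C5 * T * (u + 1) := by gcongr
    have e1 : CM * (T * v) = T * (C6 * (u + 1)) + C5 * T * (u + 1) := by rw [hCM, hv]; ring
    rw [e1]
    linarith
  have hrad := radicand (W := W) (T := T) (v := v) (L := L) (ε := ε) (δ := δ) (D1 := D1) (E1 := E1)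
    (M := M) (HS := HS) (G := 8 / ε * H0 ^ 2 * Gs * T ^ 2) (CM := CM) (CH := CH) (CG := CG)
    hW0 hε0 hε1 hδ b1 hT1 hvL hv1 hD1W hE1W hMn hMCM hCH rfl hCG0 hGn
  have hρ : 13 * ε * CM ^ 2 + (12 * CH * (1 + 1 / δ) + CG / δ ^ 2) / L ≤ ε4 ^ 2 := by
    have h1 : A2 / L ≤ ε4 ^ 2 / 2 := b8.trans ((min_le_right _ _).trans (min_le_left _ _))
    rw [hA2] at h1
    linarith
  have hsq : Real.sqrt (D1 * (M ^ 2 + HS) + 8 / ε * H0 ^ 2 * Gs * T ^ 2 -
        mB (primSet X Y) * M ^ 2 + 2 * E1 * M ^ 2) ≤ Real.sqrt W * (T * v * ε4) := by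
    have h1 : D1 * (M ^ 2 + HS) + 8 / ε * H0 ^ 2 * Gs * T ^ 2 -
        mB (primSet X Y) * M ^ 2 + 2 * E1 * M ^ 2 ≤ W * (T * v * ε4) ^ 2 := by
      rw [WW_mB, ← hW]
      refine hrad.trans ?_
      have := mul_le_mul_of_nonneg_left hρ (show 0 ≤ W * (T * v) ^ 2 by positivity)
      refine this.trans (le_of_eq ?_)
      ring
    refine (Real.sqrt_le_sqrt h1).trans (le_of_eq ?_)
    rw [Real.sqrt_mul hW0, Real.sqrt_sq (by positivity)]
  -- the difference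
  have hdiff : ∀ (z : IX) (t : ℝ), ‖Pf (cf z) T u t - Dz S T u z t‖ ≤ wt T t * Cd := by
    intro z t
    refine (diff_pt M0 N T u t hTpos.le z).trans (mul_le_mul_of_nonneg_left ?_
      (wt_nonneg T t hTpos.le))
    have hG0 : 0 ≤ δ / 4 * L := by positivity
    have h1 := h8 u N M0 (δ / 4 * L) hu0 hG0 (by
      refine le_trans ?_ hpar.Nlow
      linarith) hpar.M01 (by
      have := hpar.M0up
      linarith)
    refine h1.trans ?_
    have h2 : Real.exp (u / 2 - (δ / 4 * L) ^ 2 / 8) ≤ 1 := by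
      rw [Real.exp_le_one_iff]
      rw [div_le_iff₀ (by positivity)] at b5
      have h3 : u ≤ L := by linarith
      have h4 : 64 * L ≤ L * δ ^ 2 * L := mul_le_mul_of_nonneg_right b5 hL0p.le
      linarith
    have h9' : C8 * (1 + Real.exp (u / 2 - (δ / 4 * L) ^ 2 / 8)) ≤ C8 * (1 + 1) :=
      mul_le_mul_of_nonneg_left (add_le_add le_rfl h2) hC8.le
    rw [hCd]
    linarith
  have hCd0 : 0 ≤ Cd := by positivity
  obtain ⟨hwi, hwn, hwT⟩ := wt_sq_le T hTpos.le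
  have hmB : 0 ≤ mB B := Finset.sum_nonneg fun _ _ => by positivity
  have hDi : ∀ z : IX, Integrable (fun t => ‖Dz S T u z t‖ ^ 2) := fun z =>
    (D_int (at_cont T u) (at_mul_int T u hTpos.le) S (fun p => z.2 (p : ZMod z.1))).2
  have hI1 : Integrable (fun t => ∑ z ∈ B, (1 / (z.1 : ℝ) ^ 2) * ‖Dz S T u z t‖ ^ 2) :=
    integrable_finsetSum _ fun z _ => (hDi z).const_mul _
  have hI2 : Integrable (fun t => ∑ z ∈ B, (1 / (z.1 : ℝ) ^ 2) * ‖Pf (cf z) T u t‖ ^ 2) :=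
    integrable_finsetSum _ fun z _ => (fa_Pf_int (cf_norm z) T u hTpos.le).const_mul _
  have hstep : ∫ t, ∑ z ∈ B, (1 / (z.1 : ℝ) ^ 2) * ‖Pf (cf z) T u t‖ ^ 2 ≤
      (1 + ε4) * (∫ t, ∑ z ∈ B, (1 / (z.1 : ℝ) ^ 2) * ‖Dz S T u z t‖ ^ 2) +
        ((1 + 1 / ε4) * Cd ^ 2 * mB B) * ∫ t, (wt T t) ^ 2 := by
    rw [← integral_const_mul, ← integral_const_mul, ← integral_add (hI1.const_mul _)
      (hwi.const_mul _)]
    refine integral_mono hI2 ((hI1.const_mul _).add (hwi.const_mul _)) fun t => ?_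
    show ∑ z ∈ B, (1 / (z.1 : ℝ) ^ 2) * ‖Pf (cf z) T u t‖ ^ 2 ≤
      (1 + ε4) * (∑ z ∈ B, (1 / (z.1 : ℝ) ^ 2) * ‖Dz S T u z t‖ ^ 2) +
        ((1 + 1 / ε4) * Cd ^ 2 * mB B) * (wt T t) ^ 2
    have e1 : ((1 + 1 / ε4) * Cd ^ 2 * mB B) * (wt T t) ^ 2 =
        ∑ z ∈ B, (1 / (z.1 : ℝ) ^ 2) * ((1 + 1 / ε4) * (wt T t * Cd) ^ 2) := by
      rw [← Finset.sum_mul]
      unfold mB
      ring
    rw [e1, Finset.mul_sum, ← Finset.sum_add_distrib]
    refine Finset.sum_le_sum fun z _ => ?_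
    have k1 := H385.FamLS.sq_add_le (Dz S T u z t) (Pf (cf z) T u t - Dz S T u z t) ε4 hε40
    rw [add_sub_cancel] at k1
    have k2 := pow_le_pow_left₀ (norm_nonneg _) (hdiff z t) 2
    have k3 : ‖Pf (cf z) T u t‖ ^ 2 ≤ (1 + ε4) * ‖Dz S T u z t‖ ^ 2 +
        (1 + 1 / ε4) * (wt T t * Cd) ^ 2 := by
      have k4 := mul_le_mul_of_nonneg_left k2 (show 0 ≤ 1 + 1 / ε4 by positivity)
      linarith
    have k5 := mul_le_mul_of_nonneg_left k3 (show 0 ≤ 1 / (z.1 : ℝ) ^ 2 by positivity)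
    refine k5.trans (le_of_eq ?_)
    ring
  refine hstep.trans ?_
  set I0 : ℝ := ∫ t, ∑ z ∈ B, (1 / (z.1 : ℝ) ^ 2) * ‖Dz S T u z t‖ ^ 2 with hI0
  set sB : ℝ := Real.sqrt (mB B) with hsB
  set sW : ℝ := Real.sqrt W with hsW
  have hsB0 : 0 ≤ sB := Real.sqrt_nonneg _
  have hsW0 : 0 ≤ sW := Real.sqrt_nonneg _
  have hI0le : I0 ≤ mB B * (T / (2 * Real.pi) * S1 u + C5 * L * v) + sB * (sW * (T * v * ε4)) :=
    hr.trans (add_le_add (mul_le_mul_of_nonneg_left hMle hmB)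
      (mul_le_mul_of_nonneg_left hsq hsB0))
  have hC5L : C5 * L ≤ ε4 / 2 * T := by
    have h1 : C5 * 2 ≤ ε4 / 2 * L := b9.trans (mul_le_mul_of_nonneg_right
      ((min_le_right _ _).trans (min_le_right _ _)) hL0p.le)
    have h2 : C5 * L ≤ (ε4 / 2 * L) * L := mul_le_mul_of_nonneg_right (by linarith) hL0p.le
    have h3 : ε4 / 2 * L ^ 2 ≤ ε4 / 2 * T := mul_le_mul_of_nonneg_left hT1 (by positivity)
    linarith
  have hCdv : (1 + 1 / ε4) * Cd ^ 2 ≤ ε4 / 2 * v := by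
    have h1 : (1 + 1 / ε4) * Cd ^ 2 ≤ ε4 / 2 * (δ * L) := b10.trans (mul_le_mul_of_nonneg_right
      ((min_le_right _ _).trans (min_le_right _ _)) (by positivity))
    exact h1.trans (mul_le_mul_of_nonneg_left hvL (by positivity))
  have q1 : (1 + ε4) * I0 ≤ (1 + ε4) * (mB B * (T / (2 * Real.pi) * S1 u + C5 * L * v) +
      sB * (sW * (T * v * ε4))) := mul_le_mul_of_nonneg_left hI0le (by positivity)
  have q2 : ((1 + 1 / ε4) * Cd ^ 2 * mB B) * ∫ t, (wt T t) ^ 2 ≤ (ε4 / 2 * v * mB B) * T :=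
    mul_le_mul (mul_le_mul_of_nonneg_right hCdv hmB) hwT hwn (by positivity)
  have q3 : C5 * L * v ≤ ε4 / 2 * T * v := mul_le_mul_of_nonneg_right hC5L (by linarith)
  have q4 : (1 + ε4) * (mB B * (C5 * L * v)) ≤ 2 * (mB B * (ε4 / 2 * T * v)) := by
    refine mul_le_mul (by linarith) (mul_le_mul_of_nonneg_left q3 hmB) (by positivity) (by norm_num)
  have q5 : (1 + ε4) * (sB * (sW * (T * v * ε4))) ≤ 2 * (sB * (sW * (T * v * ε4))) :=
    mul_le_mul_of_nonneg_right (by linarith) (by positivity)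
  have q6 : (1 + ε4) * (mB B * (T / (2 * Real.pi) * S1 u)) ≤
      (1 + ε3) * (mB B * (T / (2 * Real.pi) * S1 u)) := by
    refine mul_le_mul_of_nonneg_right (by rw [hε4]; linarith) ?_
    exact mul_nonneg hmB (mul_nonneg (by positivity) s1)
  have q7 : 0 ≤ mB B * (T * v) := by positivity
  have q8 : 0 ≤ sB * sW * (T * v) := by positivity
  have e3 : ε3 = 4 * ε4 := by rw [hε4]; ring
  have e4 : ε3 * (T * v) * (mB B + sB * sW) = 4 * ε4 * (mB B * (T * v)) +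
      4 * ε4 * (sB * sW * (T * v)) := by rw [e3]; ring
  rw [e4]
  have e5 := mul_nonneg hε40.le q7
  have e6 := mul_nonneg hε40.le q8
  have e7 : (1 + ε4) * (mB B * (T / (2 * Real.pi) * S1 u + C5 * L * v) +
      sB * (sW * (T * v * ε4))) = (1 + ε4) * (mB B * (T / (2 * Real.pi) * S1 u)) +
      (1 + ε4) * (mB B * (C5 * L * v)) + (1 + ε4) * (sB * (sW * (T * v * ε4))) := by ring
  have e8 : (1 + ε3) * mB B * (T / (2 * Real.pi) * S1 u) =
      (1 + ε3) * (mB B * (T / (2 * Real.pi) * S1 u)) := by ring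
  rw [e8]
  rw [e7] at q1
  have e9 : 2 * (mB B * (ε4 / 2 * T * v)) = ε4 * (mB B * (T * v)) := by ring
  have e10 : 2 * (sB * (sW * (T * v * ε4))) = 2 * ε4 * (sB * sW * (T * v)) := by ring
  have e11 : (ε4 / 2 * v * mB B) * T = ε4 / 2 * (mB B * (T * v)) := by ring
  rw [e9] at q4
  rw [e10] at q5
  rw [e11] at q2
  linarith

end Pool.Agent.R321.RE
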