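import Pool.Agent.R321.RE0
import Pool.Agent.R321.RE9
import Pool.Agent.R321.RE10

/-!
# The mean square hypothesis for subsets of the family
-/

open Complex Filter Topology Set MeasureTheory

set_option maxHeartbeats 4000000

namespace Pool.Agent.R321.RE

open H385 H385.Cut Pool.Agent.R321.RC

theorem HYB_of (γ δ δ' : ℝ) (h0 : 0 < γ) (hπ : γ < Real.pi) (hδ : 0 < δ) (hδ1 : δ ≤ 1 / 4)
    (hδ' : 0 < δ') (hr : 0 < Rw γ (1 / 4)) :
    HYB γ (1 - δ) (2 * (1 - δ) * (∫ α in (0 : ℝ)..1, α * Rw γ α) +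
      (Rw γ 0 / Rw γ (1 / 4)) * (4 * δ / (1 - δ)) *
        (2 * (4 * δ) * (∫ α in (0 : ℝ)..1, α * Rw γ α)) / δ') δ' := by
  intro ε hε
  have hβ : 0 < 1 - δ := by linarith
  obtain ⟨C10, hC10, hmain⟩ := main_part γ (1 - δ) h0 hπ hβ
  obtain ⟨C6, hC6, h6⟩ := S1_le
  set β : ℝ := 1 - δ with hβd
  set I1 : ℝ := ∫ α in (0 : ℝ)..1, α * Rw γ α with hI1
  have hI1n : 0 ≤ I1 := I1_nonneg γ h0 hπ
  have hR0n : 0 ≤ Rw γ 0 := Rw_nonneg γ h0 hπ 0
  set k : ℝ := (Rw γ 0 / Rw γ (1 / 4)) * (4 * δ / β) with hk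
  have hk0 : 0 ≤ k := by positivity
  have hpi := Real.pi_pos
  set sδ : ℝ := Real.sqrt δ' with hsδ
  have hsδ0 : 0 < sδ := Real.sqrt_pos.mpr hδ'
  set ε' : ℝ := min (ε * sδ / 2) (ε * δ' / (4 * (k + 1))) with hε'
  have hε'0 : 0 < ε' := by positivity
  set ε3 : ℝ := min 1 (ε / (8 * (2 * β * I1 + C10 * (1 + 1 / sδ) + 1))) with hε3
  have hε30 : 0 < ε3 := by positivity
  have hε31 : ε3 ≤ 1 := min_le_left _ _
  obtain ⟨Kt, ηt, Xt, hKt, hηt, hXt, hst⟩ := HY_stage1 γ (4 * δ) h0 hπ (by positivity)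
    (by linarith) ε' hε'0
  obtain ⟨K3, L3, hK3, hL3, hlln⟩ := lln δ ε3 hδ (by linarith) hε30 hε31
  set c7 : ℝ := 2 * C6 + (1 + 1 / sδ) with hc7
  have hc70 : 0 < c7 := by positivity
  set L0 : ℝ := max (max L3 (2 / β)) (max (2 * Real.sqrt c7 / ε) (4 * C10 / ε)) with hL0
  refine ⟨max Kt K3, min (min ηt 1) (δ / 8), max Xt (Real.exp L0), le_max_of_le_left hKt,
    lt_min (lt_min hηt one_pos) (by positivity), le_max_of_le_left hXt, ?_⟩
  intro X Y T hX hKX hYX hT1 hT2 B hB hmBW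
  have hXt' : Xt ≤ X := (le_max_left _ _).trans hX
  have hXe : Real.exp L0 ≤ X := (le_max_right _ _).trans hX
  have hXpos : (0 : ℝ) < X := lt_of_lt_of_le (Real.exp_pos _) hXe
  set L : ℝ := Real.log X with hL
  have hLL0 : L0 ≤ L := by rw [hL, Real.le_log_iff_exp_le hXpos]; exact hXe
  have hL3' : L3 ≤ L := ((le_max_left _ _).trans (le_max_left _ _)).trans hLL0
  have hLβ : 2 / β ≤ L := ((le_max_right _ _).trans (le_max_left _ _)).trans hLL0
  have hLc7 : 2 * Real.sqrt c7 / ε ≤ L := ((le_max_left _ _).trans (le_max_right _ _)).trans hLL0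
  have hLC10 : 4 * C10 / ε ≤ L := ((le_max_right _ _).trans (le_max_right _ _)).trans hLL0
  have hL1 : 1 ≤ L := hL3.trans hL3'
  have hL0p : 0 < L := by linarith
  have hX1r : (1 : ℝ) ≤ X := by
    rw [← Real.exp_log hXpos]
    exact Real.one_le_exp (by linarith)
  have hβL : 1 ≤ β * L := by
    rw [div_le_iff₀ hβ] at hLβ
    linarith
  have hXexp : (X : ℝ) = Real.exp L := by rw [hL, Real.exp_log hXpos]
  have hKXt : Kt * X ≤ Y := (mul_le_mul_of_nonneg_right (le_max_left _ _) hXpos.le).trans hKX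
  have hKX3 : K3 * X ≤ Y := (mul_le_mul_of_nonneg_right (le_max_right _ _) hXpos.le).trans hKX
  have hη1 : min (min ηt 1) (δ / 8) ≤ ηt := (min_le_left _ _).trans (min_le_left _ _)
  have hη2 : min (min ηt 1) (δ / 8) ≤ 1 := (min_le_left _ _).trans (min_le_right _ _)
  have hη3 : min (min ηt 1) (δ / 8) ≤ δ / 8 := min_le_right _ _
  have hYt : (Y : ℝ) ≤ (X : ℝ) ^ (1 + ηt) :=
    hYX.trans (Real.rpow_le_rpow_of_exponent_le hX1r (by linarith))
  have hY2 : (Y : ℝ) ≤ (X : ℝ) ^ (2 : ℕ) := by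
    refine (hYX.trans (Real.rpow_le_rpow_of_exponent_le hX1r
      (show 1 + min (min ηt 1) (δ / 8) ≤ 2 by linarith))).trans (le_of_eq ?_)
    rw [show (2 : ℝ) = ((2 : ℕ) : ℝ) by norm_num, Real.rpow_natCast]
  have hTt : T ≤ (X : ℝ) ^ ηt := hT2.trans (Real.rpow_le_rpow_of_exponent_le hX1r hη1)
  have hT3 : T ≤ Real.exp (δ / 8 * L) := by
    refine (hT2.trans (Real.rpow_le_rpow_of_exponent_le hX1r hη3)).trans (le_of_eq ?_)
    rw [Real.rpow_def_of_pos hXpos, ← hL, mul_comm]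
  have hTpos : 0 < T := lt_of_lt_of_le (by positivity) hT1
  obtain ⟨Yt, y1, y2, hy1, hy2, t1, t2, t3, t4, t5⟩ := hst X Y T hXt' hKXt hYt hT1 hTt
  have hll := hlln X Y T ((Real.exp_le_exp.2 hL3').trans (by rw [hXexp])) hKX3 hY2 hT1 hT3 B hB
  rw [← hL] at t1 t2 t3 t4 t5 hll
  set W : ℝ := WW X Y with hW
  have hW0 : 0 ≤ W := primFam_nonneg _ _ _ (fun _ _ => zero_le_one)
  set m : ℝ := mB B with hm
  have hm0 : 0 ≤ m := Finset.sum_nonneg fun _ _ => by positivity
  set sm : ℝ := Real.sqrt m with hsm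
  have hsm0 : 0 ≤ sm := Real.sqrt_nonneg _
  have hsm2 : sm * sm = m := Real.mul_self_sqrt hm0
  have hsW : sδ * Real.sqrt W ≤ sm := by
    rw [hsδ, ← Real.sqrt_mul hδ'.le]
    exact Real.sqrt_le_sqrt hmBW
  have hsW' : Real.sqrt W ≤ sm / sδ := by
    rw [le_div_iff₀ hsδ0]
    linarith
  have hWm : W ≤ m / δ' := by
    rw [le_div_iff₀ hδ']
    linarith
  set s : ℝ := m + sm * Real.sqrt W with hs
  have hs0 : 0 ≤ s := by positivity
  have hsle : s ≤ m * (1 + 1 / sδ) := by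
    have h1 := mul_le_mul_of_nonneg_left hsW' hsm0
    have h2 : sm * (sm / sδ) = m / sδ := by rw [← mul_div_assoc, hsm2]
    rw [h2] at h1
    have h3 : m * (1 + 1 / sδ) = m + m / sδ := by ring
    rw [h3, hs]
    linarith
  set A : ℝ → ℝ := fun u => (1 + ε3) * m * (T / (2 * Real.pi) * S1 u) + ε3 * (T * (u + 1)) * s
    with hA
  have hS := S1_cont
  have hAc : Continuous A := by
    rw [hA]
    fun_prop
  have hA0 : ∀ u, 0 ≤ u → 0 ≤ A u := by
    intro u hu
    have h1 := (h6 u hu).1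
    rw [hA]
    positivity
  have hdL : 0 < δ * L := by positivity
  have h4 : δ * L ≤ 4 * δ * L := by linarith
  have hdβ : δ * L ≤ β * L := mul_le_mul_of_nonneg_right (by rw [hβd]; linarith) hL0p.le
  -- integrability
  have hint : ∀ (z : IX) (u : ℝ), Integrable (fun t => ‖Pf (cf z) T u t‖ ^ 2) := fun z u =>
    fa_Pf_int (cf_norm z) T u hTpos.le
  have hYt0 : ∀ u ∈ Set.Icc 0 (4 * δ * L), 0 ≤ Yt u := by
    intro u hu
    refine le_trans ?_ (t1 u hu)
    refine integral_nonneg fun t => ?_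
    show 0 ≤ primFam X Y _
    rw [primFam_eq]
    exact Finset.sum_nonneg fun _ _ => by positivity
  have hYtI : IntervalIntegrable Yt volume 0 (δ * L) := by
    refine t3.mono_set ?_
    rw [Set.uIcc_of_le hdL.le, Set.uIcc_of_le (hdL.le.trans h4)]
    exact Set.Icc_subset_Icc_right h4
  set Yf : ℝ → ℝ := fun u => if u ≤ δ * L then Yt u else A u with hYf
  have hYf1 : Set.EqOn Yf Yt (Set.uIoc 0 (δ * L)) := by
    intro u hu
    rw [Set.uIoc_of_le hdL.le] at hu
    rw [hYf]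
    exact if_pos hu.2
  have hYf2 : Set.EqOn Yf A (Set.uIoc (δ * L) (β * L)) := by
    intro u hu
    rw [Set.uIoc_of_le hdβ] at hu
    rw [hYf]
    exact if_neg (not_le.2 hu.1)
  have hI1' : IntervalIntegrable Yf volume 0 (δ * L) := hYtI.congr hYf1.symm
  have hI2' : IntervalIntegrable Yf volume (δ * L) (β * L) :=
    (hAc.intervalIntegrable _ _).congr hYf2.symm
  refine ⟨Yf, y1 + m * c7, y2, by positivity, hy2, ?_, ?_, hI1'.trans hI2', ?_, ?_⟩
  · intro u hu
    show ∫ t : ℝ, ∑ p ∈ B, (1 / (p.1 : ℝ) ^ 2) * ‖Pf (cf p) T u t‖ ^ 2 ≤ Yf u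
    rw [hYf]
    dsimp only
    split_ifs with hc
    · refine le_trans ?_ (t1 u ⟨hu.1, hc.trans h4⟩)
      refine integral_mono (integrable_finsetSum _ fun z _ => (hint z u).const_mul _) ?_ fun t => ?_
      · have h1 : (fun t : ℝ => primFam X Y (fun q χ =>
            ‖∑' n : ℕ, (χ (n : ZMod q) * (ArithmeticFunction.vonMangoldt n : ℂ)) *
            ((Real.sqrt n : ℂ)⁻¹ * bt T u t (Real.log n))‖ ^ 2)) =
            fun t => ∑ p ∈ primSet X Y, (1 / (p.1 : ℝ) ^ 2) * ‖Pf (cf p) T u t‖ ^ 2 := by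
          funext t
          rw [primFam_eq]
          rfl
        rw [h1]
        exact integrable_finsetSum _ fun z _ => (hint z u).const_mul _
      · show ∑ p ∈ B, (1 / (p.1 : ℝ) ^ 2) * ‖Pf (cf p) T u t‖ ^ 2 ≤ primFam X Y _
        rw [primFam_eq]
        exact Finset.sum_le_sum_of_subset_of_nonneg hB fun _ _ _ => by positivity
    · exact hll u (not_le.1 hc).le hu.2
  · intro u hu
    have hu1 : 0 ≤ u + 1 := by linarith [hu.1]
    have hmc : 0 ≤ m * c7 * (u + 1) := by positivity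
    rw [hYf]
    dsimp only
    split_ifs with hc
    · refine (t2 u ⟨hu.1, hc.trans h4⟩).trans (mul_le_mul_of_nonneg_left ?_ hTpos.le)
      linarith
    · obtain ⟨s1, s2⟩ := h6 u hu.1
      have g1 : (1 + ε3) * m * (T / (2 * Real.pi) * S1 u) ≤ 2 * m * (T * (C6 * (u + 1))) := by
        refine mul_le_mul (mul_le_mul_of_nonneg_right (by linarith) hm0)
          (mul_le_mul (aux_pi T hTpos) s2 s1 hTpos.le) ?_ (by positivity)
        exact mul_nonneg (by positivity) s1
      have g2 : ε3 * (T * (u + 1)) * s ≤ 1 * (T * (u + 1)) * (m * (1 + 1 / sδ)) :=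
        mul_le_mul (mul_le_mul_of_nonneg_right hε31 (by positivity)) hsle hs0 (by positivity)
      have g3 : 0 ≤ T * (y1 * (u + 1) + y2) := by positivity
      rw [hA]
      dsimp only
      calc _ ≤ 2 * m * (T * (C6 * (u + 1))) + 1 * (T * (u + 1)) * (m * (1 + 1 / sδ)) := add_le_add g1 g2
        _ = T * (m * c7 * (u + 1)) := by rw [hc7]; ring
        _ ≤ T * (m * c7 * (u + 1)) + T * (y1 * (u + 1) + y2) := by linarith
        _ = _ := by ring
  · have hR := Rw_cont γ h0 hπ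
    have hRa : Continuous (fun u : ℝ => Rw γ (u / (β * L))) := hR.comp (continuous_id.div_const _)
    have hsmall := small_part γ β δ L _ Yt h0 hπ hβ hδ hL0p hr hYt0 t3 t4
    have hmn := hmain L T m ε3 s hL1 hβL hTpos.le hm0 hε30.le hε31 hs0
    have hsplit : ∫ u in (0 : ℝ)..(β * L), Rw γ (u / (β * L)) * Yf u =
        (∫ u in (0 : ℝ)..(δ * L), Rw γ (u / (β * L)) * Yt u) +
        ∫ u in (δ * L)..(β * L), Rw γ (u / (β * L)) * A u := by
      rw [← intervalIntegral.integral_add_adjacent_intervals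
        (hI1'.continuousOn_mul hRa.continuousOn) (hI2'.continuousOn_mul hRa.continuousOn)]
      congr 1
      · refine intervalIntegral.integral_congr_ae (ae_of_all _ fun u hu => ?_)
        show Rw γ (u / (β * L)) * Yf u = Rw γ (u / (β * L)) * Yt u
        rw [hYf1 hu]
      · refine intervalIntegral.integral_congr_ae (ae_of_all _ fun u hu => ?_)
        show Rw γ (u / (β * L)) * Yf u = Rw γ (u / (β * L)) * A u
        rw [hYf2 hu]
    have hAle : ∫ u in (δ * L)..(β * L), Rw γ (u / (β * L)) * A u ≤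
        ∫ u in (0 : ℝ)..(β * L), Rw γ (u / (β * L)) * A u := by
      refine intervalIntegral.integral_mono_interval hdL.le hdβ le_rfl ?_
        ((hRa.mul hAc).intervalIntegrable _ _)
      filter_upwards [ae_restrict_mem measurableSet_Ioc] with u hu
      exact mul_nonneg (Rw_nonneg γ h0 hπ _) (hA0 u hu.1.le)
    rw [hsplit, mul_add]
    have hcp : 0 ≤ 2 / (Real.sqrt Real.pi * (β * L)) := by positivity
    have hA2 := (mul_le_mul_of_nonneg_left hAle hcp).trans hmn
    refine (add_le_add hsmall hA2).trans ?_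
    -- final numerical inequality
    rw [← hk]
    have hTL : 0 ≤ T / (2 * Real.pi) * L := by positivity
    have e0 : 0 ≤ 2 * (4 * δ) * I1 + ε' := by positivity
    have e1 : k * (T / (2 * Real.pi) * L * W * (2 * (4 * δ) * I1 + ε')) ≤
        T / (2 * Real.pi) * L * (m * (k * (2 * (4 * δ) * I1) / δ' + k * ε' / δ')) := by
      have g1 : k * (T / (2 * Real.pi) * L * W * (2 * (4 * δ) * I1 + ε')) =
          T / (2 * Real.pi) * L * (W * (k * (2 * (4 * δ) * I1 + ε'))) := by ring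
      have g2 : T / (2 * Real.pi) * L * (m * (k * (2 * (4 * δ) * I1) / δ' + k * ε' / δ')) =
          T / (2 * Real.pi) * L * (m / δ' * (k * (2 * (4 * δ) * I1 + ε'))) := by ring
      rw [g1, g2]
      exact mul_le_mul_of_nonneg_left (mul_le_mul_of_nonneg_right hWm (by positivity)) hTL
    have e2 : k * ε' / δ' ≤ ε / 4 := by
      rw [div_le_iff₀ hδ']
      have g1 : ε' ≤ ε * δ' / (4 * (k + 1)) := min_le_right _ _
      rw [le_div_iff₀ (by positivity)] at g1
      linarith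
    have e3 : 2 * β * I1 * ε3 + C10 * ε3 * (1 + 1 / sδ) ≤ ε / 8 := by
      have g1 : ε3 ≤ ε / (8 * (2 * β * I1 + C10 * (1 + 1 / sδ) + 1)) := min_le_right _ _
      rw [le_div_iff₀ (by positivity)] at g1
      linarith
    have e4 : C10 / L ≤ ε / 4 := by
      rw [div_le_iff₀ hε] at hLC10
      rw [div_le_iff₀ hL0p]
      linarith
    have e5 : C10 * ε3 * s ≤ C10 * ε3 * (m * (1 + 1 / sδ)) :=
      mul_le_mul_of_nonneg_left hsle (by positivity)
    have e6 : m * (2 * β * I1 * (1 + ε3) + C10 / L) + C10 * ε3 * s ≤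
        m * (2 * β * I1 + (ε / 8 + ε / 4)) := by
      have g1 := mul_le_mul_of_nonneg_left e3 hm0
      have g2 := mul_le_mul_of_nonneg_left e4 hm0
      calc _ ≤ m * (2 * β * I1 * (1 + ε3) + C10 / L) + C10 * ε3 * (m * (1 + 1 / sδ)) := by linarith
        _ = m * (2 * β * I1) + m * (2 * β * I1 * ε3 + C10 * ε3 * (1 + 1 / sδ)) + m * (C10 / L) := by
          ring
        _ ≤ m * (2 * β * I1) + m * (ε / 8) + m * (ε / 4) := by linarith
        _ = _ := by ring
    have e7 := mul_le_mul_of_nonneg_left e6 hTL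
    refine (add_le_add e1 e7).trans ?_
    have e8 : T / (2 * Real.pi) * L * (m * (k * (2 * (4 * δ) * I1) / δ' + k * ε' / δ')) +
        T / (2 * Real.pi) * L * (m * (2 * β * I1 + (ε / 8 + ε / 4))) =
        T / (2 * Real.pi) * L * m * (2 * β * I1 + k * (2 * (4 * δ) * I1) / δ' +
          (k * ε' / δ' + (ε / 8 + ε / 4))) := by ring
    rw [e8]
    refine mul_le_mul_of_nonneg_left ?_ (by positivity)
    linarith
  · have g1 : Real.sqrt (y1 + m * c7) ≤ Real.sqrt y1 + sm * Real.sqrt c7 := by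
      refine (sqrt_add_le' _ _ hy1 (by positivity)).trans (le_of_eq ?_)
      rw [Real.sqrt_mul hm0]
    have g2 : ε' * L * Real.sqrt W ≤ ε / 2 * L * sm := by
      have q1 : ε' ≤ ε * sδ / 2 := min_le_left _ _
      calc ε' * L * Real.sqrt W ≤ (ε * sδ / 2) * L * Real.sqrt W := by gcongr
        _ = ε / 2 * L * (sδ * Real.sqrt W) := by ring
        _ ≤ _ := mul_le_mul_of_nonneg_left hsW (by positivity)
    have g3 : sm * Real.sqrt c7 ≤ ε / 2 * L * sm := by
      rw [div_le_iff₀ hε] at hLc7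
      have : Real.sqrt c7 ≤ ε / 2 * L := by linarith
      calc sm * Real.sqrt c7 ≤ sm * (ε / 2 * L) := mul_le_mul_of_nonneg_left this hsm0
        _ = _ := by ring
    linarith

end Pool.Agent.R321.RE
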