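import Pool.Agent.H385R2.Win
import Pool.Agent.W354.ZP.Num

/-!
# The Montgomery-Taylor constant
-/

open Complex Filter Topology Set MeasureTheory

set_option maxHeartbeats 4000000

namespace Pool.Agent.R321.RE

open H385

lemma Rw_eq_Rf (α : ℝ) : Rw (Real.sqrt 2) α = H370.Rf α := by
  have hs2 : Real.sqrt 2 * Real.sqrt 2 = 2 := Real.mul_self_sqrt (by norm_num)
  have hs : Real.sqrt 2 ≠ 0 := by positivity
  have hsin := H370.GramAux.sin_half_pos
  have hhalf : Real.sqrt 2 / 2 = 1 / Real.sqrt 2 := by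
    rw [div_eq_div_iff (by norm_num) hs, hs2]
    norm_num
  unfold Rw H370.Rf
  by_cases h : |α| ≤ 1
  · rw [if_pos h, if_pos h, hhalf]
    have h22 : Real.sqrt 2 ^ 2 = 2 := by rw [sq, hs2]
    rw [div_pow, mul_pow, h22, mul_pow, h22]
    have hS := hsin.ne'
    field_simp
  · rw [if_neg h, if_neg h]

/-- the Montgomery-Taylor constant -/
theorem Rw_MT : Rw (Real.sqrt 2) 0 + 2 * ∫ α in (0 : ℝ)..1, α * Rw (Real.sqrt 2) α ≤ 1.3275 := by
  simp only [Rw_eq_Rf]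
  rw [H370.Rf_const]
  exact Pool.Agent.W354.ZP.cMTinv_sharp

/-- the constant is continuous in the length of the support and in the correction term -/
theorem const_choice (δ' ε : ℝ) (hδ' : 0 < δ') (hε : 0 < ε) (R0 I1 r : ℝ) (hR0 : 0 ≤ R0)
    (hI1 : 0 ≤ I1) (hr : 0 < r) (h : R0 + 2 * I1 ≤ 1.3275) :
    ∃ δ : ℝ, 0 < δ ∧ δ ≤ 1 / 4 ∧ R0 / (1 - δ) + (2 * (1 - δ) * I1 +
      (R0 / r) * (4 * δ / (1 - δ)) * (2 * (4 * δ) * I1) / δ') ≤ 1.3275 + ε := by
  set c : ℝ := R0 / r * I1 / δ' with hc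
  have hc0 : 0 ≤ c := by positivity
  refine ⟨min (1 / 4) (ε / (2 * R0 + 64 * c + 1)), by positivity, min_le_left _ _, ?_⟩
  set δ : ℝ := min (1 / 4) (ε / (2 * R0 + 64 * c + 1)) with hδ
  have hδ0 : 0 < δ := by positivity
  have hδ1 : δ ≤ 1 / 4 := min_le_left _ _
  have hδ2 : δ * (2 * R0 + 64 * c + 1) ≤ ε := by
    have h1 : δ ≤ ε / (2 * R0 + 64 * c + 1) := min_le_right _ _
    rwa [le_div_iff₀ (by positivity)] at h1
  have h1δ : 0 < 1 - δ := by linarith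
  have e1 : R0 / (1 - δ) ≤ R0 + 2 * R0 * δ := by
    rw [div_le_iff₀ h1δ]
    have : (R0 + 2 * R0 * δ) * (1 - δ) - R0 = R0 * δ * (1 - 2 * δ) := by ring
    have h2 : 0 ≤ R0 * δ * (1 - 2 * δ) := mul_nonneg (by positivity) (by linarith)
    linarith
  have e2 : 2 * (1 - δ) * I1 ≤ 2 * I1 := by
    have : 0 ≤ δ * I1 := by positivity
    nlinarith
  have e3 : (R0 / r) * (4 * δ / (1 - δ)) * (2 * (4 * δ) * I1) / δ' ≤ 64 * c * δ := by
    have h3 : (R0 / r) * (4 * δ / (1 - δ)) * (2 * (4 * δ) * I1) / δ' =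
        32 * c * δ * (δ / (1 - δ)) := by
      rw [hc]
      field_simp
      ring
    rw [h3]
    have h4 : δ / (1 - δ) ≤ 1 := by
      rw [div_le_one h1δ]
      linarith
    have h5 : 0 ≤ c * δ := by positivity
    have h6 := mul_le_mul_of_nonneg_left h4 (show 0 ≤ 32 * c * δ by positivity)
    linarith
  nlinarith

lemma Rw_quarter_pos (γ : ℝ) (h0 : 0 < γ) (h2 : γ ≤ 3 / 2) : 0 < Rw γ (1 / 4) := by
  have hpi := Real.pi_gt_three
  unfold Rw
  have ha : |(1 / 4 : ℝ)| = 1 / 4 := abs_of_pos (by norm_num)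
  rw [ha, if_pos (by norm_num)]
  have h1 : 0 < Real.cos (γ * (1 / 4)) := Real.cos_pos_of_mem_Ioo ⟨by linarith, by linarith⟩
  have h3 : 0 < Real.sin (γ * (1 - 1 / 4)) :=
    Real.sin_pos_of_pos_of_lt_pi (by positivity) (by linarith)
  have h4 : 0 < Real.sin (γ / 2) := Real.sin_pos_of_pos_of_lt_pi (by positivity) (by linarith)
  positivity

end Pool.Agent.R321.RE
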