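import Pool.Agent.R321.RE11
import Pool.Agent.R321.RE12

/-!
# Subsets of positive mass, and almost all characters
-/

open Complex Filter Topology Set MeasureTheory
open H370 (zset mult NN Nd Ns)

set_option maxHeartbeats 4000000

namespace Pool.Agent.R321.RE

open H385

/-- weighted sum over a set of characters -/
noncomputable def sB (B : Finset IX) (f : IX → ℝ) : ℝ := ∑ p ∈ B, (1 / (p.1 : ℝ) ^ 2) * f p

lemma sB_lin (B : Finset IX) (a b : ℝ) (f g : IX → ℝ) :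
    sB B (fun p => a * f p - b * g p) = a * sB B f - b * sB B g := by
  unfold sB
  rw [Finset.mul_sum, Finset.mul_sum, ← Finset.sum_sub_distrib]
  exact Finset.sum_congr rfl (fun p _ => by ring)

theorem subset_main (μ ε : ℝ) (hμ : 0 < μ) (hε : 0 < ε) : ∃ K η X0 : ℝ, 1 ≤ K ∧ 0 < η ∧ 1 ≤ X0 ∧
    ∀ (X Y : ℕ) (T : ℝ), X0 ≤ X → K * X ≤ Y → (Y : ℝ) ≤ (X : ℝ) ^ (1 + η) →
      (Real.log X) ^ 2 ≤ T → T ≤ (X : ℝ) ^ η →
      ∀ B : Finset IX, B ⊆ primSet X Y → μ * WW X Y ≤ mB B →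
      (0.6725 - ε) * sB B (fun p => (NN (LF p.1 p.2) T (2 * T) : ℝ)) ≤
        sB B (fun p => (Ns (LF p.1 p.2) T (2 * T) : ℝ)) ∧
      (0.8362 - ε) * sB B (fun p => (NN (LF p.1 p.2) T (2 * T) : ℝ)) ≤
        sB B (fun p => (Nd (LF p.1 p.2) T (2 * T) : ℝ)) := by
  have h2 : Real.sqrt 2 ≤ 3 / 2 := by
    rw [Real.sqrt_le_left (by norm_num)]
    norm_num
  have h0 : 0 < Real.sqrt 2 := by positivity
  have hπ : Real.sqrt 2 < Real.pi := by linarith [Real.pi_gt_three]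
  have hR0 : 0 ≤ Rw (Real.sqrt 2) 0 := Rw_nonneg _ h0 hπ 0
  have hI1 : 0 ≤ ∫ α in (0 : ℝ)..1, α * Rw (Real.sqrt 2) α := I1_nonneg _ h0 hπ
  have hr : 0 < Rw (Real.sqrt 2) (1 / 4) := Rw_quarter_pos _ h0 h2
  obtain ⟨δ, hδ, hδ1, hcon⟩ := const_choice μ (ε / 2) hμ (by positivity) _ _ _ hR0 hI1 hr Rw_MT
  set R0 : ℝ := Rw (Real.sqrt 2) 0 with hR0d
  set r : ℝ := Rw (Real.sqrt 2) (1 / 4) with hrd
  set I1 : ℝ := ∫ α in (0 : ℝ)..1, α * Rw (Real.sqrt 2) α with hI1d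
  have hβ : 0 < 1 - δ := by linarith
  have hc' : 0 ≤ 2 * (1 - δ) * I1 + (R0 / r) * (4 * δ / (1 - δ)) * (2 * (4 * δ) * I1) / μ := by
    positivity
  obtain ⟨K, η, X0, hK, hη, hX0, h⟩ := final_core_B (Real.sqrt 2) (1 - δ) _ μ h0 hπ hβ hc' hR0
    (HYB_of (Real.sqrt 2) δ μ h0 hπ hδ hδ1 hμ hr) (ε / 2) (by positivity)
  refine ⟨K, η, X0, hK, hη, hX0, ?_⟩
  intro X Y T a1 a2 a3 a4 a5 B hB hm
  obtain ⟨b1, b2⟩ := h X Y T a1 a2 a3 a4 a5 B hB hm
  set c : ℝ := R0 / (1 - δ) + (2 * (1 - δ) * I1 +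
    (R0 / r) * (4 * δ / (1 - δ)) * (2 * (4 * δ) * I1) / μ) + ε / 2 with hc
  have hcle : c ≤ 1.3275 + ε := by rw [hc]; linarith
  have e1 : sB B (fun p => 2 * (NN (LF p.1 p.2) T (2 * T) : ℝ) - 1 * (Ns (LF p.1 p.2) T (2 * T) : ℝ)) =
      2 * sB B (fun p => (NN (LF p.1 p.2) T (2 * T) : ℝ)) -
        1 * sB B (fun p => (Ns (LF p.1 p.2) T (2 * T) : ℝ)) := sB_lin _ _ _ _ _
  have e2 : sB B (fun p => 3 * (NN (LF p.1 p.2) T (2 * T) : ℝ) - 2 * (Nd (LF p.1 p.2) T (2 * T) : ℝ)) =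
      3 * sB B (fun p => (NN (LF p.1 p.2) T (2 * T) : ℝ)) -
        2 * sB B (fun p => (Nd (LF p.1 p.2) T (2 * T) : ℝ)) := sB_lin _ _ _ _ _
  simp only [one_mul] at e1
  have hb1 : sB B (fun p => 2 * (NN (LF p.1 p.2) T (2 * T) : ℝ) - (Ns (LF p.1 p.2) T (2 * T) : ℝ)) ≤
      c * sB B (fun p => (NN (LF p.1 p.2) T (2 * T) : ℝ)) := b1
  have hb2 : sB B (fun p => 3 * (NN (LF p.1 p.2) T (2 * T) : ℝ) - 2 * (Nd (LF p.1 p.2) T (2 * T) : ℝ)) ≤
      c * sB B (fun p => (NN (LF p.1 p.2) T (2 * T) : ℝ)) := b2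
  rw [e1] at hb1
  rw [e2] at hb2
  have hN : 0 ≤ sB B (fun p => (NN (LF p.1 p.2) T (2 * T) : ℝ)) :=
    Finset.sum_nonneg fun _ _ => by positivity
  have hcN := mul_le_mul_of_nonneg_right hcle hN
  constructor
  · linarith
  · have hεN := mul_nonneg hε.le hN
    linarith

/-- a set of characters on which a strict inequality holds termwise while the opposite inequality
would hold on average is small -/
theorem bad_small (μ a ε : ℝ) (X Y : ℕ) (hμ : 0 < μ) (hε : 0 < ε) (N M : IX → ℝ)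
    (hN : ∀ p, 0 ≤ N p)
    (h : ∀ B : Finset IX, B ⊆ primSet X Y → μ * WW X Y ≤ mB B → (a - ε) * sB B N ≤ sB B M)
    (B : Finset IX) (hB : B ⊆ primSet X Y) (hbad : ∀ p ∈ B, M p < (a - 2 * ε) * N p) :
    mB B ≤ μ * WW X Y := by
  by_contra hcon
  push Not at hcon
  have h1 := h B hB hcon.le
  have hW : 0 ≤ WW X Y := primFam_nonneg _ _ _ (fun _ _ => zero_le_one)
  have hne : B.Nonempty := by
    rw [Finset.nonempty_iff_ne_empty]
    rintro rfl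
    unfold mB at hcon
    rw [Finset.sum_empty] at hcon
    have : 0 ≤ μ * WW X Y := by positivity
    linarith
  have h2 : sB B M < (a - 2 * ε) * sB B N := by
    unfold sB
    rw [Finset.mul_sum]
    refine Finset.sum_lt_sum_of_nonempty hne fun p hp => ?_
    have hp1 := ((mem_primSet X Y p).1 (hB hp)).1
    have hp0 : (0 : ℝ) < p.1 := by exact_mod_cast (show 0 < p.1 by omega)
    have := mul_lt_mul_of_pos_left (hbad p hp) (show 0 < 1 / (p.1 : ℝ) ^ 2 by positivity)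
    linarith
  have h3 : 0 ≤ sB B N := Finset.sum_nonneg fun p _ => mul_nonneg (by positivity) (hN p)
  have h4 := mul_nonneg hε.le h3
  linarith

end Pool.Agent.R321.RE
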