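import Pool.Agent.R321.RE14

/-!
# Almost all characters: the weighted inequality, and the signs of the derivative
-/

open Complex Filter Topology Set MeasureTheory
open H370 (zset mult NN Nd Ns)

set_option maxHeartbeats 4000000

namespace Pool.Agent.R321.RE

open H385 H385.PerChi Pool.Agent.R321.RA

theorem subset_w (W : (ℂ → ℂ) → ℂ → ℝ)
    (hW1 : ∀ F s, 1 ≤ mult F s → W F s ≤ 4 * (mult F s : ℝ) - kk F s)
    (hW2 : ∀ F s, 1 ≤ mult F s → W F s ≤ 3 * (mult F s : ℝ)) (μ ε : ℝ) (hμ : 0 < μ) (hε : 0 < ε) :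
    ∃ K η X0 : ℝ, 1 ≤ K ∧ 0 < η ∧ 1 ≤ X0 ∧
    ∀ (X Y : ℕ) (T : ℝ), X0 ≤ X → K * X ≤ Y → (Y : ℝ) ≤ (X : ℝ) ^ (1 + η) →
      (Real.log X) ^ 2 ≤ T → T ≤ (X : ℝ) ^ η →
      ∀ B : Finset IX, B ⊆ primSet X Y → μ * WW X Y ≤ mB B →
      sB B (fun p => SW W (LF p.1 p.2) T) ≤
        (1.3275 + ε) * sB B (fun p => (NN (LF p.1 p.2) T (2 * T) : ℝ)) := by
  have h2 : Real.sqrt 2 ≤ 3 / 2 := by
    rw [Real.sqrt_le_left (by norm_num)]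
    norm_num
  have h0 : 0 < Real.sqrt 2 := by positivity
  have hπ : Real.sqrt 2 < Real.pi := by linarith [Real.pi_gt_three]
  have hR0 : 0 ≤ Rw (Real.sqrt 2) 0 := Rw_nonneg _ h0 hπ 0
  have hI1 : 0 ≤ ∫ α in (0 : ℝ)..1, α * Rw (Real.sqrt 2) α := I1_nonneg _ h0 hπ
  have hr : 0 < Rw (Real.sqrt 2) (1 / 4) := Rw_quarter_pos _ h0 h2
  obtain ⟨δ, hδ, hδ1, hcon⟩ := const_choice μ (ε / 2) hμ (by positivity) _ _ _ hR0 hI1 hr Rw_MT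
  set R0 : ℝ := Rw (Real.sqrt 2) 0 with hR0d
  set r : ℝ := Rw (Real.sqrt 2) (1 / 4) with hrd
  set I1 : ℝ := ∫ α in (0 : ℝ)..1, α * Rw (Real.sqrt 2) α with hI1d
  have hβ : 0 < 1 - δ := by linarith
  have hc' : 0 ≤ 2 * (1 - δ) * I1 + (R0 / r) * (4 * δ / (1 - δ)) * (2 * (4 * δ) * I1) / μ := by
    positivity
  obtain ⟨K, η, X0, hK, hη, hX0, h⟩ := final_core_Bw W hW1 hW2 (Real.sqrt 2) (1 - δ) _ μ h0 hπ hβ
    hc' hR0 (HYB_of (Real.sqrt 2) δ μ h0 hπ hδ hδ1 hμ hr) (ε / 2) (by positivity)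
  refine ⟨K, η, X0, hK, hη, hX0, ?_⟩
  intro X Y T a1 a2 a3 a4 a5 B hB hm
  have b1 := h X Y T a1 a2 a3 a4 a5 B hB hm
  refine LE.le.trans (show sB B (fun p => SW W (LF p.1 p.2) T) ≤ _ from b1) ?_
  have hN : 0 ≤ sB B (fun p => (NN (LF p.1 p.2) T (2 * T) : ℝ)) :=
    Finset.sum_nonneg fun _ _ => by positivity
  refine mul_le_mul_of_nonneg_right ?_ hN
  linarith

/-- the characters for which the weighted inequality fails are few -/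
theorem few_bad (W : (ℂ → ℂ) → ℂ → ℝ)
    (hW1 : ∀ F s, 1 ≤ mult F s → W F s ≤ 4 * (mult F s : ℝ) - kk F s)
    (hW2 : ∀ F s, 1 ≤ mult F s → W F s ≤ 3 * (mult F s : ℝ)) (ε : ℝ) (hε : 0 < ε) :
    ∃ K η X0 : ℝ, 1 ≤ K ∧ 0 < η ∧ 1 ≤ X0 ∧
    ∀ (X Y : ℕ) (T : ℝ), X0 ≤ X → K * X ≤ Y → (Y : ℝ) ≤ (X : ℝ) ^ (1 + η) →
      (Real.log X) ^ 2 ≤ T → T ≤ (X : ℝ) ^ η →
      ∀ B : Finset IX, B ⊆ primSet X Y →
      (∀ p ∈ B, (1.3275 + ε) * (NN (LF p.1 p.2) T (2 * T) : ℝ) < SW W (LF p.1 p.2) T) →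
      mB B ≤ ε * WW X Y := by
  obtain ⟨K, η, X0, hK, hη, hX0, h⟩ := subset_w W hW1 hW2 ε ε hε hε
  refine ⟨K, η, X0, hK, hη, hX0, ?_⟩
  intro X Y T a1 a2 a3 a4 a5 B hB hbad
  by_contra hcon
  push Not at hcon
  have h1 := h X Y T a1 a2 a3 a4 a5 B hB hcon.le
  have hW : 0 ≤ WW X Y := primFam_nonneg _ _ _ (fun _ _ => zero_le_one)
  have hne : B.Nonempty := by
    rw [Finset.nonempty_iff_ne_empty]
    rintro rfl
    unfold mB at hcon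
    rw [Finset.sum_empty] at hcon
    have : 0 ≤ ε * WW X Y := by positivity
    linarith
  have h2 : (1.3275 + ε) * sB B (fun p => (NN (LF p.1 p.2) T (2 * T) : ℝ)) <
      sB B (fun p => SW W (LF p.1 p.2) T) := by
    unfold sB
    rw [Finset.mul_sum]
    refine Finset.sum_lt_sum_of_nonempty hne fun p hp => ?_
    have hp1 := ((mem_primSet X Y p).1 (hB hp)).1
    have hp0 : (0 : ℝ) < p.1 := by exact_mod_cast (show 0 < p.1 by omega)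
    have := mul_lt_mul_of_pos_left (hbad p hp) (show 0 < 1 / (p.1 : ℝ) ^ 2 by positivity)
    linarith
  linarith

/-- almost all characters have many zeros of both kinds -/
theorem ae_balanced (ε : ℝ) (hε : 0 < ε) : ∃ K η X0 : ℝ, 1 ≤ K ∧ 0 < η ∧ 1 ≤ X0 ∧
    ∀ (X Y : ℕ) (T : ℝ), X0 ≤ X → K * X ≤ Y → (Y : ℝ) ≤ (X : ℝ) ^ (1 + η) →
      (Real.log X) ^ 2 ≤ T → T ≤ (X : ℝ) ^ η →
      ∀ p1 p2 : (q : ℕ) → DirichletCharacter ℂ q → ℕ,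
      (∀ (q : ℕ) (χ : DirichletCharacter ℂ q), X < q → q ≤ Y → χ.IsPrimitive →
        Balanced (LF q χ) T (p1 q χ) ∧ Balanced (LF q χ) T (p2 q χ)) →
      ∀ B : Finset IX, B ⊆ primSet X Y →
      (∀ p ∈ B, (p1 p.1 p.2 : ℝ) < (0.3362 - ε) * (NN (LF p.1 p.2) T (2 * T) : ℝ) ∨
        (p2 p.1 p.2 : ℝ) < (0.3362 - ε) * (NN (LF p.1 p.2) T (2 * T) : ℝ)) →
      mB B ≤ ε * WW X Y := by
  obtain ⟨K, η, X1, hK, hη, hX1, hmain⟩ := few_bad WE WE1 WE2 ε hε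
  obtain ⟨X2, hX2, hmany⟩ := fam_many (1 / ε)
  refine ⟨K, min η 1, max X1 X2, hK, lt_min hη one_pos, hX2.trans (le_max_right _ _), ?_⟩
  intro X Y T hX hKX hY hT1 hT2 p1 p2 hp B hB hbad
  have hXX1 : X1 ≤ X := (le_max_left _ _).trans hX
  have hXX2 : X2 ≤ X := (le_max_right _ _).trans hX
  have hX1r : (1 : ℝ) ≤ X := hX2.trans hXX2
  obtain ⟨hTone, hN⟩ := hmany X Y T (min η 1) hXX2 (lt_min hη one_pos) (min_le_right _ _) hY hT1 hT2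
  refine hmain X Y T hXX1 hKX
    (hY.trans (Real.rpow_le_rpow_of_exponent_le hX1r (by linarith [min_le_left η 1]))) hT1
    (hT2.trans (Real.rpow_le_rpow_of_exponent_le hX1r (min_le_left _ _))) B hB fun z hz => ?_
  obtain ⟨q, χ⟩ := z
  obtain ⟨hq1, hq2, hχ⟩ := (mem_primSet X Y ⟨q, χ⟩).mp (hB hz)
  simp only at hq1 hq2 hχ
  have hq : NeZero q := ⟨by omega⟩
  have hg : H370.GoodL (LF q χ) := by rw [LF_eq]; exact H370.good_dirichlet χ hχ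
  have hn := hN q χ hq1 hq2 hχ
  rw [div_le_iff₀ hε] at hn
  obtain ⟨hb1, hb2⟩ := hp q χ hq1 hq2 hχ
  have key : ∀ p : ℕ, Balanced (LF q χ) T p →
      (p : ℝ) < (0.3362 - ε) * (NN (LF q χ) T (2 * T) : ℝ) →
      (1.3275 + ε) * (NN (LF q χ) T (2 * T) : ℝ) < SW WE (LF q χ) T := by
    intro p hb h
    have hb' : (Ns (LF q χ) T (2 * T) : ℝ) ≤ 2 * (p : ℝ) + 1 + (W69DZ.EX (LF q χ) T (2 * T) : ℝ) := by
      unfold RA.Balanced at hb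
      exact_mod_cast hb
    rw [SW_WE hg hTone]
    have hNn : (0 : ℝ) ≤ (NN (LF q χ) T (2 * T) : ℝ) := Nat.cast_nonneg _
    linarith
  rcases hbad ⟨q, χ⟩ hz with h | h
  · exact key _ hb1 h
  · exact key _ hb2 h

end Pool.Agent.R321.RE
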