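import Pool.Agent.R321.RC1
import Pool.Agent.H385R2.PrimLS

/-!
# The fourth moment of sums over primes over the family of all primitive characters
-/

open Complex Filter Topology Set MeasureTheory

set_option maxHeartbeats 4000000

namespace Pool.Agent.R321.RE

open H385 Pool.Agent.R321.RC

/-- the coefficients of the product of two sums over primes -/
noncomputable def pc (S : Finset ℕ) (a b : ℕ → ℂ) (k : ℕ) : ℂ :=
  ∑ x ∈ (S ×ˢ S).filter (fun x => x.1 * x.2 = k), a x.1 * b x.2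

lemma pc_maps {S : Finset ℕ} {N : ℕ} (hS : ∀ p ∈ S, p.Prime ∧ p ≤ N) :
    ∀ x ∈ S ×ˢ S, x.1 * x.2 ∈ Finset.Icc 1 (N * N) := by
  intro x hx
  rw [Finset.mem_product] at hx
  obtain ⟨h1, h2⟩ := hS _ hx.1
  obtain ⟨h3, h4⟩ := hS _ hx.2
  rw [Finset.mem_Icc]
  exact ⟨Nat.mul_pos h1.pos h3.pos, Nat.mul_le_mul h2 h4⟩

lemma pc_sum {S : Finset ℕ} {N : ℕ} (hS : ∀ p ∈ S, p.Prime ∧ p ≤ N) (a b : ℕ → ℂ) {q : ℕ}
    (χ : DirichletCharacter ℂ q) :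
    ∑ k ∈ Finset.Icc 1 (N * N), pc S a b k * χ (k : ZMod q) =
      (∑ p ∈ S, a p * χ (p : ZMod q)) * (∑ r ∈ S, b r * χ (r : ZMod q)) := by
  rw [Finset.sum_mul_sum, ← Finset.sum_product',
    ← Finset.sum_fiberwise_of_maps_to (g := fun x : ℕ × ℕ => x.1 * x.2) (pc_maps hS)]
  refine Finset.sum_congr rfl fun k _ => ?_
  unfold pc
  rw [Finset.sum_mul]
  refine Finset.sum_congr rfl fun x hx => ?_
  rw [Finset.mem_filter] at hx
  rw [← hx.2, Nat.cast_mul, map_mul]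
  ring

lemma prime_pair {p r p' r' : ℕ} (hp : p.Prime) (hr : r.Prime) (hp' : p'.Prime)
    (h : p' * r' = p * r) : (p' = p ∧ r' = r) ∨ (p' = r ∧ r' = p) := by
  have h1 : p' ∣ p * r := ⟨r', h.symm⟩
  rcases (Nat.Prime.dvd_mul hp').1 h1 with h2 | h2
  · left
    have h3 : p' = p := (Nat.prime_dvd_prime_iff_eq hp' hp).1 h2
    subst h3
    exact ⟨rfl, Nat.eq_of_mul_eq_mul_left hp'.pos h⟩
  · right
    have h3 : p' = r := (Nat.prime_dvd_prime_iff_eq hp' hr).1 h2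
    subst h3
    rw [mul_comm p p'] at h
    exact ⟨rfl, Nat.eq_of_mul_eq_mul_left hp'.pos h⟩

lemma pc_sq {S : Finset ℕ} {N : ℕ} (hS : ∀ p ∈ S, p.Prime ∧ p ≤ N) (a b : ℕ → ℂ) :
    ∑ k ∈ Finset.Icc 1 (N * N), ‖pc S a b k‖ ^ 2 ≤
      (∑ p ∈ S, ‖a p‖ ^ 2) * (∑ p ∈ S, ‖b p‖ ^ 2) + ‖∑ p ∈ S, a p * (starRingEnd ℂ) (b p)‖ ^ 2 := by
  set f : ℕ × ℕ → ℂ := fun x => a x.1 * b x.2 with hf
  have e1 : ∀ k, ((‖pc S a b k‖ ^ 2 : ℝ) : ℂ) =
      ∑ x ∈ (S ×ˢ S).filter (fun x => x.1 * x.2 = k),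
        ∑ y ∈ (S ×ˢ S).filter (fun y => y.1 * y.2 = x.1 * x.2), f x * (starRingEnd ℂ) (f y) := by
    intro k
    have e : ((‖pc S a b k‖ ^ 2 : ℝ) : ℂ) = pc S a b k * (starRingEnd ℂ) (pc S a b k) := by
      rw [Complex.mul_conj, Complex.normSq_eq_norm_sq]
    rw [e]
    unfold pc
    rw [map_sum, Finset.sum_mul_sum]
    refine Finset.sum_congr rfl fun x hx => ?_
    rw [Finset.mem_filter] at hx
    rw [hx.2]
  have e2 : ((∑ k ∈ Finset.Icc 1 (N * N), ‖pc S a b k‖ ^ 2 : ℝ) : ℂ) =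
      ∑ x ∈ S ×ˢ S, ∑ y ∈ (S ×ˢ S).filter (fun y => y.1 * y.2 = x.1 * x.2),
        f x * (starRingEnd ℂ) (f y) := by
    rw [Complex.ofReal_sum, Finset.sum_congr rfl fun k _ => e1 k,
      Finset.sum_fiberwise_of_maps_to (g := fun x : ℕ × ℕ => x.1 * x.2) (pc_maps hS)]
  have e3 : ∀ x ∈ S ×ˢ S, ∑ y ∈ (S ×ˢ S).filter (fun y => y.1 * y.2 = x.1 * x.2),
        f x * (starRingEnd ℂ) (f y) = f x * (starRingEnd ℂ) (f x) +
        f x * (starRingEnd ℂ) (f x.swap) - (if x.1 = x.2 then ((‖f x‖ ^ 2 : ℝ) : ℂ) else 0) := by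
    intro x hx
    obtain ⟨p, r⟩ := x
    rw [Finset.mem_product] at hx
    obtain ⟨hx1, hx2⟩ := hx
    simp only at hx1 hx2
    have hfil : (S ×ˢ S).filter (fun y => y.1 * y.2 = p * r) = {(p, r), (r, p)} := by
      ext y
      obtain ⟨p', r'⟩ := y
      simp only [Finset.mem_filter, Finset.mem_product, Finset.mem_insert, Finset.mem_singleton,
        Prod.mk.injEq]
      constructor
      · rintro ⟨⟨h1, h2⟩, h3⟩
        exact prime_pair (hS _ hx1).1 (hS _ hx2).1 (hS _ h1).1 h3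
      · rintro (⟨rfl, rfl⟩ | ⟨rfl, rfl⟩)
        · exact ⟨⟨hx1, hx2⟩, rfl⟩
        · exact ⟨⟨hx2, hx1⟩, mul_comm _ _⟩
    simp only [Prod.swap_prod_mk]
    rw [hfil]
    by_cases h : p = r
    · subst h
      rw [if_pos rfl, Finset.insert_eq_of_mem (Finset.mem_singleton.2 rfl), Finset.sum_singleton]
      have : f (p, p) * (starRingEnd ℂ) (f (p, p)) = ((‖f (p, p)‖ ^ 2 : ℝ) : ℂ) := by
        rw [Complex.mul_conj, Complex.normSq_eq_norm_sq]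
      rw [this]
      ring
    · rw [if_neg h, Finset.sum_pair (by
        intro h1
        rw [Prod.mk.injEq] at h1
        exact h h1.1)]
      ring
  rw [Finset.sum_congr rfl e3, Finset.sum_sub_distrib, Finset.sum_add_distrib] at e2
  have e4 : ∑ x ∈ S ×ˢ S, f x * (starRingEnd ℂ) (f x) =
      (((∑ p ∈ S, ‖a p‖ ^ 2) * (∑ p ∈ S, ‖b p‖ ^ 2) : ℝ) : ℂ) := by
    rw [Finset.sum_mul_sum, ← Finset.sum_product', Complex.ofReal_sum]
    refine Finset.sum_congr rfl fun x _ => ?_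
    rw [Complex.mul_conj, Complex.normSq_eq_norm_sq, hf]
    simp only
    rw [norm_mul, mul_pow]
  have e5 : ∑ x ∈ S ×ˢ S, f x * (starRingEnd ℂ) (f x.swap) =
      ((‖∑ p ∈ S, a p * (starRingEnd ℂ) (b p)‖ ^ 2 : ℝ) : ℂ) := by
    have : ((‖∑ p ∈ S, a p * (starRingEnd ℂ) (b p)‖ ^ 2 : ℝ) : ℂ) =
        (∑ p ∈ S, a p * (starRingEnd ℂ) (b p)) *
          (starRingEnd ℂ) (∑ p ∈ S, a p * (starRingEnd ℂ) (b p)) := by
      rw [Complex.mul_conj, Complex.normSq_eq_norm_sq]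
    rw [this, map_sum, Finset.sum_mul_sum, ← Finset.sum_product']
    refine Finset.sum_congr rfl fun x _ => ?_
    rw [hf]
    simp only [Prod.fst_swap, Prod.snd_swap, map_mul, Complex.conj_conj]
    ring
  have e6 : ∑ x ∈ S ×ˢ S, (if x.1 = x.2 then ((‖f x‖ ^ 2 : ℝ) : ℂ) else 0) =
      ((∑ x ∈ S ×ˢ S, (if x.1 = x.2 then ‖f x‖ ^ 2 else 0) : ℝ) : ℂ) := by
    rw [Complex.ofReal_sum]
    refine Finset.sum_congr rfl fun x _ => ?_
    split_ifs <;> simp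
  rw [e4, e5, e6] at e2
  have e7 : ∑ k ∈ Finset.Icc 1 (N * N), ‖pc S a b k‖ ^ 2 =
      (∑ p ∈ S, ‖a p‖ ^ 2) * (∑ p ∈ S, ‖b p‖ ^ 2) + ‖∑ p ∈ S, a p * (starRingEnd ℂ) (b p)‖ ^ 2 -
        ∑ x ∈ S ×ˢ S, (if x.1 = x.2 then ‖f x‖ ^ 2 else 0) := by
    exact_mod_cast e2
  rw [e7]
  have : 0 ≤ ∑ x ∈ S ×ˢ S, (if x.1 = x.2 then ‖f x‖ ^ 2 else 0) :=
    Finset.sum_nonneg fun x _ => by split_ifs <;> positivity
  linarith

lemma pc_err {S : Finset ℕ} {N : ℕ} (hS : ∀ p ∈ S, p.Prime ∧ p ≤ N) (a b : ℕ → ℂ) (q : ℕ) :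
    ∑ k ∈ (Finset.Icc 1 (N * N)).filter (fun k => ¬ Nat.Coprime k q), ‖pc S a b k‖ ≤
      (∑ p ∈ S, if p ∣ q then ‖a p‖ else 0) * (∑ p ∈ S, ‖b p‖) +
      (∑ p ∈ S, ‖a p‖) * (∑ p ∈ S, if p ∣ q then ‖b p‖ else 0) := by
  have h1 : ∑ k ∈ (Finset.Icc 1 (N * N)).filter (fun k => ¬ Nat.Coprime k q), ‖pc S a b k‖ ≤
      ∑ k ∈ Finset.Icc 1 (N * N), ∑ x ∈ (S ×ˢ S).filter (fun x => x.1 * x.2 = k),
        ((if x.1 ∣ q then ‖a x.1‖ else 0) * ‖b x.2‖ + ‖a x.1‖ * (if x.2 ∣ q then ‖b x.2‖ else 0)) := by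
    rw [Finset.sum_filter]
    refine Finset.sum_le_sum fun k _ => ?_
    by_cases hk : ¬ Nat.Coprime k q
    · rw [if_pos hk]
      unfold pc
      refine (norm_sum_le _ _).trans (Finset.sum_le_sum fun x hx => ?_)
      rw [Finset.mem_filter, Finset.mem_product] at hx
      obtain ⟨⟨hx1, hx2⟩, hx3⟩ := hx
      rw [norm_mul]
      have hp1 := (hS _ hx1).1
      have hp2 := (hS _ hx2).1
      have hor : x.1 ∣ q ∨ x.2 ∣ q := by
        by_contra hcon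
        rw [not_or] at hcon
        apply hk
        rw [← hx3]
        exact Nat.Coprime.mul_left ((Nat.Prime.coprime_iff_not_dvd hp1).2 hcon.1)
          ((Nat.Prime.coprime_iff_not_dvd hp2).2 hcon.2)
      have n1 : 0 ≤ ‖a x.1‖ := norm_nonneg _
      have n2 : 0 ≤ ‖b x.2‖ := norm_nonneg _
      rcases hor with h | h
      · rw [if_pos h]
        have : 0 ≤ ‖a x.1‖ * (if x.2 ∣ q then ‖b x.2‖ else 0) := by split_ifs <;> positivity
        linarith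
      · rw [if_pos h]
        have : 0 ≤ (if x.1 ∣ q then ‖a x.1‖ else 0) * ‖b x.2‖ := by split_ifs <;> positivity
        linarith
    · rw [if_neg hk]
      refine Finset.sum_nonneg fun x _ => ?_
      split_ifs <;> positivity
  refine h1.trans (le_of_eq ?_)
  rw [Finset.sum_fiberwise_of_maps_to (g := fun x : ℕ × ℕ => x.1 * x.2) (pc_maps hS)]
  rw [Finset.sum_add_distrib, Finset.sum_mul_sum, Finset.sum_mul_sum, ← Finset.sum_product',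
    ← Finset.sum_product']

/-- the fourth moment -/
theorem fourth (ε : ℝ) (hε : 0 < ε) (hε1 : ε ≤ 1) : ∃ (C : ℝ) (P : ℕ), 0 < C ∧ 1 ≤ P ∧
    ∀ (X Y N : ℕ) (S : Finset ℕ) (a b : ℕ → ℂ), 1 ≤ X → X ≤ Y →
    (∀ p ∈ S, p.Prime ∧ P < p ∧ p ≤ N) →
    ∑ z ∈ primSet X Y, (1 / (z.1 : ℝ) ^ 2) *
      (‖∑ p ∈ S, a p * z.2 (p : ZMod z.1)‖ ^ 2 * ‖∑ p ∈ S, b p * z.2 (p : ZMod z.1)‖ ^ 2) ≤
      (1 + ε) * Real.exp (Real.pi * (N * N : ℕ) / (X : ℝ) ^ 2) *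
        (c0 ^ 2 * (1 + ε) * Real.log ((Y : ℝ) / X) + C) *
        ((∑ p ∈ S, ‖a p‖ ^ 2) * (∑ p ∈ S, ‖b p‖ ^ 2) +
          ‖∑ p ∈ S, a p * (starRingEnd ℂ) (b p)‖ ^ 2) +
      (2 / ε) * ∑ q ∈ Finset.Ioc X (P * Y), (1 / (q : ℝ)) *
        ((∑ p ∈ S, if p ∣ q then ‖a p‖ else 0) * (∑ p ∈ S, ‖b p‖) +
          (∑ p ∈ S, ‖a p‖) * (∑ p ∈ S, if p ∣ q then ‖b p‖ else 0)) ^ 2 := by
  obtain ⟨P, hsf, hD⟩ := PrimLS.euler_exists ε hε
  obtain ⟨C1, hC1, hflat⟩ := flat_ls P hsf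
  have hc0 : 0 < c0 := by unfold c0; positivity
  have hP1 : 1 ≤ P := Nat.one_le_iff_ne_zero.mpr hsf.ne_zero
  refine ⟨C1, P, hC1, hP1, ?_⟩
  intro X Y N S a b hX hXY hS
  have hX0 : (0 : ℝ) < X := by exact_mod_cast hX
  have hlog : 0 ≤ Real.log ((Y : ℝ) / X) := by
    apply Real.log_nonneg
    rw [le_div_iff₀ hX0, one_mul]
    exact_mod_cast hXY
  have hS' : ∀ p ∈ S, p.Prime ∧ p ≤ N := fun p hp => ⟨(hS p hp).1, (hS p hp).2.2⟩
  have hb : ∀ n, ¬ Nat.Coprime n P → pc S a b n = 0 := by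
    intro n hn
    unfold pc
    refine Finset.sum_eq_zero fun x hx => ?_
    exfalso
    rw [Finset.mem_filter, Finset.mem_product] at hx
    obtain ⟨⟨hx1, hx2⟩, hx3⟩ := hx
    apply hn
    rw [← hx3]
    obtain ⟨p1, p2, _⟩ := hS _ hx1
    obtain ⟨r1, r2, _⟩ := hS _ hx2
    exact Nat.Coprime.mul_left
      ((Nat.Prime.coprime_iff_not_dvd p1).2 fun h => by
        have := Nat.le_of_dvd (by omega) h; omega)
      ((Nat.Prime.coprime_iff_not_dvd r1).2 fun h => by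
        have := Nat.le_of_dvd (by omega) h; omega)
  have h := hflat X Y (N * N) (pc S a b) hX hXY hb ε hε hε1
  have e1 : ∑ z ∈ primSet X Y, (1 / (z.1 : ℝ) ^ 2) *
      (‖∑ p ∈ S, a p * z.2 (p : ZMod z.1)‖ ^ 2 * ‖∑ p ∈ S, b p * z.2 (p : ZMod z.1)‖ ^ 2) =
      primFam X Y (fun q χ => ‖∑ n ∈ Finset.Icc 1 (N * N), pc S a b n * χ (n : ZMod q)‖ ^ 2) := by
    rw [primFam_eq]
    refine Finset.sum_congr rfl fun z _ => ?_
    rw [pc_sum hS' a b z.2, norm_mul, mul_pow]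
  rw [e1]
  refine h.trans (add_le_add ?_ ?_)
  · have h1 : c0 * (∏ p ∈ P.primeFactors, (1 - 1 / (p : ℝ) ^ 2)) * Real.log ((Y : ℝ) / X) + C1 ≤
        c0 ^ 2 * (1 + ε) * Real.log ((Y : ℝ) / X) + C1 := by
      have := mul_le_mul_of_nonneg_right (mul_le_mul_of_nonneg_left hD hc0.le) hlog
      nlinarith
    have h2 : 0 ≤ (1 + ε) * Real.exp (Real.pi * (N * N : ℕ) / (X : ℝ) ^ 2) := by positivity
    have h3 : 0 ≤ c0 ^ 2 * (1 + ε) * Real.log ((Y : ℝ) / X) + C1 := by positivity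
    refine mul_le_mul (mul_le_mul_of_nonneg_left h1 h2) (pc_sq hS' a b)
      (Finset.sum_nonneg fun _ _ => by positivity) (mul_nonneg h2 h3)
  · refine mul_le_mul_of_nonneg_left ?_ (by positivity)
    refine Finset.sum_le_sum fun q _ => mul_le_mul_of_nonneg_left ?_ (by positivity)
    exact pow_le_pow_left₀ (Finset.sum_nonneg fun _ _ => norm_nonneg _) (pc_err hS' a b q) 2

end Pool.Agent.R321.RE
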