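import Pool.Agent.H385R2.Cut

/-!
# The inner products of the functions `bt`
-/

open Complex Filter Topology Set MeasureTheory

set_option maxHeartbeats 4000000

namespace Pool.Agent.R321.RE

open H385 H385.Cut

noncomputable def ga (a v : ℝ) : ℂ := (Real.exp (-v ^ 2 / 4) : ℂ) * cexp (-(I * (v / 2) * a))

noncomputable def Ha (T a t : ℝ) : ℂ := ∫ v in (t - 2 * T)..(t - T), ga a v

lemma ga_cont (a : ℝ) : Continuous (ga a) := by
  unfold ga
  fun_prop

lemma ga_norm (a v : ℝ) : ‖ga a v‖ = Real.exp (-(1 / 4) * v ^ 2) := by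
  unfold ga
  rw [norm_mul, Complex.norm_real, Real.norm_of_nonneg (Real.exp_pos _).le]
  have : (-(I * (v / 2) * a) : ℂ) = ((-(v / 2 * a) : ℝ) : ℂ) * I := by
    push_cast; ring
  rw [this, Complex.norm_exp_ofReal_mul_I, mul_one]
  congr 1
  ring

lemma JJ_eq (T u t ℓ : ℝ) :
    JJ T u t ℓ = cexp (I * t * ((u - ℓ : ℝ) : ℂ)) * Ha T (u - ℓ) t := by
  unfold JJ Ha
  rw [← intervalIntegral.integral_const_mul, ← intervalIntegral.integral_comp_sub_left
    (fun v => cexp (I * t * ((u - ℓ : ℝ) : ℂ)) * ga (u - ℓ) v) t]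
  apply intervalIntegral.integral_congr
  intro τ _
  simp only [ga]
  have h1 : (Real.exp (-(t - τ) ^ 2 / 4) : ℂ) * cexp (I * ((t + τ) / 2) * (u - ℓ)) =
      (Real.exp (-(t - τ) ^ 2 / 4) : ℂ) * (cexp (I * t * ((u - ℓ : ℝ) : ℂ)) *
        cexp (-(I * (((t - τ : ℝ) : ℂ) / 2) * ((u - ℓ : ℝ) : ℂ)))) := by
    rw [← Complex.exp_add]
    congr 2
    push_cast
    ring
  rw [h1]
  ring

lemma Ha_deriv (T a t : ℝ) : HasDerivAt (Ha T a) (ga a (t - T) - ga a (t - 2 * T)) t := by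
  set G : ℝ → ℂ := fun x => ∫ v in (0 : ℝ)..x, ga a v with hG
  have h1 : ∀ x, HasDerivAt G (ga a x) x := fun x =>
    ((ga_cont a).integral_hasStrictDerivAt 0 x).hasDerivAt
  have h2 : Ha T a = fun t => G (t - T) - G (t - 2 * T) := by
    funext x
    unfold Ha
    rw [hG]
    simp only
    rw [intervalIntegral.integral_interval_sub_left ((ga_cont a).intervalIntegrable _ _)
      ((ga_cont a).intervalIntegrable _ _)]
  rw [h2]
  have h3 : HasDerivAt (fun t : ℝ => G (t - T)) (ga a (t - T)) t := by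
    have := (h1 (t - T)).comp_sub_const t T
    exact this
  have h4 : HasDerivAt (fun t : ℝ => G (t - 2 * T)) (ga a (t - 2 * T)) t :=
    (h1 (t - 2 * T)).comp_sub_const t (2 * T)
  exact h3.sub h4

lemma Ha_cont (T a : ℝ) : Continuous (Ha T a) :=
  continuous_iff_continuousAt.2 fun t => (Ha_deriv T a t).continuousAt

lemma Ha_norm (T a t : ℝ) : ‖Ha T a t‖ = ‖JJ T 0 t (-a)‖ := by
  have h := JJ_eq T 0 t (-a)
  rw [sub_neg_eq_add, zero_add] at h
  rw [h, norm_mul]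
  have : (I * t * (a : ℂ)) = ((t * a : ℝ) : ℂ) * I := by push_cast; ring
  rw [this, Complex.norm_exp_ofReal_mul_I, one_mul]

lemma Ha_le (T a t : ℝ) (hT : 0 ≤ T) : ‖Ha T a t‖ ≤ 2 * Real.sqrt Real.pi * wt T t := by
  rw [Ha_norm T a t]
  refine (JJ_le T 0 t (-a) hT).trans (le_of_eq ?_)
  rw [wt_eq]
  have : Real.sqrt Real.pi ≠ 0 := (Real.sqrt_pos.2 Real.pi_pos).ne'
  field_simp

lemma Ha_le' (T a t : ℝ) (hT : 0 ≤ T) : ‖Ha T a t‖ ≤ 2 * Real.sqrt Real.pi := by
  refine (Ha_le T a t hT).trans ?_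
  have h1 := wt_le_one T t hT
  have h2 : 0 < Real.sqrt Real.pi := Real.sqrt_pos.2 Real.pi_pos
  nlinarith

/-- oscillatory integral -/
lemma osc (T a b δ : ℝ) (hT : 0 ≤ T) (hδ : δ ≠ 0) :
    ‖∫ t : ℝ, cexp (I * t * δ) * (Ha T a t * (starRingEnd ℂ) (Ha T b t))‖ ≤
      16 * Real.pi / |δ| := by
  have hpi := Real.pi_pos
  have hsq : Real.sqrt Real.pi * Real.sqrt Real.pi = Real.pi := Real.mul_self_sqrt hpi.le
  set s : ℝ := Real.sqrt Real.pi with hs
  have hs0 : 0 < s := Real.sqrt_pos.2 hpi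
  set F : ℝ → ℂ := fun t => Ha T a t * (starRingEnd ℂ) (Ha T b t) with hF
  set da : ℝ → ℂ := fun t => ga a (t - T) - ga a (t - 2 * T) with hda
  set db : ℝ → ℂ := fun t => ga b (t - T) - ga b (t - 2 * T) with hdb
  set F' : ℝ → ℂ := fun t => da t * (starRingEnd ℂ) (Ha T b t) +
    Ha T a t * (starRingEnd ℂ) (db t) with hF'
  have hFd : ∀ t, HasDerivAt F (F' t) t := by
    intro t
    have h1 := Ha_deriv T a t
    have h2 : HasDerivAt (fun t => (starRingEnd ℂ) (Ha T b t)) ((starRingEnd ℂ) (db t)) t := by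
      have h3 := Complex.conjCLE.toContinuousLinearMap.hasFDerivAt.comp_hasDerivAt t (Ha_deriv T b t)
      exact h3
    exact h1.mul h2
  set v : ℝ → ℂ := fun t => cexp (I * t * δ) / (I * δ) with hv
  have hIδ : (I * (δ : ℂ)) ≠ 0 := mul_ne_zero I_ne_zero (by exact_mod_cast hδ)
  have hvd : ∀ t : ℝ, HasDerivAt v (cexp (I * t * δ)) t := by
    intro t
    have h1 : HasDerivAt (fun t : ℝ => I * (t : ℂ) * δ) (I * δ) t := by
      have h2 : HasDerivAt (fun t : ℝ => (t : ℂ)) 1 t := Complex.ofRealCLM.hasDerivAt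
      have h3 := (h2.const_mul I).mul_const (δ : ℂ)
      rw [mul_one] at h3
      exact h3
    have h4 := (h1.cexp).div_const (I * (δ : ℂ))
    rw [mul_div_assoc, div_self hIδ, mul_one] at h4
    exact h4
  have hvn : ∀ t, ‖v t‖ = 1 / |δ| := by
    intro t
    rw [hv]
    simp only
    rw [norm_div, norm_mul, Complex.norm_I, one_mul, Complex.norm_real, Real.norm_eq_abs]
    have : (I * t * δ : ℂ) = ((t * δ : ℝ) : ℂ) * I := by push_cast; ring
    rw [this, Complex.norm_exp_ofReal_mul_I]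
  have hen : ∀ t : ℝ, ‖cexp (I * t * δ)‖ = 1 := by
    intro t
    have : (I * t * δ : ℂ) = ((t * δ : ℝ) : ℂ) * I := by push_cast; ring
    rw [this, Complex.norm_exp_ofReal_mul_I]
  have hFc : Continuous F := (Ha_cont T a).mul (Complex.continuous_conj.comp (Ha_cont T b))
  have hdac : Continuous da := by
    rw [hda]
    have := ga_cont a
    fun_prop
  have hdbc : Continuous db := by
    rw [hdb]
    have := ga_cont b
    fun_prop
  have hF'c : Continuous F' := (hdac.mul (Complex.continuous_conj.comp (Ha_cont T b))).add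
    ((Ha_cont T a).mul (Complex.continuous_conj.comp hdbc))
  have hvc : Continuous v := by
    rw [hv]
    fun_prop
  have hec : Continuous (fun t : ℝ => cexp (I * t * δ)) := by fun_prop
  -- integrability
  have hFi : Integrable F := by
    refine Integrable.mono' ((wt_integrable T hT).const_mul (4 * Real.pi)) hFc.aestronglyMeasurable
      (Eventually.of_forall fun t => ?_)
    rw [hF]
    simp only
    rw [norm_mul, RCLike.norm_conj]
    have h1 := Ha_le T a t hT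
    have h2 := Ha_le' T b t hT
    have hw := wt_nonneg T t hT
    calc ‖Ha T a t‖ * ‖Ha T b t‖ ≤ (2 * s * wt T t) * (2 * s) :=
          mul_le_mul h1 h2 (norm_nonneg _) (by positivity)
      _ = 4 * (s * s) * wt T t := by ring
      _ = _ := by rw [hsq]
  set g : ℝ → ℝ := fun t => Real.exp (-(1 / 4) * (t - T) ^ 2) + Real.exp (-(1 / 4) * (t - 2 * T) ^ 2)
    with hg
  have hgi : Integrable g := (int_gauss_shift hq T).add (int_gauss_shift hq (2 * T))
  have hgI : ∫ t, g t = 4 * s := by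
    rw [hg, integral_add (int_gauss_shift hq T) (int_gauss_shift hq (2 * T)), integral_gauss_shift,
      integral_gauss_shift, sqrt_pi_quarter]
    ring
  have hdn : ∀ c t, ‖ga c (t - T) - ga c (t - 2 * T)‖ ≤ g t := by
    intro c t
    refine (norm_sub_le _ _).trans ?_
    rw [ga_norm, ga_norm]
  have hF'n : ∀ t, ‖F' t‖ ≤ 4 * s * g t := by
    intro t
    rw [hF']
    simp only
    refine (norm_add_le _ _).trans ?_
    rw [norm_mul, norm_mul, RCLike.norm_conj, RCLike.norm_conj]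
    have h1 : ‖da t‖ ≤ g t := hdn a t
    have h2 : ‖db t‖ ≤ g t := hdn b t
    have h3 := Ha_le' T a t hT
    have h4 := Ha_le' T b t hT
    have hg0 : 0 ≤ g t := (norm_nonneg _).trans h1
    have h5 : ‖da t‖ * ‖Ha T b t‖ ≤ g t * (2 * s) := mul_le_mul h1 h4 (norm_nonneg _) hg0
    have h6 : ‖Ha T a t‖ * ‖db t‖ ≤ (2 * s) * g t := mul_le_mul h3 h2 (norm_nonneg _) (by positivity)
    linarith
  have hF'i : Integrable F' :=
    Integrable.mono' (hgi.const_mul (4 * s)) hF'c.aestronglyMeasurable (Eventually.of_forall hF'n)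
  have i1 : Integrable (F * fun t : ℝ => cexp (I * t * δ)) := by
    refine Integrable.mono' hFi.norm (hFc.mul hec).aestronglyMeasurable
      (Eventually.of_forall fun t => ?_)
    show ‖F t * cexp (I * t * δ)‖ ≤ ‖F t‖
    rw [norm_mul, hen, mul_one]
  have i2 : Integrable (F' * v) := by
    refine Integrable.mono' (hF'i.norm.mul_const (1 / |δ|)) (hF'c.mul hvc).aestronglyMeasurable
      (Eventually.of_forall fun t => ?_)
    show ‖F' t * v t‖ ≤ ‖F' t‖ * (1 / |δ|)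
    rw [norm_mul, hvn]
  have i3 : Integrable (F * v) := by
    refine Integrable.mono' (hFi.norm.mul_const (1 / |δ|)) (hFc.mul hvc).aestronglyMeasurable
      (Eventually.of_forall fun t => ?_)
    show ‖F t * v t‖ ≤ ‖F t‖ * (1 / |δ|)
    rw [norm_mul, hvn]
  have hparts := integral_mul_deriv_eq_deriv_mul_of_integrable (u := F) (v := v) (u' := F')
    (v' := fun t : ℝ => cexp (I * t * δ)) (fun x _ => hFd x) (fun x _ => hvd x) i1 i2 i3
  have e1 : ∫ t : ℝ, cexp (I * t * δ) * (Ha T a t * (starRingEnd ℂ) (Ha T b t)) =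
      ∫ t : ℝ, F t * cexp (I * t * δ) := by
    congr 1
    funext t
    rw [mul_comm]
  rw [e1, hparts, norm_neg]
  refine (norm_integral_le_integral_norm _).trans ?_
  have h1 : ∫ t : ℝ, ‖F' t * v t‖ ≤ ∫ t : ℝ, (4 * s * g t) * (1 / |δ|) := by
    refine integral_mono i2.norm ((hgi.const_mul _).mul_const _) fun t => ?_
    show ‖F' t * v t‖ ≤ _
    rw [norm_mul, hvn]
    exact mul_le_mul_of_nonneg_right (hF'n t) (by positivity)
  refine h1.trans (le_of_eq ?_)
  rw [integral_mul_const, integral_const_mul, hgI]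
  calc 4 * s * (4 * s) * (1 / |δ|) = 16 * (s * s) * (1 / |δ|) := by ring
    _ = _ := by rw [hsq]; ring

/-- the inner product of two `bt` -/
theorem ip_osc (T u ℓ ℓ' : ℝ) (hT : 0 ≤ T) (h : ℓ ≠ ℓ') :
    ‖∫ t : ℝ, bt T u t ℓ * (starRingEnd ℂ) (bt T u t ℓ')‖ ≤
      Real.exp (-(u - ℓ) ^ 2 / 4) * Real.exp (-(u - ℓ') ^ 2 / 4) * (1 / |ℓ - ℓ'|) := by
  have hpi := Real.pi_pos
  have hsq : Real.sqrt Real.pi ^ 2 = Real.pi := Real.sq_sqrt hpi.le
  have hsq2 : Real.sqrt (2 * Real.pi) ^ 2 = 2 * Real.pi := Real.sq_sqrt (by positivity)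
  set c : ℝ := 1 / (2 * Real.sqrt Real.pi) * (1 / Real.sqrt (2 * Real.pi)) with hc
  have hc2 : c ^ 2 = 1 / (8 * Real.pi ^ 2) := by
    rw [hc, mul_pow, div_pow, div_pow, mul_pow, hsq, hsq2]
    field_simp
    norm_num
  set E1 : ℝ := Real.exp (-(u - ℓ) ^ 2 / 4) with hE1
  set E2 : ℝ := Real.exp (-(u - ℓ') ^ 2 / 4) with hE2
  have e1 : ∀ t, bt T u t ℓ * (starRingEnd ℂ) (bt T u t ℓ') =
      ((c ^ 2 * E1 * E2 : ℝ) : ℂ) * (cexp (I * t * ((ℓ' - ℓ : ℝ) : ℂ)) *
        (Ha T (u - ℓ) t * (starRingEnd ℂ) (Ha T (u - ℓ') t))) := by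
    intro t
    have hb1 : bt T u t ℓ = ((c * E1 : ℝ) : ℂ) * JJ T u t ℓ := bt_eq T u t ℓ
    have hb2 : bt T u t ℓ' = ((c * E2 : ℝ) : ℂ) * JJ T u t ℓ' := bt_eq T u t ℓ'
    rw [hb1, hb2, JJ_eq, JJ_eq, map_mul, map_mul, Complex.conj_ofReal, ← Complex.exp_conj]
    have h2 : cexp (I * t * ((ℓ' - ℓ : ℝ) : ℂ)) = cexp (I * t * ((u - ℓ : ℝ) : ℂ)) *
        cexp ((starRingEnd ℂ) (I * t * ((u - ℓ' : ℝ) : ℂ))) := by
      rw [← Complex.exp_add]
      congr 1
      rw [map_mul, map_mul, Complex.conj_I, Complex.conj_ofReal, Complex.conj_ofReal]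
      push_cast
      ring
    rw [h2]
    clear_value c E1 E2
    push_cast
    ring
  simp_rw [e1]
  rw [integral_const_mul, norm_mul, Complex.norm_real, Real.norm_of_nonneg (by positivity)]
  have h3 := osc T (u - ℓ) (u - ℓ') (ℓ' - ℓ) hT (sub_ne_zero.2 h.symm)
  refine (mul_le_mul_of_nonneg_left h3 (by positivity)).trans ?_
  rw [hc2, abs_sub_comm ℓ' ℓ]
  have h4 : 0 < |ℓ - ℓ'| := abs_pos.2 (sub_ne_zero.2 h)
  have h5 : 1 / (8 * Real.pi ^ 2) * E1 * E2 * (16 * Real.pi / |ℓ - ℓ'|) =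
      (2 / Real.pi) * (E1 * E2 * (1 / |ℓ - ℓ'|)) := by
    field_simp
    ring
  rw [h5]
  have h6 : 2 / Real.pi ≤ 1 := by
    rw [div_le_one hpi]
    linarith [Real.pi_gt_three]
  have h7 : 0 ≤ E1 * E2 * (1 / |ℓ - ℓ'|) := by positivity
  nlinarith

theorem bt_mul_int (T u ℓ ℓ' : ℝ) (hT : 0 ≤ T) :
    Integrable (fun t : ℝ => bt T u t ℓ * (starRingEnd ℂ) (bt T u t ℓ')) := by
  have hpi := Real.pi_pos
  have hc : ∀ ℓ, Continuous (fun t : ℝ => bt T u t ℓ) := fun ℓ =>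
    (bt_cont T ℓ).comp (continuous_const.prodMk continuous_id)
  have h2 : 1 / Real.sqrt (2 * Real.pi) ≤ 1 := by
    rw [div_le_one (by positivity)]
    rw [Real.one_le_sqrt]
    nlinarith [Real.pi_gt_three]
  have hb : ∀ t ℓ, ‖bt T u t ℓ‖ ≤ wt T t := by
    intro t ℓ
    have h1 := bt_norm T u t ℓ hT
    have h3 : Real.exp (-(u - ℓ) ^ 2 / 4) ≤ 1 := by
      rw [Real.exp_le_one_iff]
      nlinarith [sq_nonneg (u - ℓ)]
    have hw := wt_nonneg T t hT
    have h4 : 1 / Real.sqrt (2 * Real.pi) * Real.exp (-(u - ℓ) ^ 2 / 4) ≤ 1 :=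
      mul_le_one₀ h2 (Real.exp_pos _).le h3
    nlinarith
  refine Integrable.mono' (wt_integrable T hT)
    ((hc ℓ).mul (Complex.continuous_conj.comp (hc ℓ'))).aestronglyMeasurable
    (Eventually.of_forall fun t => ?_)
  rw [norm_mul, RCLike.norm_conj]
  have hw := wt_nonneg T t hT
  have hw1 := wt_le_one T t hT
  calc _ ≤ wt T t * wt T t := mul_le_mul (hb t ℓ) (hb t ℓ') (norm_nonneg _) hw
    _ ≤ wt T t * 1 := mul_le_mul_of_nonneg_left hw1 hw
    _ = _ := mul_one _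

theorem ip_triv (T u ℓ ℓ' : ℝ) (hT : 0 ≤ T) :
    ‖∫ t : ℝ, bt T u t ℓ * (starRingEnd ℂ) (bt T u t ℓ')‖ ≤
      Real.exp (-(u - ℓ) ^ 2 / 4) * Real.exp (-(u - ℓ') ^ 2 / 4) * T := by
  have hpi := Real.pi_pos
  have h2 : 1 / Real.sqrt (2 * Real.pi) ≤ 1 := by
    rw [div_le_one (by positivity)]
    rw [Real.one_le_sqrt]
    nlinarith [Real.pi_gt_three]
  have hb : ∀ t ℓ, ‖bt T u t ℓ‖ ≤ Real.exp (-(u - ℓ) ^ 2 / 4) * wt T t := by
    intro t ℓ
    have h1 := bt_norm T u t ℓ hT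
    have hw := wt_nonneg T t hT
    have h3 := Real.exp_pos (-(u - ℓ) ^ 2 / 4)
    refine h1.trans (mul_le_mul_of_nonneg_right ?_ hw)
    nlinarith
  refine (norm_integral_le_integral_norm _).trans ?_
  set E1 : ℝ := Real.exp (-(u - ℓ) ^ 2 / 4) with hE1
  set E2 : ℝ := Real.exp (-(u - ℓ') ^ 2 / 4) with hE2
  have h3 : ∫ t : ℝ, ‖bt T u t ℓ * (starRingEnd ℂ) (bt T u t ℓ')‖ ≤
      ∫ t : ℝ, E1 * E2 * wt T t := by
    refine integral_mono (bt_mul_int T u ℓ ℓ' hT).norm ((wt_integrable T hT).const_mul _) fun t => ?_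
    show ‖bt T u t ℓ * (starRingEnd ℂ) (bt T u t ℓ')‖ ≤ _
    rw [norm_mul, RCLike.norm_conj]
    have hw := wt_nonneg T t hT
    have hw1 := wt_le_one T t hT
    calc _ ≤ (E1 * wt T t) * (E2 * wt T t) :=
          mul_le_mul (hb t ℓ) (hb t ℓ') (norm_nonneg _) (by positivity)
      _ = (E1 * E2 * wt T t) * wt T t := by ring
      _ ≤ (E1 * E2 * wt T t) * 1 := mul_le_mul_of_nonneg_left hw1 (by positivity)
      _ = _ := mul_one _
  refine h3.trans (le_of_eq ?_)
  rw [integral_const_mul, wt_integral T hT]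

end Pool.Agent.R321.RE
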