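import Pool.Agent.R321.RE1
import Pool.Agent.R321.RE3

/-!
# The Hilbert-Schmidt norm of the kernel
-/

open Complex Filter Topology Set MeasureTheory

set_option maxHeartbeats 4000000

namespace Pool.Agent.R321.RE

open H385

/-- the terms of the prime sums -/
noncomputable def at' (T u : ℝ) (p : ℕ) (t : ℝ) : ℂ :=
  (ArithmeticFunction.vonMangoldt p : ℂ) * ((Real.sqrt p : ℂ)⁻¹ * bt T u t (Real.log p))

/-- the square weights -/
noncomputable def xp (u : ℝ) (p : ℕ) : ℝ :=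
  (ArithmeticFunction.vonMangoldt p) ^ 2 / p * Real.exp (-(u - Real.log p) ^ 2 / 2)

lemma xp_nonneg (u : ℝ) (p : ℕ) : 0 ≤ xp u p := by unfold xp; positivity

lemma sum_ds {S : Finset ℕ} {N p : ℕ} (hS : ∀ r ∈ S, r ≤ N) (hp : p ∈ S) (c : ℕ → ℝ)
    (hc : ∀ h, 0 ≤ c h) :
    ∑ r ∈ S.erase p, c (ds p r) ≤ 2 * ∑ h ∈ Finset.Icc 1 N, c h := by
  have hpN := hS p hp
  have key : ∀ (R : ℕ → Prop) [DecidablePred R], (∀ x y, R x → R y → ds p x = ds p y → x = y) →
      ∑ r ∈ (S.erase p).filter R, c (ds p r) ≤ ∑ h ∈ Finset.Icc 1 N, c h := by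
    intro R _ hR
    rw [← Finset.sum_image (f := c) (g := fun r => ds p r)]
    · refine Finset.sum_le_sum_of_subset_of_nonneg ?_ fun _ _ _ => hc _
      intro h hh
      rw [Finset.mem_image] at hh
      obtain ⟨r, hr, rfl⟩ := hh
      rw [Finset.mem_filter] at hr
      have hne : p ≠ r := (Finset.ne_of_mem_erase hr.1).symm
      have := hS r (Finset.mem_of_mem_erase hr.1)
      rw [Finset.mem_Icc]
      unfold ds
      omega
    · intro x hx y hy hxy
      rw [Finset.mem_coe, Finset.mem_filter] at hx hy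
      exact hR x y hx.2 hy.2 hxy
  have h1 := key (fun r => r ≤ p) (fun x y hx hy h => by unfold ds at h; omega)
  have h2 := key (fun r => ¬ r ≤ p) (fun x y hx hy h => by unfold ds at h; omega)
  rw [← Finset.sum_filter_add_sum_filter_not (S.erase p) (fun r => r ≤ p)]
  linarith

lemma kap_sum {T A : ℝ} (hT : 1 ≤ T) (hA : T ≤ A) (N : ℕ) :
    ∑ h ∈ Finset.Icc 1 N, min (T ^ 2) (A ^ 2 / (h : ℝ) ^ 2) ≤ 3 * (A * T) := by
  have hT0 : 0 < T := by linarith
  have hA0 : 0 < A := by linarith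
  set H : ℕ := ⌈A / T⌉₊ with hH
  have hH1 : 1 ≤ H := Nat.one_le_ceil_iff.2 (by positivity)
  have hH0 : (0 : ℝ) < H := by exact_mod_cast hH1
  have hHl : A / T ≤ H := Nat.le_ceil _
  have hHu : (H : ℝ) ≤ 2 * (A / T) := by
    have h1 := Nat.ceil_lt_add_one (show 0 ≤ A / T by positivity)
    have h2 : 1 ≤ A / T := by rw [one_le_div hT0]; exact hA
    have h3 : ((⌈A / T⌉₊ : ℕ) : ℝ) = H := rfl
    linarith
  have hsub : Finset.Icc 1 N ⊆ Finset.Icc 1 H ∪ Finset.Ioc H (max H N) := by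
    intro x hx
    simp only [Finset.mem_union, Finset.mem_Icc, Finset.mem_Ioc, le_max_iff] at hx ⊢
    omega
  refine (Finset.sum_le_sum_of_subset_of_nonneg hsub fun _ _ _ => by positivity).trans ?_
  rw [Finset.sum_union (by
    rw [Finset.disjoint_left]
    intro a ha hb
    rw [Finset.mem_Icc] at ha
    rw [Finset.mem_Ioc] at hb
    omega)]
  have h1 : ∑ h ∈ Finset.Icc 1 H, min (T ^ 2) (A ^ 2 / (h : ℝ) ^ 2) ≤ 2 * (A * T) := by
    refine (Finset.sum_le_sum fun h _ => min_le_left _ _).trans ?_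
    rw [Finset.sum_const, nsmul_eq_mul, Nat.card_Icc]
    have : (((H + 1 - 1 : ℕ)) : ℝ) = H := by norm_num
    rw [this]
    calc (H : ℝ) * T ^ 2 ≤ 2 * (A / T) * T ^ 2 := mul_le_mul_of_nonneg_right hHu (by positivity)
      _ = _ := by field_simp
  have h2 : ∑ h ∈ Finset.Ioc H (max H N), min (T ^ 2) (A ^ 2 / (h : ℝ) ^ 2) ≤ A * T := by
    refine (Finset.sum_le_sum fun h _ => min_le_right _ _).trans ?_
    have h3 := sum_Ioc_inv_sq_le_sub (α := ℝ) (k := H) (n := max H N) (by omega) (le_max_left _ _)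
    have h4 : ∑ h ∈ Finset.Ioc H (max H N), A ^ 2 / (h : ℝ) ^ 2 =
        A ^ 2 * ∑ h ∈ Finset.Ioc H (max H N), ((h : ℝ) ^ 2)⁻¹ := by
      rw [Finset.mul_sum]
      exact Finset.sum_congr rfl fun h _ => by rw [div_eq_mul_inv]
    rw [h4]
    have h5 : (0 : ℝ) ≤ (((max H N : ℕ)) : ℝ)⁻¹ := by positivity
    have h6 : (H : ℝ)⁻¹ ≤ T / A := by
      rw [inv_le_comm₀ hH0 (by positivity), inv_div]
      exact hHl
    calc A ^ 2 * ∑ h ∈ Finset.Ioc H (max H N), ((h : ℝ) ^ 2)⁻¹ ≤ A ^ 2 * (T / A) :=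
          mul_le_mul_of_nonneg_left (by linarith) (by positivity)
      _ = _ := by field_simp
  linarith

lemma log_dist {p r : ℕ} (hp : 1 ≤ p) (hr : 1 ≤ r) (h : p ≠ r)
    (hlt : |Real.log p - Real.log r| < 1) :
    (ds p r : ℝ) ≤ 3 * p * |Real.log p - Real.log r| := by
  have hp0 : (0 : ℝ) < p := by exact_mod_cast hp
  have hr0 : (0 : ℝ) < r := by exact_mod_cast hr
  have he : Real.exp 1 < 3 := by linarith [Real.exp_one_lt_d9]
  rcases lt_or_gt_of_ne h with h1 | h1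
  · -- p < r
    have h2 : (p : ℝ) < r := by exact_mod_cast h1
    have h3 : Real.log p ≤ Real.log r := Real.log_le_log hp0 h2.le
    rw [abs_of_nonpos (by linarith), neg_sub] at hlt ⊢
    have h4 : (ds p r : ℝ) = r - p := by
      unfold ds
      rw [Nat.sub_eq_zero_of_le h1.le, zero_add, Nat.cast_sub h1.le]
    rw [h4]
    have h5 : 1 - ((r : ℝ) / p)⁻¹ ≤ Real.log (r / p) := Real.one_sub_inv_le_log_of_pos (by positivity)
    rw [Real.log_div hr0.ne' hp0.ne', inv_div] at h5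
    have h6 : (r : ℝ) ≤ 3 * p := by
      have h7 : (r : ℝ) = Real.exp (Real.log r - Real.log p) * p := by
        rw [Real.exp_sub, Real.exp_log hr0, Real.exp_log hp0]
        field_simp
      rw [h7]
      refine mul_le_mul_of_nonneg_right ?_ hp0.le
      exact (Real.exp_le_exp.2 hlt.le).trans he.le
    have h7 : (r : ℝ) - p = r * (1 - p / r) := by field_simp
    rw [h7]
    have h8 : 0 ≤ Real.log r - Real.log p := by linarith
    calc (r : ℝ) * (1 - p / r) ≤ r * (Real.log r - Real.log p) :=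
          mul_le_mul_of_nonneg_left h5 hr0.le
      _ ≤ 3 * p * (Real.log r - Real.log p) := mul_le_mul_of_nonneg_right h6 h8
  · have h2 : (r : ℝ) < p := by exact_mod_cast h1
    have h3 : Real.log r ≤ Real.log p := Real.log_le_log hr0 h2.le
    rw [abs_of_nonneg (by linarith)] at hlt ⊢
    have h4 : (ds p r : ℝ) = p - r := by
      unfold ds
      rw [Nat.sub_eq_zero_of_le h1.le, add_zero, Nat.cast_sub h1.le]
    rw [h4]
    have h5 : 1 - ((p : ℝ) / r)⁻¹ ≤ Real.log (p / r) := Real.one_sub_inv_le_log_of_pos (by positivity)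
    rw [Real.log_div hp0.ne' hr0.ne', inv_div] at h5
    have h7 : (p : ℝ) - r = p * (1 - r / p) := by field_simp
    rw [h7]
    have h8 : 0 ≤ Real.log p - Real.log r := by linarith
    have h9 := mul_le_mul_of_nonneg_left h5 hp0.le
    have h10 := mul_nonneg hp0.le h8
    linarith

/-- the kernel bound -/
lemma ker_bd {T : ℝ} {p r : ℕ} (hp : 1 ≤ p) (hr : 1 ≤ r) (h : p ≠ r) :
    min (T ^ 2) (1 / |Real.log p - Real.log r| ^ 2) ≤
      1 + min (T ^ 2) ((3 * p : ℝ) ^ 2 / ((ds p r : ℕ) : ℝ) ^ 2) := by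
  have hds : (0 : ℝ) < ((ds p r : ℕ) : ℝ) := by exact_mod_cast ds_pos h
  have hp0 : (0 : ℝ) < p := by exact_mod_cast hp
  have hr0 : (0 : ℝ) < r := by exact_mod_cast hr
  have hne : Real.log p ≠ Real.log r := by
    intro h1
    have := Real.log_injOn_pos (Set.mem_Ioi.2 hp0) (Set.mem_Ioi.2 hr0) h1
    exact h (by exact_mod_cast this)
  have hΔ : 0 < |Real.log p - Real.log r| := abs_pos.2 (sub_ne_zero.2 hne)
  rcases lt_or_ge |Real.log p - Real.log r| 1 with h1 | h1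
  · have h2 := log_dist hp hr h h1
    have h3 : 1 / |Real.log p - Real.log r| ^ 2 ≤ (3 * p : ℝ) ^ 2 / ((ds p r : ℕ) : ℝ) ^ 2 := by
      rw [div_le_div_iff₀ (by positivity) (by positivity), one_mul, ← mul_pow]
      exact pow_le_pow_left₀ hds.le h2 2
    have h4 : min (T ^ 2) (1 / |Real.log p - Real.log r| ^ 2) ≤
        min (T ^ 2) ((3 * p : ℝ) ^ 2 / ((ds p r : ℕ) : ℝ) ^ 2) := min_le_min_left _ h3
    linarith
  · have h2 : 1 / |Real.log p - Real.log r| ^ 2 ≤ 1 := by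
      rw [div_le_one (by positivity)]
      exact one_le_pow₀ h1
    have h3 : 0 ≤ min (T ^ 2) ((3 * p : ℝ) ^ 2 / ((ds p r : ℕ) : ℝ) ^ 2) := by positivity
    linarith [min_le_right (T ^ 2) (1 / |Real.log p - Real.log r| ^ 2)]

/-- the matrix entries -/
lemma entry (T u : ℝ) (hT : 0 ≤ T) (p r : ℕ) :
    ‖∫ t : ℝ, at' T u p t * (starRingEnd ℂ) (at' T u r t)‖ ^ 2 ≤ xp u p * xp u r * T ^ 2 ∧
    (p ≠ r → 1 ≤ p → 1 ≤ r → ‖∫ t : ℝ, at' T u p t * (starRingEnd ℂ) (at' T u r t)‖ ^ 2 ≤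
      xp u p * xp u r * min (T ^ 2) (1 / |Real.log p - Real.log r| ^ 2)) := by
  have hΛp : 0 ≤ ArithmeticFunction.vonMangoldt p := ArithmeticFunction.vonMangoldt_nonneg
  have hΛr : 0 ≤ ArithmeticFunction.vonMangoldt r := ArithmeticFunction.vonMangoldt_nonneg
  have e1 : ∀ t, at' T u p t * (starRingEnd ℂ) (at' T u r t) =
      ((ArithmeticFunction.vonMangoldt p * ArithmeticFunction.vonMangoldt r *
        ((Real.sqrt p)⁻¹ * (Real.sqrt r)⁻¹) : ℝ) : ℂ) *
        (bt T u t (Real.log p) * (starRingEnd ℂ) (bt T u t (Real.log r))) := by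
    intro t
    unfold at'
    rw [map_mul, map_mul, Complex.conj_ofReal, map_inv₀, Complex.conj_ofReal]
    push_cast
    ring
  simp_rw [e1]
  rw [integral_const_mul, norm_mul, Complex.norm_real, Real.norm_of_nonneg (by positivity), mul_pow]
  set J : ℝ := ‖∫ t : ℝ, bt T u t (Real.log p) * (starRingEnd ℂ) (bt T u t (Real.log r))‖ with hJ
  have hE : ∀ x : ℝ, Real.exp (-(u - x) ^ 2 / 4) ^ 2 = Real.exp (-(u - x) ^ 2 / 2) := by
    intro x
    rw [← Real.exp_nat_mul]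
    congr 1
    push_cast
    ring
  have key : ∀ m : ℝ, 0 ≤ m → J ^ 2 ≤ (Real.exp (-(u - Real.log p) ^ 2 / 4) *
      Real.exp (-(u - Real.log r) ^ 2 / 4)) ^ 2 * m →
      (ArithmeticFunction.vonMangoldt p * ArithmeticFunction.vonMangoldt r *
        ((Real.sqrt p)⁻¹ * (Real.sqrt r)⁻¹)) ^ 2 * J ^ 2 ≤ xp u p * xp u r * m := by
    intro m hm hJm
    refine (mul_le_mul_of_nonneg_left hJm (by positivity)).trans (le_of_eq ?_)
    unfold xp
    rw [mul_pow, mul_pow, mul_pow, mul_pow, inv_pow, inv_pow, Real.sq_sqrt (Nat.cast_nonneg p),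
      Real.sq_sqrt (Nat.cast_nonneg r), hE, hE]
    ring
  have b1 : J ^ 2 ≤ (Real.exp (-(u - Real.log p) ^ 2 / 4) *
      Real.exp (-(u - Real.log r) ^ 2 / 4)) ^ 2 * T ^ 2 := by
    rw [← mul_pow]
    exact pow_le_pow_left₀ (norm_nonneg _) (ip_triv T u _ _ hT) 2
  refine ⟨key _ (by positivity) b1, fun hne hp hr => ?_⟩
  have hp0 : (0 : ℝ) < p := by exact_mod_cast hp
  have hr0 : (0 : ℝ) < r := by exact_mod_cast hr
  have hne' : Real.log p ≠ Real.log r := by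
    intro h1
    have := Real.log_injOn_pos (Set.mem_Ioi.2 hp0) (Set.mem_Ioi.2 hr0) h1
    exact hne (by exact_mod_cast this)
  have b2 : J ^ 2 ≤ (Real.exp (-(u - Real.log p) ^ 2 / 4) *
      Real.exp (-(u - Real.log r) ^ 2 / 4)) ^ 2 * (1 / |Real.log p - Real.log r| ^ 2) := by
    have := pow_le_pow_left₀ (norm_nonneg _) (ip_osc T u _ _ hT hne') 2
    rw [mul_pow _ (1 / |Real.log p - Real.log r|), div_pow, one_pow] at this
    exact this
  refine key _ (by positivity) ?_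
  rcases min_cases (T ^ 2) (1 / |Real.log p - Real.log r| ^ 2) with h | h
  · rw [h.1]; exact b1
  · rw [h.1]; exact b2

/-- the Hilbert-Schmidt norm -/
theorem hs_norm : ∃ C : ℝ, 0 < C ∧ ∀ (T u L : ℝ) (N M0 : ℕ) (S : Finset ℕ), 1 ≤ T → 0 ≤ u → 1 ≤ L →
    T ≤ M0 → Real.log N ≤ L → (∀ p ∈ S, p.Prime ∧ M0 < p ∧ p ≤ N) →
    ∑ p ∈ S, ∑ r ∈ S, ‖∫ t : ℝ, at' T u p t * (starRingEnd ℂ) (at' T u r t)‖ ^ 2 ≤
      C * ((u + 1) ^ 2 + T * L ^ 2 * (u + 1)) := by
  obtain ⟨C6, hC6, h6⟩ := lam_sq_crude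
  refine ⟨C6 ^ 2 + 19 * C6, by positivity, ?_⟩
  intro T u L N M0 S hT hu hL hTM hNL hS
  have hT0 : 0 ≤ T := by linarith
  obtain ⟨hs, hle⟩ := h6 u hu
  have hxsum : ∑ p ∈ S, xp u p ≤ C6 * (u + 1) :=
    (hs.sum_le_tsum S (fun n _ => by positivity)).trans hle
  have hxs0 : 0 ≤ ∑ p ∈ S, xp u p := Finset.sum_nonneg fun p _ => xp_nonneg u p
  set κ : ℕ → ℕ → ℝ := fun p h => min (T ^ 2) ((3 * p : ℝ) ^ 2 / (h : ℝ) ^ 2) with hκ
  have hκ0 : ∀ p h, 0 ≤ κ p h := fun p h => by rw [hκ]; positivity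
  have hsymm : ∀ p r, ds p r = ds r p := fun p r => by unfold ds; omega
  have hterm : ∀ p ∈ S, ∀ r ∈ S.erase p,
      ‖∫ t : ℝ, at' T u p t * (starRingEnd ℂ) (at' T u r t)‖ ^ 2 ≤
      xp u p * xp u r + xp u p ^ 2 / 2 * κ p (ds p r) + xp u r ^ 2 / 2 * κ r (ds r p) := by
    intro p hp r hr
    have hne : p ≠ r := (Finset.ne_of_mem_erase hr).symm
    have hrS := Finset.mem_of_mem_erase hr
    have hp1 := (hS p hp).1.one_lt.le
    have hr1 := (hS r hrS).1.one_lt.le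
    have h1 := (entry T u hT0 p r).2 hne hp1 hr1
    have h2 := ker_bd (T := T) hp1 hr1 hne
    have h3 := ker_bd (T := T) hr1 hp1 hne.symm
    rw [abs_sub_comm] at h3
    set m : ℝ := min (T ^ 2) (1 / |Real.log p - Real.log r| ^ 2) with hm
    have h2' : m - 1 ≤ κ p (ds p r) := by simp only [hκ]; linarith
    have h3' : m - 1 ≤ κ r (ds r p) := by simp only [hκ]; linarith
    have x1 := xp_nonneg u p
    have x2 := xp_nonneg u r
    have h4 : xp u p * xp u r * (m - 1) ≤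
        xp u p ^ 2 / 2 * κ p (ds p r) + xp u r ^ 2 / 2 * κ r (ds r p) := by
      rcases le_total (m - 1) 0 with h5 | h5
      · have a1 : xp u p * xp u r * (m - 1) ≤ 0 :=
          mul_nonpos_of_nonneg_of_nonpos (mul_nonneg x1 x2) h5
        have a2 := mul_nonneg (show 0 ≤ xp u p ^ 2 / 2 by positivity) (hκ0 p (ds p r))
        have a3 := mul_nonneg (show 0 ≤ xp u r ^ 2 / 2 by positivity) (hκ0 r (ds r p))
        linarith
      · have a1 : xp u p * xp u r ≤ xp u p ^ 2 / 2 + xp u r ^ 2 / 2 := by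
          nlinarith [sq_nonneg (xp u p - xp u r)]
        have a2 := mul_le_mul_of_nonneg_right a1 h5
        have a3 := mul_le_mul_of_nonneg_left h2' (show 0 ≤ xp u p ^ 2 / 2 by positivity)
        have a4 := mul_le_mul_of_nonneg_left h3' (show 0 ≤ xp u r ^ 2 / 2 by positivity)
        nlinarith
    nlinarith
  have hsplit : ∀ p ∈ S, ∑ r ∈ S, ‖∫ t : ℝ, at' T u p t * (starRingEnd ℂ) (at' T u r t)‖ ^ 2 ≤
      xp u p ^ 2 * T ^ 2 + ∑ r ∈ S.erase p,
        (xp u p * xp u r + xp u p ^ 2 / 2 * κ p (ds p r) + xp u r ^ 2 / 2 * κ r (ds r p)) := by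
    intro p hp
    rw [← Finset.add_sum_erase S _ hp]
    refine add_le_add ?_ (Finset.sum_le_sum (hterm p hp))
    have := (entry T u hT0 p p).1
    rw [sq (xp u p)]
    exact this
  refine (Finset.sum_le_sum hsplit).trans ?_
  rw [Finset.sum_add_distrib]
  have hS2 : ∑ p ∈ S, ∑ r ∈ S.erase p,
        (xp u p * xp u r + xp u p ^ 2 / 2 * κ p (ds p r) + xp u r ^ 2 / 2 * κ r (ds r p)) ≤
      (∑ p ∈ S, xp u p) ^ 2 + ∑ p ∈ S, xp u p ^ 2 * ∑ r ∈ S.erase p, κ p (ds p r) := by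
    have s1 : ∑ p ∈ S, ∑ r ∈ S.erase p, xp u p * xp u r ≤ (∑ p ∈ S, xp u p) ^ 2 := by
      rw [sq, Finset.sum_mul_sum]
      refine Finset.sum_le_sum fun p _ => ?_
      exact Finset.sum_le_sum_of_subset_of_nonneg (Finset.erase_subset _ _)
        fun r _ _ => mul_nonneg (xp_nonneg _ _) (xp_nonneg _ _)
    have s2 : ∑ p ∈ S, ∑ r ∈ S.erase p, xp u r ^ 2 / 2 * κ r (ds r p) =
        ∑ p ∈ S, ∑ r ∈ S.erase p, xp u p ^ 2 / 2 * κ p (ds p r) := by
      rw [Finset.sum_comm' (t' := S) (s' := fun r => S.erase r)]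
      intro p r
      simp only [Finset.mem_erase]
      constructor
      · rintro ⟨h1, h2, h3⟩
        exact ⟨⟨fun h => h2 h.symm, h1⟩, h3⟩
      · rintro ⟨⟨h1, h2⟩, h3⟩
        exact ⟨h2, fun h => h1 h.symm, h3⟩
    have s3 : ∑ p ∈ S, ∑ r ∈ S.erase p,
        (xp u p * xp u r + xp u p ^ 2 / 2 * κ p (ds p r) + xp u r ^ 2 / 2 * κ r (ds r p)) =
        ∑ p ∈ S, ∑ r ∈ S.erase p, xp u p * xp u r +
        ∑ p ∈ S, ∑ r ∈ S.erase p, xp u p ^ 2 / 2 * κ p (ds p r) +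
        ∑ p ∈ S, ∑ r ∈ S.erase p, xp u r ^ 2 / 2 * κ r (ds r p) := by
      rw [← Finset.sum_add_distrib, ← Finset.sum_add_distrib]
      refine Finset.sum_congr rfl fun p _ => ?_
      rw [← Finset.sum_add_distrib, ← Finset.sum_add_distrib]
    rw [s3, s2]
    have s4 : ∑ p ∈ S, xp u p ^ 2 * ∑ r ∈ S.erase p, κ p (ds p r) =
        ∑ p ∈ S, ∑ r ∈ S.erase p, xp u p ^ 2 / 2 * κ p (ds p r) +
        ∑ p ∈ S, ∑ r ∈ S.erase p, xp u p ^ 2 / 2 * κ p (ds p r) := by
      rw [← Finset.sum_add_distrib]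
      refine Finset.sum_congr rfl fun p _ => ?_
      rw [← Finset.sum_add_distrib, Finset.mul_sum]
      exact Finset.sum_congr rfl fun r _ => by ring
    rw [s4]
    linarith
  have hκs : ∀ p ∈ S, ∑ r ∈ S.erase p, κ p (ds p r) ≤ 18 * (p * T) := by
    intro p hp
    obtain ⟨hpp, hpM, hpN⟩ := hS p hp
    have h1 := sum_ds (fun r hr => (hS r hr).2.2) hp (κ p) (hκ0 p)
    have hpT : T ≤ p := by
      have : (M0 : ℝ) ≤ p := by exact_mod_cast hpM.le
      linarith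
    have h2 := kap_sum (T := T) (A := 3 * p) hT (by linarith) N
    simp only [hκ] at h1 ⊢
    linarith
  have hx2 : ∀ p ∈ S, xp u p ^ 2 * (19 * (p * T)) ≤ 19 * T * L ^ 2 * xp u p := by
    intro p hp
    obtain ⟨hpp, hpM, hpN⟩ := hS p hp
    have hp0 : (0 : ℝ) < p := by exact_mod_cast hpp.pos
    have hΛ : ArithmeticFunction.vonMangoldt p ≤ L := by
      refine ArithmeticFunction.vonMangoldt_le_log.trans ?_
      refine le_trans (Real.log_le_log hp0 ?_) hNL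
      exact_mod_cast hpN
    have hΛ0 : 0 ≤ ArithmeticFunction.vonMangoldt p := ArithmeticFunction.vonMangoldt_nonneg
    have hE : Real.exp (-(u - Real.log p) ^ 2 / 2) ≤ 1 := by
      rw [Real.exp_le_one_iff]
      nlinarith [sq_nonneg (u - Real.log p)]
    have h1 : xp u p * p ≤ L ^ 2 := by
      unfold xp
      have : (ArithmeticFunction.vonMangoldt p) ^ 2 / p * Real.exp (-(u - Real.log p) ^ 2 / 2) * p =
          (ArithmeticFunction.vonMangoldt p) ^ 2 * Real.exp (-(u - Real.log p) ^ 2 / 2) := by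
        field_simp
      rw [this]
      calc _ ≤ (ArithmeticFunction.vonMangoldt p) ^ 2 * 1 :=
            mul_le_mul_of_nonneg_left hE (by positivity)
        _ = (ArithmeticFunction.vonMangoldt p) ^ 2 := mul_one _
        _ ≤ L ^ 2 := pow_le_pow_left₀ hΛ0 hΛ 2
    have hx := xp_nonneg u p
    calc xp u p ^ 2 * (19 * (p * T)) = 19 * T * xp u p * (xp u p * p) := by ring
      _ ≤ 19 * T * xp u p * L ^ 2 := mul_le_mul_of_nonneg_left h1 (by positivity)
      _ = _ := by ring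
  have hfin : ∑ p ∈ S, xp u p ^ 2 * T ^ 2 + ∑ p ∈ S, xp u p ^ 2 * ∑ r ∈ S.erase p, κ p (ds p r) ≤
      19 * T * L ^ 2 * ∑ p ∈ S, xp u p := by
    rw [← Finset.sum_add_distrib, Finset.mul_sum]
    refine Finset.sum_le_sum fun p hp => ?_
    refine le_trans ?_ (hx2 p hp)
    have h1 := mul_le_mul_of_nonneg_left (hκs p hp) (sq_nonneg (xp u p))
    have hpT : T ≤ p := by
      have : (M0 : ℝ) ≤ p := by exact_mod_cast (hS p hp).2.1.le
      linarith
    have h2 : T ^ 2 ≤ p * T := by nlinarith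
    have h3 := mul_le_mul_of_nonneg_left h2 (sq_nonneg (xp u p))
    linarith
  have hsq : (∑ p ∈ S, xp u p) ^ 2 ≤ (C6 * (u + 1)) ^ 2 := pow_le_pow_left₀ hxs0 hxsum 2
  have hl : 19 * T * L ^ 2 * ∑ p ∈ S, xp u p ≤ 19 * T * L ^ 2 * (C6 * (u + 1)) :=
    mul_le_mul_of_nonneg_left hxsum (by positivity)
  have hz1 : 0 ≤ C6 ^ 2 * (T * L ^ 2 * (u + 1)) := by positivity
  have hz2 : 0 ≤ 19 * C6 * (u + 1) ^ 2 := by positivity
  nlinarith

end Pool.Agent.R321.RE
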