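import Pool.Agent.R321.RE4

/-!
# First and second moments of the mean squares
-/

open Complex Filter Topology Set MeasureTheory

set_option maxHeartbeats 4000000

namespace Pool.Agent.R321.RE

open H385

section abstract

variable {f : ℕ → ℝ → ℂ} (hc : ∀ p, Continuous (f p))
  (hi : ∀ p r, Integrable (fun t => f p t * (starRingEnd ℂ) (f r t))) (S : Finset ℕ)

include hi in
lemma sq_int (p : ℕ) : Integrable (fun t => ‖f p t‖ ^ 2) := by
  have h := (hi p p).norm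
  refine h.congr (Eventually.of_forall fun t => ?_)
  show ‖f p t * (starRingEnd ℂ) (f p t)‖ = ‖f p t‖ ^ 2
  rw [norm_mul, RCLike.norm_conj, sq]

lemma ker_id (t s : ℝ) : ((‖∑ p ∈ S, f p t * (starRingEnd ℂ) (f p s)‖ ^ 2 : ℝ) : ℂ) =
    ∑ p ∈ S, ∑ r ∈ S, (f p t * (starRingEnd ℂ) (f r t)) * (f r s * (starRingEnd ℂ) (f p s)) := by
  have e : ((‖∑ p ∈ S, f p t * (starRingEnd ℂ) (f p s)‖ ^ 2 : ℝ) : ℂ) =
      (∑ p ∈ S, f p t * (starRingEnd ℂ) (f p s)) *
        (starRingEnd ℂ) (∑ p ∈ S, f p t * (starRingEnd ℂ) (f p s)) := by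
    rw [Complex.mul_conj, Complex.normSq_eq_norm_sq]
  rw [e, map_sum, Finset.sum_mul_sum]
  refine Finset.sum_congr rfl fun p _ => Finset.sum_congr rfl fun r _ => ?_
  rw [map_mul, Complex.conj_conj]
  ring

include hi in
lemma ker_int (t : ℝ) : Integrable (fun s => ‖∑ p ∈ S, f p t * (starRingEnd ℂ) (f p s)‖ ^ 2) ∧
    ((∫ s, ‖∑ p ∈ S, f p t * (starRingEnd ℂ) (f p s)‖ ^ 2 : ℝ) : ℂ) =
      ∑ p ∈ S, ∑ r ∈ S, (f p t * (starRingEnd ℂ) (f r t)) *
        ∫ s, f r s * (starRingEnd ℂ) (f p s) := by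
  have h1 : ∀ p ∈ S, ∀ r ∈ S, Integrable (fun s => (f p t * (starRingEnd ℂ) (f r t)) *
      (f r s * (starRingEnd ℂ) (f p s))) := fun p _ r _ => (hi r p).const_mul _
  have h2 : Integrable (fun s => ∑ p ∈ S, ∑ r ∈ S, (f p t * (starRingEnd ℂ) (f r t)) *
      (f r s * (starRingEnd ℂ) (f p s))) :=
    integrable_finsetSum _ fun p hp => integrable_finsetSum _ fun r hr => h1 p hp r hr
  have h3 : (fun s => ((‖∑ p ∈ S, f p t * (starRingEnd ℂ) (f p s)‖ ^ 2 : ℝ) : ℂ)) =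
      fun s => ∑ p ∈ S, ∑ r ∈ S, (f p t * (starRingEnd ℂ) (f r t)) *
        (f r s * (starRingEnd ℂ) (f p s)) := by
    funext s
    exact ker_id S t s
  constructor
  · rw [← h3] at h2
    exact (h2.re).congr (Eventually.of_forall fun s => Complex.ofReal_re _)
  · rw [← integral_complex_ofReal, h3, integral_finsetSum _ fun p hp =>
      integrable_finsetSum _ fun r hr => h1 p hp r hr]
    refine Finset.sum_congr rfl fun p hp => ?_
    rw [integral_finsetSum _ fun r hr => h1 p hp r hr]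
    exact Finset.sum_congr rfl fun r _ => integral_const_mul _ _

include hi in
lemma ker_int2 : Integrable (fun t => ∫ s, ‖∑ p ∈ S, f p t * (starRingEnd ℂ) (f p s)‖ ^ 2) ∧
    ∫ t, ∫ s, ‖∑ p ∈ S, f p t * (starRingEnd ℂ) (f p s)‖ ^ 2 =
      ∑ p ∈ S, ∑ r ∈ S, ‖∫ t, f p t * (starRingEnd ℂ) (f r t)‖ ^ 2 := by
  have h1 : ∀ p ∈ S, ∀ r ∈ S, Integrable (fun t => (f p t * (starRingEnd ℂ) (f r t)) *
      ∫ s, f r s * (starRingEnd ℂ) (f p s)) := fun p _ r _ => (hi p r).mul_const _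
  have h2 : Integrable (fun t => ∑ p ∈ S, ∑ r ∈ S, (f p t * (starRingEnd ℂ) (f r t)) *
      ∫ s, f r s * (starRingEnd ℂ) (f p s)) :=
    integrable_finsetSum _ fun p hp => integrable_finsetSum _ fun r hr => h1 p hp r hr
  have h3 : (fun t => ((∫ s, ‖∑ p ∈ S, f p t * (starRingEnd ℂ) (f p s)‖ ^ 2 : ℝ) : ℂ)) =
      fun t => ∑ p ∈ S, ∑ r ∈ S, (f p t * (starRingEnd ℂ) (f r t)) *
        ∫ s, f r s * (starRingEnd ℂ) (f p s) := by
    funext t
    exact (ker_int hi S t).2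
  constructor
  · rw [← h3] at h2
    exact (h2.re).congr (Eventually.of_forall fun s => Complex.ofReal_re _)
  · have h4 : ((∫ t, ∫ s, ‖∑ p ∈ S, f p t * (starRingEnd ℂ) (f p s)‖ ^ 2 : ℝ) : ℂ) =
        ((∑ p ∈ S, ∑ r ∈ S, ‖∫ t, f p t * (starRingEnd ℂ) (f r t)‖ ^ 2 : ℝ) : ℂ) := by
      rw [← integral_complex_ofReal, h3, integral_finsetSum _ fun p hp =>
        integrable_finsetSum _ fun r hr => h1 p hp r hr, Complex.ofReal_sum]
      refine Finset.sum_congr rfl fun p hp => ?_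
      rw [integral_finsetSum _ fun r hr => h1 p hp r hr, Complex.ofReal_sum]
      refine Finset.sum_congr rfl fun r _ => ?_
      rw [integral_mul_const]
      have h5 : ∫ s, f r s * (starRingEnd ℂ) (f p s) =
          (starRingEnd ℂ) (∫ t, f p t * (starRingEnd ℂ) (f r t)) := by
        rw [← integral_conj]
        congr 1
        funext s
        rw [map_mul, Complex.conj_conj, mul_comm]
      rw [h5, Complex.mul_conj, Complex.normSq_eq_norm_sq]
    exact_mod_cast h4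

include hc hi in
lemma D_int (c : ℕ → ℂ) : Continuous (fun t => ∑ p ∈ S, f p t * c p) ∧
    Integrable (fun t => ‖∑ p ∈ S, f p t * c p‖ ^ 2) := by
  have hcont : Continuous (fun t => ∑ p ∈ S, f p t * c p) :=
    continuous_finsetSum _ fun p _ => (hc p).mul continuous_const
  refine ⟨hcont, ?_⟩
  have hint : Integrable (fun t => (∑ p ∈ S, ‖c p‖ ^ 2) * ∑ p ∈ S, ‖f p t‖ ^ 2) :=
    (integrable_finsetSum _ fun p _ => sq_int hi p).const_mul _
  refine Integrable.mono' hint (hcont.norm.pow 2).aestronglyMeasurable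
    (Eventually.of_forall fun t => ?_)
  rw [Real.norm_of_nonneg (sq_nonneg _)]
  have h1 : ‖∑ p ∈ S, f p t * c p‖ ≤ ∑ p ∈ S, ‖c p‖ * ‖f p t‖ := by
    refine (norm_sum_le _ _).trans (le_of_eq ?_)
    exact Finset.sum_congr rfl fun p _ => by rw [norm_mul, mul_comm]
  exact (pow_le_pow_left₀ (norm_nonneg _) h1 2).trans
    (Finset.sum_mul_sq_le_sq_mul_sq S (fun p => ‖c p‖) (fun p => ‖f p t‖))

end abstract

/-- second moment of the mean squares -/
lemma mom2_abs {ι : Type*} (Z : Finset ι) (w : ι → ℝ) (g : ι → ℝ → ℝ)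
    (hgi : ∀ z ∈ Z, Integrable (g z)) (B : ℝ → ℝ → ℝ)
    (hB : ∀ t s, ∑ z ∈ Z, w z * (g z t * g z s) ≤ B t s)
    (hB1 : ∀ t, Integrable (B t)) (hB2 : Integrable (fun t => ∫ s, B t s)) :
    ∑ z ∈ Z, w z * (∫ t, g z t) ^ 2 ≤ ∫ t, ∫ s, B t s := by
  have e1 : ∑ z ∈ Z, w z * (∫ t, g z t) ^ 2 = ∫ t, ∑ z ∈ Z, w z * (g z t * ∫ s, g z s) := by
    rw [integral_finsetSum _ fun z hz => ((hgi z hz).mul_const _).const_mul _]
    refine Finset.sum_congr rfl fun z hz => ?_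
    rw [integral_const_mul, integral_mul_const, sq]
  rw [e1]
  refine integral_mono (integrable_finsetSum _ fun z hz => ((hgi z hz).mul_const _).const_mul _) hB2
    fun t => ?_
  have e2 : ∑ z ∈ Z, w z * (g z t * ∫ s, g z s) = ∫ s, ∑ z ∈ Z, w z * (g z t * g z s) := by
    rw [integral_finsetSum _ fun z hz => ((hgi z hz).const_mul _).const_mul _]
    refine Finset.sum_congr rfl fun z hz => ?_
    rw [integral_const_mul, integral_const_mul]
  show ∑ z ∈ Z, w z * (g z t * ∫ s, g z s) ≤ ∫ s, B t s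
  rw [e2]
  exact integral_mono (integrable_finsetSum _ fun z hz => ((hgi z hz).const_mul _).const_mul _)
    (hB1 t) fun s => hB t s

/-- from the second moment to subsets -/
lemma subset_bound {ι : Type*} (Z B : Finset ι) (hBZ : B ⊆ Z) (w : ι → ℝ) (hw : ∀ z ∈ Z, 0 ≤ w z)
    (V : ι → ℝ) (M W e1 m2 : ℝ) (hM : 0 ≤ M) (hW : ∑ z ∈ Z, w z = W)
    (h1 : (W - e1) * M ≤ ∑ z ∈ Z, w z * V z) (h2 : ∑ z ∈ Z, w z * V z ^ 2 ≤ m2) :
    ∑ z ∈ B, w z * V z ≤ (∑ z ∈ B, w z) * M +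
      Real.sqrt (∑ z ∈ B, w z) * Real.sqrt (m2 - W * M ^ 2 + 2 * e1 * M ^ 2) := by
  have hvar : ∑ z ∈ Z, w z * (V z - M) ^ 2 ≤ m2 - W * M ^ 2 + 2 * e1 * M ^ 2 := by
    have : ∑ z ∈ Z, w z * (V z - M) ^ 2 = ∑ z ∈ Z, w z * V z ^ 2 -
        2 * M * ∑ z ∈ Z, w z * V z + M ^ 2 * ∑ z ∈ Z, w z := by
      rw [Finset.mul_sum, Finset.mul_sum, ← Finset.sum_sub_distrib, ← Finset.sum_add_distrib]
      exact Finset.sum_congr rfl fun z _ => by ring
    rw [this, hW]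
    have h3 := mul_le_mul_of_nonneg_left h1 (show 0 ≤ 2 * M by positivity)
    nlinarith
  have hB : ∑ z ∈ B, w z * (V z - M) ^ 2 ≤ ∑ z ∈ Z, w z * (V z - M) ^ 2 :=
    Finset.sum_le_sum_of_subset_of_nonneg hBZ fun z hz _ => mul_nonneg (hw z hz) (sq_nonneg _)
  have hcs : ∑ z ∈ B, w z * (V z - M) ≤
      Real.sqrt (∑ z ∈ B, w z) * Real.sqrt (∑ z ∈ B, w z * (V z - M) ^ 2) := by
    have h4 := Finset.sum_mul_sq_le_sq_mul_sq B (fun z => Real.sqrt (w z))
      (fun z => Real.sqrt (w z) * (V z - M))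
    have e1 : ∑ z ∈ B, Real.sqrt (w z) * (Real.sqrt (w z) * (V z - M)) =
        ∑ z ∈ B, w z * (V z - M) := by
      refine Finset.sum_congr rfl fun z hz => ?_
      rw [← mul_assoc, Real.mul_self_sqrt (hw z (hBZ hz))]
    have e2 : ∑ z ∈ B, Real.sqrt (w z) ^ 2 = ∑ z ∈ B, w z :=
      Finset.sum_congr rfl fun z hz => Real.sq_sqrt (hw z (hBZ hz))
    have e3 : ∑ z ∈ B, (Real.sqrt (w z) * (V z - M)) ^ 2 = ∑ z ∈ B, w z * (V z - M) ^ 2 := by
      refine Finset.sum_congr rfl fun z hz => ?_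
      rw [mul_pow, Real.sq_sqrt (hw z (hBZ hz))]
    rw [e1, e2, e3] at h4
    rw [← Real.sqrt_mul (Finset.sum_nonneg fun z hz => hw z (hBZ hz))]
    exact Real.le_sqrt_of_sq_le h4
  have hs : Real.sqrt (∑ z ∈ B, w z * (V z - M) ^ 2) ≤
      Real.sqrt (m2 - W * M ^ 2 + 2 * e1 * M ^ 2) := Real.sqrt_le_sqrt (hB.trans hvar)
  have hfin : ∑ z ∈ B, w z * V z = (∑ z ∈ B, w z) * M + ∑ z ∈ B, w z * (V z - M) := by
    rw [Finset.sum_mul, ← Finset.sum_add_distrib]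
    exact Finset.sum_congr rfl fun z _ => by ring
  rw [hfin]
  have := mul_le_mul_of_nonneg_left hs (Real.sqrt_nonneg (∑ z ∈ B, w z))
  linarith

end Pool.Agent.R321.RE
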