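import Pool.Agent.R321.RE5
import Pool.Agent.R321.RE2
import Pool.Agent.R321.RE0

/-!
# The law of large numbers over the family: raw form
-/

open Complex Filter Topology Set MeasureTheory

set_option maxHeartbeats 4000000

namespace Pool.Agent.R321.RE

open H385 H385.Cut Pool.Agent.R321.RC

noncomputable def hp (u : ℝ) (p : ℕ) : ℝ :=
  ArithmeticFunction.vonMangoldt p / Real.sqrt p * Real.exp (-(u - Real.log p) ^ 2 / 4)

lemma hp_nonneg (u : ℝ) (p : ℕ) : 0 ≤ hp u p :=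
  mul_nonneg (div_nonneg ArithmeticFunction.vonMangoldt_nonneg (Real.sqrt_nonneg _))
    (Real.exp_pos _).le

lemma at_norm (T u t : ℝ) (hT : 0 ≤ T) (p : ℕ) : ‖at' T u p t‖ ≤ wt T t * hp u p := by
  unfold at'
  rw [norm_mul, Complex.norm_real, Real.norm_of_nonneg ArithmeticFunction.vonMangoldt_nonneg]
  exact b_bound T u t hT p

lemma at_cont (T u : ℝ) (p : ℕ) : Continuous (at' T u p) := by
  unfold at'
  exact continuous_const.mul (continuous_const.mul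
    ((bt_cont T (Real.log p)).comp (continuous_const.prodMk continuous_id)))

lemma at_mul_int (T u : ℝ) (hT : 0 ≤ T) (p r : ℕ) :
    Integrable (fun t => at' T u p t * (starRingEnd ℂ) (at' T u r t)) := by
  have e1 : (fun t => at' T u p t * (starRingEnd ℂ) (at' T u r t)) = fun t =>
      ((ArithmeticFunction.vonMangoldt p * ArithmeticFunction.vonMangoldt r *
        ((Real.sqrt p)⁻¹ * (Real.sqrt r)⁻¹) : ℝ) : ℂ) *
        (bt T u t (Real.log p) * (starRingEnd ℂ) (bt T u t (Real.log r))) := by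
    funext t
    unfold at'
    rw [map_mul, map_mul, Complex.conj_ofReal, map_inv₀, Complex.conj_ofReal]
    push_cast
    ring
  rw [e1]
  exact (bt_mul_int T u _ _ hT).const_mul _

/-- the sum over primes of a character -/
noncomputable def Dz (S : Finset ℕ) (T u : ℝ) (z : IX) (t : ℝ) : ℂ :=
  ∑ p ∈ S, at' T u p t * z.2 (p : ZMod z.1)

lemma wt_sq_le (T : ℝ) (hT : 0 ≤ T) : Integrable (fun t => (wt T t) ^ 2) ∧
    0 ≤ ∫ t, (wt T t) ^ 2 ∧ ∫ t, (wt T t) ^ 2 ≤ T := by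
  have hle : ∀ t, (wt T t) ^ 2 ≤ wt T t := fun t => by
    nlinarith [wt_nonneg T t hT, wt_le_one T t hT]
  have hi : Integrable (fun t => (wt T t) ^ 2) := by
    refine Integrable.mono' (wt_integrable T hT) ((wt_cont T).pow 2).aestronglyMeasurable
      (Eventually.of_forall fun t => ?_)
    rw [Real.norm_of_nonneg (sq_nonneg _)]
    exact hle t
  refine ⟨hi, integral_nonneg fun t => sq_nonneg _, ?_⟩
  have := integral_mono hi (wt_integrable T hT) hle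
  rwa [wt_integral T hT] at this

lemma split_int {f g h : ℝ → ℝ} (hf : Integrable f) (hg : Integrable g) (hh : Integrable h)
    (a b : ℝ) : Integrable (fun s => a * (f s + g s) + b * h s) ∧
    ∫ s, (a * (f s + g s) + b * h s) = a * ((∫ s, f s) + ∫ s, g s) + b * ∫ s, h s := by
  have h1 : Integrable (fun s => a * (f s + g s)) := (hf.add hg).const_mul a
  have h2 : Integrable (fun s => b * h s) := hh.const_mul b
  refine ⟨h1.add h2, ?_⟩
  rw [integral_add h1 h2, integral_const_mul, integral_const_mul, integral_add hf hg]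

theorem lln_raw (ε : ℝ) (hε : 0 < ε) (hε1 : ε ≤ 1) : ∃ (C CH : ℝ) (P : ℕ), 0 < C ∧ 0 < CH ∧ 1 ≤ P ∧
    ∀ (X Y N M0 : ℕ) (S : Finset ℕ) (T u L : ℝ) (B : Finset IX), 1 ≤ X → X ≤ Y → N ≤ X → P ≤ M0 →
    1 ≤ T → 0 ≤ u → 1 ≤ L → T ≤ M0 → Real.log N ≤ L → (∀ p ∈ S, p.Prime ∧ M0 < p ∧ p ≤ N) →
    B ⊆ primSet X Y →
    ∀ (D1 E1 M H0 Gs HS : ℝ),
    D1 = (1 + ε) * Real.exp (Real.pi * (N * N : ℕ) / (X : ℝ) ^ 2) *
        (c0 ^ 2 * (1 + ε) * Real.log ((Y : ℝ) / X) + C) →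
    E1 = 1 / (M0 : ℝ) * (Real.log ((Y : ℝ) / X) + 1) +
        4 / (X : ℝ) * ∑ h ∈ Finset.Icc 1 N, (h.divisors.card : ℝ) →
    M = ∫ t, ∑ p ∈ S, ‖at' T u p t‖ ^ 2 →
    H0 = ∑ p ∈ S, hp u p →
    Gs = ∑ q ∈ Finset.Ioc X (P * Y), (1 / (q : ℝ)) * (∑ p ∈ S, if p ∣ q then hp u p else 0) ^ 2 →
    HS = CH * ((u + 1) ^ 2 + T * L ^ 2 * (u + 1)) →
    ∫ t, ∑ z ∈ B, (1 / (z.1 : ℝ) ^ 2) * ‖Dz S T u z t‖ ^ 2 ≤ mB B * M +
      Real.sqrt (mB B) * Real.sqrt (D1 * (M ^ 2 + HS) + 8 / ε * H0 ^ 2 * Gs * T ^ 2 -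
        mB (primSet X Y) * M ^ 2 + 2 * E1 * M ^ 2) := by
  obtain ⟨C, P, hC, hP, h4⟩ := fourth ε hε hε1
  obtain ⟨CH, hCH, hhs⟩ := hs_norm
  refine ⟨C, CH, P, hC, hCH, hP, ?_⟩
  intro X Y N M0 S T u L B hX hXY hNX hPM hT hu hL hTM hNL hS hB D1 E1 M H0 Gs HS hD1 hE1 hM hH0 hGs
    hHS
  have hT0 : 0 ≤ T := by linarith
  have hX0 : (0 : ℝ) < X := by exact_mod_cast hX
  have hlog : 0 ≤ Real.log ((Y : ℝ) / X) := by
    apply Real.log_nonneg
    rw [one_le_div hX0]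
    exact_mod_cast hXY
  have hc0 : 0 < c0 := by unfold c0; positivity
  have hD1n : 0 ≤ D1 := by rw [hD1]; positivity
  have hM0 : 0 < M0 := by omega
  have hfc := at_cont T u
  have hfi := at_mul_int T u hT0
  have hSq : Integrable (fun t => ∑ p ∈ S, ‖at' T u p t‖ ^ 2) :=
    integrable_finsetSum _ fun p _ => sq_int hfi p
  have hMn : 0 ≤ M := by
    rw [hM]
    exact integral_nonneg fun t => Finset.sum_nonneg fun _ _ => sq_nonneg _
  have hDi : ∀ z : IX, Integrable (fun t => ‖Dz S T u z t‖ ^ 2) := fun z =>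
    (D_int hfc hfi S (fun p => z.2 (p : ZMod z.1))).2
  set w : IX → ℝ := fun z => 1 / (z.1 : ℝ) ^ 2 with hw
  have hw0 : ∀ z, 0 ≤ w z := fun z => by rw [hw]; positivity
  set V : IX → ℝ := fun z => ∫ t, ‖Dz S T u z t‖ ^ 2 with hV
  have hHS' : ∑ p ∈ S, ∑ r ∈ S, ‖∫ t : ℝ, at' T u p t * (starRingEnd ℂ) (at' T u r t)‖ ^ 2 ≤ HS := by
    rw [hHS]
    exact hhs T u L N M0 S hT hu hL hTM hNL hS
  have hH0n : 0 ≤ H0 := by rw [hH0]; exact Finset.sum_nonneg fun p _ => hp_nonneg u p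
  have hGsn : 0 ≤ Gs := by rw [hGs]; exact Finset.sum_nonneg fun q _ => by positivity
  obtain ⟨hwi, hwn, hwT⟩ := wt_sq_le T hT0
  -- first moment
  have hm1 : (mB (primSet X Y) - E1) * M ≤ ∑ z ∈ primSet X Y, w z * V z := by
    have e1 : ∑ z ∈ primSet X Y, w z * V z = ∫ t, ∑ z ∈ primSet X Y, w z * ‖Dz S T u z t‖ ^ 2 := by
      rw [integral_finsetSum _ fun z _ => (hDi z).const_mul _]
      exact Finset.sum_congr rfl fun z _ => (integral_const_mul _ _).symm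
    rw [e1, hM, ← integral_const_mul]
    refine integral_mono (hSq.const_mul _)
      (integrable_finsetSum _ fun z _ => (hDi z).const_mul _) fun t => ?_
    have := ms_lower X Y N M0 (by omega) hXY hNX hM0 S hS (fun p => at' T u p t)
    rw [← hE1] at this
    exact this
  -- second moment
  set K0 : ℝ := 8 / ε * H0 ^ 2 * Gs with hK0
  have hK0n : 0 ≤ K0 := by positivity
  set Bf : ℝ → ℝ → ℝ := fun t s => D1 * ((∑ p ∈ S, ‖at' T u p t‖ ^ 2) * (∑ p ∈ S, ‖at' T u p s‖ ^ 2) +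
    ‖∑ p ∈ S, at' T u p t * (starRingEnd ℂ) (at' T u p s)‖ ^ 2) +
      K0 * ((wt T t) ^ 2 * (wt T s) ^ 2) with hBf
  have hBle : ∀ t s, ∑ z ∈ primSet X Y, w z * (‖Dz S T u z t‖ ^ 2 * ‖Dz S T u z s‖ ^ 2) ≤ Bf t s := by
    intro t s
    have h := h4 X Y N S (fun p => at' T u p t) (fun p => at' T u p s) hX hXY
      (fun p hp => ⟨(hS p hp).1, lt_of_le_of_lt hPM (hS p hp).2.1, (hS p hp).2.2⟩)
    rw [← hD1] at h
    refine h.trans ?_
    rw [hBf]
    simp only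
    refine add_le_add le_rfl ?_
    have hA : ∀ (t : ℝ) (q : ℕ), ∑ p ∈ S, (if p ∣ q then ‖at' T u p t‖ else 0) ≤
        wt T t * ∑ p ∈ S, (if p ∣ q then hp u p else 0) := by
      intro t q
      rw [Finset.mul_sum]
      refine Finset.sum_le_sum fun p _ => ?_
      split_ifs
      · exact at_norm T u t hT0 p
      · rw [mul_zero]
    have hH : ∀ t : ℝ, ∑ p ∈ S, ‖at' T u p t‖ ≤ wt T t * H0 := by
      intro t
      rw [hH0, Finset.mul_sum]
      exact Finset.sum_le_sum fun p _ => at_norm T u t hT0 p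
    have hw1 := wt_nonneg T t hT0
    have hw2 := wt_nonneg T s hT0
    have hq : ∀ q ∈ Finset.Ioc X (P * Y), (1 / (q : ℝ)) *
        ((∑ p ∈ S, if p ∣ q then ‖at' T u p t‖ else 0) * (∑ p ∈ S, ‖at' T u p s‖) +
          (∑ p ∈ S, ‖at' T u p t‖) * (∑ p ∈ S, if p ∣ q then ‖at' T u p s‖ else 0)) ^ 2 ≤
        (1 / (q : ℝ)) * (∑ p ∈ S, if p ∣ q then hp u p else 0) ^ 2 *
          (4 * H0 ^ 2 * ((wt T t) ^ 2 * (wt T s) ^ 2)) := by
      intro q _
      set g : ℝ := ∑ p ∈ S, if p ∣ q then hp u p else 0 with hg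
      have hg0 : 0 ≤ g := Finset.sum_nonneg fun p _ => by
        split_ifs
        · exact hp_nonneg u p
        · exact le_rfl
      have n1 : ∀ (t : ℝ), 0 ≤ ∑ p ∈ S, (if p ∣ q then ‖at' T u p t‖ else 0) := fun t =>
        Finset.sum_nonneg fun p _ => by split_ifs <;> positivity
      have n2 : ∀ (t : ℝ), 0 ≤ ∑ p ∈ S, ‖at' T u p t‖ := fun t =>
        Finset.sum_nonneg fun p _ => norm_nonneg _
      have h1 : (∑ p ∈ S, if p ∣ q then ‖at' T u p t‖ else 0) * (∑ p ∈ S, ‖at' T u p s‖) ≤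
          (wt T t * g) * (wt T s * H0) := mul_le_mul (hA t q) (hH s) (n2 s) (by positivity)
      have h2 : (∑ p ∈ S, ‖at' T u p t‖) * (∑ p ∈ S, if p ∣ q then ‖at' T u p s‖ else 0) ≤
          (wt T t * H0) * (wt T s * g) := mul_le_mul (hH t) (hA s q) (n1 s) (by positivity)
      have h3 : 0 ≤ (∑ p ∈ S, if p ∣ q then ‖at' T u p t‖ else 0) * (∑ p ∈ S, ‖at' T u p s‖) +
          (∑ p ∈ S, ‖at' T u p t‖) * (∑ p ∈ S, if p ∣ q then ‖at' T u p s‖ else 0) :=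
        add_nonneg (mul_nonneg (n1 t) (n2 s)) (mul_nonneg (n2 t) (n1 s))
      have h5 := pow_le_pow_left₀ h3 (add_le_add h1 h2) 2
      have h6 := mul_le_mul_of_nonneg_left h5 (show 0 ≤ 1 / (q : ℝ) by positivity)
      refine h6.trans (le_of_eq ?_)
      ring
    have h7 := mul_le_mul_of_nonneg_left (Finset.sum_le_sum hq) (show 0 ≤ 2 / ε by positivity)
    refine h7.trans (le_of_eq ?_)
    rw [← Finset.sum_mul, ← hGs, hK0]
    ring
  have hB1 : ∀ t, Integrable (Bf t) ∧ ∫ s, Bf t s = D1 * ((∑ p ∈ S, ‖at' T u p t‖ ^ 2) * M +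
      ∫ s, ‖∑ p ∈ S, at' T u p t * (starRingEnd ℂ) (at' T u p s)‖ ^ 2) +
      K0 * ((wt T t) ^ 2 * ∫ s, (wt T s) ^ 2) := by
    intro t
    have i1 := hSq.const_mul (∑ p ∈ S, ‖at' T u p t‖ ^ 2)
    have i2 := (ker_int hfi S t).1
    have i3 := hwi.const_mul ((wt T t) ^ 2)
    obtain ⟨k1, k2⟩ := split_int i1 i2 i3 D1 K0
    refine ⟨k1, ?_⟩
    rw [hBf]
    refine k2.trans ?_
    rw [integral_const_mul, integral_const_mul, ← hM]
  have j1 := (hSq.mul_const M)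
  have j2 := (ker_int2 hfi S).1
  have j3 := hwi.mul_const (∫ s, (wt T s) ^ 2)
  obtain ⟨l1, l2⟩ := split_int j1 j2 j3 D1 K0
  have hB2 : Integrable (fun t => ∫ s, Bf t s) := by
    have : (fun t => ∫ s, Bf t s) = fun t => D1 * ((∑ p ∈ S, ‖at' T u p t‖ ^ 2) * M +
      ∫ s, ‖∑ p ∈ S, at' T u p t * (starRingEnd ℂ) (at' T u p s)‖ ^ 2) +
      K0 * ((wt T t) ^ 2 * ∫ s, (wt T s) ^ 2) := by
      funext t
      exact (hB1 t).2
    rw [this]
    exact l1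
  have hBI : ∫ t, ∫ s, Bf t s ≤ D1 * (M ^ 2 + HS) + 8 / ε * H0 ^ 2 * Gs * T ^ 2 := by
    have e0 : ∫ t, ∫ s, Bf t s = ∫ t, (D1 * ((∑ p ∈ S, ‖at' T u p t‖ ^ 2) * M +
      ∫ s, ‖∑ p ∈ S, at' T u p t * (starRingEnd ℂ) (at' T u p s)‖ ^ 2) +
      K0 * ((wt T t) ^ 2 * ∫ s, (wt T s) ^ 2)) := by
      congr 1
      funext t
      exact (hB1 t).2
    rw [e0, l2, integral_mul_const, integral_mul_const, ← hM, (ker_int2 hfi S).2]
    have h1 : D1 * (M * M + ∑ p ∈ S, ∑ r ∈ S,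
        ‖∫ t : ℝ, at' T u p t * (starRingEnd ℂ) (at' T u r t)‖ ^ 2) ≤ D1 * (M ^ 2 + HS) := by
      refine mul_le_mul_of_nonneg_left ?_ hD1n
      rw [sq]
      linarith
    have h2 : (∫ s, (wt T s) ^ 2) * (∫ s, (wt T s) ^ 2) ≤ T ^ 2 := by
      rw [sq T]
      exact mul_le_mul hwT hwT hwn hT0
    have h3 := mul_le_mul_of_nonneg_left h2 hK0n
    linarith
  have hm2 : ∑ z ∈ primSet X Y, w z * V z ^ 2 ≤
      D1 * (M ^ 2 + HS) + 8 / ε * H0 ^ 2 * Gs * T ^ 2 :=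
    (mom2_abs (primSet X Y) w (fun z t => ‖Dz S T u z t‖ ^ 2) (fun z _ => hDi z) Bf hBle
      (fun t => (hB1 t).1) hB2).trans hBI
  have hfin := subset_bound (primSet X Y) B hB w (fun z _ => hw0 z) V M (mB (primSet X Y)) E1
    (D1 * (M ^ 2 + HS) + 8 / ε * H0 ^ 2 * Gs * T ^ 2) hMn rfl hm1 hm2
  have e2 : ∫ t, ∑ z ∈ B, (1 / (z.1 : ℝ) ^ 2) * ‖Dz S T u z t‖ ^ 2 = ∑ z ∈ B, w z * V z := by
    rw [integral_finsetSum _ fun z _ => (hDi z).const_mul _]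
    exact Finset.sum_congr rfl fun z _ => integral_const_mul _ _
  rw [e2]
  exact hfin

end Pool.Agent.R321.RE
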