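import Pool.Agent.R321.RE4
import Pool.Agent.R321.RC2

/-!
# Arithmetic estimates
-/

open Complex Filter Topology Set MeasureTheory

set_option maxHeartbeats 4000000

namespace Pool.Agent.R321.RE

open H385 H385.Cut Pool.Agent.R321.RC

noncomputable def hq (u : ℝ) (p : ℕ) : ℝ :=
  ArithmeticFunction.vonMangoldt p / Real.sqrt p * Real.exp (-(u - Real.log p) ^ 2 / 4)

lemma hq_nonneg (u : ℝ) (p : ℕ) : 0 ≤ hq u p :=
  mul_nonneg (div_nonneg ArithmeticFunction.vonMangoldt_nonneg (Real.sqrt_nonneg _))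
    (Real.exp_pos _).le

lemma geo_sum (m : ℕ) : ∑ k ∈ Finset.range m, (1 / Real.sqrt 2) ^ k ≤ 4 := by
  have h2 : (1.4 : ℝ) ≤ Real.sqrt 2 := by
    rw [Real.le_sqrt (by norm_num) (by norm_num)]
    norm_num
  have h3 : 0 < Real.sqrt 2 := by linarith
  set r : ℝ := 1 / Real.sqrt 2 with hr
  have hr0 : 0 ≤ r := by positivity
  have hr1 : r ≤ 3 / 4 := by
    rw [hr, div_le_div_iff₀ h3 (by norm_num)]
    linarith
  have h4 : ∑ k ∈ Finset.range m, r ^ k ≤ ∑ k ∈ Finset.range m, (3 / 4 : ℝ) ^ k :=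
    Finset.sum_le_sum fun k _ => pow_le_pow_left₀ hr0 hr1 k
  refine h4.trans ?_
  rw [geom_sum_eq (by norm_num)]
  have : (0 : ℝ) < (3 / 4 : ℝ) ^ m := by positivity
  rw [div_le_iff_of_neg (by norm_num)]
  linarith

/-- prime powers which are not primes -/
theorem npr_bound : ∃ C : ℝ, 0 < C ∧ ∀ (u : ℝ) (N : ℕ),
    ∑ n ∈ (Finset.Icc 1 N).filter (fun n => ¬ n.Prime), hq u n ≤ C := by
  obtain ⟨C1, hC1, h1⟩ := lam_one_gen 1 one_pos
  refine ⟨4 * C1, by positivity, fun u N => ?_⟩
  set PP : Finset ℕ := (Finset.Icc 1 N).filter (fun n => n.Prime) with hPP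
  set F : Finset ℕ := (Finset.Icc 1 N).filter (fun n => ¬ n.Prime ∧
    ArithmeticFunction.vonMangoldt n ≠ 0) with hF
  have e1 : ∑ n ∈ (Finset.Icc 1 N).filter (fun n => ¬ n.Prime), hq u n = ∑ n ∈ F, hq u n := by
    symm
    apply Finset.sum_subset
    · intro n hn
      rw [hF, Finset.mem_filter] at hn
      rw [Finset.mem_filter]
      exact ⟨hn.1, hn.2.1⟩
    · intro n hn hnF
      rw [Finset.mem_filter] at hn
      rw [hF, Finset.mem_filter] at hnF
      have : ArithmeticFunction.vonMangoldt n = 0 := by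
        by_contra hne
        exact hnF ⟨hn.1, hn.2, hne⟩
      unfold hq
      rw [this]
      simp
  rw [e1]
  have hmem : ∀ x ∈ Finset.Icc 2 (N + 1) ×ˢ PP, 2 ≤ x.1 ∧ x.2.Prime := by
    intro x hx
    rw [Finset.mem_product, Finset.mem_Icc, hPP, Finset.mem_filter] at hx
    exact ⟨hx.1.1, hx.2.2⟩
  have hinj : ∀ x ∈ Finset.Icc 2 (N + 1) ×ˢ PP, ∀ y ∈ Finset.Icc 2 (N + 1) ×ˢ PP,
      x.2 ^ x.1 = y.2 ^ y.1 → x = y := by
    rintro ⟨k, p⟩ hx ⟨j, r⟩ hy h
    obtain ⟨hk, hp⟩ := hmem _ hx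
    obtain ⟨hj, hr⟩ := hmem _ hy
    simp only at hk hp hj hr h
    have h2 : p ∣ r ^ j := by
      rw [← h]
      exact dvd_pow_self p (by omega)
    have h3 : p = r := (Nat.prime_dvd_prime_iff_eq hp hr).1 (hp.dvd_of_dvd_pow h2)
    subst h3
    have h4 := Nat.pow_right_injective hp.two_le h
    rw [h4]
  have hsub : F ⊆ (Finset.Icc 2 (N + 1) ×ˢ PP).image (fun x => x.2 ^ x.1) := by
    intro n hn
    rw [hF, Finset.mem_filter, Finset.mem_Icc] at hn
    obtain ⟨⟨hn1, hnN⟩, hnp, hnΛ⟩ := hn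
    have hpp : IsPrimePow n := by
      by_contra hcon
      apply hnΛ
      rw [ArithmeticFunction.vonMangoldt_apply, if_neg hcon]
    rw [isPrimePow_nat_iff] at hpp
    obtain ⟨p, k, hp, hk, rfl⟩ := hpp
    have hk2 : 2 ≤ k := by
      by_contra hcon
      have : k = 1 := by omega
      subst this
      rw [pow_one] at hnp
      exact hnp hp
    have hkN : k ≤ N := by
      have h2 : k < p ^ k := Nat.lt_pow_self hp.one_lt
      omega
    have hpN : p ≤ N := by
      have h2 : p ≤ p ^ k := Nat.le_self_pow (by omega) p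
      omega
    rw [Finset.mem_image]
    refine ⟨(k, p), ?_, rfl⟩
    rw [Finset.mem_product, Finset.mem_Icc, hPP, Finset.mem_filter, Finset.mem_Icc]
    exact ⟨⟨hk2, by omega⟩, ⟨hp.one_lt.le, hpN⟩, hp⟩
  refine (Finset.sum_le_sum_of_subset_of_nonneg hsub fun n _ _ => hq_nonneg u n).trans ?_
  rw [Finset.sum_image (by
    intro x hx y hy h
    exact hinj x hx y hy h), Finset.sum_product]
  have hk : ∀ k ∈ Finset.Icc 2 (N + 1), ∑ p ∈ PP, hq u (p ^ k) ≤ (1 / Real.sqrt 2) ^ (k - 2) * C1 := by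
    intro k hk
    rw [Finset.mem_Icc] at hk
    have hk2 := hk.1
    have hkr : (2 : ℝ) ≤ k := by exact_mod_cast hk2
    have hs2 : 0 < Real.sqrt 2 := by positivity
    have hterm : ∀ p ∈ PP, hq u (p ^ k) ≤ (1 / Real.sqrt 2) ^ (k - 2) *
        (ArithmeticFunction.vonMangoldt p / p * Real.exp (-1 * (u / k - Real.log p) ^ 2)) := by
      intro p hp
      rw [hPP, Finset.mem_filter] at hp
      have hpp := hp.2
      have hp0 : (0 : ℝ) < p := by exact_mod_cast hpp.pos
      have hp2 : (2 : ℝ) ≤ p := by exact_mod_cast hpp.two_le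
      unfold hq
      rw [ArithmeticFunction.vonMangoldt_apply_pow (by omega), Nat.cast_pow, Real.log_pow]
      have h2 : (p : ℝ) * Real.sqrt 2 ^ (k - 2) ≤ Real.sqrt ((p : ℝ) ^ k) := by
        rw [Real.le_sqrt (by positivity) (by positivity), mul_pow, ← pow_mul, mul_comm (k - 2) 2,
          pow_mul, Real.sq_sqrt (by norm_num)]
        calc (p : ℝ) ^ 2 * 2 ^ (k - 2) ≤ (p : ℝ) ^ 2 * (p : ℝ) ^ (k - 2) :=
              mul_le_mul_of_nonneg_left (pow_le_pow_left₀ (by norm_num) hp2 _) (by positivity)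
          _ = (p : ℝ) ^ k := by rw [← pow_add]; congr 1; omega
      have h3 : ArithmeticFunction.vonMangoldt p / Real.sqrt ((p : ℝ) ^ k) ≤
          ArithmeticFunction.vonMangoldt p / ((p : ℝ) * Real.sqrt 2 ^ (k - 2)) :=
        div_le_div_of_nonneg_left ArithmeticFunction.vonMangoldt_nonneg (by positivity) h2
      have h4 : Real.exp (-(u - k * Real.log p) ^ 2 / 4) ≤
          Real.exp (-1 * (u / k - Real.log p) ^ 2) := by
        apply Real.exp_le_exp.2
        have h5 : u - k * Real.log p = k * (u / k - Real.log p) := by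
          field_simp
        rw [h5, mul_pow]
        have h6 : (4 : ℝ) ≤ (k : ℝ) ^ 2 := by nlinarith
        have h7 := mul_le_mul_of_nonneg_right h6 (sq_nonneg (u / k - Real.log p))
        linarith
      calc _ ≤ ArithmeticFunction.vonMangoldt p / ((p : ℝ) * Real.sqrt 2 ^ (k - 2)) *
            Real.exp (-1 * (u / k - Real.log p) ^ 2) := by
            refine mul_le_mul h3 h4 (Real.exp_pos _).le ?_
            exact div_nonneg ArithmeticFunction.vonMangoldt_nonneg (by positivity)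
        _ = _ := by
            rw [one_div, inv_pow]
            field_simp
    refine (Finset.sum_le_sum hterm).trans ?_
    rw [← Finset.mul_sum]
    refine mul_le_mul_of_nonneg_left ?_ (by positivity)
    obtain ⟨hs, hb⟩ := h1 (u / k)
    refine le_trans (hs.sum_le_tsum PP fun n _ => ?_) hb
    exact mul_nonneg (div_nonneg ArithmeticFunction.vonMangoldt_nonneg (Nat.cast_nonneg _))
      (Real.exp_pos _).le
  refine (Finset.sum_le_sum hk).trans ?_
  rw [← Finset.sum_mul]
  refine mul_le_mul_of_nonneg_right ?_ hC1.le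
  have e2 : ∑ k ∈ Finset.Icc 2 (N + 1), (1 / Real.sqrt 2) ^ (k - 2) =
      ∑ k ∈ Finset.range N, (1 / Real.sqrt 2) ^ k := by
    rw [Finset.sum_bij (i := fun k _ => k - 2) (t := Finset.range N)]
    · intro k hk
      rw [Finset.mem_Icc] at hk
      rw [Finset.mem_range]
      omega
    · intro a ha b hb h
      rw [Finset.mem_Icc] at ha hb
      omega
    · intro b hb
      rw [Finset.mem_range] at hb
      refine ⟨b + 2, ?_, by omega⟩
      rw [Finset.mem_Icc]
      omega
    · intro k _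
      rfl
  rw [e2]
  exact geo_sum N

/-- the terms outside the range of summation -/
theorem diff_bound : ∃ C : ℝ, 0 < C ∧ ∀ (u : ℝ) (N M0 : ℕ) (G : ℝ), 0 ≤ u → 0 ≤ G →
    u + G ≤ Real.log N → 1 ≤ M0 → 2 * Real.log M0 ≤ u →
    ∑' n : ℕ, (if (n.Prime ∧ M0 < n ∧ n ≤ N) then 0 else hq u n) ≤ C * (1 + Real.exp (u / 2 - G ^ 2 / 8)) := by
  obtain ⟨C1, hC1, h1⟩ := npr_bound
  obtain ⟨C2, hC2, h2⟩ := lam_tail
  obtain ⟨C3, hC3, h3⟩ := lam_sqrt_crude
  refine ⟨C1 + C2 + C3 * Real.exp 2, by positivity, ?_⟩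
  intro u N M0 G hu hG hN hM0 hM0u
  obtain ⟨hs3, hb3⟩ := h3 u
  have hsum := half_summable u
  have hnn : ∀ n, 0 ≤ hq u n := hq_nonneg u
  -- split
  have hle : ∀ n : ℕ, (if (n.Prime ∧ M0 < n ∧ n ≤ N) then 0 else hq u n) ≤
      (if n ∈ (Finset.Icc 1 N).filter (fun n => ¬ n.Prime) then hq u n else 0) +
      (if N < n then hq u n else 0) +
      Real.exp (-u ^ 2 / 32) * (ArithmeticFunction.vonMangoldt n / Real.sqrt n *
        Real.exp (-(u - Real.log n) ^ 2 / 8)) := by
    intro n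
    have n1 := hnn n
    have n3 : 0 ≤ Real.exp (-u ^ 2 / 32) * (ArithmeticFunction.vonMangoldt n / Real.sqrt n *
        Real.exp (-(u - Real.log n) ^ 2 / 8)) :=
      mul_nonneg (Real.exp_pos _).le (mul_nonneg (div_nonneg ArithmeticFunction.vonMangoldt_nonneg
        (Real.sqrt_nonneg _)) (Real.exp_pos _).le)
    have m1 : 0 ≤ (if n ∈ (Finset.Icc 1 N).filter (fun n => ¬ n.Prime) then hq u n else 0) := by
      split_ifs <;> first | exact n1 | exact le_rfl
    have m2 : 0 ≤ (if N < n then hq u n else 0) := by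
      split_ifs <;> first | exact n1 | exact le_rfl
    by_cases hgood : n.Prime ∧ M0 < n ∧ n ≤ N
    · rw [if_pos hgood]
      linarith
    · rw [if_neg hgood]
      rcases lt_or_ge N n with hNn | hNn
      · rw [if_pos hNn]
        linarith
      · rcases Nat.eq_zero_or_pos n with rfl | hn0
        · have : hq u 0 = 0 := by unfold hq; simp
          linarith
        · by_cases hpr : n.Prime
          · have hnM : n ≤ M0 := by
              by_contra hcon
              exact hgood ⟨hpr, by omega, hNn⟩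
            have hn0r : (0 : ℝ) < n := by exact_mod_cast hn0
            have hlog : Real.log n ≤ u / 2 := by
              have := Real.log_le_log hn0r (show (n : ℝ) ≤ M0 by exact_mod_cast hnM)
              linarith
            have hkey : hq u n ≤ Real.exp (-u ^ 2 / 32) * (ArithmeticFunction.vonMangoldt n /
                Real.sqrt n * Real.exp (-(u - Real.log n) ^ 2 / 8)) := by
              unfold hq
              have h4 : Real.exp (-(u - Real.log n) ^ 2 / 4) ≤ Real.exp (-u ^ 2 / 32) *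
                  Real.exp (-(u - Real.log n) ^ 2 / 8) := by
                rw [← Real.exp_add]
                apply Real.exp_le_exp.2
                have h5 : u / 2 ≤ u - Real.log n := by linarith
                have h6 : (u / 2) ^ 2 ≤ (u - Real.log n) ^ 2 :=
                  pow_le_pow_left₀ (by linarith) h5 2
                nlinarith
              have h7 := mul_le_mul_of_nonneg_left h4 (div_nonneg
                (ArithmeticFunction.vonMangoldt_nonneg (n := n)) (Real.sqrt_nonneg (n : ℝ)))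
              refine h7.trans (le_of_eq ?_)
              ring
            linarith
          · have hmem : n ∈ (Finset.Icc 1 N).filter (fun n => ¬ n.Prime) := by
              rw [Finset.mem_filter, Finset.mem_Icc]
              exact ⟨⟨hn0, hNn⟩, hpr⟩
            rw [if_pos hmem]
            linarith
  have s1 : Summable (fun n : ℕ => (if n ∈ (Finset.Icc 1 N).filter (fun n => ¬ n.Prime) then
      hq u n else 0)) := by
    refine summable_of_ne_finset_zero (s := (Finset.Icc 1 N).filter (fun n => ¬ n.Prime))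
      fun n hn => if_neg hn
  have s2 : Summable (fun n : ℕ => (if N < n then hq u n else 0)) := by
    refine Summable.of_nonneg_of_le (fun n => ?_) (fun n => ?_) hsum
    · split_ifs <;> first | exact hnn n | exact le_rfl
    · split_ifs
      · exact le_rfl
      · exact hnn n
  have s3 : Summable (fun n : ℕ => Real.exp (-u ^ 2 / 32) * (ArithmeticFunction.vonMangoldt n /
      Real.sqrt n * Real.exp (-(u - Real.log n) ^ 2 / 8))) := hs3.mul_left _
  have s0 : Summable (fun n : ℕ => (if (n.Prime ∧ M0 < n ∧ n ≤ N) then 0 else hq u n)) := by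
    refine Summable.of_nonneg_of_le (fun n => ?_) (fun n => ?_) hsum
    · split_ifs <;> first | exact hnn n | exact le_rfl
    · split_ifs
      · exact hnn n
      · exact le_rfl
  refine (s0.tsum_le_tsum hle ((s1.add s2).add s3)).trans ?_
  rw [(s1.add s2).tsum_add s3, s1.tsum_add s2]
  have t1 : ∑' n : ℕ, (if n ∈ (Finset.Icc 1 N).filter (fun n => ¬ n.Prime) then hq u n else 0) ≤ C1 := by
    rw [tsum_eq_sum (s := (Finset.Icc 1 N).filter (fun n => ¬ n.Prime)) fun n hn => if_neg hn]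
    refine le_trans (le_of_eq ?_) (h1 u N)
    exact Finset.sum_congr rfl fun n hn => if_pos hn
  have t2 : ∑' n : ℕ, (if N < n then hq u n else 0) ≤ C2 * Real.exp (u / 2 - G ^ 2 / 8) :=
    h2 u G N hu hG hN
  have t3 : ∑' n : ℕ, Real.exp (-u ^ 2 / 32) * (ArithmeticFunction.vonMangoldt n /
      Real.sqrt n * Real.exp (-(u - Real.log n) ^ 2 / 8)) ≤ C3 * Real.exp 2 := by
    rw [tsum_mul_left]
    refine (mul_le_mul_of_nonneg_left hb3 (Real.exp_pos _).le).trans ?_
    have : Real.exp (-u ^ 2 / 32) * (C3 * Real.exp (u / 2)) =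
        C3 * Real.exp (-u ^ 2 / 32 + u / 2) := by
      rw [Real.exp_add]
      ring
    rw [this]
    refine mul_le_mul_of_nonneg_left (Real.exp_le_exp.2 ?_) hC3.le
    nlinarith [sq_nonneg (u - 8)]
  have hE := Real.exp_pos (u / 2 - G ^ 2 / 8)
  have hE2 := Real.exp_pos 2
  nlinarith [mul_pos hC1 hE, mul_pos (mul_pos hC3 hE2) hE]

/-- the divisibility sums -/
theorem Gs_bound : ∃ C : ℝ, 0 < C ∧ ∀ (X Y N M0 P : ℕ) (S : Finset ℕ) (u L κ : ℝ), 1 ≤ X → X ≤ Y →
    1 ≤ P → N ≤ X → 1 ≤ M0 → 0 ≤ u → 1 ≤ L → Real.log N ≤ L → 0 ≤ κ →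
    (∀ q ∈ Finset.Ioc X (P * Y), Real.log q ≤ κ * Real.log M0) → 0 < Real.log M0 →
    (∀ p ∈ S, p.Prime ∧ M0 < p ∧ p ≤ N) →
    (∑ p ∈ S, hq u p) ^ 2 * ∑ q ∈ Finset.Ioc X (P * Y), (1 / (q : ℝ)) *
      (∑ p ∈ S, if p ∣ q then hq u p else 0) ^ 2 ≤
      C * κ * L * (Real.log ((P * Y : ℕ) / (X : ℝ)) + 1) := by
  obtain ⟨C1, hC1, h1⟩ := lam_one_gen (1 / 4) (by norm_num)
  obtain ⟨C2, hC2, h2⟩ := lam_half_crude
  refine ⟨C2 ^ 2 * (Real.exp 1 * C1), by positivity, ?_⟩
  intro X Y N M0 P S u L κ hX hXY hP hNX hM0 hu hL hNL hκ hκq hM0l hS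
  have hX0 : (0 : ℝ) < X := by exact_mod_cast hX
  have hXPY : X ≤ P * Y := hXY.trans (Nat.le_mul_of_pos_left Y (by omega))
  have hlog : 0 ≤ Real.log ((P * Y : ℕ) / (X : ℝ)) := by
    apply Real.log_nonneg
    rw [one_le_div hX0]
    exact_mod_cast hXPY
  -- H0
  have hH : ∑ p ∈ S, hq u p ≤ C2 * Real.exp (u / 2) := by
    obtain ⟨hs, hb⟩ := h2 u hu
    exact (hs.sum_le_tsum S fun n _ => hq_nonneg u n).trans hb
  have hH0 : 0 ≤ ∑ p ∈ S, hq u p := Finset.sum_nonneg fun p _ => hq_nonneg u p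
  have hH2 : (∑ p ∈ S, hq u p) ^ 2 ≤ C2 ^ 2 * Real.exp u := by
    refine (pow_le_pow_left₀ hH0 hH 2).trans (le_of_eq ?_)
    rw [mul_pow, ← Real.exp_nat_mul]
    congr 2
    push_cast
    ring
  -- the number of prime divisors
  have hcard : ∀ q ∈ Finset.Ioc X (P * Y), ((S.filter (fun p => p ∣ q)).card : ℝ) ≤ κ := by
    intro q hqm
    have hq0 : 0 < q := by rw [Finset.mem_Ioc] at hqm; omega
    have hq0r : (0 : ℝ) < q := by exact_mod_cast hq0
    have hdvd : ∏ p ∈ S.filter (fun p => p ∣ q), p ∣ q := by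
      apply Finset.prod_primes_dvd
      · intro p hp
        rw [Finset.mem_filter] at hp
        exact (hS p hp.1).1.prime
      · intro p hp
        rw [Finset.mem_filter] at hp
        exact hp.2
    have hle : ∏ p ∈ S.filter (fun p => p ∣ q), p ≤ q := Nat.le_of_dvd hq0 hdvd
    have hlow : M0 ^ (S.filter (fun p => p ∣ q)).card ≤ ∏ p ∈ S.filter (fun p => p ∣ q), p := by
      apply Finset.pow_card_le_prod
      intro p hp
      rw [Finset.mem_filter] at hp
      exact (hS p hp.1).2.1.le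
    have h3 : ((M0 : ℝ)) ^ (S.filter (fun p => p ∣ q)).card ≤ q := by
      exact_mod_cast hlow.trans hle
    have hM0r : (0 : ℝ) < M0 := by exact_mod_cast hM0
    have h4 := Real.log_le_log (by positivity) h3
    rw [Real.log_pow] at h4
    have h5 := h4.trans (hκq q hqm)
    exact le_of_mul_le_mul_right h5 hM0l
  have hG : ∑ q ∈ Finset.Ioc X (P * Y), (1 / (q : ℝ)) *
      (∑ p ∈ S, if p ∣ q then hq u p else 0) ^ 2 ≤
      κ * ∑ p ∈ S, (hq u p) ^ 2 * (1 / (p : ℝ) * (Real.log ((P * Y : ℕ) / (X : ℝ)) + 1)) := by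
    have s1 : ∀ q ∈ Finset.Ioc X (P * Y), (1 / (q : ℝ)) *
        (∑ p ∈ S, if p ∣ q then hq u p else 0) ^ 2 ≤
        κ * ∑ p ∈ S, (hq u p) ^ 2 * (if p ∣ q then 1 / (q : ℝ) else 0) := by
      intro q hqm
      rw [← Finset.sum_filter]
      have h3 := sq_sum_le_card_mul_sum_sq (s := S.filter (fun p => p ∣ q)) (f := fun p => hq u p)
      have h4 : (∑ p ∈ S.filter (fun p => p ∣ q), hq u p) ^ 2 ≤
          κ * ∑ p ∈ S.filter (fun p => p ∣ q), hq u p ^ 2 :=
        h3.trans (mul_le_mul_of_nonneg_right (hcard q hqm) (Finset.sum_nonneg fun _ _ => sq_nonneg _))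
      have h5 := mul_le_mul_of_nonneg_left h4 (show 0 ≤ 1 / (q : ℝ) by positivity)
      refine h5.trans (le_of_eq ?_)
      rw [Finset.sum_filter, Finset.mul_sum, Finset.mul_sum, Finset.mul_sum]
      refine Finset.sum_congr rfl fun p _ => ?_
      split_ifs
      · ring
      · ring
    refine (Finset.sum_le_sum s1).trans ?_
    rw [← Finset.mul_sum, Finset.sum_comm]
    refine mul_le_mul_of_nonneg_left ?_ hκ
    refine Finset.sum_le_sum fun p hp => ?_
    rw [← Finset.mul_sum]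
    refine mul_le_mul_of_nonneg_left ?_ (sq_nonneg _)
    obtain ⟨hpp, hpM, hpN⟩ := hS p hp
    exact sum_mult_inv hpp.one_lt.le (hpN.trans hNX) hXPY
  have hterm : ∀ p ∈ S, (hq u p) ^ 2 * (1 / (p : ℝ)) ≤ L * (Real.exp 1 * Real.exp (-u) *
      (ArithmeticFunction.vonMangoldt p / p * Real.exp (-(1 / 4) * (u - Real.log p) ^ 2))) := by
    intro p hp
    obtain ⟨hpp, hpM, hpN⟩ := hS p hp
    have hp0 : (0 : ℝ) < p := by exact_mod_cast hpp.pos
    have hΛ : ArithmeticFunction.vonMangoldt p ≤ L := by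
      refine ArithmeticFunction.vonMangoldt_le_log.trans ?_
      refine le_trans (Real.log_le_log hp0 ?_) hNL
      exact_mod_cast hpN
    have hΛ0 : 0 ≤ ArithmeticFunction.vonMangoldt p := ArithmeticFunction.vonMangoldt_nonneg
    unfold hq
    rw [mul_pow, div_pow, Real.sq_sqrt hp0.le]
    have h3 : 1 / (p : ℝ) = Real.exp (-Real.log p) := by
      rw [Real.exp_neg, Real.exp_log hp0, one_div]
    have h4 : Real.exp (-(u - Real.log p) ^ 2 / 4) ^ 2 * (1 / (p : ℝ)) ≤
        Real.exp 1 * Real.exp (-u) * Real.exp (-(1 / 4) * (u - Real.log p) ^ 2) := by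
      rw [h3, ← Real.exp_nat_mul, ← Real.exp_add, ← Real.exp_add, ← Real.exp_add]
      apply Real.exp_le_exp.2
      push_cast
      nlinarith [sq_nonneg (u - Real.log p - 2)]
    calc ArithmeticFunction.vonMangoldt p ^ 2 / p * Real.exp (-(u - Real.log p) ^ 2 / 4) ^ 2 *
          (1 / (p : ℝ)) = ArithmeticFunction.vonMangoldt p ^ 2 / p *
          (Real.exp (-(u - Real.log p) ^ 2 / 4) ^ 2 * (1 / (p : ℝ))) := by ring
      _ ≤ ArithmeticFunction.vonMangoldt p ^ 2 / p *
          (Real.exp 1 * Real.exp (-u) * Real.exp (-(1 / 4) * (u - Real.log p) ^ 2)) :=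
          mul_le_mul_of_nonneg_left h4 (by positivity)
      _ = ArithmeticFunction.vonMangoldt p * (Real.exp 1 * Real.exp (-u) *
          (ArithmeticFunction.vonMangoldt p / p * Real.exp (-(1 / 4) * (u - Real.log p) ^ 2))) := by
          ring
      _ ≤ _ := mul_le_mul_of_nonneg_right hΛ (by positivity)
  have hsum : ∑ p ∈ S, (hq u p) ^ 2 * (1 / (p : ℝ) * (Real.log ((P * Y : ℕ) / (X : ℝ)) + 1)) ≤
      L * (Real.exp 1 * Real.exp (-u) * C1) * (Real.log ((P * Y : ℕ) / (X : ℝ)) + 1) := by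
    have e1 : ∀ p ∈ S, (hq u p) ^ 2 * (1 / (p : ℝ) * (Real.log ((P * Y : ℕ) / (X : ℝ)) + 1)) =
        ((hq u p) ^ 2 * (1 / (p : ℝ))) * (Real.log ((P * Y : ℕ) / (X : ℝ)) + 1) := fun p _ => by ring
    rw [Finset.sum_congr rfl e1, ← Finset.sum_mul]
    refine mul_le_mul_of_nonneg_right ?_ (by linarith)
    refine (Finset.sum_le_sum hterm).trans ?_
    rw [← Finset.mul_sum, ← Finset.mul_sum]
    refine mul_le_mul_of_nonneg_left ?_ (by linarith)
    refine mul_le_mul_of_nonneg_left ?_ (by positivity)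
    obtain ⟨hs, hb⟩ := h1 u
    refine le_trans (hs.sum_le_tsum S fun n _ => ?_) hb
    exact mul_nonneg (div_nonneg ArithmeticFunction.vonMangoldt_nonneg (Nat.cast_nonneg _))
      (Real.exp_pos _).le
  have hG2 := hG.trans (mul_le_mul_of_nonneg_left hsum hκ)
  have hGn : 0 ≤ ∑ q ∈ Finset.Ioc X (P * Y), (1 / (q : ℝ)) *
      (∑ p ∈ S, if p ∣ q then hq u p else 0) ^ 2 := Finset.sum_nonneg fun q _ => by positivity
  refine (mul_le_mul hH2 hG2 hGn (by positivity)).trans (le_of_eq ?_)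
  have hee : Real.exp u * Real.exp (-u) = 1 := by rw [← Real.exp_add, add_neg_cancel, Real.exp_zero]
  calc C2 ^ 2 * Real.exp u * (κ * (L * (Real.exp 1 * Real.exp (-u) * C1) *
        (Real.log ((P * Y : ℕ) / (X : ℝ)) + 1))) =
      (Real.exp u * Real.exp (-u)) * (C2 ^ 2 * (Real.exp 1 * C1) * κ * L *
        (Real.log ((P * Y : ℕ) / (X : ℝ)) + 1)) := by ring
    _ = _ := by rw [hee, one_mul]

end Pool.Agent.R321.RE
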