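import Pool.Agent.R321.RE6
import Pool.Agent.R321.RE7

/-!
# The law of large numbers over the family
-/

open Complex Filter Topology Set MeasureTheory

set_option maxHeartbeats 4000000

namespace Pool.Agent.R321.RE

open H385 H385.Cut Pool.Agent.R321.RC

lemma hp_eq_hq (u : ℝ) (p : ℕ) : hp u p = hq u p := rfl

/-- mass of the family -/
lemma mass_facts (A : ℝ) : ∃ K : ℝ, 1 ≤ K ∧ ∀ X Y : ℕ, 1 ≤ X → K * X ≤ Y →
    A ≤ Real.log ((Y : ℝ) / X) ∧ 1 ≤ WW X Y ∧ Real.log ((Y : ℝ) / X) ≤ 2 / c0 ^ 2 * WW X Y ∧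
      X ≤ Y ∧ 1 ≤ Real.log ((Y : ℝ) / X) := by
  obtain ⟨C4, hC4, hmass⟩ := prim_mass
  have hc0 : 0 < c0 := by unfold c0; positivity
  set A' : ℝ := max (max A 1) ((2 * C4 + 2) / c0 ^ 2) with hA'
  have hA'1 : 1 ≤ A' := (le_max_right _ _).trans (le_max_left _ _)
  refine ⟨Real.exp A', Real.one_le_exp (by linarith), ?_⟩
  intro X Y hX hKX
  have hXpos : (0 : ℝ) < X := by exact_mod_cast hX
  have hK1 : 1 ≤ Real.exp A' := Real.one_le_exp (by linarith)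
  have hXYr : (X : ℝ) ≤ Y := NL.b11 hXpos.le hK1 hKX
  have hXY : X ≤ Y := by exact_mod_cast hXYr
  have hYpos : (0 : ℝ) < Y := by linarith
  have hlog : A' ≤ Real.log ((Y : ℝ) / X) := by
    rw [Real.le_log_iff_exp_le (by positivity), le_div_iff₀ hXpos]
    exact hKX
  have h1 := (abs_le.1 (hmass X Y hX hXY)).1
  have h2 : primFam X Y (fun _ _ => 1) = WW X Y := rfl
  rw [h2] at h1
  have h3 : (2 * C4 + 2) / c0 ^ 2 ≤ Real.log ((Y : ℝ) / X) := (le_max_right _ _).trans hlog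
  rw [div_le_iff₀ (by positivity)] at h3
  refine ⟨(le_max_left _ _).trans ((le_max_left _ _).trans hlog), by linarith, ?_, hXY,
    hA'1.trans hlog⟩
  rw [div_mul_eq_mul_div, le_div_iff₀ (by positivity)]
  linarith

/-- the constant of the large sieve -/
lemma D1_le (ε C : ℝ) (hε : 0 < ε) (hε1 : ε ≤ 1) (hC : 0 < C) : ∃ K : ℝ, 1 ≤ K ∧
    ∀ (X Y : ℕ) (x : ℝ), 1 ≤ X → K * X ≤ Y → x ≤ ε / 2 →
    (1 + ε) * Real.exp x * (c0 ^ 2 * (1 + ε) * Real.log ((Y : ℝ) / X) + C) ≤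
      (1 + 11 * ε) * WW X Y := by
  obtain ⟨C4, hC4, hmass⟩ := prim_mass
  have hc0 : 0 < c0 := by unfold c0; positivity
  refine ⟨Real.exp ((3 * C4 + C) / (ε * c0 ^ 2)), Real.one_le_exp (by positivity), ?_⟩
  intro X Y x hX hKX hx
  have hXpos : (0 : ℝ) < X := by exact_mod_cast hX
  have hK1 : 1 ≤ Real.exp ((3 * C4 + C) / (ε * c0 ^ 2)) := Real.one_le_exp (by positivity)
  have hXYr : (X : ℝ) ≤ Y := NL.b11 hXpos.le hK1 hKX
  have hXY : X ≤ Y := by exact_mod_cast hXYr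
  have hYpos : (0 : ℝ) < Y := by linarith
  set 𝓛 : ℝ := Real.log ((Y : ℝ) / X) with h𝓛
  have h𝓛K : (3 * C4 + C) / (ε * c0 ^ 2) ≤ 𝓛 := by
    rw [h𝓛, Real.le_log_iff_exp_le (by positivity), le_div_iff₀ hXpos]
    exact hKX
  have hWlow := (abs_le.mp (hmass X Y hX hXY)).1
  have hWlow' : c0 ^ 2 * 𝓛 - C4 ≤ WW X Y := by
    have : primFam X Y (fun _ _ => 1) = WW X Y := rfl
    rw [this] at hWlow; linarith
  have h𝓛n : 0 ≤ 𝓛 := le_trans (by positivity) h𝓛K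
  have hexp : Real.exp x ≤ 1 + ε := by
    refine (Real.exp_le_exp.mpr hx).trans ?_
    have h4 := Real.exp_bound_div_one_sub_of_interval (x := ε / 2) (by positivity) (by linarith)
    refine h4.trans ?_
    rw [div_le_iff₀ (by linarith)]
    exact NL.c1 hε hε1
  have h1 : c0 ^ 2 * (1 + ε) * 𝓛 + C ≤ (1 + 2 * ε) * WW X Y := by
    have h2 : 3 * C4 + C ≤ ε * c0 ^ 2 * 𝓛 := by
      rw [div_le_iff₀ (by positivity)] at h𝓛K; linarith
    have h3 : (1 + 2 * ε) * (c0 ^ 2 * 𝓛 - C4) ≤ (1 + 2 * ε) * WW X Y :=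
      mul_le_mul_of_nonneg_left hWlow' (by linarith)
    have h4 : (1 + 2 * ε) * (c0 ^ 2 * 𝓛 - C4) = c0 ^ 2 * (1 + ε) * 𝓛 + ε * c0 ^ 2 * 𝓛 -
      (1 + 2 * ε) * C4 := by ring
    have h5 : (1 + 2 * ε) * C4 ≤ 3 * C4 := mul_le_mul_of_nonneg_right (by linarith) hC4.le
    linarith
  have hW0 : 0 ≤ WW X Y := primFam_nonneg _ _ _ (fun _ _ => zero_le_one)
  have h6 : (1 + ε) * Real.exp x * (c0 ^ 2 * (1 + ε) * 𝓛 + C) ≤
      (1 + ε) * (1 + ε) * ((1 + 2 * ε) * WW X Y) := by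
    refine mul_le_mul ?_ h1 (by positivity) (by positivity)
    exact mul_le_mul_of_nonneg_left hexp (by linarith)
  refine h6.trans ?_
  have h7 : (1 + ε) * (1 + ε) * (1 + 2 * ε) ≤ 1 + 11 * ε := by
    have g1 : ε ^ 2 ≤ ε := pow_le_of_le_one hε.le hε1 two_ne_zero
    have g2 : ε ^ 3 ≤ ε := pow_le_of_le_one hε.le hε1 three_ne_zero
    have g3 : (1 + ε) * (1 + ε) * (1 + 2 * ε) = 1 + 4 * ε + 5 * ε ^ 2 + 2 * ε ^ 3 := by ring
    rw [g3]; linarith
  calc _ = ((1 + ε) * (1 + ε) * (1 + 2 * ε)) * WW X Y := by ring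
    _ ≤ _ := mul_le_mul_of_nonneg_right h7 hW0

lemma WW_mB (X Y : ℕ) : mB (primSet X Y) = WW X Y := by
  unfold mB WW
  rw [primFam_eq]
  simp

/-- the primes of the sums -/
noncomputable def PS (M0 N : ℕ) : Finset ℕ := (Finset.Icc 1 N).filter (fun p => p.Prime ∧ M0 < p)

lemma mem_PS {M0 N p : ℕ} : p ∈ PS M0 N ↔ p.Prime ∧ M0 < p ∧ p ≤ N := by
  unfold PS
  rw [Finset.mem_filter, Finset.mem_Icc]
  constructor
  · rintro ⟨⟨h1, h2⟩, h3, h4⟩
    exact ⟨h3, h4, h2⟩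
  · rintro ⟨h1, h2, h3⟩
    exact ⟨⟨h1.one_lt.le, h3⟩, h1, h2⟩

/-- the difference of the full sum and the sum over primes -/
lemma diff_pt (M0 N : ℕ) (T u t : ℝ) (hT : 0 ≤ T) (z : IX) :
    ‖Pf (cf z) T u t - Dz (PS M0 N) T u z t‖ ≤
      wt T t * ∑' n : ℕ, (if (n.Prime ∧ M0 < n ∧ n ≤ N) then 0 else hq u n) := by
  have hterm : ∀ n : ℕ, cf z n * ((Real.sqrt n : ℂ)⁻¹ * bt T u t (Real.log n)) =
      at' T u n t * z.2 (n : ZMod z.1) := by
    intro n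
    unfold cf at'
    ring
  have hsum := Pf_summable (cf_norm z) T u t hT
  have hDz : Dz (PS M0 N) T u z t = ∑' n : ℕ, (if n ∈ PS M0 N then
      at' T u n t * z.2 (n : ZMod z.1) else 0) := by
    unfold Dz
    rw [tsum_eq_sum (s := PS M0 N) fun n hn => if_neg hn]
    exact Finset.sum_congr rfl fun n hn => (if_pos hn).symm
  have hs2 : Summable (fun n : ℕ => (if n ∈ PS M0 N then
      at' T u n t * z.2 (n : ZMod z.1) else 0)) :=
    summable_of_ne_finset_zero (s := PS M0 N) fun n hn => if_neg hn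
  have hsq : Summable (fun n : ℕ => (if (n.Prime ∧ M0 < n ∧ n ≤ N) then 0 else hq u n)) := by
    refine Summable.of_nonneg_of_le (fun n => ?_) (fun n => ?_) (half_summable u)
    · split_ifs <;> first | exact hq_nonneg u n | exact le_rfl
    · split_ifs
      · exact hq_nonneg u n
      · exact le_rfl
  unfold Pf
  rw [hDz, ← hsum.tsum_sub hs2, ← tsum_mul_left]
  have hle : ∀ n : ℕ, ‖cf z n * ((Real.sqrt n : ℂ)⁻¹ * bt T u t (Real.log n)) -
      (if n ∈ PS M0 N then at' T u n t * z.2 (n : ZMod z.1) else 0)‖ ≤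
      wt T t * (if (n.Prime ∧ M0 < n ∧ n ≤ N) then 0 else hq u n) := by
    intro n
    rw [hterm n]
    by_cases h : n ∈ PS M0 N
    · rw [if_pos h, sub_self, norm_zero, if_pos (mem_PS.1 h), mul_zero]
    · rw [if_neg h, sub_zero, if_neg (fun h' => h (mem_PS.2 h')), norm_mul]
      have h1 := at_norm T u t hT n
      have h2 := DirichletCharacter.norm_le_one z.2 (n : ZMod z.1)
      have h3 : 0 ≤ wt T t * hq u n := mul_nonneg (wt_nonneg T t hT) (hq_nonneg u n)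
      calc _ ≤ (wt T t * hq u n) * 1 := mul_le_mul h1 h2 (norm_nonneg _) h3
        _ = _ := mul_one _
  exact tsum_of_norm_bounded (hsq.mul_left _).hasSum hle

/-- arithmetic of the variance -/
lemma radicand {W T v L ε δ D1 E1 M HS G CM CH CG : ℝ} (hW : 0 ≤ W) (hε : 0 < ε)
    (hε1 : ε ≤ 1) (hδ : 0 < δ) (hL : 1 ≤ L) (hT : L ^ 2 ≤ T) (hv : δ * L ≤ v) (hv0 : 1 ≤ v)
    (hD1 : D1 ≤ (1 + 11 * ε) * W) (hE1 : E1 ≤ ε * W) (hM0 : 0 ≤ M) (hM : M ≤ CM * (T * v))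
    (hCH : 0 < CH) (hHS : HS = CH * (v ^ 2 + T * L ^ 2 * v)) (hCG : 0 < CG)
    (hG : G ≤ CG * W * L * T ^ 2) :
    D1 * (M ^ 2 + HS) + G - W * M ^ 2 + 2 * E1 * M ^ 2 ≤
      W * (T * v) ^ 2 * (13 * ε * CM ^ 2 + (12 * CH * (1 + 1 / δ) + CG / δ ^ 2) / L) := by
  have hT1 : 1 ≤ T := le_trans (by nlinarith) hT
  have hT0 : 0 < T := by linarith
  have hL0 : 0 < L := by linarith
  have hv0' : 0 < v := by linarith
  have hM2 : M ^ 2 ≤ CM ^ 2 * (T * v) ^ 2 := by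
    rw [← mul_pow]
    exact pow_le_pow_left₀ hM0 hM 2
  have hHSn : 0 ≤ HS := by rw [hHS]; positivity
  have hD12 : D1 ≤ 12 * W := hD1.trans (mul_le_mul_of_nonneg_right (by linarith) hW)
  have h1 : D1 * (M ^ 2 + HS) - W * M ^ 2 + 2 * E1 * M ^ 2 ≤ 13 * ε * W * M ^ 2 + 12 * W * HS := by
    have a1 := mul_le_mul_of_nonneg_right hD1 (sq_nonneg M)
    have a2 := mul_le_mul_of_nonneg_right hD12 hHSn
    have a3 := mul_le_mul_of_nonneg_right hE1 (sq_nonneg M)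
    nlinarith
  have hinv : 1 / L ≤ 1 := by rw [div_le_one hL0]; exact hL
  have hHS2 : HS ≤ CH * ((T * v) ^ 2 * ((1 + 1 / δ) / L)) := by
    rw [hHS]
    refine mul_le_mul_of_nonneg_left ?_ hCH.le
    have b1 : v ^ 2 ≤ (T * v) ^ 2 * (1 / L) := by
      have : L ≤ T ^ 2 := by nlinarith
      rw [mul_pow, mul_one_div, le_div_iff₀ hL0]
      nlinarith [sq_nonneg v]
    have b2 : T * L ^ 2 * v ≤ (T * v) ^ 2 * ((1 / δ) / L) := by
      have e1 : (T * v) ^ 2 * ((1 / δ) / L) = T * v * (T * (v / (δ * L))) := by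
        field_simp
      rw [e1]
      have c1 : 1 ≤ v / (δ * L) := by rw [one_le_div (by positivity)]; exact hv
      have c2 : L ^ 2 ≤ T * (v / (δ * L)) := hT.trans (le_mul_of_one_le_right hT0.le c1)
      calc T * L ^ 2 * v = T * v * L ^ 2 := by ring
        _ ≤ T * v * (T * (v / (δ * L))) := mul_le_mul_of_nonneg_left c2 (by positivity)
    have e2 : (T * v) ^ 2 * ((1 + 1 / δ) / L) = (T * v) ^ 2 * (1 / L) + (T * v) ^ 2 * ((1 / δ) / L) := by
      ring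
    rw [e2]
    linarith
  have hG2 : G ≤ W * (T * v) ^ 2 * (CG / δ ^ 2 / L) := by
    refine hG.trans ?_
    have e1 : W * (T * v) ^ 2 * (CG / δ ^ 2 / L) = CG * W * T ^ 2 * (v ^ 2 / (δ ^ 2 * L)) := by
      field_simp
    rw [e1]
    have c1 : L ≤ v ^ 2 / (δ ^ 2 * L) := by
      rw [le_div_iff₀ (by positivity)]
      have := pow_le_pow_left₀ (by positivity) hv 2
      calc L * (δ ^ 2 * L) = (δ * L) ^ 2 := by ring
        _ ≤ _ := this
    calc CG * W * L * T ^ 2 = CG * W * T ^ 2 * L := by ring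
      _ ≤ _ := mul_le_mul_of_nonneg_left c1 (by positivity)
  have h2 : 13 * ε * W * M ^ 2 ≤ 13 * ε * W * (CM ^ 2 * (T * v) ^ 2) :=
    mul_le_mul_of_nonneg_left hM2 (by positivity)
  have h3 : 12 * W * HS ≤ 12 * W * (CH * ((T * v) ^ 2 * ((1 + 1 / δ) / L))) :=
    mul_le_mul_of_nonneg_left hHS2 (by positivity)
  have e3 : W * (T * v) ^ 2 * (13 * ε * CM ^ 2 + (12 * CH * (1 + 1 / δ) + CG / δ ^ 2) / L) =
      13 * ε * W * (CM ^ 2 * (T * v) ^ 2) + 12 * W * (CH * ((T * v) ^ 2 * ((1 + 1 / δ) / L))) +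
      W * (T * v) ^ 2 * (CG / δ ^ 2 / L) := by ring
  rw [e3]
  linarith

end Pool.Agent.R321.RE
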