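import Pool.Agent.R321.RE8
import Pool.Agent.H369R2.S6a

/-!
# The law of large numbers over the family, final form
-/

open Complex Filter Topology Set MeasureTheory

set_option maxHeartbeats 4000000

namespace Pool.Agent.R321.RE

open H385 H385.Cut Pool.Agent.R321.RC

/-- the sizes of the parameters -/
structure Par (δ : ℝ) (X N M0 : ℕ) (L : ℝ) : Prop where
  NX : N ≤ X
  NL : Real.log N ≤ L
  Nlow : (1 - 3 * δ / 4) * L ≤ Real.log N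
  N0 : 1 ≤ N
  M01 : 1 ≤ M0
  M0up : Real.log M0 ≤ δ / 4 * L
  M0low : δ / 8 * L ≤ Real.log M0
  Nexp : (N : ℝ) ≤ Real.exp ((1 - δ / 2) * L)
  M0exp : Real.exp (δ / 8 * L) ≤ M0

lemma par_ok (δ : ℝ) (hδ : 0 < δ) (hδ1 : δ ≤ 1 / 2) (X : ℕ) (L : ℝ) (hX : 1 ≤ X)
    (hL : L = Real.log X) (hL1 : 1 ≤ L) (hL8 : 1 ≤ δ / 8 * L) :
    Par δ X ⌊Real.exp ((1 - δ / 2) * L)⌋₊ ⌊Real.exp (δ / 4 * L)⌋₊ L := by
  have hXpos : (0 : ℝ) < X := by exact_mod_cast hX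
  have hXe : (X : ℝ) = Real.exp L := by rw [hL, Real.exp_log hXpos]
  have hl2 : Real.log 2 ≤ 1 := by have := Real.log_two_lt_d9; linarith
  have hfl : ∀ x : ℝ, 0 ≤ x → ((⌊Real.exp x⌋₊ : ℕ) : ℝ) ≤ Real.exp x ∧
      1 ≤ ⌊Real.exp x⌋₊ ∧ x - Real.log 2 ≤ Real.log (⌊Real.exp x⌋₊ : ℕ) := by
    intro x hx
    have h1 : 1 ≤ Real.exp x := Real.one_le_exp hx
    have h2 : 1 ≤ ⌊Real.exp x⌋₊ := by
      rw [Nat.one_le_floor_iff]
      exact h1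
    refine ⟨Nat.floor_le (Real.exp_pos x).le, h2, ?_⟩
    have h3 := Nat.lt_floor_add_one (Real.exp x)
    have h4 : (1 : ℝ) ≤ ((⌊Real.exp x⌋₊ : ℕ) : ℝ) := by exact_mod_cast h2
    have h5 : Real.exp x / 2 ≤ ((⌊Real.exp x⌋₊ : ℕ) : ℝ) := by linarith
    have h6 := Real.log_le_log (by positivity) h5
    rw [Real.log_div (Real.exp_pos x).ne' (by norm_num), Real.log_exp] at h6
    exact h6
  have hx1 : 0 ≤ (1 - δ / 2) * L := mul_nonneg (by linarith) (by linarith)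
  have hx2 : 0 ≤ δ / 4 * L := by positivity
  obtain ⟨a1, a2, a3⟩ := hfl _ hx1
  obtain ⟨b1, b2, b3⟩ := hfl _ hx2
  have a2r : (0 : ℝ) < ((⌊Real.exp ((1 - δ / 2) * L)⌋₊ : ℕ) : ℝ) := by exact_mod_cast a2
  have b2r : (0 : ℝ) < ((⌊Real.exp (δ / 4 * L)⌋₊ : ℕ) : ℝ) := by exact_mod_cast b2
  have hNXr : ((⌊Real.exp ((1 - δ / 2) * L)⌋₊ : ℕ) : ℝ) ≤ X := by
    refine a1.trans ?_
    rw [hXe]
    apply Real.exp_le_exp.2
    nlinarith
  have hM0low : δ / 8 * L ≤ Real.log (⌊Real.exp (δ / 4 * L)⌋₊ : ℕ) := by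
    refine le_trans ?_ b3
    have : δ / 4 * L = δ / 8 * L + δ / 8 * L := by ring
    linarith
  refine ⟨by exact_mod_cast hNXr, ?_, ?_, a2, b2, ?_, hM0low, a1, ?_⟩
  · exact (Real.log_le_log a2r hNXr).trans (le_of_eq hL.symm)
  · refine le_trans ?_ a3
    have : (1 - δ / 2) * L = (1 - 3 * δ / 4) * L + (δ / 8 * L + δ / 8 * L) := by ring
    linarith
  · have := Real.log_le_log b2r b1
    rwa [Real.log_exp] at this
  · rw [← Real.exp_log b2r]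
    exact Real.exp_le_exp.2 hM0low

/-- eventual facts -/
lemma ev_facts (δ ε P A1 A2 A3 A4 : ℝ) (hδ : 0 < δ) (hε : 0 < ε) : ∀ᶠ L : ℝ in atTop,
    1 ≤ L ∧ 1 ≤ δ / 8 * L ∧ Real.log P ≤ δ / 8 * L ∧ Real.log P ≤ L ∧ 64 / δ ^ 2 ≤ L ∧
    Real.pi * Real.exp (-(δ * L)) ≤ ε / 2 ∧ A1 * Real.exp (-(δ / 8 * L)) ≤ ε ∧ A2 / L ≤ ε ∧
    A3 ≤ ε * L ∧ A4 ≤ ε * (δ * L) := by
  have h1 : Tendsto (fun L : ℝ => Real.pi * Real.exp (-(δ * L))) atTop (𝓝 (Real.pi * 0)) :=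
    (Real.tendsto_exp_neg_atTop_nhds_zero.comp (tendsto_id.const_mul_atTop hδ)).const_mul _
  have h2 : Tendsto (fun L : ℝ => A1 * Real.exp (-(δ / 8 * L))) atTop (𝓝 (A1 * 0)) :=
    (Real.tendsto_exp_neg_atTop_nhds_zero.comp
      (tendsto_id.const_mul_atTop (by positivity : 0 < δ / 8))).const_mul _
  have h3 : Tendsto (fun L : ℝ => A2 / L) atTop (𝓝 0) := tendsto_const_nhds.div_atTop tendsto_id
  rw [mul_zero] at h1 h2
  filter_upwards [eventually_ge_atTop 1, lin_ev 1 (δ / 8) (by positivity),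
    lin_ev (Real.log P) (δ / 8) (by positivity), eventually_ge_atTop (Real.log P),
    eventually_ge_atTop (64 / δ ^ 2), h1.eventually (eventually_le_nhds (show 0 < ε / 2 by positivity)),
    h2.eventually (eventually_le_nhds hε), h3.eventually (eventually_le_nhds hε),
    lin_ev A3 ε hε, lin_ev A4 (ε * δ) (by positivity)] with L a1 a2 a3 a4 a5 a6 a7 a8 a9 a10
  refine ⟨a1, a2, a3, a4, a5, a6, a7, a8, a9, ?_⟩
  rw [← mul_assoc]
  exact a10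

end Pool.Agent.R321.RE
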