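import Pool.Agent.R321.RC0
import Pool.Agent.H385R2.DirU
import Pool.Agent.H385R2.FinDA0
import Pool.Agent.H385R2.EcD1
import Pool.Agent.W762.EC.Chi

/-!
# The product `L(s, χ) L(s, χ χ₄)` for a primitive character of odd conductor
-/

open Complex Filter Topology Set MeasureTheory

set_option maxHeartbeats 4000000

namespace Pool.Agent.R321.RG

open H385
open Pool.Agent.W762.EC.Chi (X4 X4_apply X4_prim)
open Pool.Agent.R321.RC (goodD_mul)

/-- change of the conductor by a factor two -/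
theorem goodD_rescale {B Q : ℝ} {F : ℂ → ℂ} {a : ℕ → ℂ} (hB : 1 ≤ B) (hQ : 1 ≤ Q)
    (h : GoodD 2 B (2 * Q) F a) : GoodD 2 (B * 2 ^ B + 2) Q F a := by
  have h2B : (2 : ℝ) ≤ 2 ^ B := by
    calc (2 : ℝ) = 2 ^ (1 : ℝ) := (Real.rpow_one 2).symm
      _ ≤ 2 ^ B := Real.rpow_le_rpow_of_exponent_le (by norm_num) hB
  have hBB : B ≤ B * 2 ^ B := by
    calc B = B * 1 := (mul_one B).symm
      _ ≤ B * 2 ^ B := mul_le_mul_of_nonneg_left (by linarith) (by linarith)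
  refine ⟨h.an, ?_, ?_, h.nzr, h.nzl, h.symm, h.ha, h.ld, ?_⟩
  · intro s h1 h2 h3
    have hx : 1 ≤ Q * s.im := one_le_mul_of_one_le_of_one_le hQ h3
    have hx0 : 0 ≤ Q * s.im := by linarith
    have e1 : (2 * Q * s.im) ^ B = 2 ^ B * (Q * s.im) ^ B := by
      rw [show 2 * Q * s.im = 2 * (Q * s.im) by ring, Real.mul_rpow (by norm_num) hx0]
    have e2 : (Q * s.im) ^ B ≤ (Q * s.im) ^ (B * 2 ^ B + 2) :=
      Real.rpow_le_rpow_of_exponent_le hx (by linarith)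
    have e3 : 0 ≤ (Q * s.im) ^ (B * 2 ^ B + 2) := by positivity
    calc ‖F s‖ ≤ B * (2 * Q * s.im) ^ B := h.growth s h1 h2 h3
      _ = (B * 2 ^ B) * (Q * s.im) ^ B := by rw [e1]; ring
      _ ≤ (B * 2 ^ B + 2) * (Q * s.im) ^ (B * 2 ^ B + 2) := by
          refine mul_le_mul (by linarith) e2 (by positivity) (by positivity)
  · intro t ht
    refine le_trans ?_ (h.lower t ht)
    exact inv_anti₀ (by linarith) (by linarith)
  · intro s h1 h2 h3 h4
    have b := h.left s h1 h2 h3 h4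
    have hQs : 0 < Q * s.im := by
      have : 1 ≤ Q * s.im := one_le_mul_of_one_le_of_one_le hQ h3
      linarith
    have e1 : ((2 * Real.log (2 * Q * s.im) : ℝ) : ℂ) =
        ((2 * Real.log (Q * s.im) : ℝ) : ℂ) + ((2 * Real.log 2 : ℝ) : ℂ) := by
      rw [← Complex.ofReal_add]
      congr 1
      rw [show 2 * Q * s.im = 2 * (Q * s.im) by ring, Real.log_mul (by norm_num) hQs.ne']
      ring
    rw [e1] at b
    have hl : ‖((2 * Real.log 2 : ℝ) : ℂ)‖ ≤ 2 := by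
      rw [Complex.norm_real, Real.norm_of_nonneg (by positivity)]
      have := Real.log_two_lt_d9
      linarith
    calc _ = ‖(deriv F s / F s + (((2 * Real.log (Q * s.im) : ℝ) : ℂ) +
          ((2 * Real.log 2 : ℝ) : ℂ)) + (starRingEnd ℂ) (deriv F (1 - (starRingEnd ℂ) s) /
          F (1 - (starRingEnd ℂ) s))) - ((2 * Real.log 2 : ℝ) : ℂ)‖ := by
          congr 1
          ring
      _ ≤ B + 2 := (norm_sub_le _ _).trans (add_le_add b hl)
      _ ≤ B * 2 ^ B + 2 := by linarith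

/-- the character `χ χ₄` modulo `4 q` -/
noncomputable def tw {q : ℕ} (χ : DirichletCharacter ℂ q) : DirichletCharacter ℂ (q * 4) := pm χ X4

lemma tw_apply {q : ℕ} (χ : DirichletCharacter ℂ q) (n : ℕ) :
    tw χ (n : ZMod (q * 4)) = χ (n : ZMod q) * ((ZMod.χ₄ (n : ZMod 4) : ℤ) : ℂ) := by
  unfold tw
  rw [pm_apply, X4_apply]

/-- the L-function of a character, zero if the modulus is zero -/
noncomputable def LL (q : ℕ) (χ : DirichletCharacter ℂ q) : ℂ → ℂ :=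
  if h : q = 0 then 0 else
    haveI : NeZero q := ⟨h⟩
    DirichletCharacter.LFunction χ

lemma LL_eq (q : ℕ) [NeZero q] (χ : DirichletCharacter ℂ q) :
    LL q χ = DirichletCharacter.LFunction χ := by
  unfold LL
  rw [dif_neg (NeZero.ne q)]

/-- the product `L(s, χ) L(s, χ χ₄)` -/
noncomputable def F4 (q : ℕ) (χ : DirichletCharacter ℂ q) : ℂ → ℂ :=
  fun s => LL q χ s * LL (q * 4) (tw χ) s

/-- its coefficients -/
noncomputable def c4 (n : ℕ) : ℂ := 1 + ((ZMod.χ₄ (n : ZMod 4) : ℤ) : ℂ)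

/-- both factors satisfy the conditions `GoodU` -/
theorem good_both : ∃ A : ℝ, 1 ≤ A ∧ ∀ (q : ℕ) (χ : DirichletCharacter ℂ q), 1 ≤ q →
    Nat.Coprime q 2 → χ.IsPrimitive →
    GoodU A q (LL q χ) (fun n => χ (n : ZMod q) * (ArithmeticFunction.vonMangoldt n : ℂ)) ∧
    GoodU A (4 * (q : ℝ)) (LL (q * 4) (tw χ)) (fun n => χ (n : ZMod q) *
      ((ZMod.χ₄ (n : ZMod 4) : ℤ) : ℂ) * (ArithmeticFunction.vonMangoldt n : ℂ)) := by
  obtain ⟨A, hA, hgood⟩ := good_dirichlet_U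
  refine ⟨A, hA, fun q χ hq hc hχ => ?_⟩
  have hq0 : NeZero q := ⟨by omega⟩
  have h40 : NeZero (q * 4) := ⟨by omega⟩
  have hcop : Nat.Coprime q 4 := by
    have : Nat.Coprime q (2 ^ 2) := Nat.Coprime.pow_right 2 hc
    simpa using this
  have hprim : (tw χ).IsPrimitive := pm_primitive hcop hχ X4_prim
  refine ⟨?_, ?_⟩
  · rw [LL_eq]
    exact hgood q χ hχ
  · rw [LL_eq]
    have h := hgood (q * 4) (tw χ) hprim
    have e1 : (((q * 4 : ℕ) : ℝ)) = 4 * (q : ℝ) := by push_cast; ring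
    rw [e1] at h
    have e2 : (fun n : ℕ => tw χ (n : ZMod (q * 4)) * (ArithmeticFunction.vonMangoldt n : ℂ)) =
        (fun n : ℕ => χ (n : ZMod q) * ((ZMod.χ₄ (n : ZMod 4) : ℤ) : ℂ) *
          (ArithmeticFunction.vonMangoldt n : ℂ)) := by
      funext n
      rw [tw_apply]
    rw [e2] at h
    exact h

theorem F4_good : ∃ A : ℝ, 1 ≤ A ∧ TwD 2 A 2 c4 F4 := by
  obtain ⟨A, hA, hg⟩ := good_both
  set B : ℝ := 2 * A ^ 2 with hB
  have hB1 : 1 ≤ B := by
    have : 1 ≤ A ^ 2 := one_le_pow₀ hA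
    rw [hB]; linarith
  refine ⟨B * 2 ^ B + 2, ?_, ?_, ?_⟩
  · have : 0 ≤ B * 2 ^ B := by positivity
    linarith
  · intro n
    unfold c4
    have h1 : ‖((ZMod.χ₄ (n : ZMod 4) : ℤ) : ℂ)‖ ≤ 1 := by
      rw [← X4_apply]
      exact DirichletCharacter.norm_le_one _ _
    calc ‖(1 : ℂ) + ((ZMod.χ₄ (n : ZMod 4) : ℤ) : ℂ)‖ ≤ ‖(1 : ℂ)‖ +
          ‖((ZMod.χ₄ (n : ZMod 4) : ℤ) : ℂ)‖ := norm_add_le _ _
      _ ≤ 2 := by rw [norm_one]; linarith
  · intro q χ hq hc hχ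
    obtain ⟨g1, g2⟩ := hg q χ (by omega) hc hχ
    have hq1 : (1 : ℝ) ≤ q := by exact_mod_cast (show 1 ≤ q by omega)
    have h := goodD_mul hA hq1 (by linarith) g1 g2
    have e1 : Real.sqrt ((q : ℝ) * (4 * (q : ℝ))) = 2 * q := by
      rw [show (q : ℝ) * (4 * (q : ℝ)) = (2 * q) ^ 2 by ring, Real.sqrt_sq (by positivity)]
    rw [e1] at h
    have h2 := goodD_rescale hB1 hq1 h
    have e3 : (fun n : ℕ => χ (n : ZMod q) * (ArithmeticFunction.vonMangoldt n : ℂ) +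
        χ (n : ZMod q) * ((ZMod.χ₄ (n : ZMod 4) : ℤ) : ℂ) *
          (ArithmeticFunction.vonMangoldt n : ℂ)) =
        (fun n : ℕ => χ (n : ZMod q) * c4 n * (ArithmeticFunction.vonMangoldt n : ℂ)) := by
      funext n
      unfold c4
      ring
    rw [e3] at h2
    exact h2

end Pool.Agent.R321.RG
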