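import Pool.Agent.H385R2.FinDB3
import Pool.Agent.H385R2.FinDA
import Pool.Agent.R321.RG1

/-!
# Scaling of the mean square hypothesis; the family theorem for `L(s, χ) L(s, χ χ₄)`
-/

open Complex Filter Topology Set MeasureTheory
open H370 (zset mult NN Nd Ns)

set_option maxHeartbeats 4000000

namespace Pool.Agent.R321.RG

open H385

lemma fam_mul (M X Y : ℕ) (a : ℝ) (f : (q : ℕ) → DirichletCharacter ℂ q → ℝ) :
    primFamM M X Y (fun q χ => a * f q χ) = a * primFamM M X Y f := by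
  have h := primFamM_lin M X Y a 0 f f
  simp only [zero_mul, sub_zero] at h
  exact h

/-- scaling of the mean square hypothesis by `√2` -/
theorem HYM_scale (M : ℕ) (c c' : ℕ → ℂ) (hcc : ∀ n, c n = ((Real.sqrt 2 : ℝ) : ℂ) * c' n)
    (γ β e : ℝ) (h : HYM M c' γ β e) : HYM M c γ β (2 * e) := by
  intro ε hε
  obtain ⟨K, η, X0, hK, hη, hX0, hh⟩ := h (ε / 2) (by positivity)
  refine ⟨K, η, X0, hK, hη, hX0, ?_⟩
  intro X Y T a1 a2 a3 a4 a5
  obtain ⟨Yf, y1, y2, hy1, hy2, m1, m2, m3, m4, m5⟩ := hh X Y T a1 a2 a3 a4 a5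
  refine ⟨fun u => 2 * Yf u, 2 * y1, 2 * y2, by positivity, by positivity, ?_, ?_, ?_, ?_, ?_⟩
  · intro u hu
    have e1 : ∀ t : ℝ, primFamM M X Y (fun q χ =>
      ‖∑' n : ℕ, (χ (n : ZMod q) * c n * (ArithmeticFunction.vonMangoldt n : ℂ)) *
        ((Real.sqrt n : ℂ)⁻¹ * bt T u t (Real.log n))‖ ^ 2) = 2 * primFamM M X Y (fun q χ =>
      ‖∑' n : ℕ, (χ (n : ZMod q) * c' n * (ArithmeticFunction.vonMangoldt n : ℂ)) *
        ((Real.sqrt n : ℂ)⁻¹ * bt T u t (Real.log n))‖ ^ 2) := by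
      intro t
      rw [← fam_mul]
      congr 1
      funext q χ
      have e2 : ∀ n : ℕ, (χ (n : ZMod q) * c n * (ArithmeticFunction.vonMangoldt n : ℂ)) *
        ((Real.sqrt n : ℂ)⁻¹ * bt T u t (Real.log n)) = ((Real.sqrt 2 : ℝ) : ℂ) *
        ((χ (n : ZMod q) * c' n * (ArithmeticFunction.vonMangoldt n : ℂ)) *
        ((Real.sqrt n : ℂ)⁻¹ * bt T u t (Real.log n))) := by
        intro n
        rw [hcc]
        ring
      simp_rw [e2]
      rw [tsum_mul_left, norm_mul, mul_pow, Complex.norm_real,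
        Real.norm_of_nonneg (Real.sqrt_nonneg _), Real.sq_sqrt (by norm_num)]
    simp_rw [e1]
    rw [integral_const_mul]
    exact mul_le_mul_of_nonneg_left (m1 u hu) (by norm_num)
  · intro u hu
    have := m2 u hu
    have e1 : T * (2 * y1 * (u + 1) + 2 * y2) = 2 * (T * (y1 * (u + 1) + y2)) := by ring
    rw [e1]
    exact mul_le_mul_of_nonneg_left this (by norm_num)
  · exact m3.const_mul 2
  · have e1 : ∫ u in (0 : ℝ)..(β * Real.log X), Rw γ (u / (β * Real.log X)) * (2 * Yf u) =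
        2 * ∫ u in (0 : ℝ)..(β * Real.log X), Rw γ (u / (β * Real.log X)) * Yf u := by
      rw [← intervalIntegral.integral_const_mul]
      congr 1
      funext u
      ring
    rw [e1]
    have e2 : T / (2 * Real.pi) * Real.log X * WM M X Y * (2 * e + ε) =
        2 * (T / (2 * Real.pi) * Real.log X * WM M X Y * (e + ε / 2)) := by ring
    rw [e2]
    calc _ = 2 * ((2 / (Real.sqrt Real.pi * (β * Real.log X))) *
          ∫ u in (0 : ℝ)..(β * Real.log X), Rw γ (u / (β * Real.log X)) * Yf u) := by ring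
      _ ≤ _ := mul_le_mul_of_nonneg_left m4 (by norm_num)
  · rw [Real.sqrt_mul (by norm_num), Real.sqrt_mul (by norm_num), ← mul_add]
    have h2 : Real.sqrt 2 ≤ 2 := by
      rw [Real.sqrt_le_left (by norm_num)]
      norm_num
    have h3 : 0 ≤ Real.sqrt y1 + Real.sqrt y2 := by positivity
    calc Real.sqrt 2 * (Real.sqrt y1 + Real.sqrt y2) ≤ 2 * (Real.sqrt y1 + Real.sqrt y2) :=
          mul_le_mul_of_nonneg_right h2 h3
      _ ≤ 2 * (ε / 2 * Real.log X * Real.sqrt (WM M X Y)) :=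
          mul_le_mul_of_nonneg_left m5 (by norm_num)
      _ = _ := by ring

/-- the family theorem with a constant, for coefficients with `∑ |Λ c|² / n ~ (log x)²` -/
theorem final_two (A : ℝ) (hA : 1 ≤ A) (M : ℕ) (hM : Squarefree M) (c c' : ℕ → ℂ)
    (hcc : ∀ n, c n = ((Real.sqrt 2 : ℝ) : ℂ) * c' n) (hc' : ∀ n, ‖c' n‖ ≤ 2)
    (F : (q : ℕ) → DirichletCharacter ℂ q → ℂ → ℂ) (hF : TwD 2 A M c F)
    (C0 : ℝ) (hS : Selb c' C0) (γ κ : ℝ) (h0 : 0 < γ) (hπ : γ < Real.pi)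
    (hκ : Rw γ 0 + 4 * (∫ α in (0 : ℝ)..1, α * Rw γ α) < κ) :
    ∃ K η X0 : ℝ, 1 ≤ K ∧ 0 < η ∧ 1 ≤ X0 ∧
    ∀ (X Y : ℕ) (T : ℝ), X0 ≤ X → K * X ≤ Y → (Y : ℝ) ≤ (X : ℝ) ^ (1 + η) →
      (Real.log X) ^ 2 ≤ T → T ≤ (X : ℝ) ^ η →
      (2 - κ) * primFamM M X Y (fun q χ => (NN (F q χ) T (2 * T) : ℝ)) ≤
        primFamM M X Y (fun q χ => (Ns (F q χ) T (2 * T) : ℝ)) ∧
      (3 - κ) / 2 * primFamM M X Y (fun q χ => (NN (F q χ) T (2 * T) : ℝ)) ≤
        primFamM M X Y (fun q χ => (Nd (F q χ) T (2 * T) : ℝ)) := by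
  set R0 : ℝ := Rw γ 0 with hR0
  have hR0n : 0 ≤ R0 := Rw_nonneg γ h0 hπ 0
  set J : ℝ := ∫ α in (0 : ℝ)..1, α * Rw γ α with hJ
  have hJn : 0 ≤ J := intervalIntegral.integral_nonneg zero_le_one (fun α hα =>
    mul_nonneg hα.1 (Rw_nonneg γ h0 hπ α))
  set e : ℝ := κ - (R0 + 4 * J) with he
  have he0 : 0 < e := by rw [he]; linarith
  -- choose β
  set s : ℝ := min (1 / 2) (e / (2 * (R0 + 1))) with hs
  have hs0 : 0 < s := by positivity
  have hs1 : s ≤ 1 / 2 := min_le_left _ _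
  have hs2 : R0 * s ≤ e / 2 := by
    have h1 : s ≤ e / (2 * (R0 + 1)) := min_le_right _ _
    calc R0 * s ≤ R0 * (e / (2 * (R0 + 1))) := mul_le_mul_of_nonneg_left h1 hR0n
      _ = e / 2 * (R0 / (R0 + 1)) := by field_simp
      _ ≤ e / 2 * 1 := by
        refine mul_le_mul_of_nonneg_left ?_ (by linarith)
        rw [div_le_one (by positivity)]; linarith
      _ = e / 2 := mul_one _
  set β : ℝ := 2 - s with hβ
  have hβ1 : 1 < β := by rw [hβ]; linarith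
  have hβ2 : β < 2 := by rw [hβ]; linarith
  have hβ0 : 0 < β := by linarith
  have e2 : 2 * R0 / β ≤ R0 + e / 2 := by
    rw [div_le_iff₀ hβ0]
    have h1 : (R0 + e / 2) * β = 2 * R0 - R0 * s + e / 2 * β := by rw [hβ]; ring
    rw [h1]
    have h2 : e / 2 * 1 ≤ e / 2 * β := mul_le_mul_of_nonneg_left hβ1.le (by linarith)
    linarith
  have hcp : 0 ≤ 2 * (2 * β * J) := by positivity
  obtain ⟨K, η, X0, hK, hη, hX0, h⟩ := final_core_D 2 A (by norm_num) hA M c F hF γ β _ h0 hπ hβ0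
    hcp hR0n (HYM_scale M c c' hcc γ β _
      (HYM_stage1 M hM 2 (by norm_num) c' hc' C0 hS γ β h0 hπ hβ0 hβ2)) (e / 2) (by positivity)
  refine ⟨K, η, X0, hK, hη, hX0, ?_⟩
  intro X Y T a1 a2 a3 a4 a5
  obtain ⟨b1, b2⟩ := h X Y T a1 a2 a3 a4 a5
  have hN : 0 ≤ primFamM M X Y (fun q χ => (NN (F q χ) T (2 * T) : ℝ)) :=
    primFamM_nonneg _ _ _ _ (fun _ _ => Nat.cast_nonneg _)
  have hJ2 : 2 * (2 * β * J) / 2 ≤ 4 * J := by
    have h1 : β * J ≤ 2 * J := mul_le_mul_of_nonneg_right hβ2.le hJn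
    linarith
  have hcc2 : 2 * R0 / β + 2 * (2 * β * J) / 2 + e / 2 ≤ κ := by
    have : R0 + 4 * J + e = κ := by rw [he]; ring
    linarith
  have hcc' := mul_le_mul_of_nonneg_right hcc2 hN
  have l1 := primFamM_lin M X Y 2 1 (fun q χ => (NN (F q χ) T (2 * T) : ℝ))
    (fun q χ => (Ns (F q χ) T (2 * T) : ℝ))
  have l2 := primFamM_lin M X Y 3 2 (fun q χ => (NN (F q χ) T (2 * T) : ℝ))
    (fun q χ => (Nd (F q χ) T (2 * T) : ℝ))
  simp only [one_mul] at l1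
  rw [l1] at b1
  rw [l2] at b2
  constructor
  · linarith
  · linarith

end Pool.Agent.R321.RG
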