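import Pool.Agent.H385R2.Win

/-!
# The constant `1 + cot 1`
-/

open Complex Filter Topology Set MeasureTheory

set_option maxHeartbeats 4000000

namespace Pool.Agent.R321.RG

open H385

theorem trig_1 : |Real.cos 1 - 0.5403023| ≤ 1 / 10 ^ 7 ∧ |Real.sin 1 - 0.841471| ≤ 1 / 10 ^ 7 := by
  have hx : ‖((1 : ℝ) : ℂ) * I‖ = 1 := by
    rw [norm_mul, Complex.norm_real, Complex.norm_I, mul_one]
    norm_num
  have h := Complex.exp_bound' (x := ((1 : ℝ) : ℂ) * I) (n := 12) (by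
    rw [hx]; norm_num)
  rw [hx] at h
  have hI2 : I ^ 2 = -1 := I_sq
  have hI3 : I ^ 3 = -I := by rw [pow_succ, hI2]; ring
  have hI4 : I ^ 4 = 1 := by rw [pow_succ, hI3]; ring_nf; rw [hI2]; ring
  have hI5 : I ^ 5 = I := by rw [pow_succ, hI4]; ring
  have hI6 : I ^ 6 = -1 := by rw [pow_succ, hI5, ← pow_two, hI2]
  have hI7 : I ^ 7 = -I := by rw [pow_succ, hI6]; ring
  have hI8 : I ^ 8 = 1 := by rw [pow_succ, hI7]; ring_nf; rw [hI2]; ring
  have hI9 : I ^ 9 = I := by rw [pow_succ, hI8]; ring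
  have hI10 : I ^ 10 = -1 := by rw [pow_succ, hI9, ← pow_two, hI2]
  have hI11 : I ^ 11 = -I := by rw [pow_succ, hI10]; ring
  set A : ℝ := 1 - (1 : ℝ) ^ 2 / 2 + 1 ^ 4 / 24 - 1 ^ 6 / 720 + 1 ^ 8 / 40320 - 1 ^ 10 / 3628800
    with hA
  set B : ℝ := (1 : ℝ) - 1 ^ 3 / 6 + 1 ^ 5 / 120 - 1 ^ 7 / 5040 + 1 ^ 9 / 362880 -
    1 ^ 11 / 39916800 with hB
  have hsum : ∑ m ∈ Finset.range 12, (((1 : ℝ) : ℂ) * I) ^ m / (m.factorial : ℂ) =
      (A : ℂ) + (B : ℂ) * I := by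
    simp only [Finset.sum_range_succ, Finset.sum_range_zero, mul_pow, hI2, hI3, hI4, hI5, hI6, hI7,
      hI8, hI9, hI10, hI11, Nat.factorial, hA, hB]
    push_cast
    ring
  rw [hsum, Complex.exp_ofReal_mul_I] at h
  have hre := (Complex.abs_re_le_norm _).trans h
  have him := (Complex.abs_im_le_norm _).trans h
  have e1 : ((((Real.cos 1 : ℝ) : ℂ) + ((Real.sin 1 : ℝ) : ℂ) * I -
      ((A : ℂ) + (B : ℂ) * I))).re = Real.cos 1 - A := by
    rw [Complex.sub_re, Complex.add_re, Complex.add_re, Complex.re_ofReal_mul,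
      Complex.re_ofReal_mul, Complex.I_re, Complex.ofReal_re, Complex.ofReal_re]
    ring
  have e2 : ((((Real.cos 1 : ℝ) : ℂ) + ((Real.sin 1 : ℝ) : ℂ) * I -
      ((A : ℂ) + (B : ℂ) * I))).im = Real.sin 1 - B := by
    rw [Complex.sub_im, Complex.add_im, Complex.add_im, Complex.im_ofReal_mul,
      Complex.im_ofReal_mul, Complex.I_im, Complex.ofReal_im, Complex.ofReal_im]
    ring
  rw [e1] at hre
  rw [e2] at him
  have hb : (1 : ℝ) ^ 12 / ((12 : ℕ).factorial : ℝ) * 2 ≤ 1 / 10 ^ 8 := by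
    norm_num [Nat.factorial]
  have hA1 : |A - 0.5403023| ≤ 1 / 10 ^ 8 := by
    rw [hA, abs_le]
    constructor <;> norm_num
  have hB1 : |B - 0.841471| ≤ 2 / 10 ^ 8 := by
    rw [hB, abs_le]
    constructor <;> norm_num
  rw [abs_le] at hre him hA1 hB1 ⊢
  rw [abs_le]
  refine ⟨⟨?_, ?_⟩, ?_, ?_⟩ <;> linarith [hre.1, hre.2, him.1, him.2, hA1.1, hA1.2, hB1.1, hB1.2]

theorem Rw_const_1 : Rw 2 0 + 4 * ∫ α in (0 : ℝ)..1, α * Rw 2 α =
    1 + Real.cos 1 / Real.sin 1 := by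
  have hsin : 0 < Real.sin 1 := by
    have := abs_le.1 trig_1.2
    linarith [this.1]
  set γ : ℝ := 2 with hγ
  have hγ0 : γ ≠ 0 := by rw [hγ]; norm_num
  have hhalf : γ / 2 = 1 := by rw [hγ]; norm_num
  set K := (γ / (2 * Real.sin (γ / 2))) ^ 2 / 2 with hK
  have h1 : ∫ α in (0 : ℝ)..1, α * Rw γ α = (∫ α in (0 : ℝ)..1, α * ((1 - α) * Real.cos (γ * α) +
      Real.sin (γ * (1 - α)) / γ)) * K := by
    rw [← intervalIntegral.integral_mul_const]
    apply intervalIntegral.integral_congr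
    intro x hx
    rw [Set.uIcc_of_le zero_le_one] at hx
    simp only
    unfold Rw
    rw [abs_of_nonneg hx.1, if_pos hx.2]
    ring
  have h0 : Rw γ 0 = (1 + Real.sin γ / γ) * K := by
    unfold Rw
    simp only [abs_zero, zero_le_one, if_true, sub_zero, mul_zero, Real.cos_zero, mul_one]
    ring
  rw [h1, H370.Rf_const_aux _ hγ0, h0]
  have e1 : Real.sin γ = 2 * Real.sin 1 * Real.cos 1 := by
    rw [hγ, show (2 : ℝ) = 2 * 1 by norm_num, Real.sin_two_mul, mul_one]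
  have e2 : Real.cos γ = 1 - 2 * Real.sin 1 ^ 2 := by
    rw [hγ, show (2 : ℝ) = 2 * 1 by norm_num, Real.cos_two_mul, Real.cos_sq']
    ring
  rw [e1, e2, hK, hhalf, hγ]
  have hS : Real.sin 1 ≠ 0 := hsin.ne'
  field_simp
  ring

theorem Rw_const_lt : Rw 2 0 + 4 * (∫ α in (0 : ℝ)..1, α * Rw 2 α) < 1.6421 := by
  rw [Rw_const_1]
  have h1 := abs_le.1 trig_1.1
  have h2 := abs_le.1 trig_1.2
  have hsin : 0 < Real.sin 1 := by linarith [h2.1]
  have h3 : Real.cos 1 / Real.sin 1 < 0.6421 := by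
    rw [div_lt_iff₀ hsin]
    linarith [h1.2, h2.1]
  linarith

end Pool.Agent.R321.RG
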